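import Mathlib

namespace Pool.Agent.H55.Ample

open Finset

def S (P : Finset ℕ) : ℕ → Finset ℕ
  | 0 => {1}
  | j + 1 => (P ×ˢ S P j).image (fun x => x.1 * x.2)

theorem S_dvd (P : Finset ℕ) (j : ℕ) : ∀ n ∈ S P j, n ∣ (∏ p ∈ P, p) ^ j := by
  induction j with
  | zero => simp [S]
  | succ j ih =>
    intro n hn
    simp only [S, mem_image, mem_product] at hn
    obtain ⟨⟨p, m⟩, ⟨hp, hm⟩, rfl⟩ := hn
    rw [pow_succ']
    exact mul_dvd_mul (dvd_prod_of_mem _ hp) (ih m hm)

theorem S_card (P : Finset ℕ) (hP : ∀ p ∈ P, p.Prime) (j : ℕ) :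
    (S P j).card ≤ (j + 1) ^ P.card := by
  have hN : (∏ p ∈ P, p) ≠ 0 := prod_ne_zero_iff.2 fun p hp => (hP p hp).ne_zero
  have hsq : Squarefree (∏ p ∈ P, p) := by
    apply Finset.squarefree_prod_of_pairwise_isCoprime
    · intro p hp q hq hpq
      have := (Nat.coprime_primes (hP p hp) (hP q hq)).2 hpq
      exact Nat.coprime_iff_isRelPrime.1 this
    · intro p hp; exact (hP p hp).squarefree
  have h1 : S P j ⊆ ((∏ p ∈ P, p) ^ j).divisors := fun n hn =>
    Nat.mem_divisors.2 ⟨S_dvd P j n hn, pow_ne_zero _ hN⟩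
  refine (card_le_card h1).trans ?_
  rw [Nat.card_divisors (pow_ne_zero _ hN)]
  have h2 : ((∏ p ∈ P, p) ^ j).primeFactors ⊆ P := by
    rcases Nat.eq_zero_or_pos j with rfl | hj
    · simp
    · rw [Nat.primeFactors_pow _ hj.ne', Nat.primeFactors_prod hP]
  calc ∏ x ∈ ((∏ p ∈ P, p) ^ j).primeFactors, (((∏ p ∈ P, p) ^ j).factorization x + 1)
      ≤ ∏ x ∈ ((∏ p ∈ P, p) ^ j).primeFactors, (j + 1) := by
        apply prod_le_prod' 
        intro x _
        have := hsq.natFactorization_le_one x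
        rw [Nat.factorization_pow]
        simp only [Finsupp.smul_apply, smul_eq_mul]
        nlinarith
    _ = (j + 1) ^ ((∏ p ∈ P, p) ^ j).primeFactors.card := by simp
    _ ≤ (j + 1) ^ P.card := Nat.pow_le_pow_right (by omega) (card_le_card h2)

theorem S_pos (P : Finset ℕ) (hP : ∀ p ∈ P, p.Prime) (j : ℕ) : ∀ n ∈ S P j, 0 < n := by
  intro n hn
  have hN : (∏ p ∈ P, p) ≠ 0 := prod_ne_zero_iff.2 fun p hp => (hP p hp).ne_zero
  exact Nat.pos_of_dvd_of_pos (S_dvd P j n hn) (Nat.pos_of_ne_zero (pow_ne_zero _ hN))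

theorem step (a : ℕ → ℕ) (ha : ∀ n, 0 < n → a n = 1 + ∑ m ∈ n.properDivisors, a m)
    (P : Finset ℕ) (hP : ∀ p ∈ P, p.Prime) (j : ℕ) :
    (∑ p ∈ P, (1 : ℝ) / p) * ∑ m ∈ S P j, (a m : ℝ) / m ≤ ∑ n ∈ S P (j + 1), (a n : ℝ) / n := by
  rw [sum_mul_sum, ← sum_product']
  rw [← sum_fiberwise_of_maps_to (s := P ×ˢ S P j) (t := S P (j + 1)) (g := fun x => x.1 * x.2)
    (fun x hx => by simp only [S]; exact mem_image_of_mem _ hx)]
  apply sum_le_sum
  intro n hn
  have hn0 := S_pos P hP _ n hn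
  have h1 : ∑ x ∈ (P ×ˢ S P j).filter (fun x => x.1 * x.2 = n), (1 : ℝ) / x.1 * ((a x.2 : ℝ) / x.2)
      = (∑ x ∈ (P ×ˢ S P j).filter (fun x => x.1 * x.2 = n), (a x.2 : ℝ)) / n := by
    rw [sum_div]
    apply sum_congr rfl
    intro x hx
    rw [← (mem_filter.1 hx).2]
    push_cast
    rw [div_mul_div_comm, one_mul]
  rw [h1]
  apply div_le_div_of_nonneg_right _ (by positivity)
  have h2 : ∑ x ∈ (P ×ˢ S P j).filter (fun x => x.1 * x.2 = n), a x.2
      ≤ ∑ m ∈ n.properDivisors, a m := by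
    rw [← sum_image (s := (P ×ˢ S P j).filter (fun x => x.1 * x.2 = n)) (g := fun x => x.2)
      (f := a)]
    · apply sum_le_sum_of_subset
      intro m hm
      obtain ⟨⟨p, m'⟩, hx, rfl⟩ := mem_image.1 hm
      obtain ⟨hx1, hx2⟩ := mem_filter.1 hx
      obtain ⟨hp, hm'⟩ := mem_product.1 hx1
      simp only at hx2 hp hm' ⊢
      have := S_pos P hP _ _ hm'
      have := (hP p hp).two_le
      exact Nat.mem_properDivisors.2 ⟨Dvd.intro_left p hx2, by nlinarith⟩
    · rintro ⟨p, m⟩ hx ⟨q, m'⟩ hy h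
      simp only [coe_filter, Set.mem_ofPred_eq, mem_product] at hx hy h
      subst h
      have := S_pos P hP _ _ hx.1.2
      have : p = q := Nat.eq_of_mul_eq_mul_right this (hx.2.trans hy.2.symm)
      rw [this]
  have h3 := ha n hn0
  have : ∑ x ∈ (P ×ˢ S P j).filter (fun x => x.1 * x.2 = n), a x.2 ≤ a n := by omega
  exact_mod_cast this

theorem growth (a : ℕ → ℕ) (ha : ∀ n, 0 < n → a n = 1 + ∑ m ∈ n.properDivisors, a m)
    (P : Finset ℕ) (hP : ∀ p ∈ P, p.Prime) (j : ℕ) :
    (∑ p ∈ P, (1 : ℝ) / p) ^ j ≤ ∑ n ∈ S P j, (a n : ℝ) / n := by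
  induction j with
  | zero => simp [S, ha 1 one_pos]
  | succ j ih =>
    refine le_trans ?_ (step a ha P hP j)
    rw [pow_succ']
    exact mul_le_mul_of_nonneg_left ih (sum_nonneg fun p _ => by positivity)

theorem exists_P (K : ℕ) : ∃ P : Finset ℕ, (∀ p ∈ P, p.Prime ∧ K < p) ∧
    1 < ∑ p ∈ P, (1 : ℝ) / p := by
  by_contra hc
  push Not at hc
  apply not_summable_one_div_on_primes
  apply summable_of_sum_le (c := (K + 1 : ℝ) + 1)
  · intro n; exact Set.indicator_nonneg (fun p _ => by positivity) n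
  · intro u
    rw [← sum_filter_add_sum_filter_not u (fun n => n ≤ K)]
    apply add_le_add
    · calc ∑ x ∈ u with x ≤ K, Set.indicator {p | Nat.Prime p} (fun n : ℕ => (1 : ℝ) / n) x
          ≤ ∑ x ∈ u with x ≤ K, (1 : ℝ) := by
            apply sum_le_sum
            intro x _
            by_cases hx : x.Prime
            · rw [Set.indicator_of_mem (by exact hx)]
              have : (1 : ℝ) ≤ x := by exact_mod_cast hx.one_le
              exact div_le_one_of_le₀ this (by positivity)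
            · rw [Set.indicator_of_notMem (by exact hx)]; norm_num
        _ ≤ K + 1 := by
            rw [sum_const, nsmul_eq_mul, mul_one]
            have : (u.filter (fun x => x ≤ K)).card ≤ (range (K + 1)).card :=
              card_le_card fun x hx => mem_range.2 (Nat.lt_succ_of_le (mem_filter.1 hx).2)
            rw [card_range] at this
            exact_mod_cast this
    · have := hc ((u.filter (fun n => ¬ n ≤ K)).filter Nat.Prime) (fun p hp => by
        simp only [mem_filter] at hp; exact ⟨hp.2, by omega⟩)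
      refine le_trans (le_of_eq ?_) this
      rw [sum_filter (p := Nat.Prime)]
      apply sum_congr rfl
      intro x _
      by_cases hx : x.Prime
      · rw [Set.indicator_of_mem (by exact hx), if_pos hx]
      · rw [Set.indicator_of_notMem (by exact hx), if_neg hx]

theorem main (a : ℕ → ℕ) (ha : ∀ n, 0 < n → a n = 1 + ∑ m ∈ n.properDivisors, a m) (K : ℕ) :
    ∃ n, 0 < n ∧ n < a n ∧ ∀ p, p.Prime → p ∣ n → K < p := by
  obtain ⟨P, hP, hc⟩ := exists_P K
  have hP' : ∀ p ∈ P, p.Prime := fun p hp => (hP p hp).1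
  by_contra hcon
  push Not at hcon
  set c := ∑ p ∈ P, (1 : ℝ) / p with hcdef
  have hb : ∀ j : ℕ, c ^ j ≤ ((j + 1 : ℕ) : ℝ) ^ P.card := by
    intro j
    refine (growth a ha P hP' j).trans ?_
    calc ∑ n ∈ S P j, (a n : ℝ) / n ≤ ∑ n ∈ S P j, (1 : ℝ) := by
          apply sum_le_sum
          intro n hn
          have hn0 := S_pos P hP' j n hn
          have : a n ≤ n := by
            by_contra h
            obtain ⟨p, hp, hd, hK⟩ := hcon n hn0 (by omega)
            have h1 := hp.dvd_of_dvd_pow (hd.trans (S_dvd P j n hn))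
            obtain ⟨q, hq, hpq⟩ := (Prime.dvd_finsetProd_iff hp.prime _).1 h1
            have := (Nat.prime_dvd_prime_iff_eq hp (hP' q hq)).1 hpq
            have := (hP q hq).2
            omega
          exact div_le_one_of_le₀ (by exact_mod_cast this) (by positivity)
      _ = (S P j).card := by simp
      _ ≤ _ := by exact_mod_cast S_card P hP' j
  have ht := tendsto_pow_const_div_const_pow_of_one_lt P.card hc
  have hc0 : 0 < c := by linarith
  have hev := (ht.comp (Filter.tendsto_add_atTop_nat 1)).eventually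
    (gt_mem_nhds (show (0 : ℝ) < 1 / c by positivity))
  obtain ⟨j, hj⟩ := hev.exists
  simp only [Function.comp] at hj
  have h1 := hb j
  rw [div_lt_div_iff₀ (by positivity) hc0, pow_succ] at hj
  nlinarith

end Pool.Agent.H55.Ample
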