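import Mathlib

namespace Pool.Agent.H55.BlockDefs

/-- `S` is the set of denominators of an `r`-block representation of `1`: a finite set of positive
integers with reciprocal sum `1` that is a union of `r` blocks of consecutive integers. -/
def IsBlockRep (r : ℕ) (S : Finset ℕ) : Prop :=
  0 ∉ S ∧ ∑ x ∈ S, (1 : ℚ) / x = 1 ∧
    ∃ a b : Fin r → ℕ, (∀ i, a i ≤ b i) ∧ S = Finset.univ.biUnion (fun i => Finset.Icc (a i) (b i))

/-- Sylvester's sequence: `s 1 = 2`, `s (n+1) = s n ^ 2 - s n + 1` (and `s 0 = 0` unused). -/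
def s : ℕ → ℕ
  | 0 => 0
  | 1 => 2
  | n + 2 => s (n + 1) ^ 2 - s (n + 1) + 1

end Pool.Agent.H55.BlockDefs
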