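import Mathlib
import Pool.Agent.H55.BlockDefs

namespace Pool.Agent.H55.Block

open Pool.Agent.H55.BlockDefs Finset

def Blocks (r : ℕ) (S : Finset ℕ) : Prop :=
  ∃ a b : Fin r → ℕ, (∀ i, a i ≤ b i) ∧ S = Finset.univ.biUnion (fun i => Finset.Icc (a i) (b i))

theorem Blocks.insert {r : ℕ} {S : Finset ℕ} (h : Blocks r S) (x : ℕ) :
    Blocks (r + 1) (insert x S) := by
  obtain ⟨a, b, hab, rfl⟩ := h
  refine ⟨Fin.cons x a, Fin.cons x b, fun i => ?_, ?_⟩
  · refine Fin.cases ?_ (fun j => ?_) i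
    · simp
    · simpa using hab j
  · ext y
    simp only [mem_insert, mem_biUnion, mem_univ, true_and, Fin.exists_fin_succ, Fin.cons_zero,
      Fin.cons_succ, Icc_self, mem_singleton]

theorem Blocks.one {a b : ℕ} (h : a ≤ b) : Blocks 1 (Icc a b) :=
  ⟨fun _ => a, fun _ => b, fun _ => h, by ext; simp⟩

/-- state of the greedy process -/
def St (j T P : ℕ) : Prop :=
  ∃ (S : Finset ℕ) (p q : ℕ), Blocks j S ∧ 0 ∉ S ∧ (∀ x ∈ S, x < T) ∧ 1 ≤ p ∧ p ≤ P ∧
    p * T ≤ q ∧ ∑ x ∈ S, (1 : ℚ) / x + (p : ℚ) / q = 1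

theorem St.step {j T P : ℕ} (hT : 2 ≤ T) (h : St j T (P + 1)) :
    ∃ T', T ^ 2 ≤ T' ∧ St (j + 1) T' (max P 1) := by
  obtain ⟨S, p, q, hB, h0, hlt, hp1, hpP, hq, hs⟩ := h
  have hq0 : 0 < q := by nlinarith
  have key : ∀ p q : ℕ, 1 ≤ p → p * T ≤ q → ∑ x ∈ S, (1 : ℚ) / x + (p : ℚ) / q = 1 →
      p - q % p ≤ max P 1 → ∃ T', T ^ 2 ≤ T' ∧ St (j + 1) T' (max P 1) := by
    intro p q hp1 hq hs hnum
    have hq0 : 0 < q := by nlinarith
    have hdm := Nat.div_add_mod q p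
    have hml := Nat.mod_lt q hp1
    set y := q / p with hy
    set m := q % p with hm
    have hyT : T ≤ y := by
      rw [hy, Nat.le_div_iff_mul_le hp1]; linarith
    obtain ⟨u, hu⟩ : ∃ u, p = m + u := ⟨p - m, by omega⟩
    have hu' : p - m = u := by omega
    refine ⟨(y + 1) * y, by nlinarith, insert (y + 1) S, u, q * (y + 1), hB.insert _, ?_, ?_,
      by omega, by omega, ?_, ?_⟩
    · simp [h0]
    · intro x hx
      rcases mem_insert.1 hx with rfl | hx
      · nlinarith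
      · have := hlt x hx; nlinarith
    · have : u * y ≤ q := by nlinarith
      nlinarith
    · have hn : y + 1 ∉ S := fun h => by have := hlt _ h; omega
      rw [sum_insert hn]
      have e : (q : ℚ) = (m + u) * y + m := by rw [← hdm, hu]; push_cast; ring
      have hq' : (q : ℚ) ≠ 0 := by positivity
      have : (1 : ℚ) / ((y + 1 : ℕ) : ℚ) + (u : ℚ) / ((q * (y + 1) : ℕ) : ℚ) = (p : ℚ) / q := by
        push_cast
        field_simp
        rw [hu]; push_cast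
        linear_combination e
      linarith
  by_cases hd : q % p = 0
  · obtain ⟨c, rfl⟩ := Nat.dvd_of_mod_eq_zero hd
    have hc : T ≤ c := Nat.le_of_mul_le_mul_left hq hp1
    refine key 1 c le_rfl (by omega) ?_ (by simp)
    have h1 : (p : ℚ) ≠ 0 := by positivity
    have h2 : (c : ℚ) ≠ 0 := by have : 0 < c := by omega
                                positivity
    have h3 : ((1 : ℕ) : ℚ) / c = (p : ℚ) / ((p * c : ℕ) : ℚ) := by
      push_cast; field_simp
    rw [h3]; exact hs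
  · exact key p q hp1 hq hs (by omega)

theorem St.mono {j T P P' : ℕ} (h : St j T P) (hP : P ≤ P') : St j T P' := by
  obtain ⟨S, p, q, hB, h0, hlt, hp1, hpP, hq, hs⟩ := h
  exact ⟨S, p, q, hB, h0, hlt, hp1, hpP.trans hP, hq, hs⟩

theorem St.iter {j T P : ℕ} (hT : 2 ≤ T) (h : St j T P) (n : ℕ) :
    ∃ T', T ^ 2 ^ n ≤ T' ∧ St (j + n) T' (max (P - n) 1) := by
  induction n with
  | zero => exact ⟨T, by simp, h.mono (by simp)⟩
  | succ n ih =>
    obtain ⟨T', h1, h2⟩ := ih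
    have hT' : 2 ≤ T' := le_trans (le_trans hT (le_self_pow₀ (by omega) (by positivity))) h1
    obtain ⟨T'', h3, h4⟩ := St.step (P := P - (n + 1)) hT' (h2.mono (by omega))
    refine ⟨T'', ?_, h4⟩
    rw [pow_succ, pow_mul]
    exact le_trans (Nat.pow_le_pow_left h1 2) h3

theorem St.finish {j T : ℕ} (hT : 1 ≤ T) (h : St j T 1) :
    ∃ S, IsBlockRep (j + 1) S ∧ ∃ x ∈ S, T ≤ x := by
  obtain ⟨S, p, q, hB, h0, hlt, hp1, hpP, hq, hs⟩ := h
  have : p = 1 := by omega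
  subst this
  have hn : q ∉ S := fun h => by have := hlt _ h; omega
  refine ⟨insert q S, ⟨?_, ?_, hB.insert q⟩, q, mem_insert_self _ _, by omega⟩
  · simp only [mem_insert, not_or]; exact ⟨by omega, h0⟩
  · rw [sum_insert hn]; push_cast at hs; linarith

theorem start (M : ℕ) (hM : 2 ≤ M) : ∃ T P, M ≤ T ∧ St 1 T P := by
  have hex : ∃ n, 1 ≤ ∑ x ∈ Icc M (M + n), (1 : ℚ) / x := by
    have ht := Real.tendsto_sum_range_one_div_nat_succ_atTop
    obtain ⟨N, hN⟩ := (ht.eventually_ge_atTop ((M : ℝ) + 1)).exists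
    refine ⟨N, ?_⟩
    have h1 : ∑ i ∈ range N, (1 / (i + 1) : ℝ) ≤ M + ∑ x ∈ Icc M (M + N), (1 : ℝ) / x := by
      calc ∑ i ∈ range N, (1 / (i + 1) : ℝ) ≤ ∑ i ∈ range (M + N), (1 / (i + 1) : ℝ) :=
            sum_le_sum_of_subset_of_nonneg (range_mono (by omega)) (fun _ _ _ => by positivity)
        _ = ∑ i ∈ range M, (1 / (i + 1) : ℝ) + ∑ i ∈ range N, (1 / ((M + i : ℕ) + 1) : ℝ) := by
            rw [sum_range_add]
        _ ≤ M + ∑ x ∈ Icc M (M + N), (1 : ℝ) / x := by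
            apply add_le_add
            · calc ∑ i ∈ range M, (1 / (i + 1) : ℝ) ≤ ∑ i ∈ range M, (1 : ℝ) :=
                    sum_le_sum fun i _ => div_le_one_of_le₀ (by simp) (by positivity)
                _ = M := by simp
            · calc ∑ i ∈ range N, (1 / ((M + i : ℕ) + 1) : ℝ)
                  = ∑ x ∈ (range N).image (fun i => M + i + 1), (1 : ℝ) / x := by
                    rw [sum_image (fun a _ b _ h => by simpa using h)]; push_cast; rfl
                _ ≤ _ := sum_le_sum_of_subset_of_nonneg (fun x hx => by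
                    obtain ⟨i, hi, rfl⟩ := mem_image.1 hx
                    rw [mem_range] at hi; rw [mem_Icc]; omega) (fun _ _ _ => by positivity)
    have h2 : (1 : ℝ) ≤ ∑ x ∈ Icc M (M + N), (1 : ℝ) / x := by linarith
    have h3 : ((∑ x ∈ Icc M (M + N), (1 : ℚ) / x : ℚ) : ℝ) = ∑ x ∈ Icc M (M + N), (1 : ℝ) / x := by
      push_cast; rfl
    rw [← h3] at h2
    exact_mod_cast h2
  classical
  have hspec := Nat.find_spec hex
  have hne : Nat.find hex ≠ 0 := by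
    intro h
    rw [h] at hspec
    simp only [add_zero, Icc_self, sum_singleton] at hspec
    have : (2 : ℚ) ≤ M := by exact_mod_cast hM
    rw [le_div_iff₀ (by linarith)] at hspec
    linarith
  obtain ⟨n, hn⟩ : ∃ n, Nat.find hex = n + 1 := ⟨Nat.find hex - 1, by omega⟩
  have hmin := Nat.find_min hex (m := n) (by omega)
  rw [hn, ← add_assoc, sum_Icc_succ_top (by omega)] at hspec
  set ρ : ℚ := 1 - ∑ x ∈ Icc M (M + n), (1 : ℚ) / x with hρ
  have hρ0 : 0 < ρ := by rw [hρ]; linarith [not_le.1 hmin]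
  have hρ1 : ρ ≤ 1 / ((M + n + 1 : ℕ) : ℚ) := by rw [hρ]; linarith
  have hnum : (0 : ℤ) < ρ.num := Rat.num_pos.2 hρ0
  have hrep : ((ρ.num.toNat : ℕ) : ℚ) / (ρ.den : ℚ) = ρ := by
    have : ((ρ.num.toNat : ℕ) : ℚ) = (ρ.num : ℚ) := by
      rw [← Int.cast_natCast, Int.toNat_of_nonneg hnum.le]
    rw [this, Rat.num_div_den]
  refine ⟨M + n + 1, ρ.num.toNat, by omega, Icc M (M + n), ρ.num.toNat, ρ.den,
    Blocks.one (by omega), by simp; omega, fun x hx => by rw [mem_Icc] at hx; omega,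
    by omega, le_rfl, ?_, by rw [hrep, hρ]; ring⟩
  rw [← hrep, div_le_div_iff₀ (by have := ρ.pos; positivity) (by positivity), one_mul] at hρ1
  exact_mod_cast hρ1

theorem superfast (C : ℕ) : ∃ r₀ : ℕ, ∀ r, r₀ ≤ r →
    ∃ S, IsBlockRep r S ∧ ∃ x ∈ S, C ^ 2 ^ r ≤ x := by
  obtain ⟨T, P, hT, h⟩ := start (C ^ 4 + 2) (by omega)
  refine ⟨P + 2, fun r hr => ?_⟩
  obtain ⟨n, rfl⟩ : ∃ n, r = 1 + n + 1 := ⟨r - 2, by omega⟩
  obtain ⟨T', h1, h2⟩ := h.iter (by omega) n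
  have hT' : 1 ≤ T' := le_trans (Nat.one_le_pow _ _ (by omega)) h1
  obtain ⟨S, hS, x, hx, hTx⟩ := St.finish hT' (h2.mono (by omega))
  refine ⟨S, hS, x, hx, le_trans ?_ (h1.trans hTx)⟩
  calc C ^ 2 ^ (1 + n + 1) = (C ^ 4) ^ 2 ^ n := by rw [← pow_mul]; congr 1; ring
    _ ≤ T ^ 2 ^ n := Nat.pow_le_pow_left (by omega) _

theorem s_le (n : ℕ) : s (n + 3) ≤ 20 ^ 2 ^ n := by
  have : ∀ n, 1 ≤ s (n + 3) ∧ s (n + 3) ≤ 20 ^ 2 ^ n := by
    intro n
    induction n with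
    | zero => simp [s]
    | succ n ih =>
      rw [show n + 1 + 3 = (n + 2) + 2 from rfl, s, pow_succ 2 n, pow_mul]
      have h1 := Nat.pow_le_pow_left ih.2 2
      have h2 : s (n + 3) ≤ s (n + 3) ^ 2 := Nat.le_self_pow (by norm_num) _
      have h3 := ih.1
      rw [show n + 2 + 1 = n + 3 from rfl]
      omega
  exact (this n).2

theorem beats (r : ℕ) (hr : 2 ≤ r) : ∃ S, IsBlockRep r S ∧ ∃ x ∈ S, s (r + 1) - 1 < x := by
  obtain ⟨n, rfl⟩ : ∃ n, r = 1 + n + 1 := ⟨r - 2, by omega⟩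
  have h : St 1 20 1 := ⟨Icc 3 6, 1, 20, Blocks.one (by norm_num), by simp,
    fun x hx => by rw [mem_Icc] at hx; omega, le_rfl, le_rfl, by norm_num, by
      rw [show Icc 3 6 = ({3, 4, 5, 6} : Finset ℕ) by decide]; norm_num⟩
  obtain ⟨T', h1, h2⟩ := h.iter (by omega) n
  have hT' : 1 ≤ T' := le_trans (Nat.one_le_pow _ _ (by omega)) h1
  obtain ⟨S, hS, x, hx, hTx⟩ := St.finish hT' (h2.mono (by omega))
  refine ⟨S, hS, x, hx, ?_⟩
  have := s_le n
  rw [show 1 + n + 1 + 1 = n + 3 by omega]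
  omega

end Pool.Agent.H55.Block
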