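import Pool.Agent.H55.CSelDefs

open Set Filter Topology

namespace Pool.Agent.H55.CSel

section
variable {Y X : Type*} [TopologicalSpace Y] [TopologicalSpace X]

def Inv (φ : Y → Set X) (F : Set Y) (c : Y → Set X) : Prop :=
  ∀ y, y ∉ F → IsOpen (c y) ∧ (φ y ∩ c y).Nonempty ∧ ∀ᶠ y' in 𝓝 y, c y' = c y

def FC (D : Set X) (x : X) : Prop :=
  ∃ U : ℕ → Set X, (∀ k, IsOpen (U k) ∧ x ∈ U k) ∧ Antitone U ∧ ∀ V ∈ 𝓝 x, ∃ k, D ∩ U k ⊆ V

lemma zd [Countable Y] [T1Space Y] [RegularSpace Y] (y : Y) (W : Set Y) (hW : W ∈ 𝓝 y) :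
    ∃ C, IsClopen C ∧ y ∈ C ∧ C ⊆ W := by
  have h := CompletelyRegularSpace.isTopologicalBasis_clopens_of_cardinalMk_lt_continuum
    (X := Y) (Cardinal.mk_le_aleph0.trans_lt Cardinal.aleph0_lt_continuum)
  obtain ⟨C, hC, h1, h2⟩ := h.mem_nhds_iff.1 hW
  exact ⟨C, hC, h1, h2⟩

lemma step [Countable Y] [T1Space Y] [RegularSpace Y] {φ : Y → Set X} (hl : LSC φ)
    {D : Set X} (hD : ∀ y, φ y ⊆ D) (hfc : ∀ x ∈ D, FC D x) {F : Set Y} (hF : F.Finite)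
    {c : Y → Set X} (hc : Inv φ F c) {y0 : Y} (hy : y0 ∉ F) :
    ∃ c', Inv φ (insert y0 F) c' ∧ (∀ y, c' y ⊆ c y) ∧ ∃ x ∈ φ y0 ∩ c y0,
      ∀ V ∈ 𝓝 x, ∀ᶠ y in 𝓝 y0, y ∉ F ∧ φ y ∩ c' y ⊆ V := by
  classical
  obtain ⟨e, he⟩ := Countable.exists_injective_nat Y
  obtain ⟨ho, ⟨x, hx⟩, hev⟩ := hc y0 hy
  obtain ⟨U, hU, hUa, hUb⟩ := hfc x (hD _ hx.1)
  have hN : ∀ k, ∃ C, IsClopen C ∧ y0 ∈ C ∧ ∀ y ∈ C, (φ y ∩ (c y0 ∩ U k)).Nonempty ∧
      c y = c y0 ∧ y ∉ F ∧ (y ≠ y0 → k ≤ e y) := by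
    intro k
    have h1 : {y | (φ y ∩ (c y0 ∩ U k)).Nonempty} ∈ 𝓝 y0 :=
      (hl _ (ho.inter (hU k).1)).mem_nhds ⟨x, hx.1, hx.2, (hU k).2⟩
    have h2 : Fᶜ ∈ 𝓝 y0 := hF.isClosed.isOpen_compl.mem_nhds hy
    have h3 : ((e ⁻¹' Iio k) \ {y0})ᶜ ∈ 𝓝 y0 :=
      (((finite_Iio k).preimage he.injOn).subset sdiff_subset).isClosed.isOpen_compl.mem_nhds
        (fun h => h.2 rfl)
    obtain ⟨C, hC, h4, h5⟩ := zd y0 _ (inter_mem (inter_mem h1 hev) (inter_mem h2 h3))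
    refine ⟨C, hC, h4, fun y hy' => ⟨(h5 hy').1.1, (h5 hy').1.2, (h5 hy').2.1, fun hne => ?_⟩⟩
    by_contra hlt
    exact (h5 hy').2.2 ⟨not_le.1 hlt, hne⟩
  choose C hC hC0 hC1 using hN
  have hnb : ∀ (y : Y) (s : Set ℕ), s.Finite → (∀ j ∈ s, y ∈ C j) →
      ∀ᶠ y' in 𝓝 y, ∀ j ∈ s, y' ∈ C j := fun y s hs h =>
    (eventually_all_finite hs).2 fun j hj => (hC j).isOpen.mem_nhds (h j hj)
  refine ⟨fun y => c y ∩ ⋂ k ∈ {k | ∀ j ≤ k, y ∈ C j}, U k, ?_, fun y => inter_subset_left,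
    x, hx, ?_⟩
  · intro y hy'
    have hne : y ≠ y0 := fun h => hy' (Or.inl h)
    have hyF : y ∉ F := fun h => hy' (Or.inr h)
    have hex : ∃ k, y ∉ C k := ⟨e y + 1, fun h => by have := (hC1 _ _ h).2.2.2 hne; omega⟩
    set m := Nat.find hex with hm
    have hm1 : y ∉ C m := Nat.find_spec hex
    have hm2 : ∀ j ∈ Iio m, y ∈ C j := fun j hj => by
      by_contra h
      exact Nat.find_min hex hj h
    have key : ∀ y', (∀ j ∈ Iio m, y' ∈ C j) → y' ∉ C m → {k | ∀ j ≤ k, y' ∈ C j} = Iio m := by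
      intro y' h1 h2
      ext k
      constructor
      · intro h
        by_contra h'
        exact h2 (h m (not_lt.1 h'))
      · intro h j hj
        exact h1 j (lt_of_le_of_lt hj h)
    obtain ⟨g1, g2, g3⟩ := hc y hyF
    refine ⟨?_, ?_, ?_⟩
    · simp only [key y hm2 hm1]
      exact g1.inter ((finite_Iio m).isOpen_biInter fun k _ => (hU k).1)
    · simp only [key y hm2 hm1]
      rcases Nat.eq_zero_or_pos m with h0 | h0
      · obtain ⟨z, hz⟩ := g2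
        exact ⟨z, hz.1, hz.2, mem_iInter₂.2 fun k hk => absurd hk (by simp [h0])⟩
      · obtain ⟨⟨z, hz⟩, h4, -⟩ := hC1 (m - 1) y (hm2 _ (by simp; omega))
        refine ⟨z, hz.1, h4 ▸ hz.2.1, mem_iInter₂.2 fun k hk => hUa ?_ hz.2.2⟩
        have : k < m := hk
        omega
    · filter_upwards [g3, hnb y _ (finite_Iio m) hm2, (hC m).compl.isOpen.mem_nhds hm1]
        with y' h1 h2 h3
      show c y' ∩ ⋂ k ∈ {k | ∀ j ≤ k, y' ∈ C j}, U k = c y ∩ ⋂ k ∈ {k | ∀ j ≤ k, y ∈ C j}, U k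
      rw [key y hm2 hm1, key y' h2 h3, h1]
  · intro V hV
    obtain ⟨k, hk⟩ := hUb V hV
    filter_upwards [hnb y0 _ (finite_Iic k) fun j _ => hC0 j] with y h1
    refine ⟨(hC1 0 y (h1 0 (by simp))).2.2.1, fun z hz => hk ⟨hD _ hz.1, ?_⟩⟩
    exact mem_iInter₂.1 hz.2.2 k fun j hj => h1 j hj

/-- Michael's theorem for first countable targets. -/
theorem michael [Countable Y] [T1Space Y] [RegularSpace Y] {φ : Y → Set X} (hl : LSC φ)
    (hne : ∀ y, (φ y).Nonempty) {D : Set X} (hD : ∀ y, φ y ⊆ D) (hfc : ∀ x ∈ D, FC D x) :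
    ∃ f : Y → X, Continuous f ∧ ∀ y, f y ∈ φ y := by
  obtain ⟨e, he⟩ := Countable.exists_injective_nat Y
  have st : ∀ n (c : {c // Inv φ (e ⁻¹' Iio n) c}), ∃ c' : {c // Inv φ (e ⁻¹' Iio (n + 1)) c},
      (∀ y, c'.1 y ⊆ c.1 y) ∧ ∀ y0, e y0 = n → ∃ x ∈ φ y0 ∩ c.1 y0,
        ∀ V ∈ 𝓝 x, ∀ᶠ y in 𝓝 y0, n ≤ e y ∧ φ y ∩ c'.1 y ⊆ V := by
    intro n c
    by_cases h : ∃ y0, e y0 = n
    · obtain ⟨y0, h0⟩ := h
      obtain ⟨c', h1, h2, x, hx, h3⟩ := step hl hD hfc ((finite_Iio n).preimage he.injOn) c.2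
        (y0 := y0) (by simp [h0])
      refine ⟨⟨c', fun y hy => h1 y ?_⟩, h2, fun y1 h4 => ?_⟩
      · rintro (rfl | h5)
        · exact hy (by simp [h0])
        · exact hy (lt_trans h5 (Nat.lt_succ_self n))
      · obtain rfl : y1 = y0 := he (h4.trans h0.symm)
        exact ⟨x, hx, fun V hV => (h3 V hV).mono fun y hy => ⟨not_lt.1 hy.1, hy.2⟩⟩
    · exact ⟨⟨c.1, fun y hy => c.2 y fun h5 => hy (lt_trans h5 (Nat.lt_succ_self n))⟩,
        fun _ => Subset.rfl, fun y0 h0 => absurd ⟨y0, h0⟩ h⟩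
  choose g g1 g2 using st
  let s : ∀ n, {c // Inv φ (e ⁻¹' Iio n) c} := fun n => Nat.rec
    ⟨fun _ => univ, fun y _ => ⟨isOpen_univ, by simpa using hne y, Eventually.of_forall
      fun _ => rfl⟩⟩ (fun n c => g n c) n
  have mo : ∀ y, Antitone fun n => (s n).1 y := fun y =>
    antitone_nat_of_succ_le fun n => g1 n (s n) y
  choose f hf hf' using fun y => g2 (e y) (s (e y)) y rfl
  refine ⟨f, continuous_iff_continuousAt.2 fun y0 V hV => ?_, fun y => (hf y).1⟩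
  show ∀ᶠ y in 𝓝 y0, f y ∈ V
  filter_upwards [hf' y0 V hV] with y hy
  by_cases h : y = y0
  · rw [h]
    exact mem_of_mem_nhds hV
  · have h1 : e y0 + 1 ≤ e y := lt_of_le_of_ne hy.1 fun h2 => h (he h2).symm
    exact hy.2 ⟨(hf y).1, mo y h1 (hf y).2⟩

end

/-- Countable subspaces of a `C`-selective space are first countable. -/
theorem fc_of_csel {X : Type*} [TopologicalSpace X] [T1Space X] (h : CSelective X)
    {D : Set X} (hD : D.Countable) (x : X) : FC D x := by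
  by_cases h0 : ∃ V0 ∈ 𝓝 x, ∀ z ∈ D \ {x}, z ∉ V0
  · obtain ⟨V0, h1, h2⟩ := h0
    refine ⟨fun _ => interior V0, fun _ => ⟨isOpen_interior, mem_interior_iff_mem_nhds.2 h1⟩,
      antitone_const, fun V hV => ⟨0, fun z hz => ?_⟩⟩
    by_cases hz' : z = x
    · rw [hz']
      exact mem_of_mem_nhds hV
    · exact absurd (interior_subset hz.2) (h2 z ⟨hz.1, hz'⟩)
  push Not at h0
  obtain ⟨d, hd⟩ := (hD.mono (sdiff_subset (t := {x}))).exists_eq_range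
    (by obtain ⟨z, hz, -⟩ := h0 univ univ_mem; exact ⟨z, hz⟩)
  have hdx : ∀ i, d i ≠ x := fun i => by
    have : d i ∈ D \ {x} := hd ▸ mem_range_self i
    exact this.2
  letI τ : TopologicalSpace (Option (ℕ × ℕ)) :=
    { IsOpen := fun S => none ∈ S → ∃ V ∈ 𝓝 x, ∀ i j, (d i ∈ V ∨ d j ∈ V) → some (i, j) ∈ S
      isOpen_univ := fun _ => ⟨univ, univ_mem, fun _ _ _ => trivial⟩
      isOpen_inter := fun S T hS hT hn => by
        obtain ⟨V, h1, h2⟩ := hS hn.1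
        obtain ⟨W, h3, h4⟩ := hT hn.2
        exact ⟨V ∩ W, inter_mem h1 h3, fun i j hij =>
          ⟨h2 i j (hij.imp (·.1) (·.1)), h4 i j (hij.imp (·.2) (·.2))⟩⟩
      isOpen_sUnion := fun s hs ⟨S, h1, h2⟩ => by
        obtain ⟨V, h3, h4⟩ := hs S h1 h2
        exact ⟨V, h3, fun i j hij => ⟨S, h1, h4 i j hij⟩⟩ }
  have hop : ∀ S : Set (Option (ℕ × ℕ)), IsOpen S ↔
      (none ∈ S → ∃ V ∈ 𝓝 x, ∀ i j, (d i ∈ V ∨ d j ∈ V) → some (i, j) ∈ S) := fun _ => Iff.rfl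
  have hcl : ∀ y : Option (ℕ × ℕ), IsClosed ({y} : Set (Option (ℕ × ℕ))) := by
    intro y
    refine ⟨(hop _).2 fun hn => ?_⟩
    rcases y with _ | ⟨i, j⟩
    · exact absurd rfl hn
    · refine ⟨{d i}ᶜ ∩ {d j}ᶜ, inter_mem (isOpen_compl_singleton.mem_nhds (hdx i).symm)
        (isOpen_compl_singleton.mem_nhds (hdx j).symm), fun i' j' hij e => ?_⟩
      obtain ⟨rfl, rfl⟩ : i' = i ∧ j' = j := by simpa using e
      rcases hij with h1 | h1
      exacts [h1.1 rfl, h1.2 rfl]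
  have : T1Space (Option (ℕ × ℕ)) := ⟨hcl⟩
  have : RegularSpace (Option (ℕ × ℕ)) := by
    refine RegularSpace.of_exists_mem_nhds_isClosed_subset fun y s hs => ?_
    rcases y with _ | p
    · exact ⟨s, hs, ⟨(hop _).2 fun hn => absurd (mem_of_mem_nhds hs) hn⟩, Subset.rfl⟩
    · refine ⟨{some p}, IsOpen.mem_nhds ((hop _).2 fun hn => by simp at hn) rfl, hcl _, ?_⟩
      simpa using mem_of_mem_nhds hs
  obtain ⟨f, hf, hf'⟩ := h (Option (ℕ × ℕ))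
    (fun y => Option.casesOn y {x} fun p => {d p.1, d p.2}) (by
      intro U hU
      refine (hop _).2 fun ⟨z, hz, hzU⟩ => ⟨U, hU.mem_nhds (hz ▸ hzU), fun i j hij => ?_⟩
      rcases hij with h1 | h1
      exacts [⟨d i, Or.inl rfl, h1⟩, ⟨d j, Or.inr rfl, h1⟩]) (by
      rintro (_ | p)
      · exact ⟨singleton_nonempty x, isClosed_singleton⟩
      · exact ⟨insert_nonempty _ _, (toFinite _).isClosed⟩)
  have hx : f none = x := hf' none
  have key : ∀ V ∈ 𝓝 x, ∃ V' ∈ 𝓝 x, ∀ i j, (d i ∈ V' ∨ d j ∈ V') → f (some (i, j)) ∈ V := by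
    intro V hV
    obtain ⟨V', h1, h2⟩ := (hop _).1 (isOpen_interior.preimage hf (t := interior V))
      (by show f none ∈ interior V; rw [hx]; exact mem_interior_iff_mem_nhds.2 hV)
    exact ⟨V', h1, fun i j hij => interior_subset (h2 i j hij)⟩
  choose O hO hO' using fun j => key {d j}ᶜ (isOpen_compl_singleton.mem_nhds (hdx j).symm)
  refine ⟨fun k => ⋂ j ∈ Iic k, interior (O j), fun k =>
    ⟨(finite_Iic k).isOpen_biInter fun _ _ => isOpen_interior,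
      mem_iInter₂.2 fun j _ => mem_interior_iff_mem_nhds.2 (hO j)⟩,
    fun a b hab => biInter_subset_biInter_left (Iic_subset_Iic.2 hab), fun V hV => ?_⟩
  obtain ⟨V', h1, h2⟩ := key V hV
  obtain ⟨z, hz, hz'⟩ := h0 V' h1
  rw [hd] at hz
  obtain ⟨j, rfl⟩ := hz
  refine ⟨j, fun w hw => ?_⟩
  by_cases hw' : w = x
  · rw [hw']
    exact mem_of_mem_nhds hV
  · have : w ∈ range d := hd ▸ ⟨hw.1, hw'⟩
    obtain ⟨i, rfl⟩ := this
    have h3 := hO' j j i (Or.inr (interior_subset (mem_iInter₂.1 hw.2 j (mem_Iic.2 le_rfl))))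
    have h4 := h2 j i (Or.inl hz')
    rcases hf' (some (j, i)) with h5 | h5
    · exact absurd h5 h3
    · have h6 : f (some (j, i)) = d i := h5
      exact h6 ▸ h4

end Pool.Agent.H55.CSel
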