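import Mathlib

/-! Selective spaces (Feng–Gruenhage–Shen). -/

open Set

namespace Pool.Agent.H55.CSel

/-- Lower semicontinuity of a set-valued map. -/
def LSC {Y X : Type*} [TopologicalSpace Y] [TopologicalSpace X] (φ : Y → Set X) : Prop :=
  ∀ U : Set X, IsOpen U → IsOpen {y | (φ y ∩ U).Nonempty}

/-- Every l.s.c. map from `Y` to the nonempty closed subsets of `X` has a continuous selection. -/
def Selective (Y X : Type*) [TopologicalSpace Y] [TopologicalSpace X] : Prop :=
  ∀ φ : Y → Set X, LSC φ → (∀ y, (φ y).Nonempty ∧ IsClosed (φ y)) →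
    ∃ f : Y → X, Continuous f ∧ ∀ y, f y ∈ φ y

/-- Every l.s.c. map from `Y` to the nonempty subsets of `X` has a continuous selection. -/
def StronglySelective (Y X : Type*) [TopologicalSpace Y] [TopologicalSpace X] : Prop :=
  ∀ φ : Y → Set X, LSC φ → (∀ y, (φ y).Nonempty) →
    ∃ f : Y → X, Continuous f ∧ ∀ y, f y ∈ φ y

/-- `Y`-selective for every countable regular (`T₁`) space `Y`. -/
def CSelective (X : Type*) [TopologicalSpace X] : Prop :=
  ∀ (Y : Type) [TopologicalSpace Y] [Countable Y] [T1Space Y] [RegularSpace Y], Selective Y X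

/-- Strongly `Y`-selective for every countable regular (`T₁`) space `Y`. -/
def StronglyCSelective (X : Type*) [TopologicalSpace X] : Prop :=
  ∀ (Y : Type) [TopologicalSpace Y] [Countable Y] [T1Space Y] [RegularSpace Y],
    StronglySelective Y X

end Pool.Agent.H55.CSel
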