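import Mathlib

/-! Nonnegative integrable kernels with compactly supported Fourier preimage. -/

namespace Pool.Agent.H55.PNT

open MeasureTheory FourierTransform Convolution Filter Topology Set

/-- `K` is an integrable real function which is the Fourier transform of a continuous function
with compact support. -/
def Good (K : ℝ → ℝ) : Prop :=
  Integrable K ∧ ∃ k : ℝ → ℂ, Continuous k ∧ HasCompactSupport k ∧ ∀ w, (K w : ℂ) = 𝓕 k w

theorem exists_base : ∃ K : ℝ → ℝ, Good K ∧ (∀ w, 0 ≤ K w) ∧ 0 < ∫ w, K w := by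
  let b : ContDiffBump (0 : ℝ) := ⟨1, 2, one_pos, one_lt_two⟩
  let φ : ℝ → ℂ := fun x => (b x : ℂ)
  have hφc : HasCompactSupport φ := b.hasCompactSupport.comp_left (g := fun x : ℝ => (x : ℂ)) (by simp)
  have hφd : ContDiff ℝ (⊤ : ℕ∞) φ := Complex.ofRealCLM.contDiff.comp b.contDiff
  let Φ : SchwartzMap ℝ ℂ := hφc.toSchwartzMap hφd
  have hφi : Integrable φ := Φ.integrable
  have hF : ∀ w, 𝓕 φ w = (𝓕 Φ) w := fun w => by rw [SchwartzMap.fourier_coe]; rfl
  have hFc : Continuous (𝓕 φ) := by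
    have : 𝓕 φ = ⇑(𝓕 Φ : SchwartzMap ℝ ℂ) := funext hF
    rw [this]; exact (𝓕 Φ).continuous
  have hFi : Integrable (𝓕 φ) := by
    have : 𝓕 φ = ⇑(𝓕 Φ : SchwartzMap ℝ ℂ) := funext hF
    rw [this]; exact (𝓕 Φ).integrable
  have hreal : ∀ w, (starRingEnd ℂ) (𝓕 φ w) = 𝓕 φ w := by
    intro w
    rw [Real.fourier_real_eq_integral_exp_smul, ← integral_conj, ← integral_neg_eq_self]
    refine integral_congr_ae (Eventually.of_forall fun x => ?_)
    simp only [φ, smul_eq_mul, map_mul, Complex.conj_ofReal, b.neg, ← Complex.exp_conj,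
      Complex.conj_I]
    congr 2
    push_cast; ring
  have hsq : ∀ w, ((‖𝓕 φ w‖ ^ 2 : ℝ) : ℂ) = 𝓕 φ w * 𝓕 φ w := by
    intro w
    rw [← Complex.normSq_eq_norm_sq, Complex.normSq_eq_conj_mul_self, hreal]
  have hbd : ∀ w, ‖𝓕 φ w‖ ≤ ∫ x, ‖φ x‖ := fun w =>
    VectorFourier.norm_fourierIntegral_le_integral_norm _ _ _ _ _
  have hKi : Integrable (fun w => ‖𝓕 φ w‖ ^ 2) := by
    refine (hFi.norm.const_mul (∫ x, ‖φ x‖)).mono' (hFc.norm.pow 2).aestronglyMeasurable
      (Eventually.of_forall fun w => ?_)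
    rw [Real.norm_of_nonneg (by positivity), sq]
    exact mul_le_mul_of_nonneg_right (hbd w) (norm_nonneg _)
  refine ⟨fun w => ‖𝓕 φ w‖ ^ 2, ⟨hKi, φ ⋆[ContinuousLinearMap.mul ℂ ℂ] φ,
    hφc.continuous_convolution_right _ hφi.locallyIntegrable hφd.continuous,
    hφc.convolution _ hφc, fun w => ?_⟩, fun w => by positivity, ?_⟩
  · rw [hsq, Real.fourier_mul_convolution_eq hφi hφi]
  · apply integral_pos_of_integrable_nonneg_nonzero (x := (0 : ℝ)) (f := fun w => ‖𝓕 φ w‖ ^ 2)
      (hFc.norm.pow 2) hKi (fun w => sq_nonneg _)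
    have h0 : 𝓕 φ 0 = ((∫ x, b x : ℝ) : ℂ) := by
      rw [Real.fourier_real_eq_integral_exp_smul]
      simp [φ, integral_complex_ofReal]
    have := b.integral_pos (μ := volume)
    rw [h0, Complex.norm_real, Real.norm_of_nonneg this.le]
    positivity

theorem Good.scale {K : ℝ → ℝ} (h : Good K) (a : ℝ) {l : ℝ} (hl : 0 < l) :
    Good (fun w => a * (l * K (l * w))) := by
  obtain ⟨hi, k, hk, hks, hK⟩ := h
  refine ⟨((hi.comp_mul_left' hl.ne').const_mul l).const_mul a, fun t => a * k (t / l),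
    by fun_prop, ?_, fun w => ?_⟩
  · apply HasCompactSupport.mul_left
    exact hks.comp_homeomorph (Homeomorph.mulRight₀ l⁻¹ (inv_ne_zero hl.ne'))
  · push_cast
    rw [hK, Real.fourier_real_eq_integral_exp_smul, Real.fourier_real_eq_integral_exp_smul]
    have := Measure.integral_comp_mul_left
      (fun v : ℝ => Complex.exp (↑(-2 * Real.pi * v * w) * Complex.I) • ((a : ℂ) * k (v / l))) l
    rw [abs_of_pos (inv_pos.2 hl)] at this
    have h2 : (∫ v : ℝ, Complex.exp (↑(-2 * Real.pi * v * w) * Complex.I) • ((a : ℂ) * k (v / l)))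
        = (l : ℂ) * ∫ x : ℝ, Complex.exp (↑(-2 * Real.pi * (l * x) * w) * Complex.I) •
          ((a : ℂ) * k (l * x / l)) := by
      rw [this, Complex.real_smul, ← mul_assoc, ← Complex.ofReal_mul, mul_inv_cancel₀ hl.ne']
      simp
    rw [h2, ← integral_const_mul, ← integral_const_mul, ← integral_const_mul]
    refine integral_congr_ae (Eventually.of_forall fun x => ?_)
    simp only [smul_eq_mul, mul_div_cancel_left₀ x hl.ne']
    rw [show -2 * Real.pi * x * (l * w) = -2 * Real.pi * (l * x) * w by ring]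
    ring

theorem exists_kernel {δ ε : ℝ} (hδ : 0 < δ) (hε : 0 < ε) :
    ∃ K : ℝ → ℝ, Good K ∧ (∀ w, 0 ≤ K w) ∧ ∫ w, K w = 1 ∧ ∫ w in (Icc (-δ) δ)ᶜ, K w ≤ ε := by
  obtain ⟨K, hK, hK0, hI⟩ := exists_base
  set I := ∫ w, K w with hIdef
  have hlim : Tendsto (fun n : ℕ => ∫ w in Icc (-(n : ℝ)) n, K w) atTop (𝓝 I) := by
    have := (aecover_Icc (μ := volume) (l := atTop) (a := fun n : ℕ => -(n : ℝ))
      (b := fun n : ℕ => (n : ℝ)) (tendsto_neg_atTop_atBot.comp tendsto_natCast_atTop_atTop)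
      tendsto_natCast_atTop_atTop).integral_tendsto_of_countably_generated hK.1
    exact this
  obtain ⟨n, hn, hn1⟩ := ((hlim.eventually (lt_mem_nhds (show I - ε * I < I by nlinarith))).and
    (eventually_ge_atTop 1)).exists
  have hn0 : (0 : ℝ) < n := by exact_mod_cast hn1
  set l := n / δ with hl
  have hl0 : 0 < l := by positivity
  have hint : ∀ f : ℝ → ℝ, ∫ w, l * f (l * w) = ∫ w, f w := by
    intro f
    rw [integral_const_mul, Measure.integral_comp_mul_left, abs_of_pos (inv_pos.2 hl0),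
      smul_eq_mul, ← mul_assoc, mul_inv_cancel₀ hl0.ne', one_mul]
  refine ⟨fun w => I⁻¹ * (l * K (l * w)), hK.scale _ hl0, fun w => by have := hK0 (l * w); positivity,
    ?_, ?_⟩
  · rw [integral_const_mul, hint, inv_mul_cancel₀ hI.ne']
  · rw [integral_const_mul, ← integral_indicator measurableSet_Icc.compl]
    have e : (Icc (-δ) δ)ᶜ.indicator (fun w => l * K (l * w))
        = fun w => l * (Icc (-(n : ℝ)) n)ᶜ.indicator K (l * w) := by
      funext w
      have hiff : w ∈ Icc (-δ) δ ↔ l * w ∈ Icc (-(n : ℝ)) n := by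
        have : (n : ℝ) = l * δ := by rw [hl]; field_simp
        rw [this, mem_Icc, mem_Icc]
        constructor
        · rintro ⟨h1, h2⟩; constructor <;> nlinarith
        · rintro ⟨h1, h2⟩; constructor <;> nlinarith
      by_cases hw : w ∈ Icc (-δ) δ
      · rw [indicator_of_notMem (by simpa using hw), indicator_of_notMem (by
          simpa using hiff.1 hw), mul_zero]
      · rw [indicator_of_mem (by simpa using hw), indicator_of_mem (by
          simpa using fun h => hw (hiff.2 h))]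
    rw [e, hint, integral_indicator measurableSet_Icc.compl]
    have := integral_add_compl (measurableSet_Icc (a := -(n : ℝ)) (b := n)) hK.1
    rw [inv_mul_le_iff₀ hI]
    nlinarith

end Pool.Agent.H55.PNT
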