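import Mathlib
import Pool.Agent.H55.PNTKernel

/-! The Tauberian theorem of Wiener and Ikehara in Laplace transform form. -/

namespace Pool.Agent.H55.PNT

open MeasureTheory FourierTransform Filter Topology Set

theorem fourier_step {g : ℝ → ℝ} {M : ℝ} (hgm : Measurable g) (hgb : ∀ u, |g u| ≤ M)
    (hg0 : ∀ u, u ≤ 0 → g u = 0) {H : ℂ → ℂ} (hH : ContinuousOn H {z | 0 ≤ z.re})
    (hL : ∀ z : ℂ, 0 < z.re → ∫ u : ℝ, (g u : ℂ) * Complex.exp (-z * u) = H z)
    {K : ℝ → ℝ} (hK : Good K) :
    Tendsto (fun y => ∫ w, g (w + y) * K w) atTop (𝓝 0) := by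
  obtain ⟨hKi, k, hk, hks, hKk⟩ := hK
  have hki : Integrable k := hk.integrable_of_hasCompactSupport hks
  have hM : 0 ≤ M := (abs_nonneg _).trans (hgb 0)
  have hexp : ∀ σ : ℝ, 0 < σ → Integrable (fun u => g u * Real.exp (-σ * u)) := by
    intro σ hσ
    have h1 : IntegrableOn (fun u => M * Real.exp (-σ * u)) (Ioi 0) :=
      (exp_neg_integrableOn_Ioi 0 hσ).const_mul M
    refine ((integrable_indicator_iff measurableSet_Ioi).2 h1).mono'
      (hgm.mul (by fun_prop)).aestronglyMeasurable (Eventually.of_forall fun u => ?_)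
    by_cases hu : u ∈ Ioi (0 : ℝ)
    · rw [indicator_of_mem hu, norm_mul, Real.norm_of_nonneg (Real.exp_pos _).le]
      exact mul_le_mul_of_nonneg_right (hgb u) (Real.exp_pos _).le
    · rw [indicator_of_notMem hu, hg0 u (by simpa using hu)]; simp
  -- the identity for positive `σ`
  have hid : ∀ (y σ : ℝ), 0 < σ →
      ∫ u : ℝ, ((g u * Real.exp (-σ * u) * K (u - y) : ℝ) : ℂ)
        = ∫ t : ℝ, Complex.exp (↑(-2 * Real.pi * t * (-y)) * Complex.I) •
            (k t * H (σ + 2 * Real.pi * t * Complex.I)) := by
    intro y σ hσ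
    have hint : Integrable (Function.uncurry fun (u t : ℝ) =>
        ((g u * Real.exp (-σ * u) : ℝ) : ℂ) *
          (Complex.exp (↑(-2 * Real.pi * t * (u - y)) * Complex.I) • k t))
        ((volume : Measure ℝ).prod volume) := by
      refine ((hexp σ hσ).norm.mul_prod hki.norm).mono' ?_ (Eventually.of_forall fun p => ?_)
      · apply Measurable.aestronglyMeasurable
        have : Measurable k := hk.measurable
        unfold Function.uncurry
        fun_prop
      · simp only [Function.uncurry, norm_mul, norm_smul, Complex.norm_exp_ofReal_mul_I,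
          Complex.norm_real, one_mul, le_refl]
    have h1 := integral_integral_swap hint
    calc ∫ u : ℝ, ((g u * Real.exp (-σ * u) * K (u - y) : ℝ) : ℂ)
        = ∫ u : ℝ, ∫ t : ℝ, ((g u * Real.exp (-σ * u) : ℝ) : ℂ) *
          (Complex.exp (↑(-2 * Real.pi * t * (u - y)) * Complex.I) • k t) := by
          refine integral_congr_ae (Eventually.of_forall fun u => ?_)
          simp only
          rw [integral_const_mul, ← Real.fourier_real_eq_integral_exp_smul, ← hKk,
            Complex.ofReal_mul]
      _ = _ := by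
          rw [h1]
          refine integral_congr_ae (Eventually.of_forall fun t => ?_)
          simp only
          rw [← hL _ (by simpa using hσ), smul_eq_mul, ← integral_const_mul, ← integral_const_mul]
          refine integral_congr_ae (Eventually.of_forall fun u => ?_)
          simp only [smul_eq_mul]
          push_cast
          have : Complex.exp (-σ * u) * Complex.exp (-2 * Real.pi * t * (u - y) * Complex.I)
              = Complex.exp (-2 * Real.pi * t * (-y) * Complex.I) *
                Complex.exp (-(σ + 2 * Real.pi * t * Complex.I) * u) := by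
            rw [← Complex.exp_add, ← Complex.exp_add]; congr 1; ring
          linear_combination (g u * k t : ℂ) * this
  -- a bound for `H` on the relevant compact set
  obtain ⟨B, hB⟩ : ∃ B, ∀ σ ∈ Icc (0 : ℝ) 1, ∀ t ∈ tsupport k,
      ‖H (σ + 2 * Real.pi * t * Complex.I)‖ ≤ B := by
    have hc : IsCompact (Icc (0 : ℝ) 1 ×ˢ tsupport k) := isCompact_Icc.prod hks
    have hcont : ContinuousOn (fun p : ℝ × ℝ => H (p.1 + 2 * Real.pi * p.2 * Complex.I))
        (Icc (0 : ℝ) 1 ×ˢ tsupport k) :=
      hH.comp (by fun_prop) (fun p hp => by simpa using hp.1.1)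
    obtain ⟨B, hB⟩ := hc.exists_bound_of_continuousOn hcont
    exact ⟨B, fun σ hσ t ht => hB (σ, t) ⟨hσ, ht⟩⟩
  have hlim : ∀ y : ℝ, ((∫ w, g (w + y) * K w : ℝ) : ℂ)
      = 𝓕 (fun t : ℝ => k t * H (2 * Real.pi * t * Complex.I)) (-y) := by
    intro y
    have hKy : Integrable (fun u => K (u - y)) := hKi.comp_sub_right y
    have l1 : Tendsto (fun σ : ℝ => ∫ u : ℝ, ((g u * Real.exp (-σ * u) * K (u - y) : ℝ) : ℂ))
        (𝓝[>] 0) (𝓝 (∫ u : ℝ, ((g u * K (u - y) : ℝ) : ℂ))) := by
      refine tendsto_integral_filter_of_dominated_convergence (fun u => M * ‖K (u - y)‖)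
        (Eventually.of_forall fun σ => ?_) ?_ (hKy.norm.const_mul M)
        (Eventually.of_forall fun u => ?_)
      · apply Complex.continuous_ofReal.comp_aestronglyMeasurable
        exact ((hgm.mul (by fun_prop)).aestronglyMeasurable).mul hKy.aestronglyMeasurable
      · filter_upwards [self_mem_nhdsWithin] with σ hσ
        refine Eventually.of_forall fun u => ?_
        rw [Complex.norm_real, norm_mul]
        apply mul_le_mul_of_nonneg_right _ (norm_nonneg _)
        by_cases hu : u ≤ 0
        · rw [hg0 u hu]; simpa using hM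
        · have : Real.exp (-σ * u) ≤ 1 := by
            rw [Real.exp_le_one_iff]
            have : 0 < σ := hσ
            nlinarith
          rw [norm_mul, Real.norm_of_nonneg (Real.exp_pos _).le]
          calc ‖g u‖ * Real.exp (-σ * u) ≤ M * 1 :=
                mul_le_mul (hgb u) this (Real.exp_pos _).le hM
            _ = M := mul_one M
      · have : Continuous fun σ : ℝ => ((g u * Real.exp (-σ * u) * K (u - y) : ℝ) : ℂ) := by
          fun_prop
        have := (this.tendsto 0).mono_left (nhdsWithin_le_nhds (s := Ioi 0))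
        simpa using this
    have l2 : Tendsto (fun σ : ℝ => ∫ t : ℝ,
        Complex.exp (↑(-2 * Real.pi * t * (-y)) * Complex.I) •
            (k t * H (σ + 2 * Real.pi * t * Complex.I))) (𝓝[>] 0)
        (𝓝 (∫ t : ℝ, Complex.exp (↑(-2 * Real.pi * t * (-y)) * Complex.I) •
            (k t * H (2 * Real.pi * t * Complex.I)))) := by
      refine tendsto_integral_filter_of_dominated_convergence (fun t => ‖k t‖ * B)
        ?_ ?_ (hki.norm.mul_const B) (Eventually.of_forall fun t => ?_)
      · filter_upwards [self_mem_nhdsWithin] with σ hσ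
        have hσ' : 0 < σ := hσ
        have : Continuous fun t : ℝ => H (σ + 2 * Real.pi * t * Complex.I) :=
          hH.comp_continuous (by fun_prop) (fun t => by simpa using hσ'.le)
        have h2 : Continuous fun t : ℝ => Complex.exp (↑(-2 * Real.pi * t * (-y)) * Complex.I) := by
          fun_prop
        exact (h2.smul (hk.mul this)).aestronglyMeasurable
      · filter_upwards [Ioc_mem_nhdsGT one_pos] with σ hσ
        refine Eventually.of_forall fun t => ?_
        rw [norm_smul, Complex.norm_exp_ofReal_mul_I, one_mul, norm_mul]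
        by_cases ht : t ∈ tsupport k
        · exact mul_le_mul_of_nonneg_left (hB σ ⟨hσ.1.le, hσ.2⟩ t ht) (norm_nonneg _)
        · rw [image_eq_zero_of_notMem_tsupport ht]; simp
      · apply Tendsto.const_smul
        apply Tendsto.const_mul
        have h1 : ContinuousWithinAt H {z | 0 ≤ z.re} (2 * Real.pi * t * Complex.I) :=
          hH _ (by simp)
        apply h1.tendsto.comp
        apply tendsto_nhdsWithin_of_tendsto_nhds_of_eventually_within
        · have : Continuous fun σ : ℝ => (σ + 2 * Real.pi * t * Complex.I : ℂ) := by fun_prop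
          have := (this.tendsto 0).mono_left (nhdsWithin_le_nhds (s := Ioi 0))
          simpa using this
        · filter_upwards [self_mem_nhdsWithin] with σ hσ
          have hσ' : 0 < σ := hσ
          simpa using hσ'.le
    have l3 := tendsto_nhds_unique (l1.congr' (by
      filter_upwards [self_mem_nhdsWithin] with σ hσ using hid y σ hσ)) l2
    rw [Real.fourier_real_eq_integral_exp_smul, ← l3, integral_complex_ofReal,
      ← integral_add_right_eq_self (fun u => g u * K (u - y)) y]
    simp
  have hRL := (Real.zero_at_infty_fourier (fun t : ℝ => k t * H (2 * Real.pi * t * Complex.I))).comp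
    (tendsto_neg_atTop_atBot.mono_right atBot_le_cocompact)
  have := (Complex.continuous_re.tendsto 0).comp (hRL.congr (fun y => (hlim y).symm))
  simpa [Function.comp_def] using this

theorem lower_by_kernel {g K : ℝ → ℝ} {M a B δ ε : ℝ} (hgm : Measurable g) (hgb : ∀ u, |g u| ≤ M)
    (hKi : Integrable K) (hK0 : ∀ w, 0 ≤ K w) (hK1 : ∫ w, K w = 1)
    (hKt : ∫ w in (Icc (-δ) δ)ᶜ, K w ≤ ε) (hB : 0 ≤ B)
    (h1 : ∀ w ∈ Icc (-δ) δ, a ≤ g w) (h2 : ∀ w, a - B ≤ g w) :
    a - B * ε ≤ ∫ w, g w * K w := by
  have hi : Integrable (fun w => g w * K w) :=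
    hKi.bdd_mul hgm.aestronglyMeasurable (Eventually.of_forall hgb)
  have hi2 : Integrable ((Icc (-δ) δ)ᶜ.indicator K) := hKi.indicator measurableSet_Icc.compl
  calc a - B * ε ≤ a * (∫ w, K w) - B * ∫ w, (Icc (-δ) δ)ᶜ.indicator K w := by
        rw [hK1, integral_indicator measurableSet_Icc.compl]
        nlinarith
    _ = ∫ w, (a * K w - B * (Icc (-δ) δ)ᶜ.indicator K w) := by
        rw [integral_sub (hKi.const_mul a) (hi2.const_mul B), integral_const_mul,
          integral_const_mul]
    _ ≤ _ := by
        apply integral_mono ((hKi.const_mul a).sub (hi2.const_mul B)) hi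
        intro w
        have := hK0 w
        by_cases hw : w ∈ Icc (-δ) δ
        · simp only [Pi.sub_apply]
          rw [indicator_of_notMem (by simpa using hw)]
          nlinarith [h1 w hw]
        · simp only [Pi.sub_apply]
          rw [indicator_of_mem (by simpa using hw)]
          nlinarith [h2 w]

theorem tauber {f : ℝ → ℝ} {C c : ℝ} (hfm : Measurable f) (hf0 : ∀ u, 0 ≤ f u)
    (hfC : ∀ u, f u ≤ C) (hmono : ∀ u v, v ≤ u → f v * Real.exp v ≤ f u * Real.exp u)
    {H : ℂ → ℂ} (hH : ContinuousOn H {z | 0 ≤ z.re})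
    (hL : ∀ z : ℂ, 0 < z.re →
      ∫ u in Ioi (0 : ℝ), ((f u - c : ℝ) : ℂ) * Complex.exp (-z * u) = H z) :
    Tendsto f atTop (𝓝 c) := by
  set g : ℝ → ℝ := (Ioi (0 : ℝ)).indicator (fun u => f u - c) with hg
  have hC : 0 ≤ C := (hf0 0).trans (hfC 0)
  have hgm : Measurable g := (hfm.sub measurable_const).indicator measurableSet_Ioi
  have hgb : ∀ u, |g u| ≤ C + |c| := by
    intro u
    by_cases hu : u ∈ Ioi (0 : ℝ)
    · rw [hg, indicator_of_mem hu, abs_le]
      constructor <;> linarith [hf0 u, hfC u, le_abs_self c, neg_abs_le c]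
    · rw [hg, indicator_of_notMem hu, abs_zero]; positivity
  have hg0 : ∀ u, u ≤ 0 → g u = 0 := fun u hu => indicator_of_notMem (by simpa using hu) _
  have hL' : ∀ z : ℂ, 0 < z.re → ∫ u : ℝ, (g u : ℂ) * Complex.exp (-z * u) = H z := by
    intro z hz
    rw [← hL z hz, ← integral_indicator measurableSet_Ioi]
    refine integral_congr_ae (Eventually.of_forall fun u => ?_)
    by_cases hu : u ∈ Ioi (0 : ℝ)
    · simp only [hg, indicator_of_mem hu]
    · simp only [hg, indicator_of_notMem hu]; simp
  have hcmp : ∀ u v d, v ≤ u → u ≤ v + d → f v * Real.exp (-d) ≤ f u := by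
    intro u v d h1 h2
    have h3 := hmono u v h1
    have h4 : Real.exp (-d) * Real.exp u ≤ Real.exp v := by
      rw [← Real.exp_add]; exact Real.exp_le_exp.2 (by linarith)
    have h5 : f v * Real.exp (-d) * Real.exp u ≤ f u * Real.exp u := by
      calc f v * Real.exp (-d) * Real.exp u = f v * (Real.exp (-d) * Real.exp u) := by ring
        _ ≤ f v * Real.exp v := mul_le_mul_of_nonneg_left h4 (hf0 v)
        _ ≤ _ := h3
    exact le_of_mul_le_mul_right h5 (Real.exp_pos u)
  rw [tendsto_order]
  constructor
  · intro a ha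
    obtain ⟨δ, hδ1, hδ0⟩ : ∃ δ : ℝ, a * Real.exp (2 * δ) < c ∧ δ ∈ Ioc (0 : ℝ) 1 := by
      have : Continuous fun δ : ℝ => a * Real.exp (2 * δ) := by fun_prop
      have h1 := ((this.tendsto 0).mono_left (nhdsWithin_le_nhds (s := Ioi 0))).eventually
        (gt_mem_nhds (show a * Real.exp (2 * 0) < c by simpa using ha))
      exact (h1.and (Ioc_mem_nhdsGT one_pos)).exists
    set gap := c - a * Real.exp (2 * δ) with hgap
    set B := 2 * (C + |c|) + 1 with hBdef
    have hB : 0 < B := by positivity
    have hgap0 : 0 < gap := by linarith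
    obtain ⟨K, hK, hK0, hK1, hKt⟩ := exists_kernel hδ0.1 (show 0 < gap / 2 / B by positivity)
    have hT := (fourier_step hgm hgb hg0 hH hL' hK).comp (tendsto_atTop_add_const_right _ (-δ)
      tendsto_id)
    filter_upwards [hT.eventually (lt_mem_nhds (show -(gap / 2) < 0 by linarith)),
      eventually_gt_atTop (2 * δ)] with v hv hv2
    simp only [Function.comp, id] at hv
    have hE := Real.exp_pos (2 * δ)
    have key := lower_by_kernel (g := fun w => -g (w + (v + -δ))) (M := C + |c|)
      (a := c - f v * Real.exp (2 * δ)) (B := B) (hgm.comp (by fun_prop)).neg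
      (fun u => by rw [abs_neg]; exact hgb _) hK.1 hK0 hK1 hKt hB.le (fun w hw => by
        have hw' : w + (v + -δ) ∈ Ioi (0 : ℝ) := by simp only [mem_Ioi]; linarith [hw.1]
        simp only [hg, indicator_of_mem hw']
        have := hcmp v (w + (v + -δ)) (2 * δ) (by linarith [hw.2]) (by linarith [hw.1])
        rw [Real.exp_neg, ← div_eq_mul_inv, div_le_iff₀ hE] at this
        linarith) (fun w => by
        have h1 := abs_le.1 (hgb (w + (v + -δ)))
        have h2 := mul_nonneg (hf0 v) hE.le
        linarith [le_abs_self c, abs_nonneg c])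
    simp only [neg_mul, integral_neg] at key
    rw [mul_div_cancel₀ _ hB.ne'] at key
    have : a * Real.exp (2 * δ) < f v * Real.exp (2 * δ) := by linarith
    exact lt_of_mul_lt_mul_right this hE.le
  · intro b hb
    obtain ⟨δ, hδ1, hδ0⟩ : ∃ δ : ℝ, c < b * Real.exp (-(2 * δ)) ∧ δ ∈ Ioc (0 : ℝ) 1 := by
      have : Continuous fun δ : ℝ => b * Real.exp (-(2 * δ)) := by fun_prop
      have h1 := ((this.tendsto 0).mono_left (nhdsWithin_le_nhds (s := Ioi 0))).eventually
        (lt_mem_nhds (show c < b * Real.exp (-(2 * 0)) by simpa using hb))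
      exact (h1.and (Ioc_mem_nhdsGT one_pos)).exists
    set gap := b * Real.exp (-(2 * δ)) - c with hgap
    set B := 2 * (C + |c|) + 1 with hBdef
    have hB : 0 < B := by positivity
    have hgap0 : 0 < gap := by linarith
    obtain ⟨K, hK, hK0, hK1, hKt⟩ := exists_kernel hδ0.1 (show 0 < gap / 2 / B by positivity)
    have hT := (fourier_step hgm hgb hg0 hH hL' hK).comp (tendsto_atTop_add_const_right _ δ
      tendsto_id)
    filter_upwards [hT.eventually (gt_mem_nhds (show 0 < gap / 2 by linarith)),
      eventually_gt_atTop 0] with v hv hv2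
    simp only [Function.comp, id] at hv
    have hE := Real.exp_pos (-(2 * δ))
    have hE1 : Real.exp (-(2 * δ)) ≤ 1 := Real.exp_le_one_iff.2 (by linarith [hδ0.1])
    have key := lower_by_kernel (g := fun w => g (w + (v + δ))) (M := C + |c|)
      (a := f v * Real.exp (-(2 * δ)) - c) (B := B) (hgm.comp (by fun_prop))
      (fun u => hgb _) hK.1 hK0 hK1 hKt hB.le (fun w hw => by
        have hw' : w + (v + δ) ∈ Ioi (0 : ℝ) := by simp only [mem_Ioi]; linarith [hw.1]
        simp only [hg, indicator_of_mem hw']
        have := hcmp (w + (v + δ)) v (2 * δ) (by linarith [hw.1]) (by linarith [hw.2])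
        linarith) (fun w => by
        have h1 := abs_le.1 (hgb (w + (v + δ)))
        have h2 : f v * Real.exp (-(2 * δ)) ≤ C * 1 := mul_le_mul (hfC v) hE1 hE.le hC
        linarith [neg_abs_le c, abs_nonneg c])
    rw [mul_div_cancel₀ _ hB.ne'] at key
    have : f v * Real.exp (-(2 * δ)) < b * Real.exp (-(2 * δ)) := by linarith
    exact lt_of_mul_lt_mul_right this hE.le

end Pool.Agent.H55.PNT
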