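import Mathlib
import Pool.Agent.H55.PNTTauber

/-! Wiener-Ikehara for Dirichlet series, and the prime number theorem in arithmetic progressions. -/

namespace Pool.Agent.H55.PNT

open MeasureTheory Filter Topology Set ArithmeticFunction Chebyshev

/-- Wiener-Ikehara theorem (with a Chebyshev type upper bound as hypothesis). -/
theorem wiener_ikehara {a : ℕ → ℝ} (ha : ∀ n, 0 ≤ a n) {C c : ℝ}
    (hC : ∀ n : ℕ, ∑ k ∈ Finset.Icc 1 n, a k ≤ C * n) {G : ℂ → ℂ}
    (hG : ContinuousOn G {s | 1 ≤ s.re})
    (hGe : ∀ s : ℂ, 1 < s.re → G s = LSeries (fun n => (a n : ℂ)) s - c / (s - 1)) :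
    Tendsto (fun x : ℝ => (∑ k ∈ Finset.Icc 1 ⌊x⌋₊, a k) / x) atTop (𝓝 c) := by
  set A : ℝ → ℝ := fun x => ∑ k ∈ Finset.Icc 1 ⌊x⌋₊, a k with hA
  have hA0 : ∀ x, 0 ≤ A x := fun x => Finset.sum_nonneg fun k _ => ha k
  have hAm : Monotone A := fun x y hxy =>
    Finset.sum_le_sum_of_subset_of_nonneg (Finset.Icc_subset_Icc_right (Nat.floor_mono hxy))
      fun k _ _ => ha k
  have hC0 : 0 ≤ C := by
    have := hC 1
    simp only [Finset.Icc_self, Finset.sum_singleton, Nat.cast_one, mul_one] at this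
    exact (ha 1).trans this
  have hAC : ∀ x, 0 ≤ x → A x ≤ C * x := fun x hx =>
    (hC _).trans (mul_le_mul_of_nonneg_left (Nat.floor_le hx) hC0)
  set f : ℝ → ℝ := fun u => A (Real.exp u) / Real.exp u with hf
  have hfm : Measurable f := (hAm.measurable.comp Real.measurable_exp).div Real.measurable_exp
  have hf0 : ∀ u, 0 ≤ f u := fun u => div_nonneg (hA0 _) (Real.exp_pos _).le
  have hfC : ∀ u, f u ≤ C := fun u => by
    rw [hf, div_le_iff₀ (Real.exp_pos _)]; exact hAC _ (Real.exp_pos _).le
  have hmono : ∀ u v, v ≤ u → f v * Real.exp v ≤ f u * Real.exp u := fun u v h => by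
    simp only [hf, div_mul_cancel₀ _ (Real.exp_pos _).ne']
    exact hAm (Real.exp_le_exp.2 h)
  have hO : (fun n : ℕ => ∑ k ∈ Finset.Icc 1 n, a k) =O[atTop] fun n : ℕ => (n : ℝ) ^ (1 : ℝ) := by
    refine Asymptotics.IsBigO.of_bound C (Eventually.of_forall fun n => ?_)
    rw [Real.rpow_one, Real.norm_of_nonneg (Finset.sum_nonneg fun k _ => ha k),
      Real.norm_of_nonneg (Nat.cast_nonneg n)]
    exact hC n
  have key := tauber (c := c) hfm hf0 hfC hmono (H := fun z => (G (1 + z) - c) / (1 + z)) ?_ ?_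
  · refine (key.comp Real.tendsto_log_atTop).congr' ?_
    filter_upwards [eventually_gt_atTop 0] with x hx
    simp only [Function.comp, hf, Real.exp_log hx, hA]
  · refine ContinuousOn.div ((hG.comp (by fun_prop) fun z hz => ?_).sub continuousOn_const)
      (by fun_prop) fun z hz h => ?_
    · simpa using hz
    · have := congrArg Complex.re h
      simp only [Complex.add_re, Complex.one_re, Complex.zero_re] at this
      have hz' : 0 ≤ z.re := hz
      linarith
  · intro z hz
    have hs : (1 : ℝ) < (1 + z).re := by simpa using hz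
    have hz0 : z ≠ 0 := by rintro rfl; simp at hz
    have hs0 : (1 + z) ≠ 0 := by
      intro h; rw [h] at hs; simp at hs; linarith
    have h1 := LSeries_eq_mul_integral_of_nonneg a zero_le_one hs hO ha
    have himg : Real.exp '' Ioi 0 = Ioi 1 := by
      rw [Real.image_exp_Ioi]; simp
    rw [← himg, integral_image_eq_integral_abs_deriv_smul measurableSet_Ioi
      (fun x _ => (Real.hasDerivAt_exp x).hasDerivWithinAt) Real.exp_injective.injOn] at h1
    have h2 : ∫ u in Ioi (0 : ℝ), (f u : ℂ) * Complex.exp (-z * u)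
        = LSeries (fun n => (a n : ℂ)) (1 + z) / (1 + z) := by
      rw [h1, mul_div_cancel_left₀ _ hs0]
      refine setIntegral_congr_fun measurableSet_Ioi fun u _ => ?_
      simp only [hf, hA, abs_of_pos (Real.exp_pos u), Complex.real_smul]
      push_cast
      rw [Complex.cpow_def_of_ne_zero (Complex.exp_ne_zero _), Complex.log_exp (by
        simp [Real.pi_pos]) (by simp [Real.pi_pos.le])]
      have : Complex.exp (-z * u) = Complex.exp u * (Complex.exp u *
          Complex.exp (u * -(1 + z + 1))) := by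
        rw [← Complex.exp_add, ← Complex.exp_add]; congr 1; ring
      rw [this]
      field_simp
    have h3 : ∫ u in Ioi (0 : ℝ), Complex.exp (-z * u) = 1 / z := by
      rw [integral_exp_mul_complex_Ioi (by simpa using hz)]
      simp
    have hi3 : IntegrableOn (fun u : ℝ => Complex.exp (-z * u)) (Ioi 0) :=
      integrableOn_exp_mul_complex_Ioi (by simpa using hz) 0
    have hi2 : IntegrableOn (fun u : ℝ => (f u : ℂ) * Complex.exp (-z * u)) (Ioi 0) := by
      refine Integrable.bdd_mul (c := C) hi3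
        (Complex.measurable_ofReal.comp hfm).aestronglyMeasurable (Eventually.of_forall fun u => ?_)
      rw [Complex.norm_real, Real.norm_of_nonneg (hf0 u)]; exact hfC u
    calc ∫ u in Ioi (0 : ℝ), ((f u - c : ℝ) : ℂ) * Complex.exp (-z * u)
        = ∫ u in Ioi (0 : ℝ), ((f u : ℂ) * Complex.exp (-z * u) - c * Complex.exp (-z * u)) := by
          refine setIntegral_congr_fun measurableSet_Ioi fun u _ => ?_
          push_cast; ring
      _ = _ := by
          rw [integral_sub hi2 (hi3.const_mul _), integral_const_mul, h2, h3, hGe _ hs,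
            add_sub_cancel_left]
          field_simp
          ring

/-- PNT in arithmetic progressions, von Mangoldt form. -/
theorem psi_ap {q : ℕ} [NeZero q] {a : ZMod q} (ha : IsUnit a) :
    Tendsto (fun x : ℝ => (∑ k ∈ Finset.Icc 1 ⌊x⌋₊, vonMangoldt.residueClass a k) / x) atTop
      (𝓝 ((q.totient : ℝ)⁻¹)) := by
  apply wiener_ikehara (vonMangoldt.residueClass_nonneg a) (C := Real.log 4 + 4)
    (G := vonMangoldt.LFunctionResidueClassAux a) ?_
    (vonMangoldt.continuousOn_LFunctionResidueClassAux a)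
  · intro s hs
    rw [vonMangoldt.eqOn_LFunctionResidueClassAux ha hs]
    push_cast; rfl
  · intro n
    refine le_trans ?_ (psi_le_const_mul_self (Nat.cast_nonneg n))
    rw [psi, Nat.floor_natCast]
    exact Finset.sum_le_sum fun k _ => vonMangoldt.residueClass_le a k

/-- PNT in arithmetic progressions, `theta` form. -/
theorem theta_ap {q : ℕ} [NeZero q] {a : ZMod q} (ha : IsUnit a) :
    Tendsto (fun x : ℝ => (∑ p ∈ (Finset.Icc 1 ⌊x⌋₊).filter
      (fun p : ℕ => p.Prime ∧ (p : ZMod q) = a), Real.log p) / x) atTop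
      (𝓝 ((q.totient : ℝ)⁻¹)) := by
  obtain ⟨C, hC⟩ := psi_sub_theta_le_mul_sqrt
  have h0 : Tendsto (fun x : ℝ => C * √x / x) atTop (𝓝 0) := by
    have : Tendsto (fun x : ℝ => C * (√x)⁻¹) atTop (𝓝 (C * 0)) :=
      (tendsto_inv_atTop_zero.comp Real.tendsto_sqrt_atTop).const_mul C
    rw [mul_zero] at this
    refine this.congr' ?_
    filter_upwards [eventually_gt_atTop 0] with x hx
    have := Real.sqrt_pos.2 hx
    have h2 := Real.sq_sqrt hx.le
    field_simp
    rw [h2]
  have hdiff : ∀ x : ℝ, ∃ d, 0 ≤ d ∧ d ≤ C * √x ∧ ∑ p ∈ (Finset.Icc 1 ⌊x⌋₊).filter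
      (fun p : ℕ => p.Prime ∧ (p : ZMod q) = a), Real.log p
      = ∑ k ∈ Finset.Icc 1 ⌊x⌋₊, vonMangoldt.residueClass a k - d := by
    intro x
    refine ⟨∑ k ∈ (Finset.Icc 1 ⌊x⌋₊).filter (fun k => ¬ k.Prime), vonMangoldt.residueClass a k,
      Finset.sum_nonneg fun k _ => vonMangoldt.residueClass_nonneg a k, ?_, ?_⟩
    · refine le_trans ?_ (hC x)
      rw [psi_sub_theta_eq_sum_not_prime]
      exact Finset.sum_le_sum fun k _ => vonMangoldt.residueClass_le a k
    · rw [← Finset.sum_filter_add_sum_filter_not (Finset.Icc 1 ⌊x⌋₊) Nat.Prime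
        (vonMangoldt.residueClass a), add_sub_cancel_right,
        ← Finset.filter_filter, Finset.sum_filter (p := fun p : ℕ => (p : ZMod q) = a)]
      refine Finset.sum_congr rfl fun p hp => ?_
      have hp' := (Finset.mem_filter.1 hp).2
      by_cases h : (p : ZMod q) = a
      · rw [if_pos h, vonMangoldt.residueClass, indicator_of_mem (by exact h),
          vonMangoldt_apply_prime hp']
      · rw [if_neg h, vonMangoldt.residueClass, indicator_of_notMem (by exact h)]
  choose d hd0 hd1 hd2 using hdiff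
  have hd : Tendsto (fun x => d x / x) atTop (𝓝 0) := by
    refine squeeze_zero' ?_ ?_ h0
    · filter_upwards [eventually_ge_atTop 0] with x hx using div_nonneg (hd0 x) hx
    · filter_upwards [eventually_ge_atTop 0] with x hx using div_le_div_of_nonneg_right (hd1 x) hx
  have := (psi_ap ha).sub hd
  rw [sub_zero] at this
  refine this.congr fun x => ?_
  rw [hd2, sub_div]

/-- The prime number theorem, `theta` form. -/
theorem theta_pnt : Tendsto (fun x : ℝ => θ x / x) atTop (𝓝 1) := by
  have := theta_ap (q := 1) (a := 1) isUnit_one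
  simp only [Nat.totient_one, Nat.cast_one, inv_one] at this
  refine this.congr fun x => ?_
  congr 1
  rw [theta]
  refine Finset.sum_congr ?_ fun _ _ => rfl
  ext p
  simp only [Finset.mem_filter, Finset.mem_Icc, Finset.mem_Ioc, Subsingleton.elim (p : ZMod 1) 1,
    and_true]
  rfl

/-- For large `x` every interval `(α x, β x]` contains a prime of a given coprime class. -/
theorem exists_prime_ap {q : ℕ} [NeZero q] {a : ZMod q} (ha : IsUnit a) {α β : ℝ} (hα : 0 < α)
    (hαβ : α < β) : ∀ᶠ x : ℝ in atTop, ∃ p : ℕ, p.Prime ∧ (p : ZMod q) = a ∧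
      α * x < p ∧ (p : ℝ) ≤ β * x := by
  set T : ℝ → ℝ := fun x => ∑ p ∈ (Finset.Icc 1 ⌊x⌋₊).filter
      (fun p : ℕ => p.Prime ∧ (p : ZMod q) = a), Real.log p with hT
  have hβ : 0 < β := hα.trans hαβ
  have h := theta_ap ha
  have h1 := (h.comp (tendsto_id.const_mul_atTop hα)).const_mul α
  have h2 := (h.comp (tendsto_id.const_mul_atTop hβ)).const_mul β
  have hφ : (0 : ℝ) < (q.totient : ℝ)⁻¹ := by
    have := Nat.totient_pos.2 (NeZero.pos q)
    positivity
  have h3 := (h2.sub h1).eventually (lt_mem_nhds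
    (show (0 : ℝ) < β * (q.totient : ℝ)⁻¹ - α * (q.totient : ℝ)⁻¹ by nlinarith))
  filter_upwards [h3, eventually_gt_atTop 0] with x hx hx0
  simp only [Function.comp, id] at hx
  by_contra hcon
  push Not at hcon
  have hsub : (Finset.Icc 1 ⌊β * x⌋₊).filter (fun p : ℕ => p.Prime ∧ (p : ZMod q) = a) ⊆
      (Finset.Icc 1 ⌊α * x⌋₊).filter (fun p : ℕ => p.Prime ∧ (p : ZMod q) = a) := by
    intro p hp
    simp only [Finset.mem_filter, Finset.mem_Icc] at hp ⊢
    refine ⟨⟨hp.1.1, ?_⟩, hp.2⟩
    rw [Nat.le_floor_iff (by positivity)] at hp ⊢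
    by_contra hlt
    exact absurd hp.1.2 (not_le.2 (hcon p hp.2.1 hp.2.2 (not_le.1 hlt)))
  have hle : T (β * x) ≤ T (α * x) := Finset.sum_le_sum_of_subset_of_nonneg hsub
    fun p _ _ => Real.log_natCast_nonneg p
  have e1 : β * (T (β * x) / (β * x)) = T (β * x) / x := by field_simp
  have e2 : α * (T (α * x) / (α * x)) = T (α * x) / x := by field_simp
  change 0 < β * (T (β * x) / (β * x)) - α * (T (α * x) / (α * x)) at hx
  rw [e1, e2] at hx
  have := div_le_div_of_nonneg_right hle hx0.le
  linarith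

end Pool.Agent.H55.PNT
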