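import Mathlib
import Pool.Agent.H55.PNT

namespace Pool.Agent.H55.CatalanMN

open Filter

theorem lucas_dvd {q n k : ℕ} (hq : q.Prime)
    (h : q ∣ (n % q).choose (k % q) * (n / q).choose (k / q)) : q ∣ n.choose k := by
  have := Fact.mk hq
  have h3 := Choose.choose_modEq_choose_mod_mul_choose_div_nat (n := n) (k := k) (p := q)
  exact (h3.dvd_iff (dvd_refl q)).2 h

theorem prime_dvd_cat {q t n : ℕ} (hq : q.Prime) (hn : 2 * n + 1 < q)
    (h : q ∣ (2 * t).choose t) : q ∣ catalan (q * t + n) := by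
  have h1 : q ∣ Nat.centralBinom (q * t + n) := by
    rw [Nat.centralBinom]
    apply lucas_dvd hq
    apply Dvd.dvd.mul_left
    rw [show 2 * (q * t + n) = q * (2 * t) + 2 * n by ring, Nat.mul_add_div hq.pos,
      Nat.mul_add_div hq.pos, Nat.div_eq_of_lt (by omega), Nat.div_eq_of_lt (by omega)]
    simpa using h
  rw [← succ_mul_catalan_eq_centralBinom] at h1
  rcases (hq.dvd_mul).1 h1 with h2 | h2
  · rw [add_assoc, Nat.dvd_add_right (Dvd.intro _ rfl)] at h2
    have := Nat.le_of_dvd (by omega) h2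
    omega
  · exact h2

theorem cat_rec (N : ℕ) : (N + 2) * catalan (N + 1) = 2 * (2 * N + 1) * catalan N := by
  have h1 := succ_mul_catalan_eq_centralBinom (N + 1)
  have h2 := succ_mul_catalan_eq_centralBinom N
  have h3 := Nat.succ_mul_centralBinom_succ N
  apply Nat.eq_of_mul_eq_mul_left (Nat.succ_pos N)
  rw [← h1, ← h2] at h3
  simp only [Nat.succ_eq_add_one]
  linarith

theorem odd_part {u N w : ℕ} (h : 2 * N + 1 = u ^ 3 * w) : u ∣ catalan (N + 1) := by
  have hr := cat_rec N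
  by_cases h3 : 3 ∣ u
  · obtain ⟨v, rfl⟩ := h3
    have e : 2 * (N + 2) = 3 * (9 * v ^ 3 * w + 1) := by nlinarith
    obtain ⟨s, hs⟩ : 3 ∣ N + 2 := by omega
    have e2 : 2 * s = 9 * v ^ 3 * w + 1 := by omega
    have hc : Nat.Coprime (3 * v) s := by
      apply Nat.Coprime.coprime_dvd_right (Dvd.intro_left 2 rfl)
      rw [e2, show 9 * v ^ 3 * w + 1 = 1 + (3 * v) * (3 * v ^ 2 * w) by ring]
      simp
    apply hc.dvd_of_dvd_mul_left
    rw [hs, h] at hr
    exact ⟨2 * 3 * v ^ 2 * w * catalan N, by nlinarith⟩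
  · have hc : Nat.Coprime u (N + 2) := by
      apply Nat.Coprime.coprime_dvd_right (Dvd.intro_left 2 rfl)
      rw [show 2 * (N + 2) = 3 + u * (u ^ 2 * w) by nlinarith, Nat.coprime_add_mul_left_right]
      exact ((Nat.Prime.coprime_iff_not_dvd Nat.prime_three).2 h3).symm
    apply hc.dvd_of_dvd_mul_left
    rw [hr, h]
    exact ⟨2 * u ^ 2 * w * catalan N, by ring⟩

theorem two_part {a N : ℕ} (h : 2 ^ (3 * a) ∣ N + 3) : 2 ^ a ∣ catalan N := by
  rcases Nat.eq_zero_or_pos a with rfl | ha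
  · simp
  have h8 : ∀ i, i ≤ a + 2 → 2 ^ i ∣ N + 3 := fun i hi =>
    (pow_dvd_pow 2 (by omega)).trans h
  have h4 : 4 ∣ N + 3 := h8 2 (by omega)
  have hB : 2 ^ (a + 1) ∣ Nat.centralBinom N := by
    rw [Nat.Prime.pow_dvd_iff_le_factorization Nat.prime_two (Nat.centralBinom_ne_zero N),
      Nat.centralBinom, two_mul, Nat.factorization_choose' Nat.prime_two
        (b := Nat.log 2 (N + N) + a + 3) (by omega)]
    have : insert 1 (Finset.Ico 3 (a + 3)) ⊆ (Finset.Ico 1 (Nat.log 2 (N + N) + a + 3)).filter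
        (fun i => 2 ^ i ≤ N % 2 ^ i + N % 2 ^ i) := by
      intro i hi
      rw [Finset.mem_insert, Finset.mem_Ico] at hi
      rw [Finset.mem_filter, Finset.mem_Ico]
      refine ⟨by omega, ?_⟩
      rcases hi with rfl | hi
      · omega
      · obtain ⟨s, hs⟩ := h8 i (by omega)
        have h3 : 2 ^ 3 ≤ 2 ^ i := Nat.pow_le_pow_right (by norm_num) hi.1
        obtain ⟨s', rfl⟩ : ∃ s', s = s' + 1 := ⟨s - 1, by
          rcases s with _ | s
          · simp at hs
          · simp⟩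
        have : N = 2 ^ i * s' + (2 ^ i - 3) := by rw [mul_add] at hs; omega
        rw [this, Nat.mul_add_mod, Nat.mod_eq_of_lt (by omega)]
        omega
    have := Finset.card_le_card this
    rw [Finset.card_insert_of_notMem (by simp), Nat.card_Ico] at this
    omega
  rw [← succ_mul_catalan_eq_centralBinom] at hB
  obtain ⟨s, hs⟩ : 2 ∣ N + 1 := by omega
  rw [hs, pow_succ', mul_assoc] at hB
  have h5 := Nat.dvd_of_mul_dvd_mul_left (by norm_num) hB
  have hc : Nat.Coprime (2 ^ a) s := Nat.Coprime.pow_left _ (by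
    rw [Nat.coprime_two_left, Nat.odd_iff]; omega)
  exact hc.dvd_of_dvd_mul_left h5

theorem exists_class (n : ℕ) (hn : 0 < n) : ∃ N0 : ℕ, Nat.Coprime N0 n ∧
    ∀ N, 1 ≤ N → N ≡ N0 [MOD n ^ 3] → n ∣ catalan N := by
  obtain ⟨a, u, hu, rfl⟩ := Nat.exists_eq_two_pow_mul_odd hn.ne'
  have hc0 : Nat.Coprime (2 ^ a) u := Nat.Coprime.pow_left _ (by
    rwa [Nat.coprime_two_left])
  have hc : Nat.Coprime (2 ^ (3 * a)) (u ^ 3) := by
    rw [mul_comm, pow_mul]; exact hc0.pow 3 3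
  obtain ⟨k, hk⟩ : Odd (u ^ 3) := hu.pow
  obtain ⟨N0, h1, h2⟩ := Nat.chineseRemainder hc (3 * (2 ^ (3 * a) - 1)) (k + 1)
  have hpos : 0 < 2 ^ (3 * a) := by positivity
  have g1 : ∀ N, N ≡ N0 [MOD 2 ^ (3 * a)] → 2 ^ (3 * a) ∣ N + 3 := by
    intro N hN
    have := (hN.trans h1).add_right 3
    rw [show 3 * (2 ^ (3 * a) - 1) + 3 = 2 ^ (3 * a) * 3 by omega] at this
    exact (this.dvd_iff (dvd_refl _)).2 (Dvd.intro _ rfl)
  have g2 : ∀ N, N + 1 ≡ N0 [MOD u ^ 3] → u ^ 3 ∣ 2 * N + 1 := by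
    intro N hN
    have h3 := Nat.ModEq.add_right_cancel' 1 (hN.trans h2)
    have := (h3.mul_left 2).add_right 1
    rw [← hk] at this
    exact (this.dvd_iff (dvd_refl _)).2 (dvd_refl _)
  refine ⟨N0, Nat.Coprime.mul_right ?_ ?_, fun N hN1 hN => ?_⟩
  · rcases Nat.eq_zero_or_pos a with rfl | ha
    · simp
    · apply Nat.Coprime.pow_right
      have := (dvd_pow_self 2 (by omega : 3 * a ≠ 0)).trans (g1 N0 (Nat.ModEq.refl _))
      rw [Nat.coprime_two_right, Nat.odd_iff]; omega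
  · have h3 : 2 * N0 ≡ 1 [MOD u] := by
      have := (h2.mul_left 2).of_dvd (dvd_pow_self u (by norm_num : 3 ≠ 0))
      refine this.trans ?_
      rw [show 2 * (k + 1) = 1 + u ^ 3 by omega]
      exact (Nat.modEq_iff_dvd' (by omega)).2 (by simp) |>.symm
    exact Nat.coprime_of_mul_modEq_one 2 (by rwa [mul_comm])
  · rw [mul_pow, ← pow_mul, mul_comm a 3] at hN
    obtain ⟨N, rfl⟩ : ∃ M, N = M + 1 := ⟨N - 1, by omega⟩
    apply hc0.mul_dvd_of_dvd_of_dvd
    · exact two_part (g1 _ (hN.of_mul_right _))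
    · obtain ⟨w, hw⟩ := g2 N (hN.of_mul_left _)
      exact odd_part hw

theorem main (n : ℕ) (hn : 0 < n) :
    ∃ m : ℕ, 0 < m ∧ Nat.Coprime m n ∧ m * n ∣ catalan (m + n) := by
  obtain ⟨N0, hN0, hcat⟩ := exists_class n hn
  have : NeZero (n ^ 3) := ⟨by positivity⟩
  have hu : IsUnit ((N0 : ZMod (n ^ 3)) - n) := by
    have h1 : IsUnit (N0 : ZMod (n ^ 3)) := (ZMod.isUnit_iff_coprime _ _).2 (hN0.pow_right 3)
    have h2 : IsNilpotent (-(n : ZMod (n ^ 3))) := by
      refine IsNilpotent.neg ⟨3, ?_⟩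
      rw [← Nat.cast_pow, ZMod.natCast_self]
    rw [sub_eq_add_neg]
    exact h2.isUnit_add_left_of_commute h1 (Commute.all _ _)
  have hev := Pool.Agent.H55.PNT.exists_prime_ap hu (α := 3 / 2) (β := 19 / 10) (by norm_num)
    (by norm_num)
  obtain ⟨X, hX⟩ := eventually_atTop.1 (tendsto_natCast_atTop_atTop.eventually hev)
  obtain ⟨p, hpgt, hp, hp1⟩ := Nat.forall_exists_prime_gt_and_eq_mod (q := n ^ 3) isUnit_one
    (X + 2 * n + 1)
  obtain ⟨q, hq, hqc, hq1, hq2⟩ := hX p (by omega)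
  have hp0 : (0 : ℝ) < p := by exact_mod_cast hp.pos
  have hq1' : 3 * p < 2 * q := by
    have : (3 * p : ℝ) < 2 * q := by linarith
    exact_mod_cast this
  have hq2' : q < 2 * p := by
    have : (q : ℝ) < 2 * p := by linarith
    exact_mod_cast this
  have cp : Nat.Coprime p n := (hp.coprime_iff_not_dvd).2 fun h => by
    have := Nat.le_of_dvd hn h; omega
  have cq : Nat.Coprime q n := (hq.coprime_iff_not_dvd).2 fun h => by
    have := Nat.le_of_dvd hn h; omega
  have cpq : Nat.Coprime p q := (Nat.coprime_primes hp hq).2 (by omega)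
  have cm : Nat.Coprime (p * q) n := Nat.Coprime.mul_left cp cq
  refine ⟨p * q, Nat.mul_pos hp.pos hq.pos, cm, cm.mul_dvd_of_dvd_of_dvd
    (cpq.mul_dvd_of_dvd_of_dvd ?_ ?_) ?_⟩
  · apply prime_dvd_cat hp (by omega)
    apply lucas_dvd hp
    apply Dvd.dvd.mul_right
    have e1 : q % p = q - p := by
      rw [Nat.mod_eq_sub_mod (by omega), Nat.mod_eq_of_lt (by omega)]
    have e2 : 2 * q % p = 2 * q - 3 * p := by
      rw [show 2 * q = p * 3 + (2 * q - 3 * p) by omega, Nat.mul_add_mod,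
        Nat.mod_eq_of_lt (by omega)]
      omega
    rw [e1, e2, Nat.choose_eq_zero_of_lt (by omega)]
    exact dvd_zero _
  · rw [mul_comm p q]
    apply prime_dvd_cat hq (by omega)
    exact hq.dvd_choose (by omega) (by omega) (by omega)
  · apply hcat _ (by omega)
    rw [← ZMod.natCast_eq_natCast_iff]
    push_cast
    rw [hp1, hqc]; ring

end Pool.Agent.H55.CatalanMN
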