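import Mathlib

/-! Counting topologies on a countable set induced by maps into `C_k(X, Y)`. -/

namespace Pool.Agent.H55.CkM

open Set Topology TopologicalSpace Filter Cardinal BoundedContinuousFunction

/-- `T` is homeomorphic to a subspace of `C_k(X, Y)` with `X` separable metrizable and `Y`
metrizable. -/
def InCM (T : Type) [TopologicalSpace T] : Prop :=
  ∃ (X Y : Type) (_ : TopologicalSpace X) (_ : TopologicalSpace Y),
    SeparableSpace X ∧ MetrizableSpace X ∧ MetrizableSpace Y ∧ ∃ e : T → C(X, Y), IsEmbedding e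

/-- `T` is homeomorphic to a subspace of `C_k(X, Y)` with `X`, `Y` separable metrizable. -/
def InCM0 (T : Type) [TopologicalSpace T] : Prop :=
  ∃ (X Y : Type) (_ : TopologicalSpace X) (_ : TopologicalSpace Y),
    SeparableSpace X ∧ MetrizableSpace X ∧ SeparableSpace Y ∧ MetrizableSpace Y ∧
      ∃ e : T → C(X, Y), IsEmbedding e

theorem reduce {X Y D : Type} [TopologicalSpace X] [SeparableSpace X] [TopologicalSpace Y]
    [MetrizableSpace Y] [Countable D] (f : D → C(X, Y)) :
    ∃ g : D → C(X, ℕ →ᵇ ℝ), induced f inferInstance = induced g inferInstance := by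
  let R : Set Y := ⋃ d, range (f d)
  have hR : IsSeparable R := IsSeparable.iUnion fun d => isSeparable_range (f d).continuous
  have := hR.separableSpace
  let _ := metrizableSpaceMetric R
  have := UniformSpace.secondCountable_of_separable R
  obtain ⟨ψ, hψ⟩ := exists_isInducing_l_infty R
  let f' : D → C(X, R) := fun d => ⟨fun x => ⟨f d x, mem_iUnion.2 ⟨d, x, rfl⟩⟩,
    (f d).continuous.subtype_mk _⟩
  let v : C(R, Y) := ⟨Subtype.val, continuous_subtype_val⟩
  let w : C(R, ℕ →ᵇ ℝ) := ⟨ψ, hψ.continuous⟩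
  have h1 := ContinuousMap.isInducing_postcomp (X := X) v IsInducing.subtypeVal
  have h2 := ContinuousMap.isInducing_postcomp (X := X) w hψ
  refine ⟨w.comp ∘ f', ?_⟩
  have e : f = v.comp ∘ f' := by funext d; ext x; rfl
  rw [e, ← induced_compose, ← induced_compose, ← h1.eq_induced, ← h2.eq_induced]

theorem count (X : Type) [TopologicalSpace X] [SeparableSpace X] {D : Type} [Countable D]
    (τ : Set ℝ → TopologicalSpace D) (hτ : Function.Injective τ) :
    ∃ Z, ∀ (Y : Type) [TopologicalSpace Y] [MetrizableSpace Y] (f : D → C(X, Y)),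
      τ Z ≠ induced f inferInstance := by
  by_contra h
  push Not at h
  have h1 : ∀ Z, ∃ g : D → C(X, ℕ →ᵇ ℝ), τ Z = induced g inferInstance := fun Z => by
    obtain ⟨Y, _, _, f, hf⟩ := h Z
    obtain ⟨g, hg⟩ := reduce f
    exact ⟨g, hf.trans hg⟩
  choose g hg using h1
  obtain ⟨s, hsc, hs⟩ := exists_countable_dense X
  have := hsc.to_subtype
  let Φ : Set ℝ → (D × s × ℕ → ℝ) := fun Z p => g Z p.1 p.2.1 p.2.2
  have hΦ : Function.Injective Φ := by
    intro Z Z' hZ
    apply hτ
    rw [hg, hg]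
    congr 1
    funext d
    refine ContinuousMap.ext fun x => congrFun (Continuous.ext_on hs (g Z d).continuous
      (g Z' d).continuous fun y hy => ?_) x
    ext n
    exact congrFun hZ (d, ⟨y, hy⟩, n)
  have h2 := mk_le_of_injective hΦ
  rw [mk_set, mk_real, ← power_def, mk_real] at h2
  have h3 : 𝔠 ^ #(D × s × ℕ) ≤ 𝔠 := by
    calc 𝔠 ^ #(D × s × ℕ) ≤ 𝔠 ^ ℵ₀ := power_le_power_left continuum_ne_zero mk_le_aleph0
      _ = 𝔠 := continuum_power_aleph0
  exact absurd (h2.trans h3) (not_le.2 (cantor _))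

/-- countably many bump functions -/
noncomputable def bump : Option (ℚ × ℕ) → C(ℝ, ℝ)
  | none => 0
  | some p => ⟨fun t => max 0 (2 - (p.2 + 1) * |t - p.1|), by fun_prop⟩

noncomputable def jZ (Z : Set ℝ) (d : Option (ℚ × ℕ)) : C(Z, ℝ) := (bump d).restrict Z

theorem jZ_inj : Function.Injective fun Z : Set ℝ => induced (jZ Z) inferInstance := by
  have key : ∀ Z Z' : Set ℝ, induced (jZ Z) inferInstance = induced (jZ Z') inferInstance →
      Z ⊆ Z' := by
    intro Z Z' h x hx
    by_contra hx'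
    have hq : ∀ n : ℕ, ∃ q : ℚ, |x - q| < 1 / ((n : ℝ) + 1) := fun n =>
      exists_rat_near x (by positivity)
    choose q hq using hq
    have h1 : Tendsto (fun n => jZ Z' (some (q n, n))) atTop (𝓝 (jZ Z' none)) := by
      rw [ContinuousMap.tendsto_nhds_compactOpen]
      intro K hK U _ hKU
      have h2 : (Subtype.val '' K)ᶜ ∈ 𝓝 x :=
        (hK.image continuous_subtype_val).isClosed.isOpen_compl.mem_nhds (by
          rintro ⟨y, _, rfl⟩
          exact hx' y.2)
      obtain ⟨δ, hδ, hb⟩ := Metric.mem_nhds_iff.1 h2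
      obtain ⟨N, hN⟩ := exists_nat_one_div_lt (show 0 < δ / 3 by positivity)
      filter_upwards [eventually_ge_atTop N] with n hn y hy
      have h3 : δ ≤ |y.1 - x| := by
        by_contra h4
        exact hb (show dist y.1 x < δ from not_le.1 h4) ⟨y, hy, rfl⟩
      have h4 : 1 / ((n : ℝ) + 1) < δ / 3 := lt_of_le_of_lt (Nat.one_div_le_one_div hn) hN
      have h5 : |y.1 - x| ≤ |y.1 - q n| + |x - q n| := by
        rw [abs_sub_comm x]; exact abs_sub_le _ _ _
      have h6 : 2 * (1 / ((n : ℝ) + 1)) ≤ |y.1 - q n| := by linarith [hq n]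
      have h7 : jZ Z' (some (q n, n)) y = 0 := by
        show max 0 (2 - ((n : ℝ) + 1) * |y.1 - q n|) = 0
        rw [max_eq_left]
        rw [mul_one_div, div_le_iff₀ (by positivity)] at h6
        linarith
      rw [h7]
      exact hKU hy
    have h2 : Tendsto (fun n => jZ Z (some (q n, n))) atTop (𝓝 (jZ Z none)) := by
      have h3 : Tendsto (fun n => some (q n, n)) atTop
          (@nhds _ (induced (jZ Z') inferInstance) none) := by
        rw [nhds_induced, tendsto_comap_iff]
        exact h1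
      rw [← h, nhds_induced, tendsto_comap_iff] at h3
      exact h3
    have h3 := ((continuous_eval_const (⟨x, hx⟩ : Z)).tendsto _).comp h2
    obtain ⟨n, hn⟩ := (h3.eventually (gt_mem_nhds (show jZ Z none ⟨x, hx⟩ < 1 from one_pos))).exists
    have h4 : max 0 (2 - ((n : ℝ) + 1) * |x - q n|) < 1 := hn
    have h5 := hq n
    rw [lt_div_iff₀ (by positivity)] at h5
    have := le_max_right 0 (2 - ((n : ℝ) + 1) * |x - q n|)
    linarith
  exact fun Z Z' h => (key Z Z' h).antisymm (key Z' Z h.symm)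

theorem exists_not_emb (X : Type) [TopologicalSpace X] [SeparableSpace X] :
    ∃ Z : Set ℝ, ∀ (Y : Type) [TopologicalSpace Y] [MetrizableSpace Y] (e : C(Z, ℝ) → C(X, Y)),
      ¬ IsEmbedding e := by
  obtain ⟨Z, hZ⟩ := count X _ jZ_inj
  refine ⟨Z, fun Y _ _ e he => hZ Y (e ∘ jZ Z) ?_⟩
  rw [← induced_compose, ← he.eq_induced]

theorem inCM0_ck (Z : Set ℝ) : InCM0 C(Z, ℝ) :=
  ⟨Z, ℝ, inferInstance, inferInstance, inferInstance, inferInstance, inferInstance, inferInstance,
    id, IsEmbedding.id⟩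

theorem inCM_ck (Z : Set ℝ) : InCM C(Z, ℝ) :=
  ⟨Z, ℝ, inferInstance, inferInstance, inferInstance, inferInstance, inferInstance,
    id, IsEmbedding.id⟩

end Pool.Agent.H55.CkM
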