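import Mathlib
import Pool.Agent.H55.CkM

/-! An Ascoli aleph-space outside the class of subspaces of `C_k(X, Y)`. -/

namespace Pool.Agent.H55.CkM

open Set Topology TopologicalSpace Filter

/-- k-networks -/
def IsKNetwork {X : Type} [TopologicalSpace X] (𝒩 : Set (Set X)) : Prop :=
  ∀ K U : Set X, IsCompact K → IsOpen U → K ⊆ U →
    ∃ 𝓕 ⊆ 𝒩, 𝓕.Finite ∧ K ⊆ ⋃₀ 𝓕 ∧ ⋃₀ 𝓕 ⊆ U

/-- aleph-spaces: regular (`T_3`) spaces with a sigma-locally finite k-network -/
def IsAleph (X : Type) [TopologicalSpace X] : Prop :=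
  T3Space X ∧ ∃ 𝒩 : ℕ → Set (Set X), (∀ n, LocallyFinite fun s : 𝒩 n => s.1) ∧
    IsKNetwork (⋃ n, 𝒩 n)

/-- Ascoli spaces: every compact subset of `C_k(X)` is evenly continuous -/
def IsAscoli (X : Type) [TopologicalSpace X] : Prop :=
  ∀ 𝒦 : Set C(X, ℝ), IsCompact 𝒦 → Continuous fun p : 𝒦 × X => p.1.1 p.2

theorem ascoli_of_k (X : Type) [TopologicalSpace X] [T2Space X] [CompactlyCoherentSpace X] :
    IsAscoli X := by
  intro 𝒦 h𝒦
  have := isCompact_iff_compactSpace.1 h𝒦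
  let Φ : X → C(𝒦, ℝ) := fun x => ⟨fun g => g.1 x,
    (continuous_eval_const x).comp continuous_subtype_val⟩
  have hΦ : Continuous Φ := by
    rw [CompactlyCoherentSpace.isCoherentWith.continuous_iff]
    intro L hL
    have := isCompact_iff_compactSpace.1 hL
    rw [continuousOn_iff_continuous_domRestrict]
    refine ContinuousMap.continuous_of_continuous_uncurry _ ?_
    have h1 : Continuous fun p : L × 𝒦 => (p.2.1.restrict L, p.1) :=
      ((ContinuousMap.continuous_restrict L).comp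
        (continuous_subtype_val.comp continuous_snd)).prodMk continuous_fst
    exact continuous_eval.comp h1
  exact (ContinuousMap.continuous_uncurry_of_continuous ⟨Φ, hΦ⟩).comp continuous_swap

/-- The space. -/
@[ext] structure S : Type where
  fst : Set ℝ
  snd : Option ℚ

def Near (U : Set S) (Z : Set ℝ) (z : ℝ) : Prop :=
  ∃ δ > 0, ∀ r : ℚ, (r : ℝ) ≠ z → |r - z| < δ → (⟨Z, some r⟩ : S) ∈ U

instance : TopologicalSpace S where
  IsOpen U := ∀ Z : Set ℝ, (⟨Z, none⟩ : S) ∈ U → ∀ z ∈ Z, Near U Z z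
  isOpen_univ := fun _ _ _ _ => ⟨1, one_pos, fun _ _ _ => trivial⟩
  isOpen_inter := fun s t hs ht Z h z hz => by
    obtain ⟨a, ha, h1⟩ := hs Z h.1 z hz
    obtain ⟨b, hb, h2⟩ := ht Z h.2 z hz
    exact ⟨min a b, lt_min ha hb, fun r h3 h4 => ⟨h1 r h3 (h4.trans_le (min_le_left _ _)),
      h2 r h3 (h4.trans_le (min_le_right _ _))⟩⟩
  isOpen_sUnion := fun _ hS Z ⟨t, ht, h⟩ z hz => by
    obtain ⟨a, ha, h1⟩ := hS t ht Z h z hz
    exact ⟨a, ha, fun r h3 h4 => ⟨t, ht, h1 r h3 h4⟩⟩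

theorem open_def {U : Set S} :
    IsOpen U ↔ ∀ Z : Set ℝ, (⟨Z, none⟩ : S) ∈ U → ∀ z ∈ Z, Near U Z z := Iff.rfl

theorem fib_open (P : Set ℝ → Prop) : IsOpen {p : S | P p.1} :=
  fun _ h _ _ => ⟨1, one_pos, fun _ _ _ => h⟩

theorem single_open (Z : Set ℝ) (r : ℚ) : IsOpen ({⟨Z, some r⟩} : Set S) :=
  fun _ h => by simp at h

instance : T1Space S := ⟨fun p => by
  rw [← isOpen_compl_iff, open_def]
  intro Z _ z _
  obtain ⟨Z', _ | r⟩ := p
  · exact ⟨1, one_pos, fun r _ _ h => by simp at h⟩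
  · by_cases h : (r : ℝ) = z
    · refine ⟨1, one_pos, fun t h1 _ h2 => h1 ?_⟩
      have : t = r := Option.some_injective _ (congrArg S.snd h2)
      rw [this, h]
    · refine ⟨|r - z|, abs_pos.2 (sub_ne_zero.2 h), fun t _ h1 h2 => ?_⟩
      have : t = r := Option.some_injective _ (congrArg S.snd h2)
      rw [this] at h1
      exact lt_irrefl _ h1⟩

instance : T3Space S := by
  have : RegularSpace S := by
    refine RegularSpace.of_exists_mem_nhds_isClosed_subset fun p U hU => ?_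
    obtain ⟨V, hVU, hV, hp⟩ := mem_nhds_iff.1 hU
    obtain ⟨Z, _ | r⟩ := p
    · refine ⟨V ∩ {p : S | p.1 = Z}, (hV.inter (fib_open (· = Z))).mem_nhds ⟨hp, rfl⟩, ?_,
        inter_subset_left.trans hVU⟩
      rw [← isOpen_compl_iff, open_def]
      intro Z' h z _
      have : Z' ≠ Z := fun e => h (by rw [e]; exact ⟨hp, rfl⟩)
      exact ⟨1, one_pos, fun r _ _ h1 => this h1.2⟩
    · exact ⟨{⟨Z, some r⟩}, (single_open Z r).mem_nhds rfl, isClosed_singleton,
        singleton_subset_iff.2 (hVU hp)⟩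
  infer_instance

theorem tendsto_none {Z : Set ℝ} {z : ℝ} (hz : z ∈ Z) {r : ℕ → ℚ} (h1 : ∀ n, (r n : ℝ) ≠ z)
    (h2 : ∀ n, |r n - z| < 1 / ((n : ℝ) + 1)) :
    Tendsto (fun n => (⟨Z, some (r n)⟩ : S)) atTop (𝓝 (⟨Z, none⟩ : S)) := by
  rw [tendsto_nhds]
  intro U hU hZ
  obtain ⟨δ, hδ, h⟩ := hU Z hZ z hz
  obtain ⟨N, hN⟩ := exists_nat_one_div_lt hδ
  filter_upwards [eventually_ge_atTop N] with n hn
  exact h _ (h1 n) ((h2 n).trans (lt_of_le_of_lt (Nat.one_div_le_one_div hn) hN))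

theorem seq_of_not_near {U : Set S} {Z : Set ℝ} {z : ℝ} (h : ¬ Near U Z z) :
    ∃ r : ℕ → ℚ, (∀ n, (r n : ℝ) ≠ z) ∧ (∀ n, |r n - z| < 1 / ((n : ℝ) + 1)) ∧
      ∀ n, (⟨Z, some (r n)⟩ : S) ∉ U := by
  unfold Near at h
  push Not at h
  choose r h1 h2 h3 using fun n : ℕ => h (1 / ((n : ℝ) + 1)) (by positivity)
  exact ⟨r, h1, h2, h3⟩

instance : SequentialSpace S := ⟨fun A hA => by
  rw [← isOpen_compl_iff, open_def]
  intro Z h z hz
  by_contra hn
  obtain ⟨r, h1, h2, h3⟩ := seq_of_not_near hn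
  exact h (hA (fun n => not_not.1 (h3 n)) (tendsto_none hz h1 h2))⟩

/-- network sets -/
def net (c : Option ℚ ⊕ ℚ × ℚ × ℚ) : Set (Option ℚ) :=
  match c with
  | Sum.inl d => {d}
  | Sum.inr (a, b, s) => {d | ∃ r : ℚ, d = some r ∧ a < r ∧ r < b ∧ r ≠ s}

def NN (c : Option ℚ ⊕ ℚ × ℚ × ℚ) (Z : Set ℝ) : Set S := {p | p.1 = Z ∧ p.2 ∈ net c}

theorem aleph : IsAleph S := by
  classical
  obtain ⟨e, he⟩ := exists_surjective_nat (Option ℚ ⊕ ℚ × ℚ × ℚ)
  refine ⟨inferInstance, fun n => range (NN (e n)), fun n p => ?_, ?_⟩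
  · refine ⟨{q : S | q.1 = p.1}, (fib_open (· = p.1)).mem_nhds rfl, Set.Subsingleton.finite ?_⟩
    rintro ⟨_, Z, rfl⟩ ⟨q, h1, h2⟩ ⟨_, Z', rfl⟩ ⟨q', h3, h4⟩
    have : Z = Z' := by rw [← h1.1, ← h3.1, h2, h4]
    subst this
    rfl
  intro K U hK hU hKU
  obtain ⟨I, hI⟩ := hK.elim_finite_subcover (fun Z : Set ℝ => {p : S | p.1 = Z})
    (fun Z => fib_open (· = Z)) fun p _ => mem_iUnion.2 ⟨p.1, rfl⟩
  have key : ∀ Z, ∃ N : ℕ, ∀ p ∈ K, p.1 = Z → ∃ n < N, p ∈ NN (e n) Z ∧ NN (e n) Z ⊆ U := by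
    intro Z
    by_contra hc
    push Not at hc
    choose t htK htZ ht using hc
    have hfin : ∀ c, NN c Z ⊆ U → {n | t n ∈ NN c Z}.Finite := by
      intro c hc
      obtain ⟨m, rfl⟩ := he c
      refine (finite_le_nat m).subset fun n hn => ?_
      by_contra h
      exact ht n m (not_le.1 h) hn hc
    have hfib : ∀ p ∈ K, p.1 = Z → {n | t n = p}.Finite := by
      intro p hp hpZ
      refine (hfin (Sum.inl p.2) ?_).subset fun n hn => ?_
      · rintro q ⟨h1, h2⟩
        have : q = p := S.ext (h1.trans hpZ.symm) h2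
        rw [this]; exact hKU hp
      · have : t n = p := hn
        rw [mem_ofPred_eq, this]; exact ⟨hpZ, rfl⟩
    have hloc : ∀ p ∈ K, ∃ V ∈ 𝓝 p, {n | t n ∈ V}.Finite := by
      intro p hp
      by_cases hpZ : p.1 = Z
      · obtain ⟨Z', _ | r⟩ := p
        · obtain rfl : Z' = Z := hpZ
          refine ⟨(range t \ {⟨Z', none⟩})ᶜ, IsOpen.mem_nhds ?_ (by simp), ?_⟩
          · rw [open_def]
            intro Z'' _ z hz
            by_cases hZ : Z'' = Z'
            · subst hZ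
              obtain ⟨δ, hδ, hn⟩ := hU Z'' (hKU hp) z hz
              obtain ⟨a, ha1, ha2⟩ := exists_rat_btwn (show z - δ < z by linarith)
              obtain ⟨b, hb1, hb2⟩ := exists_rat_btwn (show z < z + δ by linarith)
              obtain ⟨s, hs⟩ : ∃ s : ℚ, ∀ r : ℚ, (r : ℝ) = z → r = s := by
                by_cases h : ∃ s : ℚ, (s : ℝ) = z
                · obtain ⟨s, hs⟩ := h
                  exact ⟨s, fun r hr => by exact_mod_cast hr.trans hs.symm⟩
                · exact ⟨0, fun r hr => absurd ⟨r, hr⟩ h⟩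
              have h1 : NN (Sum.inr (a, b, s)) Z'' ⊆ U := by
                rintro ⟨Z3, d⟩ ⟨h1, r, h2, h3, h4, h5⟩
                obtain rfl : Z3 = Z'' := h1
                obtain rfl : d = some r := h2
                have h3' : (a : ℝ) < r := by exact_mod_cast h3
                have h4' : (r : ℝ) < b := by exact_mod_cast h4
                exact hn r (fun h => h5 (hs r h)) (abs_lt.2 ⟨by linarith, by linarith⟩)
              let T : Set ℝ := {x | ∃ r : ℚ, x = r ∧ (r = s ∨ ∃ n, t n ∈ NN (Sum.inr (a, b, s)) Z'' ∧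
                (t n).2 = some r)} \ {z}
              have hT : T.Finite := by
                refine (((((hfin _ h1).image fun n => (t n).2).preimage
                  (Option.some_injective ℚ).injOn).insert s).image (Rat.cast : ℚ → ℝ)).subset ?_
                rintro _ ⟨⟨r, rfl, h | ⟨n, h2, h3⟩⟩, _⟩
                · exact ⟨r, Or.inl h, rfl⟩
                · exact ⟨r, Or.inr ⟨n, h2, h3⟩, rfl⟩
              have h2 : Tᶜ ∩ Ioo (a : ℝ) b ∈ 𝓝 z :=
                inter_mem (hT.isClosed.isOpen_compl.mem_nhds fun h => h.2 rfl) (Ioo_mem_nhds ha2 hb1)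
              obtain ⟨ε, hε, hb⟩ := Metric.mem_nhds_iff.1 h2
              refine ⟨ε, hε, fun r hr1 hr2 ⟨⟨n, hn'⟩, _⟩ => ?_⟩
              have h3 := hb (show dist (r : ℝ) z < ε from hr2)
              refine h3.1 ⟨⟨r, rfl, ?_⟩, hr1⟩
              by_cases hrs : r = s
              · exact Or.inl hrs
              · refine Or.inr ⟨n, ?_, by rw [hn']⟩
                rw [hn']
                exact ⟨rfl, r, rfl, by exact_mod_cast h3.2.1, by exact_mod_cast h3.2.2, hrs⟩
            · refine ⟨1, one_pos, fun r _ _ ⟨⟨n, hn⟩, _⟩ => hZ ?_⟩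
              rw [← htZ n, hn]
          · refine (hfib _ hp rfl).subset fun n hn => ?_
            by_contra h
            exact hn ⟨⟨n, rfl⟩, h⟩
        · exact ⟨_, (single_open Z' r).mem_nhds rfl, hfib _ hp hpZ⟩
      · refine ⟨{q : S | q.1 ≠ Z}, (fib_open (· ≠ Z)).mem_nhds hpZ, ?_⟩
        convert finite_empty
        ext n
        simp [htZ n]
    choose! V hV hVf using hloc
    obtain ⟨J, hJK, hJ⟩ := hK.elim_nhds_subcover V hV
    refine infinite_univ ((J.finite_toSet.biUnion fun p hp => hVf p (hJK p hp)).subset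
      fun n _ => ?_)
    simpa using hJ (htK n)
  choose N hN using key
  refine ⟨{s | ∃ Z ∈ I, ∃ n < N Z, s = NN (e n) Z ∧ s ⊆ U}, ?_, ?_, ?_, ?_⟩
  · rintro _ ⟨Z, _, n, _, rfl, _⟩
    exact mem_iUnion.2 ⟨n, Z, rfl⟩
  · refine (I.finite_toSet.biUnion fun Z _ => (finite_lt_nat (N Z)).image fun n => NN (e n) Z).subset ?_
    rintro _ ⟨Z, hZ, n, hn, rfl, _⟩
    exact mem_biUnion hZ ⟨n, hn, rfl⟩
  · intro p hp
    obtain ⟨n, hn, h1, h2⟩ := hN p.1 p hp rfl
    have : p.1 ∈ I := by simpa using hI hp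
    exact ⟨_, ⟨p.1, this, n, hn, rfl, h2⟩, h1⟩
  · rintro p ⟨_, ⟨Z, _, n, _, rfl, h⟩, hp⟩
    exact h hp

def inc (Z : Set ℝ) (d : Option ℚ) : S := ⟨Z, d⟩

theorem inc_inj : Function.Injective fun Z : Set ℝ => induced (inc Z) inferInstance := by
  have key : ∀ Z Z' : Set ℝ, induced (inc Z) inferInstance = induced (inc Z') inferInstance →
      Z ⊆ Z' := by
    intro Z Z' h x hx
    by_contra hx'
    obtain ⟨r, h1, h2, -⟩ := seq_of_not_near (U := ∅) (Z := Z) (z := x) (by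
      rintro ⟨δ, hδ, h⟩
      obtain ⟨r, hr1, hr2⟩ := exists_rat_btwn (show x < x + δ by linarith)
      exact h r hr1.ne' (abs_lt.2 ⟨by linarith, by linarith⟩))
    have h3 : Tendsto (fun n => some (r n)) atTop (@nhds _ (induced (inc Z) inferInstance) none) := by
      rw [nhds_induced, tendsto_comap_iff]
      exact tendsto_none hx h1 h2
    rw [h, nhds_induced, tendsto_comap_iff] at h3
    have h4 : IsOpen {p : S | p.1 = Z' → ∀ n, p.2 ≠ some (r n)} := by
      rw [open_def]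
      intro Z'' _ z hz
      by_cases hZ : Z'' = Z'
      · subst hZ
        have hzx : 0 < |z - x| := abs_pos.2 (sub_ne_zero.2 fun e => hx' (e ▸ hz))
        obtain ⟨N, hN⟩ := exists_nat_one_div_lt (half_pos hzx)
        have hT : (((fun n => (r n : ℝ)) '' {n | n < N}) \ {z}).Finite :=
          ((finite_lt_nat N).image _).subset sdiff_subset
        obtain ⟨ε, hε, hb⟩ := Metric.mem_nhds_iff.1
          (hT.isClosed.isOpen_compl.mem_nhds (x := z) fun h => h.2 rfl)
        refine ⟨min ε (|z - x| / 2), lt_min hε (half_pos hzx), fun t ht1 ht2 _ n hn => ?_⟩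
        obtain rfl : t = r n := Option.some_injective _ hn
        rcases lt_or_ge n N with h5 | h5
        · exact hb (show dist (r n : ℝ) z < ε from ht2.trans_le (min_le_left _ _))
            ⟨⟨n, h5, rfl⟩, ht1⟩
        · have h6 := (h2 n).trans (lt_of_le_of_lt (Nat.one_div_le_one_div h5) hN)
          have h7 := ht2.trans_le (min_le_right _ _)
          have h8 : |z - x| ≤ |(r n : ℝ) - z| + |r n - x| := by
            rw [abs_sub_comm (r n : ℝ) z]; exact abs_sub_le _ _ _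
          linarith
      · exact ⟨1, one_pos, fun _ _ _ h => absurd h hZ⟩
    obtain ⟨n, hn⟩ := (h3.eventually (h4.mem_nhds
      (show inc Z' none ∈ _ from fun _ n => by simp [inc]))).exists
    exact hn rfl n rfl
  exact fun Z Z' h => (key Z Z' h).antisymm (key Z' Z h.symm)

theorem not_inCM : ¬ InCM S := by
  rintro ⟨X, Y, _, _, _, _, _, e, he⟩
  obtain ⟨Z, hZ⟩ := count X _ inc_inj
  refine hZ Y (e ∘ inc Z) ?_
  rw [← induced_compose, ← he.eq_induced]

end Pool.Agent.H55.CkM
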