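import Mathlib

set_option autoImplicit false

open Finset
open scoped InnerProductSpace ComplexConjugate

namespace Pool.Agent.H55.Cotype

section fourier
variable {G : Type} [AddCommGroup G] [Fintype G] [DecidableEq G]
variable {H : Type*} [NormedAddCommGroup H] [InnerProductSpace ℝ H]

noncomputable def cc (f : G → H) (χ : AddChar G ℂ) : ℝ :=
  ∑ x, ∑ y, ⟪f x, f y⟫_ℝ * (χ (x - y)).re

omit [DecidableEq G] in
lemma re_sub (χ : AddChar G ℂ) (x y : G) :
    (χ (x - y)).re = (χ x).re * (χ y).re + (χ x).im * (χ y).im := by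
  rw [sub_eq_add_neg, AddChar.map_add_eq_mul, AddChar.map_neg_eq_conj]
  simp

omit [DecidableEq G] [Fintype G] in
lemma re_add (χ : AddChar G ℂ) (x y : G) :
    (χ (x + y)).re = (χ x).re * (χ y).re - (χ x).im * (χ y).im := by
  rw [AddChar.map_add_eq_mul]
  simp

omit [DecidableEq G] in
lemma cc_nonneg (f : G → H) (χ : AddChar G ℂ) : 0 ≤ cc f χ := by
  have e : cc f χ = ⟪∑ x, (χ x).re • f x, ∑ x, (χ x).re • f x⟫_ℝ +
      ⟪∑ x, (χ x).im • f x, ∑ x, (χ x).im • f x⟫_ℝ := by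
    simp only [sum_inner, inner_sum, real_inner_smul_left, real_inner_smul_right, cc,
      ← sum_add_distrib, re_sub]
    refine sum_congr rfl fun x _ => sum_congr rfl fun y _ => ?_
    rw [real_inner_comm]
    ring
  rw [e]
  exact add_nonneg real_inner_self_nonneg real_inner_self_nonneg

lemma sum_re (a : G) :
    ∑ χ : AddChar G ℂ, (χ a).re = if a = 0 then (Fintype.card G : ℝ) else 0 := by
  rw [← Complex.re_sum, AddChar.sum_apply_eq_ite]
  split_ifs <;> simp

lemma sum_cc (f : G → H) (g : G) :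
    ∑ χ : AddChar G ℂ, cc f χ * (χ g).re = Fintype.card G * ∑ x, ⟪f (x + g), f x⟫_ℝ := by
  have e1 : ∀ χ : AddChar G ℂ, cc f χ * (χ g).re =
      ∑ x, ∑ y, ⟪f x, f y⟫_ℝ / 2 * ((χ (x - y - g)).re + (χ (x - y + g)).re) := by
    intro χ
    unfold cc
    rw [sum_mul]
    refine sum_congr rfl fun x _ => ?_
    rw [sum_mul]
    refine sum_congr rfl fun y _ => ?_
    rw [re_sub χ (x - y) g, re_add χ (x - y) g]
    ring
  simp only [e1]
  rw [sum_comm]
  have e2 : ∀ x, ∑ χ : AddChar G ℂ, ∑ y, ⟪f x, f y⟫_ℝ / 2 * ((χ (x - y - g)).re + (χ (x - y + g)).re)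
      = Fintype.card G / 2 * (⟪f x, f (x - g)⟫_ℝ + ⟪f (x + g), f x⟫_ℝ) := by
    intro x
    rw [sum_comm]
    simp only [← mul_sum, sum_add_distrib, sum_re, mul_add, mul_ite, mul_zero]
    have a1 : ∀ y, (x - y - g = 0) ↔ (x - g = y) := fun y => by
      constructor
      · intro h; rw [← sub_eq_zero, ← h]; abel
      · intro h; rw [← h]; abel
    have a2 : ∀ y, (x - y + g = 0) ↔ (x + g = y) := fun y => by
      constructor
      · intro h; rw [← sub_eq_zero, ← h]; abel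
      · intro h; rw [← h]; abel
    simp only [a1, a2, sum_ite_eq, mem_univ, if_true]
    rw [real_inner_comm (f x) (f (x + g))]
    ring
  simp only [e2]
  rw [← mul_sum, sum_add_distrib]
  have e3 : ∑ x, ⟪f x, f (x - g)⟫_ℝ = ∑ x, ⟪f (x + g), f x⟫_ℝ := by
    rw [← Equiv.sum_comp (Equiv.addRight g)]
    simp
  rw [e3]
  ring

lemma psi_eq (f : G → H) (g : G) :
    (Fintype.card G : ℝ) * ∑ x, ‖f (x + g) - f x‖ ^ 2 =
      2 * ∑ χ : AddChar G ℂ, cc f χ * (1 - (χ g).re) := by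
  have h0 := sum_cc f 0
  have h1 := sum_cc f g
  simp only [AddChar.map_zero_eq_one, Complex.one_re, mul_one, add_zero,
    real_inner_self_eq_norm_sq] at h0
  simp only [mul_sub, mul_one, sum_sub_distrib, h0, h1, norm_sub_sq_real, sum_add_distrib,
    ← mul_sum]
  have e3 : ∑ x, ‖f (x + g)‖ ^ 2 = ∑ x, ‖f x‖ ^ 2 :=
    Equiv.sum_comp (Equiv.addRight g) fun x => ‖f x‖ ^ 2
  rw [e3]
  ring

lemma transfer {ι κ : Type} [Fintype ι] [Fintype κ] (a : ι → G) (b : κ → G) (K : ℝ)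
    (h : ∀ χ : AddChar G ℂ, ∑ i, (1 - (χ (a i)).re) ≤ K * ∑ k, (1 - (χ (b k)).re)) (f : G → H) :
    ∑ i, ∑ x, ‖f (x + a i) - f x‖ ^ 2 ≤ K * ∑ k, ∑ x, ‖f (x + b k) - f x‖ ^ 2 := by
  have hc : (0 : ℝ) < Fintype.card G := by exact_mod_cast Fintype.card_pos
  apply le_of_mul_le_mul_left _ hc
  rw [mul_left_comm, mul_sum, mul_sum]
  simp only [psi_eq]
  rw [← mul_sum, ← mul_sum, sum_comm, sum_comm (s := (univ : Finset κ)), mul_left_comm]
  apply mul_le_mul_of_nonneg_left _ (by norm_num)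
  rw [mul_sum]
  refine sum_le_sum fun χ _ => ?_
  rw [← mul_sum, ← mul_sum, mul_left_comm]
  exact mul_le_mul_of_nonneg_left (h χ) (cc_nonneg f χ)

end fourier

lemma norm_one_sub_pow {z : ℂ} (hz : ‖z‖ = 1) (L : ℕ) : ‖1 - z ^ L‖ ≤ L * ‖1 - z‖ := by
  induction L with
  | zero => simp
  | succ L ih =>
    have e : 1 - z ^ (L + 1) = (1 - z ^ L) + z ^ L * (1 - z) := by ring
    rw [e]
    refine (norm_add_le _ _).trans ?_
    rw [norm_mul, norm_pow, hz, one_pow]
    push_cast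
    linarith

lemma norm_one_sub_sq {z : ℂ} (hz : ‖z‖ = 1) : ‖1 - z‖ ^ 2 = 2 * (1 - z.re) := by
  have h := Complex.sq_norm z
  rw [hz, Complex.normSq_apply] at h
  rw [Complex.sq_norm, Complex.normSq_apply]
  simp
  linarith

lemma re_pow_le {z : ℂ} (hz : ‖z‖ = 1) (L : ℕ) : 1 - (z ^ L).re ≤ L ^ 2 * (1 - z.re) := by
  have h1 := pow_le_pow_left₀ (norm_nonneg _) (norm_one_sub_pow hz L) 2
  rw [mul_pow, norm_one_sub_sq hz, norm_one_sub_sq (by rw [norm_pow, hz, one_pow])] at h1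
  linarith

lemma re_pow_le_abs {z : ℂ} (hz : ‖z‖ = 1) {L : ℕ} (hL : Even L) :
    1 - (z ^ L).re ≤ L ^ 2 * (1 - |z.re|) := by
  rcases le_total 0 z.re with h | h
  · rw [abs_of_nonneg h]; exact re_pow_le hz L
  · have := re_pow_le (z := -z) (by simpa using hz) L
    rw [hL.neg_pow] at this
    rw [abs_of_nonpos h]
    simpa using this

lemma prod_mul_le {ι : Type} (s : Finset ι) (t : ι → ℝ) (h0 : ∀ i, 0 ≤ t i) (h1 : ∀ i, t i ≤ 1) :
    (∏ i ∈ s, (1 - t i)) * (1 + ∑ i ∈ s, t i) ≤ 1 := by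
  classical
  induction s using Finset.induction_on with
  | empty => simp
  | insert a s ha ih =>
    rw [prod_insert ha, sum_insert ha]
    have p0 : 0 ≤ ∏ i ∈ s, (1 - t i) := prod_nonneg fun i _ => sub_nonneg.2 (h1 i)
    have s0 : 0 ≤ ∑ i ∈ s, t i := sum_nonneg fun i _ => h0 i
    have : (1 - t a) * (1 + (t a + ∑ i ∈ s, t i)) ≤ 1 + ∑ i ∈ s, t i := by
      nlinarith [h0 a, h1 a, mul_nonneg (h0 a) s0]
    nlinarith

lemma scalar {L : ℕ} (hL : Even L) (L0 : 0 < L) (z : Fin (L ^ 2) → ℂ) (hz : ∀ j, ‖z j‖ = 1) :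
    ∑ j, (1 - (z j ^ L).re) ≤ 3 * L ^ 2 * (1 - ∏ j, (z j).re) := by
  have hL2 : (0 : ℝ) < (L : ℝ) ^ 2 := by positivity
  set t : Fin (L ^ 2) → ℝ := fun j => (1 - (z j ^ L).re) / L ^ 2 with ht
  have a0 : ∀ j, |(z j ^ L).re| ≤ 1 := fun j =>
    (Complex.abs_re_le_norm _).trans (by rw [norm_pow, hz, one_pow])
  have t0 : ∀ j, 0 ≤ t j := fun j => div_nonneg (by linarith [(abs_le.1 (a0 j)).2]) hL2.le
  have t1 : ∀ j, t j ≤ 1 - |(z j).re| := fun j => by
    rw [ht, div_le_iff₀ hL2, mul_comm]; exact re_pow_le_abs (hz j) hL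
  have t2 : ∀ j, t j ≤ 1 := fun j => (t1 j).trans (by linarith [abs_nonneg (z j).re])
  have p1 : ∏ j, (z j).re ≤ ∏ j, (1 - t j) := by
    refine (le_abs_self _).trans ?_
    rw [abs_prod]
    exact prod_le_prod (fun j _ => abs_nonneg _) fun j _ => by linarith [t1 j]
  have p2 := prod_mul_le univ t t0 t2
  have s0 : 0 ≤ ∑ j, t j := sum_nonneg fun j _ => t0 j
  have e : ∑ j, (1 - (z j ^ L).re) = L ^ 2 * ∑ j, t j := by
    rw [mul_sum]
    refine sum_congr rfl fun j _ => ?_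
    rw [ht]; field_simp
  have s2 : ∑ j, t j ≤ 2 := by
    have : ∑ j, (1 - (z j ^ L).re) ≤ ∑ _j : Fin (L ^ 2), (2 : ℝ) :=
      sum_le_sum fun j _ => by linarith [(abs_le.1 (a0 j)).1]
    rw [e] at this
    simp only [sum_const, card_univ, Fintype.card_fin, nsmul_eq_mul] at this
    push_cast at this
    exact le_of_mul_le_mul_left this hL2
  have p3 : ∏ j, (1 - t j) ≤ 1 := prod_le_one (fun j _ => sub_nonneg.2 (t2 j)) fun j _ => by
    linarith [t0 j]
  have : ∑ j, t j ≤ 3 * (1 - ∏ j, (1 - t j)) := by nlinarith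
  rw [e]
  nlinarith

lemma addChar_sum {G ι : Type} [AddCommGroup G] (χ : AddChar G ℂ) (s : Finset ι) (g : ι → G) :
    χ (∑ i ∈ s, g i) = ∏ i ∈ s, χ (g i) := by
  classical
  induction s using Finset.induction_on with
  | empty => simp
  | insert a s ha ih => rw [sum_insert ha, prod_insert ha, AddChar.map_add_eq_mul, ih]

/-- metric cotype inequality on the discrete torus -/
theorem cotype {H : Type*} [NormedAddCommGroup H] [InnerProductSpace ℝ H] {L M : ℕ} [NeZero M]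
    (hL : Even L) (L0 : 0 < L) (f : (Fin (L ^ 2) → ZMod M) → H) :
    ∑ j, ∑ x, ‖f (x + Pi.single j (L : ZMod M)) - f x‖ ^ 2 ≤
      3 * L ^ 2 / 2 ^ (L ^ 2) * ∑ ε : Fin (L ^ 2) → Bool,
        ∑ x, ‖f (x + fun j => if ε j then 1 else -1) - f x‖ ^ 2 := by
  refine transfer (fun j => Pi.single j (L : ZMod M))
    (fun (ε : Fin (L ^ 2) → Bool) j => if ε j then 1 else -1) _ (fun χ => ?_) f
  set z : Fin (L ^ 2) → ℂ := fun j => χ (Pi.single j 1) with hz
  have e1 : ∀ j, χ (Pi.single j (L : ZMod M)) = z j ^ L := by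
    intro j
    rw [hz, ← AddChar.map_nsmul_eq_pow]
    congr 1
    rw [← Pi.single_smul, nsmul_eq_mul, mul_one]
  have e2 : ∀ ε : Fin (L ^ 2) → Bool, χ (fun j => if ε j then 1 else -1) =
      ∏ j, (if ε j then z j else conj (z j)) := by
    intro ε
    rw [← Finset.univ_sum_single (fun j => if ε j then (1 : ZMod M) else -1), addChar_sum]
    refine prod_congr rfl fun j _ => ?_
    split_ifs
    · rfl
    · rw [Pi.single_neg, AddChar.map_neg_eq_conj]
  have e3 : ∑ ε : Fin (L ^ 2) → Bool, ∏ j, (if ε j then z j else conj (z j)) =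
      ((2 ^ (L ^ 2) * ∏ j, (z j).re : ℝ) : ℂ) := by
    rw [← Fintype.piFinset_univ, ← prod_univ_sum (fun _ => (univ : Finset Bool))
      (fun j b => if b then z j else conj (z j))]
    simp only [Fintype.univ_bool, mem_singleton, Bool.true_eq_false, not_false_eq_true, sum_insert,
      sum_singleton, if_true, Bool.false_eq_true, if_false, Complex.add_conj]
    push_cast
    rw [prod_mul_distrib]
    simp
  simp only [e1, e2, sum_sub_distrib (s := (univ : Finset (Fin (L ^ 2) → Bool)))]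
  rw [← Complex.re_sum, e3, Complex.ofReal_re]
  simp only [sum_const, card_univ, Fintype.card_fun, Fintype.card_bool, Fintype.card_fin,
    nsmul_eq_mul, mul_one]
  have := scalar hL L0 z fun j => AddChar.norm_apply _ _
  refine this.trans (le_of_eq ?_)
  push_cast
  field_simp

end Pool.Agent.H55.Cotype
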