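import Mathlib

/-! Separately continuous functions with the cross-open and cross-uniform topologies. -/

namespace Pool.Agent.H55.Cross

open Set Topology TopologicalSpace Filter

/-- `S(X × Y)`: the separately continuous real functions on `X × Y`. -/
def SepC (X Y : Type) [TopologicalSpace X] [TopologicalSpace Y] : Type :=
  {f : X × Y → ℝ // (∀ x, Continuous fun y => f (x, y)) ∧ ∀ y, Continuous fun x => f (x, y)}

/-- The cross `(X × {b}) ∪ ({a} × Y)` of `c = (a, b)`. -/
def cross {X Y : Type} (c : X × Y) : Set (X × Y) := {p | p.2 = c.2 ∨ p.1 = c.1}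

/-- The family of all sets `closure G ∩ C` with `C` a cross and `G` open in `C`. -/
def Cro (X Y : Type) [TopologicalSpace X] [TopologicalSpace Y] : Set (Set (X × Y)) :=
  {A | ∃ c : X × Y, ∃ U : Set (X × Y), IsOpen U ∧ A = closure (U ∩ cross c) ∩ cross c}

/-- The cross-open topology. -/
@[reducible] def croTop (X Y : Type) [TopologicalSpace X] [TopologicalSpace Y] :
    TopologicalSpace (SepC X Y) :=
  generateFrom {T | ∃ A ∈ Cro X Y, ∃ W : Set ℝ, IsOpen W ∧ T = {s : SepC X Y | s.1 '' A ⊆ W}}

/-- The extended pseudometric `d_c(s, t) = sup over the cross of c of |s p - t p|`. -/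
noncomputable def dcr {X Y : Type} [TopologicalSpace X] [TopologicalSpace Y] (c : X × Y)
    (s t : SepC X Y) : ENNReal :=
  ⨆ p ∈ cross c, ENNReal.ofReal |s.1 p - t.1 p|

/-- The cross-uniform topology, generated by the balls of the pseudometrics `d_c`. -/
@[reducible] def cruTop (X Y : Type) [TopologicalSpace X] [TopologicalSpace Y] :
    TopologicalSpace (SepC X Y) :=
  generateFrom {T | ∃ c : X × Y, ∃ s : SepC X Y, ∃ ε : ENNReal, 0 < ε ∧
    T = {t : SepC X Y | dcr c s t < ε}}

/-- The cross-uniform topology, given by neighbourhood subbases: a set is open when it belongs, for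
each of its points `s`, to the filter generated by the sets
`{t | ∀ q ∈ cross p, |s q - t q| < ε}`. -/
@[reducible] def cruTop' (X Y : Type) [TopologicalSpace X] [TopologicalSpace Y] :
    TopologicalSpace (SepC X Y) :=
  TopologicalSpace.mkOfNhds fun s => Filter.generate
    {T | ∃ p : X × Y, ∃ ε : ℝ, 0 < ε ∧ T = {t : SepC X Y | ∀ q ∈ cross p, |s.1 q - t.1 q| < ε}}

variable {X Y : Type} [TopologicalSpace X] [TopologicalSpace Y]

theorem self_mem_cross (p : X × Y) : p ∈ cross p := Or.inl rfl

theorem contOn_cross [T1Space X] [T1Space Y] (s : SepC X Y) (c : X × Y) :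
    ContinuousOn s.1 (cross c) := by
  have h : cross c = {p : X × Y | p.2 = c.2} ∪ {p | p.1 = c.1} := rfl
  rw [h]
  refine ContinuousOn.union_of_isClosed ?_ ?_ ?_ ?_
  · have : ContinuousOn (fun p : X × Y => s.1 (p.1, c.2)) {p : X × Y | p.2 = c.2} :=
      ((s.2.2 c.2).comp continuous_fst).continuousOn
    refine this.congr ?_
    rintro ⟨x, y⟩ hp
    simp only [mem_setOf_eq] at hp
    simp [hp]
  · have : ContinuousOn (fun p : X × Y => s.1 (c.1, p.2)) {p : X × Y | p.1 = c.1} :=
      ((s.2.1 c.1).comp continuous_snd).continuousOn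
    refine this.congr ?_
    rintro ⟨x, y⟩ hp
    simp only [mem_setOf_eq] at hp
    simp [hp]
  · exact (isClosed_singleton (x := c.2)).preimage continuous_snd
  · exact (isClosed_singleton (x := c.1)).preimage continuous_fst

theorem ev_cro [T1Space X] [T1Space Y] (p : X × Y) :
    @Continuous _ _ (croTop X Y) _ fun s : SepC X Y => s.1 p := by
  letI := croTop X Y
  rw [continuous_def]
  intro W hW
  rw [isOpen_iff_forall_mem_open]
  intro s hs
  obtain ⟨F, hF, hFc, hFW⟩ := exists_mem_nhds_isClosed_subset (hW.mem_nhds hs)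
  obtain ⟨V, hVF, hVo, hpV⟩ := mem_nhds_iff.1 hF
  have hc := contOn_cross s p
  obtain ⟨U, hUo, hU⟩ := (_root_.continuousOn_iff'.1 hc) V hVo
  refine ⟨{t : SepC X Y | t.1 '' (closure (U ∩ cross p) ∩ cross p) ⊆ W}, ?_, ?_, ?_⟩
  · intro t ht
    refine ht ⟨p, ⟨subset_closure ?_, self_mem_cross p⟩, rfl⟩
    rw [← hU]
    exact ⟨hpV, self_mem_cross p⟩
  · exact isOpen_generateFrom_of_mem ⟨_, ⟨p, U, hUo, rfl⟩, W, hW, rfl⟩
  · rintro _ ⟨q, ⟨hq, hqc⟩, rfl⟩
    apply hFW
    have h1 : ContinuousWithinAt s.1 (U ∩ cross p) q := (hc q hqc).mono inter_subset_right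
    have h2 := h1.mem_closure_image hq
    refine hFc.closure_subset_iff.2 ?_ h2
    rintro _ ⟨r, hr, rfl⟩
    rw [← hU] at hr
    exact hVF hr.1

theorem ev_cru (p : X × Y) :
    @Continuous _ _ (cruTop X Y) _ fun s : SepC X Y => s.1 p := by
  letI := cruTop X Y
  rw [continuous_def]
  intro W hW
  rw [isOpen_iff_forall_mem_open]
  intro s hs
  obtain ⟨ε, hε, hb⟩ := Metric.isOpen_iff.1 hW _ hs
  refine ⟨{t : SepC X Y | dcr p s t < ENNReal.ofReal ε}, ?_, ?_, ?_⟩
  · intro t ht
    apply hb
    have h1 : ENNReal.ofReal |s.1 p - t.1 p| ≤ dcr p s t :=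
      le_iSup₂_of_le (f := fun q (_ : q ∈ cross p) => ENNReal.ofReal |s.1 q - t.1 q|) p
        (self_mem_cross p) le_rfl
    have h2 := lt_of_le_of_lt h1 ht
    rw [ENNReal.ofReal_lt_ofReal_iff hε] at h2
    rw [Metric.mem_ball, Real.dist_eq, abs_sub_comm]
    exact h2
  · exact isOpen_generateFrom_of_mem ⟨p, s, _, ENNReal.ofReal_pos.2 hε, rfl⟩
  · have : dcr p s s = 0 := by simp [dcr]
    show dcr p s s < _
    rw [this]
    exact ENNReal.ofReal_pos.2 hε

theorem ev_cru' (p : X × Y) :
    @Continuous _ _ (cruTop' X Y) _ fun s : SepC X Y => s.1 p := by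
  letI := cruTop' X Y
  rw [continuous_def]
  intro W hW s hs
  obtain ⟨ε, hε, hb⟩ := Metric.isOpen_iff.1 hW _ hs
  refine Filter.mem_of_superset (Filter.mem_generate_of_mem ⟨p, ε, hε, rfl⟩) ?_
  intro t ht
  apply hb
  rw [Metric.mem_ball, Real.dist_eq, abs_sub_comm]
  exact ht p (self_mem_cross p)

theorem metrizable_of_ev [SeparableSpace X] [SeparableSpace Y] (τ : TopologicalSpace (SepC X Y))
    (hev : ∀ p : X × Y, @Continuous _ _ τ _ fun s : SepC X Y => s.1 p)
    {K : Type} [TopologicalSpace K] [CompactSpace K] (e : K → SepC X Y)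
    (he : @Continuous _ _ _ τ e) (hi : Function.Injective e) : MetrizableSpace K := by
  obtain ⟨D, hDc, hD⟩ := exists_countable_dense X
  obtain ⟨E, hEc, hE⟩ := exists_countable_dense Y
  haveI := hDc.to_subtype
  haveI := hEc.to_subtype
  let φ : K → (D × E → ℝ) := fun k q => (e k).1 (q.1.1, q.2.1)
  have hφ : Continuous φ := continuous_pi fun q => (hev _).comp he
  have hφi : Function.Injective φ := by
    intro k l hkl
    apply hi
    apply Subtype.ext
    funext ⟨x, y⟩
    have h1 : ∀ d ∈ D, (e k).1 (d, y) = (e l).1 (d, y) := by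
      intro d hd
      have := Continuous.ext_on hE ((e k).2.1 d) ((e l).2.1 d)
        (fun z hz => congrFun hkl (⟨d, hd⟩, ⟨z, hz⟩))
      exact congrFun this y
    exact congrFun (Continuous.ext_on hD ((e k).2.2 y) ((e l).2.2 y) h1) x
  exact (hφ.isClosedEmbedding hφi).isEmbedding.metrizableSpace

/-- Baire-one functions: pointwise limits of sequences of continuous functions. -/
def IsBaireOne {M : Type} [TopologicalSpace M] (f : M → ℝ) : Prop :=
  ∃ g : ℕ → M → ℝ, (∀ n, Continuous (g n)) ∧ ∀ x, Tendsto (fun n => g n x) atTop (𝓝 (f x))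

/-- Rosenthal compacta: compact spaces homeomorphic to a subspace of the space of Baire-one
functions on a Polish space with the pointwise topology. -/
def IsRosenthal (K : Type) [TopologicalSpace K] : Prop :=
  CompactSpace K ∧ ∃ (M : Type) (_ : TopologicalSpace M), PolishSpace M ∧
    ∃ e : K → (M → ℝ), IsEmbedding e ∧ ∀ k, IsBaireOne (e k)

/-- The one-point compactification of the continuum as a set of real functions. -/
def A : Set (ℝ → ℝ) := {f | (∀ x, f x = 0 ∨ f x = 1) ∧ ∀ x y, x ≠ y → f x * f y = 0}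

theorem A_compact : IsCompact A := by
  have h1 : IsClosed A := by
    have : A = (⋂ x : ℝ, ({f : ℝ → ℝ | f x = 0} ∪ {f | f x = 1})) ∩
        ⋂ x : ℝ, ⋂ y : ℝ, ⋂ _ : x ≠ y, {f : ℝ → ℝ | f x * f y = 0} := by
      ext f
      simp [A]
    rw [this]
    refine IsClosed.inter (isClosed_iInter fun x => IsClosed.union ?_ ?_)
      (isClosed_iInter fun x => isClosed_iInter fun y => isClosed_iInter fun _ => ?_)
    · exact isClosed_eq (by fun_prop) continuous_const
    · exact isClosed_eq (by fun_prop) continuous_const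
    · exact isClosed_eq (by fun_prop) continuous_const
  refine (isCompact_univ_pi fun _ : ℝ => (isCompact_Icc (a := (0 : ℝ)) (b := 1))).of_isClosed_subset
    h1 ?_
  intro f hf x _
  rcases hf.1 x with h | h <;> simp [h]

theorem A_baire (f : A) : IsBaireOne f.1 := by
  classical
  by_cases h : ∃ x, f.1 x = 1
  · obtain ⟨x, hx⟩ := h
    refine ⟨fun n y => max 0 (1 - n * |y - x|), fun n => by fun_prop, fun y => ?_⟩
    by_cases hy : y = x
    · subst hy
      simp [hx]
    · have h0 : f.1 y = 0 := by
        have := f.2.2 y x hy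
        rwa [hx, mul_one] at this
      rw [h0]
      have hpos : 0 < |y - x| := abs_pos.2 (sub_ne_zero.2 hy)
      refine tendsto_const_nhds.congr' ?_
      obtain ⟨N, hN⟩ := exists_nat_gt (1 / |y - x|)
      filter_upwards [eventually_ge_atTop N] with n hn
      have : (N : ℝ) ≤ n := by exact_mod_cast hn
      rw [div_lt_iff₀ hpos] at hN
      rw [max_eq_left]
      nlinarith
  · refine ⟨fun _ _ => 0, fun _ => continuous_const, fun y => ?_⟩
    have : f.1 y = 0 := (f.2.1 y).resolve_right fun hy => h ⟨y, hy⟩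
    rw [this]
    exact tendsto_const_nhds

theorem A_rosenthal : IsRosenthal A :=
  ⟨isCompact_iff_compactSpace.1 A_compact, ℝ, inferInstance, inferInstance, Subtype.val,
    IsEmbedding.subtypeVal, A_baire⟩

theorem A_not_metrizable : ¬ MetrizableSpace A := by
  classical
  intro h
  haveI := isCompact_iff_compactSpace.1 A_compact
  letI := metrizableSpaceMetric A
  obtain ⟨D, hDc, hD⟩ := exists_countable_dense A
  have key : ∀ x : ℝ, ∃ f ∈ D, f.1 x = 1 := by
    intro x
    let g : A := ⟨fun y => if y = x then 1 else 0, fun y => by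
      by_cases hy : y = x <;> simp [hy], fun y z hyz => by
      by_cases hy : y = x
      · have : z ≠ x := fun hz => hyz (hy.trans hz.symm)
        simp [this]
      · simp [hy]⟩
    have ho : IsOpen {f : A | 0 < f.1 x} :=
      isOpen_lt continuous_const ((continuous_apply x).comp continuous_subtype_val)
    obtain ⟨f, hf, hfD⟩ := hD.inter_open_nonempty _ ho ⟨g, by simp [g]⟩
    refine ⟨f, hfD, (f.2.1 x).resolve_left ?_⟩
    exact ne_of_gt hf
  choose F hFD hF using key
  have hinj : Function.Injective F := by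
    intro x y hxy
    by_contra hne
    have := (F x).2.2 x y hne
    rw [hF x, hxy, hF y] at this
    norm_num at this
  have : (univ : Set ℝ).Countable :=
    (hDc.preimage_of_injOn hinj.injOn).mono fun x _ => hFD x
  exact Cardinal.not_countable_real this

end Pool.Agent.H55.Cross
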