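import Pool.Agent.H55.SnfDefs

namespace Pool.Agent.H55.Snf
open Set Filter Topology

/-- Every point has a countable cs-network. -/
def CsfCountable (Y : Type*) [TopologicalSpace Y] : Prop :=
  ∀ y : Y, ∃ 𝒮 : Set (Set Y), 𝒮.Countable ∧ (∀ P ∈ 𝒮, y ∈ P) ∧
    ∀ u : ℕ → Y, Tendsto u atTop (𝓝 y) → ∀ U, IsOpen U → y ∈ U →
      ∃ P ∈ 𝒮, P ⊆ U ∧ ∀ᶠ n in atTop, u n ∈ P

/-- `A_n(X)` (elements of length at most `n`, subspace of `A(X)`) is csf-countable. -/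
def LevelCsf (X : Type*) [TopologicalSpace X] (n : ℕ) : Prop :=
  @CsfCountable {g : X →₀ ℤ // len g ≤ n} (TopologicalSpace.induced Subtype.val (freeTop X))

end Pool.Agent.H55.Snf
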