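import Pool.Agent.H55.SnfB
import Pool.Agent.H55.CsfDefs

namespace Pool.Agent.H55.Snf
open Set Filter Topology

section
variable {X : Type*} [TopologicalSpace X]

def DF (X : Type*) [TopologicalSpace X] : Prop :=
  ∀ x : ℕ → X, ¬ HasConv x → ∃ φ : ℕ → ℕ, StrictMono φ ∧ ∃ V : ℕ → Set X,
    (∀ j, IsOpen (V j) ∧ x (φ j) ∈ V j) ∧ LocallyFinite V

lemma normal_of_closed {M : Type*} [TopologicalSpace M] [NormalSpace M] {f : M → X}
    (hf : Continuous f) (hc : IsClosedMap f) (hs : Function.Surjective f) : NormalSpace X := by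
  refine ⟨fun A B hA hB hAB => ?_⟩
  obtain ⟨U, V, hU, hV, h1, h2, h3⟩ :=
    NormalSpace.normal _ _ (hA.preimage hf) (hB.preimage hf) (hAB.preimage f)
  refine ⟨(f '' Uᶜ)ᶜ, (f '' Vᶜ)ᶜ, (hc _ hU.isClosed_compl).isOpen_compl,
    (hc _ hV.isClosed_compl).isOpen_compl, ?_, ?_, ?_⟩
  · rintro _ ha ⟨m, hm, rfl⟩; exact hm (h1 ha)
  · rintro _ ha ⟨m, hm, rfl⟩; exact hm (h2 ha)
  · rw [Set.disjoint_left]
    intro y hy1 hy2
    obtain ⟨m, rfl⟩ := hs y
    have a1 : m ∈ U := by by_contra h; exact hy1 ⟨m, h, rfl⟩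
    have a2 : m ∈ V := by by_contra h; exact hy2 ⟨m, h, rfl⟩
    exact Set.disjoint_left.1 h3 a1 a2

lemma df_lasnev [T1Space X] {M : Type*} [TopologicalSpace M] [TopologicalSpace.MetrizableSpace M]
    {f : M → X} (hf : Continuous f) (hc : IsClosedMap f) (hs : Function.Surjective f) : DF X := by
  classical
  haveI := normal_of_closed hf hc hs
  intro x hx
  have hfin : ∀ p, {j | x j = p}.Finite := by
    intro p
    by_contra h
    obtain ⟨ψ, hψ, h'⟩ := extraction_of_frequently_atTop (Nat.frequently_atTop_iff_infinite.2 h)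
    exact hx ⟨ψ, p, hψ, tendsto_const_nhds.congr fun j => (h' j).symm⟩
  have hcl : ∀ T ⊆ range x, IsClosed T := by
    intro T hT
    rw [← image_preimage_eq T hs]
    refine hc _ (IsSeqClosed.isClosed fun m q hm hq => ?_)
    by_contra hqT
    choose j hj using fun k => hT (hm k)
    have ht : Tendsto (fun k => x (j k)) atTop (𝓝 (f q)) :=
      ((hf.tendsto q).comp hq).congr fun k => (hj k).symm
    have hj' : Tendsto j atTop atTop := by
      refine tendsto_atTop.2 fun N => ?_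
      have hF : ((x '' Iic N) ∩ T).Finite := ((finite_Iic N).image x).inter_of_left _
      filter_upwards [ht.eventually (hF.isClosed.isOpen_compl.mem_nhds fun h => hqT h.2)] with k hk
      by_contra hkN
      exact hk ⟨⟨j k, (not_le.1 hkN).le, rfl⟩, by rw [hj k]; exact hm k⟩
    obtain ⟨θ, hθ, hθ'⟩ := strictMono_subseq_of_tendsto_atTop hj'
    exact hx ⟨j ∘ θ, f q, hθ', ht.comp hθ.tendsto_atTop⟩
  let g0 : range x → ℝ := fun d => (Nat.find d.2 : ℝ)
  have hg0 : Continuous g0 := by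
    refine continuous_iff_isClosed.2 fun C _ => ?_
    rw [← preimage_image_eq (g0 ⁻¹' C) Subtype.val_injective]
    exact (hcl _ (by rintro _ ⟨d, _, rfl⟩; exact d.2)).preimage continuous_subtype_val
  obtain ⟨g, hg⟩ := ContinuousMap.exists_restrict_eq (hcl _ subset_rfl) ⟨g0, hg0⟩
  have hgx : ∀ j, g (x j) = (Nat.find (show x j ∈ range x from ⟨j, rfl⟩) : ℝ) := fun j =>
    DFunLike.congr_fun hg ⟨x j, j, rfl⟩
  refine ⟨id, strictMono_id, fun j => g ⁻¹' Ioi (g (x j) - 1),
    fun j => ⟨isOpen_Ioi.preimage g.continuous, by simp⟩, fun q => ?_⟩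
  refine ⟨g ⁻¹' Iio (g q + 1), (isOpen_Iio.preimage g.continuous).mem_nhds (by simp), ?_⟩
  obtain ⟨N, hN⟩ := exists_nat_ge (g q + 2)
  refine ((finite_Iic N).biUnion fun i _ => hfin (x i)).subset ?_
  rintro j ⟨z, hz1, hz2⟩
  have h1 : g (x j) - 1 < g z := hz1
  have h2 : g z < g q + 1 := hz2
  refine mem_biUnion (s := Iic N) (x := Nat.find (show x j ∈ range x from ⟨j, rfl⟩)) ?_ ?_
  · have : ((Nat.find (show x j ∈ range x from ⟨j, rfl⟩) : ℕ) : ℝ) ≤ N := by
      rw [← hgx]; linarith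
    exact_mod_cast this
  · exact (Nat.find_spec (show x j ∈ range x from ⟨j, rfl⟩)).symm

lemma supp_conv' [T35Space X] (hdf : DF X) (w : ℕ → X →₀ ℤ)
    (hw : ∀ f : X → ℝ, Continuous f → Tendsto (fun j => ext f (w j)) atTop (𝓝 0))
    (x : ℕ → X) (hx : ∀ j, x j ∈ (w j).support) : HasConv x := by
  by_contra hc
  obtain ⟨φ, hφ, V, hV, hl⟩ := hdf x hc
  have hN : ∀ j, ∃ N, ∀ l ≤ j, ∀ i ≥ N, ∀ y ∈ (w (φ l)).support, y ∉ V i := by
    intro j
    have hfin : (⋃ l ∈ Iic j, ((w (φ l)).support : Set X)).Finite :=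
      (finite_Iic j).biUnion fun l _ => Finset.finite_toSet _
    obtain ⟨N, hN⟩ := (hl.finite_nonempty_inter_compact hfin.isCompact).bddAbove
    refine ⟨N + 1, fun l hl i hi y hy hyV => ?_⟩
    have := hN (show i ∈ _ from ⟨y, hyV, mem_biUnion (s := Iic j) hl hy⟩)
    omega
  choose N hN using hN
  let ψ : ℕ → ℕ := fun i => Nat.rec 0 (fun _ a => max (a + 1) (N a)) i
  have hψs : ∀ i, ψ (i + 1) = max (ψ i + 1) (N (ψ i)) := fun i => rfl
  have hψ : StrictMono ψ := strictMono_nat_of_lt_succ fun i => by rw [hψs]; omega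
  have hdis : ∀ l i, l < i → ∀ y ∈ (w (φ (ψ l))).support, y ∉ V (ψ i) := by
    intro l i hli
    obtain ⟨i, rfl⟩ : ∃ k, i = k + 1 := ⟨i - 1, by omega⟩
    exact hN (ψ i) _ (hψ.monotone (by omega)) _ (by rw [hψs]; omega)
  choose f hf1 hf2 hf3 using fun i => bump (w (φ (ψ i))) (hx _) (hV (ψ i)).1 (hV (ψ i)).2
  set a : ℕ → ℕ → ℝ := fun l i => ext (f l) (w (φ (ψ i))) with ha
  have hcont : Continuous fun y => ∑ᶠ l, triC a l * f l y := by
    refine continuous_finsum (fun l => continuous_const.mul (hf1 l)) ?_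
    refine (hl.comp_injective hψ.injective).subset fun l y hy => ?_
    by_contra hyV
    exact hy (by simp [hf2 l y hyV])
  have h1 : ∀ i, ext (fun y => ∑ᶠ l, triC a l * f l y) (w (φ (ψ i))) = 1 := by
    intro i
    rw [← tri a hf3 i]
    simp only [ha, ext, Finset.mul_sum]
    rw [Finset.sum_comm]
    refine Finset.sum_congr rfl fun y hy => ?_
    rw [finsum_eq_sum_of_support_subset (s := Finset.range (i + 1)), Finset.mul_sum]
    · exact Finset.sum_congr rfl fun l _ => by ring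
    · intro l hl
      by_contra hli
      have : i < l := by simpa using hli
      exact hl (by simp [hf2 l y (hdis i l this y hy)])
  have h2 := (hw _ hcont).comp (hφ.comp hψ).tendsto_atTop
  have h3 : Tendsto (fun _ : ℕ => (1 : ℝ)) atTop (𝓝 0) := h2.congr h1
  exact one_ne_zero (tendsto_nhds_unique tendsto_const_nhds h3)

end

variable {X : Type*} [TopologicalSpace X] [TopologicalSpace (X →₀ ℤ)]
  [IsTopologicalAddGroup (X →₀ ℤ)]

lemma good' (hof : Continuous fun x : X => Finsupp.single x (1 : ℤ)) (Q : ℕ → Set (X →₀ ℤ)) (hmono : Monotone Q)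
    (h0 : 0 ∈ Q 0) (hQ : ∀ (x : ℕ → X) p, Tendsto x atTop (𝓝 p) → ∀ ε : ℤ, (ε = 1 ∨ ε = -1) →
      ∃ k, ∀ᶠ j in atTop, ε • Finsupp.single (x j) 1 - ε • Finsupp.single p 1 ∈ Q k) :
    ∀ r, ∀ w : ℕ → X →₀ ℤ, (∀ j, len (w j) ≤ r) → Hyp w →
      ∃ φ : ℕ → ℕ, StrictMono φ ∧ ∃ g, Tendsto (w ∘ φ) atTop (𝓝 g) ∧
        ∃ k, ∀ᶠ j in atTop, w (φ j) - g ∈ S (Q k) r := by
  intro r
  induction r with
  | zero =>
    intro w hw _
    have : ∀ j, w j = 0 := fun j => len_zero_iff (Nat.le_zero.1 (hw j))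
    refine ⟨id, strictMono_id, 0, ?_, 0, Eventually.of_forall fun j => by simp [this, S]⟩
    exact tendsto_const_nhds.congr fun j => (this j).symm
  | succ r ih =>
    intro w hw hH
    by_cases hc : ∃ ε : ℤ, (ε = 1 ∨ ε = -1) ∧ ∃ᶠ j in atTop, ∃ x, 0 < ε * w j x
    · obtain ⟨ε, hε, hfr⟩ := hc
      obtain ⟨ψ, hψ, h⟩ := extraction_of_frequently_atTop hfr
      choose x hx using h
      obtain ⟨θ, p, hθ, ht⟩ := hH ψ hψ x fun j => by
        rw [Finsupp.mem_support_iff]; intro h0; have := hx j; simp [h0] at this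
      have hst := fun j => len_step (w (ψ (θ j))) (x (θ j)) hε (hx _)
      obtain ⟨φ, hφ, g, hg1, k1, hg2⟩ := ih (fun j => w (ψ (θ j)) - ε • Finsupp.single (x (θ j)) 1)
        (fun j => by have := (hst j).2; have := hw (ψ (θ j)); omega)
        (fun φ hφ y hy => hH (fun j => ψ (θ (φ j))) (hψ.comp (hθ.comp hφ)) y
          fun j => (hst _).1 (hy j))
      have ht' : Tendsto (fun j => x (θ (φ j))) atTop (𝓝 p) := ht.comp hφ.tendsto_atTop
      refine ⟨fun j => ψ (θ (φ j)), hψ.comp (hθ.comp hφ), g + ε • Finsupp.single p 1, ?_, ?_⟩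
      · have h2 := ((hof.tendsto p).comp ht').zsmul ε
        refine (hg1.add h2).congr fun j => ?_
        simp
      · obtain ⟨k2, hk2⟩ := hQ _ p ht' ε hε
        refine ⟨max k1 k2, ?_⟩
        filter_upwards [hg2, hk2] with j h1 h2
        exact ⟨_, S_mono (hmono (le_max_left _ _)) _ h1, _, hmono (le_max_right _ _) h2, by abel⟩
    · push Not at hc
      have : ∀ᶠ j in atTop, w j = 0 := by
        filter_upwards [hc 1 (Or.inl rfl), hc (-1) (Or.inr rfl)] with j h1 h2
        ext x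
        have := h1 x
        have := h2 x
        simp only [Finsupp.coe_zero, Pi.zero_apply]
        omega
      refine ⟨id, strictMono_id, 0, ?_, 0, this.mono fun j hj => by simpa [hj] using S_zero h0 _⟩
      exact tendsto_const_nhds.congr' (this.mono fun j hj => hj.symm)

lemma main_csf [T35Space X] (hdf : DF X)
    (hof : Continuous fun x : X => Finsupp.single x (1 : ℤ))
    (hu : ∀ f : X → ℝ, Continuous f → Continuous (ext f)) {m : ℕ} (hm : 2 ≤ m)
    (h : CsfCountable {g : X →₀ ℤ // len g ≤ m}) (n : ℕ) :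
    CsfCountable {g : X →₀ ℤ // len g ≤ n} := by
  have e0 : ∀ f : X → ℝ, ext f 0 = 0 := fun f => by simp [ext]
  obtain ⟨𝒮, hc, h1, h2⟩ := h ⟨0, by simp [len]⟩
  intro g0
  refine ⟨(fun F => {h | h.1 - g0.1 ∈ S (insert 0 (⋃ P ∈ F, Subtype.val '' P)) (n + n)}) ''
    {F | F.Finite ∧ F ⊆ 𝒮}, (countable_setOf_finite_subset hc).image _, ?_, ?_⟩
  · rintro _ ⟨F, -, rfl⟩
    simpa using S_zero (mem_insert _ _) _
  intro u hu' U hU hgU
  obtain ⟨O, hO, rfl⟩ := isOpen_induced_iff.1 hU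
  have hW : {a | a + g0.1 ∈ O} ∈ 𝓝 (0 : X →₀ ℤ) :=
    (hO.preimage (continuous_add_const g0.1)).mem_nhds (by simpa using hgU)
  obtain ⟨V, hV, hS⟩ := S_small (n + n) _ hW
  have hop : IsOpen ((Subtype.val : {g : X →₀ ℤ // len g ≤ m} → _) ⁻¹' interior V) :=
    isOpen_interior.preimage continuous_subtype_val
  obtain ⟨e, he⟩ := (hc.mono (sep_subset 𝒮 fun P => P ⊆ Subtype.val ⁻¹' interior V)).exists_eq_range
    (by
      obtain ⟨P, hP, hP2, -⟩ := h2 _ tendsto_const_nhds _ hop (mem_interior_iff_mem_nhds.2 hV)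
      exact ⟨P, hP, hP2⟩)
  have hek : ∀ k, e k ∈ 𝒮 ∧ e k ⊆ Subtype.val ⁻¹' interior V := fun k => by
    have : e k ∈ range e := ⟨k, rfl⟩
    rw [← he] at this; exact this
  let Q : ℕ → Set (X →₀ ℤ) := fun k => insert 0 (⋃ P ∈ e '' Iic k, Subtype.val '' P)
  have hQm : Monotone Q := fun a b hab =>
    insert_subset_insert (biUnion_subset_biUnion_left (image_mono (Iic_subset_Iic.2 hab)))
  suffices H : ∃ k, ∀ᶠ j in atTop, (u j).1 - g0.1 ∈ S (Q k) (n + n) by
    obtain ⟨k, hk⟩ := H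
    refine ⟨_, ⟨e '' Iic k, ⟨(finite_Iic k).image e, by rintro _ ⟨i, -, rfl⟩; exact (hek i).1⟩, rfl⟩,
      fun a ha => ?_, hk⟩
    have hsub : Q k ⊆ V := by
      rintro b (rfl | hb)
      · exact mem_of_mem_nhds hV
      · simp only [mem_iUnion] at hb
        obtain ⟨_, ⟨i, -, rfl⟩, c, hc, rfl⟩ := hb
        exact interior_subset ((hek i).2 hc)
    have := hS (S_mono hsub _ ha)
    simpa using this
  by_contra hne
  obtain ⟨ψ, hψ, hψ'⟩ := extraction_forall_of_frequently
    (P := fun k j => (u j).1 - g0.1 ∉ S (Q k) (n + n))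
    fun k => not_eventually.1 fun hk => hne ⟨k, hk⟩
  have hw : Tendsto (fun j => (u (ψ j)).1 - g0.1) atTop (𝓝 0) := by
    have := (((continuous_subtype_val.tendsto g0).comp hu').comp hψ.tendsto_atTop).sub_const g0.1
    simpa [Function.comp_def] using this
  obtain ⟨φ, hφ, g, hg1, k, hg2⟩ := good' hof Q hQm (mem_insert _ _) (by
      intro x p hx ε hε
      have hl : ∀ j, len (ε • Finsupp.single (x j) 1 - ε • Finsupp.single p 1) ≤ m := by
        intro j
        rcases hε with rfl | rfl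
        · have := len_sub (Finsupp.single (x j) 1) (Finsupp.single p 1)
          rw [len_single, len_single] at this
          simp only [one_smul]; omega
        · have := len_sub (Finsupp.single p 1) (Finsupp.single (x j) 1)
          rw [len_single, len_single] at this
          have e : (-1 : ℤ) • Finsupp.single (x j) (1 : ℤ) - (-1 : ℤ) • Finsupp.single p 1 =
            Finsupp.single p 1 - Finsupp.single (x j) 1 := by
            rw [neg_one_zsmul, neg_one_zsmul]; abel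
          rw [e]; omega
      have ht := (((hof.tendsto p).comp hx).zsmul ε).sub_const (ε • Finsupp.single p 1)
      rw [sub_self] at ht
      obtain ⟨P, hP, hP2, hP3⟩ := h2 (fun j => ⟨_, hl j⟩) (tendsto_subtype_rng.2 ht) _ hop
        (mem_interior_iff_mem_nhds.2 hV)
      have : P ∈ range e := by rw [← he]; exact ⟨hP, hP2⟩
      obtain ⟨k, rfl⟩ := this
      refine ⟨k, ?_⟩
      filter_upwards [hP3] with j hj
      exact Or.inr (mem_biUnion (s := e '' Iic k) ⟨k, le_refl k, rfl⟩ ⟨_, hj, rfl⟩))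
    (n + n) (fun j => (u (ψ j)).1 - g0.1)
    (fun j => (len_sub _ _).trans (add_le_add (u _).2 g0.2))
    (fun φ hφ x hx => supp_conv' hdf (fun j => (u (ψ (φ j))).1 - g0.1) (fun f hf => by
      have := ((hu f hf).tendsto 0).comp (hw.comp hφ.tendsto_atTop)
      rw [e0] at this
      exact this) x hx)
  have hg : g = 0 := by
    by_contra hg
    obtain ⟨z, hz⟩ := Finsupp.support_nonempty_iff.2 hg
    obtain ⟨f, hf, -, hf3⟩ := bump g hz isOpen_univ (mem_univ z)
    have a1 := ((hu f hf).tendsto 0).comp (hw.comp hφ.tendsto_atTop)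
    have a2 := ((hu f hf).tendsto g).comp hg1
    exact hf3 ((tendsto_nhds_unique a2 a1).trans (e0 f))
  obtain ⟨j, hj, hjk⟩ := (hg2.and (eventually_ge_atTop k)).exists
  rw [hg, sub_zero] at hj
  exact hψ' (φ j) (S_mono (hQm (hjk.trans hφ.le_apply)) _ hj)

end Pool.Agent.H55.Snf

namespace Pool.Agent.H55.Snf
open Set Filter Topology

theorem levels_csf {X : Type*} [TopologicalSpace X] [T35Space X] (hdf : DF X)
    {m : ℕ} (hm : 2 ≤ m) (h : LevelCsf X m) (n : ℕ) : LevelCsf X n := by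
  letI : TopologicalSpace (X →₀ ℤ) := freeTop X
  haveI : IsTopologicalAddGroup (X →₀ ℤ) := topologicalAddGroup_sInf fun t ht => ht.1
  refine main_csf hdf (continuous_sInf_rng.2 fun t ht => ht.2) (fun f hf => ?_) hm h n
  let φ : (X →₀ ℤ) →+ ℝ := Finsupp.liftAddHom fun x => (zmultiplesHom ℝ (f x))
  have hφ : ext f = φ := by
    funext g
    simp [φ, ext, Finsupp.liftAddHom_apply, Finsupp.sum]
  rw [hφ, continuous_iff_le_induced]
  refine sInf_le ⟨topologicalAddGroup_induced φ, ?_⟩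
  rw [continuous_induced_rng]
  refine hf.congr fun x => ?_
  simp [φ]

end Pool.Agent.H55.Snf
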