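import Mathlib

namespace Pool.Agent.H55.CubicTwo

open Complex

noncomputable def w : ℂ := ⟨-1 / 2, Real.sqrt 3 / 2⟩

theorem s3 : Real.sqrt 3 * Real.sqrt 3 = 3 := Real.mul_self_sqrt (by norm_num)

theorem w_sq : w ^ 2 = -1 - w := by
  apply Complex.ext
  · simp [w, sq]; nlinarith [s3]
  · simp [w, sq]; ring

theorem w_cube : w ^ 3 = 1 := by
  have := w_sq
  linear_combination (w - 1) * this

theorem w_ne_one : w ≠ 1 := by
  intro h
  have := congrArg Complex.re h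
  simp [w] at this
  norm_num at this

theorem w_prim : IsPrimitiveRoot w 3 := by
  have : Fact (Nat.Prime 3) := ⟨by norm_num⟩
  have h := orderOf_eq_prime w_cube w_ne_one
  rw [← h]
  exact IsPrimitiveRoot.orderOf w

theorem conj_w : (starRingEnd ℂ) w = -1 - w := by
  apply Complex.ext
  · simp [w]; norm_num
  · simp [w]

theorem lin_indep {a b c d : ℤ} (h : (a : ℂ) + b * w = c + d * w) : b = d := by
  have h1 := congrArg Complex.im h
  simp [w] at h1
  exact h1

theorem adjoin_rep {z : ℂ} (hz : z ∈ Algebra.adjoin ℤ {w}) : ∃ a b : ℤ, z = a + b * w := by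
  induction hz using Algebra.adjoin_induction with
  | mem x hx => rw [Set.mem_singleton_iff] at hx; exact ⟨0, 1, by simp [hx]⟩
  | algebraMap r => exact ⟨r, 0, by simp⟩
  | add x y _ _ hx hy =>
    obtain ⟨a, b, rfl⟩ := hx
    obtain ⟨c, d, rfl⟩ := hy
    exact ⟨a + c, b + d, by push_cast; ring⟩
  | mul x y _ _ hx hy =>
    obtain ⟨a, b, rfl⟩ := hx
    obtain ⟨c, d, rfl⟩ := hy
    exact ⟨a * c - b * d, a * d + b * c - b * d, by
      push_cast; linear_combination (b * d : ℂ) * w_sq⟩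

/-- twice the Eisenstein integers -/
def twoE : AddSubgroup ℂ where
  carrier := {z | ∃ a b : ℤ, z = 2 * (a + b * w)}
  add_mem' := by
    rintro _ _ ⟨a, b, rfl⟩ ⟨c, d, rfl⟩
    exact ⟨a + c, b + d, by push_cast; ring⟩
  zero_mem' := ⟨0, 0, by simp⟩
  neg_mem' := by
    rintro _ ⟨a, b, rfl⟩
    exact ⟨-a, -b, by push_cast; ring⟩

theorem jac_parity {p : ℕ} [Fact p.Prime] (hp2 : (2 : ZMod p) ≠ 0) (χ : MulChar (ZMod p) ℂ)
    (h3 : χ ^ 3 = 1) (h2 : χ 2 = 1) :
    ∃ e f : ℤ, jacobiSum χ χ = 1 + 2 * (e + f * w) := by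
  classical
  set h : ZMod p := (2 : ZMod p)⁻¹ with hh
  have hh2 : 2 * h = 1 := mul_inv_cancel₀ hp2
  have hχh : χ h = 1 := by
    have : χ (2 * h) = 1 := by rw [hh2]; simp
    rwa [map_mul, h2, one_mul] at this
  have h1h : 1 - h = h := by linear_combination -hh2
  have hsum : jacobiSum χ χ = 1 + ∑ x ∈ Finset.univ.erase h, χ x * χ (1 - x) := by
    rw [jacobiSum, ← Finset.add_sum_erase _ _ (Finset.mem_univ h), h1h, hχh, one_mul]
  have hmem : ∑ x ∈ Finset.univ.erase h, χ x * χ (1 - x) ∈ twoE := by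
    rw [← QuotientAddGroup.eq_zero_iff]
    have : ((∑ x ∈ Finset.univ.erase h, χ x * χ (1 - x) : ℂ) : ℂ ⧸ twoE)
        = ∑ x ∈ Finset.univ.erase h, (QuotientAddGroup.mk' twoE) (χ x * χ (1 - x)) := by
      rw [← map_sum]; rfl
    rw [this]
    apply Finset.sum_involution (fun x _ => 1 - x)
    · intro x _
      rw [← map_add, QuotientAddGroup.mk'_apply, QuotientAddGroup.eq_zero_iff]
      have hm : χ x * χ (1 - x) ∈ Algebra.adjoin ℤ {w} :=
        Subalgebra.mul_mem _ (MulChar.apply_mem_algebraAdjoin_of_pow_eq_one h3 w_prim _)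
          (MulChar.apply_mem_algebraAdjoin_of_pow_eq_one h3 w_prim _)
      obtain ⟨a, b, hab⟩ := adjoin_rep hm
      refine ⟨a, b, ?_⟩
      rw [← hab, sub_sub_cancel]; ring
    · intro x hx _ hxx
      apply (Finset.mem_erase.1 hx).1
      have : 2 * (x - h) = 0 := by linear_combination -hxx - hh2
      rcases mul_eq_zero.1 this with h' | h'
      · exact absurd h' hp2
      · exact sub_eq_zero.1 h'
    · intro x hx
      simp
    · intro x hx
      rw [Finset.mem_erase] at hx ⊢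
      refine ⟨fun h' => hx.1 ?_, Finset.mem_univ _⟩
      linear_combination -h' - hh2
  obtain ⟨e, f, hef⟩ := hmem
  exact ⟨e, f, by rw [hsum, hef]⟩

/-- if 2 is a cube modulo a prime `p = 1 mod 3`, then `p = u^2 + 27 c^2`. -/
theorem rep27 {p : ℕ} [Fact p.Prime] (hp2 : (2 : ZMod p) ≠ 0) (h31 : 3 ∣ p - 1) (m : ℕ)
    (hm : (2 : ZMod p) ^ 2 ^ m = 1) : ∃ u c : ℤ, (p : ℤ) = u ^ 2 + 27 * c ^ 2 := by
  classical
  have h31' : 3 ∣ Fintype.card (ZMod p) - 1 := by rwa [ZMod.card]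
  obtain ⟨χ, hχ⟩ := MulChar.exists_mulChar_orderOf (ZMod p) h31' w_prim
  have h3 : χ ^ 3 = 1 := by rw [← hχ]; exact pow_orderOf_eq_one χ
  have hne : χ ≠ 1 := by intro h; rw [h, orderOf_one] at hχ; norm_num at hχ
  have hne2 : χ * χ ≠ 1 := by
    intro h
    have : orderOf χ ∣ 2 := orderOf_dvd_of_pow_eq_one (by rw [sq, h])
    rw [hχ] at this; norm_num at this
  have h2 : χ 2 = 1 := by
    have a1 : (χ 2) ^ 3 = 1 := by
      rw [← MulChar.pow_apply' _ (by norm_num), h3]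
      exact MulChar.one_apply (isUnit_iff_ne_zero.2 hp2)
    have a2 : (χ 2) ^ 2 ^ m = 1 := by rw [← map_pow, hm, map_one]
    have a3 := pow_gcd_eq_one.2 ⟨a1, a2⟩
    have : Nat.gcd 3 (2 ^ m) = 1 := Nat.Coprime.pow_right m (by norm_num)
    rwa [this, pow_one] at a3
  obtain ⟨e, f, hef⟩ := jac_parity hp2 χ h3 h2
  obtain ⟨z, hz, hJ⟩ := exists_jacobiSum_eq_neg_one_add (by norm_num : 2 < 3) h3 h3 h31' w_prim
  obtain ⟨c, d, rfl⟩ := adjoin_rep hz
  have hJ' : jacobiSum χ χ = ((-1 + 3 * d : ℤ) : ℂ) + ((3 * d - 3 * c : ℤ) : ℂ) * w := by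
    rw [hJ]; push_cast
    linear_combination (c + d * w - 3 * d : ℂ) * w_sq
  have hb : (3 * d - 3 * c : ℤ) = 2 * f := by
    apply lin_indep (a := -1 + 3 * d) (c := 1 + 2 * e)
    rw [← hJ', hef]; push_cast; ring
  have hchar : ringChar ℂ ≠ ringChar (ZMod p) := by
    rw [ringChar.eq_zero, ZMod.ringChar_zmod_n]
    exact (Fact.out : p.Prime).ne_zero.symm
  have hN := jacobiSum_mul_jacobiSum_inv hchar hne hne hne2
  have hconj : jacobiSum χ⁻¹ χ⁻¹ = (starRingEnd ℂ) (jacobiSum χ χ) := by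
    simp only [jacobiSum, map_sum, map_mul]
    refine Finset.sum_congr rfl fun x _ => ?_
    rw [← MulChar.star_apply', ← MulChar.star_apply']; rfl
  rw [hconj, hJ', ZMod.card] at hN
  simp only [map_add, map_mul, map_intCast, conj_w] at hN
  obtain ⟨g, hg⟩ : ∃ g : ℤ, d - c = 2 * g := ⟨f - (d - c), by omega⟩
  refine ⟨-1 + 3 * d - 3 * g, g, ?_⟩
  have hc : c = d - 2 * g := by omega
  subst hc
  have : ((p : ℤ) : ℂ) = (((-1 + 3 * d - 3 * g) ^ 2 + 27 * g ^ 2 : ℤ) : ℂ) := by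
    push_cast at hN ⊢
    linear_combination -hN - (36 * g ^ 2 : ℂ) * w_sq
  exact_mod_cast this

theorem uniq {p : ℕ} (hp : p.Prime) {u v y : ℤ} (h1 : (p : ℤ) = u ^ 2 + 3 * v ^ 2)
    (h2 : (p : ℤ) = 1 + 3 * y ^ 2) (hp3 : p ≠ 3) : v = y ∨ v = -y := by
  have hpp : Prime (p : ℤ) := Nat.prime_iff_prime_int.1 hp
  have hp0 : (0 : ℤ) < p := by exact_mod_cast hp.pos
  have key : ∀ v : ℤ, (p : ℤ) = u ^ 2 + 3 * v ^ 2 → (p : ℤ) ∣ u * y - v → v = y ∨ v = -y := by
    intro v h1 hd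
    obtain ⟨s, hs⟩ := hd
    have e : (p : ℤ) ^ 2 = (u + 3 * v * y) ^ 2 + 3 * (u * y - v) ^ 2 := by
      rw [sq (p : ℤ)]
      nth_rewrite 1 [h1]
      rw [h2]; ring
    rw [hs] at e
    have hs0 : s = 0 := by
      by_contra hne
      have : 1 ≤ s ^ 2 := by
        have := sq_pos_of_ne_zero hne
        omega
      have h5 : (p : ℤ) ^ 2 * 1 ≤ p ^ 2 * s ^ 2 := mul_le_mul_of_nonneg_left this (sq_nonneg _)
      have h6 : (0 : ℤ) < (p : ℤ) ^ 2 := by positivity
      nlinarith [sq_nonneg (u + 3 * v * y)]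
    rw [hs0, mul_zero] at hs
    have hv : v = u * y := by linarith
    have : (p : ℤ) * (u ^ 2 - 1) = 0 := by
      rw [hv] at h1
      linear_combination (u ^ 2) * h2 - h1
    have hu : u ^ 2 - 1 = 0 := (mul_eq_zero.1 this).resolve_left hp0.ne'
    have : (u - 1) * (u + 1) = 0 := by linear_combination hu
    rcases mul_eq_zero.1 this with h | h
    · left; rw [hv]; have : u = 1 := by linarith
      rw [this]; ring
    · right; rw [hv]; have : u = -1 := by linarith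
      rw [this]; ring
  have hd : (p : ℤ) ∣ 3 * ((u * y - v) * (u * y - -v)) :=
    ⟨u ^ 2 - 1, by linear_combination (-(u ^ 2)) * h2 + h1⟩
  rcases hpp.dvd_or_dvd hd with h | h
  · exfalso
    have : p ∣ 3 := by exact_mod_cast h
    exact hp3 ((Nat.prime_dvd_prime_iff_eq hp Nat.prime_three).1 this)
  · rcases hpp.dvd_or_dvd h with h | h
    · exact key v h1 h
    · rcases key (-v) (by rw [h1]; ring) h with h' | h'
      · right; linarith
      · left; linarith

/-- A prime `p = 3 y^2 + 1` with `3 ∤ y` divides no Fermat number. -/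
theorem not_dvd_fermat {y m : ℕ} (hp : (3 * y ^ 2 + 1).Prime) (hy : ¬ 3 ∣ y) :
    ¬ (3 * y ^ 2 + 1) ∣ Nat.fermatNumber m := by
  intro hd
  set p := 3 * y ^ 2 + 1 with hpdef
  have := Fact.mk hp
  have h0 : ((Nat.fermatNumber m : ℕ) : ZMod p) = 0 := (ZMod.natCast_eq_zero_iff _ _).2 hd
  rw [Nat.fermatNumber] at h0
  push_cast at h0
  have hp2 : (2 : ZMod p) ≠ 0 := by
    intro h
    rw [h, zero_pow (by positivity), zero_add] at h0
    exact one_ne_zero h0
  have hm : (2 : ZMod p) ^ 2 ^ (m + 1) = 1 := by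
    rw [pow_succ, pow_mul]
    linear_combination ((2 : ZMod p) ^ 2 ^ m - 1) * h0
  obtain ⟨u, c, huc⟩ := rep27 hp2 (by rw [hpdef]; simp) (m + 1) hm
  have h3 : p ≠ 3 := by omega
  have := uniq hp (u := u) (v := 3 * c) (y := y) (by rw [huc]; ring)
    (by rw [hpdef]; push_cast; ring) h3
  omega

end Pool.Agent.H55.CubicTwo
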