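import Mathlib

namespace Pool.Agent.H55.PowMod

/-- binary modular exponentiation with fuel -/
def pm (a m : ℕ) : ℕ → ℕ → ℕ
  | 0, _ => 1 % m
  | f + 1, e =>
    if e = 0 then 1 % m
    else if e % 2 = 0 then (pm a m f (e / 2)) ^ 2 % m
    else (pm a m f (e / 2)) ^ 2 * a % m

theorem pm_eq (a m : ℕ) : ∀ (f e : ℕ), e < 2 ^ f → pm a m f e = a ^ e % m := by
  intro f
  induction f with
  | zero => intro e he; have : e = 0 := by omega
            subst this; simp [pm]
  | succ f ih =>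
    intro e he
    have h2 : e / 2 < 2 ^ f := by rw [pow_succ] at he; omega
    simp only [pm]
    split_ifs with h0 h1
    · subst h0; simp
    · rw [ih _ h2, ← Nat.pow_mod, ← pow_mul]
      congr 2; omega
    · rw [ih _ h2, Nat.mul_mod, ← Nat.pow_mod, ← Nat.mul_mod, ← pow_mul, ← pow_succ]
      congr 2; omega

/-- Proth's theorem -/
theorem proth (k n a : ℕ) (hk0 : 0 < k) (hk : k < 2 ^ (n + 1))
    (h : a ^ (k * 2 ^ n) % (k * 2 ^ (n + 1) + 1) = k * 2 ^ (n + 1)) :
    Nat.Prime (k * 2 ^ (n + 1) + 1) := by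
  set p := k * 2 ^ (n + 1) + 1 with hp
  have hpos : 0 < 2 ^ (n + 1) := by positivity
  have hp1 : p ≠ 1 := by
    have : 0 < k * 2 ^ (n + 1) := Nat.mul_pos hk0 hpos
    omega
  by_contra hnp
  have hq := Nat.minFac_prime hp1
  set q := p.minFac with hqdef
  have hqd : q ∣ p := Nat.minFac_dvd p
  have hq2 : q ^ 2 ≤ p := Nat.minFac_sq_le_self (by omega) hnp
  have := Fact.mk hq
  have hq2' : q ≠ 2 := by
    intro h2
    rw [h2] at hqd
    have : 2 ∣ k * 2 ^ (n + 1) := Dvd.dvd.mul_left (dvd_pow_self 2 (by omega)) k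
    omega
  have hp0 : ((p : ℕ) : ZMod q) = 0 := (ZMod.natCast_eq_zero_iff _ _).2 hqd
  have hx : ((a : ZMod q) ^ k) ^ 2 ^ n = -1 := by
    have h1 : ((a ^ (k * 2 ^ n) : ℕ) : ZMod q) = ((a ^ (k * 2 ^ n) % p : ℕ) : ZMod q) := by
      rw [ZMod.natCast_eq_natCast_iff]
      exact ((Nat.mod_modEq _ p).of_dvd hqd).symm
    rw [h] at h1
    rw [← pow_mul]
    push_cast at h1 hp0
    rw [h1]
    rw [hp] at hp0
    push_cast at hp0
    linear_combination hp0
  have hne : (-1 : ZMod q) ≠ 1 := by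
    intro h1
    have h2 : ((2 : ℕ) : ZMod q) = 0 := by push_cast; linear_combination -h1
    rw [ZMod.natCast_eq_zero_iff] at h2
    exact hq2' ((Nat.prime_dvd_prime_iff_eq hq Nat.prime_two).1 h2)
  have hord : orderOf ((a : ZMod q) ^ k) = 2 ^ (n + 1) := by
    apply orderOf_eq_prime_pow
    · rw [hx]; exact hne
    · rw [pow_succ, pow_mul, hx]; simp
  have hx0 : (a : ZMod q) ^ k ≠ 0 := by
    intro h0
    rw [h0, zero_pow (by positivity)] at hx
    exact zero_ne_one (neg_eq_zero.1 hx.symm).symm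
  have hdvd := ZMod.orderOf_dvd_card_sub_one hx0
  rw [hord] at hdvd
  have hle := Nat.le_of_dvd (by have := hq.two_le; omega) hdvd
  have h3 : 2 ^ (n + 1) + 1 ≤ q := by have := hq.two_le; omega
  have h4 : (2 ^ (n + 1) + 1) ^ 2 ≤ q ^ 2 := Nat.pow_le_pow_left h3 2
  nlinarith

end Pool.Agent.H55.PowMod
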