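import Mathlib
import Pool.Agent.H55.CubicTwo
import Pool.Agent.H55.PowMod

namespace Pool.Agent.H55.FermatK

def t : ℕ := 551566994610437530130073553
def k : ℕ := 3 * t ^ 2
def P : List ℕ := [5, 7, 241, 97, 11, 31, 673, 151, 73, 1321, 433, 61681, 38737]

theorem cover : ∀ j < 360, ∃ q ∈ P, (k * 2 ^ (2 * j + 1) + 1) % q = 0 := by
  decide +kernel

theorem ord : ∀ q ∈ P, 2 ^ 720 % q = 1 % q ∧ 1 < q ∧ q ≤ k := by
  decide +kernel

theorem odd_not_prime (j : ℕ) : ¬ Nat.Prime (k * 2 ^ (2 * j + 1) + 1) := by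
  intro hp
  obtain ⟨q, hq, hd⟩ := cover (j % 360) (Nat.mod_lt _ (by norm_num))
  obtain ⟨h1, h2, h3⟩ := ord q hq
  have e : 2 * j + 1 = 720 * (j / 360) + (2 * (j % 360) + 1) := by omega
  have h4 : 2 ^ (2 * j + 1) ≡ 2 ^ (2 * (j % 360) + 1) [MOD q] := by
    rw [e, pow_add, pow_mul]
    have : (2 ^ 720) ^ (j / 360) ≡ 1 ^ (j / 360) [MOD q] := Nat.ModEq.pow _ h1
    rw [one_pow] at this
    simpa using this.mul_right (2 ^ (2 * (j % 360) + 1))
  have h5 : k * 2 ^ (2 * j + 1) + 1 ≡ k * 2 ^ (2 * (j % 360) + 1) + 1 [MOD q] :=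
    (h4.mul_left k).add_right 1
  have h6 : q ∣ k * 2 ^ (2 * j + 1) + 1 := by
    apply Nat.dvd_of_mod_eq_zero
    rw [h5, hd]
  rcases (Nat.dvd_prime hp).1 h6 with h | h
  · omega
  · have : k * 1 ≤ k * 2 ^ (2 * j + 1) := Nat.mul_le_mul_left k Nat.one_le_two_pow
    omega

theorem has_prime : Nat.Prime (k * 2 ^ (195 + 1) + 1) := by
  apply Pool.Agent.H55.PowMod.proth k 195 5 (by decide +kernel) (by decide +kernel)
  rw [← Pool.Agent.H55.PowMod.pm_eq 5 _ 400 _ (by decide +kernel)]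
  decide +kernel

theorem no_factor (m n : ℕ) (hp : Nat.Prime (k * 2 ^ n + 1)) :
    ¬ (k * 2 ^ n + 1) ∣ Nat.fermatNumber m := by
  rcases Nat.even_or_odd' n with ⟨j, rfl | rfl⟩
  · have e : k * 2 ^ (2 * j) + 1 = 3 * (t * 2 ^ j) ^ 2 + 1 := by
      rw [k]; ring
    rw [e] at hp ⊢
    apply Pool.Agent.H55.CubicTwo.not_dvd_fermat hp
    intro h
    rcases (Nat.Prime.dvd_mul Nat.prime_three).1 h with h | h
    · revert h; decide +kernel
    · have := Nat.Prime.dvd_of_dvd_pow Nat.prime_three h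
      omega
  · exact absurd hp (odd_not_prime j)

theorem k_odd : Odd k := by decide +kernel
theorem k_ge : 3 ≤ k := by decide +kernel

end Pool.Agent.H55.FermatK
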