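import Mathlib

/-! Paracompact subspaces that fill countable subproducts. -/

namespace Pool.Agent.H55.Fill

open Set Filter Topology

universe u v

variable {I : Type u} {X : I → Type v} [∀ i, TopologicalSpace (X i)]

/-- the projection of `D` to every countable subproduct is onto -/
def Fills (D : Set (∀ i, X i)) : Prop :=
  ∀ J : Set I, J.Countable → ∀ y : ∀ j : J, X j, ∃ x ∈ D, ∀ j : J, x j = y j

omit [∀ i, TopologicalSpace (X i)] in
theorem Fills.ex {D : Set (∀ i, X i)} (h : Fills D) {J : Set I} (hJ : J.Countable)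
    (y : ∀ i, X i) : ∃ x ∈ D, ∀ j ∈ J, x j = y j := by
  obtain ⟨x, hx, h'⟩ := h J hJ fun j => y j
  exact ⟨x, hx, fun j hj => h' ⟨j, hj⟩⟩

theorem fin_dep {O : Set (∀ i, X i)} (hO : IsOpen O) {x : ∀ i, X i} (hx : x ∈ O) :
    ∃ s : Finset I, ∀ y : ∀ i, X i, (∀ i ∈ s, y i = x i) → y ∈ O := by
  obtain ⟨s, u, h1, h2⟩ := isOpen_pi_iff.1 hO x hx
  exact ⟨s, fun y hy => h2 fun i hi => (hy i hi) ▸ (h1 i hi).2⟩

theorem main {D : Set (∀ i, X i)} (hD : Fills D) [ParacompactSpace D]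
    (G : Finset I → Set (∀ i, X i)) (hc : ∀ J, IsClosed (G J))
    (hdep : ∀ J x y, (∀ i ∈ J, y i = x i) → x ∈ G J → y ∈ G J)
    (hmono : ∀ J J', J ⊆ J' → G J' ⊆ G J)
    (hext : ∀ J J' x, J ⊆ J' → x ∈ G J → ∃ y ∈ G J', ∀ i ∈ J, y i = x i)
    (h0 : (G ∅).Nonempty) : ∃ x ∈ D, ∀ J, x ∈ G J := by
  classical
  by_contra hn
  push Not at hn
  obtain ⟨V, hVo, hVc, hVl, hVs⟩ := precise_refinement (fun J : Finset I => {x : D | x.1 ∉ G J})
    (fun J => (hc J).isOpen_compl.preimage continuous_subtype_val)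
    (eq_univ_of_forall fun x => mem_iUnion.2 (hn x.1 x.2))
  have h1 : ∀ x : D, ∃ (a s : Finset I), x ∈ V a ∧ a ⊆ s ∧
      ∀ y : D, (∀ i ∈ s, y.1 i = x.1 i) → y ∈ V a := fun x => by
    obtain ⟨a, ha⟩ := mem_iUnion.1 (hVc ▸ mem_univ x : x ∈ ⋃ a, V a)
    obtain ⟨O, hO, e⟩ := isOpen_induced_iff.1 (hVo a)
    obtain ⟨s, hs⟩ := fin_dep hO (show x.1 ∈ O by rw [← e] at ha; exact ha)
    refine ⟨a, a ∪ s, ha, Finset.subset_union_left, fun y hy => ?_⟩
    rw [← e]
    exact hs y.1 fun i hi => hy i (Finset.mem_union_right _ hi)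
  choose a s ha has hs using h1
  let T := {p : Finset I × D // p.2.1 ∈ G p.1}
  have h2 : ∀ p : T, ∃ q : T, q.1.1 = p.1.1 ∪ s p.1.2 ∧ ∀ i ∈ p.1.1, q.1.2.1 i = p.1.2.1 i := by
    rintro ⟨⟨J, x⟩, hx⟩
    obtain ⟨y, hy, hy'⟩ := hext J (J ∪ s x) x.1 Finset.subset_union_left hx
    obtain ⟨z, hz, hz'⟩ := hD.ex (J ∪ s x).countable_toSet y
    exact ⟨⟨(J ∪ s x, ⟨z, hz⟩), hdep _ y z hz' hy⟩, rfl, fun i hi =>
      (hz' i (Finset.mem_union_left _ hi)).trans (hy' i hi)⟩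
  choose nx h3 h4 using h2
  obtain ⟨y0, hy0⟩ := h0
  obtain ⟨x0, hx0, -⟩ := hD.ex countable_empty y0
  let p : ℕ → T := fun n => nx^[n] ⟨(∅, ⟨x0, hx0⟩), hdep _ y0 x0 (by simp) hy0⟩
  have hp : ∀ n, p (n + 1) = nx (p n) := fun n => Function.iterate_succ_apply' _ _ _
  have hJ : Monotone fun n => (p n).1.1 := monotone_nat_of_le_succ fun n => by
    rw [hp, h3]
    exact Finset.subset_union_left
  have hag : ∀ n m, n ≤ m → ∀ i ∈ (p n).1.1, (p m).1.2.1 i = (p n).1.2.1 i := by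
    intro n m hnm
    induction m, hnm using Nat.le_induction with
    | base => exact fun _ _ => rfl
    | succ m hm ih =>
      intro i hi
      rw [hp, h4 _ i (hJ hm hi), ih i hi]
  let y : ∀ i, X i := fun i =>
    if h : ∃ n, i ∈ (p n).1.1 then (p (Nat.find h)).1.2.1 i else y0 i
  have hy : ∀ n, ∀ i ∈ (p n).1.1, y i = (p n).1.2.1 i := fun n i hi => by
    have h : ∃ n, i ∈ (p n).1.1 := ⟨n, hi⟩
    simp only [y, dif_pos h]
    exact (hag _ _ (Nat.find_min' h hi) i (Nat.find_spec h)).symm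
  obtain ⟨x, hx, hxy⟩ := hD.ex (J := ⋃ n, ((p n).1.1 : Set I))
    (countable_iUnion fun n => Finset.countable_toSet _) y
  obtain ⟨N, hN, hfin⟩ := hVl ⟨x, hx⟩
  obtain ⟨N', hN', hN'o, hxN⟩ := mem_nhds_iff.1 hN
  obtain ⟨O, hO, e⟩ := isOpen_induced_iff.1 hN'o
  obtain ⟨F, hF⟩ := fin_dep hO (show x ∈ O by rw [← e] at hxN; exact hxN)
  have hev : ∀ᶠ n in atTop, ∀ i ∈ F, (∃ m, i ∈ (p m).1.1) → i ∈ (p n).1.1 := by
    rw [eventually_all_finset]
    intro i _
    by_cases h : ∃ m, i ∈ (p m).1.1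
    · obtain ⟨m, hm⟩ := h
      exact (eventually_ge_atTop m).mono fun n hn _ => hJ hn hm
    · exact Eventually.of_forall fun n h' => absurd h' h
  obtain ⟨n0, hn0⟩ := eventually_atTop.1 hev
  have hsub : ∀ m, s (p m).1.2 ⊆ (p (m + 1)).1.1 := fun m => by
    rw [hp, h3]
    exact Finset.subset_union_right
  have hmeet : ∀ m, (V (a (p (n0 + m)).1.2) ∩ N).Nonempty := fun m => by
    let w : ∀ i, X i := fun i => if i ∈ F then x i else (p (n0 + m)).1.2.1 i
    obtain ⟨z, hz, hz'⟩ := hD.ex (F ∪ s (p (n0 + m)).1.2).countable_toSet w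
    refine ⟨⟨z, hz⟩, hs _ _ fun i hi => ?_, hN' ?_⟩
    · change z i = _
      rw [hz' i (Finset.mem_union_right _ hi)]
      by_cases hiF : i ∈ F
      · simp only [w, if_pos hiF]
        have h5 := hn0 (n0 + m) (Nat.le_add_right _ _) i hiF ⟨_, hsub _ hi⟩
        rw [hxy i (mem_iUnion.2 ⟨_, h5⟩), hy _ i h5]
      · simp only [w, if_neg hiF]
    · rw [← e]
      refine hF z fun i hi => ?_
      rw [hz' i (Finset.mem_union_left _ hi)]
      simp only [w, if_pos hi]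
  have hne : ∀ m m', m < m' → a (p m).1.2 ≠ a (p m').1.2 := fun m m' h e' => by
    have h5 := hVs _ (ha (p m').1.2)
    rw [← e'] at h5
    exact h5 (hmono _ _ ((has _).trans ((hsub m).trans (hJ h))) (p m').2)
  refine infinite_of_injective_forall_mem (f := fun m => a (p (n0 + m)).1.2) ?_ hmeet hfin
  intro m m' e'
  by_contra hmm
  rcases lt_or_gt_of_ne hmm with h | h
  · exact hne _ _ (Nat.add_lt_add_left h n0) e'
  · exact hne _ _ (Nat.add_lt_add_left h n0) e'.symm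

/-- a paracompact filling subspace meets every product of non-empty closed sets -/
theorem meets {D : Set (∀ i, X i)} (hD : Fills D) [ParacompactSpace D] (C : ∀ i, Set (X i))
    (hc : ∀ i, IsClosed (C i)) (hne : ∀ i, (C i).Nonempty) : ∃ x ∈ D, ∀ i, x i ∈ C i := by
  classical
  choose z hz using hne
  obtain ⟨x, hx, h⟩ := main hD (fun J => {x | ∀ i ∈ J, x i ∈ C i})
    (fun J => by
      simp only [setOf_forall]
      exact isClosed_iInter fun i => isClosed_iInter fun _ => (hc i).preimage (continuous_apply i))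
    (fun J x y h hx i hi => h i hi ▸ hx i hi) (fun J J' h x hx i hi => hx i (h hi))
    (fun J J' x _ hx => ⟨fun i => if i ∈ J then x i else z i, fun i _ => by
      by_cases hi : i ∈ J
      · simpa [hi] using hx i hi
      · simpa [hi] using hz i, fun i hi => if_pos hi⟩) ⟨z, by simp⟩
  exact ⟨x, hx, fun i => h {i} i (by simp)⟩

end Pool.Agent.H55.Fill
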