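import Mathlib

/-! Free topological vector spaces: definitions and obstructions. -/

namespace Pool.Agent.H55.FreeV

open Set Topology TopologicalSpace Filter

/-- `(V, i)` is the free (Hausdorff) real topological vector space over `X`. -/
structure IsFreeTVS {X V : Type} [TopologicalSpace X] [AddCommGroup V] [Module ℝ V]
    [TopologicalSpace V] (i : X → V) : Prop where
  cont : Continuous i
  univ : ∀ (E : Type) [AddCommGroup E] [Module ℝ E] [TopologicalSpace E]
    [IsTopologicalAddGroup E] [ContinuousSMul ℝ E] [T2Space E] (f : X → E), Continuous f →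
      ∃! L : V →L[ℝ] E, f = L ∘ i

/-- The level `sp_n(X)`. -/
def sp {X V : Type} [AddCommGroup V] [Module ℝ V] (i : X → V) (n : ℕ) : Set V :=
  {v | ∃ (c : Fin n → ℝ) (x : Fin n → X), (∀ j, c j ∈ Icc (-(n : ℝ)) n) ∧
    v = ∑ j, c j • i (x j)}

/-- Countable tightness. -/
def CountablyTight (Z : Type) [TopologicalSpace Z] : Prop :=
  ∀ A : Set Z, closure A = ⋃ B ∈ {B : Set Z | B ⊆ A ∧ B.Countable}, closure B

theorem exists_rho (ι : Type) [Uncountable ι] :
    ∃ ρ : ι → ι → ℕ, ∀ n : ι → ℕ, ∃ α β, n α ≤ ρ α β ∧ n β ≤ ρ α β := by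
  classical
  obtain ⟨_, _⟩ := exists_wellFoundedLT ι
  have he : ∀ β : ι, ∃ e : ι → ℕ, (Iio β).Countable → InjOn e (Iio β) := by
    intro β
    by_cases h : (Iio β).Countable
    · obtain ⟨e, he⟩ := Set.countable_iff_exists_injOn.1 h
      exact ⟨e, fun _ => he⟩
    · exact ⟨fun _ => 0, fun h' => absurd h' h⟩
  choose e he using he
  have hW : ¬ {β : ι | (Iio β).Countable}.Countable := by
    intro hc
    have hne : ({β : ι | (Iio β).Countable}ᶜ).Nonempty := by
      by_contra hh
      rw [not_nonempty_iff_eq_empty, compl_empty_iff] at hh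
      rw [hh] at hc
      exact not_countable_univ hc
    obtain ⟨β, hβ, hmin⟩ := (wellFounded_lt (α := ι)).has_min _ hne
    refine hβ (hc.mono fun γ hγ => ?_)
    by_contra hh
    exact hmin γ hh hγ
  refine ⟨fun α β => e β α, fun n => ?_⟩
  obtain ⟨N, hN⟩ : ∃ N, ¬ ({β : ι | (Iio β).Countable} ∩ {β | n β = N}).Countable := by
    by_contra hh
    push Not at hh
    refine hW ((countable_iUnion hh).mono fun β hβ => mem_iUnion.2 ⟨n β, ?_⟩)
    exact ⟨hβ, rfl⟩
  set S := {β : ι | (Iio β).Countable} ∩ {β | n β = N} with hS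
  have hSi : S.Infinite := fun h => hN h.countable
  obtain ⟨T, hTS, hTi, hTc⟩ : ∃ T ⊆ S, T.Infinite ∧ T.Countable := by
    let φ := hSi.natEmbedding S
    refine ⟨range fun k => (φ k).1, ?_, ?_, countable_range _⟩
    · rintro _ ⟨k, rfl⟩
      exact (φ k).2
    · exact infinite_range_of_injective (Subtype.val_injective.comp φ.injective)
  have hU : (⋃ t ∈ T, Iic t).Countable := by
    refine hTc.biUnion fun t ht => ?_
    rw [← Iio_insert]
    exact (hTS ht).1.insert t
  obtain ⟨β, hβS, hβ⟩ : ∃ β ∈ S, β ∉ ⋃ t ∈ T, Iic t := by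
    by_contra hh
    push Not at hh
    exact hN (hU.mono hh)
  have hlt : T ⊆ Iio β := fun t ht => by
    by_contra hh
    exact hβ (mem_biUnion ht (not_lt.1 hh))
  have hinj : InjOn (e β) T := (he β hβS.1).mono hlt
  have hinf : (e β '' T).Infinite := hTi.image hinj
  obtain ⟨_, ⟨α, hα, rfl⟩, hgt⟩ := hinf.exists_gt N
  refine ⟨α, β, ?_, ?_⟩
  · rw [(hTS hα).2]; exact hgt.le
  · rw [hβS.2]; exact hgt.le

/-- locally finite families of points -/
def LF {ι X : Type} [TopologicalSpace X] (y : ι → X) : Prop :=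
  ∀ x, ∃ U ∈ 𝓝 x, {n | y n ∈ U}.Finite

theorem LF.ext {ι X : Type} [MetricSpace X] {y : ι → X} (hy : LF y) (h : ι → ℝ) :
    ∃ f : X → ℝ, Continuous f ∧ (∀ x, 0 ≤ f x) ∧ ∀ n, h n ≤ f (y n) := by
  classical
  have hfib : ∀ p : X, {n | y n = p}.Finite := fun p => by
    obtain ⟨U, hU, hf⟩ := hy p
    exact hf.subset fun n hn => by
      have : y n = p := hn
      show y n ∈ U
      rw [this]; exact mem_of_mem_nhds hU
  have hcl : IsClosed (range y) := by
    have hl : LocallyFinite fun n => ({y n} : Set X) := fun x => by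
      obtain ⟨U, hU, hf⟩ := hy x
      exact ⟨U, hU, hf.subset fun n hn => by simpa using hn⟩
    have := hl.isClosed_iUnion fun n => isClosed_singleton
    simpa [iUnion_singleton_eq_range] using this
  have hd : DiscreteTopology (range y) := by
    rw [discreteTopology_iff_nhds]
    rintro ⟨p, hp⟩
    obtain ⟨U, hU, hf⟩ := hy p
    have hc : IsClosed ((y '' {n | y n ∈ U}) \ {p}) :=
      ((hf.image y).subset sdiff_subset).isClosed
    have hm : U ∩ ((y '' {n | y n ∈ U}) \ {p})ᶜ ∈ 𝓝 p :=
      inter_mem hU (hc.isOpen_compl.mem_nhds (by simp))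
    refine le_antisymm ?_ (pure_le_nhds _)
    rw [le_pure_iff]
    have := continuous_subtype_val.continuousAt (x := (⟨p, hp⟩ : range y)) hm
    refine mem_of_superset this ?_
    rintro ⟨_, n, rfl⟩ ⟨h1, h2⟩
    by_contra hne
    refine h2 ⟨⟨n, h1, rfl⟩, fun h3 => hne (Subtype.ext h3)⟩
  let g : C(range y, ℝ) := ⟨fun p => ∑ n ∈ (hfib p.1).toFinset, |h n|, continuous_of_discreteTopology⟩
  obtain ⟨f, hf0, hf⟩ := g.exists_restrict_eq_forall_mem_of_closed (t := Ici 0)
    (fun p => by
      show 0 ≤ ∑ n ∈ (hfib p.1).toFinset, |h n|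
      exact Finset.sum_nonneg fun n _ => abs_nonneg _) ⟨0, mem_Ici.2 le_rfl⟩ hcl
  refine ⟨f, f.continuous, hf0, fun n => ?_⟩
  have h1 : f (y n) = g ⟨y n, n, rfl⟩ := by rw [← hf]; rfl
  rw [h1]
  refine (le_abs_self _).trans ?_
  exact Finset.single_le_sum (f := fun n => |h n|) (fun n _ => abs_nonneg _) (by simp)

theorem exists_LF_of_not_separable {X : Type} [MetricSpace X] (h : ¬ SeparableSpace X) :
    ∃ (ι : Type) (_ : Uncountable ι) (y : ι → X), LF y := by
  have : ∃ ε > 0, ∃ D : Set X, Metric.IsSeparated ε D ∧ ¬ D.Countable := by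
    by_contra hh
    push Not at hh
    apply h
    have key : ∀ ε > (0 : ℝ), ∃ s : Set X, s.Countable ∧ ∀ x, ∃ y ∈ s, dist x y ≤ ε := by
      intro ε hε
      obtain ⟨D, hD⟩ := zorn_subset {D : Set X | Metric.IsSeparated (ENNReal.ofReal ε) D} (by
        intro c hc hch
        refine ⟨⋃₀ c, ?_, fun s hs => subset_sUnion_of_mem hs⟩
        rintro a ⟨s, hs, ha⟩ b ⟨t, ht, hb⟩ hab
        rcases hch.total hs ht with h1 | h1
        · exact hc ht (h1 ha) hb hab
        · exact hc hs ha (h1 hb) hab)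
      refine ⟨D, hh _ (ENNReal.ofReal_pos.2 hε) D hD.prop, fun x => ?_⟩
      by_contra hx
      push Not at hx
      have hxD : x ∉ D := fun hm => by
        have := hx x hm
        simp at this
        linarith
      have : Metric.IsSeparated (ENNReal.ofReal ε) (insert x D) := by
        refine Metric.isSeparated_insert_of_notMem hxD |>.2 ⟨hD.prop, fun z hz => ?_⟩
        rw [edist_dist, ENNReal.ofReal_lt_ofReal_iff (hε.trans (hx z hz))]
        exact hx z hz
      exact hxD (hD.2 this (subset_insert _ _) (mem_insert _ _))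
    have := Metric.secondCountable_of_almost_dense_set key
    infer_instance
  obtain ⟨ε, hε, D, hD, hDc⟩ := this
  refine ⟨D, not_countable_iff.1 fun hc => hDc (countable_coe_iff.1 hc), Subtype.val, fun x => ?_⟩
  refine ⟨Metric.eball x (ε / 2), Metric.eball_mem_nhds x (ENNReal.half_pos hε.ne'), ?_⟩
  refine Set.Subsingleton.finite fun a ha b hb => ?_
  by_contra hab
  have h1 := hD a.2 b.2 fun h' => hab (Subtype.ext h')
  have h2 : edist a.1 b.1 < ε := by
    calc edist a.1 b.1 ≤ edist a.1 x + edist b.1 x := edist_triangle_right _ _ _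
      _ < ε / 2 + ε / 2 := ENNReal.add_lt_add ha hb
      _ = ε := ENNReal.add_halves ε
  exact absurd h1 (not_lt.2 h2.le)

theorem exists_LF_of_not_compact {X : Type} [MetricSpace X] {F : Set X} (hF : IsClosed F)
    (h : ¬ IsCompact F) : ∃ y : ℕ → X, (∀ n, y n ∈ F) ∧ LF y := by
  rw [isCompact_iff_isSeqCompact] at h
  unfold IsSeqCompact at h
  push Not at h
  obtain ⟨y, hyF, hy⟩ := h
  refine ⟨y, hyF, fun x => ?_⟩
  by_contra hh
  push Not at hh
  have hc : MapClusterPt x atTop y := by
    rw [mapClusterPt_iff_frequently]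
    intro U hU
    rw [Nat.frequently_atTop_iff_infinite]
    exact hh U hU
  obtain ⟨φ, hφ, hlim⟩ := hc.tendsto_subseq
  exact hy x (hF.mem_of_tendsto hlim (Eventually.of_forall fun n => hyF _)) φ hφ hlim

end Pool.Agent.H55.FreeV
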