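import Mathlib
import Pool.Agent.H55.FreeV1

/-! Obstructions to countable tightness and to the k-property in levels of `V(X)`. -/

namespace Pool.Agent.H55.FreeV

open Set Topology TopologicalSpace Filter

set_option linter.unusedSectionVars false

variable {X V : Type} [AddCommGroup V] [Module ℝ V]

theorem mem_sp (i : X → V) (m : ℕ) (a b : ℝ) (ha : |a| ≤ 1) (hb : |b| ≤ 1) (x y : X) :
    a • i x + b • i y ∈ sp i (m + 2) := by
  have h1 : (1 : ℝ) ≤ ((m + 2 : ℕ) : ℝ) := by exact_mod_cast (by omega : 1 ≤ m + 2)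
  rw [abs_le] at ha hb
  refine ⟨Fin.cons a (Fin.cons b 0), Fin.cons x (fun _ => y), ?_, ?_⟩
  · intro j
    refine Fin.cases ?_ (fun j => Fin.cases ?_ (fun j => ?_) j) j
    · simp only [Fin.cons_zero]; constructor <;> linarith [ha.1, ha.2]
    · simp only [Fin.cons_succ, Fin.cons_zero]; constructor <;> linarith [hb.1, hb.2]
    · simp only [Fin.cons_succ, Pi.zero_apply]; constructor <;> linarith
  · simp [Fin.sum_univ_succ]

variable [TopologicalSpace V] [IsTopologicalAddGroup V] [ContinuousSMul ℝ V]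

theorem small (v : V) {U : Set V} (hU : U ∈ 𝓝 (0 : V)) :
    ∃ N : ℕ, ∀ n ≥ N, (1 / ((n : ℝ) + 1)) • v ∈ U := by
  have h1 : Tendsto (fun n : ℕ => (1 / ((n : ℝ) + 1)) • v) atTop (𝓝 ((0 : ℝ) • v)) :=
    tendsto_one_div_add_atTop_nhds_zero_nat.smul_const v
  rw [zero_smul] at h1
  exact eventually_atTop.1 (h1 hU)

theorem not_k [T2Space V] {S A : Set V} (hA : A ⊆ S) {p : V} (hp : p ∈ S) (hc : p ∈ closure A)
    (hn : p ∉ A) (hK : ∀ K, IsCompact K → (A ∩ K).Finite) : ¬ CompactlyCoherentSpace S := by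
  intro h
  have h1 : IsClosed (Subtype.val ⁻¹' A : Set S) := by
    rw [CompactlyCoherentSpace.isClosed_iff]
    intro K hKc
    have h2 := hK _ (hKc.image continuous_subtype_val)
    have h3 : ((Subtype.val : K → S) ⁻¹' (Subtype.val ⁻¹' A)).Finite := by
      refine (h2.preimage (f := fun k : K => k.1.1)
        (Subtype.val_injective.comp Subtype.val_injective).injOn).subset ?_
      intro k hk
      exact ⟨hk, k.1, k.2, rfl⟩
    exact h3.isClosed
  have h2 : (⟨p, hp⟩ : S) ∈ closure (Subtype.val ⁻¹' A : Set S) := by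
    rw [closure_subtype]
    have : Subtype.val '' (Subtype.val ⁻¹' A : Set S) = A := by
      rw [Subtype.image_preimage_coe]; exact inter_eq_right.2 hA
    rw [this]; exact hc
  rw [h1.closure_eq] at h2
  exact hn h2

variable [MetricSpace X] {i : X → V}

theorem IsFreeTVS.fnl (hi : IsFreeTVS i) {f : X → ℝ} (hf : Continuous f) :
    ∃ L : V →L[ℝ] ℝ, ∀ x, L (i x) = f x := by
  obtain ⟨L, hL, _⟩ := hi.univ ℝ f hf
  exact ⟨L, fun x => by rw [hL]; rfl⟩

/-- The first obstruction: an uncountable locally finite family of points. -/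
theorem obs1 (hi : IsFreeTVS i) (h : ¬ SeparableSpace X) :
    ∃ A : Set V, (∀ m, A ⊆ sp i (m + 2)) ∧ (∀ m, (0 : V) ∈ sp i (m + 2)) ∧ 0 ∈ closure A ∧
      ∀ B ⊆ A, B.Countable → ∃ L : V →L[ℝ] ℝ, (∀ b ∈ B, 1 ≤ L b) ∧
        ∀ M : ℝ, {b ∈ B | L b ≤ M}.Finite := by
  classical
  obtain ⟨ι, _, d, hd⟩ := exists_LF_of_not_separable h
  obtain ⟨ρ, hρ⟩ := exists_rho ι
  let a : ι × ι → V := fun q => (1 / ((ρ q.1 q.2 : ℝ) + 1)) • i (d q.1) +
    (1 / ((ρ q.1 q.2 : ℝ) + 1)) • i (d q.2)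
  have habs : ∀ n : ℕ, |1 / ((n : ℝ) + 1)| ≤ 1 := fun n => by
    rw [abs_of_nonneg (by positivity), div_le_one (by positivity)]
    linarith [Nat.cast_nonneg (α := ℝ) n]
  refine ⟨range a, ?_, ?_, ?_, ?_⟩
  · rintro m _ ⟨q, rfl⟩
    exact mem_sp i m _ _ (habs _) (habs _) _ _
  · intro m
    obtain ⟨α⟩ : Nonempty ι := inferInstance
    simpa using mem_sp i m 0 0 (by simp) (by simp) (d α) (d α)
  · rw [mem_closure_iff_nhds]
    intro U hU
    obtain ⟨U', hU', hadd⟩ := exists_nhds_zero_half hU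
    choose n hn using fun α => small (i (d α)) hU'
    obtain ⟨α, β, h1, h2⟩ := hρ n
    exact ⟨a (α, β), hadd _ (hn α _ h1) _ (hn β _ h2), (α, β), rfl⟩
  · intro B hB hBc
    have hB' : ∀ b ∈ B, ∃ q, a q = b := fun b hb => hB hb
    choose! q hq using hB'
    have hC : ((fun b => (q b).1) '' B ∪ (fun b => (q b).2) '' B).Countable :=
      (hBc.image _).union (hBc.image _)
    set C := (fun b => (q b).1) '' B ∪ (fun b => (q b).2) '' B with hCdef
    obtain ⟨e, he⟩ := Set.countable_iff_exists_injOn.1 hC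
    have hfin : ∀ k : ℕ, {γ ∈ C | e γ ≤ k}.Finite := fun k =>
      Set.Finite.of_finite_image ((finite_le_nat k).subset (by
        rintro _ ⟨γ, hγ, rfl⟩; exact hγ.2)) (he.mono fun γ hγ => hγ.1)
    let hh : ι → ℝ := fun γ => ∑ δ ∈ (hfin (e γ)).toFinset,
      ((ρ δ γ : ℝ) + (ρ γ δ : ℝ) + 1) * (e γ + 1)
    obtain ⟨f, hf, hf0, hfh⟩ := hd.ext hh
    obtain ⟨L, hL⟩ := hi.fnl hf
    have hle : ∀ γ ∈ C, ∀ δ ∈ C, e δ ≤ e γ →
        ((ρ δ γ : ℝ) + (ρ γ δ : ℝ) + 1) * (e γ + 1) ≤ f (d γ) := by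
      intro γ _ δ hδ hδγ
      refine le_trans ?_ (hfh γ)
      exact Finset.single_le_sum (f := fun δ => ((ρ δ γ : ℝ) + (ρ γ δ : ℝ) + 1) * (e γ + 1))
        (fun δ _ => by positivity) (by simp [hδ, hδγ])
    have key : ∀ b ∈ B, (e (q b).1 : ℝ) + 1 ≤ L b ∧ (e (q b).2 : ℝ) + 1 ≤ L b := by
      intro b hb
      have h1 : (q b).1 ∈ C := Or.inl ⟨b, hb, rfl⟩
      have h2 : (q b).2 ∈ C := Or.inr ⟨b, hb, rfl⟩
      have hLb : L b = (f (d (q b).1) + f (d (q b).2)) / ((ρ (q b).1 (q b).2 : ℝ) + 1) := by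
        conv_lhs => rw [← hq b hb]
        simp only [a, map_add, map_smul, hL, smul_eq_mul]
        ring
      generalize (q b).1 = α at *
      generalize (q b).2 = β at *
      have p1 : (0 : ℝ) ≤ ρ α β := Nat.cast_nonneg _
      have p2 : (0 : ℝ) ≤ ρ β α := Nat.cast_nonneg _
      have p3 : (0 : ℝ) ≤ e α := Nat.cast_nonneg _
      have p4 : (0 : ℝ) ≤ e β := Nat.cast_nonneg _
      rw [hLb, le_div_iff₀ (by positivity), le_div_iff₀ (by positivity)]
      rcases le_total (e α) (e β) with hab | hab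
      · have h3 := hle β h2 α h1 hab
        have h4 : (e α : ℝ) ≤ e β := by exact_mod_cast hab
        have := hf0 (d α)
        constructor <;> nlinarith
      · have h3 := hle α h1 β h2 hab
        have h4 : (e β : ℝ) ≤ e α := by exact_mod_cast hab
        have := hf0 (d β)
        constructor <;> nlinarith
    refine ⟨L, fun b hb => ?_, fun M => ?_⟩
    · have := (key b hb).1
      linarith [Nat.cast_nonneg (α := ℝ) (e (q b).1)]
    · obtain ⟨k, hk⟩ := exists_nat_ge M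
      refine (((hfin k).prod (hfin k)).image a).subset ?_
      rintro b ⟨hb, hbM⟩
      refine ⟨q b, ⟨⟨Or.inl ⟨b, hb, rfl⟩, ?_⟩, ⟨Or.inr ⟨b, hb, rfl⟩, ?_⟩⟩, hq b hb⟩
      · have : (e (q b).1 : ℝ) ≤ k := by linarith [(key b hb).1]
        exact_mod_cast this
      · have : (e (q b).2 : ℝ) ≤ k := by linarith [(key b hb).2]
        exact_mod_cast this

theorem sep_of_tight (hi : IsFreeTVS i) (m : ℕ) (h : CountablyTight (sp i (m + 2))) :
    SeparableSpace X := by
  by_contra hs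
  obtain ⟨A, hA, h0, hc, hB⟩ := obs1 hi hs
  have h2 : (⟨0, h0 m⟩ : sp i (m + 2)) ∈ closure (Subtype.val ⁻¹' A) := by
    rw [closure_subtype]
    have : Subtype.val '' (Subtype.val ⁻¹' A : Set (sp i (m + 2))) = A := by
      rw [Subtype.image_preimage_coe]; exact inter_eq_right.2 (hA m)
    rw [this]; exact hc
  rw [h] at h2
  simp only [mem_iUnion] at h2
  obtain ⟨B, ⟨hBA, hBc⟩, hcl⟩ := h2
  rw [closure_subtype] at hcl
  obtain ⟨L, hL, _⟩ := hB (Subtype.val '' B) (by rintro _ ⟨b, hb, rfl⟩; exact hBA hb) (hBc.image _)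
  have : closure (Subtype.val '' B) ⊆ {v | 1 ≤ L v} :=
    closure_minimal hL (isClosed_le continuous_const L.continuous)
  have := this hcl
  simp at this
  linarith

theorem sep_of_k [T2Space V] (hi : IsFreeTVS i) (m : ℕ)
    (h : CompactlyCoherentSpace (sp i (m + 2))) : SeparableSpace X := by
  by_contra hs
  obtain ⟨A, hA, h0, hc, hB⟩ := obs1 hi hs
  refine not_k (hA m) (h0 m) hc ?_ ?_ h
  · intro h1
    obtain ⟨L, hL, _⟩ := hB {0} (by simpa using h1) (countable_singleton _)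
    have := hL 0 rfl
    simp at this
    linarith
  · intro K hK
    by_contra hinf
    obtain ⟨B, hBA, hBc, hBi⟩ := Set.Infinite.exists_subset_countable_infinite hinf
    obtain ⟨L, _, hL⟩ := hB B (fun b hb => (hBA hb).1) hBc
    obtain ⟨M, hM⟩ := (hK.image L.continuous).bddAbove
    exact hBi ((hL M).subset fun b hb => ⟨hb, hM ⟨b, (hBA hb).2, rfl⟩⟩)

theorem lc_of_k [T2Space V] (hi : IsFreeTVS i) (m : ℕ)
    (h : CompactlyCoherentSpace (sp i (m + 2))) : WeaklyLocallyCompactSpace X := by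
  classical
  refine ⟨fun x₀ => ?_⟩
  by_contra hx
  push Not at hx
  have hy : ∀ k : ℕ, ∃ y : ℕ → X, (∀ n, y n ∈ Metric.closedBall x₀ (1 / ((k : ℝ) + 1))) ∧ LF y :=
    fun k => exists_LF_of_not_compact Metric.isClosed_closedBall fun hc =>
      hx _ hc (Metric.closedBall_mem_nhds _ (by positivity))
  choose y hyb hy using hy
  let a : ℕ × ℕ → V := fun q => (1 / ((q.2 : ℝ) + 1)) • i (y 0 q.1) + (1 : ℝ) • i (y q.1 q.2)
  have habs : ∀ n : ℕ, |1 / ((n : ℝ) + 1)| ≤ 1 := fun n => by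
    rw [abs_of_nonneg (by positivity), div_le_one (by positivity)]
    linarith [Nat.cast_nonneg (α := ℝ) n]
  refine not_k (A := range a) (p := i x₀) ?_ ?_ ?_ ?_ ?_ h
  · rintro _ ⟨q, rfl⟩
    exact mem_sp i m _ _ (habs _) (by simp) _ _
  · simpa using mem_sp i m 0 1 (by simp) (by simp) x₀ x₀
  · rw [mem_closure_iff_nhds]
    intro U hU
    have h1 : Tendsto (fun p : V × V => p.1 + p.2) (𝓝 (0, i x₀)) (𝓝 (i x₀)) := by
      simpa using (continuous_add (M := V)).tendsto (0, i x₀)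
    have h2 := h1 hU
    rw [nhds_prod_eq, mem_map, mem_prod_iff] at h2
    obtain ⟨U1, hU1, U2, hU2, hsub⟩ := h2
    obtain ⟨ε, hε, hb⟩ := Metric.mem_nhds_iff.1 (hi.cont.continuousAt hU2)
    obtain ⟨k, hk⟩ := exists_nat_one_div_lt hε
    obtain ⟨N, hN⟩ := small (i (y 0 k)) hU1
    refine ⟨a (k, N), hsub (mk_mem_prod (hN N le_rfl) ?_), (k, N), rfl⟩
    rw [one_smul]
    exact hb (lt_of_le_of_lt (hyb k N) hk)
  · rintro ⟨q, hq⟩
    obtain ⟨L, hL⟩ := hi.fnl (f := fun _ => 1) continuous_const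
    have := congrArg L hq
    simp only [a, map_add, map_smul, hL, smul_eq_mul] at this
    have h2 : (0 : ℝ) < 1 / ((q.2 : ℝ) + 1) := by positivity
    linarith
  · intro K hK
    have hbd : ∀ f : X → ℝ, Continuous f → ∃ M : ℕ, ∀ q, a q ∈ K →
        f (y 0 q.1) / ((q.2 : ℝ) + 1) + f (y q.1 q.2) ≤ M := by
      intro f hf
      obtain ⟨L, hL⟩ := hi.fnl hf
      obtain ⟨M, hM⟩ := (hK.image L.continuous).bddAbove
      obtain ⟨N, hN⟩ := exists_nat_ge M
      refine ⟨N, fun q hq => ?_⟩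
      have := hM ⟨a q, hq, rfl⟩
      simp only [a, map_add, map_smul, hL, smul_eq_mul] at this
      have e1 : f (y 0 q.1) / ((q.2 : ℝ) + 1) = 1 / ((q.2 : ℝ) + 1) * f (y 0 q.1) := by ring
      linarith
    have h1 : ∀ k, ∃ M : ℕ, ∀ j, a (k, j) ∈ K → j ≤ M := by
      intro k
      obtain ⟨f, hf, hf0, hfy⟩ := (hy k).ext fun j => (j : ℝ)
      obtain ⟨M, hM⟩ := hbd f hf
      refine ⟨M, fun j hj => ?_⟩
      have h2 := hM (k, j) hj
      have h3 : 0 ≤ f (y 0 k) / ((j : ℝ) + 1) := div_nonneg (hf0 _) (by positivity)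
      have h4 := hfy j
      have : (j : ℝ) ≤ M := by simp only at h2; linarith
      exact_mod_cast this
    choose J hJ using h1
    obtain ⟨f, hf, hf0, hfy⟩ := (hy 0).ext fun k => (k : ℝ) * (J k + 1)
    obtain ⟨M, hM⟩ := hbd f hf
    have hfin : {q : ℕ × ℕ | a q ∈ K}.Finite := by
      refine ((finite_le_nat M).biUnion fun k _ => ((finite_le_nat (J k)).image fun j => (k, j))).subset ?_
      rintro ⟨k, j⟩ hq
      have h2 := hM (k, j) hq
      have h3 := hJ k j hq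
      have h4 : (j : ℝ) ≤ J k := by exact_mod_cast h3
      have h5 : (k : ℝ) ≤ f (y 0 k) / ((j : ℝ) + 1) := by
        rw [le_div_iff₀ (by positivity)]
        refine le_trans ?_ (hfy k)
        have : (0 : ℝ) ≤ k := Nat.cast_nonneg _
        nlinarith
      have h6 := hf0 (y k j)
      have h7 : (k : ℝ) ≤ M := by simp only at h2; linarith
      have h8 : k ≤ M := by exact_mod_cast h7
      exact mem_biUnion (show k ∈ {k | k ≤ M} from h8) ⟨j, h3, rfl⟩
    refine (hfin.image a).subset ?_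
    rintro _ ⟨⟨q, rfl⟩, hq⟩
    exact ⟨q, hq, rfl⟩

theorem tight_of_sep (hi : IsFreeTVS i) [SeparableSpace X] (n : ℕ) : CountablyTight (sp i n) := by
  intro A
  refine subset_antisymm ?_ (iUnion₂_subset fun B hB => closure_mono hB.1)
  have := UniformSpace.secondCountable_of_separable X
  let Φ : (Fin n → ℝ) × (Fin n → X) → V := fun p => ∑ j, p.1 j • i (p.2 j)
  have hΦ : Continuous Φ := by
    have := hi.cont
    fun_prop
  obtain ⟨D, hDs, hDc, hD⟩ : ∃ D ⊆ Φ ⁻¹' (Subtype.val '' A), D.Countable ∧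
      Φ ⁻¹' (Subtype.val '' A) ⊆ closure D := by
    obtain ⟨D, h1, h2, h3⟩ := (IsSeparable.of_separableSpace
      (Φ ⁻¹' (Subtype.val '' A))).exists_countable_dense_subset
    exact ⟨D, h1, h2, h3⟩
  intro z hz
  have hB : (Subtype.val ⁻¹' (Φ '' D) : Set (sp i n)) ⊆ A := by
    rintro w ⟨p, hp, hw⟩
    obtain ⟨u, hu, huw⟩ := hDs hp
    rwa [show w = u from Subtype.ext (hw.symm.trans huw.symm)]
  refine mem_biUnion (x := (Subtype.val ⁻¹' (Φ '' D) : Set (sp i n)))
    ⟨hB, (hDc.image Φ).preimage_of_injOn Subtype.val_injective.injOn⟩ ?_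
  refine closure_minimal ?_ isClosed_closure hz
  intro w hw
  rw [closure_subtype]
  obtain ⟨c, x, _, hcx⟩ := w.2
  have h1 : (c, x) ∈ closure D := hD ⟨w, hw, hcx⟩
  have h2 := image_closure_subset_closure_image hΦ ⟨_, h1, rfl⟩
  have h3 : Φ '' D ⊆ Subtype.val '' (Subtype.val ⁻¹' (Φ '' D) : Set (sp i n)) := by
    rintro _ ⟨p, hp, rfl⟩
    obtain ⟨u, _, huw⟩ := hDs hp
    exact ⟨u, ⟨p, hp, huw.symm⟩, huw⟩
  rw [hcx]
  exact closure_mono h3 h2

end Pool.Agent.H55.FreeV
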