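import Mathlib
import Pool.Agent.H55.FreeV2

/-! The free topological vector space over a locally compact separable metric space. -/

namespace Pool.Agent.H55.FreeV

open Set Topology TopologicalSpace Filter Pointwise

set_option linter.unusedSectionVars false

/-- relatively open in every member of a sequence of sets -/
def RelOpen {Y : Type} [TopologicalSpace Y] (C : ℕ → Set Y) (U : Set Y) : Prop :=
  ∀ n, ∀ x ∈ U, x ∈ C n → U ∈ 𝓝[C n] x

/-- the topology coherent with a sequence of sets -/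
@[reducible] def coh {Y : Type} [TopologicalSpace Y] (C : ℕ → Set Y) : TopologicalSpace Y where
  IsOpen := RelOpen C
  isOpen_univ := fun _ _ _ _ => univ_mem
  isOpen_inter := fun _ _ hs ht n x hx hc => inter_mem (hs n x hx.1 hc) (ht n x hx.2 hc)
  isOpen_sUnion := fun _ hS n x ⟨t, ht, hx⟩ hc =>
    mem_of_superset (hS t ht n x hx hc) (subset_sUnion_of_mem ht)

section prod

variable {Y Z : Type} [TopologicalSpace Y] [TopologicalSpace Z] [T3Space Y] [T3Space Z]

theorem tube_step {C A : Set Y} {D B : Set Z} (hC : IsCompact C) (hD : IsCompact D)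
    {W : Set (Y × Z)} (hW : ∀ p ∈ W, p ∈ C ×ˢ D → W ∈ 𝓝[C ×ˢ D] p)
    (hA : IsCompact A) (hB : IsCompact B) (hAC : A ⊆ C) (hBD : B ⊆ D) (hAB : A ×ˢ B ⊆ W) :
    ∃ (A' : Set Y) (B' : Set Z), (IsCompact A' ∧ IsCompact B' ∧ A' ⊆ C ∧ B' ⊆ D ∧ A' ×ˢ B' ⊆ W) ∧
      (∀ x ∈ A, A' ∈ 𝓝[C] x) ∧ ∀ y ∈ B, B' ∈ 𝓝[D] y := by
  have h1 : A ×ˢ B ⊆ interior {p | p ∈ C ×ˢ D → p ∈ W} := by
    intro p hp
    rw [mem_interior_iff_mem_nhds]
    exact mem_inf_principal.1 (hW p (hAB hp) ⟨hAC hp.1, hBD hp.2⟩)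
  obtain ⟨u, v, hu, hv, hAu, hBv, huv⟩ := generalized_tube_lemma hA hB isOpen_interior h1
  obtain ⟨u', hu', hAu', hcu⟩ := hA.exists_isOpen_closure_subset (hu.mem_nhdsSet.2 hAu)
  obtain ⟨v', hv', hBv', hcv⟩ := hB.exists_isOpen_closure_subset (hv.mem_nhdsSet.2 hBv)
  refine ⟨C ∩ closure u', D ∩ closure v', ⟨hC.inter_right isClosed_closure,
    hD.inter_right isClosed_closure, inter_subset_left, inter_subset_left, ?_⟩, ?_, ?_⟩
  · rintro p ⟨h2, h3⟩
    exact interior_subset (huv ⟨hcu h2.2, hcv h3.2⟩) ⟨h2.1, h3.1⟩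
  · intro x hx
    exact inter_mem_nhdsWithin _ (mem_of_superset (hu'.mem_nhds (hAu' hx)) subset_closure)
  · intro x hx
    exact inter_mem_nhdsWithin _ (mem_of_superset (hv'.mem_nhds (hBv' hx)) subset_closure)

theorem relOpen_union {C : ℕ → Set Y} (hCm : Monotone C) {A : ℕ → Set Y} (k : ℕ)
    (hAC : ∀ n, A n ⊆ C (k + n)) (hA : ∀ n, ∀ x ∈ A n, A (n + 1) ∈ 𝓝[C (k + (n + 1))] x) :
    Monotone A ∧ RelOpen C (⋃ n, A n) := by
  have hm : Monotone A := monotone_nat_of_le_succ fun n x hx =>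
    mem_of_mem_nhdsWithin (hCm (by omega) (hAC n hx)) (hA n x hx)
  refine ⟨hm, fun m x hx _ => ?_⟩
  obtain ⟨n, hn⟩ := mem_iUnion.1 hx
  have h1 := hA (n + m) x (hm (by omega) hn)
  exact mem_of_superset (nhdsWithin_mono x (hCm (by omega)) h1) (subset_iUnion A _)

theorem coh_prod {C : ℕ → Set Y} {D : ℕ → Set Z} (hC : ∀ n, IsCompact (C n))
    (hD : ∀ n, IsCompact (D n)) (hCm : Monotone C) (hDm : Monotone D)
    (hCu : ∀ x, ∃ n, x ∈ C n) (hDu : ∀ x, ∃ n, x ∈ D n) {W : Set (Y × Z)}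
    (hW : RelOpen (fun n => C n ×ˢ D n) W) :
    IsOpen[@instTopologicalSpaceProd Y Z (coh C) (coh D)] W := by
  rw [@isOpen_prod_iff Y Z (coh C) (coh D)]
  intro a b hab
  obtain ⟨k1, h1⟩ := hCu a
  obtain ⟨k2, h2⟩ := hDu b
  set k := max k1 k2
  let P : ℕ → Set Y × Set Z → Prop := fun n q =>
    IsCompact q.1 ∧ IsCompact q.2 ∧ q.1 ⊆ C (k + n) ∧ q.2 ⊆ D (k + n) ∧ q.1 ×ˢ q.2 ⊆ W
  have step : ∀ n, ∀ q : {q // P n q}, ∃ r : {r // P (n + 1) r},
      (∀ x ∈ q.1.1, r.1.1 ∈ 𝓝[C (k + (n + 1))] x) ∧ ∀ y ∈ q.1.2, r.1.2 ∈ 𝓝[D (k + (n + 1))] y := by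
    rintro n ⟨⟨A, B⟩, hA, hB, hAC, hBD, hAB⟩
    obtain ⟨A', B', h3, h4⟩ := tube_step (hC (k + (n + 1))) (hD (k + (n + 1))) (hW (k + (n + 1)))
      hA hB (hAC.trans (hCm (by omega))) (hBD.trans (hDm (by omega))) hAB
    exact ⟨⟨(A', B'), h3⟩, h4⟩
  choose F hF using step
  let s : ∀ n, {q // P n q} := fun n => Nat.rec ⟨({a}, {b}), isCompact_singleton,
    isCompact_singleton, singleton_subset_iff.2 (hCm (le_max_left _ _) h1),
    singleton_subset_iff.2 (hDm (le_max_right _ _) h2), by simpa using hab⟩ (fun n q => F n q) n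
  obtain ⟨m1, o1⟩ := relOpen_union hCm (A := fun n => (s n).1.1) k (fun n => (s n).2.2.2.1)
    (fun n => (hF n (s n)).1)
  obtain ⟨m2, o2⟩ := relOpen_union hDm (A := fun n => (s n).1.2) k (fun n => (s n).2.2.2.2.1)
    (fun n => (hF n (s n)).2)
  refine ⟨_, _, o1, o2, mem_iUnion.2 ⟨0, rfl⟩, mem_iUnion.2 ⟨0, rfl⟩, ?_⟩
  rintro p ⟨hp1, hp2⟩
  obtain ⟨n1, hn1⟩ := mem_iUnion.1 hp1
  obtain ⟨n2, hn2⟩ := mem_iUnion.1 hp2
  exact (s (max n1 n2)).2.2.2.2.2 ⟨m1 (le_max_left _ _) hn1, m2 (le_max_right _ _) hn2⟩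

end prod

theorem relOpen_pre {Y Z : Type} [TopologicalSpace Y] [TopologicalSpace Z] {C : ℕ → Set Y}
    {D : ℕ → Set Z} {f : Y → Z} (hf : Continuous f) (hm : ∀ n, ∃ m, MapsTo f (C n) (D m))
    {O : Set Z} (hO : RelOpen D O) : RelOpen C (f ⁻¹' O) := by
  intro n x hx hc
  obtain ⟨m, hm⟩ := hm n
  exact (hf.continuousWithinAt.tendsto_nhdsWithin hm) (hO m _ hx (hm hc))

theorem coh_eq {Y : Type} [τ : TopologicalSpace Y] {C : ℕ → Set Y}
    (h : ∀ x, ∃ n, C n ∈ 𝓝 x) : coh C = τ := by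
  ext U
  constructor
  · intro hU
    rw [isOpen_iff_mem_nhds]
    intro x hx
    obtain ⟨n, hn⟩ := h x
    have := hU n x hx (mem_of_mem_nhds hn)
    rwa [nhdsWithin_eq_nhds.2 hn] at this
  · intro hU n x hx _
    exact mem_nhdsWithin_of_mem_nhds (hU.mem_nhds hx)

variable {X V : Type} [AddCommGroup V] [Module ℝ V] [TopologicalSpace V]
  [IsTopologicalAddGroup V] [ContinuousSMul ℝ V] [T2Space V] [MetricSpace X] {i : X → V}

theorem IsFreeTVS.span_top (hi : IsFreeTVS i) : Submodule.span ℝ (range i) = ⊤ := by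
  set S := Submodule.span ℝ (range i)
  obtain ⟨L, hL, _⟩ := hi.univ S (fun x => ⟨i x, Submodule.subset_span ⟨x, rfl⟩⟩)
    (hi.cont.subtype_mk _)
  obtain ⟨M, _, hM⟩ := hi.univ V i hi.cont
  have h1 : S.subtypeL.comp L = M := hM _ (by
    funext x
    have := congrFun hL x
    simp only [Function.comp] at this ⊢
    simp [← this])
  have h2 : ContinuousLinearMap.id ℝ V = M := hM _ rfl
  rw [eq_top_iff]
  intro v _
  have : v = (S.subtypeL.comp L) v := by rw [h1, ← h2]; rfl
  rw [this]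
  exact (L v).2

theorem IsFreeTVS.linInd (hi : IsFreeTVS i) : LinearIndependent ℝ i := by
  classical
  rw [linearIndependent_iff']
  intro s g hg x hx
  obtain ⟨f, hf0, hf1, _⟩ := exists_continuous_zero_one_of_isClosed
    (s := ((s.erase x : Finset X) : Set X)) (t := {x}) (Finset.finite_toSet _).isClosed
    isClosed_singleton (by simp)
  obtain ⟨L, hL⟩ := hi.fnl f.continuous
  have := congrArg L hg
  simp only [map_sum, map_smul, hL, smul_eq_mul, map_zero] at this
  rw [← Finset.add_sum_erase s _ hx, Finset.sum_eq_zero fun y hy => by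
    rw [hf0 (by exact_mod_cast hy)]; simp, hf1 rfl] at this
  simpa using this

/-- an exhausting sequence of compact subsets of `V` -/
def lev (i : X → V) (K : ℕ → Set X) : ℕ → Set V
  | 0 => {0}
  | m + 1 => lev i K m ∪ (lev i K m + lev i K m) ∪ (Icc (-(m : ℝ)) m • lev i K m) ∪ i '' K m

theorem lev_mono (K : ℕ → Set X) : Monotone (lev i K) :=
  monotone_nat_of_le_succ fun _ _ hx => Or.inl (Or.inl (Or.inl hx))

theorem lev_compact (hi : Continuous i) {K : ℕ → Set X} (hK : ∀ n, IsCompact (K n)) :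
    ∀ n, IsCompact (lev i K n)
  | 0 => isCompact_singleton
  | m + 1 => by
    have h := lev_compact hi hK m
    refine ((h.union (h.add h)).union ?_).union ((hK m).image hi)
    rw [← image_smul_prod]
    exact (isCompact_Icc.prod h).image continuous_smul

theorem lev_span {K : ℕ → Set X} (hK : Monotone K) :
    ∀ n, lev i K n ⊆ Submodule.span ℝ (i '' K n)
  | 0 => by simp [lev]
  | m + 1 => by
    have h : lev i K m ⊆ Submodule.span ℝ (i '' K (m + 1)) :=
      (lev_span hK m).trans (Submodule.span_mono (image_mono (hK m.le_succ)))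
    rintro v (((hv | ⟨a, ha, b, hb, rfl⟩) | ⟨c, _, b, hb, rfl⟩) | hv)
    · exact h hv
    · exact Submodule.add_mem _ (h ha) (h hb)
    · exact Submodule.smul_mem _ c (h hb)
    · exact Submodule.subset_span (image_mono (hK m.le_succ) hv)

theorem lev_cover (hi : IsFreeTVS i) {K : ℕ → Set X} (hK : ∀ x, ∃ n, x ∈ K n) (v : V) :
    ∃ n, v ∈ lev i K n := by
  have hv : v ∈ Submodule.span ℝ (range i) := by rw [hi.span_top]; trivial
  induction hv using Submodule.span_induction with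
  | mem _ h =>
    obtain ⟨x, rfl⟩ := h
    obtain ⟨n, hn⟩ := hK x
    exact ⟨n + 1, Or.inr ⟨x, hn, rfl⟩⟩
  | zero => exact ⟨0, rfl⟩
  | add a b _ _ ha hb =>
    obtain ⟨n, hn⟩ := ha
    obtain ⟨m, hm⟩ := hb
    exact ⟨max n m + 1, Or.inl (Or.inl (Or.inr ⟨a, lev_mono K (le_max_left _ _) hn, b,
      lev_mono K (le_max_right _ _) hm, rfl⟩))⟩
  | smul c a _ ha =>
    obtain ⟨n, hn⟩ := ha
    obtain ⟨m, hm⟩ := exists_nat_ge |c|
    have h1 : |c| ≤ ((max n m : ℕ) : ℝ) := hm.trans (by exact_mod_cast le_max_right n m)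
    exact ⟨max n m + 1, Or.inl (Or.inr ⟨c, abs_le.1 h1, a, lev_mono K (le_max_left _ _) hn, rfl⟩)⟩

theorem coh_lev (hi : IsFreeTVS i) (K : CompactExhaustion X) {U : Set V}
    (hU : RelOpen (lev i K) U) : IsOpen U := by
  have hc := lev_compact hi.cont K.isCompact
  have hm : Monotone (lev i K) := lev_mono K
  have hcov := lev_cover hi K.exists_mem
  have hadd : @ContinuousAdd V (coh (lev i K)) _ := by
    refine @ContinuousAdd.mk V (coh (lev i K)) _ ?_
    rw [@continuous_def _ _ (@instTopologicalSpaceProd V V (coh (lev i K)) (coh (lev i K)))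
      (coh (lev i K))]
    intro O hO
    refine coh_prod hc hc hm hm hcov hcov (relOpen_pre continuous_add (fun n => ⟨n + 1, ?_⟩) hO)
    rintro p ⟨h1, h2⟩
    exact Or.inl (Or.inl (Or.inr ⟨_, h1, _, h2, rfl⟩))
  have hsm : @ContinuousSMul ℝ V _ _ (coh (lev i K)) := by
    refine @ContinuousSMul.mk ℝ V _ _ (coh (lev i K)) ?_
    rw [@continuous_def _ _ (@instTopologicalSpaceProd ℝ V _ (coh (lev i K))) (coh (lev i K))]
    intro O hO
    have e1 : coh (fun n : ℕ => Icc (-(n : ℝ)) n) = (inferInstance : TopologicalSpace ℝ) :=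
      coh_eq fun x => by
      obtain ⟨n, hn⟩ := exists_nat_gt |x|
      exact ⟨n, Icc_mem_nhds (abs_lt.1 hn).1 (abs_lt.1 hn).2⟩
    have := coh_prod (C := fun n : ℕ => Icc (-(n : ℝ)) n) (fun _ => isCompact_Icc) hc
      (fun a b hab => Icc_subset_Icc (by simpa using hab) (by simpa using hab)) hm
      (fun x => by
        obtain ⟨n, hn⟩ := exists_nat_ge |x|
        exact ⟨n, abs_le.1 hn⟩) hcov
      (relOpen_pre (f := fun p : ℝ × V => p.1 • p.2) continuous_smul (fun n => ⟨n + 1, by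
        rintro p ⟨h1, h2⟩
        exact Or.inl (Or.inr ⟨_, h1, _, h2, rfl⟩)⟩) hO)
    rwa [e1] at this
  have hgrp : @IsTopologicalAddGroup V (coh (lev i K)) _ := by
    letI := coh (lev i K)
    refine { continuous_neg := ?_ }
    have : (fun a : V => -a) = fun a => (-1 : ℝ) • a := by funext a; simp
    rw [this]
    exact continuous_const_smul _
  have ht2 : @T2Space V (coh (lev i K)) := by
    refine t2Space_antitone (a := coh (lev i K)) (b := inferInstance) ?_ inferInstance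
    intro O hO n x hx _
    exact mem_nhdsWithin_of_mem_nhds (hO.mem_nhds hx)
  have hic : @Continuous X V _ (coh (lev i K)) i := by
    rw [@continuous_def _ _ _ (coh (lev i K))]
    intro O hO
    have h1 : RelOpen K (i ⁻¹' O) := relOpen_pre hi.cont
      (fun n => ⟨n + 1, fun x hx => Or.inr ⟨x, hx, rfl⟩⟩) hO
    have e1 : coh K = (inferInstance : TopologicalSpace X) := coh_eq K.exists_mem_nhds
    have h2 : IsOpen[coh K] (i ⁻¹' O) := h1
    rwa [e1] at h2
  obtain ⟨L, hL, _⟩ := @IsFreeTVS.univ X V _ _ _ _ i hi V _ _ (coh (lev i K)) hgrp hsm ht2 i hic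
  have hLid : ∀ v, L v = v := by
    intro v
    have hv : v ∈ Submodule.span ℝ (range i) := by rw [hi.span_top]; trivial
    induction hv using Submodule.span_induction with
    | mem _ h =>
      obtain ⟨x, rfl⟩ := h
      exact (congrFun hL x).symm
    | zero => exact map_zero L
    | add a b _ _ ha hb => rw [map_add, ha, hb]
    | smul c a _ ha => rw [map_smul, ha]
  have h2 := @Continuous.isOpen_preimage V V _ (coh (lev i K)) L
    (@ContinuousLinearMap.continuous ℝ ℝ _ _ _ V _ _ V (coh (lev i K)) _ _ _ L) U hU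
  have h3 : L ⁻¹' U = U := by ext v; simp [hLid]
  rwa [h3] at h2

theorem k_of_lc (hi : IsFreeTVS i) [WeaklyLocallyCompactSpace X] [SeparableSpace X] (n : ℕ) :
    CompactlyCoherentSpace (sp i n) := by
  classical
  rcases isEmpty_or_nonempty X with hX | ⟨⟨x₀⟩⟩
  · have : Subsingleton (sp i n) := ⟨by
      rintro ⟨_, c, x, _, rfl⟩ ⟨_, c', x', _, rfl⟩
      refine Subtype.ext ?_
      show ∑ j, c j • i (x j) = ∑ j, c' j • i (x' j)
      exact Finset.sum_congr rfl fun j _ => isEmptyElim (x j)⟩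
    infer_instance
  have := UniformSpace.secondCountable_of_separable X
  let K : CompactExhaustion X := CompactExhaustion.choice X
  let Φ : (Fin n → ℝ) × (Fin n → X) → V := fun p => ∑ j, p.1 j • i (p.2 j)
  have hΦ : Continuous Φ := by
    have := hi.cont
    fun_prop
  let S : ℕ → Set V := fun m => Φ '' ((univ.pi fun _ => Icc (-(n : ℝ)) n) ×ˢ
    (univ.pi fun _ => insert x₀ (K m)))
  have hS : ∀ m, IsCompact (S m) := fun m =>
    ((isCompact_univ_pi fun _ => isCompact_Icc).prod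
      (isCompact_univ_pi fun _ => (K.isCompact m).insert x₀)).image hΦ
  have hSsp : ∀ m, S m ⊆ sp i n := by
    rintro m _ ⟨p, hp, rfl⟩
    exact ⟨p.1, p.2, fun j => hp.1 j trivial, rfl⟩
  have hcap : ∀ m, ∀ v ∈ sp i n, v ∈ lev i K m → v ∈ S m := by
    rintro m _ ⟨c, x, hc, rfl⟩ hv
    have h1 := lev_span (i := i) (K := K) (fun a b hab => K.subset hab) m hv
    have hdis := hi.linInd.disjoint_span_image (disjoint_compl_right (a := K m))
    have e1 : ∑ j, c j • i (x j) = ∑ j, (if x j ∈ K m then c j else 0) • i (x j) +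
        ∑ j, (if x j ∈ K m then 0 else c j) • i (x j) := by
      rw [← Finset.sum_add_distrib]
      refine Finset.sum_congr rfl fun j _ => ?_
      split_ifs <;> simp
    have m1 : ∑ j, (if x j ∈ K m then c j else 0) • i (x j) ∈ Submodule.span ℝ (i '' K m) := by
      refine Submodule.sum_mem _ fun j _ => ?_
      split_ifs with h
      · exact Submodule.smul_mem _ _ (Submodule.subset_span ⟨_, h, rfl⟩)
      · simp
    have m2 : ∑ j, (if x j ∈ K m then 0 else c j) • i (x j) ∈ Submodule.span ℝ (i '' (K m)ᶜ) := by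
      refine Submodule.sum_mem _ fun j _ => ?_
      split_ifs with h
      · simp
      · exact Submodule.smul_mem _ _ (Submodule.subset_span ⟨_, h, rfl⟩)
    have m3 : ∑ j, (if x j ∈ K m then 0 else c j) • i (x j) ∈ Submodule.span ℝ (i '' K m) := by
      have := Submodule.sub_mem _ h1 m1
      rwa [e1, add_sub_cancel_left] at this
    have m4 := Submodule.disjoint_def.1 hdis _ m3 m2
    rw [e1, m4, add_zero]
    refine ⟨(fun j => if x j ∈ K m then c j else 0, fun j => if x j ∈ K m then x j else x₀),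
      ⟨fun j _ => ?_, fun j _ => ?_⟩, ?_⟩
    · dsimp only
      split_ifs
      · exact hc j
      · simp
    · dsimp only
      split_ifs with h
      · exact Or.inr h
      · exact Or.inl rfl
    · refine Finset.sum_congr rfl fun j _ => ?_
      dsimp only
      split_ifs <;> simp
  refine CompactlyCoherentSpace.of_isClosed fun A hA => ?_
  have hcl : ∀ m, IsClosed (Subtype.val '' A ∩ S m) := by
    intro m
    have hk : IsCompact (Subtype.val ⁻¹' S m : Set (sp i n)) := by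
      rw [Subtype.isCompact_iff, Subtype.image_preimage_coe, inter_eq_right.2 (hSsp m)]
      exact hS m
    have h1 := hA _ hk
    have := isCompact_iff_compactSpace.1 hk
    have h2 := (h1.isCompact.image (continuous_subtype_val.comp continuous_subtype_val)).isClosed
    convert h2 using 1
    ext v
    constructor
    · rintro ⟨⟨a, ha, rfl⟩, hv⟩
      exact ⟨⟨a, hv⟩, ha, rfl⟩
    · rintro ⟨a, ha, rfl⟩
      exact ⟨⟨a.1, ha, rfl⟩, a.2⟩
  have hop : IsOpen (Subtype.val '' A)ᶜ := by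
    refine coh_lev hi K fun m v hv _ => ?_
    have h1 : (Subtype.val '' A ∩ S m)ᶜ ∈ 𝓝 v :=
      (hcl m).isOpen_compl.mem_nhds fun h => hv h.1
    refine mem_of_superset (inter_mem_nhdsWithin _ h1) ?_
    rintro w ⟨hw1, hw2⟩ ⟨a, ha, rfl⟩
    exact hw2 ⟨⟨a, ha, rfl⟩, hcap m _ a.2 hw1⟩
  have h4 := (isOpen_compl_iff.1 hop).preimage (continuous_subtype_val (p := (· ∈ sp i n)))
  rwa [preimage_image_eq _ Subtype.val_injective] at h4

end Pool.Agent.H55.FreeV
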