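import Mathlib
import Pool.Agent.H55.FreeV1

/-! Step functions with convergence in measure as an extensor for maps from closed subsets. -/

namespace Pool.Agent.H55.FreeV

open Set Topology TopologicalSpace Filter Pointwise MeasureTheory

set_option linter.unusedSectionVars false

variable (E : Type) [AddCommGroup E] [Module ℝ E]

/-- functions with finite range -/
def fr : Submodule ℝ (ℝ → E) where
  carrier := {g | (range g).Finite}
  add_mem' := fun {a b} ha hb => (Set.Finite.add ha hb).subset (by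
    rintro _ ⟨s, rfl⟩
    exact ⟨a s, ⟨s, rfl⟩, b s, ⟨s, rfl⟩, rfl⟩)
  zero_mem' := (finite_singleton (0 : E)).subset (by
    rintro _ ⟨s, rfl⟩
    rfl)
  smul_mem' := fun c a ha => (Set.Finite.image (fun v => c • v) ha).subset (by
    rintro _ ⟨s, rfl⟩
    exact ⟨a s, ⟨s, rfl⟩, rfl⟩)

/-- the space of finite-range functions -/
def HM : Type := fr E

noncomputable instance : AddCommGroup (HM E) := inferInstanceAs (AddCommGroup (fr E))
noncomputable instance : Module ℝ (HM E) := inferInstanceAs (Module ℝ (fr E))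

variable {E}

/-- evaluation -/
def ev (s : ℝ) : HM E →ₗ[ℝ] E where
  toFun g := (show fr E from g).1 s
  map_add' _ _ := rfl
  map_smul' _ _ := rfl

theorem ev_fin (g : HM E) : (range fun s => ev s g).Finite := (show fr E from g).2

/-- constants -/
def cst : E →ₗ[ℝ] HM E where
  toFun v := (⟨fun _ => v, (finite_singleton v).subset (by
    rintro _ ⟨s, rfl⟩
    rfl)⟩ : fr E)
  map_add' _ _ := rfl
  map_smul' _ _ := rfl

theorem ev_cst (s : ℝ) (v : E) : ev s (cst v) = v := rfl

/-- a step -/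
noncomputable def stp (v : E) (t : ℝ) : HM E :=
  (⟨fun s => if s < t then v else 0, (toFinite {v, 0}).subset (by
    rintro _ ⟨s, rfl⟩
    dsimp only
    split_ifs <;> simp)⟩ : fr E)

theorem ev_stp (s : ℝ) (v : E) (t : ℝ) : ev s (stp v t) = if s < t then v else 0 := rfl

/-- basic neighbourhoods of zero -/
def NB (U : Set E) (ε : ℝ) : Set (HM E) :=
  {g | volume {s ∈ Ico (0 : ℝ) 1 | ev s g ∉ U} < ENNReal.ofReal ε}

theorem mem_NB_of {U : Set E} {ε : ℝ} (hε : 0 < ε) {g : HM E}
    (h : ∀ s ∈ Ico (0 : ℝ) 1, ev s g ∈ U) : g ∈ NB U ε := by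
  have : {s ∈ Ico (0 : ℝ) 1 | ev s g ∉ U} = ∅ := by
    ext s
    simp only [mem_empty_iff_false, iff_false]
    exact fun hs => hs.2 (h s hs.1)
  show volume _ < _
  rw [this]
  simpa using hε

theorem NB_map {U U' : Set E} {ε ε' : ℝ} (hε : ε ≤ ε') {g g' : HM E} (hg : g ∈ NB U ε)
    (h : ∀ s, ev s g ∈ U → ev s g' ∈ U') : g' ∈ NB U' ε' :=
  lt_of_le_of_lt (measure_mono (t := {s ∈ Ico (0 : ℝ) 1 | ev s g ∉ U})
    fun s hs => And.intro hs.1 fun h' => hs.2 (h s h'))
    (lt_of_lt_of_le hg (ENNReal.ofReal_le_ofReal hε))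

variable (E) [TopologicalSpace E] [IsTopologicalAddGroup E] [ContinuousSMul ℝ E]

/-- the filter basis of convergence in measure -/
noncomputable def basis : ModuleFilterBasis ℝ (HM E) :=
  { addGroupFilterBasisOfComm {S | ∃ U ∈ 𝓝 (0 : E), ∃ ε > 0, S = NB U ε}
      ⟨_, univ, univ_mem, 1, one_pos, rfl⟩
      (by
        rintro _ _ ⟨U, hU, ε, hε, rfl⟩ ⟨U', hU', ε', hε', rfl⟩
        refine ⟨_, ⟨U ∩ U', inter_mem hU hU', min ε ε', lt_min hε hε', rfl⟩, fun g hg => ?_⟩
        exact ⟨NB_map (min_le_left _ _) hg fun _ h => h.1,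
          NB_map (min_le_right _ _) hg fun _ h => h.2⟩)
      (by
        rintro _ ⟨U, hU, ε, hε, rfl⟩
        exact mem_NB_of hε fun s _ => by rw [map_zero]; exact mem_of_mem_nhds hU)
      (by
        rintro _ ⟨U, hU, ε, hε, rfl⟩
        obtain ⟨U', hU', hadd⟩ := exists_nhds_zero_half hU
        refine ⟨_, ⟨U', hU', ε / 2, half_pos hε, rfl⟩, ?_⟩
        rintro _ ⟨a, ha, b, hb, rfl⟩
        have h1 : {s ∈ Ico (0 : ℝ) 1 | ev s (a + b) ∉ U} ⊆
            {s ∈ Ico (0 : ℝ) 1 | ev s a ∉ U'} ∪ {s ∈ Ico (0 : ℝ) 1 | ev s b ∉ U'} := by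
          rintro s ⟨hs, hn⟩
          by_contra hh
          simp only [mem_union, mem_sep_iff, not_or, not_and, not_not] at hh
          exact hn (by rw [map_add]; exact hadd _ (hh.1 hs) _ (hh.2 hs))
        refine lt_of_le_of_lt ((measure_mono h1).trans (measure_union_le _ _)) ?_
        refine lt_of_lt_of_le (ENNReal.add_lt_add ha hb) ?_
        rw [← ENNReal.ofReal_add (half_pos hε).le (half_pos hε).le, add_halves])
      (by
        rintro _ ⟨U, hU, ε, hε, rfl⟩
        refine ⟨_, ⟨(fun v => -v) ⁻¹' U, ?_, ε, hε, rfl⟩, fun g hg => ?_⟩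
        · exact continuous_neg.continuousAt.preimage_mem_nhds (by simpa using hU)
        · exact NB_map le_rfl hg fun s h => by rw [map_neg]; exact h) with
    smul' := by
      rintro _ ⟨U, hU, ε, hε, rfl⟩
      have h1 : Tendsto (fun p : ℝ × E => p.1 • p.2) (𝓝 (0, 0)) (𝓝 0) := by
        simpa using (continuous_smul (M := ℝ) (X := E)).tendsto (0, 0)
      have h2 := h1 hU
      rw [nhds_prod_eq, mem_map, mem_prod_iff] at h2
      obtain ⟨V, hV, W, hW, hsub⟩ := h2
      refine ⟨V, hV, _, ⟨W, hW, ε, hε, rfl⟩, ?_⟩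
      rintro _ ⟨c, hc, g, hg, rfl⟩
      exact NB_map le_rfl hg fun s h => by
        rw [map_smul]; exact hsub (mk_mem_prod hc h)
    smul_left' := by
      rintro c _ ⟨U, hU, ε, hε, rfl⟩
      refine ⟨_, ⟨(fun v => c • v) ⁻¹' U, ?_, ε, hε, rfl⟩, fun g hg => ?_⟩
      · exact (continuous_const_smul c).continuousAt.preimage_mem_nhds (by simpa using hU)
      · exact NB_map le_rfl hg fun s h => by rw [map_smul]; exact h
    smul_right' := by
      rintro g _ ⟨U, hU, ε, hε, rfl⟩
      have h1 : ∀ v ∈ range fun s => ev s g, ∀ᶠ c in 𝓝 (0 : ℝ), c • v ∈ U := by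
        intro v _
        have : Tendsto (fun c : ℝ => c • v) (𝓝 0) (𝓝 0) := by
          have h2 : Continuous fun c : ℝ => c • v := by fun_prop
          simpa using h2.tendsto (0 : ℝ)
        exact this hU
      filter_upwards [(eventually_all_finite (ev_fin g)).2 h1] with c hc
      exact mem_NB_of hε fun s _ => by rw [map_smul]; exact hc _ ⟨s, rfl⟩ }

noncomputable instance : TopologicalSpace (HM E) := (basis E).topology
instance : IsTopologicalAddGroup (HM E) := (basis E).toAddGroupFilterBasis.isTopologicalAddGroup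
instance : ContinuousSMul ℝ (HM E) := (basis E).continuousSMul

variable {E}

theorem mem_nhds_HM {S : Set (HM E)} :
    S ∈ 𝓝 (0 : HM E) ↔ ∃ U ∈ 𝓝 (0 : E), ∃ ε > 0, NB U ε ⊆ S := by
  rw [(basis E).toAddGroupFilterBasis.nhds_zero_hasBasis.mem_iff]
  constructor
  · rintro ⟨_, ⟨U, hU, ε, hε, rfl⟩, h⟩
    exact ⟨U, hU, ε, hε, h⟩
  · rintro ⟨U, hU, ε, hε, h⟩
    exact ⟨_, ⟨U, hU, ε, hε, rfl⟩, h⟩

theorem tendsto_HM {α : Type} {l : Filter α} {f : α → HM E} {g : HM E}
    (h : ∀ U ∈ 𝓝 (0 : E), ∀ ε > 0, ∀ᶠ a in l, f a - g ∈ NB U ε) : Tendsto f l (𝓝 g) := by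
  rw [← tendsto_sub_nhds_zero_iff]
  intro S hS
  obtain ⟨U, hU, ε, hε, hsub⟩ := mem_nhds_HM.1 hS
  exact mem_of_superset (h U hU ε hε) fun a ha => hsub ha

theorem cst_inducing : IsInducing (cst : E → HM E) := by
  rw [IsTopologicalAddGroup.isInducing_iff_nhds_zero (f := (cst : E →ₗ[ℝ] HM E))]
  ext U
  rw [mem_comap]
  constructor
  · intro hU
    refine ⟨NB U 1, mem_nhds_HM.2 ⟨U, hU, 1, one_pos, subset_rfl⟩, fun v hv => ?_⟩
    by_contra hn
    have h1 : volume {s ∈ Ico (0 : ℝ) 1 | ev s (cst v) ∉ U} < ENNReal.ofReal 1 := hv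
    have h2 : {s ∈ Ico (0 : ℝ) 1 | ev s (cst v) ∉ U} = Ico 0 1 := by
      ext s
      simp [ev_cst, hn]
    rw [h2] at h1
    simp at h1
  · rintro ⟨S, hS, hsub⟩
    obtain ⟨W, hW, ε, hε, h⟩ := mem_nhds_HM.1 hS
    exact mem_of_superset hW fun v hv => hsub (h (mem_NB_of hε fun s _ => hv))

theorem stp_cont (v : E) : Continuous (stp v) := by
  refine continuous_iff_continuousAt.2 fun t => tendsto_HM fun U hU ε hε => ?_
  filter_upwards [Metric.ball_mem_nhds t (half_pos hε)] with t' ht'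
  have h1 : {s ∈ Ico (0 : ℝ) 1 | ev s (stp v t' - stp v t) ∉ U} ⊆ Icc (min t t') (max t t') := by
    rintro s ⟨_, hn⟩
    by_contra hh
    apply hn
    rw [map_sub, ev_stp, ev_stp]
    rw [mem_Icc, not_and_or, not_le, not_le, lt_min_iff, max_lt_iff] at hh
    rcases hh with hh | hh
    · simp [hh.1, hh.2, mem_of_mem_nhds hU]
    · simp [hh.1.le.not_gt, hh.2.le.not_gt, mem_of_mem_nhds hU]
  refine lt_of_le_of_lt (measure_mono h1) ?_
  rw [Real.volume_Icc, ENNReal.ofReal_lt_ofReal_iff hε, max_sub_min_eq_abs]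
  rw [Metric.mem_ball, Real.dist_eq] at ht'
  linarith

theorem pick {ι : Type} [LinearOrder ι] (ρ : ι → ℝ) (F : Finset ι) (s : ℝ) (h0 : 0 ≤ s)
    (h1 : s < ∑ z ∈ F, ρ z) : ∃ z ∈ F, ∑ w ∈ F with w < z, ρ w ≤ s ∧
      s < ∑ w ∈ F with w < z, ρ w + ρ z := by
  induction F using Finset.induction_on_max with
  | empty => simp at h1; linarith
  | insert m F hm ih =>
    have hmF : m ∉ F := fun h => lt_irrefl _ (hm m h)
    by_cases h2 : s < ∑ z ∈ F, ρ z
    · obtain ⟨z, hz, h3⟩ := ih h2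
      refine ⟨z, Finset.mem_insert_of_mem hz, ?_⟩
      rwa [Finset.filter_insert, if_neg (hm z hz).not_gt]
    · refine ⟨m, Finset.mem_insert_self _ _, ?_⟩
      rw [Finset.filter_insert, if_neg (lt_irrefl _), Finset.filter_true_of_mem hm]
      rw [Finset.sum_insert hmF] at h1
      constructor <;> linarith

theorem part_mono {ι : Type} [LinearOrder ι] {ρ : ι → ℝ} (hρ : ∀ z, 0 ≤ ρ z) (F : Finset ι)
    {z w : ι} (hz : z ∈ F) (h : z < w) :
    ∑ u ∈ F with u < z, ρ u + ρ z ≤ ∑ u ∈ F with u < w, ρ u := by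
  rw [add_comm, ← Finset.sum_insert (by simp)]
  refine Finset.sum_le_sum_of_subset_of_nonneg ?_ fun _ _ _ => hρ _
  intro u hu
  simp only [Finset.mem_insert, Finset.mem_filter] at hu ⊢
  rcases hu with rfl | hu
  · exact ⟨hz, h⟩
  · exact ⟨hu.1, hu.2.trans h⟩

/-- continuous selection of step functions along a partition of unity -/
theorem exists_step {ι Z : Type} [TopologicalSpace Z] (ρ : PartitionOfUnity ι Z univ)
    (v : ι → E) : ∃ r : Z → HM E, Continuous r ∧
      ∀ x, ∀ s ∈ Ico (0 : ℝ) 1, ∃ z, ρ z x ≠ 0 ∧ ev s (r x) = v z := by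
  classical
  obtain ⟨_, _⟩ := exists_wellFoundedLT ι
  let a : ι → Z → ℝ := fun z x => ∑ᶠ w, if w < z then ρ w x else 0
  have ha : ∀ z, Continuous (a z) := fun z => by
    refine continuous_finsum (fun w => ?_) (ρ.locallyFinite.subset fun w x hx => ?_)
    · split_ifs
      · exact (ρ w).continuous
      · exact continuous_const
    · intro h
      apply hx
      simp [h]
  let T : ι → Z → HM E := fun z x => stp (v z) (a z x + ρ z x) - stp (v z) (a z x)
  have hT : ∀ z x, ρ z x = 0 → T z x = 0 := fun z x h => by simp [T, h]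
  refine ⟨fun x => ∑ᶠ z, T z x, continuous_finsum (fun z => ?_)
    (ρ.locallyFinite.subset fun z x hx h => hx (hT z x h)), fun x s hs => ?_⟩
  · exact ((stp_cont _).comp ((ha z).add (ρ z).continuous)).sub ((stp_cont _).comp (ha z))
  · set F := ρ.finsupport x
    have hF : ∀ z, z ∉ F → ρ z x = 0 := fun z hz => by
      by_contra h
      exact hz ((ρ.mem_finsupport x).2 h)
    have haF : ∀ z, a z x = ∑ w ∈ F with w < z, ρ w x := fun z => by
      rw [Finset.sum_filter]
      refine finsum_eq_sum_of_support_subset _ fun w hw => ?_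
      by_contra h
      apply hw
      simp [hF w h]
    obtain ⟨z, hz, h1, h2⟩ := pick (fun w => ρ w x) F s hs.1
      (by rw [ρ.sum_finsupport (mem_univ x)]; exact hs.2)
    refine ⟨z, (ρ.mem_finsupport x).1 hz, ?_⟩
    show ev s (∑ᶠ z, T z x) = _
    rw [finsum_eq_sum_of_support_subset (s := F) _ (fun w hw => by
      by_contra h
      exact hw (hT w x (hF w h))), map_sum, Finset.sum_eq_single_of_mem z hz]
    · simp only [T, map_sub, ev_stp, haF]
      rw [if_pos h2, if_neg h1.not_gt, sub_zero]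
    · intro w hw hwz
      simp only [T, map_sub, ev_stp, haF]
      have hp := ρ.nonneg w x
      rcases lt_or_gt_of_ne hwz with h | h
      · have := part_mono (fun u => ρ.nonneg u x) F hw h
        rw [if_neg (by linarith), if_neg (by linarith), sub_zero]
      · have := part_mono (fun u => ρ.nonneg u x) F hz h
        rw [if_pos (by linarith), if_pos (by linarith), sub_self]

theorem exists_ext {X : Type} [MetricSpace X] {Y : Set X} (hY : IsClosed Y) (hne : Y.Nonempty)
    (f : Y → E) (hf : Continuous f) : ∃ F : X → HM E, Continuous F ∧ ∀ y : Y, F y = cst (f y) := by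
  classical
  have hpos : ∀ z : (Yᶜ : Set X), 0 < Metric.infDist z.1 Y := fun z =>
    (hY.notMem_iff_infDist_pos hne).1 z.2
  obtain ⟨ρ, hρ⟩ := PartitionOfUnity.exists_isSubordinate (X := (Yᶜ : Set X)) isClosed_univ
    (fun z : (Yᶜ : Set X) => Metric.ball z (Metric.infDist z.1 Y / 2)) (fun _ => Metric.isOpen_ball)
    (fun z _ => mem_iUnion.2 ⟨z, Metric.mem_ball_self (half_pos (hpos z))⟩)
  have hy : ∀ z : (Yᶜ : Set X), ∃ y : Y, dist z.1 y < 2 * Metric.infDist z.1 Y := fun z => by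
    obtain ⟨y, hy, h⟩ := (Metric.infDist_lt_iff hne).1
      (show Metric.infDist z.1 Y < 2 * Metric.infDist z.1 Y by linarith [hpos z])
    exact ⟨⟨y, hy⟩, h⟩
  choose y hy using hy
  obtain ⟨r, hr, hrv⟩ := exists_step ρ fun z => f (y z)
  let F : X → HM E := fun x => if h : x ∈ Y then cst (f ⟨x, h⟩) else r ⟨x, h⟩
  refine ⟨F, continuous_iff_continuousAt.2 fun x => ?_, fun y => by simp [F, y.2]⟩
  by_cases hx : x ∈ Y
  · have e : F x = cst (f ⟨x, hx⟩) := by simp [F, hx]
    rw [ContinuousAt, e]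
    refine tendsto_HM fun U hU ε hε => ?_
    have h1 : Tendsto (fun y' => f y' - f ⟨x, hx⟩) (𝓝 ⟨x, hx⟩) (𝓝 0) :=
      tendsto_sub_nhds_zero_iff.2 hf.continuousAt
    obtain ⟨δ, hδ, hb⟩ := Metric.mem_nhds_iff.1 (h1 hU)
    filter_upwards [Metric.ball_mem_nhds x (show 0 < δ / 6 by positivity)] with x' hx'
    rw [Metric.mem_ball] at hx'
    refine mem_NB_of hε fun s hs => ?_
    rw [map_sub, ev_cst]
    by_cases hxY : x' ∈ Y
    · have e' : F x' = cst (f ⟨x', hxY⟩) := by simp [F, hxY]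
      rw [e', ev_cst]
      refine hb (show dist x' x < δ by linarith)
    · have e' : F x' = r ⟨x', hxY⟩ := by simp [F, hxY]
      obtain ⟨z, hz, hv⟩ := hrv ⟨x', hxY⟩ s hs
      rw [e', hv]
      have h2 : dist x' z.1 < Metric.infDist z.1 Y / 2 := hρ z (subset_tsupport _ hz)
      have h3 : Metric.infDist z.1 Y ≤ dist z.1 x := Metric.infDist_le_dist_of_mem hx
      have h4 := dist_triangle z.1 x' x
      have h5 := dist_comm z.1 x'
      have h6 := hy z
      have h7 := dist_triangle_left (y z).1 x z.1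
      refine hb (show dist (y z).1 x < δ by linarith)
  · have h1 : ContinuousOn F Yᶜ := by
      rw [continuousOn_iff_continuous_domRestrict]
      convert hr using 1
      funext z
      have : z.1 ∉ Y := z.2
      simp [F, this]
    exact h1.continuousAt (hY.isOpen_compl.mem_nhds hx)

end Pool.Agent.H55.FreeV
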