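import Mathlib

/-! Scott-open filters on frames. -/

namespace Pool.Agent.H55.Frm

open Set

variable {L : Type*} [Order.Frame L]

/-- a filter on a lattice: non-empty, upwards closed, any two members have a lower bound in it -/
def IsFil (F : Set L) : Prop :=
  F.Nonempty ∧ IsUpperSet F ∧ ∀ a ∈ F, ∀ b ∈ F, ∃ c ∈ F, c ≤ a ∧ c ≤ b

/-- Scott-open subsets -/
def ScottOpen (U : Set L) : Prop :=
  IsUpperSet U ∧ ∀ D : Set L, D.Nonempty → DirectedOn (· ≤ ·) D → sSup D ∈ U → ∃ d ∈ D, d ∈ U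

/-- the join of two filters -/
def join (F G : Set L) : Set L := {w | ∃ u ∈ F, ∃ v ∈ G, w = u ⊓ v}

/-- the join of two Scott-open filters is Scott-open -/
def LocTemperate (L : Type*) [Order.Frame L] : Prop :=
  ∀ F G : Set L, IsFil F → ScottOpen F → IsFil G → ScottOpen G → ScottOpen (join F G)

/-- locally temperate, and the filter consisting of the top element is Scott-open -/
def Temperate (L : Type*) [Order.Frame L] : Prop :=
  LocTemperate L ∧ ScottOpen ({⊤} : Set L)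

theorem IsFil.inf {F : Set L} (h : IsFil F) {a b : L} (ha : a ∈ F) (hb : b ∈ F) : a ⊓ b ∈ F := by
  obtain ⟨c, hc, h1, h2⟩ := h.2.2 a ha b hb
  exact h.2.1 (le_inf h1 h2) hc

theorem IsFil.top {F : Set L} (h : IsFil F) : ⊤ ∈ F := by
  obtain ⟨c, hc⟩ := h.1
  exact h.2.1 le_top hc

/-- the Hofmann–Mislove lemma -/
theorem exists_prime {F : Set L} (hF : IsFil F) (hS : ScottOpen F) {a : L} (ha : a ∉ F) :
    ∃ p, a ≤ p ∧ p ∉ F ∧ ∀ x y, x ⊓ y ≤ p → x ≤ p ∨ y ≤ p := by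
  obtain ⟨p, hap, hp⟩ := zorn_le_nonempty₀ (Fᶜ) (fun c hc hch y hy => by
    refine ⟨sSup c, fun h => ?_, fun z hz => le_sSup hz⟩
    obtain ⟨d, hd, h'⟩ := hS.2 c ⟨y, hy⟩ hch.directedOn h
    exact hc hd h') a ha
  refine ⟨p, hap, hp.1, fun x y h => ?_⟩
  by_contra hn
  push Not at hn
  have h1 : p ⊔ x ∈ F := by
    by_contra h1
    exact hn.1 (le_sup_right.trans (hp.2 h1 le_sup_left))
  have h2 : p ⊔ y ∈ F := by
    by_contra h2
    exact hn.2 (le_sup_right.trans (hp.2 h2 le_sup_left))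
  have h3 := hF.inf h1 h2
  rw [← sup_inf_left, sup_eq_left.2 h] at h3
  exact hp.1 h3

end Pool.Agent.H55.Frm
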