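import Mathlib

set_option autoImplicit false

namespace Pool.Agent.H55.Gauss

open Filter Topology Set

/-- The Gauss map. -/
noncomputable def T (y : ℝ) : ℝ := Int.fract (1 / y)

/-- Inverse branch along the first `n` digits. -/
noncomputable def H (a : ℕ → ℕ) : ℕ → ℝ → ℝ
  | 0, s => s
  | n + 1, s => H a n (1 / ((a n : ℝ) + s))

theorem H_congr {a a' : ℕ → ℕ} : ∀ (n : ℕ), (∀ i < n, a i = a' i) → ∀ s, H a n s = H a' n s
  | 0, _, _ => rfl
  | n + 1, h, s => by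
    simp only [H]
    rw [h n (Nat.lt_succ_self n)]
    exact H_congr n (fun i hi => h i (Nat.lt_succ_of_lt hi)) _

theorem H_mat (a : ℕ → ℕ) (ha : ∀ i, 1 ≤ a i) (n : ℕ) :
    ∃ α β γ κ : ℕ, (∀ s : ℝ, 0 ≤ s → H a n s = (α * s + β) / (γ * s + κ)) ∧
      ((α : ℝ) * κ - β * γ = (-1) ^ n) ∧ γ ≤ κ ∧ 1 ≤ κ ∧ (3 / 2 : ℝ) ^ n ≤ κ + γ := by
  induction n with
  | zero => exact ⟨1, 0, 0, 1, fun s _ => by simp [H], by simp, by simp, le_rfl, by simp⟩
  | succ n ih =>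
    obtain ⟨α, β, γ, κ, h1, h2, h3, h4, h5⟩ := ih
    have hb : (1 : ℝ) ≤ a n := by exact_mod_cast ha n
    have hκ : (1 : ℝ) ≤ κ := by exact_mod_cast h4
    have hγ : (0 : ℝ) ≤ γ := by positivity
    have hγκ : (γ : ℝ) ≤ κ := by exact_mod_cast h3
    refine ⟨β, α + β * a n, κ, γ + κ * a n, fun s hs => ?_, ?_, ?_, ?_, ?_⟩
    · have hp : (0 : ℝ) < a n + s := by linarith
      simp only [H]
      rw [h1 _ (by positivity)]
      have hd : (0 : ℝ) < γ * (1 / (a n + s)) + κ := by positivity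
      have hd2 : (0 : ℝ) < κ * s + (γ + κ * a n) := by positivity
      push_cast
      rw [div_eq_div_iff hd.ne' hd2.ne']
      field_simp
      ring
    · push_cast
      rw [pow_succ, ← h2]; ring
    · nlinarith [ha n]
    · nlinarith [ha n]
    · push_cast
      rw [pow_succ]
      nlinarith

theorem T_inv (b : ℕ) (s : ℝ) (h0 : 0 ≤ s) (h1 : s < 1) : T (1 / ((b : ℝ) + s)) = s := by
  unfold T
  rw [one_div_one_div, Int.fract_natCast_add, Int.fract_eq_self.2 ⟨h0, h1⟩]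

theorem inv_mem {b : ℕ} (hb : 1 ≤ b) {s : ℝ} (h0 : 0 < s) : 1 / ((b : ℝ) + s) ∈ Ioo (0 : ℝ) 1 := by
  have hb' : (1 : ℝ) ≤ b := by exact_mod_cast hb
  constructor
  · positivity
  · rw [div_lt_one (by linarith)]; linarith

theorem H_iter (a : ℕ → ℕ) (ha : ∀ i, 1 ≤ a i) : ∀ (n : ℕ) (s : ℝ), s ∈ Ioo (0 : ℝ) 1 →
    H a n s ∈ Ioo (0 : ℝ) 1 ∧ T^[n] (H a n s) = s
  | 0, s, hs => ⟨hs, rfl⟩
  | n + 1, s, hs => by
    have h := H_iter a ha n _ (inv_mem (ha n) hs.1)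
    refine ⟨h.1, ?_⟩
    rw [Function.iterate_succ_apply']
    simp only [H]
    rw [h.2, T_inv _ _ hs.1.le hs.2]

theorem H_chain (a : ℕ → ℕ) (u : ℕ → ℝ) : ∀ (m : ℕ), (∀ k < m, u k = 1 / ((a k : ℝ) + u (k + 1))) →
    u 0 = H a m (u m)
  | 0, _ => rfl
  | m + 1, h => by
    simp only [H]
    rw [← h m (Nat.lt_succ_self m)]
    exact H_chain a u m (fun k hk => h k (Nat.lt_succ_of_lt hk))

theorem H_close (a : ℕ → ℕ) (ha : ∀ i, 1 ≤ a i) (m : ℕ) {s s' : ℝ} (hs : s ∈ Ioo (0 : ℝ) 1)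
    (hs' : s' ∈ Ioo (0 : ℝ) 1) : |H a m s - H a m s'| ≤ 4 * (4 / 9 : ℝ) ^ m := by
  obtain ⟨α, β, γ, κ, h1, h2, h3, h4, h5⟩ := H_mat a ha m
  have hκ : (1 : ℝ) ≤ κ := by exact_mod_cast h4
  have hγ : (0 : ℝ) ≤ γ := by positivity
  have hγκ : (γ : ℝ) ≤ κ := by exact_mod_cast h3
  have hs0 := hs.1
  have hs0' := hs'.1
  have d1 : (κ : ℝ) ≤ γ * s + κ := by nlinarith
  have d2 : (κ : ℝ) ≤ γ * s' + κ := by nlinarith
  rw [h1 s hs.1.le, h1 s' hs'.1.le]
  have e : (α * s + β) / (γ * s + κ) - (α * s' + β) / (γ * s' + κ)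
      = (-1) ^ m * (s - s') / ((γ * s + κ) * (γ * s' + κ)) := by
    rw [← h2]; field_simp; ring
  rw [e, abs_div, abs_mul, abs_pow, abs_neg, abs_one, one_pow, one_mul,
    abs_of_pos (by positivity : (0 : ℝ) < (γ * s + κ) * (γ * s' + κ)), div_le_iff₀ (by positivity)]
  have h6 : |s - s'| ≤ 1 := by
    rw [abs_le]; constructor <;> linarith [hs.2, hs'.2]
  have h7 : (3 / 2 : ℝ) ^ m ≤ 2 * κ := by linarith
  have h8 : (4 / 9 : ℝ) ^ m * ((3 / 2 : ℝ) ^ m * (3 / 2 : ℝ) ^ m) = 1 := by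
    rw [← mul_pow, ← mul_pow]; norm_num
  have h9 : (3 / 2 : ℝ) ^ m * (3 / 2 : ℝ) ^ m ≤ 4 * ((γ * s + κ) * (γ * s' + κ)) := by
    have p : (0 : ℝ) ≤ (3 / 2 : ℝ) ^ m := by positivity
    calc (3 / 2 : ℝ) ^ m * (3 / 2 : ℝ) ^ m ≤ (2 * κ) * (2 * κ) := by gcongr
      _ = 4 * (κ * κ) := by ring
      _ ≤ _ := by gcongr
  have p2 : (0 : ℝ) ≤ (4 / 9 : ℝ) ^ m := by positivity
  nlinarith

/-- Every digit sequence is realised by a real orbit. -/
theorem exists_orbit (a : ℕ → ℕ) (ha : ∀ i, 1 ≤ a i) :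
    ∃ x : ℕ → ℝ, (∀ n, x n ∈ Ioo (0 : ℝ) 1) ∧ ∀ n, x n = 1 / ((a n : ℝ) + x (n + 1)) := by
  let D : ℕ → Set (ℕ → ℝ) := fun M =>
    {s | ∀ n, s n ∈ Icc (0 : ℝ) 1} ∩ ⋂ n ∈ Finset.range M, {s | s n * ((a n : ℝ) + s (n + 1)) = 1}
  have hK : IsCompact {s : ℕ → ℝ | ∀ n, s n ∈ Icc (0 : ℝ) 1} :=
    isCompact_pi_infinite (fun _ => isCompact_Icc)
  have hcl : ∀ M, IsClosed (⋂ n ∈ Finset.range M,
      {s : ℕ → ℝ | s n * ((a n : ℝ) + s (n + 1)) = 1}) := fun M =>
    isClosed_biInter (fun n _ => isClosed_eq (by fun_prop) continuous_const)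
  have hne : ∀ (M : ℕ) (c : ℕ → ℕ), (∀ i, 1 ≤ c i) → ∃ s : ℕ → ℝ, (∀ n, s n ∈ Icc (0 : ℝ) 1) ∧
      ∀ n < M, s n * ((c n : ℝ) + s (n + 1)) = 1 := by
    intro M
    induction M with
    | zero => exact fun c _ => ⟨fun _ => 0, fun _ => ⟨le_rfl, zero_le_one⟩, fun n hn => by omega⟩
    | succ M ih =>
      intro c hc
      obtain ⟨s, h1, h2⟩ := ih (fun i => c (i + 1)) (fun i => hc _)
      have hc0 : (1 : ℝ) ≤ c 0 := by exact_mod_cast hc 0
      have hs0 := (h1 0).1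
      refine ⟨fun n => Nat.casesOn n (1 / ((c 0 : ℝ) + s 0)) s, fun n => ?_, fun n hn => ?_⟩
      · cases n with
        | zero =>
          constructor
          · show 0 ≤ 1 / ((c 0 : ℝ) + s 0); positivity
          · show 1 / ((c 0 : ℝ) + s 0) ≤ 1
            rw [div_le_one (by linarith)]; linarith
        | succ n => exact h1 n
      · cases n with
        | zero =>
          show 1 / ((c 0 : ℝ) + s 0) * ((c 0 : ℝ) + s 0) = 1
          field_simp
        | succ n => exact h2 n (by omega)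
  have hmain : (⋂ M, D M).Nonempty := by
    apply IsCompact.nonempty_iInter_of_sequence_nonempty_isCompact_isClosed
    · intro M s hs
      refine ⟨hs.1, ?_⟩
      have := hs.2
      simp only [mem_iInter, Finset.mem_range] at this ⊢
      exact fun n hn => this n (by omega)
    · intro M
      obtain ⟨s, h1, h2⟩ := hne M a ha
      refine ⟨s, h1, ?_⟩
      simp only [mem_iInter, Finset.mem_range]
      exact h2
    · exact hK.inter_right (hcl 0)
    · exact fun M => hK.isClosed.inter (hcl M)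
  obtain ⟨s, hs⟩ := hmain
  rw [mem_iInter] at hs
  have h1 : ∀ n, s n ∈ Icc (0 : ℝ) 1 := (hs 0).1
  have h2 : ∀ n, s n * ((a n : ℝ) + s (n + 1)) = 1 := fun n => by
    have := (hs (n + 1)).2
    simp only [mem_iInter, Finset.mem_range] at this
    exact this n (Nat.lt_succ_self n)
  have h3 : ∀ n, 0 < s n := fun n => by
    rcases (h1 n).1.eq_or_lt with h | h
    · have := h2 n; rw [← h] at this; simp at this
    · exact h
  have h4 : ∀ n, s n = 1 / ((a n : ℝ) + s (n + 1)) := fun n => by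
    have : (0 : ℝ) < a n + s (n + 1) := by have := h3 (n + 1); positivity
    rw [eq_div_iff this.ne']; exact h2 n
  exact ⟨s, fun n => by rw [h4 n]; exact inv_mem (ha n) (h3 _), h4⟩

theorem orbit_iter {a : ℕ → ℕ} {x : ℕ → ℝ} (h1 : ∀ n, x n ∈ Ioo (0 : ℝ) 1)
    (h2 : ∀ n, x n = 1 / ((a n : ℝ) + x (n + 1))) (n : ℕ) : T^[n] (x 0) = x n := by
  induction n with
  | zero => rfl
  | succ n ih => rw [Function.iterate_succ_apply', ih, h2 n, T_inv _ _ (h1 _).1.le (h1 _).2]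

theorem orbit_irr {a : ℕ → ℕ} {x : ℕ → ℝ} (h1 : ∀ n, x n ∈ Ioo (0 : ℝ) 1)
    (h2 : ∀ n, x n = 1 / ((a n : ℝ) + x (n + 1))) : Irrational (x 0) := by
  have key : ∀ p : ℕ, ∀ (n : ℕ) (q : ℤ), x n * q = p → (0 < q) → False := by
    intro p
    induction p using Nat.strong_induction_on with
    | _ p ih =>
      intro n q h hq
      have hq' : (0 : ℝ) < q := by exact_mod_cast hq
      have hx := (h1 n).1
      have hp : (0 : ℝ) < p := by rw [← h]; positivity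
      have hy := h1 (n + 1)
      have e1 : x n * ((a n : ℝ) + x (n + 1)) = 1 := by
        have : (0 : ℝ) < a n + x (n + 1) := by have := hy.1; positivity
        rw [h2 n]; field_simp
      have e2 : x (n + 1) * p = q - a n * p := by
        rw [← h]; linear_combination q * e1
      have e3 : (0 : ℝ) < q - a n * p := by rw [← e2]; have := hy.1; positivity
      have e4 : (q : ℝ) - a n * p < p := by rw [← e2]; nlinarith [hy.2]
      have e5 : (0 : ℤ) < q - a n * p := by exact_mod_cast e3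
      have e6 : q - a n * p < (p : ℤ) := by exact_mod_cast e4
      obtain ⟨p', hp'⟩ := Int.eq_ofNat_of_zero_le e5.le
      refine ih p' (by omega) (n + 1) p ?_ (by exact_mod_cast hp)
      have : ((q - a n * p : ℤ) : ℝ) = p' := by rw [hp']; simp
      push_cast at this ⊢
      rw [e2, this]
  rintro ⟨r, hr⟩
  have hr0 : 0 < r := by have := (h1 0).1; rw [← hr] at this; exact_mod_cast this
  have hn : 0 < r.num := Rat.num_pos.2 hr0
  obtain ⟨p, hp⟩ := Int.eq_ofNat_of_zero_le hn.le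
  refine key p 0 r.den ?_ (by exact_mod_cast r.den_pos)
  rw [← hr]
  have : ((r * r.den : ℚ) : ℝ) = ((r.num : ℚ) : ℝ) := by rw [Rat.mul_den_eq_num]
  rw [hp] at this
  push_cast at this ⊢
  exact this

/-- digit of a point -/
noncomputable def dg (y : ℝ) : ℕ := ⌊1 / y⌋₊

theorem T_step {y : ℝ} (h : y ∈ Ioo (0 : ℝ) 1) (hi : Irrational y) :
    T y ∈ Ioo (0 : ℝ) 1 ∧ Irrational (T y) ∧ 1 ≤ dg y ∧ y = 1 / ((dg y : ℝ) + T y) := by
  have h1 : 1 < 1 / y := by rw [lt_div_iff₀ h.1]; linarith [h.2]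
  have hi2 : Irrational (1 / y) := by rw [one_div]; exact hi.inv
  have hi3 : Irrational (T y) := by
    unfold T Int.fract
    exact hi2.sub_intCast _
  have e : (dg y : ℝ) + T y = 1 / y := by
    unfold dg T
    rw [natCast_floor_eq_intCast_floor (by linarith)]
    exact Int.floor_add_fract _
  refine ⟨⟨?_, Int.fract_lt_one _⟩, hi3, ?_, ?_⟩
  · rcases (Int.fract_nonneg (1 / y)).eq_or_lt with h0 | h0
    · exact absurd hi3 (by unfold T; rw [← h0]; simp)
    · exact h0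
  · unfold dg; exact Nat.le_floor (by push_cast; linarith)
  · rw [e, one_div_one_div]

theorem T_iter_mem {y : ℝ} (h : y ∈ Ioo (0 : ℝ) 1) (hi : Irrational y) (k : ℕ) :
    T^[k] y ∈ Ioo (0 : ℝ) 1 ∧ Irrational (T^[k] y) := by
  induction k with
  | zero => exact ⟨h, hi⟩
  | succ k ih =>
    rw [Function.iterate_succ_apply']
    exact ⟨(T_step ih.1 ih.2).1, (T_step ih.1 ih.2).2.1⟩

end Pool.Agent.H55.Gauss
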