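import Pool.Agent.H55.Gauss1

set_option autoImplicit false

namespace Pool.Agent.H55.Gauss

open Filter Topology Set

theorem exists_gold : ∃ g : ℝ, g * g + g = 1 ∧ 0.61 < g ∧ g < 0.62 := by
  have h5 : Real.sqrt 5 * Real.sqrt 5 = 5 := Real.mul_self_sqrt (by norm_num)
  have h1 : (2.22 : ℝ) < Real.sqrt 5 := Real.lt_sqrt_of_sq_lt (by norm_num)
  have h2 : Real.sqrt 5 < 2.24 := (Real.sqrt_lt' (by norm_num)).2 (by norm_num)
  exact ⟨(Real.sqrt 5 - 1) / 2, by nlinarith, by linarith, by linarith⟩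

theorem T_near {g ζ : ℝ} (hg : g * g + g = 1) (h1 : 0.61 < g) (h2 : g < 0.62)
    (h : |ζ - g| ≤ 0.05) : |T ζ - g| ≤ 4 * |ζ - g| := by
  rw [abs_le] at h
  have hz : 0.56 ≤ ζ := by linarith
  have hz2 : ζ ≤ 0.67 := by linarith
  have hz0 : 0 < ζ := by linarith
  have e : T ζ = 1 / ζ - 1 := by
    unfold T
    rw [Int.fract_eq_iff]
    refine ⟨?_, ?_, 1, by simp⟩
    · rw [sub_nonneg, le_div_iff₀ hz0]; linarith
    · rw [sub_lt_iff_lt_add, div_lt_iff₀ hz0]; linarith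
  have e2 : T ζ - g = -(ζ - g) / (ζ * g) := by
    rw [e]; field_simp; linear_combination (-ζ) * hg
  rw [e2, abs_div, abs_neg, abs_of_pos (by positivity : 0 < ζ * g), div_le_iff₀ (by positivity)]
  have := abs_nonneg (ζ - g)
  have h3 : 1 ≤ 4 * (ζ * g) := by nlinarith
  nlinarith

theorem T_iter_near {g ζ : ℝ} (hg : g * g + g = 1) (h1 : 0.61 < g) (h2 : g < 0.62) (K : ℕ)
    (h : |ζ - g| ≤ 0.05 / 4 ^ K) : ∀ i ≤ K, |T^[i] ζ - g| ≤ 0.05 * 4 ^ i / 4 ^ K := by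
  intro i
  induction i with
  | zero => intro _; simpa using h
  | succ i ih =>
    intro hi
    have h3 := ih (by omega)
    have h4 : (0.05 : ℝ) * 4 ^ i / 4 ^ K ≤ 0.05 := by
      rw [div_le_iff₀ (by positivity)]
      have : (4 : ℝ) ^ i ≤ 4 ^ K := pow_le_pow_right₀ (by norm_num) (by omega)
      linarith
    rw [Function.iterate_succ_apply']
    calc _ ≤ 4 * |T^[i] ζ - g| := T_near hg h1 h2 (h3.trans h4)
      _ ≤ 4 * (0.05 * 4 ^ i / 4 ^ K) := by gcongr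
      _ = _ := by rw [pow_succ]; ring

/-- number of visits below `t` among the first `N` iterates -/
noncomputable def cnt (y t : ℝ) (N : ℕ) : ℕ :=
  ((Finset.range N).filter (fun n => T^[n] y < t)).card

theorem cnt_gap {y : ℝ} {m K : ℕ} (h : ∀ i < K, 0.55 ≤ T^[m + i] y ∧ T^[m + i] y < 0.7) :
    cnt y 0.55 (m + K) + K ≤ cnt y 0.7 (m + K) := by
  unfold cnt
  have hd : Disjoint ((Finset.range (m + K)).filter (fun n => T^[n] y < 0.55))
      ((Finset.range K).image (fun i => m + i)) := by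
    rw [Finset.disjoint_left]
    intro n hn hn2
    rw [Finset.mem_image] at hn2
    obtain ⟨i, hi, rfl⟩ := hn2
    have := (h i (Finset.mem_range.1 hi)).1
    have := (Finset.mem_filter.1 hn).2
    linarith
  have hc : ((Finset.range K).image (fun i => m + i)).card = K := by
    rw [Finset.card_image_of_injective _ (add_right_injective m), Finset.card_range]
  have hu := Finset.card_union_of_disjoint hd
  rw [hc] at hu
  rw [← hu]
  apply Finset.card_le_card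
  intro n hn
  rw [Finset.mem_union] at hn
  rw [Finset.mem_filter]
  rcases hn with hn | hn
  · have := Finset.mem_filter.1 hn
    exact ⟨this.1, by linarith [this.2]⟩
  · rw [Finset.mem_image] at hn
    obtain ⟨i, hi, rfl⟩ := hn
    have hi' := Finset.mem_range.1 hi
    exact ⟨Finset.mem_range.2 (by omega), (h i hi').2⟩

/-- the algebraic core of the steering step -/
theorem steer_core {q c d γ κ η g θ : ℝ} (hq : 0 < q) (hc : 0 ≤ c) (hd : 1 ≤ d) (hγ : 0 ≤ γ)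
    (hκ : 1 ≤ κ) (hη0 : 0 < η) (hη1 : η < 1) (hg1 : 0.61 < g) (hg2 : g < 0.62)
    (hθ0 : 0 < θ) (hθ1 : θ ≤ 0.05) (hb1 : 4 * d ^ 2 ≤ q * κ ^ 2 * θ) (hb2 : 2 * d * c ≤ q * κ ^ 2) :
    ∃ A : ℕ, 1 ≤ A ∧ ∀ z : ℝ, 0 < z → z < 1 → ∃ s : ℝ, |s - 1 - g| ≤ θ ∧
      q / (d * (c + d * (A + z))) = (s - η) / ((γ * s + κ) * (γ * η + κ)) := by
  set R := γ * η + κ with hR
  have hRκ : κ ≤ R := by rw [hR]; nlinarith
  have hR0 : 0 < R := by linarith
  set sp := 1 + g + θ - η with hsp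
  set sm := 1 + g - θ - η with hsm
  have hsp0 : 0 < sp := by rw [hsp]; linarith
  have hsm0 : 0 < sm := by rw [hsm]; linarith
  have hsp2 : sp ≤ 2 := by rw [hsp]; linarith
  have hsm2 : sm ≤ 2 := by rw [hsm]; linarith
  set lo := (q * (R * γ + R ^ 2 / sp) - d * c) / d ^ 2 with hlo
  set hi := (q * (R * γ + R ^ 2 / sm) - d * c) / d ^ 2 with hhi
  have hd0 : 0 < d := by linarith
  have hR2 : κ ^ 2 ≤ R ^ 2 := by gcongr
  have hlo0 : 0 ≤ lo := by
    rw [hlo]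
    apply div_nonneg _ (by positivity)
    have h1 : R ^ 2 / 2 ≤ R ^ 2 / sp := by gcongr
    have h2 : 0 ≤ R * γ := by positivity
    nlinarith
  have hgap : lo + 2 ≤ hi := by
    have e : hi - lo = q * R ^ 2 * (2 * θ) / (sm * sp) / d ^ 2 := by
      rw [hhi, hlo]
      have : sp = sm + 2 * θ := by rw [hsp, hsm]; ring
      field_simp
      rw [this]; ring
    have h1 : sm * sp ≤ 4 := by nlinarith
    have h2 : q * R ^ 2 * (2 * θ) / 4 ≤ q * R ^ 2 * (2 * θ) / (sm * sp) := by gcongr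
    have h3 : q * κ ^ 2 * θ ≤ q * R ^ 2 * θ := by gcongr
    have h4 : 2 ≤ q * R ^ 2 * (2 * θ) / (sm * sp) / d ^ 2 := by
      rw [le_div_iff₀ (by positivity)]; linarith
    linarith
  refine ⟨⌊lo⌋₊ + 1, by omega, fun z hz0 hz1 => ?_⟩
  have hA1 : lo < ((⌊lo⌋₊ + 1 : ℕ) : ℝ) := by push_cast; exact Nat.lt_floor_add_one lo
  have hA2 : ((⌊lo⌋₊ + 1 : ℕ) : ℝ) ≤ lo + 1 := by
    push_cast; have := Nat.floor_le hlo0; linarith
  set v := ((⌊lo⌋₊ + 1 : ℕ) : ℝ) + z with hv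
  have hv1 : lo ≤ v := by linarith
  have hv2 : v ≤ hi := by linarith
  set W := d * (c + d * v) / q with hW
  have hW1 : R ^ 2 / sp ≤ W - R * γ := by
    rw [hlo, div_le_iff₀ (by positivity)] at hv1
    rw [hW, le_sub_iff_add_le, le_div_iff₀ hq]; nlinarith
  have hW2 : W - R * γ ≤ R ^ 2 / sm := by
    rw [hhi, le_div_iff₀ (by positivity)] at hv2
    rw [hW, sub_le_iff_le_add, div_le_iff₀ hq]; nlinarith
  have hX0 : 0 < W - R * γ := lt_of_lt_of_le (by positivity) hW1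
  have hv0 : 0 < v := by linarith
  have hWpos : 0 < W := by rw [hW]; positivity
  refine ⟨η + R ^ 2 / (W - R * γ), ?_, ?_⟩
  · have a1 : R ^ 2 / (W - R * γ) ≤ sp := by
      rw [div_le_iff₀ hsp0] at hW1
      rw [div_le_iff₀ hX0]; linarith
    have a2 : sm ≤ R ^ 2 / (W - R * γ) := by
      rw [le_div_iff₀ hsm0] at hW2
      rw [le_div_iff₀ hX0]; linarith
    rw [abs_le]; constructor <;> linarith
  · have e1 : q / (d * (c + d * v)) = 1 / W := by rw [hW, one_div_div]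
    rw [e1]
    have e2 : γ * (η + R ^ 2 / (W - R * γ)) + κ = R * W / (W - R * γ) := by
      have h1 : γ * (η + R ^ 2 / (W - R * γ)) + κ = R + γ * (R ^ 2 / (W - R * γ)) := by
        rw [hR]; ring
      rw [h1, eq_div_iff hX0.ne', add_mul, mul_assoc γ, div_mul_cancel₀ _ hX0.ne']; ring
    rw [e2]
    have hX1 := hX0.ne'
    generalize W - R * γ = X at hX1
    field_simp
    ring

theorem steer (a : ℕ → ℕ) (ha : ∀ i, 1 ≤ a i) (n : ℕ) {q r : ℝ} (hq : 0 < q)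
    (hirr : Irrational (q * H a n 0 + r)) :
    ∃ A : ℕ, 1 ≤ A ∧ ∃ N : ℕ, n ≤ N ∧ ∀ z : ℝ, 0 < z → z < 1 →
      6 * cnt (Int.fract (q * H a n (1 / ((A : ℝ) + z)) + r)) 0.55 N + N ≤
        6 * cnt (Int.fract (q * H a n (1 / ((A : ℝ) + z)) + r)) 0.7 N := by
  obtain ⟨g, hg, hg1, hg2⟩ := exists_gold
  obtain ⟨a1, b1, c1, d1, h1, h2, -, h4, -⟩ := H_mat a ha n
  set y0 := q * H a n 0 + r with hy0
  set η := Int.fract y0 with hη
  have hηi : Irrational η := by rw [hη]; unfold Int.fract; exact hirr.sub_intCast _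
  have hη01 : η ∈ Ioo (0 : ℝ) 1 := by
    refine ⟨?_, Int.fract_lt_one _⟩
    rcases (Int.fract_nonneg y0).eq_or_lt with h0 | h0
    · exact absurd hηi (by rw [hη, ← h0]; simp)
    · exact h0
  let b : ℕ → ℕ := fun k => dg (T^[k] η)
  have hb : ∀ k, 1 ≤ b k := fun k =>
    (T_step (T_iter_mem hη01 hηi k).1 (T_iter_mem hη01 hηi k).2).2.2.1
  have hchain : ∀ k, T^[k] η = 1 / ((b k : ℝ) + T^[k + 1] η) := fun k => by
    rw [Function.iterate_succ_apply']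
    exact (T_step (T_iter_mem hη01 hηi k).1 (T_iter_mem hη01 hηi k).2).2.2.2
  have hd1 : (1 : ℝ) ≤ d1 := by exact_mod_cast h4
  have hc1 : (0 : ℝ) ≤ c1 := by positivity
  obtain ⟨K0, hK0⟩ := exists_nat_ge (400 * (d1 : ℝ) ^ 2 / q + 8 * d1 * c1 / q)
  set K := K0 + n + 1 with hK
  have hK4 : (K0 : ℝ) ≤ 4 ^ K := by
    have : K0 ≤ 4 ^ K := le_trans (by omega) (Nat.lt_pow_self (by norm_num : 1 < 4)).le
    exact_mod_cast this
  set m' := n + 4 * K - 1 with hm'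
  have hm : m' + 1 = n + 4 * K := by omega
  obtain ⟨α, β, γ, κ, k1, k2, k3, k4, k5⟩ := H_mat b hb (m' + 1)
  have hκ : (1 : ℝ) ≤ κ := by exact_mod_cast k4
  have hγ : (0 : ℝ) ≤ γ := by positivity
  have hγκ : (γ : ℝ) ≤ κ := by exact_mod_cast k3
  have hκbig : (4 : ℝ) ^ K * 4 ^ K ≤ 4 * κ ^ 2 := by
    have e1 : (4 : ℝ) ^ K ≤ (3 / 2 : ℝ) ^ (m' + 1) := by
      calc (4 : ℝ) ^ K ≤ ((3 / 2 : ℝ) ^ 4) ^ K := by gcongr; norm_num
        _ = (3 / 2 : ℝ) ^ (4 * K) := by rw [← pow_mul]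
        _ ≤ _ := pow_le_pow_right₀ (by norm_num) (by omega)
    have e2 : (4 : ℝ) ^ K ≤ 2 * κ := by linarith
    calc (4 : ℝ) ^ K * 4 ^ K ≤ (2 * κ) * (2 * κ) := by gcongr
      _ = _ := by ring
  have h4K : (1 : ℝ) ≤ 4 ^ K := one_le_pow₀ (by norm_num)
  have hq1 : 400 * (d1 : ℝ) ^ 2 / q ≤ 4 ^ K := by
    have : 0 ≤ 8 * (d1 : ℝ) * c1 / q := by positivity
    linarith
  have hq2 : 8 * (d1 : ℝ) * c1 / q ≤ 4 ^ K := by
    have : 0 ≤ 400 * (d1 : ℝ) ^ 2 / q := by positivity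
    linarith
  rw [div_le_iff₀ hq] at hq1 hq2
  have hηm := (T_iter_mem hη01 hηi (m' + 1)).1
  have hb1 : 4 * (d1 : ℝ) ^ 2 ≤ q * κ ^ 2 * (0.05 / 4 ^ K) := by
    rw [← mul_div_assoc, le_div_iff₀ (by positivity)]
    have : q * (4 ^ K * 4 ^ K) ≤ q * (4 * (κ : ℝ) ^ 2) := by gcongr
    have h' : 400 * (d1 : ℝ) ^ 2 * 4 ^ K ≤ 4 ^ K * q * 4 ^ K := by gcongr
    have : 0 ≤ (d1 : ℝ) ^ 2 * 4 ^ K := by positivity
    nlinarith
  have hb2 : 2 * (d1 : ℝ) * c1 ≤ q * κ ^ 2 := by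
    have : q * (4 ^ K * 4 ^ K) ≤ q * (4 * (κ : ℝ) ^ 2) := by gcongr
    have h' : 4 ^ K * q * 1 ≤ 4 ^ K * q * 4 ^ K := by gcongr
    nlinarith
  have hθ1 : (0.05 : ℝ) / 4 ^ K ≤ 0.05 := div_le_self (by norm_num) h4K
  obtain ⟨A, hA, hA2⟩ := steer_core hq hc1 hd1 hγ hκ hηm.1 hηm.2 hg1 hg2
    (by positivity : (0 : ℝ) < 0.05 / 4 ^ K) hθ1 hb1 hb2
  refine ⟨A, hA, m' + 1 + K, by omega, fun z hz0 hz1 => ?_⟩
  obtain ⟨s, hs1, hs2⟩ := hA2 z hz0 hz1
  have hs1' := abs_le.1 (hs1.trans hθ1)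
  have hs_lo : 1 < s := by linarith
  have hs_hi : s < 2 := by linarith
  have hAz : (0 : ℝ) < A + z := by positivity
  have hη_eq : η = H b (m' + 1) (T^[m' + 1] η) :=
    H_chain b (fun k => T^[k] η) (m' + 1) (fun k _ => hchain k)
  have hsign : (-1 : ℝ) ^ (m' + 1) = (-1) ^ n := by
    rw [hm, pow_add, pow_mul]; norm_num
  have hy : q * H a n (1 / ((A : ℝ) + z)) + r = (⌊y0⌋ : ℝ) + H b (m' + 1) s := by
    have e0 : y0 = ⌊y0⌋ + η := (Int.floor_add_fract y0).symm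
    have e1 : H a n (1 / ((A : ℝ) + z)) - H a n 0 = (-1) ^ n / (d1 * (c1 + d1 * (A + z))) := by
      rw [h1 _ (by positivity), h1 0 le_rfl, ← h2]
      field_simp
      ring
    have hp := hηm.1
    have e2 : H b (m' + 1) s - H b (m' + 1) (T^[m' + 1] η) =
        (-1) ^ (m' + 1) * ((s - T^[m' + 1] η) / ((γ * s + κ) * (γ * T^[m' + 1] η + κ))) := by
      rw [k1 s (by linarith), k1 _ hp.le, ← k2]
      have : (0 : ℝ) < γ * s + κ := by positivity
      field_simp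
      ring
    rw [← hs2, hsign, ← hη_eq] at e2
    have e3 : q * H a n (1 / ((A : ℝ) + z)) + r
        = y0 + q * (H a n (1 / ((A : ℝ) + z)) - H a n 0) := by rw [hy0]; ring
    rw [e3, e1, e0, Int.floor_intCast_add, Int.floor_eq_zero_iff.2 ⟨hη01.1.le, hη01.2⟩]
    have : H b (m' + 1) s = η + (-1) ^ n * (q / (d1 * (c1 + d1 * (A + z)))) := by linarith
    rw [this]; push_cast; ring
  have hHs : H b (m' + 1) s = H b m' (1 / (((b m' + 1 : ℕ) : ℝ) + (s - 1))) := by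
    simp only [H]; congr 2; push_cast; ring
  have hmem := H_iter b hb m' _ (inv_mem (b := b m' + 1) (by omega) (by linarith : 0 < s - 1))
  rw [← hHs] at hmem
  have hfr : Int.fract (q * H a n (1 / ((A : ℝ) + z)) + r) = H b (m' + 1) s := by
    rw [hy, Int.fract_intCast_add, Int.fract_eq_self.2 ⟨hmem.1.1.le, hmem.1.2⟩]
  have hT : T^[m' + 1] (H b (m' + 1) s) = s - 1 := by
    rw [Function.iterate_succ_apply', hmem.2, T_inv _ _ (by linarith) (by linarith)]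
  have hnear := T_iter_near hg hg1 hg2 K hs1
  have hgap : cnt (H b (m' + 1) s) 0.55 (m' + 1 + K) + K ≤ cnt (H b (m' + 1) s) 0.7 (m' + 1 + K) := by
    apply cnt_gap
    intro i hi
    rw [add_comm (m' + 1) i, Function.iterate_add_apply, hT]
    have h3 := hnear i hi.le
    have h4 : (0.05 : ℝ) * 4 ^ i / 4 ^ K ≤ 0.05 := by
      rw [div_le_iff₀ (by positivity)]
      have : (4 : ℝ) ^ i ≤ 4 ^ K := pow_le_pow_right₀ (by norm_num) hi.le
      linarith
    have h5 := abs_le.1 (h3.trans h4)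
    constructor <;> linarith
  rw [hfr]
  omega

end Pool.Agent.H55.Gauss
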