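import Pool.Agent.H55.Gauss2

set_option autoImplicit false

namespace Pool.Agent.H55.Gauss

open Filter Topology Set MeasureTheory ProbabilityTheory

/-- distribution function of the Gauss measure on `[0,1]` -/
noncomputable def F (t : ℝ) : ℝ := Real.log (1 + t) / Real.log 2

noncomputable def G (s : ℝ) : ℝ := Real.exp (s * Real.log 2) - 1

/-- The Gauss measure. -/
noncomputable def μG : Measure ℝ := (volume.restrict (Ioc (0 : ℝ) 1)).map G

theorem log2_pos : 0 < Real.log 2 := Real.log_pos (by norm_num)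

theorem meas_G : Measurable G := by unfold G; fun_prop

theorem meas_T : Measurable T := by
  unfold T
  exact measurable_fract.comp (measurable_const.div measurable_id)

theorem lt_G {u s : ℝ} (hu : 0 ≤ u) : u < G s ↔ F u < s := by
  unfold G F
  rw [div_lt_iff₀ log2_pos, Real.log_lt_iff_lt_exp (by linarith)]
  constructor <;> intro h <;> linarith

theorem G_le {u s : ℝ} (hu : 0 ≤ u) : G s ≤ u ↔ s ≤ F u := by
  rw [← not_lt, ← not_lt, lt_G hu]

theorem F_zero : F 0 = 0 := by simp [F]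

theorem F_one : F 1 = 1 := by
  unfold F; rw [show (1 : ℝ) + 1 = 2 by norm_num]; exact div_self log2_pos.ne'

theorem F_mono {u v : ℝ} (hu : 0 ≤ u) (h : u ≤ v) : F u ≤ F v := by
  unfold F
  exact div_le_div_of_nonneg_right (Real.log_le_log (by linarith) (by linarith)) log2_pos.le

instance : IsProbabilityMeasure μG := by
  constructor
  unfold μG
  rw [Measure.map_apply meas_G MeasurableSet.univ]
  simp

theorem μG_Ioc {u v : ℝ} (hu : 0 ≤ u) (huv : u ≤ v) (hv : v ≤ 1) :
    μG (Ioc u v) = ENNReal.ofReal (F v - F u) := by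
  unfold μG
  rw [Measure.map_apply meas_G measurableSet_Ioc,
    Measure.restrict_apply (meas_G measurableSet_Ioc)]
  have : G ⁻¹' Ioc u v ∩ Ioc 0 1 = Ioc (F u) (F v) := by
    ext s
    simp only [mem_inter_iff, mem_preimage, mem_Ioc, lt_G hu, G_le (hu.trans huv)]
    have h1 : 0 ≤ F u := by rw [← F_zero]; exact F_mono le_rfl hu
    have h2 : F v ≤ 1 := by rw [← F_one]; exact F_mono (hu.trans huv) hv
    constructor
    · exact fun h => h.1
    · exact fun h => ⟨h, by linarith [h.1], by linarith [h.2]⟩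
  rw [this, Real.volume_Ioc]

theorem μG_single (u : ℝ) : μG {u} = 0 := by
  unfold μG
  rw [Measure.map_apply meas_G (measurableSet_singleton u),
    Measure.restrict_apply (meas_G (measurableSet_singleton u))]
  apply measure_mono_null inter_subset_left
  apply Set.Subsingleton.measure_zero
  intro s hs s' hs'
  simp only [mem_preimage, mem_singleton_iff, G] at hs hs'
  have : Real.exp (s * Real.log 2) = Real.exp (s' * Real.log 2) := by linarith
  exact mul_right_cancel₀ log2_pos.ne' (Real.exp_injective this)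

instance : NullSingletonClass μG := ⟨μG_single⟩

theorem μG_ae : ∀ᵐ y ∂μG, y ∈ Ioc (0 : ℝ) 1 := by
  have h : μG (Ioc 0 1) = 1 := by rw [μG_Ioc le_rfl zero_le_one le_rfl, F_one, F_zero]; simp
  exact (prob_compl_eq_zero_iff measurableSet_Ioc).2 h

theorem μG_ae' : ∀ᵐ y ∂μG, y ∈ Ioo (0 : ℝ) 1 ∧ Irrational y := by
  have h1 : ∀ᵐ y ∂μG, y ∉ range ((↑) : ℚ → ℝ) :=
    (countable_range _).ae_notMem μG
  filter_upwards [μG_ae, h1] with y hy hi
  refine ⟨⟨hy.1, lt_of_le_of_ne hy.2 ?_⟩, hi⟩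
  rintro rfl
  exact hi ⟨1, by simp⟩

theorem μG_inter (s : Set ℝ) : μG s = μG (s ∩ Ioc 0 1) := by
  apply measure_congr
  filter_upwards [μG_ae] with y hy
  simp only [eq_iff_iff]
  exact ⟨fun h => ⟨h, hy⟩, fun h => h.1⟩

theorem μG_Iio {t : ℝ} (h0 : 0 ≤ t) (h1 : t ≤ 1) : μG (Iio t) = ENNReal.ofReal (F t) := by
  rw [measure_congr (Iio_ae_eq_Iic (μ := μG)), μG_inter]
  have : Iic t ∩ Ioc 0 1 = Ioc 0 t := by
    ext y; simp only [mem_inter_iff, mem_Iic, mem_Ioc]
    exact ⟨fun h => ⟨h.2.1, h.1⟩, fun h => ⟨h.2, h.1, h.2.trans h1⟩⟩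
  rw [this, μG_Ioc le_rfl h0 h1, F_zero, sub_zero]

theorem μG_pre {t : ℝ} (h0 : 0 < t) (h1 : t ≤ 1) : μG (T ⁻¹' Iio t) = ENNReal.ofReal (F t) := by
  rw [μG_inter]
  have hU : T ⁻¹' Iio t ∩ Ioc 0 1 = ⋃ k : ℕ, Ioc (1 / ((k : ℝ) + 1 + t)) (1 / ((k : ℝ) + 1)) := by
    ext y
    simp only [mem_inter_iff, mem_preimage, mem_Iio, mem_Ioc, mem_iUnion]
    constructor
    · rintro ⟨h2, h3, h4⟩
      have h5 : 1 ≤ 1 / y := by rw [le_div_iff₀ h3]; linarith
      have h6 : 1 ≤ ⌊1 / y⌋₊ := Nat.le_floor (by exact_mod_cast h5)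
      obtain ⟨k, hk⟩ : ∃ k, ⌊1 / y⌋₊ = k + 1 := ⟨⌊1 / y⌋₊ - 1, by omega⟩
      have e : ((k : ℝ) + 1) + T y = 1 / y := by
        have : ((k : ℝ) + 1) = (⌊1 / y⌋₊ : ℝ) := by rw [hk]; push_cast; ring
        rw [this, natCast_floor_eq_intCast_floor (by linarith)]
        exact Int.floor_add_fract _
      have hT0 : 0 ≤ T y := Int.fract_nonneg _
      refine ⟨k, ?_, ?_⟩
      · rw [one_div_lt (by positivity) h3]; linarith
      · rw [le_one_div h3 (by positivity)]; linarith
    · rintro ⟨k, h2, h3⟩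
      have hy : 0 < y := lt_trans (by positivity) h2
      rw [one_div_lt (by positivity) hy] at h2
      have h3' := h3
      rw [le_one_div hy (by positivity)] at h3
      have hk : (0 : ℝ) ≤ k := by positivity
      refine ⟨?_, hy, h3'.trans (by rw [div_le_one (by positivity)]; linarith)⟩
      have e : T y = 1 / y - (k + 1) := by
        unfold T
        rw [Int.fract_eq_iff]
        exact ⟨by linarith, by linarith, k + 1, by push_cast; ring⟩
      rw [e]; linarith
  rw [hU, measure_iUnion _ (fun _ => measurableSet_Ioc)]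
  · have e : ∀ k : ℕ, μG (Ioc (1 / ((k : ℝ) + 1 + t)) (1 / ((k : ℝ) + 1))) =
        ENNReal.ofReal (F (t / (k + 1)) - F (t / ((k + 1 : ℕ) + 1))) := by
      intro k
      have hk : (0 : ℝ) ≤ k := by positivity
      rw [μG_Ioc (by positivity) (one_div_le_one_div_of_le (by positivity) (by linarith))
        (by rw [div_le_one (by positivity)]; linarith)]
      congr 1
      unfold F
      rw [← sub_div, ← sub_div, ← Real.log_div (by positivity) (by positivity),
        ← Real.log_div (by positivity) (by positivity)]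
      congr 2
      push_cast
      field_simp
      ring
    simp_rw [e]
    have hnn : ∀ k : ℕ, 0 ≤ F (t / (k + 1)) - F (t / ((k + 1 : ℕ) + 1)) := by
      intro k
      rw [sub_nonneg]
      apply F_mono (by positivity)
      push_cast
      gcongr; linarith
    have hs : HasSum (fun k : ℕ => F (t / (k + 1)) - F (t / ((k + 1 : ℕ) + 1))) (F t) := by
      rw [hasSum_iff_tendsto_nat_of_nonneg hnn]
      have e2 : ∀ n : ℕ, ∑ k ∈ Finset.range n, (F (t / (k + 1)) - F (t / ((k + 1 : ℕ) + 1)))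
          = F t - F (t / (n + 1)) := by
        intro n
        rw [Finset.sum_range_sub' (fun k : ℕ => F (t / (k + 1))) n]; simp
      simp_rw [e2]
      have h3 : Tendsto (fun n : ℕ => t / ((n : ℝ) + 1)) atTop (𝓝 0) :=
        tendsto_const_nhds.div_atTop (tendsto_natCast_atTop_atTop.atTop_add tendsto_const_nhds)
      have h4 : ContinuousAt F 0 := by
        unfold F
        exact (ContinuousAt.log (by fun_prop) (by norm_num)).div_const _
      have h5 := h4.tendsto.comp h3
      rw [F_zero] at h5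
      simpa using h5.const_sub (F t)
    rw [← ENNReal.ofReal_tsum_of_nonneg hnn hs.summable, hs.tsum_eq]
  · apply Pairwise.mono _ (pairwise_disjoint_on (fun k : ℕ =>
      Ioc (1 / ((k : ℝ) + 1 + t)) (1 / ((k : ℝ) + 1)))|>.2 _)
    · exact fun _ _ h => h
    · intro i j hij
      rw [Set.disjoint_left]
      intro y hy hy'
      have hij' : (i : ℝ) + 1 ≤ j := by exact_mod_cast hij
      have : 1 / ((j : ℝ) + 1) ≤ 1 / ((i : ℝ) + 1 + t) :=
        one_div_le_one_div_of_le (by positivity) (by linarith)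
      linarith [hy.1, hy'.2]

theorem T_pres : MeasurePreserving T μG μG := by
  refine ⟨meas_T, ?_⟩
  have : IsProbabilityMeasure (μG.map T) := Measure.isProbabilityMeasure_map meas_T.aemeasurable
  apply Measure.ext_of_Ici
  intro t
  rw [← compl_Iio, prob_compl_eq_one_sub measurableSet_Iio, prob_compl_eq_one_sub measurableSet_Iio,
    Measure.map_apply meas_T measurableSet_Iio]
  congr 1
  rcases le_or_gt t 0 with h | h
  · have e1 : T ⁻¹' Iio t = ∅ := by
      ext y; simp only [mem_preimage, mem_Iio, mem_empty_iff_false, iff_false, not_lt]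
      exact h.trans (Int.fract_nonneg _)
    have e2 : Iio t ∩ Ioc 0 1 = ∅ := by
      ext y; simp only [mem_inter_iff, mem_Iio, mem_Ioc, mem_empty_iff_false, iff_false]
      intro h2; linarith [h2.1, h2.2.1]
    rw [e1, μG_inter (Iio t), e2]
  · rcases le_or_gt t 1 with h1 | h1
    · rw [μG_pre h h1, μG_Iio h.le h1]
    · have e1 : T ⁻¹' Iio t = univ := by
        ext y; simp only [mem_preimage, mem_Iio, mem_univ, iff_true]
        exact (Int.fract_lt_one _).trans h1
      have e2 : Iio t ∩ Ioc 0 1 = univ ∩ Ioc 0 1 := by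
        ext y; simp only [mem_inter_iff, mem_Iio, mem_Ioc, mem_univ, true_and]
        exact ⟨fun h => h.2, fun h => ⟨by linarith [h.2], h⟩⟩
      rw [e1, μG_inter (Iio t), e2, ← μG_inter]

/-- clamped distribution function -/
noncomputable def Fc (t : ℝ) : ℝ := F (max 0 (min t 1))

theorem Fc_cont : Continuous Fc := by
  unfold Fc F
  refine (Continuous.log (by fun_prop) (fun t => ?_)).div_const _
  have : 0 ≤ max 0 (min t 1) := le_max_left _ _
  linarith

theorem Fc_mem (t : ℝ) : 0 ≤ Fc t ∧ Fc t ≤ 1 := by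
  unfold Fc
  constructor
  · exact F_zero.symm.trans_le (F_mono le_rfl (le_max_left _ _))
  · exact (F_mono (le_max_left _ _) (max_le zero_le_one (min_le_right _ _))).trans_eq F_one

theorem μG_real_Iio (t : ℝ) : μG.real (Iio t) = Fc t := by
  have h0 : 0 ≤ max 0 (min t 1) := le_max_left _ _
  have h1 : max 0 (min t 1) ≤ 1 := max_le zero_le_one (min_le_right _ _)
  have e : μG (Iio t) = μG (Iio (max 0 (min t 1))) := by
    apply measure_congr
    filter_upwards [μG_ae'] with y hy
    simp only [eq_iff_iff]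
    show y < t ↔ y < max 0 (min t 1)
    rw [lt_max_iff, lt_min_iff]
    constructor
    · exact fun h => Or.inr ⟨h, hy.1.2⟩
    · rintro (h | h)
      · linarith [hy.1.1]
      · exact h.1
  rw [Measure.real, e, μG_Iio h0 h1]
  exact ENNReal.toReal_ofReal (Fc_mem t).1

theorem cnt_eq (y t : ℝ) (N : ℕ) :
    (cnt y t N : ℝ) = ∑ i ∈ Finset.range N, (T^[i] ⁻¹' Iio t).indicator (fun _ => (1 : ℝ)) y := by
  unfold cnt
  rw [Finset.card_filter]
  push_cast
  refine Finset.sum_congr rfl (fun i _ => ?_)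
  simp only [indicator, mem_preimage, mem_Iio]

theorem meas_cnt (t : ℝ) (N : ℕ) : Measurable (fun y => (cnt y t N : ℝ)) := by
  simp_rw [cnt_eq]
  exact Finset.measurable_sum _ (fun i _ =>
    measurable_const.indicator ((meas_T.iterate i) measurableSet_Iio))

theorem cnt_le (y t : ℝ) (N : ℕ) : cnt y t N ≤ N := by
  unfold cnt
  exact (Finset.card_filter_le _ _).trans (by simp)

theorem int_cnt (t : ℝ) (N : ℕ) : ∫ y, (cnt y t N : ℝ) ∂μG = N * Fc t := by
  simp_rw [cnt_eq]
  rw [integral_finsetSum]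
  · have : ∀ i ∈ Finset.range N,
        ∫ y, (T^[i] ⁻¹' Iio t).indicator (fun _ => (1 : ℝ)) y ∂μG = Fc t := by
      intro i _
      rw [integral_indicator_const _ ((meas_T.iterate i) measurableSet_Iio), smul_eq_mul, mul_one,
        ← μG_real_Iio, Measure.real, Measure.real,
        (T_pres.iterate i).measure_preimage measurableSet_Iio.nullMeasurableSet]
    rw [Finset.sum_congr rfl this]; simp
  · intro i _
    exact (integrable_const _).indicator ((meas_T.iterate i) measurableSet_Iio)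

/-- one-sided law of large numbers for independent blocks of linearly growing size -/
theorem hoeff (X : ℕ → ℝ → ℝ) (hm : ∀ b, Measurable (X b)) (hb : ∀ b y, |X b y| ≤ 2 * b)
    (h0 : ∀ b, ∫ y, X b y ∂μG = 0) {δ : ℝ} (hδ : 0 < δ) :
    ∀ᵐ ω ∂(Measure.infinitePi (fun _ : ℕ => μG)), ∀ᶠ B : ℕ in atTop,
      ∑ b ∈ Finset.range B, X b (ω b) < δ * B ^ 2 := by
  set P := Measure.infinitePi (fun _ : ℕ => μG) with hP
  have hind : iIndepFun (fun b (ω : ℕ → ℝ) => X b (ω b)) P := iIndepFun_infinitePi hm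
  have key : ∀ B : ℕ, P {ω | δ * B ^ 2 ≤ ∑ b ∈ Finset.range B, X b (ω b)} ≤
      ENNReal.ofReal (Real.exp (-(δ ^ 2 / 8)) ^ B) := by
    intro B
    rcases Nat.eq_zero_or_pos B with rfl | hB
    · simp
    have hB' : (0 : ℝ) < B := by exact_mod_cast hB
    have hsub : ∀ i < B, HasSubgaussianMGF (fun ω : ℕ → ℝ => X i (ω i))
        ((‖(2 * B : ℝ) - (-(2 * B))‖₊ / 2) ^ 2) P := by
      intro i hi
      apply hasSubgaussianMGF_of_mem_Icc_of_integral_eq_zero
      · exact ((hm i).comp (measurable_pi_apply i)).aemeasurable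
      · refine ae_of_all _ (fun ω => ?_)
        have h1 := abs_le.1 (hb i (ω i))
        have h2 : (i : ℝ) ≤ B := by exact_mod_cast hi.le
        constructor <;> linarith [h1.1, h1.2]
      · rw [← h0 i]
        have hmp := measurePreserving_eval_infinitePi (fun _ : ℕ => μG) i
        rw [← hmp.map_eq, integral_map hmp.measurable.aemeasurable
          (hm i).aestronglyMeasurable]
    have h := HasSubgaussianMGF.measure_sum_range_ge_le_of_iIndepFun hind hsub
      (by positivity : 0 ≤ δ * (B : ℝ) ^ 2)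
    rw [← ofReal_measureReal]
    apply ENNReal.ofReal_le_ofReal
    refine h.trans (le_of_eq ?_)
    rw [← Real.exp_nat_mul]
    congr 1
    have e : (((‖(2 * B : ℝ) - (-(2 * B))‖₊ / 2) ^ 2 : NNReal) : ℝ) = (2 * B) ^ 2 := by
      push_cast
      rw [Real.norm_of_nonneg (by linarith)]; ring
    rw [e]; field_simp; ring
  have hsum : ∑' B : ℕ, P {ω | δ * B ^ 2 ≤ ∑ b ∈ Finset.range B, X b (ω b)} ≠ ⊤ := by
    have hr0 : 0 ≤ Real.exp (-(δ ^ 2 / 8)) := (Real.exp_pos _).le
    have hr1 : Real.exp (-(δ ^ 2 / 8)) < 1 := Real.exp_lt_one_iff.2 (by nlinarith [sq_pos_of_pos hδ])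
    refine ne_top_of_le_ne_top ?_ (ENNReal.tsum_le_tsum key)
    rw [← ENNReal.ofReal_tsum_of_nonneg (fun _ => by positivity)
      (summable_geometric_of_lt_one hr0 hr1)]
    exact ENNReal.ofReal_ne_top
  filter_upwards [ae_eventually_notMem hsum] with ω hω
  filter_upwards [hω] with B hB
  simpa using hB

theorem exists_blocks : ∃ y : ℕ → ℝ, (∀ b, y b ∈ Ioo (0 : ℝ) 1 ∧ Irrational (y b)) ∧
    ∀ t : ℚ, Tendsto (fun B : ℕ => (∑ b ∈ Finset.range B,
      ((cnt (y b) t (2 * b) : ℝ) - 2 * b * Fc t)) / (B : ℝ) ^ 2) atTop (𝓝 0) := by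
  set P := Measure.infinitePi (fun _ : ℕ => μG) with hP
  have h1 : ∀ᵐ ω ∂P, ∀ b, ω b ∈ Ioo (0 : ℝ) 1 ∧ Irrational (ω b) := by
    rw [ae_all_iff]
    intro b
    exact (measurePreserving_eval_infinitePi (fun _ : ℕ => μG) b).quasiMeasurePreserving.ae μG_ae'
  let X : ℚ → ℕ → ℝ → ℝ := fun t b y => (cnt y t (2 * b) : ℝ) - 2 * b * Fc t
  have hm : ∀ t b, Measurable (X t b) := fun t b => (meas_cnt _ _).sub_const _
  have hb : ∀ t b y, |X t b y| ≤ 2 * b := by
    intro t b y
    have h2 : (cnt y t (2 * b) : ℝ) ≤ 2 * b := by exact_mod_cast cnt_le y t (2 * b)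
    have h3 : (0 : ℝ) ≤ cnt y t (2 * b) := by positivity
    have h4 := Fc_mem t
    have h5 : (0 : ℝ) ≤ b := by positivity
    rw [abs_le]; constructor <;> simp only [X] <;> nlinarith [h4.1, h4.2]
  have h0 : ∀ t b, ∫ y, X t b y ∂μG = 0 := by
    intro t b
    have hi : Integrable (fun y => (cnt y t (2 * b) : ℝ)) μG := by
      refine Integrable.of_mem_Icc 0 (2 * b) (meas_cnt _ _).aemeasurable (ae_of_all _ fun y => ?_)
      exact ⟨by positivity, by exact_mod_cast cnt_le y t (2 * b)⟩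
    simp only [X]
    rw [integral_sub hi (integrable_const _), int_cnt]; simp
  have h2 : ∀ᵐ ω ∂P, ∀ (t : ℚ) (k : ℕ), ∀ᶠ B : ℕ in atTop,
      ∑ b ∈ Finset.range B, X t b (ω b) < (1 / ((k : ℝ) + 1)) * B ^ 2 := by
    rw [ae_all_iff]; intro t; rw [ae_all_iff]; intro k
    exact hoeff (X t) (hm t) (hb t) (h0 t) (by positivity)
  have h3 : ∀ᵐ ω ∂P, ∀ (t : ℚ) (k : ℕ), ∀ᶠ B : ℕ in atTop,
      ∑ b ∈ Finset.range B, (-X t b (ω b)) < (1 / ((k : ℝ) + 1)) * B ^ 2 := by
    rw [ae_all_iff]; intro t; rw [ae_all_iff]; intro k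
    exact hoeff (fun b y => -X t b y) (fun b => (hm t b).neg) (fun b y => by rw [abs_neg]; exact hb t b y)
      (fun b => by rw [integral_neg, h0, neg_zero]) (by positivity)
  obtain ⟨ω, hω1, hω2, hω3⟩ := (h1.and (h2.and h3)).exists
  refine ⟨ω, hω1, fun t => ?_⟩
  rw [Metric.tendsto_nhds]
  intro ε hε
  obtain ⟨k, hk⟩ := exists_nat_one_div_lt hε
  filter_upwards [hω2 t k, hω3 t k, eventually_gt_atTop 0] with B a1 a2 hB
  have hB' : (0 : ℝ) < (B : ℝ) ^ 2 := by positivity
  rw [Finset.sum_neg_distrib] at a2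
  rw [Real.dist_eq, sub_zero, abs_div, abs_of_pos hB', div_lt_iff₀ hB', abs_lt]
  have : 1 / ((k : ℝ) + 1) * B ^ 2 ≤ ε * B ^ 2 := by gcongr
  constructor <;> simp only [X] at a1 a2 <;> linarith

end Pool.Agent.H55.Gauss
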