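import Pool.Agent.H55.Gauss3

set_option autoImplicit false

namespace Pool.Agent.H55.Gauss

open Filter Topology Set

/-- strong recursion for sequences -/
noncomputable def seqRec (Φ : ℕ → (ℕ → ℕ) → ℕ) (n : ℕ) : ℕ :=
  Φ n (fun i => if _h : i < n then seqRec Φ i else 1)
termination_by n

theorem seqRec_eq (Φ : ℕ → (ℕ → ℕ) → ℕ) (n : ℕ) :
    seqRec Φ n = Φ n (fun i => if i < n then seqRec Φ i else 1) := by
  rw [seqRec]; rfl

/-- indicator sums -/
noncomputable def ind (u t : ℝ) : ℝ := if u < t then 1 else 0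

theorem ind_mem (u t : ℝ) : 0 ≤ ind u t ∧ ind u t ≤ 1 := by
  unfold ind; split_ifs <;> simp

theorem cnt_ind (y t : ℝ) (N : ℕ) : (cnt y t N : ℝ) = ∑ i ∈ Finset.range N, ind (T^[i] y) t := by
  unfold cnt ind
  rw [Finset.card_filter]; push_cast; rfl

theorem sum_sq_blocks (f : ℕ → ℝ) (B : ℕ) : ∑ n ∈ Finset.range (B * B), f n =
    ∑ b ∈ Finset.range B, (f (b * b) + ∑ i ∈ Finset.range (2 * b), f (b * b + 1 + i)) := by
  induction B with
  | zero => simp
  | succ B ih =>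
    rw [Finset.sum_range_succ, ← ih, show (B + 1) * (B + 1) = B * B + (2 * B + 1) by ring,
      Finset.sum_range_add, Finset.sum_range_succ']
    have : ∑ i ∈ Finset.range (2 * B), f (B * B + (i + 1)) =
        ∑ i ∈ Finset.range (2 * B), f (B * B + 1 + i) :=
      Finset.sum_congr rfl (fun i _ => by rw [show B * B + (i + 1) = B * B + 1 + i by ring])
    rw [this, add_zero]
    ring

theorem sum_cmp (u v : ℕ → ℝ) (L m : ℕ) (hu : ∀ i, u i ≤ 1) (hv : ∀ i, 0 ≤ v i)
    (h : ∀ i, i + m ≤ L → u i ≤ v i) :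
    ∑ i ∈ Finset.range L, u i ≤ ∑ i ∈ Finset.range L, v i + m := by
  have h1 : ∀ i ∈ Finset.range L, u i ≤ v i + (if L - m ≤ i then (1 : ℝ) else 0) := by
    intro i _
    split_ifs with hi
    · linarith [hu i, hv i]
    · rw [add_zero]; exact h i (by omega)
  refine (Finset.sum_le_sum h1).trans ?_
  rw [Finset.sum_add_distrib, Finset.sum_boole]
  have : ((Finset.range L).filter (fun i => L - m ≤ i)).card ≤ m := by
    have : (Finset.range L).filter (fun i => L - m ≤ i) = Finset.Ico (L - m) L := by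
      ext i; simp only [Finset.mem_filter, Finset.mem_range, Finset.mem_Ico]; omega
    rw [this, Nat.card_Ico]; omega
  have : (((Finset.range L).filter (fun i => L - m ≤ i)).card : ℝ) ≤ m := by exact_mod_cast this
  linarith

theorem sum_two_mul (B : ℕ) : ∑ b ∈ Finset.range B, (2 * b : ℝ) = B * (B - 1) := by
  induction B with
  | zero => simp
  | succ B ih => rw [Finset.sum_range_succ, ih]; push_cast; ring

theorem tend_sqrt : Tendsto Nat.sqrt atTop atTop := by
  rw [tendsto_atTop_atTop]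
  exact fun b => ⟨b * b, fun n hn => Nat.le_sqrt.2 hn⟩

theorem normal_of_blocks {y : ℕ → ℝ} (hy : ∀ b, y b ∈ Ioo (0 : ℝ) 1 ∧ Irrational (y b))
    (hlim : ∀ t : ℚ, Tendsto (fun B : ℕ => (∑ b ∈ Finset.range B,
      ((cnt (y b) t (2 * b) : ℝ) - 2 * b * Fc t)) / (B : ℝ) ^ 2) atTop (𝓝 0))
    {a : ℕ → ℕ} (hab : ∀ b i, i < 2 * b → a (b * b + 1 + i) = dg (T^[i] (y b)))
    {x : ℕ → ℝ} (h1 : ∀ n, x n ∈ Ioo (0 : ℝ) 1) (h2 : ∀ n, x n = 1 / ((a n : ℝ) + x (n + 1)))
    (t : ℝ) : Tendsto (fun N : ℕ => (cnt (x 0) t N : ℝ) / N) atTop (𝓝 (Fc t)) := by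
  have hclose : ∀ b i m, i + m ≤ 2 * b →
      |x (b * b + 1 + i) - T^[i] (y b)| ≤ 4 * (4 / 9 : ℝ) ^ m := by
    intro b i m him
    let c : ℕ → ℕ := fun k => dg (T^[i + k] (y b))
    have hst := fun k => T_step (T_iter_mem (hy b).1 (hy b).2 k).1 (T_iter_mem (hy b).1 (hy b).2 k).2
    have hc : ∀ k, 1 ≤ c k := fun k => (hst (i + k)).2.2.1
    have e1 := H_chain c (fun k => x (b * b + 1 + i + k)) m (fun k hk => by
      have := h2 (b * b + 1 + (i + k))
      rw [hab b (i + k) (by omega)] at this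
      simpa [add_assoc] using this)
    have e2 := H_chain c (fun k => T^[i + k] (y b)) m (fun k _ => by
      have := (hst (i + k)).2.2.2
      rw [← add_assoc, Function.iterate_succ_apply']
      exact this)
    simp only [add_zero] at e1 e2
    rw [e1, e2]
    exact H_close c hc m (h1 _) (T_iter_mem (hy b).1 (hy b).2 _).1
  have hcx : ∀ N, (cnt (x 0) t N : ℝ) = ∑ n ∈ Finset.range N, ind (x n) t := by
    intro N; rw [cnt_ind]; simp only [orbit_iter h1 h2]
  have hsmall : ∀ δ : ℝ, 0 < δ → ∃ m : ℕ, 4 * (4 / 9 : ℝ) ^ m ≤ δ := by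
    intro δ hδ
    obtain ⟨m, hm⟩ := exists_pow_lt_of_lt_one (show 0 < δ / 4 by positivity)
      (show (4 / 9 : ℝ) < 1 by norm_num)
    exact ⟨m, by linarith⟩
  have hinv : Tendsto (fun B : ℕ => 1 / (B : ℝ)) atTop (𝓝 0) := tendsto_one_div_atTop_nhds_zero_nat
  rw [tendsto_order]
  constructor
  · intro c hc
    obtain ⟨t', ht1, ht2⟩ : ∃ t' : ℚ, (t' : ℝ) < t ∧ c < Fc t' := by
      have h3 : ∀ᶠ s in 𝓝 t, c < Fc s := Fc_cont.continuousAt.eventually (lt_mem_nhds hc)
      obtain ⟨l, u, h4, h5⟩ := mem_nhds_iff_exists_Ioo_subset.1 h3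
      obtain ⟨q, h6, h7⟩ := exists_rat_btwn h4.1
      exact ⟨q, h7, h5 ⟨h6, h7.trans h4.2⟩⟩
    obtain ⟨m, hm⟩ := hsmall ((t - t') / 2) (by linarith)
    have hlow : ∀ B : ℕ, (B : ℝ) * (B - 1) * Fc t' + (∑ b ∈ Finset.range B,
        ((cnt (y b) t' (2 * b) : ℝ) - 2 * b * Fc t')) - m * B ≤ cnt (x 0) t (B * B) := by
      intro B
      rw [hcx, sum_sq_blocks, ← sum_two_mul, Finset.sum_mul, ← Finset.sum_add_distrib]
      have : (m : ℝ) * B = ∑ _b ∈ Finset.range B, (m : ℝ) := by simp [mul_comm]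
      rw [this, ← Finset.sum_sub_distrib]
      apply Finset.sum_le_sum
      intro b _
      have h3 := sum_cmp (fun i => ind (T^[i] (y b)) t') (fun i => ind (x (b * b + 1 + i)) t) (2 * b) m
        (fun i => (ind_mem _ _).2) (fun i => (ind_mem _ _).1) (fun i hi => by
          have h4 := abs_le.1 ((hclose b i m hi).trans hm)
          unfold ind
          split_ifs with c1 c2
          · exact le_rfl
          · exact absurd (by linarith [h4.2]) c2
          · exact zero_le_one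
          · exact le_rfl)
      rw [cnt_ind]
      linarith [(ind_mem (x (b * b)) t).1]
    have hL : Tendsto (fun B : ℕ => ((1 - 1 / (B : ℝ)) * Fc t' + (∑ b ∈ Finset.range B,
        ((cnt (y b) t' (2 * b) : ℝ) - 2 * b * Fc t')) / (B : ℝ) ^ 2 - m * (1 / (B : ℝ))) /
        (1 + 1 / (B : ℝ)) ^ 2) atTop (𝓝 (((1 - 0) * Fc t' + 0 - m * 0) / (1 + 0) ^ 2)) :=
      ((((hinv.const_sub 1).mul_const _).add (hlim t')).sub (hinv.const_mul _)).div
        ((hinv.const_add 1).pow 2) (by norm_num)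
    have hL' := (hL.comp tend_sqrt).eventually (lt_mem_nhds (show c < _ by simpa using ht2))
    filter_upwards [hL', eventually_ge_atTop 1] with N hN hN1
    simp only [Function.comp] at hN
    set B := Nat.sqrt N with hB
    have hB1 : 1 ≤ B := Nat.le_sqrt.2 (by omega)
    have hB0 : (0 : ℝ) < B := by exact_mod_cast hB1
    have hN0 : (0 : ℝ) < N := by exact_mod_cast hN1
    have hNB : (N : ℝ) ≤ (B + 1) ^ 2 := by
      have := (Nat.lt_succ_sqrt N).le
      have h' : ((N : ℕ) : ℝ) ≤ ((B + 1) * (B + 1) : ℕ) := by exact_mod_cast this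
      push_cast at h'; nlinarith
    have hmono : (cnt (x 0) t (B * B) : ℝ) ≤ cnt (x 0) t N := by
      rw [hcx, hcx]
      exact Finset.sum_le_sum_of_subset_of_nonneg (Finset.range_subset_range.2 (Nat.sqrt_le N))
        (fun i _ _ => (ind_mem _ _).1)
    refine hN.trans_le ?_
    have h3 := hlow B
    set S := ∑ b ∈ Finset.range B, ((cnt (y b) t' (2 * b) : ℝ) - 2 * b * Fc t') with hS
    have e : ((1 - 1 / (B : ℝ)) * Fc t' + S / (B : ℝ) ^ 2 - m * (1 / (B : ℝ))) / (1 + 1 / (B : ℝ)) ^ 2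
        = ((B : ℝ) * (B - 1) * Fc t' + S - m * B) / (B + 1) ^ 2 := by
      field_simp
    rw [e]
    calc _ ≤ (cnt (x 0) t N : ℝ) / (B + 1) ^ 2 := by gcongr; linarith
      _ ≤ _ := by gcongr
  · intro c hc
    obtain ⟨t', ht1, ht2⟩ : ∃ t' : ℚ, t < (t' : ℝ) ∧ Fc t' < c := by
      have h3 : ∀ᶠ s in 𝓝 t, Fc s < c := Fc_cont.continuousAt.eventually (gt_mem_nhds hc)
      obtain ⟨l, u, h4, h5⟩ := mem_nhds_iff_exists_Ioo_subset.1 h3
      obtain ⟨q, h6, h7⟩ := exists_rat_btwn h4.2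
      exact ⟨q, h6, h5 ⟨h4.1.trans h6, h7⟩⟩
    obtain ⟨m, hm⟩ := hsmall ((t' - t) / 2) (by linarith)
    have hup : ∀ B : ℕ, (cnt (x 0) t (B * B) : ℝ) ≤ (B : ℝ) * (B - 1) * Fc t' + (∑ b ∈ Finset.range B,
        ((cnt (y b) t' (2 * b) : ℝ) - 2 * b * Fc t')) + (m + 1) * B := by
      intro B
      rw [hcx, sum_sq_blocks, ← sum_two_mul, Finset.sum_mul, ← Finset.sum_add_distrib]
      have : ((m : ℝ) + 1) * B = ∑ _b ∈ Finset.range B, ((m : ℝ) + 1) := by
        rw [Finset.sum_const, Finset.card_range, nsmul_eq_mul, mul_comm]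
      rw [this, ← Finset.sum_add_distrib]
      apply Finset.sum_le_sum
      intro b _
      have h3 := sum_cmp (fun i => ind (x (b * b + 1 + i)) t) (fun i => ind (T^[i] (y b)) t') (2 * b) m
        (fun i => (ind_mem _ _).2) (fun i => (ind_mem _ _).1) (fun i hi => by
          have h4 := abs_le.1 ((hclose b i m hi).trans hm)
          unfold ind
          split_ifs with c1 c2
          · exact le_rfl
          · exact absurd (by linarith [h4.1]) c2
          · exact zero_le_one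
          · exact le_rfl)
      rw [cnt_ind]
      linarith [(ind_mem (x (b * b)) t).2]
    have hL : Tendsto (fun B : ℕ => (1 - 1 / (B : ℝ)) * Fc t' + (∑ b ∈ Finset.range B,
        ((cnt (y b) t' (2 * b) : ℝ) - 2 * b * Fc t')) / (B : ℝ) ^ 2 + (m + 4) * (1 / (B : ℝ)))
        atTop (𝓝 ((1 - 0) * Fc t' + 0 + (m + 4) * 0)) :=
      (((hinv.const_sub 1).mul_const _).add (hlim t')).add (hinv.const_mul _)
    have hL' := (hL.comp tend_sqrt).eventually (gt_mem_nhds (show _ < c by simpa using ht2))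
    filter_upwards [hL', eventually_ge_atTop 1] with N hN hN1
    simp only [Function.comp] at hN
    set B := Nat.sqrt N with hB
    have hB1 : 1 ≤ B := Nat.le_sqrt.2 (by omega)
    have hB0 : (0 : ℝ) < B := by exact_mod_cast hB1
    have hB1' : (1 : ℝ) ≤ B := by exact_mod_cast hB1
    have hNB : (B : ℝ) ^ 2 ≤ N := by
      have h' : ((B * B : ℕ) : ℝ) ≤ N := by exact_mod_cast Nat.sqrt_le N
      push_cast at h'; nlinarith
    have hmono : (cnt (x 0) t N : ℝ) ≤ cnt (x 0) t (B * B) + 3 * B := by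
      obtain ⟨j, hj⟩ := Nat.exists_eq_add_of_le (Nat.sqrt_le N)
      have hj2 : j ≤ 3 * B := by
        have := Nat.lt_succ_sqrt N
        rw [← hB] at hj this
        have e : (B + 1) * (B + 1) = B * B + 2 * B + 1 := by ring
        simp only [Nat.succ_eq_add_one] at this
        omega
      rw [hcx, hcx]
      rw [← hB] at hj
      conv_lhs => rw [hj, Finset.sum_range_add]
      have : ∑ i ∈ Finset.range j, ind (x (B * B + i)) t ≤ ∑ _i ∈ Finset.range j, (1 : ℝ) :=
        Finset.sum_le_sum (fun i _ => (ind_mem _ _).2)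
      have h' : (j : ℝ) ≤ 3 * B := by exact_mod_cast hj2
      simp only [Finset.sum_const, Finset.card_range, nsmul_eq_mul, mul_one] at this
      linarith
    refine lt_of_le_of_lt ?_ hN
    have h3 := hup B
    set S := ∑ b ∈ Finset.range B, ((cnt (y b) t' (2 * b) : ℝ) - 2 * b * Fc t') with hS
    have e : (1 - 1 / (B : ℝ)) * Fc t' + S / (B : ℝ) ^ 2 + (m + 4) * (1 / (B : ℝ))
        = ((B : ℝ) * (B - 1) * Fc t' + S + (m + 4) * B) / (B : ℝ) ^ 2 := by
      field_simp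
    rw [e]
    calc _ ≤ (cnt (x 0) t N : ℝ) / (B : ℝ) ^ 2 := by gcongr
      _ ≤ _ := by gcongr; linarith

/-- Main theorem: if `q > 0` and `q ρ + r` is irrational for every rational `ρ ≥ 0`, then some
Gauss-normal `x` has `q x + r` not Gauss-normal. -/
theorem main {q r : ℝ} (hq : 0 < q) (hirr : ∀ β κ : ℕ, 1 ≤ κ → Irrational (q * (β / κ) + r)) :
    ∃ x : ℝ, x ∈ Ioo (0 : ℝ) 1 ∧ Irrational x ∧
      (∀ t, Tendsto (fun N : ℕ => (cnt x t N : ℝ) / N) atTop (𝓝 (Fc t))) ∧
      ∀ n : ℕ, ∃ N, n ≤ N ∧ 6 * cnt (Int.fract (q * x + r)) 0.55 N + N ≤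
        6 * cnt (Int.fract (q * x + r)) 0.7 N := by
  classical
  obtain ⟨y, hy, hlim⟩ := exists_blocks
  have hst : ∀ (n : ℕ) (p : ℕ → ℕ), ∃ A : ℕ, 1 ≤ A ∧ ((∀ i, 1 ≤ p i) → ∃ N : ℕ, n ≤ N ∧
      ∀ z : ℝ, 0 < z → z < 1 →
      6 * cnt (Int.fract (q * H p n (1 / ((A : ℝ) + z)) + r)) 0.55 N + N ≤
        6 * cnt (Int.fract (q * H p n (1 / ((A : ℝ) + z)) + r)) 0.7 N) := by
    intro n p
    by_cases hp : ∀ i, 1 ≤ p i
    · obtain ⟨α, β, γ, κ, k1, -, -, k4, -⟩ := H_mat p hp n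
      have : Irrational (q * H p n 0 + r) := by
        rw [k1 0 le_rfl]; simpa using hirr β κ k4
      obtain ⟨A, hA, hA2⟩ := steer p hp n hq this
      exact ⟨A, hA, fun _ => hA2⟩
    · exact ⟨1, le_rfl, fun h => absurd h hp⟩
  choose S hS1 hS2 using hst
  let Φ : ℕ → (ℕ → ℕ) → ℕ := fun n p =>
    if n = n.sqrt * n.sqrt then S n p else dg (T^[n - n.sqrt * n.sqrt - 1] (y n.sqrt))
  let a : ℕ → ℕ := seqRec Φ
  have ha_eq : ∀ n, a n = Φ n (fun i => if i < n then a i else 1) := seqRec_eq Φ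
  have ha : ∀ n, 1 ≤ a n := by
    intro n
    rw [ha_eq]
    simp only [Φ]
    split_ifs
    · exact hS1 _ _
    · exact (T_step (T_iter_mem (hy _).1 (hy _).2 _).1 (T_iter_mem (hy _).1 (hy _).2 _).2).2.2.1
  have hab : ∀ b i, i < 2 * b → a (b * b + 1 + i) = dg (T^[i] (y b)) := by
    intro b i hi
    have hs : (b * b + 1 + i).sqrt = b := by
      rw [add_assoc]; exact Nat.sqrt_add_eq b (by omega)
    rw [ha_eq]
    simp only [Φ, hs]
    rw [if_neg (by omega), show b * b + 1 + i - b * b - 1 = i by omega]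
  obtain ⟨x, h1, h2⟩ := exists_orbit a ha
  refine ⟨x 0, h1 0, orbit_irr h1 h2, normal_of_blocks hy hlim hab h1 h2, fun n => ?_⟩
  set p : ℕ → ℕ := fun i => if i < n * n then a i else 1 with hp
  have hp1 : ∀ i, 1 ≤ p i := fun i => by
    simp only [hp]; split_ifs
    · exact ha i
    · exact le_rfl
  have hA : a (n * n) = S (n * n) p := by
    rw [ha_eq]; simp only [Φ, Nat.sqrt_eq, if_true, hp]
  obtain ⟨N, hN1, hN2⟩ := hS2 (n * n) p hp1
  have hx : x 0 = H p (n * n) (1 / ((S (n * n) p : ℝ) + x (n * n + 1))) := by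
    rw [← hA, ← h2, H_chain a x (n * n) (fun k _ => h2 k)]
    exact H_congr _ (fun i hi => by simp only [hp, if_pos hi]) _
  refine ⟨N, le_trans (Nat.le_mul_self n) hN1, ?_⟩
  rw [hx]
  exact hN2 _ (h1 _).1 (h1 _).2

end Pool.Agent.H55.Gauss
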