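import Mathlib

set_option autoImplicit false

open Set

namespace Pool.Agent.H55.HFP

variable {X : Type*} [NormedAddCommGroup X] [NormedSpace ℝ X]

lemma exists_norming (F : Submodule ℝ X) :
    ∃ T : Finset (X →L[ℝ] ℝ), FiniteDimensional ℝ F →
      ∀ p ∈ F, ∀ q : X, (∀ g ∈ T, g q = 0) → ‖p‖ ≤ 2 * ‖p + q‖ := by
  classical
  by_cases hF : FiniteDimensional ℝ F
  swap
  · exact ⟨∅, fun h => absurd h hF⟩
  have : ProperSpace F := FiniteDimensional.proper_real F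
  have hcomp : IsCompact (Metric.sphere (0 : F) 1) := isCompact_sphere 0 1
  obtain ⟨T, hT, hTfin, hcov⟩ := finite_cover_balls_of_compact hcomp (by norm_num : (0:ℝ) < 1 / 2)
  choose g hg1 hg2 using fun x : X => exists_dual_vector'' ℝ x
  refine ⟨hTfin.toFinset.image fun w : F => g (w : X), fun _ p hp q hq => ?_⟩
  by_cases hp0 : p = 0
  · subst hp0; simp
  have hn : 0 < ‖p‖ := norm_pos_iff.mpr hp0
  have hmem : (⟨‖p‖⁻¹ • p, F.smul_mem _ hp⟩ : F) ∈ Metric.sphere (0 : F) 1 := by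
    simp [norm_smul, hn.ne']
  have := hcov hmem
  simp only [Set.mem_iUnion] at this
  obtain ⟨w, hw, hvw⟩ := this
  have hw1 : ‖((w : F) : X)‖ = 1 := by simpa using hT hw
  have hd : ‖‖p‖⁻¹ • p - (w : X)‖ < 1 / 2 := by
    have := Metric.mem_ball.mp hvw
    rw [dist_eq_norm] at this
    exact this
  have hgq : g (w : X) q = 0 := hq _ (Finset.mem_image.2 ⟨w, by simpa using hw, rfl⟩)
  have e1 : g (w : X) (‖p‖⁻¹ • p - w) = ‖p‖⁻¹ * g (w : X) (p + q) - 1 := by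
    rw [map_sub, map_add, map_smul, hgq, hg2, hw1]; simp
  have e2 : |g (w : X) (p + q)| ≤ ‖p + q‖ := by
    refine ((g (w : X)).le_opNorm _).trans ?_
    exact mul_le_of_le_one_left (norm_nonneg _) (hg1 _)
  have e3 : |g (w : X) (‖p‖⁻¹ • p - w)| ≤ ‖‖p‖⁻¹ • p - (w : X)‖ := by
    refine ((g (w : X)).le_opNorm _).trans ?_
    exact mul_le_of_le_one_left (norm_nonneg _) (hg1 _)
  rw [e1] at e3
  have e4 : 1 / 2 ≤ ‖p‖⁻¹ * g (w : X) (p + q) := by
    have := (abs_le.1 e3).1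
    linarith
  have e5 : ‖p‖⁻¹ * g (w : X) (p + q) ≤ ‖p‖⁻¹ * ‖p + q‖ :=
    mul_le_mul_of_nonneg_left ((le_abs_self _).trans e2) (by positivity)
  have e6 : 1 / 2 ≤ ‖p + q‖ / ‖p‖ := by
    rw [div_eq_inv_mul ‖p + q‖]; linarith
  rw [le_div_iff₀ hn] at e6
  linarith

lemma exists_unit_ker (hX : ¬ FiniteDimensional ℝ X) (T : Finset (X →L[ℝ] ℝ)) :
    ∃ z : X, ‖z‖ = 1 ∧ ∀ g ∈ T, g z = 0 := by
  let L : X →ₗ[ℝ] (T → ℝ) := LinearMap.pi (fun w : T => ((w : X →L[ℝ] ℝ) : X →ₗ[ℝ] ℝ))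
  have hL : ¬ Function.Injective L := fun hinj => hX (FiniteDimensional.of_injective L hinj)
  rw [← LinearMap.ker_eq_bot, Submodule.eq_bot_iff] at hL
  push Not at hL
  obtain ⟨z, hz, hz0⟩ := hL
  have hn : 0 < ‖z‖ := norm_pos_iff.mpr hz0
  refine ⟨‖z‖⁻¹ • z, by simp [norm_smul, hn.ne'], fun g hg => ?_⟩
  have := congrFun (LinearMap.mem_ker.mp hz) ⟨g, hg⟩
  simp only [L, LinearMap.pi_apply, Pi.zero_apply, ContinuousLinearMap.coe_coe] at this
  simp [this]

lemma exists_basic (hX : ¬ FiniteDimensional ℝ X) :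
    ∃ v : ℕ → X, (∀ i, ‖v i‖ = 1) ∧ ∀ m, ∀ p ∈ Submodule.span ℝ (v '' Iio m),
      ∀ q ∈ Submodule.span ℝ (v '' Ici m), ‖p‖ ≤ 2 * ‖p + q‖ := by
  classical
  choose N hN using fun F : Submodule ℝ X => exists_norming F
  choose Z hZ1 hZ2 using fun T : Finset (X →L[ℝ] ℝ) => exists_unit_ker hX T
  let st : (n : ℕ) → ((i : ℕ) → i < n → X) → X := fun n w =>
    Z ((Finset.range (n + 1)).biUnion fun m =>
      N (Submodule.span ℝ ((fun i => if h : i < n then w i h else 0) '' Iio m)))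
  let v : ℕ → X := fun n => Nat.strongRec (motive := fun _ => X) st n
  have hv : ∀ n, v n = st n fun i _ => v i := fun n => Nat.strongRec_eq _ _
  refine ⟨v, fun i => by rw [hv]; exact hZ1 _, fun m p hp q hq => ?_⟩
  have hfd : FiniteDimensional ℝ (Submodule.span ℝ (v '' Iio m)) :=
    FiniteDimensional.span_of_finite ℝ ((finite_Iio m).image v)
  refine hN _ hfd p hp q fun g hg => ?_
  have : Submodule.span ℝ (v '' Ici m) ≤ LinearMap.ker (g : X →ₗ[ℝ] ℝ) := by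
    rw [Submodule.span_le]
    rintro _ ⟨n, hn, rfl⟩
    have hn' : m ≤ n := hn
    have e : (fun i => if h : i < n then v i else 0) '' Iio m = v '' Iio m := by
      apply image_congr
      intro i hi
      have : i < n := lt_of_lt_of_le hi hn'
      simp [this]
    have : g (v n) = 0 := by
      rw [hv]
      apply hZ2
      refine Finset.mem_biUnion.2 ⟨m, Finset.mem_range.2 (by omega), ?_⟩
      rw [e]; exact hg
    exact this
  exact this hq

lemma exists_functional (H : Submodule ℝ X) (x : X) (hx : ∀ h ∈ H, 1 ≤ 4 * ‖x - h‖) :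
    ∃ g : X →L[ℝ] ℝ, (∀ y, |g y| ≤ 4 * ‖y‖) ∧ g x = 1 ∧ ∀ h ∈ H, g h = 0 := by
  obtain ⟨g, hg1, hg2⟩ := exists_dual_vector'' ℝ (Submodule.Quotient.mk x : X ⧸ H)
  set c := ‖(Submodule.Quotient.mk x : X ⧸ H)‖ with hc
  have hc4 : 1 / 4 ≤ c := by
    by_contra hlt
    push Not at hlt
    obtain ⟨m, hm, hm2⟩ := Submodule.Quotient.norm_mk_lt (Submodule.Quotient.mk x : X ⧸ H)
      (by linarith : 0 < 1 / 4 - c)
    have h1 : x - m ∈ H := (Submodule.Quotient.eq H).1 hm.symm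
    have := hx _ h1
    simp only [sub_sub_cancel] at this
    linarith
  have hc0 : 0 < c := by linarith
  refine ⟨c⁻¹ • (g.comp H.mkQL), fun y => ?_, ?_, fun h hh => ?_⟩
  · have e1 : |g (Submodule.Quotient.mk y)| ≤ ‖y‖ := by
      refine (g.le_opNorm _).trans ?_
      exact (mul_le_of_le_one_left (norm_nonneg _) hg1).trans (Submodule.Quotient.norm_mk_le H y)
    have e2 : c⁻¹ ≤ 4 := by
      rw [inv_le_comm₀ hc0 (by norm_num)]; linarith
    show |c⁻¹ * g (Submodule.Quotient.mk y)| ≤ _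
    rw [abs_mul, abs_of_pos (inv_pos.2 hc0)]
    exact mul_le_mul e2 e1 (abs_nonneg _) (by norm_num)
  · show c⁻¹ * g (Submodule.Quotient.mk x) = 1
    rw [hg2]
    exact inv_mul_cancel₀ hc0.ne'
  · show c⁻¹ * g (Submodule.Quotient.mk h) = 0
    rw [(Submodule.Quotient.mk_eq_zero H).2 hh]
    simp

theorem exists_system (hX : ¬ FiniteDimensional ℝ X) :
    ∃ (v : ℕ → X) (φ : ℕ → X →L[ℝ] ℝ), (∀ i, ‖v i‖ = 1) ∧ (∀ i y, |φ i y| ≤ 4 * ‖y‖) ∧
      (∀ i j, φ i (v j) = if i = j then 1 else 0) ∧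
      ∀ m, ∀ p ∈ Submodule.span ℝ (v '' Iio m),
        ∀ q ∈ Submodule.span ℝ (v '' Ici m), ‖p‖ ≤ 2 * ‖p + q‖ := by
  obtain ⟨v, hv1, hv2⟩ := exists_basic hX
  have key : ∀ i, ∀ h ∈ Submodule.span ℝ (v '' Iio i) ⊔ Submodule.span ℝ (v '' Ici (i + 1)),
      1 ≤ 4 * ‖v i - h‖ := by
    intro i h hh
    obtain ⟨p, hp, q, hq, rfl⟩ := Submodule.mem_sup.1 hh
    have h1 : q - v i ∈ Submodule.span ℝ (v '' Ici i) := by
      refine Submodule.sub_mem _ (Submodule.span_mono (image_mono ?_) hq)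
        (Submodule.subset_span ⟨i, le_refl i, rfl⟩)
      intro j hj
      exact le_trans (Nat.le_succ i) hj
    have h2 : p - v i ∈ Submodule.span ℝ (v '' Iio (i + 1)) := by
      refine Submodule.sub_mem _ (Submodule.span_mono (image_mono ?_) hp)
        (Submodule.subset_span ⟨i, Nat.lt_succ_self i, rfl⟩)
      intro j hj
      exact lt_trans hj (Nat.lt_succ_self i)
    have h3 := hv2 i p hp _ h1
    have h4 := hv2 (i + 1) _ h2 q hq
    have e1 : ‖p + (q - v i)‖ = ‖v i - (p + q)‖ := by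
      rw [← norm_neg]; congr 1; abel
    have e2 : ‖p - v i + q‖ = ‖v i - (p + q)‖ := by
      rw [← norm_neg]; congr 1; abel
    have e3 : ‖v i‖ ≤ ‖p‖ + ‖p - v i‖ := by
      have := norm_sub_le p (p - v i)
      simpa using this
    rw [hv1] at e3
    linarith
  choose φ h1 h2 h3 using fun i => exists_functional _ (v i) (key i)
  refine ⟨v, φ, hv1, h1, fun i j => ?_, hv2⟩
  split_ifs with hij
  · subst hij; exact h2 i
  · apply h3
    rcases lt_or_gt_of_ne hij with h | h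
    · exact Submodule.mem_sup_right (Submodule.subset_span ⟨j, h, rfl⟩)
    · exact Submodule.mem_sup_left (Submodule.subset_span ⟨j, h, rfl⟩)

/-- normalisation -/
noncomputable def nz (v : X) : X := ‖v‖⁻¹ • v

lemma norm_nz {v : X} (h : v ≠ 0) : ‖nz v‖ = 1 := by
  simp [nz, norm_smul, norm_ne_zero_iff.2 h]

lemma norm_nz_le (v : X) : ‖nz v‖ ≤ 1 := by
  by_cases h : v = 0
  · simp [nz, h]
  · exact (norm_nz h).le

lemma nz_of_norm_one {v : X} (h : ‖v‖ = 1) : nz v = v := by simp [nz, h]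

lemma nz_smul {c : ℝ} (hc : 0 < c) (v : X) : nz (c • v) = nz v := by
  by_cases h : v = 0
  · simp [h]
  have := norm_ne_zero_iff.2 h
  unfold nz
  rw [norm_smul, smul_smul, Real.norm_eq_abs, abs_of_pos hc]
  congr 1
  field_simp

lemma div_lip {v w : X} {M M' : ℝ} (hM : 0 < M) (hM' : 0 < M') (hv : ‖v‖ ≤ M) :
    ‖M⁻¹ • v - M'⁻¹ • w‖ ≤ (‖v - w‖ + |M - M'|) / M' := by
  have e : M⁻¹ • v - M'⁻¹ • w = M'⁻¹ • (v - w) + ((M' - M) / (M * M')) • v := by
    rw [smul_sub]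
    have : (M' - M) / (M * M') = M⁻¹ - M'⁻¹ := by field_simp
    rw [this, sub_smul]
    abel
  rw [e]
  refine (norm_add_le _ _).trans ?_
  rw [norm_smul, norm_smul, Real.norm_eq_abs, Real.norm_eq_abs, abs_of_pos (inv_pos.2 hM'),
    abs_div, abs_of_pos (mul_pos hM hM'), abs_sub_comm M' M, add_div]
  have h1 : |M - M'| / (M * M') * ‖v‖ ≤ |M - M'| / (M * M') * M :=
    mul_le_mul_of_nonneg_left hv (by positivity)
  have h2 : |M - M'| / (M * M') * M = |M - M'| / M' := by field_simp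
  rw [div_eq_inv_mul ‖v - w‖]
  linarith

lemma nz_lip {v w : X} {c : ℝ} (hc : 0 < c) (hw : c ≤ ‖w‖) :
    ‖nz v - nz w‖ ≤ 2 * ‖v - w‖ / c := by
  have hw0 : 0 < ‖w‖ := lt_of_lt_of_le hc hw
  have h1 : ‖nz v - nz w‖ ≤ 2 * ‖v - w‖ / ‖w‖ := by
    by_cases h : v = 0
    · subst h
      have : nz (0 : X) = 0 := by simp [nz]
      rw [this, zero_sub, zero_sub, norm_neg, norm_neg, norm_nz (norm_pos_iff.1 hw0),
        le_div_iff₀ hw0]
      linarith
    · have := div_lip (v := v) (w := w) (norm_pos_iff.2 h) hw0 le_rfl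
      refine this.trans ?_
      apply div_le_div_of_nonneg_right _ hw0.le
      have := abs_norm_sub_norm_le v w
      linarith
  exact h1.trans (div_le_div_of_nonneg_left (by positivity) hc hw)

/-- clamp to `[0,1]` -/
noncomputable def cl (t : ℝ) : ℝ := max 0 (min 1 t)

lemma cl_nonneg (t : ℝ) : 0 ≤ cl t := le_max_left _ _
lemma cl_le_one (t : ℝ) : cl t ≤ 1 := max_le zero_le_one (min_le_left _ _)
lemma cl_of_le {t : ℝ} (h : t ≤ 0) : cl t = 0 := max_eq_left ((min_le_right _ _).trans h)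
lemma cl_of_ge {t : ℝ} (h : 1 ≤ t) : cl t = 1 := by
  unfold cl; rw [min_eq_left h]; simp
lemma cl_of_mem {t : ℝ} (h0 : 0 ≤ t) (h1 : t ≤ 1) : cl t = t := by
  unfold cl; rw [min_eq_right h1, max_eq_right h0]
lemma cl_mono {s t : ℝ} (h : s ≤ t) : cl s ≤ cl t := max_le_max le_rfl (min_le_min le_rfl h)
lemma cl_lip (s t : ℝ) : |cl s - cl t| ≤ |s - t| := by
  unfold cl
  refine (abs_max_sub_max_le_max _ _ _ _).trans (max_le (by simp) ?_)
  refine (abs_min_sub_min_le_max _ _ _ _).trans (max_le (by simp) le_rfl)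

end Pool.Agent.H55.HFP
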