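import Pool.Agent.H55.HFP1

set_option autoImplicit false

open Set

namespace Pool.Agent.H55.HFP

variable {X : Type*} [NormedAddCommGroup X] [NormedSpace ℝ X]

def far (n m : ℕ) : Prop := n + 2 ≤ m ∨ m + 2 ≤ n

instance (n m : ℕ) : Decidable (far n m) := by unfold far; infer_instance

noncomputable def SS (φ : ℕ → X →L[ℝ] ℝ) (n : ℕ) (x : X) : ℝ :=
  ⨆ m, if far n m then max (φ m x) 0 else 0

noncomputable def aa (φ : ℕ → X →L[ℝ] ℝ) (n : ℕ) (x : X) : ℝ := max (φ n x - SS φ n x) 0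

section
variable {φ : ℕ → X →L[ℝ] ℝ} (hφ : ∀ i y, |φ i y| ≤ 4 * ‖y‖)
include hφ

lemma SS_bdd (n : ℕ) (x : X) :
    BddAbove (range fun m => if far n m then max (φ m x) 0 else 0) := by
  refine ⟨4 * ‖x‖, ?_⟩
  rintro _ ⟨m, rfl⟩
  dsimp only
  split_ifs
  · exact max_le ((le_abs_self _).trans (hφ m x)) (by positivity)
  · positivity

lemma SS_nonneg (n : ℕ) (x : X) : 0 ≤ SS φ n x := by
  refine le_trans ?_ (le_ciSup (SS_bdd hφ n x) n)
  split_ifs
  · exact le_max_right _ _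
  · exact le_rfl

lemma le_SS {n m : ℕ} (h : far n m) (x : X) : φ m x ≤ SS φ n x := by
  refine le_trans ?_ (le_ciSup (SS_bdd hφ n x) m)
  simp only [h, if_true]
  exact le_max_left _ _

omit hφ in
lemma SS_le {n : ℕ} {x : X} {β : ℝ} (hβ : 0 ≤ β) (h : ∀ m, far n m → φ m x ≤ β) :
    SS φ n x ≤ β := by
  refine ciSup_le fun m => ?_
  split_ifs with hm
  · exact max_le (h m hm) hβ
  · exact hβ

lemma phi_lip (i : ℕ) (x y : X) : |φ i x - φ i y| ≤ 4 * ‖x - y‖ := by
  rw [← map_sub]; exact hφ i _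

lemma SS_lip (n : ℕ) (x y : X) : SS φ n x ≤ SS φ n y + 4 * ‖x - y‖ := by
  have := SS_nonneg hφ n y
  refine SS_le (by positivity) fun m hm => ?_
  have h1 := le_SS hφ hm y
  have h2 := (abs_le.1 (phi_lip hφ m x y)).2
  linarith

lemma aa_lip (n : ℕ) (x y : X) : |aa φ n x - aa φ n y| ≤ 8 * ‖x - y‖ := by
  unfold aa
  refine (abs_max_sub_max_le_max _ _ _ _).trans (max_le ?_ (by simp))
  have h1 := SS_lip hφ n x y
  have h2 := SS_lip hφ n y x
  rw [norm_sub_rev] at h2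
  have h3 := abs_le.1 (phi_lip hφ n x y)
  rw [abs_le]
  constructor <;> linarith [h3.1, h3.2]

omit hφ in
lemma aa_nonneg (n : ℕ) (x : X) : 0 ≤ aa φ n x := le_max_right _ _

lemma aa_supp (x : X) : ∃ n, ∀ m, m ≠ n → m ≠ n + 1 → aa φ m x = 0 := by
  classical
  by_cases h : ∃ n, aa φ n x ≠ 0
  · refine ⟨Nat.find h, fun m h1 h2 => ?_⟩
    by_contra hm
    have h3 : Nat.find h ≤ m := Nat.find_min' h hm
    have h4 := Nat.find_spec h
    have pos : ∀ k, aa φ k x ≠ 0 → SS φ k x < φ k x := by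
      intro k hk
      by_contra hc
      push Not at hc
      exact hk (max_eq_right (by linarith))
    have f1 : far (Nat.find h) m := Or.inl (by omega)
    have f2 : far m (Nat.find h) := Or.inr (by omega)
    have := le_SS hφ f1 x
    have := le_SS hφ f2 x
    have := pos _ hm
    have := pos _ h4
    linarith
  · push Not at h
    exact ⟨0, fun m _ _ => h m⟩

end

section
variable {Y : Type*} [NormedAddCommGroup Y] [NormedSpace ℝ Y]

noncomputable def BB (φ : ℕ → X →L[ℝ] ℝ) (w : ℕ → Y) (x : X) : Y := ∑' i, aa φ i x • w i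

variable {φ : ℕ → X →L[ℝ] ℝ}

lemma BB_eq_sum (w : ℕ → Y) {x : X} {n : ℕ} (h : ∀ m, m ≠ n → m ≠ n + 1 → aa φ m x = 0)
    (s : Finset ℕ) (h1 : n ∈ s) (h2 : n + 1 ∈ s) : BB φ w x = ∑ i ∈ s, aa φ i x • w i := by
  apply tsum_eq_sum
  intro m hm
  rw [h m (fun e => hm (e ▸ h1)) (fun e => hm (e ▸ h2)), zero_smul]

lemma BB_eq (w : ℕ → Y) {x : X} {n : ℕ} (h : ∀ m, m ≠ n → m ≠ n + 1 → aa φ m x = 0) :
    BB φ w x = aa φ n x • w n + aa φ (n + 1) x • w (n + 1) := by
  rw [BB_eq_sum w h {n, n + 1} (by simp) (by simp), Finset.sum_pair (by omega)]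

variable (hφ : ∀ i y, |φ i y| ≤ 4 * ‖y‖)
include hφ

lemma BB_lip {w : ℕ → Y} (hw : ∀ i, ‖w i‖ ≤ 1) (x y : X) :
    ‖BB φ w x - BB φ w y‖ ≤ 32 * ‖x - y‖ := by
  obtain ⟨n, hn⟩ := aa_supp hφ x
  obtain ⟨k, hk⟩ := aa_supp hφ y
  rw [BB_eq_sum w hn {n, n + 1, k, k + 1} (by simp) (by simp),
    BB_eq_sum w hk {n, n + 1, k, k + 1} (by simp) (by simp), ← Finset.sum_sub_distrib]
  refine (norm_sum_le _ _).trans ?_
  have h1 : ∀ i ∈ ({n, n + 1, k, k + 1} : Finset ℕ),
      ‖aa φ i x • w i - aa φ i y • w i‖ ≤ 8 * ‖x - y‖ := by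
    intro i _
    rw [← sub_smul, norm_smul, Real.norm_eq_abs]
    exact (mul_le_of_le_one_right (abs_nonneg _) (hw i)).trans (aa_lip hφ i x y)
  refine (Finset.sum_le_card_nsmul _ _ _ h1).trans ?_
  have h2 : ({n, n + 1, k, k + 1} : Finset ℕ).card ≤ 4 := Finset.card_le_four
  have h3 : (({n, n + 1, k, k + 1} : Finset ℕ).card : ℝ) ≤ 4 := by exact_mod_cast h2
  rw [nsmul_eq_mul]
  nlinarith [norm_nonneg (x - y)]

end

noncomputable def lam (φ : ℕ → X →L[ℝ] ℝ) (x : X) : ℝ := BB φ (fun _ => (1 : ℝ)) x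

noncomputable def UU (φ : ℕ → X →L[ℝ] ℝ) (w : ℕ → X) (x : X) : X :=
  (max (lam φ x) 1)⁻¹ • BB φ w x

noncomputable def FF (φ : ℕ → X →L[ℝ] ℝ) (v : ℕ → X) (x : X) : X :=
  (20 : ℝ) • ((1 - cl (lam φ x - 1)) • v 0
    + (cl (lam φ x - 1) - cl (lam φ x - 2)) • UU φ (fun i => v (i - 1)) x
    + (cl (lam φ x - 2) - cl (lam φ x - 3)) • UU φ v x
    + cl (lam φ x - 3) • UU φ (fun i => v (i + 1)) x)

omit [NormedSpace ℝ X] in
lemma norm_add4 (a b c d : X) : ‖a + b + c + d‖ ≤ ‖a‖ + ‖b‖ + ‖c‖ + ‖d‖ := norm_add₄_le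

lemma quad_half {p q : ℝ} (hp0 : 0 ≤ p) (hp1 : p ≤ 1) (hq0 : 0 ≤ q) (hq1 : q ≤ 1) :
    1 / 2 ≤ (1 - p) * q + p * (1 - q) + |(1 - p) * (1 - q) - p * q| := by
  rcases le_total (p + q) 1 with h | h
  · have := le_abs_self ((1 - p) * (1 - q) - p * q)
    nlinarith [sq_nonneg (p - q), mul_nonneg hp0 hq0]
  · have := neg_abs_le ((1 - p) * (1 - q) - p * q)
    nlinarith [sq_nonneg (p - q), mul_nonneg (sub_nonneg.2 hp1) (sub_nonneg.2 hq1)]

lemma smul_lip {s s' : ℝ} {p p' : X} (hs : |s'| ≤ 1) (hp : ‖p‖ ≤ 1) :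
    ‖s • p - s' • p'‖ ≤ |s - s'| + ‖p - p'‖ := by
  have e : s • p - s' • p' = (s - s') • p + s' • (p - p') := by
    rw [sub_smul, smul_sub]; abel
  rw [e]
  refine (norm_add_le _ _).trans ?_
  rw [norm_smul, norm_smul, Real.norm_eq_abs, Real.norm_eq_abs]
  exact add_le_add (mul_le_of_le_one_right (abs_nonneg _) hp)
    (mul_le_of_le_one_left (norm_nonneg _) hs)

section
variable {φ : ℕ → X →L[ℝ] ℝ}

lemma lam_eq {x : X} {n : ℕ} (h : ∀ m, m ≠ n → m ≠ n + 1 → aa φ m x = 0) :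
    lam φ x = aa φ n x + aa φ (n + 1) x := by
  unfold lam
  rw [BB_eq _ h]; simp

variable (hφ : ∀ i y, |φ i y| ≤ 4 * ‖y‖)
include hφ

lemma lam_lip (x y : X) : |lam φ x - lam φ y| ≤ 32 * ‖x - y‖ :=
  BB_lip hφ (w := fun _ => (1 : ℝ)) (fun _ => by simp) x y

lemma norm_BB_le {w : ℕ → X} (hw : ∀ i, ‖w i‖ ≤ 1) (x : X) : ‖BB φ w x‖ ≤ lam φ x := by
  obtain ⟨n, hn⟩ := aa_supp hφ x
  rw [BB_eq w hn, lam_eq hn]
  refine (norm_add_le _ _).trans ?_
  rw [norm_smul, norm_smul, Real.norm_eq_abs, Real.norm_eq_abs, abs_of_nonneg (aa_nonneg _ _),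
    abs_of_nonneg (aa_nonneg _ _)]
  exact add_le_add (mul_le_of_le_one_right (aa_nonneg _ _) (hw _))
    (mul_le_of_le_one_right (aa_nonneg _ _) (hw _))

lemma norm_UU_le {w : ℕ → X} (hw : ∀ i, ‖w i‖ ≤ 1) (x : X) : ‖UU φ w x‖ ≤ 1 := by
  unfold UU
  have h0 : 0 < max (lam φ x) 1 := lt_of_lt_of_le one_pos (le_max_right _ _)
  rw [norm_smul, Real.norm_eq_abs, abs_of_pos (inv_pos.2 h0), inv_mul_le_iff₀ h0, mul_one]
  exact (norm_BB_le hφ hw x).trans (le_max_left _ _)

lemma UU_lip {w : ℕ → X} (hw : ∀ i, ‖w i‖ ≤ 1) (x y : X) :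
    ‖UU φ w x - UU φ w y‖ ≤ 64 * ‖x - y‖ := by
  have h0 : ∀ x, 0 < max (lam φ x) 1 := fun x => lt_of_lt_of_le one_pos (le_max_right _ _)
  refine (div_lip (h0 x) (h0 y) ((norm_BB_le hφ hw x).trans (le_max_left _ _))).trans ?_
  have h1 := BB_lip hφ hw x y
  have h2 : |max (lam φ x) 1 - max (lam φ y) 1| ≤ 32 * ‖x - y‖ :=
    (abs_max_sub_max_le_max _ _ _ _).trans (max_le (lam_lip hφ x y) (by simp))
  refine (div_le_self (by positivity) (le_max_right _ _)).trans ?_
  linarith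

variable {v : ℕ → X} (hv : ∀ i, ‖v i‖ = 1)
include hv

lemma norm_FF_le (x : X) : ‖FF φ v x‖ ≤ 20 := by
  unfold FF
  have h1 := cl_le_one (lam φ x - 1)
  have h2 : cl (lam φ x - 2) ≤ cl (lam φ x - 1) := cl_mono (by linarith)
  have h3 : cl (lam φ x - 3) ≤ cl (lam φ x - 2) := cl_mono (by linarith)
  have h4 := cl_nonneg (lam φ x - 3)
  have u1 := norm_UU_le hφ (w := fun i => v (i - 1)) (fun i => (hv _).le) x
  have u2 := norm_UU_le hφ (w := v) (fun i => (hv _).le) x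
  have u3 := norm_UU_le hφ (w := fun i => v (i + 1)) (fun i => (hv _).le) x
  have key : ∀ (s : ℝ) (p : X), 0 ≤ s → ‖p‖ ≤ 1 → ‖s • p‖ ≤ s := by
    intro s p hs hp
    rw [norm_smul, Real.norm_eq_abs, abs_of_nonneg hs]
    exact mul_le_of_le_one_right hs hp
  rw [norm_smul]
  have k0 := key (1 - cl (lam φ x - 1)) (v 0) (by linarith) (hv 0).le
  have k1 := key _ _ (sub_nonneg.2 h2) u1
  have k2 := key _ _ (sub_nonneg.2 h3) u2
  have k3 := key _ _ h4 u3
  have := norm_add4 ((1 - cl (lam φ x - 1)) • v 0)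
    ((cl (lam φ x - 1) - cl (lam φ x - 2)) • UU φ (fun i => v (i - 1)) x)
    ((cl (lam φ x - 2) - cl (lam φ x - 3)) • UU φ v x)
    (cl (lam φ x - 3) • UU φ (fun i => v (i + 1)) x)
  simp only [Real.norm_ofNat]
  linarith

lemma FF_lip (x y : X) : ‖FF φ v x - FF φ v y‖ ≤ 8000 * ‖x - y‖ := by
  unfold FF
  rw [← smul_sub, norm_smul]
  have hc : ∀ k : ℝ, |cl (lam φ x - k) - cl (lam φ y - k)| ≤ 32 * ‖x - y‖ := by
    intro k
    refine (cl_lip _ _).trans ?_
    have := lam_lip hφ x y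
    rwa [show lam φ x - k - (lam φ y - k) = lam φ x - lam φ y by ring]
  have b0 : ∀ s t : ℝ, |cl s - cl t| ≤ 1 := by
    intro s t
    rw [abs_le]
    constructor <;> linarith [cl_le_one s, cl_le_one t, cl_nonneg s, cl_nonneg t]
  have c1 := abs_le.1 (hc 1)
  have c2 := abs_le.1 (hc 2)
  have c3 := abs_le.1 (hc 3)
  have k0 := smul_lip (s := 1 - cl (lam φ x - 1)) (s' := 1 - cl (lam φ y - 1)) (p := v 0)
    (p' := v 0) (by rw [abs_le]; constructor <;> linarith [cl_le_one (lam φ y - 1), cl_nonneg (lam φ y - 1)]) (hv 0).le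
  have k1 := smul_lip (s := cl (lam φ x - 1) - cl (lam φ x - 2))
    (s' := cl (lam φ y - 1) - cl (lam φ y - 2)) (p' := UU φ (fun i => v (i - 1)) y) (b0 _ _)
    (norm_UU_le hφ (w := fun i => v (i - 1)) (fun i => (hv _).le) x)
  have k2 := smul_lip (s := cl (lam φ x - 2) - cl (lam φ x - 3))
    (s' := cl (lam φ y - 2) - cl (lam φ y - 3)) (p' := UU φ v y) (b0 _ _)
    (norm_UU_le hφ (w := v) (fun i => (hv _).le) x)
  have k3 := smul_lip (s := cl (lam φ x - 3)) (s' := cl (lam φ y - 3))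
    (p' := UU φ (fun i => v (i + 1)) y)
    (by rw [abs_of_nonneg (cl_nonneg _)]; exact cl_le_one _)
    (norm_UU_le hφ (w := fun i => v (i + 1)) (fun i => (hv _).le) x)
  have u1 := UU_lip hφ (w := fun i => v (i - 1)) (fun i => (hv _).le) x y
  have u2 := UU_lip hφ (w := v) (fun i => (hv _).le) x y
  have u3 := UU_lip hφ (w := fun i => v (i + 1)) (fun i => (hv _).le) x y
  have a0 : |1 - cl (lam φ x - 1) - (1 - cl (lam φ y - 1))| ≤ 32 * ‖x - y‖ := by
    rw [abs_le]; constructor <;> linarith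
  have a1 : |cl (lam φ x - 1) - cl (lam φ x - 2) - (cl (lam φ y - 1) - cl (lam φ y - 2))|
      ≤ 64 * ‖x - y‖ := by
    rw [abs_le]; constructor <;> linarith
  have a2 : |cl (lam φ x - 2) - cl (lam φ x - 3) - (cl (lam φ y - 2) - cl (lam φ y - 3))|
      ≤ 64 * ‖x - y‖ := by
    rw [abs_le]; constructor <;> linarith
  have a3 := hc 3
  have e : ∀ p1 p2 p3 p4 q1 q2 q3 q4 : X, ‖(p1 + p2 + p3 + p4) - (q1 + q2 + q3 + q4)‖ ≤
      ‖p1 - q1‖ + ‖p2 - q2‖ + ‖p3 - q3‖ + ‖p4 - q4‖ := by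
    intro p1 p2 p3 p4 q1 q2 q3 q4
    have := norm_add4 (p1 - q1) (p2 - q2) (p3 - q3) (p4 - q4)
    convert this using 2
    abel
  have := e ((1 - cl (lam φ x - 1)) • v 0)
    ((cl (lam φ x - 1) - cl (lam φ x - 2)) • UU φ (fun i => v (i - 1)) x)
    ((cl (lam φ x - 2) - cl (lam φ x - 3)) • UU φ v x)
    (cl (lam φ x - 3) • UU φ (fun i => v (i + 1)) x)
    ((1 - cl (lam φ y - 1)) • v 0)
    ((cl (lam φ y - 1) - cl (lam φ y - 2)) • UU φ (fun i => v (i - 1)) y)
    ((cl (lam φ y - 2) - cl (lam φ y - 3)) • UU φ v y)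
    (cl (lam φ y - 3) • UU φ (fun i => v (i + 1)) y)
  simp only [sub_self, norm_zero, add_zero] at k0
  simp only [Real.norm_ofNat]
  linarith [norm_nonneg (x - y)]

omit hv in
lemma FF_disp (hbi : ∀ i j, φ i (v j) = if i = j then 1 else 0) (x : X) :
    1 / 100 ≤ ‖x - FF φ v x‖ := by
  by_contra hlt
  push Not at hlt
  have hz : ∀ i, |φ i x - φ i (FF φ v x)| ≤ 4 / 100 := fun i =>
    (phi_lip hφ i _ _).trans (by linarith)
  have hU : ∀ i, 0 ≤ φ i (FF φ v x) → aa φ i x ≤ φ i (FF φ v x) + 4 / 100 := by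
    intro i hi
    have := (abs_le.1 (hz i)).2
    exact max_le (by linarith [SS_nonneg hφ i x]) (by linarith)
  have hL : ∀ i (β : ℝ), 0 ≤ β → (∀ m, far i m → φ m (FF φ v x) ≤ β) →
      φ i (FF φ v x) - β - 8 / 100 ≤ aa φ i x := by
    intro i β hβ h
    have h1 : SS φ i x ≤ β + 4 / 100 := SS_le (by linarith) fun m hm => by
      have := (abs_le.1 (hz m)).2
      linarith [h m hm]
    have := (abs_le.1 (hz i)).1
    exact le_trans (by linarith) (le_max_left _ _)
  obtain ⟨n, hn⟩ := aa_supp hφ x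
  have hl := lam_eq hn
  have A0 := aa_nonneg (φ := φ) n x
  have A1 := aa_nonneg (φ := φ) (n + 1) x
  have hale : ∀ i, aa φ i x ≤ lam φ x := by
    intro i
    by_cases h1 : i = n
    · rw [h1]; linarith
    by_cases h2 : i = n + 1
    · rw [h2]; linarith
    rw [hn i h1 h2]; linarith
  rcases le_total (lam φ x) 1 with h1 | h1
  · have e : ∀ i, φ i (FF φ v x) = if i = 0 then 20 else 0 := by
      intro i
      unfold FF
      rw [cl_of_le (by linarith), cl_of_le (t := lam φ x - 2) (by linarith),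
        cl_of_le (t := lam φ x - 3) (by linarith)]
      simp [hbi]
    have := hL 0 0 le_rfl (fun m hm => by
      rw [e, if_neg (by unfold far at hm; omega)])
    rw [e, if_pos rfl] at this
    linarith [hale 0]
  have hl0 : 0 < lam φ x := by linarith
  set q := aa φ (n + 1) x / lam φ x with hq
  have hq0 : 0 ≤ q := div_nonneg A1 hl0.le
  have hq1 : q ≤ 1 := (div_le_one hl0).2 (hale _)
  have eA1 : aa φ (n + 1) x = lam φ x * q := by rw [hq]; field_simp
  have eA0 : aa φ n x = lam φ x * (1 - q) := by linarith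
  have eU : ∀ w : ℕ → X, UU φ w x = (1 - q) • w n + q • w (n + 1) := by
    intro w
    unfold UU
    rw [max_eq_left h1, BB_eq w hn, eA0, eA1, smul_add, smul_smul, smul_smul]
    congr 2 <;> field_simp
  have e : ∀ i, φ i (FF φ v x) = 20 * ((1 - cl (lam φ x - 1)) * (if i = 0 then 1 else 0)
      + (cl (lam φ x - 1) - cl (lam φ x - 2)) *
        ((1 - q) * (if i = n - 1 then 1 else 0) + q * (if i = n then 1 else 0))
      + (cl (lam φ x - 2) - cl (lam φ x - 3)) *
        ((1 - q) * (if i = n then 1 else 0) + q * (if i = n + 1 then 1 else 0))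
      + cl (lam φ x - 3) *
        ((1 - q) * (if i = n + 1 then 1 else 0) + q * (if i = n + 1 + 1 then 1 else 0))) := by
    intro i
    unfold FF
    simp only [eU, map_smul, map_add, hbi, smul_eq_mul, Nat.add_sub_cancel]
  rcases le_total (lam φ x) 2 with h2 | h2
  · have c2 : cl (lam φ x - 2) = 0 := cl_of_le (by linarith)
    have c3 : cl (lam φ x - 3) = 0 := cl_of_le (by linarith)
    have d0 := cl_nonneg (lam φ x - 1)
    have d1 := cl_le_one (lam φ x - 1)
    set c := cl (lam φ x - 1)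
    simp only [c2, c3, sub_zero, zero_mul, add_zero] at e
    rcases Nat.eq_zero_or_pos n with rfl | hn0
    · have := hL 0 0 le_rfl (fun m hm => by
        have : m ≠ 0 := by unfold far at hm; omega
        rw [e]
        simp [this])
      rw [e] at this
      simp only [Nat.zero_sub, if_true] at this
      linarith [hale 0]
    · have z1 : φ (n + 1) (FF φ v x) = 0 := by
        rw [e, if_neg (by omega), if_neg (by omega), if_neg (by omega)]; simp
      have z0 : φ n (FF φ v x) = 20 * (c * q) := by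
        rw [e, if_neg (by omega), if_neg (by omega), if_pos rfl]; ring
      have u1 := hU (n + 1) (by rw [z1])
      have u0 := hU n (by rw [z0]; positivity)
      rw [z1] at u1
      rw [z0] at u0
      have : q ≤ 4 / 100 := by nlinarith
      have : c * q ≤ 4 / 100 := by nlinarith
      linarith
  have c1 : cl (lam φ x - 1) = 1 := cl_of_ge (by linarith)
  rcases le_total (lam φ x) 3 with h3 | h3
  · have c3 : cl (lam φ x - 3) = 0 := cl_of_le (by linarith)
    have d0 := cl_nonneg (lam φ x - 2)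
    have d1 := cl_le_one (lam φ x - 2)
    set c := cl (lam φ x - 2)
    simp only [c1, c3, sub_zero, sub_self, zero_mul, add_zero, zero_add] at e
    rcases Nat.eq_zero_or_pos n with rfl | hn0
    · have l0 := hL 0 0 le_rfl (fun m hm => by
        rw [e, if_neg (by unfold far at hm; omega), if_neg (by unfold far at hm; omega)]
        simp)
      have l1 := hL (0 + 1) 0 le_rfl (fun m hm => by
        rw [e, if_neg (by unfold far at hm; omega), if_neg (by unfold far at hm; omega)]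
        simp)
      rw [e] at l0 l1
      norm_num at l0 l1 hl
      nlinarith
    · have zm : φ (n - 1) (FF φ v x) = 20 * ((1 - c) * (1 - q)) := by
        rw [e, if_pos rfl, if_neg (by omega), if_neg (by omega)]; ring
      have z0 : φ n (FF φ v x) = 20 * ((1 - c) * q + c * (1 - q)) := by
        rw [e, if_neg (by omega), if_pos rfl, if_neg (by omega)]; ring
      have z1 : φ (n + 1) (FF φ v x) = 20 * (c * q) := by
        rw [e, if_neg (by omega), if_neg (by omega), if_pos rfl]; ring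
      have zo : ∀ m, m ≠ n - 1 → m ≠ n → m ≠ n + 1 → φ m (FF φ v x) = 0 := by
        intro m a b c
        rw [e, if_neg a, if_neg b, if_neg c]; simp
      have p1 : 0 ≤ 20 * ((1 - c) * (1 - q)) := by
        have := mul_nonneg (sub_nonneg.2 d1) (sub_nonneg.2 hq1); linarith
      have p2 : 0 ≤ 20 * (c * q) := by positivity
      have l0 := hL n 0 le_rfl (fun m hm => by
        rw [zo m (by unfold far at hm; omega) (by unfold far at hm; omega)
          (by unfold far at hm; omega)])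
      have l1 := hL (n + 1) _ p1 (fun m hm => by
        by_cases hm1 : m = n - 1
        · rw [hm1, zm]
        · rw [zo m hm1 (by unfold far at hm; omega) (by unfold far at hm; omega)]; exact p1)
      have lm := hL (n - 1) _ p2 (fun m hm => by
        by_cases hm1 : m = n + 1
        · rw [hm1, z1]
        · rw [zo m (by unfold far at hm; omega) (by unfold far at hm; omega) hm1]; exact p2)
      rw [hn (n - 1) (by omega) (by omega), zm] at lm
      rw [z0] at l0
      rw [z1] at l1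
      have := quad_half d0 d1 hq0 hq1
      have h5 : |(1 - c) * (1 - q) - c * q| ≤ (aa φ (n + 1) x + 8 / 100) / 20 := by
        rw [abs_le]; constructor <;> linarith
      linarith
  have c2 : cl (lam φ x - 2) = 1 := cl_of_ge (by linarith)
  have d0 := cl_nonneg (lam φ x - 3)
  have d1 := cl_le_one (lam φ x - 3)
  have d2 : 4 ≤ lam φ x → cl (lam φ x - 3) = 1 := fun h => cl_of_ge (by linarith)
  set c := cl (lam φ x - 3)
  simp only [c1, c2, sub_self, zero_mul, add_zero, zero_add] at e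
  have zm : φ n (FF φ v x) = 20 * ((1 - c) * (1 - q)) := by
    rw [e, if_pos rfl, if_neg (by omega), if_neg (by omega)]; ring
  have z0 : φ (n + 1) (FF φ v x) = 20 * ((1 - c) * q + c * (1 - q)) := by
    rw [e, if_neg (by omega), if_pos rfl, if_neg (by omega)]; ring
  have z1 : φ (n + 1 + 1) (FF φ v x) = 20 * (c * q) := by
    rw [e, if_neg (by omega), if_neg (by omega), if_pos rfl]; ring
  have zo : ∀ m, m ≠ n → m ≠ n + 1 → m ≠ n + 1 + 1 → φ m (FF φ v x) = 0 := by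
    intro m a b c
    rw [e, if_neg a, if_neg b, if_neg c]; simp
  have p1 : 0 ≤ 20 * ((1 - c) * (1 - q)) := by
    have := mul_nonneg (sub_nonneg.2 d1) (sub_nonneg.2 hq1); linarith
  have p2 : 0 ≤ 20 * (c * q) := by positivity
  have l0 := hL (n + 1) 0 le_rfl (fun m hm => by
    rw [zo m (by unfold far at hm; omega) (by unfold far at hm; omega)
      (by unfold far at hm; omega)])
  have l1 := hL (n + 1 + 1) _ p1 (fun m hm => by
    by_cases hm1 : m = n
    · rw [hm1, zm]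
    · rw [zo m hm1 (by unfold far at hm; omega) (by unfold far at hm; omega)]; exact p1)
  have lm := hL n _ p2 (fun m hm => by
    by_cases hm1 : m = n + 1 + 1
    · rw [hm1, z1]
    · rw [zo m (by unfold far at hm; omega) (by unfold far at hm; omega) hm1]; exact p2)
  rw [hn (n + 1 + 1) (by omega) (by omega), z1] at l1
  rw [z0] at l0
  rw [zm] at lm
  rcases le_total (lam φ x) 4 with h4 | h4
  · have := quad_half d0 d1 hq0 hq1
    have h5 : |(1 - c) * (1 - q) - c * q| ≤ (aa φ n x + 8 / 100) / 20 := by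
      rw [abs_le]; constructor <;> linarith
    linarith
  · have u0 := hU n (by rw [zm]; exact p1)
    rw [zm] at u0
    rw [d2 h4] at u0 l1
    nlinarith

end

/-- A Lipschitz retraction of `X` onto the shell `1 ≤ ‖x‖ ≤ 2`. -/
theorem exists_shell_retraction (hX : ¬ FiniteDimensional ℝ X) :
    ∃ (Q : X → X) (L : ℝ), 0 ≤ L ∧ (∀ x y, ‖Q x - Q y‖ ≤ L * ‖x - y‖) ∧
      (∀ x, 1 ≤ ‖Q x‖ ∧ ‖Q x‖ ≤ 2) ∧ ∀ x, 1 ≤ ‖x‖ → ‖x‖ ≤ 2 → Q x = x := by
  obtain ⟨v, φ, hv, hφ, hbi, -⟩ := exists_system hX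
  let g : X → X := fun x => x - cl (22 - ‖x‖) • FF φ v x
  have g1 : ∀ x, 1 / 100 ≤ ‖g x‖ := by
    intro x
    rcases le_total ‖x‖ 21 with h | h
    · simp only [g]
      rw [cl_of_ge (by linarith), one_smul]
      exact FF_disp hφ hbi x
    · have h1 : ‖cl (22 - ‖x‖) • FF φ v x‖ ≤ 20 := by
        rw [norm_smul, Real.norm_eq_abs, abs_of_nonneg (cl_nonneg _)]
        exact (mul_le_of_le_one_left (norm_nonneg _) (cl_le_one _)).trans (norm_FF_le hφ hv x)
      have := norm_sub_norm_le x (cl (22 - ‖x‖) • FF φ v x)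
      simp only [g]
      linarith
  have g2 : ∀ x y, ‖g x - g y‖ ≤ 8021 * ‖x - y‖ := by
    intro x y
    have e : g x - g y = (x - y) - ((cl (22 - ‖x‖) - cl (22 - ‖y‖)) • FF φ v x
        + cl (22 - ‖y‖) • (FF φ v x - FF φ v y)) := by
      simp only [g, sub_smul, smul_sub]; abel
    rw [e]
    refine (norm_sub_le _ _).trans ?_
    have h1 := norm_add_le ((cl (22 - ‖x‖) - cl (22 - ‖y‖)) • FF φ v x)
      (cl (22 - ‖y‖) • (FF φ v x - FF φ v y))
    rw [norm_smul, norm_smul, Real.norm_eq_abs, Real.norm_eq_abs,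
      abs_of_nonneg (cl_nonneg _)] at h1
    have h2 : |cl (22 - ‖x‖) - cl (22 - ‖y‖)| ≤ ‖x - y‖ := by
      refine (cl_lip _ _).trans ?_
      rw [show 22 - ‖x‖ - (22 - ‖y‖) = -(‖x‖ - ‖y‖) by ring, abs_neg]
      exact abs_norm_sub_norm_le x y
    have h3 : |cl (22 - ‖x‖) - cl (22 - ‖y‖)| * ‖FF φ v x‖ ≤ ‖x - y‖ * 20 :=
      mul_le_mul h2 (norm_FF_le hφ hv x) (norm_nonneg _) (norm_nonneg _)
    have h4 : cl (22 - ‖y‖) * ‖FF φ v x - FF φ v y‖ ≤ 8000 * ‖x - y‖ :=
      (mul_le_of_le_one_left (norm_nonneg _) (cl_le_one _)).trans (FF_lip hφ hv x y)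
    linarith
  have g0 : ∀ x, g x ≠ 0 := fun x h => by
    have := g1 x
    rw [h, norm_zero] at this
    linarith
  refine ⟨fun x => (1 + cl (‖x‖ - 1)) • nz (g ((22 : ℝ) • x)), 1 + 2 * (200 * (8021 * 22)),
    by norm_num, fun x y => ?_, fun x => ?_, fun x h1 h2 => ?_⟩
  · have e : (1 + cl (‖x‖ - 1)) • nz (g ((22 : ℝ) • x)) - (1 + cl (‖y‖ - 1)) • nz (g ((22 : ℝ) • y))
        = (cl (‖x‖ - 1) - cl (‖y‖ - 1)) • nz (g ((22 : ℝ) • x)) +
          (1 + cl (‖y‖ - 1)) • (nz (g ((22 : ℝ) • x)) - nz (g ((22 : ℝ) • y))) := by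
      simp only [sub_smul, smul_sub, add_smul]; abel
    rw [e]
    refine (norm_add_le _ _).trans ?_
    rw [norm_smul, norm_smul, Real.norm_eq_abs, Real.norm_eq_abs, norm_nz (g0 _), mul_one,
      abs_of_nonneg (by linarith [cl_nonneg (‖y‖ - 1)] : 0 ≤ 1 + cl (‖y‖ - 1))]
    have h2 : |cl (‖x‖ - 1) - cl (‖y‖ - 1)| ≤ ‖x - y‖ := by
      refine (cl_lip _ _).trans ?_
      rw [show ‖x‖ - 1 - (‖y‖ - 1) = ‖x‖ - ‖y‖ by ring]
      exact abs_norm_sub_norm_le x y
    have h3 := nz_lip (v := g ((22 : ℝ) • x)) (by norm_num : (0 : ℝ) < 1 / 100) (g1 ((22 : ℝ) • y))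
    have h4 := g2 ((22 : ℝ) • x) ((22 : ℝ) • y)
    rw [← smul_sub, norm_smul, Real.norm_ofNat] at h4
    have h5 : ‖nz (g ((22 : ℝ) • x)) - nz (g ((22 : ℝ) • y))‖ ≤ 200 * (8021 * 22) * ‖x - y‖ := by
      refine h3.trans ?_
      rw [div_le_iff₀ (by norm_num)]
      linarith
    have h6 : (1 + cl (‖y‖ - 1)) * ‖nz (g ((22 : ℝ) • x)) - nz (g ((22 : ℝ) • y))‖ ≤
        2 * (200 * (8021 * 22) * ‖x - y‖) :=
      mul_le_mul (by linarith [cl_le_one (‖y‖ - 1)]) h5 (norm_nonneg _) (by norm_num)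
    linarith
  · rw [norm_smul, norm_nz (g0 _), mul_one, Real.norm_eq_abs,
      abs_of_nonneg (by linarith [cl_nonneg (‖x‖ - 1)] : 0 ≤ 1 + cl (‖x‖ - 1))]
    constructor <;> linarith [cl_nonneg (‖x‖ - 1), cl_le_one (‖x‖ - 1)]
  · have e : g ((22 : ℝ) • x) = (22 : ℝ) • x := by
      simp only [g]
      rw [cl_of_le (by rw [norm_smul, Real.norm_ofNat]; linarith), zero_smul, sub_zero]
    simp only
    rw [e, nz_smul (by norm_num), cl_of_mem (by linarith) (by linarith), nz, smul_smul]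
    have : (1 + (‖x‖ - 1)) * ‖x‖⁻¹ = 1 := by
      have : ‖x‖ ≠ 0 := by linarith
      field_simp; ring
    rw [this, one_smul]

end Pool.Agent.H55.HFP
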