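import Pool.Agent.H55.HFP2

set_option autoImplicit false

open Set Real

namespace Pool.Agent.H55.HFP

variable {X : Type*} [NormedAddCommGroup X] [NormedSpace ℝ X]

/-- piecewise linear path through the vectors `d 0, d 1, ..., d N` -/
noncomputable def pth (d : ℕ → X) (N : ℕ) (l : ℝ) : X :=
  d 0 + ∑ i ∈ Finset.range N, cl (l - i) • (d (i + 1) - d i)

lemma sum_cl (l : ℝ) (N : ℕ) : ∑ i ∈ Finset.range N, cl (l - i) = max 0 (min (N : ℝ) l) := by
  induction N with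
  | zero => simp
  | succ N ih =>
    rw [Finset.sum_range_succ, ih]
    have hN : (0 : ℝ) ≤ N := Nat.cast_nonneg N
    push_cast
    rcases le_total l N with h | h
    · rw [cl_of_le (by linarith), min_eq_right h, min_eq_right (by linarith), add_zero]
    · rcases le_total l (N + 1) with h' | h'
      · rw [cl_of_mem (by linarith) (by linarith), min_eq_left h, min_eq_right h',
          max_eq_right hN, max_eq_right (by linarith)]
        ring
      · rw [cl_of_ge (by linarith), min_eq_left h, min_eq_left h', max_eq_right hN,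
          max_eq_right (by linarith)]

lemma pth_lip {d : ℕ → X} (hd : ∀ i, ‖d i‖ = 1) (N : ℕ) (l l' : ℝ) :
    ‖pth d N l - pth d N l'‖ ≤ 2 * |l - l'| := by
  wlog h : l' ≤ l generalizing l l'
  · rw [norm_sub_rev, abs_sub_comm]; exact this l' l (le_of_not_ge h)
  unfold pth
  rw [add_sub_add_left_eq_sub, ← Finset.sum_sub_distrib]
  refine (norm_sum_le _ _).trans ?_
  have h1 : ∀ i ∈ Finset.range N, ‖cl (l - i) • (d (i + 1) - d i) - cl (l' - i) • (d (i + 1) - d i)‖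
      ≤ 2 * (cl (l - i) - cl (l' - i)) := by
    intro i _
    have h2 : 0 ≤ cl (l - i) - cl (l' - i) := sub_nonneg.2 (cl_mono (by linarith))
    rw [← sub_smul, norm_smul, Real.norm_eq_abs, abs_of_nonneg h2, mul_comm]
    apply mul_le_mul_of_nonneg_right _ h2
    have := norm_sub_le (d (i + 1)) (d i)
    rw [hd, hd] at this
    linarith
  refine (Finset.sum_le_sum h1).trans ?_
  rw [← Finset.mul_sum, Finset.sum_sub_distrib, sum_cl, sum_cl]
  apply mul_le_mul_of_nonneg_left _ (by norm_num)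
  refine (le_abs_self _).trans ?_
  refine (abs_max_sub_max_le_max _ _ _ _).trans (max_le (by simp) ?_)
  exact (abs_min_sub_min_le_max _ _ _ _).trans (max_le (by simp) le_rfl)

lemma pth_eq (d : ℕ → X) {k : ℕ} {l : ℝ} (h1 : (k : ℝ) ≤ l) (h2 : l ≤ k + 1) (N : ℕ) :
    pth d N l = if k < N then (1 - (l - k)) • d k + (l - k) • d (k + 1) else d N := by
  induction N with
  | zero => simp [pth]
  | succ N ih =>
    have e : pth d (N + 1) l = pth d N l + cl (l - N) • (d (N + 1) - d N) := by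
      unfold pth; rw [Finset.sum_range_succ, add_assoc]
    rw [e, ih]
    rcases lt_trichotomy k N with h | h | h
    · have : (k : ℝ) + 1 ≤ N := by exact_mod_cast h
      rw [if_pos h, if_pos (by omega), cl_of_le (by linarith), zero_smul, add_zero]
    · subst h
      rw [if_neg (lt_irrefl k), if_pos (by omega), cl_of_mem (by linarith) (by linarith),
        smul_sub, sub_smul (1 : ℝ), one_smul]
      abel
    · have : (N : ℝ) + 1 ≤ k := by exact_mod_cast h
      rw [if_neg (by omega), if_neg (by omega), cl_of_ge (by linarith), one_smul]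
      abel

/-- data of one telescope -/
structure Tube (X : Type*) [NormedAddCommGroup X] [NormedSpace ℝ X] where
  u : X
  f : X →L[ℝ] ℝ
  d : ℕ → X
  ψ : ℕ → X →L[ℝ] ℝ
  J : ℕ
  κ : ℝ
  hu : ‖u‖ = 1
  hd : ∀ i, ‖d i‖ = 1
  hf : ∀ y, |f y| ≤ 4 * ‖y‖
  hψ : ∀ i y, |ψ i y| ≤ 4 * ‖y‖
  fu : f u = 1
  fd : ∀ i, f (d i) = 0
  ψu : ∀ i, ψ i u = 0
  ψd : ∀ i j, ψ i (d j) = if i = j then 1 else 0
  κ0 : 0 < κ
  κ1 : κ ≤ 1

/-- the shell -/
def Sh (x : X) : Prop := 1 ≤ ‖x‖ ∧ ‖x‖ ≤ 2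

namespace Tube

variable (T : Tube X)

noncomputable def yy (x : X) : X := x - T.f x • T.u
noncomputable def gg (x : X) : ℝ := ‖T.yy x‖ / (|T.f x| + ‖T.yy x‖)
noncomputable def ss (x : X) : ℝ := max (max (2 - ‖x‖) (T.gg x)) (exp (-(T.J : ℝ)))
noncomputable def ll (x : X) : ℝ := -log (T.ss x)
noncomputable def dl (l : ℝ) : ℝ := exp (-(T.κ * l)) / 400
noncomputable def sg (x : X) : ℝ := T.dl (T.ll x) * T.ss x
def Fs (l : ℝ) : Submodule ℝ X :=
  Submodule.span ℝ (T.d '' {i | l + 2 ≤ i ∧ i ≤ T.J + 2})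
def As (l : ℝ) : Set X :=
  {a | ‖a‖ = 1 ∧ T.f a = 0 ∧ ∀ l' < l, ∃ p ∈ T.Fs l', ‖a - p‖ ≤ T.dl l'}
noncomputable def cone (r : ℝ) (a : X) : X := (2 - r) • nz ((1 - r) • T.u + r • a)
def Ms : Set X := {m | ∃ l, 0 ≤ l ∧ ∃ a ∈ T.As l, m = T.cone (exp (-l)) a}
noncomputable def DD (x : X) : ℝ := Metric.infDist x T.Ms
noncomputable def tau (x : X) : ℝ := min (20 * T.DD x / T.sg x) 3
noncomputable def mu (x : X) : ℝ := cl (T.ll x - 300)
noncomputable def bb (x : X) : ℝ := cl (T.tau x - 1)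
noncomputable def ww (x : X) : ℝ := 21 * (‖x‖ - 1) * cl (3 - T.tau x)
noncomputable def WW (x : X) : X := x - max (-T.ww x) (min (T.f x) (T.ww x)) • T.u
noncomputable def Wh (x : X) : X := (max ‖T.WW x‖ (exp (-301) / 10))⁻¹ • T.WW x
noncomputable def yh (x : X) : X := (max ‖T.yy x‖ (T.ss x / 2))⁻¹ • T.yy x
noncomputable def ee (x : X) : X := pth T.d (T.J + 1) (T.ll x)
noncomputable def VV (x : X) : X :=
  (1 - T.mu x) • T.Wh x + (T.mu x * (1 - T.bb x)) • T.yh x + (T.mu x * T.bb x) • T.ee x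
noncomputable def EE (x : X) : ℝ := min (400 / T.κ * min (T.tau x) 1) (T.ll x)
noncomputable def rr (x : X) : ℝ := T.ss x * exp (T.EE x)
noncomputable def Phi (η : ℝ) (x : X) : X := T.cone (T.rr x) (η • nz (T.VV x))
def GG : Submodule ℝ X :=
  Submodule.span ℝ {T.u} ⊔ Submodule.span ℝ (T.d '' Iic (T.J + 2))

lemma yy_sub (x x' : X) : T.yy x - T.yy x' = T.yy (x - x') := by
  unfold yy; rw [map_sub, sub_smul]; abel

lemma norm_yy_le (x : X) : ‖T.yy x‖ ≤ 5 * ‖x‖ := by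
  unfold yy
  refine (norm_sub_le _ _).trans ?_
  rw [norm_smul, T.hu, Real.norm_eq_abs]
  linarith [T.hf x]

lemma yy_lip (x x' : X) : ‖T.yy x - T.yy x'‖ ≤ 5 * ‖x - x'‖ := by
  rw [yy_sub]; exact T.norm_yy_le _

lemma f_lip (x x' : X) : |T.f x - T.f x'| ≤ 4 * ‖x - x'‖ := by
  rw [← map_sub]; exact T.hf _

lemma f_yy (x : X) : T.f (T.yy x) = 0 := by simp [yy, T.fu]

lemma norm_le_add (x : X) : ‖x‖ ≤ |T.f x| + ‖T.yy x‖ := by
  have : x = T.f x • T.u + T.yy x := by simp [yy]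
  calc ‖x‖ = ‖T.f x • T.u + T.yy x‖ := congrArg _ this
    _ ≤ ‖T.f x • T.u‖ + ‖T.yy x‖ := norm_add_le _ _
    _ = _ := by rw [norm_smul, T.hu, Real.norm_eq_abs, mul_one]

lemma gg_le_one (x : X) : T.gg x ≤ 1 :=
  div_le_one_of_le₀ (by linarith [abs_nonneg (T.f x)]) (by positivity)

lemma gg_lip {x x' : X} (hx : Sh x) (hx' : Sh x') : |T.gg x - T.gg x'| ≤ 5 * ‖x - x'‖ := by
  have h1 := hx.1.trans (T.norm_le_add x)
  have h2 := hx'.1.trans (T.norm_le_add x')
  have a1 : |‖T.yy x‖ - ‖T.yy x'‖| ≤ 5 * ‖x - x'‖ :=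
    (abs_norm_sub_norm_le _ _).trans (T.yy_lip x x')
  have a2 : |(|T.f x|) - (|T.f x'|)| ≤ 5 * ‖x - x'‖ :=
    (abs_abs_sub_abs_le_abs_sub _ _).trans ((T.f_lip x x').trans (by linarith [norm_nonneg (x - x')]))
  unfold gg
  set A := ‖T.yy x‖
  set A' := ‖T.yy x'‖
  set B := |T.f x|
  set B' := |T.f x'|
  have hA' : 0 ≤ A' := norm_nonneg _
  have hB' : 0 ≤ B' := abs_nonneg _
  have e : A / (B + A) - A' / (B' + A') = ((A - A') * B' - (B - B') * A') / ((B + A) * (B' + A')) := by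
    field_simp; ring
  rw [e, abs_div, abs_of_pos (by positivity : 0 < (B + A) * (B' + A')), div_le_iff₀ (by positivity)]
  have a3 : |(A - A') * B' - (B - B') * A'| ≤ 5 * ‖x - x'‖ * B' + 5 * ‖x - x'‖ * A' := by
    refine (abs_sub _ _).trans ?_
    rw [abs_mul, abs_mul, abs_of_nonneg hA', abs_of_nonneg hB']
    exact add_le_add (mul_le_mul_of_nonneg_right a1 hB') (mul_le_mul_of_nonneg_right a2 hA')
  have a4 : 5 * ‖x - x'‖ * (B' + A') * 1 ≤ 5 * ‖x - x'‖ * (B' + A') * (B + A) :=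
    mul_le_mul_of_nonneg_left h1 (by positivity)
  nlinarith

lemma ss_pos (x : X) : 0 < T.ss x := lt_of_lt_of_le (exp_pos _) (le_max_right _ _)

lemma ss_le_one {x : X} (hx : Sh x) : T.ss x ≤ 1 :=
  max_le (max_le (by linarith [hx.1]) (T.gg_le_one x))
    (exp_le_one_iff.2 (by simp))

lemma ss_ge (x : X) : 2 - ‖x‖ ≤ T.ss x := (le_max_left _ _).trans (le_max_left _ _)

lemma ss_lip {x x' : X} (hx : Sh x) (hx' : Sh x') : |T.ss x - T.ss x'| ≤ 5 * ‖x - x'‖ := by
  unfold ss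
  refine (abs_max_sub_max_le_max _ _ _ _).trans (max_le ?_ (by simp))
  refine (abs_max_sub_max_le_max _ _ _ _).trans (max_le ?_ (T.gg_lip hx hx'))
  rw [show 2 - ‖x‖ - (2 - ‖x'‖) = -(‖x‖ - ‖x'‖) by ring, abs_neg]
  linarith [abs_norm_sub_norm_le x x', norm_nonneg (x - x')]

lemma exp_ll (x : X) : exp (-T.ll x) = T.ss x := by
  unfold ll; rw [neg_neg, exp_log (T.ss_pos x)]

lemma ll_nonneg {x : X} (hx : Sh x) : 0 ≤ T.ll x :=
  neg_nonneg.2 (log_nonpos (T.ss_pos x).le (T.ss_le_one hx))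

lemma ll_le (x : X) : T.ll x ≤ T.J := by
  have h : exp (-(T.J : ℝ)) ≤ exp (-T.ll x) := by rw [exp_ll]; exact le_max_right _ _
  linarith [exp_le_exp.1 h]

lemma yy_le_ss {x : X} (hx : Sh x) : ‖T.yy x‖ ≤ 18 * T.ss x := by
  have h1 := hx.1.trans (T.norm_le_add x)
  have h2 : T.gg x ≤ T.ss x := (le_max_right _ _).trans (le_max_left _ _)
  have h3 : |T.f x| + ‖T.yy x‖ ≤ 18 := by linarith [T.hf x, T.norm_yy_le x, hx.2]
  unfold gg at h2
  rw [div_le_iff₀ (by linarith)] at h2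
  nlinarith [T.ss_pos x]

lemma dl_pos (l : ℝ) : 0 < T.dl l := by unfold dl; positivity

lemma dl_sub (l a : ℝ) : T.dl (l - a) = T.dl l * exp (T.κ * a) := by
  unfold dl
  rw [div_mul_eq_mul_div, ← exp_add]
  congr 2; ring

lemma dl_anti {l l' : ℝ} (h : l ≤ l') : T.dl l' ≤ T.dl l := by
  unfold dl
  apply div_le_div_of_nonneg_right _ (by norm_num)
  apply exp_le_exp.2
  nlinarith [T.κ0]

lemma dl_le {l : ℝ} (h : 0 ≤ l) : T.dl l ≤ 1 / 400 := by
  have := T.dl_anti h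
  simpa [dl] using this

lemma dl_half (l : ℝ) : T.dl (l - 1 / 2) ≤ 2 * T.dl l := by
  rw [dl_sub, mul_comm]
  apply mul_le_mul_of_nonneg_right _ (T.dl_pos l).le
  have h1 : exp (T.κ * (1 / 2)) ≤ exp (1 / 2) := exp_le_exp.2 (by linarith [T.κ1])
  have h2 := exp_bound_div_one_sub_of_interval (x := 1 / 2) (by norm_num) (by norm_num)
  norm_num at h2
  linarith

lemma sg_pos (x : X) : 0 < T.sg x := mul_pos (T.dl_pos _) (T.ss_pos x)

lemma sg_le {x : X} (hx : Sh x) : T.sg x ≤ T.ss x / 400 := by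
  have := mul_le_mul_of_nonneg_right (T.dl_le (T.ll_nonneg hx)) (T.ss_pos x).le
  unfold sg
  linarith

lemma Fs_anti {l l' : ℝ} (h : l ≤ l') : T.Fs l' ≤ T.Fs l :=
  Submodule.span_mono (image_mono fun _ hi => ⟨by linarith [hi.1], hi.2⟩)

lemma Fs_le_GG (l : ℝ) : T.Fs l ≤ T.GG :=
  le_sup_of_le_right (Submodule.span_mono (image_mono fun _ hi => hi.2))

lemma As_le {l : ℝ} {a : X} (h : a ∈ T.As l) : l ≤ T.J := by
  by_contra hc
  push Not at hc
  obtain ⟨l', h1, h2⟩ := exists_between hc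
  obtain ⟨p, hp, hp2⟩ := h.2.2 l' h2
  have : T.Fs l' = ⊥ := by
    unfold Fs
    rw [Submodule.span_eq_bot]
    rintro _ ⟨i, ⟨hi1, hi2⟩, rfl⟩
    have : (i : ℝ) ≤ T.J + 2 := by exact_mod_cast hi2
    linarith
  rw [this, Submodule.mem_bot] at hp
  rw [hp, sub_zero, h.1] at hp2
  have := T.dl_le (l := l') (le_trans (Nat.cast_nonneg _) h1.le)
  linarith

lemma As_smul {l η : ℝ} (hη : |η| = 1) {a : X} (h : a ∈ T.As l) : η • a ∈ T.As l := by
  refine ⟨by rw [norm_smul, Real.norm_eq_abs, hη, h.1, mul_one], by rw [map_smul, h.2.1, smul_zero],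
    fun l' hl' => ?_⟩
  obtain ⟨p, hp, hp2⟩ := h.2.2 l' hl'
  refine ⟨η • p, Submodule.smul_mem _ _ hp, ?_⟩
  rw [← smul_sub, norm_smul, Real.norm_eq_abs, hη, one_mul]
  exact hp2

lemma tip_mem : T.d (T.J + 2) ∈ T.As T.J := by
  refine ⟨T.hd _, T.fd _, fun l' hl' => ⟨T.d (T.J + 2), Submodule.subset_span ⟨_, ⟨?_, le_rfl⟩, rfl⟩, ?_⟩⟩
  · push_cast; linarith
  · rw [sub_self, norm_zero]; exact (T.dl_pos _).le

lemma Ms_nonempty : T.Ms.Nonempty := ⟨_, T.J, Nat.cast_nonneg _, _, T.tip_mem, rfl⟩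

lemma cone_z {r : ℝ} {a : X} (h0 : 0 ≤ r) (h1 : r ≤ 1) (ha : ‖a‖ = 1) (hfa : T.f a = 0) :
    1 / 9 ≤ ‖(1 - r) • T.u + r • a‖ ∧ ‖(1 - r) • T.u + r • a‖ ≤ 1 := by
  have e1 : T.f ((1 - r) • T.u + r • a) = 1 - r := by simp [T.fu, hfa]
  have e2 : T.yy ((1 - r) • T.u + r • a) = r • a := by
    unfold yy; rw [e1]; abel
  have a1 := T.hf ((1 - r) • T.u + r • a)
  have a2 := T.norm_yy_le ((1 - r) • T.u + r • a)
  rw [e1, abs_of_nonneg (by linarith)] at a1
  rw [e2, norm_smul, ha, Real.norm_eq_abs, abs_of_nonneg h0] at a2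
  refine ⟨by linarith, (norm_add_le _ _).trans ?_⟩
  rw [norm_smul, norm_smul, ha, T.hu, Real.norm_eq_abs, Real.norm_eq_abs, abs_of_nonneg h0,
    abs_of_nonneg (by linarith)]
  linarith

lemma cone_spec {r : ℝ} {a : X} (h0 : 0 ≤ r) (h1 : r ≤ 1) (ha : ‖a‖ = 1) (hfa : T.f a = 0) :
    ‖T.cone r a‖ = 2 - r ∧ ∃ c, 1 ≤ c ∧ c ≤ 18 ∧ T.f (T.cone r a) = c * (1 - r) ∧
      T.yy (T.cone r a) = (c * r) • a := by
  obtain ⟨z1, z2⟩ := T.cone_z h0 h1 ha hfa
  have z0 : 0 < ‖(1 - r) • T.u + r • a‖ := by linarith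
  refine ⟨?_, (2 - r) / ‖(1 - r) • T.u + r • a‖, ?_, ?_, ?_, ?_⟩
  · unfold cone
    rw [norm_smul, norm_nz (norm_pos_iff.1 z0), mul_one, Real.norm_eq_abs, abs_of_nonneg (by linarith)]
  · rw [le_div_iff₀ z0]; linarith
  · rw [div_le_iff₀ z0]; linarith
  · simp only [cone, nz, map_smul, map_add, T.fu, hfa, smul_eq_mul]
    ring
  · simp only [yy, cone, nz, map_smul, map_add, T.fu, hfa, smul_eq_mul, smul_add, smul_smul]
    rw [show (2 - r) / ‖(1 - r) • T.u + r • a‖ * r = (2 - r) * (‖(1 - r) • T.u + r • a‖⁻¹ * r) by ring,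
      mul_one, mul_zero, add_zero]
    abel

lemma cone_one {a : X} (ha : ‖a‖ = 1) : T.cone 1 a = a := by
  unfold cone
  norm_num
  exact nz_of_norm_one ha

lemma tube_spec {l : ℝ} (hl : 0 ≤ l) {a : X} (ha : a ∈ T.As l) :
    Sh (T.cone (exp (-l)) a) ∧ T.ss (T.cone (exp (-l)) a) = exp (-l) ∧
      |T.f (T.cone (exp (-l)) a)| ≤ 18 * (‖T.cone (exp (-l)) a‖ - 1) ∧
      exp (-l) ≤ ‖T.yy (T.cone (exp (-l)) a)‖ ∧ nz (T.yy (T.cone (exp (-l)) a)) = a := by
  have r0 := exp_pos (-l)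
  have r1 : exp (-l) ≤ 1 := exp_le_one_iff.2 (by linarith)
  obtain ⟨n1, c, c1, c2, e1, e2⟩ := T.cone_spec r0.le r1 ha.1 ha.2.1
  have n2 : ‖T.yy (T.cone (exp (-l)) a)‖ = c * exp (-l) := by
    rw [e2, norm_smul, ha.1, mul_one, Real.norm_eq_abs, abs_of_pos (by positivity)]
  have n3 : |T.f (T.cone (exp (-l)) a)| = c * (1 - exp (-l)) := by
    rw [e1, abs_of_nonneg (mul_nonneg (by linarith) (by linarith))]
  refine ⟨⟨by linarith, by linarith⟩, ?_, ?_, ?_, ?_⟩
  · have g1 : T.gg (T.cone (exp (-l)) a) = exp (-l) := by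
      unfold gg
      rw [n2, n3, div_eq_iff (by nlinarith)]
      ring
    unfold ss
    rw [g1, n1, show 2 - (2 - exp (-l)) = exp (-l) by ring, max_self, max_eq_left]
    exact exp_le_exp.2 (by linarith [T.As_le ha])
  · rw [n3, n1]; nlinarith
  · rw [n2]; nlinarith
  · rw [e2, nz_smul (by positivity), nz_of_norm_one ha.1]

lemma DD_nonneg (x : X) : 0 ≤ T.DD x := Metric.infDist_nonneg

lemma tau_nonneg (x : X) : 0 ≤ T.tau x :=
  le_min (div_nonneg (by linarith [T.DD_nonneg x]) (T.sg_pos x).le) (by norm_num)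

lemma tau_le (x : X) : T.tau x ≤ 3 := min_le_right _ _

lemma near {x : X} (hx : Sh x) {t : ℝ} (ht : T.tau x < t) (ht3 : t ≤ 3) :
    T.ss x / 2 ≤ ‖T.yy x‖ ∧ ∃ p ∈ T.Fs (T.ll x - t / 6),
      ‖nz (T.yy x) - p‖ ≤ T.dl (T.ll x - t / 6) + t * T.dl (T.ll x) := by
  have t0 : 0 < t := lt_of_le_of_lt (T.tau_nonneg x) ht
  have h1 : 20 * T.DD x / T.sg x < t := by
    rcases min_lt_iff.1 ht with h | h
    · exact h
    · linarith
  rw [div_lt_iff₀ (T.sg_pos x)] at h1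
  obtain ⟨m, hm, hxm⟩ := (Metric.infDist_lt_iff T.Ms_nonempty).1
    (show Metric.infDist x T.Ms < t * T.sg x / 20 by unfold DD at h1; linarith)
  obtain ⟨l, hl, a, ha, rfl⟩ := hm
  obtain ⟨s1, s2, -, s4, s5⟩ := T.tube_spec hl ha
  rw [dist_eq_norm] at hxm
  have s0 := T.ss_pos x
  have b1 := T.ss_lip hx s1
  rw [s2] at b1
  have b2 : t * T.sg x ≤ t * (T.ss x / 400) := mul_le_mul_of_nonneg_left (T.sg_le hx) t0.le
  have b3 : t * T.ss x ≤ 3 * T.ss x := mul_le_mul_of_nonneg_right ht3 s0.le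
  have b4 := T.yy_lip x (T.cone (exp (-l)) a)
  have b5 := abs_le.1 b1
  have b6 := norm_sub_norm_le (T.yy (T.cone (exp (-l)) a)) (T.yy x)
  rw [norm_sub_rev] at b6
  refine ⟨by linarith, ?_⟩
  have b7 : T.ll x - t / 6 < l := by
    have c1 : exp (-l) < T.ss x * (t / 6 + 1) := by nlinarith
    have c2 : T.ss x * (t / 6 + 1) ≤ T.ss x * exp (t / 6) :=
      mul_le_mul_of_nonneg_left (add_one_le_exp _) s0.le
    rw [← T.exp_ll x, ← exp_add] at c2
    rw [← T.exp_ll x] at c1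
    linarith [exp_lt_exp.1 (c1.trans_le c2)]
  obtain ⟨p, hp, hp2⟩ := ha.2.2 _ b7
  refine ⟨p, hp, ?_⟩
  have b8 := nz_lip (v := T.yy x) (w := T.yy (T.cone (exp (-l)) a)) (half_pos s0) (by linarith)
  rw [s5] at b8
  have b9 : 2 * ‖T.yy x - T.yy (T.cone (exp (-l)) a)‖ / (T.ss x / 2) ≤ t * T.dl (T.ll x) := by
    rw [div_le_iff₀ (half_pos s0)]
    have : t * T.sg x = t * T.dl (T.ll x) * T.ss x := by unfold sg; ring
    linarith
  have := norm_sub_le_norm_sub_add_norm_sub (nz (T.yy x)) a p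
  linarith

lemma near3 {x : X} (hx : Sh x) (ht : T.tau x < 3) :
    T.ss x / 2 ≤ ‖T.yy x‖ ∧ ∃ p ∈ T.Fs (T.ll x - 1 / 2),
      ‖nz (T.yy x) - p‖ ≤ 5 * T.dl (T.ll x) := by
  obtain ⟨h1, p, hp, h2⟩ := T.near hx ht le_rfl
  norm_num at hp h2
  refine ⟨h1, p, by norm_num; exact hp, ?_⟩
  have := T.dl_half (T.ll x)
  norm_num at this
  linarith

lemma f_le_DD (x : X) : |T.f x| ≤ 18 * (‖x‖ - 1) + 22 * T.DD x := by
  have : (|T.f x| - 18 * (‖x‖ - 1)) / 22 ≤ T.DD x := by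
    refine (Metric.le_infDist T.Ms_nonempty).2 ?_
    rintro _ ⟨l, hl, a, ha, rfl⟩
    obtain ⟨-, -, s3, -, -⟩ := T.tube_spec hl ha
    rw [dist_eq_norm]
    have h1 := (abs_sub_abs_le_abs_sub _ _).trans (T.f_lip x (T.cone (exp (-l)) a))
    have h2 := norm_sub_norm_le (T.cone (exp (-l)) a) x
    rw [norm_sub_rev] at h2
    linarith
  linarith

lemma WW_eq_yy {x : X} (h : |T.f x| ≤ T.ww x) : T.WW x = T.yy x := by
  unfold WW yy
  rw [min_eq_left (abs_le.1 h).2, max_eq_right (abs_le.1 h).1]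

lemma WW_eq_self {x : X} (h : T.ww x = 0) : T.WW x = x := by
  unfold WW
  rw [h, neg_zero, max_eq_left (min_le_right _ _), zero_smul, sub_zero]

lemma yy_WW (x : X) : T.yy (T.WW x) = T.yy x := by
  simp only [yy, WW, map_sub, map_smul, T.fu, smul_eq_mul, mul_one, sub_smul]
  abel

lemma ww_of_tau {x : X} (h : ¬ T.tau x < 3) : T.ww x = 0 := by
  unfold ww
  rw [cl_of_le (by push Not at h; linarith), mul_zero]

lemma WW_ge {x : X} (hx : Sh x) : T.ss x / 10 ≤ ‖T.WW x‖ := by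
  by_cases h : T.tau x < 3
  · have h1 := (T.near3 hx h).1
    have h2 := T.norm_yy_le (T.WW x)
    rw [yy_WW] at h2
    linarith
  · rw [T.WW_eq_self (T.ww_of_tau h)]
    linarith [T.ss_le_one hx, hx.1]

lemma WW_ne {x : X} (hx : Sh x) : T.WW x ≠ 0 := by
  have := T.WW_ge hx
  have := T.ss_pos x
  exact norm_pos_iff.1 (by linarith)

lemma ss_small {x : X} (h : 300 ≤ T.ll x) : T.ss x ≤ 1 / 301 := by
  rw [← T.exp_ll x, exp_neg, ← one_div]
  apply one_div_le_one_div_of_le (by norm_num)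
  linarith [add_one_le_exp (T.ll x)]

lemma WW_deep {x : X} (hx : Sh x) (h : 300 ≤ T.ll x) (ht : T.tau x ≤ 2) : T.WW x = T.yy x := by
  apply T.WW_eq_yy
  unfold ww
  rw [cl_of_ge (by linarith), mul_one]
  linarith [T.ss_small h, T.ss_ge x, T.hf x, hx.2]

lemma VV_eq {x : X} (hx : Sh x) :
    T.VV x = (1 - T.mu x * T.bb x) • nz (T.WW x) + (T.mu x * T.bb x) • T.ee x := by
  have e1 : (1 - T.mu x) • T.Wh x = (1 - T.mu x) • nz (T.WW x) := by
    rcases le_total (T.ll x) 301 with h | h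
    · have : exp (-301) ≤ T.ss x := by
        rw [← T.exp_ll x]; exact exp_le_exp.2 (by linarith)
      unfold Wh
      rw [max_eq_left (by linarith [T.WW_ge hx])]
      rfl
    · unfold mu
      rw [cl_of_ge (by linarith)]
      simp
  have e2 : (T.mu x * (1 - T.bb x)) • T.yh x = (T.mu x * (1 - T.bb x)) • nz (T.WW x) := by
    rcases le_total (T.ll x) 300 with h | h
    · unfold mu
      rw [cl_of_le (by linarith)]
      simp
    rcases le_total (T.tau x) 2 with ht | ht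
    · rw [T.WW_deep hx h ht]
      unfold yh
      rw [max_eq_left (T.near3 hx (by linarith)).1]
      rfl
    · unfold bb
      rw [cl_of_ge (t := T.tau x - 1) (by linarith)]
      simp
  unfold VV
  rw [e1, e2, ← add_smul]
  congr 2
  ring

lemma ee_spec {x : X} (hx : Sh x) : ∃ k : ℕ, (k : ℝ) ≤ T.ll x ∧ T.ll x < k + 1 ∧
    T.ee x = (1 - (T.ll x - k)) • T.d k + (T.ll x - k) • T.d (k + 1) := by
  have h1 := Nat.floor_le (T.ll_nonneg hx)
  have h2 := Nat.lt_floor_add_one (T.ll x)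
  refine ⟨⌊T.ll x⌋₊, h1, h2, ?_⟩
  unfold ee
  rw [pth_eq T.d h1 h2.le, if_pos]
  have : (⌊T.ll x⌋₊ : ℝ) ≤ T.J := h1.trans (T.ll_le x)
  have : ⌊T.ll x⌋₊ ≤ T.J := by exact_mod_cast this
  omega

lemma norm_ee_le {x : X} (hx : Sh x) : ‖T.ee x‖ ≤ 1 := by
  obtain ⟨k, h1, h2, e⟩ := T.ee_spec hx
  rw [e]
  refine (norm_add_le _ _).trans ?_
  rw [norm_smul, norm_smul, T.hd, T.hd, Real.norm_eq_abs, Real.norm_eq_abs,
    abs_of_nonneg (by linarith), abs_of_nonneg (by linarith)]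
  linarith

lemma mb_nonneg (x : X) : 0 ≤ T.mu x * T.bb x := mul_nonneg (cl_nonneg _) (cl_nonneg _)

lemma mb_le_one (x : X) : T.mu x * T.bb x ≤ 1 :=
  mul_le_one₀ (cl_le_one _) (cl_nonneg _) (cl_le_one _)

lemma VV_ge {x : X} (hx : Sh x) : 1 / 80 ≤ ‖T.VV x‖ := by
  rw [T.VV_eq hx]
  have n1 := norm_nz (T.WW_ne hx)
  rcases le_total (T.ll x) 300 with h | h
  · unfold mu
    rw [cl_of_le (by linarith)]
    simp only [zero_mul, sub_zero, one_smul, zero_smul, add_zero, n1]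
    norm_num
  obtain ⟨k, h1, h2, e⟩ := T.ee_spec hx
  set L : X →L[ℝ] ℝ := T.ψ k + T.ψ (k + 1) with hL
  have L1 : ∀ y, |L y| ≤ 8 * ‖y‖ := fun y =>
    (abs_add_le (T.ψ k y) (T.ψ (k + 1) y)).trans (by linarith [T.hψ k y, T.hψ (k + 1) y])
  have L2 : L (T.ee x) = 1 := by
    rw [e]; simp [hL, T.ψd]
  have L3 : L (T.WW x) = L (T.yy x) := by
    simp [hL, WW, yy, T.ψu]
  have w0 : 0 < ‖T.WW x‖ := norm_pos_iff.2 (T.WW_ne hx)
  have L4 : |L (T.yy x)| ≤ ‖T.WW x‖ / 2 := by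
    by_cases ht : T.tau x < 3
    · obtain ⟨a1, p, hp, a2⟩ := T.near3 hx ht
      have y0 : 0 < ‖T.yy x‖ := by linarith [T.ss_pos x]
      have Lp : L p = 0 := by
        have : T.Fs (T.ll x - 1 / 2) ≤ LinearMap.ker (L : X →ₗ[ℝ] ℝ) := by
          unfold Fs
          rw [Submodule.span_le]
          rintro _ ⟨i, ⟨hi, -⟩, rfl⟩
          have : (k : ℝ) + 1 < i := by linarith
          have : k + 1 < i := by exact_mod_cast this
          show L (T.d i) = 0
          simp only [hL, add_apply, T.ψd]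
          rw [if_neg (by omega), if_neg (by omega), add_zero]
        exact this hp
      have a3 := L1 (nz (T.yy x) - p)
      rw [map_sub, Lp, sub_zero, nz, map_smul, smul_eq_mul, abs_mul, abs_of_pos (inv_pos.2 y0),
        inv_mul_le_iff₀ y0] at a3
      have a4 := T.dl_le (T.ll_nonneg hx)
      have a5 := T.norm_yy_le (T.WW x)
      rw [yy_WW] at a5
      have a6 : ‖T.yy x‖ * (8 * ‖‖T.yy x‖⁻¹ • T.yy x - p‖) ≤ ‖T.yy x‖ * (1 / 10) := by
        apply mul_le_mul_of_nonneg_left _ y0.le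
        unfold nz at a2
        linarith
      linarith
    · rw [T.WW_eq_self (T.ww_of_tau ht)]
      linarith [L1 (T.yy x), T.yy_le_ss hx, T.ss_small h, hx.1]
  have L5 : |L (nz (T.WW x))| ≤ 1 / 2 := by
    rw [nz, map_smul, smul_eq_mul, abs_mul, abs_of_pos (inv_pos.2 w0), inv_mul_le_iff₀ w0, L3]
    linarith
  have b0 := T.mb_nonneg x
  have b1 := T.mb_le_one x
  set β := T.mu x * T.bb x
  rcases le_total β (2 / 5) with hb | hb
  · have c1 := norm_sub_norm_le ((1 - β) • nz (T.WW x)) (-(β • T.ee x))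
    rw [sub_neg_eq_add, norm_neg, norm_smul, norm_smul, n1, Real.norm_eq_abs, Real.norm_eq_abs,
      abs_of_nonneg (by linarith), abs_of_nonneg b0] at c1
    nlinarith [T.norm_ee_le hx]
  · have c1 := (le_abs_self _).trans (L1 ((1 - β) • nz (T.WW x) + β • T.ee x))
    rw [map_add, map_smul, map_smul, L2, smul_eq_mul, smul_eq_mul] at c1
    nlinarith [(abs_le.1 L5).1]

lemma VV_ne {x : X} (hx : Sh x) : T.VV x ≠ 0 :=
  norm_pos_iff.1 (by linarith [T.VV_ge hx])

lemma A_ge : 400 ≤ 400 / T.κ := by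
  rw [le_div_iff₀ T.κ0]; linarith [T.κ1]

lemma EE_nonneg {x : X} (hx : Sh x) : 0 ≤ T.EE x :=
  le_min (mul_nonneg (by linarith [T.A_ge]) (le_min (T.tau_nonneg x) zero_le_one)) (T.ll_nonneg hx)

lemma EE_le_ll (x : X) : T.EE x ≤ T.ll x := min_le_right _ _

lemma rr_eq (x : X) : T.rr x = exp (-(T.ll x - T.EE x)) := by
  unfold rr
  rw [← T.exp_ll x, ← exp_add]
  congr 1; ring

lemma range_mem {x : X} (hx : Sh x) (h : T.EE x < T.ll x) :
    nz (T.VV x) ∈ T.As (T.ll x - T.EE x) := by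
  have hE : T.EE x = 400 / T.κ * min (T.tau x) 1 := by
    unfold EE at h ⊢
    exact min_eq_left (le_of_lt ((min_lt_iff.1 h).resolve_right (lt_irrefl _)))
  have hA := T.A_ge
  have t0 := T.tau_nonneg x
  have kA : T.κ * (400 / T.κ) = 400 := by have := T.κ0; field_simp
  rcases lt_or_ge (T.tau x) 1 with ht | ht
  · rw [min_eq_left ht.le] at hE
    have e1 : T.WW x = T.yy x := by
      apply T.WW_eq_yy
      unfold ww
      rw [cl_of_ge (by linarith), mul_one]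
      rcases le_total ‖x‖ (3 / 2) with hh | hh
      · have a1 : T.tau x = 20 * T.DD x / T.sg x := by
          unfold tau at ht ⊢
          exact min_eq_left (le_of_lt (((min_lt_iff.1 ht).resolve_right (by norm_num)).trans
            (by norm_num)))
        have a2 : 20 * T.DD x = T.tau x * T.sg x := by
          rw [a1]; have := T.sg_pos x; field_simp
        have a3 : T.tau x * T.sg x ≤ T.tau x * 1 :=
          mul_le_mul_of_nonneg_left (by linarith [T.sg_le hx, T.ss_le_one hx, T.ss_pos x]) t0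
        have a4 : T.tau x ≤ T.ll x := by nlinarith
        have a5 : T.ll x ≤ 2 * (‖x‖ - 1) := by
          have s0 := T.ss_pos x
          have b1 := log_le_sub_one_of_pos (inv_pos.2 s0)
          rw [log_inv] at b1
          have b2 : (T.ss x)⁻¹ ≤ 2 * (‖x‖ - 1) + 1 := by
            rw [inv_le_iff_one_le_mul₀ s0]
            nlinarith [T.ss_ge x, hx.1]
          unfold ll
          linarith
        linarith [T.f_le_DD x, hx.1]
      · linarith [T.hf x, hx.2]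
    have y0 : T.yy x ≠ 0 := e1 ▸ T.WW_ne hx
    have e2 : nz (T.VV x) = nz (T.yy x) := by
      rw [T.VV_eq hx, e1]
      unfold bb
      rw [cl_of_le (t := T.tau x - 1) (by linarith)]
      simp only [mul_zero, sub_zero, one_smul, zero_smul, add_zero]
      exact nz_of_norm_one (norm_nz y0)
    rw [e2]
    refine ⟨norm_nz y0, by rw [nz, map_smul, T.f_yy, smul_zero], fun l' hl' => ?_⟩
    set t := min ((T.ll x - l') / (400 / T.κ)) 1 with htdef
    have A0 : 0 < 400 / T.κ := by linarith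
    have t1 : T.tau x < t := lt_min (by rw [lt_div_iff₀ A0]; linarith) ht
    have t2 : t ≤ 1 := min_le_right _ _
    have t3 : t * (400 / T.κ) ≤ T.ll x - l' := (le_div_iff₀ A0).1 (min_le_left _ _)
    have t4 : 0 < t := by linarith
    obtain ⟨-, p, hp, a2⟩ := T.near hx t1 (by linarith)
    refine ⟨p, T.Fs_anti (by nlinarith) hp, a2.trans ?_⟩
    refine le_trans ?_ (T.dl_anti (show l' ≤ T.ll x - t * (400 / T.κ) by linarith))
    rw [dl_sub, dl_sub, mul_comm t, ← mul_add]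
    apply mul_le_mul_of_nonneg_left _ (T.dl_pos _).le
    have c1 : exp (T.κ * (t / 6)) ≤ exp t := exp_le_exp.2 (by nlinarith [T.κ1, T.κ0])
    have c2 : exp (T.κ * (t * (400 / T.κ))) = exp t * exp (399 * t) := by
      rw [← exp_add, mul_comm t, ← mul_assoc, kA]; congr 1; ring
    have c3 := add_one_le_exp (399 * t)
    have c4 := add_one_le_exp t
    rw [c2]
    nlinarith
  · rw [min_eq_right ht, mul_one] at hE
    have hl : 400 < T.ll x := by linarith
    have m1 : T.mu x = 1 := cl_of_ge (by linarith)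
    have b0 : 0 ≤ T.bb x := cl_nonneg _
    have b1 : T.bb x ≤ 1 := cl_le_one _
    have eV := T.VV_eq hx
    rw [m1, one_mul] at eV
    obtain ⟨p, hp, a1, a2⟩ : ∃ p ∈ T.Fs (T.ll x - 1 / 2),
        (1 - T.bb x) * ‖nz (T.WW x) - p‖ ≤ 5 * T.dl (T.ll x) ∧
        (1 - T.bb x) * T.f (nz (T.WW x)) = 0 := by
      rcases le_total (T.tau x) 2 with h2 | h2
      · rw [T.WW_deep hx (by linarith) h2]
        obtain ⟨-, p, hp, a2⟩ := T.near3 hx (by linarith)
        refine ⟨p, hp, (mul_le_of_le_one_left (norm_nonneg _) (by linarith)).trans a2, ?_⟩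
        rw [nz, map_smul, T.f_yy, smul_zero, mul_zero]
      · have : T.bb x = 1 := cl_of_ge (by linarith)
        refine ⟨0, Submodule.zero_mem _, ?_, ?_⟩
        · rw [this, sub_self, zero_mul]; linarith [T.dl_pos (T.ll x)]
        · rw [this, sub_self, zero_mul]
    obtain ⟨k, k1, k2, e⟩ := T.ee_spec hx
    have v0 : 0 < ‖T.VV x‖ := by linarith [T.VV_ge hx]
    refine ⟨norm_nz (T.VV_ne hx), ?_, fun l' hl' => ?_⟩
    · have : T.f (T.VV x) = 0 := by
        rw [eV, map_add, map_smul, map_smul, smul_eq_mul, a2, e]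
        simp [T.fd]
      rw [nz, map_smul, this, smul_zero]
    · have hkJ : k ≤ T.J := by
        have : (k : ℝ) ≤ T.J := k1.trans (T.ll_le x)
        exact_mod_cast this
      have he : T.ee x ∈ T.Fs l' := by
        rw [e]
        refine Submodule.add_mem _ (Submodule.smul_mem _ _ (Submodule.subset_span ⟨k, ⟨?_, ?_⟩, rfl⟩))
          (Submodule.smul_mem _ _ (Submodule.subset_span ⟨k + 1, ⟨?_, ?_⟩, rfl⟩))
        · linarith
        · omega
        · push_cast; linarith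
        · omega
      refine ⟨‖T.VV x‖⁻¹ • ((1 - T.bb x) • p + T.bb x • T.ee x),
        Submodule.smul_mem _ _ (Submodule.add_mem _ (Submodule.smul_mem _ _
          (T.Fs_anti (by linarith) hp)) (Submodule.smul_mem _ _ he)), ?_⟩
      have e3 : T.VV x - ((1 - T.bb x) • p + T.bb x • T.ee x) = (1 - T.bb x) • (nz (T.WW x) - p) := by
        rw [eV, smul_sub]; abel
      rw [nz, ← smul_sub, e3, norm_smul, norm_smul, Real.norm_eq_abs, Real.norm_eq_abs,
        abs_of_pos (inv_pos.2 v0), abs_of_nonneg (by linarith), inv_mul_le_iff₀ v0]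
      have c1 := T.dl_anti (show l' ≤ T.ll x - 400 / T.κ by linarith)
      rw [dl_sub, kA] at c1
      have c2 := add_one_le_exp (400 : ℝ)
      have c3 := T.dl_pos (T.ll x)
      have c4 := T.VV_ge hx
      have c5 : 400 * T.dl (T.ll x) ≤ T.dl l' := by nlinarith
      nlinarith

lemma on_tube {l : ℝ} (hl : 0 ≤ l) {a : X} (ha : a ∈ T.As l) (η : ℝ) :
    T.tau (T.cone (exp (-l)) a) = 0 ∧ T.Phi η (T.cone (exp (-l)) a) = T.cone (exp (-l)) (η • a) := by
  obtain ⟨s1, s2, s3, -, s5⟩ := T.tube_spec hl ha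
  set x := T.cone (exp (-l)) a with hx
  have D0 : T.DD x = 0 := Metric.infDist_zero_of_mem ⟨l, hl, a, ha, rfl⟩
  have t0 : T.tau x = 0 := by
    unfold tau; rw [D0]; simp
  have E0 : T.EE x = 0 := by
    unfold EE; rw [t0]
    simp [T.ll_nonneg s1]
  have e1 : T.WW x = T.yy x := by
    apply T.WW_eq_yy
    unfold ww
    rw [t0, cl_of_ge (by norm_num), mul_one]
    linarith [s1.1]
  refine ⟨t0, ?_⟩
  unfold Phi rr
  rw [E0, exp_zero, mul_one, s2, T.VV_eq s1, e1, s5]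
  unfold bb
  rw [t0, cl_of_le (t := 0 - 1) (by norm_num)]
  simp only [mul_zero, sub_zero, one_smul, zero_smul, add_zero]
  rw [nz_of_norm_one ha.1]

lemma Phi_outer {x : X} (hx : Sh x) (hE : T.EE x = T.ll x) (hl : T.ll x ≤ 300) (hw : T.ww x = 0)
    {η : ℝ} (hη : |η| = 1) : T.Phi η x = η • nz x := by
  have x0 : x ≠ 0 := norm_pos_iff.1 (by linarith [hx.1])
  unfold Phi
  rw [T.rr_eq, hE, sub_self, neg_zero, exp_zero, T.VV_eq hx, T.WW_eq_self hw]
  unfold mu
  rw [cl_of_le (by linarith)]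
  simp only [zero_mul, sub_zero, one_smul, zero_smul, add_zero]
  rw [nz_of_norm_one (norm_nz x0), T.cone_one]
  rw [norm_smul, Real.norm_eq_abs, hη, norm_nz x0, mul_one]

lemma on_sphere {x : X} (h : ‖x‖ = 1) {η : ℝ} (hη : |η| = 1) : T.Phi η x = η • x := by
  have hx : Sh x := ⟨h.ge, by linarith⟩
  have s1 : T.ss x = 1 := le_antisymm (T.ss_le_one hx) (by linarith [T.ss_ge x])
  have l0 : T.ll x = 0 := by unfold ll; rw [s1]; simp
  rw [T.Phi_outer hx (le_antisymm (T.EE_le_ll x) (l0 ▸ T.EE_nonneg hx)) (by linarith)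
    (by unfold ww; rw [h]; simp) hη, nz_of_norm_one h]

/-- the region influenced by the telescope -/
def Near (x : X) : Prop := ∃ p ∈ T.GG, ‖x - p‖ ≤ 1 / 7

lemma u_mem (c : ℝ) : c • T.u ∈ T.GG :=
  Submodule.smul_mem _ _ (Submodule.mem_sup_left (Submodule.mem_span_singleton_self _))

lemma near_of_tau {x : X} (hx : Sh x) (ht : T.tau x < 3) : T.Near x := by
  obtain ⟨a1, p, hp, a2⟩ := T.near3 hx ht
  have y0 : 0 < ‖T.yy x‖ := by linarith [T.ss_pos x]
  refine ⟨T.f x • T.u + ‖T.yy x‖ • p,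
    Submodule.add_mem _ (T.u_mem _) (Submodule.smul_mem _ _ (T.Fs_le_GG _ hp)), ?_⟩
  have e : x - (T.f x • T.u + ‖T.yy x‖ • p) = ‖T.yy x‖ • (nz (T.yy x) - p) := by
    rw [smul_sub, nz, smul_smul, mul_inv_cancel₀ y0.ne', one_smul]
    unfold yy
    abel
  rw [e, norm_smul, norm_norm]
  have a4 := T.dl_le (T.ll_nonneg hx)
  have a5 : ‖T.yy x‖ ≤ 10 := by linarith [T.norm_yy_le x, hx.2]
  have a6 : ‖T.yy x‖ * ‖nz (T.yy x) - p‖ ≤ 10 * (1 / 80) :=
    mul_le_mul a5 (by linarith) (norm_nonneg _) (by norm_num)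
  linarith

lemma off_near {x : X} (hx : Sh x) (h : ¬ T.Near x) {η : ℝ} (hη : |η| = 1) :
    T.Phi η x = η • nz x := by
  have ht : ¬ T.tau x < 3 := fun ht => h (T.near_of_tau hx ht)
  have hl : T.ll x ≤ 300 := by
    by_contra hc
    push Not at hc
    refine h ⟨T.f x • T.u, T.u_mem _, ?_⟩
    have := T.yy_le_ss hx
    have := T.ss_small hc.le
    unfold yy at *
    linarith
  refine T.Phi_outer hx ?_ hl (T.ww_of_tau ht) hη
  unfold EE
  rw [min_eq_right (a := T.tau x) (by push Not at ht; linarith), mul_one]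
  exact min_eq_right (by linarith [T.A_ge])

end Tube

end Pool.Agent.H55.HFP
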