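import Pool.Agent.H55.HFP3

set_option autoImplicit false

open Set Real

namespace Pool.Agent.H55.HFP

variable {X : Type*} [NormedAddCommGroup X] [NormedSpace ℝ X]

lemma trunc_lip {D D' σ σ' σ0 d : ℝ} (hD' : 0 ≤ D') (h0 : 0 < σ0) (h1 : σ0 ≤ σ) (h2 : σ0 ≤ σ')
    (h3 : |D - D'| ≤ d) (h4 : |σ - σ'| ≤ d) :
    min (20 * D / σ) 3 - min (20 * D' / σ') 3 ≤ 23 * (d / σ0) := by
  have d0 : 0 ≤ d := (abs_nonneg _).trans h3
  have s0 : 0 < σ := by linarith
  have s0' : 0 < σ' := by linarith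
  have q0 : 0 ≤ d / σ0 := by positivity
  rcases le_total 3 (20 * D' / σ') with h | h
  · rw [min_eq_right h]
    linarith [min_le_right (20 * D / σ) 3]
  · rw [min_eq_left h]
    have e : 20 * D / σ - 20 * D' / σ' = (20 * (D - D') + (20 * D' / σ') * (σ' - σ)) / σ := by
      field_simp; ring
    have a1 : (20 * D' / σ') * (σ' - σ) ≤ 3 * d := by
      have b0 : 0 ≤ 20 * D' / σ' := by positivity
      have b1 : σ' - σ ≤ d := by linarith [(abs_le.1 h4).1]
      nlinarith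
    have a2 : (20 * (D - D') + (20 * D' / σ') * (σ' - σ)) / σ ≤ 23 * d / σ :=
      div_le_div_of_nonneg_right (by linarith [(abs_le.1 h3).2]) s0.le
    have a3 : 23 * d / σ ≤ 23 * d / σ0 := div_le_div_of_nonneg_left (by positivity) h0 h1
    rw [mul_div_assoc 23 d σ0] at a3
    linarith [min_le_left (20 * D / σ) 3]

lemma min_le_rpow {ρ α : ℝ} (h0 : 0 ≤ ρ) (a0 : 0 < α) (a1 : α ≤ 1) : min ρ 1 ≤ ρ ^ α := by
  rcases le_total ρ 1 with h | h
  · rw [min_eq_left h]
    rcases eq_or_lt_of_le h0 with h1 | h1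
    · rw [← h1]; positivity
    · simpa using rpow_le_rpow_of_exponent_ge h1 h a1
  · rw [min_eq_right h]
    exact one_le_rpow h a0.le

lemma abs_mul_sub {a b a' b' : ℝ} (ha : |a'| ≤ 1) (hb : |b| ≤ 1) :
    |a * b - a' * b'| ≤ |a - a'| + |b - b'| := by
  have := smul_lip (X := ℝ) (s := a) (s' := a') (p := b) (p' := b') ha hb
  simpa using this

lemma abs_cl_le (t : ℝ) : |cl t| ≤ 1 := by
  rw [abs_of_nonneg (cl_nonneg _)]; exact cl_le_one _

lemma abs_one_sub_cl_le (t : ℝ) : |1 - cl t| ≤ 1 := by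
  rw [abs_le]; constructor <;> linarith [cl_nonneg t, cl_le_one t]

lemma exp_lip {E E' A : ℝ} (h : E ≤ A) (h' : E' ≤ A) : |exp E - exp E'| ≤ exp A * |E - E'| := by
  wlog hE : E' ≤ E generalizing E E'
  · rw [abs_sub_comm, abs_sub_comm E]; exact this h' h (le_of_not_ge hE)
  rw [abs_of_nonneg (sub_nonneg.2 (exp_le_exp.2 hE)), abs_of_nonneg (sub_nonneg.2 hE)]
  have e : exp E' = exp E * exp (-(E - E')) := by rw [← exp_add]; congr 1; ring
  have a1 := add_one_le_exp (-(E - E'))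
  have a2 := exp_pos E
  have a3 : exp E ≤ exp A := exp_le_exp.2 h
  have a4 : exp E * (E - E') ≤ exp A * (E - E') := mul_le_mul_of_nonneg_right a3 (by linarith)
  nlinarith

namespace Tube

variable (T : Tube X)

lemma cone_lip {r r' : ℝ} {a a' : X} (r0 : 0 ≤ r) (r0' : 0 ≤ r') (r1' : r' ≤ 1)
    (ha' : ‖a'‖ ≤ 1) (hz : 1 / 9 ≤ ‖(1 - r') • T.u + r' • a'‖) :
    ‖T.cone r a - T.cone r' a'‖ ≤ 73 * |r - r'| + 36 * (r * ‖a - a'‖) := by
  have e : T.cone r a - T.cone r' a' = (r' - r) • nz ((1 - r) • T.u + r • a) +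
      (2 - r') • (nz ((1 - r) • T.u + r • a) - nz ((1 - r') • T.u + r' • a')) := by
    simp only [cone, sub_smul, smul_sub]; abel
  have e2 : ((1 - r) • T.u + r • a) - ((1 - r') • T.u + r' • a') =
      (r' - r) • T.u + r • (a - a') + (r - r') • a' := by
    simp only [sub_smul, smul_sub]; abel
  have a1 : ‖((1 - r) • T.u + r • a) - ((1 - r') • T.u + r' • a')‖ ≤
      2 * |r - r'| + r * ‖a - a'‖ := by
    rw [e2]
    refine norm_add₃_le.trans ?_
    rw [norm_smul, norm_smul, norm_smul, T.hu, Real.norm_eq_abs, Real.norm_eq_abs, Real.norm_eq_abs,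
      abs_of_nonneg r0, abs_sub_comm r' r]
    have := mul_le_of_le_one_right (abs_nonneg (r - r')) ha'
    linarith
  have a2 := nz_lip (v := (1 - r) • T.u + r • a) (by norm_num : (0 : ℝ) < 1 / 9) hz
  rw [e]
  refine (norm_add_le _ _).trans ?_
  rw [norm_smul, norm_smul, Real.norm_eq_abs, Real.norm_eq_abs, abs_sub_comm r' r,
    abs_of_nonneg (by linarith : 0 ≤ 2 - r')]
  have a3 := mul_le_of_le_one_right (abs_nonneg (r - r')) (norm_nz_le ((1 - r) • T.u + r • a))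
  have a4 : (2 - r') * ‖nz ((1 - r) • T.u + r • a) - nz ((1 - r') • T.u + r' • a')‖ ≤
      2 * (18 * (2 * |r - r'| + r * ‖a - a'‖)) := by
    apply mul_le_mul (by linarith) _ (norm_nonneg _) (by norm_num)
    refine a2.trans ?_
    rw [div_le_iff₀ (by norm_num)]
    linarith
  linarith

lemma rr_pos (x : X) : 0 < T.rr x := mul_pos (T.ss_pos x) (exp_pos _)

lemma rr_le_one (x : X) : T.rr x ≤ 1 := by
  rw [rr_eq]; exact exp_le_one_iff.2 (by linarith [T.EE_le_ll x])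

lemma Phi_z {x : X} (hx : Sh x) {η : ℝ} (hη : |η| = 1) :
    1 / 9 ≤ ‖(1 - T.rr x) • T.u + T.rr x • (η • nz (T.VV x))‖ := by
  rcases (T.EE_le_ll x).lt_or_eq with h | h
  · have := T.As_smul hη (T.range_mem hx h)
    exact (T.cone_z (T.rr_pos x).le (T.rr_le_one x) this.1 this.2.1).1
  · rw [rr_eq, h, sub_self, neg_zero, exp_zero, sub_self, zero_smul, zero_add, one_smul, norm_smul,
      Real.norm_eq_abs, hη, norm_nz (T.VV_ne hx)]
    norm_num

section
variable {x x' : X} (hx : Sh x) (hx' : Sh x') (hs : T.ss x ≤ T.ss x')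
include hx hx' hs

omit hx hx' in
lemma ll_ge : T.ll x' ≤ T.ll x := neg_le_neg (log_le_log (T.ss_pos x) hs)

omit hx hx' hs in
lemma ll_sub_le : (T.ll x - T.ll x') * T.ss x ≤ T.ss x' - T.ss x := by
  have s0 := T.ss_pos x
  have h1 := log_le_sub_one_of_pos (div_pos (T.ss_pos x') s0)
  rw [log_div (T.ss_pos x').ne' s0.ne'] at h1
  have h2 := mul_le_mul_of_nonneg_right h1 s0.le
  rw [sub_mul (T.ss x' / T.ss x), div_mul_cancel₀ _ s0.ne', one_mul] at h2
  unfold ll
  linarith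

omit hx hx' in
lemma sg_mono : T.sg x ≤ T.sg x' :=
  mul_le_mul (T.dl_anti (T.ll_ge hs)) hs (T.ss_pos x).le (T.dl_pos _).le

lemma sg_lip : |T.sg x - T.sg x'| ≤ ‖x - x'‖ := by
  rw [abs_sub_comm, abs_of_nonneg (sub_nonneg.2 (T.sg_mono hs))]
  have a1 := T.dl_le (T.ll_nonneg hx')
  have a0 := T.dl_pos (T.ll x')
  have a2 : T.dl (T.ll x) = T.dl (T.ll x') * exp (-(T.κ * (T.ll x - T.ll x'))) := by
    have := T.dl_sub (T.ll x') (-(T.ll x - T.ll x'))
    rw [show T.ll x' - -(T.ll x - T.ll x') = T.ll x by ring] at this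
    rw [this]; congr 2; ring
  have a3 := add_one_le_exp (-(T.κ * (T.ll x - T.ll x')))
  have a4 := T.ll_ge hs
  have a5 : T.κ * (T.ll x - T.ll x') ≤ T.ll x - T.ll x' :=
    mul_le_of_le_one_left (by linarith) T.κ1
  have a6 : T.dl (T.ll x') - T.dl (T.ll x) ≤ (T.ll x - T.ll x') / 400 := by
    rw [a2]; nlinarith
  have a7 := T.ll_sub_le (x := x) (x' := x')
  have a8 := (abs_le.1 (T.ss_lip hx hx')).1
  have s0 := T.ss_pos x
  have a9 : (T.dl (T.ll x') - T.dl (T.ll x)) * T.ss x ≤ (T.ll x - T.ll x') / 400 * T.ss x :=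
    mul_le_mul_of_nonneg_right a6 s0.le
  have a10 : T.dl (T.ll x') * (T.ss x' - T.ss x) ≤ 1 / 400 * (T.ss x' - T.ss x) :=
    mul_le_mul_of_nonneg_right a1 (by linarith)
  unfold sg
  nlinarith [norm_nonneg (x - x')]

omit hx' hs in
lemma d_le_s : ‖x - x'‖ ≤ T.ss x * (‖x - x'‖ / T.sg x) := by
  have h1 := T.sg_pos x
  have h2 : T.sg x ≤ T.ss x := by linarith [T.sg_le hx, T.ss_pos x]
  have h3 : ‖x - x'‖ = T.sg x * (‖x - x'‖ / T.sg x) := by field_simp
  calc ‖x - x'‖ = T.sg x * (‖x - x'‖ / T.sg x) := h3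
    _ ≤ _ := mul_le_mul_of_nonneg_right h2 (by positivity)

omit hx' hs in
lemma d_le_rho : ‖x - x'‖ ≤ ‖x - x'‖ / T.sg x :=
  (T.d_le_s hx).trans (mul_le_of_le_one_left (div_nonneg (norm_nonneg _) (T.sg_pos x).le)
    (T.ss_le_one hx))

lemma ll_rho : |T.ll x - T.ll x'| ≤ 5 * (‖x - x'‖ / T.sg x) := by
  rw [abs_of_nonneg (sub_nonneg.2 (T.ll_ge hs))]
  have a7 := T.ll_sub_le (x := x) (x' := x')
  have a8 := (abs_le.1 (T.ss_lip hx hx')).1
  have a9 := T.d_le_s (x' := x') hx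
  have s0 := T.ss_pos x
  apply le_of_mul_le_mul_right _ s0
  linarith

lemma tau_rho : |T.tau x - T.tau x'| ≤ 23 * (‖x - x'‖ / T.sg x) := by
  have hD : |T.DD x - T.DD x'| ≤ ‖x - x'‖ := by
    have h1 := Metric.infDist_le_infDist_add_dist (x := x) (y := x') (s := T.Ms)
    have h2 := Metric.infDist_le_infDist_add_dist (x := x') (y := x) (s := T.Ms)
    rw [dist_comm] at h2
    rw [dist_eq_norm] at h1 h2
    unfold DD
    rw [abs_le]; constructor <;> linarith
  have hσ := T.sg_lip hx hx' hs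
  have h1 := trunc_lip (T.DD_nonneg x') (T.sg_pos x) le_rfl (T.sg_mono hs) hD hσ
  have h2 := trunc_lip (T.DD_nonneg x) (T.sg_pos x) (T.sg_mono hs) le_rfl
    (abs_sub_comm (T.DD x) _ ▸ hD) (abs_sub_comm (T.sg x) _ ▸ hσ)
  unfold tau
  rw [abs_le]; constructor <;> linarith

lemma WW_rho : ‖T.WW x - T.WW x'‖ ≤ 509 * (‖x - x'‖ / T.sg x) := by
  have d1 := T.d_le_rho (x' := x') hx
  have t1 := T.tau_rho hx hx' hs
  have w1 : |T.ww x - T.ww x'| ≤ 504 * (‖x - x'‖ / T.sg x) := by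
    have a1 := abs_mul_sub (a := ‖x‖ - 1) (a' := ‖x'‖ - 1) (b := cl (3 - T.tau x))
      (b' := cl (3 - T.tau x')) (by rw [abs_le]; constructor <;> linarith [hx'.1, hx'.2])
      (abs_cl_le _)
    have a2 := cl_lip (3 - T.tau x) (3 - T.tau x')
    rw [show 3 - T.tau x - (3 - T.tau x') = -(T.tau x - T.tau x') by ring, abs_neg] at a2
    rw [show ‖x‖ - 1 - (‖x'‖ - 1) = ‖x‖ - ‖x'‖ by ring] at a1
    have a3 := abs_norm_sub_norm_le x x'
    have e : T.ww x - T.ww x' = 21 * ((‖x‖ - 1) * cl (3 - T.tau x) - (‖x'‖ - 1) * cl (3 - T.tau x')) := by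
      unfold ww; ring
    rw [e, abs_mul, abs_of_pos (by norm_num : (0 : ℝ) < 21)]
    linarith
  have w2 : |max (-T.ww x) (min (T.f x) (T.ww x)) - max (-T.ww x') (min (T.f x') (T.ww x'))| ≤
      504 * (‖x - x'‖ / T.sg x) := by
    refine (abs_max_sub_max_le_max _ _ _ _).trans (max_le ?_ ?_)
    · rwa [show -T.ww x - -T.ww x' = -(T.ww x - T.ww x') by ring, abs_neg]
    · refine (abs_min_sub_min_le_max _ _ _ _).trans (max_le ?_ w1)
      linarith [T.f_lip x x', norm_nonneg (x - x')]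
  have e : T.WW x - T.WW x' = (x - x') - (max (-T.ww x) (min (T.f x) (T.ww x)) -
      max (-T.ww x') (min (T.f x') (T.ww x'))) • T.u := by
    unfold WW; rw [sub_smul]; abel
  rw [e]
  refine (norm_sub_le _ _).trans ?_
  rw [norm_smul, T.hu, Real.norm_eq_abs]
  linarith [norm_nonneg (x - x')]

omit hx hx' hs in
lemma norm_div_max_le (v : X) {c : ℝ} (hc : 0 < c) : ‖(max ‖v‖ c)⁻¹ • v‖ ≤ 1 := by
  have h0 : 0 < max ‖v‖ c := lt_of_lt_of_le hc (le_max_right _ _)
  rw [norm_smul, Real.norm_eq_abs, abs_of_pos (inv_pos.2 h0), inv_mul_le_iff₀ h0, mul_one]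
  exact le_max_left _ _

lemma Wh_rho : ‖T.Wh x - T.Wh x'‖ ≤ 10180 * exp 301 * (‖x - x'‖ / T.sg x) := by
  have c0 : 0 < exp (-301) / 10 := by positivity
  have h0 : ∀ v : X, 0 < max ‖v‖ (exp (-301) / 10) := fun v => lt_of_lt_of_le c0 (le_max_right _ _)
  have w1 := T.WW_rho hx hx' hs
  have a1 := div_lip (v := T.WW x) (w := T.WW x') (h0 _) (h0 (T.WW x')) (le_max_left _ _)
  have a2 : |max ‖T.WW x‖ (exp (-301) / 10) - max ‖T.WW x'‖ (exp (-301) / 10)| ≤
      ‖T.WW x - T.WW x'‖ :=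
    (abs_max_sub_max_le_max _ _ _ _).trans (max_le (abs_norm_sub_norm_le _ _) (by simp))
  refine a1.trans ?_
  refine (div_le_div_of_nonneg_left (by positivity) c0 (le_max_right _ _)).trans ?_
  rw [div_le_iff₀ c0]
  have e : exp 301 * exp (-301) = 1 := by rw [← exp_add]; simp
  have e2 : 10180 * exp 301 * (‖x - x'‖ / T.sg x) * (exp (-301) / 10) =
      1018 * (‖x - x'‖ / T.sg x) * (exp 301 * exp (-301)) := by ring
  rw [e2, e]
  linarith

lemma yh_rho : ‖T.yh x - T.yh x'‖ ≤ 25 * (‖x - x'‖ / T.sg x) := by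
  have h0 : ∀ x : X, 0 < max ‖T.yy x‖ (T.ss x / 2) := fun x =>
    lt_of_lt_of_le (half_pos (T.ss_pos x)) (le_max_right _ _)
  have a1 := div_lip (v := T.yy x) (w := T.yy x') (h0 x) (h0 x') (le_max_left _ _)
  have y1 := T.yy_lip x x'
  have a2 : |max ‖T.yy x‖ (T.ss x / 2) - max ‖T.yy x'‖ (T.ss x' / 2)| ≤ 5 * ‖x - x'‖ := by
    refine (abs_max_sub_max_le_max _ _ _ _).trans (max_le ((abs_norm_sub_norm_le _ _).trans y1) ?_)
    have := abs_le.1 (T.ss_lip hx hx')
    rw [abs_le]; constructor <;> linarith [norm_nonneg (x - x')]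
  refine a1.trans ?_
  have s0 := T.ss_pos x
  refine (div_le_div_of_nonneg_left (by positivity) (half_pos s0)
    (le_trans (by linarith) (le_max_right _ _))).trans ?_
  rw [div_le_iff₀ (half_pos s0)]
  have := T.d_le_s (x' := x') hx
  nlinarith [norm_nonneg (x - x')]

lemma VV_rho : ‖T.VV x - T.VV x'‖ ≤ (10180 * exp 301 + 96) * (‖x - x'‖ / T.sg x) := by
  have l1 := T.ll_rho hx hx' hs
  have t1 := T.tau_rho hx hx' hs
  have m1 : |T.mu x - T.mu x'| ≤ 5 * (‖x - x'‖ / T.sg x) := by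
    refine (cl_lip _ _).trans ?_
    rwa [show T.ll x - 300 - (T.ll x' - 300) = T.ll x - T.ll x' by ring]
  have b1 : |T.bb x - T.bb x'| ≤ 23 * (‖x - x'‖ / T.sg x) := by
    refine (cl_lip _ _).trans ?_
    rwa [show T.tau x - 1 - (T.tau x' - 1) = T.tau x - T.tau x' by ring]
  have e1 : ‖T.ee x - T.ee x'‖ ≤ 10 * (‖x - x'‖ / T.sg x) :=
    (pth_lip T.hd _ _ _).trans (by linarith)
  have k1 := smul_lip (s := 1 - T.mu x) (s' := 1 - T.mu x') (p := T.Wh x) (p' := T.Wh x')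
    (abs_one_sub_cl_le _) (norm_div_max_le _ (by positivity))
  have k2 := smul_lip (s := T.mu x * (1 - T.bb x)) (s' := T.mu x' * (1 - T.bb x')) (p := T.yh x)
    (p' := T.yh x') (by
      rw [abs_mul]; exact mul_le_one₀ (abs_cl_le _) (abs_nonneg _) (abs_one_sub_cl_le _))
    (norm_div_max_le _ (half_pos (T.ss_pos x)))
  have k3 := smul_lip (s := T.mu x * T.bb x) (s' := T.mu x' * T.bb x') (p := T.ee x)
    (p' := T.ee x') (by rw [abs_of_nonneg (T.mb_nonneg x')]; exact T.mb_le_one x')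
    (T.norm_ee_le hx)
  have c1 : |1 - T.mu x - (1 - T.mu x')| = |T.mu x - T.mu x'| := by
    rw [show 1 - T.mu x - (1 - T.mu x') = -(T.mu x - T.mu x') by ring, abs_neg]
  have c2 := abs_mul_sub (a := T.mu x) (a' := T.mu x') (b := 1 - T.bb x) (b' := 1 - T.bb x')
    (abs_cl_le _) (abs_one_sub_cl_le _)
  rw [show 1 - T.bb x - (1 - T.bb x') = -(T.bb x - T.bb x') by ring, abs_neg] at c2
  have c3 := abs_mul_sub (a := T.mu x) (a' := T.mu x') (b := T.bb x) (b' := T.bb x')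
    (abs_cl_le _) (abs_cl_le _)
  have w1 := T.Wh_rho hx hx' hs
  have y1 := T.yh_rho hx hx' hs
  have e : T.VV x - T.VV x' = ((1 - T.mu x) • T.Wh x - (1 - T.mu x') • T.Wh x') +
      ((T.mu x * (1 - T.bb x)) • T.yh x - (T.mu x' * (1 - T.bb x')) • T.yh x') +
      ((T.mu x * T.bb x) • T.ee x - (T.mu x' * T.bb x') • T.ee x') := by
    unfold VV; abel
  rw [e]
  refine norm_add₃_le.trans ?_
  linarith

lemma Phi_bound {η : ℝ} (hη : |η| = 1) :
    ‖T.Phi η x - T.Phi η x'‖ ≤ 365 * exp (400 / T.κ) * ‖x - x'‖ +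
      exp (400 / T.κ) * (73 * (23 * (400 / T.κ) + 5) + 36 * (160 * (10180 * exp 301 + 96))) *
        (T.ss x * min (‖x - x'‖ / T.sg x) 1) := by
  have hA := T.A_ge
  set A := 400 / T.κ with hAdef
  set ρ := ‖x - x'‖ / T.sg x with hρ
  have ρ0 : 0 ≤ ρ := div_nonneg (norm_nonneg _) (T.sg_pos x).le
  have EA : ∀ y, T.EE y ≤ A := fun y =>
    (min_le_left _ _).trans (mul_le_of_le_one_right (by linarith) (min_le_right _ _))
  have l1 := T.ll_rho hx hx' hs
  have t1 := T.tau_rho hx hx' hs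
  have E1 : |T.EE x - T.EE x'| ≤ (23 * A + 5) * min ρ 1 := by
    rcases le_total ρ 1 with h | h
    · rw [min_eq_left h]
      refine (abs_min_sub_min_le_max _ _ _ _).trans (max_le ?_ ?_)
      · rw [← mul_sub, abs_mul, abs_of_nonneg (by linarith : 0 ≤ A)]
        have : |min (T.tau x) 1 - min (T.tau x') 1| ≤ 23 * ρ :=
          (abs_min_sub_min_le_max _ _ _ _).trans (max_le t1 (by simp; linarith))
        nlinarith
      · nlinarith
    · rw [min_eq_right h, abs_le]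
      constructor <;> linarith [EA x, EA x', T.EE_nonneg hx, T.EE_nonneg hx']
  have V1 : ‖η • nz (T.VV x) - η • nz (T.VV x')‖ ≤ 160 * (10180 * exp 301 + 96) * min ρ 1 := by
    rw [← smul_sub, norm_smul, Real.norm_eq_abs, hη, one_mul]
    rcases le_total ρ 1 with h | h
    · rw [min_eq_left h]
      refine (nz_lip (by norm_num : (0 : ℝ) < 1 / 80) (T.VV_ge hx')).trans ?_
      rw [div_le_iff₀ (by norm_num)]
      linarith [T.VV_rho hx hx' hs]
    · rw [min_eq_right h]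
      refine (norm_sub_le _ _).trans ?_
      linarith [norm_nz_le (T.VV x), norm_nz_le (T.VV x'), exp_pos 301]
  have s0 := T.ss_pos x
  have m0 : 0 ≤ min ρ 1 := le_min ρ0 zero_le_one
  have R1 : |T.rr x - T.rr x'| ≤ exp A * (23 * A + 5) * (T.ss x * min ρ 1) +
      5 * exp A * ‖x - x'‖ := by
    have e : T.rr x - T.rr x' = T.ss x * (exp (T.EE x) - exp (T.EE x')) +
        (T.ss x - T.ss x') * exp (T.EE x') := by unfold rr; ring
    rw [e]
    refine (abs_add_le _ _).trans ?_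
    rw [abs_mul, abs_mul, abs_of_pos s0, abs_of_pos (exp_pos _)]
    have a1 := (exp_lip (EA x) (EA x')).trans (mul_le_mul_of_nonneg_left E1 (exp_pos A).le)
    have a2 := mul_le_mul_of_nonneg_left a1 s0.le
    have a3 := mul_le_mul (T.ss_lip hx hx') (exp_le_exp.2 (EA x')) (exp_pos _).le (by positivity)
    linarith
  have R2 : T.rr x * ‖η • nz (T.VV x) - η • nz (T.VV x')‖ ≤
      exp A * (160 * (10180 * exp 301 + 96)) * (T.ss x * min ρ 1) := by
    have a1 : T.rr x ≤ T.ss x * exp A := mul_le_mul_of_nonneg_left (exp_le_exp.2 (EA x)) s0.le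
    have a2 := mul_le_mul a1 V1 (norm_nonneg _) (by positivity)
    linarith
  have := T.cone_lip (a := η • nz (T.VV x)) (a' := η • nz (T.VV x')) (T.rr_pos x).le
    (T.rr_pos x').le (T.rr_le_one x')
    (by rw [norm_smul, Real.norm_eq_abs, hη, one_mul]; exact norm_nz_le _) (T.Phi_z hx' hη)
  unfold Phi
  linarith

end

end Tube

theorem Phi_holder {α : ℝ} (a0 : 0 < α) (a1 : α < 1) : ∃ C : ℝ, 0 ≤ C ∧ ∀ T : Tube X,
    T.κ = 1 - α → ∀ η : ℝ, |η| = 1 → ∀ x x' : X, Sh x → Sh x' →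
      ‖T.Phi η x - T.Phi η x'‖ ≤ C * ‖x - x'‖ ^ α := by
  have k0 : 0 < 1 - α := by linarith
  refine ⟨365 * exp (400 / (1 - α)) * 4 + exp (400 / (1 - α)) *
    (73 * (23 * (400 / (1 - α)) + 5) + 36 * (160 * (10180 * exp 301 + 96))) * 400,
    by positivity, fun T hκ η hη x x' hx hx' => ?_⟩
  wlog hs : T.ss x ≤ T.ss x' generalizing x x'
  · rw [norm_sub_rev, norm_sub_rev x]; exact this x' x hx' hx (le_of_not_ge hs)
  have h1 := T.Phi_bound hx hx' hs hη
  rw [hκ] at h1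
  have d0 := norm_nonneg (x - x')
  have h2 : ‖x - x'‖ ≤ 4 * ‖x - x'‖ ^ α := by
    have b1 := min_le_rpow (ρ := ‖x - x'‖ / 4) (by positivity) a0 a1.le
    rw [min_eq_left (by linarith [norm_sub_le x x', hx.2, hx'.2])] at b1
    have b2 : (‖x - x'‖ / 4) ^ α ≤ ‖x - x'‖ ^ α := rpow_le_rpow (by positivity) (by linarith) a0.le
    linarith
  have h3 : T.ss x * min (‖x - x'‖ / T.sg x) 1 ≤ 400 * ‖x - x'‖ ^ α := by
    have σ0 := T.sg_pos x
    have b1 := min_le_rpow (ρ := ‖x - x'‖ / T.sg x) (by positivity) a0 a1.le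
    have b2 : T.ss x ≤ 400 * T.sg x ^ α := by
      have c1 : T.sg x = exp (-((1 + T.κ) * T.ll x)) / 400 := by
        unfold Tube.sg Tube.dl
        rw [← T.exp_ll x, div_mul_eq_mul_div, ← exp_add]
        congr 2; ring
      have c2 : (400 : ℝ) ^ α ≤ 400 := by
        simpa using rpow_le_rpow_of_exponent_le (x := 400) (by norm_num) a1.le
      have c3 : 0 < (400 : ℝ) ^ α := by positivity
      rw [c1, div_rpow (exp_pos _).le (by norm_num), ← exp_mul, ← T.exp_ll x]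
      have c4 : exp (-T.ll x) ≤ exp (-((1 + T.κ) * T.ll x) * α) := by
        apply exp_le_exp.2
        have l0 := T.ll_nonneg hx
        rw [hκ]
        nlinarith [mul_nonneg l0 (sq_nonneg (1 - α))]
      have c5 : exp (-((1 + T.κ) * T.ll x) * α) / 400 ≤
          exp (-((1 + T.κ) * T.ll x) * α) / 400 ^ α :=
        div_le_div_of_nonneg_left (exp_pos _).le c3 c2
      linarith
    have b3 := mul_le_mul b2 b1 (le_min (by positivity) zero_le_one) (by positivity)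
    rw [mul_assoc, ← mul_rpow σ0.le (by positivity), mul_div_cancel₀ _ σ0.ne'] at b3
    exact b3
  have h4 := mul_le_mul_of_nonneg_left h2 (by positivity : 0 ≤ 365 * exp (400 / (1 - α)))
  have h5 := mul_le_mul_of_nonneg_left h3 (by positivity : 0 ≤ exp (400 / (1 - α)) *
    (73 * (23 * (400 / (1 - α)) + 5) + 36 * (160 * (10180 * exp 301 + 96))))
  linarith

end Pool.Agent.H55.HFP
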