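import Pool.Agent.H55.HFP4

set_option autoImplicit false

open Set Real

namespace Pool.Agent.H55.HFP

variable {X : Type*} [NormedAddCommGroup X] [NormedSpace ℝ X]

lemma exists_tubes (hX : ¬ FiniteDimensional ℝ X) {κ : ℝ} (k0 : 0 < κ) (k1 : κ ≤ 1) :
    ∃ T : ℕ → Tube X, (∀ n, (T n).κ = κ) ∧ (∀ n, (T n).J = n) ∧
      ∀ n m, n ≠ m → ∀ x x', Sh x → Sh x' → (T n).Near x → (T m).Near x' → 1 / 7 ≤ ‖x - x'‖ := by
  obtain ⟨v, φ, hv, hφ, hbi, hb⟩ := exists_system hX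
  let T : ℕ → Tube X := fun n =>
    { u := v ((n + 4) ^ 2)
      f := φ ((n + 4) ^ 2)
      d := fun i => v ((n + 4) ^ 2 + 1 + i)
      ψ := fun i => φ ((n + 4) ^ 2 + 1 + i)
      J := n
      κ := κ
      hu := hv _
      hd := fun _ => hv _
      hf := hφ _
      hψ := fun _ => hφ _
      fu := by rw [hbi, if_pos rfl]
      fd := fun i => by rw [hbi, if_neg (by omega)]
      ψu := fun i => by rw [hbi, if_neg (by omega)]
      ψd := fun i j => by
        rw [hbi]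
        by_cases h : i = j
        · rw [if_pos h, if_pos (by omega)]
        · rw [if_neg h, if_neg (by omega)]
      κ0 := k0
      κ1 := k1 }
  have key : ∀ n m, n < m → ∀ x x', Sh x → (T n).Near x → (T m).Near x' → 1 / 7 ≤ ‖x - x'‖ := by
    rintro n m hnm x x' hx ⟨p, hp, hp2⟩ ⟨q, hq, hq2⟩
    have hsq : (n + 4) ^ 2 + 1 + (n + 2) < (m + 4) ^ 2 := by nlinarith
    have h1 : (T n).GG ≤ Submodule.span ℝ (v '' Iio ((m + 4) ^ 2)) := by
      refine sup_le (Submodule.span_mono ?_) (Submodule.span_mono ?_)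
      · rintro _ rfl
        exact ⟨(n + 4) ^ 2, by simp only [mem_Iio]; omega, rfl⟩
      · rintro _ ⟨i, hi, rfl⟩
        have : i ≤ n + 2 := hi
        exact ⟨(n + 4) ^ 2 + 1 + i, by simp only [mem_Iio]; omega, rfl⟩
    have h2 : (T m).GG ≤ Submodule.span ℝ (v '' Ici ((m + 4) ^ 2)) := by
      refine sup_le (Submodule.span_mono ?_) (Submodule.span_mono ?_)
      · rintro _ rfl
        exact ⟨(m + 4) ^ 2, mem_Ici.2 le_rfl, rfl⟩
      · rintro _ ⟨i, -, rfl⟩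
        exact ⟨(m + 4) ^ 2 + 1 + i, by simp only [mem_Ici]; omega, rfl⟩
    have h3 := hb _ p (h1 hp) (-q) (Submodule.neg_mem _ (h2 hq))
    have h4 := norm_sub_norm_le x p
    have h5 : ‖p + -q‖ ≤ ‖x - p‖ + ‖x - x'‖ + ‖x' - q‖ := by
      have e : p + -q = -(x - p) + (x - x') + (x' - q) := by abel
      rw [e]
      refine norm_add₃_le.trans ?_
      rw [norm_neg]
    linarith [hx.1]
  refine ⟨T, fun _ => rfl, fun _ => rfl, fun n m hnm x x' hx hx' h1 h2 => ?_⟩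
  rcases lt_or_gt_of_ne hnm with h | h
  · exact key n m h x x' hx h1 h2
  · rw [norm_sub_rev]; exact key m n h x' x hx' h2 h1

theorem exists_shell_maps (hX : ¬ FiniteDimensional ℝ X) {α : ℝ} (a0 : 0 < α) (a1 : α < 1) :
    ∃ (Φ : ℝ → X → X) (C : ℝ), 0 ≤ C ∧
      (∀ η, |η| = 1 → ∀ x x', Sh x → Sh x' → ‖Φ η x - Φ η x'‖ ≤ C * ‖x - x'‖ ^ α) ∧
      (∀ η, |η| = 1 → ∀ x, Sh x → Sh (Φ η x)) ∧
      (∀ η η', |η| = 1 → |η'| = 1 → ∀ x, Sh x → Φ η (Φ η' x) = Φ (η * η') x) ∧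
      (∀ x, Sh x → Φ (-1) x ≠ x) ∧
      ∀ δ > 0, ∃ x, Sh x ∧ ‖x - Φ (-1) x‖ < δ := by
  classical
  obtain ⟨T, hκ, hJ, hsep⟩ := exists_tubes hX (by linarith : 0 < 1 - α) (by linarith)
  obtain ⟨C, C0, hC⟩ := Phi_holder (X := X) a0 a1
  let Φ : ℝ → X → X := fun η x =>
    if h : ∃ n, (T n).Near x then (T h.choose).Phi η x else η • nz x
  have uniq : ∀ x, Sh x → ∀ n, (T n).Near x → ∀ m, m ≠ n → ¬ (T m).Near x := by
    intro x hx n hn m hm h
    have := hsep m n hm x x hx hx h hn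
    rw [sub_self, norm_zero] at this
    linarith
  have glob : ∀ η, |η| = 1 → ∀ x, Sh x → ∀ n, (∀ m, m ≠ n → ¬ (T m).Near x) →
      Φ η x = (T n).Phi η x := by
    intro η hη x hx n hn
    by_cases h : ∃ n, (T n).Near x
    · have e : h.choose = n := by
        by_contra hc
        exact hn _ hc h.choose_spec
      simp only [Φ, dif_pos h, e]
    · simp only [Φ, dif_neg h]
      exact ((T n).off_near hx (fun h' => h ⟨n, h'⟩) hη).symm
  have exn : ∀ x, Sh x → ∃ n, ∀ m, m ≠ n → ¬ (T m).Near x := by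
    intro x hx
    by_cases h : ∃ n, (T n).Near x
    · obtain ⟨n, hn⟩ := h
      exact ⟨n, uniq x hx n hn⟩
    · exact ⟨0, fun m _ h' => h ⟨m, h'⟩⟩
  have sph : ∀ η, |η| = 1 → ∀ a : X, ‖a‖ = 1 → Φ η a = η • a := by
    intro η hη a ha
    have hx : Sh a := ⟨ha.ge, by linarith⟩
    obtain ⟨n, hn⟩ := exn a hx
    rw [glob η hη a hx n hn, (T n).on_sphere ha hη]
  have tub : ∀ η, |η| = 1 → ∀ n l, 0 ≤ l → ∀ a ∈ (T n).As l,
      Φ η ((T n).cone (exp (-l)) a) = (T n).cone (exp (-l)) (η • a) := by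
    intro η hη n l hl a ha
    have hx := ((T n).tube_spec hl ha).1
    obtain ⟨t0, e⟩ := (T n).on_tube hl ha η
    rw [glob η hη _ hx n (uniq _ hx n ((T n).near_of_tau hx (by rw [t0]; norm_num))), e]
  have str : ∀ x, Sh x → (∃ a : X, ‖a‖ = 1 ∧ ∀ η, |η| = 1 → Φ η x = η • a) ∨
      ∃ n l, 0 ≤ l ∧ ∃ a ∈ (T n).As l, ∀ η, |η| = 1 → Φ η x = (T n).cone (exp (-l)) (η • a) := by
    intro x hx
    obtain ⟨n, hn⟩ := exn x hx
    rcases ((T n).EE_le_ll x).lt_or_eq with h | h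
    · refine Or.inr ⟨n, _, by linarith, _, (T n).range_mem hx h, fun η hη => ?_⟩
      rw [glob η hη x hx n hn, Tube.Phi, (T n).rr_eq]
    · refine Or.inl ⟨_, norm_nz ((T n).VV_ne hx), fun η hη => ?_⟩
      rw [glob η hη x hx n hn, Tube.Phi, (T n).rr_eq, h, sub_self, neg_zero, exp_zero,
        (T n).cone_one]
      rw [norm_smul, Real.norm_eq_abs, hη, norm_nz ((T n).VV_ne hx), mul_one]
  have shl : ∀ η, |η| = 1 → ∀ x, Sh x → Sh (Φ η x) := by
    intro η hη x hx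
    rcases str x hx with ⟨a, ha, h⟩ | ⟨n, l, hl, a, ha, h⟩
    · have : ‖Φ η x‖ = 1 := by rw [h η hη, norm_smul, Real.norm_eq_abs, hη, ha, mul_one]
      exact ⟨this.ge, by linarith⟩
    · rw [h η hη]
      exact ((T n).tube_spec hl ((T n).As_smul hη ha)).1
  have comp : ∀ η η', |η| = 1 → |η'| = 1 → ∀ x, Sh x → Φ η (Φ η' x) = Φ (η * η') x := by
    intro η η' hη hη' x hx
    have hηη : |η * η'| = 1 := by rw [abs_mul, hη, hη', mul_one]
    rcases str x hx with ⟨a, ha, h⟩ | ⟨n, l, hl, a, ha, h⟩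
    · rw [h η' hη', h _ hηη, sph η hη _ (by rw [norm_smul, Real.norm_eq_abs, hη', ha, mul_one]),
        smul_smul]
    · rw [h η' hη', h _ hηη, tub η hη n l hl _ ((T n).As_smul hη' ha), smul_smul]
  have m1 : |(-1 : ℝ)| = 1 := by norm_num
  have p1 : |(1 : ℝ)| = 1 := by norm_num
  refine ⟨Φ, C + 28, by linarith, fun η hη x x' hx hx' => ?_, shl, comp, fun x hx hfix => ?_,
    fun δ hδ => ?_⟩
  · have r0 : 0 ≤ ‖x - x'‖ ^ α := by positivity
    by_cases hc : ∃ n, (∀ m, m ≠ n → ¬ (T m).Near x) ∧ ∀ m, m ≠ n → ¬ (T m).Near x'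
    · obtain ⟨n, h1, h2⟩ := hc
      rw [glob η hη x hx n h1, glob η hη x' hx' n h2]
      have := hC (T n) (hκ n) η hη x x' hx hx'
      nlinarith
    · have h7 : 1 / 7 ≤ ‖x - x'‖ := by
        push Not at hc
        obtain ⟨n, hn⟩ := exn x hx
        obtain ⟨m, hm, hm2⟩ := hc n hn
        by_cases hn2 : (T n).Near x
        · exact hsep n m hm.symm x x' hx hx' hn2 hm2
        · obtain ⟨k, hk, hk2⟩ := hc m (fun j _ hj => by
            by_cases e : j = n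
            · exact hn2 (e ▸ hj)
            · exact hn j e hj)
          exact absurd hk2 (uniq x' hx' m hm2 k hk)
      have h8 : 1 / 7 ≤ ‖x - x'‖ ^ α :=
        le_trans (le_min h7 (by norm_num)) (min_le_rpow (norm_nonneg _) a0 a1.le)
      have h9 := norm_sub_le (Φ η x) (Φ η x')
      have := (shl η hη x hx).2
      have := (shl η hη x' hx').2
      nlinarith
  · have e1 : Φ (-1) x = Φ 1 x := by
      have := comp (-1) (-1) m1 m1 x hx
      rw [hfix] at this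
      simpa [hfix] using this
    rcases str x hx with ⟨a, ha, h⟩ | ⟨n, l, hl, a, ha, h⟩
    · rw [h _ m1, h _ p1, neg_smul, one_smul] at e1
      have : (2 : ℝ) • a = 0 := by rw [two_smul]; nth_rewrite 1 [← e1]; simp
      have := congrArg norm this
      rw [norm_smul, ha] at this
      norm_num at this
    · rw [h _ m1, h _ p1] at e1
      have s1 := ((T n).tube_spec hl ((T n).As_smul m1 ha)).2.2.2.2
      have s2 := ((T n).tube_spec hl ((T n).As_smul p1 ha)).2.2.2.2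
      rw [e1, s2, neg_smul, one_smul] at s1
      have : (2 : ℝ) • a = 0 := by rw [two_smul]; nth_rewrite 1 [s1]; simp
      have := congrArg norm this
      rw [norm_smul, ha.1] at this
      norm_num at this
  · obtain ⟨n, hn⟩ := exists_nat_gt (72 / δ)
    have ha := (T n).tip_mem
    have hl : (0 : ℝ) ≤ (T n).J := Nat.cast_nonneg _
    refine ⟨_, ((T n).tube_spec hl ha).1, ?_⟩
    rw [tub _ m1 n _ hl _ ha]
    have r0 := exp_pos (-((T n).J : ℝ))
    have r1 : exp (-((T n).J : ℝ)) ≤ 1 := exp_le_one_iff.2 (by linarith)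
    have ha' := (T n).As_smul m1 ha
    refine lt_of_le_of_lt ((T n).cone_lip r0.le r0.le r1 ha'.1.le
      ((T n).cone_z r0.le r1 ha'.1 ha'.2.1).1) ?_
    have b1 := norm_sub_le ((T n).d ((T n).J + 2)) ((-1 : ℝ) • (T n).d ((T n).J + 2))
    rw [ha.1, ha'.1] at b1
    have b2 : exp (-((T n).J : ℝ)) * ((n : ℝ) + 1) ≤ 1 := by
      rw [hJ, exp_neg, inv_mul_le_iff₀ (exp_pos _), mul_one]
      exact add_one_le_exp _
    rw [div_lt_iff₀ hδ] at hn
    have b3 := mul_le_mul_of_nonneg_left b1 r0.le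
    rw [sub_self, abs_zero, mul_zero, zero_add]
    have b4 : 72 * exp (-((T n).J : ℝ)) < δ := by nlinarith
    linarith

theorem exists_map (hX : ¬ FiniteDimensional ℝ X) {α : ℝ} (a0 : 0 < α) (a1 : α < 1) :
    ∃ T : X → X, (∀ x, ‖T x‖ ≤ 1) ∧
      (∀ n, 1 ≤ n → ∀ x y, ‖T^[n] x - T^[n] y‖ ≤ ‖x - y‖ ^ α) ∧ (∀ x, T x ≠ x) ∧
      ∀ δ > 0, ∃ x, ‖x‖ ≤ 1 ∧ ‖x - T x‖ < δ := by
  obtain ⟨Φ, C, C0, h1, h2, h3, h4, h5⟩ := exists_shell_maps hX a0 a1
  obtain ⟨Q, L, L0, q1, q2, q3⟩ := exists_shell_retraction hX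
  obtain ⟨ε, e0, e1, e2⟩ : ∃ ε : ℝ, 0 < ε ∧ ε ≤ 1 / 2 ∧ C * L ^ α * ε ^ (1 - α) ≤ 1 := by
    set K := C * L ^ α + 2 with hK
    have K2 : 2 ≤ K := by have : 0 ≤ C * L ^ α := by positivity
                          linarith
    have K0 : 0 < K := by linarith
    refine ⟨K⁻¹ ^ (1 - α)⁻¹, by positivity, ?_, ?_⟩
    · have b1 : K⁻¹ ≤ 1 / 2 := by rw [← one_div]; exact one_div_le_one_div_of_le (by norm_num) K2
      have b2 : 1 ≤ (1 - α)⁻¹ := (one_le_inv₀ (by linarith)).2 (by linarith)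
      have := rpow_le_rpow_of_exponent_ge (inv_pos.2 K0) (by linarith) b2
      rw [rpow_one] at this
      linarith
    · rw [← rpow_mul (by positivity), inv_mul_cancel₀ (by linarith), rpow_one,
        ← div_eq_mul_inv, div_le_one K0]
      linarith
  have m1 : ∀ k : ℕ, |(-1 : ℝ) ^ k| = 1 := fun k => by simp
  have m2 : |(-1 : ℝ)| = 1 := by norm_num
  let T : X → X := fun x => ε • Φ (-1) (Q (ε⁻¹ • x))
  have it : ∀ k x, T^[k + 1] x = ε • Φ ((-1) ^ (k + 1)) (Q (ε⁻¹ • x)) := by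
    intro k x
    induction k with
    | zero => simp [T]
    | succ k ih =>
      rw [Function.iterate_succ_apply', ih]
      have s := h2 _ (m1 (k + 1)) _ (q2 (ε⁻¹ • x))
      simp only [T]
      rw [smul_smul, inv_mul_cancel₀ e0.ne', one_smul, q3 _ s.1 s.2,
        h3 _ _ m2 (m1 (k + 1)) _ (q2 _), ← pow_succ']
  refine ⟨T, fun x => ?_, fun n hn x y => ?_, fun x hx => ?_, fun δ hδ => ?_⟩
  · have s := h2 _ m2 _ (q2 (ε⁻¹ • x))
    simp only [T]
    rw [norm_smul, Real.norm_eq_abs, abs_of_pos e0]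
    nlinarith [s.2]
  · obtain ⟨k, rfl⟩ : ∃ k, n = k + 1 := ⟨n - 1, by omega⟩
    rw [it, it, ← smul_sub, norm_smul, Real.norm_eq_abs, abs_of_pos e0]
    have b1 := h1 _ (m1 (k + 1)) _ _ (q2 (ε⁻¹ • x)) (q2 (ε⁻¹ • y))
    have b2 := q1 (ε⁻¹ • x) (ε⁻¹ • y)
    rw [← smul_sub, norm_smul, Real.norm_eq_abs, abs_of_pos (inv_pos.2 e0)] at b2
    have b3 := rpow_le_rpow (norm_nonneg _) b2 a0.le
    rw [mul_rpow L0 (by positivity), mul_rpow (by positivity) (norm_nonneg _),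
      inv_rpow e0.le] at b3
    have b4 := mul_le_mul_of_nonneg_left (b1.trans (mul_le_mul_of_nonneg_left b3 C0)) e0.le
    have b5 : ε * (C * (L ^ α * ((ε ^ α)⁻¹ * ‖x - y‖ ^ α))) =
        C * L ^ α * ε ^ (1 - α) * ‖x - y‖ ^ α := by
      rw [rpow_sub e0, rpow_one]; ring
    rw [b5] at b4
    exact b4.trans (mul_le_of_le_one_left (by positivity) e2)
  · have e : Φ (-1) (Q (ε⁻¹ • x)) = ε⁻¹ • x := by
      rw [← hx]
      simp only [T]
      rw [smul_smul, inv_mul_cancel₀ e0.ne', one_smul]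
      have s := h2 _ m2 _ (q2 (ε⁻¹ • x))
      have := congrArg (fun z => ε⁻¹ • z) hx
      simp only [T, smul_smul, inv_mul_cancel₀ e0.ne', one_smul] at this
      rw [this]
      exact this
    have s := h2 _ m2 _ (q2 (ε⁻¹ • x))
    rw [e] at s
    rw [q3 _ s.1 s.2] at e
    exact h4 _ s e
  · obtain ⟨x, hx, hx2⟩ := h5 δ hδ
    refine ⟨ε • x, ?_, ?_⟩
    · rw [norm_smul, Real.norm_eq_abs, abs_of_pos e0]
      nlinarith [hx.2]
    · simp only [T]
      rw [smul_smul, inv_mul_cancel₀ e0.ne', one_smul, q3 _ hx.1 hx.2, ← smul_sub, norm_smul,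
        Real.norm_eq_abs, abs_of_pos e0]
      nlinarith [norm_nonneg (x - Φ (-1) x)]

end Pool.Agent.H55.HFP
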