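import Mathlib

set_option autoImplicit false

namespace Pool.Agent.H55.HN

open Complex MeasureTheory Filter Topology Set
open scoped ENNReal

lemma int_inv (ρ c : ℝ) (hρ : 0 < ρ) :
    Integrable (fun y : ℝ => (ρ ^ 2 + (y + c) ^ 2)⁻¹) ∧
      ∫ y : ℝ, (ρ ^ 2 + (y + c) ^ 2)⁻¹ = Real.pi / ρ := by
  have h1 : ∀ y : ℝ, (ρ ^ 2 + y ^ 2)⁻¹ = (ρ ^ 2)⁻¹ * (1 + (ρ⁻¹ * y) ^ 2)⁻¹ := by
    intro y; field_simp
  have h2 : Integrable (fun y : ℝ => (ρ ^ 2 + y ^ 2)⁻¹) := by
    simp_rw [h1]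
    exact (integrable_inv_one_add_sq.comp_mul_left' (inv_ne_zero hρ.ne')).const_mul _
  refine ⟨h2.comp_add_right c, ?_⟩
  rw [integral_add_right_eq_self (fun y : ℝ => (ρ ^ 2 + y ^ 2)⁻¹) c]
  simp_rw [h1]
  rw [integral_const_mul, Measure.integral_comp_mul_left (fun y : ℝ => (1 + y ^ 2)⁻¹) ρ⁻¹,
    integral_univ_inv_one_add_sq, inv_inv, abs_of_pos hρ, smul_eq_mul]
  field_simp

lemma strip (g : ℂ → ℂ) (R : ℝ) (hR : 0 < R) (hg : ∀ z : ℂ, 0 ≤ z.re → DifferentiableAt ℂ g z)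
    (M : ℝ≥0∞) (hM : M ≠ ⊤) (hb : ∀ t : ℝ, 0 ≤ t → t ≤ R → ∫⁻ y : ℝ, ‖g (t + y * I)‖ₑ ≤ M) :
    ∫ y : ℝ, g (y * I) = ∫ y : ℝ, g (R + y * I) := by
  have hc : Continuous (fun p : ℝ × ℝ => g (((max p.1 0 : ℝ) : ℂ) + p.2 * I)) := by
    rw [continuous_iff_continuousAt]
    intro p
    have h1 : ContinuousAt g (((max p.1 0 : ℝ) : ℂ) + p.2 * I) :=
      (hg _ (by simp)).continuousAt
    exact ContinuousAt.comp (f := fun p : ℝ × ℝ => (((max p.1 0 : ℝ) : ℂ) + p.2 * I)) h1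
      (by fun_prop)
  have hl : ∀ t : ℝ, 0 ≤ t → t ≤ R → Integrable (fun y : ℝ => g (t + y * I)) := by
    intro t h0 h1
    have : Continuous (fun y : ℝ => g (t + y * I)) := by
      have := hc.comp (Continuous.prodMk_right t)
      simpa [Function.comp_def, max_eq_left h0] using this
    exact ⟨this.aestronglyMeasurable, lt_of_le_of_lt (hb t h0 h1) hM.lt_top⟩
  have hj : Integrable (fun p : ℝ × ℝ => g (((max p.1 0 : ℝ) : ℂ) + p.2 * I))
      ((volume.restrict (Ioc 0 R)).prod volume) := by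
    refine ⟨hc.aestronglyMeasurable, ?_⟩
    unfold HasFiniteIntegral
    rw [lintegral_prod _ hc.enorm.measurable.aemeasurable]
    calc ∫⁻ t in Ioc 0 R, ∫⁻ y : ℝ, ‖g (((max t 0 : ℝ) : ℂ) + y * I)‖ₑ
        ≤ ∫⁻ t in Ioc 0 R, M := by
          refine setLIntegral_mono' measurableSet_Ioc fun t ht => ?_
          rw [max_eq_left ht.1.le]
          exact hb t ht.1.le ht.2
      _ < ⊤ := by
          rw [setLIntegral_const]
          exact ENNReal.mul_lt_top hM.lt_top (by simp)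
  have hH : Integrable (fun Y : ℝ => ∫ t in (0 : ℝ)..R, g (t + Y * I)) := by
    refine hj.integral_prod_right.congr (Eventually.of_forall fun Y => ?_)
    simp only
    rw [intervalIntegral.integral_of_le hR.le]
    refine setIntegral_congr_fun measurableSet_Ioc fun t ht => ?_
    simp only [max_eq_left ht.1.le]
  have hrect : ∀ Y : ℝ, 0 ≤ Y → (∫ t in (0 : ℝ)..R, g (t + Y * I)) -
      (∫ t in (0 : ℝ)..R, g (t + ((-Y : ℝ) : ℂ) * I)) =
      I * (∫ y in (-Y)..Y, g (R + y * I)) - I * (∫ y in (-Y)..Y, g (y * I)) := by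
    intro Y hY
    have := integral_boundary_rect_eq_zero_of_differentiableOn g ⟨0, -Y⟩ ⟨R, Y⟩ (by
      intro z hz
      refine (hg z ?_).differentiableWithinAt
      have := hz.1
      simp only [mem_preimage, uIcc_of_le hR.le] at this
      exact this.1)
    simp only [smul_eq_mul, ofReal_zero, zero_add] at this
    linear_combination -this
  have hlim : Tendsto (fun Y : ℝ => (∫ t in (0 : ℝ)..R, g (t + Y * I)) -
      (∫ t in (0 : ℝ)..R, g (t + ((-Y : ℝ) : ℂ) * I))) atTop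
      (𝓝 (I * (∫ y : ℝ, g (R + y * I)) - I * (∫ y : ℝ, g (y * I)))) := by
    have a1 := intervalIntegral_tendsto_integral (hl R hR.le le_rfl) tendsto_neg_atTop_atBot
      tendsto_id
    have a2 := intervalIntegral_tendsto_integral (hl 0 le_rfl hR.le) tendsto_neg_atTop_atBot
      tendsto_id
    simp only [ofReal_zero, zero_add, id] at a1 a2
    refine ((a1.const_mul I).sub (a2.const_mul I)).congr' ?_
    filter_upwards [eventually_ge_atTop 0] with Y hY
    exact (hrect Y hY).symm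
  have h0 := IntegrableAtFilter.eq_zero_of_tendsto (μ := volume)
    ((hH.sub hH.comp_neg).integrableAtFilter atTop) (by
      intro s hs
      rcases mem_atTop_sets.1 hs with ⟨b, hb⟩
      rw [← top_le_iff, ← Real.volume_Ici (a := b)]
      exact measure_mono hb) hlim
  have : I * ((∫ y : ℝ, g (R + y * I)) - (∫ y : ℝ, g (y * I))) = 0 := by
    linear_combination h0
  rcases mul_eq_zero.1 this with h | h
  · exact absurd h I_ne_zero
  · linear_combination -h

/-- holomorphic across the closed half plane, square integrable on all lines -/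
def Cl (q : ℂ → ℂ) (M : ℝ) : Prop :=
  (∀ z : ℂ, 0 ≤ z.re → DifferentiableAt ℂ q z) ∧
    ∀ t : ℝ, 0 ≤ t → Integrable (fun y : ℝ => ‖q (t + y * I)‖ ^ 2) ∧
      ∫ y : ℝ, ‖q (t + y * I)‖ ^ 2 ≤ M

lemma cont_line {q : ℂ → ℂ} (hq : ∀ z : ℂ, 0 ≤ z.re → DifferentiableAt ℂ q z) (t : ℝ)
    (ht : 0 ≤ t) : Continuous (fun y : ℝ => q (t + y * I)) := by
  rw [continuous_iff_continuousAt]
  intro y
  have h1 : ContinuousAt q (t + y * I) := (hq _ (by simpa using ht)).continuousAt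
  exact ContinuousAt.comp (f := fun y : ℝ => (t : ℂ) + y * I) h1 (by fun_prop)

lemma vanish {q : ℂ → ℂ} {M : ℝ} (hq : Cl q M) (a : ℂ) (ha : 0 < a.re) (h0 : q a = 0) :
    ∫ y : ℝ, q (y * I) / (y * I - a) = 0 := by
  set g := dslope q a with hgdef
  have hgd : ∀ z : ℂ, 0 ≤ z.re → DifferentiableAt ℂ g z := by
    intro z hz
    by_cases h : z = a
    · subst h
      have hU : {w : ℂ | 0 < w.re} ∈ 𝓝 z := (isOpen_lt continuous_const continuous_re).mem_nhds ha
      have h1 : DifferentiableOn ℂ q {w : ℂ | 0 < w.re} :=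
        fun w hw => (hq.1 w (le_of_lt hw)).differentiableWithinAt
      exact ((differentiableOn_dslope hU).2 h1).differentiableAt hU
    · exact (differentiableAt_dslope_of_ne h).2 (hq.1 z hz)
  have hge : ∀ z : ℂ, z ≠ a → g z = q z / (z - a) := by
    intro z hz
    rw [hgdef, dslope_of_ne _ hz, slope_def_field, h0, sub_zero]
  have hK : IsCompact (Metric.closedBall a 1 ∩ {w : ℂ | 0 ≤ w.re}) :=
    (isCompact_closedBall a 1).inter_right (isClosed_le continuous_const continuous_re)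
  obtain ⟨B, hB⟩ := hK.exists_bound_of_continuousOn (f := g)
    (fun z hz => (hgd z hz.2).continuousAt.continuousWithinAt)
  set D : ℝ := 1 + (1 + ‖a‖) ^ 2 with hD
  have hDpos : 0 < D := by positivity
  set C : ℝ := (|B| + 1) * D with hC
  have hbd : ∀ t y : ℝ, 0 ≤ t → ‖g (t + y * I)‖ ≤ ‖q (t + y * I)‖ ^ 2 + C * (1 + y ^ 2)⁻¹ := by
    intro t y ht
    set z : ℂ := t + y * I with hz
    have hy : |y| ≤ ‖z - a‖ + ‖a‖ := by
      have h1 : |z.im| ≤ ‖z‖ := abs_im_le_norm z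
      have h2 : ‖z‖ ≤ ‖z - a‖ + ‖a‖ := by simpa using norm_add_le (z - a) a
      have h3 : z.im = y := by simp [hz]
      rw [h3] at h1; linarith
    have hy2 : y ^ 2 ≤ (‖z - a‖ + ‖a‖) ^ 2 := by
      rw [← sq_abs]; exact pow_le_pow_left₀ (abs_nonneg _) hy 2
    have hp : 0 < 1 + y ^ 2 := by positivity
    by_cases h : ‖z - a‖ ≤ 1
    · have h1 := hB z ⟨by simpa [dist_eq_norm] using h, by simpa [hz] using ht⟩
      have h2 : 1 + y ^ 2 ≤ D := by
        have : (‖z - a‖ + ‖a‖) ^ 2 ≤ (1 + ‖a‖) ^ 2 := by gcongr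
        linarith
      have h3 : |B| + 1 ≤ C * (1 + y ^ 2)⁻¹ := by
        rw [← div_eq_mul_inv, le_div_iff₀ hp, hC]
        gcongr
      have := le_abs_self B
      have := sq_nonneg ‖q z‖
      linarith
    · push Not at h
      have hne : z ≠ a := by
        rintro h'; rw [h', sub_self, norm_zero] at h; linarith
      rw [hge z hne, norm_div]
      set r := ‖z - a‖
      have hr : 0 < r := by linarith
      have h2 : 1 + y ^ 2 ≤ D * r ^ 2 := by
        have h4 : r + ‖a‖ ≤ (1 + ‖a‖) * r := by nlinarith [norm_nonneg a]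
        have h5 : (r + ‖a‖) ^ 2 ≤ ((1 + ‖a‖) * r) ^ 2 := by gcongr
        have h6 : 1 ≤ r ^ 2 := by nlinarith
        rw [hD]; nlinarith
      have h3 : (r ^ 2)⁻¹ ≤ C * (1 + y ^ 2)⁻¹ := by
        rw [← div_eq_mul_inv, le_div_iff₀ hp, inv_mul_le_iff₀ (by positivity)]
        have : D ≤ C := by rw [hC]; nlinarith [abs_nonneg B]
        nlinarith [sq_nonneg r]
      have h4 : ‖q z‖ / r ≤ ‖q z‖ ^ 2 + (r ^ 2)⁻¹ := by
        rw [div_eq_mul_inv, ← inv_pow]
        nlinarith [sq_nonneg (‖q z‖ - r⁻¹), sq_nonneg ‖q z‖, sq_nonneg r⁻¹]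
      linarith
  have hint : ∀ t : ℝ, 0 ≤ t → Integrable (fun y : ℝ => g (t + y * I)) := fun t ht =>
    ((hq.2 t ht).1.add (integrable_inv_one_add_sq.const_mul C)).mono'
      (cont_line hgd t ht).aestronglyMeasurable (Eventually.of_forall fun y => hbd t y ht)
  have hst : ∀ R : ℝ, 0 < R → ∫ y : ℝ, g (y * I) = ∫ y : ℝ, g (R + y * I) := by
    intro R hR
    refine strip g R hR hgd (ENNReal.ofReal (M + C * Real.pi)) ENNReal.ofReal_ne_top ?_
    intro t ht _
    rw [← ofReal_integral_norm_eq_lintegral_enorm (hint t ht)]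
    refine ENNReal.ofReal_le_ofReal ?_
    calc ∫ y : ℝ, ‖g (t + y * I)‖ ≤ ∫ y : ℝ, (‖q (t + y * I)‖ ^ 2 + C * (1 + y ^ 2)⁻¹) :=
          integral_mono (hint t ht).norm
            ((hq.2 t ht).1.add (integrable_inv_one_add_sq.const_mul C)) fun y => hbd t y ht
      _ = (∫ y : ℝ, ‖q (t + y * I)‖ ^ 2) + C * Real.pi := by
          rw [integral_add (hq.2 t ht).1 (integrable_inv_one_add_sq.const_mul C),
            integral_const_mul, integral_univ_inv_one_add_sq]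
      _ ≤ _ := by linarith [(hq.2 t ht).2]
  have hV : ∀ ε : ℝ, 0 < ε → ‖∫ y : ℝ, g (y * I)‖ ≤ ε * M + ε * Real.pi := by
    intro ε hε
    set ρ : ℝ := (ε ^ 2)⁻¹ with hρ
    have hρ0 : 0 < ρ := by positivity
    have hR : 0 < a.re + ρ := by positivity
    rw [hst _ hR]
    have hi := int_inv ρ (-a.im) hρ0
    have hb2 : ∀ y : ℝ, ‖g ((a.re + ρ : ℝ) + y * I)‖ ≤
        ε * ‖q ((a.re + ρ : ℝ) + y * I)‖ ^ 2 + ε⁻¹ * (ρ ^ 2 + (y + -a.im) ^ 2)⁻¹ := by
      intro y
      set z : ℂ := (a.re + ρ : ℝ) + y * I with hz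
      have h1 : ‖z - a‖ ^ 2 = ρ ^ 2 + (y + -a.im) ^ 2 := by
        rw [Complex.sq_norm, normSq_apply]; simp [hz]; ring
      have hne : z ≠ a := by
        intro h'
        have := congrArg re h'
        simp [hz] at this
        linarith
      rw [hge z hne, norm_div, ← h1, div_eq_mul_inv, ← inv_pow]
      set u := ‖q z‖
      set v := ‖z - a‖⁻¹
      have h2 : ε * (u * v) ≤ ε * (ε * u ^ 2 + ε⁻¹ * v ^ 2) := by
        have : ε * (ε * u ^ 2 + ε⁻¹ * v ^ 2) = (ε * u) ^ 2 + v ^ 2 := by field_simp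
        rw [this]
        nlinarith [sq_nonneg (ε * u - v), sq_nonneg (ε * u), sq_nonneg v]
      exact le_of_mul_le_mul_left h2 hε
    calc _ ≤ ∫ y : ℝ, ‖g ((a.re + ρ : ℝ) + y * I)‖ := norm_integral_le_integral_norm _
      _ ≤ ∫ y : ℝ, (ε * ‖q ((a.re + ρ : ℝ) + y * I)‖ ^ 2 +
            ε⁻¹ * (ρ ^ 2 + (y + -a.im) ^ 2)⁻¹) :=
          integral_mono (hint _ hR.le).norm
            (((hq.2 _ hR.le).1.const_mul ε).add (hi.1.const_mul _)) hb2
      _ = ε * (∫ y : ℝ, ‖q ((a.re + ρ : ℝ) + y * I)‖ ^ 2) + ε⁻¹ * (Real.pi / ρ) := by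
          rw [integral_add ((hq.2 _ hR.le).1.const_mul ε) (hi.1.const_mul _),
            integral_const_mul, integral_const_mul, hi.2]
      _ ≤ _ := by
          have h1 : ε⁻¹ * (Real.pi / ρ) = ε * Real.pi := by rw [hρ]; field_simp
          rw [h1]
          have := mul_le_mul_of_nonneg_left (hq.2 _ hR.le).2 hε.le
          linarith
  have hz : ‖∫ y : ℝ, g (y * I)‖ ≤ 0 := by
    have h1 : Tendsto (fun ε : ℝ => ε * M + ε * Real.pi) (𝓝[>] 0) (𝓝 (0 * M + 0 * Real.pi)) :=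
      tendsto_nhdsWithin_of_tendsto_nhds (Continuous.tendsto (by fun_prop) 0)
    simp only [zero_mul, add_zero] at h1
    exact ge_of_tendsto h1 (eventually_nhdsWithin_of_forall hV)
  rw [← norm_le_zero_iff.1 hz]
  refine integral_congr_ae (Eventually.of_forall fun y => ?_)
  refine (hge _ ?_).symm
  intro h'
  have := congrArg re h'
  simp at this
  linarith

lemma ker_cl (p : ℂ) (hp : 0 < p.re) : Cl (fun z => (z + p)⁻¹) (Real.pi / p.re) := by
  refine ⟨fun z hz => ?_, fun t ht => ?_⟩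
  · refine DifferentiableAt.inv (by fun_prop) ?_
    intro h
    have := congrArg re h
    simp at this
    linarith
  · have hi := int_inv (t + p.re) p.im (by positivity)
    have h1 : ∀ y : ℝ, ‖((t : ℂ) + y * I + p)⁻¹‖ ^ 2 = ((t + p.re) ^ 2 + (y + p.im) ^ 2)⁻¹ := by
      intro y
      rw [norm_inv, inv_pow, Complex.sq_norm, normSq_apply]
      simp; ring
    simp only [h1]
    refine ⟨hi.1, ?_⟩
    rw [hi.2]
    exact div_le_div_of_nonneg_left Real.pi_pos.le hp (by linarith)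

lemma Cl.sub_mul {f k : ℂ → ℂ} {M M' : ℝ} (hf : Cl f M) (hk : Cl k M') (κ : ℂ) :
    Cl (fun z => f z - κ * k z) (2 * M + 2 * ‖κ‖ ^ 2 * M') := by
  have hd : ∀ z : ℂ, 0 ≤ z.re → DifferentiableAt ℂ (fun z => f z - κ * k z) z :=
    fun z hz => (hf.1 z hz).sub ((hk.1 z hz).const_mul κ)
  refine ⟨hd, fun t ht => ?_⟩
  have hb : ∀ y : ℝ, ‖f (t + y * I) - κ * k (t + y * I)‖ ^ 2 ≤
      2 * ‖f (t + y * I)‖ ^ 2 + 2 * ‖κ‖ ^ 2 * ‖k (t + y * I)‖ ^ 2 := by
    intro y
    have h1 := norm_sub_le (f (t + y * I)) (κ * k (t + y * I))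
    rw [norm_mul] at h1
    have h2 := pow_le_pow_left₀ (norm_nonneg _) h1 2
    nlinarith [sq_nonneg (‖f (t + y * I)‖ - ‖κ‖ * ‖k (t + y * I)‖)]
  have hi := ((hf.2 t ht).1.const_mul 2).add ((hk.2 t ht).1.const_mul (2 * ‖κ‖ ^ 2))
  have hi2 : Integrable (fun y : ℝ => ‖f (t + y * I) - κ * k (t + y * I)‖ ^ 2) :=
    hi.mono' ((cont_line hd t ht).norm.pow 2).aestronglyMeasurable
      (Eventually.of_forall fun y => by
        rw [Real.norm_of_nonneg (by positivity)]; exact hb y)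
  refine ⟨hi2, (integral_mono hi2 hi hb).trans ?_⟩
  simp only [Pi.add_apply]
  rw [integral_add ((hf.2 t ht).1.const_mul 2) ((hk.2 t ht).1.const_mul (2 * ‖κ‖ ^ 2)),
    integral_const_mul, integral_const_mul]
  have := (hf.2 t ht).2
  have := mul_le_mul_of_nonneg_left (hk.2 t ht).2 (by positivity : 0 ≤ 2 * ‖κ‖ ^ 2)
  linarith

lemma int_mul {F G : ℝ → ℂ} (hF : Continuous F) (hG : Continuous G)
    (h1 : Integrable (fun y => ‖F y‖ ^ 2)) (h2 : Integrable (fun y => ‖G y‖ ^ 2)) :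
    Integrable (fun y => F y * G y) :=
  (h1.add h2).mono' (hF.mul hG).aestronglyMeasurable (Eventually.of_forall fun y => by
    rw [norm_mul]
    simp only [Pi.add_apply]
    nlinarith [sq_nonneg (‖F y‖ - ‖G y‖), sq_nonneg ‖F y‖, sq_nonneg ‖G y‖])

lemma refl_ker (a : ℂ) (y : ℝ) :
    (starRingEnd ℂ) (((0 : ℝ) : ℂ) + y * I + (starRingEnd ℂ) a)⁻¹ = (a - y * I)⁻¹ := by
  simp; ring

lemma int_ker {f : ℂ → ℂ} {M : ℝ} (hf : Cl f M) (a : ℂ) (ha : 0 < a.re) :
    Integrable (fun y : ℝ => f (y * I) * (a - y * I)⁻¹) := by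
  have hk := ker_cl ((starRingEnd ℂ) a) (by simpa using ha)
  have h1 := cont_line hf.1 0 le_rfl
  have h2 := (hf.2 0 le_rfl).1
  simp only [ofReal_zero, zero_add] at h1 h2
  refine int_mul h1 ?_ h2 ?_
  · simp_rw [← refl_ker]
    exact continuous_conj.comp (cont_line hk.1 0 le_rfl)
  · simp_rw [← refl_ker, RCLike.norm_conj]
    exact (hk.2 0 le_rfl).1

/-- Cauchy formula on the imaginary axis. -/
theorem cauchy {f : ℂ → ℂ} {M : ℝ} (hf : Cl f M) (a : ℂ) (ha : 0 < a.re) :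
    ∫ y : ℝ, f (y * I) * (a - y * I)⁻¹ = 2 * Real.pi * f a := by
  have hk := ker_cl ((starRingEnd ℂ) a) (by simpa using ha)
  have hs : a + (starRingEnd ℂ) a = ((2 * a.re : ℝ) : ℂ) := add_conj a
  have hs0 : a + (starRingEnd ℂ) a ≠ 0 := by
    rw [hs]; exact ofReal_ne_zero.2 (by positivity)
  have hv := vanish (hf.sub_mul hk (f a * (a + (starRingEnd ℂ) a))) a ha (by field_simp; ring)
  have h2 : ∫ y : ℝ, (y * I + (starRingEnd ℂ) a)⁻¹ * (a - y * I)⁻¹ = (Real.pi / a.re : ℝ) := by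
    rw [← (int_inv a.re (-a.im) ha).2, ← integral_complex_ofReal]
    refine integral_congr_ae (Eventually.of_forall fun y => ?_)
    simp only
    rw [← mul_inv, ofReal_inv]
    refine congrArg _ ?_
    apply Complex.ext <;> simp [sq] <;> ring
  have h3 : ∀ y : ℝ, (f (y * I) - f a * (a + (starRingEnd ℂ) a) *
      (y * I + (starRingEnd ℂ) a)⁻¹) / (y * I - a) =
      f a * (a + (starRingEnd ℂ) a) * ((y * I + (starRingEnd ℂ) a)⁻¹ * (a - y * I)⁻¹) -
        f (y * I) * (a - y * I)⁻¹ := by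
    intro y
    rw [div_eq_mul_inv, ← neg_sub a, inv_neg]
    ring
  simp only [h3] at hv
  rw [integral_sub ((int_ker hk a ha).const_mul _) (int_ker hf a ha), integral_const_mul, h2,
    hs] at hv
  have h4 : (a.re : ℂ) ≠ 0 := ofReal_ne_zero.2 ha.ne'
  have h5 : f a * ((2 * a.re : ℝ) : ℂ) * ((Real.pi / a.re : ℝ) : ℂ) = 2 * Real.pi * f a := by
    push_cast; field_simp
  rw [h5] at hv
  linear_combination -hv

lemma cs {F G : ℝ → ℂ} (hF : Continuous F) (hG : Continuous G)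
    (h1 : Integrable (fun y => ‖F y‖ ^ 2)) (h2 : Integrable (fun y => ‖G y‖ ^ 2)) :
    ‖∫ y, F y * G y‖ ^ 2 ≤ (∫ y, ‖F y‖ ^ 2) * ∫ y, ‖G y‖ ^ 2 := by
  have h3 : Integrable (fun y => ‖F y‖ * ‖G y‖) := by
    simpa [norm_mul] using (int_mul hF hG h1 h2).norm
  have h4 : ‖∫ y, F y * G y‖ ≤ ∫ y, ‖F y‖ * ‖G y‖ := by
    simpa [norm_mul] using norm_integral_le_integral_norm (fun y => F y * G y)
  have h5 := discrim_le_zero (a := ∫ y, ‖F y‖ ^ 2) (b := -2 * ∫ y, ‖F y‖ * ‖G y‖)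
    (c := ∫ y, ‖G y‖ ^ 2) (by
      intro t
      have : 0 ≤ ∫ y, (t * ‖F y‖ - ‖G y‖) ^ 2 := integral_nonneg fun y => sq_nonneg _
      have e : ∀ y, (t * ‖F y‖ - ‖G y‖) ^ 2 =
          (t ^ 2 * ‖F y‖ ^ 2 - 2 * t * (‖F y‖ * ‖G y‖)) + ‖G y‖ ^ 2 := fun y => by ring
      simp only [e] at this
      have i1 : Integrable (fun y => t ^ 2 * ‖F y‖ ^ 2 - 2 * t * (‖F y‖ * ‖G y‖)) :=
        (h1.const_mul _).sub (h3.const_mul _)
      rw [integral_add i1 h2,
        integral_sub (h1.const_mul _) (h3.const_mul _), integral_const_mul,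
        integral_const_mul] at this
      nlinarith)
  unfold discrim at h5
  have h6 := pow_le_pow_left₀ (norm_nonneg _) h4 2
  nlinarith

end Pool.Agent.H55.HN
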