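import Pool.Agent.H55.HN1

set_option autoImplicit false
set_option maxHeartbeats 200000

namespace Pool.Agent.H55.HN

open Complex MeasureTheory Filter Topology Set
open scoped ENNReal ComplexConjugate ComplexOrder

abbrev H : Type := lp (fun _ : ℕ => ℂ) 2

noncomputable def bl (z : ℂ) : ℂ := (z - 1) / (z + 1)

noncomputable def e0 (z : ℂ) : ℂ := (Real.sqrt 2 : ℝ) / (z + 1)

lemma add_one_ne {z : ℂ} (hz : 0 < z.re) : z + 1 ≠ 0 := by
  intro h; have := congrArg re h; simp at this; linarith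

lemma one_le_add_one {z : ℂ} (hz : 0 < z.re) : 1 ≤ ‖z + 1‖ := by
  have := re_le_norm (z + 1); simp at this; linarith

lemma bl_lt {z : ℂ} (hz : 0 < z.re) : ‖bl z‖ < 1 := by
  rw [bl, norm_div, div_lt_one (norm_pos_iff.2 (add_one_ne hz))]
  refine lt_of_pow_lt_pow_left₀ 2 (norm_nonneg _) ?_
  rw [Complex.sq_norm, Complex.sq_norm, normSq_apply, normSq_apply]
  simp; nlinarith

lemma mem_iff (f : ℕ → ℂ) : Memℓp (E := fun _ : ℕ => ℂ) f 2 ↔ Summable fun n => ‖f n‖ ^ 2 := by
  rw [memℓp_gen_iff (by norm_num)]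
  simp

noncomputable def K (w : ℂ) : H :=
  ⟨fun n => if 0 < w.re then conj (e0 w * bl w ^ n) else 0, by
    refine (mem_iff _).2 ?_
    by_cases h : 0 < w.re
    · simp only [h, if_true, RCLike.norm_conj, norm_mul, norm_pow, mul_pow]
      refine Summable.mul_left _ ?_
      simp_rw [← pow_mul, mul_comm _ 2, pow_mul]
      refine summable_geometric_of_lt_one (by positivity) ?_
      have := bl_lt h
      have := norm_nonneg (bl w)
      nlinarith
    · simp [h, summable_zero]⟩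

lemma K_apply {w : ℂ} (hw : 0 < w.re) (n : ℕ) : K w n = conj (e0 w * bl w ^ n) := by
  simp [K, hw]

noncomputable def R (g : H) : H :=
  ⟨fun n => g (n + 1), (mem_iff _).2
    ((summable_nat_add_iff (f := fun n => ‖g n‖ ^ 2) 1).2 ((mem_iff _).1 g.2))⟩

noncomputable def sh (f : ℕ → ℂ) : ℕ → ℂ
  | 0 => 0
  | n + 1 => f n

noncomputable def S (g : H) : H :=
  ⟨sh g, (mem_iff _).2
    ((summable_nat_add_iff (f := fun n => ‖sh g n‖ ^ 2) 1).1 ((mem_iff g).1 g.2))⟩

@[simp] lemma R_apply (g : H) (n : ℕ) : R g n = g (n + 1) := rfl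
@[simp] lemma S_zero (g : H) : S g 0 = 0 := rfl
@[simp] lemma S_succ (g : H) (n : ℕ) : S g (n + 1) = g n := rfl
@[simp] lemma R_S (g : H) : R (S g) = g := by ext n; rfl

lemma inner_split (u v : H) : inner ℂ u v = conj (u 0) * v 0 + inner ℂ (R u) (R v) := by
  have h := Summable.tsum_eq_zero_add (f := fun i : ℕ => (inner ℂ (u i) (v i) : ℂ))
    (lp.summable_inner u v)
  rw [lp.inner_eq_tsum u v, lp.inner_eq_tsum (R u) (R v), h]
  simp [mul_comm]

lemma inner_S (u v : H) : inner ℂ (S u) v = inner ℂ u (R v) := by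
  rw [inner_split]; simp

lemma inner_S' (u v : H) : inner ℂ u (S v) = inner ℂ (R u) v := by
  rw [inner_split]; simp

lemma norm_split (v : H) : ‖v‖ ^ 2 = ‖v 0‖ ^ 2 + ‖R v‖ ^ 2 := by
  have := inner_split v v
  rw [inner_self_eq_norm_sq_to_K, inner_self_eq_norm_sq_to_K, conj_mul'] at this
  have h := congrArg re this
  simpa only [add_re, coe_algebraMap, ← ofReal_pow, ofReal_re] using h

lemma norm_S (v : H) : ‖S v‖ = ‖v‖ := by
  have := norm_split (S v)
  simp only [S_zero, norm_zero, R_S] at this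
  exact (pow_left_inj₀ (norm_nonneg _) (norm_nonneg _) two_ne_zero).1 (by linarith)

noncomputable def ev (g : H) (z : ℂ) : ℂ := inner ℂ (K z) g

lemma ev_add (g h : H) (z : ℂ) : ev (g + h) z = ev g z + ev h z := inner_add_right _ _ _
lemma ev_sub (g h : H) (z : ℂ) : ev (g - h) z = ev g z - ev h z := inner_sub_right _ _ _
lemma ev_smul (c : ℂ) (g : H) (z : ℂ) : ev (c • g) z = c * ev g z := inner_smul_right _ _ _

lemma R_K {w : ℂ} (hw : 0 < w.re) : R (K w) = conj (bl w) • K w := by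
  ext n
  simp [K_apply hw, pow_succ]; ring

lemma ev_split (g : H) {z : ℂ} (hz : 0 < z.re) : ev g z = e0 z * g 0 + bl z * ev (R g) z := by
  rw [ev, inner_split, R_K hz, inner_smul_left, K_apply hz]
  simp [ev]

lemma ev_S (g : H) {z : ℂ} (hz : 0 < z.re) : ev (S g) z = bl z * ev g z := by
  rw [ev_split _ hz]; simp

lemma add_conj_ne {z w : ℂ} (hz : 0 < z.re) (hw : 0 < w.re) : z + conj w ≠ 0 := by
  intro h; have := congrArg re h; simp at this; linarith

lemma ev_K {z w : ℂ} (hz : 0 < z.re) (hw : 0 < w.re) : ev (K w) z = (z + conj w)⁻¹ := by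
  have h := ev_split (K w) hz
  rw [R_K hw, ev_smul, K_apply hw] at h
  have h1 := add_one_ne hz
  have h2 : conj w + 1 ≠ 0 := add_one_ne (by simpa using hw)
  have h3 : ((Real.sqrt 2 : ℝ) : ℂ) * (Real.sqrt 2 : ℝ) = 2 := by
    rw [← ofReal_mul, Real.mul_self_sqrt (by norm_num)]; simp
  simp only [e0, bl, pow_zero, mul_one, map_div₀, conj_ofReal, map_add, map_one, map_sub] at h
  refine eq_inv_of_mul_eq_one_left ?_
  field_simp at h
  linear_combination (1 / 2) * h + (1 / 2) * h3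

def P : Set ℂ := {z : ℂ | 0 < z.re}

lemma P_open : IsOpen P := isOpen_lt continuous_const continuous_re

lemma P_conn : IsPreconnected P := (convex_halfSpace_re_gt 0).isPreconnected

lemma bl_diff : DifferentiableOn ℂ bl P :=
  DifferentiableOn.div (c := fun z : ℂ => z - 1) (d := fun z : ℂ => z + 1) (by fun_prop)
    (by fun_prop) fun _ hz => add_one_ne hz

lemma e0_diff : DifferentiableOn ℂ e0 P :=
  DifferentiableOn.div (c := fun _ : ℂ => ((Real.sqrt 2 : ℝ) : ℂ)) (d := fun z : ℂ => z + 1)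
    (by fun_prop) (by fun_prop) fun _ hz => add_one_ne hz

lemma ev_diff (g : H) : DifferentiableOn ℂ (ev g) P := by
  intro z hz
  obtain ⟨ρ, h1, h2⟩ := exists_between (bl_lt hz)
  have hρ : 0 ≤ ρ := (norm_nonneg _).trans h1.le
  set U := P ∩ (fun w => ‖bl w‖) ⁻¹' Iio ρ with hU
  have hUo : IsOpen U := bl_diff.continuousOn.norm.isOpen_inter_preimage P_open isOpen_Iio
  have hd := differentiableOn_tsum_of_summable_norm (U := U)
    (F := fun n w => e0 w * bl w ^ n * g n) (u := fun n => Real.sqrt 2 * ρ ^ n * ‖g‖)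
    (((summable_geometric_of_lt_one hρ h2).mul_left _).mul_right _)
    (fun n => ((e0_diff.mono inter_subset_left).mul
      ((bl_diff.mono inter_subset_left).pow n)).mul_const _) hUo (by
      intro n w hw
      rw [norm_mul, norm_mul, norm_pow]
      have a1 : ‖e0 w‖ ≤ Real.sqrt 2 := by
        rw [e0, norm_div, norm_real, Real.norm_of_nonneg (Real.sqrt_nonneg _)]
        exact div_le_self (Real.sqrt_nonneg _) (one_le_add_one hw.1)
      have a2 : ‖bl w‖ ≤ ρ := le_of_lt hw.2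
      have a3 : ‖g n‖ ≤ ‖g‖ := lp.norm_apply_le_norm (by norm_num) g n
      gcongr)
  have hzU : U ∈ 𝓝 z := hUo.mem_nhds ⟨hz, h1⟩
  refine ((hd.differentiableAt hzU).congr_of_eventuallyEq ?_).differentiableWithinAt
  filter_upwards [hzU] with w hw
  rw [ev, lp.inner_eq_tsum]
  refine tsum_congr fun n => ?_
  rw [K_apply hw.1]
  simp [mul_comm]

lemma cancel {f g : ℂ → ℂ} (hf : DifferentiableOn ℂ f P) (hg : DifferentiableOn ℂ g P)
    (h : ∀ z ∈ P, f z * g z = 0) (h0 : ∃ z ∈ P, f z ≠ 0) : ∀ z ∈ P, g z = 0 := by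
  rcases AnalyticOnNhd.eq_zero_or_eq_zero_of_mul_eq_zero (hf.analyticOnNhd P_open)
    (hg.analyticOnNhd P_open) h P_conn with h1 | h1
  · obtain ⟨z, hz, h2⟩ := h0
    exact absurd (h1 z hz) h2
  · exact h1

lemma one_P : (1 : ℂ) ∈ P := by simp [P]
lemma two_P : (2 : ℂ) ∈ P := by simp [P]

lemma e0_ne {z : ℂ} (hz : 0 < z.re) : e0 z ≠ 0 :=
  div_ne_zero (ofReal_ne_zero.2 (by positivity)) (add_one_ne hz)

lemma ev_one (g : H) : ev g 1 = e0 1 * g 0 := by
  rw [ev_split g one_P]; simp [bl]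

lemma ev_inj0 (g : H) (h : ∀ z ∈ P, ev g z = 0) : g = 0 := by
  have key : ∀ n : ℕ, ∀ g : H, (∀ z ∈ P, ev g z = 0) → g n = 0 := by
    intro n
    have h0 : ∀ g : H, (∀ z ∈ P, ev g z = 0) → g 0 = 0 := by
      intro g hg
      have := hg 1 one_P
      rw [ev_one] at this
      exact (mul_eq_zero.1 this).resolve_left (e0_ne one_P)
    induction n with
    | zero => exact h0
    | succ n ih =>
      intro g hg
      refine ih (R g) (cancel bl_diff (ev_diff _) (fun z hz => ?_) ⟨2, two_P, by norm_num [bl]⟩)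
      have := ev_split g hz
      rw [hg z hz, h0 g hg] at this
      linear_combination -this
  ext n
  simpa using key n g h

lemma ev_inj {g h : H} (H : ∀ z ∈ P, ev g z = ev h z) : g = h :=
  sub_eq_zero.1 (ev_inj0 _ fun z hz => by rw [ev_sub, H z hz, sub_self])

lemma dense_K : Dense (Submodule.span ℂ (range fun w : P => K w) : Set H) := by
  rw [Submodule.dense_iff_topologicalClosure_eq_top, Submodule.topologicalClosure_eq_top_iff,
    Submodule.eq_bot_iff]
  intro g hg
  refine ev_inj0 g fun z hz => ?_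
  exact Submodule.inner_right_of_mem_orthogonal 
    (Submodule.subset_span (mem_range_self (f := fun w : P => K w) ⟨z, hz⟩)) hg

section fin
variable {ι : Type} [Fintype ι]

lemma ev_sum (c a : ι → ℂ) (ha : ∀ i, 0 < (a i).re) {z : ℂ} (hz : 0 < z.re) :
    ev (∑ i, c i • K (a i)) z = ∑ i, c i * (z + conj (a i))⁻¹ := by
  rw [ev, inner_sum]
  refine Finset.sum_congr rfl fun i _ => ?_
  rw [inner_smul_right]
  exact congrArg _ (ev_K hz (ha i))

lemma sum_cl (c a : ι → ℂ) (ha : ∀ i, 0 < (a i).re) :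
    ∃ M, Cl (fun z => ∑ i, c i * (z + conj (a i))⁻¹) M := by
  classical
  have : ∀ s : Finset ι, ∃ M, Cl (fun z => ∑ i ∈ s, c i * (z + conj (a i))⁻¹) M := by
    intro s
    induction s using Finset.induction_on with
    | empty => exact ⟨0, fun z _ => by simp, fun t _ => by simp⟩
    | insert i s hi ih =>
      obtain ⟨M, hM⟩ := ih
      have := hM.sub_mul (ker_cl (conj (a i)) (by simpa using ha i)) (-c i)
      have e : (fun z => ∑ j ∈ insert i s, c j * (z + conj (a j))⁻¹) = fun z =>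
          ∑ j ∈ s, c j * (z + conj (a j))⁻¹ - -c i * (z + conj (a i))⁻¹ := by
        funext z; rw [Finset.sum_insert hi]; ring
      rw [e]
      exact ⟨_, this⟩
  exact this Finset.univ

lemma pairing {f : ℂ → ℂ} {M : ℝ} (hf : Cl f M) (c a : ι → ℂ) (ha : ∀ i, 0 < (a i).re) :
    ∫ y : ℝ, f (y * I) * conj (∑ i, c i * (y * I + conj (a i))⁻¹) =
      2 * Real.pi * ∑ i, conj (c i) * f (a i) := by
  have e : ∀ y : ℝ, f (y * I) * conj (∑ i, c i * (y * I + conj (a i))⁻¹) =
      ∑ i, conj (c i) * (f (y * I) * (a i - y * I)⁻¹) := by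
    intro y
    rw [map_sum, Finset.mul_sum]
    refine Finset.sum_congr rfl fun i _ => ?_
    rw [← refl_ker]; simp; ring
  simp only [e]
  rw [integral_finsetSum _ fun i _ => (int_ker hf (a i) (ha i)).const_mul _, Finset.mul_sum]
  refine Finset.sum_congr rfl fun i _ => ?_
  rw [integral_const_mul, cauchy hf _ (ha i)]; ring

lemma line0 (c a : ι → ℂ) (ha : ∀ i, 0 < (a i).re) :
    Integrable (fun y : ℝ => ‖∑ i, c i * (y * I + conj (a i))⁻¹‖ ^ 2) ∧
    ∫ y : ℝ, ‖∑ i, c i * (y * I + conj (a i))⁻¹‖ ^ 2 =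
      2 * Real.pi * ‖∑ i, c i • K (a i)‖ ^ 2 := by
  obtain ⟨M, hM⟩ := sum_cl c a ha
  refine ⟨by simpa using (hM.2 0 le_rfl).1, ?_⟩
  have h := pairing hM c a ha
  simp only [mul_conj'] at h
  have h2 : ∑ i, conj (c i) * ∑ j, c j * (a i + conj (a j))⁻¹ =
      ((‖∑ i, c i • K (a i)‖ : ℝ) : ℂ) ^ 2 := by
    have := inner_self_eq_norm_sq_to_K (𝕜 := ℂ) (∑ i, c i • K (a i))
    rw [sum_inner] at this
    refine Eq.trans (Finset.sum_congr rfl fun i _ => ?_) this
    rw [inner_smul_left, ← ev_sum c a ha (ha i)]; rfl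
  rw [h2] at h
  have h3 : ∀ y : ℝ, ((‖∑ i, c i * (y * I + conj (a i))⁻¹‖ : ℝ) : ℂ) ^ 2 =
    ((‖∑ i, c i * (y * I + conj (a i))⁻¹‖ ^ 2 : ℝ) : ℂ) := fun y => by push_cast; rfl
  simp only [h3] at h
  rw [integral_complex_ofReal] at h
  exact_mod_cast h

lemma mono (c a : ι → ℂ) (ha : ∀ i, 0 < (a i).re) (x : ℝ) (hx : 0 < x) :
    ‖∑ i, c i • K (a i + x)‖ ^ 2 ≤ ‖∑ i, c i • K (a i)‖ ^ 2 := by
  classical
  have hax : ∀ i, 0 < (a i + x).re := fun i => by simp; linarith [ha i]
  have h1 := Matrix.star_dotProduct_gram_mulVec (𝕜 := ℂ) (fun i => K (a i)) c c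
  have h2 := Matrix.star_dotProduct_gram_mulVec (𝕜 := ℂ) (fun i => K (a i + x)) c c
  have h3 := ((Matrix.posSemidef_gram ℂ (fun i => K (a i))).hadamard
    (Matrix.posSemidef_gram ℂ (fun i => K (a i + x)))).dotProduct_mulVec_nonneg c
  have h4 : Matrix.gram ℂ (fun i => K (a i)) = Matrix.gram ℂ (fun i => K (a i + x)) +
      ((2 * x : ℝ) : ℂ) • Matrix.hadamard (Matrix.gram ℂ (fun i => K (a i)))
        (Matrix.gram ℂ (fun i => K (a i + x))) := by
    ext i j
    have e1 : inner ℂ (K (a i)) (K (a j)) = _ := ev_K (ha i) (ha j)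
    have e2 : inner ℂ (K (a i + x)) (K (a j + x)) = _ := ev_K (hax i) (hax j)
    simp only [Matrix.gram_apply, Matrix.add_apply, Matrix.smul_apply, Matrix.hadamard_apply,
      e1, e2, smul_eq_mul]
    have n1 := add_conj_ne (ha i) (ha j)
    have n2 := add_conj_ne (hax i) (hax j)
    simp only [map_add, conj_ofReal] at n2 ⊢
    push_cast
    field_simp
    ring
  rw [h4, Matrix.add_mulVec, dotProduct_add, h2, Matrix.smul_mulVec, dotProduct_smul,
    inner_self_eq_norm_sq_to_K, inner_self_eq_norm_sq_to_K] at h1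
  have h5 := congrArg re h1
  have h6 := (Complex.le_def.1 h3).1
  simp only [smul_eq_mul, add_re, re_ofReal_mul, coe_algebraMap, ← ofReal_pow, ofReal_re,
    zero_re] at h5 h6
  nlinarith

end fin

end Pool.Agent.H55.HN
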