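import Pool.Agent.H55.HN2

set_option autoImplicit false
set_option maxHeartbeats 400000

namespace Pool.Agent.H55.HN

open Complex MeasureTheory Filter Topology Set
open scoped ENNReal ComplexConjugate NNReal

noncomputable def N (f : ℂ → ℂ) : ℝ≥0∞ :=
  ⨆ (x : ℝ) (_ : 0 < x), ∫⁻ y : ℝ, (‖f ((x : ℂ) + (y : ℂ) * Complex.I)‖₊ : ENNReal) ^ 2

lemma line_P {x : ℝ} (hx : 0 < x) (y : ℝ) : (x : ℂ) + y * I ∈ P := by simpa [P] using hx

lemma N_congr {f g : ℂ → ℂ} (h : ∀ z ∈ P, f z = g z) : N f = N g := by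
  unfold N
  refine iSup_congr fun x => iSup_congr fun hx => lintegral_congr fun y => ?_
  rw [h _ (line_P hx y)]

lemma sq_eq (c : ℂ) : (‖c‖₊ : ℝ≥0∞) ^ 2 = ENNReal.ofReal (‖c‖ ^ 2) := by
  rw [ENNReal.ofReal_pow (norm_nonneg _), ofReal_norm]; rfl

lemma lint_eq {F : ℝ → ℂ} (h : Integrable (fun y => ‖F y‖ ^ 2)) :
    ∫⁻ y, (‖F y‖₊ : ℝ≥0∞) ^ 2 = ENNReal.ofReal (∫ y, ‖F y‖ ^ 2) := by
  rw [ofReal_integral_eq_lintegral_ofReal h (Eventually.of_forall fun y => sq_nonneg _)]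
  exact lintegral_congr fun y => sq_eq _

lemma int_of {F : ℝ → ℂ} (hF : Continuous F) {A : ℝ≥0∞} (hA : A ≠ ⊤)
    (h : ∫⁻ y, (‖F y‖₊ : ℝ≥0∞) ^ 2 ≤ A) :
    Integrable (fun y => ‖F y‖ ^ 2) ∧ ∫ y, ‖F y‖ ^ 2 ≤ A.toReal := by
  have hi : Integrable (fun y => ‖F y‖ ^ 2) := by
    refine ⟨(hF.norm.pow 2).aestronglyMeasurable, ?_⟩
    rw [hasFiniteIntegral_iff_ofReal (Eventually.of_forall fun y => sq_nonneg _)]
    refine lt_of_le_of_lt (le_of_eq (lintegral_congr fun y => (sq_eq _).symm)) (h.trans_lt hA.lt_top)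
  refine ⟨hi, ?_⟩
  rw [lint_eq hi] at h
  exact (ENNReal.ofReal_le_iff_le_toReal hA).1 h

lemma cont_lineP {f : ℂ → ℂ} (hf : DifferentiableOn ℂ f P) {x : ℝ} (hx : 0 < x) :
    Continuous (fun y : ℝ => f (x + y * I)) :=
  hf.continuousOn.comp_continuous (by fun_prop) (line_P hx)

lemma span_rep {g : H} (hg : g ∈ Submodule.span ℂ (range fun w : P => K w)) :
    ∃ (n : ℕ) (c a : Fin n → ℂ), (∀ i, 0 < (a i).re) ∧ g = ∑ i, c i • K (a i) := by
  obtain ⟨n, c, v, rfl⟩ := Submodule.mem_span_set'.1 hg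
  choose w hw using fun i => (v i).2
  exact ⟨n, c, fun i => w i, fun i => (w i).2, Finset.sum_congr rfl fun i _ => by rw [← hw i]⟩

lemma A1 (g : H) {x : ℝ} (hx : 0 < x) :
    ∫⁻ y : ℝ, (‖ev g (x + y * I)‖₊ : ℝ≥0∞) ^ 2 ≤ ENNReal.ofReal (2 * Real.pi * ‖g‖ ^ 2) := by
  have h0 : ∀ g ∈ Submodule.span ℂ (range fun w : P => K w),
      ∫⁻ y : ℝ, (‖ev g (x + y * I)‖₊ : ℝ≥0∞) ^ 2 ≤ ENNReal.ofReal (2 * Real.pi * ‖g‖ ^ 2) := by
    intro g hg
    obtain ⟨n, c, a, ha, rfl⟩ := span_rep hg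
    have hax : ∀ i, 0 < (a i + x).re := fun i => by simp; linarith [ha i]
    have h1 := line0 c (fun i => a i + x) hax
    have e : ∀ y : ℝ, ev (∑ i, c i • K (a i)) (x + y * I) =
        ∑ i, c i * (y * I + conj (a i + x))⁻¹ := by
      intro y
      rw [ev_sum c a ha (line_P hx y)]
      refine Finset.sum_congr rfl fun i _ => ?_
      simp only [map_add, conj_ofReal]
      ring
    simp only [e]
    rw [lint_eq h1.1, h1.2]
    refine ENNReal.ofReal_le_ofReal ?_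
    exact mul_le_mul_of_nonneg_left (mono c a ha x hx) (by positivity)
  obtain ⟨u, hu, hl⟩ := mem_closure_iff_seq_limit.1 (dense_K g)
  have h1 : ∀ y : ℝ, Tendsto (fun n => (‖ev (u n) (x + y * I)‖₊ : ℝ≥0∞) ^ 2) atTop
      (𝓝 ((‖ev g (x + y * I)‖₊ : ℝ≥0∞) ^ 2)) := by
    intro y
    have : Continuous (fun v : H => (‖ev v (x + y * I)‖₊ : ℝ≥0∞) ^ 2) := by
      refine ENNReal.continuous_pow 2 |>.comp (ENNReal.continuous_coe.comp ?_)
      exact (continuous_const.inner continuous_id).nnnorm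
    exact (this.tendsto g).comp hl
  have h2 : Tendsto (fun n => ENNReal.ofReal (2 * Real.pi * ‖u n‖ ^ 2)) atTop
      (𝓝 (ENNReal.ofReal (2 * Real.pi * ‖g‖ ^ 2))) :=
    ENNReal.tendsto_ofReal ((hl.norm.pow 2).const_mul _)
  calc _ = ∫⁻ y : ℝ, liminf (fun n => (‖ev (u n) (x + y * I)‖₊ : ℝ≥0∞) ^ 2) atTop :=
        lintegral_congr fun y => (h1 y).liminf_eq.symm
    _ ≤ liminf (fun n => ∫⁻ y : ℝ, (‖ev (u n) (x + y * I)‖₊ : ℝ≥0∞) ^ 2) atTop :=
        lintegral_liminf_le fun n =>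
          ((cont_lineP (ev_diff _) hx).nnnorm.measurable.coe_nnreal_ennreal).pow_const 2
    _ ≤ liminf (fun n => ENNReal.ofReal (2 * Real.pi * ‖u n‖ ^ 2)) atTop :=
        liminf_le_liminf (Eventually.of_forall fun n => h0 _ (hu n))
    _ = _ := h2.liminf_eq

lemma A2 {f : ℂ → ℂ} (hf : DifferentiableOn ℂ f P) (hN : N f ≠ ⊤) :
    ∃ g : H, (∀ z ∈ P, ev g z = f z) ∧ 2 * Real.pi * ‖g‖ ^ 2 ≤ (N f).toReal := by
  classical
  set M := (N f).toReal with hM
  have hM0 : 0 ≤ M := ENNReal.toReal_nonneg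
  have hcl : ∀ x : ℝ, 0 < x → Cl (fun z => f (z + x)) M := by
    intro x hx
    refine ⟨fun z hz => ?_, fun t ht => ?_⟩
    · have h1 : DifferentiableAt ℂ f (z + x) :=
        hf.differentiableAt (P_open.mem_nhds (by simp [P]; linarith))
      exact h1.comp z (f := fun z => z + (x : ℂ)) (by fun_prop)
    · have htx : 0 < t + x := by linarith
      have := int_of (cont_lineP hf htx) hN
        (le_iSup₂_of_le (f := fun (x : ℝ) (_ : 0 < x) =>
          ∫⁻ y : ℝ, (‖f ((x : ℂ) + (y : ℂ) * Complex.I)‖₊ : ENNReal) ^ 2) (t + x) htx le_rfl)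
      have e : ∀ y : ℝ, ((t + x : ℝ) : ℂ) + y * I = t + y * I + x := fun y => by push_cast; ring
      simpa only [e] using this
  have hb : ∀ (ι : Type) [Fintype ι] (c a : ι → ℂ), (∀ i, 0 < (a i).re) →
      2 * Real.pi * ‖∑ i, conj (c i) * f (a i)‖ ^ 2 ≤ M * ‖∑ i, c i • K (a i)‖ ^ 2 := by
    intro ι _ c a ha
    have h1 : ∀ x : ℝ, 0 < x →
        2 * Real.pi * ‖∑ i, conj (c i) * f (a i + x)‖ ^ 2 ≤ M * ‖∑ i, c i • K (a i)‖ ^ 2 := by
      intro x hx
      have hc := hcl x hx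
      obtain ⟨M', hk⟩ := sum_cl c a ha
      have p := pairing hc c a ha
      have l := line0 c a ha
      have c1 := cont_line hc.1 0 le_rfl
      have c2 := cont_line hk.1 0 le_rfl
      have i1 := hc.2 0 le_rfl
      simp only [ofReal_zero, zero_add] at c1 c2 i1
      have := cs c1 (continuous_conj.comp c2) i1.1 (by simpa only [Function.comp_apply, RCLike.norm_conj] using l.1)
      simp only [Function.comp_apply, RCLike.norm_conj] at this
      rw [p, l.2, norm_mul, mul_pow] at this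
      have e : ‖(2 * Real.pi : ℂ)‖ = 2 * Real.pi := by simp [abs_of_pos Real.pi_pos]
      rw [e] at this
      have h3 := this.trans (mul_le_mul_of_nonneg_right i1.2 (by positivity))
      have hp : 0 < 2 * Real.pi := by positivity
      refine le_of_mul_le_mul_left ?_ hp
      nlinarith
    have h2 : Tendsto (fun x : ℝ => 2 * Real.pi * ‖∑ i, conj (c i) * f (a i + x)‖ ^ 2) (𝓝[>] 0)
        (𝓝 (2 * Real.pi * ‖∑ i, conj (c i) * f (a i)‖ ^ 2)) := by
      refine tendsto_nhdsWithin_of_tendsto_nhds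
        (((tendsto_finsetSum _ fun i _ => Tendsto.const_mul _ ?_).norm.pow 2).const_mul _)
      have h3 : ContinuousAt f (a i) :=
        (hf.differentiableAt (P_open.mem_nhds (ha i))).continuousAt
      refine h3.tendsto.comp ?_
      have : Continuous (fun x : ℝ => a i + x) := by fun_prop
      simpa using this.tendsto 0
    exact le_of_tendsto h2 (eventually_nhdsWithin_of_forall h1)
  set L0 : (P →₀ ℂ) →ₗ[ℂ] ℂ := Finsupp.linearCombination ℂ (fun w : P => conj (f w))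
  set e : (P →₀ ℂ) →ₗ[ℂ] H := Finsupp.linearCombination ℂ (fun w : P => K w)
  have hd : DenseRange e := by
    have := dense_K
    rw [← Finsupp.range_linearCombination] at this
    exact this
  set C := Real.sqrt (M / (2 * Real.pi)) with hC
  have hC2 : 2 * Real.pi * C ^ 2 = M := by
    rw [hC, Real.sq_sqrt (by positivity)]; field_simp
  have hn : ∀ c, ‖L0 c‖ ≤ C * ‖e c‖ := by
    intro c
    have := hb c.support (fun i => c i) (fun i => ((i : P) : ℂ)) (fun i => (i : P).2)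
    have e1 : L0 c = conj (∑ i : c.support, conj (c i) * f ((i : P) : ℂ)) := by
      rw [Finsupp.linearCombination_apply, Finsupp.sum, ← Finset.sum_coe_sort, map_sum]
      simp
    have e2 : e c = ∑ i : c.support, c i • K ((i : P) : ℂ) := by
      rw [Finsupp.linearCombination_apply, Finsupp.sum, ← Finset.sum_coe_sort]
    rw [e1, RCLike.norm_conj, e2]
    refine le_of_pow_le_pow_left₀ two_ne_zero (by positivity) ?_
    have hp : 0 < 2 * Real.pi := by positivity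
    refine le_of_mul_le_mul_left ?_ hp
    rw [mul_pow, ← mul_assoc, hC2]
    exact this
  set L := L0.extendOfNorm e
  refine ⟨(InnerProductSpace.toDual ℂ H).symm L, fun z hz => ?_, ?_⟩
  · have h1 := LinearMap.extendOfNorm_eq hd ⟨C, hn⟩ (Finsupp.single ⟨z, hz⟩ 1)
    have h2 : e (Finsupp.single ⟨z, hz⟩ 1) = K z := by simp [e]
    have h3 : L0 (Finsupp.single ⟨z, hz⟩ 1) = conj (f z) := by simp [L0]
    rw [h2, h3] at h1
    rw [ev, ← inner_conj_symm, InnerProductSpace.toDual_symm_apply]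
    simp only [L, h1, conj_conj]
  · rw [LinearIsometryEquiv.norm_map, ← hC2]
    have := LinearMap.opNorm_extendOfNorm_le hd (Real.sqrt_nonneg _) hn
    gcongr

lemma N_le (g : H) : N (ev g) ≤ ENNReal.ofReal (2 * Real.pi * ‖g‖ ^ 2) :=
  iSup₂_le fun _ hx => A1 g hx

lemma N_ev (g : H) : N (ev g) = ENNReal.ofReal (2 * Real.pi * ‖g‖ ^ 2) := by
  have hN : N (ev g) ≠ ⊤ := ne_top_of_le_ne_top ENNReal.ofReal_ne_top (N_le g)
  obtain ⟨g', h1, h2⟩ := A2 (ev_diff g) hN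
  rw [ev_inj h1] at h2
  exact le_antisymm (N_le g) ((ENNReal.ofReal_le_iff_le_toReal hN).2 h2)

lemma exists_op (Φ : H → ℂ → ℂ) (hd : ∀ g, DifferentiableOn ℂ (Φ g) P)
    (ha : ∀ g h, ∀ z ∈ P, Φ (g + h) z = Φ g z + Φ h z)
    (hs : ∀ (c : ℂ) g, ∀ z ∈ P, Φ (c • g) z = c * Φ g z) (C : ℝ≥0)
    (hb : ∀ g, N (Φ g) ≤ C * N (ev g)) : ∃ T : H →L[ℂ] H, ∀ g, ∀ z ∈ P, ev (T g) z = Φ g z := by
  have hN : ∀ g, N (Φ g) ≠ ⊤ := fun g => ne_top_of_le_ne_top
    (ENNReal.mul_ne_top ENNReal.coe_ne_top (by rw [N_ev]; exact ENNReal.ofReal_ne_top)) (hb g)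
  choose T hT hT2 using fun g => A2 (hd g) (hN g)
  let T0 : H →ₗ[ℂ] H :=
    { toFun := T
      map_add' := fun g h => ev_inj fun z hz => by rw [ev_add, hT, hT, hT, ha] <;> exact hz
      map_smul' := fun c g => ev_inj fun z hz => by
        rw [ev_smul, hT, hT, hs] <;> first | exact hz | rfl }
  refine ⟨T0.mkContinuous (Real.sqrt C) fun g => ?_, fun g z hz => hT g z hz⟩
  refine le_of_pow_le_pow_left₀ two_ne_zero (by positivity) ?_
  have h1 := ENNReal.toReal_mono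
    (ENNReal.mul_ne_top ENNReal.coe_ne_top (by rw [N_ev]; exact ENNReal.ofReal_ne_top)) (hb g)
  rw [N_ev, ENNReal.toReal_mul, ENNReal.toReal_ofReal (by positivity), ENNReal.coe_toReal] at h1
  have hp : 0 < 2 * Real.pi := by positivity
  refine le_of_mul_le_mul_left ?_ hp
  rw [mul_pow, Real.sq_sqrt C.coe_nonneg]
  have := (hT2 g).trans h1
  show 2 * Real.pi * ‖T g‖ ^ 2 ≤ _
  linarith

lemma exists_mul (h : ℂ → ℂ) (hd : DifferentiableOn ℂ h P) (C : ℝ) (hC : ∀ z ∈ P, ‖h z‖ ≤ C) :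
    ∃ T : H →L[ℂ] H, ∀ g, ∀ z ∈ P, ev (T g) z = h z * ev g z := by
  have hC0 : 0 ≤ C := (norm_nonneg _).trans (hC 1 one_P)
  refine exists_op (fun g z => h z * ev g z) (fun g => hd.mul (ev_diff g))
    (fun g h z _ => by rw [ev_add]; ring) (fun c g z _ => by rw [ev_smul]; ring)
    (⟨C, hC0⟩ ^ 2) fun g => iSup₂_le fun x hx => ?_
  refine le_trans ?_ (mul_le_mul_right (le_iSup₂_of_le (f := fun (x : ℝ) (_ : 0 < x) =>
    ∫⁻ y : ℝ, (‖ev g ((x : ℂ) + (y : ℂ) * Complex.I)‖₊ : ENNReal) ^ 2) x hx le_rfl) _)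
  rw [← lintegral_const_mul' _ _ ENNReal.coe_ne_top]
  refine lintegral_mono fun y => ?_
  have : ‖h (x + y * I)‖₊ ≤ ⟨C, hC0⟩ := hC _ (line_P hx y)
  rw [nnnorm_mul]
  push_cast
  rw [mul_pow]
  gcongr

lemma hypo (T T' : H → H) (adj : ∀ a b, inner ℂ (T a) b = inner ℂ a (T' b))
    (comm : ∀ a b, ∀ z ∈ P, ev (T a) z * ev b z = ev a z * ev (T b) z) (g : H) :
    ‖T' g‖ ≤ ‖T g‖ := by
  have Q : ∀ (v : H) {x : ℝ}, 0 < x → Integrable (fun y : ℝ => ‖ev v (x + y * I)‖ ^ 2) ∧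
      ∫ y : ℝ, ‖ev v (x + y * I)‖ ^ 2 ≤ 2 * Real.pi * ‖v‖ ^ 2 := by
    intro v x hx
    have := int_of (cont_lineP (ev_diff v) hx) ENNReal.ofReal_ne_top (A1 v hx)
    rwa [ENNReal.toReal_ofReal (by positivity)] at this
  set k := T' g
  have h1 : N (ev (T k + g)) ≤ ENNReal.ofReal (2 * Real.pi * ‖T k - g‖ ^ 2 +
      2 * (2 * Real.pi * ‖k‖ ^ 2) + 2 * (2 * Real.pi * ‖T g‖ ^ 2)) := by
    refine iSup₂_le fun x hx => ?_
    rw [lint_eq (Q _ hx).1]
    refine ENNReal.ofReal_le_ofReal ?_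
    have i1 := (Q (T k - g) hx).1
    have i2 := (Q k hx).1.const_mul 2
    have i3 := (Q (T g) hx).1.const_mul 2
    have i4 : Integrable (fun y : ℝ => ‖ev (T k - g) (x + y * I)‖ ^ 2 +
      2 * ‖ev k (x + y * I)‖ ^ 2) := i1.add i2
    calc _ ≤ ∫ y : ℝ, (‖ev (T k - g) (x + y * I)‖ ^ 2 + 2 * ‖ev k (x + y * I)‖ ^ 2 +
          2 * ‖ev (T g) (x + y * I)‖ ^ 2) := by
          refine integral_mono (Q _ hx).1 (i4.add i3) fun y => ?_
          have hc := congrArg norm (comm k g _ (line_P hx y))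
          simp only [ev_add, ev_sub, norm_mul] at hc ⊢
          set u := ev (T k) (x + y * I)
          set v := ev g (x + y * I)
          have p := parallelogram_law_with_norm ℂ u v
          have q := norm_sub_norm_le u v
          have q2 : (‖u‖ - ‖v‖) ^ 2 ≤ ‖u - v‖ ^ 2 := by
            rw [← sq_abs]
            exact pow_le_pow_left₀ (abs_nonneg _) (abs_norm_sub_norm_le u v) 2
          nlinarith [sq_nonneg (‖ev k (x + y * I)‖ - ‖ev (T g) (x + y * I)‖)]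
      _ ≤ _ := by
          rw [integral_add i4 i3, integral_add i1 i2, integral_const_mul, integral_const_mul]
          have := (Q (T k - g) hx).2
          have := (Q k hx).2
          have := (Q (T g) hx).2
          linarith
  rw [N_ev, ENNReal.ofReal_le_ofReal_iff (by positivity), @norm_add_sq ℂ, @norm_sub_sq ℂ, adj,
    inner_self_eq_norm_sq] at h1
  refine le_of_pow_le_pow_left₀ two_ne_zero (norm_nonneg _) ?_
  have hp : 0 < Real.pi := Real.pi_pos
  refine le_of_mul_le_mul_left ?_ hp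
  nlinarith

end Pool.Agent.H55.HN
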