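import Pool.Agent.H55.HN3

set_option autoImplicit false
set_option maxHeartbeats 400000

namespace Pool.Agent.H55.HN

open Complex MeasureTheory Filter Topology Set
open scoped ENNReal ComplexConjugate NNReal

lemma open_im {β : ℂ → ℂ} (hβ : DifferentiableOn ℂ β P) (hnc : ∃ u ∈ P, β 1 - β u ≠ 0) :
    IsOpen (β '' P) := by
  rcases (hβ.analyticOnNhd P_open).is_constant_or_isOpen P_conn with ⟨w, hw⟩ | h
  · obtain ⟨u, hu, h⟩ := hnc
    rw [hw 1 one_P, hw u hu, sub_self] at h
    exact absurd rfl h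
  · exact h P subset_rfl P_open

lemma id_comp {φ F : ℂ → ℂ} (hφ : DifferentiableOn ℂ φ P) (hm : MapsTo φ P P)
    (hnc : ∃ u ∈ P, φ 1 - φ u ≠ 0) (hF : DifferentiableOn ℂ F P) (h : ∀ z ∈ P, F (φ z) = 0) :
    ∀ z ∈ P, F z = 0 := by
  refine (hF.analyticOnNhd P_open).eqOn_zero_of_preconnected_of_eventuallyEq_zero P_conn
    (hm one_P) ?_
  filter_upwards [(open_im hφ hnc).mem_nhds ⟨1, one_P, rfl⟩]
  rintro _ ⟨z, hz, rfl⟩
  exact h z hz

noncomputable def E : H := lp.single 2 0 1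

lemma R_E : R E = 0 := by ext n; simp [E]
lemma E_zero : E 0 = 1 := by simp [E]
lemma R_zero : R 0 = 0 := by ext n; simp

lemma inner_E (v : H) : inner ℂ v E = conj (v 0) := by
  rw [inner_split, R_E, E_zero]; simp

lemma inner_E' (v : H) : inner ℂ E v = v 0 := by
  rw [← inner_conj_symm, inner_E]; simp

lemma ev_zero (z : ℂ) : ev 0 z = 0 := inner_zero_right _

lemma inner_iter (n : ℕ) : ∀ u v : H, inner ℂ u (S^[n] v) = inner ℂ (R^[n] u) v := by
  induction n with
  | zero => intro u v; rfl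
  | succ n ih =>
    intro u v
    rw [Function.iterate_succ_apply', inner_S', ih, Function.iterate_succ_apply]

lemma R_iter (n : ℕ) : ∀ (u : H) (k : ℕ), R^[n] u k = u (k + n) := by
  induction n with
  | zero => intro u k; rfl
  | succ n ih => intro u k; rw [Function.iterate_succ_apply, ih]; rfl

theorem core (V : H ≃ₗᵢ[ℂ] H) (α β : ℂ → ℂ) (hα : DifferentiableOn ℂ α P)
    (hβ : DifferentiableOn ℂ β P)
    (hker : ∀ z ∈ P, ∀ u ∈ P, ev (V (K u)) z * (α z + conj (β u)) = 1)
    (hnc : ∃ u ∈ P, β 1 - β u ≠ 0) :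
    ∃ p0 p1 p2 q0 q1 q2 : ℂ, (∃ u ∈ P, p0 + p1 * u + p2 * u ^ 2 ≠ 0) ∧
      ∀ u ∈ P, β u * (p0 + p1 * u + p2 * u ^ 2) = q0 + q1 * u + q2 * u ^ 2 := by
  obtain ⟨ε, hε, hb⟩ := Metric.isOpen_iff.1 (open_im hβ hnc) (β 1) ⟨1, one_P, rfl⟩
  have hne : ∀ z ∈ P, ∀ u ∈ P, α z + conj (β u) ≠ 0 := fun z hz u hu =>
    right_ne_zero_of_mul_eq_one (hker z hz u hu)
  have hlow : ∀ z ∈ P, ε ≤ ‖α z + conj (β 1)‖ := by
    intro z hz
    by_contra h
    push Not at h
    obtain ⟨u, hu, h1⟩ := hb (show -conj (α z) ∈ Metric.ball (β 1) ε by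
      rw [Metric.mem_ball, dist_eq_norm, ← RCLike.norm_conj, ← norm_neg]
      simpa [add_comm] using h)
    exact hne z hz u hu (by simp [h1])
  obtain ⟨M, hM⟩ := exists_mul (fun z => (α z + conj (β 1))⁻¹)
    ((hα.add_const _).inv fun z hz => hne z hz 1 one_P) ε⁻¹ (fun z hz => by
      rw [norm_inv]; exact inv_anti₀ hε (hlow z hz))
  set M' := ContinuousLinearMap.adjoint M
  have hMM : ∀ g, ‖M' g‖ ≤ ‖M g‖ := hypo M M'
    (fun a b => (ContinuousLinearMap.adjoint_inner_right M a b).symm)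
    (fun a b z hz => by rw [hM a z hz, hM b z hz]; ring)
  set X : H → H := fun a => V.symm (M (V a)) with hXd
  set Y : H → H := fun a => V.symm (M' (V a)) with hYd
  have hXY : ∀ a b, inner ℂ (X a) b = inner ℂ a (Y b) := by
    intro a b
    rw [← V.inner_map_map, ← V.inner_map_map a]
    simp only [hXd, hYd, LinearIsometryEquiv.apply_symm_apply]
    exact (ContinuousLinearMap.adjoint_inner_right M _ _).symm
  have hYX : ∀ a b, inner ℂ (Y a) b = inner ℂ a (X b) := by
    intro a b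
    rw [← inner_conj_symm, ← hXY, inner_conj_symm]
  have hn : ∀ f, ‖Y f‖ ≤ ‖X f‖ := by
    intro f
    simp only [hXd, hYd, LinearIsometryEquiv.norm_map]
    exact hMM _
  have hX : ∀ u ∈ P, K u - K 1 = conj (β 1 - β u) • X (K u) := by
    intro u hu
    apply V.injective
    simp only [hXd, map_sub V, map_smul, LinearIsometryEquiv.apply_symm_apply]
    refine ev_inj fun z hz => ?_
    rw [ev_sub, ev_smul, hM _ z hz, eq_inv_of_mul_eq_one_left (hker z hz u hu),
      eq_inv_of_mul_eq_one_left (hker z hz 1 one_P), map_sub]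
    have := hne z hz u hu
    have := hne z hz 1 one_P
    field_simp
    ring
  have hY : ∀ f, ∀ u ∈ P, (β 1 - β u) * ev (Y f) u = ev f u - ev f 1 := by
    intro f u hu
    have := congrArg (fun v => inner ℂ v f) (hX u hu)
    simp only [inner_sub_left, inner_smul_left, conj_conj, hXY] at this
    exact this.symm
  set T : H → H := fun a => Y (S a) with hTd
  set T' : H → H := fun b => R (X b) with hT'd
  have hTT : ∀ a b, inner ℂ (T a) b = inner ℂ a (T' b) := fun a b => by
    simp only [hTd, hT'd]; rw [hYX, inner_S]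
  have hT : ∀ f, ∀ u ∈ P, (β 1 - β u) * ev (T f) u = bl u * ev f u := by
    intro f u hu
    simp only [hTd]
    rw [hY _ u hu, ev_S _ hu, ev_one]; simp
  have hβd : DifferentiableOn ℂ (fun u => β 1 - β u) P := hβ.const_sub _
  have hyp := hypo T T' hTT (fun a b z hz => sub_eq_zero.1 (cancel hβd
    (((ev_diff _).mul (ev_diff _)).sub ((ev_diff _).mul (ev_diff _)))
    (fun z hz => by
      simp only [Pi.mul_apply, Pi.sub_apply]
      linear_combination ev b z * hT a z hz - ev a z * hT b z hz) hnc z hz))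
  have hTS : ∀ a, T (S a) = S (T a) := fun a => ev_inj fun z hz => sub_eq_zero.1 (cancel hβd
    ((ev_diff _).sub (ev_diff _)) (fun z hz => by
      simp only [Pi.sub_apply]
      have h1 := hT (S a) z hz
      rw [ev_S _ hz] at h1
      rw [ev_S _ hz]
      linear_combination h1 - bl z * hT a z hz) hnc z hz)
  obtain ⟨a, b, hab, hη⟩ : ∃ a b : ℂ, (a ≠ 0 ∨ b ≠ 0) ∧
      a * conj (Y E 1) + b * conj (Y E 2) = 0 := by
    by_cases h : Y E 1 = 0
    · exact ⟨1, 0, Or.inl one_ne_zero, by simp [h]⟩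
    · exact ⟨conj (Y E 2), -conj (Y E 1), Or.inr (by simpa using h), by ring⟩
  set g1 : H := a • E + b • S E with hg1
  have hig : ∀ ζ : H, inner ℂ ζ g1 = a * conj (ζ 0) + b * conj (ζ 1) := by
    intro ζ
    rw [hg1, inner_add_right, inner_smul_right, inner_smul_right, inner_S', inner_E, inner_E]
    rfl
  set g := S g1 with hg
  have h1 : ‖T g‖ ≤ ‖T' g‖ := by
    have e1 : ‖T g‖ = ‖Y g‖ := by rw [hg, hTS, norm_S]
    have e2 : X g 0 = 0 := by
      rw [← inner_E', ← hYX, hg, inner_S', hig]; exact hη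
    have e3 := norm_split (X g)
    rw [e2, norm_zero] at e3
    have e4 : ‖X g‖ = ‖T' g‖ :=
      (pow_left_inj₀ (norm_nonneg _) (norm_nonneg _) two_ne_zero).1 (by simpa using e3)
    rw [e1, ← e4]; exact hn g
  have h2 : ∀ n, ‖T (S^[n] g)‖ = ‖T g‖ := by
    intro n
    induction n with
    | zero => rfl
    | succ n ih => rw [Function.iterate_succ_apply', hTS, norm_S, ih]
  have h3 : ∀ n, R (T' (S^[n + 1] g)) = T' (S^[n] g) := by
    intro n
    refine ext_inner_left ℂ fun v => ?_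
    rw [← inner_S, ← hTT, ← hTT, hTS, Function.iterate_succ_apply', inner_S, R_S]
  have h4 : ∀ n, ‖T' g‖ ≤ ‖T' (S^[n] g)‖ := by
    intro n
    induction n with
    | zero => exact le_rfl
    | succ n ih =>
      refine ih.trans (le_of_pow_le_pow_left₀ two_ne_zero (norm_nonneg _) ?_)
      rw [norm_split (T' (S^[n + 1] g)), h3]
      linarith [sq_nonneg ‖T' (S^[n + 1] g) 0‖]
  set ζ := T E with hζ
  have h5 : ∀ n, a * conj (ζ (n + 2)) + b * conj (ζ (n + 3)) = 0 := by
    intro n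
    have e1 := norm_split (T' (S^[n + 1] g))
    rw [h3] at e1
    have e2 : ‖T' (S^[n + 1] g)‖ ≤ ‖T' (S^[n] g)‖ :=
      (hyp _).trans ((h2 _).le.trans (h1.trans (h4 n)))
    have e3 := pow_le_pow_left₀ (norm_nonneg _) e2 2
    have e4 : T' (S^[n + 1] g) 0 = 0 := by
      have : ‖T' (S^[n + 1] g) 0‖ ^ 2 = 0 := le_antisymm (by linarith) (sq_nonneg _)
      simpa using this
    rw [← inner_E', ← hTT, inner_iter, hg, inner_S', hig, R_apply, R_apply, R_iter,
      R_iter] at e4
    rw [show n + 2 = 0 + 1 + (n + 1) by ring, show n + 3 = 1 + 1 + (n + 1) by ring]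
    exact e4
  set ω : H := conj b • ζ + conj a • S ζ with hω
  have h6 : R (R (R ω)) = 0 := by
    ext n
    have := congrArg conj (h5 n)
    simp only [map_add, map_mul, conj_conj, map_zero] at this
    simp only [hω, R_apply, lp.coeFn_add, lp.coeFn_smul, Pi.add_apply, Pi.smul_apply, S_succ,
      smul_eq_mul, lp.coeFn_zero, Pi.zero_apply]
    linear_combination this
  have h7 : ∀ u ∈ P, (β 1 - β u) * (ω 0 + bl u * (ω 1 + bl u * ω 2)) =
      bl u * (conj b + conj a * bl u) := by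
    intro u hu
    have e1 := ev_split ω hu
    rw [ev_split (R ω) hu, ev_split (R (R ω)) hu, h6, ev_zero] at e1
    have e2 : ev ω u = (conj b + conj a * bl u) * ev ζ u := by
      rw [hω, ev_add, ev_smul, ev_smul, ev_S _ hu]; ring
    have e3 := hT E u hu
    rw [ev_split E hu, R_E, ev_zero, E_zero] at e3
    simp only [R_apply, zero_add, Nat.reduceAdd] at e1
    refine mul_left_cancel₀ (e0_ne hu) ?_
    linear_combination -(β 1 - β u) * e1 + (β 1 - β u) * e2 + (conj b + conj a * bl u) * e3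
  have h8 : ∀ u ∈ P, (β 1 - β u) * (ω 0 * (u + 1) ^ 2 + ω 1 * (u - 1) * (u + 1) +
      ω 2 * (u - 1) ^ 2) = (u - 1) * (conj b * (u + 1) + conj a * (u - 1)) := by
    intro u hu
    have e := h7 u hu
    have := add_one_ne hu
    rw [bl] at e
    field_simp at e
    linear_combination e
  refine ⟨ω 0 - ω 1 + ω 2, 2 * ω 0 - 2 * ω 2, ω 0 + ω 1 + ω 2,
    β 1 * (ω 0 - ω 1 + ω 2) + conj b - conj a, β 1 * (2 * ω 0 - 2 * ω 2) + 2 * conj a,
    β 1 * (ω 0 + ω 1 + ω 2) - conj b - conj a, ?_, fun u hu => by linear_combination -h8 u hu⟩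
  by_contra hc
  push Not at hc
  have three : (3 : ℂ) ∈ P := by simp [P]
  have a2 : conj b * 3 + conj a = 0 := by
    linear_combination -h8 2 two_P + (β 1 - β 2) * hc 2 two_P
  have a3 : conj b * 8 + conj a * 4 = 0 := by
    linear_combination -h8 3 three + (β 1 - β 3) * hc 3 three
  have b0 : conj b = 0 := by linear_combination a2 - (1 / 4) * a3
  have a0 : conj a = 0 := by linear_combination -2 * a2 + (3 / 4) * a3
  rcases hab with h | h
  · exact h (by simpa using a0)
  · exact h (by simpa using b0)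

lemma mob {φ : ℂ → ℂ} (hφ : DifferentiableOn ℂ φ P) (hnc : ∃ u ∈ P, φ 1 - φ u ≠ 0)
    (a b c d : ℂ) (h0 : a ≠ 0 ∨ b ≠ 0 ∨ c ≠ 0 ∨ d ≠ 0)
    (h : ∀ z ∈ P, φ z * (c * z + d) = a * z + b) :
    ∃ a b c d : ℂ, a * d - b * c ≠ 0 ∧
      ∀ z : ℂ, 0 < z.re → c * z + d ≠ 0 ∧ φ z = (a * z + b) / (c * z + d) := by
  have hcd : ∃ z ∈ P, c * z + d ≠ 0 := by
    by_contra hc
    push Not at hc
    have c1 := hc 1 one_P
    have c2 := hc 2 two_P
    have e1 := h 1 one_P
    have e2 := h 2 two_P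
    rw [c1] at e1
    rw [c2] at e2
    rcases h0 with h | h | h | h <;> apply h
    · linear_combination e1 - e2
    · linear_combination e2 - 2 * e1
    · linear_combination c2 - c1
    · linear_combination 2 * c1 - c2
  have hdet : a * d - b * c ≠ 0 := by
    intro hd
    obtain ⟨z0, hz0, h1⟩ := hcd
    have := cancel (f := fun z => c * z + d) (g := fun z => φ z - φ z0) (by fun_prop)
      (hφ.sub_const _) (fun z hz => mul_left_cancel₀ h1 (by
        linear_combination (c * z0 + d) * h z hz - (c * z + d) * h z0 hz0 + (z - z0) * hd))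
      ⟨z0, hz0, h1⟩
    obtain ⟨u, hu, h2⟩ := hnc
    exact h2 (by linear_combination this 1 one_P - this u hu)
  refine ⟨a, b, c, d, hdet, fun z hz => ?_⟩
  have h1 : c * z + d ≠ 0 := by
    intro h1
    have h2 := h z hz
    rw [h1] at h2
    exact hdet (by linear_combination a * h1 + c * h2)
  exact ⟨h1, eq_div_of_mul_eq h1 (h z hz)⟩

open Polynomial in
lemma alg {φ : ℂ → ℂ} (hφ : DifferentiableOn ℂ φ P) (hm : MapsTo φ P P)
    (hnc : ∃ u ∈ P, φ 1 - φ u ≠ 0) (p q : ℂ[X]) (hp : ∃ u ∈ P, p.eval u ≠ 0)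
    (hpq : ∀ z ∈ P, φ z * p.eval z = q.eval z) (a0 a1 a2 b0 b1 b2 : ℂ)
    (ha : a0 ≠ 0 ∨ a1 ≠ 0 ∨ a2 ≠ 0)
    (hab : ∀ z ∈ P, z * (a0 + a1 * φ z + a2 * φ z ^ 2) = b0 + b1 * φ z + b2 * φ z ^ 2) :
    ∃ a b c d : ℂ, a * d - b * c ≠ 0 ∧
      ∀ z : ℂ, 0 < z.re → c * z + d ≠ 0 ∧ φ z = (a * z + b) / (c * z + d) := by
  by_cases h2 : a2 = 0 ∧ b2 = 0
  · obtain ⟨rfl, rfl⟩ := h2
    refine mob hφ hnc (-a0) b0 a1 (-b1) ?_ fun z hz => by linear_combination hab z hz
    rcases ha with h | h | h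
    · exact Or.inl (neg_ne_zero.2 h)
    · exact Or.inr (Or.inr (Or.inl h))
    · exact absurd rfl h
  by_cases h0 : a0 = 0 ∧ b0 = 0
  · obtain ⟨rfl, rfl⟩ := h0
    refine mob hφ hnc (-a1) b1 a2 (-b2) ?_ fun z hz => ?_
    · rcases ha with h | h | h
      · exact absurd rfl h
      · exact Or.inl (neg_ne_zero.2 h)
      · exact Or.inr (Or.inr (Or.inl h))
    · have : φ z ≠ 0 := by
        intro h
        have := hm hz
        simp [P, h] at this
      exact mul_left_cancel₀ this (by linear_combination hab z hz)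
  have lne : ∀ a b : ℂ, ¬ (a = 0 ∧ b = 0) → (C a * X - C b : ℂ[X]) ≠ 0 := by
    intro a b h h'
    have e0 := congrArg (eval 0) h'
    have e1 := congrArg (eval 1) h'
    simp only [eval_sub, eval_mul, eval_C, eval_X, eval_zero] at e0 e1
    exact h ⟨by linear_combination e1 - e0, by linear_combination -e0⟩
  have ldeg : ∀ a b : ℂ, (C a * X - C b : ℂ[X]).natDegree ≤ 1 := fun a b => by compute_degree
  have hp0 : p ≠ 0 := by
    rintro rfl
    obtain ⟨u, _, h⟩ := hp
    simp at h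
  classical
  obtain ⟨p', q', hp', hq', hu⟩ := extract_gcd p q
  have hco : IsCoprime p' q' := (gcd_isUnit_iff _ _).1 hu
  set g := gcd p q
  have h1 : ∀ z ∈ P, φ z * p'.eval z = q'.eval z := fun z hz => sub_eq_zero.1
    (cancel (f := fun z => g.eval z) (g := fun z => φ z * p'.eval z - q'.eval z)
      g.differentiable.differentiableOn
      ((hφ.mul p'.differentiable.differentiableOn).sub q'.differentiable.differentiableOn)
      (fun z hz => by
        have := hpq z hz
        rw [hp', hq', eval_mul, eval_mul] at this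
        linear_combination this)
      (by
        obtain ⟨u, hu, h⟩ := hp
        rw [hp', eval_mul] at h
        exact ⟨u, hu, left_ne_zero_of_mul h⟩) z hz)
  have hF : (C a2 * X - C b2) * q' ^ 2 + (C a1 * X - C b1) * p' * q' +
      (C a0 * X - C b0) * p' ^ 2 = 0 := by
    apply eq_zero_of_infinite_isRoot
    refine Set.Infinite.mono (s := P) (fun z hz => ?_) (infinite_of_mem_nhds 1 (P_open.mem_nhds one_P))
    simp only [mem_setOf_eq, IsRoot.def, eval_add, eval_mul, eval_sub, eval_C, eval_X, eval_pow]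
    rw [← h1 z hz]
    linear_combination (eval z p') ^ 2 * hab z hz
  have d1 : p' ∣ C a2 * X - C b2 := (hco.pow_right (n := 2)).dvd_of_dvd_mul_right
    ⟨-((C a1 * X - C b1) * q' + (C a0 * X - C b0) * p'), by linear_combination hF⟩
  have d2 : q' ∣ C a0 * X - C b0 := (hco.symm.pow_right (n := 2)).dvd_of_dvd_mul_right
    ⟨-((C a1 * X - C b1) * p' + (C a2 * X - C b2) * q'), by linear_combination hF⟩
  obtain ⟨c, d, rfl⟩ := exists_eq_X_add_C_of_natDegree_le_one
    ((natDegree_le_of_dvd d1 (lne _ _ h2)).trans (ldeg _ _))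
  obtain ⟨a, b, rfl⟩ := exists_eq_X_add_C_of_natDegree_le_one
    ((natDegree_le_of_dvd d2 (lne _ _ h0)).trans (ldeg _ _))
  refine mob hφ hnc a b c d ?_ fun z hz => by simpa using h1 z hz
  by_contra hc
  push Not at hc
  apply hp0
  rw [hp', hc.2.2.1, hc.2.2.2]
  simp

end Pool.Agent.H55.HN
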