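import Pool.Agent.H55.HN4

set_option autoImplicit false
set_option maxHeartbeats 2000000

namespace Pool.Agent.H55.HN

open Complex MeasureTheory Filter Topology Set
open scoped ENNReal ComplexConjugate NNReal

theorem core2 (V : H ≃ₗᵢ[ℂ] H) (G L lam mu : ℂ → ℂ) (hG : DifferentiableOn ℂ G P)
    (hL : DifferentiableOn ℂ L P) (hlam : DifferentiableOn ℂ lam P)
    (hmu : DifferentiableOn ℂ mu P) (l1 : lam 1 = 1) (m1 : mu 1 = 0)
    (hker : ∀ z ∈ P, ∀ u ∈ P, ev (V (K u)) z * (conj (lam u) * G z + conj (mu u) * L z) = 1)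
    (hnc : ∃ u ∈ P, mu u ≠ 0) :
    ∃ w0 w1 w2 a b : ℂ, (a ≠ 0 ∨ b ≠ 0) ∧
      ∀ u ∈ P, mu u * (w0 * (u + 1) ^ 2 + w1 * (u - 1) * (u + 1) + w2 * (u - 1) ^ 2) =
        - lam u * ((u - 1) * (b * (u + 1) + a * (u - 1))) := by
  have hP1 : P ∈ 𝓝 (1 : ℂ) := P_open.mem_nhds one_P
  have hne : ∀ z ∈ P, ∀ u ∈ P, conj (lam u) * G z + conj (mu u) * L z ≠ 0 := fun z hz u hu =>
    right_ne_zero_of_mul_eq_one (hker z hz u hu)
  have hG0 : ∀ z ∈ P, G z ≠ 0 := fun z hz => by simpa [l1, m1] using hne z hz 1 one_P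
  have hl0 : ∀ᶠ u in 𝓝 (1 : ℂ), lam u ≠ 0 :=
    (hlam.differentiableAt hP1).continuousAt.eventually_ne (by simp [l1])
  have hr : AnalyticAt ℂ (fun u => mu u / lam u) 1 :=
    (hmu.analyticAt hP1).div (hlam.analyticAt hP1) (by simp [l1])
  obtain ⟨ε, hε, hb⟩ : ∃ ε > 0, ∀ w ∈ Metric.ball (0 : ℂ) ε, ∃ u ∈ P, lam u ≠ 0 ∧
      mu u / lam u = w := by
    rcases hr.eventually_constant_or_nhds_le_map_nhds with h | h
    · exfalso
      obtain ⟨u, hu, h1⟩ := hnc
      refine h1 ((hmu.analyticOnNhd P_open).eqOn_zero_of_preconnected_of_eventuallyEq_zero P_conn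
        one_P ?_ hu)
      filter_upwards [h, hl0] with v h1 h2
      simpa [m1, h2] using h1
    · have := h (image_mem_map (inter_mem hP1 hl0))
      simp only [m1, zero_div] at this
      obtain ⟨ε, hε, hb⟩ := Metric.mem_nhds_iff.1 this
      exact ⟨ε, hε, fun w hw => by
        obtain ⟨u, hu, h1⟩ := hb hw
        exact ⟨u, hu.1, hu.2, h1⟩⟩
  have hlow : ∀ z ∈ P, ‖L z / G z‖ ≤ ε⁻¹ := by
    intro z hz
    by_contra h
    push Not at h
    have h0 : 0 < ‖L z / G z‖ := (inv_pos.2 hε).trans h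
    have hLz : L z ≠ 0 := by
      intro h1; simp [h1] at h0
    obtain ⟨u, hu, h1, h2⟩ := hb (-conj (L z / G z)⁻¹) (by
      rw [mem_ball_zero_iff, norm_neg, RCLike.norm_conj, norm_inv]
      exact (inv_lt_comm₀ hε h0).1 h)
    have h3 : conj (mu u) = -(L z / G z)⁻¹ * conj (lam u) := by
      rw [div_eq_iff h1] at h2
      rw [h2]; simp
    refine hne z hz u hu ?_
    have := hG0 z hz
    rw [h3]
    field_simp
    ring
  obtain ⟨M, hM⟩ := exists_mul (fun z => L z / G z) (hL.div hG hG0) ε⁻¹ hlow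
  set M' := ContinuousLinearMap.adjoint M
  have hMM : ∀ g, ‖M' g‖ ≤ ‖M g‖ := hypo M M'
    (fun a b => (ContinuousLinearMap.adjoint_inner_right M a b).symm)
    (fun a b z hz => by rw [hM a z hz, hM b z hz]; ring)
  set X : H → H := fun a => V.symm (M (V a)) with hXd
  set Y : H → H := fun a => V.symm (M' (V a)) with hYd
  have hXY : ∀ a b, inner ℂ (X a) b = inner ℂ a (Y b) := by
    intro a b
    rw [← V.inner_map_map, ← V.inner_map_map a]
    simp only [hXd, hYd, LinearIsometryEquiv.apply_symm_apply]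
    exact (ContinuousLinearMap.adjoint_inner_right M _ _).symm
  have hYX : ∀ a b, inner ℂ (Y a) b = inner ℂ a (X b) := by
    intro a b
    rw [← inner_conj_symm, ← hXY, inner_conj_symm]
  have hn : ∀ f, ‖Y f‖ ≤ ‖X f‖ := by
    intro f
    simp only [hXd, hYd, LinearIsometryEquiv.norm_map]
    exact hMM _
  have hX : ∀ u ∈ P, K 1 - conj (lam u) • K u = conj (mu u) • X (K u) := by
    intro u hu
    apply V.injective
    simp only [hXd, map_sub V, map_smul, LinearIsometryEquiv.apply_symm_apply]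
    refine ev_inj fun z hz => ?_
    rw [ev_sub, ev_smul, ev_smul, hM _ z hz]
    have e1 := hker z hz u hu
    have e2 := hker z hz 1 one_P
    have := hG0 z hz
    simp only [l1, m1, map_one, map_zero, one_mul, zero_mul, add_zero] at e2
    field_simp
    linear_combination e2 - e1
  have hY : ∀ f, ∀ u ∈ P, mu u * ev (Y f) u = ev f 1 - lam u * ev f u := by
    intro f u hu
    have := congrArg (fun v => inner ℂ v f) (hX u hu)
    simp only [inner_sub_left, inner_smul_left, conj_conj, hXY] at this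
    exact this.symm
  set T : H → H := fun a => Y (S a) with hTd
  set T' : H → H := fun b => R (X b) with hT'd
  have hTT : ∀ a b, inner ℂ (T a) b = inner ℂ a (T' b) := fun a b => by
    simp only [hTd, hT'd]; rw [hYX, inner_S]
  have hT : ∀ f, ∀ u ∈ P, mu u * ev (T f) u = - lam u * bl u * ev f u := by
    intro f u hu
    simp only [hTd]
    rw [hY _ u hu, ev_S _ hu, ev_one]; simp [mul_assoc]
  have hyp := hypo T T' hTT (fun a b z hz => sub_eq_zero.1 (cancel hmu
    (((ev_diff _).mul (ev_diff _)).sub ((ev_diff _).mul (ev_diff _)))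
    (fun z hz => by
      simp only [Pi.mul_apply, Pi.sub_apply]
      linear_combination ev b z * hT a z hz - ev a z * hT b z hz) hnc z hz))
  have hTS : ∀ a, T (S a) = S (T a) := fun a => ev_inj fun z hz => sub_eq_zero.1 (cancel hmu
    ((ev_diff _).sub (ev_diff _)) (fun z hz => by
      simp only [Pi.sub_apply]
      have h1 := hT (S a) z hz
      rw [ev_S _ hz] at h1
      rw [ev_S _ hz]
      linear_combination h1 - bl z * hT a z hz) hnc z hz)
  obtain ⟨a, b, hab, hη⟩ : ∃ a b : ℂ, (a ≠ 0 ∨ b ≠ 0) ∧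
      a * conj (Y E 1) + b * conj (Y E 2) = 0 := by
    by_cases h : Y E 1 = 0
    · exact ⟨1, 0, Or.inl one_ne_zero, by simp [h]⟩
    · exact ⟨conj (Y E 2), -conj (Y E 1), Or.inr (by simpa using h), by ring⟩
  set g1 : H := a • E + b • S E with hg1
  have hig : ∀ ζ : H, inner ℂ ζ g1 = a * conj (ζ 0) + b * conj (ζ 1) := by
    intro ζ
    rw [hg1, inner_add_right, inner_smul_right, inner_smul_right, inner_S', inner_E, inner_E]
    rfl
  set g := S g1 with hg
  have h1 : ‖T g‖ ≤ ‖T' g‖ := by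
    have e1 : ‖T g‖ = ‖Y g‖ := by rw [hg, hTS, norm_S]
    have e2 : X g 0 = 0 := by
      rw [← inner_E', ← hYX, hg, inner_S', hig]; exact hη
    have e3 := norm_split (X g)
    rw [e2, norm_zero] at e3
    have e4 : ‖X g‖ = ‖T' g‖ :=
      (pow_left_inj₀ (norm_nonneg _) (norm_nonneg _) two_ne_zero).1 (by simpa using e3)
    rw [e1, ← e4]; exact hn g
  have h2 : ∀ n, ‖T (S^[n] g)‖ = ‖T g‖ := by
    intro n
    induction n with
    | zero => rfl
    | succ n ih => rw [Function.iterate_succ_apply', hTS, norm_S, ih]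
  have h3 : ∀ n, R (T' (S^[n + 1] g)) = T' (S^[n] g) := by
    intro n
    refine ext_inner_left ℂ fun v => ?_
    rw [← inner_S, ← hTT, ← hTT, hTS, Function.iterate_succ_apply', inner_S, R_S]
  have h4 : ∀ n, ‖T' g‖ ≤ ‖T' (S^[n] g)‖ := by
    intro n
    induction n with
    | zero => exact le_rfl
    | succ n ih =>
      refine ih.trans (le_of_pow_le_pow_left₀ two_ne_zero (norm_nonneg _) ?_)
      rw [norm_split (T' (S^[n + 1] g)), h3]
      linarith [sq_nonneg ‖T' (S^[n + 1] g) 0‖]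
  set ζ := T E with hζ
  have h5 : ∀ n, a * conj (ζ (n + 2)) + b * conj (ζ (n + 3)) = 0 := by
    intro n
    have e1 := norm_split (T' (S^[n + 1] g))
    rw [h3] at e1
    have e2 : ‖T' (S^[n + 1] g)‖ ≤ ‖T' (S^[n] g)‖ :=
      (hyp _).trans ((h2 _).le.trans (h1.trans (h4 n)))
    have e3 := pow_le_pow_left₀ (norm_nonneg _) e2 2
    have e4 : T' (S^[n + 1] g) 0 = 0 := by
      have : ‖T' (S^[n + 1] g) 0‖ ^ 2 = 0 := le_antisymm (by linarith) (sq_nonneg _)
      simpa using this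
    rw [← inner_E', ← hTT, inner_iter, hg, inner_S', hig, R_apply, R_apply, R_iter,
      R_iter] at e4
    rw [show n + 2 = 0 + 1 + (n + 1) by ring, show n + 3 = 1 + 1 + (n + 1) by ring]
    exact e4
  set ω : H := conj b • ζ + conj a • S ζ with hω
  have h6 : R (R (R ω)) = 0 := by
    ext n
    have := congrArg conj (h5 n)
    simp only [map_add, map_mul, conj_conj, map_zero] at this
    simp only [hω, R_apply, lp.coeFn_add, lp.coeFn_smul, Pi.add_apply, Pi.smul_apply, S_succ,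
      smul_eq_mul, lp.coeFn_zero, Pi.zero_apply]
    linear_combination this
  refine ⟨ω 0, ω 1, ω 2, conj a, conj b, by simpa using hab, fun u hu => ?_⟩
  have h7 : mu u * (ω 0 + bl u * (ω 1 + bl u * ω 2)) =
      - lam u * (bl u * (conj b + conj a * bl u)) := by
    have e1 := ev_split ω hu
    rw [ev_split (R ω) hu, ev_split (R (R ω)) hu, h6, ev_zero] at e1
    have e2 : ev ω u = (conj b + conj a * bl u) * ev ζ u := by
      rw [hω, ev_add, ev_smul, ev_smul, ev_S _ hu]; ring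
    have e3 := hT E u hu
    rw [ev_split E hu, R_E, ev_zero, E_zero] at e3
    simp only [R_apply, Nat.reduceAdd] at e1
    refine mul_left_cancel₀ (e0_ne hu) ?_
    linear_combination -(mu u) * e1 + (mu u) * e2 + (conj b + conj a * bl u) * e3
  have := add_one_ne hu
  rw [bl] at h7
  field_simp at h7
  linear_combination h7

theorem core3 (V : H ≃ₗᵢ[ℂ] H) (α1 α2 β1 β2 : ℂ → ℂ) (ha1 : DifferentiableOn ℂ α1 P)
    (ha2 : DifferentiableOn ℂ α2 P) (hb1 : DifferentiableOn ℂ β1 P)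
    (hb2 : DifferentiableOn ℂ β2 P)
    (hker : ∀ z ∈ P, ∀ u ∈ P, ev (V (K u)) z * (α1 z * conj (β1 u) + α2 z * conj (β2 u)) = 1)
    (hnc : ∃ u ∈ P, β1 1 * β2 u - β2 1 * β1 u ≠ 0) :
    ∃ a0 a1 a2 b0 b1 b2 : ℂ,
      (∃ u ∈ P, a0 + a1 * u + a2 * u ^ 2 ≠ 0 ∨ b0 + b1 * u + b2 * u ^ 2 ≠ 0) ∧
      ∀ u ∈ P, β1 u * (a0 + a1 * u + a2 * u ^ 2) + β2 u * (b0 + b1 * u + b2 * u ^ 2) = 0 := by
  set p := β1 1
  set q := β2 1
  set D := conj p * p + conj q * q with hD
  have hD0 : D ≠ 0 := by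
    intro h
    rw [hD, conj_mul', conj_mul'] at h
    have h1 : ‖p‖ ^ 2 + ‖q‖ ^ 2 = 0 := by exact_mod_cast h
    have hp : p = 0 := by
      have : ‖p‖ ^ 2 = 0 := by nlinarith [sq_nonneg ‖p‖, sq_nonneg ‖q‖]
      simpa using this
    have hq : q = 0 := by
      have : ‖q‖ ^ 2 = 0 := by nlinarith [sq_nonneg ‖p‖, sq_nonneg ‖q‖]
      simpa using this
    obtain ⟨u, _, h⟩ := hnc
    simp [hp, hq] at h
  have hDc : conj D = D := by simp [hD, mul_comm]
  obtain ⟨w0, w1, w2, a, b, hab, h⟩ := core2 V (fun z => α1 z * conj p + α2 z * conj q)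
    (fun z => - α1 z * q + α2 z * p) (fun u => (conj p * β1 u + conj q * β2 u) / D)
    (fun u => (p * β2 u - q * β1 u) / D) ((ha1.mul_const _).add (ha2.mul_const _))
    ((ha1.neg.mul_const _).add (ha2.mul_const _))
    (((hb1.const_mul _).add (hb2.const_mul _)).div_const _)
    (((hb2.const_mul _).sub (hb1.const_mul _)).div_const _) (div_self hD0)
    (by simp only [p, q]; ring)
    (fun z hz u hu => by
      rw [← hker z hz u hu]
      refine congrArg _ ?_
      simp only [map_div₀, map_add, map_mul, map_sub, conj_conj, hDc]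
      field_simp
      rw [hD]; ring)
    (by
      obtain ⟨u, hu, h⟩ := hnc
      exact ⟨u, hu, div_ne_zero h hD0⟩)
  refine ⟨-q * (w0 - w1 + w2) + conj p * (a - b), -q * (2 * w0 - 2 * w2) - conj p * (2 * a),
    -q * (w0 + w1 + w2) + conj p * (a + b), p * (w0 - w1 + w2) + conj q * (a - b),
    p * (2 * w0 - 2 * w2) - conj q * (2 * a), p * (w0 + w1 + w2) + conj q * (a + b), ?_,
    fun u hu => ?_⟩
  · by_contra hc
    push Not at hc
    have three : (3 : ℂ) ∈ P := by simp [P]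
    have a2 : b * 3 + a = 0 := mul_left_cancel₀ hD0 (by
      rw [hD]; linear_combination p * (hc 2 two_P).1 + q * (hc 2 two_P).2)
    have a3 : b * 8 + a * 4 = 0 := mul_left_cancel₀ hD0 (by
      rw [hD]; linear_combination p * (hc 3 three).1 + q * (hc 3 three).2)
    rcases hab with h | h <;> apply h
    · linear_combination -2 * a2 + (3 / 4) * a3
    · linear_combination a2 - (1 / 4) * a3
  · have := h u hu
    field_simp at this
    linear_combination this

theorem wco (Ψ Φ : ℂ → ℂ) (hφ : DifferentiableOn ℂ Φ P) (hm : MapsTo Φ P P)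
    (hΨ : DifferentiableOn ℂ Ψ P) (hΨ0 : ∃ z ∈ P, Ψ z ≠ 0) (hnc : ∃ u ∈ P, Φ 1 - Φ u ≠ 0)
    (A : H →L[ℂ] H) (hA : ∀ g, ∀ z ∈ P, ev (A g) z = Ψ z * ev g (Φ z))
    (hAB : ∀ g, ‖A g‖ = ‖ContinuousLinearMap.adjoint A g‖) :
    ∃ a b c d : ℂ, a * d - b * c ≠ 0 ∧
      ∀ z : ℂ, 0 < z.re → c * z + d ≠ 0 ∧ Φ z = (a * z + b) / (c * z + d) := by
  set B := ContinuousLinearMap.adjoint A with hB
  have hBK : ∀ w ∈ P, B (K w) = conj (Ψ w) • K (Φ w) := fun w hw => ext_inner_right ℂ fun v => by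
    rw [hB, ContinuousLinearMap.adjoint_inner_left, inner_smul_left, conj_conj]
    exact hA v w hw
  have hAi : ∀ g, A g = 0 → g = 0 := fun g hg =>
    ev_inj0 g (id_comp hφ hm hnc (ev_diff g) (cancel hΨ ((ev_diff g).comp hφ hm)
      (fun z hz => by rw [← hA g z hz, hg, ev_zero]) hΨ0))
  have hK0 : ∀ u ∈ P, K u ≠ 0 := by
    intro u hu h2
    have h3 := ev_K hu hu
    rw [h2, ev_zero] at h3
    exact inv_ne_zero (add_conj_ne hu hu) h3.symm
  have hΨn : ∀ w ∈ P, Ψ w ≠ 0 := by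
    intro w hw h
    refine hK0 w hw (hAi _ (norm_eq_zero.1 ?_))
    rw [hAB, hBK w hw, h]; simp
  have hΨc : ∀ w ∈ P, conj (Ψ w) ≠ 0 := fun w hw => by simpa using hΨn w hw
  have dr : ∀ T : H →L[ℂ] H, (∀ g, ContinuousLinearMap.adjoint T g = 0 → g = 0) →
      DenseRange (T : H →ₗ[ℂ] H) := by
    intro T hT
    have : Dense (LinearMap.range (T : H →ₗ[ℂ] H) : Set H) := by
      rw [Submodule.dense_iff_topologicalClosure_eq_top, Submodule.topologicalClosure_eq_top_iff,
        Submodule.eq_bot_iff]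
      intro g hg
      refine hT g (ext_inner_left ℂ fun v => ?_)
      rw [ContinuousLinearMap.adjoint_inner_right, inner_zero_right]
      exact Submodule.inner_right_of_mem_orthogonal (LinearMap.mem_range_self _ v) hg
    exact this
  have dA := dr A fun g hg => hAi g (norm_eq_zero.1 (by rw [hAB, hg, norm_zero]))
  have dB := dr B fun g hg => hAi g (by rwa [hB, ContinuousLinearMap.adjoint_adjoint] at hg)
  obtain ⟨W, hW⟩ : ∃ W : H ≃ₗᵢ[ℂ] H, ∀ g, W (B g) = A g :=
    ⟨(LinearEquiv.refl ℂ H).extendOfIsometry (B : H →ₗ[ℂ] H) (A : H →ₗ[ℂ] H) dB dA hAB,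
      fun g => LinearEquiv.extendOfIsometry_eq _ _ _ dB dA hAB g⟩
  have hsw : ∀ z u, ev (W.symm (K z)) u = conj (ev (W (K u)) z) := by
    intro z u
    rw [ev, ev, inner_conj_symm, ← W.inner_map_map, LinearIsometryEquiv.apply_symm_apply]
  have hκ : ∀ z ∈ P, ∀ w ∈ P,
      ev (W.symm (K z)) (Φ w) = conj (Ψ z) / (Ψ w * (conj (Φ z) + w)) := by
    intro z hz w hw
    have h1 := congrArg (fun v => conj (ev v z)) (hW (K w))
    simp only [hBK w hw, map_smul, ev_smul, hA _ z hz, ev_K (hm hz) hw, map_mul, conj_conj,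
      map_inv₀, map_add] at h1
    have n1 := add_conj_ne hw (hm hz)
    rw [add_comm] at n1
    rw [hsw, eq_div_iff (mul_ne_zero (hΨn w hw) n1)]
    field_simp at h1
    linear_combination h1
  have hid : ∀ z1 ∈ P, ∀ z2 ∈ P, ∀ z ∈ P, ∀ u ∈ P,
      conj (Ψ z) * (conj (Φ z1) - conj (Φ z2)) * (ev (W.symm (K z1)) u * ev (W.symm (K z2)) u) -
      ev (W.symm (K z)) u * (conj (Ψ z1) * (conj (Φ z) - conj (Φ z2)) * ev (W.symm (K z2)) u +
        conj (Ψ z2) * (conj (Φ z1) - conj (Φ z)) * ev (W.symm (K z1)) u) = 0 := by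
    intro z1 h1 z2 h2 z hz
    refine id_comp hφ hm hnc ((((ev_diff _).mul (ev_diff _)).const_mul _).sub
      ((ev_diff _).mul (((ev_diff _).const_mul _).add ((ev_diff _).const_mul _)))) fun w hw => ?_
    rw [hκ z hz w hw, hκ z1 h1 w hw, hκ z2 h2 w hw]
    have n0 := add_conj_ne hw (hm hz)
    have n1 := add_conj_ne hw (hm h1)
    have n2 := add_conj_ne hw (hm h2)
    have n3 := hΨn w hw
    rw [add_comm] at n0 n1 n2
    field_simp
    ring
  have hne : ∀ z1 ∈ P, ∀ u ∈ P, ev (W.symm (K z1)) u ≠ 0 := by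
    intro z1 h1 u hu h
    obtain ⟨z2, h2, h3⟩ : ∃ z2 ∈ P, ev (W (K u)) z2 ≠ 0 := by
      by_contra hc
      push Not at hc
      exact hK0 u hu (by simpa using ev_inj0 _ hc)
    have h4 := cancel (ev_diff (W (K u))) (hφ.sub_const (Φ z2)) (fun z hz => by
      have := congrArg conj (hid z1 h1 z2 h2 z hz u hu)
      rw [h, hsw, hsw] at this
      simp only [map_sub, map_mul, map_add, conj_conj, map_zero] at this
      exact mul_left_cancel₀ (mul_ne_zero (hΨn z1 h1) h3) (by linear_combination -this))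
      ⟨z2, h2, h3⟩
    obtain ⟨v, hv, h5⟩ := hnc
    exact h5 (by linear_combination h4 1 one_P - h4 v hv)
  obtain ⟨z2, h2, hz2⟩ := id hnc
  have hz2c : conj (Φ 1) - conj (Φ z2) ≠ 0 := by
    rw [← map_sub]; exact (map_ne_zero _).2 hz2
  obtain ⟨β1, hβ1⟩ : ∃ β1 : ℂ → ℂ, ∀ u, β1 u = (conj (Ψ 1) / ev (W.symm (K 1)) u -
    conj (Ψ z2) / ev (W.symm (K z2)) u) / (conj (Φ 1) - conj (Φ z2)) := ⟨_, fun _ => rfl⟩
  obtain ⟨β2, hβ2⟩ : ∃ β2 : ℂ → ℂ, ∀ u, β2 u = conj (Ψ 1) / ev (W.symm (K 1)) u -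
    β1 u * conj (Φ 1) := ⟨_, fun _ => rfl⟩
  have d1 : DifferentiableOn ℂ β1 P := by
    rw [funext hβ1]
    exact (((differentiableOn_const _).div (ev_diff _) (hne 1 one_P)).sub
      ((differentiableOn_const _).div (ev_diff _) (hne z2 h2))).div_const _
  have d2 : DifferentiableOn ℂ β2 P := by
    rw [funext hβ2]
    exact ((differentiableOn_const _).div (ev_diff _) (hne 1 one_P)).sub (d1.mul_const _)
  have e1 : ∀ w ∈ P, β1 (Φ w) = Ψ w := fun w hw => by
    rw [hβ1, hκ 1 one_P w hw, hκ z2 h2 w hw]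
    have := hΨc 1 one_P
    have := hΨc z2 h2
    field_simp
    ring
  have e2 : ∀ w ∈ P, β2 (Φ w) = w * Ψ w := fun w hw => by
    rw [hβ2, e1 w hw, hκ 1 one_P w hw]
    have := hΨc 1 one_P
    field_simp
    ring
  have k1 : ∀ u ∈ P, ∀ z ∈ P, ev (W.symm (K z)) u *
      (β1 u * conj (Φ z / Ψ z) + β2 u * conj (Ψ z)⁻¹) = 1 := by
    intro u hu z hz
    have h1 := hid 1 one_P z2 h2 z hz u hu
    have n1 := hne 1 one_P u hu
    have n2 := hne z2 h2 u hu
    have n3 := hΨc z hz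
    rw [hβ2, hβ1, map_div₀, map_inv₀]
    field_simp
    linear_combination -h1
  have k2 : ∀ z ∈ P, ∀ u ∈ P, ev (W (K u)) z *
      (Φ z / Ψ z * conj (β1 u) + (Ψ z)⁻¹ * conj (β2 u)) = 1 := by
    intro z hz u hu
    have := congrArg conj (k1 u hu z hz)
    rw [hsw] at this
    simp only [map_mul, map_add, conj_conj, map_one] at this
    linear_combination this
  have hnc2 : ∃ u ∈ P, β1 1 * β2 u - β2 1 * β1 u ≠ 0 := by
    by_contra hc
    push Not at hc
    have c1 := hc _ (hm one_P)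
    have c2 := hc _ (hm two_P)
    rw [e1 1 one_P, e2 1 one_P] at c1
    rw [e1 2 two_P, e2 2 two_P] at c2
    have c3 : β1 1 - β2 1 = 0 := mul_left_cancel₀ (hΨn 1 one_P) (by linear_combination c1)
    have c4 : 2 * β1 1 - β2 1 = 0 := mul_left_cancel₀ (hΨn 2 two_P) (by linear_combination c2)
    have c5 : β1 1 = 0 := by linear_combination c4 - c3
    have c6 : β2 1 = 0 := by linear_combination c4 - 2 * c3
    have := k1 1 one_P 1 one_P
    simp [c5, c6] at this
  obtain ⟨a0, a1, a2, b0, b1, b2, ⟨u0, hu0, hu⟩, hab⟩ := core3 W _ _ β1 β2 (hφ.div hΨ hΨn)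
    (hΨ.inv hΨn) d1 d2 k2 hnc2
  obtain ⟨p0, p1, p2, q0, q1, q2, ⟨v0, hv0, hv⟩, hpq⟩ := core3 W.symm β1 β2 _ _ d1 d2
    (hφ.div hΨ hΨn) (hΨ.inv hΨn) k1 ⟨z2, h2, by
      have := hΨn 1 one_P
      have := hΨn z2 h2
      intro h
      simp only [Pi.div_apply, Pi.inv_apply] at h
      field_simp at h
      exact hz2 (by linear_combination h)⟩
  have hpq' : ∀ z ∈ P, Φ z * (p0 + p1 * z + p2 * z ^ 2) = -(q0 + q1 * z + q2 * z ^ 2) := by
    intro z hz
    have h := hpq z hz
    have := hΨn z hz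
    simp only [Pi.div_apply, Pi.inv_apply] at h
    field_simp at h
    linear_combination h
  have hab' : ∀ z ∈ P, z * (b0 + b1 * Φ z + b2 * Φ z ^ 2) =
      -a0 + -a1 * Φ z + -a2 * Φ z ^ 2 := by
    intro z hz
    have h := hab _ (hm hz)
    rw [e1 z hz, e2 z hz] at h
    exact mul_left_cancel₀ (hΨn z hz) (by linear_combination h)
  refine alg hφ hm hnc (Polynomial.C p0 + Polynomial.C p1 * Polynomial.X +
    Polynomial.C p2 * Polynomial.X ^ 2) (-(Polynomial.C q0 + Polynomial.C q1 * Polynomial.X +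
    Polynomial.C q2 * Polynomial.X ^ 2)) ⟨v0, hv0, ?_⟩ (fun z hz => ?_)
    b0 b1 b2 _ _ _ ?_ hab'
  · simp only [Polynomial.eval_add, Polynomial.eval_mul, Polynomial.eval_C, Polynomial.eval_X,
      Polynomial.eval_pow]
    intro h
    have := hpq' v0 hv0
    rw [h] at this
    rcases hv with h1 | h1
    · exact h1 h
    · exact h1 (by linear_combination this)
  · simpa only [Polynomial.eval_add, Polynomial.eval_mul, Polynomial.eval_C, Polynomial.eval_X,
      Polynomial.eval_pow, Polynomial.eval_neg] using hpq' z hz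
  · by_contra hc
    push Not at hc
    obtain ⟨rfl, rfl, rfl⟩ := hc
    have := id_comp (F := fun u => a0 + a1 * u + a2 * u ^ 2) hφ hm hnc (by fun_prop)
      (fun z hz => by linear_combination hab' z hz) u0 hu0
    rcases hu with h | h
    · exact h this
    · simp at h

end Pool.Agent.H55.HN
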