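import Mathlib

set_option autoImplicit false

namespace Pool.Agent.H55.HNDefs

/-- The Hardy space of the disc, as square summable Taylor coefficient sequences. -/
abbrev H2 : Type := lp (fun _ : ℕ => ℂ) 2

/-- The value at `z` of the power series with coefficients `f`. -/
noncomputable def val (f : H2) (z : ℂ) : ℂ := ∑' n, f n * z ^ n

/-- `T f = ψ · (f ∘ φ)` on the open unit disc. -/
def IsWCO (T : H2 → H2) (ψ φ : ℂ → ℂ) : Prop :=
  ∀ f : H2, ∀ z ∈ Metric.ball (0 : ℂ) 1, val (T f) z = ψ z * val f (φ z)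

/-- A normal operator on a Hilbert space. -/
def IsNormalOp {E : Type} [NormedAddCommGroup E] [InnerProductSpace ℂ E] [CompleteSpace E]
    (T : E →L[ℂ] E) : Prop :=
  ContinuousLinearMap.adjoint T ∘L T = T ∘L ContinuousLinearMap.adjoint T

/-- `T_{ψ,φ}` is a bounded normal operator on the Hardy space. -/
def NormalWCO (ψ φ : ℂ → ℂ) : Prop :=
  ∃ T : H2 →L[ℂ] H2, IsWCO T ψ φ ∧ IsNormalOp T

/-- `φ` is linear fractional on the open unit disc. -/
def IsLFT (φ : ℂ → ℂ) : Prop :=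
  ∃ a b c d : ℂ, a * d - b * c ≠ 0 ∧
    ∀ z ∈ Metric.ball (0 : ℂ) 1, c * z + d ≠ 0 ∧ φ z = (a * z + b) / (c * z + d)

end Pool.Agent.H55.HNDefs
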