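import Mathlib

namespace Pool.Agent.H55.HarborthDefs

/-- The set `K_c`: positive `k` with `n ∣ C(n, k - c n)` whenever `k / (c+1) ≤ n ≤ k / c`. -/
def K (c : ℕ) : Set ℕ :=
  {k | 0 < k ∧ ∀ n : ℕ, k ≤ (c + 1) * n → c * n ≤ k → n ∣ Nat.choose n (k - c * n)}

/-- The set `S` of the numbers `2 q` with `q > 3` a Fermat prime. -/
def S : Set ℕ := {k | ∃ q m : ℕ, q.Prime ∧ q = 2 ^ 2 ^ m + 1 ∧ 3 < q ∧ k = 2 * q}

end Pool.Agent.H55.HarborthDefs
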