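import Mathlib
import Pool.Agent.H55.HarborthDefs

namespace Pool.Agent.H55.Harborth

open Pool.Agent.H55.HarborthDefs

theorem lucas2 (x y : ℕ) (h : ¬ 2 ∣ x.choose y) :
    y % 2 ≤ x % 2 ∧ ¬ 2 ∣ (x / 2).choose (y / 2) := by
  have h3 := Choose.choose_modEq_choose_mod_mul_choose_div_nat (n := x) (k := y) (p := 2)
  have h4 : ¬ 2 ∣ (x % 2).choose (y % 2) * (x / 2).choose (y / 2) := fun h' =>
    h ((h3.dvd_iff (dvd_refl 2)).2 h')
  constructor
  · by_contra hlt
    rw [Nat.choose_eq_zero_of_lt (by omega)] at h4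
    simp at h4
  · exact fun h' => h4 (h'.mul_left _)

theorem bits (t : ℕ) : ∀ x y : ℕ, ¬ 2 ∣ x.choose y → y.testBit t = true → x.testBit t = true := by
  induction t with
  | zero =>
    intro x y h hy
    have := (lucas2 x y h).1
    simp only [Nat.testBit_zero, decide_eq_true_eq] at hy ⊢
    omega
  | succ t ih =>
    intro x y h hy
    rw [Nat.testBit_succ] at hy ⊢
    exact ih _ _ (lucas2 x y h).2 hy

theorem even_choose {a M x y : ℕ} (ha : 3 ≤ a) (hy : y < 2 ^ M)
    (h : 2 ^ M + y = 2 ^ a * x + (2 ^ a - 2)) : 2 ∣ x.choose y := by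
  by_contra hodd
  have hlt : 2 ^ a - 2 < 2 ^ a := Nat.sub_lt (by positivity) (by norm_num)
  have chain : ∀ r, r < a → 1 ≤ r → M % a ≠ r → ∀ s,
      (2 ^ M + y).testBit (r + s * a) = true := by
    intro r hr hr1 hM s
    induction s with
    | zero =>
      rw [h, Nat.testBit_two_pow_mul_add _ hlt, if_pos (by omega)]
      have : 1 < 2 ^ a := Nat.one_lt_two_pow (by omega)
      have e := Nat.testBit_two_pow_sub_succ this (r + 0 * a)
      rw [show (1 + 1 : ℕ) = 2 from rfl] at e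
      rw [e]
      obtain ⟨u, rfl⟩ : ∃ u, r = u + 1 := ⟨r - 1, by omega⟩
      simp [hr, Nat.testBit_succ]
    | succ s ih =>
      have hne : r + s * a ≠ M := by
        intro he
        apply hM
        rw [← he, Nat.add_mul_mod_self_right, Nat.mod_eq_of_lt hr]
      have hlt' : r + s * a < M := by
        by_contra hge
        have : 2 ^ M + y < 2 ^ (r + s * a) := by
          have : 2 ^ (M + 1) ≤ 2 ^ (r + s * a) := Nat.pow_le_pow_right (by norm_num) (by omega)
          rw [pow_succ] at this; omega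
        rw [Nat.testBit_lt_two_pow this] at ih
        exact absurd ih (by simp)
      rw [Nat.testBit_two_pow_add_gt hlt'] at ih
      have hx := bits _ x y hodd ih
      rw [h, Nat.testBit_two_pow_mul_add _ hlt, if_neg (by rw [add_mul]; omega)]
      rwa [show r + (s + 1) * a - a = r + s * a by rw [add_mul]; omega]
  have fin : ∀ r, 1 ≤ r → ¬ ∀ s, (2 ^ M + y).testBit (r + s * a) = true := by
    intro r hr hs
    have := hs M
    have h2 : 2 ^ M + y < 2 ^ (r + M * a) := by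
      have : 2 ^ (M + 1) ≤ 2 ^ (r + M * a) :=
        Nat.pow_le_pow_right (by norm_num) (by nlinarith)
      rw [pow_succ] at this; omega
    rw [Nat.testBit_lt_two_pow h2] at this
    exact absurd this (by simp)
  by_cases h1 : M % a = 1
  · exact fin 2 (by norm_num) (chain 2 (by omega) (by norm_num) (by omega))
  · exact fin 1 (by norm_num) (chain 1 (by omega) (by norm_num) h1)

theorem key {n i : ℕ} (hn : 0 < n) (hi : 0 < i) :
    n * (n - 1).choose (i - 1) = n.choose i * i := by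
  obtain ⟨n, rfl⟩ : ∃ m, n = m + 1 := ⟨n - 1, by omega⟩
  obtain ⟨i, rfl⟩ : ∃ m, i = m + 1 := ⟨i - 1, by omega⟩
  simpa using Nat.add_one_mul_choose_eq n i

theorem mem_K {a M : ℕ} (ha : 3 ≤ a) (hM : 1 ≤ M) (hq : (2 ^ M + 1).Prime) :
    2 * (2 ^ M + 1) ∈ K (2 ^ a - 1) := by
  refine ⟨by positivity, fun n h1 h2 => ?_⟩
  have h8 : 2 ^ 3 ≤ 2 ^ a := Nat.pow_le_pow_right (by norm_num) ha
  obtain ⟨c, hc⟩ : ∃ c, 2 ^ a = c + 1 := ⟨2 ^ a - 1, by omega⟩
  have hc' : 2 ^ a - 1 = c := by omega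
  rw [hc'] at h1 h2 ⊢
  set q := 2 ^ M + 1 with hqdef
  have hq2 := hq.two_le
  have hn : 0 < n := Nat.pos_of_ne_zero (by rintro rfl; omega)
  have hnq : 3 * n < q := by nlinarith
  obtain ⟨i, hi⟩ := Nat.exists_eq_add_of_le h1
  have hin : i ≤ n := by nlinarith
  have e : 2 * q - c * n = n - i := by rw [add_mul] at hi; omega
  rw [e, Nat.choose_symm hin]
  have hqodd : q % 2 = 1 := by
    obtain ⟨m, rfl⟩ : ∃ m, M = m + 1 := ⟨M - 1, by omega⟩
    rw [hqdef, pow_succ]; omega
  have h4 : 4 ∣ (c + 1) * n := by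
    rw [← hc]
    exact Dvd.dvd.mul_right (pow_dvd_pow 2 (show 2 ≤ a by omega) : 2 ^ 2 ∣ 2 ^ a) n
  obtain ⟨i', rfl⟩ : ∃ i', i = 2 * i' := ⟨i / 2, by omega⟩
  have hi'odd : i' % 2 = 1 := by omega
  have hcop : Nat.Coprime n i' := by
    rw [Nat.coprime_iff_gcd_eq_one]
    by_contra hg
    obtain ⟨p, hp, hpd⟩ := Nat.exists_prime_and_dvd hg
    have hpn : p ∣ n := hpd.trans (Nat.gcd_dvd_left _ _)
    have hpi : p ∣ i' := hpd.trans (Nat.gcd_dvd_right _ _)
    have : p ∣ 2 * q + 2 * i' := by rw [← hi]; exact hpn.mul_left _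
    have : p ∣ 2 * q := (Nat.dvd_add_left (hpi.mul_left 2)).1 this
    rcases (hp.dvd_mul).1 this with h | h
    · have := (Nat.prime_dvd_prime_iff_eq hp Nat.prime_two).1 h
      subst this; omega
    · have := (Nat.prime_dvd_prime_iff_eq hp hq).1 h
      subst this
      have := Nat.le_of_dvd hn hpn
      omega
  have hk := key hn (i := 2 * i') (by omega)
  rcases Nat.even_or_odd' n with ⟨n', rfl | rfl⟩
  · have hev : 2 ∣ (2 * n' - 1).choose (2 * i' - 1) := by
      by_contra hodd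
      have h5 := (lucas2 _ _ hodd).2
      apply h5
      obtain ⟨x, rfl⟩ : ∃ x, n' = x + 1 := ⟨n' - 1, by omega⟩
      obtain ⟨y, rfl⟩ : ∃ y, i' = y + 1 := ⟨i' - 1, by omega⟩
      rw [show (2 * (x + 1) - 1) / 2 = x by omega, show (2 * (y + 1) - 1) / 2 = y by omega]
      apply even_choose ha (M := M) (by omega)
      rw [hc]
      have : (c + 1) * (2 * (x + 1)) = 2 * ((c + 1) * x) + 2 * (c + 1) := by ring
      omega
    obtain ⟨z, hz⟩ := hev
    apply hcop.dvd_of_dvd_mul_right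
    refine ⟨z, ?_⟩
    rw [hz] at hk
    nlinarith
  · have hcop2 : Nat.Coprime (2 * n' + 1) (2 * i') :=
      Nat.Coprime.mul_right (by simp) hcop
    exact hcop2.dvd_of_dvd_mul_right ⟨_, hk.symm⟩

theorem infinite : Set.Infinite {c : ℕ | 2 ≤ c ∧ S ⊆ K c} := by
  apply Set.infinite_of_forall_exists_gt
  intro N
  have h1 : N + 3 < 2 ^ (N + 3) := Nat.lt_two_pow_self
  refine ⟨2 ^ (N + 3) - 1, ⟨by omega, ?_⟩, by omega⟩
  rintro k ⟨q, m, hq, rfl, _, rfl⟩
  exact mem_K (by omega) Nat.one_le_two_pow hq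

theorem counter : 514 ∈ S ∧ 514 ∉ K 12 := by
  refine ⟨⟨257, 3, by norm_num, by norm_num, by norm_num, by norm_num⟩, fun h => ?_⟩
  have := h.2 40 (by norm_num) (by norm_num)
  revert this
  decide +kernel

end Pool.Agent.H55.Harborth
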