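import Mathlib

/-! `k_ℝ`-spaces. -/

namespace Pool.Agent.H55.KR

open Set Filter Topology

/-- every real function that is continuous on all compact sets is continuous -/
def IsKR (X : Type*) [TopologicalSpace X] : Prop :=
  ∀ f : X → ℝ, (∀ K : Set X, IsCompact K → ContinuousOn f K) → Continuous f

theorem not_KR {Y : Type} [TopologicalSpace Y] (a : ℕ → ℕ → Y) (p : Y)
    (h1 : ∀ n m, IsClopen ({a n m} : Set Y)) (h2 : ∀ n m, a n m ≠ p)
    (h3 : ∀ U ∈ 𝓝 p, ∀ N, ∃ n ≥ N, ∃ m, a n m ∈ U)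
    (h4 : ∀ K : Set Y, IsCompact K → {n | ∃ m, a n m ∈ K}.Finite) : ¬ IsKR (ℕ → Y) := by
  intro h
  let P : ℕ × ℕ → Set (ℕ → Y) := fun q => {z | z 0 = a q.1 q.2 ∧ z (q.1 + 1) = a q.2 0}
  have hP : ∀ q, IsClopen (P q) := fun q =>
    ((h1 _ _).preimage (continuous_apply 0)).inter ((h1 _ _).preimage (continuous_apply _))
  have hc := h (indicator (⋃ q, P q) 1) fun K hK => by
    have f1 := h4 _ (hK.image (continuous_apply 0))
    have f2 : {q : ℕ × ℕ | (P q ∩ K).Nonempty}.Finite := by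
      refine (f1.biUnion (t := fun n => {n} ×ˢ {m | ∃ k, a m k ∈ (fun z => z (n + 1)) '' K})
        fun n _ => (finite_singleton n).prod (h4 _ (hK.image (continuous_apply _)))).subset ?_
      rintro q ⟨z, hz, hz'⟩
      exact mem_iUnion₂.2 ⟨q.1, ⟨q.2, z, hz', hz.1⟩, rfl, 0, z, hz', hz.2⟩
    have f3 : IsClopen (⋃ q ∈ {q : ℕ × ℕ | (P q ∩ K).Nonempty}, P q) :=
      f2.isClopen_biUnion fun q _ => hP q
    refine (f3.continuous_indicator (continuous_const (y := (1 : ℝ)))).continuousOn.congr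
      fun z hz => ?_
    by_cases hz' : z ∈ ⋃ q, P q
    · obtain ⟨q, hq⟩ := mem_iUnion.1 hz'
      rw [indicator_of_mem hz', indicator_of_mem (mem_iUnion₂.2 ⟨q, ⟨z, hq, hz⟩, hq⟩)]
      rfl
    · rw [indicator_of_notMem hz', indicator_of_notMem]
      intro h'
      obtain ⟨q, -, hq⟩ := mem_iUnion₂.1 h'
      exact hz' (mem_iUnion.2 ⟨q, hq⟩)
  have h5 : (fun _ => p) ∉ ⋃ q, P q := fun h' => by
    obtain ⟨q, hq⟩ := mem_iUnion.1 h'
    exact h2 _ _ hq.1.symm
  have h6 : IsOpen (indicator (⋃ q, P q) (1 : (ℕ → Y) → ℝ) ⁻¹' Iio 1) := isOpen_Iio.preimage hc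
  obtain ⟨s, u, h7, h8⟩ := isOpen_pi_iff.1 h6 (fun _ => p) (by simp [indicator_of_notMem h5])
  have h9 : ⋂ i ∈ s, u i ∈ 𝓝 p :=
    (biInter_finset_mem s).2 fun i hi => (h7 i hi).1.mem_nhds (h7 i hi).2
  obtain ⟨n, hn, m, hm⟩ := h3 _ h9 (s.sup id)
  let z : ℕ → Y := fun i => if i = n + 1 then a m 0 else a n m
  have h10 : z ∈ ⋃ q, P q := mem_iUnion.2 ⟨(n, m), by simp [z], by simp [z]⟩
  have h11 := h8 (show z ∈ (s : Set ℕ).pi u from fun i hi => by
    have : i ≠ n + 1 := by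
      have := Finset.le_sup (f := id) hi
      simp only [id] at this
      omega
    simp only [z, if_neg this]
    exact mem_iInter₂.1 hm i hi)
  simp [indicator_of_mem h10] at h11

/-- if every selection from different columns is closed, compact sets meet finitely many columns -/
theorem fin_col {Y : Type} [TopologicalSpace Y] (a : ℕ → ℕ → Y)
    (h1 : ∀ n m, IsOpen ({a n m} : Set Y)) (h2 : ∀ n m n' m', a n m = a n' m' → n = n')
    (h3 : ∀ (g : ℕ → ℕ) (S : Set ℕ), IsClosed ((fun n => a n (g n)) '' S))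
    (K : Set Y) (hK : IsCompact K) : {n | ∃ m, a n m ∈ K}.Finite := by
  choose! g hg using fun n (hn : n ∈ {n | ∃ m, a n m ∈ K}) => hn
  have h4 := hK.of_isClosed_subset (h3 g {n | ∃ m, a n m ∈ K}) (by
    rintro _ ⟨n, hn, rfl⟩
    exact hg n hn)
  obtain ⟨t, ht⟩ := h4.elim_finite_subcover (fun n => {a n (g n)}) (fun n => h1 _ _) (by
    rintro _ ⟨n, -, rfl⟩
    exact mem_iUnion.2 ⟨n, rfl⟩)
  refine t.finite_toSet.subset fun n hn => ?_
  obtain ⟨n', h5, h6⟩ := mem_iUnion₂.1 (ht ⟨n, hn, rfl⟩)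
  exact (h2 _ _ _ _ h6) ▸ h5

/-- powers of a discrete space are `k_ℝ`-spaces -/
theorem KR_pi {I D : Type} [TopologicalSpace D] [DiscreteTopology D] : IsKR (I → D) := by
  classical
  intro f hf
  refine continuous_iff_continuousAt.2 fun x => ?_
  rw [ContinuousAt, (closed_nhds_basis (f x)).tendsto_right_iff]
  rintro V ⟨hV, hVc⟩
  by_contra hn
  have h1 : ∀ F : Finset I, ∃ (G : Finset I) (y : I → D), F ⊆ G ∧ (∀ i ∈ F, y i = x i) ∧
      (∀ i ∉ G, y i = x i) ∧ f y ∉ V := fun F => by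
    obtain ⟨y, hy1, hy2⟩ : ∃ y : I → D, (∀ i ∈ F, y i = x i) ∧ f y ∉ V := by
      by_contra hc
      push Not at hc
      have h0 : (F : Set I).pi (fun i => ({x i} : Set D)) ∈ 𝓝 x :=
        set_pi_mem_nhds F.finite_toSet fun i _ => (isOpen_discrete _).mem_nhds rfl
      exact hn (mem_of_superset h0 fun y hy => hc y hy)
    have hK : IsCompact (univ.pi fun i => ({x i, y i} : Set D)) :=
      isCompact_univ_pi fun i => (toFinite _).isCompact
    have h2 : Tendsto (fun G : Finset I => G.piecewise y x) atTop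
        (𝓝[univ.pi fun i => ({x i, y i} : Set D)] y) := by
      refine tendsto_nhdsWithin_iff.2 ⟨tendsto_pi_nhds.2 fun i => tendsto_const_nhds.congr' ?_,
        Eventually.of_forall fun G i _ => ?_⟩
      · filter_upwards [eventually_ge_atTop {i}] with G hG
        exact (Finset.piecewise_eq_of_mem _ _ _ (hG (by simp))).symm
      · by_cases hi : i ∈ G <;> simp [hi]
    obtain ⟨G, hG⟩ := (((hf _ hK y fun i _ => Or.inr rfl).tendsto.comp h2).eventually
      (hVc.isOpen_compl.mem_nhds hy2)).exists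
    refine ⟨F ∪ G, G.piecewise y x, Finset.subset_union_left, fun i hi => ?_, fun i hi => ?_, hG⟩
    · by_cases h : i ∈ G <;> simp [h, hy1 i hi]
    · exact Finset.piecewise_eq_of_notMem _ _ _ fun h => hi (Finset.mem_union_right _ h)
  choose G y h2 h3 h4 h5 using h1
  let F : ℕ → Finset I := fun n => G^[n] ∅
  have hF : ∀ n, F (n + 1) = G (F n) := fun n => Function.iterate_succ_apply' _ _ _
  have hm : Monotone F := monotone_nat_of_le_succ fun n => hF n ▸ h2 _
  have h6 : Tendsto (fun n => y (F n)) atTop (𝓝 x) := tendsto_pi_nhds.2 fun i => by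
    refine tendsto_const_nhds.congr' ?_
    by_cases h : ∃ n, i ∈ F n
    · obtain ⟨n, hn⟩ := h
      filter_upwards [eventually_ge_atTop n] with m hm'
      exact (h3 _ i (hm hm' hn)).symm
    · exact Eventually.of_forall fun n => (h4 _ i fun hi => h ⟨n + 1, hF n ▸ hi⟩).symm
  have h7 : Tendsto (fun n => y (F n)) atTop (𝓝[insert x (range fun n => y (F n))] x) :=
    tendsto_nhdsWithin_iff.2 ⟨h6, Eventually.of_forall fun n => Or.inr ⟨n, rfl⟩⟩
  obtain ⟨n, hn'⟩ := (((hf _ h6.isCompact_insert_range x (Or.inl rfl)).tendsto.comp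
    h7).eventually hV).exists
  exact h5 _ hn'

end Pool.Agent.H55.KR
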