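import Mathlib

/-! An extremally disconnected refinement of a sigma-product on which quasicontinuous functions
depend on countably many coordinates. -/

namespace Pool.Agent.H55.QC

open Set Topology Filter

/-- Quasicontinuous real functions. -/
def IsQC {X : Type} [TopologicalSpace X] (f : X → ℝ) : Prop :=
  ∀ x, ∀ U : Set X, IsOpen U → x ∈ U → ∀ V : Set ℝ, IsOpen V → f x ∈ V →
    ∃ W : Set X, IsOpen W ∧ W.Nonempty ∧ W ⊆ U ∧ f '' W ⊆ V

/-- Lusin spaces in the sense of Kunen. -/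
def IsLusin (X : Type) [TopologicalSpace X] : Prop :=
  T2Space X ∧ (∀ A : Set X, IsNowhereDense A → A.Countable) ∧
    {x : X | IsOpen ({x} : Set X)}.Countable ∧ Uncountable X

abbrev W : Type := ℕ ⊕ ℝ

abbrev G : Type := W →₀ ℤ

def Cyl (a : Finset W) (x : G) : Set G := {y | ∀ w ∈ a, y w = x w}

def Op (U : Set G) : Prop := ∀ x ∈ U, ∃ a, Cyl a x ⊆ U

def Dn (D : Set G) : Prop := ∀ a x, (Cyl a x ∩ D).Nonempty

theorem self_cyl (a : Finset W) (x : G) : x ∈ Cyl a x := fun _ _ => rfl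

theorem op_cyl (a : Finset W) (x : G) : Op (Cyl a x) := fun _ hy =>
  ⟨a, fun _ hz w hw => (hz w hw).trans (hy w hw)⟩

theorem Op.inter {U V : Set G} (hU : Op U) (hV : Op V) : Op (U ∩ V) := by
  classical
  intro x hx
  obtain ⟨a, ha⟩ := hU x hx.1
  obtain ⟨b, hb⟩ := hV x hx.2
  exact ⟨a ∪ b, fun y hy => ⟨ha fun w hw => hy w (Finset.mem_union_left _ hw),
    hb fun w hw => hy w (Finset.mem_union_right _ hw)⟩⟩

theorem Op.shift {U : Set G} (hU : Op U) (x : G) : Op {y | x + y ∈ U} := fun y hy => by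
  obtain ⟨a, ha⟩ := hU _ hy
  exact ⟨a, fun z hz => ha fun w hw => by simp [hz w hw]⟩

/-- the exterior -/
def ext (U : Set G) : Set G := {x | ∃ a, Cyl a x ∩ U = ∅}

theorem op_ext (U : Set G) : Op (ext U) := fun _ ⟨a, ha⟩ => ⟨a, fun y hy => ⟨a, by
  rw [eq_empty_iff_forall_notMem] at ha ⊢
  exact fun z hz => ha z ⟨fun w hw => (hz.1 w hw).trans (hy w hw), hz.2⟩⟩⟩

theorem not_mem_ext {U : Set G} {x : G} (hx : x ∈ U) : x ∉ ext U := fun ⟨a, ha⟩ => by
  rw [eq_empty_iff_forall_notMem] at ha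
  exact ha x ⟨self_cyl a x, hx⟩

def L : Filter G where
  sets := {s | ∃ a D, Op D ∧ Dn D ∧ Cyl a 0 ∩ D ⊆ s}
  univ_sets := ⟨∅, univ, fun _ _ => ⟨∅, subset_univ _⟩, fun a x => ⟨x, self_cyl a x, trivial⟩,
    subset_univ _⟩
  sets_of_superset := fun ⟨a, D, h1, h2, h3⟩ h => ⟨a, D, h1, h2, h3.trans h⟩
  inter_sets := by
    classical
    rintro s t ⟨a, D, h1, h2, h3⟩ ⟨b, E, k1, k2, k3⟩
    refine ⟨a ∪ b, D ∩ E, h1.inter k1, fun c x => ?_, fun y hy =>
      ⟨h3 ⟨fun w hw => hy.1 w (Finset.mem_union_left _ hw), hy.2.1⟩,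
        k3 ⟨fun w hw => hy.1 w (Finset.mem_union_right _ hw), hy.2.2⟩⟩⟩
    obtain ⟨y, hy⟩ := h2 c x
    obtain ⟨d, hd⟩ := ((op_cyl c x).inter h1) y hy
    obtain ⟨z, hz⟩ := k2 d y
    exact ⟨z, (hd hz.1).1, (hd hz.1).2, hz.2⟩

instance : L.NeBot := by
  rw [← forall_mem_nonempty_iff_neBot]
  rintro s ⟨a, D, _, h2, h3⟩
  exact (h2 a 0).mono h3

noncomputable def u : Ultrafilter G := Ultrafilter.of L

theorem mem_u {s : Set G} (h : s ∈ L) : s ∈ u := Ultrafilter.of_le L h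

def star (U : Set G) : Set G := {x | {y | x + y ∈ U} ∈ u}

theorem star_inter (U V : Set G) : star (U ∩ V) = star U ∩ star V := by
  ext x
  exact inter_mem_iff (f := (u : Filter G)) (s := {y | x + y ∈ U}) (t := {y | x + y ∈ V})

theorem star_ne {U : Set G} {x : G} (h : x ∈ star U) : U.Nonempty := by
  obtain ⟨y, hy⟩ := Ultrafilter.nonempty_of_mem h
  exact ⟨_, hy⟩

theorem Op.sub_star {U : Set G} (hU : Op U) : U ⊆ star U := fun x hx => by
  obtain ⟨a, ha⟩ := hU x hx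
  exact mem_u ⟨a, univ, fun _ _ => ⟨∅, subset_univ _⟩, fun a x => ⟨x, self_cyl a x, trivial⟩,
    fun y hy => ha fun w hw => by simp [hy.1 w hw]⟩

theorem star_or {U : Set G} (hU : Op U) (x : G) : x ∈ star U ∨ x ∈ star (ext U) := by
  have h1 : Op (U ∪ ext U) := fun y hy => by
    rcases hy with hy | hy
    · obtain ⟨a, ha⟩ := hU y hy
      exact ⟨a, ha.trans subset_union_left⟩
    · obtain ⟨a, ha⟩ := op_ext U y hy
      exact ⟨a, ha.trans subset_union_right⟩
  have h2 : {y | x + y ∈ U ∪ ext U} ∈ u := by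
    refine mem_u ⟨∅, _, h1.shift x, fun a z => ?_, inter_subset_right⟩
    by_cases h : Cyl a (x + z) ∩ U = ∅
    · exact ⟨z, self_cyl _ _, Or.inr ⟨a, h⟩⟩
    · obtain ⟨y, hy1, hy2⟩ := nonempty_iff_ne_empty.2 h
      exact ⟨y - x, fun w hw => by simp [hy1 w hw], Or.inl (by simpa using hy2)⟩
  exact Ultrafilter.union_mem_iff.1 h2

theorem meet {U V : Set G} {x : G} (h1 : x ∈ star U) (h2 : x ∈ star V) : (U ∩ V).Nonempty :=
  star_ne (x := x) (by rw [star_inter]; exact ⟨h1, h2⟩)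

theorem star_cyl (a : Finset W) (x : G) : star (Cyl a x) ⊆ Cyl a x := fun y hy => by
  obtain ⟨z, h1, h2⟩ := meet hy ((op_cyl a y).sub_star (self_cyl a y))
  exact fun w hw => (h2 w hw).symm.trans (h1 w hw)

/-- The space. -/
def X : Type := G

instance : TopologicalSpace X where
  IsOpen O := ∀ x ∈ O, ∃ U : Set G, Op U ∧ x ∈ star U ∧ star U ⊆ O
  isOpen_univ := fun x _ => ⟨Cyl ∅ x, op_cyl _ _, (op_cyl _ _).sub_star (self_cyl _ _),
    subset_univ _⟩
  isOpen_inter := fun s t hs ht x hx => by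
    obtain ⟨U, h1, h2, h3⟩ := hs x hx.1
    obtain ⟨V, k1, k2, k3⟩ := ht x hx.2
    refine ⟨U ∩ V, h1.inter k1, ?_, ?_⟩
    · rw [star_inter]; exact ⟨h2, k2⟩
    · rw [star_inter]; exact inter_subset_inter h3 k3
  isOpen_sUnion := fun _ hS x ⟨t, ht, hx⟩ => by
    obtain ⟨U, h1, h2, h3⟩ := hS t ht x hx
    exact ⟨U, h1, h2, h3.trans (subset_sUnion_of_mem ht)⟩

theorem Op.isOpen {U : Set G} (hU : Op U) : @IsOpen X _ U := fun x hx => by
  obtain ⟨a, ha⟩ := hU x hx
  exact ⟨Cyl a x, op_cyl _ _, (op_cyl _ _).sub_star (self_cyl _ _), (star_cyl _ _).trans ha⟩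

theorem Op.star_open {U : Set G} (hU : Op U) : @IsOpen X _ (star U) := fun _ hx =>
  ⟨U, hU, hx, subset_rfl⟩

theorem cyl_sub {O : Set X} (hO : IsOpen O) (hne : O.Nonempty) : ∃ a x, Cyl a x ⊆ O := by
  obtain ⟨x, hx⟩ := hne
  obtain ⟨U, h1, h2, h3⟩ := hO x hx
  obtain ⟨y, hy⟩ := star_ne h2
  obtain ⟨a, ha⟩ := h1 y hy
  exact ⟨a, y, ha.trans (h1.sub_star.trans h3)⟩

instance : T2Space X := ⟨fun x y hxy => by
  obtain ⟨w, hw⟩ : ∃ w, (show G from x) w ≠ (show G from y) w := by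
    by_contra h
    push Not at h
    exact hxy (Finsupp.ext h)
  refine ⟨Cyl {w} x, Cyl {w} y, (op_cyl _ _).isOpen, (op_cyl _ _).isOpen, self_cyl _ _,
    self_cyl _ _, disjoint_left.2 fun z h1 h2 => hw ?_⟩
  exact (h1 w (by simp)).symm.trans (h2 w (by simp))⟩

open Classical in
/-- restriction to a set of coordinates -/
noncomputable def res (S : Set W) (x : G) : G := x.filter (· ∈ S)

theorem res_mem {S : Set W} (x : G) {w : W} (h : w ∈ S) : res S x w = x w := by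
  simp [res, h]

theorem res_not {S : Set W} (x : G) {w : W} (h : w ∉ S) : res S x w = 0 := by
  simp [res, h]

theorem countable_supp {S : Set W} (hS : S.Countable) : {x : G | ↑x.support ⊆ S}.Countable := by
  classical
  have := hS.to_subtype
  refine (countable_range fun y : S →₀ ℤ => y.extendDomain (P := (· ∈ S))).mono fun x hx => ?_
  exact ⟨x.subtypeDomain (· ∈ S), Finsupp.extendDomain_subtypeDomain x fun w hw => hx hw⟩

theorem cfin {α : Type} {T : Set α} (hT : T.Countable) : {a : Finset α | ↑a ⊆ T}.Countable := by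
  classical
  have := hT.to_subtype
  refine (countable_range fun P : Finset T => P.map (Function.Embedding.subtype _)).mono
    fun a ha => mem_range.2 ⟨a.subtype (· ∈ T), Finset.subtype_map_of_mem fun x hx => ha hx⟩

theorem close (Φ : Finset W → Set W) (hΦ : ∀ a, (Φ a).Countable) {S₀ : Set W}
    (h0 : S₀.Countable) : ∃ S : Set W, S.Countable ∧ S₀ ⊆ S ∧ ∀ a : Finset W, ↑a ⊆ S → Φ a ⊆ S := by
  let step : Set W → Set W := fun S => S ∪ ⋃ a ∈ {a : Finset W | ↑a ⊆ S}, Φ a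
  let T : ℕ → Set W := fun n => step^[n] S₀
  have hT : ∀ n, T (n + 1) = step (T n) := fun n => Function.iterate_succ_apply' _ _ _
  have hTc : ∀ n, (T n).Countable := by
    intro n
    induction n with
    | zero => exact h0
    | succ n ih =>
      rw [hT]
      exact ih.union ((cfin ih).biUnion fun a _ => hΦ a)
  have hTm : Monotone T := monotone_nat_of_le_succ fun n => by
    rw [hT]; exact subset_union_left
  refine ⟨⋃ n, T n, countable_iUnion hTc, subset_iUnion T 0, fun a ha => ?_⟩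
  obtain ⟨n, hn⟩ := hTm.directed_le.exists_mem_subset_of_finset_subset_biUnion ha
  refine Subset.trans ?_ (subset_iUnion T (n + 1))
  rw [hT]
  exact fun w hw => Or.inr (mem_biUnion (show a ∈ {a : Finset W | ↑a ⊆ T n} from hn) hw)

theorem exists_supp {O : Set G} (hO : Op O) : ∃ S : Set W, S.Countable ∧
    ∀ x y : G, (∀ w ∈ S, x w = y w) → x ∈ star O → y ∈ star O := by
  classical
  have h1 : ∀ (a : Finset W) (x : G), ∃ q : Finset W × G, (Cyl a x ∩ O).Nonempty →
      Cyl q.1 q.2 ⊆ Cyl a x ∩ O := by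
    intro a x
    by_cases h : (Cyl a x ∩ O).Nonempty
    · obtain ⟨y, hy⟩ := h
      obtain ⟨b, hb⟩ := ((op_cyl _ _).inter hO) y hy
      exact ⟨(b, y), fun _ => hb⟩
    · exact ⟨(a, x), fun h' => absurd h' h⟩
  choose q hq using h1
  obtain ⟨S, hSc, -, hS⟩ := close (fun a => ⋃ x ∈ {x : G | (↑x.support : Set W) ⊆ ↑a}, ↑(q a x).1)
    (fun a => (countable_supp a.countable_toSet).biUnion fun x _ => (q a x).1.countable_toSet)
    countable_empty
  let O' : Set G := {x | ∃ a : Finset W, ↑a ⊆ S ∧ Cyl a x ⊆ O}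
  have hO' : Op O' := fun x ⟨a, ha, h⟩ => ⟨a, fun y hy => ⟨a, ha, fun z hz =>
    h fun w hw => (hz w hw).trans (hy w hw)⟩⟩
  have hsub : O' ⊆ O := fun x ⟨a, _, h⟩ => h (self_cyl a x)
  have hdn : ∀ c d, Cyl c d ⊆ O → (Cyl c d ∩ O').Nonempty := by
    intro c d hcd
    let a := c.filter (· ∈ S)
    let x := res (↑a) d
    have hxa : (↑x.support : Set W) ⊆ ↑a := fun w hw => by
      by_contra h
      exact (Finsupp.mem_support_iff.1 hw) (res_not d h)
    have haS : (↑a : Set W) ⊆ S := fun w hw => (Finset.mem_filter.1 hw).2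
    have h2 := hq a x ⟨d, fun w hw => (res_mem d hw).symm, hcd (self_cyl _ _)⟩
    have h3 : (↑(q a x).1 : Set W) ⊆ S := fun w hw => hS a haS (mem_biUnion hxa hw)
    let z : G := res S (q a x).2 + res Sᶜ d
    have hz1 : ∀ w ∈ S, z w = (q a x).2 w := fun w hw => by
      simp [z, res_mem _ hw, res_not (S := Sᶜ) d (fun h => h hw)]
    have hz2 : ∀ w ∉ S, z w = d w := fun w hw => by
      simp [z, res_not _ hw, res_mem (S := Sᶜ) d hw]
    have hz : z ∈ Cyl (q a x).1 (q a x).2 := fun w hw => hz1 w (h3 hw)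
    refine ⟨z, fun w hw => ?_, (q a x).1, h3, fun y hy => (h2 fun w hw => (hy w hw).trans
      (hz w hw)).2⟩
    by_cases h : w ∈ S
    · have hwa : w ∈ a := Finset.mem_filter.2 ⟨hw, h⟩
      rw [(h2 hz).1 w hwa]
      exact res_mem d hwa
    · exact hz2 w h
  refine ⟨S, hSc, fun x y hxy hx => ?_⟩
  have h4 : x ∈ star O' := by
    refine (star_or hO' x).resolve_right fun h => ?_
    obtain ⟨z, hz⟩ := meet hx h
    obtain ⟨c, hc⟩ := (hO.inter (op_ext O')) z hz
    obtain ⟨t, ht1, ht2⟩ := hdn c z fun r hr => (hc hr).1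
    exact not_mem_ext ht2 (hc ht1).2
  refine mem_of_superset (f := (u : Filter G)) h4 ?_
  rintro z ⟨a, ha, h⟩
  exact h fun w hw => by simp [hxy w (ha hw)]

theorem qc_supp {f : X → ℝ} (hf : IsQC f) : ∃ S : Set W, S.Countable ∧
    ∀ x y : G, (∀ w ∈ S, x w = y w) → f x = f y := by
  let O : ℚ × ℚ → Set G := fun I => {x | ∃ a, ∀ y ∈ Cyl a x, f y ∈ Ioo (I.1 : ℝ) I.2}
  have hO : ∀ I, Op (O I) := fun I x ⟨a, h⟩ => ⟨a, fun y hy => ⟨a, fun z hz =>
    h z fun w hw => (hz w hw).trans (hy w hw)⟩⟩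
  have h1 : ∀ I x, f x ∈ Ioo (I.1 : ℝ) I.2 → x ∈ star (O I) := by
    intro I x hx
    refine (star_or (hO I) x).resolve_right fun h => ?_
    obtain ⟨V, hV, hne, hVs, hfV⟩ := hf x _ (op_ext (O I)).star_open h _ isOpen_Ioo hx
    obtain ⟨a, z, hz⟩ := cyl_sub hV hne
    obtain ⟨t, ht1, ht2⟩ := meet (hVs (hz (self_cyl a z))) ((op_cyl a z).sub_star (self_cyl a z))
    refine not_mem_ext (show t ∈ O I from ⟨a, fun y hy => hfV ⟨y, hz fun w hw =>
      (hy w hw).trans (ht2 w hw), rfl⟩⟩) ht1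
  choose S hSc hS using fun I => exists_supp (hO I)
  refine ⟨⋃ I, S I, countable_iUnion hSc, ?_⟩
  have key : ∀ x y : G, (∀ w ∈ ⋃ I, S I, x w = y w) → ¬ f x < f y := by
    intro x y hxy hlt
    obtain ⟨m, hm1, hm2⟩ := exists_rat_btwn hlt
    obtain ⟨l, hl⟩ := exists_rat_lt (f x)
    obtain ⟨r, hr⟩ := exists_rat_gt (f y)
    have h2 := hS (l, m) x y (fun w hw => hxy w (mem_iUnion.2 ⟨_, hw⟩)) (h1 (l, m) x ⟨hl, hm1⟩)
    obtain ⟨z, ⟨a, ha⟩, ⟨b, hb⟩⟩ := meet h2 (h1 (m, r) y ⟨hm2, hr⟩)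
    exact lt_asymm (ha z (self_cyl _ _)).2 (hb z (self_cyl _ _)).1
  intro x y hxy
  exact le_antisymm (not_lt.1 (key y x fun w hw => (hxy w hw).symm)) (not_lt.1 (key x y hxy))

theorem fu : FrechetUrysohnSpace {f : X → ℝ // IsQC f} := by
  classical
  refine ⟨fun A g hg => ?_⟩
  choose Sp hSc hS using fun f : {f : X → ℝ // IsQC f} => qc_supp f.2
  have h1 : ∀ (P : Finset G) (k : ℕ), ∃ f ∈ A, ∀ x ∈ P, |f.1 x - g.1 x| < 1 / ((k : ℝ) + 1) := by
    intro P k
    have h2 : {f : {f : X → ℝ // IsQC f} | ∀ x ∈ P, |f.1 x - g.1 x| < 1 / ((k : ℝ) + 1)} ∈ 𝓝 g := by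
      refine (eventually_all_finset P).2 fun x _ => ?_
      have hc : Continuous fun f : {f : X → ℝ // IsQC f} => |f.1 x - g.1 x| :=
        (((continuous_apply x).comp continuous_subtype_val).sub continuous_const).abs
      exact (isOpen_lt hc continuous_const).mem_nhds (by simp; positivity)
    obtain ⟨f, hf1, hf2⟩ := mem_closure_iff_nhds.1 hg _ h2
    exact ⟨f, hf2, hf1⟩
  choose F hFA hF using h1
  obtain ⟨S, hScc, hgS, hcl⟩ := close (fun a => ⋃ P ∈ {P : Finset G | (↑P : Set G) ⊆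
      {x : G | (↑x.support : Set W) ⊆ ↑a}}, ⋃ k, Sp (F P k))
    (fun a => (cfin (countable_supp a.countable_toSet)).biUnion fun P _ =>
      countable_iUnion fun k => hSc _) (hSc g)
  obtain ⟨e, he⟩ := (countable_supp hScc).exists_eq_range ⟨0, by simp⟩
  have heS : ∀ m, (↑(e m).support : Set W) ⊆ S := fun m => by
    have : e m ∈ range e := ⟨m, rfl⟩
    rwa [← he] at this
  let P : ℕ → Finset G := fun n => (Finset.range n).image e
  have hP : ∀ n, Sp (F (P n) n) ⊆ S := fun n w hw => by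
    refine hcl ((P n).biUnion fun x => x.support) (fun t ht => ?_)
      (mem_biUnion (x := P n) (fun x hx t ht => ?_) (mem_iUnion.2 ⟨n, hw⟩))
    · obtain ⟨x, hx, h⟩ := Finset.mem_biUnion.1 ht
      obtain ⟨m, _, rfl⟩ := Finset.mem_image.1 hx
      exact heS m h
    · exact Finset.mem_biUnion.2 ⟨x, hx, ht⟩
  refine ⟨fun n => F (P n) n, fun n => hFA _ _, ?_⟩
  rw [tendsto_subtype_rng, tendsto_pi_nhds]
  intro x
  have hx : res S x ∈ range e := by
    rw [← he]
    intro w hw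
    by_contra h
    exact (Finsupp.mem_support_iff.1 hw) (res_not x h)
  obtain ⟨m, hm⟩ := hx
  rw [Metric.tendsto_atTop]
  intro ε hε
  obtain ⟨N, hN⟩ := exists_nat_one_div_lt hε
  refine ⟨max N (m + 1), fun n hn => ?_⟩
  have h3 := hF (P n) n (e m) (Finset.mem_image.2 ⟨m, Finset.mem_range.2 (by omega), rfl⟩)
  rw [Real.dist_eq, hS _ x (e m) fun w hw => by rw [hm, res_mem _ (hP n hw)],
    hS g x (e m) fun w hw => by rw [hm, res_mem _ (hgS hw)]]
  refine h3.trans (lt_of_le_of_lt ?_ hN)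
  exact Nat.one_div_le_one_div (by omega)

def N : Set X := {x | ∀ n : ℕ, (show G from x) (Sum.inl n) = 0}

theorem N_unc : ¬ N.Countable := fun h => by
  have hinj : Function.Injective fun r : ℝ => (Finsupp.single (Sum.inr r) 1 : G) :=
    fun r s hrs => Sum.inr_injective (Finsupp.single_left_injective one_ne_zero hrs)
  have := h.preimage_of_injOn (f := fun r : ℝ => (show X from Finsupp.single (Sum.inr r) 1))
    hinj.injOn
  refine Cardinal.not_countable_real (this.mono fun r _ => ?_)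
  intro n
  show (Finsupp.single (Sum.inr r) 1 : G) (Sum.inl n) = 0
  simp

theorem N_nwd : IsNowhereDense N := by
  classical
  have hc : IsClosed N := by
    rw [← isOpen_compl_iff]
    refine Op.isOpen fun x hx => ?_
    obtain ⟨n, hn⟩ : ∃ n : ℕ, x (Sum.inl n) ≠ 0 := by
      by_contra h
      push Not at h
      exact hx h
    exact ⟨{Sum.inl n}, fun y hy h => hn ((hy _ (by simp)).symm.trans (h n))⟩
  rw [hc.isNowhereDense_iff, eq_empty_iff_forall_notMem]
  intro x hx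
  obtain ⟨a, z, hz⟩ := cyl_sub isOpen_interior ⟨x, hx⟩
  obtain ⟨_, ⟨n, rfl⟩, hn⟩ :=
    (infinite_range_of_injective (Sum.inl_injective (α := ℕ) (β := ℝ))).exists_notMem_finset a
  have h1 : z.update (Sum.inl n) 1 ∈ Cyl a z := fun w hw => by
    have : w ≠ Sum.inl n := fun h => hn (h ▸ hw)
    simp [Finsupp.coe_update, Function.update_of_ne this]
  have h2 : (z.update (Sum.inl n) 1) (Sum.inl n) = 0 := interior_subset (s := N) (hz h1) n
  simp [Finsupp.coe_update] at h2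

end Pool.Agent.H55.QC
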