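import Pool.Agent.H55.Suit1

/-! Topology, order and index sets for the ladder group. -/

namespace Pool.Agent.H55.Suit

open Set Filter Topology Cardinal

variable {W : Type} [LinearOrder W]

theorem no_suitable [Nonempty W] [WellFoundedLT W] (h1 : P1 W) (h3 : P3 W)
    {K : Type} [AddGroup K] [TopologicalSpace K] (f : K →+ (W → ℤ))
    (hinj : Function.Injective f) (hr : ∀ x, x ∈ H W ↔ x ∈ range f)
    (hb : ∀ x : K, (𝓝 x).HasBasis (fun _ : W => True) (fun β => {y | ∀ γ < β, f y γ = f x γ}))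
    (S : Set K) :
    ¬ (IsDiscrete S ∧ IsClosed (insert 0 S) ∧ Dense (AddSubgroup.closure S : Set K)) := by
  rintro ⟨hd, hc, hden⟩
  refine no_suit h1 h3 (f '' S) ?_ ?_ ?_ ?_
  · rintro _ ⟨s, -, rfl⟩
    exact (hr _).2 ⟨s, rfl⟩
  · rintro _ ⟨s, hs, rfl⟩
    obtain ⟨U, hU, hUS⟩ := isDiscrete_iff_forall_mem_exists_isOpen.1 hd s hs
    have hsU : s ∈ U := by
      have : s ∈ U ∩ S := by rw [hUS]; rfl
      exact this.1
    obtain ⟨β, -, hβ⟩ := (hb s).mem_iff.1 (hU.mem_nhds hsU)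
    refine ⟨β, ?_⟩
    rintro _ ⟨t, ht, rfl⟩ hts
    have : t ∈ U ∩ S := ⟨hβ hts, ht⟩
    rw [hUS] at this
    rw [mem_singleton_iff.1 this]
  · intro x hx hs
    obtain ⟨k, rfl⟩ := (hr x).1 hx
    have : k ∈ closure (insert 0 S) := by
      rw [mem_closure_iff_nhds_basis (hb k)]
      intro β _
      obtain ⟨_, ⟨s, hs, rfl⟩, h⟩ := hs β
      exact ⟨s, Or.inr hs, h⟩
    rw [hc.closure_eq] at this
    rcases this with rfl | h
    · exact Or.inl (map_zero f)
    · exact Or.inr ⟨k, h, rfl⟩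
  · intro x hx β
    obtain ⟨k, rfl⟩ := (hr x).1 hx
    have := hden k
    rw [mem_closure_iff_nhds_basis (hb k)] at this
    obtain ⟨y, hy, h⟩ := this β trivial
    refine ⟨f y, ?_, h⟩
    rw [← AddMonoidHom.map_closure]
    exact ⟨y, hy, rfl⟩

/-- the topology whose basic neighbourhoods fix an initial segment of coordinates -/
@[reducible] def star (W : Type) [LinearOrder W] : TopologicalSpace (W → ℤ) :=
  TopologicalSpace.generateFrom {V | ∃ (x : W → ℤ) (β : W), V = {y | ∀ γ < β, y γ = x γ}}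

theorem star_basis [Nonempty W] (x : W → ℤ) :
    (@nhds _ (star W) x).HasBasis (fun _ : W => True) (fun β => {y | ∀ γ < β, y γ = x γ}) := by
  letI := star W
  refine ⟨fun t => ⟨fun ht => ?_, ?_⟩⟩
  · obtain ⟨U, hUt, hU, hx⟩ := mem_nhds_iff.1 ht
    suffices ∃ β, {y : W → ℤ | ∀ γ < β, y γ = x γ} ⊆ U by
      obtain ⟨β, hβ⟩ := this
      exact ⟨β, trivial, hβ.trans hUt⟩
    clear hUt ht
    induction hU with
    | basic s hs =>
      obtain ⟨z, β, rfl⟩ := hs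
      exact ⟨β, fun y hy γ hγ => (hy γ hγ).trans (hx γ hγ)⟩
    | univ => exact ⟨Classical.arbitrary W, subset_univ _⟩
    | inter s t _ _ ihs iht =>
      obtain ⟨β1, h1⟩ := ihs hx.1
      obtain ⟨β2, h2⟩ := iht hx.2
      exact ⟨max β1 β2, fun y hy => ⟨h1 fun γ hγ => hy γ (hγ.trans_le (le_max_left _ _)),
        h2 fun γ hγ => hy γ (hγ.trans_le (le_max_right _ _))⟩⟩
    | sUnion S _ ih =>
      obtain ⟨s, hs, hxs⟩ := hx
      obtain ⟨β, hβ⟩ := ih s hs hxs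
      exact ⟨β, fun y hy => ⟨s, hs, hβ hy⟩⟩
  · rintro ⟨β, -, hβ⟩
    exact mem_nhds_iff.2 ⟨_, hβ, TopologicalSpace.GenerateOpen.basic _ ⟨x, β, rfl⟩,
      fun _ _ => rfl⟩

/-- the ladder group as a type of its own -/
def G (W : Type) [LinearOrder W] : Type := H W

noncomputable instance : AddCommGroup (G W) := inferInstanceAs (AddCommGroup (H W))

def val : G W →+ (W → ℤ) := (H W).subtype

theorem val_inj : Function.Injective (val (W := W)) := Subtype.val_injective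

theorem val_range (x : W → ℤ) : x ∈ H W ↔ x ∈ range (val (W := W)) :=
  ⟨fun h => ⟨⟨x, h⟩, rfl⟩, by rintro ⟨y, rfl⟩; exact y.2⟩

noncomputable instance : TopologicalSpace (G W) := TopologicalSpace.induced val (star W)

def B (x : G W) (β : W) : Set (G W) := {y | ∀ γ < β, val y γ = val x γ}

theorem basis [Nonempty W] (x : G W) : (𝓝 x).HasBasis (fun _ : W => True) (B x) := by
  rw [@nhds_induced _ _ (star W)]
  exact (star_basis (val x)).comap val

theorem B_mem [Nonempty W] (x : G W) (β : W) : B x β ∈ 𝓝 x := (basis x).mem_of_mem trivial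

theorem isOpen_of [Nonempty W] {U : Set (G W)} (h : ∀ x ∈ U, ∃ β, B x β ⊆ U) : IsOpen U :=
  isOpen_iff_mem_nhds.2 fun x hx => by
    obtain ⟨β, hβ⟩ := h x hx
    exact mem_of_superset (B_mem x β) hβ

theorem B_open [Nonempty W] (x : G W) (β : W) : IsOpen (B x β) :=
  isOpen_of fun _ hy => ⟨β, fun _ hz γ hγ => (hz γ hγ).trans (hy γ hγ)⟩

theorem B_closed [Nonempty W] (x : G W) (β : W) : IsClosed (B x β) :=
  ⟨isOpen_of fun _ hy => ⟨β, fun _ hz hz' => hy fun γ hγ => (hz γ hγ).symm.trans (hz' γ hγ)⟩⟩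

instance [Nonempty W] : IsTopologicalAddGroup (G W) where
  continuous_add := by
    refine continuous_iff_continuousAt.2 fun p => ?_
    refine (basis _).tendsto_right_iff.2 fun β _ => ?_
    rw [nhds_prod_eq]
    refine mem_of_superset (prod_mem_prod (B_mem p.1 β) (B_mem p.2 β)) fun q hq γ hγ => ?_
    simp only [map_add, Pi.add_apply]
    rw [hq.1 γ hγ, hq.2 γ hγ]
  continuous_neg := by
    refine continuous_iff_continuousAt.2 fun p => ?_
    refine (basis _).tendsto_right_iff.2 fun β _ => ?_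
    refine mem_of_superset (B_mem p β) fun q hq γ hγ => ?_
    simp only [map_neg, Pi.neg_apply]
    rw [hq γ hγ]

theorem totSep [Nonempty W] (h1 : P1 W) : TotallySeparatedSpace (G W) := by
  refine ⟨fun x _ y _ hxy => ?_⟩
  obtain ⟨γ, hγ⟩ := Function.ne_iff.1 (fun h => hxy (val_inj h))
  obtain ⟨β, hβ⟩ := h1 (fun _ => γ)
  refine ⟨B x β, (B x β)ᶜ, B_open x β, (B_closed x β).isOpen_compl, fun _ _ => rfl,
    fun h => hγ (h γ (hβ 0)).symm, by simp, disjoint_compl_right⟩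

noncomputable instance [WellFoundedLT W] : LinearOrder (G W) :=
  LinearOrder.lift' (fun x => toLex (val x)) (fun _ _ h => val_inj h)

theorem lt_iff [WellFoundedLT W] (x y : G W) :
    x < y ↔ ∃ i, (∀ j < i, val x j = val y j) ∧ val x i < val y i := Iff.rfl

noncomputable def eG (α : W) : G W := ⟨e α, e_mem α⟩

theorem val_eG (α γ : W) : val (eG α) γ = if γ = α then 1 else 0 := by
  change e α γ = _
  unfold e
  congr

theorem lt_add_eG [WellFoundedLT W] (x : G W) (β : W) : x < x + eG β :=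
  (lt_iff _ _).2 ⟨β, fun j hj => by simp [val_eG, hj.ne], by simp [val_eG]⟩

theorem sub_eG_lt [WellFoundedLT W] (x : G W) (β : W) : x - eG β < x :=
  (lt_iff _ _).2 ⟨β, fun j hj => by simp [val_eG, hj.ne], by simp [val_eG]⟩

theorem Ioo_sub [WellFoundedLT W] (x : G W) (β : W) : Ioo (x - eG β) (x + eG β) ⊆ B x β := by
  rintro y ⟨h1, h2⟩
  obtain ⟨i, hi, hi'⟩ := (lt_iff _ _).1 h1
  obtain ⟨j, hj, hj'⟩ := (lt_iff _ _).1 h2
  have key : β ≤ i := by
    by_contra hh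
    have hh : i < β := not_le.1 hh
    simp only [map_sub, map_add, Pi.sub_apply, Pi.add_apply, val_eG] at hi hi' hj hj'
    rw [if_neg hh.ne] at hi'
    rcases lt_trichotomy i j with h | h | h
    · have := hj i h
      rw [if_neg hh.ne] at this
      omega
    · subst h
      rw [if_neg hh.ne] at hj'
      omega
    · have := hi j h
      rw [if_neg (h.trans hh).ne] at this hj'
      omega
  intro γ hγ
  have := hi γ (hγ.trans_le key)
  simp only [map_sub, Pi.sub_apply, val_eG, if_neg hγ.ne] at this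
  omega

theorem Ioi_open [Nonempty W] [WellFoundedLT W] (h1 : P1 W) (a : G W) : IsOpen (Ioi a) := by
  refine isOpen_of fun x hx => ?_
  obtain ⟨i, hi, hi'⟩ := (lt_iff _ _).1 hx
  obtain ⟨β, hβ⟩ := h1 (fun _ => i)
  refine ⟨β, fun y hy => (lt_iff _ _).2 ⟨i, fun j hj => ?_, ?_⟩⟩
  · rw [hy j (hj.trans (hβ 0)), hi j hj]
  · rw [hy i (hβ 0)]
    exact hi'

theorem Iio_open [Nonempty W] [WellFoundedLT W] (h1 : P1 W) (a : G W) : IsOpen (Iio a) := by
  refine isOpen_of fun x hx => ?_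
  obtain ⟨i, hi, hi'⟩ := (lt_iff _ _).1 hx
  obtain ⟨β, hβ⟩ := h1 (fun _ => i)
  refine ⟨β, fun y hy => (lt_iff _ _).2 ⟨i, fun j hj => ?_, ?_⟩⟩
  · rw [hy j (hj.trans (hβ 0)), hi j hj]
  · rw [hy i (hβ 0)]
    exact hi'

theorem orderTop [Nonempty W] [WellFoundedLT W] (h1 : P1 W) : OrderTopology (G W) := by
  refine ⟨le_antisymm ?_ ?_⟩
  · refine le_generateFrom ?_
    rintro s ⟨a, rfl | rfl⟩
    · exact Ioi_open h1 a
    · exact Iio_open h1 a
  · intro U hU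
    have : ∀ x ∈ U, ∃ V, V ⊆ U ∧ IsOpen[Preorder.topology (G W)] V ∧ x ∈ V := by
      intro x hx
      obtain ⟨β, -, hβ⟩ := (basis x).mem_iff.1 (hU.mem_nhds hx)
      refine ⟨Ioo (x - eG β) (x + eG β), (Ioo_sub x β).trans hβ, ?_, sub_eG_lt x β, lt_add_eG x β⟩
      exact TopologicalSpace.GenerateOpen.inter _ _
        (TopologicalSpace.GenerateOpen.basic _ ⟨_, Or.inl rfl⟩)
        (TopologicalSpace.GenerateOpen.basic _ ⟨_, Or.inr rfl⟩)
    exact (@isOpen_iff_forall_mem_open _ (Preorder.topology (G W)) U).2 this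

theorem not_sep [Nonempty W] (h1 : P1 W) : ¬ TopologicalSpace.SeparableSpace (G W) := by
  intro h
  obtain ⟨u, hu⟩ := TopologicalSpace.exists_dense_seq (G W)
  choose b hb using fun n => supp_bdd h1 (u n).2
  obtain ⟨c, hc⟩ := h1 b
  obtain ⟨β, hβ⟩ := h1 (fun _ => c)
  obtain ⟨n, hn⟩ := hu.exists_mem_open (B_open (eG c) β) ⟨eG c, fun _ _ => rfl⟩
  have h5 := hn c (hβ 0)
  have h6 : val (u n) c = 0 := hb n c (hc n).le
  rw [h6, val_eG, if_pos rfl] at h5
  exact zero_ne_one h5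

theorem not_Gδ [Nonempty W] (h1 : P1 W) : ¬ IsGδ ({0} : Set (G W)) := by
  intro h
  obtain ⟨U, hU, hU0⟩ := isGδ_iff_eq_iInter_nat.1 h
  have : ∀ n, ∃ β, B (0 : G W) β ⊆ U n := fun n => by
    have h0 : (0 : G W) ∈ ⋂ n, U n := by rw [← hU0]; rfl
    obtain ⟨β, -, hβ⟩ := (basis 0).mem_iff.1 ((hU n).mem_nhds (mem_iInter.1 h0 n))
    exact ⟨β, hβ⟩
  choose b hb using this
  obtain ⟨c, hc⟩ := h1 b
  have : eG c ∈ ⋂ n, U n := mem_iInter.2 fun n => hb n fun γ hγ => by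
    rw [val_eG, if_neg (hγ.trans (hc n)).ne, map_zero]
    rfl
  rw [← hU0] at this
  have h5 := val_eG c c
  rw [mem_singleton_iff.1 this, if_pos rfl, map_zero] at h5
  exact zero_ne_one h5

theorem G_no_suitable [Nonempty W] [WellFoundedLT W] (h1 : P1 W) (h3 : P3 W) (S : Set (G W)) :
    ¬ (IsDiscrete S ∧ IsClosed (insert 0 S) ∧ Dense (AddSubgroup.closure S : Set (G W))) :=
  no_suitable h1 h3 val val_inj val_range basis S

theorem P13_of_card {κ : Cardinal} (hκ : ℵ₀ < κ)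
    (hR : ∀ A : Set κ.ord.ToType, #A < κ → ∃ c, ∀ a ∈ A, a < c) :
    P1 κ.ord.ToType ∧ P3 κ.ord.ToType := by
  refine ⟨fun b => ?_, fun β b => ?_⟩
  · obtain ⟨c, hc⟩ := hR (range b) ((countable_range b).le_aleph0.trans_lt hκ)
    exact ⟨c, fun n => hc _ ⟨n, rfl⟩⟩
  · have : #(Iic β) < κ := by
      rw [← Iio_insert]
      refine (mk_insert_le).trans_lt ?_
      exact add_lt_of_lt hκ.le (mk_Iio_toType_ord_lt β) (one_lt_aleph0.trans hκ)
    obtain ⟨c, hc⟩ := hR (b '' Iic β) (mk_image_le.trans_lt this)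
    exact ⟨c, fun γ hγ => hc _ ⟨γ, hγ, rfl⟩⟩

theorem card_Iic_lt {κ : Cardinal} (hκ : ℵ₀ ≤ κ) (β : κ.ord.ToType) : #(Iic β) < κ := by
  rw [← Iio_insert]
  refine (mk_insert_le).trans_lt ?_
  exact add_lt_of_lt hκ (mk_Iio_toType_ord_lt β) (one_lt_aleph0.trans_le hκ)

theorem P13_omega1 : P1 (ℵ_ 1 : Cardinal.{0}).ord.ToType ∧ P3 (ℵ_ 1 : Cardinal.{0}).ord.ToType := by
  refine P13_of_card aleph0_lt_aleph_one fun A hA => ?_
  by_contra hc
  push Not at hc
  have hAc : A.Countable := by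
    rwa [← countable_iff_lt_aleph_one] at hA
  have : (univ : Set (ℵ_ 1 : Cardinal.{0}).ord.ToType) ⊆ ⋃ a ∈ A, Iic a := fun c _ => by
    obtain ⟨a, ha, hca⟩ := hc c
    exact mem_biUnion ha hca
  have hu : (univ : Set (ℵ_ 1 : Cardinal.{0}).ord.ToType).Countable :=
    (hAc.biUnion fun a _ => (countable_iff_lt_aleph_one _).2
      (card_Iic_lt aleph0_lt_aleph_one.le a)).mono this
  rw [countable_iff_lt_aleph_one, mk_univ, mk_ord_toType] at hu
  exact lt_irrefl _ hu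

def Bdd (F : Set (ℕ → ℕ)) : Prop := ∃ g : ℕ → ℕ, ∀ f ∈ F, ∀ᶠ n in atTop, f n ≤ g n

theorem bdd_of_countable {F : Set (ℕ → ℕ)} (hF : F.Countable) : Bdd F := by
  rcases eq_empty_or_nonempty F with rfl | h
  · exact ⟨0, fun _ h => h.elim⟩
  · obtain ⟨u, rfl⟩ := hF.exists_eq_range h
    refine ⟨fun n => ∑ m ∈ Finset.range (n + 1), u m n, ?_⟩
    rintro _ ⟨m, rfl⟩
    filter_upwards [eventually_ge_atTop m] with n hn
    exact Finset.single_le_sum (f := fun m => u m n) (fun _ _ => Nat.zero_le _)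
      (Finset.mem_range.2 (Nat.lt_succ_of_le hn))

theorem not_bdd_univ : ¬ Bdd univ := by
  rintro ⟨g, hg⟩
  obtain ⟨n, hn⟩ := (hg (fun n => g n + 1) (mem_univ _)).exists
  omega

theorem exists_W : ∃ (W : Type) (_ : LinearOrder W) (_ : WellFoundedLT W) (_ : Nonempty W),
    P1 W ∧ P3 W ∧ ∃ φ : (ℕ → ℕ) → W, Monotone φ ∧ ∀ β, ∃ f, β ≤ φ f := by
  obtain ⟨κ, ⟨F, hF, hFκ⟩, hmin⟩ := (wellFounded_lt (α := Cardinal.{0})).has_min
    {c | ∃ F : Set (ℕ → ℕ), ¬ Bdd F ∧ #F = c} ⟨_, univ, not_bdd_univ, rfl⟩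
  have hb : ∀ A : Set (ℕ → ℕ), #A < κ → Bdd A := fun A hA => by
    by_contra hh
    exact hmin _ ⟨A, hh, rfl⟩ hA
  have hκ : ℵ₀ < κ := by
    by_contra hh
    refine hF (bdd_of_countable ?_)
    rw [← le_aleph0_iff_set_countable, hFκ]
    exact not_lt.1 hh
  obtain ⟨E⟩ : Nonempty (κ.ord.ToType ≃ F) := by
    rw [← Cardinal.eq, mk_ord_toType, hFκ]
  have hI : ∀ β : κ.ord.ToType, ∃ g : ℕ → ℕ, ∀ γ ≤ β, ∀ᶠ n in atTop, (E γ).1 n ≤ g n := by
    intro β
    obtain ⟨g, hg⟩ := hb ((fun γ => (E γ).1) '' Iic β)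
      (mk_image_le.trans_lt (card_Iic_lt hκ.le β))
    exact ⟨g, fun γ hγ => hg _ ⟨γ, hγ, rfl⟩⟩
  have hU : ∀ f : ℕ → ℕ, {α : κ.ord.ToType | ¬ ∀ᶠ n in atTop, (E α).1 n ≤ f n}.Nonempty := by
    intro f
    by_contra hh
    refine hF ⟨f, fun u hu => ?_⟩
    by_contra h2
    exact hh ⟨E.symm ⟨u, hu⟩, by simpa using h2⟩
  choose g hg using hI
  have hR : ∀ A : Set κ.ord.ToType, #A < κ → ∃ c, ∀ a ∈ A, a < c := by
    intro A hA
    obtain ⟨k, hk⟩ := hb (g '' A) (mk_image_le.trans_lt hA)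
    obtain ⟨c, hc⟩ := hU k
    refine ⟨c, fun a ha => ?_⟩
    by_contra hh
    refine hc ?_
    filter_upwards [hg a c (not_lt.1 hh), hk _ ⟨a, ha, rfl⟩] with n h1 h2
    exact h1.trans h2
  obtain ⟨h1, h3⟩ := P13_of_card hκ hR
  refine ⟨κ.ord.ToType, inferInstance, inferInstance, ⟨(hU 0).some⟩, h1, h3,
    fun f => wellFounded_lt.min _ (hU f), fun f f' hff' => ?_, fun β => ⟨g β, ?_⟩⟩
  · refine not_lt.1 (wellFounded_lt.not_lt_min _ fun hh => ?_)
    refine wellFounded_lt.min_mem _ (hU f') ?_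
    filter_upwards [hh] with n hn
    exact hn.trans (hff' n)
  · by_contra hh
    exact wellFounded_lt.min_mem _ (hU (g β)) (hg β _ (not_le.1 hh).le)

theorem omega_base [Nonempty W] (φ : (ℕ → ℕ) → W) (hm : Monotone φ) (hc : ∀ β, ∃ f, β ≤ φ f)
    (x : G W) : ∃ U : (ℕ → ℕ) → Set (G W), (𝓝 x).HasBasis (fun _ => True) U ∧ Antitone U := by
  refine ⟨fun f => B x (φ f), (basis x).to_hasBasis (fun β _ => ?_) (fun f _ => ?_),
    fun f f' h y hy γ hγ => hy γ (hγ.trans_le (hm h))⟩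
  · obtain ⟨f, hf⟩ := hc β
    exact ⟨f, trivial, fun y hy γ hγ => hy γ (hγ.trans_le hf)⟩
  · exact ⟨φ f, trivial, subset_rfl⟩

end Pool.Agent.H55.Suit
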