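import Mathlib
import Pool.Agent.H55.Suit2
import Pool.Agent.H55.QC

/-! Markov strategies for player Two in two cover games. -/

namespace Pool.Agent.H55.Mark

open Set Topology Filter
open Cardinal hiding univ

/-- The family `O(X, B)`. -/
def OC {X : Type} [TopologicalSpace X] (ℬ 𝒰 : Set (Set X)) : Prop :=
  (∀ U ∈ 𝒰, IsOpen U) ∧ ⋃₀ 𝒰 = univ ∧ univ ∉ 𝒰 ∧ ∀ B ∈ ℬ, ∃ U ∈ 𝒰, B ⊆ U

/-- The family `Γ(X, B)`. -/
def GC {X : Type} [TopologicalSpace X] (ℬ 𝒰 : Set (Set X)) : Prop :=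
  𝒰.Infinite ∧ (∀ U ∈ 𝒰, IsOpen U) ∧ ⋃₀ 𝒰 = univ ∧ univ ∉ 𝒰 ∧
    ∀ B ∈ ℬ, {U ∈ 𝒰 | ¬ B ⊆ U}.Finite

/-- Two has a winning Markov strategy in `G_1(N[A], ¬ P)`. -/
def MarkovWin {X : Type} [TopologicalSpace X] (𝒜 : Set (Set X)) (P : Set (Set X) → Prop) : Prop :=
  ∃ σ : 𝒜 → ℕ → Set X, (∀ A n, IsOpen (σ A n) ∧ A.1 ⊆ σ A n ∧ σ A n ≠ univ) ∧
    ∀ A : ℕ → 𝒜, ¬ P (range fun n => σ (A n) n)

abbrev W : Type := (ℵ_ 1 : Cardinal.{0}).ord.ToType

theorem Iio_c (a : W) : (Iio a).Countable :=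
  ((countable_iff_lt_aleph_one _).2 (Suit.card_Iic_lt aleph0_lt_aleph_one.le a)).mono
    Iio_subset_Iic_self

instance : Nonempty W := by
  rw [Ordinal.nonempty_toType_iff, Ne, Cardinal.ord_eq_zero]
  exact (aleph_pos 1).ne'

theorem bdd {S : Set W} (hS : S.Countable) : ∃ c, ∀ s ∈ S, s < c := by
  obtain ⟨a⟩ : Nonempty W := inferInstance
  obtain ⟨f, hf⟩ := (hS.insert a).exists_eq_range (insert_nonempty _ _)
  obtain ⟨c, hc⟩ := Suit.P13_omega1.1 f
  refine ⟨c, fun s hs => ?_⟩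
  obtain ⟨n, rfl⟩ : s ∈ range f := hf ▸ mem_insert_of_mem _ hs
  exact hc n

/-- subsets of `ω₁` of order type at most `ω` -/
def X : Type := {K : W → Bool // ∀ b, K b = true → {c | c < b ∧ K c = true}.Finite}

instance : TopologicalSpace X := instTopologicalSpaceSubtype

instance : T35Space X := inferInstanceAs (T35Space {K : W → Bool // _})

theorem exists_fin {U : Set X} (hU : IsOpen U) {K : X} (hK : K ∈ U) :
    ∃ φ : Finset W, ∀ L : X, (∀ i ∈ φ, L.1 i = K.1 i) → L ∈ U := by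
  obtain ⟨V, hV, rfl⟩ := isOpen_induced_iff.1 hU
  obtain ⟨φ, u, h1, h2⟩ := isOpen_pi_iff.1 hV _ hK
  exact ⟨φ, fun L hL => h2 fun i hi => by rw [hL i hi]; exact (h1 i hi).2⟩

open Classical in
noncomputable def ofFin (P : Finset W) : X :=
  ⟨fun i => decide (i ∈ P), fun _ _ => P.finite_toSet.subset fun c hc => by simpa using hc.2⟩

theorem ofFin_iff (P : Finset W) (i : W) : (ofFin P).1 i = true ↔ i ∈ P := by simp [ofFin]

def AA (a : W) : Set X := {K | ∀ i, K.1 i = true → i < a}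

def UU (a : W) : Set X := {K | K.1 a = false}

theorem UU_open (a : W) : IsOpen (UU a) :=
  (isOpen_discrete {false}).preimage (f := fun K : X => K.1 a)
    ((continuous_apply _).comp continuous_subtype_val)

theorem AA_sub (a : W) : AA a ⊆ UU a := fun K hK => by
  by_contra h
  exact lt_irrefl a (hK a (by simpa [UU] using h))

theorem notMem_UU {K : X} {a : W} (h : K.1 a = true) : K ∉ UU a := by simp [UU, h]

theorem UU_ne (a : W) : UU a ≠ univ := fun h =>
  notMem_UU ((ofFin_iff {a} a).2 (by simp)) (h ▸ mem_univ _)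

theorem UU_inj : Function.Injective UU := fun a b h => by
  by_contra hab
  refine notMem_UU ((ofFin_iff {a} a).2 (by simp)) (h ▸ ?_)
  have : ¬ (ofFin {a}).1 b = true := by rw [ofFin_iff]; simpa using Ne.symm hab
  simpa [UU] using this

theorem win_gamma : MarkovWin (range AA) (GC (range fun x : X => {x})) := by
  classical
  choose α hα using fun A : range AA => A.2
  refine ⟨fun A _ => UU (α A), fun A _ => ⟨UU_open _, hα A ▸ AA_sub _, UU_ne _⟩, ?_⟩
  rintro A ⟨hinf, -, -, -, hfin⟩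
  have h1 : (range fun n => α (A n)).Infinite := fun h => hinf ((h.image UU).subset (by
    rintro _ ⟨n, rfl⟩
    exact ⟨_, ⟨n, rfl⟩, rfl⟩))
  set R := range fun n => α (A n)
  let K : X := ⟨fun i => decide (i ∈ R ∧ {c | c < i ∧ c ∈ R}.Finite), fun b hb => by
    have := (of_decide_eq_true hb).2
    exact this.subset fun c hc => ⟨hc.1, (of_decide_eq_true hc.2).1⟩⟩
  have h2 : {i | i ∈ R ∧ {c | c < i ∧ c ∈ R}.Finite}.Infinite := by
    intro hf
    obtain ⟨m, hm, hmin⟩ := (wellFounded_lt (α := W)).has_min _ (h1.sdiff hf).nonempty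
    refine hm.2 ⟨hm.1, hf.subset fun c hc => ?_⟩
    by_contra h
    exact hmin c ⟨hc.2, h⟩ hc.1
  refine (h2.image UU_inj.injOn) ((hfin _ ⟨K, rfl⟩).subset ?_)
  rintro _ ⟨i, hi, rfl⟩
  obtain ⟨n, rfl⟩ := hi.1
  exact ⟨⟨n, rfl⟩, fun h => notMem_UU (K := K) (decide_eq_true hi) (h rfl)⟩

theorem not_win_open : ¬ MarkovWin (range AA) (OC (range fun x : X => {x})) := by
  classical
  rintro ⟨σ, hσ, hwin⟩
  let τ : W → ℕ → Set X := fun a n => σ ⟨AA a, a, rfl⟩ n
  have h1 : ∀ a n, ∃ c, a < c ∧ ∀ K : X, {i | i < a ∧ K.1 i = true}.Finite →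
      (∀ i, a ≤ i → i < c → K.1 i = false) → K ∈ τ a n := by
    intro a n
    have h2 : ∀ P : Finset W, ∃ φ : Finset W, ↑P ⊆ Iio a →
        ∀ L : X, (∀ i ∈ φ, L.1 i = (ofFin P).1 i) → L ∈ τ a n := by
      intro P
      by_cases hP : ↑P ⊆ Iio a
      · obtain ⟨φ, hφ⟩ := exists_fin (hσ ⟨AA a, a, rfl⟩ n).1 ((hσ ⟨AA a, a, rfl⟩ n).2.1
          (show ofFin P ∈ AA a from fun i hi => hP ((ofFin_iff P i).1 hi)))
        exact ⟨φ, fun _ => hφ⟩
      · exact ⟨∅, fun h => absurd h hP⟩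
    choose φ hφ using h2
    obtain ⟨c, hc⟩ := bdd (((QC.cfin (Iio_c a)).biUnion fun P _ => (φ P).countable_toSet).insert a)
    refine ⟨c, hc a (mem_insert _ _), fun K hK hz => ?_⟩
    have hP : (↑hK.toFinset : Set W) ⊆ Iio a := fun i hi => by
      simp only [Finite.coe_toFinset] at hi
      exact hi.1
    refine hφ hK.toFinset hP K fun i hi => ?_
    have h3 : i < c := hc i (Or.inr (mem_biUnion (x := hK.toFinset) hP hi))
    rw [Bool.eq_iff_iff, ofFin_iff]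
    simp only [Finite.mem_toFinset, mem_ofPred_eq]
    refine ⟨fun h => ⟨?_, h⟩, fun h => h.2⟩
    by_contra h4
    rw [hz i (not_lt.1 h4) h3] at h
    exact Bool.false_ne_true h
  choose c hc hcK using h1
  obtain ⟨a0⟩ : Nonempty W := inferInstance
  let a : ℕ → W := fun n => Nat.rec a0 (fun n x => c x (n + 1)) n
  have ha : StrictMono a := strictMono_nat_of_lt_succ fun n => hc _ _
  obtain ⟨b, hb⟩ := Suit.P13_omega1.1 a
  let A : ℕ → range AA := fun n => Nat.casesOn n ⟨AA b, b, rfl⟩ fun n => ⟨AA (a n), a n, rfl⟩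
  have key : ∀ K : X, ∃ n, K ∈ σ (A n) n := by
    intro K
    rcases Classical.em (∃ β, K.1 β = true ∧ ∀ n, a n < β) with h | h
    · obtain ⟨β, h1, h2⟩ := h
      have hf := K.2 β h1
      by_contra hn
      push Not at hn
      have h3 : ∀ n, ∃ i, a n ≤ i ∧ i < a (n + 1) ∧ K.1 i = true := by
        intro n
        by_contra h4
        push Not at h4
        exact hn (n + 1) (hcK (a n) (n + 1) K (hf.subset fun i hi => ⟨hi.1.trans (h2 n), hi.2⟩)
          fun i h5 h6 => by simpa using h4 i h5 h6)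
      choose i h4 h5 h6 using h3
      have h7 : StrictMono i := strictMono_nat_of_lt_succ fun n => (h5 n).trans_le (h4 (n + 1))
      refine infinite_range_of_injective h7.injective (hf.subset ?_)
      rintro _ ⟨n, rfl⟩
      exact ⟨(h5 n).trans (h2 (n + 1)), h6 n⟩
    · push Not at h
      refine ⟨0, (hσ _ 0).2.1 fun i hi => ?_⟩
      obtain ⟨n, hn⟩ := h i hi
      exact hn.trans_lt (hb n)
  refine hwin A ⟨?_, ?_, ?_, ?_⟩
  · rintro _ ⟨n, rfl⟩
    exact (hσ _ _).1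
  · refine eq_univ_of_forall fun K => ?_
    obtain ⟨n, hn⟩ := key K
    exact ⟨_, ⟨n, rfl⟩, hn⟩
  · rintro ⟨n, hn⟩
    exact (hσ _ _).2.2 hn
  · rintro _ ⟨K, rfl⟩
    obtain ⟨n, hn⟩ := key K
    exact ⟨_, ⟨n, rfl⟩, singleton_subset_iff.2 hn⟩

end Pool.Agent.H55.Mark
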