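import Mathlib

/-! A minimal asymptotic basis of order two with quadratic growth. -/

namespace Pool.Agent.H55.MinQuad

open Finset Filter Topology

def S (x : ℕ) : Prop := ∃ k, 2 ^ k * 2 ^ k ≤ x ∧ x < 40 * (2 ^ k * 2 ^ k) ∧
  ∃ e ∈ ({2 ^ k, 2 ^ k + 1, 2 * 2 ^ k + 1, 2 * 2 ^ k + 3} : Finset ℕ), e ∣ x

theorem sp (s : Finset ℕ) (a n q : ℕ) (h1 : ∀ x ∈ s, a ≤ x ∧ x < a + n * q)
    (h2 : ∀ x ∈ s, ∀ y ∈ s, x < y → x + q ≤ y) : #s ≤ n := by
  have key : ∀ x ∈ s, ∀ y ∈ s, x < y → (x - a) / q ≠ (y - a) / q := by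
    intro x hx y hy hxy e
    have := h1 x hx; have := h1 y hy; have := h2 x hx y hy hxy
    have hq : 0 < q := Nat.pos_of_ne_zero (by rintro rfl; omega)
    have h3 := Nat.div_le_div_right (c := q) (show x - a + q ≤ y - a by omega)
    rw [Nat.add_div_right _ hq] at h3
    omega
  rw [← card_range n]
  refine card_le_card_of_injOn (fun x => (x - a) / q) (fun x hx => ?_) fun x hx y hy e => ?_
  · have := h1 x hx
    exact mem_coe.2 (mem_range.2 (Nat.div_lt_of_lt_mul (by rw [mul_comm]; omega)))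
  · rcases lt_trichotomy x y with h | h | h
    · exact absurd e (key x hx y hy h)
    · exact h
    · exact absurd e.symm (key y hy x hx h)

theorem rep {q c d m : ℕ} (hq : 5 ≤ q) (hcd : Nat.Coprime d c) (h1 : q ≤ c) (h2 : c ≤ 2 * q + 3)
    (h3 : q ≤ d) (h4 : d ≤ 2 * q + 3) (hm : 10 * (q * q) ≤ m) :
    ∃ y z, d ∣ y ∧ c ∣ z ∧ q * q ≤ y ∧ q * q ≤ z ∧ y + z = m := by
  have : NeZero c := ⟨by omega⟩
  set v := ((m : ZMod c) * (d : ZMod c)⁻¹ - q).val with hv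
  have h5 : v < c := ZMod.val_lt _
  have h6 : (q + v) * d ≤ (3 * q + 2) * (2 * q + 3) := Nat.mul_le_mul (by omega) h4
  have h7 : q * q ≤ (q + v) * d := Nat.mul_le_mul (by omega) h3
  have h8 : (q + v) * d + q * q ≤ m := by nlinarith
  refine ⟨(q + v) * d, m - (q + v) * d, dvd_mul_left _ _, ?_, h7, by omega, by omega⟩
  rw [← Nat.modEq_iff_dvd' (by omega), ← ZMod.natCast_eq_natCast_iff]
  push_cast
  rw [hv, ZMod.natCast_zmod_val, add_sub_cancel, mul_assoc, mul_comm _ (d : ZMod c),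
    ZMod.coe_mul_inv_eq_one d hcd, mul_one]

open Classical in
theorem sparse (t : ℕ) : #{x ∈ Ico (t * t) ((t + 1) * (t + 1)) | S x} ≤ 192 := by
  have hsub : {x ∈ Ico (t * t) ((t + 1) * (t + 1)) | S x} ⊆
      (Icc (Nat.log 2 t - 2) (Nat.log 2 t)).biUnion fun k =>
        ({2 ^ k, 2 ^ k + 1, 2 * 2 ^ k + 1, 2 * 2 ^ k + 3} : Finset ℕ).biUnion fun e =>
          {x ∈ Ico (t * t) ((t + 1) * (t + 1)) | e ∣ x} := by
    intro x hx
    obtain ⟨h1, k, h2, h3, e, h4, h5⟩ := mem_filter.1 hx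
    refine mem_biUnion.2 ⟨k, ?_, mem_biUnion.2 ⟨e, h4, mem_filter.2 ⟨h1, h5⟩⟩⟩
    obtain ⟨h6, h7⟩ := mem_Ico.1 h1
    have h8 : 2 ^ k ≤ t := Nat.lt_succ_iff.1 (Nat.mul_self_lt_mul_self_iff.1 (h2.trans_lt h7))
    have h9 : t < 2 ^ (k + 3) := Nat.mul_self_lt_mul_self_iff.1 (by rw [pow_add]; nlinarith)
    have h10 : t ≠ 0 := by have := Nat.two_pow_pos k; omega
    have := Nat.le_log_of_pow_le (by norm_num) h8
    have := Nat.log_lt_of_lt_pow h10 h9
    exact mem_Icc.2 ⟨by omega, by omega⟩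
  refine (card_le_card hsub).trans ((card_biUnion_le_card_mul _ _ (4 * 16) fun k hk =>
    (card_biUnion_le_card_mul _ _ 16 fun e he => ?_).trans
      (Nat.mul_le_mul_right _ card_le_four)).trans ?_)
  · have h1 : t < 2 ^ (k + 3) := (Nat.lt_pow_succ_log_self (by norm_num) t).trans_le
      (Nat.pow_le_pow_right (by norm_num) (by have := (mem_Icc.1 hk).1; omega))
    rw [pow_add] at h1
    refine sp _ (t * t) 16 (2 ^ k) (fun x hx => ?_) fun x hx y hy hxy => ?_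
    · have := mem_Ico.1 (mem_filter.1 hx).1
      constructor <;> nlinarith
    · have := Nat.le_of_dvd (by omega) (Nat.dvd_sub (mem_filter.1 hy).2 (mem_filter.1 hx).2)
      simp only [mem_insert, mem_singleton] at he
      omega
  · rw [Nat.card_Icc]; omega

open Classical in
noncomputable def cnt (A : Set ℕ) (x : ℕ) : ℕ := #{y ∈ range x | y ∈ A}

theorem exists_B : ∃ B : Set ℕ, (∀ x, S x → x ∈ B) ∧
    ∀ t, cnt B (t * t) ≤ 192 * t ∧ 192 * t ≤ cnt B (t * t) + 192 * 96 := by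
  classical
  have : ∀ t, ∃ u : Finset ℕ, {x ∈ Ico (t * t) ((t + 1) * (t + 1)) | S x} ⊆ u ∧
      u ⊆ Ico (t * t) ((t + 1) * (t + 1)) ∧ #u = min 192 (2 * t + 1) := fun t => by
    have e : #(Ico (t * t) ((t + 1) * (t + 1))) = 2 * t + 1 := by
      rw [Nat.card_Ico, show (t + 1) * (t + 1) = t * t + (2 * t + 1) by ring]; omega
    exact exists_subsuperset_card_eq (filter_subset _ _)
      (le_min (by convert sparse t) (e ▸ card_filter_le _ _)) (e ▸ min_le_right _ _)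
  choose u h1 h2 h3 using this
  obtain ⟨B, hB⟩ : ∃ B : Set ℕ, ∀ x, x ∈ B ↔ x ∈ u x.sqrt := ⟨{x | x ∈ u x.sqrt}, fun _ => Iff.rfl⟩
  refine ⟨B, fun x hx => (hB x).2 (h1 _ (mem_filter.2 ⟨mem_Ico.2
    ⟨Nat.sqrt_le x, Nat.lt_succ_sqrt x⟩, hx⟩)), ?_⟩
  have key : ∀ t, cnt B ((t + 1) * (t + 1)) = cnt B (t * t) + min 192 (2 * t + 1) := by
    intro t
    rw [← h3, cnt, cnt, ← card_union_of_disjoint (disjoint_left.2 fun x hx hx' => by
      have := mem_range.1 (mem_filter.1 hx).1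
      have := (mem_Ico.1 (h2 t hx')).1
      omega)]
    congr 1
    ext x
    simp only [mem_filter, mem_range, mem_union, hB]
    have e : t * t ≤ x → x < (t + 1) * (t + 1) → x.sqrt = t := fun a b =>
      (Nat.eq_sqrt.2 ⟨a, b⟩).symm
    constructor
    · rintro ⟨a, b⟩
      by_cases c : x < t * t
      · exact Or.inl ⟨c, b⟩
      · rw [e (by omega) a] at b; exact Or.inr b
    · rintro (⟨a, b⟩ | a)
      · exact ⟨by nlinarith, b⟩
      · obtain ⟨b, c⟩ := mem_Ico.1 (h2 t a)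
        exact ⟨c, by rwa [e b c]⟩
  have : ∀ t, cnt B (t * t) ≤ 192 * t ∧ 192 * t ≤ cnt B (t * t) + 192 * min t 96 := by
    intro t
    induction t with
    | zero => simp [cnt]
    | succ t ih => rw [key]; omega
  exact fun t => ⟨(this t).1, by have := (this t).2; omega⟩

theorem damage (X : Finset ℕ) (n : ℕ) (hX : ∀ x ∈ X, n ≤ 2 * x ∧ x ≤ n) :
    ∃ Z : Finset ℕ, #Z ≤ #X * (#X * 640) ∧ (∀ m ∈ Z, n ≤ 2 * m) ∧ ∀ m, 640 ≤ m → m ∉ Z →
      ∃ y z, S y ∧ S z ∧ y ∉ X ∧ z ∉ X ∧ y + z = m ∧ m < 40 * y ∧ m < 40 * z := by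
  refine ⟨X.biUnion fun x => X.biUnion fun y => (Icc (Nat.log 4 n - 3) (Nat.log 4 n)).biUnion
    fun k => ({2 ^ k, 2 ^ k + 1} : Finset ℕ).biUnion fun e =>
      ({2 * 2 ^ k + 1, 2 * 2 ^ k + 3} : Finset ℕ).biUnion fun e' =>
        {m ∈ range (40 * (2 ^ k * 2 ^ k)) | x ≤ m ∧ y ≤ m ∧ e ∣ m - x ∧ e' ∣ m - y}, ?_, ?_, ?_⟩
  · refine card_biUnion_le_card_mul _ _ _ fun x _ => card_biUnion_le_card_mul _ _ _ fun y _ =>
      (card_biUnion_le_card_mul _ _ (2 * (2 * 40)) fun k _ =>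
        (card_biUnion_le_card_mul _ _ (2 * 40) fun e he =>
          (card_biUnion_le_card_mul _ _ 40 fun e' he' => ?_).trans
            (Nat.mul_le_mul_right _ card_le_two)).trans
          (Nat.mul_le_mul_right _ card_le_two)).trans (by rw [Nat.card_Icc]; omega)
    refine sp _ 0 40 (2 ^ k * 2 ^ k) (fun m hm => ⟨Nat.zero_le _, by
      simpa using (mem_filter.1 hm).1⟩) fun m hm m' hm' hlt => ?_
    obtain ⟨-, a1, a2, a3, a4⟩ := mem_filter.1 hm
    obtain ⟨-, b1, b2, b3, b4⟩ := mem_filter.1 hm'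
    have c1 := Nat.dvd_sub b3 a3
    have c2 := Nat.dvd_sub b4 a4
    rw [show m' - x - (m - x) = m' - m by omega] at c1
    rw [show m' - y - (m - y) = m' - m by omega] at c2
    simp only [mem_insert, mem_singleton] at he he'
    have c3 : Nat.Coprime e e' := by
      rcases he with rfl | rfl
      · apply Nat.Coprime.pow_left
        rw [Nat.coprime_two_left]
        rcases he' with rfl | rfl
        · exact ⟨_, rfl⟩
        · exact ⟨2 ^ k + 1, by ring⟩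
      · generalize 2 ^ k = q at he'
        rcases he' with rfl | rfl
        · rw [show 2 * q + 1 = q + (q + 1) by ring]; simp
        · rw [show 2 * q + 3 = 1 + (q + 1) * 2 by ring]; simp
    have c4 := Nat.le_of_dvd (by omega) (c3.mul_dvd_of_dvd_of_dvd c1 c2)
    have c5 : 2 ^ k * 2 ^ k ≤ e * e' := Nat.mul_le_mul (by omega) (by omega)
    omega
  · intro m hm
    simp only [mem_biUnion, mem_filter] at hm
    obtain ⟨x, hx, _, _, _, _, _, _, _, _, _, h, _⟩ := hm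
    have := hX x hx; omega
  intro m hm hZ
  set k := Nat.log 4 (m / 10) with hk
  have e4 : ∀ j, 4 ^ j = 2 ^ j * 2 ^ j := fun j => by rw [← mul_pow]; rfl
  have h1 : 2 ^ k * 2 ^ k ≤ m / 10 := e4 k ▸ Nat.pow_log_le_self 4 (by omega)
  have h2 : m / 10 < 4 ^ (k + 1) := Nat.lt_pow_succ_log_self (by norm_num) _
  rw [pow_succ, e4] at h2
  have h3 : 5 ≤ 2 ^ k := by
    by_contra h
    have : 2 ^ k * 2 ^ k ≤ 4 * 4 := Nat.mul_le_mul (by omega) (by omega)
    omega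
  obtain ⟨y, z, a1, a2, a3, a4, a5⟩ := rep (c := 2 ^ k) (d := 2 ^ k + 1) (m := m) h3 (by simp)
    le_rfl (by omega) (by omega) (by omega) (by omega)
  obtain ⟨y', z', b1, b2, b3, b4, b5⟩ := rep (c := 2 * 2 ^ k + 1) (d := 2 * 2 ^ k + 3) (m := m) h3
    (by rw [show 2 * 2 ^ k + 3 = 2 + (2 * 2 ^ k + 1) by ring, Nat.coprime_add_self_left,
          Nat.coprime_two_left]
        exact ⟨_, rfl⟩) (by omega) (by omega) (by omega) le_rfl (by omega)
  by_cases c1 : y ∉ X ∧ z ∉ X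
  · exact ⟨y, z, ⟨k, a3, by omega, _, by simp, a1⟩, ⟨k, a4, by omega, _, by simp, a2⟩, c1.1, c1.2,
      a5, by omega, by omega⟩
  by_cases c2 : y' ∉ X ∧ z' ∉ X
  · exact ⟨y', z', ⟨k, b3, by omega, _, by simp, b1⟩, ⟨k, b4, by omega, _, by simp, b2⟩, c2.1, c2.2,
      b5, by omega, by omega⟩
  exfalso
  obtain ⟨x, hx, d1, d2, e, he, d3⟩ : ∃ x ∈ X, 2 ^ k * 2 ^ k ≤ x ∧ x ≤ m ∧
      ∃ e ∈ ({2 ^ k, 2 ^ k + 1} : Finset ℕ), e ∣ m - x := by
    by_cases c : y ∈ X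
    · exact ⟨y, c, a3, by omega, 2 ^ k, by simp, by rwa [show m - y = z by omega]⟩
    · exact ⟨z, by tauto, a4, by omega, 2 ^ k + 1, by simp, by rwa [show m - z = y by omega]⟩
  obtain ⟨x', hx', d5, e', he', d6⟩ : ∃ x ∈ X, x ≤ m ∧
      ∃ e ∈ ({2 * 2 ^ k + 1, 2 * 2 ^ k + 3} : Finset ℕ), e ∣ m - x := by
    by_cases c : y' ∈ X
    · exact ⟨y', c, by omega, 2 * 2 ^ k + 1, by simp, by rwa [show m - y' = z' by omega]⟩
    · exact ⟨z', by tauto, by omega, 2 * 2 ^ k + 3, by simp, by rwa [show m - z' = y' by omega]⟩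
  refine hZ (mem_biUnion.2 ⟨x, hx, mem_biUnion.2 ⟨x', hx', mem_biUnion.2 ⟨k, ?_,
    mem_biUnion.2 ⟨e, he, mem_biUnion.2 ⟨e', he', mem_filter.2 ⟨mem_range.2 (by omega),
      d2, d5, d3, d6⟩⟩⟩⟩⟩⟩)
  have := hX x hx
  have f1 : k ≤ Nat.log 4 n := Nat.le_log_of_pow_le (by norm_num) (by rw [e4]; omega)
  have f2 : Nat.log 4 n < k + 4 := Nat.log_lt_of_lt_pow (by omega) (by rw [pow_add, e4]; omega)
  exact mem_Icc.2 ⟨by omega, f1⟩

def U (A : Set ℕ) (a n : ℕ) : Prop := ∀ y ∈ A, ∀ z ∈ A, y + z = n → y = a ∨ z = a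

theorem repair {A : Set ℕ} {a n : ℕ} (Y : Finset ℕ) (hY : ∀ x ∈ A, x ≤ n → x ∈ Y) (hU : U A a n)
    (Z : Finset ℕ) : (∀ m ∈ Z, n ≤ 2 * m ∧ m ≠ n) → 2 * (#Y + 2 * #Z) + 1 < n / 8 →
    ∃ D : Finset ℕ, #D ≤ 2 * #Z ∧ (∀ x ∈ D, n / 8 ≤ x) ∧ U (A ∪ D) a n ∧
      ∀ m ∈ Z, ∃ b ∈ D, ∃ c ∈ D, b + c = m := by
  induction Z using Finset.induction_on with
  | empty => intro _ _; exact ⟨∅, by simp, by simp, by simpa using hU, by simp⟩
  | insert m Z hm ih =>
    intro h1 h2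
    rw [card_insert_of_notMem hm] at h2 ⊢
    obtain ⟨D, h3, h4, h5, h6⟩ := ih (fun m' hm' => h1 m' (mem_insert_of_mem hm')) (by omega)
    obtain ⟨h7, h8⟩ := h1 m (mem_insert_self _ _)
    obtain ⟨b, hb, hb'⟩ := exists_mem_notMem_of_card_lt_card
      (s := insert (m - n / 2) ((Y ∪ D).image (n - ·) ∪ (Y ∪ D).image (· + m - n)))
      (t := Ico (n / 8) (2 * (n / 8))) (by
        have := card_insert_le (m - n / 2) ((Y ∪ D).image (n - ·) ∪ (Y ∪ D).image (· + m - n))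
        have := card_union_le ((Y ∪ D).image (n - ·)) ((Y ∪ D).image (· + m - n))
        have := card_image_le (s := Y ∪ D) (f := (n - ·))
        have := card_image_le (s := Y ∪ D) (f := (· + m - n))
        have := card_union_le Y D
        rw [Nat.card_Ico]; omega)
    rw [mem_Ico] at hb
    simp only [mem_insert, mem_union, mem_image, not_or, not_exists, not_and] at hb'
    obtain ⟨b1, b2, b3⟩ := hb'
    have key : ∀ y, y = b ∨ y = m - b → ∀ z ∈ A ∪ ↑(insert b (insert (m - b) D)), y + z ≠ n := by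
      intro y hy z hz e
      simp only [coe_insert, Set.mem_union, Set.mem_insert_iff, mem_coe] at hz
      have : z ∈ Y ∨ z ∈ D → False := fun h => by
        have := b2 z h; have := b3 z h; omega
      rcases hz with hz | hz | hz | hz
      · exact this (Or.inl (hY z hz (by omega)))
      · omega
      · omega
      · exact this (Or.inr hz)
    refine ⟨insert b (insert (m - b) D), ?_, fun x hx => ?_, fun y hy z hz e => ?_,
      fun m' hm' => ?_⟩
    · have := card_insert_le b (insert (m - b) D)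
      have := card_insert_le (m - b) D
      omega
    · simp only [mem_insert] at hx
      rcases hx with rfl | rfl | hx
      · omega
      · omega
      · exact h4 x hx
    · by_cases c1 : y = b ∨ y = m - b
      · exact absurd e (key y c1 z hz)
      by_cases c2 : z = b ∨ z = m - b
      · exact absurd (by omega) (key z c2 y hy)
      simp only [coe_insert, Set.mem_union, Set.mem_insert_iff, mem_coe] at hy hz
      exact h5 y (by simp only [Set.mem_union, mem_coe]; tauto) z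
        (by simp only [Set.mem_union, mem_coe]; tauto) e
    · rcases mem_insert.1 hm' with rfl | hm'
      · exact ⟨b, by simp, m' - b, by simp, by omega⟩
      · obtain ⟨x, hx, y, hy, e⟩ := h6 m' hm'
        exact ⟨x, by simp [hx], y, by simp [hy], e⟩

def Good (B A : Set ℕ) (T : ℕ) : Prop :=
  (∀ x, T < x → (x ∈ A ↔ x ∈ B)) ∧ ∀ m, 640 ≤ m → ∃ y ∈ A, ∃ z ∈ A, y + z = m

theorem step {B : Set ℕ} (hS : ∀ x, S x → x ∈ B) (hB : ∀ t, cnt B (t * t) ≤ 192 * t) :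
    ∃ K, ∀ A T, Good B A T → ∀ a L, a ∈ A → a ≤ T → ∃ A' T' n, Good B A' T' ∧ L ≤ n ∧ n ≤ T' ∧
      T ≤ T' ∧ U A' a n ∧ ∃ D : Finset ℕ, #D ≤ K ∧ (∀ x ∈ D, T < x) ∧
        ∀ x ∉ D, (x ∈ A' ↔ x ∈ A) := by
  classical
  obtain ⟨K, hK⟩ : ∃ K, K = 385 * 385 := ⟨_, rfl⟩
  obtain ⟨M, hM⟩ : ∃ M, M = K * (K * 640) := ⟨_, rfl⟩
  refine ⟨K + 1 + 2 * M, fun A T hG a L ha haT => ?_⟩
  obtain ⟨t, t1, t2, t3⟩ : ∃ t, T + 1 ≤ t ∧ L ≤ t ∧ 8 * (800 + 4 * M) ≤ t :=
    ⟨T + 1 + L + 8 * (800 + 4 * M), by omega, by omega, by omega⟩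
  set Y := {y ∈ range (2 * t * (2 * t)) | y ∈ A} with hY
  have h1 : #Y ≤ 385 * t := by
    have a1 : Y ⊆ range (T + 1) ∪ {y ∈ range (2 * t * (2 * t)) | y ∈ B} := fun y hy => by
      by_cases c : T < y
      · exact mem_union_right _ (mem_filter.2 ⟨(mem_filter.1 hy).1,
          (hG.1 y c).1 (mem_filter.1 hy).2⟩)
      · exact mem_union_left _ (mem_range.2 (by omega))
    have a2 := (card_le_card a1).trans (card_union_le _ _)
    have a3 := hB (2 * t)
    rw [card_range] at a2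
    unfold cnt at a3
    omega
  have htt : 8 * (800 + 4 * M) * t ≤ t * t := Nat.mul_le_mul_right _ t3
  have hMt : M ≤ M * t := Nat.le_mul_of_pos_right _ (by omega)
  rw [mul_assoc, add_mul, mul_assoc] at htt
  obtain ⟨n, hn, h2⟩ := exists_card_fiber_le_of_card_le_mul (s := Y ×ˢ Y)
    (t := Ico (t * t) (2 * (t * t))) (f := fun p => p.1 + p.2) (n := K)
    (nonempty_Ico.2 (by omega)) (by
      rw [card_product, Nat.card_Ico, show 2 * (t * t) - t * t = t * t by omega, hK]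
      exact (Nat.mul_le_mul h1 h1).trans (le_of_eq (by ring)))
  rw [mem_Ico] at hn
  have hYm : ∀ x ∈ A, x ≤ n → x ∈ Y := fun x hx h =>
    mem_filter.2 ⟨mem_range.2 (by rw [show 2 * t * (2 * t) = 4 * (t * t) by ring]; omega), hx⟩
  set X := {y ∈ Y | n ≤ 2 * y ∧ y ≤ n ∧ n - y ∈ A} with hX
  have h3 : #X ≤ K := le_trans (card_le_card_of_injOn (fun y => (y, n - y)) (fun y hy => by
    obtain ⟨a1, a2, a3, a4⟩ := mem_filter.1 hy
    exact mem_filter.2 ⟨mem_product.2 ⟨a1, hYm _ a4 (Nat.sub_le _ _)⟩, by simp only; omega⟩)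
    fun y _ z _ e => (Prod.mk.inj e).1) h2
  have hX' : ∀ x ∈ X, n ≤ 2 * x ∧ x ≤ n := fun x hx =>
    ⟨(mem_filter.1 hx).2.1, (mem_filter.1 hx).2.2.1⟩
  obtain ⟨Z, z1, z2, z3⟩ := damage X n hX'
  have z4 : #Z ≤ M := z1.trans (hM ▸ Nat.mul_le_mul h3 (Nat.mul_le_mul_right _ h3))
  have hU : U (insert (n - a) (A \ X)) a n := by
    intro y hy z hz e
    rcases hy with rfl | hy
    · omega
    rcases hz with rfl | hz
    · omega
    exfalso
    rcases le_total y z with h | h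
    · exact hz.2 (mem_filter.2 ⟨hYm z hz.1 (by omega), by omega, by omega,
        by rw [show n - z = y by omega]; exact hy.1⟩)
    · exact hy.2 (mem_filter.2 ⟨hYm y hy.1 (by omega), by omega, by omega,
        by rw [show n - y = z by omega]; exact hz.1⟩)
  obtain ⟨D, d1, d2, d3, d4⟩ := repair (insert (n - a) Y) (fun x hx h => by
    rcases hx with rfl | hx
    · exact mem_insert_self _ _
    · exact mem_insert_of_mem (hYm x hx.1 h)) hU (Z.erase n)
    (fun m hm => ⟨z2 m (mem_of_mem_erase hm), ne_of_mem_erase hm⟩) (by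
      have := card_insert_le (n - a) Y
      have := card_erase_le (s := Z) (a := n)
      omega)
  have hD : ∀ x ∉ insert (n - a) X ∪ D, (x ∈ insert (n - a) (A \ X) ∪ (D : Set ℕ) ↔ x ∈ A) := by
    intro x hx
    simp only [mem_union, mem_insert, not_or] at hx
    simp only [Set.mem_union, Set.mem_insert_iff, Set.mem_sdiff, mem_coe]
    tauto
  have hin : ∀ x ∈ A, x ∉ X → x ∈ insert (n - a) (A \ X) ∪ (D : Set ℕ) := fun x h1 h2 =>
    Or.inl (Or.inr ⟨h1, h2⟩)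
  refine ⟨insert (n - a) (A \ X) ∪ D, n + ∑ x ∈ D, x, n, ⟨fun x hx => ?_, fun m hm => ?_⟩,
    by omega, by omega, by omega, d3, insert (n - a) X ∪ D, ?_, fun x hx => ?_, hD⟩
  · rw [hD x, hG.1 x (by omega)]
    simp only [mem_union, mem_insert, not_or]
    refine ⟨⟨by omega, fun h => by have := hX' x h; omega⟩, fun h => ?_⟩
    have := single_le_sum (f := fun x => x) (fun _ _ => Nat.zero_le _) h
    omega
  · by_cases c1 : m = n
    · exact ⟨a, hin a ha fun h => by have := hX' a h; omega, n - a, Or.inl (Or.inl rfl), by omega⟩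
    by_cases c2 : m ∈ Z
    · obtain ⟨b, hb, c, hc, e⟩ := d4 m (mem_erase.2 ⟨c1, c2⟩)
      exact ⟨b, Or.inr hb, c, Or.inr hc, e⟩
    by_cases c3 : 2 * m < n
    · obtain ⟨y, hy, z, hz, e⟩ := hG.2 m hm
      exact ⟨y, hin y hy fun h => by have := hX' y h; omega, z,
        hin z hz fun h => by have := hX' z h; omega, e⟩
    · obtain ⟨y, z, a1, a2, a3, a4, a5, a6, a7⟩ := z3 m hm c2
      exact ⟨y, hin y ((hG.1 y (by omega)).2 (hS y a1)) a3, z,
        hin z ((hG.1 z (by omega)).2 (hS z a2)) a4, a5⟩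
  · have := card_union_le (insert (n - a) X) D
    have := card_insert_le (n - a) X
    have := card_erase_le (s := Z) (a := n)
    omega
  · simp only [mem_union, mem_insert] at hx
    rcases hx with (rfl | hx) | hx
    · omega
    · have := hX' x hx; omega
    · have := d2 x hx; omega

theorem exists_A : ∃ (A : Set ℕ) (E : ℕ), (∀ m, 640 ≤ m → ∃ y ∈ A, ∃ z ∈ A, y + z = m) ∧
    (∀ a ∈ A, ∀ N, ∃ n, N ≤ n ∧ U A a n) ∧ ∀ t, cnt A (t * t) ≤ 192 * t + E * (t.sqrt + 1) ∧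
      192 * t ≤ cnt A (t * t) + E * (t.sqrt + 1) := by
  classical
  obtain ⟨B, hS, hB⟩ := exists_B
  obtain ⟨K, hK⟩ := step hS fun t => (hB t).1
  have h0 : Good B B 0 := ⟨fun _ _ => Iff.rfl, fun m hm => by
    obtain ⟨Z, z1, -, z3⟩ := damage ∅ 0 (by simp)
    obtain ⟨y, z, a1, a2, -, -, a3, -⟩ := z3 m hm (by
      rw [card_empty, zero_mul, Nat.le_zero, card_eq_zero] at z1; simp [z1])
    exact ⟨y, hS y a1, z, hS z a2, a3⟩⟩
  have : ∀ (k : ℕ) (s : {p : Set ℕ × ℕ // Good B p.1 p.2}), ∃ s' : {p : Set ℕ × ℕ // Good B p.1 p.2},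
      s.1.2 ≤ s'.1.2 ∧ (k + 1) ^ 4 ≤ s'.1.2 ∧ (∃ D : Finset ℕ, #D ≤ K ∧ (∀ x ∈ D, s.1.2 < x) ∧
        ∀ x ∉ D, (x ∈ s'.1.1 ↔ x ∈ s.1.1)) ∧ (k.unpair.1 ∈ s.1.1 → k.unpair.1 ≤ s.1.2 →
          ∃ n, k ≤ n ∧ n ≤ s'.1.2 ∧ U s'.1.1 k.unpair.1 n) := by
    rintro k ⟨⟨A, T⟩, hG⟩
    by_cases c : k.unpair.1 ∈ A ∧ k.unpair.1 ≤ T
    · obtain ⟨A', T', n, a1, a2, a3, a4, a5, a6⟩ := hK A T hG _ ((k + 1) ^ 4) c.1 c.2
      have := Nat.le_self_pow (n := 4) (by norm_num) (k + 1)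
      exact ⟨⟨(A', T'), a1⟩, a4, a2.trans a3, a6, fun _ _ => ⟨n, by omega, a3, a5⟩⟩
    · exact ⟨⟨(A, T + (k + 1) ^ 4), fun x hx => hG.1 x (by simp only at hx ⊢; omega), hG.2⟩,
        Nat.le_add_right _ _, Nat.le_add_left _ _, ⟨∅, by simp, by simp, by simp⟩,
        fun h1 h2 => absurd ⟨h1, h2⟩ c⟩
  choose F f1 f2 f3 f4 using this
  let s : ℕ → {p : Set ℕ × ℕ // Good B p.1 p.2} := fun k => Nat.rec ⟨(B, 0), h0⟩ F k
  have hs : ∀ k, s (k + 1) = F k (s k) := fun k => rfl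
  have g1 : ∀ k, k ^ 4 ≤ (s k).1.2 := fun k => by
    cases k with
    | zero => simp
    | succ k => exact f2 k _
  have g1' : ∀ k, k ≤ (s k).1.2 := fun k => (Nat.le_self_pow (by norm_num) k).trans (g1 k)
  have g2 : ∀ k j, k ≤ j → (s k).1.2 ≤ (s j).1.2 ∧
      ∀ x ≤ (s k).1.2, (x ∈ (s j).1.1 ↔ x ∈ (s k).1.1) := by
    intro k j hkj
    induction j, hkj using Nat.le_induction with
    | base => exact ⟨le_rfl, fun _ _ => Iff.rfl⟩
    | succ j _ ih =>
      obtain ⟨D, -, a1, a2⟩ := f3 j (s j)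
      refine ⟨ih.1.trans (f1 j _), fun x hx => (a2 x fun h => ?_).trans (ih.2 x hx)⟩
      have := a1 x h; have := ih.1; omega
  have g3 : ∀ k, ∀ x ≤ (s k).1.2, (x ∈ {x | x ∈ (s x).1.1} ↔ x ∈ (s k).1.1) := fun k x hx =>
    ((g2 x (max x k) (le_max_left _ _)).2 x (g1' x)).symm.trans
      ((g2 k (max x k) (le_max_right _ _)).2 x hx)
  have g4 : ∀ k, ∃ D : Finset ℕ, #D ≤ K * k ∧ ∀ x ∉ D, (x ∈ (s k).1.1 ↔ x ∈ B) := by
    intro k
    induction k with
    | zero => exact ⟨∅, by simp, fun _ _ => Iff.rfl⟩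
    | succ k ih =>
      obtain ⟨D, a1, -, a2⟩ := f3 k (s k)
      obtain ⟨D', a3, a4⟩ := ih
      refine ⟨D ∪ D', (card_union_le _ _).trans (by rw [mul_add]; omega), fun x hx => ?_⟩
      rw [mem_union, not_or] at hx
      exact (a2 x hx.1).trans (a4 x hx.2)
  refine ⟨{x | x ∈ (s x).1.1}, K + 192 * 96, fun m hm => ?_, fun a ha N => ?_, fun t => ?_⟩
  · obtain ⟨y, hy, z, hz, e⟩ := (s m).2.2 m hm
    have := g1' m
    exact ⟨y, (g3 m y (by omega)).2 hy, z, (g3 m z (by omega)).2 hz, e⟩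
  · have a1 : a ≤ (s (Nat.pair a N)).1.2 := (Nat.left_le_pair a N).trans (g1' _)
    obtain ⟨n, a2, a3, a4⟩ := f4 (Nat.pair a N) (s _) (by
      rw [Nat.unpair_pair]; exact (g3 _ a a1).1 ha) (by rwa [Nat.unpair_pair])
    rw [Nat.unpair_pair, ← hs] at a4
    rw [← hs] at a3
    exact ⟨n, (Nat.right_le_pair a N).trans a2, fun y hy z hz e =>
      a4 y ((g3 (Nat.pair a N + 1) y (by omega)).1 hy) z
        ((g3 (Nat.pair a N + 1) z (by omega)).1 hz) e⟩
  · obtain ⟨D, a1, a2⟩ := g4 (t.sqrt + 1)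
    have a3 : t * t ≤ (s (t.sqrt + 1)).1.2 := by
      refine le_trans ?_ (g1 (t.sqrt + 1))
      rw [show (t.sqrt + 1) ^ 4 = (t.sqrt + 1) * (t.sqrt + 1) * ((t.sqrt + 1) * (t.sqrt + 1)) by ring]
      exact Nat.mul_le_mul (Nat.lt_succ_sqrt t).le (Nat.lt_succ_sqrt t).le
    have key : ∀ P Q : Set ℕ, (∀ x < t * t, x ∉ D → x ∈ P → x ∈ Q) →
        cnt P (t * t) ≤ cnt Q (t * t) + #D := fun P Q h => by
      refine le_trans (card_le_card fun x hx => ?_) (card_union_le _ D)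
      obtain ⟨b1, b2⟩ := mem_filter.1 hx
      by_cases c : x ∈ D
      · exact mem_union_right _ c
      · exact mem_union_left _ (mem_filter.2 ⟨b1, h x (mem_range.1 b1) c b2⟩)
    have b1 := key _ B fun x hx hD h => (a2 x hD).1 ((g3 (t.sqrt + 1) x (by omega)).1 h)
    have b2 := key B _ fun x hx hD h => (g3 (t.sqrt + 1) x (by omega)).2 ((a2 x hD).2 h)
    have := hB t
    rw [add_mul]
    omega

theorem limit {A : Set ℕ} {E : ℕ} (hA : A.Infinite)
    (h : ∀ t, cnt A (t * t) ≤ 192 * t + E * (t.sqrt + 1) ∧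
      192 * t ≤ cnt A (t * t) + E * (t.sqrt + 1)) :
    Tendsto (fun k : ℕ => (Nat.nth (· ∈ A) k : ℝ) / ((k : ℝ) + 1) ^ 2) atTop (𝓝 (1 / 192 ^ 2)) := by
  classical
  have hsq : Tendsto Nat.sqrt atTop atTop :=
    tendsto_atTop_atTop.2 fun b => ⟨b * b, fun a ha => Nat.le_sqrt.2 ha⟩
  set t : ℕ → ℕ := fun k => (Nat.nth (· ∈ A) k).sqrt with ht
  have h1 : Tendsto t atTop atTop := hsq.comp (Nat.nth_strictMono hA).tendsto_atTop
  have h2 : Tendsto (fun k => (2 : ℝ) / ((t k).sqrt : ℝ)) atTop (𝓝 0) :=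
    (tendsto_const_div_atTop_nhds_zero_nat 2).comp (hsq.comp h1)
  have hm : Monotone (cnt A) := fun x y hxy =>
    card_le_card (filter_subset_filter _ (range_subset_range.2 hxy))
  have h3 : ∀ k, cnt A (Nat.nth (· ∈ A) k) = k := fun k => by
    have := Nat.count_nth_of_infinite (p := (· ∈ A)) hA k
    rwa [Nat.count_eq_card_filter_range] at this
  have h4 : ∀ᶠ k in atTop, (0 : ℝ) < t k ∧ (((t k).sqrt : ℝ) + 1) / t k ≤ 2 / ((t k).sqrt : ℝ) := by
    filter_upwards [(hsq.comp h1).eventually_ge_atTop 1] with k hk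
    have a1 : (1 : ℝ) ≤ (t k).sqrt := by exact_mod_cast hk
    have a2 : ((t k).sqrt : ℝ) * (t k).sqrt ≤ t k := by exact_mod_cast Nat.sqrt_le (t k)
    have a3 : (0 : ℝ) < t k := by nlinarith
    exact ⟨a3, by rw [div_le_div_iff₀ a3 (by linarith)]; nlinarith⟩
  have h5 : Tendsto (fun k : ℕ => ((k : ℝ) + 1) / t k) atTop (𝓝 192) := by
    refine tendsto_of_tendsto_of_tendsto_of_le_of_le' (by simpa using (h2.const_mul (E : ℝ)).const_sub 192)
      (by simpa using (h2.const_mul (193 + 2 * E : ℝ)).const_add 192) ?_ ?_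
    · filter_upwards [h4] with k hk
      have a1 := (h (t k)).2.trans (Nat.add_le_add_right ((hm (Nat.sqrt_le _)).trans (h3 k).le) _)
      have a2 : (192 : ℝ) * t k ≤ k + E * ((t k).sqrt + 1) := by exact_mod_cast a1
      have a3 := mul_le_mul_of_nonneg_left hk.2 (Nat.cast_nonneg E)
      rw [← mul_div_assoc, div_le_iff₀ hk.1] at a3
      rw [le_div_iff₀ hk.1]; linarith
    · filter_upwards [h4] with k hk
      have a1 := ((h3 k).ge.trans (hm (Nat.lt_succ_sqrt _).le)).trans (h (t k + 1)).1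
      have a0 := Nat.mul_le_mul_left E (Nat.add_le_add_right (Nat.sqrt_succ_le_succ_sqrt (t k)) 1)
      have a2 : (k : ℝ) ≤ 192 * (t k + 1) + E * ((t k).sqrt + 1 + 1) := by
        exact_mod_cast a1.trans (Nat.add_le_add_left a0 _)
      have a3 := mul_le_mul_of_nonneg_left hk.2 (show (0 : ℝ) ≤ 193 + 2 * E by positivity)
      rw [← mul_div_assoc, div_le_iff₀ hk.1] at a3
      rw [div_le_iff₀ hk.1]
      nlinarith [(Nat.cast_nonneg E : (0 : ℝ) ≤ E), (Nat.cast_nonneg (t k).sqrt : (0 : ℝ) ≤ _)]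
  have h6 : Tendsto (fun k : ℕ => (Nat.nth (· ∈ A) k : ℝ) / (t k : ℝ) ^ 2) atTop (𝓝 1) := by
    refine tendsto_of_tendsto_of_tendsto_of_le_of_le' tendsto_const_nhds
      (by simpa using (h2.const_add 1).pow 2) ?_ ?_
    · filter_upwards [h4] with k hk
      rw [one_le_div (pow_pos hk.1 2), sq]; exact_mod_cast Nat.sqrt_le _
    · filter_upwards [h4] with k hk
      have a1 : (Nat.nth (· ∈ A) k : ℝ) ≤ (t k + 1) ^ 2 := by
        rw [sq]; exact_mod_cast (Nat.lt_succ_sqrt _).le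
      refine (div_le_div_of_nonneg_right a1 (by positivity)).trans ?_
      rw [← div_pow, add_div, div_self hk.1.ne']
      have a2 : (1 : ℝ) / t k ≤ 2 / ((t k).sqrt : ℝ) := le_trans (by gcongr; simp) hk.2
      exact pow_le_pow_left₀ (by positivity) (by linarith) 2
  refine (h6.div (h5.pow 2) (by norm_num)).congr' ?_
  filter_upwards [h4] with k hk
  have := hk.1.ne'
  simp only [Pi.div_apply]
  field_simp

end Pool.Agent.H55.MinQuad
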