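import Pool.Agent.H33.DiaDefs

/-! General lemmas (copied from the files of helper33, the last one for an arbitrary index type). -/

open Set Filter Cardinal

namespace Pool.Agent.H55.Nd

theorem gen {ι Y : Type} [Countable ι] (R : ι → Set (Set Y × Set Y))
    (h : ∀ i, ∀ K : Set Y, K.Finite → ∃ p ∈ R i, p.1.Finite ∧ Disjoint p.1 K) :
    ∃ u : Set Y, (∀ i, ∃ p ∈ R i, ∀ b ∈ p.1, b ∈ u ↔ b ∈ p.2) ∧
      ∀ b ∈ u, ∃ i, ∃ p ∈ R i, b ∈ p.1 ∧ b ∈ p.2 := by
  rcases isEmpty_or_nonempty ι with e | e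
  · exact ⟨∅, fun i => e.elim i, fun _ h => h.elim⟩
  obtain ⟨e, he⟩ := exists_surjective_nat ι
  choose p p1 p2 p3 using fun n (K : {K : Set Y // K.Finite}) => h (e n) K K.2
  let K : ℕ → {K : Set Y // K.Finite} := fun n => Nat.rec ⟨∅, finite_empty⟩
    (fun n K => ⟨K ∪ (p n K).1, K.2.union (p2 n K)⟩) n
  have mo : Monotone fun n => (K n).1 := monotone_nat_of_le_succ fun n => subset_union_left
  have d : ∀ n m b, n < m → b ∈ (p n (K n)).1 → b ∉ (p m (K m)).1 := fun n m b h a c =>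
    disjoint_left.1 (p3 m (K m)) c (mo (show n + 1 ≤ m from h) (Or.inr a))
  refine ⟨{b | ∃ n, b ∈ (p n (K n)).1 ∧ b ∈ (p n (K n)).2}, fun i => ?_,
    fun b ⟨n, h⟩ => ⟨_, _, p1 n _, h⟩⟩
  obtain ⟨n, rfl⟩ := he i
  refine ⟨_, p1 n (K n), fun b hb => ⟨fun ⟨m, a, c⟩ => ?_, fun a => ⟨n, hb, a⟩⟩⟩
  rcases lt_trichotomy n m with h | rfl | h
  exacts [absurd a (d n m b h hb), c, absurd hb (d m n b h a)]

theorem rec_e {T α W : Type*} [LinearOrder W] [WellFoundedLT W] [Nonempty α] (e : T → W)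
    (Good : T → (T → α) → α → Prop)
    (loc : ∀ t f g x, (∀ s, e s < e t → f s = g s) → Good t f x → Good t g x)
    (step : ∀ t f, (∀ s, e s < e t → Good s f (f s)) → ∃ x, Good t f x) :
    ∃ f : T → α, ∀ t, Good t f (f t) := by
  classical
  have wf : WellFounded fun s t => e s < e t := InvImage.wf e wellFounded_lt
  let f : T → α := wf.fix fun t prev =>
    Classical.epsilon (Good t fun s => if h : e s < e t then prev s h else Classical.arbitrary α)
  have hf : ∀ t, f t = Classical.epsilon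
      (Good t fun s => if e s < e t then f s else Classical.arbitrary α) := fun t => by
    show wf.fix _ t = _
    rw [WellFounded.fix_eq]
    rfl
  refine ⟨f, fun t => wf.induction (C := fun t => Good t f (f t)) t fun t ih => ?_⟩
  obtain ⟨x, hx⟩ := step t f ih
  have h1 := loc t f (fun s => if e s < e t then f s else Classical.arbitrary α) x
    (fun s hs => by simp [hs]) hx
  have h2 := Classical.epsilon_spec ⟨x, h1⟩
  rw [← hf t] at h2
  exact loc t _ f _ (fun s hs => by simp [hs]) h2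

section
variable {W : Type} [LinearOrder W]

theorem bd [Uncountable W] (hc : ∀ ξ : W, (Iio ξ).Countable) (s : Set W) (hs : s.Countable) :
    ∃ β, ∀ α ∈ s, α < β := by
  by_contra h
  push Not at h
  refine not_countable_univ ((hs.biUnion fun α _ => (hc α).insert α).mono fun β _ => ?_)
  obtain ⟨α, h1, h2⟩ := h β
  exact mem_biUnion h1 h2.eq_or_lt

theorem club [Uncountable W] [WellFoundedLT W] (hc : ∀ ξ : W, (Iio ξ).Countable) (g : W → W)
    (δ : W) : IsClub {β | δ < β ∧ ∀ i < β, g i < β} := by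
  constructor
  · intro s hs ⟨a, ha⟩ _ b hb
    refine ⟨(hs ha).1.trans_le (hb.1 ha), fun i hi => ?_⟩
    obtain ⟨c, hc, hic⟩ := (lt_isLUB_iff hb).1 hi
    exact ((hs hc).2 i hic).trans_le (hb.1 hc)
  · intro a
    choose F hF using fun b : W => bd hc (insert b (g '' Iio b)) (((hc b).image g).insert b)
    let b : ℕ → W := fun n => F^[n] (max a δ)
    have hb : ∀ n, b (n + 1) = F (b n) := fun n => Function.iterate_succ_apply' F n _
    obtain ⟨β, h1, h2⟩ := wellFounded_lt.has_min {β | ∀ α ∈ range b, α < β}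
      (bd hc _ (countable_range b))
    have h0 : max a δ < β := h1 _ ⟨0, rfl⟩
    refine ⟨β, ⟨(le_max_right _ _).trans_lt h0, fun i hi => ?_⟩,
      ((le_max_left _ _).trans_lt h0).le⟩
    obtain ⟨n, hn⟩ : ∃ n, i ≤ b n := by
      by_contra h
      push Not at h
      exact h2 i (forall_mem_range.2 h) hi
    have h3 : i < b (n + 1) := hn.trans_lt (hb n ▸ hF _ _ (Or.inl rfl))
    exact (hF _ _ (Or.inr (mem_image_of_mem g h3))).trans (hb (n + 1) ▸ h1 _ ⟨n + 2, rfl⟩)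

end

theorem cov {P : Type} (x : P → Set P) (hx : ∀ (I : Type) [Uncountable I] (E O : I → Finset P),
    (∀ i k, i ≠ k → Disjoint (E i) (E k)) → ∃ C : Set I, C.Countable ∧
      {α | ¬ ∃ i ∈ C, ∀ b ∈ E i, b ∈ x α ↔ b ∈ O i}.Countable) (N : ℕ) :
    ∀ (S : Set P) (E : P → Finset P), (∀ a ∈ S, (E a).card ≤ N) →
      ∃ T ⊆ S, T.Countable ∧ ∀ a ∈ S, ∃ y ∈ T, ∀ b ∈ E y, b ∈ x a ↔ b ∈ x y := by
  classical
  have z : ∀ (S : Set P) (E : P → Finset P), (∃ y ∈ S, E y = ∅) → ∃ T ⊆ S, T.Countable ∧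
      ∀ a ∈ S, ∃ y ∈ T, ∀ b ∈ E y, b ∈ x a ↔ b ∈ x y := fun S E ⟨y, a, b⟩ =>
    ⟨{y}, singleton_subset_iff.2 a, countable_singleton y, fun x _ => ⟨y, rfl, by simp [b]⟩⟩
  induction N with
  | zero =>
    intro S E a
    rcases S.eq_empty_or_nonempty with rfl | ⟨y, hy⟩
    · exact ⟨∅, subset_rfl, countable_empty, fun _ h => h.elim⟩
    · exact z S E ⟨y, hy, Finset.card_eq_zero.1 (Nat.le_zero.1 (a y hy))⟩
  | succ N ih =>
  intro S E a
  by_cases e : ∃ y ∈ S, E y = ∅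
  · exact z S E e
  push Not at e
  obtain ⟨T, hT⟩ := zorn_subset {T | T ⊆ S ∧ T.Pairwise fun x y => Disjoint (E x) (E y)}
    fun c hc hch => ⟨⋃₀ c, ⟨sUnion_subset fun t ht => (hc ht).1,
      (pairwise_sUnion hch.directedOn).2 fun t ht => (hc ht).2⟩, fun _ => subset_sUnion_of_mem⟩
  by_cases c : T.Countable
  · choose U u1 u2 u3 using fun (β : P) (v : Prop) => ih {a ∈ S | β ∈ E a ∧ (β ∈ x a ↔ v)}
      (fun x => (E x).erase β)
      fun x hx => by have := a x hx.1; rw [Finset.card_erase_of_mem hx.2.1]; omega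
    refine ⟨⋃ y ∈ T, ⋃ β ∈ E y, ⋃ v, U β v, iUnion₂_subset fun _ _ => iUnion₂_subset fun β _ =>
      iUnion_subset fun v x hx => (u1 β v hx).1, c.biUnion fun y _ =>
        (E y).countable_toSet.biUnion fun β _ => countable_iUnion (u2 β), fun x' hx => ?_⟩
    obtain ⟨y, hy, β, b1, b2⟩ : ∃ y ∈ T, ∃ β ∈ E y, β ∈ E x' := by
      by_contra n
      push Not at n
      have d : ∀ y ∈ T, Disjoint (E y) (E x') := fun y hy => Finset.disjoint_left.2 (n y hy)
      obtain ⟨β, hβ⟩ := e x' hx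
      exact n x' (hT.2 (y := insert x' T) ⟨insert_subset hx hT.1.1, hT.1.2.insert
        fun y hy _ => ⟨(d y hy).symm, d y hy⟩⟩ (subset_insert _ _) (mem_insert _ _)) β hβ hβ
    obtain ⟨w, w1, w2⟩ := u3 β _ x' ⟨hx, b2, Iff.rfl⟩
    refine ⟨w, mem_biUnion hy (mem_biUnion b1 (mem_iUnion.2 ⟨_, w1⟩)), fun γ g => ?_⟩
    by_cases f : γ = β
    · exact f ▸ (u1 _ _ w1).2.2.symm
    · exact w2 γ (Finset.mem_erase.2 ⟨f, g⟩)
  · have : Uncountable T := not_countable_iff.1 fun h => c (countable_coe_iff.1 h)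
    obtain ⟨C, c1, c2⟩ := hx T (fun y => E y) (fun y => (E y).filter (· ∈ x y))
      fun i k u => hT.1.2 i.2 k.2 fun v => u (Subtype.ext v)
    refine ⟨_, union_subset (by rintro _ ⟨y, -, rfl⟩; exact hT.1.1 y.2)
      inter_subset_left, (c1.image Subtype.val).union (c2.mono (inter_subset_right (s := S))),
      fun a ha => ?_⟩
    by_cases h : ∃ i ∈ C, ∀ b ∈ E i, b ∈ x a ↔ b ∈ (E i).filter (· ∈ x i)
    · obtain ⟨i, u, v⟩ := h
      exact ⟨i, Or.inl ⟨i, u, rfl⟩, fun b hb => (v b hb).trans (by simp [hb])⟩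
    · exact ⟨a, Or.inr ⟨ha, h⟩, fun _ _ => Iff.rfl⟩

end Pool.Agent.H55.Nd
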