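import Pool.Agent.H55.Nd1

/-! Under diamond: a matrix whose columns are constant above the diagonal. -/

open Set Filter Cardinal Pool.Agent.H33.DiaDefs

namespace Pool.Agent.H55.Nd

abbrev P : Type := W × ℕ
abbrev Y : Type := Finset P × Finset P
abbrev Dt : Type := (ℕ → Y) × (ℕ → Set P)

def X (d : W → Dt) (p : P) : Set P :=
  {q | q.1 < p.1 ∧ q ∈ (d p.1).2 p.2 ∨ p.1 ≤ q.1 ∧ (q.2 ≠ 0 ∨ q = p)}

def Sat (u : Set P) (c : ℕ → Y) : Prop := ∃ n, ∀ b ∈ (c n).1, b ∈ u ↔ b ∈ (c n).2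

def Str (d : W → Dt) (δ : W) (c : ℕ → Y) (r : ℕ → Set P) : Prop :=
  (∀ n, ∀ b ∈ (c n).1, b.1 < δ) ∧ (∀ b, ∀ᶠ n in atTop, b ∉ (c n).1) ∧
    ∃ (k : ℕ) (t : ℕ → ℕ → P), (∀ n, ∀ b ∈ (c n).1, b ∈ (c n).2 → ∃ j < k, t n j = b) ∧
      (∀ n, ∀ j < k, (t n j).1 < δ) ∧
      ∀ j < k, ∀ q : P, q.1 < δ → ∀ᶠ n in atTop, q ∈ X d (t n j) ↔ q ∈ r (j + 1)

def Mis (c : ℕ → Y) (D : Set P) : Prop := ∃ᶠ n in atTop, ∀ b ∈ (c n).1, b ∈ (c n).2 → b ∉ D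

def G (A : W → Set Y) (δ : W) (d : W → Dt) (x : Dt) : Prop :=
  (∀ j, ∀ γ < δ, Sat (x.2 j) (d γ).1) ∧ Str d δ x.1 x.2 ∧
  ((∃ c r, (∀ n, c n ∈ A δ) ∧ Str d δ c r ∧ ∀ j, ∀ γ < δ, Sat (r j) (d γ).1) → ∀ n, x.1 n ∈ A δ) ∧
  ((∀ γ < δ, Mis (d γ).1 {b | ({b}, {b}) ∈ A δ}) → ∀ b ∈ x.2 0, ({b}, {b}) ∉ A δ)

theorem Str.loc {d d' : W → Dt} {δ c r} (h : ∀ s < δ, d s = d' s) (H : Str d δ c r) :
    Str d' δ c r := by
  obtain ⟨h1, h2, k, t, h3, h4, h5⟩ := H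
  refine ⟨h1, h2, k, t, h3, h4, fun j hj q hq => (h5 j hj q hq).mono fun n hn => ?_⟩
  rwa [X, ← h _ (h4 n j hj)]

theorem build (A : W → Set Y) : ∃ d : W → Dt, ∀ δ, G A δ d (d δ) := by
  classical
  refine rec_e (T := W) id (G A) (fun δ f g x h H => ?_) fun δ d ih => ?_
  · refine ⟨fun j γ hγ => h γ hγ ▸ H.1 j γ hγ, H.2.1.loc h, fun ⟨c, r, h1, h2, h3⟩ =>
      H.2.2.1 ⟨c, r, h1, h2.loc fun s hs => (h s hs).symm, fun j γ hγ => (h γ hγ).symm ▸ h3 j γ hγ⟩,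
      fun k => H.2.2.2 fun γ hγ => (h γ hγ).symm ▸ k γ hγ⟩
  obtain ⟨D, d1, d2⟩ : ∃ D : Set P, (∀ γ < δ, Mis (d γ).1 D) ∧
      ((∀ γ < δ, Mis (d γ).1 {b | ({b}, {b}) ∈ A δ}) → D = {b | ({b}, {b}) ∈ A δ}) := by
    by_cases h : ∀ γ < δ, Mis (d γ).1 {b | ({b}, {b}) ∈ A δ}
    · exact ⟨_, h, fun _ => rfl⟩
    · exact ⟨∅, fun γ _ => Frequently.of_forall fun _ _ _ _ h => h, fun k => absurd k h⟩
  have h1 := (cnt δ).to_subtype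
  obtain ⟨u, u1, u2⟩ := gen (ι := Iio δ) (fun γ => {p | ∃ n,
      (∀ b ∈ ((d γ).1 n).1, b ∈ ((d γ).1 n).2 → b ∉ D) ∧
      p = ((((d γ).1 n).1 : Set P), (((d γ).1 n).2 : Set P))}) fun γ K hK => by
    obtain ⟨n, a, b⟩ := ((d1 γ γ.2).and_eventually ((eventually_all_finite hK).2
      fun b _ => (ih γ γ.2).2.1.2.1 b)).exists
    exact ⟨_, ⟨n, a, rfl⟩, Finset.finite_toSet _, disjoint_left.2 fun z h1 h2 => b z h2 h1⟩
  have u3 : ∀ γ < δ, Sat u (d γ).1 := fun γ hγ => by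
    obtain ⟨_, ⟨n, -, rfl⟩, h⟩ := u1 ⟨γ, hγ⟩
    exact ⟨n, h⟩
  have u4 : (∀ γ < δ, Mis (d γ).1 {b | ({b}, {b}) ∈ A δ}) → ∀ b ∈ u, ({b}, {b}) ∉ A δ :=
    fun h b hb => by
      obtain ⟨γ, _, ⟨n, a, rfl⟩, k1, k2⟩ := u2 b hb
      exact fun k => a b k1 k2 ((d2 h).ge k)
  by_cases h : ∃ c r, (∀ n, c n ∈ A δ) ∧ Str d δ c r ∧ ∀ j, ∀ γ < δ, Sat (r j) (d γ).1
  · obtain ⟨c, r, k1, k2, k3⟩ := h
    refine ⟨(c, fun j => Nat.casesOn j u fun j => r (j + 1)), fun j => ?_, by exact k2,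
      fun _ => k1, u4⟩
    cases j with
    | zero => exact u3
    | succ j => exact k3 _
  · exact ⟨(fun _ => (∅, ∅), fun _ => u), fun _ => u3, ⟨by simp, by simp, 0, fun _ _ => (δ, 0),
      by simp, by simp, by simp⟩, fun k => absurd k h, u4⟩

theorem guess (hD : Diamond) : ∃ (A : W → Set Y) (ι : Y → W), ∀ (Z : Set Y) (g : W → W) (β : W),
    ∃ δ, β < δ ∧ (∀ i < δ, g i < δ) ∧ ∀ y, y ∈ A δ ↔ y ∈ Z ∧ ι y < δ := by
  obtain ⟨A, hA⟩ := hD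
  have := unc
  obtain ⟨j⟩ := (Cardinal.le_def Y W).1 (by simp)
  refine ⟨fun δ => j ⁻¹' A δ, j, fun Z g β => ?_⟩
  obtain ⟨δ, h1, h2⟩ := hA (j '' Z) (club cnt g β)
  refine ⟨δ, h2.1, h2.2, fun y => ?_⟩
  rw [mem_preimage, ← show j '' Z ∩ Iio δ = A δ from h1, mem_inter_iff,
    j.injective.mem_set_image, mem_Iio]

theorem cntP (β : W) : {q : P | q.1 ≤ β}.Countable :=
  (((cnt β).insert β).prod (countable_univ (α := ℕ))).mono fun q hq =>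
    mem_prod.2 ⟨(show q.1 ≤ β from hq).eq_or_lt, mem_univ _⟩

theorem x_lt {d : W → Dt} {p q : P} (h : q.1 < p.1) : q ∈ X d p ↔ q ∈ (d p.1).2 p.2 := by
  simp [X, h, h.not_ge]

theorem x_ge {d : W → Dt} {p q : P} (h : p.1 ≤ q.1) : q ∈ X d p ↔ q.2 ≠ 0 ∨ q = p := by
  simp [X, h, h.not_gt]

theorem hfc {A : W → Set Y} {ι : Y → W} (hA : ∀ (Z : Set Y) (g : W → W) (β : W),
    ∃ δ, β < δ ∧ (∀ i < δ, g i < δ) ∧ ∀ y, y ∈ A δ ↔ y ∈ Z ∧ ι y < δ) {d : W → Dt}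
    (hd : ∀ δ, G A δ d (d δ)) (I : Type) [Uncountable I] (E O : I → Finset P)
    (hE : ∀ i k, i ≠ k → Disjoint (E i) (E k)) : ∃ C : Set I, C.Countable ∧
      {α | ¬ ∃ i ∈ C, ∀ b ∈ E i, b ∈ X d α ↔ b ∈ O i}.Countable := by
  classical
  have := unc
  obtain ⟨k, hk⟩ : ∃ k, ¬ {i | (E i ∩ O i).card = k}.Countable := by
    by_contra h
    push Not at h
    exact not_countable_univ ((countable_iUnion h).mono fun i _ => mem_iUnion.2 ⟨(E i ∩ O i).card, rfl⟩)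
  have : ∀ i : {i | (E i ∩ O i).card = k}, ∃ f : ℕ → P, (∀ n < k, f n ∈ E i) ∧
      ∀ b ∈ E i ∩ O i, ∃ n < k, f n = b := by
    rintro ⟨i, rfl⟩
    refine ⟨fun n => if h : n < _ then (E i ∩ O i).equivFin.symm ⟨n, h⟩ else Classical.arbitrary _,
      fun n hn => ?_, fun x hx => ⟨(E i ∩ O i).equivFin ⟨x, hx⟩, Fin.is_lt _, by simp⟩⟩
    simp only [hn, dif_pos]
    exact (Finset.mem_inter.1 (Subtype.property _)).1
  choose f f1 f3 using this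
  obtain ⟨M, hM⟩ : ∃ M : {i | (E i ∩ O i).card = k} → Set (P × ℕ × Prop) → Prop, ∀ i s,
      M i s ↔ ∀ z ∈ s, (z.1 ∈ X d (f i z.2.1) ↔ z.2.2) ∧ z.1 ∉ E i := ⟨_, fun _ _ => Iff.rfl⟩
  have big : ∀ β : W, ∃ i : {i | (E i ∩ O i).card = k}, ∀ b ∈ E i, β < b.1 := fun β => by
    by_contra h
    push Not at h
    refine hk (((cntP β).biUnion fun b _ => (Subsingleton.finite (s := {i | b ∈ E i})
      fun i hi j hj => by_contra fun u => Finset.disjoint_left.1 (hE i j u) hi hj).countable).mono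
      fun i hi => ?_)
    obtain ⟨b, h1, h2⟩ := h ⟨i, hi⟩
    exact mem_biUnion h2 h1
  obtain ⟨β₀⟩ : Nonempty W := inferInstance
  have h1 : ∀ s, ∃ (w : {i | (E i ∩ O i).card = k}) (γ : W), ((∃ i, M i s) → M w s) ∧
      ι (E w, O w) < γ ∧ ∀ b ∈ E w, b.1 < γ := fun s => by
    obtain ⟨w, hw⟩ : ∃ w, (∃ i, M i s) → M w s := by
      by_cases h : ∃ i, M i s
      · exact h.imp fun _ h _ => h
      · exact ⟨(big β₀).choose, fun k => absurd k h⟩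
    obtain ⟨γ, hγ⟩ := bd cnt _ (((E w).countable_toSet.image Prod.fst).insert (ι (E w, O w)))
    exact ⟨w, γ, hw, hγ _ (Or.inl rfl), fun b hb => hγ _ (Or.inr ⟨b, hb, rfl⟩)⟩
  choose w γ w1 w2 w3 using h1
  choose g hg using fun β : W => bd cnt _ ((countable_ofPred_finite_subset
    ((cntP β).prod (countable_univ (α := ℕ × Prop)))).image γ)
  obtain ⟨δ, d1, d2, d3⟩ := hA (range fun i => (E i, O i)) g β₀
  obtain ⟨i₀, hi⟩ := big δ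
  have c0 : {q : P | q.1 < δ}.Countable := (cntP δ).mono fun q (h : q.1 < δ) => h.le
  obtain ⟨e, he⟩ := c0.exists_eq_range ⟨(β₀, 0), d1⟩
  have e1 : ∀ m, (e m).1 < δ := fun m => he.ge ⟨m, rfl⟩
  obtain ⟨s, hs⟩ : ∃ s : ℕ → Set (P × ℕ × Prop), ∀ n, s n =
      (fun z : ℕ × ℕ => (e z.1, z.2, e z.1 ∈ X d (f i₀ z.2))) '' (Iic n ×ˢ Iic k) := ⟨_, fun _ => rfl⟩
  have s1 : ∀ n, M (w (s n)) (s n) := fun n => w1 _ ⟨i₀, (hM _ _).2 (by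
    rw [hs]
    rintro _ ⟨z, -, rfl⟩
    exact ⟨Iff.rfl, fun h => (hi _ h).not_gt (e1 _)⟩)⟩
  have s2 : ∀ n, γ (s n) < δ := fun n => by
    obtain ⟨m, -, m2⟩ := exists_max_image (Iic n) (fun m => (e m).1) (finite_Iic n) ⟨0, Nat.zero_le n⟩
    refine (hg (e m).1 _ ⟨s n, ⟨?_, ?_⟩, rfl⟩).trans (d2 _ (e1 m))
    · rw [hs]; exact ((finite_Iic n).prod (finite_Iic k)).image _
    · rw [hs]
      rintro _ ⟨z, hz, rfl⟩
      exact ⟨m2 _ hz.1, trivial⟩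
  have s3 : ∀ q : P, q.1 < δ → ∀ j ≤ k, ∀ᶠ n in atTop,
      (q ∈ X d (f (w (s n)) j) ↔ q ∈ X d (f i₀ j)) ∧ q ∉ E (w (s n)) := fun q hq j hj => by
    obtain ⟨m, rfl⟩ : q ∈ range e := he.le hq
    filter_upwards [eventually_ge_atTop m] with n hn
    exact (hM _ _).1 (s1 n) (e m, j, e m ∈ X d (f i₀ j)) (by rw [hs]; exact ⟨(m, j), ⟨hn, hj⟩, rfl⟩)
  have sat : ∀ p : P, ∀ γ < p.1, Sat (X d p) (d γ).1 := fun p γ hγ => by
    obtain ⟨n, hn⟩ := (hd p.1).1 p.2 γ hγ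
    exact ⟨n, fun b hb => (x_lt (((hd γ).2.1.1 n b hb).trans hγ)).trans (hn b hb)⟩
  have key := (hd δ).2.2.1 ⟨fun n => (E (w (s n)), O (w (s n))),
    fun j => if j - 1 < k then X d (f i₀ (j - 1)) else X d (δ, 0),
    fun n => (d3 _).2 ⟨⟨_, rfl⟩, (w2 _).trans (s2 n)⟩,
    ⟨fun n b hb => (w3 _ b hb).trans (s2 n), fun b => ?_, k, fun n => f (w (s n)),
      fun n b b1 b2 => f3 _ b (Finset.mem_inter.2 ⟨b1, b2⟩),
      fun n j hj => (w3 _ _ (f1 _ j hj)).trans (s2 n), fun j hj q hq => ?_⟩, fun j γ hγ => ?_⟩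
  · choose i hi using fun n => ((d3 _).1 (key n)).1
    refine ⟨range i, countable_range _, (cntP δ).mono fun p hp =>
      show p.1 ≤ δ from not_lt.1 fun h => hp ?_⟩
    obtain ⟨n, hn⟩ := sat p δ h
    rw [← hi n] at hn
    exact ⟨i n, ⟨n, rfl⟩, hn⟩
  · by_cases h : b.1 < δ
    · exact (s3 b h 0 k.zero_le).mono fun n hn => hn.2
    · exact Eventually.of_forall fun n hn => h ((w3 _ b hn).trans (s2 n))
  · simp only [Nat.add_sub_cancel, hj, if_true]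
    exact (s3 q hq j hj.le).mono fun n hn => hn.1
  · beta_reduce
    split_ifs with h
    · exact sat _ γ (hγ.trans (hi _ (f1 _ _ h)))
    · exact sat _ γ hγ

end Pool.Agent.H55.Nd
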