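import Pool.Agent.H55.OrbDefs
import Pool.Agent.H39.WD1

namespace Pool.Agent.H55.Orb
open Set Filter Topology Cardinal TopologicalSpace

def TT {Y : Type} [TopologicalSpace Y] (y : Y) : Set (Ultrafilter ℕ) :=
  {u | ∃ (U : ℕ → Set Y) (d : ℕ → Y), (∀ n, IsOpen (U n) ∧ d n ∈ U n) ∧ Tendsto d u (𝓝 y) ∧
    ∀ S : Set ℕ, S ∉ u → y ∉ closure (⋃ n ∈ S, U n)}

lemma TT_sub {Y : Type} [TopologicalSpace Y] (h : Y ≃ₜ Y) (y : Y) : TT y ⊆ TT (h y) := by
  rintro u ⟨U, d, h1, h2, h3⟩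
  refine ⟨fun n => h '' U n, fun n => h (d n), fun n => ⟨h.isOpenMap _ (h1 n).1, _, (h1 n).2, rfl⟩,
    (h.continuous.tendsto y).comp h2, fun S hS hc => h3 S hS ?_⟩
  rw [← image_iUnion₂, ← h.image_closure] at hc
  obtain ⟨z, hz, e⟩ := hc
  exact h.injective e ▸ hz

lemma TT_card {Y : Type} [TopologicalSpace Y] {B : Set (Set Y)} (hB : IsTopologicalBasis B)
    (hc : #B ≤ 𝔠) (y : Y) : #(TT y) ≤ 𝔠 := by
  have key : ∀ u : TT y, ∃ V : ℕ → B, ∀ S : Set ℕ, S ∈ u.1 ↔ y ∈ closure (⋃ n ∈ S, (V n : Set Y)) := by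
    rintro ⟨u, U, d, h1, h2, h3⟩
    choose V hV1 hV2 hV3 using fun n => hB.exists_subset_of_mem_open (h1 n).2 (h1 n).1
    refine ⟨fun n => ⟨V n, hV1 n⟩, fun S => ⟨fun hS => ?_, fun hS => ?_⟩⟩
    · exact mem_closure_of_tendsto h2 (mem_of_superset hS fun n hn => mem_biUnion hn (hV2 n))
    · by_contra hn
      exact h3 S hn (closure_mono (iUnion₂_mono fun n _ => hV3 n) hS)
  choose V hV using key
  refine (mk_le_of_injective (f := V) fun a b hab => Subtype.ext (Ultrafilter.ext fun S => ?_)).trans ?_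
  · rw [hV a, hV b, hab]
  · rw [mk_arrow]
    simp only [lift_id, mk_nat]
    exact (power_le_power_right hc).trans continuum_power_aleph0.le

def cl (A : Set ℕ) : Set OmegaStar := {u | A ∈ u.1}

lemma cl_clopen (A : Set ℕ) : IsClopen (cl A) :=
  ⟨(ultrafilter_isClosed_basic A).preimage continuous_subtype_val,
   (ultrafilter_isOpen_basic A).preimage continuous_subtype_val⟩

instance : CompactSpace OmegaStar := by
  refine isCompact_iff_compactSpace.1
    (IsClosed.isCompact (s := {u : Ultrafilter ℕ | ∀ n : ℕ, u ≠ pure n}) ?_)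
  have : {u : Ultrafilter ℕ | ∀ n : ℕ, u ≠ pure n} = ⋂ n : ℕ, {u | ({n}ᶜ : Set ℕ) ∈ u} := by
    ext u
    simp only [mem_ofPred_eq, mem_iInter, Ultrafilter.compl_mem_iff_notMem]
    refine forall_congr' fun n => not_congr ⟨fun h => by simp [h], fun h => ?_⟩
    obtain ⟨x, hx, e⟩ := Ultrafilter.eq_pure_of_finite_mem (finite_singleton n) h
    rw [e, mem_singleton_iff.1 hx]
  rw [this]
  exact isClosed_iInter fun n => ultrafilter_isClosed_basic _

lemma basis_cl : IsTopologicalBasis (range cl) := by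
  have := (ultrafilterBasis_is_basis (α := ℕ)).isInducing
    (IsInducing.subtypeVal (t := {u : Ultrafilter ℕ | ∀ n : ℕ, u ≠ pure n}))
  have e : range cl = (preimage (Subtype.val : OmegaStar → Ultrafilter ℕ)) '' ultrafilterBasis ℕ := by
    ext s
    constructor
    · rintro ⟨A, rfl⟩; exact ⟨_, ⟨A, rfl⟩, rfl⟩
    · rintro ⟨_, ⟨A, rfl⟩, rfl⟩; exact ⟨A, rfl⟩
  rw [e]
  exact this

lemma basis_Y : ∃ B : Set (Set C(OmegaStar, OmegaStar)), IsTopologicalBasis B ∧ #B ≤ 𝔠 := by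
  have h := ContinuousMap.compactOpen_eq_generateFrom (S := range cl) (T := range cl)
    (by rintro _ ⟨A, rfl⟩; exact (cl_clopen A).1.isCompact) basis_cl (by
      intro f x V hV hx
      obtain ⟨K, hK, h1, h2⟩ := basis_cl.exists_subset_of_mem_open (show x ∈ f ⁻¹' V from hx)
        ((basis_cl.isOpen hV).preimage f.continuous)
      exact ⟨K, hK, (basis_cl.isOpen hK).mem_nhds h1, h2⟩)
  refine ⟨_, isTopologicalBasis_of_subbasis h, mk_image_le.trans ?_⟩
  have hr : #(range cl) ≤ 𝔠 := mk_range_le.trans (by simp)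
  have fin : ∀ {α : Type} (s : Set α), #s ≤ 𝔠 → #{t : Set α | t.Finite ∧ t ⊆ s} ≤ 𝔠 := by
    intro α s hs
    have : {t : Set α | t.Finite ∧ t ⊆ s} ⊆ range fun l : List s => {x | ∃ y ∈ l, (y : α) = x} := by
      rintro t ⟨ht, hts⟩
      refine ⟨((ht.preimage Subtype.val_injective.injOn).toFinset).toList, ?_⟩
      ext x
      simp only [Finset.mem_toList, Finite.mem_toFinset, mem_preimage, mem_ofPred_eq]
      exact ⟨by rintro ⟨y, hy, rfl⟩; exact hy, fun hx => ⟨⟨x, hts hx⟩, hx, rfl⟩⟩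
    exact (mk_le_mk_of_subset this).trans (mk_range_le.trans ((mk_list_le_max _).trans
      (max_le aleph0_le_continuum hs)))
  refine fin _ (mk_image2_le.trans ?_)
  exact (mul_le_mul' hr (fin _ hr)).trans continuum_mul_self.le

lemma TT_onto (u : Ultrafilter ℕ) : ∃ y : C(OmegaStar, OmegaStar), u ∈ TT y := by
  let A : ℕ → Set ℕ := fun n => {k | (Nat.unpair k).1 = n}
  have hx : ∀ n, ∃ x : OmegaStar, x ∈ cl (A n) := by
    intro n
    have hi : Function.Injective (Nat.pair n) := fun a b h => (Nat.pair_eq_pair.1 h).2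
    refine ⟨⟨(hyperfilter ℕ).map (Nat.pair n), fun m hm => ?_⟩, ?_⟩
    · have : ({m} : Set ℕ) ∈ (hyperfilter ℕ).map (Nat.pair n) := by rw [hm]; simp
      exact ((finite_singleton m).preimage hi.injOn).notMem_hyperfilter this
    · show Nat.pair n ⁻¹' A n ∈ hyperfilter ℕ
      exact univ_mem' fun k => by simp [A]
  choose x hx using hx
  obtain ⟨p, -, hp⟩ := isCompact_univ.ultrafilter_le_nhds (u.map x) (by simp)
  have hp : Tendsto x u (𝓝 p) := hp
  have hop : ∀ B, IsOpen {g : C(OmegaStar, OmegaStar) | MapsTo g univ (cl B)} := fun B =>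
    ContinuousMap.isOpen_setOfPred_mapsTo isCompact_univ (cl_clopen B).2
  refine ⟨.const _ p, fun n => {g | MapsTo g univ (cl (A n))}, fun n => .const _ (x n),
    fun n => ⟨hop _, fun _ _ => hx n⟩, (ContinuousMap.continuous_const'.tendsto p).comp hp,
    fun S hS hc => ?_⟩
  have hpB : p ∈ cl {k | (Nat.unpair k).1 ∉ S} := by
    refine (cl_clopen _).1.mem_of_tendsto hp
      (mem_of_superset (Ultrafilter.compl_mem_iff_notMem.2 hS) fun n hn => ?_)
    exact mem_of_superset (hx n) fun k hk => by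
      have : (Nat.unpair k).1 = n := hk
      show (Nat.unpair k).1 ∉ S
      rw [this]; exact hn
  obtain ⟨g, hg1, hg2⟩ := mem_closure_iff.1 hc _ (hop {k | (Nat.unpair k).1 ∉ S}) fun _ _ => hpB
  obtain ⟨n, hn, hg2⟩ := mem_iUnion₂.1 hg2
  obtain ⟨k, hk1, hk2⟩ := Ultrafilter.nonempty_of_mem
    (inter_mem (hg1 (mem_univ p)) (hg2 (mem_univ p)))
  have : (Nat.unpair k).1 = n := hk2
  exact hk1 (this ▸ hn)

theorem main : #(range (orbit : C(OmegaStar, OmegaStar) → Set C(OmegaStar, OmegaStar))) = 2 ^ 𝔠 := by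
  obtain ⟨B, hB, hc⟩ := basis_Y
  apply le_antisymm
  · refine mk_range_le.trans ((mk_le_of_injective
      (f := fun (y : C(OmegaStar, OmegaStar)) => {b : B | y ∈ b.1}) fun a b hab => ?_).trans ?_)
    · refine (hB.inseparable_iff.2 fun s hs => ?_).eq
      exact Set.ext_iff.1 hab ⟨s, hs⟩
    · rw [mk_set]; exact power_le_power_left two_ne_zero hc
  · by_contra hlt
    have hlt := not_le.1 hlt
    choose r hr using fun O : range (orbit : C(OmegaStar, OmegaStar) → _) => O.2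
    have hcov : (univ : Set (Ultrafilter ℕ)) ⊆ ⋃ O, TT (r O) := by
      intro u _
      obtain ⟨y, hy⟩ := TT_onto u
      have : y ∈ orbit (r ⟨orbit y, y, rfl⟩) := by rw [hr]; exact ⟨.refl _, rfl⟩
      obtain ⟨h, hh⟩ := this
      refine mem_iUnion.2 ⟨⟨orbit y, y, rfl⟩, ?_⟩
      have := TT_sub h.symm y hy
      rwa [← hh, h.symm_apply_apply] at this
    have h1 : 2 ^ 𝔠 ≤ #(Ultrafilter ℕ) := H39.WD.mk_free.trans (mk_set_le _)
    have h2 := (mk_le_mk_of_subset hcov).trans (mk_iUnion_le_sum_mk.trans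
      ((sum_le_sum _ _ fun O => TT_card hB hc (r O)).trans (sum_const' _ _).le))
    rw [mk_univ] at h2
    exact absurd (h1.trans h2) (not_le.2 (mul_lt_of_lt
      (aleph0_le_continuum.trans (cantor 𝔠).le) hlt (cantor 𝔠)))

end Pool.Agent.H55.Orb
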