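import Pool.Agent.H55.OrbA

namespace Pool.Agent.H55.Orb
open Set Filter Topology TopologicalSpace

def Good {Y : Type} [TopologicalSpace Y] (y : Y) : Prop :=
  ∀ U : ℕ → Set Y, (∀ n, U n ∈ 𝓝 y) → (interior (⋂ n, U n)).Nonempty

lemma Good.map {Y : Type} [TopologicalSpace Y] (h : Y ≃ₜ Y) {y : Y} (hy : Good y) : Good (h y) := by
  intro U hU
  obtain ⟨z, hz⟩ := hy (fun n => h ⁻¹' U n) fun n => h.continuous.continuousAt.preimage_mem_nhds (hU n)
  rw [← preimage_iInter, ← h.preimage_interior] at hz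
  exact ⟨_, hz⟩

lemma not_fin (u : OmegaStar) {s : Set ℕ} (hs : s.Finite) : s ∉ u.1 := fun h => by
  obtain ⟨x, -, e⟩ := Ultrafilter.eq_pure_of_finite_mem hs h
  exact u.2 x e

lemma cl_ne {φ : ℕ → ℕ} (hi : Function.Injective φ) {A : Set ℕ} (h : ∀ k, φ k ∈ A) :
    ∃ x : OmegaStar, x ∈ cl A := by
  refine ⟨⟨(hyperfilter ℕ).map φ, fun m hm => ?_⟩, ?_⟩
  · have : ({m} : Set ℕ) ∈ (hyperfilter ℕ).map φ := by rw [hm]; simp
    exact ((finite_singleton m).preimage hi.injOn).notMem_hyperfilter this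
  · show φ ⁻¹' A ∈ hyperfilter ℕ
    exact univ_mem' h

lemma good_const (x : OmegaStar) : Good (ContinuousMap.const OmegaStar x) := by
  intro U hU
  have hle : (x.1 : Filter ℕ).lift' (fun B => {g : C(OmegaStar, OmegaStar) | MapsTo g univ (cl B)}) ≤
      𝓝 (ContinuousMap.const OmegaStar x) := by
    refine (ContinuousMap.tendsto_nhds_compactOpen (f := id)).2 fun K _ W hW hm => ?_
    rcases K.eq_empty_or_nonempty with rfl | ⟨z, hz⟩
    · exact Eventually.of_forall fun g => mapsTo_empty _ _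
    obtain ⟨_, ⟨B, rfl⟩, h1, h2⟩ := basis_cl.exists_subset_of_mem_open (hm hz) hW
    exact mem_of_superset (mem_lift' (show B ∈ (x.1 : Filter ℕ) from h1))
      fun g hg y _ => h2 (hg (mem_univ y))
  have hmono : Monotone fun B => {g : C(OmegaStar, OmegaStar) | MapsTo g univ (cl B)} :=
    fun a b hab g hg y hy => mem_of_superset (hg hy) hab
  choose B hB1 hB2 using fun n => (mem_lift'_sets hmono).1 (hle (hU n))
  obtain ⟨φ, hφ, h⟩ := extraction_forall_of_frequently (P := fun n k => ∀ i ≤ n, k ∈ B i) fun n => by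
    rw [Nat.frequently_atTop_iff_infinite]
    intro hf
    refine not_fin x hf ?_
    have : ∀ᶠ k in (x.1 : Filter ℕ), ∀ i ∈ Iic n, k ∈ B i :=
      (eventually_all_finite (finite_Iic n)).2 fun i _ => hB1 i
    exact this
  obtain ⟨z, hz⟩ := cl_ne hφ.injective (A := range φ) fun k => ⟨k, rfl⟩
  refine ⟨.const _ z, mem_interior.2 ⟨{g | MapsTo g univ (cl (range φ))}, fun g hg => ?_,
    ContinuousMap.isOpen_setOfPred_mapsTo isCompact_univ (cl_clopen _).2, fun _ _ => hz⟩⟩
  refine mem_iInter.2 fun n => hB2 n fun y hy => ?_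
  have h1 : range φ ∈ (g y).1 := hg hy
  have h2 := Ultrafilter.compl_mem_iff_notMem.2 (not_fin (g y) ((finite_Iio n).image φ))
  refine mem_of_superset (inter_mem h1 h2) ?_
  rintro _ ⟨⟨k, rfl⟩, hk⟩
  exact h k n (not_lt.1 fun hkn => hk ⟨k, hkn, rfl⟩)

lemma dense_fin (g : C(OmegaStar, OmegaStar)) {N : Set C(OmegaStar, OmegaStar)} (hN : IsOpen N)
    (hg : g ∈ N) : ∃ g' ∈ N, (range g').Finite := by
  have h := ContinuousMap.compactOpen_eq_generateFrom (S := range cl) (T := range cl)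
    (by rintro _ ⟨A, rfl⟩; exact (cl_clopen A).1.isCompact) basis_cl (by
      intro f x V hV hx
      obtain ⟨K, hK, h1, h2⟩ := basis_cl.exists_subset_of_mem_open (show x ∈ f ⁻¹' V from hx)
        ((basis_cl.isOpen hV).preimage f.continuous)
      exact ⟨K, hK, (basis_cl.isOpen hK).mem_nhds h1, h2⟩)
  obtain ⟨_, ⟨t, ⟨ht, hts⟩, rfl⟩, h1, h2⟩ :=
    (isTopologicalBasis_of_subbasis h).exists_subset_of_mem_open hg hN
  have : ∀ e : t, ∃ (A : Set ℕ) (W : Set OmegaStar),
      (e : Set C(OmegaStar, OmegaStar)) = {f : C(OmegaStar, OmegaStar) | MapsTo f (cl A) W} := by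
    intro e
    obtain ⟨_, ⟨A, rfl⟩, s, -, he⟩ := hts e.2
    exact ⟨A, _, he.symm⟩
  choose A W hAW using this
  haveI : Finite t := ht.to_subtype
  haveI : Nonempty OmegaStar := (cl_ne (φ := id) (fun _ _ h => h) (A := univ) fun _ => trivial).nonempty
  let pat : OmegaStar → t → Prop := fun y e => y ∈ cl (A e)
  have hlc : IsLocallyConstant pat := by
    refine (IsLocallyConstant.iff_eventually_eq pat).2 fun x => ?_
    have : ∀ᶠ y in 𝓝 x, ∀ e, pat y e = pat x e := by
      refine eventually_all.2 fun e => ?_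
      by_cases hx : x ∈ cl (A e)
      · filter_upwards [(cl_clopen _).2.mem_nhds hx] with y hy
        exact propext ⟨fun _ => hx, fun _ => hy⟩
      · filter_upwards [(cl_clopen _).1.isOpen_compl.mem_nhds hx] with y hy
        exact propext ⟨fun h => absurd h hy, fun h => absurd h hx⟩
    exact this.mono fun y hy => funext hy
  refine ⟨⟨(g ∘ Function.invFun pat) ∘ pat, (hlc.comp _).continuous⟩, h2 fun e he => ?_,
    (finite_range (g ∘ Function.invFun pat)).subset (by rintro _ ⟨y, rfl⟩; exact ⟨pat y, rfl⟩)⟩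
  have h3 := h1 e he
  have h4 := hAW ⟨e, he⟩
  simp only at h4
  rw [h4] at h3 ⊢
  intro y hy
  refine h3 ?_
  have := congrFun (Function.invFun_eq (f := pat) ⟨y, rfl⟩) ⟨e, he⟩
  exact this.mpr hy

lemma not_good (f : OmegaStar ≃ₜ OmegaStar) : ¬ Good (f : C(OmegaStar, OmegaStar)) := by
  intro hG
  let A : ℕ → Set ℕ := fun n => {k | (Nat.unpair k).1 = n}
  choose x hx using fun n => cl_ne (φ := Nat.pair n) (fun a b h => (Nat.pair_eq_pair.1 h).2)
    (A := A n) fun k => by simp [A]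
  obtain ⟨g, hg⟩ := hG (fun n => {g | MapsTo g {f.symm (x n)} (cl (A n))}) fun n =>
    (ContinuousMap.isOpen_setOfPred_mapsTo isCompact_singleton (cl_clopen _).2).mem_nhds
      (by rintro _ rfl; simpa using hx n)
  obtain ⟨g', h1, h2⟩ := dense_fin g isOpen_interior hg
  have h3 : ∀ n, g' (f.symm (x n)) ∈ cl (A n) := fun n =>
    mem_iInter.1 (interior_subset h1) n rfl
  refine Set.infinite_range_of_injective (f := fun n => g' (f.symm (x n))) (fun a b hab => ?_)
    (h2.subset (by rintro _ ⟨n, rfl⟩; exact ⟨_, rfl⟩))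
  have h4 := h3 a
  simp only at hab
  rw [hab] at h4
  obtain ⟨k, hk1, hk2⟩ := Ultrafilter.nonempty_of_mem (inter_mem h4 (h3 b))
  exact (show (Nat.unpair k).1 = a from hk1).symm.trans hk2

theorem sep (x : OmegaStar) (f : OmegaStar ≃ₜ OmegaStar) :
    (f : C(OmegaStar, OmegaStar)) ∉ orbit (ContinuousMap.const OmegaStar x) := by
  rintro ⟨h, hh⟩
  exact not_good f (hh ▸ (good_const x).map h)

end Pool.Agent.H55.Orb
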