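import Mathlib

namespace Pool.Agent.H55.Orb

/-- `ω* = βω ∖ ω`: the non-principal ultrafilters on `ℕ`, a subspace of the Stone space
`Ultrafilter ℕ = βω`. -/
abbrev OmegaStar : Type := {u : Ultrafilter ℕ // ∀ n : ℕ, u ≠ pure n}

/-- The orbit of a point under all autohomeomorphisms of the space. -/
def orbit {Y : Type} [TopologicalSpace Y] (y : Y) : Set Y := {z | ∃ h : Y ≃ₜ Y, h y = z}

end Pool.Agent.H55.Orb
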