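import Pool.Agent.H55.Nd1

/-! An ultrafilter on finite sequences with a countable coinitial sequence above the sky of length. -/

open Set Filter Cardinal

namespace Pool.Agent.H55.PCut

def Big : ℕ → List ℕ → Set (List ℕ) → Prop
  | 0, t, A => t ∈ A
  | k + 1, t, A => {n | Big k (n :: t) A}.Infinite

def Pos (A : Set (List ℕ)) : Prop := ∀ k, ∃ t, Big k t A

theorem lift {A B : Set (List ℕ)} {k : ℕ} (h : ∀ t, Big k t A → Big k t B) (m : ℕ) :
    ∀ t, Big (k + m) t A → Big (k + m) t B := by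
  induction m with
  | zero => exact h
  | succ m ih => exact fun t u => Infinite.mono (fun n => ih (n :: t)) u

theorem Big.mono {A B : Set (List ℕ)} (h : A ⊆ B) {k t} (u : Big k t A) : Big k t B := by
  have := lift (k := 0) (fun _ v => h v) k t
  rw [zero_add] at this
  exact this u

theorem Big.union {A B : Set (List ℕ)} (k : ℕ) :
    ∀ t, Big k t (A ∪ B) → Big k t A ∨ Big k t B := by
  induction k with
  | zero => exact fun _ u => u
  | succ k ih => exact fun t u => infinite_union.1 (Infinite.mono (fun n => ih (n :: t)) u)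

theorem Big.ext {A : Set (List ℕ)} (k : ℕ) :
    ∀ t, Big k t A → Big k t (A ∩ {s | ∃ u : List ℕ, u.length = k ∧ s = u ++ t}) := by
  induction k with
  | zero => exact fun t u => ⟨u, [], rfl, rfl⟩
  | succ k ih =>
    refine fun t u => Infinite.mono (fun n v => (ih (n :: t) v).mono ?_) u
    rintro s ⟨a, w, b, c⟩
    exact ⟨a, w ++ [n], by simp [b], by simp [c]⟩

theorem Big.down {A : Set (List ℕ)} {k : ℕ} (m : ℕ) : ∀ t, Big (k + m) t A → ∃ t, Big k t A := by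
  induction m with
  | zero => exact fun t u => ⟨t, u⟩
  | succ m ih =>
    intro t u
    obtain ⟨n, hn⟩ := Set.Infinite.nonempty u
    exact ih _ hn

theorem pos_of {A : Set (List ℕ)} (h : ∀ k, ∃ m ≥ k, ∃ t, Big m t A) : Pos A := fun k => by
  obtain ⟨m, l, t, u⟩ := h k
  obtain ⟨d, rfl⟩ := Nat.exists_eq_add_of_le l
  exact Big.down d t u

theorem Pos.mono {A B : Set (List ℕ)} (u : Pos A) (h : A ⊆ B) : Pos B :=
  fun k => (u k).imp fun _ v => v.mono h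

theorem Pos.union {A B : Set (List ℕ)} (u : Pos (A ∪ B)) : Pos A ∨ Pos B := by
  by_contra c
  obtain ⟨c1, c2⟩ := not_or.1 c
  obtain ⟨k, a⟩ := not_forall.1 c1
  obtain ⟨m, b⟩ := not_forall.1 c2
  obtain ⟨t, v⟩ := u (k + m)
  rcases Big.union _ t v with v | v
  · exact a (Big.down m t v)
  · rw [add_comm] at v
    exact b (Big.down k t v)

theorem leaf {A : Set (List ℕ)} {k t} (u : Big k t A) :
    ∃ w : List ℕ, w.length = k ∧ w ++ t ∈ A := by
  have := Big.ext k t u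
  rw [← zero_add k] at this
  obtain ⟨s, a, w, b, rfl⟩ := Big.down k t this
  exact ⟨w, by simpa using b, a⟩

theorem pos_univ : Pos univ := fun k => ⟨[], by
  generalize ([] : List ℕ) = t
  induction k generalizing t with
  | zero => trivial
  | succ k ih => exact infinite_univ.mono fun n _ => ih _⟩

theorem step (hd : ∀ G : Set (ℕ → ℕ), #G < 𝔠 → ∃ g : ℕ → ℕ, ∀ f ∈ G, ∃ᶠ n in atTop, f n < g n)
    (S : Set (Set (List ℕ))) (hS : #S < 𝔠) (h1 : ∀ A ∈ S, Pos A)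
    (h2 : ∀ A ∈ S, ∀ B ∈ S, A ∩ B ∈ S) (x : List ℕ → ℕ) : ∃ C, (∀ A ∈ S, Pos (A ∩ C)) ∧
      ((∃ g : ℕ → ℕ, C = {s | x s ≤ g s.length}) ∨ ∃ k, C = {s | s.getD k 0 < x s}) := by
  by_cases c : ∀ A ∈ S, ∀ k, ∃ N t, Big k t (A ∩ {s | x s ≤ N})
  · choose! N t hN using c
    obtain ⟨g, hg⟩ := hd (N '' S) (mk_image_le.trans_lt hS)
    refine ⟨_, fun A hA => pos_of fun k => ?_, Or.inl ⟨fun j => (Finset.range (j + 1)).sup g, rfl⟩⟩
    obtain ⟨m, m1, m2⟩ := frequently_atTop.1 (hg _ ⟨A, hA, rfl⟩) k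
    refine ⟨m, m1, t A m, (Big.ext m _ (hN A hA m)).mono ?_⟩
    rintro _ ⟨⟨a, b⟩, w, e, rfl⟩
    exact ⟨a, le_trans b (m2.le.trans (Finset.le_sup (f := g) (by simp; omega)))⟩
  · push Not at c
    obtain ⟨A₀, a0, k, c⟩ := c
    refine ⟨_, fun A hA => pos_of fun m => ?_, Or.inr ⟨k, rfl⟩⟩
    obtain ⟨t, u⟩ := h1 _ (h2 A hA A₀ a0) (k + 1 + m)
    refine ⟨k + 1 + m, by omega, t, lift (fun t u => ?_) m t u⟩
    refine Set.Infinite.mono (s := {n | Big k (n :: t) (A ∩ A₀)}) (fun n v => ?_) u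
    rcases Big.union k _ (Big.mono (B := A₀ ∩ {s | x s ≤ n} ∪ A ∩ {s | n < x s}) (fun s hs =>
      (le_or_gt (x s) n).imp (fun l => ⟨hs.2, l⟩) fun l => ⟨hs.1, l⟩) v) with w | w
    · exact absurd w (c n _)
    · refine (Big.ext k _ w).mono ?_
      rintro _ ⟨⟨a, b⟩, w, rfl, rfl⟩
      exact ⟨a, by simpa using b⟩

theorem core (hd : ∀ G : Set (ℕ → ℕ), #G < 𝔠 → ∃ g : ℕ → ℕ, ∀ f ∈ G, ∃ᶠ n in atTop, f n < g n) :
    ∃ U : Ultrafilter (List ℕ), (∀ j, {s | s.length = j} ∉ U) ∧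
      (∀ k (g : ℕ → ℕ), {s | s.getD k 0 ≤ g s.length} ∉ U) ∧
      ∀ x : List ℕ → ℕ, (∃ g : ℕ → ℕ, {s | x s ≤ g s.length} ∈ U) ∨
        ∃ k, {s | s.getD k 0 < x s} ∈ U := by
  obtain ⟨e⟩ : Nonempty ((𝔠 : Cardinal.{0}).ord.ToType ≃ (List ℕ → ℕ)) := Cardinal.eq.1 (by simp)
  obtain ⟨B, hB⟩ := Nd.rec_e (T := (𝔠 : Cardinal.{0}).ord.ToType) id (fun τ (B : _ → Set (List ℕ)) C =>
      (∀ F ⊆ Iio τ, F.Finite → Pos (⋂ σ ∈ F, B σ)) →
      (∀ F ⊆ Iio τ, F.Finite → Pos ((⋂ σ ∈ F, B σ) ∩ C)) ∧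
      ((∃ g : ℕ → ℕ, C = {s | e τ s ≤ g s.length}) ∨ ∃ k, C = {s | s.getD k 0 < e τ s}))
    (fun τ f g C h H u => by
      have : ∀ F ⊆ Iio τ, (⋂ σ ∈ F, f σ) = ⋂ σ ∈ F, g σ := fun F l =>
        iInter₂_congr fun σ hσ => h σ (l hσ)
      exact (H fun F l v => this F l ▸ u F l v).imp_left fun w F l v => this F l ▸ w F l v)
    fun τ B _ => by
      by_cases u : ∀ F ⊆ Iio τ, F.Finite → Pos (⋂ σ ∈ F, B σ)
      swap
      · exact ⟨∅, fun v => absurd v u⟩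
      have sm : #{F | F ⊆ Iio τ ∧ F.Finite} < 𝔠 := by
        have l : #(Iio τ) < 𝔠 := (mk_Iio_lt τ (by simp)).trans_eq (by simp)
        have : {F | F ⊆ Iio τ ∧ F.Finite} ⊆ range fun s : List (Iio τ) =>
            Subtype.val '' {z | z ∈ s} := fun F v => by
          refine ⟨(v.2.preimage Subtype.val_injective.injOn).toFinset.toList, ?_⟩
          ext z
          simp only [Finset.mem_toList, Finite.mem_toFinset, mem_preimage, mem_image, mem_ofPred_eq]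
          exact ⟨fun ⟨y, a, b⟩ => b ▸ a, fun a => ⟨⟨z, v.1 a⟩, a, rfl⟩⟩
        exact (mk_le_mk_of_subset this).trans_lt (mk_range_le.trans_lt
          ((mk_list_le_max _).trans_lt (max_lt aleph0_lt_continuum l)))
      obtain ⟨C, c1, c2⟩ := step hd ((fun F => ⋂ σ ∈ F, B σ) '' {F | F ⊆ Iio τ ∧ F.Finite})
        (mk_image_le.trans_lt sm) (by rintro _ ⟨F, v, rfl⟩; exact u F v.1 v.2) (by
          rintro _ ⟨F, v, rfl⟩ _ ⟨G, w, rfl⟩
          exact ⟨F ∪ G, ⟨union_subset v.1 w.1, v.2.union w.2⟩, biInter_union _ _ _⟩) (e τ)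
      exact ⟨C, fun _ => ⟨fun F l v => c1 _ ⟨F, ⟨l, v⟩, rfl⟩, c2⟩⟩
  have all : ∀ F : Finset _, Pos (⋂ σ ∈ F, B σ) := by
    have : ∀ τ, ∀ F ⊆ Iio τ, F.Finite → Pos (⋂ σ ∈ F, B σ) := fun τ => by
      induction τ using WellFoundedLT.induction with
      | ind τ ih =>
      intro F l v
      rcases F.eq_empty_or_nonempty with rfl | ne
      · simpa using pos_univ
      obtain ⟨μ, m1, m2⟩ := v.exists_maximal ne
      refine ((hB μ (ih μ (l m1))).1 (F \ {μ}) (fun z hz => ?_) v.sdiff).mono fun s hs =>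
        mem_iInter₂.2 fun z hz => ?_
      · exact lt_of_le_of_ne (le_of_not_gt fun w => w.not_ge (m2 hz.1 w.le)) hz.2
      · by_cases w : z = μ
        exacts [w ▸ hs.2, mem_iInter₂.1 hs.1 z ⟨hz, w⟩]
    intro F
    classical
    induction F using Finset.induction_on_max with
    | empty => simpa using pos_univ
    | insert μ F hμ _ =>
      rw [Finset.set_biInter_insert, inter_comm]
      exact (hB μ (this μ)).1 F hμ F.finite_toSet
  obtain ⟨I, hI⟩ : ∃ I : Filter (List ℕ), ∀ A, A ∈ I ↔ ¬ Pos Aᶜ :=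
    ⟨⟨{A | ¬ Pos Aᶜ}, fun u => by simpa using (leaf (u 0).choose_spec),
      fun u l v => u (v.mono (compl_subset_compl.2 l)),
      fun u v w => by rw [compl_inter] at w; exact w.union.elim u v⟩, fun _ => Iff.rfl⟩
  have ne : NeBot (I ⊓ ⨅ τ, 𝓟 (B τ)) := by
    rw [← forall_mem_nonempty_iff_neBot]
    intro u hu
    obtain ⟨t₁, h1, t₂, h2, rfl⟩ := mem_inf_iff.1 hu
    obtain ⟨F, hF, V, hV, rfl⟩ := mem_iInf.1 h2
    by_contra c
    refine (hI _).1 h1 ((all hF.toFinset).mono fun s hs v => c ⟨s, v, mem_iInter.2 fun j => hV j ?_⟩)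
    exact mem_iInter₂.1 hs j (hF.mem_toFinset.2 j.2)
  obtain ⟨U, hU⟩ := Ultrafilter.exists_le (I ⊓ ⨅ τ, 𝓟 (B τ))
  have pos : ∀ A ∈ U, Pos A := fun A u => by_contra fun c =>
    Ultrafilter.compl_notMem_iff.2 u (hU (mem_inf_of_left ((hI _).2 (by rwa [compl_compl]))))
  refine ⟨U, fun j u => ?_, fun k g u => ?_, fun x => ?_⟩
  · obtain ⟨t, v⟩ := pos _ u (j + 1)
    obtain ⟨w, a, b⟩ := leaf v
    simp at b
    omega
  · obtain ⟨t, v⟩ := pos _ u (k + 1)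
    obtain ⟨n, n1, n2⟩ := Infinite.exists_gt v (g (k + (t.length + 1)))
    obtain ⟨w, rfl, b⟩ := leaf n1
    simp at b
    omega
  · obtain ⟨τ, rfl⟩ := e.surjective x
    have u : B τ ∈ U := hU (mem_inf_of_right (mem_iInf_of_mem τ (mem_principal_self _)))
    exact (hB τ fun F _ v => by simpa using all v.toFinset).2.imp (fun ⟨g, w⟩ => ⟨g, w ▸ u⟩)
      fun ⟨k, w⟩ => ⟨k, w ▸ u⟩

end Pool.Agent.H55.PCut
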