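import Mathlib
import Pool.Agent.H55.Mark

/-! A tree of step functions on countable ordinals. -/

namespace Pool.Agent.H55.StepTree

open Set
open Cardinal hiding univ
open Pool.Agent.H55.Mark (W Iio_c bdd)

theorem Iic_c (a : W) : (Iic a).Countable := by
  rw [← Iio_insert]; exact (Iio_c a).insert a

theorem mk_W : #W = ℵ_ 1 := mk_ord_toType _

noncomputable def o : W := wellFounded_lt.min univ univ_nonempty

theorem o_le (a : W) : o ≤ a := not_lt.1 (wellFounded_lt.not_lt_min univ (mem_univ a))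

theorem uniq {β γ : W} (h : Nonempty (Iio β ≃o Iio γ)) : β = γ := by
  have key : ∀ {β γ : W}, (Iio γ ≃o Iio β) → ¬ β < γ := by
    intro β γ φ h
    have hm : StrictMono fun x : Iio γ => (⟨(φ x).1, (φ x).2.trans h⟩ : Iio γ) :=
      fun a b hab => (φ.strictMono hab : φ a < φ b)
    have : β ≤ (φ ⟨β, h⟩).1 := hm.le_apply (x := ⟨β, h⟩)
    exact absurd (φ ⟨β, h⟩).2 (not_lt.2 this)
  obtain ⟨φ⟩ := h
  exact le_antisymm (not_lt.1 (key φ)) (not_lt.1 (key φ.symm))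

def Lim : Type := {δ : W // ∃ l : ℕ → W, StrictMono l ∧ IsLUB (range l) δ}

noncomputable def lad (δ : Lim) : ℕ → W := δ.2.choose

theorem lad_mono (δ : Lim) : StrictMono (lad δ) := δ.2.choose_spec.1

theorem lad_lub (δ : Lim) : IsLUB (range (lad δ)) δ.1 := δ.2.choose_spec.2

theorem exists_r : ∃ r : W → ℕ → Bool, Function.Injective r := by
  have : #W ≤ #(ℕ → Bool) := by
    rw [mk_W]; simpa using aleph_one_le_continuum
  obtain ⟨r⟩ := this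
  exact ⟨r, r.injective⟩

noncomputable def r : W → ℕ → Bool := exists_r.choose

noncomputable def kk (p : Lim × W) (n : ℕ) : W := lad p.1 (2 * n + (r p.2 n).toNat)

theorem kk_mono (p : Lim × W) : StrictMono (kk p) :=
  strictMono_nat_of_lt_succ fun n => lad_mono _ (by have := Bool.toNat_le (r p.2 n); omega)

theorem kk_lt (p : Lim × W) (n : ℕ) : kk p n < p.1.1 :=
  (lad_mono _ (Nat.lt_succ_self _)).trans_le ((lad_lub p.1).1 ⟨_, rfl⟩)

theorem kk_cof (p : Lim × W) {ξ : W} (h : ξ < p.1.1) : ∃ n, ξ < kk p n := by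
  obtain ⟨_, ⟨n, rfl⟩, hn⟩ := (lt_isLUB_iff (lad_lub p.1)).1 h
  exact ⟨n, hn.trans_le ((lad_mono _).monotone (by omega))⟩

theorem kk_fin (p : Lim × W) (n : ℕ) : (range (kk p) ∩ Iic (kk p n)).Finite :=
  ((finite_Iic n).image (kk p)).subset (by
    rintro _ ⟨⟨m, rfl⟩, hm⟩
    exact ⟨m, (kk_mono p).le_iff_le.1 hm, rfl⟩)

def Good (R : Set W) : Prop :=
  R.Finite ∨ ∃ p, (R \ range (kk p)).Finite ∧ (range (kk p) \ R).Finite

def Step (α : W) (t : W → W) : Prop :=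
  (∀ ξ < α, ξ < t ξ) ∧ (∀ ξ < α, ∀ η < α, ξ < t η → t ξ ≤ t η) ∧ ∀ ξ, ¬ ξ < α → t ξ = o

def S : Type := {x : W × (W → W) // Step x.1 x.2 ∧ Good (x.2 '' Iio x.1)}

def S.a (x : S) : W := x.1.1
def S.t (x : S) : W → W := x.1.2
def S.R (x : S) : Set W := x.t '' Iio x.a

theorem S.ext' {x y : S} (h : x.a = y.a) (h' : ∀ ξ < x.a, x.t ξ = y.t ξ) : x = y :=
  Subtype.ext (Prod.ext h (funext fun ξ => by
    by_cases hξ : ξ < x.a
    · exact h' ξ hξ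
    · exact (x.2.1.2.2 ξ hξ).trans (y.2.1.2.2 ξ (by rw [h] at hξ; exact hξ)).symm))

theorem S.ext_R {x y : S} (h : x.a = y.a) (h' : x.R = y.R) : x = y := by
  have key : ∀ {x y : S}, x.a = y.a → x.R = y.R → ∀ ξ < x.a, x.t ξ ≤ y.t ξ := by
    intro x y h h' ξ hξ
    obtain ⟨η, hη, e⟩ : y.t ξ ∈ x.R := h' ▸ ⟨ξ, h ▸ hξ, rfl⟩
    rw [← e]
    exact x.2.1.2.1 ξ hξ η hη ((y.2.1.1 ξ (h ▸ hξ :)).trans_eq e.symm)
  exact S.ext' h fun ξ hξ => le_antisymm (key h h' ξ hξ) (key h.symm h'.symm ξ (h ▸ hξ))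

instance : PartialOrder S where
  le x y := x.a ≤ y.a ∧ ∀ ξ < x.a, x.t ξ = y.t ξ
  le_refl _ := ⟨le_rfl, fun _ _ => rfl⟩
  le_trans _ _ _ h k := ⟨h.1.trans k.1, fun ξ hξ => (h.2 ξ hξ).trans (k.2 ξ (hξ.trans_le h.1))⟩
  le_antisymm _ _ h k := S.ext' (le_antisymm h.1 k.1) h.2

theorem le_iff {x y : S} : x ≤ y ↔ x.a ≤ y.a ∧ ∀ ξ < x.a, x.t ξ = y.t ξ := Iff.rfl

theorem lt_a {x y : S} (h : x < y) : x.a < y.a :=
  lt_of_le_of_ne h.le.1 fun e => h.ne (S.ext' e h.le.2)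

theorem lt_of_a {x y : S} (h : x ≤ y) (h' : x.a < y.a) : x < y :=
  lt_of_le_of_ne h fun e => h'.ne (by rw [e])

theorem R_sub {x y : S} (h : x ≤ y) : x.R ⊆ y.R := by
  rintro _ ⟨ξ, hξ, rfl⟩
  exact ⟨ξ, hξ.trans_le h.1, (h.2 ξ hξ).symm⟩

theorem R_sub_Iic {x y : S} (h : x < y) : x.R ⊆ Iic (y.t x.a) := by
  rintro _ ⟨ξ, hξ, rfl⟩
  rw [h.le.2 ξ hξ]
  exact y.2.1.2.1 ξ (hξ.trans (lt_a h)) _ (lt_a h) (hξ.trans (y.2.1.1 _ (lt_a h)))

theorem exists_res (x : S) {β : W} (h : β ≤ x.a) : ∃ y : S, y.a = β ∧ y ≤ x := by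
  classical
  have him : (fun ξ => if ξ < β then x.t ξ else o) '' Iio β = x.t '' Iio β :=
    image_congr fun ξ hξ => if_pos hξ
  have hsub : x.t '' Iio β ⊆ x.R := image_mono (Iio_subset_Iio h)
  refine ⟨⟨(β, fun ξ => if ξ < β then x.t ξ else o), ⟨fun ξ hξ => ?_, fun ξ hξ η hη => ?_,
    fun ξ hξ => if_neg hξ⟩, ?_⟩, rfl, h, fun ξ hξ => if_pos hξ⟩
  · simp only [if_pos hξ]; exact x.2.1.1 ξ (hξ.trans_le h)
  · simp only [if_pos hξ, if_pos hη]; exact x.2.1.2.1 ξ (hξ.trans_le h) η (hη.trans_le h)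
  · simp only [him]
    rcases x.2.2 with hf | ⟨p, h1, h2⟩
    · exact Or.inl (hf.subset hsub)
    by_cases hfin : (range (kk p) ∩ Ioi β).Finite
    · refine Or.inr ⟨p, h1.subset (sdiff_subset_sdiff_left hsub), (h2.union hfin).subset ?_⟩
      rintro a ⟨ha, hn⟩
      by_cases haR : a ∈ x.R
      · obtain ⟨ξ, hξ, rfl⟩ := haR
        refine Or.inr ⟨ha, ?_⟩
        have : β ≤ ξ := not_lt.1 fun h' => hn ⟨ξ, h', rfl⟩
        exact this.trans_lt (x.2.1.1 ξ hξ)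
      · exact Or.inl ⟨ha, haR⟩
    · obtain ⟨a, ⟨⟨n, rfl⟩, ha⟩, hn⟩ := (Infinite.sdiff hfin h2).nonempty
      obtain ⟨η, hη, e⟩ : kk p n ∈ x.R := by
        by_contra h'
        exact hn ⟨⟨n, rfl⟩, h'⟩
      refine Or.inl ((h1.union (kk_fin p n)).subset ?_)
      rintro _ ⟨ξ, hξ, rfl⟩
      by_cases hm : x.t ξ ∈ range (kk p)
      · refine Or.inr ⟨hm, ?_⟩
        rw [← e]
        exact x.2.1.2.1 ξ (hξ.trans_le h) η hη ((hξ.trans ha).trans_eq e.symm)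
      · exact Or.inl ⟨hsub ⟨ξ, hξ, rfl⟩, hm⟩

theorem exists_st (A : Set W) (β : W) (h : ∀ ξ < β, ∃ a ∈ A, ξ < a) :
    ∃ t : W → W, Step β t ∧ ∀ ξ < β, t ξ ∈ A ∧ ∀ a ∈ A, ξ < a → t ξ ≤ a := by
  have : ∀ ξ, ∃ m, (ξ < β → m ∈ A ∧ ξ < m ∧ ∀ a ∈ A, ξ < a → m ≤ a) ∧ (¬ ξ < β → m = o) := by
    intro ξ
    by_cases hξ : ξ < β
    · obtain ⟨m, hm, hmin⟩ := wellFounded_lt.has_min {a | a ∈ A ∧ ξ < a} (h ξ hξ)
      exact ⟨m, fun _ => ⟨hm.1, hm.2, fun a ha h' => not_lt.1 (hmin a ⟨ha, h'⟩)⟩,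
        fun h' => absurd hξ h'⟩
    · exact ⟨o, fun h' => absurd h' hξ, fun _ => rfl⟩
  choose t ht ho using this
  exact ⟨t, ⟨fun ξ hξ => (ht ξ hξ).2.1, fun ξ hξ η hη h' => (ht ξ hξ).2.2 _ (ht η hη).1 h', ho⟩,
    fun ξ hξ => ⟨(ht ξ hξ).1, (ht ξ hξ).2.2⟩⟩

theorem exists_ext (x : S) {β : W} (h : x.a ≤ β) : ∃ y : S, y.a = β ∧ x ≤ y := by
  obtain ⟨c, hc⟩ := bdd ((((Iio_c x.a).image x.t)).insert β)
  obtain ⟨t, ht, hA⟩ := exists_st (insert c x.R) β fun ξ hξ =>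
    ⟨c, Or.inl rfl, hξ.trans (hc β (Or.inl rfl))⟩
  have hag : ∀ ξ < x.a, x.t ξ = t ξ := fun ξ hξ => by
    refine le_antisymm ?_ ((hA ξ (hξ.trans_le h)).2 _ (Or.inr ⟨ξ, hξ, rfl⟩) (x.2.1.1 ξ hξ))
    rcases (hA ξ (hξ.trans_le h)).1 with e | ⟨η, hη, e⟩
    · rw [e]; exact (hc _ (Or.inr ⟨ξ, hξ, rfl⟩)).le
    · rw [← e]; exact x.2.1.2.1 ξ hξ η hη ((ht.1 ξ (hξ.trans_le h)).trans_eq e.symm)
  have h1 : t '' Iio β ⊆ insert c x.R := by
    rintro _ ⟨ξ, hξ, rfl⟩; exact (hA ξ hξ).1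
  have h2 : x.R ⊆ t '' Iio β := by
    rintro _ ⟨ξ, hξ, rfl⟩; exact ⟨ξ, hξ.trans_le h, (hag ξ hξ).symm⟩
  refine ⟨⟨(β, t), ht, ?_⟩, rfl, h, hag⟩
  rcases x.2.2 with hf | ⟨p, k1, k2⟩
  · exact Or.inl ((hf.insert c).subset h1)
  · refine Or.inr ⟨p, (k1.insert c).subset fun a ha => ?_, k2.subset (sdiff_subset_sdiff_right h2)⟩
    rcases h1 ha.1 with e | e
    · exact Or.inl e
    · exact Or.inr ⟨e, ha.2⟩

theorem exists_b (p : Lim × W) : ∃ y : S, y.a = p.1.1 ∧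
    ∀ ξ < p.1.1, y.t ξ ∈ range (kk p) ∧ ∀ n, ξ < kk p n → y.t ξ ≤ kk p n := by
  obtain ⟨t, ht, hA⟩ := exists_st (range (kk p)) p.1.1 fun ξ hξ => by
    obtain ⟨n, hn⟩ := kk_cof p hξ
    exact ⟨_, ⟨n, rfl⟩, hn⟩
  refine ⟨⟨(p.1.1, t), ht, Or.inr ⟨p, finite_empty.subset ?_, (finite_singleton (kk p 0)).subset ?_⟩⟩,
    rfl, fun ξ hξ => ⟨(hA ξ hξ).1, fun n => (hA ξ hξ).2 _ ⟨n, rfl⟩⟩⟩
  · rintro _ ⟨⟨ξ, hξ, rfl⟩, hn⟩
    exact hn (hA ξ hξ).1
  · rintro _ ⟨⟨n, rfl⟩, hn⟩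
    rcases n with _ | n
    · rfl
    · refine absurd ⟨kk p n, kk_lt p n, le_antisymm
        ((hA _ (kk_lt p n)).2 _ ⟨n + 1, rfl⟩ (kk_mono p (Nat.lt_succ_self n))) ?_⟩ hn
      obtain ⟨m, hm⟩ := (hA _ (kk_lt p n)).1
      have := ht.1 _ (kk_lt p n)
      rw [← hm] at this
      exact ((kk_mono p).monotone ((kk_mono p).lt_iff_lt.1 this)).trans_eq hm

theorem iso (x : S) : Nonempty (Iio x ≃o Iio x.a) := by
  refine ⟨RelIso.ofSurjective (OrderEmbedding.ofMapLEIff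
    (fun y : Iio x => (⟨y.1.a, lt_a y.2⟩ : Iio x.a)) fun y z => ⟨fun h => ⟨h, fun ξ hξ => ?_⟩,
      fun h => h.1⟩) fun β => ?_⟩
  · exact ((le_iff.1 (le_of_lt y.2)).2 ξ hξ).trans
      ((le_iff.1 (le_of_lt z.2)).2 ξ (hξ.trans_le h)).symm
  · obtain ⟨y, hy, hyx⟩ := exists_res x β.2.le
    exact ⟨⟨y, lt_of_a hyx (hy ▸ β.2)⟩, Subtype.ext hy⟩

noncomputable def root : S :=
  ⟨(o, fun _ => o), ⟨fun ξ h => absurd h (o_le ξ).not_gt, fun _ _ _ _ _ => le_rfl, fun _ _ => rfl⟩,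
    Or.inl ((finite_singleton o).subset (by rintro _ ⟨_, _, rfl⟩; rfl))⟩

theorem root_le (x : S) : root ≤ x := ⟨o_le _, fun ξ h => absurd h (o_le ξ).not_gt⟩

theorem mk_S : #S ≤ ℵ_ 1 := by
  have : Infinite W := by rw [infinite_iff, mk_W]; exact aleph0_lt_aleph_one.le
  let A : Option (Lim × W) → Set W := fun q => q.elim ∅ fun p => range (kk p)
  have h : ∀ x : S, ∃ q : Option (Lim × W) × Finset W × Finset W,
      x.R = (A q.1 \ q.2.1) ∪ q.2.2 := fun x => by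
    rcases x.2.2 with hf | ⟨p, h1, h2⟩
    · exact ⟨(none, ∅, hf.toFinset), by simp [A]; rfl⟩
    · refine ⟨(some p, h2.toFinset, h1.toFinset), ?_⟩
      simp only [A, Finite.coe_toFinset, Option.elim]
      show x.R = (range (kk p) \ (range (kk p) \ x.R)) ∪ (x.R \ range (kk p))
      ext a
      simp only [mem_union, mem_sdiff]
      tauto
  choose q hq using h
  have h1 : #S ≤ #(W × Option (Lim × W) × Finset W × Finset W) :=
    mk_le_of_injective (f := fun x => (x.a, q x)) fun x y e =>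
      S.ext_R (Prod.mk.inj e).1 (by rw [hq, hq, (Prod.mk.inj e).2])
  have h2 : #Lim ≤ ℵ_ 1 := mk_W ▸ mk_subtype_le _
  have h0 := aleph0_lt_aleph_one.{0}.le
  refine h1.trans ?_
  simp only [mk_prod, lift_id, mk_option, mk_finset_of_infinite, mk_W]
  refine mul_le_of_le h0 le_rfl (mul_le_of_le h0 (add_le_of_le h0 (mul_le_of_le h0 h2 le_rfl)
    (one_le_aleph0.trans h0)) (mul_le_of_le h0 le_rfl le_rfl))

theorem special : ∃ c : S → ℕ, ∀ x y, x < y → c x ≠ c y := by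
  classical
  let U : Set W → Set W := fun R => {a | a ∈ R ∧ (R.Finite ∨ (R ∩ Iic a).Infinite)}
  have hU : ∀ x : S, (U x.R).Finite := fun x => by
    by_cases hf : x.R.Finite
    · exact hf.subset fun a ha => ha.1
    rcases x.2.2 with hf' | ⟨p, h1, -⟩
    · exact absurd hf' hf
    refine h1.subset fun a ha => ⟨ha.1, ?_⟩
    rintro ⟨n, rfl⟩
    refine (ha.2.resolve_left hf) ((h1.union (kk_fin p n)).subset fun b hb => ?_)
    by_cases hm : b ∈ range (kk p)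
    · exact Or.inr ⟨hm, hb.2⟩
    · exact Or.inl ⟨hb.1, hm⟩
  have hc : ∀ V : Set W, ∃ c, V.Countable → ∀ s ∈ V, s < c := fun V => by
    by_cases h : V.Countable
    · exact ⟨_, fun _ => (bdd h).choose_spec⟩
    · exact ⟨o, fun h' => absurd h' h⟩
  choose c hc using hc
  choose e he using fun a : W => countable_iff_exists_injOn.1 (Iic_c a)
  refine ⟨fun x => Encodable.encode (decide x.R.Finite, (U x.R).ncard, e (c (U x.R)) x.a),
    fun x y hxy h => ?_⟩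
  have h := Encodable.encode_injective h
  simp only [Prod.mk.injEq, decide_eq_decide] at h
  obtain ⟨h1, h2, h3⟩ := h
  have hsub : U x.R ⊆ U y.R := fun a ha => ⟨R_sub hxy.le ha.1,
    ha.2.imp h1.1 fun h => h.mono (inter_subset_inter_left _ (R_sub hxy.le))⟩
  have heq : U x.R = U y.R := eq_of_subset_of_ncard_le hsub h2.ge (hU y)
  have hm : y.t x.a ∈ U y.R := ⟨⟨_, lt_a hxy, rfl⟩, by
    by_cases hf : y.R.Finite
    · exact Or.inl hf
    · exact Or.inr (Infinite.mono (subset_inter (R_sub hxy.le) (R_sub_Iic hxy))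
        fun h => hf (h1.1 h))⟩
  have hle : y.a ≤ c (U y.R) := by
    by_contra hlt
    push Not at hlt
    have k1 := y.2.1.1 _ hlt
    by_cases hin : y.t (c (U y.R)) ∈ U y.R
    · exact lt_asymm k1 (hc _ (hU y).countable _ hin)
    · have k2 := hc _ (hU y).countable _ hm
      refine hin ⟨⟨_, hlt, rfl⟩, hm.2.imp id fun h => h.mono (inter_subset_inter_right _
        (Iic_subset_Iic.2 (k2.trans k1).le))⟩
  rw [heq] at h3
  exact (lt_a hxy).ne (he _ ((lt_a hxy).le.trans hle) hle h3)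

theorem no_embed {T : Type*} [PartialOrder T] (ht : T → W) (hm : StrictMono ht)
    (hs : ∀ t, ∀ β < ht t, ∃ s < t, ht s = β)
    (hch : ∀ t : T, ∀ a < t, ∀ b < t, a ≤ b ∨ b ≤ a) (hc : ∀ α, (ht ⁻¹' {α}).Countable)
    (e : S → T) (he : ∀ x y, x ≤ y ↔ e x ≤ e y) : False := by
  have hlt : ∀ x y, x < y → e x < e y := fun x y h =>
    lt_of_le_not_ge ((he x y).1 h.le) fun h' => h.not_ge ((he y x).2 h')
  have hge : ∀ α : W, ∀ x : S, x.a = α → α ≤ ht (e x) := fun α => by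
    induction α using WellFoundedLT.induction with
    | ind α ih =>
      intro x hx
      by_contra h
      push Not at h
      obtain ⟨y, hy, hyx⟩ := exists_res x (h.le.trans_eq hx.symm)
      exact absurd (ih _ h y hy) (hm (hlt _ _ (lt_of_a hyx (by rw [hy, hx]; exact h)))).not_ge
  have hg : ∀ a : W, ∃ g, a < g ∧ ∀ x : S, x.a ≤ a → x.R.Finite → x.R ⊆ Iic a → ht (e x) < g := by
    intro a
    have : {x : S | x.a ≤ a ∧ x.R.Finite ∧ x.R ⊆ Iic a}.Countable :=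
      ((Iic_c a).prod (countable_ofPred_finite_subset (Iic_c a))).preimage_of_injOn
        (f := fun x : S => (x.a, x.R)) fun x _ y _ h =>
          S.ext_R (Prod.mk.inj h).1 (Prod.mk.inj h).2
    obtain ⟨g, hg⟩ := bdd ((this.image fun x => ht (e x)).insert a)
    exact ⟨g, hg a (Or.inl rfl), fun x h1 h2 h3 => hg _ (Or.inr ⟨x, ⟨h1, h2, h3⟩, rfl⟩)⟩
  choose g hg1 hg2 using hg
  let a : ℕ → W := fun n => g^[n] o
  have ha : ∀ n, a (n + 1) = g (a n) := fun n => Function.iterate_succ_apply' g n o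
  have ham : StrictMono a := strictMono_nat_of_lt_succ fun n => ha n ▸ hg1 _
  obtain ⟨c, hc'⟩ := bdd (countable_range a)
  obtain ⟨δ, hδ, hmin⟩ := wellFounded_lt.has_min (upperBounds (range a))
    ⟨c, fun s hs => (hc' s hs).le⟩
  have hlub : IsLUB (range a) δ := ⟨hδ, fun b hb => not_lt.1 (hmin b hb)⟩
  let D : Lim := ⟨δ, a, ham, hlub⟩
  choose B hB1 hB2 using fun ζ : W => exists_b (D, ζ)
  -- projections to level `δ`
  have hp : ∀ ζ, ∃ p, ht p = δ ∧ ∀ y < B ζ, e y < p := fun ζ => by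
    have hlow : ∀ y < B ζ, ht (e y) < δ := fun y hy => by
      have hya : y.a < δ := (lt_a hy).trans_eq (hB1 ζ)
      obtain ⟨m, hm'⟩ := (hB2 ζ _ hya).1
      have hb : (B ζ).t y.a < δ := hm' ▸ kk_lt (D, ζ) m
      obtain ⟨_, ⟨n, rfl⟩, hn⟩ := (lt_isLUB_iff hlub).1 hb
      refine (hg2 (a n) y (((B ζ).2.1.1 _ (lt_a hy)).trans hn).le ((kk_fin (D, ζ) m).subset ?_)
        ((R_sub_Iic hy).trans (Iic_subset_Iic.2 hn.le))).trans_le (ha n ▸ hδ ⟨n + 1, rfl⟩)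
      refine subset_inter ((R_sub hy.le).trans ?_) (hm' ▸ R_sub_Iic hy)
      rintro _ ⟨ξ, hξ, rfl⟩
      exact (hB2 ζ ξ (hξ.trans_eq (hB1 ζ))).1
    rcases (hge δ _ (hB1 ζ)).eq_or_lt with h | h
    · exact ⟨e (B ζ), h.symm, fun y hy => hlt _ _ hy⟩
    · obtain ⟨p, hp, hpδ⟩ := hs _ δ h
      refine ⟨p, hpδ, fun y hy => ?_⟩
      have k := hlow y hy
      rcases hch _ _ (hlt _ _ hy) _ hp with h' | h'
      · exact lt_of_le_of_ne h' fun e' => k.ne (e' ▸ hpδ)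
      · exact absurd (hm.monotone h') (hpδ ▸ k).not_ge
  choose p hp1 hp2 using hp
  have hagree : ∀ ζ ζ', p ζ = p ζ' → ∀ ξ < δ, (B ζ).t ξ = (B ζ').t ξ := by
    intro ζ ζ' h ξ hξ
    obtain ⟨n, hn⟩ := kk_cof (D, ζ) hξ
    have hnδ : kk (D, ζ) n < δ := kk_lt (D, ζ) n
    obtain ⟨y, hy, hyB⟩ := exists_res (B ζ) (hnδ.trans_eq (hB1 ζ).symm).le
    obtain ⟨z, hz, hzB⟩ := exists_res (B ζ') (hnδ.trans_eq (hB1 ζ').symm).le
    rw [← hyB.2 ξ (hy ▸ hn), ← hzB.2 ξ (hz ▸ hn)]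
    rcases hch _ _ (hp2 ζ y (lt_of_a hyB (by rw [hy, hB1]; exact hnδ))) _
      (h ▸ hp2 ζ' z (lt_of_a hzB (by rw [hz, hB1]; exact hnδ))) with h' | h'
    · exact ((he _ _).2 h').2 ξ (hy ▸ hn)
    · exact (((he _ _).2 h').2 ξ (hz ▸ hn)).symm
  have key : ∀ ζ ζ' n, p ζ = p ζ' → r ζ n = false → r ζ' n = true → False := by
    intro ζ ζ' n h h1 h2
    have e1 : kk (D, ζ) n = lad D (2 * n) := by simp [kk, h1]
    have e2 : kk (D, ζ') n = lad D (2 * n + 1) := by simp [kk, h2]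
    have hξ : kk (D, ζ) n < δ := kk_lt (D, ζ) n
    have k1 := (hB2 ζ' _ hξ).2 n (by rw [e1, e2]; exact lad_mono D (Nat.lt_succ_self _))
    obtain ⟨m, hm'⟩ := (hB2 ζ _ hξ).1
    have k2 : kk (D, ζ) n < kk (D, ζ) m := hm' ▸ (B ζ).2.1.1 _ (hξ.trans_eq (hB1 ζ).symm)
    rw [← hagree ζ ζ' h _ hξ, ← hm', e2] at k1
    have k3 := (lad_mono D).le_iff_le.1 k1
    have k4 := (kk_mono _).lt_iff_lt.1 k2
    omega
  have hinj : Function.Injective p := fun ζ ζ' h => exists_r.choose_spec (funext fun n => by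
    show r ζ n = r ζ' n
    cases h1 : r ζ n <;> cases h2 : r ζ' n
    · rfl
    · exact (key ζ ζ' n h h1 h2).elim
    · exact (key ζ' ζ n h.symm h2 h1).elim
    · rfl)
  obtain ⟨b, hb⟩ := bdd (((hc δ).preimage_of_injOn hinj.injOn).mono (s₁ := univ)
    fun ζ _ => hp1 ζ)
  exact lt_irrefl _ (hb b trivial)

end Pool.Agent.H55.StepTree
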