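import Mathlib
import Pool.Agent.H55.StepTree
import Pool.Agent.H42.Reg

/-! Height functions of trees of height at most `ω₁`. -/

namespace Pool.Agent.H55.TreeHt

open Set
open Cardinal hiding univ
open Pool.Agent.H55.Mark (W Iio_c bdd)
open Pool.Agent.H55.StepTree (uniq mk_W)

theorem regW : Pool.Agent.H42.Reg.RegUnc W :=
  ⟨mk_W ▸ aleph0_lt_aleph_one, fun _ hs => bdd (le_aleph0_iff_set_countable.1
    (Order.lt_succ_iff.1 (by rwa [succ_aleph0, ← mk_W]))),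
    fun a => (le_aleph0_iff_set_countable.2 (Iio_c a)).trans_lt (mk_W ▸ aleph0_lt_aleph_one)⟩

theorem exists_ht {T : Type*} [PartialOrder T] (h1 : ∀ t : T, ∃ α : W, Nonempty (Iio t ≃o Iio α)) :
    ∃ ht : T → W, (∀ t α, Nonempty (Iio t ≃o Iio α) ↔ ht t = α) ∧ StrictMono ht ∧
      (∀ t, ∀ β < ht t, ∃ s < t, ht s = β) ∧ ∀ t : T, ∀ a < t, ∀ b < t, a ≤ b ∨ b ≤ a := by
  choose ht hht using h1
  have φ : ∀ t, Iio t ≃o Iio (ht t) := fun t => (hht t).some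
  have hφ : ∀ t (s : Iio t), ht s = (φ t s).1 := fun t s => by
    refine uniq ⟨(φ s).symm.trans (RelIso.ofSurjective (OrderEmbedding.ofMapLEIff
      (fun y : Iio s.1 => (⟨(φ t ⟨y.1, lt_trans y.2 s.2⟩).1,
        (φ t).strictMono (show (⟨y.1, lt_trans y.2 s.2⟩ : Iio t) < s from y.2)⟩ :
          Iio (φ t s).1)) fun y z => (φ t).le_iff_le) fun β => ?_)⟩
    have h0 : β.1 ∈ Iio (ht t) := lt_trans (show β.1 < (φ t s).1 from β.2) (φ t s).2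
    have hβ : (⟨β.1, h0⟩ : Iio (ht t)) < φ t s := β.2
    refine ⟨⟨((φ t).symm ⟨β.1, h0⟩).1, ((φ t).symm_apply_lt.2 hβ :)⟩, Subtype.ext ?_⟩
    have := congrArg Subtype.val ((φ t).apply_symm_apply ⟨β.1, h0⟩)
    exact this
  exact ⟨ht, fun t α => ⟨fun ⟨ψ⟩ => uniq ⟨(φ t).symm.trans ψ⟩, fun h => h ▸ hht t⟩,
    fun s t h => (hφ t ⟨s, h⟩).trans_lt (φ t ⟨s, h⟩).2,
    fun t β h => ⟨((φ t).symm ⟨β, h⟩).1, ((φ t).symm ⟨β, h⟩).2, by
      rw [hφ, OrderIso.apply_symm_apply]⟩,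
    fun t a ha b hb => (le_total (φ t ⟨a, ha⟩) (φ t ⟨b, hb⟩)).imp
      (fun h => ((φ t).le_iff_le.1 h :)) fun h => ((φ t).le_iff_le.1 h :)⟩

end Pool.Agent.H55.TreeHt
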