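import Mathlib
import Pool.Agent.H55.TreeHt

/-! P-points: towers under CH and continuity of monotone maps. -/

namespace Pool.Agent.H55.PPt

open Set Filter
open Cardinal hiding univ
open Pool.Agent.H55.Mark (W Iio_c bdd)

def PP (U : Ultrafilter ℕ) : Prop :=
  ∀ 𝒜 : Set (Set ℕ), 𝒜.Countable → (∀ A ∈ 𝒜, A ∈ U) → ∃ B ∈ U, ∀ A ∈ 𝒜, (B \ A).Finite

theorem inf_of_mem {U : Ultrafilter ℕ} (hU : (U : Filter ℕ) ≤ cofinite) {A : Set ℕ} (h : A ∈ U) :
    A.Infinite := fun hf => (Ultrafilter.compl_mem_iff_notMem.1 (hU hf.compl_mem_cofinite)) h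

theorem split {S : Set ℕ} (h : S.Infinite) :
    ∃ A B, A ⊆ S ∧ B ⊆ S ∧ A.Infinite ∧ B.Infinite ∧ Disjoint A B := by
  let e := h.natEmbedding
  have hi : Function.Injective fun n => (e n).1 := Subtype.val_injective.comp e.injective
  refine ⟨range fun n => (e (2 * n)).1, range fun n => (e (2 * n + 1)).1, ?_, ?_,
    infinite_range_of_injective fun a b h => by have := hi h; omega,
    infinite_range_of_injective fun a b h => by have := hi h; omega, ?_⟩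
  · rintro _ ⟨n, rfl⟩; exact (e _).2
  · rintro _ ⟨n, rfl⟩; exact (e _).2
  · rw [Set.disjoint_left]
    rintro _ ⟨n, rfl⟩ ⟨m, h⟩
    have := hi h
    omega

theorem fin_trans {A B C : Set ℕ} (h : (A \ B).Finite) (k : (B \ C).Finite) : (A \ C).Finite :=
  (h.union k).subset fun x hx => by
    by_cases hB : x ∈ B
    · exact Or.inr ⟨hB, hx.2⟩
    · exact Or.inl ⟨hx.1, hB⟩

theorem le_iff (A B : Set ℕ) : B ∈ cofinite ⊓ 𝓟 A ↔ (A \ B).Finite := by
  rw [mem_inf_principal, mem_cofinite]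
  congr! 1
  ext x
  simp

theorem pseudo {ι : Type} [Countable ι] [LinearOrder ι] (T : ι → Set ℕ)
    (h1 : ∀ i, (T i).Infinite) (h2 : ∀ i j, i < j → (T j \ T i).Finite) :
    ∃ S : Set ℕ, S.Infinite ∧ ∀ i, (S \ T i).Finite := by
  rcases isEmpty_or_nonempty ι with h | h
  · exact ⟨univ, infinite_univ, fun i => h.elim i⟩
  have hanti : Antitone fun i => cofinite ⊓ 𝓟 (T i) := antitone_iff_forall_lt.2 fun i j hij =>
    le_inf inf_le_left (le_principal_iff.2 ((le_iff _ _).2 (h2 i j hij)))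
  have : NeBot (⨅ i, cofinite ⊓ 𝓟 (T i)) :=
    iInf_neBot_of_directed' hanti.directed_ge fun i => (h1 i).cofinite_inf_principal_neBot
  have : (cofinite : Filter ℕ).IsCountablyGenerated := by
    rw [Nat.cofinite_eq_atTop]; infer_instance
  obtain ⟨x, hx⟩ := exists_seq_tendsto (⨅ i, cofinite ⊓ 𝓟 (T i))
  rw [tendsto_iInf] at hx
  refine ⟨range x, fun hf => ?_, fun i => ?_⟩
  · have : ∀ᶠ n in atTop, x n ∈ (range x)ᶜ :=
      (hx h.some).mono_right inf_le_left hf.compl_mem_cofinite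
    obtain ⟨n, hn⟩ := this.exists
    exact hn ⟨n, rfl⟩
  · have : ∀ᶠ n in cofinite, x n ∈ T i := by
      rw [Nat.cofinite_eq_atTop]
      exact (hx i).mono_right inf_le_right (mem_principal_self _)
    refine ((eventually_cofinite.1 this).image x).subset ?_
    rintro _ ⟨⟨n, rfl⟩, hn⟩
    exact ⟨n, hn, rfl⟩

theorem tower (E : W → Set ℕ) (hE : Function.Surjective E) (G : W → Set (Set ℕ)) :
    ∃ U : Ultrafilter ℕ, (U : Filter ℕ) ≤ cofinite ∧ PP U ∧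
      ∀ α, ¬ ∀ A, A ∈ G α ↔ A ∈ U := by
  let P : W → (W → Set ℕ) → Set ℕ → Prop := fun δ T S => S.Infinite ∧ (∀ i < δ, (S \ T i).Finite) ∧
    (S ⊆ E δ ∨ S ⊆ (E δ)ᶜ) ∧ ((∀ A ∈ G δ, ∀ B ∈ G δ, ¬ Disjoint A B) → S ∉ G δ)
  obtain ⟨T, hT⟩ := Pool.Agent.H42.Reg.exists_rec (T := W) (∅ : Set ℕ)
    (fun δ T => Classical.epsilon (P δ T)) fun δ T T' h => by
      congr 1
      funext S
      simp only [P]
      rw [show (∀ i < δ, (S \ T i).Finite) = (∀ i < δ, (S \ T' i).Finite) from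
        forall_congr fun i => forall_congr fun hi => by rw [h i hi]]
  have hP : ∀ δ, P δ T (T δ) := fun δ => by
    induction δ using WellFoundedLT.induction with
    | ind δ ih =>
      rw [hT δ]
      refine Classical.epsilon_spec (p := P δ T) ?_
      have := (Iio_c δ).to_subtype
      obtain ⟨S, h1, h2⟩ := pseudo (fun i : Iio δ => T i) (fun i => (ih i i.2).1)
        fun i j hij => (ih j j.2).2.1 i hij
      obtain ⟨S', k1, k2, k3⟩ : ∃ S' ⊆ S, S'.Infinite ∧ (S' ⊆ E δ ∨ S' ⊆ (E δ)ᶜ) := by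
        rw [← inter_union_compl S (E δ), infinite_union] at h1
        rcases h1 with h | h
        · exact ⟨_, inter_subset_left, h, Or.inl inter_subset_right⟩
        · exact ⟨_, inter_subset_left, h, Or.inr inter_subset_right⟩
      obtain ⟨A, B, a1, b1, a2, b2, hAB⟩ := split k2
      have key : ∀ C ⊆ S', C.Infinite →
          ((∀ A ∈ G δ, ∀ B ∈ G δ, ¬ Disjoint A B) → C ∉ G δ) → P δ T C := fun C c1 c2 c3 =>
        ⟨c2, fun i hi => (h2 ⟨i, hi⟩).subset (sdiff_subset_sdiff_left (c1.trans k1)),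
          k3.imp c1.trans c1.trans, c3⟩
      by_cases hA : A ∈ G δ
      · exact ⟨B, key B b1 b2 fun h hB => h A hA B hB hAB⟩
      · exact ⟨A, key A a1 a2 fun _ => hA⟩
  have hanti : Antitone fun i => cofinite ⊓ 𝓟 (T i) := antitone_iff_forall_lt.2 fun i j hij =>
    le_inf inf_le_left (le_principal_iff.2 ((le_iff _ _).2 ((hP j).2.1 i hij)))
  have hne : NeBot (⨅ i, cofinite ⊓ 𝓟 (T i)) :=
    iInf_neBot_of_directed' hanti.directed_ge fun i => (hP i).1.cofinite_inf_principal_neBot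
  let U := Ultrafilter.of (⨅ i, cofinite ⊓ 𝓟 (T i))
  have hU : ∀ i, (U : Filter ℕ) ≤ cofinite ⊓ 𝓟 (T i) := fun i =>
    (Ultrafilter.of_le _).trans (iInf_le _ i)
  have hTU : ∀ i, T i ∈ U := fun i => le_principal_iff.1 ((hU i).trans inf_le_right)
  refine ⟨U, (hU (Classical.arbitrary W)).trans inf_le_left, fun 𝒜 hc h => ?_, fun α h => ?_⟩
  · have : ∀ A ∈ 𝒜, ∃ i, T i ⊆ A := fun A hA => by
      obtain ⟨i, rfl⟩ := hE A
      rcases (hP i).2.2.1 with k | k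
      · exact ⟨i, k⟩
      · exact absurd (h _ hA) (Ultrafilter.compl_mem_iff_notMem.1 (mem_of_superset (hTU i) k))
    choose! i hi using this
    obtain ⟨b, hb⟩ := bdd (hc.image i)
    exact ⟨T b, hTU b, fun A hA => ((hP b).2.1 _ (hb _ ⟨A, hA, rfl⟩)).subset
      (sdiff_subset_sdiff_right (hi A hA))⟩
  · refine (hP α).2.2.2 (fun A hA B hB hd => ?_) ((h _).2 (hTU α))
    exact (Ultrafilter.nonempty_of_mem (inter_mem ((h A).1 hA) ((h B).1 hB))).ne_empty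
      (disjoint_iff_inter_eq_empty.1 hd)

theorem diag {V : Ultrafilter ℕ} (hP : PP V) (Z : ℕ → Set ℕ)
    (hZ : ∀ n, Z n ∈ V) : ∃ X ∈ V, ∀ k, ∃ n ≥ k, X \ Iio n ⊆ Z n := by
  obtain ⟨B, hB, h⟩ := hP (range Z) (countable_range Z) (by rintro _ ⟨n, rfl⟩; exact hZ n)
  have : ∀ n, ∃ m > n, ∀ x ∈ B, m ≤ x → x ∈ Z n := fun n => by
    obtain ⟨m, hm⟩ := (h _ ⟨n, rfl⟩).bddAbove
    refine ⟨max m n + 1, by omega, fun x hx hmx => ?_⟩
    by_contra hn
    have := hm ⟨hx, hn⟩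
    omega
  choose g hg1 hg2 using this
  let a : ℕ → ℕ := fun j => g^[j] 0
  have ha : ∀ j, a (j + 1) = g (a j) := fun j => Function.iterate_succ_apply' g j 0
  have ham : StrictMono a := strictMono_nat_of_lt_succ fun j => ha j ▸ hg1 _
  have key : ∀ r, (⋃ j, Ico (a (2 * j + r)) (a (2 * j + r + 1)))ᶜ ∈ V →
      ∃ X ∈ V, ∀ k, ∃ n ≥ k, X \ Iio n ⊆ Z n := fun r hr => by
    refine ⟨_, inter_mem hB hr, fun k => ⟨a (2 * k + r), le_trans (by omega) ham.le_apply, ?_⟩⟩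
    rintro x ⟨⟨h1, h2⟩, h3⟩
    refine hg2 _ x h1 (not_lt.1 fun h4 => h2 (mem_iUnion.2 ⟨k, not_lt.1 h3, ?_⟩))
    rwa [ha]
  by_cases h0 : (⋃ j, Ico (a (2 * j + 0)) (a (2 * j + 0 + 1)))ᶜ ∈ V
  · exact key 0 h0
  · refine key 1 (mem_of_superset (Ultrafilter.compl_notMem_iff.1 h0) ?_)
    intro x hx hx'
    obtain ⟨i, h1, h2⟩ := mem_iUnion.1 hx
    obtain ⟨j, h3, h4⟩ := mem_iUnion.1 hx'
    have k1 := ham.lt_iff_lt.1 (h1.trans_lt h4)
    have k2 := ham.lt_iff_lt.1 (h3.trans_lt h2)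
    omega

open Classical in
theorem cont {V : Ultrafilter ℕ} (hV : (V : Filter ℕ) ≤ cofinite) (hP : PP V)
    (g : Set ℕ → Set ℕ) (hg : ∀ A ∈ V, ∀ B, A ⊆ B → g A ⊆ g B) :
    ∃ X ∈ V, ∃ c : Finset ℕ → ℕ → Set ℕ, ∀ Y ∈ V, Y ⊆ X →
      g Y = ⋂ n, c ((Finset.range n).filter (· ∈ Y)) n := by
  have hcof : ∀ A ∈ V, ∀ n, A \ Iio n ∈ V := fun A hA n =>
    inter_mem hA (hV (finite_Iio n).compl_mem_cofinite)
  have h1 : ∀ (n : ℕ) (s : Finset ℕ) (k : ℕ), ∃ Z ∈ V,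
      (∃ Y ∈ V, k ∉ g (↑s ∪ (Y \ Iio n))) → k ∉ g (↑s ∪ (Z \ Iio n)) := fun n s k => by
    by_cases h : ∃ Y ∈ V, k ∉ g (↑s ∪ (Y \ Iio n))
    · obtain ⟨Y, h1, h2⟩ := h
      exact ⟨Y, h1, fun _ => h2⟩
    · exact ⟨univ, univ_mem, fun h' => absurd h' h⟩
  choose Z hZ1 hZ2 using h1
  obtain ⟨X, hX, hd⟩ := diag hP
    (fun n => ⋂ s ∈ (Finset.range n).powerset, ⋂ k ∈ Finset.range (n + 1), Z n s k) fun n =>
      (biInter_finset_mem _).2 fun s _ => (biInter_finset_mem _).2 fun k _ => hZ1 n s k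
  have hY : ∀ (Y : Set ℕ) n, ↑((Finset.range n).filter (· ∈ Y)) ∪ (Y \ Iio n) = Y := fun Y n => by
    ext x
    simp only [Finset.coe_filter, Finset.mem_range, mem_union, mem_ofPred_eq, Set.mem_sdiff,
      mem_Iio]
    tauto
  refine ⟨X, hX, fun s n => g (↑s ∪ (X \ Iio n)), fun Y hYV hYX => Subset.antisymm
    (subset_iInter fun n => hg Y hYV _ ((hY Y n).symm.subset.trans
      (union_subset_union_right _ (sdiff_subset_sdiff_left hYX)))) fun k hk => ?_⟩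
  by_contra hn
  obtain ⟨n, h2, h3⟩ := hd k
  refine hZ2 n ((Finset.range n).filter (· ∈ Y)) k ⟨Y, hYV, by rwa [hY]⟩
    (hg _ (mem_of_superset (hcof X hX n) subset_union_right) _ (union_subset_union_right _
      ?_) (mem_iInter.1 hk n))
  refine fun x hx => ⟨?_, hx.2⟩
  exact mem_iInter₂.1 (mem_iInter₂.1 (h3 hx) _ (Finset.mem_powerset.2 (Finset.filter_subset _ _)))
    k (Finset.mem_range.2 (by omega))

/-- Under CH there are p-points `V`, `U` with no monotone cofinal map from `V` to `U`. -/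
theorem exists_pair (CH : (2 : Cardinal.{0}) ^ ℵ₀ = ℵ_ 1) :
    ∃ V U : Ultrafilter ℕ, (V : Filter ℕ) ≤ cofinite ∧ PP V ∧ (U : Filter ℕ) ≤ cofinite ∧ PP U ∧
      ¬ ∃ g : Set ℕ → Set ℕ, (∀ A ∈ V, g A ∈ U) ∧ (∀ A ∈ V, ∀ B, A ⊆ B → g A ⊆ g B) ∧
        ∀ B ∈ U, ∃ A ∈ V, g A ⊆ B := by
  classical
  obtain ⟨E⟩ : Nonempty (W ≃ Set ℕ) := Cardinal.eq.1 (by rw [StepTree.mk_W, ← CH]; simp)
  obtain ⟨D⟩ : Nonempty (W ≃ Set ℕ × (Finset ℕ → ℕ → Set ℕ)) :=
    Cardinal.eq.1 (by rw [StepTree.mk_W, ← CH]; simp)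
  obtain ⟨V, v1, v2, -⟩ := tower E E.surjective fun _ => ∅
  obtain ⟨U, u1, u2, u3⟩ := tower E E.surjective fun α => {A | ∃ Y ∈ V, Y ⊆ (D α).1 ∧
    ⋂ n, (D α).2 ((Finset.range n).filter (· ∈ Y)) n ⊆ A}
  refine ⟨V, U, v1, v2, u1, u2, ?_⟩
  rintro ⟨g, h1, h2, h3⟩
  obtain ⟨X, hX, c, hc⟩ := cont v1 v2 g h2
  refine u3 (D.symm (X, c)) fun A => ?_
  simp only [Equiv.apply_symm_apply, mem_ofPred_eq]
  constructor
  · rintro ⟨Y, k1, k2, k3⟩
    exact mem_of_superset (h1 Y k1) ((hc Y k1 k2).subset.trans k3)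
  · intro hA
    obtain ⟨N, k1, k2⟩ := h3 A hA
    exact ⟨N ∩ X, inter_mem k1 hX, inter_subset_right,
      (hc _ (inter_mem k1 hX) inter_subset_right).symm.subset.trans
        ((h2 _ (inter_mem k1 hX) N inter_subset_left).trans k2)⟩

end Pool.Agent.H55.PPt
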