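import Mathlib

namespace Pool.Agent.H55.PerfDef

def L : List ℕ := [1, 3, 5, 7, 11, 15, 21, 33, 35, 55, 77, 105, 165, 231, 385, 547, 1155, 1291, 1641, 2735, 3829, 3873, 6017, 6455, 8205, 9037, 11487, 14201, 18051, 19145, 19365, 27111, 30085, 42119, 42603, 45185, 57435, 71005, 90255, 99407, 126357, 135555, 210595, 213015, 298221, 497035, 631785, 706177, 1491105, 2118531, 3530885, 4943239, 7767947, 10592655, 14829717, 23303841, 24716195, 38839735, 54375629, 74148585, 116519205, 163126887, 271878145, 815634435]

theorem divs : Nat.divisors 815634435 = L.toFinset := by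
  rw [show 815634435 = 3 * (5 * (7 * (11 * (547 * 1291)))) by norm_num]
  simp only [Nat.divisors_mul]
  rw [Nat.Prime.divisors (by norm_num : Nat.Prime 3), Nat.Prime.divisors (by norm_num : Nat.Prime 5),
    Nat.Prime.divisors (by norm_num : Nat.Prime 7), Nat.Prime.divisors (by norm_num : Nat.Prime 11),
    Nat.Prime.divisors (by norm_num : Nat.Prime 547),
    Nat.Prime.divisors (by norm_num : Nat.Prime 1291)]
  decide +kernel

theorem sorted : (Nat.divisors 815634435).sort (· ≤ ·) = L := by
  rw [divs]
  exact (List.toFinset_sort (· ≤ ·) (by decide +kernel)).2 (by decide +kernel)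

end Pool.Agent.H55.PerfDef
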