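import Mathlib

/-! The edges of the Tychonoff plank cannot be separated; a set-valued map without extension. -/

namespace Pool.Agent.H55.Plank

open Set Ordinal Topology

abbrev A1 : Type 1 := Icc (0 : Ordinal.{0}) (omega 1)
abbrev A0 : Type 1 := Icc (0 : Ordinal.{0}) omega0
abbrev T : Type 1 := A1 × A0

noncomputable def top1 : A1 := ⟨omega 1, zero_le, le_rfl⟩
noncomputable def top0 : A0 := ⟨omega0, zero_le, le_rfl⟩
noncomputable def nat0 (n : ℕ) : A0 := ⟨n, zero_le, (natCast_lt_omega0 n).le⟩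

theorem nhds1 {U : Set A1} (hU : IsOpen U) (h : top1 ∈ U) :
    ∃ β < omega 1, ∀ a : A1, β < a.1 → a ∈ U := by
  obtain ⟨V, hV, rfl⟩ := isOpen_induced_iff.1 hU
  have hpos : (0 : Ordinal.{0}) < omega 1 := omega_pos 1
  obtain ⟨l, hl, hlV⟩ := exists_Ioc_subset_of_mem_nhds (hV.mem_nhds h) ⟨0, hpos⟩
  exact ⟨l, hl, fun a ha => hlV ⟨ha, a.2.2⟩⟩

theorem nhds0 {U : Set A0} (hU : IsOpen U) (h : top0 ∈ U) : ∃ n : ℕ, nat0 n ∈ U := by
  obtain ⟨V, hV, rfl⟩ := isOpen_induced_iff.1 hU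
  obtain ⟨l, hl, hlV⟩ := exists_Ioc_subset_of_mem_nhds (hV.mem_nhds h) ⟨0, omega0_pos⟩
  obtain ⟨n, rfl⟩ := lt_omega0.1 hl
  refine ⟨n + 1, hlV ⟨?_, (natCast_lt_omega0 _).le⟩⟩
  change (n : Ordinal.{0}) < ((n + 1 : ℕ) : Ordinal.{0})
  exact_mod_cast Nat.lt_succ_self n

theorem not_sep {U V : Set T} (hU : IsOpen U) (hV : IsOpen V)
    (h1 : ∀ n : ℕ, (top1, nat0 n) ∈ U) (h2 : ∀ a : A1, a ≠ top1 → (a, top0) ∈ V) :
    (U ∩ V).Nonempty := by
  have : ∀ n : ℕ, ∃ β < omega 1, ∀ a : A1, β < a.1 → (a, nat0 n) ∈ U := fun n =>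
    nhds1 (U := {a | (a, nat0 n) ∈ U}) (hU.preimage (by fun_prop)) (h1 n)
  choose b hb hbU using this
  have hs : (⨆ n, b n) < omega 1 := iSup_lt_omega_one hb
  have hs' : (⨆ n, b n) + 1 < omega 1 := by
    have := Cardinal.isSuccLimit_ord (Cardinal.aleph0_le_aleph 1)
    rw [Cardinal.ord_aleph] at this
    exact this.add_one_lt hs
  let a : A1 := ⟨(⨆ n, b n) + 1, zero_le, hs'.le⟩
  have ha : a ≠ top1 := fun h => hs'.ne (congrArg Subtype.val h)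
  obtain ⟨n, hn⟩ := nhds0 (U := {c | (a, c) ∈ V}) (hV.preimage (by fun_prop)) (h2 a ha)
  exact ⟨(a, nat0 n), hbU n a ((Ordinal.le_iSup b n).trans_lt (lt_add_one _)), hn⟩

theorem no_ext : ∃ (A : Set T) (f : A → Set T), IsClosed A ∧
    (∀ a, (f a).Nonempty ∧ IsClosed (f a)) ∧ (∀ U, IsOpen U → IsOpen {a | f a ⊆ U}) ∧
    ¬ ∃ F : T → Set T, (∀ x, (F x).Nonempty ∧ IsClosed (F x)) ∧
      (∀ U, IsOpen U → IsOpen {x | F x ⊆ U}) ∧ ∀ a : A, F a = f a := by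
  classical
  let p : T := (top1, nat0 0)
  let q : T := (top1, top0)
  have hn : ∀ n, nat0 n ≠ top0 := fun n h => (natCast_lt_omega0 n).ne (congrArg Subtype.val h)
  have hpq : p ≠ q := fun h => hn 0 (congrArg Prod.snd h)
  refine ⟨{x | x.1 = top1 ∨ x.2 = top0},
    fun a => {y | (a.1.1 = top1 ∧ y = p) ∨ (a.1.2 = top0 ∧ y = q)},
    (isClosed_eq continuous_fst continuous_const).union
      (isClosed_eq continuous_snd continuous_const), fun a => ⟨?_, ?_⟩, fun U _ => ?_, ?_⟩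
  · rcases a.2 with h | h
    · exact ⟨p, Or.inl ⟨h, rfl⟩⟩
    · exact ⟨q, Or.inr ⟨h, rfl⟩⟩
  · refine ((finite_singleton q).insert p).subset ?_ |>.isClosed
    rintro y (⟨-, rfl⟩ | ⟨-, rfl⟩) <;> simp
  · have : {a : {x : T | x.1 = top1 ∨ x.2 = top0} |
        {y | (a.1.1 = top1 ∧ y = p) ∨ (a.1.2 = top0 ∧ y = q)} ⊆ U} =
        {a | a.1.1 ≠ top1 ∨ p ∈ U} ∩ {a | a.1.2 ≠ top0 ∨ q ∈ U} := by
      ext a
      constructor
      · intro h
        exact ⟨or_iff_not_imp_left.2 fun h1 => h (Or.inl ⟨not_not.1 h1, rfl⟩),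
          or_iff_not_imp_left.2 fun h1 => h (Or.inr ⟨not_not.1 h1, rfl⟩)⟩
      · rintro ⟨h1, h2⟩ y (⟨h, rfl⟩ | ⟨h, rfl⟩)
        · exact h1.resolve_left (not_not.2 h)
        · exact h2.resolve_left (not_not.2 h)
    rw [this]
    exact ((isOpen_ne_fun (by fun_prop) continuous_const).union isOpen_const).inter
      ((isOpen_ne_fun (by fun_prop) continuous_const).union isOpen_const)
  · rintro ⟨F, hF, husc, hext⟩
    obtain ⟨U, V, hU, hV, hpU, hqV, hUV⟩ := t2_separation hpq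
    obtain ⟨x, hx1, hx2⟩ := not_sep (husc U hU) (husc V hV) (fun n => by
      change F _ ⊆ U
      rw [hext ⟨(top1, nat0 n), Or.inl rfl⟩]
      rintro y (⟨-, rfl⟩ | ⟨h, -⟩)
      · exact hpU
      · exact absurd h (hn n)) (fun a ha => by
      change F _ ⊆ V
      rw [hext ⟨(a, top0), Or.inr rfl⟩]
      rintro y (⟨h, -⟩ | ⟨-, rfl⟩)
      · exact absurd h ha
      · exact hqV)
    obtain ⟨y, hy⟩ := (hF x).1
    exact disjoint_left.1 hUV (hx1 hy) (hx2 hy)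

end Pool.Agent.H55.Plank
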