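import Mathlib

open Set Cardinal

namespace Pool.Agent.H55.PsiD

def Dom (D : Set (ℕ → ℕ)) : Prop := ∀ f : ℕ → ℕ, ∃ g ∈ D, ∀ᶠ n in Filter.atTop, f n ≤ g n

theorem dom_infinite (D : Set (ℕ → ℕ)) (hD : Dom D) : D.Infinite := by
  intro hf
  obtain ⟨g, hg, h⟩ := hD fun n => (∑ g ∈ hf.toFinset, g n) + 1
  obtain ⟨n, hn⟩ := h.exists
  have := Finset.single_le_sum (f := fun g : ℕ → ℕ => g n) (fun _ _ => Nat.zero_le _)
    (hf.mem_toFinset.mpr hg)
  omega

theorem exists_min : ∃ D, Dom D ∧ ∀ D', Dom D' → #D ≤ #D' := by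
  obtain ⟨c, ⟨D, hD, rfl⟩, hc⟩ := (wellFounded_lt (α := Cardinal.{0})).has_min
    {c | ∃ D, Dom D ∧ #D = c} ⟨_, Set.univ, fun f => ⟨f, mem_univ _, by simp⟩, rfl⟩
  exact ⟨D, hD, fun D' hD' => not_lt.mp (hc _ ⟨D', hD', rfl⟩)⟩

def ht (w : ℕ → ℕ) (i : ℕ) : ℕ :=
  Nat.pair (Encodable.encode (List.ofFn fun j : Fin i => w j))
    ((∑ n ∈ Finset.range (i + 1), (w (Nat.pair n i + 1) + w 0)) + 1)

def col (i : ℕ) : Set ℕ := range fun j => Nat.pair i j

def gr (w : ℕ → ℕ) : Set ℕ := range fun i => Nat.pair i (ht w i)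

theorem col_inf (i : ℕ) : (col i).Infinite :=
  infinite_range_of_injective fun _ _ h => (Nat.pair_eq_pair.mp h).2

theorem gr_inf (w : ℕ → ℕ) : (gr w).Infinite :=
  infinite_range_of_injective fun _ _ h => (Nat.pair_eq_pair.mp h).1

theorem gr_low (w : ℕ → ℕ) (n : ℕ) : (gr w ∩ {m | (Nat.unpair m).1 < n}).Finite := by
  refine ((finite_lt_nat n).image fun i => Nat.pair i (ht w i)).subset ?_
  rintro _ ⟨⟨i, rfl⟩, h⟩
  exact ⟨i, by simpa using h, rfl⟩

theorem col_gr (i : ℕ) (w : ℕ → ℕ) : (col i ∩ gr w).Finite := by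
  refine (gr_low w (i + 1)).subset ?_
  rintro _ ⟨⟨j, rfl⟩, h⟩
  exact ⟨h, by simp⟩

theorem col_col (i j : ℕ) (h : col i ≠ col j) : (col i ∩ col j).Finite := by
  have : col i ∩ col j = ∅ := by
    rw [eq_empty_iff_forall_notMem]
    rintro _ ⟨⟨a, rfl⟩, ⟨b, hb⟩⟩
    exact h (by rw [(Nat.pair_eq_pair.mp hb).1])
  rw [this]; exact finite_empty

theorem gr_gr (w w' : ℕ → ℕ) (h : w ≠ w') : (gr w ∩ gr w').Finite := by
  obtain ⟨k, hk⟩ := Function.ne_iff.mp h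
  refine (gr_low w (k + 1)).subset ?_
  rintro _ ⟨⟨i, rfl⟩, ⟨i', hi⟩⟩
  refine ⟨⟨i, rfl⟩, ?_⟩
  obtain ⟨rfl, h2⟩ := Nat.pair_eq_pair.mp hi
  have h3 := Encodable.encode_injective (Nat.pair_eq_pair.mp h2).1
  have h4 := List.ofFn_injective h3
  by_contra hlt
  simp only [mem_ofPred_eq, Nat.unpair_pair, not_lt] at hlt
  exact hk (congrFun h4 ⟨k, by omega⟩).symm

theorem gr_inj : Function.Injective gr := by
  intro w w' h
  by_contra hne
  have := gr_gr w w' hne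
  rw [← h, inter_self] at this
  exact gr_inf w this

theorem ht_gt (w : ℕ → ℕ) (n i : ℕ) (h : n ≤ i) : w (Nat.pair n i + 1) + w 0 < ht w i := by
  refine lt_of_lt_of_le ?_ (Nat.right_le_pair _ _)
  have := Finset.single_le_sum (f := fun n => w (Nat.pair n i + 1) + w 0) (fun _ _ => Nat.zero_le _)
    (Finset.mem_range.mpr (show n < i + 1 by omega))
  omega

def WW (D : Set (ℕ → ℕ)) : Set (ℕ → ℕ) := {w | (fun j => w (j + 1)) ∈ D}

theorem WW_dom (D : Set (ℕ → ℕ)) (hD : Dom D) (f : ℕ → ℕ) :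
    ∃ w ∈ WW D, ∀ m, f m ≤ w (m + 1) + w 0 := by
  obtain ⟨g, hg, h⟩ := hD f
  obtain ⟨N, hN⟩ := Filter.eventually_atTop.mp h
  refine ⟨fun j => Nat.casesOn (motive := fun _ => ℕ) j (∑ m ∈ Finset.range N, f m) g, ?_, fun m => ?_⟩
  · exact hg
  show f m ≤ g m + ∑ m ∈ Finset.range N, f m
  by_cases hm : N ≤ m
  · have := hN m hm; omega
  · have := Finset.single_le_sum (f := f) (fun _ _ => Nat.zero_le _)
      (Finset.mem_range.mpr (not_le.mp hm))
    omega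

def AA (D : Set (ℕ → ℕ)) : Set (Set ℕ) := range col ∪ gr '' WW D

theorem AA_card (D : Set (ℕ → ℕ)) (hD : Dom D) : #D = #(AA D) := by
  have hinf : ℵ₀ ≤ #D := aleph0_le_mk_iff.mpr (dom_infinite D hD).to_subtype
  apply le_antisymm
  · refine mk_le_of_injective (f := fun g : D => (⟨gr fun j => Nat.casesOn j 0 g.1,
      Or.inr ⟨_, g.2, rfl⟩⟩ : AA D)) ?_
    intro g g' h
    have h1 := gr_inj (Subtype.ext_iff.mp h)
    exact Subtype.ext (funext fun j => congrFun h1 (j + 1))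
  · refine (mk_union_le _ _).trans (add_le_of_le hinf ?_ ?_)
    · exact mk_range_le.trans (by simpa using hinf)
    · refine mk_image_le.trans ?_
      have : #(WW D) ≤ #(ℕ × D) := by
        refine mk_le_of_injective (f := fun w : WW D => (w.1 0, (⟨fun j => w.1 (j + 1), w.2⟩ : D))) ?_
        intro w w' h
        obtain ⟨h1, h2⟩ := Prod.ext_iff.mp h
        refine Subtype.ext (funext fun j => ?_)
        cases j with
        | zero => exact h1
        | succ j => exact congrFun (Subtype.ext_iff.mp h2) j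
      refine this.trans ?_
      simp only [mk_prod, mk_nat, lift_uzero]
      rw [aleph0_mul_eq hinf]

theorem AA_inf (D : Set (ℕ → ℕ)) : ∀ a ∈ AA D, a.Infinite := by
  rintro _ (⟨i, rfl⟩ | ⟨w, _, rfl⟩)
  · exact col_inf i
  · exact gr_inf w

theorem AA_ad (D : Set (ℕ → ℕ)) : ∀ a ∈ AA D, ∀ b ∈ AA D, a ≠ b → (a ∩ b).Finite := by
  rintro _ (⟨i, rfl⟩ | ⟨w, _, rfl⟩) _ (⟨j, rfl⟩ | ⟨w', _, rfl⟩) h
  · exact col_col i j h
  · exact col_gr _ _
  · rw [inter_comm]; exact col_gr _ _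
  · exact gr_gr _ _ fun e => h (by rw [e])

theorem open_cofinite (A : Set (Set ℕ)) (V : Set (ℕ ⊕ A))
    (hV : TopologicalSpace.GenerateOpen ({s : Set (ℕ ⊕ A) | ∃ n : ℕ, s = {Sum.inl n}} ∪
         {s : Set (ℕ ⊕ A) | ∃ a : A, ∃ F : Set ℕ, F.Finite ∧
            s = insert (Sum.inr a) (Sum.inl '' ((a : Set ℕ) \ F))}) V) :
    ∀ a : A, Sum.inr a ∈ V → ((a : Set ℕ) \ {m | Sum.inl m ∈ V}).Finite := by
  induction hV with
  | basic s hs =>
    rcases hs with ⟨n, rfl⟩ | ⟨b, F, hF, rfl⟩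
    · intro a ha; simp at ha
    · intro a ha
      have : a = b := by simpa using ha
      subst this
      refine hF.subset fun m hm => ?_
      by_contra hm'
      exact hm.2 (Or.inr ⟨m, ⟨hm.1, hm'⟩, rfl⟩)
  | univ => intro a _; simp
  | inter s t _ _ ih1 ih2 =>
    intro a ha
    refine ((ih1 a ha.1).union (ih2 a ha.2)).subset fun m hm => ?_
    by_contra h
    simp only [mem_union, mem_sdiff, mem_ofPred_eq, not_or, not_and, not_not] at h
    exact hm.2 ⟨h.1 hm.1, h.2 hm.1⟩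
  | sUnion S _ ih =>
    rintro a ⟨s, hs, ha⟩
    refine (ih s hs a ha).subset fun m hm => ⟨hm.1, fun h => hm.2 ⟨s, hs, h⟩⟩

end Pool.Agent.H55.PsiD
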