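import Mathlib
import Pool.Agent.H55.QC

/-! Two copies of an extremally disconnected space glued along an uncountable discrete set. -/

namespace Pool.Agent.H55.QC

open Set Topology Filter

/-- Minimally bounded sets. -/
def MinBdd {X : Type} [TopologicalSpace X] (A : Set X) : Prop :=
  A ⊆ closure (interior A) ∧ interior (closure A) ⊆ A

/-- `ω`-covers by minimally bounded sets. -/
def OmegaS {X : Type} [TopologicalSpace X] (𝒰 : Set (Set X)) : Prop :=
  (∀ A ∈ 𝒰, MinBdd A) ∧ ⋃₀ 𝒰 = univ ∧ ∀ F : Set X, F.Finite → ∃ A ∈ 𝒰, F ⊆ A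

/-- `γ`-covers by minimally bounded sets. -/
def GammaS {X : Type} [TopologicalSpace X] (𝒰 : Set (Set X)) : Prop :=
  (∀ A ∈ 𝒰, MinBdd A) ∧ ⋃₀ 𝒰 = univ ∧ ∀ x, {A ∈ 𝒰 | x ∉ A}.Finite

/-- The selection principle `S_1(Ω^s, Γ^s)`, with the additional requirement that every point
belongs to `U n` for all but finitely many `n`. -/
def S1 (X : Type) [TopologicalSpace X] : Prop :=
  ∀ 𝒰 : ℕ → Set (Set X), (∀ n, OmegaS (𝒰 n)) →
    ∃ U : ℕ → Set X, (∀ n, U n ∈ 𝒰 n) ∧ GammaS (range U) ∧ ∀ x, {n | x ∉ U n}.Finite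

def Y : Set G := {y | y = 0 ∨ ∃ n : ℕ, y (Sum.inl n) ≠ 0}

theorem Y_dense (a : Finset W) (z : G) : ∃ y ∈ Y, y ∈ Cyl a z := by
  classical
  obtain ⟨_, ⟨n, rfl⟩, hn⟩ :=
    (infinite_range_of_injective (Sum.inl_injective (α := ℕ) (β := ℝ))).exists_notMem_finset a
  refine ⟨z.update (Sum.inl n) 1, Or.inr ⟨n, by simp [Finsupp.coe_update]⟩, fun w hw => ?_⟩
  have : w ≠ Sum.inl n := fun h => hn (h ▸ hw)
  simp [Finsupp.coe_update, Function.update_of_ne this]

theorem Y_meet {U : Set G} (hU : Op U) (hne : U.Nonempty) : ∃ y ∈ Y, y ∈ U := by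
  obtain ⟨z, hz⟩ := hne
  obtain ⟨a, ha⟩ := hU z hz
  obtain ⟨y, h1, h2⟩ := Y_dense a z
  exact ⟨y, h1, ha h2⟩

/-- The glued space. -/
def Z : Type := (Y × Bool) ⊕ ℝ

def mk (y : Y) (b : Bool) : Z := Sum.inl (y, b)

noncomputable def pt : Z → G
  | Sum.inl q => q.1.1
  | Sum.inr r => Finsupp.single (Sum.inr r) 1

def side : Z → Bool → Prop
  | Sum.inl q, b => b = q.2
  | Sum.inr _, _ => True

instance : TopologicalSpace Z where
  IsOpen O := ∀ p ∈ O, ∃ U : Set G, Op U ∧ pt p ∈ star U ∧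
    ∀ (y : Y) b, y.1 ∈ star U → side p b → mk y b ∈ O
  isOpen_univ := fun p _ => ⟨Cyl ∅ (pt p), op_cyl _ _, (op_cyl _ _).sub_star (self_cyl _ _),
    fun _ _ _ _ => trivial⟩
  isOpen_inter := fun s t hs ht x hx => by
    obtain ⟨U, h1, h2, h3⟩ := hs x hx.1
    obtain ⟨V, k1, k2, k3⟩ := ht x hx.2
    refine ⟨U ∩ V, h1.inter k1, ?_, fun y b hy hb => ?_⟩
    · rw [star_inter]; exact ⟨h2, k2⟩
    · rw [star_inter] at hy; exact ⟨h3 y b hy.1 hb, k3 y b hy.2 hb⟩
  isOpen_sUnion := fun _ hS x ⟨t, ht, hx⟩ => by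
    obtain ⟨U, h1, h2, h3⟩ := hS t ht x hx
    exact ⟨U, h1, h2, fun y b hy hb => ⟨t, ht, h3 y b hy hb⟩⟩

def Bs (p : Z) (U : Set G) : Set Z := {q | q = p ∨ ∃ (y : Y) (b : Bool), q = mk y b ∧
  y.1 ∈ star U ∧ side p b}

theorem Bs_open {p : Z} {U : Set G} (hU : Op U) (hp : pt p ∈ star U) : IsOpen (Bs p U) := by
  rintro q (rfl | ⟨y, b, rfl, hy, hb⟩)
  · exact ⟨U, hU, hp, fun y b hy hb => Or.inr ⟨y, b, rfl, hy, hb⟩⟩
  · refine ⟨U, hU, hy, fun y' b' hy' hb' => Or.inr ⟨y', b', rfl, hy', ?_⟩⟩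
    have : b' = b := hb'
    rwa [this]

theorem Bs_pt {p q : Z} {U : Set G} (hp : pt p ∈ star U) (hq : q ∈ Bs p U) : pt q ∈ star U := by
  rcases hq with rfl | ⟨y, b, rfl, hy, _⟩
  · exact hp
  · exact hy

theorem single_notMem (r : ℝ) : (Finsupp.single (Sum.inr r) 1 : G) ∉ Y := by
  rintro (h | ⟨n, hn⟩)
  · simp at h
  · simp at hn

instance : T2Space Z := ⟨fun p q hpq => by
  by_cases h : pt p = pt q
  · rcases p with ⟨y, b⟩ | r <;> rcases q with ⟨y', b'⟩ | r'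
    · have h1 : y = y' := Subtype.ext h
      subst h1
      have h2 : b ≠ b' := fun h2 => hpq (by rw [h2])
      have h0 := (op_cyl ∅ y.1).sub_star (self_cyl _ _)
      refine ⟨_, _, Bs_open (p := mk y b) (op_cyl ∅ y.1) h0, Bs_open (p := mk y b') (op_cyl ∅ y.1) h0,
        Or.inl rfl, Or.inl rfl, disjoint_left.2 ?_⟩
      have key : ∀ c, ∀ t ∈ Bs (mk y c) (Cyl ∅ y.1), ∃ y', t = mk y' c := by
        rintro c t (rfl | ⟨y', b, rfl, _, hb⟩)
        · exact ⟨y, rfl⟩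
        · have : b = c := hb
          exact ⟨y', by rw [this]⟩
      intro t h3 h4
      obtain ⟨y1, rfl⟩ := key _ _ h3
      obtain ⟨y2, e⟩ := key _ _ h4
      exact h2 (congrArg Prod.snd (Sum.inl_injective e))
    · have h1 : y.1 = Finsupp.single (Sum.inr r') 1 := h
      exact absurd (h1 ▸ y.2) (single_notMem r')
    · have h1 : y'.1 = Finsupp.single (Sum.inr r) 1 := h.symm
      exact absurd (h1 ▸ y'.2) (single_notMem r)
    · exact absurd (congrArg Sum.inr (Sum.inr_injective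
        (Finsupp.single_left_injective one_ne_zero h))) hpq
  · obtain ⟨w, hw⟩ : ∃ w, pt p w ≠ pt q w := by
      by_contra h'
      push Not at h'
      exact h (Finsupp.ext h')
    have h1 := (op_cyl {w} (pt p)).sub_star (self_cyl _ _)
    have h2 := (op_cyl {w} (pt q)).sub_star (self_cyl _ _)
    refine ⟨_, _, Bs_open (op_cyl _ _) h1, Bs_open (op_cyl _ _) h2, Or.inl rfl, Or.inl rfl,
      disjoint_left.2 fun t h3 h4 => hw ?_⟩
    exact (star_cyl _ _ (Bs_pt h1 h3) w (by simp)).symm.trans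
      (star_cyl _ _ (Bs_pt h2 h4) w (by simp))⟩

theorem exists_side (p : Z) : ∃ b, side p b := by
  rcases p with ⟨y, b⟩ | r
  · exact ⟨b, rfl⟩
  · exact ⟨true, trivial⟩

def tr (A : Set Z) (b : Bool) : Set G := {x | ∃ a, ∀ y : Y, y.1 ∈ Cyl a x → mk y b ∈ A}

theorem op_tr (A : Set Z) (b : Bool) : Op (tr A b) := fun _ ⟨a, h⟩ => ⟨a, fun _ hy => ⟨a,
  fun z hz => h z fun w hw => (hz w hw).trans (hy w hw)⟩⟩

theorem tr_of_mem {A : Set Z} (hA : MinBdd A) {y : Y} {b : Bool} (h : mk y b ∈ A) :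
    y.1 ∈ star (tr A b) := by
  refine (star_or (op_tr A b) _).resolve_right fun h1 => ?_
  obtain ⟨q, hq1, hq2⟩ := mem_closure_iff.1 (hA.1 h) _ (Bs_open (p := mk y b) (op_ext _) h1)
    (Or.inl rfl)
  obtain ⟨U, hU, hqU, hsub⟩ := (isOpen_interior (s := A)) q hq2
  obtain ⟨z, hz1, hz2⟩ := meet hqU (Bs_pt (p := mk y b) h1 hq1)
  obtain ⟨a, ha⟩ := hU z hz1
  have hs : side q b := by
    rcases hq1 with rfl | ⟨y', b', rfl, _, hb⟩
    · exact rfl
    · exact (show b' = b from hb).symm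
  exact not_mem_ext (show z ∈ tr A b from
    ⟨a, fun t ht => interior_subset (hsub t b (hU.sub_star (ha ht)) hs)⟩) hz2

theorem mem_cl {A : Set Z} {p : Z} {b : Bool} (hb : side p b) (h : pt p ∈ star (tr A b)) :
    p ∈ closure A := by
  rw [mem_closure_iff]
  intro O hO hp
  obtain ⟨U, hU, hpU, hsub⟩ := hO p hp
  obtain ⟨z, hz1, a, ha⟩ := meet hpU h
  obtain ⟨y, hy1, hy2⟩ := Y_meet (hU.inter (op_cyl a z)) ⟨z, hz1, self_cyl _ _⟩
  exact ⟨mk ⟨y, hy1⟩ b, hsub _ b (hU.sub_star hy2.1) hb, ha _ hy2.2⟩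

theorem mem_of_tr {A : Set Z} (hA : MinBdd A) {p : Z}
    (h : ∀ b, side p b → pt p ∈ star (tr A b)) : p ∈ A := by
  classical
  let U : Bool → Set G := fun b => if side p b then tr A b else univ
  have hU : ∀ b, Op (U b) := fun b => by
    by_cases hb : side p b
    · simpa [U, hb] using op_tr A b
    · simp only [U, hb, if_false]
      exact fun _ _ => ⟨∅, subset_univ _⟩
  have hp : ∀ b, pt p ∈ star (U b) := fun b => by
    by_cases hb : side p b
    · simpa [U, hb] using h b hb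
    · exact (hU b).sub_star (by simp [U, hb])
  have h1 : pt p ∈ star (U true ∩ U false) := by rw [star_inter]; exact ⟨hp _, hp _⟩
  refine hA.2 (interior_maximal ?_ (Bs_open ((hU _).inter (hU _)) h1) (Or.inl rfl))
  rintro q (rfl | ⟨y, b, rfl, hy, hb⟩)
  · obtain ⟨b, hb⟩ := exists_side q
    exact mem_cl hb (h b hb)
  · refine mem_cl (b := b) rfl ?_
    rw [star_inter] at hy
    have : y.1 ∈ star (U b) := by cases b; exacts [hy.2, hy.1]
    simp only [U, hb, if_true] at this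
    exact this

theorem countable_pt {T : Set G} (hT : T.Countable) : (pt ⁻¹' T).Countable := by
  have h1 : (pt ⁻¹' T) ⊆ (fun q : Y × Bool => mk q.1 q.2) '' ((Subtype.val ⁻¹' T) ×ˢ univ) ∪
      (fun r : ℝ => (Sum.inr r : Z)) '' ((fun r : ℝ => (Finsupp.single (Sum.inr r) 1 : G)) ⁻¹' T) := by
    rintro (⟨y, b⟩ | r) h
    · exact Or.inl ⟨(y, b), ⟨h, trivial⟩, rfl⟩
    · exact Or.inr ⟨r, h, rfl⟩
  refine (Countable.union (Countable.image ?_ _) (Countable.image ?_ _)).mono h1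
  · exact (hT.preimage_of_injOn Subtype.val_injective.injOn).prod (to_countable _)
  · exact hT.preimage_of_injOn fun r _ s _ hrs =>
      Sum.inr_injective (Finsupp.single_left_injective one_ne_zero hrs)

theorem s1 : S1 Z := by
  classical
  intro 𝒰 h𝒰
  choose Sp hSc hS using fun (A : Set Z) (b : Bool) => exists_supp (op_tr A b)
  choose F hFU hF using fun (P : Finset Z) (n : ℕ) => (h𝒰 n).2.2 P P.finite_toSet
  obtain ⟨S, hScc, h0, hcl⟩ := close (fun a => ⋃ P ∈ {P : Finset Z | (↑P : Set Z) ⊆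
      pt ⁻¹' {x : G | (↑x.support : Set W) ⊆ ↑a}}, ⋃ k, ⋃ b, Sp (F P k) b)
    (fun a => (cfin (countable_pt (countable_supp a.countable_toSet))).biUnion fun P _ =>
      countable_iUnion fun k => countable_iUnion fun b => hSc _ _)
    (countable_range (Sum.inl : ℕ → W))
  obtain ⟨e, he⟩ := (countable_pt (countable_supp hScc)).exists_eq_range
    ⟨mk ⟨0, Or.inl rfl⟩ true, by simp [pt, mk]⟩
  have heS : ∀ m, (↑(pt (e m)).support : Set W) ⊆ S := fun m => by
    have : e m ∈ range e := ⟨m, rfl⟩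
    rwa [← he] at this
  let P : ℕ → Finset Z := fun n => (Finset.range n).image e
  have hP : ∀ n b, Sp (F (P n) n) b ⊆ S := fun n b w hw => by
    refine hcl ((P n).biUnion fun x => (pt x).support) (fun t ht => ?_)
      (mem_biUnion (x := P n) (fun x hx t ht => ?_) (mem_iUnion.2 ⟨n, mem_iUnion.2 ⟨b, hw⟩⟩))
    · obtain ⟨x, hx, h⟩ := Finset.mem_biUnion.1 ht
      obtain ⟨m, _, rfl⟩ := Finset.mem_image.1 hx
      exact heS m h
    · exact Finset.mem_biUnion.2 ⟨x, hx, ht⟩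
  have hM : ∀ n, MinBdd (F (P n) n) := fun n => (h𝒰 n).1 _ (hFU _ _)
  have h1 : ∀ p : Z, (↑(pt p).support : Set W) ⊆ S → ∀ᶠ n in atTop, p ∈ F (P n) n := by
    intro p hp
    obtain ⟨m, rfl⟩ : p ∈ range e := by rw [← he]; exact hp
    filter_upwards [eventually_gt_atTop m] with n hn
    exact hF _ _ (Finset.mem_image.2 ⟨m, Finset.mem_range.2 hn, rfl⟩)
  have hres : ∀ x : G, (↑(res S x).support : Set W) ⊆ S := fun x w hw => by
    by_contra h
    exact (Finsupp.mem_support_iff.1 hw) (res_not x h)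
  have h2 : ∀ p : Z, res S (pt p) ∈ Y → ∀ᶠ n in atTop, p ∈ F (P n) n := by
    intro p hp
    filter_upwards [h1 (mk ⟨_, hp⟩ true) (hres _), h1 (mk ⟨_, hp⟩ false) (hres _)] with n k1 k2
    refine mem_of_tr (hM n) fun b _ => hS _ b _ _ (fun w hw => res_mem _ (hP n b hw)) ?_
    cases b
    · exact tr_of_mem (hM n) k2
    · exact tr_of_mem (hM n) k1
  have h3 : ∀ p : Z, ∀ᶠ n in atTop, p ∈ F (P n) n := by
    rintro (⟨⟨y, hy | ⟨n, hn⟩⟩, b⟩ | r)
    · exact h1 _ (by simp [pt, hy])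
    · exact h2 _ (Or.inr ⟨n, by rw [res_mem _ (h0 ⟨n, rfl⟩)]; exact hn⟩)
    · by_cases hr : Sum.inr r ∈ S
      · exact h1 _ (by simpa [pt, Finsupp.support_single] using hr)
      · refine h2 _ (Or.inl (Finsupp.ext fun w => ?_))
        by_cases hw : w ∈ S
        · rw [res_mem _ hw]
          have : Sum.inr r ≠ w := fun h => hr (h ▸ hw)
          simp [pt, this]
        · exact res_not _ hw
  have h4 : ∀ p : Z, {n | p ∉ F (P n) n}.Finite := fun p => by
    have := h3 p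
    rwa [← Nat.cofinite_eq_atTop] at this
  refine ⟨fun n => F (P n) n, fun n => hFU _ _, ⟨?_, ?_, fun p => ?_⟩, h4⟩
  · rintro _ ⟨n, rfl⟩
    exact hM n
  · refine eq_univ_of_forall fun p => ?_
    obtain ⟨n, hn⟩ := (h3 p).exists
    exact ⟨_, ⟨n, rfl⟩, hn⟩
  · refine ((h4 p).image fun n => F (P n) n).subset ?_
    rintro _ ⟨⟨n, rfl⟩, hn⟩
    exact ⟨n, hn, rfl⟩

open Classical in
noncomputable def col (M : Set ℝ) : Z → Bool
  | Sum.inl q => q.2
  | Sum.inr r => if r ∈ M then true else false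

theorem side_col (M : Set ℝ) (p : Z) : side p (col M p) := by
  rcases p with ⟨y, b⟩ | r
  · exact rfl
  · trivial

noncomputable def gf (M : Set ℝ) (p : Z) : ℝ := if col M p then 1 else 0

theorem gf_qc (M : Set ℝ) : IsQC (gf M) := by
  intro p O hO hp V _ hV
  obtain ⟨U, hU, hpU, hsub⟩ := hO p hp
  obtain ⟨y, hy1, hy2⟩ := Y_meet hU (star_ne hpU)
  have h1 := hU.sub_star hy2
  refine ⟨Bs (mk ⟨y, hy1⟩ (col M p)) U, Bs_open hU h1, ⟨_, Or.inl rfl⟩, ?_, ?_⟩
  · rintro q (rfl | ⟨y', b, rfl, hy', hb⟩)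
    · exact hsub _ _ h1 (side_col M p)
    · have : b = col M p := hb
      rw [this]
      exact hsub _ _ hy' (side_col M p)
  · rintro _ ⟨q, rfl | ⟨y', b, rfl, _, hb⟩, rfl⟩
    · exact hV
    · have : b = col M p := hb
      rw [this]
      exact hV

theorem not_fu : ∃ (f : {f : Z → ℝ // IsQC f}) (A : Set {f : Z → ℝ // IsQC f}), f ∈ closure A ∧
    ¬ ∃ g : ℕ → {f : Z → ℝ // IsQC f}, (∀ n, g n ∈ A) ∧ Tendsto g atTop (𝓝 f) := by
  classical
  let φ : Finset ℝ → {f : Z → ℝ // IsQC f} := fun M => ⟨gf M, gf_qc M⟩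
  refine ⟨⟨gf univ, gf_qc univ⟩, range φ, ?_, ?_⟩
  · refine mem_closure_of_tendsto (f := φ) (b := atTop) ?_ (Eventually.of_forall fun M => ⟨M, rfl⟩)
    rw [tendsto_subtype_rng, tendsto_pi_nhds]
    rintro (q | r)
    · exact tendsto_const_nhds
    · refine tendsto_const_nhds.congr' ?_
      filter_upwards [eventually_ge_atTop {r}] with M hM
      have : r ∈ M := hM (Finset.mem_singleton_self r)
      simp [φ, gf, col, this]
  · rintro ⟨g, hg, hlim⟩
    choose M hM using hg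
    rw [tendsto_subtype_rng, tendsto_pi_nhds] at hlim
    refine Cardinal.not_countable_real ((countable_iUnion fun n => (M n).countable_toSet).mono
      fun r _ => ?_)
    have h1 := hlim (Sum.inr r)
    have h2 : gf univ (Sum.inr r) = 1 := by simp [gf, col]
    simp only [h2] at h1
    obtain ⟨n, hn⟩ := (h1.eventually (lt_mem_nhds one_pos)).exists
    refine mem_iUnion.2 ⟨n, ?_⟩
    by_contra h
    rw [← hM n] at hn
    simp [φ, gf, col, h] at hn

end Pool.Agent.H55.QC
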