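import Mathlib

/-! Restricted order of additive bases, part 1: gaps, density, popularity. -/

namespace Pool.Agent.H55.RO

open Finset

def MS (A : Set ℕ) (j m : ℕ) : Prop :=
  ∃ s : Multiset ℕ, s.card ≤ j ∧ (∀ x ∈ s, x ∈ A) ∧ s.sum = m

def FS (A : Set ℕ) (j m : ℕ) : Prop :=
  ∃ s : Finset ℕ, s.card ≤ j ∧ (↑s : Set ℕ) ⊆ A ∧ ∑ x ∈ s, x = m

open Classical in
theorem gap_count (j : ℕ) : ∀ M : ℕ, 1 ≤ M → ∃ C, ∀ (n Z : ℕ) (E : Finset ℕ), 1 ≤ n →
    ∑ x ∈ E, x ≤ Z → C * n ≤ Z →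
    M * #{m ∈ range (Z + 1) | MS {x | x ∈ E ∨ x ≤ n} j m} ≤ Z := by
  induction j with
  | zero =>
    intro M hM
    refine ⟨M, fun n Z E hn _ hC => ?_⟩
    have : #{m ∈ range (Z + 1) | MS {x | x ∈ E ∨ x ≤ n} 0 m} ≤ 1 := by
      rw [← card_singleton 0]
      refine card_le_card fun m hm => ?_
      obtain ⟨s, h1, _, h3⟩ := (mem_filter.1 hm).2
      rw [Nat.le_zero, Multiset.card_eq_zero] at h1
      subst h1
      simpa using h3.symm
    nlinarith
  | succ j ih =>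
    intro M hM
    set M1 := 3 * M * (j + 1) with hM1
    have hM1pos : 1 ≤ M1 := Nat.mul_pos (by omega) (by omega)
    obtain ⟨C, hC⟩ := ih (3 * M * M1) (Nat.mul_pos (by omega) hM1pos)
    refine ⟨C + 3 * M * (j + 2), fun n Z E hn hE hZ => ?_⟩
    rw [add_mul] at hZ
    have h1 := hC n Z E hn hE (by omega)
    set W := {m ∈ range (Z + 1) | MS {x | x ∈ E ∨ x ≤ n} j m} with hW
    have hZpos : 0 < Z := by
      have : 0 < 3 * M * (j + 2) * n := by positivity
      omega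
    have hbig : #{e ∈ E | Z / M1 < e} ≤ M1 := by
      have h2 : #{e ∈ E | Z / M1 < e} * (Z / M1 + 1) ≤ Z := by
        have := card_nsmul_le_sum {e ∈ E | Z / M1 < e} (fun x => x) (Z / M1 + 1)
          fun x hx => (mem_filter.1 hx).2
        have h3 : ∑ x ∈ {e ∈ E | Z / M1 < e}, x ≤ ∑ x ∈ E, x :=
          sum_le_sum_of_subset (filter_subset _ _)
        rw [smul_eq_mul] at this
        omega
      have h3 : Z < M1 * (Z / M1 + 1) := Nat.lt_mul_div_succ Z hM1pos
      exact (Nat.lt_of_mul_lt_mul_right (a := Z / M1 + 1) (by omega)).le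
    have hsub : {m ∈ range (Z + 1) | MS {x | x ∈ E ∨ x ≤ n} (j + 1) m} ⊆
        range ((j + 1) * (Z / M1 + n) + 1) ∪
          {e ∈ E | Z / M1 < e}.biUnion fun e => W.image (e + ·) := by
      intro m hm
      obtain ⟨hmZ, s, h2, h3, h4⟩ := mem_filter.1 hm
      by_cases hc : ∀ x ∈ s, x ≤ Z / M1 + n
      · have := Multiset.sum_le_card_nsmul s _ hc
        rw [smul_eq_mul] at this
        have h5 := Nat.mul_le_mul_right (Z / M1 + n) h2
        exact mem_union_left _ (mem_range.2 (by omega))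
      · push Not at hc
        obtain ⟨e, he, hlt⟩ := hc
        obtain ⟨s', rfl⟩ := Multiset.exists_cons_of_mem he
        simp only [Multiset.card_cons, Multiset.sum_cons] at h2 h4
        refine mem_union_right _ (mem_biUnion.2 ⟨e, mem_filter.2 ⟨?_, by omega⟩,
          mem_image.2 ⟨s'.sum, mem_filter.2 ⟨?_, s', by omega, fun x hx =>
            h3 x (Multiset.mem_cons_of_mem hx), rfl⟩, h4⟩⟩)
        · rcases h3 e he with h | h
          · exact h
          · exact absurd hlt (not_lt.2 (le_trans h (Nat.le_add_left _ _)))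
        · rw [mem_range] at hmZ ⊢; omega
    have h2 := (card_le_card hsub).trans (card_union_le _ _)
    have h3 : #({e ∈ E | Z / M1 < e}.biUnion fun e => W.image (e + ·)) ≤ M1 * #W :=
      (card_biUnion_le_card_mul _ _ _ fun e _ => card_image_le).trans
        (Nat.mul_le_mul_right _ hbig)
    rw [card_range] at h2
    have h4 : M1 * (Z / M1) ≤ Z := Nat.mul_div_le Z M1
    have h5 := Nat.mul_le_mul_left (3 * M) (h2.trans (Nat.add_le_add_left h3 _))
    have h6 : 3 * M ≤ 3 * M * n := Nat.le_mul_of_pos_right _ hn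
    have e1 : 3 * M * ((j + 1) * (Z / M1 + n) + 1 + M1 * #W) =
        M1 * (Z / M1) + 3 * M * (j + 1) * n + 3 * M + 3 * M * M1 * #W := by
      rw [hM1]; ring
    have e2 : 3 * M * (j + 2) * n = 3 * M * (j + 1) * n + 3 * M * n := by ring
    rw [e1, mul_assoc 3 M] at h5
    omega

theorem gap (h : ℕ) : ∃ C, ∀ (A : Set ℕ) (n : ℕ), 1 ≤ n → (∀ m, n ≤ m → MS A h m) → ∀ y,
    ∃ S : Finset ℕ, (∀ x ∈ S, x ∈ A ∧ n < x) ∧ ∑ x ∈ S, x ≤ y ∧ y ≤ ∑ x ∈ S, x + C * n := by
  classical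
  obtain ⟨C, hC⟩ := gap_count h 2 (by omega)
  refine ⟨C + 2, fun A n hn hA y => ?_⟩
  set E : ℕ → Finset ℕ := fun a => {x ∈ range a | x ∈ A ∧ n < x} with hE
  have key : ∀ a, a ∈ A → n < a → a ≤ ∑ x ∈ E a, x + (C + 2) * n := by
    intro a ha hna
    by_contra hc
    set Z := ∑ x ∈ E a, x + (C + 2) * n with hZ
    rw [add_mul] at hZ
    have h1 := hC n Z (E a) hn (by omega) (by omega)
    have h2 : Icc n Z ⊆ {m ∈ range (Z + 1) | MS {x | x ∈ E a ∨ x ≤ n} h m} := by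
      intro m hm
      rw [mem_Icc] at hm
      obtain ⟨s, h2, h3, h4⟩ := hA m hm.1
      refine mem_filter.2 ⟨mem_range.2 (by omega), s, h2, fun x hx => ?_, h4⟩
      have := Multiset.single_le_sum (fun _ _ => Nat.zero_le _) x hx
      by_cases hxn : x ≤ n
      · exact Or.inr hxn
      · exact Or.inl (mem_filter.2 ⟨mem_range.2 (by omega), h3 x hx, by omega⟩)
    have h3 := card_le_card h2
    rw [Nat.card_Icc] at h3
    omega
  have main : ∀ a y, y ≤ ∑ x ∈ E a, x + (C + 2) * n →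
      ∃ S ⊆ E a, ∑ x ∈ S, x ≤ y ∧ y ≤ ∑ x ∈ S, x + (C + 2) * n := by
    intro a
    induction a with
    | zero => intro y hy; exact ⟨∅, empty_subset _, by simp, by simpa [hE] using hy⟩
    | succ a ih =>
      intro y hy
      have hsub : E a ⊆ E (a + 1) := filter_subset_filter _ (range_subset_range.2 (by omega))
      by_cases h1 : y ≤ ∑ x ∈ E a, x + (C + 2) * n
      · obtain ⟨S, h2, h3⟩ := ih y h1
        exact ⟨S, h2.trans hsub, h3⟩
      · have hna : a ∉ E a := by simp [hE]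
        by_cases ha : a ∈ A ∧ n < a
        · have e : E (a + 1) = insert a (E a) := by
            simp only [hE, range_add_one, filter_insert, if_pos ha]
          rw [e, sum_insert hna] at hy
          have := key a ha.1 ha.2
          obtain ⟨S, h2, h3⟩ := ih (y - a) (by omega)
          refine ⟨insert a S, by rw [e]; exact insert_subset_insert _ h2, ?_⟩
          rw [sum_insert fun h => hna (h2 h)]
          omega
        · have e : E (a + 1) = E a := by
            simp only [hE, range_add_one, filter_insert, if_neg ha]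
          rw [e] at hy; exact absurd hy h1
  obtain ⟨s, h1, h2, h3⟩ := hA (h * (y + n) + n) (by omega)
  obtain ⟨a, ha, hlt⟩ : ∃ a ∈ s, y + n < a := by
    by_contra hc
    push Not at hc
    have := Multiset.sum_le_card_nsmul s _ hc
    rw [smul_eq_mul] at this
    have := Nat.mul_le_mul_right (y + n) h1
    omega
  have hmem : a ∈ E (a + 1) := mem_filter.2 ⟨mem_range.2 (by omega), h2 a ha, by omega⟩
  have := single_le_sum (f := fun x => x) (fun _ _ => Nat.zero_le _) hmem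
  obtain ⟨S, h4, h5⟩ := main (a + 1) y (by omega)
  exact ⟨S, fun x hx => (mem_filter.1 (h4 hx)).2, h5⟩

theorem exists_max {A : Set ℕ} {j m : ℕ} (H : MS A j m) : ∃ s : Multiset ℕ,
    (s.card ≤ j ∧ (∀ x ∈ s, x ∈ A) ∧ s.sum = m) ∧ ∀ s' : Multiset ℕ,
      (s'.card ≤ j ∧ (∀ x ∈ s', x ∈ A) ∧ s'.sum = m) → #s'.toFinset ≤ #s.toFinset := by
  obtain ⟨s, h1, h2⟩ := (InvImage.wf (fun s : Multiset ℕ => j - #s.toFinset)
    Nat.lt_wfRel.wf).has_min {s | s.card ≤ j ∧ (∀ x ∈ s, x ∈ A) ∧ s.sum = m} H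
  refine ⟨s, h1, fun s' hs' => ?_⟩
  have h3 : ¬ (j - #s'.toFinset < j - #s.toFinset) := h2 s' hs'
  have := Multiset.toFinset_card_le s'
  have := hs'.1
  omega

open Classical in
theorem dens (A : Set ℕ) (h n : ℕ) : ∀ j ≤ h, #{m ∈ range (n + 1) | MS A j m} ≤
    (j + 1).factorial * #{m ∈ range (n + 1) | FS A h m} := by
  intro j
  induction j with
  | zero =>
    intro _
    simp only [zero_add, Nat.factorial_one, one_mul]
    refine card_le_card fun m hm => ?_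
    obtain ⟨h0, s, h1, _, h3⟩ := mem_filter.1 hm
    rw [Nat.le_zero, Multiset.card_eq_zero] at h1
    subst h1
    exact mem_filter.2 ⟨h0, ∅, by simp, by simp, by simpa using h3⟩
  | succ j ih =>
    intro hj
    have h1 := ih (by omega)
    have : ∀ m, ∃ s : Multiset ℕ, MS A j m → (s.card ≤ j ∧ (∀ x ∈ s, x ∈ A) ∧ s.sum = m) ∧
        ∀ s' : Multiset ℕ, (s'.card ≤ j ∧ (∀ x ∈ s', x ∈ A) ∧ s'.sum = m) →
          #s'.toFinset ≤ #s.toFinset := fun m => by
      by_cases H : MS A j m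
      · obtain ⟨s, hs⟩ := exists_max H; exact ⟨s, fun _ => hs⟩
      · exact ⟨0, fun h => absurd h H⟩
    choose M hM using this
    have hsub : {m ∈ range (n + 1) | MS A (j + 1) m} ⊆ {m ∈ range (n + 1) | FS A h m} ∪
        {m ∈ range (n + 1) | MS A j m}.biUnion fun m => (M m).toFinset.image (· + m) := by
      intro y hy
      obtain ⟨hyn, hy⟩ := mem_filter.1 hy
      obtain ⟨P, ⟨h2, h3, h4⟩, h5⟩ := exists_max hy
      by_cases hnd : P.Nodup
      · refine mem_union_left _ (mem_filter.2 ⟨hyn, ⟨P, hnd⟩, ?_, fun x hx => h3 x hx, ?_⟩)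
        · exact h2.trans hj
        · simpa [Finset.sum] using h4
      · rw [Multiset.nodup_iff_count_le_one] at hnd
        push Not at hnd
        obtain ⟨a, ha⟩ := hnd
        obtain ⟨P', rfl⟩ := Multiset.exists_cons_of_mem (s := P) (a := a)
          (Multiset.count_pos.1 (by omega))
        rw [Multiset.count_cons_self] at ha
        have haP : a ∈ P' := Multiset.count_pos.1 (by omega)
        simp only [Multiset.card_cons, Multiset.sum_cons] at h2 h4
        have hP' : P'.card ≤ j ∧ (∀ x ∈ P', x ∈ A) ∧ P'.sum = P'.sum :=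
          ⟨by omega, fun x hx => h3 x (Multiset.mem_cons_of_mem hx), rfl⟩
        obtain ⟨⟨h6, h7, h8⟩, h9⟩ := hM P'.sum ⟨P', hP'⟩
        refine mem_union_right _ (mem_biUnion.2 ⟨P'.sum, mem_filter.2 ⟨?_, P', hP'⟩,
          mem_image.2 ⟨a, ?_, h4⟩⟩)
        · rw [mem_range] at hyn ⊢; omega
        · by_contra hc
          have h10 := h9 P' hP'
          have h11 := h5 (a ::ₘ M P'.sum) ⟨by simpa using h6, fun x hx => by
            rcases Multiset.mem_cons.1 hx with rfl | hx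
            · exact h3 _ (Multiset.mem_cons_self _ _)
            · exact h7 x hx, by simp [h8, h4]⟩
          rw [Multiset.toFinset_cons, Multiset.toFinset_cons, card_insert_of_notMem hc,
            insert_eq_of_mem (Multiset.mem_toFinset.2 haP)] at h11
          omega
    have h2 := (card_le_card hsub).trans (card_union_le _ _)
    have h3 := card_biUnion_le_card_mul {m ∈ range (n + 1) | MS A j m}
      (fun m => (M m).toFinset.image (· + m)) j fun m hm =>
        card_image_le.trans ((Multiset.toFinset_card_le _).trans (hM m (mem_filter.1 hm).2).1.1)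
    have h4 := Nat.mul_le_mul_right j h1
    have h5 : 1 ≤ (j + 1).factorial := Nat.factorial_pos _
    rw [Nat.factorial_succ (j + 1)]
    nlinarith

def Fam (A : Set ℕ) (h n : ℕ) (T : Finset (Finset ℕ)) : Prop :=
  (∀ s ∈ T, #s ≤ h ∧ (↑s : Set ℕ) ⊆ A ∧ ∑ x ∈ s, x ≤ n) ∧
    ∀ s ∈ T, ∀ s' ∈ T, ∑ x ∈ s, x = ∑ x ∈ s', x → s = s'

theorem Fam.sub {A : Set ℕ} {h n : ℕ} {T T' : Finset (Finset ℕ)} (H : Fam A h n T)
    (hT : T' ⊆ T) : Fam A h n T' :=
  ⟨fun s hs => H.1 s (hT hs), fun s hs s' hs' => H.2 s (hT hs) s' (hT hs')⟩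

theorem exists_fam (A : Set ℕ) (h n n0 : ℕ) (hn : 2 * n0 ≤ n) (hA : ∀ m, n0 ≤ m → MS A h m) :
    ∃ T, Fam A h n T ∧ n ≤ 2 * (h + 1).factorial * #T := by
  classical
  have h1 := dens A h n h le_rfl
  have h2 : Icc n0 n ⊆ {m ∈ range (n + 1) | MS A h m} := fun m hm => by
    rw [mem_Icc] at hm
    exact mem_filter.2 ⟨mem_range.2 (by omega), hA m hm.1⟩
  have h3 := card_le_card h2
  rw [Nat.card_Icc] at h3
  have : ∀ m, ∃ s : Finset ℕ, FS A h m → #s ≤ h ∧ (↑s : Set ℕ) ⊆ A ∧ ∑ x ∈ s, x = m := fun m => by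
    by_cases H : FS A h m
    · obtain ⟨s, hs⟩ := H; exact ⟨s, fun _ => hs⟩
    · exact ⟨∅, fun h => absurd h H⟩
  choose S hS using this
  refine ⟨{m ∈ range (n + 1) | FS A h m}.image S, ⟨fun s hs => ?_, fun s hs s' hs' e => ?_⟩, ?_⟩
  · obtain ⟨m, hm, rfl⟩ := mem_image.1 hs
    obtain ⟨h4, h5⟩ := mem_filter.1 hm
    obtain ⟨h6, h7, h8⟩ := hS m h5
    exact ⟨h6, h7, by rw [mem_range] at h4; omega⟩
  · obtain ⟨m, hm, rfl⟩ := mem_image.1 hs
    obtain ⟨m', hm', rfl⟩ := mem_image.1 hs'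
    rw [(hS m (mem_filter.1 hm).2).2.2, (hS m' (mem_filter.1 hm').2).2.2] at e
    rw [e]
  · rw [card_image_of_injOn fun m hm m' hm' e => by
      rw [← (hS m (mem_filter.1 hm).2).2.2, ← (hS m' (mem_filter.1 hm').2).2.2, e], mul_assoc]
    omega

theorem pop (F : ℕ → ℕ) (h : ℕ) : ∀ D0, ∃ Dm, ∀ A n T, Fam A h n T → n ≤ D0 * #T →
    ∃ D ≤ Dm, ∃ T', Fam A h n T' ∧ n ≤ D * #T' ∧ ∀ a, F D * #{s ∈ T' | a ∈ s} ≤ n := by
  induction h with
  | zero =>
    intro D0
    refine ⟨D0, fun A n T hT hn => ⟨D0, le_rfl, T, hT, hn, fun a => ?_⟩⟩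
    have : {s ∈ T | a ∈ s} = ∅ := filter_eq_empty_iff.2 fun s hs ha => by
      have := (hT.1 s hs).1
      have := card_pos.2 ⟨a, ha⟩
      omega
    simp [this]
  | succ h ih =>
    intro D0
    obtain ⟨Dm, hDm⟩ := ih (F D0)
    refine ⟨max D0 Dm, fun A n T hT hn => ?_⟩
    by_cases hc : ∀ a, F D0 * #{s ∈ T | a ∈ s} ≤ n
    · exact ⟨D0, le_max_left _ _, T, hT, hn, hc⟩
    push Not at hc
    obtain ⟨a, ha⟩ := hc
    have hinj : Set.InjOn (fun s : Finset ℕ => s.erase a) ↑{s ∈ T | a ∈ s} := by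
      intro s hs s' hs' e
      rw [← insert_erase (mem_filter.1 hs).2, ← insert_erase (mem_filter.1 hs').2]
      exact congrArg _ e
    obtain ⟨D, hD, T', h1, h2⟩ := hDm A n ({s ∈ T | a ∈ s}.image fun s => s.erase a)
      ⟨fun s0 hs0 => by
        obtain ⟨s, hs, rfl⟩ := mem_image.1 hs0
        obtain ⟨h1, h2⟩ := mem_filter.1 hs
        obtain ⟨h3, h4, h5⟩ := hT.1 s h1
        refine ⟨by rw [card_erase_of_mem h2]; omega,
          (coe_subset.2 (erase_subset a s)).trans h4,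
          (sum_le_sum_of_subset (erase_subset a s)).trans h5⟩,
      fun s0 hs0 s1 hs1 e => by
        obtain ⟨s, hs, rfl⟩ := mem_image.1 hs0
        obtain ⟨s', hs', rfl⟩ := mem_image.1 hs1
        obtain ⟨h1, h2⟩ := mem_filter.1 hs
        obtain ⟨h3, h4⟩ := mem_filter.1 hs'
        have e1 := add_sum_erase s (fun x => x) h2
        have e2 := add_sum_erase s' (fun x => x) h4
        rw [hT.2 s h1 s' h3 (by omega)]⟩ (by rw [card_image_of_injOn hinj]; omega)
    exact ⟨D, hD.trans (le_max_right _ _), T', ⟨fun s hs => ⟨(h1.1 s hs).1.trans (by omega),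
      (h1.1 s hs).2⟩, h1.2⟩, h2⟩

theorem avoid {T : Finset (Finset ℕ)} {ρ : ℕ} (hρ : ∀ a, #{s ∈ T | a ∈ s} ≤ ρ) (U : Finset ℕ) :
    #{s ∈ T | ¬ Disjoint s U} ≤ #U * ρ := by
  refine le_trans (card_le_card ?_) (card_biUnion_le_card_mul U
    (fun a => {s ∈ T | a ∈ s}) ρ fun a _ => hρ a)
  intro s hs
  obtain ⟨h1, h2⟩ := mem_filter.1 hs
  obtain ⟨a, h3, h4⟩ := not_disjoint_iff.1 h2
  exact mem_biUnion.2 ⟨a, h4, mem_filter.2 ⟨h1, h3⟩⟩

theorem fixers (A : Set ℕ) (q : ℕ) [NeZero q]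
    (hA : ∀ r : ZMod q, ∃ S : Finset ℕ, (↑S : Set ℕ) ⊆ A ∧ ((∑ x ∈ S, x : ℕ) : ZMod q) = r) :
    ∃ G : Finset ℕ, (↑G : Set ℕ) ⊆ A ∧ #G ≤ q * (2 * q) ∧
      ∀ r : ZMod q, ∃ S ⊆ G, ((∑ x ∈ S, x : ℕ) : ZMod q) = r := by
  have : ∀ r : ZMod q, ∃ S : Finset ℕ, (↑S : Set ℕ) ⊆ A ∧ ((∑ x ∈ S, x : ℕ) : ZMod q) = r ∧
      #S ≤ 2 * q := by
    intro r
    obtain ⟨S, ⟨h1, h2⟩, h3⟩ := (InvImage.wf (fun s : Finset ℕ => #s) Nat.lt_wfRel.wf).has_min
      {S | (↑S : Set ℕ) ⊆ A ∧ ((∑ x ∈ S, x : ℕ) : ZMod q) = r} (hA r)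
    refine ⟨S, h1, h2, ?_⟩
    by_contra hc
    obtain ⟨t, h4, h5, h6⟩ := ZMod.erdos_ginzburg_ziv (s := S) (fun x : ℕ => (x : ZMod q))
      (by omega)
    apply h3 (S \ t) ⟨(coe_subset.2 sdiff_subset).trans h1, ?_⟩
    · change #(S \ t) < #S
      rw [card_sdiff_of_subset h4]
      have := NeZero.pos q
      omega
    · rw [← h2, ← sum_sdiff h4]
      push_cast
      rw [h6, add_zero]
  choose S h1 h2 h3 using this
  refine ⟨univ.biUnion S, fun x hx => ?_, ?_, fun r => ⟨S r, subset_biUnion_of_mem S (mem_univ r), h2 r⟩⟩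
  · obtain ⟨r, _, hr⟩ := mem_biUnion.1 hx
    exact h1 r hr
  · refine (card_biUnion_le_card_mul _ _ _ fun r _ => h3 r).trans ?_
    rw [card_univ, ZMod.card]

end Pool.Agent.H55.RO
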