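import Pool.Agent.H55.RO1

/-! Restricted order of additive bases, part 2: pairs, growth in a cyclic group, counting. -/

namespace Pool.Agent.H55.RO

open Finset

theorem pairs {A : Set ℕ} {h n D ρ u : ℕ} {T : Finset (Finset ℕ)} (hT : Fam A h n T)
    (hρ : ∀ a, #{s ∈ T | a ∈ s} ≤ ρ) (hD : n ≤ D * #T) (h1 : 4 * D ≤ n) (hn : 1 ≤ n)
    (h2 : 4 * D * (h * ρ) ≤ n) (h3 : 16 * D * D * (u * ρ) < n) :
    ∃ d, n < 8 * D * d ∧ d ≤ n ∧ ∀ U : Finset ℕ, #U ≤ u → ∃ s ∈ T, ∃ s' ∈ T, Disjoint s s' ∧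
      Disjoint s U ∧ Disjoint s' U ∧ ∑ x ∈ s', x = ∑ x ∈ s, x + d := by
  classical
  have hDpos : 0 < D := Nat.pos_of_ne_zero (by rintro rfl; omega)
  have hTpos : 0 < #T := Nat.pos_of_ne_zero (by intro h0; rw [h0] at hD; omega)
  set w := n / (8 * D) with hw
  have hw1 : 8 * D * w ≤ n := Nat.mul_div_le _ _
  have hw2 : n < 8 * D * (w + 1) := Nat.lt_mul_div_succ _ (by omega)
  set σ : Finset ℕ → ℕ := fun s => ∑ x ∈ s, x with hσ
  set P := {p ∈ T ×ˢ T | Disjoint p.1 p.2 ∧ σ p.1 + w < σ p.2} with hP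
  have hcov : T ×ˢ T ⊆ P ∪ P.image Prod.swap ∪ T.biUnion (fun s =>
      ({s' ∈ T | σ s' ∈ Icc (σ s - w) (σ s + w)} ∪ {s' ∈ T | ¬ Disjoint s' s}).image
        (Prod.mk s)) := by
    rintro ⟨s, s'⟩ hp
    obtain ⟨hs, hs'⟩ := mem_product.1 hp
    by_cases c : Disjoint s' s ∧ σ s' ∉ Icc (σ s - w) (σ s + w)
    · obtain ⟨c1, c2⟩ := c
      rw [mem_Icc] at c2
      by_cases c3 : σ s + w < σ s'
      · exact mem_union_left _ (mem_union_left _ (mem_filter.2 ⟨hp, c1.symm, c3⟩))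
      · exact mem_union_left _ (mem_union_right _ (mem_image.2 ⟨(s', s),
          mem_filter.2 ⟨mem_product.2 ⟨hs', hs⟩, c1, by simp only; omega⟩, rfl⟩))
    · refine mem_union_right _ (mem_biUnion.2 ⟨s, hs, mem_image.2 ⟨s', ?_, rfl⟩⟩)
      by_cases c1 : Disjoint s' s
      · exact mem_union_left _ (mem_filter.2 ⟨hs', by tauto⟩)
      · exact mem_union_right _ (mem_filter.2 ⟨hs', c1⟩)
  have hc := (card_le_card hcov).trans ((card_union_le _ _).trans (Nat.add_le_add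
    ((card_union_le _ _).trans (Nat.add_le_add_left card_image_le _))
    (card_biUnion_le_card_mul _ _ (2 * w + 1 + h * ρ) fun s hs => card_image_le.trans
      ((card_union_le _ _).trans (Nat.add_le_add ?_ ((avoid hρ s).trans
        (Nat.mul_le_mul_right _ (hT.1 s hs).1)))))))
  swap
  · refine (card_le_card_of_injOn σ (t := Icc (σ s - w) (σ s + w))
      (fun s' hs' => (mem_filter.1 hs').2) fun a ha b hb e =>
        hT.2 a (mem_filter.1 ha).1 b (mem_filter.1 hb).1 e).trans ?_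
    rw [Nat.card_Icc]; omega
  rw [card_product] at hc
  have h4 : 4 * (2 * w + 1 + h * ρ) ≤ 3 * #T :=
    Nat.le_of_mul_le_mul_left (c := D) (by nlinarith) hDpos
  have h5 : #T * #T ≤ 8 * #P := by nlinarith
  have h6 : #(Icc 1 n) * (2 * (u * ρ)) < #P := by
    rw [Nat.card_Icc, Nat.add_sub_cancel]
    have h7 : n * n ≤ D * #T * (D * #T) := Nat.mul_le_mul hD hD
    have h8 := Nat.mul_le_mul_left (D * D) h5
    have h9 := (Nat.mul_lt_mul_left (a := n) hn).2 h3
    exact Nat.lt_of_mul_lt_mul_left (a := 8 * D * D) (by nlinarith)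
  obtain ⟨d, hd, h7⟩ := exists_lt_card_fiber_of_mul_lt_card_of_maps_to
    (f := fun p : Finset ℕ × Finset ℕ => σ p.2 - σ p.1) (fun p hp => by
      obtain ⟨h8, _, h9⟩ := mem_filter.1 hp
      have := (hT.1 p.2 (mem_product.1 h8).2).2.2
      exact mem_Icc.2 ⟨by omega, by simp only [hσ] at h9 ⊢; omega⟩) h6
  set Q := {p ∈ P | σ p.2 - σ p.1 = d} with hQ
  have hQ' : ∀ p ∈ Q, p.1 ∈ T ∧ p.2 ∈ T ∧ Disjoint p.1 p.2 ∧ σ p.2 = σ p.1 + d ∧ w < d := by
    intro p hp
    obtain ⟨h8, h9⟩ := mem_filter.1 hp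
    obtain ⟨h10, h11, h12⟩ := mem_filter.1 h8
    exact ⟨(mem_product.1 h10).1, (mem_product.1 h10).2, h11, by omega, by omega⟩
  obtain ⟨p0, hp0⟩ : Q.Nonempty := card_pos.1 (by omega)
  refine ⟨d, hw2.trans_le (Nat.mul_le_mul_left _ (hQ' p0 hp0).2.2.2.2), (mem_Icc.1 hd).2,
    fun U hU => ?_⟩
  by_contra hcon
  push Not at hcon
  have hsub : Q ⊆ {p ∈ Q | ¬ Disjoint p.1 U} ∪ {p ∈ Q | ¬ Disjoint p.2 U} := by
    intro p hp
    obtain ⟨h8, h9, h10, h11, _⟩ := hQ' p hp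
    by_cases c : Disjoint p.1 U
    · exact mem_union_right _ (mem_filter.2 ⟨hp, fun c2 => hcon _ h8 _ h9 h10 c c2 h11⟩)
    · exact mem_union_left _ (mem_filter.2 ⟨hp, c⟩)
  have hA := (avoid hρ U).trans (Nat.mul_le_mul_right ρ hU)
  have k1 : #{p ∈ Q | ¬ Disjoint p.1 U} ≤ #{s ∈ T | ¬ Disjoint s U} := by
    refine card_le_card_of_injOn Prod.fst (fun p hp => ?_) fun p hp p' hp' e => ?_
    · exact mem_filter.2 ⟨(hQ' p (mem_filter.1 hp).1).1, (mem_filter.1 hp).2⟩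
    · have a1 := hQ' p (mem_filter.1 hp).1
      have a2 := hQ' p' (mem_filter.1 hp').1
      exact Prod.ext e (hT.2 _ a1.2.1 _ a2.2.1 (a1.2.2.2.1.trans (by rw [e]; exact a2.2.2.2.1.symm)))
  have k2 : #{p ∈ Q | ¬ Disjoint p.2 U} ≤ #{s ∈ T | ¬ Disjoint s U} := by
    refine card_le_card_of_injOn Prod.snd (fun p hp => ?_) fun p hp p' hp' e => ?_
    · exact mem_filter.2 ⟨(hQ' p (mem_filter.1 hp).1).2.1, (mem_filter.1 hp).2⟩
    · have a1 := hQ' p (mem_filter.1 hp).1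
      have a2 := hQ' p' (mem_filter.1 hp').1
      refine Prod.ext (hT.2 _ a1.1 _ a2.1 ?_) e
      have a3 := a1.2.2.2.1
      have a4 := a2.2.2.2.1
      rw [e] at a3
      simp only [hσ] at a3 a4
      omega
  have := (card_le_card hsub).trans (card_union_le _ _)
  omega

theorem pair_iter {A : Set ℕ} {h n u d : ℕ} {T : Finset (Finset ℕ)} (hT : Fam A h n T)
    (H : ∀ U : Finset ℕ, #U ≤ u → ∃ s ∈ T, ∃ s' ∈ T, Disjoint s s' ∧
      Disjoint s U ∧ Disjoint s' U ∧ ∑ x ∈ s', x = ∑ x ∈ s, x + d)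
    (G : Finset ℕ) (hG : (↑G : Set ℕ) ⊆ A) : ∀ l, #G + 2 * h * l ≤ u →
    ∃ (U : Finset ℕ) (f : ℕ), G ⊆ U ∧ (↑U : Set ℕ) ⊆ A ∧ #U ≤ #G + 2 * h * l ∧ f ≤ l * n ∧
      ∀ j ≤ l, ∃ S ⊆ U \ G, ∑ x ∈ S, x = f + j * d := by
  intro l
  induction l with
  | zero =>
    intro _
    exact ⟨G, 0, subset_rfl, hG, by omega, by omega, fun j hj => ⟨∅, empty_subset _, by
      simp [Nat.le_zero.1 hj]⟩⟩
  | succ l ih =>
    intro hl
    rw [mul_add, mul_one] at hl ⊢
    obtain ⟨U, f, h1, h2, h3, h4, h5⟩ := ih (by omega)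
    obtain ⟨s, hs, s', hs', h6, h7, h8, h9⟩ := H U (by omega)
    obtain ⟨a1, a2, a3⟩ := hT.1 s hs
    obtain ⟨b1, b2, b3⟩ := hT.1 s' hs'
    have key : ∀ t S : Finset ℕ, t ⊆ s ∪ s' → S ⊆ U \ G → S ∪ t ⊆ (U ∪ (s ∪ s')) \ G ∧
        ∑ x ∈ S ∪ t, x = ∑ x ∈ S, x + ∑ x ∈ t, x := by
      intro t S ht hS
      have hd : Disjoint t U := (disjoint_union_left.2 ⟨h7, h8⟩).mono_left ht
      refine ⟨union_subset (hS.trans (sdiff_subset_sdiff subset_union_left subset_rfl))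
        (subset_sdiff.2 ⟨ht.trans subset_union_right, hd.mono_right h1⟩), sum_union ?_⟩
      exact (hd.mono_right (hS.trans sdiff_subset)).symm
    refine ⟨U ∪ (s ∪ s'), f + ∑ x ∈ s, x, h1.trans subset_union_left, ?_, ?_, ?_, fun j hj => ?_⟩
    · rw [coe_union, coe_union]; exact Set.union_subset h2 (Set.union_subset a2 b2)
    · have := card_union_le U (s ∪ s')
      have := card_union_le s s'
      omega
    · rw [add_mul]; omega
    · rcases Nat.eq_zero_or_pos j with rfl | hj0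
      · obtain ⟨S, h10, h11⟩ := h5 0 (by omega)
        obtain ⟨h12, h13⟩ := key s S subset_union_left h10
        exact ⟨_, h12, by omega⟩
      · obtain ⟨j, rfl⟩ : ∃ i, j = i + 1 := ⟨j - 1, by omega⟩
        obtain ⟨S, h10, h11⟩ := h5 j (by omega)
        obtain ⟨h12, h13⟩ := key s' S subset_union_right h10
        exact ⟨_, h12, by rw [add_mul]; omega⟩

section grp
variable {G : Type} [AddCommGroup G] [Fintype G] [DecidableEq G]

def lam (X : Finset G) (x : G) : ℕ := #{c ∈ X | c + x ∉ X}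

omit [Fintype G] in
theorem lam_add (X : Finset G) (x y : G) : lam X (x + y) ≤ lam X x + lam X y := by
  have h1 : {c ∈ X | c + (x + y) ∉ X} ⊆ {c ∈ X | c + x ∉ X} ∪
      {c ∈ X | c + y ∉ X}.image (· - x) := by
    intro c hc
    obtain ⟨h1, h2⟩ := mem_filter.1 hc
    by_cases h : c + x ∈ X
    · exact mem_union_right _ (mem_image.2 ⟨c + x, mem_filter.2 ⟨h, by rwa [add_assoc]⟩, by simp⟩)
    · exact mem_union_left _ (mem_filter.2 ⟨h1, h⟩)
  exact (card_le_card h1).trans ((card_union_le _ _).trans (Nat.add_le_add_left card_image_le _))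

omit [Fintype G] in
theorem lam_neg (X : Finset G) (x : G) : lam X (-x) ≤ lam X x := by
  have h1 := card_filter_add_card_filter_not (s := X) (fun c => c + x ∈ X)
  have h2 := card_filter_add_card_filter_not (s := X) (fun c => c + -x ∈ X)
  have h3 : #{c ∈ X | c + x ∈ X} ≤ #{c ∈ X | c + -x ∈ X} :=
    card_le_card_of_injOn (· + x) (fun c hc => mem_filter.2 ⟨(mem_filter.1 hc).2, by
      simpa using (mem_filter.1 hc).1⟩) fun a _ b _ e => add_right_cancel e
  unfold lam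
  omega

theorem grp (X B : Finset G) (D R n : ℕ) (hB : Fintype.card G ≤ D * #B)
    (hl : ∀ b ∈ B, R * lam X b ≤ n) : ∃ H : AddSubgroup G, (∀ b ∈ B, b ∈ H) ∧
      ∀ x ∈ H, R * lam X x ≤ (3 * D + 3) * n := by
  set Λ : ℕ → Finset G := fun i => {x | R * lam X x ≤ i * n} with hΛ
  have hm : ∀ i x, x ∈ Λ i ↔ R * lam X x ≤ i * n := fun i x => by simp [hΛ]
  have hp : ∀ i x, ∀ b ∈ B, x ∈ Λ i → x + b ∈ Λ (i + 1) := fun i x b hb hx => by
    rw [hm] at hx ⊢
    have := Nat.mul_le_mul_left R (lam_add X x b)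
    have := hl b hb
    rw [mul_add] at *; rw [add_mul]; omega
  have hn : ∀ i x, ∀ b ∈ B, x + b ∈ Λ i → x ∈ Λ (i + 1) := fun i x b hb hx => by
    rw [hm] at hx ⊢
    have h1 := Nat.mul_le_mul_left R (lam_add X (x + b) (-b))
    have := Nat.mul_le_mul_left R (lam_neg X b)
    have := hl b hb
    rw [add_neg_cancel_right, mul_add] at h1; rw [add_mul]; omega
  have hmono : ∀ i j, i ≤ j → Λ i ⊆ Λ j := fun i j hij x hx => by
    rw [hm] at hx ⊢; exact hx.trans (Nat.mul_le_mul_right _ hij)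
  obtain ⟨i, hi, hs⟩ : ∃ i ≤ 3 * D + 3, Λ (i + 1) ⊆ Λ i := by
    by_contra hc
    push Not at hc
    have key : ∀ k ≤ D + 1, k * #B ≤ #(Λ (3 * k)) := by
      intro k
      induction k with
      | zero => simp
      | succ k ih =>
        intro hk
        obtain ⟨x, h1, h2⟩ := not_subset.1 (hc (3 * k + 1) (by omega))
        have h3 : Λ (3 * k) ∪ B.image (x + ·) ⊆ Λ (3 * (k + 1)) :=
          union_subset (hmono _ _ (by omega)) fun y hy => by
            obtain ⟨b, hb, rfl⟩ := mem_image.1 hy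
            exact hp _ _ b hb h1
        have h4 := card_le_card h3
        rw [card_union_of_disjoint (disjoint_right.2 fun y hy hy' => by
          obtain ⟨b, hb, rfl⟩ := mem_image.1 hy
          exact h2 (hn _ _ b hb hy')), card_image_of_injective _ (add_right_injective x)] at h4
        have := ih (by omega)
        rw [add_mul]; omega
    have h1 := (key (D + 1) le_rfl).trans (card_le_univ _)
    have h2 : 0 < Fintype.card G := Fintype.card_pos
    have h3 : 0 < #B := Nat.pos_of_ne_zero (by intro h0; rw [h0] at hB; omega)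
    rw [add_mul] at h1; omega
  refine ⟨⟨⟨⟨{x | ∀ y, y ∈ Λ i ↔ y + x ∈ Λ i}, fun {a b} ha hb y => ?_⟩, fun y => by simp⟩,
    fun {a} ha y => ?_⟩, fun b hb y => ⟨fun h => hs (hp _ _ b hb h), fun h => hs (hn _ _ b hb h)⟩,
    fun x hx => ?_⟩
  · rw [← add_assoc]; exact (ha y).trans (hb _)
  · have := ha (y + -a)
    rw [neg_add_cancel_right] at this
    exact this.symm
  · have h0 : (0 : G) ∈ Λ i := by
      rw [hm, lam, filter_eq_empty_iff.2 (by simp)]; simp
    have := (hx 0).1 h0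
    rw [zero_add, hm] at this
    exact this.trans (Nat.mul_le_mul_right _ hi)

theorem aver (X : Finset G) (hX : X.Nonempty) (H : Finset G) (R m : ℕ)
    (hH : ∀ x ∈ H, R * lam X x ≤ m) :
    ∃ c, R * #{x ∈ H | c + x ∉ X} * #X ≤ Fintype.card G * m := by
  obtain ⟨c, _, hc⟩ := exists_min_image X (fun c => #{x ∈ H | c + x ∉ X}) hX
  refine ⟨c, ?_⟩
  have h1 := card_nsmul_le_sum X _ _ hc
  have h2 : ∑ c ∈ X, #{x ∈ H | c + x ∉ X} = ∑ x ∈ H, lam X x := by
    simp only [lam, card_filter]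
    exact sum_comm
  have h3 := sum_le_card_nsmul H _ _ hH
  rw [← mul_sum] at h3
  have h4 := Nat.mul_le_mul_right m (card_le_univ H)
  rw [smul_eq_mul] at h1 h3
  rw [h2] at h1
  have := Nat.mul_le_mul_left R h1
  nlinarith

theorem pair_count (T : Finset (Finset ℕ)) (τ : Finset ℕ → G)
    (hτ : ∀ s ∈ T, ∀ s' ∈ T, τ s = τ s' → s = s') (z : G) (Q : G → Finset ℕ → Prop)
    [∀ x s, Decidable (Q x s)] (m : ℕ) (hQ : ∀ x, #{s ∈ T | Q x s} ≤ m) :
    #{p ∈ T ×ˢ T | Q (z - τ p.1 - τ p.2) p.2} ≤ Fintype.card G * m := by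
  refine le_trans (card_le_card_of_injOn (fun p => (z - τ p.1 - τ p.2, p.2))
    (t := univ.biUnion fun x => {s ∈ T | Q x s}.image (Prod.mk x)) (fun p hp => ?_)
    fun p hp p' hp' e => ?_) ((card_biUnion_le_card_mul _ _ m fun x _ =>
      card_image_le.trans (hQ x)).trans (by rw [card_univ]))
  · obtain ⟨h1, h2⟩ := mem_filter.1 hp
    exact mem_biUnion.2 ⟨_, mem_univ _, mem_image.2 ⟨p.2, mem_filter.2
      ⟨(mem_product.1 h1).2, h2⟩, rfl⟩⟩
  · obtain ⟨e1, e2⟩ := Prod.mk.inj e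
    rw [e2, sub_left_inj, sub_right_inj] at e1
    exact Prod.ext (hτ _ (mem_product.1 (mem_filter.1 hp).1).1 _
      (mem_product.1 (mem_filter.1 hp').1).1 e1) e2

theorem final_count (T : Finset (Finset ℕ)) (τ : Finset ℕ → G)
    (hτ : ∀ s ∈ T, ∀ s' ∈ T, τ s = τ s' → s = s') (h ρ β : ℕ) (hT : ∀ s ∈ T, #s ≤ h)
    (hρ : ∀ a, #{s ∈ T | a ∈ s} ≤ ρ) (Bad : Finset G) (hβ : #Bad ≤ β) (φ : G → Finset ℕ)
    (hφ : ∀ x, #(φ x) ≤ h) (z : G)
    (hlt : #T * (β + h * ρ) + 2 * (Fintype.card G * (h * ρ)) < #T * #T) :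
    ∃ s ∈ T, ∃ s' ∈ T, z - τ s - τ s' ∉ Bad ∧ Disjoint s' s ∧
      Disjoint s (φ (z - τ s - τ s')) ∧ Disjoint s' (φ (z - τ s - τ s')) := by
  by_contra hc
  push Not at hc
  have h1 := pair_count T τ hτ z (fun x s => ¬ Disjoint s (φ x)) (h * ρ) fun x =>
    (avoid hρ _).trans (Nat.mul_le_mul_right _ (hφ x))
  set P := {p ∈ T ×ˢ T | ¬ Disjoint p.2 (φ (z - τ p.1 - τ p.2))} with hP
  have hcov : T ×ˢ T ⊆ P ∪ P.image Prod.swap ∪ T.biUnion (fun s =>
      ({s' ∈ T | z - τ s - τ s' ∈ Bad} ∪ {s' ∈ T | ¬ Disjoint s' s}).image (Prod.mk s)) := by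
    rintro ⟨s, s'⟩ hp
    obtain ⟨hs, hs'⟩ := mem_product.1 hp
    by_cases c : z - τ s - τ s' ∉ Bad ∧ Disjoint s' s
    · by_cases c3 : Disjoint s (φ (z - τ s - τ s'))
      · exact mem_union_left _ (mem_union_left _ (mem_filter.2 ⟨hp, hc s hs s' hs' c.1 c.2 c3⟩))
      · exact mem_union_left _ (mem_union_right _ (mem_image.2 ⟨(s', s),
          mem_filter.2 ⟨mem_product.2 ⟨hs', hs⟩, by rwa [sub_right_comm]⟩, rfl⟩))
    · refine mem_union_right _ (mem_biUnion.2 ⟨s, hs, mem_image.2 ⟨s', ?_, rfl⟩⟩)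
      by_cases c1 : Disjoint s' s
      · exact mem_union_left _ (mem_filter.2 ⟨hs', by tauto⟩)
      · exact mem_union_right _ (mem_filter.2 ⟨hs', c1⟩)
  have h2 := (card_le_card hcov).trans ((card_union_le _ _).trans (Nat.add_le_add
    ((card_union_le _ _).trans (Nat.add_le_add_left card_image_le _))
    (card_biUnion_le_card_mul _ _ (β + h * ρ) fun s hs => card_image_le.trans
      ((card_union_le _ _).trans (Nat.add_le_add ?_ ((avoid hρ s).trans
        (Nat.mul_le_mul_right _ (hT s hs))))))))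
  · rw [card_product] at h2; omega
  · refine (card_le_card_of_injOn (fun s' => z - τ s - τ s') (t := Bad)
      (fun s' hs' => (mem_filter.1 hs').2) fun a ha b hb e =>
        hτ a (mem_filter.1 ha).1 b (mem_filter.1 hb).1 (sub_right_inj.1 e)).trans hβ

end grp

open Pointwise in
theorem growth {A : Set ℕ} {h n d R : ℕ} [NeZero d] (hd : d ≤ n) {T : Finset (Finset ℕ)}
    (hT : Fam A h n T) (B : Finset (ZMod d)) (U0 : Finset ℕ) (hU0 : (↑U0 : Set ℕ) ⊆ A) :
    ∃ (U : Finset ℕ) (Y : Finset (ZMod d)), U0 ⊆ U ∧ (↑U : Set ℕ) ⊆ A ∧ #U ≤ #U0 + h * R ∧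
      #Y ≤ 2 ^ R ∧ Y.Nonempty ∧
      (∀ y ∈ Y, ∃ S ⊆ U \ U0, ∑ x ∈ S, x ≤ R * n ∧ ((∑ x ∈ S, x : ℕ) : ZMod d) = y) ∧
      ∀ s ∈ T, Disjoint s U → R * lam (B + Y) ((∑ x ∈ s, x : ℕ) : ZMod d) ≤ n := by
  by_contra hc
  push Not at hc
  have key : ∀ r ≤ R + 1, ∃ (U : Finset ℕ) (Y : Finset (ZMod d)), U0 ⊆ U ∧ (↑U : Set ℕ) ⊆ A ∧
      #U ≤ #U0 + h * r ∧ #Y ≤ 2 ^ r ∧ Y.Nonempty ∧
      (∀ y ∈ Y, ∃ S ⊆ U \ U0, ∑ x ∈ S, x ≤ r * n ∧ ((∑ x ∈ S, x : ℕ) : ZMod d) = y) ∧
      r * n ≤ R * #(B + Y) := by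
    intro r
    induction r with
    | zero =>
      intro _
      exact ⟨U0, {0}, subset_rfl, hU0, by omega, by simp, by simp,
        fun y hy => ⟨∅, empty_subset _, by simp, by simpa using (mem_singleton.1 hy).symm⟩, by simp⟩
    | succ r ih =>
      intro hr
      obtain ⟨U, Y, h1, h2, h3, h4, h5, h6, h7⟩ := ih (by omega)
      have hrR : r ≤ R := by omega
      obtain ⟨s, hs, h8, h9⟩ := hc U Y h1 h2 (h3.trans (by gcongr))
        (h4.trans (Nat.pow_le_pow_right (by omega) hrR)) h5 fun y hy => by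
          obtain ⟨S, a1, a2, a3⟩ := h6 y hy
          exact ⟨S, a1, a2.trans (by gcongr), a3⟩
      obtain ⟨b1, b2, b3⟩ := hT.1 s hs
      set b : ZMod d := ((∑ x ∈ s, x : ℕ) : ZMod d) with hb
      refine ⟨U ∪ s, Y ∪ Y.image (· + b), h1.trans subset_union_left, ?_, ?_, ?_,
        h5.mono subset_union_left, fun y hy => ?_, ?_⟩
      · rw [coe_union]; exact Set.union_subset h2 b2
      · have := card_union_le U s
        rw [mul_add]; omega
      · have := card_union_le Y (Y.image (· + b))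
        have := card_image_le (s := Y) (f := (· + b))
        rw [pow_succ]; omega
      · rcases mem_union.1 hy with hy | hy
        · obtain ⟨S, a1, a2, a3⟩ := h6 y hy
          exact ⟨S, a1.trans (sdiff_subset_sdiff subset_union_left subset_rfl),
            by rw [add_mul]; omega, a3⟩
        · obtain ⟨y', hy', rfl⟩ := mem_image.1 hy
          obtain ⟨S, a1, a2, a3⟩ := h6 y' hy'
          have e : ∑ x ∈ S ∪ s, x = ∑ x ∈ S, x + ∑ x ∈ s, x :=
            sum_union (h8.mono_right (a1.trans sdiff_subset)).symm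
          refine ⟨S ∪ s, union_subset (a1.trans (sdiff_subset_sdiff subset_union_left subset_rfl))
            (subset_sdiff.2 ⟨subset_union_right, h8.mono_right h1⟩), by rw [add_mul]; omega, ?_⟩
          rw [e, Nat.cast_add, a3]
      · have a1 : (B + Y) ∪ {c ∈ B + Y | c + b ∉ B + Y}.image (· + b) ⊆
            B + (Y ∪ Y.image (· + b)) := by
          refine union_subset (add_subset_add_left subset_union_left) fun y hy => ?_
          obtain ⟨c, hc, rfl⟩ := mem_image.1 hy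
          obtain ⟨x, hx, y', hy', rfl⟩ := mem_add.1 (mem_filter.1 hc).1
          rw [add_assoc]
          exact add_mem_add hx (mem_union_right _ (mem_image_of_mem _ hy'))
        have a2 := card_le_card a1
        rw [card_union_of_disjoint (disjoint_right.2 fun y hy hy' => by
          obtain ⟨c, hc, rfl⟩ := mem_image.1 hy
          exact (mem_filter.1 hc).2 hy'), card_image_of_injective _ (add_left_injective b)] at a2
        have a3 := Nat.mul_le_mul_left R a2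
        unfold lam at h9
        rw [mul_add] at a3; rw [add_mul]; omega
  obtain ⟨U, Y, -, -, -, -, -, -, h7⟩ := key (R + 1) le_rfl
  have h1 := card_le_univ (B + Y)
  rw [ZMod.card] at h1
  have := Nat.mul_le_mul_left R (h1.trans hd)
  have := NeZero.pos d
  rw [add_mul] at h7; omega

end Pool.Agent.H55.RO
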