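import Pool.Agent.H55.RO2

/-! Restricted order of additive bases, part 3: the main theorem. -/

namespace Pool.Agent.H55.RO

open Finset

open Pointwise in
theorem core' {A : Set ℕ} {h C D D1 k R L u ρ n : ℕ} {T : Finset (Finset ℕ)} {G : Finset ℕ}
    (hD1 : D1 = 2 * (D * (8 * D + 1))) (hk : k = 3 * D1 + 3) (hR : R = 4 * (D1 * D1 * k))
    (hL : L = 8 * D * (R + 4 + C)) (hu : #G + 2 * h * L + h * R ≤ u)
    (hT : Fam A h n T) (hD : n ≤ D * #T) (hρ : ∀ a, #{s ∈ T | a ∈ s} ≤ ρ) (h4 : 4 * D ≤ n)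
    (hn : 1 ≤ n) (hG : (↑G : Set ℕ) ⊆ A) (hGn : ∑ x ∈ G, x ≤ n)
    (hfix : ∀ m : ℕ, ∃ S ⊆ G, ∑ x ∈ S, x ≡ m [MOD D1.factorial])
    (i1 : 16 * D * D * (u * ρ) < n) (i2 : 4 * D * (h * ρ) ≤ n) (i3 : D1 * (u * ρ) ≤ n)
    (i4 : D1 * (4 * (u * ρ * 2 ^ R + h * ρ)) ≤ n) (i5 : D1 * (8 * D1 * (h * ρ)) ≤ n) :
    ∃ f ≤ (L + R + 4) * n, ∀ m, f ≤ m → m ≤ f + C * n → FS A (u + 3 * h) m := by
  classical
  obtain ⟨d, hd1, hd2, hP⟩ := pairs hT hρ hD h4 hn i2 i1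
  have hd0 : 0 < d := Nat.pos_of_ne_zero (by rintro rfl; omega)
  have : NeZero d := ⟨hd0.ne'⟩
  obtain ⟨U0, f, a1, a2, a3, a4, a5⟩ := pair_iter hT hP G hG L (by omega)
  set σ : Finset ℕ → ℕ := fun s => ∑ x ∈ s, x with hσ
  obtain ⟨v, -, hv⟩ := exists_max_image (range (8 * D + 1))
    (fun v => #{s ∈ T | σ s / d = v}) (by simp)
  set T' := {s ∈ T | σ s / d = v} with hT'
  have b1 : #T ≤ (8 * D + 1) * #T' := by
    rw [card_eq_sum_card_fiberwise (f := fun s => σ s / d) (t := range (8 * D + 1)) fun s hs => by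
      have := (hT.1 s hs).2.2
      refine mem_coe.2 (mem_range.2 ((Nat.div_lt_iff_lt_mul hd0).2 ?_))
      rw [add_mul]; simp only [hσ]; omega]
    simpa using sum_le_card_nsmul _ _ _ hv
  set τ : Finset ℕ → ZMod d := fun s => (σ s : ZMod d) with hτ
  have hinj : ∀ s ∈ T', ∀ s' ∈ T', τ s = τ s' → s = s' := by
    intro s hs s' hs' e
    obtain ⟨c1, c2⟩ := mem_filter.1 hs
    obtain ⟨c3, c4⟩ := mem_filter.1 hs'
    have e1 : σ s % d = σ s' % d := (ZMod.natCast_eq_natCast_iff' _ _ _).1 e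
    refine hT.2 s c1 s' c3 ?_
    change σ s = σ s'
    rw [← Nat.div_add_mod (σ s) d, ← Nat.div_add_mod (σ s') d, c2, c4, e1]
  have hF' : Fam A h n T' := hT.sub (filter_subset _ _)
  obtain ⟨U, Y, c1, c2, c3, c4, c5, c6, c7⟩ := growth (R := R) hd2 hF' (T'.image τ) U0 a2
  set T2 := {s ∈ T' | Disjoint s U} with hT2
  have hs2 : T2 ⊆ T' := filter_subset _ _
  have hρ' : ∀ S ⊆ T, ∀ a, #{s ∈ S | a ∈ s} ≤ ρ := fun S hS a =>
    (card_le_card (filter_subset_filter _ hS)).trans (hρ a)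
  have b2 : #{s ∈ T' | ¬ Disjoint s U} ≤ u * ρ :=
    (avoid (hρ' T' (filter_subset _ _)) U).trans (Nat.mul_le_mul_right _ (by omega))
  have b3 : n ≤ D1 * #T2 := by
    have e1 : #T2 + #{s ∈ T' | ¬ Disjoint s U} = #T' := card_filter_add_card_filter_not _
    have e2 := Nat.mul_le_mul_left D b1
    have e3 := Nat.mul_le_mul_left (D * (8 * D + 1)) (show #T' ≤ #T2 + u * ρ by omega)
    rw [← mul_assoc] at e2
    rw [mul_add (D * (8 * D + 1))] at e3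
    rw [hD1, mul_assoc 2] at i3 ⊢
    omega
  have hT2pos : 0 < #T2 := Nat.pos_of_ne_zero (by intro h0; rw [h0] at b3; omega)
  have hD1pos : 0 < D1 := Nat.pos_of_ne_zero (by intro h0; rw [h0] at b3; omega)
  have hinj2 : ∀ s ∈ T2, ∀ s' ∈ T2, τ s = τ s' → s = s' :=
    fun s hs s' hs' => hinj s (hs2 hs) s' (hs2 hs')
  have b4 : #(T2.image τ) = #T2 := card_image_of_injOn hinj2
  set X := T'.image τ + Y with hX
  obtain ⟨H, d1, d2⟩ := grp X (T2.image τ) D1 R n (by rw [ZMod.card, b4]; omega) fun b hb => by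
    obtain ⟨s, hs, rfl⟩ := mem_image.1 hb
    exact c7 s (hs2 hs) (mem_filter.1 hs).2
  have b5 : #T2 ≤ #X := by
    rw [← b4]
    exact (card_le_card (image_subset_image hs2)).trans (card_le_card_add_right c5)
  obtain ⟨c, hc⟩ := aver X (card_pos.1 (by omega)) {x | x ∈ H} R (k * n) fun x hx => by
    rw [hk]; exact d2 x (mem_filter.1 hx).2
  set bad := #{x ∈ ({x | x ∈ H} : Finset (ZMod d)) | c + x ∉ X} with hbad
  have b6 : 4 * bad ≤ #T2 := by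
    rw [ZMod.card] at hc
    have e1 := Nat.mul_le_mul_left (R * bad) b5
    have e2 : d * (k * n) ≤ D1 * #T2 * (k * (D1 * #T2)) := Nat.mul_le_mul (hd2.trans b3) (Nat.mul_le_mul_left _ b3)
    refine Nat.le_of_mul_le_mul_left (c := D1 * D1 * k * #T2) ?_ (Nat.mul_pos (Nat.mul_pos (Nat.mul_pos hD1pos hD1pos) (by omega)) hT2pos)
    have e3 : D1 * D1 * k * #T2 * (4 * bad) = R * bad * #T2 := by rw [hR]; ring
    have e4 : D1 * D1 * k * #T2 * #T2 = D1 * #T2 * (k * (D1 * #T2)) := by ring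
    omega
  set Bad : Finset (ZMod d) := {x | x - c ∈ H ∧ x ∉ T2.image τ + Y} with hBad
  have b7 : #Bad ≤ bad + u * ρ * 2 ^ R := by
    have e1 : Bad ⊆ {x ∈ ({x | x ∈ H} : Finset (ZMod d)) | c + x ∉ X}.image (c + ·) ∪
        ({s ∈ T' | ¬ Disjoint s U}.image τ + Y) := by
      intro x hx
      obtain ⟨-, e2, e3⟩ := mem_filter.1 hx
      by_cases e4 : x ∈ X
      · obtain ⟨b, hb, y, hy, rfl⟩ := mem_add.1 e4
        obtain ⟨s, hs, rfl⟩ := mem_image.1 hb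
        exact mem_union_right _ (add_mem_add (mem_image_of_mem _ (mem_filter.2 ⟨hs, fun e5 =>
          e3 (add_mem_add (mem_image_of_mem _ (mem_filter.2 ⟨hs, e5⟩)) hy)⟩)) hy)
      · exact mem_union_left _ (mem_image.2 ⟨x - c, by simpa using ⟨e2, e4⟩, by simp⟩)
    exact (card_le_card e1).trans ((card_union_le _ _).trans (Nat.add_le_add card_image_le
      (card_add_le.trans (Nat.mul_le_mul (card_image_le.trans b2) c4))))
  have : ∀ x : ZMod d, ∃ s : Finset ℕ, #s ≤ h ∧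
      (x ∈ T2.image τ + Y → s ∈ T2 ∧ ∃ y ∈ Y, τ s + y = x) := fun x => by
    by_cases e : x ∈ T2.image τ + Y
    · obtain ⟨b, hb, y, hy, rfl⟩ := mem_add.1 e
      obtain ⟨s, hs, rfl⟩ := mem_image.1 hb
      exact ⟨s, (hF'.1 s (hs2 hs)).1, fun _ => ⟨hs, y, hy, rfl⟩⟩
    · exact ⟨∅, by simp, fun e' => absurd e' e⟩
  choose φ hφ1 hφ2 using this
  have hidx : H.index ∣ D1.factorial := by
    have e1 := H.card_mul_index
    rw [Nat.card_zmod] at e1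
    have e2 : #T2 ≤ Nat.card H := by
      rw [← b4, Nat.card_eq_fintype_card, Fintype.card_subtype]
      exact card_le_card fun b hb => mem_filter.2 ⟨mem_univ _, d1 b hb⟩
    refine Nat.dvd_factorial (Nat.pos_of_ne_zero (by intro h0; rw [h0] at e1; omega)) ?_
    have e3 := Nat.mul_le_mul_right H.index e2
    exact Nat.le_of_mul_le_mul_left (c := #T2) (by rw [mul_comm #T2 D1]; omega) hT2pos
  refine ⟨f + (R + 4) * n, by rw [add_assoc L, add_mul L]; omega, fun m hm1 hm2 => ?_⟩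
  obtain ⟨m', rfl⟩ : ∃ m', m = f + m' := ⟨m - f, by omega⟩
  obtain ⟨SG, e1, e2⟩ := hfix ((m' : ZMod d) - c).val
  have e3 : (m' : ZMod d) - τ SG - c ∈ H := by
    obtain ⟨t, ht⟩ := (e2.of_dvd hidx).dvd
    have := congrArg (Int.cast : ℤ → ZMod d) ht
    push_cast at this
    rw [ZMod.natCast_zmod_val] at this
    have e4 := H.nsmul_index_mem (t : ZMod d)
    rw [nsmul_eq_mul, ← this] at e4
    convert e4 using 1
    simp only [hτ, hσ]; push_cast; ring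
  obtain ⟨s, hs, s', hs', f1, f2, f3, f4⟩ := final_count T2 τ hinj2 h ρ _
    (fun s hs => (hF'.1 s (hs2 hs)).1) (hρ' T2 (hs2.trans (filter_subset _ _))) Bad b7 φ hφ1
    ((m' : ZMod d) - τ SG) (by
      rw [ZMod.card]
      have g1 : 4 * (u * ρ * 2 ^ R + h * ρ) ≤ #T2 :=
        Nat.le_of_mul_le_mul_left (i4.trans b3) hD1pos
      have g2 : 8 * D1 * (h * ρ) ≤ #T2 := Nat.le_of_mul_le_mul_left (i5.trans b3) hD1pos
      have g3 := Nat.mul_le_mul_right (h * ρ) (hd2.trans b3)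
      have g4 := Nat.mul_le_mul_left #T2 g2
      have g5 := Nat.mul_le_mul_left #T2 (show 2 * (bad + u * ρ * 2 ^ R + h * ρ) ≤ #T2 by omega)
      have g6 : 0 < #T2 * #T2 := Nat.mul_pos hT2pos hT2pos
      rw [mul_left_comm] at g5
      rw [show #T2 * (8 * D1 * (h * ρ)) = 8 * (D1 * #T2 * (h * ρ)) by ring] at g4
      omega)
  set x := (m' : ZMod d) - τ SG - τ s - τ s' with hx
  have f5 : x ∈ T2.image τ + Y := by
    by_contra g
    refine f1 (mem_filter.2 ⟨mem_univ _, ?_, g⟩)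
    have := H.sub_mem (H.sub_mem e3 (d1 _ (mem_image_of_mem τ hs))) (d1 _ (mem_image_of_mem τ hs'))
    convert this using 1
    rw [hx]; ring
  obtain ⟨f6, y, hy, f7⟩ := hφ2 x f5
  obtain ⟨SY, g1, g2, g3⟩ := c6 y hy
  obtain ⟨k1, k2, k3⟩ := hF'.1 s (hs2 hs)
  obtain ⟨k4, k5, k6⟩ := hF'.1 s' (hs2 hs')
  obtain ⟨k7, k8, k9⟩ := hF'.1 _ (hs2 f6)
  have g4 : ∑ x ∈ SG, x ≤ n := (sum_le_sum_of_subset e1).trans hGn
  rw [add_mul] at hm1 hm2
  obtain ⟨j, hj⟩ : d ∣ m' - (σ SG + σ s + σ s' + σ (φ x) + σ SY) := by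
    rw [← Nat.modEq_iff_dvd' (by simp only [hσ]; omega), ← ZMod.natCast_eq_natCast_iff]
    push_cast
    change τ SG + τ s + τ s' + τ (φ x) + τ SY = _
    rw [show τ SY = y from g3, add_assoc, f7, hx]; ring
  have hjL : j ≤ L := by
    have g5 := Nat.mul_le_mul_left (R + 4 + C) hd1.le
    refine Nat.le_of_mul_le_mul_left (c := d) ?_ hd0
    have g6 : d * L = (R + 4 + C) * (8 * D * d) := by rw [hL]; ring
    have g7 : (R + 4 + C) * n = R * n + 4 * n + C * n := by ring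
    calc d * j ≤ m' := hj ▸ Nat.sub_le _ _
      _ ≤ (R + 4 + C) * n := by omega
      _ ≤ d * L := g6 ▸ g5
  obtain ⟨SJ, g5, g6⟩ := a5 j hjL
  have l1 : SG ∪ SJ ⊆ U0 := union_subset (e1.trans a1) (g5.trans sdiff_subset)
  have l2 : SG ∪ SJ ∪ SY ⊆ U := union_subset (l1.trans c1) (g1.trans sdiff_subset)
  have l3 := (mem_filter.1 hs).2
  have l4 := (mem_filter.1 hs').2
  have l5 := (mem_filter.1 f6).2
  refine ⟨SG ∪ SJ ∪ SY ∪ s ∪ s' ∪ φ x, ?_, ?_, ?_⟩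
  · have := card_le_card l2
    have := card_union_le (SG ∪ SJ ∪ SY) s
    have := card_union_le (SG ∪ SJ ∪ SY ∪ s) s'
    have := card_union_le (SG ∪ SJ ∪ SY ∪ s ∪ s') (φ x)
    omega
  · rw [coe_union, coe_union, coe_union]
    exact Set.union_subset (Set.union_subset (Set.union_subset
      ((coe_subset.2 l2).trans c2) k2) k5) k8
  · rw [sum_union (disjoint_union_left.2 ⟨disjoint_union_left.2 ⟨(l5.mono_right l2).symm, f3⟩, f4⟩),
      sum_union (disjoint_union_left.2 ⟨(l4.mono_right l2).symm, f2.symm⟩),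
      sum_union (l3.mono_right l2).symm,
      sum_union ((disjoint_of_subset_left g1 sdiff_disjoint).mono_right l1).symm,
      sum_union ((disjoint_of_subset_left g5 sdiff_disjoint).mono_right e1).symm, g6,
      mul_comm j]
    simp only [hσ] at hj
    omega

theorem core (h C D : ℕ) : ∃ F K q : ℕ, 0 < q ∧ ∀ (A : Set ℕ) (n : ℕ) (T : Finset (Finset ℕ))
    (G : Finset ℕ), Fam A h n T → n ≤ D * #T → (∀ a, F * #{s ∈ T | a ∈ s} ≤ n) → 4 * D ≤ n →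
    1 ≤ n → (↑G : Set ℕ) ⊆ A → #G ≤ q * (2 * q) → ∑ x ∈ G, x ≤ n →
    (∀ m : ℕ, ∃ S ⊆ G, ∑ x ∈ S, x ≡ m [MOD q]) →
    ∃ f ≤ K * n, ∀ m, f ≤ m → m ≤ f + C * n → FS A K m := by
  obtain ⟨D1, hD1⟩ : ∃ D1, D1 = 2 * (D * (8 * D + 1)) := ⟨_, rfl⟩
  obtain ⟨k, hk⟩ : ∃ k, k = 3 * D1 + 3 := ⟨_, rfl⟩
  obtain ⟨R, hR⟩ : ∃ R, R = 4 * (D1 * D1 * k) := ⟨_, rfl⟩
  obtain ⟨L, hL⟩ : ∃ L, L = 8 * D * (R + 4 + C) := ⟨_, rfl⟩
  obtain ⟨u, hu⟩ : ∃ u, u = D1.factorial * (2 * D1.factorial) + 2 * h * L + h * R := ⟨_, rfl⟩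
  obtain ⟨F, hF⟩ : ∃ F, F = 32 * D * D * u + 4 * D * h + D1 * u + D1 * (4 * (u * 2 ^ R + h)) +
    D1 * (8 * D1 * h) + 1 := ⟨_, rfl⟩
  refine ⟨F, u + 3 * h + (L + R + 4), D1.factorial, Nat.factorial_pos _,
    fun A n T G hT hD hdeg h4 hn hG hGc hGn hfix => ?_⟩
  have h1 : F * (n / F) ≤ n := Nat.mul_div_le _ _
  have h2 : ∀ a, #{s ∈ T | a ∈ s} ≤ n / F := fun a =>
    (Nat.le_div_iff_mul_le (by omega)).2 (by rw [mul_comm]; exact hdeg a)
  generalize n / F = ρ at h1 h2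
  have e : F * ρ = 2 * (16 * D * D * (u * ρ)) + 4 * D * (h * ρ) + D1 * (u * ρ) +
      D1 * (4 * (u * ρ * 2 ^ R + h * ρ)) + D1 * (8 * D1 * (h * ρ)) + ρ := by rw [hF]; ring
  obtain ⟨f, h3, h5⟩ := core' (u := u) hD1 hk hR hL (by omega) hT hD h2 h4 hn hG hGn hfix
    (by omega) (by omega) (by omega) (by omega) (by omega)
  refine ⟨f, h3.trans (Nat.mul_le_mul_right _ (by omega)), fun m hm1 hm2 => ?_⟩
  obtain ⟨s, h6, h7⟩ := h5 m hm1 hm2
  exact ⟨s, by omega, h7⟩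

/-- A basis of order `h` whose finite subset sums meet every residue class has restricted order
bounded in terms of `h` only. -/
theorem main (h : ℕ) : ∃ t, ∀ (A : Set ℕ) (n0 : ℕ), (∀ m, n0 ≤ m → MS A h m) →
    (∀ q m : ℕ, 0 < q → ∃ S : Finset ℕ, (↑S : Set ℕ) ⊆ A ∧ ∑ x ∈ S, x ≡ m [MOD q]) →
    ∃ N0, ∀ N, N0 ≤ N → FS A t N := by
  obtain ⟨C, hC⟩ := gap h
  choose F K q hq hcore using core h C
  obtain ⟨Dm, hDm⟩ := pop F h (2 * (h + 1).factorial)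
  set Km := ∑ D ∈ range (Dm + 1), K D + 1 with hKm
  refine ⟨3 * Km, fun A n0 hA hres => ?_⟩
  have : ∀ D, ∃ G : Finset ℕ, (↑G : Set ℕ) ⊆ A ∧ #G ≤ q D * (2 * q D) ∧
      ∀ m : ℕ, ∃ S ⊆ G, ∑ x ∈ S, x ≡ m [MOD q D] := fun D => by
    have : NeZero (q D) := ⟨(hq D).ne'⟩
    obtain ⟨G, h1, h2, h3⟩ := fixers A (q D) fun r => by
      obtain ⟨S, h1, h2⟩ := hres (q D) r.val (hq D)
      exact ⟨S, h1, by rw [(ZMod.natCast_eq_natCast_iff _ _ _).2 h2, ZMod.natCast_zmod_val]⟩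
    exact ⟨G, h1, h2, fun m => by
      obtain ⟨S, h4, h5⟩ := h3 m
      exact ⟨S, h4, (ZMod.natCast_eq_natCast_iff _ _ _).1 h5⟩⟩
  choose G hG1 hG2 hG3 using this
  set g := ∑ D ∈ range (Dm + 1), ∑ x ∈ G D, x with hg
  refine ⟨Km * (2 * n0 + 4 * Dm + 1 + g), fun N hN => ?_⟩
  have hKpos : 0 < Km := by omega
  have h1 : 2 * n0 + 4 * Dm + 1 + g ≤ N / Km :=
    (Nat.le_div_iff_mul_le hKpos).2 (by rwa [mul_comm])
  have h2 : Km * (N / Km) ≤ N := Nat.mul_div_le _ _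
  have h3 : N < Km * (N / Km + 1) := Nat.lt_mul_div_succ _ hKpos
  generalize N / Km = n at h1 h2 h3
  obtain ⟨T0, h4, h5⟩ := exists_fam A h n n0 (by omega) hA
  obtain ⟨D, hD, T, h6, h7, h8⟩ := hDm A n T0 h4 h5
  have hmem : D ∈ range (Dm + 1) := mem_range.2 (by omega)
  have h9 : ∑ x ∈ G D, x ≤ g :=
    single_le_sum (f := fun D => ∑ x ∈ G D, x) (fun _ _ => Nat.zero_le _) hmem
  have h10 : K D ≤ Km := (single_le_sum (f := K) (fun _ _ => Nat.zero_le _) hmem).trans (by omega)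
  have hle : ∀ s : Finset ℕ, (↑s : Set ℕ) ⊆ A → ∑ x ∈ s, x ≤ n →
      (↑s : Set ℕ) ⊆ {x | x ∈ A ∧ x ≤ n} := fun s h1 h2 x hx =>
    ⟨h1 hx, (single_le_sum (f := fun x => x) (fun _ _ => Nat.zero_le _) hx).trans h2⟩
  obtain ⟨f, h11, h12⟩ := hcore D {x | x ∈ A ∧ x ≤ n} n T (G D)
    ⟨fun s hs => ⟨(h6.1 s hs).1, hle s (h6.1 s hs).2.1 (h6.1 s hs).2.2, (h6.1 s hs).2.2⟩, h6.2⟩
    h7 h8 (by omega) (by omega) (hle _ (hG1 D) (by omega)) (hG2 D) (by omega) (hG3 D)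
  have h13 := Nat.mul_le_mul_right n h10
  obtain ⟨S, h14, h15, h16⟩ := hC A n (by omega) (fun m hm => hA m (by omega)) (N - f)
  obtain ⟨S', h17, h18, h19⟩ := h12 (N - ∑ x ∈ S, x) (by omega) (by omega)
  have h20 : #S ≤ 2 * Km := by
    have := card_nsmul_le_sum S (fun x => x) (n + 1) fun x hx => (h14 x hx).2
    rw [smul_eq_mul] at this
    have := Nat.lt_of_mul_lt_mul_right (a := n + 1) (show #S * (n + 1) < Km * (n + 1) by omega)
    omega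
  refine ⟨S ∪ S', (card_union_le _ _).trans (by omega), ?_, ?_⟩
  · rw [coe_union]
    exact Set.union_subset (fun x hx => (h14 x hx).1) fun x hx => (h18 hx).1
  · rw [sum_union (disjoint_left.2 fun x hx hx' => by
      have := (h14 x hx).2; have := (h18 hx').2; omega)]
    omega

theorem stable (A : Set ℕ)
    (hA : ∀ F : Finset ℕ, ∃ k n0, ∀ m, n0 ≤ m → MS {x | x ∈ A ∧ x ∉ F} k m) :
    ∃ t N0, ∀ N, N0 ≤ N → FS A t N := by
  obtain ⟨h, n0, h0⟩ := hA ∅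
  obtain ⟨t, ht⟩ := main h
  refine ⟨t, ht A n0 (by simpa using h0) fun q m hq => ?_⟩
  have : NeZero q := ⟨hq.ne'⟩
  set P : ZMod q → Prop := fun r =>
    ∃ S : Finset ℕ, (↑S : Set ℕ) ⊆ A ∧ ((∑ x ∈ S, x : ℕ) : ZMod q) = r with hP
  have : ∀ r, ∃ S : Finset ℕ, P r → (↑S : Set ℕ) ⊆ A ∧ ((∑ x ∈ S, x : ℕ) : ZMod q) = r :=
    fun r => by
      by_cases H : P r
      · obtain ⟨S, hS⟩ := H; exact ⟨S, fun _ => hS⟩
      · exact ⟨∅, fun h => absurd h H⟩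
  choose S hS using this
  obtain ⟨k, n1, h1⟩ := hA (univ.biUnion S)
  have key : ∀ s : Multiset ℕ, (∀ x ∈ s, x ∈ A ∧ x ∉ univ.biUnion S) → P (s.sum : ℕ) := by
    intro s
    induction s using Multiset.induction_on with
    | empty => intro _; exact ⟨∅, by simp, by simp⟩
    | cons a s ih =>
      intro hs
      obtain ⟨h2, h3⟩ := hS _ (ih fun x hx => hs x (Multiset.mem_cons_of_mem hx))
      obtain ⟨h4, h5⟩ := hs a (Multiset.mem_cons_self _ _)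
      refine ⟨insert a (S (s.sum : ℕ)), ?_, ?_⟩
      · rw [coe_insert]; exact Set.insert_subset h4 h2
      · rw [sum_insert fun h => h5 (mem_biUnion.2 ⟨_, mem_univ _, h⟩), Multiset.sum_cons,
          Nat.cast_add, Nat.cast_add, h3]
  obtain ⟨s, -, h2, h3⟩ := h1 (m + q * n1) (by nlinarith)
  obtain ⟨S', h4, h5⟩ := key s h2
  refine ⟨S', h4, (ZMod.natCast_eq_natCast_iff _ _ _).1 ?_⟩
  rw [h5, h3]; simp

end Pool.Agent.H55.RO
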