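import Pool.Agent.H55.RadDefs

set_option autoImplicit false
set_option maxHeartbeats 800000

namespace Pool.Agent.H55.Rad

open Complex MeasureTheory Filter Topology Set AddCircle
open scoped ENNReal ComplexConjugate
open Pool.Agent.H55.RadDefs

abbrev T := UnitAddCircle
noncomputable abbrev hm : Measure T := haarAddCircle

lemma cint {X E : Type} [TopologicalSpace X] [CompactSpace X] [MeasurableSpace X]
    [OpensMeasurableSpace X] [NormedAddCommGroup E] [SecondCountableTopology E] (μ : Measure X)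
    [IsFiniteMeasure μ] {g : X → E} (hg : Continuous g) : Integrable g μ :=
  let ⟨C, hC⟩ := isCompact_univ.exists_bound_of_continuousOn hg.continuousOn
  Integrable.of_bound hg.aestronglyMeasurable C (.of_forall fun x => hC x trivial)

lemma nf (k : ℤ) (t : T) : ‖fourier k t‖ = 1 := Circle.norm_coe _

lemma fpow (k : ℤ) (n : ℕ) (t : T) : fourier k t ^ n = fourier (n * k) t := by
  induction n with
  | zero => simp
  | succ n ih => rw [pow_succ, ih, ← fourier_add]; congr 2; push_cast; ring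

lemma fint (k : ℤ) : ∫ t, fourier k t ∂hm = if k = 0 then 1 else 0 := by
  have := congrFun (fourierCoeff_fourier (T := 1) k) 0
  simp only [fourierCoeff, neg_zero, fourier_zero, one_smul] at this
  rw [this, Pi.single_apply]
  simp only [eq_comm]

lemma ne1 {w : ℂ} (hw : ‖w‖ < 1) : 1 - w ≠ 0 := fun h => by
  rw [← sub_eq_zero.1 h, norm_one] at hw; exact lt_irrefl _ hw

lemma nlt {a x : ℂ} (ha : ‖a‖ < 1) (hx : ‖x‖ ≤ 1) : ‖a * x‖ < 1 := by
  rw [norm_mul]; nlinarith [norm_nonneg a, norm_nonneg x]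

lemma ser (ν : Measure T) [IsFiniteMeasure ν] {x g : T → ℂ} (hx : Continuous x)
    (x1 : ∀ t, ‖x t‖ ≤ 1) (hg : Continuous g) {a : ℂ} (ha : ‖a‖ < 1) :
    HasSum (fun k : ℕ => a ^ k * ∫ t, x t ^ k * g t ∂ν) (∫ t, (1 - a * x t)⁻¹ * g t ∂ν) := by
  simp only [← integral_const_mul]
  refine hasSum_integral_of_dominated_convergence (fun k t => ‖a‖ ^ k * ‖g t‖)
    (fun k => Continuous.aestronglyMeasurable (by fun_prop)) (fun k => .of_forall fun t => ?_)
    (.of_forall fun t => (summable_geometric_of_lt_one (norm_nonneg _) ha).mul_right _) ?_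
    (.of_forall fun t => ?_)
  · rw [norm_mul, norm_mul, norm_pow, norm_pow]
    exact mul_le_mul_of_nonneg_left (mul_le_of_le_one_left (norm_nonneg _)
      (pow_le_one₀ (norm_nonneg _) (x1 t))) (by positivity)
  · simp only [tsum_mul_right]
    exact cint ν (by fun_prop)
  · simpa only [mul_pow, mul_assoc] using
      (hasSum_geometric_of_norm_lt_one (nlt ha (x1 t))).mul_right (g t)

lemma nr {r : ℝ} (h0 : 0 ≤ r) (h1 : r < 1) : ‖(r : ℂ)‖ < 1 := by
  rwa [norm_real, Real.norm_of_nonneg h0]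

lemma kerc {r : ℝ} (h0 : 0 ≤ r) (h1 : r < 1) : Continuous (pk r) :=
  continuous_const.div (by fun_prop) fun t =>
    pow_ne_zero _ (norm_ne_zero_iff.2 (ne1 (nlt (nr h0 h1) (nf 1 t).le)))

lemma ker0 {r : ℝ} (h0 : 0 ≤ r) (h1 : r < 1) (t : T) : 0 ≤ pk r t :=
  div_nonneg (by nlinarith) (sq_nonneg _)

lemma kere {r : ℝ} (h0 : 0 ≤ r) (h1 : r < 1) (t : T) : (pk r t : ℂ) =
    (1 - r * fourier 1 t)⁻¹ + (1 - r * fourier (-1) t)⁻¹ * (r * fourier (-1) t) := by
  have a := ne1 (nlt (nr h0 h1) (nf 1 t).le)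
  have b := ne1 (nlt (nr h0 h1) (nf (-1) t).le)
  have c : fourier 1 t * fourier (-1) t = 1 := by rw [← fourier_add]; simp
  have d : ((‖1 - r * fourier 1 t‖ ^ 2 : ℝ) : ℂ) =
      (1 - r * fourier 1 t) * (1 - r * fourier (-1) t) := by
    rw [ofReal_pow, ← mul_conj', fourier_neg]; simp
  rw [pk, ofReal_div, d]
  push_cast
  field_simp
  linear_combination (r : ℂ) ^ 2 * c

lemma pint {r : ℝ} (h0 : 0 ≤ r) (h1 : r < 1) (g : T → ℂ) :
    ∫ t, g t ∂pois r = ∫ t, pk r t * g t ∂hm := by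
  rw [pois, integral_withDensity_eq_integral_toReal_smul (kerc h0 h1).measurable.ennreal_ofReal
    (.of_forall fun _ => ENNReal.ofReal_lt_top)]
  simp only [ENNReal.toReal_ofReal (ker0 h0 h1 _), real_smul]

lemma invc {a : ℂ} (ha : ‖a‖ < 1) {x : T → ℂ} (hx : Continuous x) (x1 : ∀ t, ‖x t‖ ≤ 1) :
    Continuous fun t => (1 - a * x t)⁻¹ :=
  Continuous.inv₀ (by fun_prop) fun t => ne1 (nlt ha (x1 t))

lemma mom {r : ℝ} (h0 : 0 ≤ r) (h1 : r < 1) (j : ℕ) :
    ∫ t, pk r t * fourier (-j) t ∂hm = r ^ j := by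
  have c (k : ℤ) : Continuous fun t : T => fourier k t := (fourier k).continuous
  have a := ser hm (c 1) (fun t => (nf 1 t).le) (c (-j)) (nr h0 h1)
  have b := ser hm (c (-1)) (fun t => (nf (-1) t).le) ((c (-1)).mul (c (-j))) (nr h0 h1)
  simp only [fpow, ← fourier_add, fint, Pi.mul_apply] at a b
  have a' := a.unique (hasSum_single j fun k hk => by rw [if_neg (by omega), mul_zero])
  have b' := b.unique ((hasSum_zero).congr_fun fun k => by rw [if_neg (by omega), mul_zero])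
  simp only [kere h0 h1, add_mul, mul_assoc, ← fourier_add, mul_left_comm _ (r : ℂ)]
  rw [integral_add, integral_const_mul, a', b']
  · simp
  · exact cint _ ((invc (nr h0 h1) (c 1) fun t => (nf _ t).le).mul (c _))
  · exact cint _ (((invc (nr h0 h1) (c _) fun t => (nf _ t).le).mul (c _)).const_mul _)

lemma ker1 {r : ℝ} (h0 : 0 ≤ r) (h1 : r < 1) : ∫ t, pk r t ∂hm = 1 := by
  have := mom h0 h1 0
  simp only [Nat.cast_zero, neg_zero, fourier_zero, mul_one, pow_zero] at this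
  exact_mod_cast this

lemma prob {r : ℝ} (h0 : 0 ≤ r) (h1 : r < 1) : IsProbabilityMeasure (pois r) := ⟨by
  rw [pois, withDensity_apply _ .univ, Measure.restrict_univ, ← ofReal_integral_eq_lintegral_ofReal
    (cint _ (kerc h0 h1)) (.of_forall (ker0 h0 h1)), ker1 h0 h1, ENNReal.ofReal_one]⟩

noncomputable def ph (a : ℝ) (z : ℂ) : ℂ := (1 - a * z)⁻¹ * (a - z)

lemma phc {a : ℝ} (h0 : 0 ≤ a) (h1 : a < 1) {x : T → ℂ} (hx : Continuous x)
    (x1 : ∀ t, ‖x t‖ ≤ 1) : Continuous fun t => ph a (x t) :=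
  (invc (nr h0 h1) hx x1).mul (by fun_prop)

lemma rep (ν : Measure T) [IsFiniteMeasure ν] {x g : T → ℂ} (hx : Continuous x)
    (x1 : ∀ t, ‖x t‖ ≤ 1) (hg : Continuous g) {a : ℝ} (h0 : 0 ≤ a) (h1 : a < 1) {C y : ℂ}
    (hy : ‖y‖ ≤ 1) (h : ∀ k : ℕ, ∫ t, x t ^ k * g t ∂ν = C * y ^ k) :
    ∫ t, ph a (x t) * g t ∂ν = C * ph a y := by
  have s := ser ν hx x1 (g := fun t => (a - x t) * g t) (by fun_prop) (nr h0 h1)
  simp only [ph, mul_assoc]
  refine s.unique (((hasSum_geometric_of_norm_lt_one (nlt (nr h0 h1) hy)).mul_right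
    (a - y)).mul_left C |>.congr_fun fun k => ?_)
  have : ∀ t, x t ^ k * ((a - x t) * g t) = a * (x t ^ k * g t) - x t ^ (k + 1) * g t :=
    fun t => by ring
  simp only [this]
  rw [integral_sub (cint _ (by fun_prop)) (cint _ (by fun_prop)), integral_const_mul, h, h]
  ring

lemma phn {a : ℝ} (h0 : 0 ≤ a) (h1 : a < 1) {z : ℂ} (hz : ‖z‖ ≤ 1) :
    ‖ph a z‖ ^ 2 = 1 - (1 - a ^ 2) * (1 - ‖z‖ ^ 2) / ‖1 - a * z‖ ^ 2 := by
  have := norm_ne_zero_iff.2 (ne1 (nlt (nr h0 h1) hz))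
  rw [ph, norm_mul, norm_inv]
  field_simp
  simp only [Complex.sq_norm, normSq_apply]
  simp
  ring

end Pool.Agent.H55.Rad
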