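import Pool.Agent.H55.Rad1

set_option autoImplicit false
set_option maxHeartbeats 800000

namespace Pool.Agent.H55.Rad

open Complex MeasureTheory Filter Topology Set AddCircle
open scoped ENNReal ComplexConjugate
open Pool.Agent.H55.RadDefs

lemma fc (k : ℤ) : Continuous fun t : T => fourier k t := (fourier k).continuous

lemma fsub (k : ℤ) (θ t : T) : fourier k (θ - t) = fourier k θ * fourier (-k) t := by
  simp only [fourier_apply, sub_eq_add_neg, smul_add, smul_neg, neg_smul, toCircle_add,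
    Circle.coe_mul]

lemma nle {u : ℝ} (h0 : 0 ≤ u) (h1 : u ≤ 1) (k : ℤ) (t : T) : ‖(u : ℂ) * fourier k t‖ ≤ 1 := by
  rwa [norm_mul, nf, mul_one, norm_real, Real.norm_of_nonneg h0]

lemma repP {a u : ℝ} (h0 : 0 ≤ a) (h1 : a < 1) (u0 : 0 ≤ u) (u1 : u < 1) (M : ℕ) (θ : T) :
    ∫ t, ph a (fourier M (θ - t)) ∂pois u = ph a ((u ^ M : ℝ) * fourier M θ) := by
  have := prob u0 u1
  simpa using rep (pois u) (x := fun t => fourier M (θ - t)) (g := fun _ => 1)
    ((fc M).comp (by fun_prop)) (fun t => (nf _ _).le) continuous_const h0 h1 (C := 1)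
    (nle (pow_nonneg u0 M) (pow_le_one₀ u0 u1.le) M θ) fun k => by
      simp only [fpow, fsub, mul_one, one_mul, mul_pow, integral_const_mul]
      rw [pint u0 u1, mul_neg, ← Nat.cast_mul, mom u0 u1, mul_comm k]
      push_cast
      ring

lemma van {a : ℝ} (h0 : 0 ≤ a) (h1 : a < 1) (M : ℕ) {k : ℤ} (hk : k < 0) :
    ∫ t, ph a (fourier M t) * fourier (-k) t ∂hm = 0 := by
  simpa using rep hm (fc M) (fun t => (nf _ _).le) (fc (-k)) h0 h1 (C := 0) (y := 0) (by simp)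
    fun j => by
      simp only [fpow, ← fourier_add, fint, zero_mul]
      exact if_neg (by have := Int.natCast_nonneg (j * M); push_cast at this; omega)

lemma mean {a : ℝ} (h0 : 0 ≤ a) (h1 : a < 1) {M : ℕ} (hM : M ≠ 0) :
    ∫ t, ph a (fourier M t) ∂hm = a := by
  simpa [ph] using rep hm (fc M) (fun t => (nf _ _).le) (g := fun _ => 1) continuous_const h0 h1
    (C := 1) (y := 0) (by simp) fun j => by
      simp only [fpow, fint, mul_one, one_mul]
      rcases eq_or_ne j 0 with rfl | hj <;> simp [*]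

instance : Nontrivial T := not_subsingleton_iff_nontrivial.1 fun h => by
  have := fint 1
  rw [show (fun t : T => fourier 1 t) = fun _ => 1 from funext fun t => by
    rw [Subsingleton.elim t 0, fourier_eval_zero]] at this
  simp at this

lemma pk0 : ∀ᵐ t ∂hm, Tendsto (fun r => pk r t) (𝓝[<] 1) (𝓝 0) := by
  filter_upwards [Measure.ae_ne hm 0] with t ht
  have h : (1 : ℂ) - (1 : ℝ) * fourier 1 t ≠ 0 := fun h => ht (injective_toCircle one_ne_zero (by
    rw [ofReal_one, one_mul, sub_eq_zero, fourier_one] at h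
    exact Circle.ext (by rw [← h]; simp)))
  have : ContinuousAt (fun r => pk r t) 1 :=
    ContinuousAt.div (by fun_prop) (by fun_prop) (pow_ne_zero _ (norm_ne_zero_iff.2 h))
  simpa [pk] using this.tendsto.mono_left nhdsWithin_le_nhds

lemma big (K : ℕ) : ∃ (R : Finset ℝ) (G : T → ℝ), (∀ ρ ∈ R, 0 < ρ ∧ ρ < 1) ∧ Continuous G ∧
    (∀ t, 0 ≤ G t) ∧ (∀ t, ∃ ρ ∈ R, G t ≤ pk ρ t) ∧ (K : ℝ) / 2 ≤ ∫ t, G t ∂hm := by
  induction K with
  | zero => exact ⟨{1 / 2}, fun _ => 0, by simp; norm_num, continuous_const, fun _ => le_rfl,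
      fun t => ⟨1 / 2, by simp, ker0 (by norm_num) (by norm_num) t⟩, by simp⟩
  | succ K ih =>
    obtain ⟨R, G, hR, Gc, G0, hG, hK⟩ := ih
    have e : ∀ᶠ r in 𝓝[<] (1 : ℝ), r ∈ Ioo 0 1 := Ioo_mem_nhdsLT one_pos
    have := tendsto_integral_filter_of_dominated_convergence (μ := hm) (l := 𝓝[<] (1 : ℝ))
      (F := fun r t => min (G t) (pk r t)) (f := fun _ => 0) G
      (e.mono fun r hr => (Gc.min (kerc hr.1.le hr.2)).aestronglyMeasurable)
      (e.mono fun r hr => .of_forall fun t => by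
        rw [Real.norm_of_nonneg (le_min (G0 t) (ker0 hr.1.le hr.2 t))]; exact min_le_left _ _)
      (cint _ Gc) (pk0.mono fun t ht => by
        simpa [G0 t] using (tendsto_const_nhds (x := G t)).min ht)
    rw [integral_zero] at this
    obtain ⟨r, hr, h⟩ := (e.and (this.eventually (gt_mem_nhds one_half_pos))).exists
    have rc := kerc hr.1.le hr.2
    refine ⟨insert r R, fun t => max (G t) (pk r t), by simpa using ⟨hr, hR⟩, Gc.max rc,
      fun t => le_max_of_le_left (G0 t), fun t => ?_, ?_⟩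
    · obtain ⟨ρ, hρ, h⟩ := hG t
      rcases le_total (G t) (pk r t) with h' | h'
      · exact ⟨r, by simp, by simp [h']⟩
      · exact ⟨ρ, by simp [hρ], by simp [h', h]⟩
    · have := integral_add (cint hm (Gc.min rc)) (cint hm (Gc.max rc))
      simp only [min_add_max] at this
      rw [integral_add (cint _ Gc) (cint _ rc), ker1 hr.1.le hr.2] at this
      push_cast
      linarith

lemma phb {a ρ : ℝ} (h0 : 0 ≤ ρ) (h : ρ ≤ a) (h1 : a < 1) (t : T) :
    ‖ph a (ρ * fourier 1 t)‖ ^ 2 ≤ 1 - (1 - a) / 4 * pk ρ t := by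
  have r1 := h.trans_lt h1
  have n1 := nle h0 r1.le 1 t
  have n2 : ‖(ρ : ℂ) * fourier 1 t‖ = ρ := by
    rw [norm_mul, nf, mul_one, norm_real, Real.norm_of_nonneg h0]
  have p1 := norm_pos_iff.2 (ne1 (nlt (nr (h0.trans h) h1) n1))
  have p2 := norm_pos_iff.2 (ne1 (n2.trans_lt r1))
  have q1 := norm_sub_norm_le 1 ((ρ : ℂ) * fourier 1 t)
  have q2 := norm_add_le (1 - (ρ : ℂ) * fourier 1 t) ((1 - a : ℝ) * (ρ * fourier 1 t))
  rw [norm_mul, n2, norm_real, Real.norm_of_nonneg (sub_pos.2 h1).le,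
    show 1 - (ρ : ℂ) * fourier 1 t + (1 - a : ℝ) * (ρ * fourier 1 t) =
      1 - a * (ρ * fourier 1 t) by push_cast; ring] at q2
  rw [norm_one, n2] at q1
  rw [phn (h0.trans h) h1 n1, n2, pk, sub_le_sub_iff_left, div_mul_div_comm,
    div_le_div_iff₀ (by positivity) (by positivity)]
  generalize ‖1 - (ρ : ℂ) * fourier 1 t‖ = x at *
  generalize ‖1 - a * ((ρ : ℂ) * fourier 1 t)‖ = y at *
  have q3 : y ^ 2 ≤ (2 * x) ^ 2 := pow_le_pow_left₀ p1.le (by nlinarith) 2
  have q4 : 0 ≤ (1 - a) * (1 - ρ ^ 2) := mul_nonneg (by linarith) (by nlinarith)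
  nlinarith [mul_le_mul_of_nonneg_left q3 q4, mul_nonneg (mul_nonneg q4 (h0.trans h)) (sq_nonneg x)]

lemma blk {ε : ℝ} (hε : 0 < ε) : ∃ (a : ℝ) (N L : ℕ) (R : Finset ℝ) (X : T → ℝ),
    0 ≤ a ∧ a < 1 ∧ 0 < N ∧ 0 < L ∧ (∀ ρ ∈ R, 0 < ρ ∧ ρ < 1) ∧ (∀ ρ ∈ R, ∀ s ∈ R, s ^ L ≤ ρ) ∧
    Continuous X ∧ (∀ t, ∃ ρ ∈ R, ‖ph a (ρ * fourier 1 t)‖ ^ 2 ≤ X t) ∧ 1 - a ^ N ≤ ε ∧
    (∫ t, X t ∂hm) ^ N ≤ ε := by
  obtain ⟨K, hK⟩ := exists_nat_ge (8 / ε ^ 2)
  obtain ⟨R, G, hR, Gc, G0, hG, h⟩ := big K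
  obtain ⟨L, L0, hL⟩ := ((eventually_gt_atTop 0).and ((R.eventually_all).2 fun ρ hρ =>
    (R.eventually_all).2 fun s hs => (tendsto_pow_atTop_nhds_zero_of_lt_one (hR s hs).1.le
      (hR s hs).2).eventually (ge_mem_nhds (hR ρ hρ).1))).exists
  have t := tendsto_const_div_atTop_nhds_zero_nat ε
  obtain ⟨N, N0, N1, hN⟩ := ((eventually_gt_atTop 0).and ((t.eventually (ge_mem_nhds one_pos)).and
    ((R.eventually_all).2 fun ρ hρ => t.eventually (ge_mem_nhds (sub_pos.2 (hR ρ hρ).2))))).exists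
  have N2 : (0 : ℝ) < N := by exact_mod_cast N0
  have e0 := div_pos hε N2
  have hX (t : T) : ∃ ρ ∈ R, ‖ph (1 - ε / N) (ρ * fourier 1 t)‖ ^ 2 ≤ 1 - ε / N / 4 * G t := by
    obtain ⟨ρ, hρ, h⟩ := hG t
    refine ⟨ρ, hρ, (phb (hR ρ hρ).1.le (by linarith [hN ρ hρ]) (by linarith) t).trans ?_⟩
    nlinarith
  refine ⟨1 - ε / N, N, L, R, fun t => 1 - ε / N / 4 * G t, by linarith, by linarith, N0, L0, hR,
    hL, by fun_prop, hX, ?_, ?_⟩
  · have := one_add_mul_le_pow (a := -(ε / N)) (by linarith) N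
    rw [mul_neg, mul_div_cancel₀ _ N2.ne'] at this
    rw [sub_eq_add_neg 1 (ε / N)]
    linarith
  · have h0 : 0 ≤ ∫ t, 1 - ε / N / 4 * G t ∂hm := integral_nonneg fun t =>
      let ⟨_, _, h⟩ := hX t; (sq_nonneg _).trans h
    refine (pow_le_pow_left₀ h0 (b := Real.exp (-(ε⁻¹ / N))) ?_ N).trans ?_
    · rw [integral_sub (cint _ continuous_const) (cint _ (by fun_prop)), integral_const_mul]
      refine le_trans ?_ (Real.add_one_le_exp _)
      have : ε⁻¹ / N = ε / N / 4 * (8 / ε ^ 2 / 2) := by field_simp; ring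
      simp only [integral_const, probReal_univ, smul_eq_mul, mul_one]
      nlinarith
    · rw [← Real.exp_nat_mul, mul_neg, mul_div_cancel₀ _ N2.ne', Real.exp_neg]
      exact inv_le_of_inv_le₀ hε (by linarith [Real.add_one_le_exp ε⁻¹])

lemma iprod {E : Type} [RCLike E] (μ : ℕ → Measure T) [∀ n, IsProbabilityMeasure (μ n)]
    (s : Finset ℕ) {g : ℕ → T → E} (hg : ∀ n, Continuous (g n)) :
    ∫ θ, ∏ n ∈ s, g n (θ n) ∂Measure.infinitePi μ = ∏ n ∈ s, ∫ t, g n t ∂μ n := by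
  have := integral_restrict_infinitePi μ (s := s) (f := fun y => ∏ n : s, g n (y n))
    (Continuous.aestronglyMeasurable (by fun_prop))
  rw [integral_fintype_prod_eq_prod (fun (n : s) t => g n t), Finset.prod_coe_sort s
    fun n => ∫ t, g n t ∂μ n] at this
  rw [← this]
  exact integral_congr_ae (.of_forall fun θ => (Finset.prod_coe_sort s fun n => g n (θ n)).symm)

instance : IsProbabilityMeasure mT := by unfold mT; infer_instance

lemma asum {X : ℕ → (ℕ → T) → ℝ} (hX : ∀ b, Continuous (X b)) (X0 : ∀ b θ, 0 ≤ X b θ)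
    {c : ℕ → ℝ} (hc : Summable c) (h : ∀ b, ∫ θ, X b θ ∂mT ≤ c b) :
    ∀ᵐ θ ∂mT, Summable fun b => X b θ := by
  have c0 (b : ℕ) := (integral_nonneg (X0 b)).trans (h b)
  refine (summable_norm_of_tsum_eLpNorm_ne_top (μ := mT) le_rfl
    (fun b => (hX b).aestronglyMeasurable) (ne_top_of_le_ne_top
      (ENNReal.ofReal_tsum_of_nonneg c0 hc ▸ ENNReal.ofReal_ne_top)
      (ENNReal.tsum_le_tsum fun b => ?_))).mono fun θ h => h.of_norm
  rw [eLpNorm_one_eq_lintegral_enorm, ← ofReal_integral_norm_eq_lintegral_enorm (cint _ (hX b))]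
  simpa only [Real.norm_of_nonneg (X0 b _)] using ENNReal.ofReal_le_ofReal (h b)

lemma trans (ν : Measure (ℕ → T)) [IsProbabilityMeasure ν] {p : (ℕ → T) → Prop}
    (h : ∀ᵐ θ ∂mT, p θ) : ∀ᵐ θ ∂mT, ∀ᵐ t ∂ν, p (θ - t) := by
  obtain ⟨S, hS, Sm, S0⟩ := exists_measurable_superset_of_null (ae_iff.1 h)
  have (t : ℕ → T) : MeasurePreserving (· - t) mT mT := ⟨by fun_prop, by
    have := Measure.infinitePi_map_pi (fun _ : ℕ => hm) (f := fun i x => x - t i) (by fun_prop)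
    simp only [map_sub_right_eq_self] at this
    exact this⟩
  have h2 : ∀ᵐ θ ∂mT, ∀ᵐ t ∂ν, θ - t ∉ S :=
    (Measure.ae_ae_comm (p := fun θ t => θ - t ∉ S) (measurable_sub Sm.compl)).2 (.of_forall fun t =>
      (this t).quasiMeasurePreserving.ae (measure_eq_zero_iff_ae_notMem.1 S0))
  exact h2.mono fun θ h => h.mono fun t ht => by_contra fun c => ht (hS c)

lemma enum (I : ℕ → Type) [∀ b, Finite (I b)] [∀ b, Nonempty (I b)] :
    ∃ e : ℕ → Σ b, I b, e.Surjective ∧ Tendsto (fun k => (e k).1) atTop atTop := by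
  have : Infinite (Σ b, I b) := Infinite.of_surjective Sigma.fst Sigma.fst_surjective
  obtain ⟨d⟩ := nonempty_denumerable (Σ b, I b)
  refine ⟨(Denumerable.eqv _).symm, Equiv.surjective _, ?_⟩
  rw [← Nat.cofinite_eq_atTop]
  refine (Tendsto.cofinite_of_finite_preimage_singleton fun b => ?_).comp
    (Equiv.injective _).tendsto_cofinite
  exact ((finite_range (Sigma.mk b)).subset fun x hx => by
    obtain ⟨c, x⟩ := x
    obtain rfl : c = b := hx
    exact ⟨x, rfl⟩).to_subtype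

end Pool.Agent.H55.Rad
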