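import Pool.Agent.H55.Rad2

set_option autoImplicit false
set_option maxHeartbeats 1600000

namespace Pool.Agent.H55.Rad

open Complex MeasureTheory Filter Topology Set AddCircle
open scoped ENNReal ComplexConjugate
open Pool.Agent.H55.RadDefs

lemma ph1 {a : ℝ} (h0 : 0 ≤ a) (h1 : a < 1) (k : ℤ) (t : T) : ‖ph a (fourier k t)‖ = 1 := by
  have := phn h0 h1 (nf k t).le
  rw [nf, one_pow, sub_self, mul_zero, zero_div, sub_zero] at this
  exact (pow_eq_one_iff_of_nonneg (norm_nonneg _) two_ne_zero).1 this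

lemma phle {a : ℝ} (h0 : 0 ≤ a) (h1 : a < 1) {z : ℂ} (hz : ‖z‖ ≤ 1) : ‖ph a z‖ ≤ 1 := by
  refine (pow_le_one_iff_of_nonneg (norm_nonneg _) two_ne_zero).1 ?_
  rw [phn h0 h1 hz, sub_le_self_iff]
  exact div_nonneg (mul_nonneg (by nlinarith) (by nlinarith [norm_nonneg z])) (sq_nonneg _)

lemma zs {X : T → ℝ} (hX : Continuous X) {M : ℕ} (hM : M ≠ 0) :
    ∫ t, X ((M : ℤ) • t) ∂hm = ∫ t, X t ∂hm := by
  have := Measure.measurePreserving_zsmul hm (Int.natCast_ne_zero.2 hM)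
  rw [← integral_map this.aemeasurable hX.aestronglyMeasurable, this.map_eq]

/-- The limit of products of one-variable Blaschke factors. -/
lemma lim {a : ℕ → ℝ} (a0 : ∀ n, 0 ≤ a n) (a1 : ∀ n, a n < 1) {M : ℕ → ℕ} (hM : ∀ n, M n ≠ 0)
    {A : ℕ → ℕ} (hA : StrictMono A)
    (h : ∀ b, 1 - ∏ n ∈ Finset.Ico (A b) (A (b + 1)), a n ≤ (1 / 4) ^ b) :
    ∃ f : (ℕ → T) → ℂ, Measurable f ∧ IsHinf f ∧ (∀ᵐ θ ∂mT, ‖f θ‖ = 1) ∧
      ∀ r : ℕ → ℝ, (∀ n, 0 ≤ r n ∧ r n < 1) → ∀ᵐ θ ∂mT, ∀ s : Finset ℕ,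
        ‖rad f r θ‖ ≤ ∏ n ∈ s, ‖ph (a n) ((r n ^ M n : ℝ) * fourier (M n) (θ n))‖ := by
  have φc (n : ℕ) := phc (a0 n) (a1 n) (fc (M n)) fun t => (nf _ t).le
  set φ : ℕ → T → ℂ := fun n t => ph (a n) (fourier (M n) t) with hφ
  have Fc (s : Finset ℕ) : Continuous fun θ : ℕ → T => ∏ n ∈ s, φ n (θ n) :=
    continuous_finsetProd _ fun n _ => (φc n).comp (continuous_apply n)
  have F1 (s : Finset ℕ) (θ : ℕ → T) : ‖∏ n ∈ s, φ n (θ n)‖ = 1 := by
    rw [norm_prod]; exact Finset.prod_eq_one fun n _ => ph1 (a0 n) (a1 n) _ _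
  have ev (s : Finset ℕ) : ∀ᶠ B in atTop, s ⊆ Finset.range (A B) :=
    ((s.eventually_all).2 fun n _ => hA.tendsto_atTop.eventually (eventually_gt_atTop n)).mono
      fun B h n hn => Finset.mem_range.2 (h n hn)
  have h1 := asum (X := fun b θ => 2 ^ b * ‖∏ n ∈ Finset.Ico (A b) (A (b + 1)), φ n (θ n) - 1‖ ^ 2)
    (fun b => by have := Fc (Finset.Ico (A b) (A (b + 1))); fun_prop) (fun b θ => by positivity)
    (summable_geometric_two.mul_left 2) fun b => by
      have e (θ : ℕ → T) : ‖∏ n ∈ Finset.Ico (A b) (A (b + 1)), φ n (θ n) - 1‖ ^ 2 =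
          2 - 2 * (∏ n ∈ Finset.Ico (A b) (A (b + 1)), φ n (θ n)).re := by
        have := F1 (Finset.Ico (A b) (A (b + 1))) θ
        rw [Complex.sq_norm, normSq_sub, normSq_eq_norm_sq, this]
        simp
        ring
      have i := cint mT (Fc (Finset.Ico (A b) (A (b + 1))))
      simp only [e, ← RCLike.re_to_complex]
      rw [integral_const_mul, integral_sub (integrable_const _) (i.re.const_mul 2),
        integral_const_mul, integral_re i, mT, iprod _ _ φc]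
      simp only [mean (a0 _) (a1 _) (hM _), integral_const, probReal_univ, smul_eq_mul, one_mul,
        ← ofReal_prod, RCLike.re_to_complex, ofReal_re]
      have : (2 : ℝ) ^ b * (1 / 4) ^ b = (1 / 2) ^ b := by rw [← mul_pow]; norm_num
      nlinarith [h b, pow_pos (two_pos (α := ℝ)) b]
  obtain ⟨f, fm, hf⟩ := measurable_limit_of_tendsto_metrizable_ae (μ := mT) (L := atTop)
    (fun B => (Fc (Finset.range (A B))).aemeasurable) (h1.mono fun θ h =>
      cauchySeq_tendsto_of_complete (cauchySeq_of_dist_le_of_summable _ (fun b => by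
        rw [← Finset.prod_range_mul_prod_Ico _ (hA.monotone b.le_succ), dist_comm, dist_eq_norm,
          ← mul_sub_one, norm_mul, F1, one_mul]
        generalize ‖∏ n ∈ Finset.Ico (A b) (A (b + 1)), φ n (θ n) - 1‖ = x
        have : (2 : ℝ) ^ b * (1 / 2) ^ b = 1 := by rw [← mul_pow]; norm_num
        have p := pow_pos (two_pos (α := ℝ)) b
        refine le_of_mul_le_mul_left ?_ p
        nlinarith [sq_nonneg (2 ^ b * x - 1), sq_nonneg (2 ^ b * x)])
        (summable_geometric_two.add h)))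
  have f1 : ∀ᵐ θ ∂mT, ‖f θ‖ = 1 := hf.mono fun θ h =>
    tendsto_nhds_unique h.norm (by simpa only [F1] using tendsto_const_nhds)
  refine ⟨f, fm, ⟨memLp_top_of_bound fm.aestronglyMeasurable 1 (f1.mono fun _ h => h.le),
    fun α ⟨m, hm⟩ => ?_⟩, f1, fun r hr => ?_⟩
  · have c : Continuous fun θ : ℕ → T => ∏ n ∈ α.support, fourier (-α n) (θ n) :=
      continuous_finsetProd _ fun n _ => (fc _).comp (continuous_apply n)
    refine tendsto_nhds_unique (tendsto_integral_of_dominated_convergence (fun _ => 1)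
      (fun B => ((Fc (Finset.range (A B))).mul c).aestronglyMeasurable) (integrable_const _)
      (fun B => .of_forall fun θ => by simp only [Pi.mul_apply, norm_mul, F1, norm_prod, nf]; simp)
      (hf.mono fun θ h => h.mul_const _)) (tendsto_const_nhds.congr' ((ev α.support).mono
        fun B hB => Eq.symm ?_))
    have (θ : ℕ → T) : ∏ n ∈ α.support, fourier (-α n) (θ n) =
        ∏ n ∈ Finset.range (A B), fourier (-α n) (θ n) :=
      Finset.prod_subset hB fun n _ h => by simp [Finsupp.notMem_support_iff.1 h]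
    simp only [Pi.mul_apply, this, ← Finset.prod_mul_distrib]
    rw [mT, iprod _ _ (g := fun n t => φ n t * fourier (-α n) t) fun n => (φc n).mul (fc _)]
    exact Finset.prod_eq_zero (hB (Finsupp.mem_support_iff.2 hm.ne)) (van (a0 m) (a1 m) _ hm)
  · have (n : ℕ) := prob (hr n).1 (hr n).2
    filter_upwards [trans (Measure.infinitePi fun n => pois (r n)) hf] with θ h s
    refine le_of_tendsto (tendsto_integral_of_dominated_convergence (fun _ => 1)
      (fun B => ((Fc (Finset.range (A B))).comp (continuous_const.sub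
        continuous_id)).aestronglyMeasurable) (integrable_const _)
      (fun B => .of_forall fun t => (F1 _ _).le) h).norm ((ev s).mono fun B hB => ?_)
    simp only [Function.comp, Pi.sub_apply, id]
    rw [iprod _ _ (g := fun n t => φ n (θ n - t)) fun n => (φc n).comp (by fun_prop), norm_prod]
    simp only [hφ, repP (a0 _) (a1 _) (hr _).1 (hr _).2]
    exact Finset.prod_le_prod_of_subset_of_le_one hB (fun _ _ => norm_nonneg _) fun n _ _ =>
      phle (a0 n) (a1 n) (nle (pow_nonneg (hr n).1 _) (pow_le_one₀ (hr n).1 (hr n).2.le) _ _)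

theorem main : ∃ f : (ℕ → T) → ℂ, Measurable f ∧ IsHinf f ∧ (∀ᵐ θ ∂mT, ‖f θ‖ = 1) ∧
    ∃ r : ℕ → ℕ → ℝ, (∀ k n, 0 ≤ r k n ∧ r k n < 1) ∧ (∀ k, Antitone (r k)) ∧
    (∀ k, ∃ m, ∀ n, m ≤ n → r k n = 0) ∧ (∀ n, Tendsto (fun k => r k n) atTop (𝓝 1)) ∧
    ∀ᵐ θ ∂mT, ∀ δ > 0, ∃ᶠ k in atTop, ‖rad f (r k) θ‖ < δ := by
  choose a N L R X a0 a1 N0 L0 hR hL Xc hX ha hI using
    fun b : ℕ => blk (pow_pos (by norm_num : (0 : ℝ) < 1 / 4) b)
  obtain ⟨A, hA⟩ : ∃ A : ℕ → ℕ, ∀ b, A (b + 1) = A b + N b :=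
    ⟨fun b => ∑ c ∈ Finset.range b, N c, fun b => Finset.sum_range_succ _ _⟩
  have Am : StrictMono A := strictMono_nat_of_lt_succ fun b => by have := N0 b; have := hA b; omega
  obtain ⟨β, hβ⟩ : ∃ β : ℕ → ℕ, ∀ b n, A b ≤ n → n < A (b + 1) → β n = b :=
    ⟨fun n => Nat.find (⟨n, Am.le_apply⟩ : ∃ b, n < A (b + 1)), fun b n h1 h2 =>
      (Nat.find_eq_iff _).2 ⟨h2, fun c hc => not_lt.2 ((Am.monotone hc).trans h1)⟩⟩
  obtain ⟨M, M0, hM⟩ : ∃ M : ℕ → ℕ, (∀ n, M n ≠ 0) ∧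
      ∀ b n, A b ≤ n → n + 1 < A (b + 1) → M n = L b * M (n + 1) :=
    ⟨fun n => L (β n) ^ (A (β n + 1) - n), fun n => pow_ne_zero _ (L0 _).ne', fun b n h1 h2 => by
      simp only [hβ b n h1 (by omega), hβ b (n + 1) (by omega) h2]
      rw [← pow_succ']; congr 1; omega⟩
  have cst {E : Type} [CommMonoid E] (g : ℕ → E) (b : ℕ) :
      ∏ n ∈ Finset.Ico (A b) (A (b + 1)), g (β n) = g b ^ N b := by
    rw [Finset.prod_congr rfl fun n hn => congrArg g (hβ b n (Finset.mem_Ico.1 hn).1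
      (Finset.mem_Ico.1 hn).2)]
    simp [hA]
  obtain ⟨f, fm, fH, f1, hf⟩ := lim (fun n => a0 (β n)) (fun n => a1 (β n)) M0 Am
    fun b => by rw [cst a]; exact ha b
  have (b : ℕ) : Nonempty (R b) := let ⟨ρ, h, _⟩ := hX b 0; ⟨⟨ρ, h⟩⟩
  obtain ⟨e, es, et⟩ := enum fun b => Fin (A (b + 1)) → R b
  obtain ⟨u, u0, u1, u2, u3⟩ : ∃ u : (Σ b, Fin (A (b + 1)) → R b) → ℕ → ℝ, (∀ p n, 0 ≤ u p n) ∧
      (∀ p n, u p n < 1) ∧ (∀ p n, A (p.1 + 1) ≤ n → u p n = 0) ∧
      ∀ p n h, u p n ^ M n = p.2 ⟨n, h⟩ := by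
    refine ⟨fun p n => if h : n < A (p.1 + 1) then (p.2 ⟨n, h⟩ : ℝ) ^ (M n : ℝ)⁻¹ else 0,
      fun p n => ?_, fun p n => ?_, fun p n h => dif_neg h.not_gt, fun p n h => ?_⟩
    · dsimp only
      split_ifs
      exacts [Real.rpow_nonneg (hR _ _ (p.2 _).2).1.le _, le_rfl]
    · dsimp only
      split_ifs
      exacts [Real.rpow_lt_one (hR _ _ (p.2 _).2).1.le (hR _ _ (p.2 _).2).2
        (inv_pos.2 (Nat.cast_pos.2 (M0 n).bot_lt)), one_pos]
    · simp only [dif_pos h]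
      exact Real.rpow_inv_natCast_pow (hR _ _ (p.2 _).2).1.le (M0 n)
  have b1 (b : ℕ) : 1 - 1 / ((b : ℝ) + 1) < 1 := sub_lt_self _ (by positivity)
  set r : ℕ → ℕ → ℝ := fun k n => if n < A (e k).1 then
    max (1 - 1 / (((e k).1 : ℝ) + 1)) (u (e k) (A (e k).1)) else u (e k) n with hr
  have r0 (k n : ℕ) : 0 ≤ r k n ∧ r k n < 1 := by
    simp only [hr]
    split_ifs
    exacts [⟨le_max_of_le_right (u0 _ _), max_lt (b1 _) (u1 _ _)⟩, ⟨u0 _ _, u1 _ _⟩]
  refine ⟨f, fm, fH, f1, r, r0, fun k => antitone_nat_of_succ_le fun n => ?_,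
    fun k => ⟨A ((e k).1 + 1), fun n hn => ?_⟩, fun n => ?_, ?_⟩
  · simp only [hr]
    split_ifs with h1 h2 h2
    · rfl
    · omega
    · exact le_max_of_le_right (by rw [show A (e k).1 = n + 1 by omega])
    · rcases le_or_gt (A ((e k).1 + 1)) (n + 1) with h | h
      · rw [u2 _ _ h]; exact u0 _ _
      · refine le_of_pow_le_pow_left₀ (M0 n) (u0 _ _) ?_
        rw [u3 _ n (by omega), hM _ n (by omega) h, mul_comm, pow_mul, u3 _ _ h]
        exact hL _ _ ((e k).2 _).2 _ ((e k).2 _).2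
  · simp only [hr]
    rw [if_neg (by have := hA (e k).1; omega), u2 _ _ hn]
  · have := (tendsto_one_div_add_atTop_nhds_zero_nat (𝕜 := ℝ)).comp et |>.const_sub 1
    rw [sub_zero] at this
    refine tendsto_of_tendsto_of_tendsto_of_le_of_le' this tendsto_const_nhds
      (((Am.tendsto_atTop.comp et).eventually (eventually_gt_atTop n)).mono fun k hk => ?_)
      (.of_forall fun k => (r0 k n).2.le)
    simp only [hr]
    rw [if_pos (show n < A (e k).1 from hk)]
    exact le_max_left _ _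
  have X0 (b : ℕ) (t : T) : 0 ≤ X b t := let ⟨_, _, h⟩ := hX b t; (sq_nonneg _).trans h
  have h1 := asum (X := fun b θ => ∏ n ∈ Finset.Ico (A b) (A (b + 1)), X b ((M n : ℤ) • θ n))
    (fun b => by have := Xc b; fun_prop) (fun b θ => Finset.prod_nonneg fun _ _ => X0 _ _)
    (summable_geometric_of_lt_one (by norm_num) (by norm_num : (1 / 4 : ℝ) < 1)) fun b => by
      rw [mT, iprod _ _ (g := fun n t => X b ((M n : ℤ) • t)) fun n => by have := Xc b; fun_prop,
        Finset.prod_congr rfl fun n _ => zs (Xc b) (M0 n)]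
      simpa [hA] using hI b
  filter_upwards [h1, ae_all_iff.2 fun k => hf (r k) (r0 k)] with θ h h' δ hδ
  refine frequently_atTop.2 fun K => ?_
  obtain ⟨b, hb, hK⟩ := ((h.tendsto_atTop_zero.eventually (gt_mem_nhds (pow_pos hδ 2))).and
    (((Finset.range K).eventually_all).2 fun k _ => eventually_gt_atTop (e k).1)).exists
  choose σ hσ hσ' using fun n => hX b ((M n : ℤ) • θ n)
  obtain ⟨k, hk⟩ := es ⟨b, fun i => ⟨σ i, hσ i⟩⟩
  refine ⟨k, not_lt.1 fun c => (hK k (Finset.mem_range.2 c)).ne (by rw [hk]),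
    (h' k (Finset.Ico (A b) (A (b + 1)))).trans_lt (lt_of_pow_lt_pow_left₀ 2 hδ.le
      (lt_of_le_of_lt ?_ hb))⟩
  rw [← Finset.prod_pow]
  refine Finset.prod_le_prod (fun _ _ => sq_nonneg _) fun n hn => ?_
  obtain ⟨n1, n2⟩ := Finset.mem_Ico.1 hn
  simp only [hr, hk, if_neg n1.not_gt, hβ b n n1 n2]
  rw [u3 _ n n2]
  simpa only [fourier_apply, one_zsmul] using hσ' n

end Pool.Agent.H55.Rad
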