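import Mathlib

set_option autoImplicit false

namespace Pool.Agent.H55.RadDefs

open MeasureTheory AddCircle

/-- Haar measure on the infinite torus: the product of the normalised Haar measures. -/
noncomputable def mT : Measure (ℕ → UnitAddCircle) := Measure.infinitePi fun _ => haarAddCircle

/-- Essentially bounded, with Fourier coefficients vanishing unless all entries are `≥ 0`. -/
def IsHinf (f : (ℕ → UnitAddCircle) → ℂ) : Prop :=
  MemLp f ⊤ mT ∧ ∀ α : ℕ →₀ ℤ, (∃ n, α n < 0) →
    ∫ θ, f θ * ∏ n ∈ α.support, fourier (-α n) (θ n) ∂mT = 0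

/-- The one-variable Poisson kernel. -/
noncomputable def pk (r : ℝ) (t : UnitAddCircle) : ℝ := (1 - r ^ 2) / ‖1 - r * fourier 1 t‖ ^ 2

/-- The one-variable Poisson measure. -/
noncomputable def pois (r : ℝ) : Measure UnitAddCircle :=
  haarAddCircle.withDensity fun t => ENNReal.ofReal (pk r t)

/-- `f(r e^{iθ}) = (f * P_r)(θ)`, with `P_r` the product of the Poisson measures. -/
noncomputable def rad (f : (ℕ → UnitAddCircle) → ℂ) (r : ℕ → ℝ) (θ : ℕ → UnitAddCircle) : ℂ :=
  ∫ t, f (θ - t) ∂Measure.infinitePi fun n => pois (r n)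

end Pool.Agent.H55.RadDefs
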