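import Mathlib

set_option autoImplicit false

namespace Pool.Agent.H55.Recip

open Filter Topology

/-- indicator that the `R`-block of the fraction `t / D` is `v` -/
noncomputable def ev (R D : ℕ) (v : ℤ) (t : ℕ) : ℝ := if (((R * t / D) % R : ℕ) : ℤ) = v then 1 else 0

lemma ev_mem (R D : ℕ) (v : ℤ) (t : ℕ) : 0 ≤ ev R D v t ∧ ev R D v t ≤ 1 := by
  unfold ev; split_ifs <;> simp

lemma blk_mod {R D : ℕ} (hR : 0 < R) (hD : 0 < D) (t : ℕ) : (R * t / D) % R = R * (t % D) / D := by
  have h1 : R * t = R * (t % D) + D * (R * (t / D)) := by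
    conv_lhs => rw [← Nat.mod_add_div t D]
    ring
  rw [h1, Nat.add_mul_div_left _ _ hD, Nat.add_mul_mod_self_left]
  apply Nat.mod_eq_of_lt
  rw [Nat.div_lt_iff_lt_mul hD]
  exact Nat.mul_lt_mul_of_pos_left (Nat.mod_lt _ hD) hR

lemma ev_congr {R D : ℕ} (hR : 0 < R) (hD : 0 < D) (v : ℤ) {t t' : ℕ} (h : t ≡ t' [MOD D]) :
    ev R D v t = ev R D v t' := by
  unfold ev
  rw [blk_mod hR hD, blk_mod hR hD, h]

lemma card_le_of_diam (T : Finset ℕ) (x : ℝ) (hx : 0 ≤ x)
    (h : ∀ s ∈ T, ∀ t ∈ T, (s : ℝ) - t < x) : (T.card : ℝ) ≤ x + 1 := by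
  rcases T.eq_empty_or_nonempty with rfl | hne
  · simp; linarith
  · have hs : T ⊆ Finset.Icc (T.min' hne) (T.max' hne) := fun t ht =>
      Finset.mem_Icc.2 ⟨T.min'_le t ht, T.le_max' t ht⟩
    have h1 := Finset.card_le_card hs
    rw [Nat.card_Icc] at h1
    have h2 := h _ (T.max'_mem hne) _ (T.min'_mem hne)
    have h3 : T.min' hne ≤ T.max' hne := T.min'_le _ (T.max'_mem hne)
    have h4 : T.card + T.min' hne ≤ T.max' hne + 1 := by omega
    have h5 : (T.card : ℝ) + T.min' hne ≤ T.max' hne + 1 := by exact_mod_cast h4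
    linarith

lemma window {R D M : ℕ} (hR : 0 < R) (hD : 0 < D) (hM : 0 < M) (v : ℤ) (u : ℕ) :
    ∑ j ∈ Finset.range D, ev R (D * M) v (u + j * u * M) ≤ D / R + 1 + Nat.gcd u D := by
  classical
  unfold ev
  rw [Finset.sum_boole]
  set S := (Finset.range D).filter
    (fun j => (((R * (u + j * u * M) / (D * M)) % R : ℕ) : ℤ) = v) with hS
  set g := Nat.gcd u D with hg
  have hg0 : 0 < g := Nat.gcd_pos_of_pos_right _ hD
  obtain ⟨e, he⟩ : g ∣ D := Nat.gcd_dvd_right u D
  obtain ⟨u1, hu1⟩ : g ∣ u := Nat.gcd_dvd_left u D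
  have he0 : 0 < e := by
    rcases Nat.eq_zero_or_pos e with h | h
    · rw [h] at he; omega
    · exact h
  have hcop : Nat.Coprime e u1 := by
    have := Nat.coprime_div_gcd_div_gcd (m := u) (n := D) hg0
    rw [← hg] at this
    have e1 : u / g = u1 := by rw [hu1, Nat.mul_div_cancel_left _ hg0]
    have e2 : D / g = e := by rw [he, Nat.mul_div_cancel_left _ hg0]
    rw [e1, e2] at this
    exact this.symm
  let s : ℕ → ℕ := fun j => (u / M + j * u) % D
  have hsm : ∀ j, s j % g = (u / M) % g := by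
    intro j
    simp only [s]
    rw [Nat.mod_mod_of_dvd _ (Dvd.intro _ he.symm)]
    conv_lhs => rw [show j * u = g * (j * u1) by rw [hu1]; ring]
    rw [Nat.add_mul_mod_self_left]
  have hev : ∀ j ∈ S, v * D < R * (s j + 1) ∧ (R : ℤ) * s j < (v + 1) * D := by
    intro j hj
    have h1 := (Finset.mem_filter.1 hj).2
    rw [blk_mod hR (Nat.mul_pos hD hM)] at h1
    have h2 : (u + j * u * M) % (D * M) = u % M + M * s j := by
      have e1 : u + j * u * M = u % M + M * (u / M + j * u) := by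
        have := Nat.mod_add_div u M
        nlinarith
      have e2 : u / M + j * u = s j + D * ((u / M + j * u) / D) := (Nat.mod_add_div _ _).symm
      have e3 : u + j * u * M = (u % M + M * s j) + D * M * ((u / M + j * u) / D) := by
        rw [e1]; conv_lhs => rw [e2]
        ring
      rw [e3, Nat.add_mul_mod_self_left]
      apply Nat.mod_eq_of_lt
      have h3 : s j + 1 ≤ D := Nat.mod_lt _ hD
      have h4 := Nat.mod_lt u hM
      nlinarith
    rw [h2] at h1
    set w := R * (u % M + M * s j) / (D * M) with hw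
    have h3 : w * (D * M) ≤ R * (u % M + M * s j) := Nat.div_mul_le_self _ _
    have h4 : R * (u % M + M * s j) < (w + 1) * (D * M) :=
      (Nat.div_lt_iff_lt_mul (Nat.mul_pos hD hM)).1 (Nat.lt_succ_self _)
    have h5 := Nat.mod_lt u hM
    have h6 : w * D < R * (s j + 1) := by
      apply Nat.lt_of_mul_lt_mul_right (a := M)
      have : R * (u % M) < R * M := Nat.mul_lt_mul_of_pos_left h5 hR
      nlinarith
    have h7 : R * s j < (w + 1) * D := by
      apply Nat.lt_of_mul_lt_mul_right (a := M)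
      nlinarith [Nat.zero_le (R * (u % M))]
    rw [← h1]
    exact ⟨by exact_mod_cast h6, by exact_mod_cast h7⟩
  have hfib : S.card ≤ g * (S.image (fun j => s j / g)).card := by
    apply Finset.card_le_mul_card_image
    intro b _
    have : (S.filter (fun j => s j / g = b)).card ≤ (Finset.range g).card := by
      apply Finset.card_le_card_of_injOn (fun j => j / e)
      · intro j hj
        have hj' := Finset.mem_range.1 (Finset.mem_filter.1 (Finset.mem_filter.1 hj).1).1
        simp only [Finset.coe_range, Set.mem_Iio]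
        rw [Nat.div_lt_iff_lt_mul he0, ← he]; exact hj'
      · intro j hj j' hj' hjj
        have a1 := (Finset.mem_filter.1 hj).2
        have a2 := (Finset.mem_filter.1 hj').2
        have a3 : s j = s j' := by
          rw [← Nat.mod_add_div (s j) g, ← Nat.mod_add_div (s j') g, hsm, hsm, a1, a2]
        have a4 : j * u ≡ j' * u [MOD D] := Nat.ModEq.add_left_cancel' (u / M) a3
        rw [he, hu1, show j * (g * u1) = g * (j * u1) by ring,
          show j' * (g * u1) = g * (j' * u1) by ring] at a4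
        have a5 : j * u1 ≡ j' * u1 [MOD e] := Nat.ModEq.mul_left_cancel' hg0.ne' a4
        have a6 : j ≡ j' [MOD e] := Nat.ModEq.cancel_right_of_coprime hcop a5
        simp only at hjj
        rw [← Nat.mod_add_div j e, ← Nat.mod_add_div j' e, a6, hjj]
    simpa using this
  have hR' : (0 : ℝ) < R := by exact_mod_cast hR
  have hg' : (0 : ℝ) < g := by exact_mod_cast hg0
  have him : ((S.image (fun j => s j / g)).card : ℝ) ≤ (D / R + 1) / g + 1 := by
    apply card_le_of_diam _ _ (by positivity)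
    intro b hb b' hb'
    obtain ⟨j, hj, rfl⟩ := Finset.mem_image.1 hb
    obtain ⟨j', hj', rfl⟩ := Finset.mem_image.1 hb'
    have a1 := (hev j hj).2
    have a2 := (hev j' hj').1
    have a3 : (R : ℤ) * (s j - s j') < D + R := by nlinarith
    have a4 : (R : ℝ) * (s j - s j') < D + R := by exact_mod_cast a3
    have a5 : (s j : ℝ) = (u / M % g : ℕ) + g * (s j / g : ℕ) := by
      rw [← hsm j]; exact_mod_cast (Nat.mod_add_div _ _).symm
    have a6 : (s j' : ℝ) = (u / M % g : ℕ) + g * (s j' / g : ℕ) := by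
      rw [← hsm j']; exact_mod_cast (Nat.mod_add_div _ _).symm
    rw [lt_div_iff₀ hg', div_add_one hR'.ne', lt_div_iff₀ hR']
    rw [a5, a6] at a4
    linarith
  have h1 : (S.card : ℝ) ≤ g * (S.image (fun j => s j / g)).card := by exact_mod_cast hfib
  calc (S.card : ℝ) ≤ g * ((D / R + 1) / g + 1) := h1.trans (by gcongr)
    _ = _ := by field_simp

lemma sum_range_mul' (f : ℕ → ℝ) (n q : ℕ) : ∑ i ∈ Finset.range (n * q), f i =
    ∑ j ∈ Finset.range q, ∑ i ∈ Finset.range n, f (n * j + i) := by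
  induction q with
  | zero => simp
  | succ q ih => rw [Nat.mul_succ, Finset.sum_range_add, ih, Finset.sum_range_succ]

lemma pow_exp (q m : ℕ) : ∃ c : ℕ, (1 + q) ^ m = 1 + m * q + q ^ 2 * c := by
  induction m with
  | zero => exact ⟨0, by simp⟩
  | succ m ih =>
    obtain ⟨c, hc⟩ := ih
    exact ⟨c + m + q * c, by rw [pow_succ, hc]; ring⟩

lemma period {r R D M n : ℕ} (hR : 0 < R) (hD : 0 < D) (hM : 0 < M) (hn : r ^ n = 1 + M)
    (hDM : D ∣ M) (hc : Nat.Coprime r D) (v : ℤ) (c : ℕ) :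
    ∑ i ∈ Finset.range (n * D), ev R (D * M) v (r ^ i * c) ≤ n * (D / R + 1 + Nat.gcd c D) := by
  rw [sum_range_mul', Finset.sum_comm]
  have : ∀ i ∈ Finset.range n, ∑ j ∈ Finset.range D, ev R (D * M) v (r ^ (n * j + i) * c) ≤
      D / R + 1 + Nat.gcd c D := by
    intro i _
    have h1 := window hR hD hM v (r ^ i * c)
    rw [Nat.Coprime.gcd_mul_left_cancel c (hc.pow_left i)] at h1
    refine le_trans (le_of_eq (Finset.sum_congr rfl fun j _ => ?_)) h1
    apply ev_congr hR (Nat.mul_pos hD hM)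
    obtain ⟨w, hw⟩ := pow_exp M j
    obtain ⟨b, hb⟩ := hDM
    have : r ^ (n * j + i) * c = (r ^ i * c + j * (r ^ i * c) * M) + D * M * (b * w * (r ^ i * c)) := by
      rw [pow_add, pow_mul, hn, hw, sq]
      nth_rewrite 2 [hb]
      ring
    rw [this]
    exact Nat.add_mul_mod_self_left _ _ _
  refine (Finset.sum_le_sum this).trans (le_of_eq ?_)
  rw [Finset.sum_const, Finset.card_range, nsmul_eq_mul]

lemma stretch {r R D M n : ℕ} (hR : 0 < R) (hD : 0 < D) (hM : 0 < M) (hn0 : 0 < n)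
    (hn : r ^ n = 1 + M) (hDM : D ∣ M) (hc : Nat.Coprime r D) (v : ℤ) (c l : ℕ) :
    ∑ i ∈ Finset.range l, ev R (D * M) v (r ^ i * c) ≤
      l / R + l * ((1 + Nat.gcd c D) / D) + n * D := by
  have hp : 0 < n * D := Nat.mul_pos hn0 hD
  set q := l / (n * D) with hq
  have hl : l = n * D * q + l % (n * D) := (Nat.div_add_mod _ _).symm
  conv_lhs => rw [hl]
  rw [Finset.sum_range_add, sum_range_mul']
  have h1 : ∑ j ∈ Finset.range q, ∑ i ∈ Finset.range (n * D), ev R (D * M) v (r ^ (n * D * j + i) * c)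
      ≤ q * (n * (D / R + 1 + Nat.gcd c D)) := by
    have : ∀ j ∈ Finset.range q, ∑ i ∈ Finset.range (n * D),
        ev R (D * M) v (r ^ (n * D * j + i) * c) ≤ n * (D / R + 1 + Nat.gcd c D) := by
      intro j _
      have h2 := period hR hD hM hn hDM hc v (r ^ (n * D * j) * c)
      rw [Nat.Coprime.gcd_mul_left_cancel c (hc.pow_left _)] at h2
      refine le_trans (le_of_eq (Finset.sum_congr rfl fun i _ => ?_)) h2
      congr 1; ring
    refine (Finset.sum_le_sum this).trans (le_of_eq ?_)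
    rw [Finset.sum_const, Finset.card_range, nsmul_eq_mul]
  have h2 : ∑ i ∈ Finset.range (l % (n * D)), ev R (D * M) v (r ^ (n * D * q + i) * c) ≤ n * D := by
    refine (Finset.sum_le_sum (fun i _ => (ev_mem _ _ _ _).2)).trans ?_
    rw [Finset.sum_const, Finset.card_range, nsmul_eq_mul, mul_one]
    exact_mod_cast (Nat.mod_lt _ hp).le
  have h3 : (n : ℝ) * D * q ≤ l := by
    have : n * D * q ≤ l := by omega
    exact_mod_cast this
  have hD' : (0 : ℝ) < D := by exact_mod_cast hD
  have hR' : (0 : ℝ) < R := by exact_mod_cast hR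
  have h4 : (q : ℝ) * (n * (D / R + 1 + Nat.gcd c D)) =
      (n * D * q) * (1 / R + (1 + Nat.gcd c D) / D) := by field_simp; ring
  have h5 : (l : ℝ) / R + l * ((1 + Nat.gcd c D) / D) = l * (1 / R + (1 + Nat.gcd c D) / D) := by ring
  have h6 : ((n : ℝ) * D * q) * (1 / R + (1 + Nat.gcd c D) / D) ≤
      l * (1 / R + (1 + Nat.gcd c D) / D) := by gcongr
  linarith

lemma sum_gcd_le {D : ℕ} (hD : 0 < D) (J : ℕ) :
    ∑ j ∈ Finset.range J, Nat.gcd (j + 1) D ≤ J * D.divisors.card := by
  have h1 : ∀ j ∈ Finset.range J, Nat.gcd (j + 1) D ≤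
      ∑ d ∈ D.divisors, if d ∣ j + 1 then d else 0 := by
    intro j _
    have hm : Nat.gcd (j + 1) D ∈ D.divisors := Nat.mem_divisors.2 ⟨Nat.gcd_dvd_right _ _, hD.ne'⟩
    have := Finset.single_le_sum (f := fun d => if d ∣ j + 1 then d else 0)
      (fun _ _ => Nat.zero_le _) hm
    simpa [Nat.gcd_dvd_left] using this
  refine (Finset.sum_le_sum h1).trans ?_
  rw [Finset.sum_comm, mul_comm, ← smul_eq_mul, ← Finset.sum_const]
  apply Finset.sum_le_sum
  intro d _
  rw [← Finset.sum_filter, Finset.sum_const, smul_eq_mul, Nat.card_multiples]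
  exact Nat.div_mul_le_self _ _

lemma card_div_le {D K : ℕ} (hD : 0 < D) (hK : 0 < K) : K * D.divisors.card ≤ D + K * K := by
  classical
  have h0 := Finset.card_filter_add_card_filter_not (s := D.divisors) (fun d => d * K ≤ D)
  have h1 : (D.divisors.filter (fun d => d * K ≤ D)).card ≤ D / K := by
    have : D.divisors.filter (fun d => d * K ≤ D) ⊆ Finset.Icc 1 (D / K) := by
      intro d hd
      rw [Finset.mem_filter] at hd
      exact Finset.mem_Icc.2 ⟨Nat.pos_of_mem_divisors hd.1, (Nat.le_div_iff_mul_le hK).2 hd.2⟩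
    simpa using Finset.card_le_card this
  have h2 : (D.divisors.filter (fun d => ¬ d * K ≤ D)).card ≤ (Finset.range K).card := by
    apply Finset.card_le_card_of_injOn (fun d => D / d)
    · intro d hd
      have hd' := Finset.mem_filter.1 hd
      simp only [Finset.coe_range, Set.mem_Iio]
      rw [Nat.div_lt_iff_lt_mul (Nat.pos_of_mem_divisors hd'.1), mul_comm]
      exact not_le.1 hd'.2
    · intro d hd d' hd' h
      have a1 := Nat.dvd_of_mem_divisors (Finset.mem_filter.1 hd).1
      have a2 := Nat.dvd_of_mem_divisors (Finset.mem_filter.1 hd').1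
      simp only at h
      rw [← Nat.div_div_self a1 hD.ne', h, Nat.div_div_self a2 hD.ne']
  rw [Finset.card_range] at h2
  have h3 := Nat.mul_div_le D K
  have h4 : K * D.divisors.card ≤ K * (D / K + K) := Nat.mul_le_mul_left _ (by omega)
  nlinarith

lemma blockB {r D M n L κ i j : ℕ} (hr : 2 ≤ r) (hD : 0 < D) (hn : r ^ n = 1 + M) (hDM : D ∣ M)
    (hi : i + κ + L + 2 ≤ n) :
    (r ^ (n * j + i + κ) * r ^ (L + n) / (D * M)) % r ^ κ =
      (r ^ κ * (r ^ i * (r ^ L * (j + 1))) / D) % r ^ κ := by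
  obtain ⟨w, hw⟩ := pow_exp M (j + 1)
  obtain ⟨b, hb⟩ := hDM
  set W := r ^ (i + κ + L) with hW
  have hWM : W < M := by
    have h1 : r ^ (i + κ + L + 2) ≤ r ^ n := Nat.pow_le_pow_right (by omega) hi
    have h2 : 0 < W := Nat.pow_pos (by omega)
    rw [pow_add, ← hW, hn] at h1
    have h3 : 2 ^ 2 ≤ r ^ 2 := Nat.pow_le_pow_left hr 2
    have h4 : W * 2 ^ 2 ≤ W * r ^ 2 := Nat.mul_le_mul_left _ h3
    omega
  have hM : 0 < M := by omega
  have e1 : r ^ (n * j + i + κ) * r ^ (L + n) =
      W + M * (W * (j + 1) + D * (r ^ κ * (r ^ (i + L) * b * w))) := by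
    have : r ^ (n * j + i + κ) * r ^ (L + n) = W * (r ^ n) ^ (j + 1) := by
      rw [hW, ← pow_mul, ← pow_add, ← pow_add]; congr 1; ring
    rw [this, hn, hw, sq]
    have e : W = r ^ κ * r ^ (i + L) := by rw [hW, ← pow_add]; congr 1; ring
    nth_rewrite 3 [hb]
    rw [e]; ring
  rw [e1, mul_comm D M, ← Nat.div_div_eq_div_mul, Nat.add_mul_div_left _ _ hM, Nat.div_eq_of_lt hWM,
    zero_add, Nat.add_mul_div_left _ _ hD, Nat.add_mul_mod_self_left]
  congr 2
  rw [hW]; ring

end Pool.Agent.H55.Recip
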