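import Pool.Agent.H55.Recip1

set_option autoImplicit false

namespace Pool.Agent.H55.Recip

open Filter Topology

def nn (k a L : ℕ) : ℕ := Nat.totient a * ((k + 1) * (L * a + 2 * L + k + 5))

def st (r : ℕ) : ℕ → ℕ × ℕ
  | 0 => (1, 0)
  | k + 1 => ((st r k).1 * (r ^ nn k (st r k).1 (st r k).2 - 1),
      (st r k).2 + nn k (st r k).1 (st r k).2)

def a (r k : ℕ) : ℕ := (st r k).1
def L (r k : ℕ) : ℕ := (st r k).2
def n (r k : ℕ) : ℕ := nn k (a r k) (L r k)

lemma a_succ (r k : ℕ) : a r (k + 1) = a r k * (r ^ n r k - 1) := rfl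
lemma L_succ (r k : ℕ) : L r (k + 1) = L r k + n r k := rfl

variable {r : ℕ}

lemma n_ge_of (k : ℕ) (h : 0 < a r k) : (k + 1) * (L r k * a r k + 2 * L r k + k + 5) ≤ n r k :=
  Nat.le_mul_of_pos_left _ (Nat.totient_pos.2 h)

lemma n_five_of (k : ℕ) (h : 0 < a r k) : 2 * L r k + k + 5 ≤ n r k := by
  have := n_ge_of k h
  nlinarith [Nat.zero_le (L r k * a r k), Nat.zero_le (k * (L r k * a r k + 2 * L r k + k + 5))]

lemma pow_ge (hr : 2 ≤ r) {m : ℕ} (h : 2 ≤ m) : 4 ≤ r ^ m :=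
  le_trans (Nat.pow_le_pow_left hr 2) (Nat.pow_le_pow_right (by omega) h)

lemma a_good (hr : 2 ≤ r) (k : ℕ) : 0 < a r k ∧ Nat.Coprime r (a r k) := by
  induction k with
  | zero => exact ⟨Nat.one_pos, Nat.coprime_one_right r⟩
  | succ k ih =>
    have h5 := n_five_of k ih.1
    have h4 := pow_ge hr (show 2 ≤ n r k by omega)
    rw [a_succ]
    refine ⟨Nat.mul_pos ih.1 (by omega), ih.2.mul_right ?_⟩
    have h1 : Nat.Coprime (r ^ n r k) (r ^ n r k - 1) :=
      (Nat.coprime_self_sub_right (by omega)).2 (Nat.coprime_one_right _)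
    exact (Nat.coprime_pow_left_iff (by omega) _ _).1 h1

lemma a_pos (hr : 2 ≤ r) (k : ℕ) : 0 < a r k := (a_good hr k).1

lemma n_ge (hr : 2 ≤ r) (k : ℕ) : (k + 1) * (L r k * a r k + 2 * L r k + k + 5) ≤ n r k :=
  n_ge_of k (a_pos hr k)

lemma n_five (hr : 2 ≤ r) (k : ℕ) : 2 * L r k + k + 5 ≤ n r k := n_five_of k (a_pos hr k)

lemma n_lt (hr : 2 ≤ r) (k : ℕ) : n r k < n r (k + 1) := by
  have := n_five hr (k + 1)
  rw [L_succ] at this
  omega

lemma a_dvd (hr : 2 ≤ r) (k : ℕ) : a r k ∣ r ^ n r k - 1 := by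
  have h := Nat.ModEq.pow_totient (a_good hr k).2
  have h2 := h.pow ((k + 1) * (L r k * a r k + 2 * L r k + k + 5))
  rw [← pow_mul, one_pow] at h2
  exact (Nat.modEq_iff_dvd' (Nat.one_le_pow _ _ (by omega))).1 h2.symm

lemma a_le (k : ℕ) : a r k ≤ r ^ L r k := by
  induction k with
  | zero => exact le_rfl
  | succ k ih =>
    rw [a_succ, L_succ, pow_add]
    exact Nat.mul_le_mul ih (Nat.sub_le _ _)

lemma a_ge (hr : 2 ≤ r) (k : ℕ) : k + 1 ≤ a r k := by
  induction k with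
  | zero => exact le_rfl
  | succ k ih =>
    rw [a_succ]
    have h4 := pow_ge hr (show 2 ≤ n r k by have := n_five hr k; omega)
    have : a r k * 2 ≤ a r k * (r ^ n r k - 1) := Nat.mul_le_mul_left _ (by omega)
    omega

noncomputable def xs (r k : ℕ) : ℝ := a r k / (r : ℝ) ^ L r k

lemma r_pos (hr : 2 ≤ r) : (0 : ℝ) < r := by exact_mod_cast (by omega : 0 < r)
lemma r_two (hr : 2 ≤ r) : (2 : ℝ) ≤ r := by exact_mod_cast hr

lemma xs_pos (hr : 2 ≤ r) (k : ℕ) : 0 < xs r k := by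
  have : (0:ℝ) < a r k := by exact_mod_cast a_pos hr k
  have := r_pos hr
  unfold xs; positivity

lemma xs_le (hr : 2 ≤ r) (k : ℕ) : xs r k ≤ 1 := by
  have := r_pos hr
  unfold xs
  rw [div_le_one (by positivity)]
  exact_mod_cast a_le k

lemma xs_succ (hr : 2 ≤ r) (k : ℕ) : xs r (k + 1) = xs r k - xs r k / (r : ℝ) ^ n r k := by
  have := r_pos hr
  unfold xs
  rw [a_succ, L_succ, Nat.cast_mul, Nat.cast_sub (Nat.one_le_pow _ _ (by omega)), pow_add]
  push_cast; field_simp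

lemma xs_lt (hr : 2 ≤ r) (k : ℕ) : xs r (k + 1) < xs r k := by
  rw [xs_succ hr]
  have := xs_pos hr k
  have := r_pos hr
  have : 0 < xs r k / (r : ℝ) ^ n r k := by positivity
  linarith

lemma xs_anti (hr : 2 ≤ r) : Antitone (xs r) := antitone_nat_of_succ_le fun k => (xs_lt hr k).le

lemma xs_low (hr : 2 ≤ r) (k j : ℕ) :
    xs r k - 2 / (r : ℝ) ^ n r k + 2 / (r : ℝ) ^ n r (k + j) ≤ xs r (k + j) := by
  have hr0 := r_pos hr
  induction j with
  | zero => simp
  | succ j ih =>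
    rw [← add_assoc, xs_succ hr]
    have h1 : xs r (k + j) / (r : ℝ) ^ n r (k + j) ≤ 1 / (r : ℝ) ^ n r (k + j) :=
      div_le_div_of_nonneg_right (xs_le hr _) (by positivity)
    have h2 : (2:ℝ) / (r : ℝ) ^ n r (k + j + 1) ≤ 1 / (r : ℝ) ^ n r (k + j) := by
      rw [div_le_div_iff₀ (by positivity) (by positivity), one_mul]
      calc 2 * (r : ℝ) ^ n r (k + j) ≤ r * (r : ℝ) ^ n r (k + j) := by gcongr; exact r_two hr
        _ = (r : ℝ) ^ (n r (k + j) + 1) := by ring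
        _ ≤ _ := pow_le_pow_right₀ (by linarith [r_two hr]) (n_lt hr _)
    have h3 : (2:ℝ) / (r : ℝ) ^ n r (k + j) = 2 * (1 / (r : ℝ) ^ n r (k + j)) := by ring
    linarith

noncomputable def y (r : ℕ) : ℝ := ⨅ k, xs r k

lemma bdd (hr : 2 ≤ r) : BddBelow (Set.range (xs r)) :=
  ⟨0, by rintro _ ⟨k, rfl⟩; exact (xs_pos hr k).le⟩

lemma y_lt (hr : 2 ≤ r) (k : ℕ) : y r < xs r k :=
  lt_of_le_of_lt (ciInf_le (bdd hr) (k + 1)) (xs_lt hr k)

lemma y_ge (hr : 2 ≤ r) (k : ℕ) : xs r k - 2 / (r : ℝ) ^ n r k ≤ y r := by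
  refine le_ciInf fun j => ?_
  have h1 := xs_low hr k j
  have h2 := xs_anti hr (Nat.le_add_left j k)
  have := r_pos hr
  have : (0:ℝ) < 2 / (r : ℝ) ^ n r (k + j) := by positivity
  linarith

lemma y_half (hr : 2 ≤ r) : 1 / 2 ≤ y r := by
  have h := y_ge hr 0
  have h1 : xs r 0 = 1 := by simp [xs, a, L, st]
  have h2 : (4:ℝ) ≤ (r : ℝ) ^ n r 0 := by
    exact_mod_cast pow_ge hr (show 2 ≤ n r 0 by have := n_five hr 0; omega)
  have h3 : (2:ℝ) / (r : ℝ) ^ n r 0 ≤ 1 / 2 := by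
    rw [div_le_iff₀ (by positivity)]; linarith
  linarith

lemma digit_top (hr : 2 ≤ r) (k P : ℕ) (h1 : L r k < P) (h2 : P + 1 ≤ n r k) :
    ⌊y r * (r : ℝ) ^ P⌋ % (r : ℤ) = r - 1 := by
  have hr0 := r_pos hr
  obtain ⟨e, rfl⟩ : ∃ e, P = L r k + (e + 1) := ⟨P - L r k - 1, by omega⟩
  have h3 : xs r k * (r:ℝ) ^ (L r k + (e + 1)) = ((r * (r ^ e * a r k) : ℤ) : ℝ) := by
    unfold xs; push_cast; rw [pow_add, pow_succ]; field_simp
  have hp : (0:ℝ) < (r : ℝ) ^ (L r k + (e + 1)) := by positivity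
  have : ⌊y r * (r:ℝ) ^ (L r k + (e + 1))⌋ = r * (r ^ e * a r k) - 1 := by
    rw [Int.floor_eq_iff, Int.cast_sub, ← h3]
    constructor
    · have h4 := mul_le_mul_of_nonneg_right (y_ge hr k) hp.le
      have h5 : (2 / (r : ℝ) ^ n r k) * (r:ℝ) ^ (L r k + (e + 1)) ≤ 1 := by
        rw [div_mul_eq_mul_div, div_le_one (by positivity)]
        calc 2 * (r : ℝ) ^ (L r k + (e + 1)) ≤ r * (r : ℝ) ^ (L r k + (e + 1)) := by
              gcongr; exact r_two hr
          _ = (r : ℝ) ^ (L r k + (e + 1) + 1) := by ring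
          _ ≤ _ := pow_le_pow_right₀ (by linarith [r_two hr]) h2
      push_cast; linarith
    · have h4 := mul_lt_mul_of_pos_right (y_lt hr k) hp
      push_cast; linarith
  rw [this, show (r : ℤ) * (r ^ e * a r k) - 1 = (r - 1) + r * (r ^ e * a r k - 1) by ring,
    Int.add_mul_emod_self_left]
  apply Int.emod_eq_of_lt <;> omega

open Classical in
noncomputable def bad (r N : ℕ) : Finset ℕ :=
  (Finset.range N).filter fun j => ¬ ⌊y r * (r : ℝ) ^ (j + 1)⌋ % (r : ℤ) = r - 1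

lemma bad_card (hr : 2 ≤ r) (k N : ℕ) (h2 : N < n r (k + 1)) : (bad r N).card ≤ 2 * L r k + 1 := by
  have : bad r N ⊆ Finset.range (L r k) ∪ Finset.Ico (n r k - 1) (L r (k + 1)) := by
    intro j hj
    simp only [bad, Finset.mem_filter, Finset.mem_range] at hj
    simp only [Finset.mem_union, Finset.mem_range, Finset.mem_Ico]
    by_contra hc
    apply hj.2
    by_cases h3 : j + 1 + 1 ≤ n r k
    · exact digit_top hr k _ (by omega) h3
    · exact digit_top hr (k + 1) _ (by omega) (by omega)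
  refine le_trans (Finset.card_le_card this) (le_trans (Finset.card_union_le _ _) ?_)
  rw [Finset.card_range, Nat.card_Ico, L_succ]
  omega

lemma find_level (hr : 2 ≤ r) (K N : ℕ) (hN : n r K ≤ N) :
    ∃ k, K ≤ k ∧ n r k ≤ N ∧ N < n r (k + 1) := by
  have hm : StrictMono (n r) := strictMono_nat_of_lt_succ (n_lt hr)
  have hex : ∃ k, N < n r (k + 1) := ⟨N, lt_of_lt_of_le (Nat.lt_succ_self N) (hm.id_le (N + 1))⟩
  set k := Nat.find hex with hk
  have h1 : N < n r (k + 1) := Nat.find_spec hex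
  have hKk : K ≤ k := by
    have := hm.lt_iff_lt.1 (lt_of_le_of_lt hN h1); omega
  refine ⟨k, hKk, ?_, h1⟩
  rcases Nat.eq_zero_or_pos k with h | h
  · rw [h]; exact le_trans (hm.monotone (Nat.zero_le _)) hN
  · have := Nat.find_min hex (m := k - 1) (by omega)
    rw [Nat.sub_add_cancel h] at this; omega

lemma bad_lim (hr : 2 ≤ r) : Tendsto (fun N : ℕ => ((bad r N).card : ℝ) / N) atTop (𝓝 0) := by
  rw [Metric.tendsto_atTop]
  intro ε hε
  obtain ⟨K, hK⟩ := exists_nat_one_div_lt hε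
  refine ⟨n r K, fun N hN => ?_⟩
  obtain ⟨k, hKk, h2, h1⟩ := find_level hr K N hN
  have h3 := bad_card hr k N h1
  have h4 : (K + 1) * (bad r N).card ≤ N := by
    have := n_ge hr k
    have h5 : (K + 1) * (bad r N).card ≤ (k + 1) * (L r k * a r k + 2 * L r k + k + 5) :=
      Nat.mul_le_mul (by omega) (by omega)
    omega
  have hN0 : (0:ℝ) < N := by have := n_five hr k; exact_mod_cast (by omega : 0 < N)
  rw [Real.dist_eq, sub_zero, abs_of_nonneg (by positivity)]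
  refine lt_of_le_of_lt ?_ hK
  rw [div_le_div_iff₀ hN0 (by positivity), one_mul, mul_comm]
  exact_mod_cast h4

open Classical in
noncomputable def cnt (r : ℕ) (z : ℝ) (N κ : ℕ) (w : Fin κ → Fin r) : ℕ :=
  ((Finset.range N).filter (fun i : ℕ => ∀ j : Fin κ,
    ⌊z * (r : ℝ) ^ (i + (j : ℕ) + 1)⌋ % (r : ℤ) = ((w j : ℕ) : ℤ))).card

theorem det_y (hr : 2 ≤ r) : Tendsto (fun N : ℕ => ∑ w : Fin 1 → Fin r,
    Real.negMulLog ((cnt r (y r) N 1 w : ℝ) / N)) atTop (𝓝 0) := by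
  classical
  have : (0:ℝ) = ∑ w : Fin 1 → Fin r, 0 := by simp
  rw [this]
  refine tendsto_finsetSum _ fun w _ => ?_
  by_cases hw : ((w 0 : ℕ) : ℤ) = r - 1
  · have h1 : Tendsto (fun N : ℕ => (cnt r (y r) N 1 w : ℝ) / N) atTop (𝓝 (1 - 0)) := by
      refine ((bad_lim hr).const_sub 1).congr' ?_
      filter_upwards [eventually_gt_atTop 0] with N hN
      have hN0 : (N:ℝ) ≠ 0 := by positivity
      have h2 : cnt r (y r) N 1 w + (bad r N).card = N := by
        have := Finset.card_filter_add_card_filter_not (s := Finset.range N)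
          (fun j => ⌊y r * (r : ℝ) ^ (j + 1)⌋ % (r : ℤ) = r - 1)
        rw [Finset.card_range] at this
        refine Eq.trans ?_ this
        unfold cnt bad
        congr 2
        ext j; simp [Fin.forall_fin_one, hw]
      have h3 : (cnt r (y r) N 1 w : ℝ) = N - (bad r N).card := by
        rw [eq_sub_iff_add_eq]; exact_mod_cast h2
      rw [h3]; field_simp
    have := (Real.continuous_negMulLog.tendsto _).comp h1
    simpa [Function.comp_def] using this
  · have h1 : Tendsto (fun N : ℕ => (cnt r (y r) N 1 w : ℝ) / N) atTop (𝓝 0) := by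
      refine squeeze_zero (fun N => by positivity) (fun N => ?_) (bad_lim hr)
      refine div_le_div_of_nonneg_right ?_ (by positivity)
      have : cnt r (y r) N 1 w ≤ (bad r N).card := by
        unfold cnt bad
        refine Finset.card_le_card fun j hj => ?_
        simp only [Finset.mem_filter, Fin.forall_fin_one] at hj ⊢
        refine ⟨hj.1, fun h => hw ?_⟩
        have h2 := hj.2
        simp only [Fin.val_zero, add_zero] at h2
        rw [← h2, h]
      exact_mod_cast this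
    have := (Real.continuous_negMulLog.tendsto _).comp h1
    simpa [Function.comp_def] using this

lemma floor_eq (hr : 2 ≤ r) (k P : ℕ) (h : P + L r k + 4 ≤ n r k) :
    ⌊(y r)⁻¹ * (r:ℝ) ^ P⌋ = ((r ^ P * r ^ L r k / a r k : ℕ) : ℤ) := by
  have hr0 := r_pos hr
  have hx := y_half hr
  have hx0 : 0 < y r := by linarith
  have ha : (0:ℝ) < a r k := by exact_mod_cast a_pos hr k
  set ys : ℝ := (r : ℝ) ^ L r k / a r k with hys
  have hy : ys = (xs r k)⁻¹ := by rw [hys]; unfold xs; rw [inv_div]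
  have hp : (0:ℝ) < (r : ℝ) ^ P := by positivity
  have h1 : ys ≤ (y r)⁻¹ := by rw [hy]; exact inv_anti₀ hx0 (y_lt hr k).le
  have h2 : (y r)⁻¹ ≤ ys + 8 / (r : ℝ) ^ n r k := by
    rw [hy]
    have h3 := y_ge hr k
    have h4 := y_lt hr k
    have e : (y r)⁻¹ = (xs r k)⁻¹ + (xs r k - y r) / (y r * xs r k) := by
      have := xs_pos hr k
      field_simp; ring
    rw [e]
    have h5 : (xs r k - y r) / (y r * xs r k) ≤ (2 / (r : ℝ) ^ n r k) / (1 / 4) :=
      div_le_div₀ (by positivity) (by linarith) (by norm_num) (by nlinarith)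
    have h6 : (2 / (r : ℝ) ^ n r k : ℝ) / (1 / 4) = 8 / (r : ℝ) ^ n r k := by ring
    linarith
  set f := r ^ P * r ^ L r k / a r k with hf
  have b1 : f * a r k ≤ r ^ P * r ^ L r k := Nat.div_mul_le_self _ _
  have b2 : r ^ P * r ^ L r k + 1 ≤ (f + 1) * a r k :=
    (Nat.div_lt_iff_lt_mul (a_pos hr k)).1 (Nat.lt_succ_self _)
  have b1' : (f : ℝ) * a r k ≤ (r : ℝ) ^ P * (r : ℝ) ^ L r k := by exact_mod_cast b1
  have b2' : (r : ℝ) ^ P * (r : ℝ) ^ L r k + 1 ≤ (f + 1) * a r k := by exact_mod_cast b2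
  have h4 : ys * (r : ℝ) ^ P = (r : ℝ) ^ P * (r : ℝ) ^ L r k / a r k := by rw [hys]; ring
  rw [Int.floor_eq_iff]
  constructor
  · refine le_trans ?_ (mul_le_mul_of_nonneg_right h1 hp.le)
    rw [h4, le_div_iff₀ ha]; exact_mod_cast b1'
  · have h6 : ys * (r : ℝ) ^ P + 1 / a r k ≤ f + 1 := by
      rw [h4, ← add_div, div_le_iff₀ ha]; exact b2'
    have h7 : (8 / (r : ℝ) ^ n r k) * (r:ℝ) ^ P < 1 / a r k := by
      rw [div_mul_eq_mul_div, div_lt_div_iff₀ (by positivity) ha, one_mul]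
      have h8 : (a r k : ℝ) ≤ (r : ℝ) ^ L r k := by exact_mod_cast a_le k
      have h9 : (r:ℝ) ^ (P + L r k + 4) ≤ (r : ℝ) ^ n r k :=
        pow_le_pow_right₀ (by linarith [r_two hr]) h
      have h10 : (2 : ℝ) ^ 4 ≤ (r : ℝ) ^ 4 := pow_le_pow_left₀ (by norm_num) (r_two hr) 4
      rw [pow_add, pow_add] at h9
      have : (0:ℝ) < (r : ℝ) ^ L r k := by positivity
      have h11 : (r : ℝ) ^ P * (r : ℝ) ^ L r k * 2 ^ 4 ≤ (r : ℝ) ^ P * (r : ℝ) ^ L r k * (r : ℝ) ^ 4 := by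
        gcongr
      have h12 : (r : ℝ) ^ P * a r k ≤ (r : ℝ) ^ P * (r : ℝ) ^ L r k := by gcongr
      have h13 : 0 < (r : ℝ) ^ P * (r : ℝ) ^ L r k := by positivity
      nlinarith
    have := mul_le_mul_of_nonneg_right h2 hp.le
    push_cast
    linarith

end Pool.Agent.H55.Recip
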