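import Pool.Agent.H55.Recip2

set_option autoImplicit false

namespace Pool.Agent.H55.Recip

open Filter Topology

variable {r : ℕ}

lemma sum_cmp (u v : ℕ → ℝ) (l m : ℕ) (hu : ∀ i, u i ≤ 1) (hv : ∀ i, 0 ≤ v i)
    (h : ∀ i, i < l → i + m ≤ l → u i ≤ v i) :
    ∑ i ∈ Finset.range l, u i ≤ ∑ i ∈ Finset.range l, v i + m := by
  have h1 : ∀ i ∈ Finset.range l, u i ≤ v i + (if l - m ≤ i then (1 : ℝ) else 0) := by
    intro i hil
    split_ifs with hi
    · linarith [hu i, hv i]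
    · rw [add_zero]; exact h i (Finset.mem_range.1 hil) (by omega)
  refine (Finset.sum_le_sum h1).trans ?_
  rw [Finset.sum_add_distrib, Finset.sum_boole]
  have : ((Finset.range l).filter (fun i => l - m ≤ i)).card ≤ m := by
    have : (Finset.range l).filter (fun i => l - m ≤ i) = Finset.Ico (l - m) l := by
      ext i; simp only [Finset.mem_filter, Finset.mem_range, Finset.mem_Ico]; omega
    rw [this, Nat.card_Ico]; omega
  have : (((Finset.range l).filter (fun i => l - m ≤ i)).card : ℝ) ≤ m := by exact_mod_cast this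
  linarith

noncomputable def evX (r κ : ℕ) (v : ℤ) (P : ℕ) : ℝ :=
  if ⌊(y r)⁻¹ * (r : ℝ) ^ (P + κ)⌋ % ((r ^ κ : ℕ) : ℤ) = v then 1 else 0

lemma pow_split (hr : 2 ≤ r) (k : ℕ) : r ^ n r k = 1 + (r ^ n r k - 1) ∧ 0 < r ^ n r k - 1 := by
  have := pow_ge hr (show 2 ≤ n r k by have := n_five hr k; omega)
  omega

lemma block_le (hr : 2 ≤ r) (κ m N j l : ℕ) (v : ℤ) (hκ : κ ≤ m) (hN : 2 * N < n r (m + 2))
    (hl : l ≤ n r (m + 1)) (hjl : n r (m + 1) * j + l ≤ N) :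
    ∑ i ∈ Finset.range l, evX r κ v (n r (m + 1) * j + i) ≤ l / (r ^ κ : ℕ) +
      (n r (m + 1) * ((1 + Nat.gcd (j + 1) (a r m)) / a r m) +
        (n r m * a r m + (κ + L r (m + 1) + 2 : ℕ))) := by
  have hR : 0 < r ^ κ := Nat.pow_pos (by omega)
  have h1 := stretch hR (a_pos hr m) (pow_split hr m).2 (by have := n_five hr m; omega)
    (pow_split hr m).1 (a_dvd hr m) (a_good hr m).2 v (r ^ L r (m + 1) * (j + 1)) l
  rw [Nat.Coprime.gcd_mul_left_cancel (j + 1) ((a_good hr m).2.pow_left _)] at h1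
  have h2 := sum_cmp (fun i => evX r κ v (n r (m + 1) * j + i))
    (fun i => ev (r ^ κ) (a r m * (r ^ n r m - 1)) v (r ^ i * (r ^ L r (m + 1) * (j + 1)))) l
    (κ + L r (m + 1) + 2) (fun i => by unfold evX; split_ifs <;> simp)
    (fun i => (ev_mem _ _ _ _).1) (fun i hi1 hi2 => by
      apply le_of_eq
      have h3 := n_ge hr (m + 2)
      have h4 : 2 * (2 * L r (m + 2) + (m + 2) + 5) ≤ n r (m + 2) := by
        refine le_trans ?_ h3
        exact Nat.mul_le_mul (by omega) (by omega)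
      unfold evX ev
      rw [floor_eq hr (m + 2) _ (by omega), ← Int.natCast_mod, a_succ r (m + 1), L_succ r (m + 1),
        blockB hr (a_pos hr (m + 1)) (pow_split hr (m + 1)).1 (a_dvd hr (m + 1)) (by omega),
        a_succ r m])
  have h5 : (l : ℝ) * ((1 + Nat.gcd (j + 1) (a r m)) / a r m) ≤
      n r (m + 1) * ((1 + Nat.gcd (j + 1) (a r m)) / a r m) := by
    have : (l : ℝ) ≤ n r (m + 1) := by exact_mod_cast hl
    gcongr
  linarith

lemma upper (hr : 2 ≤ r) (κ : ℕ) {ε : ℝ} (hε : 0 < ε) : ∃ N0 : ℕ, ∀ N, N0 ≤ N → ∀ v : ℤ,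
    ∑ P ∈ Finset.range N, evX r κ v P ≤ N * (1 / (r : ℝ) ^ κ + ε) := by
  obtain ⟨K0, hK0⟩ := exists_nat_one_div_lt (show 0 < ε / 12 by positivity)
  set K := K0 + 1 with hK
  have hKpos : 0 < K := by omega
  have hK' : (0 : ℝ) < K := by exact_mod_cast hKpos
  have hKε : 12 / (K : ℝ) ≤ ε := by
    have : (K : ℝ) = K0 + 1 := by rw [hK]; push_cast; ring
    rw [this, div_le_iff₀ (by positivity)]
    rw [div_lt_iff₀ (by positivity)] at hK0
    linarith
  refine ⟨n r (K * K + κ + 1), fun N hN v => ?_⟩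
  obtain ⟨k, hk1, hk2, hk3⟩ := find_level hr (K * K + κ + 1) (2 * N) (by omega)
  obtain ⟨m, rfl⟩ : ∃ m, k = m + 1 := ⟨k - 1, by omega⟩
  set nn' := n r (m + 1) with hnn
  have hn0 : 0 < nn' := by have := n_five hr (m + 1); omega
  set J := N / nn' with hJ
  have hNJ : N = nn' * J + N % nn' := (Nat.div_add_mod _ _).symm
  set E : ℝ := n r m * a r m + (κ + L r (m + 1) + 2 : ℕ) with hE
  let b : ℕ → ℝ := fun j => nn' * ((1 + Nat.gcd (j + 1) (a r m)) / a r m) + E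
  have h1 : ∑ P ∈ Finset.range N, evX r κ v P ≤ N / (r ^ κ : ℕ) + ∑ j ∈ Finset.range (J + 1), b j := by
    conv_lhs => rw [hNJ]
    rw [Finset.sum_range_add, sum_range_mul', Finset.sum_range_succ]
    have a1 : ∑ j ∈ Finset.range J, ∑ i ∈ Finset.range nn', evX r κ v (nn' * j + i) ≤
        ∑ j ∈ Finset.range J, ((nn' : ℝ) / (r ^ κ : ℕ) + b j) := by
      apply Finset.sum_le_sum
      intro j hj
      have hj' := Finset.mem_range.1 hj
      refine block_le hr κ m N j nn' v (by omega) hk3 le_rfl ?_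
      have : nn' * (j + 1) ≤ nn' * J := Nat.mul_le_mul_left _ hj'
      rw [mul_add, mul_one] at this
      rw [← hnn]; omega
    have a2 := block_le hr κ m N J (N % nn') v (by omega) hk3 (Nat.mod_lt _ hn0).le (by
      rw [← hnn]; omega)
    rw [Finset.sum_add_distrib, Finset.sum_const, Finset.card_range, nsmul_eq_mul] at a1
    have a3 : (N : ℝ) = nn' * J + (N % nn' : ℕ) := by exact_mod_cast hNJ
    have a4 : (N : ℝ) / (r ^ κ : ℕ) = J * ((nn' : ℝ) / (r ^ κ : ℕ)) + (N % nn' : ℕ) / (r ^ κ : ℕ) := by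
      rw [a3]; ring
    simp only [b] at a1 ⊢
    linarith
  have hD : (0 : ℝ) < a r m := by exact_mod_cast a_pos hr m
  have hDK : (K : ℝ) * K ≤ a r m := by
    have := a_ge hr m
    exact_mod_cast (by omega : K * K ≤ a r m)
  have hK1 : (1 : ℝ) ≤ K := by exact_mod_cast hKpos
  have hτ : (K : ℝ) * (a r m).divisors.card ≤ a r m + K * K := by
    exact_mod_cast card_div_le (a_pos hr m) hKpos
  have hg : ∑ j ∈ Finset.range (J + 1), (Nat.gcd (j + 1) (a r m) : ℝ) ≤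
      (J + 1) * (a r m).divisors.card := by exact_mod_cast sum_gcd_le (a_pos hr m) (J + 1)
  have hEn : E * K ≤ nn' := by
    have c1 := n_ge hr (m + 1)
    have c2 : n r m * a r m ≤ L r (m + 1) * a r (m + 1) := by
      refine Nat.mul_le_mul (by rw [L_succ]; omega) (Nat.le_of_dvd (a_pos hr _) ?_)
      rw [a_succ]; exact Dvd.intro _ rfl
    have c3 : (n r m * a r m + (κ + L r (m + 1) + 2)) * K ≤ n r (m + 1) := by
      refine le_trans ?_ c1
      rw [mul_comm]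
      exact Nat.mul_le_mul (by have := Nat.le_mul_self K; omega) (by omega)
    rw [hE]; exact_mod_cast c3
  have h2 : ∑ j ∈ Finset.range (J + 1), b j ≤ (J + 1) * nn' * (4 / K) := by
    simp only [b]
    rw [Finset.sum_add_distrib, ← Finset.mul_sum, ← Finset.sum_div, Finset.sum_add_distrib]
    simp only [Finset.sum_const, Finset.card_range, nsmul_eq_mul, mul_one]
    push_cast
    have c1 : (1 + ((a r m).divisors.card : ℝ)) / a r m ≤ 3 / K := by
      rw [div_le_div_iff₀ hD hK']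
      have : (K : ℝ) * 1 ≤ K * K := mul_le_mul_of_nonneg_left hK1 hK'.le
      linarith
    have c2 : E ≤ nn' * (1 / K) := by rw [mul_one_div, le_div_iff₀ hK']; exact hEn
    have c3 : ((J : ℝ) + 1 + ∑ j ∈ Finset.range (J + 1), (Nat.gcd (j + 1) (a r m) : ℝ)) / a r m ≤
        (J + 1) * (3 / K) := by
      calc _ ≤ ((J + 1) * (1 + ((a r m).divisors.card : ℝ))) / a r m := by gcongr; linarith
        _ = (J + 1) * ((1 + ((a r m).divisors.card : ℝ)) / a r m) := mul_div_assoc _ _ _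
        _ ≤ _ := by gcongr
    have c4 : (nn' : ℝ) * (((J : ℝ) + 1 + ∑ j ∈ Finset.range (J + 1),
        (Nat.gcd (j + 1) (a r m) : ℝ)) / a r m) ≤ nn' * ((J + 1) * (3 / K)) :=
      mul_le_mul_of_nonneg_left c3 (Nat.cast_nonneg _)
    have c5 : ((J : ℝ) + 1) * E ≤ (J + 1) * (nn' * (1 / K)) :=
      mul_le_mul_of_nonneg_left c2 (by positivity)
    have c6 : ∀ u w z : ℝ, u * w * (4 / z) = w * (u * (3 / z)) + u * (w * (1 / z)) := by
      intro u w z; ring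
    rw [c6]
    exact add_le_add c4 c5
  have h3 : ((J : ℝ) + 1) * nn' ≤ 3 * N := by
    have : (J + 1) * nn' ≤ 3 * N := by rw [add_mul, one_mul, mul_comm J]; omega
    exact_mod_cast this
  have h4 : ((J : ℝ) + 1) * nn' * (4 / K) ≤ 3 * N * (4 / K) :=
    mul_le_mul_of_nonneg_right h3 (by positivity)
  have h5 : (3 : ℝ) * N * (4 / K) = N * (12 / K) := by ring
  have h6 : (N : ℝ) * (12 / K) ≤ N * ε := mul_le_mul_of_nonneg_left hKε (Nat.cast_nonneg _)
  have h7 : (N : ℝ) / (r ^ κ : ℕ) = N * (1 / (r : ℝ) ^ κ) := by push_cast; ring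
  rw [mul_add]
  linarith

lemma same_word (hr : 2 ≤ r) (z z' : ℝ) (κ : ℕ)
    (h : ∀ i < κ, ⌊z * (r : ℝ) ^ (i + 1)⌋ % (r : ℤ) = ⌊z' * (r : ℝ) ^ (i + 1)⌋ % (r : ℤ)) :
    ⌊z * (r : ℝ) ^ κ⌋ ≡ ⌊z' * (r : ℝ) ^ κ⌋ [ZMOD ((r ^ κ : ℕ) : ℤ)] := by
  have hr0 := r_pos hr
  have key : ∀ (u : ℝ) (i : ℕ), ⌊u * (r : ℝ) ^ (i + 1)⌋ =
      r * ⌊u * (r : ℝ) ^ i⌋ + ⌊u * (r : ℝ) ^ (i + 1)⌋ % (r : ℤ) := by
    intro u i
    have : ⌊u * (r : ℝ) ^ i⌋ = ⌊u * (r : ℝ) ^ (i + 1)⌋ / r := by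
      rw [← Int.floor_div_natCast]; congr 1; rw [pow_succ]; field_simp
    rw [this, Int.mul_ediv_add_emod]
  induction κ with
  | zero => simp [Int.modEq_one]
  | succ κ ih =>
    have h1 := ih fun i hi => h i (by omega)
    rw [key z κ, key z' κ, h κ (by omega)]
    apply Int.ModEq.add_right
    have h2 := h1.mul_left' (c := (r : ℤ))
    convert h2 using 1
    push_cast; ring

lemma cnt_le (hr : 2 ≤ r) (κ N : ℕ) (w : Fin κ → Fin r) :
    ∃ v : ℤ, (cnt r (y r)⁻¹ N κ w : ℝ) ≤ ∑ P ∈ Finset.range N, evX r κ v P := by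
  classical
  unfold cnt evX
  rcases ((Finset.range N).filter (fun i : ℕ => ∀ j : Fin κ,
    ⌊(y r)⁻¹ * (r : ℝ) ^ (i + (j : ℕ) + 1)⌋ % (r : ℤ) = ((w j : ℕ) : ℤ))).eq_empty_or_nonempty with h | h
  · refine ⟨0, ?_⟩
    rw [h, Finset.sum_boole]; simp
  · obtain ⟨i0, hi0⟩ := h
    refine ⟨⌊(y r)⁻¹ * (r : ℝ) ^ (i0 + κ)⌋ % ((r ^ κ : ℕ) : ℤ), ?_⟩
    rw [Finset.sum_boole]
    apply Nat.cast_le.2
    apply Finset.card_le_card
    intro i hi
    rw [Finset.mem_filter] at hi hi0 ⊢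
    refine ⟨hi.1, ?_⟩
    have := same_word hr ((y r)⁻¹ * (r : ℝ) ^ i) ((y r)⁻¹ * (r : ℝ) ^ i0) κ (fun j hj => by
      have a1 := hi.2 ⟨j, hj⟩
      have a2 := hi0.2 ⟨j, hj⟩
      rw [mul_assoc, mul_assoc, ← pow_add, ← pow_add, ← add_assoc, ← add_assoc, a1, a2])
    rw [mul_assoc, mul_assoc, ← pow_add, ← pow_add] at this
    exact this

lemma sum_cnt (hr : 2 ≤ r) (z : ℝ) (N κ : ℕ) : ∑ w : Fin κ → Fin r, cnt r z N κ w = N := by
  classical
  have hr' : (0 : ℤ) < r := by exact_mod_cast (by omega : 0 < r)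
  let f : ℕ → Fin κ → Fin r := fun i j =>
    ⟨(⌊z * (r : ℝ) ^ (i + (j : ℕ) + 1)⌋ % (r : ℤ)).toNat, by
      have := Int.emod_lt_of_pos ⌊z * (r : ℝ) ^ (i + (j : ℕ) + 1)⌋ hr'
      have := Int.emod_nonneg ⌊z * (r : ℝ) ^ (i + (j : ℕ) + 1)⌋ hr'.ne'
      omega⟩
  have := Finset.card_eq_sum_card_fiberwise (f := f) (s := Finset.range N) (t := Finset.univ)
    (fun j _ => Finset.mem_coe.2 (Finset.mem_univ _))
  rw [Finset.card_range] at this
  conv_rhs => rw [this]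
  refine Finset.sum_congr rfl fun w _ => ?_
  unfold cnt
  congr 1
  ext i
  simp only [Finset.mem_filter, funext_iff, Fin.ext_iff, f]
  refine and_congr_right fun _ => forall_congr' fun j => ?_
  have := Int.emod_nonneg ⌊z * (r : ℝ) ^ (i + (j : ℕ) + 1)⌋ hr'.ne'
  omega

theorem normal (hr : 2 ≤ r) (κ : ℕ) (w : Fin κ → Fin r) :
    Tendsto (fun N : ℕ => (cnt r (y r)⁻¹ N κ w : ℝ) / N) atTop (𝓝 (1 / (r : ℝ) ^ κ)) := by
  classical
  have hr0 := r_pos hr
  have hR : (0 : ℝ) < (r : ℝ) ^ κ := by positivity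
  rw [Metric.tendsto_atTop]
  intro ε hε
  obtain ⟨N0, hN0⟩ := upper hr κ (show 0 < ε / (2 * (r : ℝ) ^ κ) by positivity)
  refine ⟨N0 + 1, fun N hN => ?_⟩
  have hN' : (0 : ℝ) < N := by exact_mod_cast (by omega : 0 < N)
  set δ := ε / (2 * (r : ℝ) ^ κ) with hδ
  have hδ0 : 0 < δ := by positivity
  have hup : ∀ w' : Fin κ → Fin r, (cnt r (y r)⁻¹ N κ w' : ℝ) ≤ N * (1 / (r : ℝ) ^ κ + δ) := by
    intro w'
    obtain ⟨v, hv⟩ := cnt_le hr κ N w'
    exact hv.trans (hN0 N (by omega) v)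
  have hs : ∑ w' : Fin κ → Fin r, (cnt r (y r)⁻¹ N κ w' : ℝ) = N := by
    exact_mod_cast sum_cnt hr _ N κ
  have h1 : N * (1 / (r : ℝ) ^ κ + δ) - (cnt r (y r)⁻¹ N κ w : ℝ) ≤
      ∑ w' : Fin κ → Fin r, (N * (1 / (r : ℝ) ^ κ + δ) - (cnt r (y r)⁻¹ N κ w' : ℝ)) :=
    Finset.single_le_sum (f := fun w' => N * (1 / (r : ℝ) ^ κ + δ) - (cnt r (y r)⁻¹ N κ w' : ℝ))
      (fun w' _ => sub_nonneg.2 (hup w')) (Finset.mem_univ w)
  rw [Finset.sum_sub_distrib, hs, Finset.sum_const, Finset.card_univ, nsmul_eq_mul] at h1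
  simp only [Fintype.card_pi, Fintype.card_fin, Finset.prod_const, Finset.card_univ] at h1
  push_cast at h1
  have e1 : (r : ℝ) ^ κ * (N * (1 / (r : ℝ) ^ κ + δ)) - N = N * (ε / 2) := by
    rw [hδ]; field_simp; ring
  rw [e1] at h1
  have hR1 : (1 : ℝ) ≤ (r : ℝ) ^ κ := one_le_pow₀ (by linarith [r_two hr])
  have hδε : δ ≤ ε / 2 := by
    rw [hδ, div_le_div_iff₀ (by positivity) (by norm_num)]; nlinarith
  have h2 := hup w
  rw [Real.dist_eq, abs_lt]
  constructor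
  · rw [lt_sub_iff_add_lt, lt_div_iff₀ hN']; nlinarith
  · rw [sub_lt_iff_lt_add, div_lt_iff₀ hN']; nlinarith

end Pool.Agent.H55.Recip
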