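import Pool.Agent.H55.HN4
import Pool.Agent.H55.HNDefs
import Pool.Agent.H2.NsC

set_option autoImplicit false
set_option maxHeartbeats 800000

namespace Pool.Agent.H55.Sat

open Complex MeasureTheory Filter Topology Set Metric
open scoped ENNReal ComplexConjugate NNReal Real
open Pool.Agent.H55.HN Pool.Agent.H55.HNDefs Pool.Agent.H2.NsA

noncomputable abbrev mu : Measure ℝ := volume.restrict (Ioc 0 (2 * π))

noncomputable abbrev zt (t : ℝ) : ℂ := circleMap 0 1 t

lemma zt_norm (t : ℝ) : ‖zt t‖ = 1 := by simp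

lemma zt_cont : Continuous zt := continuous_circleMap 0 1

lemma mu_univ : mu.real univ = 2 * π := by
  simp [mu, Measure.real, Real.pi_pos.le]

lemma cint {F : ℝ → ℂ} (h : Continuous F) : Integrable F mu :=
  h.continuousOn.integrableOn_Icc.mono_set Ioc_subset_Icc_self

lemma orth (k m : ℕ) : ∫ t, zt t ^ k * conj (zt t) ^ m ∂mu = if k = m then 2 * π else 0 := by
  have e : ∀ t : ℝ, zt t ^ k * conj (zt t) ^ m = cexp ((((k : ℤ) - m : ℤ) : ℂ) * I * t) := by
    intro t
    simp only [zt, circleMap_zero, ofReal_one, one_mul, ← exp_conj, ← Complex.exp_nat_mul,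
      ← Complex.exp_add, map_mul, conj_ofReal, conj_I]
    refine congrArg _ ?_
    push_cast; ring
  simp only [e]
  rw [mu, ← intervalIntegral.integral_of_le (by positivity)]
  split_ifs with h
  · simp [h]
  · have hc : (((k : ℤ) - m : ℤ) : ℂ) * I ≠ 0 :=
      mul_ne_zero (Int.cast_ne_zero.2 (by omega)) I_ne_zero
    rw [integral_exp_mul_complex hc]
    have := exp_int_mul_two_pi_mul_I ((k : ℤ) - m)
    rw [show (((k : ℤ) - m : ℤ) : ℂ) * I * ((2 * π : ℝ) : ℂ) =
      (((k : ℤ) - m : ℤ) : ℂ) * (2 * π * I) by push_cast; ring, this]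
    simp

lemma parseval (a : ℕ → ℂ) (ha : Summable fun k => ‖a k‖) :
    ∫ t, ‖∑' k, a k * zt t ^ k‖ ^ 2 ∂mu = 2 * π * ∑' k, ‖a k‖ ^ 2 := by
  set F : ℝ → ℂ := fun t => ∑' k, a k * zt t ^ k with hF
  have hn : ∀ k t, ‖a k * zt t ^ k‖ = ‖a k‖ := fun k t => by simp
  have hFc : Continuous F := continuous_tsum (fun k => continuous_const.mul (zt_cont.pow k)) ha
    fun k t => (hn k t).le
  have hFb : ∀ t, ‖F t‖ ≤ ∑' k, ‖a k‖ := fun t =>
    tsum_of_norm_bounded ha.hasSum fun k => (hn k t).le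
  have h1 : ∀ m, ∫ t, F t * conj (zt t) ^ m ∂mu = 2 * π * a m := by
    intro m
    have := hasSum_integral_of_summable_integral_norm (μ := mu)
      (F := fun k t => a k * (zt t ^ k * conj (zt t) ^ m))
      (fun k => cint (continuous_const.mul ((zt_cont.pow k).mul
        ((continuous_conj.comp zt_cont).pow m))))
      (by simpa using ha.mul_left (max (2 * π) 0))
    simp only [integral_const_mul, orth] at this
    simp only [← mul_assoc, tsum_mul_right] at this
    refine this.unique ?_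
    have h := hasSum_single (f := fun k => a k * ((if k = m then 2 * π else 0 : ℝ) : ℂ)) m
      (fun k hk => by simp [hk])
    simpa [mul_comm] using h
  have h2 := hasSum_integral_of_summable_integral_norm (μ := mu)
      (F := fun m t => conj (a m) * (F t * conj (zt t) ^ m))
      (fun k => cint (continuous_const.mul (hFc.mul ((continuous_conj.comp zt_cont).pow k))))
      (by simpa [integral_const_mul] using ha.mul_right (∫ t, ‖F t‖ ∂mu))
  have e : ∀ t, ∑' m, conj (a m) * (F t * conj (zt t) ^ m) = ((‖F t‖ ^ 2 : ℝ) : ℂ) := by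
    intro t
    have : conj (F t) = ∑' m, conj (a m) * conj (zt t) ^ m := by
      simp only [hF]
      rw [conj_tsum]; simp
    push_cast
    rw [← mul_conj', this, ← tsum_mul_left]
    exact tsum_congr fun m => by ring
  simp only [e, integral_const_mul, h1, integral_complex_ofReal] at h2
  have h3 : ∀ m, conj (a m) * (2 * π * a m) = ((2 * π * ‖a m‖ ^ 2 : ℝ) : ℂ) := fun m => by
    push_cast; rw [← conj_mul']; ring
  simp only [h3] at h2
  rw [← tsum_mul_left]
  exact (hasSum_ofReal.1 h2).tsum_eq.symm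

lemma sum_geo (f : H) {r : ℝ} (h0 : 0 ≤ r) (h1 : r < 1) : Summable fun k => ‖f k‖ * r ^ k :=
  Summable.of_nonneg_of_le (fun k => by positivity)
    (fun k => mul_le_mul_of_nonneg_right (lp.norm_apply_le_norm (by norm_num) f k) (by positivity))
    ((summable_geometric_of_lt_one h0 h1).mul_left ‖f‖)

lemma pars (f : H) {r : ℝ} (h0 : 0 ≤ r) (h1 : r < 1) :
    ∫ t, ‖val f (zt t * r)‖ ^ 2 ∂mu = 2 * π * ∑' k, ‖f k‖ ^ 2 * (r ^ 2) ^ k := by
  have := parseval (fun k => f k * r ^ k) (by simpa [abs_of_nonneg h0] using sum_geo f h0 h1)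
  simp only [norm_mul, norm_pow, norm_real, Real.norm_of_nonneg h0, mul_pow, ← pow_mul,
    mul_comm _ 2] at this
  simp only [← pow_mul]
  rw [← this]
  refine integral_congr_ae (Eventually.of_forall fun t => ?_)
  simp only [val, mul_pow]
  refine congrArg (fun x => ‖x‖ ^ 2) (tsum_congr fun k => by ring)

lemma val_inj {f g : H} (h : ∀ z ∈ ball (0 : ℂ) 1, val f z = val g z) : f = g := by
  have hev : ∀ g : H, ∀ z ∈ P, ev g z = e0 z * val g (bl z) := by
    intro g z hz
    rw [ev, lp.inner_eq_tsum, val, ← tsum_mul_left]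
    refine tsum_congr fun n => ?_
    rw [K_apply hz]
    simp; ring
  exact ev_inj fun z hz => by rw [hev _ z hz, hev _ z hz, h _ (by simpa using bl_lt hz)]

lemma val_split (f : H) {z : ℂ} (hz : ‖z‖ < 1) : val f z = f 0 + z * val (R f) z := by
  have h := Summable.tsum_eq_zero_add (f := fun k : ℕ => f k * z ^ k)
    (Summable.of_norm (by simpa using sum_geo f (norm_nonneg z) hz))
  rw [val, h, val, ← tsum_mul_left]
  simp only [pow_zero, mul_one, R_apply]
  exact congrArg _ (tsum_congr fun k => by ring)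

lemma val_S (f : H) {z : ℂ} (hz : ‖z‖ < 1) : val (S f) z = z * val f z := by
  rw [val_split _ hz]; simp

lemma val_E {z : ℂ} (hz : ‖z‖ < 1) : val E z = 1 := by
  rw [val_split _ hz, R_E, E_zero]; simp [val]

lemma val_smul (c : ℂ) (f : H) (z : ℂ) : val (c • f) z = c * val f z := by
  simp [val, ← tsum_mul_left, mul_assoc]

lemma val_SE (n : ℕ) {z : ℂ} (hz : ‖z‖ < 1) : val (S^[n] E) z = z ^ n := by
  induction n with
  | zero => simpa using val_E hz
  | succ n ih => rw [Function.iterate_succ_apply', val_S _ hz, ih, pow_succ']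

lemma norm_sq (f : H) : HasSum (fun k => ‖f k‖ ^ 2) (‖f‖ ^ 2) := by
  simpa using lp.hasSum_norm (p := 2) (by norm_num) f

lemma rpow_lim (i : ℕ) : Tendsto (fun n : ℕ => (n : ℝ) * (1 - rr 1 n ^ i)) atTop (𝓝 i) := by
  have h := (l3 one_pos).mul (tendsto_finsetSum (Finset.range i) fun k _ => (l2 1).pow k)
  simp only [one_pow, Finset.sum_const, Finset.card_range, nsmul_eq_mul, mul_one, one_mul] at h
  refine h.congr fun n => ?_
  rw [mul_assoc, mul_neg_geom_sum]

lemma rp_pos (i n : ℕ) : 0 < rr 1 n ^ i := pow_pos (rr_pos one_pos n) i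

lemma rp_lt {i : ℕ} (hi : 0 < i) (n : ℕ) : rr 1 n ^ i < 1 :=
  pow_lt_one₀ (rr_pos one_pos n).le (rr_lt one_pos n) hi.ne'

lemma rp_norm (i n : ℕ) : ‖((rr 1 n ^ i : ℝ) : ℂ)‖ = rr 1 n ^ i := by
  rw [norm_real, Real.norm_of_nonneg (rp_pos i n).le]

lemma rp_tend {i : ℕ} (hi : 0 < i) : Tendsto (fun n => rr 1 n ^ i) atTop (𝓝[<] 1) :=
  tendsto_nhdsWithin_iff.mpr ⟨by simpa using (l2 1).pow i, Eventually.of_forall (rp_lt hi)⟩

lemma lemB (ψ : ℂ → ℂ) (hψ : DifferentiableOn ℂ ψ (ball 0 1)) (hm : ∀ z, ‖z‖ < 1 → ‖ψ z‖ < 1) :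
    ∃ y : ℝ, (∀ i j : ℕ, 0 < i → Tendsto (fun n => (‖ψ (rr 1 n ^ i : ℝ)‖ ^ (n + j)) ^ 2) atTop
      (𝓝 (y ^ i))) ∧ (y = 0 ∨ ∃ (η : ℂ) (d : ℝ), ‖η‖ = 1 ∧ 0 < d ∧ y = Real.exp (-(2 * d)) ∧
        ∀ K, Tendsto (fun z => (1 - conj η * ψ z) / (1 - z)) (LL K) (𝓝 (d : ℂ))) := by
  by_cases h : ∃ C : ℝ, ∃ᶠ r : ℝ in 𝓝[<] 1, 1 - ‖ψ r‖ < C * (1 - r)
  · obtain ⟨C, h⟩ := h
    obtain ⟨η, h1, h2⟩ := julia ψ hψ hm C h
    have h3 : ∀ z, ‖conj η * ψ z‖ = ‖ψ z‖ := fun z => by rw [norm_mul, norm_conj, h1, one_mul]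
    obtain ⟨d, hd, h4⟩ := jc (fun z => conj η * ψ z) (hψ.const_mul _)
      (fun z hz => by rw [h3]; exact hm z hz) (2 * C) (fun z hz => by rw [h3]; exact h2 z hz)
    refine ⟨_, fun i j hi => ?_, Or.inr ⟨η, d, h1, hd, rfl, h4⟩⟩
    have hL : Tendsto (fun n => ((rr 1 n ^ i : ℝ) : ℂ)) atTop (LL 1) := by
      refine tendsto_nhdsWithin_iff.mpr ⟨?_, Eventually.of_forall fun n => ⟨?_, ?_⟩⟩
      · exact (continuous_ofReal.tendsto 1).comp ((rp_tend hi).mono_right nhdsWithin_le_nhds)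
      · rw [rp_norm]; exact rp_lt hi n
      · rw [rp_norm, ← ofReal_one, ← ofReal_sub, norm_real,
          Real.norm_of_nonneg (by linarith [rp_lt hi n])]
        simp
    have hne : ∀ n, 1 - ((rr 1 n ^ i : ℝ) : ℂ) ≠ 0 := fun n =>
      ne2 (by rw [rp_norm]; exact rp_lt hi n)
    have h5 := (h4 1).comp hL
    have h6 := ((continuous_ofReal.tendsto _).comp (rpow_lim i)).mul h5
    have h7 : Tendsto (fun n : ℕ => (n : ℂ) * (conj η * ψ (rr 1 n ^ i : ℝ) - 1)) atTop
        (𝓝 (-(((i : ℝ) : ℂ) * d))) := by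
      refine h6.neg.congr fun n => ?_
      have := hne n
      simp only [Function.comp, ofReal_mul, ofReal_sub, ofReal_one, ofReal_natCast]
      field_simp
      ring
    have h8 : Tendsto (fun n : ℕ => conj η * ψ (rr 1 n ^ i : ℝ)) atTop (𝓝 1) := by
      have := (h5.mul (((continuous_ofReal.tendsto _).comp
        ((rp_tend hi).mono_right nhdsWithin_le_nhds)).const_sub 1)).const_sub 1
      simp only [ofReal_one, sub_self, mul_zero, sub_zero] at this
      refine this.congr fun n => ?_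
      have := hne n
      simp only [Function.comp]
      field_simp
      ring
    have h9 := (((Complex.tendsto_one_add_pow_exp_of_tendsto h7).mul (h8.pow j)).norm).pow 2
    have h10 : ‖cexp (-(((i : ℝ) : ℂ) * d)) * 1 ^ j‖ ^ 2 = Real.exp (-(2 * d)) ^ i := by
      rw [one_pow, mul_one, Complex.norm_exp, ← Real.exp_nat_mul, ← Real.exp_nat_mul]
      simp; ring
    rw [h10] at h9
    refine h9.congr fun n => ?_
    rw [add_sub_cancel, ← pow_add, norm_pow, h3]
  · push Not at h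
    refine ⟨0, fun i j hi => ?_, Or.inl rfl⟩
    have h1 : Tendsto (fun n : ℕ => ‖ψ (rr 1 n ^ i : ℝ)‖ ^ (n + j)) atTop (𝓝 0) := by
      rw [Metric.tendsto_nhds]
      intro ε hε
      have hs : (0 : ℝ) < i := by positivity
      obtain ⟨C, hC⟩ := ((Real.tendsto_exp_neg_atTop_nhds_zero.comp
        (tendsto_id.atTop_mul_const hs)).eventually_lt_const hε).exists
      have h3 : Tendsto (fun n : ℕ => (n : ℝ) * (-(C * (1 - rr 1 n ^ i)))) atTop
          (𝓝 (-(C * i))) := ((rpow_lim i).const_mul C).neg.congr fun n => by ring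
      have h4 := (Real.tendsto_one_add_pow_exp_of_tendsto h3).eventually_lt_const hC
      filter_upwards [h4, (rp_tend hi).eventually (h C)] with n h5 h6
      have h7 := hm (rr 1 n ^ i : ℝ) (by rw [rp_norm]; exact rp_lt hi n)
      rw [dist_zero_right, Real.norm_of_nonneg (by positivity)]
      refine lt_of_le_of_lt ?_ h5
      refine (pow_le_pow_of_le_one (norm_nonneg _) h7.le (Nat.le_add_right n j)).trans ?_
      exact pow_le_pow_left₀ (norm_nonneg _) (by linarith) n
    simpa [hi.ne'] using h1.pow 2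

end Pool.Agent.H55.Sat
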