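import Pool.Agent.H55.Sat1

set_option autoImplicit false
set_option maxHeartbeats 800000

namespace Pool.Agent.H55.Sat

open Complex MeasureTheory Filter Topology Set Metric
open scoped ENNReal ComplexConjugate NNReal Real
open Pool.Agent.H55.HN Pool.Agent.H55.HNDefs Pool.Agent.H2.NsA

noncomputable def xx (n k : ℕ) : ℝ := (rr 1 n ^ 2) ^ k

lemma xx_mem (n k : ℕ) : xx n k ∈ Icc (0 : ℝ) 1 :=
  ⟨pow_nonneg (rp_pos 2 n).le k, pow_le_one₀ (rp_pos 2 n).le (rp_lt two_pos n).le⟩

lemma sg (f : H) (n : ℕ) {g : ℝ → ℝ} (hg : Continuous g) :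
    Summable fun k => ‖f k‖ ^ 2 * g (xx n k) := by
  obtain ⟨B, hB⟩ := isCompact_Icc.exists_bound_of_continuousOn (s := Icc (0 : ℝ) 1) hg.continuousOn
  refine Summable.of_norm_bounded ((norm_sq f).summable.mul_right B) fun k => ?_
  rw [norm_mul, Real.norm_of_nonneg (sq_nonneg _)]
  exact mul_le_mul_of_nonneg_left (hB _ (xx_mem n k)) (sq_nonneg _)

noncomputable def ee (φb : ℝ → ℂ) (t : ℝ) : ℝ := if ‖φb t‖ = 1 then 1 else 0

theorem key (φ : ℂ → ℂ) (hφ : DifferentiableOn ℂ φ (ball 0 1)) (hm : ∀ z, ‖z‖ < 1 → ‖φ z‖ < 1)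
    (φb : ℝ → ℂ) (hb : ∀ᵐ t ∂mu, Tendsto (fun r : ℝ => φ (zt t * r)) (𝓝[<] 1) (𝓝 (φb t)))
    (y : ℝ → ℝ) (hy : ∀ t, ∀ i j : ℕ, 0 < i →
      Tendsto (fun n => (‖φ (zt t * (rr 1 n ^ i : ℝ))‖ ^ (n + j)) ^ 2) atTop (𝓝 (y t ^ i)))
    (j : ℕ) (c : ℕ → H) (hc : ∀ n, ∀ z, ‖z‖ < 1 → val (c n) z = φ z ^ (n + j))
    (g : ℝ → ℝ) (hg : Continuous g) :
    Integrable (fun t => ee φb t * g (y t)) mu ∧
    Tendsto (fun n => 2 * π * ∑' k, ‖c n k‖ ^ 2 * g (xx n k)) atTop
      (𝓝 (∫ t, ee φb t * g (y t) ∂mu)) := by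
  have hz : ∀ t (i n : ℕ), 0 < i → ‖zt t * (rr 1 n ^ i : ℝ)‖ < 1 := fun t i n hi => by
    rw [norm_mul, zt_norm, one_mul, rp_norm]; exact rp_lt hi n
  have hcont : ∀ i n : ℕ, 0 < i → Continuous fun t => φ (zt t * (rr 1 n ^ i : ℝ)) :=
    fun i n hi => hφ.continuousOn.comp_continuous (zt_cont.mul continuous_const)
      fun t => by simpa only [mem_ball_zero_iff] using hz t i n hi
  have hle : ∀ t (i n m : ℕ), 0 < i → ‖(‖φ (zt t * (rr 1 n ^ i : ℝ))‖ ^ m) ^ 2‖ ≤ 1 := by
    intro t i n m hi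
    rw [Real.norm_of_nonneg (by positivity)]
    exact pow_le_one₀ (by positivity) (pow_le_one₀ (norm_nonneg _) (hm _ (hz t i n hi)).le)
  have hpar : ∀ i m n : ℕ, 0 < i → ∫ t, (‖φ (zt t * (rr 1 m ^ i : ℝ))‖ ^ (n + j)) ^ 2 ∂mu =
      2 * π * ∑' k, ‖c n k‖ ^ 2 * xx m k ^ i := by
    intro i m n hi
    have := pars (c n) (rp_pos i m).le (rp_lt hi m)
    simp only [hc n _ (hz _ i m hi), norm_pow] at this
    rw [this]
    refine congrArg _ (tsum_congr fun k => ?_)
    simp only [xx, ← pow_mul]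
    refine congrArg _ (congrArg _ ?_)
    ring
  have hb1 : ∀ᵐ t ∂mu, Tendsto (fun m => φ (zt t * (rr 1 m ^ 1 : ℝ))) atTop (𝓝 (φb t)) := by
    filter_upwards [hb] with t ht using ht.comp (rp_tend one_pos)
  have hbm : AEStronglyMeasurable φb mu := aestronglyMeasurable_of_tendsto_ae atTop
    (fun m => (hcont 1 m one_pos).aestronglyMeasurable) hb1
  have hb2 : ∀ᵐ t ∂mu, ‖φb t‖ ≤ 1 := by
    filter_upwards [hb1] with t ht
    exact le_of_tendsto' ht.norm fun m => (hm _ (hz t 1 m one_pos)).le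
  have hM : ∀ n, 2 * π * ∑' k, ‖c n k‖ ^ 2 = ∫ t, (‖φb t‖ ^ (n + j)) ^ 2 ∂mu := by
    intro n
    have h1 := tendsto_integral_of_dominated_convergence (μ := mu)
      (F := fun m t => (‖φ (zt t * (rr 1 m ^ 1 : ℝ))‖ ^ (n + j)) ^ 2)
      (f := fun t => (‖φb t‖ ^ (n + j)) ^ 2) (fun _ => 1)
      (fun m => (((hcont 1 m one_pos).norm.pow _).pow 2).aestronglyMeasurable) (integrable_const _)
      (fun m => Eventually.of_forall fun t => hle t 1 m _ one_pos)
      (hb1.mono fun t ht => (ht.norm.pow _).pow 2)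
    simp only [hpar 1 _ n one_pos] at h1
    have h2 := tendsto_tsum_of_dominated_convergence (𝓕 := atTop)
      (f := fun m k => ‖c n k‖ ^ 2 * xx m k ^ 1) (g := fun k => ‖c n k‖ ^ 2)
      (norm_sq (c n)).summable (fun k => by
        simpa [xx] using (((l2 1).pow 2).pow k).const_mul (‖c n k‖ ^ 2))
      (Eventually.of_forall fun m k => by
        rw [pow_one, Real.norm_of_nonneg (mul_nonneg (sq_nonneg _) (xx_mem m k).1)]
        exact mul_le_of_le_one_right (sq_nonneg _) (xx_mem m k).2)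
    exact tendsto_nhds_unique (h2.const_mul _) h1
  have hbl : ∀ n, ∀ᵐ t ∂mu, ‖(‖φb t‖ ^ (n + j)) ^ 2‖ ≤ 1 := fun n => hb2.mono fun t ht => by
    rw [Real.norm_of_nonneg (by positivity)]
    exact pow_le_one₀ (by positivity) (pow_le_one₀ (norm_nonneg _) ht)
  have hM1 : ∀ n, 2 * π * ∑' k, ‖c n k‖ ^ 2 ≤ 2 * π := by
    intro n
    have := norm_integral_le_of_norm_le_const (hbl n)
    rw [mu_univ, one_mul] at this
    rw [hM]
    exact (le_abs_self _).trans this
  have hel : ∀ᵐ t ∂mu, Tendsto (fun n => (‖φb t‖ ^ (n + j)) ^ 2) atTop (𝓝 (ee φb t)) := by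
    filter_upwards [hb2] with t ht
    by_cases h : ‖φb t‖ = 1
    · simp [ee, h]
    · simpa [ee, h] using ((tendsto_pow_atTop_nhds_zero_of_lt_one (norm_nonneg _)
        (lt_of_le_of_ne ht h)).comp (tendsto_add_atTop_nat j)).pow 2
  have hem : AEStronglyMeasurable (ee φb) mu := aestronglyMeasurable_of_tendsto_ae atTop
    (fun n => (hbm.norm.pow _).pow 2) hel
  have hym : AEStronglyMeasurable y mu := aestronglyMeasurable_of_tendsto_ae atTop
    (fun n => (((hcont 1 n one_pos).norm.pow (n + 0)).pow 2).aestronglyMeasurable)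
    (Eventually.of_forall fun t => by
      have := hy t 1 0 one_pos
      rw [pow_one (y t)] at this
      exact this)
  have hy01 : ∀ t, y t ∈ Icc (0 : ℝ) 1 := fun t => by
    have := hy t 1 0 one_pos
    rw [pow_one (y t)] at this
    exact ⟨ge_of_tendsto' this fun n => by positivity,
      le_of_tendsto' this fun n => (le_abs_self _).trans (hle t 1 n _ one_pos)⟩
  have he01 : ∀ t, ‖ee φb t‖ ≤ 1 := fun t => by unfold ee; split_ifs <;> simp
  have hey : ∀ᵐ t ∂mu, ee φb t = 1 ∨ y t = 0 := by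
    filter_upwards [hb1, hb2] with t ht h2
    by_cases h : ‖φb t‖ = 1
    · simp [ee, h]
    · right
      obtain ⟨q, h3, h4⟩ := exists_between (lt_of_le_of_ne h2 h)
      have h5 := hy t 1 0 one_pos
      rw [pow_one (y t)] at h5
      have h6 := (tendsto_pow_atTop_nhds_zero_of_lt_one ((norm_nonneg _).trans h3.le) h4).pow 2
      refine le_antisymm ?_ (hy01 t).1
      have := le_of_tendsto_of_tendsto h5 h6 (by
        filter_upwards [ht.norm.eventually_lt_const h3] with n hn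
        rw [add_zero]
        gcongr)
      simpa using this
  have ig : ∀ g : ℝ → ℝ, Continuous g → Integrable (fun t => ee φb t * g (y t)) mu := by
    intro g hg
    obtain ⟨B, hB⟩ := isCompact_Icc.exists_bound_of_continuousOn (s := Icc (0 : ℝ) 1)
      hg.continuousOn
    refine Integrable.of_bound (hem.mul (hg.comp_aestronglyMeasurable hym)) B
      (Eventually.of_forall fun t => ?_)
    rw [norm_mul]
    exact (mul_le_of_le_one_left (norm_nonneg _) (he01 t)).trans (hB _ (hy01 t))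
  have hpoly : ∀ p : Polynomial ℝ, Tendsto (fun n => 2 * π * ∑' k, ‖c n k‖ ^ 2 * p.eval (xx n k))
      atTop (𝓝 (∫ t, ee φb t * p.eval (y t) ∂mu)) := by
    intro p
    induction p using Polynomial.induction_on' with
    | add p q hp hq =>
      simp only [Polynomial.eval_add, mul_add]
      rw [integral_add (ig _ p.continuous) (ig _ q.continuous)]
      refine (hp.add hq).congr fun n => ?_
      rw [(sg (c n) n p.continuous).tsum_add (sg (c n) n q.continuous), mul_add]
    | monomial i a =>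
      have h1 : Tendsto (fun n => 2 * π * ∑' k, ‖c n k‖ ^ 2 * xx n k ^ i) atTop
          (𝓝 (∫ t, ee φb t * y t ^ i ∂mu)) := by
        rcases Nat.eq_zero_or_pos i with rfl | hi
        · simp only [pow_zero, mul_one, hM]
          exact tendsto_integral_of_dominated_convergence (fun _ => 1)
            (fun n => (hbm.norm.pow _).pow 2) (integrable_const _) hbl hel
        · have h2 := tendsto_integral_of_dominated_convergence (μ := mu)
            (F := fun n t => (‖φ (zt t * (rr 1 n ^ i : ℝ))‖ ^ (n + j)) ^ 2)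
            (f := fun t => y t ^ i) (fun _ => 1)
            (fun m => (((hcont i m hi).norm.pow _).pow 2).aestronglyMeasurable)
            (integrable_const _) (fun m => Eventually.of_forall fun t => hle t i m _ hi)
            (Eventually.of_forall fun t => hy t i j hi)
          simp only [hpar i _ _ hi] at h2
          rw [integral_congr_ae (g := fun t => y t ^ i)]
          · exact h2
          · filter_upwards [hey] with t ht
            rcases ht with h | h <;> simp [h, hi.ne']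
      simp only [Polynomial.eval_monomial, mul_left_comm _ a, tsum_mul_left, integral_const_mul]
      exact h1.const_mul a
  refine ⟨ig g hg, Metric.tendsto_nhds.2 fun ε hε => ?_⟩
  obtain ⟨p, hp⟩ := exists_polynomial_near_of_continuousOn 0 1 g hg.continuousOn (ε / 30)
    (by positivity)
  filter_upwards [Metric.tendsto_nhds.1 (hpoly p) (ε / 3) (by positivity)] with n hn
  have e1 : ‖(∫ t, ee φb t * p.eval (y t) ∂mu) - ∫ t, ee φb t * g (y t) ∂mu‖ ≤
      ε / 30 * (2 * π) := by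
    rw [← integral_sub (ig _ p.continuous) (ig g hg), ← mu_univ]
    refine norm_integral_le_of_norm_le_const (Eventually.of_forall fun t => ?_)
    rw [← mul_sub, norm_mul]
    exact (mul_le_of_le_one_left (norm_nonneg _) (he01 t)).trans (hp _ (hy01 t)).le
  have e2 : ‖(∑' k, ‖c n k‖ ^ 2 * p.eval (xx n k)) - ∑' k, ‖c n k‖ ^ 2 * g (xx n k)‖ ≤
      (∑' k, ‖c n k‖ ^ 2) * (ε / 30) := by
    rw [← (sg (c n) n p.continuous).tsum_sub (sg (c n) n hg)]
    refine tsum_of_norm_bounded ((norm_sq (c n)).summable.hasSum.mul_right _) fun k => ?_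
    rw [← mul_sub, norm_mul, Real.norm_of_nonneg (sq_nonneg _)]
    exact mul_le_mul_of_nonneg_left (hp _ (xx_mem n k)).le (sq_nonneg _)
  rw [Real.dist_eq, abs_lt] at hn ⊢
  rw [Real.norm_eq_abs, abs_le] at e1 e2
  have := hM1 n
  have h3 := Real.pi_pos
  have h4 := Real.pi_lt_four
  have h5 : (∑' k, ‖c n k‖ ^ 2) ≤ 1 := by nlinarith
  have h6 : (∑' k, ‖c n k‖ ^ 2) * (ε / 30) ≤ ε / 30 := mul_le_of_le_one_left (by positivity) h5
  constructor <;> nlinarith

lemma tail (f : H) (m : ℕ) : ‖R^[m] f‖ ^ 2 = ∑' k, ‖f (k + m)‖ ^ 2 := by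
  rw [← (norm_sq _).tsum_eq]
  simp only [R_iter]

lemma xx_lim (K : ℕ) : Tendsto (fun n => xx n (n + K)) atTop (𝓝 (Real.exp (-2))) := by
  have h := ((l4 1 K).inv₀ (Real.exp_pos 1).ne').pow 2
  have e : (Real.exp 1)⁻¹ ^ 2 = Real.exp (-2) := by
    rw [← Real.exp_neg, ← Real.exp_nat_mul]; norm_num
  rw [e] at h
  refine h.congr fun n => ?_
  simp only [xx, inv_pow, inv_inv, ← pow_mul, mul_comm]

lemma xx_anti (n : ℕ) {k m : ℕ} (h : k ≤ m) : xx n m ≤ xx n k :=
  pow_le_pow_of_le_one (rp_pos 2 n).le (rp_lt two_pos n).le h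

end Pool.Agent.H55.Sat
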