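import Pool.Agent.H55.HNDefs

set_option autoImplicit false

namespace Pool.Agent.H55.HNDefs

/-- `φ` has the angular derivative `d` at the boundary point `ω`. -/
def AngDer (φ : ℂ → ℂ) (ω d : ℂ) : Prop :=
  ∃ η : ℂ, ‖η‖ = 1 ∧ ∀ K : ℝ, Filter.Tendsto (fun z => (η - φ z) / (ω - z))
    (nhdsWithin ω {z : ℂ | ‖z‖ < 1 ∧ ‖ω - z‖ ≤ K * (1 - ‖z‖)}) (nhds d)

/-- `M^{*n} T M^n` converges in the strong operator topology. -/
def IsSAT {E : Type} [NormedAddCommGroup E] [InnerProductSpace ℂ E] [CompleteSpace E]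
    (M T : E →L[ℂ] E) : Prop :=
  ∃ A : E →L[ℂ] E, ∀ f : E, Filter.Tendsto
    (fun n : ℕ => (ContinuousLinearMap.adjoint M ^ n * T * M ^ n) f) Filter.atTop (nhds (A f))

/-- `C_φ` is strongly asymptotically Toeplitz: for `M = M_z` and `T = C_φ`. -/
def CompSAT (φ : ℂ → ℂ) : Prop :=
  ∃ M T : H2 →L[ℂ] H2, IsWCO M (fun z => z) (fun z => z) ∧ IsWCO T (fun _ => 1) φ ∧ IsSAT M T

/-- `φb t` is the radial limit of `φ` at `e^{it}`. -/
def RadLim (φ : ℂ → ℂ) (t : ℝ) (l : ℂ) : Prop :=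
  Filter.Tendsto (fun r : ℝ => φ (r * Complex.exp (t * Complex.I))) (nhdsWithin 1 (Set.Iio 1))
    (nhds l)

end Pool.Agent.H55.HNDefs
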