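import Pool.Agent.H55.Sat2
import Pool.Agent.H55.SatDefs

set_option autoImplicit false
set_option maxHeartbeats 800000

namespace Pool.Agent.H55.Sat

open Complex MeasureTheory Filter Topology Set Metric
open scoped ENNReal ComplexConjugate NNReal Real
open Pool.Agent.H55.HN Pool.Agent.H55.HNDefs Pool.Agent.H2.NsA

lemma ee01 (φb : ℝ → ℂ) (t : ℝ) : 0 ≤ ee φb t ∧ ee φb t ≤ 1 := by
  unfold ee; split_ifs <;> simp

lemma lemA (e y : ℝ → ℝ) (c : ℕ → H) (he : ∀ t, 0 ≤ e t ∧ e t ≤ 1)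
    (hk : ∀ g : ℝ → ℝ, Continuous g → Integrable (fun t => e t * g (y t)) mu ∧
      Tendsto (fun n => 2 * π * ∑' k, ‖c n k‖ ^ 2 * g (xx n k)) atTop
        (𝓝 (∫ t, e t * g (y t) ∂mu)))
    (h : ∀ᵐ t ∂mu, e t = 0 ∨ Real.exp (-2) < y t) :
    Tendsto (fun n => R^[n] (c n)) atTop (𝓝 0) := by
  let g : ℕ → ℝ → ℝ := fun m x => max 0 (min 1 (2 - (m + 1) * (x - Real.exp (-2))))
  have gc : ∀ m, Continuous (g m) := fun m => by fun_prop
  have g0 : ∀ m x, 0 ≤ g m x := fun m x => le_max_left _ _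
  have g1 : ∀ m x, g m x ≤ 1 := fun m x => max_le zero_le_one (min_le_left _ _)
  have hI : Tendsto (fun m => ∫ t, e t * g m (y t) ∂mu) atTop (𝓝 (∫ _, (0 : ℝ) ∂mu)) := by
    refine tendsto_integral_of_dominated_convergence (fun _ => 1)
      (fun m => (hk _ (gc m)).1.aestronglyMeasurable) (integrable_const _)
      (fun m => Eventually.of_forall fun t => ?_) ?_
    · rw [Real.norm_of_nonneg (mul_nonneg (he t).1 (g0 _ _))]
      exact mul_le_one₀ (he t).2 (g0 _ _) (g1 _ _)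
    · filter_upwards [h] with t ht
      rcases ht with ht | ht
      · simp [ht]
      · refine tendsto_const_nhds.congr' ?_
        have h1 := (tendsto_natCast_atTop_atTop (R := ℝ)).atTop_mul_const (sub_pos.2 ht)
        filter_upwards [h1.eventually_ge_atTop 2] with m hm
        have : g m (y t) = 0 := max_eq_left (min_le_of_right_le (by nlinarith))
        rw [this, mul_zero]
  rw [integral_zero] at hI
  rw [tendsto_zero_iff_norm_tendsto_zero, Metric.tendsto_nhds]
  intro ε hε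
  obtain ⟨m, hm⟩ := (hI.eventually_lt_const (pow_pos hε 2)).exists
  have h2 : Real.exp (-2) < Real.exp (-2) + 1 / (m + 1) := lt_add_of_pos_right _ (by positivity)
  filter_upwards [(hk _ (gc m)).2.eventually_lt_const hm,
    (xx_lim 0).eventually_lt_const h2] with n h3 h4
  rw [dist_zero_right, norm_norm]
  refine lt_of_pow_lt_pow_left₀ 2 hε.le ?_
  have h5 := (sg (c n) n (gc m)).sum_add_tsum_nat_add n
  have h6 : 0 ≤ ∑ k ∈ Finset.range n, ‖c n k‖ ^ 2 * g m (xx n k) :=
    Finset.sum_nonneg fun k _ => mul_nonneg (sq_nonneg _) (g0 _ _)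
  have h7 : ∀ k, g m (xx n (k + n)) = 1 := fun k => by
    have h8 := xx_anti n (show n + 0 ≤ k + n by omega)
    have h9 : (m + 1 : ℝ) * (xx n (k + n) - Real.exp (-2)) ≤ 1 := by
      rw [← le_div_iff₀' (by positivity)]; linarith
    exact le_antisymm (g1 _ _) (le_max_of_le_right (le_min le_rfl (by linarith)))
  simp only [h7, mul_one] at h5
  rw [← tail] at h5
  nlinarith [Real.pi_gt_three, sq_nonneg ‖R^[n] (c n)‖]

lemma lemB' (e y : ℝ → ℝ) (c : ℕ → H) (he : ∀ t, 0 ≤ e t ∧ e t ≤ 1) (hR : Continuous R)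
    (hk : ∀ g : ℝ → ℝ, Continuous g → Integrable (fun t => e t * g (y t)) mu ∧
      Tendsto (fun n => 2 * π * ∑' k, ‖c n k‖ ^ 2 * g (xx n k)) atTop
        (𝓝 (∫ t, e t * g (y t) ∂mu)))
    (v : H) (h : Tendsto (fun n => R^[n] (c n)) atTop (𝓝 v)) :
    ∀ᵐ t ∂mu, e t = 0 ∨ Real.exp (-2) ≤ y t := by
  have h0 : ∀ a < Real.exp (-2), ∀ᵐ t ∂mu, e t = 0 ∨ a ≤ y t := by
    intro a ha
    let g : ℝ → ℝ := fun x => max 0 (a - x)
    have gc : Continuous g := by fun_prop
    have g0 : ∀ x, 0 ≤ g x := fun x => le_max_left _ _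
    have ha1 : a ≤ 1 := ha.le.trans (Real.exp_le_one_iff.2 (by norm_num))
    have h1 : ∀ K, ∫ t, e t * g (y t) ∂mu ≤ 2 * π * ∑' k, ‖v (k + K)‖ ^ 2 := by
      intro K
      rw [← tail]
      refine le_of_tendsto_of_tendsto (hk g gc).2
        (((((hR.iterate K).tendsto v).comp h).norm.pow 2).const_mul (2 * π)) ?_
      filter_upwards [(xx_lim K).eventually_const_lt ha] with n hn
      refine mul_le_mul_of_nonneg_left ?_ (by positivity)
      rw [Function.comp, ← Function.iterate_add_apply, tail,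
        ← (sg (c n) n gc).sum_add_tsum_nat_add (K + n), Finset.sum_eq_zero, zero_add]
      · refine ((summable_nat_add_iff _).2 (sg (c n) n gc)).tsum_le_tsum (fun k => ?_)
          ((summable_nat_add_iff (f := fun k => ‖c n k‖ ^ 2) _).2 (norm_sq _).summable)
        exact mul_le_of_le_one_right (sq_nonneg _)
          (max_le zero_le_one (by linarith [(xx_mem n (k + (K + n))).1]))
      · intro k hk
        have := xx_anti n (show k ≤ n + K by have := Finset.mem_range.1 hk; omega)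
        have : g (xx n k) = 0 := max_eq_left (by linarith)
        rw [this, mul_zero]
    have h2 := ge_of_tendsto' ((tendsto_sum_nat_add fun k => ‖v k‖ ^ 2).const_mul (2 * π)) h1
    have h3 : 0 ≤ fun t => e t * g (y t) := fun t => mul_nonneg (he t).1 (g0 _)
    rw [mul_zero] at h2
    filter_upwards [(integral_eq_zero_iff_of_nonneg h3 (hk g gc).1).1
      (le_antisymm h2 (integral_nonneg h3))] with t ht
    refine (mul_eq_zero.1 ht).imp id fun h4 => ?_
    have := le_max_right 0 (a - y t)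
    have h5 : max 0 (a - y t) = 0 := h4
    linarith
  have h1 := ae_all_iff.2 fun m : ℕ => h0 (Real.exp (-2) - 1 / (m + 1))
    (sub_lt_self _ (by positivity))
  filter_upwards [h1] with t ht
  by_cases h2 : e t = 0
  · exact Or.inl h2
  · right
    have := tendsto_one_div_add_atTop_nhds_zero_nat (𝕜 := ℝ)
    simpa using le_of_tendsto' (this.const_sub (Real.exp (-2))) fun m => (ht m).resolve_left h2

lemma lemC1 (φ : ℂ → ℂ) (ζ d : ℂ) (hζ : ‖ζ‖ = 1) (hd : ‖d‖ < 1) (h : AngDer φ ζ d) (y : ℝ)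
    (hy : Tendsto (fun n => (‖φ (ζ * (rr 1 n ^ 1 : ℝ))‖ ^ (n + 0)) ^ 2) atTop (𝓝 (y ^ 1))) :
    Real.exp (-2) < y := by
  obtain ⟨η, hη, h⟩ := h
  obtain ⟨c, h1, h2⟩ := exists_between hd
  have hn : ∀ n, ‖ζ - ζ * (rr 1 n : ℝ)‖ = 1 - rr 1 n := fun n => by
    rw [← mul_one_sub, norm_mul, hζ, one_mul, ← ofReal_one, ← ofReal_sub, norm_real,
      Real.norm_of_nonneg (by linarith [rr_lt one_pos n])]
  have hn' : ∀ n, ‖ζ * (rr 1 n : ℝ)‖ = rr 1 n := fun n => by
    rw [norm_mul, hζ, one_mul, rr_norm one_pos]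
  have h3 : Tendsto (fun n => ζ * (rr 1 n : ℝ)) atTop
      (𝓝[{z : ℂ | ‖z‖ < 1 ∧ ‖ζ - z‖ ≤ 1 * (1 - ‖z‖)}] ζ) := by
    refine tendsto_nhdsWithin_iff.2 ⟨?_, Eventually.of_forall fun n => ⟨?_, ?_⟩⟩
    · simpa using ((continuous_ofReal.tendsto 1).comp (l2 1)).const_mul ζ
    · rw [hn']; exact rr_lt one_pos n
    · rw [hn, hn', one_mul]
  have h4 := (((h 1).comp h3).norm).eventually_lt_const h1
  have h5 : Tendsto (fun n : ℕ => (n : ℝ) * (-(c * (1 - rr 1 n)))) atTop (𝓝 (-(c * 1))) :=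
    ((l3 one_pos).const_mul c).neg.congr fun n => by ring
  have h6 := le_of_tendsto_of_tendsto ((Real.tendsto_one_add_pow_exp_of_tendsto h5).pow 2) hy (by
    filter_upwards [h4] with n h7
    have h8 := rr_lt one_pos n
    have h9 := rr_pos one_pos n
    rw [Function.comp, norm_div, hn, div_lt_iff₀ (by linarith)] at h7
    have h10 := norm_sub_norm_le η (φ (ζ * (rr 1 n : ℝ)))
    have hc := (norm_nonneg d).trans h1.le
    simp only [pow_one, add_zero]
    have h11 : 0 ≤ 1 + -(c * (1 - rr 1 n)) := by nlinarith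
    exact pow_le_pow_left₀ (pow_nonneg h11 _) (pow_le_pow_left₀ h11 (by linarith) _) 2)
  rw [pow_one, ← Real.exp_nat_mul] at h6
  refine lt_of_lt_of_le (Real.exp_lt_exp.2 ?_) h6
  push_cast
  linarith

lemma lemC2 (φ : ℂ → ℂ) (ζ η d : ℂ) (hζ : ‖ζ‖ = 1) (hη : ‖η‖ = 1)
    (h : ∀ K, Tendsto (fun z => (1 - conj η * φ (ζ * z)) / (1 - z)) (LL K) (𝓝 d)) :
    AngDer φ ζ (η / ζ * d) := by
  refine ⟨η, hη, fun K => ?_⟩
  have h0 : ζ ≠ 0 := by rintro rfl; simp at hζ
  have h1 : ∀ z, ‖z / ζ‖ = ‖z‖ := fun z => by rw [norm_div, hζ, div_one]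
  have h2 : Tendsto (fun z => z / ζ) (𝓝[{z : ℂ | ‖z‖ < 1 ∧ ‖ζ - z‖ ≤ K * (1 - ‖z‖)}] ζ)
      (LL K) := by
    refine tendsto_nhdsWithin_iff.2 ⟨?_, ?_⟩
    · have := (tendsto_id (x := 𝓝 ζ)).div_const ζ
      rw [div_self h0] at this
      exact this.mono_left nhdsWithin_le_nhds
    · filter_upwards [self_mem_nhdsWithin] with z hz
      refine ⟨by rw [h1]; exact hz.1, ?_⟩
      rw [h1, show 1 - z / ζ = (ζ - z) / ζ by field_simp, h1]
      exact hz.2
  have h3 : η * conj η = 1 := by rw [mul_conj', hη]; simp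
  refine (((h K).comp h2).const_mul (η / ζ)).congr fun z => ?_
  simp only [Function.comp]
  rw [mul_div_cancel₀ _ h0, show 1 - z / ζ = (ζ - z) / ζ by field_simp, div_div_eq_mul_div,
    show η - φ z = η * (1 - conj η * φ z) by linear_combination φ z * h3]
  field_simp

lemma lemC3 (φ : ℂ → ℂ) (hφ : DifferentiableOn ℂ φ (ball 0 1))
    (h : ∃ z, ‖z‖ < 1 ∧ z * deriv φ z - φ z ≠ 0) : ∀ᵐ t ∂mu, ∀ η : ℂ, ‖η‖ = 1 →
      ¬ ∀ K, Tendsto (fun z => (1 - conj η * φ (zt t * z)) / (1 - z)) (LL K) (𝓝 1) := by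
  have hζ1 : ∀ t w, ‖zt t * w‖ = ‖w‖ := fun t w => by rw [norm_mul, zt_norm, one_mul]
  filter_upwards [Pool.Agent.H2.NsB.priv (fun z => z * deriv φ z - φ z)
    ((differentiableOn_id.mul (hφ.deriv isOpen_ball)).sub hφ) h] with t ht η hη hx
  refine ht fun ε hε => ?_
  have hψ : DifferentiableOn ℂ (fun w => φ (zt t * w)) (ball 0 1) :=
    hφ.comp (by fun_prop) fun w hw => by simpa [hζ1] using hw
  obtain ⟨δ, hδ, h6⟩ := der _ (hψ.const_mul (conj η)) hx 32 (by norm_num) ε hε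
  refine ⟨δ, hδ, fun z e1 e2 e3 => ?_⟩
  have e4 : zt t ≠ 0 := circleMap_ne_center one_ne_zero
  obtain ⟨w, rfl⟩ : ∃ w, z = zt t * w := ⟨z / zt t, by field_simp⟩
  rw [← mul_one_sub] at e3
  simp only [hζ1] at e1 e2 e3
  have e5 := h6 w e1 e2 e3
  rw [deriv_const_mul_field, deriv_comp_mul_left, smul_eq_mul,
    show w * (conj η * (zt t * deriv φ (zt t * w))) - conj η * φ (zt t * w) =
    conj η * (zt t * w * deriv φ (zt t * w) - φ (zt t * w)) by ring, norm_mul, norm_conj, hη,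
    one_mul] at e5
  exact e5

lemma norm_R (f : H) : ‖R f‖ ≤ ‖f‖ :=
  le_of_sq_le_sq (by nlinarith [norm_split f, sq_nonneg ‖f 0‖]) (norm_nonneg _)

lemma norm_Rn (n : ℕ) (f : H) : ‖R^[n] f‖ ≤ ‖f‖ := by
  induction n with
  | zero => exact le_rfl
  | succ n ih => rw [Function.iterate_succ_apply']; exact (norm_R _).trans ih

lemma norm_Sn (n : ℕ) (f : H) : ‖S^[n] f‖ = ‖f‖ := by
  induction n with
  | zero => rfl
  | succ n ih => rw [Function.iterate_succ_apply', norm_S, ih]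

lemma single_eq (j : ℕ) (a : ℂ) : (lp.single 2 j a : H) = a • S^[j] E := by
  refine val_inj fun z hz => ?_
  rw [val_smul, val_SE j (by simpa using hz), val, tsum_eq_single j fun k hk => by
    simp [lp.single_apply, Pi.single_eq_of_ne hk]]
  simp

lemma dens (U : ℕ → H →L[ℂ] H) (C : ℝ) (hC : ∀ n f, ‖U n f‖ ≤ C * ‖f‖)
    (h : ∀ j, Tendsto (fun n => U n (S^[j] E)) atTop (𝓝 0)) (f : H) :
    Tendsto (fun n => U n f) atTop (𝓝 0) := by
  rw [Metric.tendsto_nhds]
  intro ε hε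
  have h1 := (((lp.hasSum_single (p := 2) (by norm_num) f).const_sub f).norm).const_mul C
  rw [sub_self, norm_zero, mul_zero] at h1
  obtain ⟨s, hs⟩ := (h1.eventually_lt_const (half_pos hε)).exists
  have h2 : Tendsto (fun n => U n (∑ j ∈ s, lp.single 2 j (f j))) atTop (𝓝 0) := by
    simp only [map_sum, single_eq, map_smul]
    simpa using tendsto_finsetSum s fun j _ => (h j).const_smul (f j)
  filter_upwards [Metric.tendsto_nhds.1 h2 _ (half_pos hε)] with n hn
  rw [dist_zero_right] at hn ⊢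
  have h3 := hC n (f - ∑ j ∈ s, lp.single 2 j (f j))
  rw [map_sub] at h3
  have h4 := norm_sub_norm_le (U n f) (U n (∑ j ∈ s, lp.single 2 j (f j)))
  linarith

theorem main (φ : ℂ → ℂ) (hφ : DifferentiableOn ℂ φ (ball 0 1))
    (hm' : MapsTo φ (ball 0 1) (ball 0 1)) (φb : ℝ → ℂ)
    (hb' : ∀ᵐ t ∂mu, RadLim φ t (φb t)) (M T : H →L[ℂ] H)
    (hM : IsWCO M (fun z => z) (fun z => z)) (hT : IsWCO T (fun _ => 1) φ) :
    IsSAT M T ↔ (∀ z ∈ ball (0 : ℂ) 1, φ z = z) ∨
      ∀ᵐ t : ℝ ∂mu, ‖φb t‖ < 1 ∨ ∃ d, ‖d‖ < 1 ∧ AngDer φ (cexp (t * I)) d := by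
  have hm : ∀ z, ‖z‖ < 1 → ‖φ z‖ < 1 := fun z hz => by simpa using hm' (by simpa using hz)
  have hz : ∀ t : ℝ, cexp (t * I) = zt t := fun t => by simp [zt, circleMap_zero]
  have hζ1 : ∀ t w, ‖zt t * w‖ = ‖w‖ := fun t w => by rw [norm_mul, zt_norm, one_mul]
  have hb : ∀ᵐ t ∂mu, Tendsto (fun r : ℝ => φ (zt t * r)) (𝓝[<] 1) (𝓝 (φb t)) :=
    hb'.mono fun t ht => by simpa only [RadLim, hz, mul_comm _ (zt t)] using ht
  have hMS : (M : H → H) = S := funext fun f => val_inj fun z hz => by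
    rw [hM f z hz, val_S f (by simpa using hz)]
  have hMR : (ContinuousLinearMap.adjoint M : H → H) = R := funext fun f =>
    ext_inner_left ℂ fun g => by rw [ContinuousLinearMap.adjoint_inner_right, hMS, inner_S]
  have hU : ∀ n f, (ContinuousLinearMap.adjoint M ^ n * T * M ^ n) f = R^[n] (T (S^[n] f)) := by
    intro n f
    rw [← hMS, ← hMR, ← FunLike.coe_pow_eq_iterate, ← FunLike.coe_pow_eq_iterate]
    rfl
  have hRS : ∀ n f, R^[n] (S^[n] f) = f := fun n => Function.LeftInverse.iterate R_S n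
  choose y hy hy' using fun t : ℝ => lemB (fun w => φ (zt t * w))
    (hφ.comp (by fun_prop) fun w hw => by simpa [hζ1] using hw)
    (fun z hz => hm _ (by rwa [hζ1]))
  have hc : ∀ n z, ‖z‖ < 1 → val (T (S^[n] E)) z = φ z ^ n := fun n z hz => by
    rw [hT _ z (by simpa using hz), one_mul, val_SE n (hm z hz)]
  have hk := fun j => key φ hφ hm φb hb y hy j (fun n => T (S^[n + j] E)) fun n => hc (n + j)
  have hb2 : ∀ᵐ t ∂mu, ‖φb t‖ ≤ 1 := by
    filter_upwards [hb] with t ht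
    refine le_of_tendsto' (ht.comp (rp_tend one_pos)).norm fun m => (hm _ ?_).le
    rw [hζ1, rp_norm]; exact rp_lt one_pos m
  simp only [hz, IsSAT]
  constructor
  · rintro ⟨A, hA⟩
    by_cases h : ∃ z, ‖z‖ < 1 ∧ z * deriv φ z - φ z ≠ 0
    · right
      filter_upwards [lemB' _ y _ (ee01 φb) (hMR ▸ (ContinuousLinearMap.adjoint M).continuous)
        (hk 0) (A E) (by simpa only [hU, add_zero] using hA E), hb2, lemC3 φ hφ h] with t h1 h2 h3
      refine h1.imp (fun h4 => lt_of_le_of_ne h2 fun h5 => by simp [ee, h5] at h4) fun h4 => ?_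
      obtain ⟨η, d, h5, h6, h7, h8⟩ := (hy' t).resolve_left
        (lt_of_lt_of_le (Real.exp_pos _) h4).ne'
      refine ⟨_, ?_, lemC2 φ _ η d (zt_norm t) h5 h8⟩
      rw [norm_mul, norm_div, h5, zt_norm, norm_real, Real.norm_of_nonneg h6.le]
      rw [h7, Real.exp_le_exp] at h4
      have h9 : d ≠ 1 := by
        rintro rfl
        exact h3 η h5 h8
      have := lt_of_le_of_ne (by linarith : d ≤ 1) h9
      linarith
    · push Not at h
      obtain ⟨c, hc'⟩ := Pool.Agent.H2.NsC.lin φ hφ h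
      by_cases h1 : ‖c‖ = 1
      · left
        have h2 : ∀ n, T (S^[n] E) = c ^ n • S^[n] E := fun n => val_inj fun z hz => by
          have hz' : ‖z‖ < 1 := by simpa using hz
          rw [hc n z hz', val_smul, val_SE n hz', hc' z hz', mul_pow]
        have h3 : Tendsto (fun n => c ^ n) atTop (𝓝 (inner ℂ E (A E))) := by
          refine ((tendsto_const_nhds (x := E)).inner (hA E)).congr fun n => ?_
          have := R_iter n (S^[n] E) 0
          rw [hRS, E_zero] at this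
          rw [inner_E', hU, h2, R_iter, lp.coeFn_smul, Pi.smul_apply, ← this, smul_eq_mul, mul_one]
        have h4 : ‖inner ℂ E (A E)‖ = 1 :=
          tendsto_nhds_unique h3.norm (by simp [h1])
        have h5 := tendsto_nhds_unique (h3.const_mul c)
          (((tendsto_add_atTop_iff_nat 1).2 h3).congr fun n => pow_succ' c n)
        have h6 : c = 1 := mul_right_cancel₀ (norm_pos_iff.1 (by rw [h4]; exact one_pos))
          (h5.trans (one_mul _).symm)
        intro z hz
        rw [hc' z (by simpa using hz), h6, one_mul]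
      · right
        filter_upwards [hb, hb2] with t ht h2
        left
        have h3 : Tendsto (fun m => φ (zt t * (rr 1 m : ℝ))) atTop (𝓝 (c * (zt t * (1 : ℝ)))) := by
          refine ((((continuous_ofReal.tendsto 1).comp (l2 1)).const_mul _).const_mul c).congr
            fun m => (hc' _ ?_).symm
          rw [hζ1]; exact (rr_norm one_pos m).trans_lt (rr_lt one_pos m)
        have h4 := tendsto_nhds_unique (ht.comp (rp_tend one_pos)) (by
          simpa only [pow_one, Function.comp_def] using h3)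
        refine lt_of_le_of_ne h2 ?_
        rw [h4, norm_mul, hζ1]
        simpa using h1
  · rintro (h | h)
    · refine ⟨1, fun f => ?_⟩
      have : ∀ g, T g = g := fun g => val_inj fun z hz => by rw [hT g z hz, one_mul, h z hz]
      simp only [hU, this, hRS]
      exact tendsto_const_nhds
    · refine ⟨0, dens _ ‖T‖ (fun n f => ?_) fun j => ?_⟩
      · rw [hU]
        exact (norm_Rn _ _).trans ((T.le_opNorm _).trans_eq (by rw [norm_Sn]))
      · simp only [hU, ← Function.iterate_add_apply]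
        refine lemA _ y _ (ee01 φb) (hk j) (h.mono fun t ht => ht.imp (fun h1 => ?_) ?_)
        · simp [ee, h1.ne]
        · rintro ⟨d, h1, h2⟩
          exact lemC1 φ _ d (zt_norm t) h1 h2 _ (hy t 1 0 one_pos)

end Pool.Agent.H55.Sat
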