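import Pool.Agent.H55.Sat3
import Pool.Agent.H55.Fatou

set_option autoImplicit false
set_option maxHeartbeats 800000

namespace Pool.Agent.H55.Sat

open Complex MeasureTheory Filter Topology Set Metric
open scoped ENNReal ComplexConjugate NNReal Real
open Pool.Agent.H55.HN Pool.Agent.H55.HNDefs Pool.Agent.H2.NsA

lemma hev (g : H) {z : ℂ} (hz : z ∈ P) : ev g z = e0 z * val g (bl z) := by
  rw [ev, lp.inner_eq_tsum, val, ← tsum_mul_left]
  refine tsum_congr fun n => ?_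
  rw [K_apply hz]
  simp; ring

lemma toD {u : H} {F : ℂ → ℂ} (h : ∀ z ∈ P, ev u z = e0 z * F (bl z)) :
    ∀ s ∈ ball (0 : ℂ) 1, val u s = F s := by
  intro s hs
  have hs' : ‖s‖ < 1 := by simpa using hs
  have h0 := ne2 hs'
  have hP : (1 + s) / (1 - s) ∈ P := by
    have h1 : normSq s < 1 := by
      rw [normSq_eq_norm_sq]
      nlinarith [norm_nonneg s]
    show 0 < ((1 + s) / (1 - s)).re
    rw [div_re, ← add_div]
    refine div_pos ?_ (normSq_pos.2 h0)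
    rw [normSq_apply] at h1
    simp
    nlinarith
  have hb : bl ((1 + s) / (1 - s)) = s := by
    rw [bl, div_eq_iff (add_one_ne hP)]
    field_simp
    ring
  have := h _ hP
  rw [hev _ hP, hb] at this
  exact mul_left_cancel₀ (e0_ne hP) this

lemma contr (A : H →L[ℂ] H) (h : ℂ → ℂ) (hC : ∀ z ∈ P, ‖h z‖ ≤ 1)
    (hA : ∀ g, ∀ z ∈ P, ev (A g) z = h z * ev g z) (g : H) : ‖A g‖ ≤ ‖g‖ := by
  have h1 : N (ev (A g)) ≤ N (ev g) := by
    rw [N_congr (hA g)]
    refine iSup₂_mono fun x hx => lintegral_mono fun y => ?_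
    have : ‖h (x + y * I) * ev g (x + y * I)‖₊ ≤ ‖ev g (x + y * I)‖₊ := by
      rw [nnnorm_mul]
      exact mul_le_of_le_one_left zero_le (hC _ (line_P hx y))
    gcongr
  rw [N_ev, N_ev, ENNReal.ofReal_le_ofReal_iff (by positivity)] at h1
  exact le_of_sq_le_sq (le_of_mul_le_mul_left h1 (by positivity)) (norm_nonneg _)

theorem little (φ : ℂ → ℂ) (hφ : DifferentiableOn ℂ φ (ball 0 1))
    (hm : ∀ z, ‖z‖ < 1 → ‖φ z‖ < 1) : ∃ T : H →L[ℂ] H, IsWCO T (fun _ => 1) φ := by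
  have hΦ : DifferentiableOn ℂ (fun z => φ (bl z)) P :=
    hφ.comp bl_diff fun z hz => by simpa using bl_lt hz
  have hΦ1 : ∀ z ∈ P, ‖φ (bl z)‖ < 1 := fun z hz => hm _ (bl_lt hz)
  obtain ⟨A, hA⟩ := exists_mul _ hΦ 1 fun z hz => (hΦ1 z hz).le
  set B := ContinuousLinearMap.adjoint A with hB
  have hB1 : ∀ g, ‖B g‖ ≤ ‖g‖ := fun g => by
    have : ‖A‖ ≤ 1 := A.opNorm_le_bound zero_le_one fun g => by
      rw [one_mul]; exact contr A _ (fun z hz => (hΦ1 z hz).le) hA g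
    refine (B.le_opNorm g).trans (mul_le_of_le_one_left (norm_nonneg _) ?_)
    rwa [hB, LinearIsometryEquiv.norm_map]
  have hBK : ∀ z ∈ P, B (K z) = conj (φ (bl z)) • K z := fun z hz => ext_inner_right ℂ fun g => by
    rw [hB, ContinuousLinearMap.adjoint_inner_left, inner_smul_left, conj_conj]
    exact hA g z hz
  set a := φ (bl 1) with ha
  have hBE : B E = conj a • E := ext_inner_right ℂ fun g => by
    rw [hB, ContinuousLinearMap.adjoint_inner_left, inner_smul_left, conj_conj, inner_E', inner_E']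
    have := hA g 1 one_P
    rw [ev_one, ev_one, mul_left_comm] at this
    exact mul_left_cancel₀ (e0_ne one_P) this
  have hE : ‖E‖ = 1 := by simp [E]
  let w : H →L[ℂ] ℂ := innerSL ℂ E - a • (innerSL ℂ E).comp B
  have hw : ∀ g, w g = inner ℂ E g - a * inner ℂ E (B g) := fun g => rfl
  have h1 : ∀ g, ‖w g‖ ^ 2 ≤ ‖g‖ ^ 2 - ‖B g‖ ^ 2 := fun g => by
    have h2 := pow_le_pow_left₀ (norm_nonneg _) (hB1 (w g • E - g)) 2
    rw [map_sub, map_smul, hBE, @norm_sub_sq ℂ, @norm_sub_sq ℂ, inner_smul_left, inner_smul_left,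
      inner_smul_left, conj_conj, norm_smul, norm_smul, norm_smul, hE] at h2
    have h3 : RCLike.re (conj (w g) * inner ℂ E g) - RCLike.re (conj (w g) * (a * inner ℂ E (B g)))
        = ‖w g‖ ^ 2 := by
      rw [← map_sub, ← mul_sub, ← hw, conj_mul']
      simp [← ofReal_pow]
    nlinarith [sq_nonneg (‖w g‖ * (‖conj a‖ * 1))]
  have h2 : ∀ g n, ∑ k ∈ Finset.range n, ‖w ((B ^ k) g)‖ ^ 2 ≤ ‖g‖ ^ 2 - ‖(B ^ n) g‖ ^ 2 := by
    intro g n
    induction n with
    | zero => simp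
    | succ n ih =>
      rw [Finset.sum_range_succ, pow_succ' B, ContinuousLinearMap.mul_apply]
      linarith [h1 ((B ^ n) g)]
  have h3 : ∀ g n, ∑ k ∈ Finset.range n, ‖w ((B ^ k) g)‖ ^ 2 ≤ ‖g‖ ^ 2 := fun g n => by
    linarith [h2 g n, sq_nonneg ‖(B ^ n) g‖]
  let V0 : H →ₗ[ℂ] H :=
    { toFun := fun g => ⟨fun k => w ((B ^ k) g), (mem_iff _).2
        (summable_of_sum_range_le (fun _ => sq_nonneg _) (h3 g))⟩
      map_add' := fun g h => by ext k; simp
      map_smul' := fun c g => by ext k; simp }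
  let V : H →L[ℂ] H := V0.mkContinuous 1 fun g => by
    rw [one_mul]
    refine le_of_sq_le_sq ?_ (norm_nonneg _)
    rw [← (norm_sq _).tsum_eq]
    exact Real.tsum_le_of_sum_range_le (fun _ => sq_nonneg _) (h3 g)
  have hV : ∀ g k, V g k = w ((B ^ k) g) := fun g k => rfl
  have hBn : ∀ z ∈ P, ∀ k, (B ^ k) (K z) = conj (φ (bl z)) ^ k • K z := fun z hz k => by
    induction k with
    | zero => simp
    | succ k ih =>
      rw [pow_succ' B, ContinuousLinearMap.mul_apply, ih, map_smul, hBK z hz, smul_smul, pow_succ]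
  have hne : ∀ z ∈ P, 1 - conj a * φ (bl z) ≠ 0 := fun z hz => ne1 (hΦ1 1 one_P) (hΦ1 z hz)
  obtain ⟨D, hD⟩ := exists_mul (fun z => (1 - conj a * φ (bl z))⁻¹)
    (((hΦ.const_mul _).const_sub 1).inv hne) (1 - ‖a‖)⁻¹ fun z hz => by
      have h4 := norm_sub_norm_le 1 (conj a * φ (bl z))
      rw [norm_one, norm_mul, norm_conj] at h4
      rw [norm_inv]
      exact inv_anti₀ (by linarith [hΦ1 1 one_P]) (by nlinarith [hΦ1 z hz, norm_nonneg a])
  refine ⟨D ∘L ContinuousLinearMap.adjoint V, fun f => toD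
    (F := fun s => 1 * val f (φ s)) fun z hz => ?_⟩
  rw [ContinuousLinearMap.comp_apply, hD _ z hz, ev, ContinuousLinearMap.adjoint_inner_right,
    lp.inner_eq_tsum, one_mul, val, ← tsum_mul_left, ← tsum_mul_left]
  refine tsum_congr fun k => ?_
  have := hne z hz
  rw [hV, hBn z hz, map_smul, hw, hBK z hz, inner_smul_right, inner_E', K_apply hz]
  simp
  field_simp

theorem full (φ : ℂ → ℂ) (hφ : DifferentiableOn ℂ φ (ball 0 1))
    (hm' : MapsTo φ (ball 0 1) (ball 0 1)) :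
    CompSAT φ ↔ (∀ z ∈ ball (0 : ℂ) 1, φ z = z) ∨ ∀ᵐ t : ℝ ∂mu,
      (∃ l, ‖l‖ < 1 ∧ RadLim φ t l) ∨ ∃ d, ‖d‖ < 1 ∧ AngDer φ (cexp (t * I)) d := by
  have hm : ∀ z, ‖z‖ < 1 → ‖φ z‖ < 1 := fun z hz => by simpa using hm' (by simpa using hz)
  obtain ⟨T, hT⟩ := little φ hφ hm
  obtain ⟨M, hM⟩ := exists_mul bl bl_diff 1 fun z hz => (bl_lt hz).le
  have hM' : IsWCO M (fun z => z) (fun z => z) := fun f => toD (F := fun s => s * val f s)
    fun z hz => by rw [hM f z hz, hev f hz, mul_left_comm]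
  let φb : ℝ → ℂ := fun t => limUnder (𝓝[<] 1) fun r : ℝ => φ (r * cexp (t * I))
  have hb : ∀ᵐ t ∂mu, RadLim φ t (φb t) :=
    ae_restrict_of_ae ((Fatou.fatou φ hφ fun z hz => (hm z hz).le).mono
      fun t ht => tendsto_nhds_limUnder ht)
  have h1 : CompSAT φ ↔ (∀ z ∈ ball (0 : ℂ) 1, φ z = z) ∨
      ∀ᵐ t : ℝ ∂mu, ‖φb t‖ < 1 ∨ ∃ d, ‖d‖ < 1 ∧ AngDer φ (cexp (t * I)) d :=
    ⟨fun ⟨M, T, h1, h2, h3⟩ => (main φ hφ hm' φb hb M T h1 h2).1 h3,
      fun h => ⟨M, T, hM', hT, (main φ hφ hm' φb hb M T hM' hT).2 h⟩⟩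
  rw [h1]
  refine or_congr_right (eventually_congr (hb.mono fun t ht => or_congr_left
    ⟨fun h => ⟨_, h, ht⟩, fun ⟨l, h2, h3⟩ => ?_⟩))
  rwa [tendsto_nhds_unique ht h3]

end Pool.Agent.H55.Sat
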