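import Pool.Agent.Lead.Sel.Spec

/-! Hoheisel assembly, part 1: scaled triangles, sieve sums, Dirichlet convolutions. -/

set_option autoImplicit false
open MeasureTheory Finset Pool.Agent.Lead.Sel

namespace Pool.Agent.H55.Hoh

noncomputable def tr (T y : ℝ) : ℝ := T * tri (T * y)

theorem tri_nonneg (y : ℝ) : 0 ≤ tri y := le_max_right _ _

theorem tri_le (y : ℝ) : tri y ≤ 1 := max_le (by linarith [abs_nonneg y]) zero_le_one

theorem tri_lip (x y : ℝ) : |tri x - tri y| ≤ |x - y| := by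
  refine (abs_max_sub_max_le_abs _ _ _).trans ?_
  rw [show 1 - |x| - (1 - |y|) = |y| - |x| by ring, abs_sub_comm x y]
  exact abs_abs_sub_abs_le_abs_sub _ _

theorem tri_zero {y : ℝ} (h : 1 ≤ |y|) : tri y = 0 := max_eq_right (by linarith)

theorem tri_cont : Continuous tri := by unfold tri; fun_prop

theorem tri_le_ind (y : ℝ) : tri y ≤ (Set.Icc (-1 : ℝ) 1).indicator (fun _ => (1 : ℝ)) y := by
  by_cases h : y ∈ Set.Icc (-1 : ℝ) 1
  · rw [Set.indicator_of_mem h]; exact tri_le y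
  · rw [Set.indicator_of_notMem h]
    refine (tri_zero ?_).le
    by_contra hc
    exact h (abs_le.1 (not_le.1 hc).le)

theorem ind_int : Integrable ((Set.Icc (-1 : ℝ) 1).indicator (fun _ => (1 : ℝ))) :=
  (integrableOn_const (by simp)).integrable_indicator measurableSet_Icc

theorem tri_int : Integrable tri :=
  ind_int.mono' tri_cont.aestronglyMeasurable (Filter.Eventually.of_forall fun y => by
    rw [Real.norm_of_nonneg (tri_nonneg y)]; exact tri_le_ind y)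

theorem tri_integral : ∫ y, tri y ≤ 2 := by
  refine (integral_mono tri_int ind_int tri_le_ind).trans ?_
  rw [integral_indicator measurableSet_Icc]
  simp; norm_num

theorem tri_integral_nonneg : 0 ≤ ∫ y, tri y := integral_nonneg tri_nonneg

theorem tr_nonneg {T : ℝ} (hT : 0 < T) (y : ℝ) : 0 ≤ tr T y := mul_nonneg hT.le (tri_nonneg _)

theorem tr_le {T : ℝ} (hT : 0 < T) (y : ℝ) : tr T y ≤ T :=
  mul_le_of_le_one_right hT.le (tri_le _)

theorem tr_lip {T : ℝ} (hT : 0 < T) (x y : ℝ) : |tr T x - tr T y| ≤ T ^ 2 * |x - y| := by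
  rw [tr, tr, ← mul_sub, abs_mul, abs_of_pos hT, sq, mul_assoc]
  refine mul_le_mul_of_nonneg_left ((tri_lip _ _).trans ?_) hT.le
  rw [← mul_sub, abs_mul, abs_of_pos hT]

theorem tr_zero {T y : ℝ} (hT : 0 < T) (h : 1 / T ≤ |y|) : tr T y = 0 := by
  rw [tr, tri_zero, mul_zero]
  rw [abs_mul, abs_of_pos hT, mul_comm]
  exact (div_le_iff₀ hT).1 h

theorem tr_int {T : ℝ} (hT : 0 < T) (w : ℝ) : Integrable fun y => tr T (y - w) :=
  ((tri_int.comp_mul_left' hT.ne').const_mul T).comp_sub_right w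

theorem tr_integral {T : ℝ} (hT : 0 < T) (w : ℝ) : ∫ y, tr T (y - w) = ∫ y, tri y := by
  rw [integral_sub_right_eq_self (tr T) w]
  unfold tr
  rw [integral_const_mul, Measure.integral_comp_mul_left, abs_of_pos (inv_pos.2 hT), smul_eq_mul,
    mul_inv_cancel_left₀ hT.ne']

theorem lip_cont {g : ℝ → ℝ} {L : ℝ} (h : ∀ x y, |g x - g y| ≤ L * |x - y|) : Continuous g :=
  (LipschitzWith.of_dist_le' (K := L) fun x y => by simpa [Real.dist_eq] using h x y).continuous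

theorem lip_mul {f g : ℝ → ℝ} {a b L M : ℝ} (hf : ∀ y, |f y| ≤ a) (hg : ∀ y, |g y| ≤ b)
    (h1 : ∀ x y, |f x - f y| ≤ L * |x - y|) (h2 : ∀ x y, |g x - g y| ≤ M * |x - y|) (x y : ℝ) :
    |f x * g x - f y * g y| ≤ (a * M + L * b) * |x - y| := by
  rw [show f x * g x - f y * g y = f x * (g x - g y) + (f x - f y) * g y by ring]
  refine (abs_add_le _ _).trans ?_
  rw [abs_mul, abs_mul]
  have a0 := (abs_nonneg _).trans (hf x)
  have e1 := mul_le_mul (hf x) (h2 x y) (abs_nonneg _) a0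
  have e2 := mul_le_mul (h1 x y) (hg y) (abs_nonneg _) ((abs_nonneg _).trans (h1 x y))
  nlinarith

/-- the sieve estimate at a fixed level -/
def RSz (C : ℝ) (z : ℕ) : Prop :=
  ∀ a : ℝ, 1 / 2 ≤ a → ∀ (h : ℝ → ℂ) (ψ : ℝ → ℝ) (H b : ℝ),
      (∀ y, ‖h y‖ ≤ ψ y) → (∀ y, ψ y ≤ H) →
      (∀ y, y ≤ a * Real.log z → ψ y = 0) → (∀ y, b ≤ y → ψ y = 0) →
      (∀ x y, ‖h x - h y‖ ≤ H * |x - y|) → (∀ x y, |ψ x - ψ y| ≤ H * |x - y|) →
      ‖(∑' m : ℕ, (rough z m : ℂ) * h (Real.log m) / (m : ℂ)) - (V z : ℂ) * ∫ y, h y‖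
        ≤ C * Real.exp (-2 * a) / Real.log z * (∫ y, ψ y) + C * H * (z : ℝ) ^ (-a / 4)

theorem rs1 {C : ℝ} {z N : ℕ} (hC : 0 ≤ C) (hR : RSz C z) (hl : 0 < Real.log z) (hV0 : 0 < V z)
    (hV : V z ≤ 1 / Real.log z) {a T T' Lg w : ℝ} (ha : 1 / 2 ≤ a) (hT : 1 ≤ T) (h0 : 0 < T')
    (h1 : T' ≤ T) (hL0 : 0 ≤ Lg) (hL : Lg ≤ 1) {g : ℝ → ℝ} (hg : ∀ y, |g y| ≤ 1)
    (hgl : ∀ x y, |g x - g y| ≤ Lg * |x - y|)
    (hs : ∀ y, y ≤ a * Real.log z → g y * tr T' (y - w) = 0)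
    (hN : ∀ m : ℕ, N < m → w + 1 / T' ≤ Real.log m) :
    |∑ m ∈ Ioc 0 N, rough z m * (g (Real.log m) * tr T' (Real.log m - w)) / m -
      V z * (g w * ∫ y, tri y)| ≤ (2 * C * Real.exp (-2 * a) + 2 * Lg / T') / Real.log z +
        C * (2 * T ^ 2) * (z : ℝ) ^ (-a / 4) := by
  set h : ℝ → ℝ := fun y => g y * tr T' (y - w) with hh
  have htr : ∀ y, |tr T' (y - w)| ≤ T := fun y => by
    rw [abs_of_nonneg (tr_nonneg h0 _)]; exact (tr_le h0 _).trans h1
  have hlip : ∀ x y, |h x - h y| ≤ 2 * T ^ 2 * |x - y| := fun x y => by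
    refine (lip_mul (M := T' ^ 2) hg htr hgl (fun x y => by
      simpa using tr_lip h0 (x - w) (y - w)) x y).trans ?_
    have : T' ^ 2 ≤ T ^ 2 := by gcongr
    gcongr; nlinarith
  have hb : ∀ y, |h y| ≤ tr T' (y - w) := fun y => by
    rw [hh, abs_mul, abs_of_nonneg (tr_nonneg h0 _)]
    exact mul_le_of_le_one_left (tr_nonneg h0 _) (hg y)
  have hint : Integrable h := (tr_int h0 w).mono' (lip_cont hlip).aestronglyMeasurable
    (Filter.Eventually.of_forall hb)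
  have hz : ∀ y, w + 1 / T' ≤ y → h y = 0 := fun y hy => by
    rw [hh]; simp only
    rw [tr_zero h0 (le_trans (by linarith) (le_abs_self _)), mul_zero]
  have key := hR a ha (fun y => (h y : ℂ)) (fun y => |h y|) (2 * T ^ 2) (w + 1 / T')
    (fun y => by simp) (fun y => (hb y).trans ((tr_le h0 _).trans (by nlinarith)))
    (fun y hy => abs_eq_zero.2 (hs y hy)) (fun y hy => abs_eq_zero.2 (hz y hy))
    (fun x y => by rw [← Complex.ofReal_sub, Complex.norm_real]; exact hlip x y)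
    (fun x y => (abs_abs_sub_abs_le_abs_sub _ _).trans (hlip x y))
  rw [tsum_eq_sum (s := Ioc 0 N) (fun m hm => by
    rcases Nat.eq_zero_or_pos m with rfl | hm0
    · simp
    · rw [hz _ (hN m (by simpa [hm0] using hm))]; simp), integral_complex_ofReal] at key
  have e1 : (∑ m ∈ Ioc 0 N, (rough z m : ℂ) * (h (Real.log m) : ℂ) / (m : ℂ)) - (V z : ℂ) *
      ((∫ y, h y : ℝ) : ℂ) = ((∑ m ∈ Ioc 0 N, rough z m * h (Real.log m) / m -
        V z * ∫ y, h y : ℝ) : ℂ) := by push_cast; rfl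
  rw [e1, Complex.norm_real, Real.norm_eq_abs] at key
  have e2 : ∫ y, |h y| ≤ 2 := (integral_mono hint.abs (tr_int h0 w) hb).trans
    (by rw [tr_integral h0]; exact tri_integral)
  have e3 : |(∫ y, h y) - g w * ∫ y, tri y| ≤ 2 * Lg / T' := by
    rw [← tr_integral h0 w, ← integral_const_mul, ← integral_sub hint ((tr_int h0 w).const_mul _)]
    rw [← Real.norm_eq_abs]
    refine (norm_integral_le_of_norm_le ((tr_int h0 w).const_mul (Lg / T'))
      (Filter.Eventually.of_forall fun y => ?_)).trans ?_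
    · rw [hh]; simp only
      rw [← sub_mul, Real.norm_eq_abs, abs_mul, abs_of_nonneg (tr_nonneg h0 _)]
      by_cases hy : 1 / T' ≤ |y - w|
      · rw [tr_zero h0 hy]; simp
      · refine mul_le_mul_of_nonneg_right ((hgl y w).trans ?_) (tr_nonneg h0 _)
        rw [div_eq_mul_one_div]
        exact mul_le_mul_of_nonneg_left (not_le.1 hy).le hL0
    · rw [integral_const_mul, tr_integral h0, mul_div_assoc, mul_comm 2]
      exact mul_le_mul_of_nonneg_left tri_integral (by positivity)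
  have e4 : V z * |(∫ y, h y) - g w * ∫ y, tri y| ≤ 1 / Real.log z * (2 * Lg / T') :=
    mul_le_mul hV e3 (abs_nonneg _) (by positivity)
  have e5 : C * Real.exp (-2 * a) / Real.log z * ∫ y, |h y| ≤
      C * Real.exp (-2 * a) / Real.log z * 2 := mul_le_mul_of_nonneg_left e2 (by positivity)
  have e6 := abs_add_le (∑ m ∈ Ioc 0 N, rough z m * h (Real.log m) / m - V z * ∫ y, h y)
    (V z * ((∫ y, h y) - g w * ∫ y, tri y))
  rw [abs_mul, abs_of_pos hV0] at e6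
  have e7 : (2 * C * Real.exp (-2 * a) + 2 * Lg / T') / Real.log z =
      C * Real.exp (-2 * a) / Real.log z * 2 + 1 / Real.log z * (2 * Lg / T') := by ring
  rw [e7]
  refine le_trans (le_of_eq ?_) (e6.trans (by linarith))
  congr 1; ring

/-- weighted smoothed sum -/
noncomputable def D (σ : ℝ) (om : ℝ → ℝ) (N : ℕ) (f : ArithmeticFunction ℝ) (w : ℝ) : ℝ :=
  ∑ n ∈ Ioc 0 N, f n * ((n : ℝ) ^ (-σ) * om (Real.log n - w))

/-- mass bound -/
def Ms (σ : ℝ) (f : ℕ → ℝ) (M : ℝ) : Prop :=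
  Summable (fun n : ℕ => |f n| * (n : ℝ) ^ (-σ)) ∧ ∑' n : ℕ, |f n| * (n : ℝ) ^ (-σ) ≤ M

theorem Ms.mono {σ M k : ℝ} {f g : ℕ → ℝ} (h : Ms σ g M) (hk : 0 ≤ k)
    (hf : ∀ n, |f n| ≤ k * |g n|) : Ms σ f (k * M) := by
  have h1 : ∀ n : ℕ, |f n| * (n : ℝ) ^ (-σ) ≤ k * (|g n| * (n : ℝ) ^ (-σ)) := fun n => by
    rw [← mul_assoc]; exact mul_le_mul_of_nonneg_right (hf n) (by positivity)
  have h2 := Summable.of_nonneg_of_le (fun n => by positivity) h1 (h.1.mul_left k)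
  refine ⟨h2, (h2.tsum_le_tsum h1 (h.1.mul_left k)).trans ?_⟩
  rw [tsum_mul_left]; exact mul_le_mul_of_nonneg_left h.2 hk

theorem Ms.sum_le {σ M : ℝ} {f : ℕ → ℝ} (h : Ms σ f M) (s : Finset ℕ) :
    ∑ n ∈ s, |f n| * (n : ℝ) ^ (-σ) ≤ M :=
  (h.1.sum_le_tsum s fun n _ => by positivity).trans h.2

variable {σ : ℝ} {om : ℝ → ℝ} {N : ℕ}

theorem D_add (f g : ArithmeticFunction ℝ) (w : ℝ) :
    D σ om N (f + g) w = D σ om N f w + D σ om N g w := by
  simp [D, add_mul, sum_add_distrib]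

theorem D_mul (f g : ArithmeticFunction ℝ) {v w : ℝ} (hw : w ≤ v)
    (hN : ∀ m : ℕ, N < m → ∀ w ≤ v, om (Real.log m - w) = 0) :
    D σ om N (f * g) w = ∑ a ∈ Ioc 0 N, f a * (a : ℝ) ^ (-σ) * D σ om N g (w - Real.log a) := by
  have e1 : D σ om N (f * g) w = ∑ n ∈ Ioc 0 N, ∑ x ∈ Ioc 0 N ×ˢ Ioc 0 N,
      if x.1 * x.2 = n then f x.1 * g x.2 * (((x.1 * x.2 : ℕ) : ℝ) ^ (-σ) *
        om (Real.log (x.1 * x.2 : ℕ) - w)) else 0 := by
    refine sum_congr rfl fun n hn => ?_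
    rw [mem_Ioc] at hn
    rw [ArithmeticFunction.mul_apply, Nat.divisorsAntidiagonal_eq_prod_filter_of_le hn.1.ne' hn.2,
      sum_mul, sum_filter]
    refine sum_congr rfl fun x _ => ?_
    split_ifs with h
    · rw [h]
    · rfl
  rw [e1, sum_comm, sum_product]
  refine sum_congr rfl fun a ha => ?_
  rw [D, mul_sum]
  refine sum_congr rfl fun b hb => ?_
  rw [mem_Ioc] at ha hb
  have ha0 : (0 : ℝ) < a := by exact_mod_cast ha.1
  have hb0 : (0 : ℝ) < b := by exact_mod_cast hb.1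
  have e2 : Real.log b - (w - Real.log a) = Real.log (a * b : ℕ) - w := by
    rw [Nat.cast_mul, Real.log_mul ha0.ne' hb0.ne']; ring
  rw [sum_ite_eq, e2]
  split_ifs with h
  · rw [Nat.cast_mul, Real.mul_rpow ha0.le hb0.le]; ring
  · rw [hN (a * b) (by simpa [Nat.mul_pos ha.1 hb.1] using h) w hw]; simp

theorem D_mul_le {f g : ArithmeticFunction ℝ} {v M M' : ℝ} (hf : Ms σ f M)
    (hg : ∀ w ≤ v, |D σ om N g w| ≤ M')
    (hN : ∀ m : ℕ, N < m → ∀ w ≤ v, om (Real.log m - w) = 0) :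
    ∀ w ≤ v, |D σ om N (f * g) w| ≤ M * M' := by
  intro w hw
  have h0 : 0 ≤ M' := (abs_nonneg _).trans (hg w hw)
  rw [D_mul f g hw hN]
  refine (abs_sum_le_sum_abs _ _).trans (le_trans ?_
    (mul_le_mul_of_nonneg_right (hf.sum_le (Ioc 0 N)) h0))
  rw [sum_mul]
  refine sum_le_sum fun a _ => ?_
  rw [abs_mul, abs_mul, abs_of_nonneg (a := (a : ℝ) ^ (-σ)) (by positivity)]
  refine mul_le_mul_of_nonneg_left (hg _ ?_) (by positivity)
  linarith [Real.log_natCast_nonneg a]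

end Pool.Agent.H55.Hoh
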