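import Pool.Agent.H55.SelHoh1

/-! Hoheisel assembly, part 2: the Fourier side. -/

set_option autoImplicit false
open MeasureTheory Finset Complex Pool.Agent.Lead.Sel

namespace Pool.Agent.H55.Hoh

/-- the Dirichlet series on a vertical line -/
noncomputable def LL (σ : ℝ) (f : ℕ → ℝ) (t : ℝ) : ℂ := LSeries (fun n => (f n : ℂ)) (σ + t * I)

def Sm (σ : ℝ) (f : ℕ → ℝ) : Prop := LSeriesSummable (fun n => (f n : ℂ)) σ

def HasFT (m κ : ℝ → ℝ) : Prop :=
  Integrable m ∧ ∀ w : ℝ, ∫ t : ℝ, (m t : ℂ) * cexp (-(t * w * I)) = ((2 * Real.pi * κ w : ℝ) : ℂ)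

variable {σ : ℝ}

theorem term_eq (hσ : 0 < σ) (f : ℕ → ℝ) (t : ℝ) (n : ℕ) :
    LSeries.term (fun n => (f n : ℂ)) (σ + t * I) n =
      ((f n * (n : ℝ) ^ (-σ) : ℝ) : ℂ) * cexp (-(t * Real.log n * I)) := by
  rcases Nat.eq_zero_or_pos n with rfl | hn
  · simp [Real.zero_rpow (neg_ne_zero.2 hσ.ne')]
  · have h0 : (0 : ℝ) < n := by exact_mod_cast hn
    rw [LSeries.term_of_ne_zero hn.ne', div_eq_mul_inv, ← cpow_neg,
      cpow_def_of_ne_zero (by exact_mod_cast hn.ne'), Real.rpow_def_of_pos h0, ← natCast_log]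
    push_cast
    rw [mul_assoc, ← Complex.exp_add]
    congr 2; ring

theorem norm_e (x : ℝ) : ‖cexp (x * I)‖ = 1 := norm_exp_ofReal_mul_I x

theorem norm_e' (t w : ℝ) : ‖cexp (-(t * w * I))‖ = 1 := by
  rw [← norm_e (-(t * w))]; congr 2; push_cast; ring

theorem norm_term (hσ : 0 < σ) (f : ℕ → ℝ) (t : ℝ) (n : ℕ) :
    ‖LSeries.term (fun n => (f n : ℂ)) (σ + t * I) n‖ = |f n| * (n : ℝ) ^ (-σ) := by
  rw [term_eq hσ, norm_mul, norm_e', mul_one, norm_real, Real.norm_eq_abs, abs_mul,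
    abs_of_nonneg (a := (n : ℝ) ^ (-σ)) (by positivity)]

theorem sm_iff (hσ : 0 < σ) {f : ℕ → ℝ} (t : ℝ) :
    LSeriesSummable (fun n => (f n : ℂ)) (σ + t * I) ↔
      Summable fun n : ℕ => |f n| * (n : ℝ) ^ (-σ) := by
  rw [LSeriesSummable, ← summable_norm_iff]
  simp only [norm_term hσ]

theorem Sm.summable (hσ : 0 < σ) {f : ℕ → ℝ} (h : Sm σ f) :
    Summable fun n : ℕ => |f n| * (n : ℝ) ^ (-σ) := (sm_iff hσ 0).1 (by simpa [Sm] using h)

theorem Ms.sm (hσ : 0 < σ) {f : ℕ → ℝ} {M : ℝ} (h : Ms σ f M) : Sm σ f := by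
  simpa [Sm] using (sm_iff hσ 0).2 h.1

theorem Ms.norm_le (hσ : 0 < σ) {f : ℕ → ℝ} {M : ℝ} (h : Ms σ f M) (t : ℝ) : ‖LL σ f t‖ ≤ M :=
  (tsum_of_norm_bounded h.1.hasSum fun n => (norm_term hσ f t n).le).trans h.2

theorem coe_mul (f g : ArithmeticFunction ℝ) : (fun n => ((f * g) n : ℂ)) =
    LSeries.convolution (fun n => (f n : ℂ)) (fun n => (g n : ℂ)) := by
  rw [LSeries.convolution_def]
  ext n
  rw [ArithmeticFunction.mul_apply]; push_cast; rfl

theorem Sm.mul {f g : ArithmeticFunction ℝ} (hf : Sm σ f) (hg : Sm σ g) : Sm σ (f * g :) := by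
  unfold Sm; rw [coe_mul]; exact hf.convolution hg

theorem LL_mul (hσ : 0 < σ) {f g : ArithmeticFunction ℝ} (hf : Sm σ f) (hg : Sm σ g) (t : ℝ) :
    LL σ (f * g :) t = LL σ f t * LL σ g t := by
  unfold LL; rw [coe_mul]
  exact LSeries_convolution' ((sm_iff hσ t).2 (hf.summable hσ)) ((sm_iff hσ t).2 (hg.summable hσ))

theorem LL_cont (hσ : 0 < σ) {f : ℕ → ℝ} (hf : Sm σ f) : Continuous (LL σ f) := by
  refine continuous_tsum (fun n => ?_) (hf.summable hσ) fun n t => (norm_term hσ f t n).le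
  simp only [term_eq hσ]; fun_prop

theorem HasFT.int {m κ : ℝ → ℝ} (h : HasFT m κ) {g : ℝ → ℂ} (hg : Continuous g) {M : ℝ}
    (hM : ∀ t, ‖g t‖ ≤ M) : Integrable fun t => (m t : ℂ) * g t :=
  h.1.ofReal.mul_bdd hg.aestronglyMeasurable (Filter.Eventually.of_forall hM)

theorem HasFT.add {m κ m' κ' : ℝ → ℝ} (h : HasFT m κ) (h' : HasFT m' κ') (c : ℝ) :
    HasFT (fun t => m t + c * m' t) fun w => κ w + c * κ' w := by
  refine ⟨h.1.add (h'.1.const_mul c), fun w => ?_⟩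
  have e : ∀ t : ℝ, ((m t + c * m' t : ℝ) : ℂ) * cexp (-(t * w * I)) =
      m t * cexp (-(t * w * I)) + c * (m' t * cexp (-(t * w * I))) := fun t => by push_cast; ring
  simp only [e]
  rw [integral_add (h.int (by fun_prop) fun t => (norm_e' t w).le)
    ((h'.int (by fun_prop) fun t => (norm_e' t w).le).const_mul _), integral_const_mul, h.2, h'.2]
  push_cast; ring

theorem planch (hσ : 0 < σ) {f : ArithmeticFunction ℝ} (hf : Sm σ f) {m κ : ℝ → ℝ}
    (h : HasFT m κ) {N : ℕ} {v : ℝ} (hN : ∀ n, N < n → f n * κ (Real.log n - v) = 0) :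
    ∫ t : ℝ, (m t : ℂ) * (cexp (t * v * I) * LL σ f t) = ((2 * Real.pi * D σ κ N f v : ℝ) : ℂ) := by
  set F : ℕ → ℝ → ℂ := fun n t => ((f n * (n : ℝ) ^ (-σ) : ℝ) : ℂ) *
    ((m t : ℂ) * cexp (-(t * (Real.log n - v : ℝ) * I))) with hF
  have h1 : ∀ n, Integrable (F n) := fun n =>
    (h.int (by fun_prop) fun t => (norm_e' t _).le).const_mul _
  have h2 : Summable fun n => ∫ t, ‖F n t‖ := by
    refine ((hf.summable hσ).mul_right (∫ t, |m t|)).congr fun n => ?_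
    rw [← integral_const_mul]
    refine integral_congr_ae (Filter.Eventually.of_forall fun t => ?_)
    simp only [hF]
    rw [norm_mul, norm_mul, norm_e', mul_one, norm_real, norm_real, Real.norm_eq_abs,
      Real.norm_eq_abs, abs_mul, abs_of_nonneg (a := (n : ℝ) ^ (-σ)) (by positivity)]
  have h3 := integral_tsum_of_summable_integral_norm h1 h2
  have h4 : ∀ t : ℝ, ∑' n, F n t = (m t : ℂ) * (cexp (t * v * I) * LL σ f t) := fun t => by
    rw [LL, LSeries, ← tsum_mul_left, ← tsum_mul_left]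
    refine tsum_congr fun n => ?_
    rw [term_eq hσ, hF]
    simp only
    rw [show -((t : ℂ) * ((Real.log n - v : ℝ) : ℂ) * I) = t * v * I + -(t * Real.log n * I) by
      push_cast; ring, Complex.exp_add]
    ring
  simp only [h4] at h3
  rw [← h3, tsum_eq_sum (s := Ioc 0 N), D, mul_sum, ofReal_sum]
  · refine sum_congr rfl fun n _ => ?_
    rw [hF]; simp only
    rw [integral_const_mul, h.2]; push_cast; ring
  · intro n hn
    rw [hF]; simp only
    rw [integral_const_mul, h.2, ← ofReal_mul, ofReal_eq_zero]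
    rcases Nat.eq_zero_or_pos n with rfl | hn0
    · simp
    · have := hN n (by simpa [hn0] using hn)
      linear_combination ((n : ℝ) ^ (-σ) * (2 * Real.pi)) * this

theorem sq_int (hσ : 0 < σ) {b : ArithmeticFunction ℝ} {M : ℝ} (hb : Ms σ b M) {m κ : ℝ → ℝ}
    (h : HasFT m κ) {N : ℕ} (hN : ∀ n, N < n → b n = 0) :
    Integrable (fun t => m t * ‖LL σ b t‖ ^ 2) ∧ ∫ t, m t * ‖LL σ b t‖ ^ 2 =
      2 * Real.pi * ∑ k ∈ Ioc 0 N, b k * (k : ℝ) ^ (-σ) * D σ κ N b (Real.log k) := by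
  have hc := LL_cont hσ (hb.sm hσ)
  refine ⟨h.1.mul_bdd (c := M ^ 2) (by fun_prop) (Filter.Eventually.of_forall fun t => ?_), ?_⟩
  · rw [norm_pow, norm_norm]
    exact pow_le_pow_left₀ (norm_nonneg _) (hb.norm_le hσ t) 2
  have e : ∀ t : ℝ, ((m t * ‖LL σ b t‖ ^ 2 : ℝ) : ℂ) = ∑ k ∈ Ioc 0 N,
      ((b k * (k : ℝ) ^ (-σ) : ℝ) : ℂ) * ((m t : ℂ) * (cexp (t * Real.log k * I) * LL σ b t)) := by
    intro t
    have e1 : (starRingEnd ℂ) (LL σ b t) = ∑ k ∈ Ioc 0 N,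
        ((b k * (k : ℝ) ^ (-σ) : ℝ) : ℂ) * cexp (t * Real.log k * I) := by
      rw [LL, LSeries, tsum_eq_sum (s := Ioc 0 N), map_sum]
      · refine sum_congr rfl fun k _ => ?_
        rw [term_eq hσ, map_mul, conj_ofReal, ← exp_conj]
        simp only [map_neg, map_mul, conj_ofReal, conj_I, mul_neg, neg_neg]
      · intro n hn
        rcases Nat.eq_zero_or_pos n with rfl | hn0
        · simp
        · rw [term_eq hσ, hN n (by simpa [hn0] using hn)]; simp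
    rw [ofReal_mul, ofReal_pow, ← conj_mul', e1, sum_mul, mul_sum]
    exact sum_congr rfl fun k _ => by ring
  apply ofReal_injective
  rw [← integral_complex_ofReal]
  simp only [e]
  rw [integral_finsetSum _ fun k _ => (h.int (M := M) (by fun_prop) fun t => ?_).const_mul _,
    mul_sum, ofReal_sum]
  · refine sum_congr rfl fun k _ => ?_
    rw [integral_const_mul, planch hσ (hb.sm hσ) h (N := N) fun n hn => by rw [hN n hn, zero_mul]]
    push_cast; ring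
  · rw [norm_mul, ← ofReal_mul, norm_e, one_mul]; exact hb.norm_le hσ t

theorem cauchy_int {a : ℝ} (ha : 0 < a) : Integrable (fun t : ℝ => (1 + (t / a) ^ 2)⁻¹) ∧
    ∫ t : ℝ, (1 + (t / a) ^ 2)⁻¹ = a * Real.pi :=
  ⟨integrable_inv_one_add_sq.comp_div ha.ne', by
    rw [Measure.integral_comp_div (fun x : ℝ => (1 + x ^ 2)⁻¹), integral_univ_inv_one_add_sq,
      abs_of_pos ha, smul_eq_mul]⟩

theorem fourier_term (hσ : 0 < σ) {S : ℝ → ℝ} (h1 : ∀ ξ, 0 ≤ S ξ ∧ S ξ ≤ 1)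
    (h2 : ∀ ξ, S ξ * ξ ^ 2 ≤ 4) (h3 : ∀ ξ, 1 - |ξ| ≤ S ξ)
    (h4 : ∀ T : ℝ, 0 < T → HasFT (fun t => S (t / T)) (tr T)) {T T0 τ Ma Mb P Q v : ℝ} {N : ℕ}
    (hT0 : 0 < T0) (hT : T0 ≤ T) (hτ : 0 < τ) (hP0 : 0 ≤ P) {a b : ArithmeticFunction ℝ}
    (ha : Ms σ a Ma) (hb : Ms σ b Mb) (hbN : ∀ n, N < n → b n = 0)
    (hN : ∀ n : ℕ, N < n → tr T (Real.log n - v) + -1 * tr T0 (Real.log n - v) = 0)
    (hP : ∀ t, τ ≤ |t| → |t| ≤ T ^ 3 → ‖LL σ a t‖ ≤ P)
    (hQ : ∑ k ∈ Ioc 0 N, b k * (k : ℝ) ^ (-σ) *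
      D σ (fun y => tr T y + 1 * tr T0 y) N b (Real.log k) ≤ Q) :
    |D σ (fun y => tr T y + -1 * tr T0 y) N (a * b * b) v| ≤
      τ ^ 2 / T0 * (Ma * Mb ^ 2) + P * Q + 4 / T * (Ma * Mb ^ 2) := by
  have hTp : 0 < T := hT0.trans_le hT
  have k1 := planch hσ (((ha.sm hσ).mul (hb.sm hσ)).mul (hb.sm hσ))
    ((h4 T hTp).add (h4 T0 hT0) (-1)) (N := N) (v := v) fun n hn => by rw [hN n hn, mul_zero]
  obtain ⟨k2, k3⟩ := sq_int hσ hb ((h4 T hTp).add (h4 T0 hT0) 1) hbN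
  obtain ⟨k4, k5⟩ := cauchy_int hτ
  obtain ⟨k6, k7⟩ := cauchy_int (pow_pos hTp 3)
  have hM : 0 ≤ Ma * Mb ^ 2 := mul_nonneg ((norm_nonneg _).trans (ha.norm_le hσ 0)) (sq_nonneg _)
  have k8 := norm_integral_le_of_norm_le (((k4.const_mul (2 * τ / T0 * (Ma * Mb ^ 2))).add
    (k2.const_mul P)).add (k6.const_mul (8 / T ^ 4 * (Ma * Mb ^ 2))))
    (f := fun t : ℝ => ((S (t / T) + -1 * S (t / T0) : ℝ) : ℂ) *
      (cexp (t * v * I) * LL σ (a * b * b :) t)) (Filter.Eventually.of_forall fun t => ?_)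
  · rw [k1, norm_real, Real.norm_eq_abs, abs_mul, abs_of_pos Real.two_pi_pos] at k8
    rw [integral_add' ((k4.const_mul _).add (k2.const_mul _)) (k6.const_mul _),
      integral_add' (k4.const_mul _) (k2.const_mul _), integral_const_mul, integral_const_mul,
      integral_const_mul, k3, k5, k7] at k8
    refine le_of_mul_le_mul_left (k8.trans ?_) Real.two_pi_pos
    have := mul_le_mul_of_nonneg_left hQ (mul_nonneg hP0 Real.two_pi_pos.le)
    have e : 8 / T ^ 4 * (Ma * Mb ^ 2) * (T ^ 3 * Real.pi) =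
        2 * Real.pi * (4 / T * (Ma * Mb ^ 2)) := by field_simp; ring
    have e' : 2 * τ / T0 * (Ma * Mb ^ 2) * (τ * Real.pi) =
        2 * Real.pi * (τ ^ 2 / T0 * (Ma * Mb ^ 2)) := by ring
    rw [e, e']; linarith
  rw [LL_mul hσ ((ha.sm hσ).mul (hb.sm hσ)) (hb.sm hσ), LL_mul hσ (ha.sm hσ) (hb.sm hσ), norm_mul,
    norm_mul, norm_mul, norm_mul, ← ofReal_mul, norm_e, one_mul, norm_real, Real.norm_eq_abs,
    mul_assoc ‖LL σ a t‖, ← sq]
  simp only [Pi.add_apply]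
  have a1 := h1 (t / T)
  have a2 := h1 (t / T0)
  have b1 : ‖LL σ a t‖ * ‖LL σ b t‖ ^ 2 ≤ Ma * Mb ^ 2 :=
    mul_le_mul (ha.norm_le hσ t) (pow_le_pow_left₀ (norm_nonneg _) (hb.norm_le hσ t) 2)
      (by positivity) ((norm_nonneg _).trans (ha.norm_le hσ 0))
  have p1 : 0 ≤ 2 * τ / T0 * (Ma * Mb ^ 2) * (1 + (t / τ) ^ 2)⁻¹ := by positivity
  have p2 : 0 ≤ P * ((S (t / T) + 1 * S (t / T0)) * ‖LL σ b t‖ ^ 2) :=
    mul_nonneg hP0 (mul_nonneg (by linarith) (by positivity))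
  have p3 : 0 ≤ 8 / T ^ 4 * (Ma * Mb ^ 2) * (1 + (t / T ^ 3) ^ 2)⁻¹ := by positivity
  by_cases c1 : |t| ≤ τ
  · have q1 : |S (t / T) + -1 * S (t / T0)| ≤ 2 * τ / T0 * (1 + (t / τ) ^ 2)⁻¹ := by
      have r1 := h3 (t / T)
      have r2 := h3 (t / T0)
      rw [abs_div, abs_of_pos hTp] at r1
      rw [abs_div, abs_of_pos hT0] at r2
      have r3 : |t| / T ≤ τ / T0 := by gcongr
      have r4 : |t| / T0 ≤ τ / T0 := by gcongr
      have r5 : (t / τ) ^ 2 ≤ 1 := by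
        rw [sq_le_one_iff_abs_le_one, abs_div, abs_of_pos hτ]; exact (div_le_one hτ).2 c1
      refine le_trans (abs_le.2 ⟨by linarith, by linarith⟩ : _ ≤ τ / T0) ?_
      rw [le_mul_inv_iff₀ (by positivity), mul_div_assoc, mul_comm 2]
      exact mul_le_mul_of_nonneg_left (by linarith) (by positivity)
    have := mul_le_mul q1 b1 (by positivity) (by positivity)
    linarith
  by_cases c2 : |t| ≤ T ^ 3
  · have q1 : |S (t / T) + -1 * S (t / T0)| ≤ S (t / T) + 1 * S (t / T0) :=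
      abs_le.2 ⟨by linarith, by linarith⟩
    have := mul_le_mul q1 (mul_le_mul_of_nonneg_right (hP t (not_le.1 c1).le c2)
      (sq_nonneg ‖LL σ b t‖)) (by positivity) (by linarith)
    linarith
  · have q1 : |S (t / T) + -1 * S (t / T0)| ≤ 8 / T ^ 4 * (1 + (t / T ^ 3) ^ 2)⁻¹ := by
      have r0 : (T ^ 3) ^ 2 ≤ t ^ 2 := by
        rw [← sq_abs t]; exact pow_le_pow_left₀ (by positivity) (not_le.1 c2).le 2
      have r1 : ∀ T' : ℝ, 0 < T' → T' ≤ T → S (t / T') ≤ 8 / T ^ 4 * (1 + (t / T ^ 3) ^ 2)⁻¹ := by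
        intro T' s1 s2
        have s3 := h2 (t / T')
        rw [div_pow, ← mul_div_assoc, div_le_iff₀ (by positivity)] at s3
        have s4 : T' ^ 2 ≤ T ^ 2 := by gcongr
        rw [le_mul_inv_iff₀ (by positivity), le_div_iff₀ (by positivity)]
        have s5 : S (t / T') * (1 + (t / T ^ 3) ^ 2) * T ^ 4 =
            S (t / T') * ((T ^ 3) ^ 2 + t ^ 2) / T ^ 2 := by field_simp
        rw [s5, div_le_iff₀ (by positivity)]
        nlinarith [(h1 (t / T')).1]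
      exact abs_le.2 ⟨by linarith [r1 T0 hT0 hT], by linarith [r1 T hTp le_rfl]⟩
    have := mul_le_mul q1 b1 (by positivity) (by positivity)
    linarith

end Pool.Agent.H55.Hoh
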