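import Pool.Agent.H55.SelHoh2

/-! Hoheisel assembly, part 3: arithmetic functions, cutoffs, type I sums. -/

set_option autoImplicit false
open MeasureTheory Finset Pool.Agent.Lead.Sel ArithmeticFunction

namespace Pool.Agent.H55.Hoh

theorem rough_nonneg (z n : ℕ) : 0 ≤ rough z n := by unfold rough; split_ifs <;> norm_num

theorem rough_le (z n : ℕ) : rough z n ≤ 1 := by unfold rough; split_ifs <;> norm_num

theorem rough_mul (z a b : ℕ) : rough z (a * b) = rough z a * rough z b := by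
  unfold rough
  by_cases h1 : a.Coprime (primorial z)
  · by_cases h2 : b.Coprime (primorial z)
    · rw [if_pos h1, if_pos h2, if_pos (Nat.coprime_mul_iff_left.2 ⟨h1, h2⟩), one_mul]
    · rw [if_neg h2, if_neg fun h => h2 (Nat.coprime_mul_iff_left.1 h).2, mul_zero]
  · rw [if_neg h1, if_neg fun h => h1 (Nat.coprime_mul_iff_left.1 h).1, zero_mul]

theorem rough_one (z : ℕ) : rough z 1 = 1 := by simp [rough]

theorem rough_lt {z k : ℕ} (h : rough z k ≠ 0) (hk : 2 ≤ k) : z < k := by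
  have h1 : k.Coprime (primorial z) := by
    by_contra hc; exact h (if_neg hc)
  have hp := Nat.minFac_prime (n := k) (by omega)
  by_contra hc
  exact hp.one_lt.ne' (Nat.eq_one_of_dvd_coprimes h1 (Nat.minFac_dvd k)
    (hp.dvd_primorial_iff.2 ((Nat.minFac_le (by omega)).trans (not_lt.1 hc))))

theorem rough_prime {z p : ℕ} (hp : p.Prime) (h : z < p) : rough z p = 1 :=
  if_pos (hp.coprime_iff_not_dvd.2 fun hd => absurd (hp.dvd_primorial_iff.1 hd) (not_le.2 h))

noncomputable def cut (f : ArithmeticFunction ℝ) (φ : ℝ → ℝ) : ArithmeticFunction ℝ :=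
  ⟨fun n => f n * φ (Real.log n), by simp⟩

noncomputable def Lam (z : ℕ) : ArithmeticFunction ℝ := ⟨fun n => rough z n * Λ n, by simp⟩

noncomputable def Lg (z : ℕ) : ArithmeticFunction ℝ := ⟨fun n => rough z n * Real.log n, by simp⟩

noncomputable def be (z : ℕ) : ArithmeticFunction ℝ :=
  ⟨fun n => if n ≤ 1 then 0 else rough z n, by simp⟩

theorem cut_apply (f : ArithmeticFunction ℝ) (φ : ℝ → ℝ) (n : ℕ) :
    cut f φ n = f n * φ (Real.log n) := rfl

theorem Lam_apply (z n : ℕ) : Lam z n = rough z n * Λ n := rfl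

theorem Lg_apply (z n : ℕ) : Lg z n = rough z n * Real.log n := rfl

theorem be_apply (z n : ℕ) : be z n = if n ≤ 1 then 0 else rough z n := rfl

theorem cut_add (f : ArithmeticFunction ℝ) (φ : ℝ → ℝ) :
    f = cut f φ + cut f fun y => 1 - φ y := by
  ext n; rw [ArithmeticFunction.add_apply, cut_apply, cut_apply]; ring

theorem Lam_mul (z : ℕ) : Lam z * (1 + be z) = Lg z := by
  ext n
  rw [mul_apply, Lg_apply, ← vonMangoldt_sum, mul_sum,
    ← Nat.sum_divisorsAntidiagonal fun a _ => rough z n * Λ a]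
  refine sum_congr rfl fun x hx => ?_
  obtain ⟨h1, h2⟩ := Nat.mem_divisorsAntidiagonal.1 hx
  have h3 : x.2 ≠ 0 := by rintro h; rw [h] at h1; omega
  have h4 : (1 + be z) x.2 = rough z x.2 := by
    rw [ArithmeticFunction.add_apply, be_apply, one_apply]
    by_cases h : x.2 = 1
    · simp [h, rough_one]
    · rw [if_neg h, if_neg (by omega), zero_add]
  rw [h4, Lam_apply, ← h1, rough_mul]; ring

theorem be_abs (z n : ℕ) : |be z n| ≤ 1 * |rough z n| := by
  rw [be_apply]; split_ifs <;> simp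

theorem be_nonneg (z n : ℕ) : 0 ≤ be z n := by
  rw [be_apply]; split_ifs
  · rfl
  · exact rough_nonneg z n

theorem be_le (z n : ℕ) : be z n ≤ rough z n := by
  simpa [abs_of_nonneg (be_nonneg z n), abs_of_nonneg (rough_nonneg z n)] using be_abs z n

theorem cut_abs {f : ArithmeticFunction ℝ} {φ : ℝ → ℝ} (h : ∀ y, 0 ≤ φ y ∧ φ y ≤ 1) (n : ℕ) :
    |cut f φ n| ≤ 1 * |f n| := by
  rw [cut_apply, abs_mul, one_mul, abs_of_nonneg (h _).1]
  exact mul_le_of_le_one_right (abs_nonneg _) (h _).2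

theorem Lam_abs (z n : ℕ) : |Lam z n| ≤ 1 * |Λ n| := by
  rw [Lam_apply, abs_mul, abs_of_nonneg (rough_nonneg z n)]
  exact mul_le_mul_of_nonneg_right (rough_le z n) (abs_nonneg _)

/-- clamp to the unit interval -/
noncomputable def cl (x : ℝ) : ℝ := max (min x 1) 0

theorem cl_mem (x : ℝ) : 0 ≤ cl x ∧ cl x ≤ 1 :=
  ⟨le_max_right _ _, max_le (min_le_right _ _) zero_le_one⟩

theorem cl_zero {x : ℝ} (h : x ≤ 0) : cl x = 0 := max_eq_right ((min_le_left _ _).trans h)

theorem cl_one {x : ℝ} (h : 1 ≤ x) : cl x = 1 := by rw [cl, min_eq_right h]; simp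

theorem cl_self {x : ℝ} (h : 0 ≤ x) (h1 : x ≤ 1) : cl x = x := by
  rw [cl, min_eq_left h1, max_eq_left h]

theorem cl_lip (x y : ℝ) : |cl x - cl y| ≤ |x - y| := by
  refine (abs_max_sub_max_le_abs _ _ _).trans ((abs_min_sub_min_le_max _ _ _ _).trans ?_)
  simp

theorem cl_eq (x : ℝ) : cl x = max x 0 - max (x - 1) 0 := by
  rcases le_total x 0 with h | h
  · rw [cl_zero h, max_eq_right h, max_eq_right (by linarith), sub_zero]
  rcases le_total x 1 with h1 | h1
  · rw [cl_self h h1, max_eq_left h, max_eq_right (by linarith), sub_zero]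
  · rw [cl_one h1, max_eq_left h, max_eq_left (by linarith)]; ring

theorem exp_lip {a b : ℝ} (ha : 0 ≤ a) (hb : 0 ≤ b) : |Real.exp (-a) - Real.exp (-b)| ≤ |a - b| := by
  wlog h : a ≤ b generalizing a b
  · rw [abs_sub_comm, abs_sub_comm a]; exact this hb ha (not_le.1 h).le
  have h1 : Real.exp (-b) = Real.exp (-a) * Real.exp (a - b) := by
    rw [← Real.exp_add]; congr 1; ring
  have h2 := Real.add_one_le_exp (a - b)
  have h3 : Real.exp (-a) ≤ 1 := Real.exp_le_one_iff.2 (by linarith)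
  have h4 : Real.exp (a - b) ≤ 1 := Real.exp_le_one_iff.2 (by linarith)
  have h5 := Real.exp_pos (-a)
  rw [abs_of_nonpos (a := a - b) (by linarith), h1, abs_of_nonneg (by nlinarith)]
  nlinarith

/-- support bound -/
def Up (f : ArithmeticFunction ℝ) (y : ℝ) : Prop := ∀ n, f n ≠ 0 → Real.log n ≤ y

theorem Up.mul {f g : ArithmeticFunction ℝ} {y y' : ℝ} (hf : Up f y) (hg : Up g y') :
    Up (f * g) (y + y') := by
  intro n hn
  rw [mul_apply] at hn
  obtain ⟨x, hx, h⟩ := exists_ne_zero_of_sum_ne_zero hn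
  obtain ⟨h1, h2⟩ := Nat.mem_divisorsAntidiagonal.1 hx
  rw [← h1] at h2 ⊢
  rw [Nat.cast_mul, Real.log_mul (by exact_mod_cast left_ne_zero_of_mul h2)
    (by exact_mod_cast right_ne_zero_of_mul h2)]
  exact add_le_add (hf _ (left_ne_zero_of_mul h)) (hg _ (right_ne_zero_of_mul h))

theorem Up.cut {f : ArithmeticFunction ℝ} {φ : ℝ → ℝ} {y : ℝ} (h : ∀ x, y ≤ x → φ x = 0) :
    Up (cut f φ) y := fun n hn => by
  by_contra hc
  exact hn (by rw [cut_apply, h _ (not_le.1 hc).le, mul_zero])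

theorem Up.D_zero {f : ArithmeticFunction ℝ} {y σ v : ℝ} {om : ℝ → ℝ} {N : ℕ} (h : Up f y)
    (ho : ∀ x, x ≤ y → om (x - v) = 0) : D σ om N f v = 0 :=
  sum_eq_zero fun n _ => by
    by_cases hn : f n = 0
    · rw [hn, zero_mul]
    · rw [ho _ (h n hn), mul_zero, mul_zero]

theorem summ_log {σ : ℝ} (hσ : 1 < σ) {f : ℕ → ℝ} (hf : ∀ n, |f n| ≤ Real.log n ^ 2) :
    Summable fun n : ℕ => |f n| * (n : ℝ) ^ (-σ) := by
  set δ := (σ - 1) / 4 with hδ
  have h0 : 0 < δ := by linarith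
  refine Summable.of_nonneg_of_le (fun n => by positivity) (fun n => ?_)
    ((Real.summable_nat_rpow.2 (show δ + δ + -σ < -1 by linarith)).mul_left (1 / δ ^ 2))
  rcases Nat.eq_zero_or_pos n with rfl | hn
  · rw [Nat.cast_zero, Real.zero_rpow (by linarith), Real.zero_rpow (by linarith)]; simp
  have hn' : (0 : ℝ) < n := by exact_mod_cast hn
  rw [Real.rpow_add hn', Real.rpow_add hn', ← mul_assoc]
  refine mul_le_mul_of_nonneg_right ((hf n).trans ?_) (by positivity)
  refine (pow_le_pow_left₀ (Real.log_natCast_nonneg n) (Real.log_natCast_le_rpow_div n h0) 2).trans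
    (le_of_eq ?_)
  field_simp

theorem rpow_split {v : ℝ} {n : ℕ} (hn : 0 < n) :
    (n : ℝ) ^ (-(1 + 1 / v)) = Real.exp (-(max (Real.log n) 0 / v)) / n := by
  have hn' : (0 : ℝ) < n := by exact_mod_cast hn
  rw [max_eq_left (Real.log_natCast_nonneg n), Real.rpow_def_of_pos hn',
    show Real.log n * -(1 + 1 / v) = -(Real.log n / v) - Real.log n by ring, Real.exp_sub,
    Real.exp_log hn']

theorem zpow_le {z : ℕ} {l T a η : ℝ} (hz : 2 ≤ z) (hl : l = Real.log z)
    (hT : T = Real.exp (l / 40)) (ha : 1 / 2 ≤ a) (hη : l ≤ η * T) :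
    T ^ 2 * (z : ℝ) ^ (-a / 4) ≤ η / l := by
  have hz' : (1 : ℝ) < z := by exact_mod_cast hz
  have hl0 : 0 < l := hl ▸ Real.log_pos hz'
  have hT0 : 0 < T := hT ▸ Real.exp_pos _
  rw [le_div_iff₀ hl0]
  have h1 : T ^ 2 * (z : ℝ) ^ (-a / 4) * T ≤ 1 := by
    rw [Real.rpow_def_of_pos (by linarith), ← hl, hT, ← Real.exp_nat_mul, ← Real.exp_add,
      ← Real.exp_add, Real.exp_le_one_iff]
    push_cast; nlinarith
  have h2 : 0 ≤ T ^ 2 * (z : ℝ) ^ (-a / 4) := by positivity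
  have h3 : 0 < η := (mul_pos_iff_of_pos_right hT0).1 (hl0.trans_le hη)
  calc _ ≤ T ^ 2 * (z : ℝ) ^ (-a / 4) * (η * T) := mul_le_mul_of_nonneg_left hη h2
    _ = η * (T ^ 2 * (z : ℝ) ^ (-a / 4) * T) := by ring
    _ ≤ η := mul_le_of_le_one_right h3.le h1

theorem typeI {C l T T0 K A η v σ k : ℝ} {z N : ℕ} (hC : 0 ≤ C) (hR : RSz C z) (hz : 2 ≤ z)
    (hVB : VB) (hl : l = Real.log z) (hT : T = Real.exp (l / 40)) (hT0 : T0 = K / l) (hK : 0 < K)
    (hKl : K ≤ l) (hl3 : 3 ≤ l) (hA : 1 ≤ A) (hη : l ≤ η * T)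
    (hN : ∀ m : ℕ, N < m → v + 1 / T0 ≤ Real.log m) (hk : 0 ≤ k) {g : ℝ → ℝ}
    (hg : ∀ y, |g y| ≤ 1) (hgl : ∀ x y, |g x - g y| ≤ 3 / l * |x - y|)
    (hs : ∀ y, y ≤ A * l → g y = 0) {f : ArithmeticFunction ℝ}
    (hf : ∀ n ∈ Ioc 0 N, f n * (n : ℝ) ^ (-σ) = k * (rough z n * g (Real.log n) / n)) :
    ∀ w ≤ v, |D σ (fun y => tr T y + -1 * tr T0 y) N f w| ≤
      k * ((4 * C * Real.exp (-2 * A) + 12 / K + 4 * C * η) / l) := by
  intro w hw
  have hl0 : 0 < l := by linarith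
  have h1 : 1 ≤ T := hT ▸ Real.one_le_exp (by positivity)
  have h2 : 0 < T0 := by rw [hT0]; positivity
  have h3 : T0 ≤ T := by rw [hT0]; exact ((div_le_one hl0).2 hKl).trans h1
  have h4 := zpow_le hz hl hT (show 1 / 2 ≤ A by linarith) hη
  have key : ∀ T', T0 ≤ T' → T' ≤ T →
      |∑ m ∈ Ioc 0 N, rough z m * (g (Real.log m) * tr T' (Real.log m - w)) / m -
        V z * (g w * ∫ y, tri y)| ≤ (2 * C * Real.exp (-2 * A) + 6 / K + 2 * C * η) / l := by
    intro T' h5 h6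
    have h7 : 1 / T' ≤ 1 / T0 := one_div_le_one_div_of_le h2 h5
    refine (rs1 hC hR (hl ▸ hl0) (hVB z hz).1 (hVB z hz).2 (show 1 / 2 ≤ A by linarith) h1
      (h2.trans_le h5) h6 (by positivity) ((div_le_one hl0).2 hl3) hg hgl
      (fun y hy => by rw [hs y (hl ▸ hy), zero_mul])
      fun m hm => by linarith [hN m hm]).trans ?_
    have h8 : 2 * (3 / l) / T' ≤ 6 / K := by
      rw [div_eq_mul_one_div _ T']
      refine (mul_le_mul_of_nonneg_left h7 (by positivity)).trans (le_of_eq ?_)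
      rw [hT0]; field_simp; ring
    have h9 := mul_le_mul_of_nonneg_left h4 (show 0 ≤ 2 * C by positivity)
    have h10 := div_le_div_of_nonneg_right h8 hl0.le
    rw [← hl, add_div, add_div, add_div, mul_div_assoc (2 * C) η]
    linarith
  have e : D σ (fun y => tr T y + -1 * tr T0 y) N f w = k *
      ((∑ m ∈ Ioc 0 N, rough z m * (g (Real.log m) * tr T (Real.log m - w)) / m -
        V z * (g w * ∫ y, tri y)) - (∑ m ∈ Ioc 0 N, rough z m * (g (Real.log m) *
          tr T0 (Real.log m - w)) / m - V z * (g w * ∫ y, tri y))) := by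
    rw [sub_sub_sub_cancel_right, ← sum_sub_distrib, mul_sum]
    refine sum_congr rfl fun n hn => ?_
    rw [← mul_assoc, hf n hn]; ring
  rw [e, abs_mul, abs_of_nonneg hk]
  refine mul_le_mul_of_nonneg_left ((abs_sub _ _).trans ?_) hk
  refine (add_le_add (key T h3 le_rfl) (key T0 le_rfl h3)).trans (le_of_eq ?_)
  ring

end Pool.Agent.H55.Hoh
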