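import Pool.Agent.H55.SelHoh3

/-! Hoheisel assembly, part 4: the bound for the smoothed prime sum. -/

set_option autoImplicit false
open MeasureTheory Finset Pool.Agent.Lead.Sel ArithmeticFunction

namespace Pool.Agent.H55.Hoh

noncomputable def th (A l y : ℝ) : ℝ := cl (A + 1 - y / l)

noncomputable def g0 (A l v y : ℝ) : ℝ := Real.exp (-(max y 0 / v)) * (1 - th A l y)

theorem th_one {A l y : ℝ} (hl : 0 < l) (h : y ≤ A * l) : th A l y = 1 :=
  cl_one (by have := (div_le_iff₀ hl).2 h; linarith)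

theorem th_zero {A l y : ℝ} (hl : 0 < l) (h : (A + 1) * l ≤ y) : th A l y = 0 :=
  cl_zero (by have := (le_div_iff₀ hl).2 h; linarith)

theorem th_c (A l y : ℝ) : 0 ≤ 1 - th A l y ∧ 1 - th A l y ≤ 1 := by
  have := cl_mem (A + 1 - y / l); unfold th; constructor <;> linarith

theorem g0_facts {A l v : ℝ} (hl : 0 < l) (hv : l ≤ v) : (∀ y, |g0 A l v y| ≤ 1) ∧
    (∀ x y, |g0 A l v x - g0 A l v y| ≤ 2 / l * |x - y|) ∧ ∀ y, y ≤ A * l → g0 A l v y = 0 := by
  have hv0 : 0 < v := hl.trans_le hv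
  have h1 : ∀ y, |Real.exp (-(max y 0 / v))| ≤ 1 := fun y => by
    rw [abs_of_pos (Real.exp_pos _), Real.exp_le_one_iff, neg_nonpos]; positivity
  have h2 : ∀ y, |1 - th A l y| ≤ 1 := fun y => by
    rw [abs_of_nonneg (th_c A l y).1]; exact (th_c A l y).2
  refine ⟨fun y => ?_, fun x y => ?_, fun y hy => by rw [g0, th_one hl hy, sub_self, mul_zero]⟩
  · rw [g0, abs_mul]; exact mul_le_one₀ (h1 y) (abs_nonneg _) (h2 y)
  · refine (lip_mul (L := 1 / l) (M := 1 / l) h1 h2 (fun x y => ?_) (fun x y => ?_) x y).trans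
      (le_of_eq (by ring))
    · refine (exp_lip (by positivity) (by positivity)).trans ?_
      rw [← sub_div, abs_div, abs_of_pos hv0, one_div_mul_eq_div]
      exact div_le_div₀ (abs_nonneg _) (abs_max_sub_max_le_abs _ _ _) hl hv
    · rw [sub_sub_sub_cancel_left]
      refine (cl_lip _ _).trans (le_of_eq ?_)
      rw [sub_sub_sub_cancel_left, ← sub_div, abs_div, abs_of_pos hl, one_div_mul_eq_div]

section
variable {C l T T0 K A η v : ℝ} {z N : ℕ} (hC : 1 ≤ C) (hR : RSz C z) (hz : 2 ≤ z)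
  (hVB : VB) (hl : l = Real.log z) (hT : T = Real.exp (l / 40)) (hT0 : T0 = K / l) (hK : 2 ≤ K)
  (hKl : K ≤ l) (hl3 : 3 ≤ l) (hA : 1 ≤ A) (hη : l ≤ η * T) (hv : l ≤ v)
  (hN : ∀ m : ℕ, N < m → v + 1 / T0 ≤ Real.log m)
include hC hR hz hVB hl hT hT0 hK hKl hl3 hA hη hv hN

theorem type_be : ∀ w ≤ v, |D (1 + 1 / v) (fun y => tr T y + -1 * tr T0 y) N
    (cut (be z) fun y => 1 - th A l y) w| ≤
      1 * ((4 * C * Real.exp (-2 * A) + 12 / K + 4 * C * η) / l) := by
  have hl0 : 0 < l := by linarith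
  obtain ⟨h1, h2, h3⟩ := g0_facts (A := A) hl0 hv
  refine typeI (by linarith) hR hz hVB hl hT hT0 (by linarith) hKl hl3 hA hη hN zero_le_one h1
    (fun x y => (h2 x y).trans (by gcongr; norm_num)) h3 fun n hn => ?_
  rw [cut_apply, rpow_split (mem_Ioc.1 hn).1, be_apply, g0]
  split_ifs with h
  · have : n = 1 := by have := (mem_Ioc.1 hn).1; omega
    rw [this, Nat.cast_one, Real.log_one, th_one hl0 (by positivity)]; simp
  · ring

theorem type_Lg (hN' : ∀ n ∈ Ioc 0 N, Real.log n ≤ 2 * v) : ∀ w ≤ v,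
    |D (1 + 1 / v) (fun y => tr T y + -1 * tr T0 y) N (cut (Lg z) fun y => 1 - th A l y) w| ≤
      2 * v * ((4 * C * Real.exp (-2 * A) + 12 / K + 4 * C * η) / l) := by
  have hl0 : 0 < l := by linarith
  have hv0 : 0 < v := by linarith
  obtain ⟨h1, h2, h3⟩ := g0_facts (A := A) hl0 hv
  have h4 : ∀ y, |cl (y / (2 * v))| ≤ 1 := fun y => by
    rw [abs_of_nonneg (cl_mem _).1]; exact (cl_mem _).2
  refine typeI (g := fun y => cl (y / (2 * v)) * g0 A l v y) (by linarith) hR hz hVB hl hT hT0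
    (by linarith) hKl hl3 hA hη hN (by positivity)
    (fun y => by rw [abs_mul]; exact mul_le_one₀ (h4 y) (abs_nonneg _) (h1 y))
    (fun x y => ?_) (fun y hy => by rw [h3 y hy, mul_zero]) fun n hn => ?_
  · refine (lip_mul (L := 1 / l) h4 h1 (fun x y => (cl_lip _ _).trans ?_) h2 x y).trans
      (le_of_eq (by ring))
    rw [← sub_div, abs_div, abs_of_pos (a := 2 * v) (by positivity), one_div_mul_eq_div]
    exact div_le_div_of_nonneg_left (abs_nonneg _) hl0 (by linarith)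
  · rw [cut_apply, rpow_split (mem_Ioc.1 hn).1, Lg_apply, g0, cl_self
      (div_nonneg (Real.log_natCast_nonneg n) (by positivity))
      ((div_le_one (by positivity)).2 (hN' n hn))]
    field_simp

omit hA in
theorem q_bound {M : ℝ} (hη1 : η ≤ 1) (hAv : (A + 1) * l ≤ v) (hM : Ms (1 + 1 / v) (rough z) M) :
    ∑ k ∈ Ioc 0 N, cut (be z) (th A l) k * (k : ℝ) ^ (-(1 + 1 / v)) *
      D (1 + 1 / v) (fun y => tr T y + 1 * tr T0 y) N (cut (be z) (th A l)) (Real.log k) ≤
        M * (12 * C / l) := by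
  have hl0 : 0 < l := by linarith
  have hv0 : 0 < v := by linarith
  have h1 : 1 ≤ T := hT ▸ Real.one_le_exp (by positivity)
  have h2 : 0 < T0 := by rw [hT0]; positivity
  have h3 : T0 ≤ T := by rw [hT0]; exact ((div_le_one hl0).2 hKl).trans h1
  have h4 := zpow_le hz hl hT (le_refl (1 / 2)) hη
  have hb : ∀ n, 0 ≤ cut (be z) (th A l) n ∧ cut (be z) (th A l) n ≤ rough z n := fun n =>
    ⟨mul_nonneg (be_nonneg z n) (cl_mem _).1,
      (mul_le_of_le_one_right (be_nonneg z n) (cl_mem _).2).trans (be_le z n)⟩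
  have key : ∀ w T', l ≤ w → w ≤ v → T0 ≤ T' → T' ≤ T →
      ∑ m ∈ Ioc 0 N, rough z m * (1 * tr T' (Real.log m - w)) / m ≤ 6 * C / l := by
    intro w T' h5 h5' h6 h7
    have h8 : 1 / T' ≤ 1 / T0 := one_div_le_one_div_of_le h2 h6
    have h9 : 1 / T0 ≤ l / 2 := by
      rw [hT0, one_div_div]; exact div_le_div_of_nonneg_left hl0.le two_pos hK
    have h10 := rs1 (w := w) (g := fun _ => 1) (N := N) (by linarith) hR (hl ▸ hl0) (hVB z hz).1
      (hVB z hz).2 (le_refl (1 / 2)) h1 (h2.trans_le h6) h7 le_rfl zero_le_one (by simp) (by simp)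
      (fun y hy => by
        rw [← hl] at hy
        rw [tr_zero (h2.trans_le h6) (le_trans (by linarith) (neg_le_abs _)), mul_zero])
      fun m hm => by linarith [hN m hm]
    have h11 : V z * (1 * ∫ y, tri y) ≤ 1 / l * 2 := by
      rw [one_mul]
      exact mul_le_mul (hl ▸ (hVB z hz).2) tri_integral tri_integral_nonneg (by positivity)
    have h12 := mul_le_mul_of_nonneg_left (h4.trans (div_le_div_of_nonneg_right hη1 hl0.le))
      (show 0 ≤ 2 * C by positivity)
    have h13 : 2 * C * Real.exp (-2 * (1 / 2)) / l ≤ 2 * C * (1 / l) := by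
      rw [mul_div_assoc]
      gcongr
      exact Real.exp_le_one_iff.2 (by norm_num)
    have h14 : 1 / l ≤ C * (1 / l) := le_mul_of_one_le_left (by positivity) hC
    rw [← hl, mul_zero, zero_div, add_zero] at h10
    have := (abs_le.1 h10).2
    rw [show 6 * C / l = 6 * (C * (1 / l)) by ring]
    linarith
  refine le_trans (sum_le_sum fun k hk => ?_) ((sum_mul _ _ _).symm.le.trans
    (mul_le_mul_of_nonneg_right (hM.sum_le (Ioc 0 N)) (by positivity)))
  rw [abs_of_nonneg (rough_nonneg z k)]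
  by_cases h0 : cut (be z) (th A l) k = 0
  · rw [h0, zero_mul, zero_mul]
    exact mul_nonneg (mul_nonneg (rough_nonneg z k) (by positivity)) (by positivity)
  have h5 : Real.log k ≤ v := (Up.cut (fun x hx => th_zero hl0 hx) k h0).trans hAv
  have h6 : l ≤ Real.log k := by
    have := left_ne_zero_of_mul h0
    rw [be_apply] at this
    split_ifs at this with h
    · exact absurd rfl this
    · rw [hl]
      exact Real.log_le_log (by positivity) (by exact_mod_cast (rough_lt this (by omega)).le)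
  have h7 : D (1 + 1 / v) (fun y => tr T y + 1 * tr T0 y) N (cut (be z) (th A l)) (Real.log k) ≤
      12 * C / l := by
    refine le_trans ?_ ((add_le_add (key _ T h6 h5 h3 le_rfl) (key _ T0 h6 h5 le_rfl h3)).trans
      (le_of_eq (by ring)))
    rw [← sum_add_distrib]
    refine sum_le_sum fun n hn => ?_
    have a1 := tr_nonneg (h2.trans_le h3) (Real.log n - Real.log k)
    have a2 := tr_nonneg h2 (Real.log n - Real.log k)
    have a3 : (n : ℝ) ^ (-(1 + 1 / v)) ≤ 1 / n := by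
      rw [rpow_split (mem_Ioc.1 hn).1]
      gcongr
      rw [Real.exp_le_one_iff, neg_nonpos]; positivity
    refine (mul_le_mul (hb n).2 (mul_le_mul_of_nonneg_right a3 (by linarith))
      (mul_nonneg (by positivity) (by linarith)) (rough_nonneg z n)).trans (le_of_eq (by ring))
  exact (mul_le_mul_of_nonneg_left h7 (mul_nonneg (hb k).1 (by positivity))).trans
    (mul_le_mul_of_nonneg_right (mul_le_mul_of_nonneg_right (hb k).2 (by positivity))
      (by positivity))

end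

/-- the pointwise bound at a fixed level -/
def PWz (c C : ℝ) (z : ℕ) : Prop :=
  ∀ v y0 K1 t : ℝ, 2 / c * Real.log z ≤ v → 0 ≤ y0 → 4 ≤ K1 → K1 / Real.log z ≤ |t| →
    |t| ≤ (z : ℝ) ^ (1 / 10 : ℝ) / 8 →
    ‖LSeries (fun n => ((rough z n * Λ n * max (Real.log n - y0) 0 : ℝ) : ℂ))
        (((1 + 1 / v : ℝ) : ℂ) + t * Complex.I)‖
      ≤ C * (Real.log z ^ 2 * Real.exp (-c * y0 / Real.log z) + Real.log z * v / K1)

theorem p_bound {c C l T u v K1 : ℝ} {z : ℕ} (hc : 0 < c) (hC : 0 ≤ C) (hP : PWz c C z)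
    (hz : 2 ≤ z) (hl : l = Real.log z) (hT : T = Real.exp (l / 40)) (hT8 : 8 ≤ T) (hv : v = u * l)
    (hu : 2 / c ≤ u) (hK1 : 4 ≤ K1) (t : ℝ) (h1 : K1 / l ≤ |t|) (h2 : |t| ≤ T ^ 3) :
    ‖LL (1 + 1 / v) (cut (Lam z) fun y => cl ((y - v / 2) / l)) t‖ ≤
      2 * C * l * (Real.exp (-c * u / 2) + u / K1) := by
  have hz' : (1 : ℝ) < z := by exact_mod_cast hz
  have hl0 : 0 < l := hl ▸ Real.log_pos hz'
  have hu0 : 0 < u := lt_of_lt_of_le (by positivity) hu
  have hv0 : 0 < v := by rw [hv]; positivity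
  have hσ : 1 < 1 + 1 / v := by simpa using hv0
  have h3 : |t| ≤ (z : ℝ) ^ (1 / 10 : ℝ) / 8 := by
    have : (z : ℝ) ^ (1 / 10 : ℝ) = T ^ 4 := by
      rw [Real.rpow_def_of_pos (by linarith), ← hl, hT, ← Real.exp_nat_mul]; congr 1; push_cast; ring
    rw [this, le_div_iff₀ (by norm_num), pow_succ T 3]
    exact mul_le_mul h2 hT8 (by norm_num) (by positivity)
  have key : ∀ y0, v / 2 ≤ y0 → LSeriesSummable (fun n => ((rough z n * Λ n *
      max (Real.log n - y0) 0 : ℝ) : ℂ)) (((1 + 1 / v : ℝ) : ℂ) + t * Complex.I) ∧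
      ‖LL (1 + 1 / v) (fun n => rough z n * Λ n * max (Real.log n - y0) 0) t‖ ≤
        C * (l * (l * (Real.exp (-c * u / 2) + u / K1))) := by
    intro y0 hy
    refine ⟨(sm_iff (by linarith) t).2 (summ_log hσ fun n => ?_), (hP v y0 K1 t
      (by rw [← hl, hv]; gcongr) (by linarith) hK1 (hl ▸ h1) h3).trans ?_⟩
    · have a1 := Real.log_natCast_nonneg n
      rw [abs_of_nonneg (mul_nonneg (mul_nonneg (rough_nonneg z n) vonMangoldt_nonneg)
        (le_max_right _ _)), sq]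
      exact mul_le_mul ((mul_le_of_le_one_left vonMangoldt_nonneg (rough_le z n)).trans
        vonMangoldt_le_log) (max_le (by linarith) a1) (le_max_right _ _) a1
    · rw [← hl]
      refine mul_le_mul_of_nonneg_left ?_ hC
      have : Real.exp (-c * y0 / l) ≤ Real.exp (-c * u / 2) := by
        rw [Real.exp_le_exp, div_le_iff₀ hl0]; nlinarith
      rw [hv, mul_add, mul_add, ← mul_assoc l l, ← sq]
      exact add_le_add (by gcongr) (le_of_eq (by ring))
  obtain ⟨a1, a2⟩ := key (v / 2) le_rfl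
  obtain ⟨a3, a4⟩ := key (v / 2 + l) (by linarith)
  have e : (fun n : ℕ => ((cut (Lam z) (fun y => cl ((y - v / 2) / l)) n : ℝ) : ℂ)) =
      ((l⁻¹ : ℝ) : ℂ) • ((fun n : ℕ => ((rough z n * Λ n * max (Real.log n - v / 2) 0 : ℝ) : ℂ)) -
        fun n : ℕ => ((rough z n * Λ n * max (Real.log n - (v / 2 + l)) 0 : ℝ) : ℂ)) := by
    ext n
    rw [Pi.smul_apply, Pi.sub_apply, smul_eq_mul, ← Complex.ofReal_sub, ← Complex.ofReal_mul,
      cut_apply, Lam_apply, cl_eq, show (Real.log n - v / 2) / l - 1 =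
        (Real.log n - (v / 2 + l)) / l by field_simp; ring]
    have : ∀ x : ℝ, max (x / l) 0 = max x 0 / l := fun x => by
      rw [← max_div_div_right hl0.le, zero_div]
    rw [this, this]; congr 1; ring
  unfold LL at a2 a4 ⊢
  rw [e, LSeries_smul, LSeries_sub a1 a3, norm_mul, Complex.norm_real, Real.norm_eq_abs,
    abs_of_pos (inv_pos.2 hl0), inv_mul_le_iff₀ hl0]
  refine (norm_sub_le _ _).trans ((add_le_add a2 a4).trans (le_of_eq (by ring)))

theorem bound {c C l T T0 K K1 A η u v : ℝ} {z N : ℕ} (hC : 1 ≤ C) (hR : RSz C z) (hz : 2 ≤ z)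
    (hVB : VB) (hFJ : FJ) (hc : 0 < c) (hP : PWz c C z) (hl : l = Real.log z)
    (hT : T = Real.exp (l / 40)) (hT0 : T0 = K / l) (hK : 2 ≤ K) (hKl : K ≤ l) (hl3 : 3 ≤ l)
    (hA : 1 ≤ A) (hη : l ≤ η * T) (hη1 : η ≤ 1) (hT8 : 8 ≤ T) (hv : v = u * l) (hu : 2 / c ≤ u)
    (huA : 4 * A + 8 ≤ u) (hK1 : 4 ≤ K1) (hN : ∀ m : ℕ, N < m → v + l ≤ Real.log m)
    (hN' : ∀ n ∈ Ioc 0 N, Real.log n ≤ 2 * v) (hΛ : Ms (1 + 1 / v) Λ (C * v))
    (hM : Ms (1 + 1 / v) (rough z) (2 * u)) :
    |D (1 + 1 / v) (fun y => tr T y + -1 * tr T0 y) N (Lam z) v| ≤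
      11 * C * u ^ 2 * (4 * C * Real.exp (-2 * A) + 12 / K + 4 * C * η) +
        (4 * C * K1 ^ 2 * u ^ 3 / K + 48 * C ^ 2 * u * (Real.exp (-c * u / 2) + u / K1) +
          16 * C * u ^ 3 * η) := by
  have hl0 : 0 < l := by linarith
  have hlv : l ≤ v := by rw [hv]; nlinarith
  have hv0 : 0 < v := by linarith
  have h2 : 0 < T0 := by rw [hT0]; positivity
  have h3 : T0 ≤ T := by rw [hT0]; exact ((div_le_one hl0).2 hKl).trans (by linarith)
  have h4 : 1 / T0 ≤ l / 2 := by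
    rw [hT0, one_div_div]; exact div_le_div_of_nonneg_left hl0.le two_pos hK
  have hom : ∀ y, l / 2 ≤ |y| → tr T y + -1 * tr T0 y = 0 := fun y hy => by
    rw [tr_zero h2 (h4.trans hy), tr_zero (by linarith)
      ((one_div_le_one_div_of_le h2 h3).trans (h4.trans hy))]; simp
  have hN1 : ∀ m : ℕ, N < m → v + 1 / T0 ≤ Real.log m := fun m hm => by linarith [hN m hm]
  have hN2 : ∀ m : ℕ, N < m → ∀ w ≤ v, tr T (Real.log m - w) + -1 * tr T0 (Real.log m - w) = 0 :=
    fun m hm w hw => hom _ (le_trans (by linarith [hN m hm]) (le_abs_self _))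
  have t1 := type_be hC hR hz hVB hl hT hT0 hK hKl hl3 hA hη hlv hN1
  have t2 := type_Lg hC hR hz hVB hl hT hT0 hK hKl hl3 hA hη hlv hN1 hN'
  have hAv : (A + 1) * l ≤ v := by rw [hv]; nlinarith
  have t3 := q_bound hC hR hz hVB hl hT hT0 hK hKl hl3 hη hlv hN1 hη1 hAv hM
  have t4 := p_bound hc (by linarith) hP hz hl hT hT8 hv hu hK1
  generalize hε : 4 * C * Real.exp (-2 * A) + 12 / K + 4 * C * η = ε at t1 t2 ⊢
  have hε0 : 0 ≤ ε := by
    have := (abs_nonneg _).trans (t1 v le_rfl)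
    rw [one_mul, le_div_iff₀ hl0, zero_mul] at this; exact this
  have m1 : Ms (1 + 1 / v) (be z) (2 * u) := by simpa using hM.mono zero_le_one (be_abs z)
  have m2 : Ms (1 + 1 / v) (cut (be z) (th A l)) (2 * u) := by
    simpa using m1.mono zero_le_one (cut_abs (φ := th A l) fun y => cl_mem _)
  have m3 : Ms (1 + 1 / v) (Lam z) (C * v) := by simpa using hΛ.mono zero_le_one (Lam_abs z)
  have m4 : Ms (1 + 1 / v) (cut (Lam z) fun y => cl ((y - v / 2) / l)) (C * v) := by
    simpa using m3.mono zero_le_one (cut_abs fun y => cl_mem _)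
  have u1 : ∀ f, Up (cut f (th A l)) ((A + 1) * l) := fun f => Up.cut fun x hx => th_zero hl0 hx
  have m5 : Ms (1 + 1 / v) (cut (Lg z) (th A l)) ((A + 1) * l * (2 * u)) := by
    refine hM.mono (by positivity) fun n => ?_
    by_cases h0 : cut (Lg z) (th A l) n = 0
    · rw [h0, abs_zero]; positivity
    refine (cut_abs (fun y => cl_mem _) n).trans ?_
    rw [one_mul, Lg_apply, abs_mul, mul_comm, abs_of_nonneg (Real.log_natCast_nonneg n)]
    exact mul_le_mul_of_nonneg_right (u1 _ n h0) (abs_nonneg _)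
  have u2 : Up (cut (Lam z) fun y => 1 - cl ((y - v / 2) / l)) (v / 2 + l) :=
    Up.cut fun x hx => by rw [cl_one ((one_le_div hl0).2 (by linarith)), sub_self]
  have hz0 : ∀ {f : ArithmeticFunction ℝ} {y : ℝ}, Up f y → y ≤ v - l / 2 →
      D (1 + 1 / v) (fun y => tr T y + -1 * tr T0 y) N f v = 0 := fun hf hy =>
    hf.D_zero fun x hx => hom _ (le_trans (by linarith) (neg_le_abs _))
  have hul : (4 * A + 8) * l ≤ v := by rw [hv]; gcongr
  have hAl : 0 ≤ A * l := by positivity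
  have z1 := hz0 (u1 (Lg z)) (by linarith)
  have z2 := hz0 ((u1 (Lg z)).mul (u1 (be z))) (by linarith)
  have z3 := hz0 ((u2.mul (u1 (be z))).mul (u1 (be z))) (by linarith)
  obtain ⟨S, -, s0, s1, s2, s3, s4⟩ := hFJ
  have t5 := fourier_term (by positivity) s1 s2 s3 (fun T hT => ⟨s0.comp_div hT.ne', fun w => by
    rw [s4 T hT w, tr, mul_assoc]⟩) h2 h3 (show 0 < K1 / l by positivity)
    (by have : 0 ≤ u := by linarith
        positivity) m4 m2
    (fun n hn => by
      by_contra h0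
      linarith [u1 _ n h0, hN n hn]) (fun n hn => hN2 n hn v le_rfl) t4 t3
  have d1 := D_mul_le m1 t2 hN2 v le_rfl
  have d2 := D_mul_le m5 t1 hN2 v le_rfl
  have d3 := D_mul_le m3 (D_mul_le m1 t1 hN2) hN2 v le_rfl
  have d4 := D_mul_le m3 (D_mul_le m2 t1 hN2) hN2 v le_rfl
  have d5 := t2 v le_rfl
  have e1 := Lam_mul z
  have e2 := cut_add (Lg z) (th A l)
  have e3 := cut_add (be z) (th A l)
  have e4 := cut_add (Lam z) fun y => cl ((y - v / 2) / l)
  generalize cut (Lg z) (th A l) = L1 at *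
  generalize (cut (Lg z) fun y => 1 - th A l y) = L2 at *
  generalize cut (be z) (th A l) = b1 at *
  generalize (cut (be z) fun y => 1 - th A l y) = b2 at *
  generalize (cut (Lam z) fun y => cl ((y - v / 2) / l)) = Lc at *
  generalize (cut (Lam z) fun y => 1 - cl ((y - v / 2) / l)) = Ld at *
  have e5 : Lam z + be z * L2 + L1 * b2 + L1 * b1 = L2 + Lam z * (be z * b2) + Lam z * (b1 * b2) +
      Lc * b1 * b1 + L1 + Ld * b1 * b1 := by
    linear_combination (1 - be z) * e1 + (1 - be z) * e2 + (Lam z * (be z + b1) - L1) * e3 +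
      b1 * b1 * e4
  have e6 := congrArg (fun f => D (1 + 1 / v) (fun y => tr T y + -1 * tr T0 y) N f v) e5
  simp only [D_add] at e6
  have f1 : 2 * v * (ε / l) = 2 * (u * ε) := by rw [hv]; field_simp
  have f2 : (A + 1) * l * (2 * u) * (1 * (ε / l)) = 2 * (A + 1) * (u * ε) := by field_simp
  have f3 : C * v * (2 * u * (1 * (ε / l))) = 2 * C * u * (u * ε) := by rw [hv]; field_simp
  have f4 : (K1 / l) ^ 2 / T0 * (C * v * (2 * u) ^ 2) = 4 * C * K1 ^ 2 * u ^ 3 / K := by
    rw [hv, hT0]; field_simp; ring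
  have f5 : 2 * C * l * (Real.exp (-c * u / 2) + u / K1) * (2 * u * (12 * C / l)) =
      48 * C ^ 2 * u * (Real.exp (-c * u / 2) + u / K1) := by field_simp; ring
  have hu0 : 1 ≤ u := by linarith
  have f6 : 4 / T * (C * v * (2 * u) ^ 2) ≤ 16 * C * u ^ 3 * η := by
    rw [hv, show 4 / T * (C * (u * l) * (2 * u) ^ 2) = 16 * C * u ^ 3 * (l / T) by ring]
    exact mul_le_mul_of_nonneg_left ((div_le_iff₀ (by linarith)).2 hη) (by positivity)
  rw [f1] at d1 d5
  rw [f2] at d2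
  rw [f3] at d3 d4
  rw [f4, f5] at t5
  have g1 : 0 ≤ u * ε := by positivity
  have g2 : 2 + 4 * u + 2 * (A + 1) + 4 * C * u ≤ 11 * C * u := by nlinarith
  have g3 := mul_le_mul_of_nonneg_right g2 g1
  rw [abs_le] at d1 d2 d3 d4 d5 t5 ⊢
  constructor <;> linarith

end Pool.Agent.H55.Hoh
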