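import Pool.Agent.H55.SelHoh4
import Pool.Agent.H55.PNT

/-! Hoheisel assembly, part 5: main term, choice of parameters, conclusion. -/

set_option autoImplicit false
open MeasureTheory Finset Filter Topology Pool.Agent.Lead.Sel ArithmeticFunction Chebyshev

namespace Pool.Agent.H55.Hoh

noncomputable def lp (n : ℕ) : ℝ := if n.Prime then Real.log n else 0

theorem lp_nonneg (n : ℕ) : 0 ≤ lp n := by
  unfold lp; split_ifs
  · exact Real.log_natCast_nonneg n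
  · rfl

theorem theta_lp (x : ℝ) : θ x = ∑ n ∈ Ioc 0 ⌊x⌋₊, lp n := by rw [theta, sum_filter]; rfl

theorem log_four : Real.log 4 ≤ 2 := by
  rw [show (4 : ℝ) = 2 ^ 2 by norm_num, Real.log_pow]
  have := Real.log_two_lt_d9; push_cast; linarith

theorem blocks : ∃ y0 : ℝ, ∀ y, y0 ≤ y → 0 < y → ∀ J : ℕ,
    (J : ℝ) / 4 ≤ ∑ n ∈ Ioc ⌊y⌋₊ ⌊4 ^ J * y⌋₊, lp n / n := by
  obtain ⟨y0, h0⟩ := eventually_atTop.1
    (PNT.theta_pnt.eventually (lt_mem_nhds (show (3 / 4 : ℝ) < 1 by norm_num)))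
  refine ⟨y0, fun y hy hy0 J => ?_⟩
  induction J with
  | zero => simp
  | succ J ih =>
    have h1 : y ≤ 4 ^ J * y := le_mul_of_one_le_left hy0.le (one_le_pow₀ (by norm_num))
    rw [pow_succ, mul_comm _ (4 : ℝ), mul_assoc]
    generalize 4 ^ J * y = x at ih h1
    have hx : 0 < x := by linarith
    have h2 : ⌊x⌋₊ ≤ ⌊4 * x⌋₊ := Nat.floor_mono (by linarith)
    rw [← sum_Ioc_consecutive _ (Nat.floor_mono h1) h2]
    have h3 := (lt_div_iff₀ (by linarith)).1 (h0 (4 * x) (by linarith))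
    have h4 := (theta_le_log4_mul_x hx.le).trans (mul_le_mul_of_nonneg_right log_four hx.le)
    rw [theta_lp, ← sum_Ioc_consecutive _ (Nat.zero_le _) h2, ← theta_lp] at h3
    have h5 : (∑ n ∈ Ioc ⌊x⌋₊ ⌊4 * x⌋₊, lp n) / (4 * x) ≤ ∑ n ∈ Ioc ⌊x⌋₊ ⌊4 * x⌋₊, lp n / n := by
      rw [sum_div]
      refine sum_le_sum fun n hn => div_le_div_of_nonneg_left (lp_nonneg n) ?_ ?_
      · exact_mod_cast lt_of_le_of_lt (Nat.zero_le _) (mem_Ioc.1 hn).1
      · exact (Nat.le_floor_iff (by linarith)).1 (mem_Ioc.1 hn).2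
    have h6 : 1 / 4 ≤ (∑ n ∈ Ioc ⌊x⌋₊ ⌊4 * x⌋₊, lp n) / (4 * x) := by
      rw [le_div_iff₀ (by linarith)]; linarith
    push_cast; linarith

theorem Lam_nonneg (z n : ℕ) : 0 ≤ Lam z n := mul_nonneg (rough_nonneg z n) vonMangoldt_nonneg

theorem main_term : ∃ v0 : ℝ, ∀ (v T0 : ℝ) (z N : ℕ), v0 ≤ v → 0 < T0 → 8 ≤ 1 / T0 → 1 / T0 ≤ v →
    z ≤ ⌊Real.exp v⌋₊ → ⌊Real.exp (v + 1 / T0)⌋₊ ≤ N →
    Real.exp (-2) / 64 ≤ D (1 + 1 / v) (tr T0) N (Lam z) v := by
  obtain ⟨y0, h0⟩ := blocks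
  refine ⟨y0, fun v T0 z N h1 h2 h3 h4 h5 h6 => ?_⟩
  have hv : 0 < v := by linarith
  set J := ⌊1 / T0 / 4⌋₊ with hJ
  have j1 : (J : ℝ) ≤ 1 / T0 / 4 := Nat.floor_le (by positivity)
  have j2 : 1 / T0 / 4 < J + 1 := Nat.lt_floor_add_one _
  have j3 : (4 : ℝ) ^ J * Real.exp v ≤ Real.exp (v + 1 / T0 / 2) := by
    rw [Real.exp_add, mul_comm]
    refine mul_le_mul_of_nonneg_left ?_ (Real.exp_pos _).le
    rw [← Real.exp_log (show (0 : ℝ) < 4 by norm_num), ← Real.exp_nat_mul, Real.exp_le_exp]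
    nlinarith [log_four]
  have k := h0 (Real.exp v) (by linarith [Real.add_one_le_exp v]) (Real.exp_pos v) J
  have k2 : Real.exp (-2) / 64 ≤ Real.exp (-2) * (T0 / 2) * (J / 4) := by
    have : 1 / 8 ≤ T0 * J := by
      have e : T0 * (1 / T0) = 1 := by field_simp
      nlinarith
    nlinarith [Real.exp_pos (-2)]
  refine k2.trans ((mul_le_mul_of_nonneg_left k (by positivity)).trans ?_)
  rw [mul_sum]
  refine le_trans (sum_le_sum fun n hn => ?_) (sum_le_sum_of_subset_of_nonneg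
    (Ioc_subset_Ioc (Nat.zero_le _) ((Nat.floor_mono (j3.trans (Real.exp_le_exp.2
      (by linarith)))).trans h6)) fun n _ _ =>
      mul_nonneg (Lam_nonneg z n) (mul_nonneg (by positivity) (tr_nonneg h2 _)))
  obtain ⟨a1, a2⟩ := mem_Ioc.1 hn
  have a3 : 0 < n := lt_of_le_of_lt (Nat.zero_le _) a1
  have a4 : (0 : ℝ) < n := by exact_mod_cast a3
  have a5 : v ≤ Real.log n := (Real.le_log_iff_exp_le a4).2 (Nat.lt_of_floor_lt a1).le
  have a6 : Real.log n ≤ v + 1 / T0 / 2 :=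
    (Real.log_le_iff_le_exp a4).2 (((Nat.le_floor_iff (by positivity)).1 a2).trans j3)
  by_cases hp : n.Prime
  · rw [lp, if_pos hp, Lam_apply, rough_prime hp (by omega), vonMangoldt_apply_prime hp,
      rpow_split a3, one_mul, max_eq_left (by linarith)]
    have b1 : Real.exp (-2) ≤ Real.exp (-(Real.log n / v)) := by
      rw [Real.exp_le_exp, neg_le_neg_iff, div_le_iff₀ hv]; linarith
    have b2 : T0 / 2 ≤ tr T0 (Real.log n - v) := by
      rw [tr, div_eq_mul_one_div]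
      refine mul_le_mul_of_nonneg_left (le_trans ?_ (le_max_left _ _)) h2.le
      rw [abs_of_nonneg (mul_nonneg h2.le (by linarith))]
      have e : T0 * (1 / T0) = 1 := by field_simp
      nlinarith
    have b3 := mul_le_mul b1 b2 (by positivity) (Real.exp_pos _).le
    refine (mul_le_mul_of_nonneg_right b3 (div_nonneg (by linarith) a4.le)).trans (le_of_eq ?_)
    ring
  · rw [lp, if_neg hp, zero_div, mul_zero]
    exact mul_nonneg (Lam_nonneg z n) (mul_nonneg (by positivity) (tr_nonneg h2 _))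

theorem upper {v T : ℝ} {z N a b : ℕ} (hv : 0 < v) (hT : 1 ≤ T)
    (h : ∀ n : ℕ, |Real.log n - v| < 1 / T → n ∈ Ioc a b) :
    D (1 + 1 / v) (tr T) N (Lam z) v ≤ Real.exp (1 - v) * T * ∑ n ∈ Ioc a b, Λ n := by
  have hT0 : 0 < T := by linarith
  have h1 : D (1 + 1 / v) (tr T) N (Lam z) v ≤
      ∑ n ∈ Ioc 0 N, if n ∈ Ioc a b then Real.exp (1 - v) * T * Λ n else 0 := by
    refine sum_le_sum fun n hn => ?_
    by_cases c : 1 / T ≤ |Real.log n - v|
    · rw [tr_zero hT0 c, mul_zero, mul_zero]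
      split_ifs
      · exact mul_nonneg (by positivity) vonMangoldt_nonneg
      · rfl
    rw [if_pos (h n (not_le.1 c)), mul_comm (_ * T)]
    have a3 := (mem_Ioc.1 hn).1
    have a4 : (0 : ℝ) < n := by exact_mod_cast a3
    refine mul_le_mul (mul_le_of_le_one_left vonMangoldt_nonneg (rough_le z n)) (mul_le_mul ?_
      (tr_le hT0 _) (tr_nonneg hT0 _) (Real.exp_pos _).le)
      (mul_nonneg (by positivity) (tr_nonneg hT0 _)) vonMangoldt_nonneg
    have a5 := (abs_lt.1 (not_le.1 c)).1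
    have a6 : 1 / T ≤ 1 := (div_le_one hT0).2 hT
    have a7 : 0 ≤ Real.log n * (1 / v) := mul_nonneg (Real.log_natCast_nonneg n) (by positivity)
    rw [Real.rpow_def_of_pos a4, Real.exp_le_exp]
    linarith
  refine h1.trans ?_
  rw [sum_ite_mem, mul_sum]
  exact sum_le_sum_of_subset_of_nonneg inter_subset_right fun n _ _ =>
    mul_nonneg (by positivity) vonMangoldt_nonneg

theorem small_pow (k : ℕ) {b X ε : ℝ} (hb : 0 < b) (hε : 0 < ε) :
    ∀ᶠ u : ℝ in atTop, X * (u ^ k * Real.exp (-b * u)) ≤ ε := by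
  have := (tendsto_rpow_mul_exp_neg_mul_atTop_nhds_zero k b hb).const_mul X
  simp only [Real.rpow_natCast, mul_zero] at this
  exact this.eventually (ge_mem_nhds hε)

theorem small_lin {b η : ℝ} (hb : 0 < b) (hη : 0 < η) :
    ∀ᶠ l : ℝ in atTop, l ≤ η * Real.exp (b * l) := by
  filter_upwards [small_pow 1 (X := 1) hb hη] with l hl
  rwa [one_mul, pow_one, neg_mul, Real.exp_neg, mul_inv_le_iff₀ (Real.exp_pos _)] at hl

theorem ex_div (X : ℝ) {ε : ℝ} (hε : 0 < ε) : ∃ K : ℝ, 4 ≤ K ∧ X / K ≤ ε := by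
  refine ⟨max 4 (X / ε), le_max_left _ _, ?_⟩
  rw [div_le_iff₀ (lt_of_lt_of_le (by norm_num) (le_max_left _ _)), mul_comm, ← div_le_iff₀ hε]
  exact le_max_right _ _

theorem params {c C δ : ℝ} (hc : 0 < c) (hC : 1 ≤ C) (hδ : 0 < δ) : ∃ u0 A K K1 η : ℝ,
    C ≤ u0 ∧ 2 / c ≤ u0 ∧ 1 ≤ A ∧ 4 * A + 8 ≤ u0 ∧ 2 ≤ K ∧ 4 ≤ K1 ∧ 0 < η ∧ η ≤ 1 ∧
    ∀ u, u0 ≤ u → u ≤ 2 * u0 →
      11 * C * u ^ 2 * (4 * C * Real.exp (-2 * A) + 12 / K + 4 * C * η) +
        (4 * C * K1 ^ 2 * u ^ 3 / K + 48 * C ^ 2 * u * (Real.exp (-c * u / 2) + u / K1) +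
          16 * C * u ^ 3 * η) ≤ 5 * δ := by
  obtain ⟨u0, h1, h2, h3, h4, h5⟩ := ((small_pow 2 (X := 176 * C ^ 2 * Real.exp 4)
    (show (0 : ℝ) < 1 / 2 by norm_num) hδ).and ((small_pow 1 (X := 96 * C ^ 2)
    (half_pos hc) hδ).and ((eventually_ge_atTop C).and ((eventually_ge_atTop (2 / c)).and
    (eventually_ge_atTop 12))))).exists
  obtain ⟨K1, h6, h7⟩ := ex_div (192 * C ^ 2 * u0 ^ 2) hδ
  obtain ⟨K, h8, h9⟩ := ex_div (528 * C * u0 ^ 2 + 32 * C * K1 ^ 2 * u0 ^ 3) hδ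
  obtain ⟨E, h10, h11⟩ := ex_div (176 * C ^ 2 * u0 ^ 2 + 128 * C * u0 ^ 3) hδ
  refine ⟨u0, u0 / 4 - 2, K, K1, 1 / E, h3, h4, by linarith, by linarith, by linarith, h6,
    by positivity, (div_le_one (by linarith)).2 (by linarith), fun u hu hu' => ?_⟩
  have hu0 : 0 < u := by linarith
  have e1 : Real.exp (-2 * (u0 / 4 - 2)) = Real.exp 4 * Real.exp (-(1 / 2) * u0) := by
    rw [← Real.exp_add]; congr 1; ring
  have e2 : Real.exp (-c * u / 2) ≤ Real.exp (-(c / 2) * u0) := by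
    rw [Real.exp_le_exp]; nlinarith
  calc _ ≤ 11 * C * (2 * u0) ^ 2 * (4 * C * Real.exp (-2 * (u0 / 4 - 2)) + 12 / K +
        4 * C * (1 / E)) + (4 * C * K1 ^ 2 * (2 * u0) ^ 3 / K + 48 * C ^ 2 * (2 * u0) *
        (Real.exp (-(c / 2) * u0) + 2 * u0 / K1) + 16 * C * (2 * u0) ^ 3 * (1 / E)) := by gcongr
    _ = 176 * C ^ 2 * Real.exp 4 * (u0 ^ 2 * Real.exp (-(1 / 2) * u0)) +
        96 * C ^ 2 * (u0 ^ 1 * Real.exp (-(c / 2) * u0)) + 192 * C ^ 2 * u0 ^ 2 / K1 +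
        (528 * C * u0 ^ 2 + 32 * C * K1 ^ 2 * u0 ^ 3) / K +
        (176 * C ^ 2 * u0 ^ 2 + 128 * C * u0 ^ 3) / E := by rw [e1]; ring
    _ ≤ 5 * δ := by linarith

theorem RSz.mono {C C' : ℝ} {z : ℕ} (h : RSz C z) (hC : C ≤ C') : RSz C' z := by
  intro a ha h' g H b h1 h2 h3 h4 h5 h6
  have a1 : ∀ y, 0 ≤ g y := fun y => (norm_nonneg _).trans (h1 y)
  have a2 : 0 ≤ H := (a1 0).trans (h2 0)
  have a3 : 0 ≤ ∫ y, g y := integral_nonneg a1
  have a4 := Real.log_natCast_nonneg z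
  exact (h a ha h' g H b h1 h2 h3 h4 h5 h6).trans (by gcongr)

theorem short (hRS : RS) (hVB : VB) (hZB : ZB) (hVM : VM) (hPW : PW) (hFJ : FJ) :
    ∃ u0 v0 : ℝ, 1 ≤ u0 ∧ ∀ v, v0 ≤ v → ∃ T, Real.exp (v / (80 * u0)) ≤ T ∧ T ≤ Real.exp (v / 40) ∧
      ∀ a b : ℕ, (∀ n : ℕ, |Real.log n - v| < 1 / T → n ∈ Ioc a b) →
        Real.exp (v - 3) / 128 ≤ T * ∑ n ∈ Ioc a b, Λ n := by
  obtain ⟨C1, -, z1, h1⟩ := hRS
  obtain ⟨C2, -, z2, h2⟩ := hZB
  obtain ⟨C3, -, h3⟩ := hVM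
  obtain ⟨c, hc, -, C4, -, z4, h4⟩ := hPW
  obtain ⟨v1, h5⟩ := main_term
  obtain ⟨C, hC, c1, c2, c3, c4⟩ : ∃ C : ℝ, 1 ≤ C ∧ C1 ≤ C ∧ C2 ≤ C ∧ C3 ≤ C ∧ C4 ≤ C :=
    ⟨max 1 (max C1 (max C2 (max C3 C4))), by simp⟩
  obtain ⟨u0, A, K, K1, η, p1, p2, p3, p4, p5, p6, p7, p8, p9⟩ :=
    params hc hC (show 0 < Real.exp (-2) / 640 by positivity)
  obtain ⟨l0, h6⟩ := eventually_atTop.1 ((small_lin (show (0 : ℝ) < 1 / 40 by norm_num) p7).and
    ((eventually_ge_atTop (8 * K)).and (eventually_ge_atTop ((z1 : ℝ) + z2 + z4 + 8))))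
  have hu0 : 0 < u0 := by linarith
  refine ⟨u0, max v1 (2 * u0 * max l0 1), by linarith, fun v hv => ?_⟩
  have a1 : max l0 1 ≤ v / (2 * u0) := by
    rw [le_div_iff₀ (by positivity), mul_comm]; exact (le_max_right _ _).trans hv
  have a2 : v / u0 = 2 * (v / (2 * u0)) := by field_simp
  have a3 : 1 ≤ v / (2 * u0) := (le_max_right _ _).trans a1
  set z := ⌊Real.exp (v / u0)⌋₊ with hz
  have a4 : Real.exp (v / (2 * u0)) ≤ z := by
    have b1 := Nat.lt_floor_add_one (Real.exp (v / u0))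
    have b2 := Real.add_one_le_exp (v / (2 * u0))
    rw [← hz, a2, two_mul, Real.exp_add] at b1
    nlinarith
  have a5 : (0 : ℝ) < z := (Real.exp_pos _).trans_le a4
  obtain ⟨l, hl⟩ : ∃ l, l = Real.log z := ⟨_, rfl⟩
  have a6 : v / (2 * u0) ≤ l := hl ▸ (Real.le_log_iff_exp_le a5).2 a4
  have a7 : l ≤ v / u0 := hl ▸ (Real.log_le_iff_le_exp a5).2 (Nat.floor_le (Real.exp_pos _).le)
  obtain ⟨b1, b2, b3⟩ := h6 l ((le_max_left _ _).trans (a1.trans a6))
  have a8 : l ≤ z := hl ▸ (Real.log_le_sub_one_of_pos a5).trans (by linarith)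
  have n1 : (0 : ℝ) ≤ z1 := Nat.cast_nonneg _
  have n2 : (0 : ℝ) ≤ z2 := Nat.cast_nonneg _
  have n4 : (0 : ℝ) ≤ z4 := Nat.cast_nonneg _
  have hz2 : 2 ≤ z := by exact_mod_cast (show (2 : ℝ) ≤ z by linarith)
  have hl0 : 0 < l := by linarith
  have hv0 : 0 < v := by by_contra h; have := div_nonpos_of_nonpos_of_nonneg (not_lt.1 h) hu0.le
                         linarith
  have a9 : v / u0 ≤ v := div_le_self hv0.le (by linarith)
  obtain ⟨T, hT⟩ : ∃ T, T = Real.exp (l / 40) := ⟨_, rfl⟩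
  rw [show 1 / 40 * l = l / 40 by ring, ← hT] at b1
  have hT0 : 0 < T := hT ▸ Real.exp_pos _
  have hT8 : 8 ≤ T := by nlinarith
  refine ⟨T, ?_, ?_, fun a b hab => ?_⟩
  · rw [hT, Real.exp_le_exp, show v / (80 * u0) = v / (2 * u0) / 40 by field_simp; ring]; linarith
  · rw [hT, Real.exp_le_exp]; linarith
  have u1 : u0 ≤ v / l := by rw [le_div_iff₀ hl0, mul_comm, ← le_div_iff₀ hu0]; exact a7
  have u2 : v / l ≤ 2 * u0 := by
    rw [div_le_iff₀ hl0, mul_comm, ← div_le_iff₀ (by positivity)]; exact a6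
  have s1 : 1 < 1 + 1 / v := by simpa using hv0
  have s2 : 1 + 1 / v ≤ 2 := by have := (div_le_one hv0).2 (show 1 ≤ v by linarith); linarith
  have hΛ : Ms (1 + 1 / v) Λ (C * v) := by
    obtain ⟨d1, d2⟩ := h3 _ s1 s2
    unfold Ms
    simp only [abs_of_nonneg vonMangoldt_nonneg]
    refine ⟨d1, d2.trans ?_⟩
    rw [add_sub_cancel_left, div_div_eq_mul_div, div_one]; gcongr
  have hM : Ms (1 + 1 / v) (rough z) (2 * (v / l)) := by
    unfold Ms
    simp only [abs_of_nonneg (rough_nonneg z _)]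
    refine ⟨Summable.of_nonneg_of_le (fun n => mul_nonneg (rough_nonneg z n) (by positivity))
      (fun n => mul_le_of_le_one_left (by positivity) (rough_le z n))
      (Real.summable_nat_rpow.2 (by linarith)), ((h2 z (by
        exact_mod_cast (show (z2 : ℝ) ≤ z by linarith))).2 _ s1 s2).trans ?_⟩
    rw [add_sub_cancel_left, ← hl, show 1 / (l * (1 / v)) = v / l by field_simp]; linarith
  have key := bound (N := ⌊Real.exp (v + l)⌋₊) hC (RSz.mono (h1 z (by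
      exact_mod_cast (show (z1 : ℝ) ≤ z by linarith))) c1) hz2 hVB hFJ hc
    (fun v y0 K1 t q1 q2 q3 q4 q5 => (h4 z (by exact_mod_cast (show (z4 : ℝ) ≤ z by linarith))
      v y0 K1 t q1 q2 q3 q4 q5).trans (mul_le_mul_of_nonneg_right c4 (by
        have : 0 ≤ v := le_trans (by rw [← hl]; positivity) q1
        rw [← hl]; positivity)))
    hl hT rfl p5 (by linarith) (by linarith) p3 b1 p8 hT8 (div_mul_cancel₀ v hl0.ne').symm
    (p2.trans u1) (p4.trans u1) p6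
    (fun m hm => (Real.le_log_iff_exp_le ((Real.exp_pos _).trans (Nat.lt_of_floor_lt hm))).2
      (Nat.lt_of_floor_lt hm).le)
    (fun n hn => ((Real.log_le_iff_le_exp (by exact_mod_cast (mem_Ioc.1 hn).1)).2
      ((Nat.le_floor_iff (Real.exp_pos _).le).1 (mem_Ioc.1 hn).2)).trans (by linarith)) hΛ hM
  have k1 := (abs_le.1 (key.trans (p9 _ u1 u2))).1
  have k2 : 8 ≤ 1 / (K / l) := by rw [one_div_div, le_div_iff₀ (by linarith)]; exact b2
  have k3 : 1 / (K / l) ≤ l := by rw [one_div_div]; exact div_le_self hl0.le (by linarith)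
  have k4 := h5 v (K / l) z ⌊Real.exp (v + l)⌋₊ ((le_max_left _ _).trans hv) (by positivity) k2
    (by linarith) (Nat.floor_mono (Real.exp_le_exp.2 a9))
    (Nat.floor_mono (Real.exp_le_exp.2 (by linarith)))
  have k5 := upper (z := z) (N := ⌊Real.exp (v + l)⌋₊) hv0 (by linarith) hab
  have k6 : D (1 + 1 / v) (fun y => tr T y + -1 * tr (K / l) y) ⌊Real.exp (v + l)⌋₊ (Lam z) v =
      D (1 + 1 / v) (tr T) ⌊Real.exp (v + l)⌋₊ (Lam z) v -
        D (1 + 1 / v) (tr (K / l)) ⌊Real.exp (v + l)⌋₊ (Lam z) v := by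
    unfold D; rw [← sum_sub_distrib]; exact sum_congr rfl fun n _ => by ring
  have k7 : Real.exp (-2) = Real.exp (1 - v) * Real.exp (v - 3) := by
    rw [← Real.exp_add]; congr 1; ring
  refine le_of_mul_le_mul_left ?_ (Real.exp_pos (1 - v))
  rw [← mul_div_assoc, ← k7, ← mul_assoc]; linarith

theorem hoh (hRS : RS) (hVB : VB) (hZB : ZB) (hVM : VM) (hPW : PW) (hFJ : FJ) : HOH := by
  obtain ⟨u0, v0, hu, h⟩ := short hRS hVB hZB hVM hPW hFJ
  obtain ⟨s0, h1⟩ := eventually_atTop.1 (small_lin (show (0 : ℝ) < 9 / 40 by norm_num)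
    (show 0 < Real.exp (-3) / 800 by positivity))
  refine ⟨⌈80 * u0⌉₊, fun L hL => ?_⟩
  have hL' : 80 * u0 ≤ L := Nat.ceil_le.1 hL
  obtain ⟨J, hJ⟩ := eventually_atTop.1 ((Real.tendsto_log_atTop.comp
    tendsto_natCast_atTop_atTop).eventually (eventually_ge_atTop (max 2 (max v0 s0))))
  refine ⟨J, fun j hj => ?_⟩
  have a0 : max 2 (max v0 s0) ≤ Real.log j := hJ j hj
  have a1 : 2 ≤ Real.log j := (le_max_left _ _).trans a0
  have a2 : (0 : ℝ) < j := by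
    rcases Nat.eq_zero_or_pos j with rfl | h0
    · norm_num at a1
    · exact_mod_cast h0
  have a2' : (1 : ℝ) ≤ j := by linarith [Real.log_le_sub_one_of_pos a2]
  obtain ⟨s, hs⟩ : ∃ s, s = L * Real.log j := ⟨_, rfl⟩
  obtain ⟨d, hd⟩ : ∃ d, d = Real.log (j + 1) - Real.log j := ⟨_, rfl⟩
  have a3 : Real.log j ≤ s := by rw [hs]; nlinarith
  have a4 : 1 / (j + 1) ≤ d ∧ d ≤ 1 := by
    rw [hd, ← Real.log_div (by linarith) a2.ne']
    have b1 := Real.one_sub_inv_le_log_of_pos (show 0 < ((j : ℝ) + 1) / j by positivity)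
    have b2 := Real.log_le_sub_one_of_pos (show 0 < ((j : ℝ) + 1) / j by positivity)
    have b3 : 1 - (((j : ℝ) + 1) / j)⁻¹ = 1 / (j + 1) := by field_simp; ring
    have b4 : ((j : ℝ) + 1) / j ≤ 2 := by rw [div_le_iff₀ a2]; linarith
    constructor <;> linarith
  have a5 : 0 < d := lt_of_lt_of_le (by positivity) a4.1
  have a6 : 0 ≤ L / 2 * d := by positivity
  obtain ⟨T, t1, t2, t3⟩ := h (s + L / 2 * d)
    (by linarith [(le_max_left v0 s0).trans ((le_max_right _ _).trans a0)])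
  have t4 : (j : ℝ) ≤ T := by
    refine le_trans ?_ t1
    rw [← Real.log_le_iff_le_exp a2, le_div_iff₀ (by positivity)]; nlinarith
  have t5 : 1 / T ≤ L / 2 * d := by
    refine (one_div_le_one_div_of_le a2 t4).trans (le_trans ?_
      (mul_le_mul (show (2 : ℝ) ≤ L / 2 by linarith) a4.1 (by positivity) (by positivity)))
    rw [mul_one_div, div_le_div_iff₀ a2 (by linarith)]; linarith
  have e1 : ((j ^ L : ℕ) : ℝ) = Real.exp s := by
    rw [hs, Real.exp_nat_mul, Real.exp_log a2, Nat.cast_pow]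
  have e2 : (((j + 1) ^ L : ℕ) : ℝ) = Real.exp (s + L * d) := by
    rw [hs, hd, ← mul_add, add_sub_cancel, Real.exp_nat_mul, Real.exp_log (by linarith)]
    push_cast; rfl
  have t6 := t3 (j ^ L) ((j + 1) ^ L) fun n hn => by
    obtain ⟨b1, b2⟩ := abs_lt.1 (hn.trans_le t5)
    have b3 : (0 : ℝ) < n := by
      rcases Nat.eq_zero_or_pos n with rfl | h0
      · rw [Nat.cast_zero, Real.log_zero] at b1; linarith
      · exact_mod_cast h0
    rw [mem_Ioc, ← Nat.cast_lt (α := ℝ), ← Nat.cast_le (α := ℝ), e1, e2,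
      ← Real.lt_log_iff_exp_lt b3, ← Real.log_le_iff_le_exp b3]
    constructor <;> linarith
  rw [← Nat.cast_pow, e1, ← Real.exp_mul]
  generalize j ^ L = a at *
  generalize (j + 1) ^ L = b at *
  by_contra hc
  push Not at hc
  have f1 : L * d ≤ s / 2 := by rw [hs]; nlinarith
  have f2 : Real.log b = s + L * d := by rw [e2, Real.log_exp]
  have f3 : ∑ n ∈ Ioc a b, Λ n ≤ Real.exp (s * (3 / 4)) * (2 * s) +
      2 * Real.exp (s * (3 / 4)) * (2 * s) := by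
    rw [← sum_filter_add_sum_filter_not _ Nat.Prime]
    refine add_le_add ((sum_le_card_nsmul _ _ (2 * s) fun p hp => ?_).trans ?_) ?_
    · obtain ⟨b1, b2⟩ := mem_filter.1 hp
      refine vonMangoldt_le_log.trans (le_trans (Real.log_le_log ?_ ?_) (f2.le.trans (by linarith)))
      · exact_mod_cast b2.pos
      · exact_mod_cast (mem_Ioc.1 b1).2
    · rw [nsmul_eq_mul]; exact mul_le_mul_of_nonneg_right hc.le (by linarith)
    · have b1 := psi_sub_theta_le (x := b) (e2 ▸ Real.one_le_exp (by linarith))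
      rw [psi_sub_theta_eq_sum_not_prime, Nat.floor_natCast, f2] at b1
      refine (sum_le_sum_of_subset_of_nonneg (filter_subset_filter _
        (Ioc_subset_Ioc (Nat.zero_le _) le_rfl)) fun _ _ _ => vonMangoldt_nonneg).trans
        (b1.trans (mul_le_mul (mul_le_mul_of_nonneg_left ?_ zero_le_two) (by linarith)
          (by linarith) (by positivity)))
      rw [e2, ← Real.exp_half, Real.exp_le_exp]; linarith
  have f4 := h1 s (by linarith [(le_max_right v0 s0).trans ((le_max_right _ _).trans a0)])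
  have f5 : s ≤ s + L / 2 * d := by linarith
  generalize s + L / 2 * d = v at t2 t6 f5
  have f6 : ∑ n ∈ Ioc a b, Λ n ≤ 6 * Real.exp (s * (3 / 4)) *
      (Real.exp (-3) / 800 * Real.exp (9 / 40 * s)) :=
    f3.trans (le_of_eq_of_le (by ring) (mul_le_mul_of_nonneg_left f4 (by positivity)))
  have f7 := t6.trans (mul_le_mul t2 f6 (sum_nonneg fun _ _ => vonMangoldt_nonneg)
    (Real.exp_pos _).le)
  have f8 : Real.exp (v / 40) * Real.exp (s * (3 / 4)) * Real.exp (-3) * Real.exp (9 / 40 * s) ≤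
      Real.exp (v - 3) := by
    rw [← Real.exp_add, ← Real.exp_add, ← Real.exp_add, Real.exp_le_exp]; linarith
  linarith [Real.exp_pos (v - 3)]

end Pool.Agent.H55.Hoh
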