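import Mathlib

namespace Pool.Agent.H55.Shuffle

/-- solutions of the negative Pell equation a^2 + 1 = 2 c^2 -/
def pell : ℕ → ℕ × ℕ
  | 0 => (7, 5)
  | n + 1 => (3 * (pell n).1 + 4 * (pell n).2, 2 * (pell n).1 + 3 * (pell n).2)

theorem pell_eq (n : ℕ) : (pell n).1 ^ 2 + 1 = 2 * (pell n).2 ^ 2 := by
  induction n with
  | zero => simp [pell]
  | succ n ih => simp only [pell]; nlinarith [ih]

theorem pell_ge (n : ℕ) : n + 5 ≤ (pell n).2 ∧ 7 ≤ (pell n).1 := by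
  induction n with
  | zero => simp [pell]
  | succ n ih => simp only [pell]; omega

theorem exists_big (N : ℕ) : ∃ a b c : ℕ, N < c ∧ 7 ≤ a ∧ 5 ≤ c ∧ a < b ∧ c < b ∧
    a ^ 2 + 1 = 2 * c ^ 2 ∧ b + 1 = c ^ 2 := by
  have h1 := pell_eq N
  have h2 := pell_ge N
  set a := (pell N).1
  set c := (pell N).2
  have hc : 1 ≤ c ^ 2 := Nat.one_le_pow _ _ (by omega)
  refine ⟨a, c ^ 2 - 1, c, by omega, h2.2, by omega, ?_, ?_, h1, by omega⟩
  · have : a < 2 * c := by nlinarith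
    have : 2 * c + 1 ≤ c ^ 2 := by nlinarith
    omega
  · have : 2 * c + 1 ≤ c ^ 2 := by nlinarith
    omega

end Pool.Agent.H55.Shuffle
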