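import Pool.Agent.H55.SnfDefs

namespace Pool.Agent.H55.Snf
open Set Filter Topology

variable {X : Type*} [TopologicalSpace X]

def HasConv (x : ℕ → X) : Prop := ∃ φ : ℕ → ℕ, ∃ p, StrictMono φ ∧ Tendsto (x ∘ φ) atTop (𝓝 p)

lemma seqcomp (hr : RegDiag X) {K : Set X} (hK : IsCompact K) (y : ℕ → X) (hy : ∀ j, y j ∈ K) :
    HasConv y := by
  obtain ⟨U, hU, hD⟩ := hr
  obtain ⟨q, -, hq⟩ := hK.exists_mapClusterPt (f := atTop) (u := y)
    (tendsto_principal.2 (Eventually.of_forall hy))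
  have hW : ∀ m, ∃ᶠ k in atTop, ∀ i ≤ m, (q, y k) ∈ U i := by
    intro m
    have h1 : {z | ∀ i ∈ Iic m, (q, z) ∈ U i} ∈ 𝓝 q := by
      have : ∀ᶠ z in 𝓝 q, ∀ i ∈ Iic m, (q, z) ∈ U i := by
        rw [eventually_all_finite (finite_Iic m)]
        intro i _
        exact (Continuous.prodMk_right q).continuousAt.preimage_mem_nhds
          ((hU i).1.mem_nhds ((hU i).2 rfl))
      exact this
    exact (mapClusterPt_iff_frequently.1 hq _ h1)
  obtain ⟨φ, hφ, h⟩ := extraction_forall_of_frequently hW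
  refine ⟨φ, q, hφ, hK.tendsto_nhds_of_unique_mapClusterPt (Eventually.of_forall fun j => hy _) ?_⟩
  intro r _ hrc
  have : (q, r) ∈ ⋂ m, closure (U m) := by
    refine mem_iInter.2 fun i => ?_
    have h2 : MapClusterPt (q, r) atTop ((fun z => (q, z)) ∘ (y ∘ φ)) :=
      hrc.continuousAt_comp (Continuous.prodMk_right q).continuousAt
    refine mem_closure_iff_nhds.2 fun t ht => ?_
    obtain ⟨k, hk1, hk2⟩ := ((mapClusterPt_iff_frequently.1 h2 t ht).and_eventually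
      (eventually_ge_atTop i)).exists
    exact ⟨_, hk1, h k i hk2⟩
  rw [hD] at this
  exact (mem_diagonal_iff.1 this).symm

lemma locfin (hk : KSp X) (F : ℕ → Set X) (hF : ∀ j, IsClosed (F j))
    (h : ∀ K, IsCompact K → {j | (F j ∩ K).Nonempty}.Finite) : LocallyFinite F := by
  intro p
  have hC : IsClosed (⋃ j ∈ {j | p ∉ F j}, F j) := by
    refine hk _ fun K hK => ?_
    have : (Subtype.val : K → X) ⁻¹' (⋃ j ∈ {j | p ∉ F j}, F j) =
        ⋃ j ∈ {j | (F j ∩ K).Nonempty} ∩ {j | p ∉ F j}, (Subtype.val : K → X) ⁻¹' F j := by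
      ext z
      simp only [mem_preimage, mem_iUnion, mem_inter_iff, mem_ofPred_eq]
      constructor
      · rintro ⟨j, h1, h2⟩; exact ⟨j, ⟨⟨z, h2, z.2⟩, h1⟩, h2⟩
      · rintro ⟨j, h1, h2⟩; exact ⟨j, h1.2, h2⟩
    rw [this]
    exact ((h K hK).inter_of_left _).isClosed_biUnion fun j _ =>
      (hF j).preimage continuous_subtype_val
  refine ⟨(⋃ j ∈ {j | p ∉ F j}, F j)ᶜ, hC.isOpen_compl.mem_nhds (by simp), ?_⟩
  refine (h {p} isCompact_singleton).subset ?_
  rintro j ⟨z, hz1, hz2⟩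
  by_contra hc
  have hp : p ∉ F j := fun hp => hc ⟨p, hp, rfl⟩
  exact hz2 (mem_biUnion (s := {j | p ∉ F j}) hp hz1)

lemma discrete_family [T35Space X] (hk : KSp X) (hr : RegDiag X) (x : ℕ → X) (hx : ¬ HasConv x) :
    ∃ φ : ℕ → ℕ, StrictMono φ ∧ ∃ V : ℕ → Set X, (∀ j, IsOpen (V j) ∧ x (φ j) ∈ V j) ∧
      LocallyFinite V := by
  have hs : LocallyFinite fun j => ({x j} : Set X) := by
    refine locfin hk _ (fun j => isClosed_singleton) fun K hK => ?_
    by_contra hc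
    have hc' : ∃ᶠ j in atTop, x j ∈ K := by
      rw [Nat.frequently_atTop_iff_infinite]
      refine Set.Infinite.mono ?_ hc
      rintro j ⟨z, rfl, hz⟩; exact hz
    obtain ⟨ψ, hψ, h⟩ := extraction_of_frequently_atTop hc'
    obtain ⟨θ, p, hθ, ht⟩ := seqcomp hr hK (x ∘ ψ) h
    exact hx ⟨ψ ∘ θ, p, hψ.comp hθ, ht⟩
  obtain ⟨U, hU, hD⟩ := id hr
  have hF : ∀ j, ∃ F : Set X, F ∈ 𝓝 (x j) ∧ IsClosed F ∧ ∀ i ≤ j, F ×ˢ F ⊆ U i := by
    intro j
    have h1 : (⋂ i ∈ Iic j, U i) ∈ 𝓝 (x j, x j) :=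
      (biInter_mem (finite_Iic j)).2 fun i _ => (hU i).1.mem_nhds ((hU i).2 rfl)
    obtain ⟨a, ha, b, hb, hab⟩ := mem_nhds_prod_iff.1 h1
    obtain ⟨F, h2, h3, h4⟩ := exists_mem_nhds_isClosed_subset (inter_mem ha hb)
    refine ⟨F, h2, h3, fun i hi z hz => ?_⟩
    have := hab (show z ∈ a ×ˢ b from ⟨(h4 hz.1).1, (h4 hz.2).2⟩)
    exact mem_iInter₂.1 this i hi
  choose F hF1 hF2 hF3 using hF
  by_cases hc : ∀ K, IsCompact K → {j | (F j ∩ K).Nonempty}.Finite
  · exact ⟨id, strictMono_id, fun j => interior (F j),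
      fun j => ⟨isOpen_interior, mem_interior_iff_mem_nhds.2 (hF1 j)⟩,
      (locfin hk F hF2 hc).subset fun j => interior_subset⟩
  push Not at hc
  obtain ⟨K, hK, hc⟩ := hc
  have hc' : ∃ᶠ j in atTop, (F j ∩ K).Nonempty := by
    rw [Nat.frequently_atTop_iff_infinite]; exact hc
  obtain ⟨ψ, hψ, h⟩ := extraction_of_frequently_atTop hc'
  choose y hy using h
  obtain ⟨θ, p, hθ, ht⟩ := seqcomp hr hK y fun j => (hy j).2
  obtain ⟨N, hN, hNf⟩ := hs p
  obtain ⟨W, hW1, hW2, hW3⟩ := exists_mem_nhds_isClosed_subset hN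
  obtain ⟨j0, hj0⟩ := hNf.bddAbove
  have hmono : StrictMono fun j => ψ (θ (j + (j0 + 1))) :=
    fun a b hab => hψ (hθ (by omega))
  have hge : ∀ j, j + (j0 + 1) ≤ ψ (θ (j + (j0 + 1))) := fun j => (hψ.comp hθ).le_apply
  refine ⟨fun j => ψ (θ (j + (j0 + 1))), hmono, fun j => interior (F (ψ (θ (j + (j0 + 1))))) \ W,
    fun j => ⟨isOpen_interior.sdiff hW2, mem_interior_iff_mem_nhds.2 (hF1 _), fun hw => ?_⟩, ?_⟩
  · have := hj0 (show ψ (θ (j + (j0 + 1))) ∈ _ from ⟨_, rfl, hW3 hw⟩)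
    have := hge j
    omega
  intro q
  by_cases hq : p = q
  · subst hq
    refine ⟨W, hW1, finite_empty.subset ?_⟩
    rintro j ⟨z, hz1, hz2⟩
    exact hz1.2 hz2
  have : (p, q) ∉ ⋂ m, closure (U m) := by rw [hD]; exact hq
  obtain ⟨m, hm⟩ : ∃ m, (p, q) ∉ closure (U m) := by simpa using this
  obtain ⟨a, ha, b, hb, hab⟩ := mem_nhds_prod_iff.1 (isClosed_closure.isOpen_compl.mem_nhds hm)
  obtain ⟨j1, hj1⟩ := eventually_atTop.1 (ht.eventually ha)
  refine ⟨b, hb, (finite_Iic (j1 + m)).subset ?_⟩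
  rintro j ⟨z, hz1, hz2⟩
  by_contra hj
  have hj : j1 + m < j := not_le.1 hj
  have h1 : y (θ (j + (j0 + 1))) ∈ a := hj1 _ (by omega)
  have h2 := hF3 (ψ (θ (j + (j0 + 1)))) m (by have := hge j; omega)
    (show (y (θ (j + (j0 + 1))), z) ∈ _ from ⟨(hy _).1, interior_subset hz1.1⟩)
  exact hab (show (y (θ (j + (j0 + 1))), z) ∈ a ×ˢ b from ⟨h1, hz2⟩) (subset_closure h2)

noncomputable def triC (a : ℕ → ℕ → ℝ) : ℕ → ℝ
  | i => (1 - ∑ l ∈ (Finset.range i).attach, triC a l * a l i) / a i i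
  decreasing_by exact Finset.mem_range.1 l.2

lemma tri (a : ℕ → ℕ → ℝ) (h : ∀ i, a i i ≠ 0) (i : ℕ) :
    ∑ l ∈ Finset.range (i + 1), triC a l * a l i = 1 := by
  rw [Finset.sum_range_succ]
  have : triC a i = (1 - ∑ l ∈ Finset.range i, triC a l * a l i) / a i i := by
    rw [triC, Finset.sum_attach (Finset.range i) fun l => triC a l * a l i]
  rw [this, div_mul_cancel₀ _ (h i)]; ring

/-- the extension of a real function to the free group -/
noncomputable def ext (f : X → ℝ) (g : X →₀ ℤ) : ℝ := ∑ x ∈ g.support, (g x : ℝ) * f x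

lemma bump [T35Space X] (g : X →₀ ℤ) {z : X} (hz : z ∈ g.support) {V : Set X} (hV : IsOpen V)
    (hzV : z ∈ V) : ∃ f : X → ℝ, Continuous f ∧ (∀ y, y ∉ V → f y = 0) ∧ ext f g ≠ 0 := by
  classical
  have hcl : IsClosed (Vᶜ ∪ ((g.support.erase z : Finset X) : Set X)) :=
    hV.isClosed_compl.union (Finset.finite_toSet _).isClosed
  obtain ⟨f, hf, h0, h1⟩ := CompletelyRegularSpace.completely_regular z _ hcl (by simp [hzV])
  refine ⟨fun y => 1 - (f y : ℝ), by fun_prop, fun y hy => by simp [h1 (Or.inl hy)], ?_⟩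
  unfold ext
  rw [← Finset.add_sum_erase _ _ hz, Finset.sum_eq_zero]
  · simpa [h0] using hz
  · intro y hy
    simp [h1 (Or.inr hy)]

lemma supp_conv [T35Space X] (hk : KSp X) (hr : RegDiag X) (w : ℕ → X →₀ ℤ)
    (hw : ∀ f : X → ℝ, Continuous f → Tendsto (fun j => ext f (w j)) atTop (𝓝 0))
    (x : ℕ → X) (hx : ∀ j, x j ∈ (w j).support) : HasConv x := by
  by_contra hc
  obtain ⟨φ, hφ, V, hV, hl⟩ := discrete_family hk hr x hc
  have hN : ∀ j, ∃ N, ∀ l ≤ j, ∀ i ≥ N, ∀ y ∈ (w (φ l)).support, y ∉ V i := by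
    intro j
    have hfin : (⋃ l ∈ Iic j, ((w (φ l)).support : Set X)).Finite :=
      (finite_Iic j).biUnion fun l _ => Finset.finite_toSet _
    obtain ⟨N, hN⟩ := (hl.finite_nonempty_inter_compact hfin.isCompact).bddAbove
    refine ⟨N + 1, fun l hl i hi y hy hyV => ?_⟩
    have := hN (show i ∈ _ from ⟨y, hyV, mem_biUnion (s := Iic j) hl hy⟩)
    omega
  choose N hN using hN
  let ψ : ℕ → ℕ := fun i => Nat.rec 0 (fun _ a => max (a + 1) (N a)) i
  have hψs : ∀ i, ψ (i + 1) = max (ψ i + 1) (N (ψ i)) := fun i => rfl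
  have hψ : StrictMono ψ := strictMono_nat_of_lt_succ fun i => by rw [hψs]; omega
  have hdis : ∀ l i, l < i → ∀ y ∈ (w (φ (ψ l))).support, y ∉ V (ψ i) := by
    intro l i hli
    obtain ⟨i, rfl⟩ : ∃ k, i = k + 1 := ⟨i - 1, by omega⟩
    exact hN (ψ i) _ (hψ.monotone (by omega)) _ (by rw [hψs]; omega)
  choose f hf1 hf2 hf3 using fun i => bump (w (φ (ψ i))) (hx _) (hV (ψ i)).1 (hV (ψ i)).2
  set a : ℕ → ℕ → ℝ := fun l i => ext (f l) (w (φ (ψ i))) with ha
  have hcont : Continuous fun y => ∑ᶠ l, triC a l * f l y := by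
    refine continuous_finsum (fun l => continuous_const.mul (hf1 l)) ?_
    refine (hl.comp_injective hψ.injective).subset fun l y hy => ?_
    by_contra hyV
    exact hy (by simp [hf2 l y hyV])
  have h1 : ∀ i, ext (fun y => ∑ᶠ l, triC a l * f l y) (w (φ (ψ i))) = 1 := by
    intro i
    rw [← tri a hf3 i]
    simp only [ha, ext, Finset.mul_sum]
    rw [Finset.sum_comm]
    refine Finset.sum_congr rfl fun y hy => ?_
    rw [finsum_eq_sum_of_support_subset (s := Finset.range (i + 1)), Finset.mul_sum]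
    · exact Finset.sum_congr rfl fun l _ => by ring
    · intro l hl
      by_contra hli
      have : i < l := by simpa using hli
      exact hl (by simp [hf2 l y (hdis i l this y hy)])
  have h2 := (hw _ hcont).comp (hφ.comp hψ).tendsto_atTop
  have h3 : Tendsto (fun _ : ℕ => (1 : ℝ)) atTop (𝓝 0) := h2.congr h1
  exact one_ne_zero (tendsto_nhds_unique tendsto_const_nhds h3)

end Pool.Agent.H55.Snf
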