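import Pool.Agent.H55.SnfA

namespace Pool.Agent.H55.Snf
open Set Filter Topology

variable {X : Type*}

lemma len_eq (g : X →₀ ℤ) {s : Finset X} (h : g.support ⊆ s) :
    len g = ∑ x ∈ s, (g x).natAbs :=
  Finsupp.sum_of_support_subset g h _ (by simp)

lemma len_sub (a b : X →₀ ℤ) : len (a - b) ≤ len a + len b := by
  classical
  rw [len_eq (a - b) Finsupp.support_sub, len_eq a (Finset.subset_union_left (s₂ := b.support)),
    len_eq b (Finset.subset_union_right (s₁ := a.support)), ← Finset.sum_add_distrib]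
  exact Finset.sum_le_sum fun x _ => by simpa using Int.natAbs_sub_le (a x) (b x)

lemma len_single (x : X) : len (Finsupp.single x (1 : ℤ)) = 1 := by
  simp [len]

lemma len_zero_iff {g : X →₀ ℤ} (h : len g = 0) : g = 0 := by
  ext x
  by_contra hx
  have hx' : x ∈ g.support := by simpa using hx
  rw [len_eq g subset_rfl, Finset.sum_eq_zero_iff] at h
  exact hx (by simpa using h x hx')

lemma len_step (g : X →₀ ℤ) (x : X) {ε : ℤ} (hε : ε = 1 ∨ ε = -1) (h : 0 < ε * g x) :
    (g - ε • Finsupp.single x 1).support ⊆ g.support ∧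
      len (g - ε • Finsupp.single x 1) + 1 ≤ len g := by
  classical
  have hx : x ∈ g.support := by
    rw [Finsupp.mem_support_iff]; rintro h0; simp [h0] at h
  have hs : (g - ε • Finsupp.single x 1).support ⊆ g.support := by
    intro y hy
    by_cases hyx : y = x
    · exact hyx ▸ hx
    · simpa [Finsupp.single_apply, Ne.symm hyx] using hy
  refine ⟨hs, ?_⟩
  rw [len_eq _ hs, len_eq g subset_rfl, ← Finset.add_sum_erase _ _ hx,
    ← Finset.add_sum_erase _ (fun y => (g y).natAbs) hx]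
  have : ∑ y ∈ g.support.erase x, ((g - ε • Finsupp.single x 1 : X →₀ ℤ) y).natAbs =
      ∑ y ∈ g.support.erase x, (g y).natAbs :=
    Finset.sum_congr rfl fun y hy => by
      simp [Finsupp.single_apply, Ne.symm (Finset.ne_of_mem_erase hy)]
  rw [this]
  have : ((g - ε • Finsupp.single x 1 : X →₀ ℤ) x) = g x - ε := by simp
  rw [this]
  rcases hε with rfl | rfl <;> omega

def S {G : Type*} [AddCommGroup G] (Q : Set G) : ℕ → Set G
  | 0 => {0}
  | r + 1 => {g | ∃ a ∈ S Q r, ∃ b ∈ Q, g = a + b}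

lemma S_mono {G : Type*} [AddCommGroup G] {Q Q' : Set G} (h : Q ⊆ Q') : ∀ r, S Q r ⊆ S Q' r
  | 0 => subset_rfl
  | r + 1 => fun _ ⟨a, ha, b, hb, e⟩ => ⟨a, S_mono h r ha, b, h hb, e⟩

lemma S_zero {G : Type*} [AddCommGroup G] {Q : Set G} (h : 0 ∈ Q) : ∀ r, (0 : G) ∈ S Q r
  | 0 => rfl
  | r + 1 => ⟨0, S_zero h r, 0, h, by simp⟩

lemma S_small {G : Type*} [AddCommGroup G] [TopologicalSpace G] [IsTopologicalAddGroup G] :
    ∀ r, ∀ W ∈ 𝓝 (0 : G), ∃ V ∈ 𝓝 (0 : G), S V r ⊆ W
  | 0, W, hW => ⟨W, hW, singleton_subset_iff.2 (mem_of_mem_nhds hW)⟩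
  | r + 1, W, hW => by
    obtain ⟨V, hV, h⟩ := exists_nhds_zero_half hW
    obtain ⟨V', hV', h'⟩ := S_small r V hV
    refine ⟨V ∩ V', inter_mem hV hV', ?_⟩
    rintro g ⟨a, ha, b, hb, rfl⟩
    exact h _ (h' (S_mono inter_subset_right r ha)) _ hb.1

variable [TopologicalSpace X] [TopologicalSpace (X →₀ ℤ)] [IsTopologicalAddGroup (X →₀ ℤ)]

def Hyp (w : ℕ → X →₀ ℤ) : Prop :=
  ∀ φ : ℕ → ℕ, StrictMono φ → ∀ x : ℕ → X, (∀ j, x j ∈ (w (φ j)).support) → HasConv x

lemma good (hof : Continuous fun x : X => Finsupp.single x (1 : ℤ)) (Q : Set (X →₀ ℤ))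
    (h0 : 0 ∈ Q) (hQ : ∀ (x : ℕ → X) p, Tendsto x atTop (𝓝 p) → ∀ ε : ℤ, (ε = 1 ∨ ε = -1) →
      ∀ᶠ j in atTop, ε • Finsupp.single (x j) 1 - ε • Finsupp.single p 1 ∈ Q) :
    ∀ r, ∀ w : ℕ → X →₀ ℤ, (∀ j, len (w j) ≤ r) → Hyp w →
      ∃ φ : ℕ → ℕ, StrictMono φ ∧ ∃ g, Tendsto (w ∘ φ) atTop (𝓝 g) ∧
        ∀ᶠ j in atTop, w (φ j) - g ∈ S Q r := by
  intro r
  induction r with
  | zero =>
    intro w hw _
    have : ∀ j, w j = 0 := fun j => len_zero_iff (Nat.le_zero.1 (hw j))
    refine ⟨id, strictMono_id, 0, ?_, Eventually.of_forall fun j => by simp [this, S]⟩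
    exact tendsto_const_nhds.congr fun j => (this j).symm
  | succ r ih =>
    intro w hw hH
    by_cases hc : ∃ ε : ℤ, (ε = 1 ∨ ε = -1) ∧ ∃ᶠ j in atTop, ∃ x, 0 < ε * w j x
    · obtain ⟨ε, hε, hfr⟩ := hc
      obtain ⟨ψ, hψ, h⟩ := extraction_of_frequently_atTop hfr
      choose x hx using h
      obtain ⟨θ, p, hθ, ht⟩ := hH ψ hψ x fun j => by
        rw [Finsupp.mem_support_iff]; intro h0; have := hx j; simp [h0] at this
      have hst := fun j => len_step (w (ψ (θ j))) (x (θ j)) hε (hx _)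
      obtain ⟨φ, hφ, g, hg1, hg2⟩ := ih (fun j => w (ψ (θ j)) - ε • Finsupp.single (x (θ j)) 1)
        (fun j => by have := (hst j).2; have := hw (ψ (θ j)); omega)
        (fun φ hφ y hy => hH (fun j => ψ (θ (φ j))) (hψ.comp (hθ.comp hφ)) y
          fun j => (hst _).1 (hy j))
      have ht' : Tendsto (fun j => x (θ (φ j))) atTop (𝓝 p) := ht.comp hφ.tendsto_atTop
      refine ⟨fun j => ψ (θ (φ j)), hψ.comp (hθ.comp hφ), g + ε • Finsupp.single p 1, ?_, ?_⟩
      · have h2 := ((hof.tendsto p).comp ht').zsmul ε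
        refine (hg1.add h2).congr fun j => ?_
        simp
      · filter_upwards [hg2, hQ _ p ht' ε hε] with j h1 h2
        exact ⟨_, h1, _, h2, by abel⟩
    · push Not at hc
      have : ∀ᶠ j in atTop, w j = 0 := by
        filter_upwards [hc 1 (Or.inl rfl), hc (-1) (Or.inr rfl)] with j h1 h2
        ext x
        have := h1 x
        have := h2 x
        simp only [Finsupp.coe_zero, Pi.zero_apply]
        omega
      refine ⟨id, strictMono_id, 0, ?_, this.mono fun j hj => by simpa [hj] using S_zero h0 _⟩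
      exact tendsto_const_nhds.congr' (this.mono fun j hj => hj.symm)

lemma main_aux [T35Space X] (hk : KSp X) (hr : RegDiag X)
    (hof : Continuous fun x : X => Finsupp.single x (1 : ℤ))
    (hu : ∀ f : X → ℝ, Continuous f → Continuous (ext f)) {m : ℕ} (hm : 2 ≤ m)
    (h : SnfCountable {g : X →₀ ℤ // len g ≤ m}) (n : ℕ) :
    SnfCountable {g : X →₀ ℤ // len g ≤ n} := by
  have e0 : ∀ f : X → ℝ, ext f 0 = 0 := fun f => by simp [ext]
  obtain ⟨𝒮, hc, h1, h2, h3⟩ := h ⟨0, by simp [len]⟩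
  intro g0
  refine ⟨(fun P => {h | h.1 - g0.1 ∈ S (Subtype.val '' P) (n + n)}) '' 𝒮, hc.image _, ?_, ?_, ?_⟩
  · rintro _ ⟨P, hP, rfl⟩
    have h0 : (0 : X →₀ ℤ) ∈ Subtype.val '' P := ⟨_, (h1 P hP).1, rfl⟩
    refine ⟨by simpa using S_zero h0 _, fun u hu' => ?_⟩
    by_contra hne
    obtain ⟨ψ, hψ, hψ'⟩ := extraction_of_frequently_atTop (not_eventually.1 hne)
    have hw : Tendsto (fun j => (u (ψ j)).1 - g0.1) atTop (𝓝 0) := by
      have := (((continuous_subtype_val.tendsto g0).comp hu').comp hψ.tendsto_atTop).sub_const g0.1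
      simpa [Function.comp_def] using this
    obtain ⟨φ, hφ, g, hg1, hg2⟩ := good hof _ h0 (by
        intro x p hx ε hε
        have hl : ∀ j, len (ε • Finsupp.single (x j) 1 - ε • Finsupp.single p 1) ≤ m := by
          intro j
          rcases hε with rfl | rfl
          · have := len_sub (Finsupp.single (x j) 1) (Finsupp.single p 1)
            rw [len_single, len_single] at this
            simp only [one_smul]; omega
          · have := len_sub (Finsupp.single p 1) (Finsupp.single (x j) 1)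
            rw [len_single, len_single] at this
            have e : (-1 : ℤ) • Finsupp.single (x j) (1 : ℤ) - (-1 : ℤ) • Finsupp.single p 1 =
              Finsupp.single p 1 - Finsupp.single (x j) 1 := by
              rw [neg_one_zsmul, neg_one_zsmul]; abel
            rw [e]; omega
        have ht := (((hof.tendsto p).comp hx).zsmul ε).sub_const (ε • Finsupp.single p 1)
        rw [sub_self] at ht
        filter_upwards [(h1 P hP).2 (fun j => ⟨_, hl j⟩) (tendsto_subtype_rng.2 ht)] with j hj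
        exact ⟨_, hj, rfl⟩)
      (n + n) (fun j => (u (ψ j)).1 - g0.1)
      (fun j => (len_sub _ _).trans (add_le_add (u _).2 g0.2))
      (fun φ hφ x hx => supp_conv hk hr (fun j => (u (ψ (φ j))).1 - g0.1) (fun f hf => by
        have := ((hu f hf).tendsto 0).comp (hw.comp hφ.tendsto_atTop)
        rw [e0] at this
        exact this) x hx)
    have hg : g = 0 := by
      by_contra hg
      obtain ⟨z, hz⟩ := Finsupp.support_nonempty_iff.2 hg
      obtain ⟨f, hf, -, hf3⟩ := bump g hz isOpen_univ (mem_univ z)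
      have a1 := ((hu f hf).tendsto 0).comp (hw.comp hφ.tendsto_atTop)
      have a2 := ((hu f hf).tendsto g).comp hg1
      exact hf3 ((tendsto_nhds_unique a2 a1).trans (e0 f))
    obtain ⟨j, hj⟩ := hg2.exists
    rw [hg, sub_zero] at hj
    exact hψ' (φ j) hj
  · intro U hU hgU
    obtain ⟨O, hO, rfl⟩ := isOpen_induced_iff.1 hU
    have hW : {a | a + g0.1 ∈ O} ∈ 𝓝 (0 : X →₀ ℤ) :=
      (hO.preimage (continuous_add_const g0.1)).mem_nhds (by simpa using hgU)
    obtain ⟨V, hV, hS⟩ := S_small (n + n) _ hW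
    obtain ⟨P, hP, hPV⟩ := h2 (Subtype.val ⁻¹' interior V)
      (isOpen_interior.preimage continuous_subtype_val) (mem_interior_iff_mem_nhds.2 hV)
    refine ⟨_, ⟨P, hP, rfl⟩, fun a ha => ?_⟩
    have := hS (S_mono (by rintro _ ⟨b, hb, rfl⟩; exact interior_subset (hPV hb)) _ ha)
    simpa using this
  · rintro _ ⟨P, hP, rfl⟩ _ ⟨Q, hQ, rfl⟩
    obtain ⟨R, hR, hRPQ⟩ := h3 P hP Q hQ
    exact ⟨_, ⟨R, hR, rfl⟩, fun a ha =>
      ⟨S_mono (image_mono (hRPQ.trans inter_subset_left)) _ ha,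
       S_mono (image_mono (hRPQ.trans inter_subset_right)) _ ha⟩⟩

end Pool.Agent.H55.Snf

namespace Pool.Agent.H55.Snf
open Set Filter Topology

theorem levels {X : Type*} [TopologicalSpace X] [T35Space X] (hk : KSp X) (hr : RegDiag X)
    {m : ℕ} (hm : 2 ≤ m) (h : LevelSnf X m) (n : ℕ) : LevelSnf X n := by
  letI : TopologicalSpace (X →₀ ℤ) := freeTop X
  haveI : IsTopologicalAddGroup (X →₀ ℤ) := topologicalAddGroup_sInf fun t ht => ht.1
  refine main_aux hk hr (continuous_sInf_rng.2 fun t ht => ht.2) (fun f hf => ?_) hm h n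
  let φ : (X →₀ ℤ) →+ ℝ := Finsupp.liftAddHom fun x => (zmultiplesHom ℝ (f x))
  have hφ : ext f = φ := by
    funext g
    simp [φ, ext, Finsupp.liftAddHom_apply, Finsupp.sum]
  rw [hφ, continuous_iff_le_induced]
  refine sInf_le ⟨topologicalAddGroup_induced φ, ?_⟩
  rw [continuous_induced_rng]
  refine hf.congr fun x => ?_
  simp [φ]

end Pool.Agent.H55.Snf
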