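import Pool.Agent.H55.SnfB

namespace Pool.Agent.H55.Snf
open Set Filter Topology

variable {X : Type*} [TopologicalSpace X]

lemma supp_conv2 [T35Space X] (hk : KSp X) (hr : RegDiag X) (w : ℕ → X →₀ ℤ)
    (hw : ∀ f : X → ℝ, Continuous f → ∃ c, Tendsto (fun j => ext f (w j)) atTop (𝓝 c))
    (x : ℕ → X) (hx : ∀ j, x j ∈ (w j).support) : HasConv x := by
  by_contra hc
  obtain ⟨φ, hφ, V, hV, hl⟩ := discrete_family hk hr x hc
  have hN : ∀ j, ∃ N, ∀ l ≤ j, ∀ i ≥ N, ∀ y ∈ (w (φ l)).support, y ∉ V i := by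
    intro j
    have hfin : (⋃ l ∈ Iic j, ((w (φ l)).support : Set X)).Finite :=
      (finite_Iic j).biUnion fun l _ => Finset.finite_toSet _
    obtain ⟨N, hN⟩ := (hl.finite_nonempty_inter_compact hfin.isCompact).bddAbove
    refine ⟨N + 1, fun l hl i hi y hy hyV => ?_⟩
    have := hN (show i ∈ _ from ⟨y, hyV, mem_biUnion (s := Iic j) hl hy⟩)
    omega
  choose N hN using hN
  let ψ : ℕ → ℕ := fun i => Nat.rec 0 (fun _ a => max (a + 1) (N a)) i
  have hψs : ∀ i, ψ (i + 1) = max (ψ i + 1) (N (ψ i)) := fun i => rfl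
  have hψ : StrictMono ψ := strictMono_nat_of_lt_succ fun i => by rw [hψs]; omega
  have hdis : ∀ l i, l < i → ∀ y ∈ (w (φ (ψ l))).support, y ∉ V (ψ i) := by
    intro l i hli
    obtain ⟨i, rfl⟩ : ∃ k, i = k + 1 := ⟨i - 1, by omega⟩
    exact hN (ψ i) _ (hψ.monotone (by omega)) _ (by rw [hψs]; omega)
  choose f hf1 hf2 hf3 using fun i => bump (w (φ (ψ i))) (hx _) (hV (ψ i)).1 (hV (ψ i)).2
  set a : ℕ → ℕ → ℝ := fun l i => ext (f l) (w (φ (ψ i))) / (i + 1) with ha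
  have hcont : Continuous fun y => ∑ᶠ l, triC a l * f l y := by
    refine continuous_finsum (fun l => continuous_const.mul (hf1 l)) ?_
    refine (hl.comp_injective hψ.injective).subset fun l y hy => ?_
    by_contra hyV
    exact hy (by simp [hf2 l y hyV])
  have h1 : ∀ i, ext (fun y => ∑ᶠ l, triC a l * f l y) (w (φ (ψ i))) = (i : ℝ) + 1 := by
    intro i
    have hi : (i : ℝ) + 1 ≠ 0 := by positivity
    have e1 : ∑ l ∈ Finset.range (i + 1), triC a l * ext (f l) (w (φ (ψ i))) = (i : ℝ) + 1 := by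
      have := tri a (fun i => div_ne_zero (hf3 i) (by positivity)) i
      refine Eq.trans ?_ ((congrArg (((i : ℝ) + 1) * ·) this).trans (mul_one _))
      simp only [Finset.mul_sum]
      refine Finset.sum_congr rfl fun l _ => ?_
      have : a l i = ext (f l) (w (φ (ψ i))) / (i + 1) := rfl
      rw [this]; field_simp
    rw [← e1]
    simp only [ext, Finset.mul_sum]
    rw [Finset.sum_comm]
    refine Finset.sum_congr rfl fun y hy => ?_
    rw [finsum_eq_sum_of_support_subset (s := Finset.range (i + 1)), Finset.mul_sum]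
    · exact Finset.sum_congr rfl fun l _ => by ring
    · intro l hl
      by_contra hli
      have : i < l := by simpa using hli
      exact hl (by simp [hf2 l y (hdis i l this y hy)])
  obtain ⟨c, h2⟩ := hw _ hcont
  have h3 : Tendsto (fun i : ℕ => (i : ℝ) + 1) atTop (𝓝 c) :=
    (h2.comp (hφ.comp hψ).tendsto_atTop).congr h1
  exact not_tendsto_nhds_of_tendsto_atTop
    (tendsto_atTop_add_const_right _ _ tendsto_natCast_atTop_atTop) _ h3

lemma ext3 (f : X → ℝ) (x y z : X) (a b c : ℤ) :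
    ext f (Finsupp.single x a + Finsupp.single y b + Finsupp.single z c) =
      a * f x + b * f y + c * f z := by
  let φ : (X →₀ ℤ) →+ ℝ := Finsupp.liftAddHom fun x => (zmultiplesHom ℝ (f x))
  have hφ : ext f = φ := by
    funext g
    simp [φ, ext, Finsupp.liftAddHom_apply, Finsupp.sum]
  rw [hφ, map_add, map_add]
  simp [φ]

lemma conv3 [T35Space X] (hk : KSp X) (hr : RegDiag X) (x y z : ℕ → X) (a b c : ℤ)
    (h : ∀ f : X → ℝ, Continuous f →
      ∃ l, Tendsto (fun j => a * f (x j) + b * f (y j) + c * f (z j)) atTop (𝓝 l))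
    (v : ℕ → X) (hv : ∀ j, (Finsupp.single (x j) a + Finsupp.single (y j) b +
      Finsupp.single (z j) c : X →₀ ℤ) (v j) ≠ 0) (φ : ℕ → ℕ) (hφ : StrictMono φ) :
    HasConv (v ∘ φ) := by
  refine supp_conv2 hk hr (fun j => Finsupp.single (x (φ j)) a + Finsupp.single (y (φ j)) b +
      Finsupp.single (z (φ j)) c) (fun f hf => ?_) _ fun j => Finsupp.mem_support_iff.2 (hv _)
  obtain ⟨l, hl⟩ := h f hf
  exact ⟨l, (hl.comp hφ.tendsto_atTop).congr fun j => (ext3 f _ _ _ _ _ _).symm⟩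

lemma sub3 (x y z : ℕ → X) (hx : ∀ φ, StrictMono φ → HasConv (x ∘ φ))
    (hy : ∀ φ, StrictMono φ → HasConv (y ∘ φ)) (hz : ∀ φ, StrictMono φ → HasConv (z ∘ φ)) :
    ∃ φ : ℕ → ℕ, StrictMono φ ∧ ∃ p q r, Tendsto (x ∘ φ) atTop (𝓝 p) ∧
      Tendsto (y ∘ φ) atTop (𝓝 q) ∧ Tendsto (z ∘ φ) atTop (𝓝 r) := by
  obtain ⟨a, p, ha, hp⟩ := hx id strictMono_id
  obtain ⟨b, q, hb, hq⟩ := hy a ha
  obtain ⟨c, r, hc, hr⟩ := hz (a ∘ b) (ha.comp hb)
  exact ⟨a ∘ b ∘ c, ha.comp (hb.comp hc), p, q, r, hp.comp (hb.comp hc).tendsto_atTop,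
    hq.comp hc.tendsto_atTop, hr⟩

def na (ε : Bool) : ℤ := if ε then 4 else 1
def ns (ε : Bool) : ℤ := if ε then 2 else -1

noncomputable def aff (b : ℝ) : (Matrix (Fin 2) (Fin 2) ℝ)ˣ :=
  ⟨!![2, b; 0, 1], !![1/2, -b/2; 0, 1],
    by ext i j; fin_cases i <;> fin_cases j <;> simp [Matrix.mul_apply, Fin.sum_univ_two] <;> ring,
    by ext i j; fin_cases i <;> fin_cases j <;> simp [Matrix.mul_apply, Fin.sum_univ_two] <;> ring⟩

lemma aff_cont : Continuous aff := by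
  refine Units.continuous_iff.2 ⟨?_, ?_⟩
  · refine continuous_matrix fun i j => ?_
    fin_cases i <;> fin_cases j <;> simp [aff] <;> fun_prop
  · refine continuous_matrix fun i j => ?_
    fin_cases i <;> fin_cases j <;> simp [aff] <;> fun_prop

noncomputable def TT (f : X → ℝ) (g : FreeGroup X) : ℝ :=
  8 * (FreeGroup.lift (fun x => aff (f x)) g : Matrix (Fin 2) (Fin 2) ℝ) 0 1

omit [TopologicalSpace X] in
lemma TT3 (f : X → ℝ) (x y z : X) (ε δ η : Bool) :
    TT f (FreeGroup.mk [(x, ε), (y, δ), (z, η)]) = ((4 * ns ε : ℤ) : ℝ) * f x +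
      ((2 * na ε * ns δ : ℤ) : ℝ) * f y + ((na ε * na δ * ns η : ℤ) : ℝ) * f z := by
  cases ε <;> cases δ <;> cases η <;>
    simp [TT, FreeGroup.lift_mk, aff, na, ns, Matrix.mul_apply, Fin.sum_univ_two] <;> ring

omit [TopologicalSpace X] in
lemma TT2 (f : X → ℝ) (x y : X) (ε δ : Bool) :
    TT f (FreeGroup.mk [(x, ε), (y, δ)]) = ((4 * ns ε : ℤ) : ℝ) * f x +
      ((2 * na ε * ns δ : ℤ) : ℝ) * f y + ((0 : ℤ) : ℝ) * f y := by
  cases ε <;> cases δ <;>
    simp [TT, FreeGroup.lift_mk, aff, na, ns, Matrix.mul_apply, Fin.sum_univ_two] <;> ring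

omit [TopologicalSpace X] in
lemma TT1 (f : X → ℝ) (x : X) (ε : Bool) :
    TT f (FreeGroup.mk [(x, ε)]) = ((4 * ns ε : ℤ) : ℝ) * f x +
      ((0 : ℤ) : ℝ) * f x + ((0 : ℤ) : ℝ) * f x := by
  cases ε <;> simp [TT, FreeGroup.lift_mk, aff, ns] <;> ring

end Pool.Agent.H55.Snf
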