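import Pool.Agent.H55.SnfDefs

namespace Pool.Agent.H55.Snf

/-- `F_n(X)`: the elements of the free group that are products of at most `n` letters
`x^{±1}`, i.e. whose reduced word has length at most `n`. -/
def FLevel (X : Type*) (n : ℕ) : Set (FreeGroup X) :=
  {g | ∃ L : List (X × Bool), L.length ≤ n ∧ g = FreeGroup.mk L}

end Pool.Agent.H55.Snf
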