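import Pool.Agent.H55.SnfC
import Pool.Agent.H55.SnfFDefs

namespace Pool.Agent.H55.Snf
open Set Filter Topology FreeGroup
open scoped Classical

variable {X : Type*}

def lt (x : X) (ε : Bool) : FreeGroup X := mk [(x, ε)]

lemma lt_inv (x : X) (ε : Bool) : lt x (!ε) = (lt x ε)⁻¹ := by
  simp [lt, inv_mk, invRev]

def RR (g : FreeGroup X) (Q : Set (FreeGroup X)) : Set (FreeGroup X) :=
  {r | ∃ i ≤ 3, ∃ q ∈ Q, r = mk (g.toWord.take i) * q * (mk (g.toWord.take i))⁻¹}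

def PP (g : FreeGroup X) (Q : Set (FreeGroup X)) : Set (FreeGroup X) :=
  {h | ∃ a ∈ RR g Q, ∃ b ∈ RR g Q, ∃ c ∈ RR g Q, h = a * b * c * g}

lemma RR0 (g : FreeGroup X) {Q : Set (FreeGroup X)} {q} (h : q ∈ Q) : q ∈ RR g Q :=
  ⟨0, by omega, q, h, by simp [← one_eq_mk]⟩

lemma RR_mono (g : FreeGroup X) {Q Q' : Set (FreeGroup X)} (h : Q ⊆ Q') : RR g Q ⊆ RR g Q' :=
  fun _ ⟨i, hi, q, hq, e⟩ => ⟨i, hi, q, h hq, e⟩

lemma PP_mono (g : FreeGroup X) {Q Q' : Set (FreeGroup X)} (h : Q ⊆ Q') : PP g Q ⊆ PP g Q' :=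
  fun _ ⟨a, ha, b, hb, c, hc, e⟩ => ⟨a, RR_mono g h ha, b, RR_mono g h hb, c, RR_mono g h hc, e⟩

lemma mk2 (a b : X × Bool) : mk [a, b] = lt a.1 a.2 * lt b.1 b.2 := rfl
lemma mk3 (a b c : X × Bool) : mk [a, b, c] = lt a.1 a.2 * lt b.1 b.2 * lt c.1 c.2 := rfl

lemma co2 (x y : X) (ε δ : Bool) (h : x = y → ε = δ) :
    (Finsupp.single x (4 * ns ε) + Finsupp.single y (2 * na ε * ns δ) +
      Finsupp.single y 0 : X →₀ ℤ) x ≠ 0 ∧
    (Finsupp.single x (4 * ns ε) + Finsupp.single y (2 * na ε * ns δ) +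
      Finsupp.single y 0 : X →₀ ℤ) y ≠ 0 := by
  by_cases h1 : x = y
  · subst h1
    obtain rfl := h rfl
    cases ε <;> simp [ns, na]
  · cases ε <;> cases δ <;> simp [ns, na, h1, Ne.symm h1]

lemma co3 (x y z : X) (ε δ η : Bool) (h : (x = y → ε = δ) ∧ (y = z → δ = η)) :
    (Finsupp.single x (4 * ns ε) + Finsupp.single y (2 * na ε * ns δ) +
      Finsupp.single z (na ε * na δ * ns η) : X →₀ ℤ) x ≠ 0 ∧
    (Finsupp.single x (4 * ns ε) + Finsupp.single y (2 * na ε * ns δ) +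
      Finsupp.single z (na ε * na δ * ns η) : X →₀ ℤ) y ≠ 0 ∧
    (Finsupp.single x (4 * ns ε) + Finsupp.single y (2 * na ε * ns δ) +
      Finsupp.single z (na ε * na δ * ns η) : X →₀ ℤ) z ≠ 0 := by
  by_cases h1 : x = y
  · subst h1
    obtain rfl := h.1 rfl
    by_cases h2 : x = z
    · subst h2
      obtain rfl := h.2 rfl
      cases ε <;> simp [ns, na]
    · cases ε <;> cases η <;> simp [ns, na, h2, Ne.symm h2]
  · by_cases h2 : y = z
    · subst h2
      obtain rfl := h.2 rfl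
      cases ε <;> cases δ <;> simp [ns, na, h1, Ne.symm h1]
    · by_cases h3 : x = z
      · subst h3
        cases ε <;> cases δ <;> cases η <;> simp [ns, na, h1, Ne.symm h1]
      · cases ε <;> cases δ <;> cases η <;>
          simp [ns, na, h1, Ne.symm h1, h2, Ne.symm h2, h3, Ne.symm h3]

lemma tw2 {p q : X} {ε δ : Bool} (h : ¬(p = q ∧ δ = !ε)) :
    (lt p ε * lt q δ).toWord = [(p, ε), (q, δ)] := by
  refine (toWord_mk (L₁ := [(p, ε), (q, δ)])).trans (FreeGroup.IsReduced.reduce_eq ?_)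
  cases ε <;> cases δ <;> simp_all [FreeGroup.IsReduced]

lemma tw3 {p q r : X} {ε δ η : Bool} (h : ¬(p = q ∧ δ = !ε)) (h' : ¬(q = r ∧ η = !δ)) :
    (lt p ε * lt q δ * lt r η).toWord = [(p, ε), (q, δ), (r, η)] := by
  refine (toWord_mk (L₁ := [(p, ε), (q, δ), (r, η)])).trans (FreeGroup.IsReduced.reduce_eq ?_)
  cases ε <;> cases δ <;> cases η <;> simp_all [FreeGroup.IsReduced]

lemma mk1 (a : X × Bool) : mk [a] = lt a.1 a.2 := rfl

variable [TopologicalSpace X] [TopologicalSpace (FreeGroup X)] [IsTopologicalGroup (FreeGroup X)]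

lemma lt_cont (hof : Continuous (of : X → FreeGroup X)) (ε : Bool) :
    Continuous fun x : X => lt x ε := by
  cases ε
  · have : (fun x : X => lt x false) = fun x => (of x)⁻¹ := funext fun x => lt_inv x true
    rw [this]; exact hof.inv
  · exact hof

lemma seqF [T35Space X] [T2Space (FreeGroup X)] (hk : KSp X) (hr : RegDiag X)
    (hof : Continuous (of : X → FreeGroup X))
    (hT : ∀ f : X → ℝ, Continuous f → Continuous (TT f))
    (Q : Set (FreeGroup X)) (h1 : 1 ∈ Q)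
    (hQ : ∀ (x y : ℕ → X) p ε, Tendsto x atTop (𝓝 p) → Tendsto y atTop (𝓝 p) →
      ∀ᶠ j in atTop, lt (x j) ε * (lt (y j) ε)⁻¹ ∈ Q)
    (g : FreeGroup X) (h : ℕ → FreeGroup X) (hh : ∀ j, h j ∈ FLevel X 3)
    (ht : Tendsto h atTop (𝓝 g)) : ∃ j, h j ∈ PP g Q := by
  have hlen : ∀ j, ((h j).toWord.map Prod.snd).length ≤ 3 := by
    intro j
    obtain ⟨L, hL, e⟩ := hh j
    rw [List.length_map, e]
    exact (norm_mk_le (L₁ := L)).trans hL
  haveI : Finite {l : List Bool | l.length ≤ 3} := (List.finite_length_le Bool 3).to_subtype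
  obtain ⟨⟨s, hs⟩, hinf⟩ := Finite.exists_infinite_fiber
    (fun j => (⟨_, hlen j⟩ : {l : List Bool | l.length ≤ 3}))
  have hfr : ∃ᶠ j in atTop, (h j).toWord.map Prod.snd = s := by
    rw [Nat.frequently_atTop_iff_infinite]
    refine (Set.infinite_coe_iff.1 hinf).mono fun j hj => ?_
    exact congrArg Subtype.val (mem_singleton_iff.1 (mem_preimage.1 hj))
  obtain ⟨ψ, hψ, hs'⟩ := extraction_of_frequently_atTop hfr
  have ht' : Tendsto (fun j => h (ψ j)) atTop (𝓝 g) := ht.comp hψ.tendsto_atTop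
  have hlc := lt_cont hof
  rcases s with _ | ⟨ε, _ | ⟨δ, _ | ⟨η, _ | ⟨_, _⟩⟩⟩⟩
  · have e : ∀ j, h (ψ j) = 1 := fun j => by
      rw [← mk_toWord (x := h (ψ j)), List.map_eq_nil_iff.1 (hs' j)]; rfl
    have : g = 1 := tendsto_nhds_unique ht' (tendsto_const_nhds.congr fun j => (e j).symm)
    exact ⟨ψ 0, 1, RR0 g h1, 1, RR0 g h1, 1, RR0 g h1, by simp [e, this]⟩
  · have : ∀ j, ∃ x, (h (ψ j)).toWord = [(x, ε)] := fun j => by
      have := hs' j
      simp only [List.map_eq_cons_iff, List.map_eq_nil_iff] at this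
      obtain ⟨⟨x, _⟩, _, e, rfl, rfl⟩ := this
      exact ⟨x, e⟩
    choose x hx using this
    have e : ∀ j, h (ψ j) = mk [(x j, ε)] := fun j => by rw [← hx, mk_toWord]
    obtain ⟨φ, p, hφ, hp⟩ := conv3 hk hr x x x (4 * ns ε) 0 0 (fun f hf =>
      ⟨_, (((hT f hf).tendsto g).comp ht').congr fun j => by
        simp only [Function.comp, e]; exact TT1 f _ _⟩) x
      (fun j => by cases ε <;> simp [ns]) id strictMono_id
    have hg : g = lt p ε := tendsto_nhds_unique (ht'.comp hφ.tendsto_atTop)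
      ((((hlc ε).tendsto p).comp hp).congr fun j => (e _).symm)
    obtain ⟨j, hj⟩ := (hQ _ _ p ε hp tendsto_const_nhds).exists
    exact ⟨ψ (φ j), _, RR0 g hj, 1, RR0 g h1, 1, RR0 g h1, by rw [e, hg, mk1]; simp⟩
  · have : ∀ j, ∃ x y, (h (ψ j)).toWord = [(x, ε), (y, δ)] := fun j => by
      have := hs' j
      simp only [List.map_eq_cons_iff, List.map_eq_nil_iff] at this
      obtain ⟨⟨x, _⟩, _, e, rfl, ⟨y, _⟩, _, rfl, rfl, rfl⟩ := this
      exact ⟨x, y, e⟩
    choose x y hx using this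
    have e : ∀ j, h (ψ j) = mk [(x j, ε), (y j, δ)] := fun j => by rw [← hx, mk_toWord]
    have hred : ∀ j, x j = y j → ε = δ := fun j => by
      have := isReduced_toWord (x := h (ψ j))
      rw [hx] at this
      simpa [FreeGroup.IsReduced] using this
    have hc := conv3 hk hr x y y (4 * ns ε) (2 * na ε * ns δ) 0 (fun f hf =>
      ⟨_, (((hT f hf).tendsto g).comp ht').congr fun j => by
        simp only [Function.comp, e]; exact TT2 f _ _ _ _⟩)
    obtain ⟨φ, hφ, p, q, -, hp, hq, -⟩ := sub3 x y y (hc x fun j => (co2 _ _ _ _ (hred j)).1)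
      (hc y fun j => (co2 _ _ _ _ (hred j)).2) (hc y fun j => (co2 _ _ _ _ (hred j)).2)
    have hg : g = lt p ε * lt q δ := tendsto_nhds_unique (ht'.comp hφ.tendsto_atTop)
      (((((hlc ε).tendsto p).comp hp).mul (((hlc δ).tendsto q).comp hq)).congr fun j => (e _).symm)
    by_cases hpq : p = q ∧ δ = !ε
    · obtain ⟨rfl, rfl⟩ := hpq
      obtain ⟨j, hj⟩ := (hQ _ _ p ε hp hq).exists
      exact ⟨ψ (φ j), _, RR0 g hj, 1, RR0 g h1, 1, RR0 g h1, by rw [e, hg, mk2]; simp [lt_inv]⟩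
    · have hw : g.toWord = [(p, ε), (q, δ)] := by
        rw [hg]; exact tw2 hpq
      obtain ⟨j, hj1, hj2⟩ := ((hQ _ _ p ε hp tendsto_const_nhds).and
        (hQ _ _ q δ hq tendsto_const_nhds)).exists
      refine ⟨ψ (φ j), _, RR0 g hj1, _, ⟨1, by omega, _, hj2, rfl⟩, 1, RR0 g h1, ?_⟩
      rw [e, hw, hg, mk2]
      simp only [List.take_succ_cons, List.take_zero, Function.comp, mk1]
      group
  · have : ∀ j, ∃ x y z, (h (ψ j)).toWord = [(x, ε), (y, δ), (z, η)] := fun j => by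
      have := hs' j
      simp only [List.map_eq_cons_iff, List.map_eq_nil_iff] at this
      obtain ⟨⟨x, _⟩, _, e, rfl, ⟨y, _⟩, _, rfl, rfl, ⟨z, _⟩, _, rfl, rfl, rfl⟩ := this
      exact ⟨x, y, z, e⟩
    choose x y z hx using this
    have e : ∀ j, h (ψ j) = mk [(x j, ε), (y j, δ), (z j, η)] := fun j => by rw [← hx, mk_toWord]
    have hred : ∀ j, (x j = y j → ε = δ) ∧ (y j = z j → δ = η) := fun j => by
      have := isReduced_toWord (x := h (ψ j))
      rw [hx] at this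
      simpa [FreeGroup.IsReduced] using this
    have hc := conv3 hk hr x y z (4 * ns ε) (2 * na ε * ns δ) (na ε * na δ * ns η) (fun f hf =>
      ⟨_, (((hT f hf).tendsto g).comp ht').congr fun j => by
        simp only [Function.comp, e]; exact TT3 f _ _ _ _ _ _⟩)
    obtain ⟨φ, hφ, p, q, r, hp, hq, hr'⟩ := sub3 x y z (hc x fun j => (co3 _ _ _ _ _ _ (hred j)).1)
      (hc y fun j => (co3 _ _ _ _ _ _ (hred j)).2.1) (hc z fun j => (co3 _ _ _ _ _ _ (hred j)).2.2)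
    have hg : g = lt p ε * lt q δ * lt r η := tendsto_nhds_unique (ht'.comp hφ.tendsto_atTop)
      ((((((hlc ε).tendsto p).comp hp).mul (((hlc δ).tendsto q).comp hq)).mul
        (((hlc η).tendsto r).comp hr')).congr fun j => (e _).symm)
    by_cases hpq : p = q ∧ δ = !ε
    · obtain ⟨rfl, rfl⟩ := hpq
      obtain ⟨j, hj1, hj2⟩ := ((hQ _ _ p ε hp hq).and (hQ _ _ r η hr' tendsto_const_nhds)).exists
      refine ⟨ψ (φ j), _, RR0 g hj1, _, RR0 g hj2, 1, RR0 g h1, ?_⟩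
      rw [e, hg, mk3]
      simp only [lt_inv, Function.comp]
      group
    by_cases hqr : q = r ∧ η = !δ
    · obtain ⟨rfl, rfl⟩ := hqr
      have hg' : g = lt p ε := by rw [hg, lt_inv]; group
      have hw : g.toWord = [(p, ε)] := by
        rw [hg']
        exact (toWord_mk (L₁ := [(p, ε)])).trans (FreeGroup.IsReduced.reduce_eq FreeGroup.IsReduced.singleton)
      obtain ⟨j, hj1, hj2⟩ := ((hQ _ _ p ε hp tendsto_const_nhds).and (hQ _ _ q δ hq hr')).exists
      refine ⟨ψ (φ j), _, RR0 g hj1, _, ⟨1, by omega, _, hj2, rfl⟩, 1, RR0 g h1, ?_⟩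
      rw [e, hw, hg', mk3]
      simp only [List.take_succ_cons, List.take_zero, lt_inv, Function.comp, mk1]
      group
    · have hw : g.toWord = [(p, ε), (q, δ), (r, η)] := by
        rw [hg]; exact tw3 hpq hqr
      obtain ⟨j, hj1, hj2, hj3⟩ := ((hQ _ _ p ε hp tendsto_const_nhds).and
        ((hQ _ _ q δ hq tendsto_const_nhds).and (hQ _ _ r η hr' tendsto_const_nhds))).exists
      refine ⟨ψ (φ j), _, RR0 g hj1, _, ⟨1, by omega, _, hj2, rfl⟩, _, ⟨2, by omega, _, hj3, rfl⟩, ?_⟩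
      rw [e, hw, hg, mk3]
      simp only [List.take_succ_cons, List.take_zero, Function.comp, mk2, mk1]
      group
  · simp at hs; omega

lemma PP_small (g : FreeGroup X) {U : Set (FreeGroup X)} (hU : U ∈ 𝓝 g) :
    ∃ V ∈ 𝓝 (1 : FreeGroup X), PP g V ⊆ U := by
  have h1 : {a | a * g ∈ U} ∈ 𝓝 (1 : FreeGroup X) :=
    (continuous_mul_const g).continuousAt.preimage_mem_nhds (by simpa using hU)
  obtain ⟨A, hA, h2⟩ := exists_nhds_one_split h1
  obtain ⟨B, hB, h3⟩ := exists_nhds_one_split hA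
  have h4 : ∀ᶠ q in 𝓝 (1 : FreeGroup X), ∀ i ∈ Iic 3,
      mk (g.toWord.take i) * q * (mk (g.toWord.take i))⁻¹ ∈ A ∩ B := by
    rw [eventually_all_finite (finite_Iic 3)]
    intro i _
    have : Continuous fun q : FreeGroup X => mk (g.toWord.take i) * q * (mk (g.toWord.take i))⁻¹ := by
      fun_prop
    exact this.continuousAt.preimage_mem_nhds (by rw [mul_one, mul_inv_cancel]; exact inter_mem hA hB)
  refine ⟨_, h4, ?_⟩
  rintro _ ⟨_, ⟨i, hi, a, ha, rfl⟩, _, ⟨j, hj, b, hb, rfl⟩, _, ⟨k, hk, c, hc, rfl⟩, rfl⟩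
  exact h2 _ (h3 _ (ha i hi).2 _ (hb j hj).2) _ (hc k hk).1

theorem mainF [T35Space X] [T2Space (FreeGroup X)] (hk : KSp X) (hr : RegDiag X)
    (hof : Continuous (of : X → FreeGroup X))
    (hu : ∀ (G : Type) [Group G] [TopologicalSpace G] [IsTopologicalGroup G] (f : X → G),
      Continuous f → Continuous (FreeGroup.lift f))
    (h : SnfCountable (FLevel X 2)) : SnfCountable (FLevel X 3) := by
  have hT : ∀ f : X → ℝ, Continuous f → Continuous (TT f) := fun f hf =>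
    continuous_const.mul (((Units.continuous_val.comp (hu _ _ (aff_cont.comp hf))).matrix_elem 0 1))
  obtain ⟨𝒮, hc, h1, h2, h3⟩ := h ⟨1, [], by simp, rfl⟩
  intro g0
  refine ⟨(fun P => {h | h.1 ∈ PP g0.1 (Subtype.val '' P)}) '' 𝒮, hc.image _, ?_, ?_, ?_⟩
  · rintro _ ⟨P, hP, rfl⟩
    have h0 : (1 : FreeGroup X) ∈ Subtype.val '' P := ⟨_, (h1 P hP).1, rfl⟩
    refine ⟨⟨1, RR0 _ h0, 1, RR0 _ h0, 1, RR0 _ h0, by simp⟩, fun u hu' => ?_⟩
    by_contra hne
    obtain ⟨ψ, hψ, hψ'⟩ := extraction_of_frequently_atTop (not_eventually.1 hne)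
    obtain ⟨j, hj⟩ := seqF hk hr hof hT _ h0 (by
        intro x y p ε hx hy
        have hl : ∀ j, lt (x j) ε * (lt (y j) ε)⁻¹ ∈ FLevel X 2 := fun j =>
          ⟨[(x j, ε), (y j, !ε)], le_rfl, by rw [mk2, lt_inv]⟩
        have ht := (((lt_cont hof ε).tendsto p).comp hx).mul
          (((lt_cont hof ε).tendsto p).comp hy).inv
        rw [mul_inv_cancel] at ht
        filter_upwards [(h1 P hP).2 (fun j => ⟨_, hl j⟩) (tendsto_subtype_rng.2 ht)] with j hj
        exact ⟨_, hj, rfl⟩) g0.1 (fun j => (u (ψ j)).1) (fun j => (u _).2)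
      (((continuous_subtype_val.tendsto g0).comp hu').comp hψ.tendsto_atTop)
    exact hψ' j hj
  · intro U hU hgU
    obtain ⟨O, hO, rfl⟩ := isOpen_induced_iff.1 hU
    obtain ⟨V, hV, hS⟩ := PP_small g0.1 (hO.mem_nhds hgU)
    obtain ⟨P, hP, hPV⟩ := h2 (Subtype.val ⁻¹' interior V)
      (isOpen_interior.preimage continuous_subtype_val) (mem_interior_iff_mem_nhds.2 hV)
    exact ⟨_, ⟨P, hP, rfl⟩, fun a ha =>
      hS (PP_mono _ (by rintro _ ⟨b, hb, rfl⟩; exact interior_subset (hPV hb)) ha)⟩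
  · rintro _ ⟨P, hP, rfl⟩ _ ⟨Q, hQ, rfl⟩
    obtain ⟨R, hR, hRPQ⟩ := h3 P hP Q hQ
    exact ⟨_, ⟨R, hR, rfl⟩, fun a ha =>
      ⟨PP_mono _ (image_mono (hRPQ.trans inter_subset_left)) ha,
       PP_mono _ (image_mono (hRPQ.trans inter_subset_right)) ha⟩⟩

end Pool.Agent.H55.Snf
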