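import Mathlib

namespace Pool.Agent.H55.Snf
open Set Filter Topology

/-- The free Abelian topological group `A(X)`: the free Abelian group `X →₀ ℤ` with the finest
group topology making `x ↦ 1·x` continuous. -/
@[reducible] noncomputable def freeTop (X : Type*) [TopologicalSpace X] : TopologicalSpace (X →₀ ℤ) :=
  sInf {t | @IsTopologicalAddGroup _ t _ ∧ @Continuous _ _ _ t (fun x : X => Finsupp.single x (1 : ℤ))}

/-- Length of the reduced form `∑ nᵢ xᵢ`: `∑ |nᵢ|`. -/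
noncomputable def len {X : Type*} (g : X →₀ ℤ) : ℕ := g.sum fun _ n => n.natAbs

/-- Every point has a countable sn-network. -/
def SnfCountable (Y : Type*) [TopologicalSpace Y] : Prop :=
  ∀ y : Y, ∃ 𝒮 : Set (Set Y), 𝒮.Countable ∧
    (∀ P ∈ 𝒮, y ∈ P ∧ ∀ u : ℕ → Y, Tendsto u atTop (𝓝 y) → ∀ᶠ n in atTop, u n ∈ P) ∧
    (∀ U, IsOpen U → y ∈ U → ∃ P ∈ 𝒮, P ⊆ U) ∧
    ∀ P ∈ 𝒮, ∀ Q ∈ 𝒮, ∃ R ∈ 𝒮, R ⊆ P ∩ Q

/-- `A_n(X)` (elements of length at most `n`, subspace of `A(X)`) is snf-countable. -/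
def LevelSnf (X : Type*) [TopologicalSpace X] (n : ℕ) : Prop :=
  @SnfCountable {g : X →₀ ℤ // len g ≤ n} (TopologicalSpace.induced Subtype.val (freeTop X))

/-- `k`-space. -/
def KSp (X : Type*) [TopologicalSpace X] : Prop :=
  ∀ C : Set X, (∀ K : Set X, IsCompact K → IsClosed ((Subtype.val : K → X) ⁻¹' C)) → IsClosed C

/-- Regular `G_δ`-diagonal. -/
def RegDiag (X : Type*) [TopologicalSpace X] : Prop :=
  ∃ U : ℕ → Set (X × X), (∀ m, IsOpen (U m) ∧ diagonal X ⊆ U m) ∧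
    ⋂ m, closure (U m) = diagonal X

end Pool.Agent.H55.Snf
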