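import Mathlib

namespace Pool.Agent.H55.SondowDefs

/-- `n` is a `μ`-Sondow number: for every prime `p ∣ n` with `p ^ s ∥ n`, `p ^ s ∣ n / p + μ`. -/
def IsSondow (μ : ℤ) (n : ℕ) : Prop :=
  0 < n ∧ ∀ p : ℕ, p.Prime → p ∣ n → ((p : ℤ) ^ (n.factorization p)) ∣ ((n / p : ℕ) : ℤ) + μ

end Pool.Agent.H55.SondowDefs
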