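import Mathlib
import Pool.Agent.H55.SondowDefs

namespace Pool.Agent.H55.Sondow

open Pool.Agent.H55.SondowDefs

theorem prime_case {μ : ℤ} {p : ℕ} (hp : p.Prime) (h : (p : ℤ) ∣ μ + 1) : IsSondow μ p := by
  refine ⟨hp.pos, fun q hq hqp => ?_⟩
  have := (Nat.prime_dvd_prime_iff_eq hq hp).1 hqp
  subst this
  rw [hq.factorization_self, pow_one, Nat.div_self hq.pos, add_comm]
  simpa using h

theorem two_case {s : ℕ} {u : ℤ} (hu : Odd u) : IsSondow (2 ^ s * u) (2 ^ (s + 1)) := by
  refine ⟨by positivity, fun q hq hqp => ?_⟩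
  have := (Nat.prime_dvd_prime_iff_eq hq Nat.prime_two).1 (hq.dvd_of_dvd_pow hqp)
  subst this
  rw [Nat.Prime.factorization_pow Nat.prime_two, Finsupp.single_eq_same, pow_succ 2 s,
    Nat.mul_div_cancel _ (by norm_num)]
  obtain ⟨k, rfl⟩ := hu
  exact ⟨k + 1, by push_cast; ring⟩

theorem case145 {μ : ℤ} (h : μ % 145 = 111) : IsSondow μ 145 := by
  refine ⟨by norm_num, fun q hq hqp => ?_⟩
  have hsq : Squarefree 145 := by
    rw [show 145 = 5 * 29 by norm_num, Nat.squarefree_mul_iff]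
    exact ⟨by norm_num, (by norm_num : Nat.Prime 5).squarefree,
      (by norm_num : Nat.Prime 29).squarefree⟩
  have h1 : (145 : ℕ).factorization q = 1 := Nat.factorization_eq_one_of_squarefree hsq hq hqp
  rw [h1, pow_one]
  have : q ∣ 5 * 29 := hqp
  rcases (hq.dvd_mul).1 this with h2 | h2
  · have := (Nat.prime_dvd_prime_iff_eq hq (by norm_num)).1 h2
    subst this; norm_num; omega
  · have := (Nat.prime_dvd_prime_iff_eq hq (by norm_num)).1 h2
    subst this; norm_num; omega

theorem case627 : IsSondow 65536 627 := by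
  refine ⟨by norm_num, fun q hq hqp => ?_⟩
  have hsq : Squarefree 627 := by
    rw [show 627 = 3 * (11 * 19) by norm_num, Nat.squarefree_mul_iff, Nat.squarefree_mul_iff]
    exact ⟨by norm_num, (by norm_num : Nat.Prime 3).squarefree, by norm_num,
      (by norm_num : Nat.Prime 11).squarefree, (by norm_num : Nat.Prime 19).squarefree⟩
  have h1 : (627 : ℕ).factorization q = 1 := Nat.factorization_eq_one_of_squarefree hsq hq hqp
  rw [h1, pow_one]
  have : q ∣ 3 * (11 * 19) := hqp
  rcases (hq.dvd_mul).1 this with h2 | h2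
  · have := (Nat.prime_dvd_prime_iff_eq hq (by norm_num)).1 h2
    subst this; norm_num
  · rcases (hq.dvd_mul).1 h2 with h2 | h2
    · have := (Nat.prime_dvd_prime_iff_eq hq (by norm_num)).1 h2
      subst this; norm_num
    · have := (Nat.prime_dvd_prime_iff_eq hq (by norm_num)).1 h2
      subst this; norm_num

theorem mod145 (k : ℕ) : (2 : ℤ) ^ 2 ^ (3 * k + 3) % 145 = 111 := by
  induction k with
  | zero => norm_num
  | succ k ih =>
    have e : (2 : ℤ) ^ 2 ^ (3 * (k + 1) + 3) = (2 ^ 2 ^ (3 * k + 3)) ^ 8 := by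
      rw [← pow_mul]; congr 1; ring
    rw [e]
    have h : (2 : ℤ) ^ 2 ^ (3 * k + 3) ≡ 111 [ZMOD 145] := ih
    have h2 := h.pow 8
    unfold Int.ModEq at h2
    rw [h2]; norm_num

theorem main (μ : ℤ) (h0 : μ ∉ ({0, 1, -1, 2, -2, 4, 16} : Set ℤ))
    (hF : ¬ ∃ m : ℕ, 5 ≤ m ∧ ¬ 3 ∣ m ∧ μ = 2 ^ 2 ^ m ∧ Nat.Prime (2 ^ 2 ^ m + 1)) :
    ∃ n : ℕ, 2 ≤ n ∧ (n : ℤ) ≤ |μ| ∧ IsSondow μ n := by
  simp only [Set.mem_insert_iff, Set.mem_singleton_iff, not_or] at h0
  rcases lt_or_ge μ 0 with hneg | hpos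
  · obtain ⟨k, hk⟩ : ∃ k : ℕ, μ + 1 = -k := ⟨(-(μ + 1)).toNat, by omega⟩
    have hk1 : k ≠ 1 := by omega
    refine ⟨k.minFac, (Nat.minFac_prime hk1).two_le, ?_, prime_case (Nat.minFac_prime hk1) ?_⟩
    · have := Nat.minFac_le (n := k) (by omega)
      rw [abs_of_neg hneg]; omega
    · rw [hk, dvd_neg]; exact_mod_cast Nat.minFac_dvd k
  obtain ⟨M, rfl⟩ := Int.eq_ofNat_of_zero_le hpos
  rw [abs_of_nonneg hpos]
  by_cases hp : (M + 1).Prime
  · obtain ⟨s, u, hu, rfl⟩ := Nat.exists_eq_two_pow_mul_odd (n := M) (by omega)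
    by_cases hu1 : u = 1
    · subst hu1
      rw [mul_one] at hp ⊢
      have hs : s ≠ 0 := by rintro rfl; simp at h0
      obtain ⟨m, rfl⟩ := Nat.pow_of_pow_add_prime (by norm_num) hs hp
      by_cases h3 : 3 ∣ m
      · obtain ⟨k, rfl⟩ := h3
        rcases Nat.eq_zero_or_pos k with rfl | hk
        · simp at h0
        obtain ⟨j, rfl⟩ : ∃ j, k = j + 1 := ⟨k - 1, by omega⟩
        refine ⟨145, by norm_num, ?_, case145 ?_⟩
        · have : 2 ^ 2 ^ 3 ≤ 2 ^ 2 ^ (3 * (j + 1)) :=
            Nat.pow_le_pow_right (by norm_num) (Nat.pow_le_pow_right (by norm_num) (by omega))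
          have : 145 ≤ 2 ^ 2 ^ (3 * (j + 1)) := le_trans (by norm_num) this
          exact_mod_cast this
        · have := mod145 j
          push_cast
          rwa [mul_add, mul_one]
      · by_cases h5 : 5 ≤ m
        · exact absurd ⟨m, h5, h3, by push_cast; ring, hp⟩ hF
        · have : m < 5 := by omega
          interval_cases m
          · simp at h3
          · simp at h0
          · simp at h0
          · simp at h3
          · exact ⟨627, by norm_num, by norm_num, by simpa using case627⟩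
    · refine ⟨2 ^ (s + 1), ?_, ?_, ?_⟩
      · exact le_self_pow₀ (by norm_num) (by omega)
      · have : 2 ≤ u := by obtain ⟨k, rfl⟩ := hu; omega
        have : 2 ^ (s + 1) ≤ 2 ^ s * u := by rw [pow_succ]; exact Nat.mul_le_mul_left _ this
        exact_mod_cast this
      · have := two_case (s := s) (u := (u : ℤ)) (by exact_mod_cast hu)
        simpa using this
  · have hk1 : M + 1 ≠ 1 := by omega
    refine ⟨(M + 1).minFac, (Nat.minFac_prime hk1).two_le, ?_,
      prime_case (Nat.minFac_prime hk1) ?_⟩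
    · have := (Nat.not_prime_iff_minFac_lt (n := M + 1) (by omega)).1 hp
      omega
    · exact_mod_cast Nat.minFac_dvd (M + 1)

end Pool.Agent.H55.Sondow
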