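import Mathlib

namespace Pool.Agent.H55.SparseDiff

open Finset Filter

noncomputable section
open Classical

/-- number of elements of E in the window of length l starting at M+1 -/
def win (E : Set ℕ) (M l : ℕ) : ℕ := ((Ico (M + 1) (M + 1 + l)).filter (· ∈ E)).card

/-- number of elements of E in [1,N] -/
def cnt (E : Set ℕ) (N : ℕ) : ℕ := ((Icc 1 N).filter (· ∈ E)).card

/-- number of pairs (x, r), x ∈ E ∩ [1,N], r ∈ [p, p+l), x - r ∈ E, r < x -/
def bad (E : Set ℕ) (N p l : ℕ) : ℕ :=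
  ∑ x ∈ (Icc 1 N).filter (· ∈ E), ((Ico p (p + l)).filter (fun r => r < x ∧ x - r ∈ E)).card

lemma inner_le (E : Set ℕ) (x p l : ℕ) (c : ℝ) (h : ∀ M, (win E M l : ℝ) ≤ c) :
    (((Ico p (p + l)).filter (fun r => r < x ∧ x - r ∈ E)).card : ℝ) ≤ c := by
  refine le_trans ?_ (h (x - (p + l)))
  unfold win
  have : ((Ico p (p + l)).filter (fun r => r < x ∧ x - r ∈ E)).card ≤
      ((Ico (x - (p + l) + 1) (x - (p + l) + 1 + l)).filter (· ∈ E)).card := by
    apply Finset.card_le_card_of_injOn (fun r => x - r)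
    · intro r hr
      simp only [coe_filter, mem_Ico, Set.mem_ofPred_eq] at hr ⊢
      refine ⟨⟨by omega, by omega⟩, hr.2.2⟩
    · intro r hr s hs hrs
      simp only [coe_filter, mem_Ico, Set.mem_ofPred_eq] at hr hs
      simp only at hrs
      omega
  exact_mod_cast this

lemma bad_le (E : Set ℕ) (N p l : ℕ) (c : ℝ) (h : ∀ M, (win E M l : ℝ) ≤ c) :
    (bad E N p l : ℝ) ≤ c * cnt E N := by
  unfold bad cnt
  push_cast
  calc _ ≤ ∑ _x ∈ (Icc 1 N).filter (· ∈ E), c :=
        Finset.sum_le_sum (fun x _ => inner_le E x p l c h)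
    _ = _ := by simp [mul_comm]

lemma bad_add (E : Set ℕ) (N p l k : ℕ) :
    bad E N p (l + k) = bad E N p l + bad E N (p + l) k := by
  unfold bad
  rw [← Finset.sum_add_distrib]
  refine Finset.sum_congr rfl (fun x _ => ?_)
  rw [← Finset.card_union_of_disjoint]
  · congr 1
    rw [← Finset.filter_union]
    congr 1
    rw [Finset.Ico_union_Ico_eq_Ico (by omega) (by omega)]
    congr 1
    omega
  · apply Finset.disjoint_filter_filter
    exact Finset.Ico_disjoint_Ico_consecutive _ _ _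

lemma bad_blocks (E : Set ℕ) (N p l : ℕ) (m : ℕ) :
    bad E N p (m * l) = ∑ b ∈ range m, bad E N (p + b * l) l := by
  induction m with
  | zero => simp [bad]
  | succ m ih => rw [Finset.sum_range_succ, ← ih, add_mul, one_mul, bad_add]

/-- the sparseness hypothesis -/
def Sparse (E : Set ℕ) : Prop :=
  ∀ ε : ℝ, 0 < ε → ∃ L : ℕ, ∀ l ≥ L, ∀ M, (win E M l : ℝ) ≤ ε * l

lemma step (E : Set ℕ) (hE : Sparse E) (S : Set ℕ) (hS : S.Infinite) (P l : ℕ) (hl : 1 ≤ l)
    (η : ℝ) (hη : 0 < η) :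
    ∃ p, P ≤ p ∧ {N ∈ S | (bad E N p l : ℝ) ≤ η * cnt E N}.Infinite := by
  have hl' : (0 : ℝ) < l := by exact_mod_cast hl
  obtain ⟨L, hL⟩ := hE (η / l) (by positivity)
  set m := L + 1 with hm
  have hml : L ≤ m * l := by nlinarith
  have key : ∀ N, ∃ b ∈ range m, (bad E N (P + b * l) l : ℝ) ≤ η * cnt E N := by
    intro N
    have h1 := bad_le E N P (m * l) _ (hL (m * l) hml)
    rw [bad_blocks] at h1
    push_cast at h1
    have h2 : η / l * ((m : ℝ) * l) * cnt E N = ∑ _b ∈ range m, η * cnt E N := by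
      simp only [Finset.sum_const, Finset.card_range, nsmul_eq_mul]
      field_simp
    rw [h2] at h1
    exact Finset.exists_le_of_sum_le ⟨0, by simp [hm]⟩ h1
  by_contra hcon
  push Not at hcon
  apply hS
  have : S ⊆ ⋃ b ∈ range m, {N ∈ S | (bad E N (P + b * l) l : ℝ) ≤ η * cnt E N} := by
    intro N hN
    obtain ⟨b, hb, hb'⟩ := key N
    simp only [Set.mem_iUnion]
    exact ⟨b, hb, hN, hb'⟩
  refine Set.Finite.subset ?_ this
  apply Set.Finite.biUnion (Finset.finite_toSet _)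
  intro b _
  exact hcon _ (by omega)

lemma cnt_mono (E : Set ℕ) {N N' : ℕ} (h : N ≤ N') : cnt E N ≤ cnt E N' := by
  unfold cnt
  apply Finset.card_le_card
  apply Finset.filter_subset_filter
  exact Finset.Icc_subset_Icc_right h

lemma cnt_unbdd (E : Set ℕ) (hinf : E.Infinite) (K : ℕ) : ∃ N0, ∀ N ≥ N0, K ≤ cnt E N := by
  obtain ⟨T, hT, hTc⟩ := (hinf.sdiff (Set.finite_singleton 0)).exists_subset_card_eq K
  refine ⟨T.sup id, fun N hN => ?_⟩
  rw [← hTc]
  unfold cnt
  apply Finset.card_le_card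
  intro x hx
  have h1 := hT hx
  have h2 : x ≤ T.sup id := Finset.le_sup (f := id) hx
  simp only [Set.mem_sdiff, Set.mem_singleton_iff] at h1
  simp only [mem_filter, mem_Icc]
  exact ⟨⟨by omega, by omega⟩, h1.1⟩

structure St where
  S : Set ℕ
  N : ℕ
  p : ℕ

lemma step2 (E : Set ℕ) (hE : Sparse E) (hinf : E.Infinite) (j : ℕ) (s : St) :
    ∃ t : St, s.S.Infinite → (t.S.Infinite ∧ t.S ⊆ s.S ∧ s.N < t.p ∧ t.N ∈ t.S ∧ s.N < t.N ∧
      4 * cnt E s.N ≤ cnt E t.N ∧
      ∀ N ∈ t.S, (bad E N t.p (j + 1) : ℝ) ≤ (1 / 2) ^ (j + 3) * cnt E N) := by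
  by_cases hS : s.S.Infinite
  · obtain ⟨p, hp, hinf'⟩ := step E hE s.S hS (s.N + 1) (j + 1) (by omega)
      ((1 / 2) ^ (j + 3)) (by positivity)
    obtain ⟨N0, hN0⟩ := cnt_unbdd E hinf (4 * cnt E s.N)
    obtain ⟨N, hN, hN'⟩ := hinf'.exists_gt (max N0 s.N)
    refine ⟨⟨_, N, p⟩, fun _ => ⟨hinf', fun x hx => hx.1, by simp only; omega, hN,
      by simp only; exact lt_of_le_of_lt (le_max_right _ _) hN',
      hN0 N (le_trans (le_max_left _ _) hN'.le), fun N hN => hN.2⟩⟩
  · exact ⟨s, fun h => absurd h hS⟩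

theorem core (E : Set ℕ) (hE : Sparse E) (hinf : E.Infinite) :
    ∃ A : Set ℕ, A ⊆ E ∧ ∃ R : Set ℕ, (∀ j, ∃ p, 1 ≤ p ∧ ∀ t < j, p + t ∈ R) ∧ (∀ r ∈ R, 1 ≤ r) ∧
      (∀ x ∈ A, ∀ y ∈ A, ∀ r ∈ R, x ≠ y + r) ∧ (∀ N0, ∃ N ≥ N0, cnt E N ≤ 2 * cnt A N) := by
  choose nxt hnxt using step2 E hE hinf
  let st : ℕ → St := fun j => Nat.rec ⟨Set.univ, 0, 0⟩ (fun j s => nxt j s) j
  have hst : ∀ j, st (j + 1) = nxt j (st j) := fun j => rfl
  have hI : ∀ j, (st j).S.Infinite := by
    intro j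
    induction j with
    | zero => exact Set.infinite_univ
    | succ j ih => rw [hst]; exact (hnxt j _ ih).1
  have hsub : ∀ j, (st (j + 1)).S ⊆ (st j).S := fun j => by rw [hst]; exact (hnxt j _ (hI j)).2.1
  have hp : ∀ j, (st j).N < (st (j + 1)).p := fun j => by rw [hst]; exact (hnxt j _ (hI j)).2.2.1
  have hmem : ∀ j, (st (j + 1)).N ∈ (st (j + 1)).S := fun j => by
    rw [hst]; exact (hnxt j _ (hI j)).2.2.2.1
  have hN : ∀ j, (st j).N < (st (j + 1)).N := fun j => by
    rw [hst]; exact (hnxt j _ (hI j)).2.2.2.2.1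
  have h4 : ∀ j, 4 * cnt E (st j).N ≤ cnt E (st (j + 1)).N := fun j => by
    rw [hst]; exact (hnxt j _ (hI j)).2.2.2.2.2.1
  have hb : ∀ j, ∀ N ∈ (st (j + 1)).S,
      (bad E N (st (j + 1)).p (j + 1) : ℝ) ≤ (1 / 2) ^ (j + 3) * cnt E N := fun j => by
    rw [hst]; exact (hnxt j _ (hI j)).2.2.2.2.2.2
  have hmono : StrictMono (fun j => (st j).N) := strictMono_nat_of_lt_succ hN
  have hanti : ∀ i j, i ≤ j → (st j).S ⊆ (st i).S := by
    intro i j hij
    induction hij with
    | refl => exact subset_rfl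
    | step _ ih => exact (hsub _).trans ih
  let good : ℕ → ℕ → Prop := fun j x =>
    ∀ i ≤ j, ∀ r ∈ Ico (st (i + 1)).p ((st (i + 1)).p + (i + 1)), ¬ (r < x ∧ x - r ∈ E)
  let A : Set ℕ := {x | x ∈ E ∧ ∃ j, (st j).N < x ∧ x ≤ (st (j + 1)).N ∧ good j x}
  let R : Set ℕ := {r | ∃ i, r ∈ Ico (st (i + 1)).p ((st (i + 1)).p + (i + 1))}
  refine ⟨A, fun x hx => hx.1, R, ?_, ?_, ?_, ?_⟩
  · intro j
    refine ⟨(st (j + 1)).p, by have := hp j; omega, fun t ht => ⟨j, ?_⟩⟩
    simp only [mem_Ico]; omega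
  · rintro r ⟨i, hi⟩
    have := hp i
    simp only [mem_Ico] at hi
    omega
  · rintro x ⟨hxE, j, hj1, hj2, hg⟩ y ⟨hyE, k, hk1, -, -⟩ r ⟨i, hi⟩ hxy
    by_cases hij : i ≤ j
    · apply hg i hij r hi
      refine ⟨by omega, ?_⟩
      have : x - r = y := by omega
      rw [this]; exact hyE
    · have h1 : (st (j + 1)).N ≤ (st i).N := hmono.monotone (show j + 1 ≤ i by omega)
      have h2 := hp i
      simp only [mem_Ico] at hi
      omega
  · intro N0
    set N := (st (N0 + 1)).N with hNdef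
    refine ⟨N, ?_, ?_⟩
    · have := hmono.id_le (N0 + 1)
      simp only [id] at this
      omega
    · set j := N0
      have hcover : (Icc 1 N).filter (· ∈ E) ⊆ ((Icc 1 N).filter (· ∈ A) ∪
          (Icc 1 (st j).N).filter (· ∈ E)) ∪
          (range (j + 1)).biUnion (fun i => ((Icc 1 N).filter (· ∈ E)).filter (fun x =>
            ((Ico (st (i + 1)).p ((st (i + 1)).p + (i + 1))).filter
              (fun r => r < x ∧ x - r ∈ E)).Nonempty)) := by
        intro x hx
        have hx' := hx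
        simp only [mem_filter, mem_Icc] at hx'
        simp only [mem_union, mem_biUnion]
        by_cases h1 : x ≤ (st j).N
        · left; right; simp only [mem_filter, mem_Icc]; exact ⟨⟨hx'.1.1, h1⟩, hx'.2⟩
        by_cases h2 : good j x
        · left; left; simp only [mem_filter, mem_Icc]
          exact ⟨hx'.1, hx'.2, j, by omega, hx'.1.2, h2⟩
        · right
          simp only [good, not_forall, not_not] at h2
          obtain ⟨i, hi, r, hr, hr'⟩ := h2
          refine ⟨i, by simp; omega, ?_⟩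
          rw [mem_filter]
          exact ⟨hx, r, by rw [mem_filter]; exact ⟨hr, hr'⟩⟩
      have hc := Finset.card_le_card hcover
      have hc2 := le_trans hc (Finset.card_union_le _ _)
      have hc3 := Finset.card_union_le ((Icc 1 N).filter (· ∈ A)) ((Icc 1 (st j).N).filter (· ∈ E))
      have hc4 := Finset.card_biUnion_le (s := range (j + 1))
        (t := fun i => ((Icc 1 N).filter (· ∈ E)).filter (fun x =>
            ((Ico (st (i + 1)).p ((st (i + 1)).p + (i + 1))).filter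
              (fun r => r < x ∧ x - r ∈ E)).Nonempty))
      have hc5 : ∀ i, (((Icc 1 N).filter (· ∈ E)).filter (fun x =>
            ((Ico (st (i + 1)).p ((st (i + 1)).p + (i + 1))).filter
              (fun r => r < x ∧ x - r ∈ E)).Nonempty)).card ≤ bad E N (st (i + 1)).p (i + 1) := by
        intro i
        unfold bad
        rw [Finset.card_filter]
        apply Finset.sum_le_sum
        intro x _
        split_ifs with h
        · exact h.card_pos
        · exact Nat.zero_le _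
      have hc6 : ((∑ i ∈ range (j + 1), bad E N (st (i + 1)).p (i + 1) : ℕ) : ℝ) ≤
          (1 / 4) * cnt E N := by
        push_cast
        calc _ ≤ ∑ i ∈ range (j + 1), (1 / 2 : ℝ) ^ (i + 3) * cnt E N := by
              apply Finset.sum_le_sum
              intro i hi
              apply hb i
              apply hanti (i + 1) (j + 1) (by simp at hi; omega)
              exact hmem j
          _ = (∑ i ∈ range (j + 1), (1 / 2 : ℝ) ^ i) * (1 / 8) * cnt E N := by
              rw [Finset.sum_mul, Finset.sum_mul]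
              refine Finset.sum_congr rfl (fun i _ => ?_)
              ring
          _ ≤ 2 * (1 / 8) * cnt E N := by
              gcongr
              exact sum_geometric_two_le _
          _ = _ := by ring
      have hc7 : 4 * (∑ i ∈ range (j + 1), bad E N (st (i + 1)).p (i + 1)) ≤ cnt E N := by
        have : (4 : ℝ) * ((∑ i ∈ range (j + 1), bad E N (st (i + 1)).p (i + 1) : ℕ) : ℝ) ≤
          cnt E N := by linarith
        exact_mod_cast this
      have hc8 := le_trans hc4 (Finset.sum_le_sum (fun i _ => hc5 i))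
      have h9 := h4 j
      rw [← hNdef] at h9
      have hA : ((Icc 1 N).filter (· ∈ A)).card = cnt A N := by
        unfold cnt
        congr
      rw [hA] at hc3
      unfold cnt at h9 hc7
      have hE' : ((Icc 1 N).filter (· ∈ E)).card = cnt E N := rfl
      omega

/-- thick sets meet the difference set of a set of positive upper density -/
theorem thick_meets (R : Set ℕ) (hR : ∀ j, ∃ p, 1 ≤ p ∧ ∀ t < j, p + t ∈ R) (A : Set ℕ)
    (k : ℕ) (hA : ∀ N0, ∃ N ≥ N0, N ≤ k * cnt A N) :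
    ∃ r ∈ R, ∃ x ∈ A, ∃ y ∈ A, x = y + r := by
  choose p hp1 hp2 using hR
  let t : ℕ → ℕ := fun j => Nat.rec 0 (fun _ s => s + p (s + 1)) j
  have ht : ∀ j, t (j + 1) = t j + p (t j + 1) := fun j => rfl
  have hmono : StrictMono t := strictMono_nat_of_lt_succ (fun j => by
    rw [ht]; have := hp1 (t j + 1); omega)
  have hdiff : ∀ i j, i < j → t j - t i ∈ R := by
    intro i j hij
    obtain ⟨j, rfl⟩ : ∃ j', j = j' + 1 := ⟨j - 1, by omega⟩
    have h1 : t i ≤ t j := hmono.monotone (by omega)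
    have := hp2 (t j + 1) (t j - t i) (by omega)
    rw [ht]
    have e : t j + p (t j + 1) - t i = p (t j + 1) + (t j - t i) := by omega
    rw [e]; exact this
  by_contra hcon
  push Not at hcon
  obtain ⟨N, hN, hN'⟩ := hA (t (2 * k + 1) + 1)
  set F := (Icc 1 N).filter (· ∈ A) with hF
  have hinj : Set.InjOn (fun q : ℕ × ℕ => q.1 + t q.2)
      ((F ×ˢ range (2 * k) : Finset (ℕ × ℕ)) : Set (ℕ × ℕ)) := by
    rintro ⟨a, i⟩ ha ⟨b, j⟩ hb hab
    simp only [coe_product, Set.mem_prod, hF, coe_filter, Set.mem_ofPred_eq] at ha hb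
    simp only at hab
    rcases lt_trichotomy i j with h | h | h
    · exfalso
      have h1 := hmono h
      exact hcon _ (hdiff i j h) a ha.1.2 b hb.1.2 (by omega)
    · subst h
      have : a = b := by omega
      rw [this]
    · exfalso
      have h1 := hmono h
      exact hcon _ (hdiff j i h) b hb.1.2 a ha.1.2 (by omega)
  have hmaps : Set.MapsTo (fun q : ℕ × ℕ => q.1 + t q.2)
      ((F ×ˢ range (2 * k) : Finset (ℕ × ℕ)) : Set (ℕ × ℕ))
      ((Icc 1 (N + t (2 * k + 1)) : Finset ℕ) : Set ℕ) := by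
    rintro ⟨a, i⟩ ha
    simp only [coe_product, Set.mem_prod, hF, coe_filter, Set.mem_ofPred_eq, mem_Icc,
      coe_range, Set.mem_Iio] at ha
    have h1 : t i ≤ t (2 * k + 1) := hmono.monotone (show i ≤ 2 * k + 1 by omega)
    simp only [coe_Icc, Set.mem_Icc]
    omega
  have hc := Finset.card_le_card_of_injOn _ hmaps hinj
  rw [Finset.card_product, Finset.card_range, Nat.card_Icc] at hc
  have hA' : F.card = cnt A N := rfl
  rw [hA'] at hc
  have : cnt A N * (2 * k) = 2 * (k * cnt A N) := by ring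
  omega

lemma win_eq (E : Set ℕ) (M l : ℕ) : (E ∩ Set.Ico (M + 1) (M + 1 + l)).ncard = win E M l := by
  unfold win
  rw [← Set.ncard_coe_finset]
  congr 1
  ext x
  simp only [Set.mem_inter_iff, coe_filter, Set.mem_ofPred_eq, mem_Ico, mem_Icc, Set.mem_Ico,
    Set.mem_Icc]
  tauto

lemma cnt_eq (E : Set ℕ) (N : ℕ) : (E ∩ Set.Icc 1 N).ncard = cnt E N := by
  unfold cnt
  rw [← Set.ncard_coe_finset]
  congr 1
  ext x
  simp only [Set.mem_inter_iff, coe_filter, Set.mem_ofPred_eq, mem_Ico, mem_Icc, Set.mem_Ico,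
    Set.mem_Icc]
  tauto

lemma win_le (E : Set ℕ) (M l : ℕ) : win E M l ≤ l := by
  unfold win
  refine le_trans (Finset.card_filter_le _ _) ?_
  simp

lemma win_div_le (E : Set ℕ) (M l : ℕ) : (win E M l : ℝ) / l ≤ 1 := by
  apply div_le_one_of_le₀
  · exact_mod_cast win_le E M l
  · positivity

lemma cnt_sub {A E : Set ℕ} (h : A ⊆ E) (N : ℕ) : cnt A N ≤ cnt E N := by
  unfold cnt
  apply Finset.card_le_card
  intro x hx
  simp only [mem_filter] at hx ⊢
  exact ⟨hx.1, h hx.2⟩

lemma ratio_le {A E : Set ℕ} (h : A ⊆ E) (N : ℕ) : (cnt A N : ℝ) / cnt E N ≤ 1 := by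
  apply div_le_one_of_le₀
  · exact_mod_cast cnt_sub h N
  · positivity

lemma limsup_pos {A E : Set ℕ} (h : A ⊆ E) (hinf : E.Infinite)
    (hA : ∀ N0, ∃ N ≥ N0, cnt E N ≤ 2 * cnt A N) :
    0 < limsup (fun N : ℕ => (cnt A N : ℝ) / cnt E N) atTop := by
  have : (1 / 2 : ℝ) ≤ limsup (fun N : ℕ => (cnt A N : ℝ) / cnt E N) atTop := by
    apply le_limsup_of_frequently_le
    · rw [frequently_atTop]
      intro N0
      obtain ⟨N1, hN1⟩ := cnt_unbdd E hinf 1
      obtain ⟨N, hN, hN'⟩ := hA (max N0 N1)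
      refine ⟨N, le_trans (le_max_left _ _) hN, ?_⟩
      have h1 : (1 : ℝ) ≤ cnt E N := by exact_mod_cast hN1 N (le_trans (le_max_right _ _) hN)
      have h2 : (cnt E N : ℝ) ≤ 2 * cnt A N := by exact_mod_cast hN'
      rw [le_div_iff₀ (by linarith)]
      linarith
    · exact ⟨1, by
        simp only [eventually_map]
        exact Eventually.of_forall (fun N => ratio_le h N)⟩
  linarith

lemma cnt_pos_nat (N : ℕ) : cnt {n | 1 ≤ n} N = N := by
  rw [← cnt_eq]
  have : ({n | 1 ≤ n} : Set ℕ) ∩ Set.Icc 1 N = ((Icc 1 N : Finset ℕ) : Set ℕ) := by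
    ext x
    simp only [Set.mem_inter_iff, Set.mem_ofPred_eq, Set.mem_Icc, coe_Icc]
    tauto
  rw [this, Set.ncard_coe_finset]
  simp

lemma freq_of_limsup (A : Set ℕ)
    (h : 0 < limsup (fun N : ℕ => (cnt A N : ℝ) / (N : ℝ)) atTop) :
    ∃ k : ℕ, ∀ N0, ∃ N ≥ N0, N ≤ k * cnt A N := by
  obtain ⟨k, hk⟩ := exists_nat_one_div_lt h
  refine ⟨k + 1, fun N0 => ?_⟩
  have hf := frequently_lt_of_lt_limsup (hu := by
    apply IsBoundedUnder.isCoboundedUnder_le
    exact ⟨0, by
      simp only [eventually_map]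
      exact Eventually.of_forall (fun N => by positivity)⟩) hk
  rw [frequently_atTop] at hf
  obtain ⟨N, hN, hN'⟩ := hf (N0 + 1)
  refine ⟨N, by omega, ?_⟩
  have hpos : (0 : ℝ) < N := by
    have : 0 < N := by omega
    exact_mod_cast this
  rw [div_lt_div_iff₀ (by positivity) hpos] at hN'
  have : (N : ℝ) ≤ ((k + 1 : ℕ) : ℝ) * cnt A N := by push_cast; linarith
  exact_mod_cast this

end

end Pool.Agent.H55.SparseDiff
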