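import Mathlib

/-! A group with compact closures of countable subgroups on which the open player wins the
selectively sequentially pseudocompact game. -/

namespace Pool.Agent.H55.Ssp

open Set Topology Filter

abbrev V : Type := ℝ → ZMod 2

def Supp (A : Set ℝ) : AddSubgroup (V → ZMod 2) where
  carrier := {χ | (∀ v w, χ (v + w) = χ v + χ w) ∧ ∀ v, (∀ i ∈ A, v i = 0) → χ v = 0}
  add_mem' := fun {a b} ha hb => ⟨fun v w => by
    simp only [Pi.add_apply, ha.1 v w, hb.1 v w]; ring, fun v hv => by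
    simp [ha.2 v hv, hb.2 v hv]⟩
  zero_mem' := ⟨fun _ _ => by simp, fun _ _ => rfl⟩
  neg_mem' := fun {a} ha => ⟨fun v w => by
    simp only [Pi.neg_apply, ha.1 v w]; ring, fun v hv => by simp [ha.2 v hv]⟩

theorem Supp_mono {A B : Set ℝ} (h : A ⊆ B) : Supp A ≤ Supp B := fun _ hχ =>
  ⟨hχ.1, fun v hv => hχ.2 v fun i hi => hv i (h hi)⟩

theorem Supp_closed (A : Set ℝ) : IsClosed (Supp A : Set (V → ZMod 2)) := by
  have : (Supp A : Set (V → ZMod 2)) = (⋂ v, ⋂ w, {χ | χ (v + w) = χ v + χ w}) ∩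
      ⋂ v, ⋂ _ : ∀ i ∈ A, v i = 0, {χ | χ v = 0} := by
    ext χ
    simp only [mem_inter_iff, mem_iInter]
    rfl
  rw [this]
  refine IsClosed.inter (isClosed_iInter fun v => isClosed_iInter fun w => ?_)
    (isClosed_iInter fun v => isClosed_iInter fun _ => ?_)
  · exact isClosed_eq (by fun_prop) (by fun_prop)
  · exact isClosed_eq (by fun_prop) continuous_const

/-- countably supported functionals -/
def G : AddSubgroup (V → ZMod 2) where
  carrier := {χ | ∃ A : Set ℝ, A.Countable ∧ χ ∈ Supp A}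
  add_mem' := fun ⟨A, hA, ha⟩ ⟨B, hB, hb⟩ => ⟨A ∪ B, hA.union hB,
    add_mem (Supp_mono subset_union_left ha) (Supp_mono subset_union_right hb)⟩
  zero_mem' := ⟨∅, countable_empty, zero_mem _⟩
  neg_mem' := fun ⟨A, hA, ha⟩ => ⟨A, hA, neg_mem ha⟩

theorem compact_closure (H : Set G) (hH : H.Countable) : IsCompact (closure H) := by
  choose A hA hχ using fun g : G => g.2
  have hc : (⋃ g ∈ H, A g).Countable := hH.biUnion fun g _ => hA g
  have h1 : IsCompact (Subtype.val ⁻¹' (Supp (⋃ g ∈ H, A g) : Set (V → ZMod 2)) : Set G) := by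
    rw [Subtype.isCompact_iff, image_preimage_eq_of_subset]
    · exact (Supp_closed _).isCompact
    · exact fun χ h => ⟨⟨χ, _, hc, h⟩, rfl⟩
  refine h1.of_isClosed_subset isClosed_closure (closure_minimal ?_
    ((Supp_closed _).preimage continuous_subtype_val))
  intro g hg
  exact Supp_mono (subset_biUnion_of_mem (u := A) hg) (hχ g)

/-- the open sets played by the open player -/
def U (a : ℝ) : Set G := {g | g.1 (Pi.single a 1) = 1}

theorem U_open (a : ℝ) : IsOpen (U a) :=
  (isOpen_discrete {(1 : ZMod 2)}).preimage (f := fun g : G => g.1 (Pi.single a 1))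
    ((continuous_apply _).comp continuous_subtype_val)

theorem U_ne (a : ℝ) : (U a).Nonempty :=
  ⟨⟨fun v => v a, {a}, countable_singleton a, fun _ _ => rfl, fun v hv => hv a rfl⟩, by simp [U]⟩

/-- no subsequence converges along a triangular system -/
theorem no_conv (a : ℕ → ℝ) (x : ℕ → G) (A : ℕ → Set ℝ) (hA : ∀ n, (x n).1 ∈ Supp (A n))
    (hx : ∀ n, x n ∈ U (a n)) (h1 : ∀ n m, n < m → a m ∉ A n) (h2 : Function.Injective a)
    (φ : ℕ → ℕ) (hφ : StrictMono φ) (y : G) : ¬ Tendsto (x ∘ φ) atTop (𝓝 y) := by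
  classical
  intro hlim
  let t : ℕ → ZMod 2 := fun n => if ∃ k, φ (2 * k) = n then 0 else 1
  let w : ℕ → V := fun n => Nat.rec 0 (fun n v => v + (t n - (x n).1 v) • Pi.single (a n) 1) n
  have hw : ∀ n, w (n + 1) = w n + (t n - (x n).1 (w n)) • Pi.single (a n) 1 := fun n => rfl
  have hsm : ∀ n (c : ZMod 2), (x n).1 (c • Pi.single (a n) 1) = c := by
    intro n c
    rcases (show c = 0 ∨ c = 1 by revert c; decide) with rfl | rfl
    · exact (hA n).2 _ fun i _ => by simp
    · rw [one_smul]; exact hx n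
  have hval : ∀ n, (x n).1 (w (n + 1)) = t n := fun n => by
    rw [hw, (hA n).1, hsm]; ring
  have hst : ∀ n k i, (∀ m, n ≤ m → i ≠ a m) → w (n + k) i = w n i := by
    intro n k i hi
    induction k with
    | zero => rfl
    | succ k ih =>
      rw [← add_assoc, hw, Pi.add_apply, ih, Pi.smul_apply,
        Pi.single_eq_of_ne (hi (n + k) (by omega)), smul_zero, add_zero]
  let v : V := fun i => if h : ∃ m, a m = i then w (h.choose + 1) i else 0
  have hw0 : ∀ n i, (∀ m, m < n → i ≠ a m) → w n i = 0 := by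
    intro n i hi
    induction n with
    | zero => rfl
    | succ n ih =>
      rw [hw, Pi.add_apply, ih fun m hm => hi m (by omega), Pi.smul_apply,
        Pi.single_eq_of_ne (hi n (by omega)), smul_zero, add_zero]
  have hv : ∀ n, (x n).1 v = t n := by
    intro n
    have h3 : v = w (n + 1) + (v - w (n + 1)) := by ring
    rw [h3, (hA n).1, hval, (hA n).2, add_zero]
    intro i hi
    rw [Pi.sub_apply, sub_eq_zero]
    by_cases h : ∃ m, a m = i
    · have h4 := h.choose_spec
      have h5 : h.choose ≤ n := by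
        by_contra h5
        exact h1 n _ (not_le.1 h5) (by rw [h4]; exact hi)
      obtain ⟨k, hk⟩ := Nat.exists_eq_add_of_le (Nat.succ_le_succ h5)
      simp only [v, dif_pos h]
      rw [show n + 1 = h.choose + 1 + k from hk, hst]
      intro m hm e
      have := h2 (h4.trans e)
      omega
    · simp only [v, dif_neg h]
      exact (hw0 (n + 1) i fun m _ e => h ⟨m, e.symm⟩).symm
  have h3 : Tendsto (fun k => (x (φ k)).1 v) atTop (𝓝 (y.1 v)) :=
    (((continuous_apply v).comp continuous_subtype_val).tendsto y).comp hlim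
  rw [nhds_discrete, tendsto_pure, eventually_atTop] at h3
  obtain ⟨N, hN⟩ := h3
  have e1 := hN (2 * N) (by omega)
  have e2 := hN (2 * N + 1) (by omega)
  rw [hv] at e1 e2
  have e3 : t (φ (2 * N)) = 0 := if_pos ⟨N, rfl⟩
  have e4 : t (φ (2 * N + 1)) = 1 := if_neg fun ⟨k, hk⟩ => by
    have := hφ.injective hk
    omega
  rw [e3] at e1
  rw [e4, ← e1] at e2
  exact one_ne_zero e2

/-- against any rule choosing a point in each `U a` there is a bad sequence -/
theorem bad (s : ℝ → G) (hs : ∀ a, s a ∈ U a) : ∃ a : ℕ → ℝ, ∀ φ : ℕ → ℕ, StrictMono φ →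
    ∀ y : G, ¬ Tendsto ((fun n => s (a n)) ∘ φ) atTop (𝓝 y) := by
  choose A hA hχ using fun g : G => g.2
  have h0 : ∀ B : {B : Set ℝ // B.Countable}, ∃ a, a ∉ B.1 := fun B => by
    by_contra h
    push Not at h
    exact Cardinal.not_countable_real (B.2.mono fun a _ => h a)
  choose p hp using h0
  let B : ℕ → {B : Set ℝ // B.Countable} := fun n => Nat.rec ⟨∅, countable_empty⟩
    (fun _ B => ⟨insert (p B) (B.1 ∪ A (s (p B))), (B.2.union (hA _)).insert _⟩) n
  have hB : ∀ n, (B (n + 1)).1 = insert (p (B n)) ((B n).1 ∪ A (s (p (B n)))) := fun n => rfl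
  have hm : Monotone fun n => (B n).1 := monotone_nat_of_le_succ fun n x hx => by
    show x ∈ (B (n + 1)).1
    rw [hB]; exact Or.inr (Or.inl hx)
  have h1 : ∀ n m, n < m → p (B m) ∉ (B (n + 1)).1 := fun n m h hh => hp (B m) (hm h hh)
  refine ⟨fun n => p (B n), fun φ hφ y => no_conv (fun n => p (B n)) _ (fun n => A (s (p (B n))))
    (fun n => hχ _) (fun n => hs _) (fun n m h hh => h1 n m h ?_) ?_ φ hφ y⟩
  · rw [hB]; exact Or.inr (Or.inr hh)
  · intro n m h
    rcases lt_trichotomy n m with h2 | h2 | h2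
    · exact absurd (by rw [hB]; exact Or.inl h.symm) (h1 n m h2)
    · exact h2
    · exact absurd (by rw [hB]; exact Or.inl h) (h1 m n h2)

end Pool.Agent.H55.Ssp
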