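import Mathlib

/-! A staged construction of asymptotic bases with prescribed essential subsets. -/

namespace Pool.Agent.H55.Staged

open Set

def R (B : Set ℕ) (j m : ℕ) : Prop :=
  ∃ s : Multiset ℕ, s.card = j ∧ (∀ x ∈ s, x ∈ B) ∧ s.sum = m

theorem R.mono {B B' : Set ℕ} {j m : ℕ} (h : R B j m) (hB : B ⊆ B') : R B' j m := by
  obtain ⟨s, h1, h2, h3⟩ := h
  exact ⟨s, h1, fun x hx => hB (h2 x hx), h3⟩

theorem R.cons {B : Set ℕ} {j m x m' : ℕ} (h : R B j m) (hx : x ∈ B) (e : x + m = m') :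
    R B (j + 1) m' := by
  obtain ⟨s, h1, h2, h3⟩ := h
  refine ⟨x ::ₘ s, by simp [h1], fun y hy => ?_, by simp [h3, e]⟩
  rcases Multiset.mem_cons.1 hy with rfl | hy
  · exact hx
  · exact h2 y hy

theorem R.zero (B : Set ℕ) : R B 0 0 := ⟨0, rfl, by simp, rfl⟩

theorem R.one_iff {B : Set ℕ} {m : ℕ} : R B 1 m ↔ m ∈ B := by
  constructor
  · rintro ⟨s, h1, h2, h3⟩
    obtain ⟨a, rfl⟩ := Multiset.card_eq_one.1 h1
    simp only [Multiset.sum_singleton] at h3
    exact h3 ▸ h2 a (by simp)
  · intro h; exact (R.zero B).cons h (by simp)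

theorem R.interval {B : Set ℕ} {P N : ℕ} (hPN : P ≤ N) (hB : Icc P N ⊆ B) :
    ∀ j m, j * P ≤ m → m ≤ j * N → R B j m := by
  intro j
  induction j with
  | zero => intro m _ h; have : m = 0 := by omega
            subst this; exact R.zero B
  | succ j ih =>
    intro m h1 h2
    rw [add_mul, one_mul] at h1 h2
    have hj : j * P ≤ j * N := Nat.mul_le_mul_left j hPN
    by_cases h : m ≤ j * N + P
    · exact (ih (m - P) (by omega) (by omega)).cons (hB ⟨le_rfl, hPN⟩) (by omega)
    · exact (ih (j * N) hj le_rfl).cons (x := m - j * N) (hB ⟨by omega, by omega⟩) (by omega)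

theorem R_iff {B : Set ℕ} {h m : ℕ} :
    R B h m ↔ ∃ f : Fin h → ℕ, (∀ i, f i ∈ B) ∧ ∑ i, f i = m := by
  constructor
  · rintro ⟨s, rfl, h2, rfl⟩
    induction s using Quotient.inductionOn with
    | h l =>
      refine ⟨fun i => l.get i, fun i => h2 _ (by simp), ?_⟩
      simp only [Multiset.quot_mk_to_coe, Multiset.sum_coe]
      exact (List.sum_ofFn (f := l.get)).symm.trans (by rw [List.ofFn_get])
  · rintro ⟨f, h1, h2⟩
    refine ⟨Finset.univ.val.map f, by simp, fun x hx => ?_, h2⟩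
    obtain ⟨i, _, rfl⟩ := Multiset.mem_map.1 hx
    exact h1 i

variable (d : ℕ) (G : ℕ → Finset ℕ)

def P : ℕ → ℕ
  | 0 => 2
  | i + 1 => 2 * (d * ((d + 1) * P i + 2) + 2)

def N (i : ℕ) : ℕ := (d + 1) * P d i + 2
def M (i : ℕ) : ℕ := d * N d i + 2
def n (i : ℕ) : ℕ := 2 * M d i - 1

theorem P_succ (i : ℕ) : P d (i + 1) = 2 * M d i := rfl

open Classical in
noncomputable def pick (k : ℕ) (B : Set ℕ) : Finset ℕ :=
  if (G k).Nonempty ∧ ↑(G k) ⊆ B then G k else {N d (k * d)}

def nxt (i : ℕ) (A : Set ℕ) (F : Finset ℕ) : Set ℕ :=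
  A ∪ {b | M d i ≤ b ∧ b < n d i ∧ ¬ R (A \ F) (i % d + 1) (n d i - b)} ∪
    Icc (P d (i + 1)) (N d (i + 1))

noncomputable def st : ℕ → Set ℕ × Finset ℕ
  | 0 => (Icc (P d 0) (N d 0), pick d G 0 (Icc (P d 0) (N d 0)))
  | i + 1 => (nxt d i (st i).1 (st i).2,
      if (i + 1) % d = 0 then pick d G ((i + 1) / d) (nxt d i (st i).1 (st i).2) else (st i).2)

def A (i : ℕ) : Set ℕ := (st d G i).1
noncomputable def F (i : ℕ) : Finset ℕ := (st d G i).2
def AA : Set ℕ := ⋃ i, A d G i
def BL (L : ℕ) : Set ℕ := {x | x ∈ AA d G ∧ L ≤ x}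

theorem A_succ (i : ℕ) : A d G (i + 1) = nxt d i (A d G i) (F d G i) := rfl

variable {d}

theorem nums (hd : 1 ≤ d) (i : ℕ) : 2 ≤ P d i ∧ P d i + d * P d i + 2 = N d i ∧
    N d i + 2 ≤ M d i ∧ n d i + 1 = P d (i + 1) ∧ n d i = M d i + d * N d i + 1 ∧
    M d i = d * N d i + 2 ∧ N d i ≤ d * N d i := by
  have h1 : 2 ≤ P d i := by
    cases i with
    | zero => simp [P]
    | succ i => simp only [P]; omega
  have h2 : N d i ≤ d * N d i := Nat.le_mul_of_pos_left _ hd
  refine ⟨h1, by unfold N; ring, by unfold M; omega, by rw [P_succ]; unfold n M; omega,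
    by unfold n M; omega, rfl, h2⟩

theorem P_mono (hd : 1 ≤ d) : StrictMono (P d) := strictMono_nat_of_lt_succ fun i => by
  have := nums hd i; omega

theorem M_mono (hd : 1 ≤ d) : StrictMono (M d) := strictMono_nat_of_lt_succ fun i => by
  have := nums hd i; have := nums hd (i + 1); omega

theorem N_mono (hd : 1 ≤ d) : StrictMono (N d) := strictMono_nat_of_lt_succ fun i => by
  have := nums hd i; have := nums hd (i + 1); omega

theorem A_mono : Monotone (A d G) := monotone_nat_of_le_succ fun i => by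
  rw [A_succ]; exact fun x hx => Or.inl (Or.inl hx)

theorem A_sub (i : ℕ) : A d G i ⊆ AA d G := subset_iUnion _ i

theorem A_bound (hd : 1 ≤ d) (i : ℕ) : ∀ x ∈ A d G i, 1 ≤ x ∧ x ≤ N d i := by
  induction i with
  | zero => intro x hx; have := nums hd 0; have : x ∈ Icc (P d 0) (N d 0) := hx
            rw [mem_Icc] at this; omega
  | succ i ih =>
    intro x hx
    have := nums hd i; have := nums hd (i + 1)
    rcases hx with (hx | hx) | hx
    · have := ih x hx; omega
    · obtain ⟨h1, h2, _⟩ := hx; omega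
    · rw [mem_Icc] at hx; omega

theorem top_sub (i : ℕ) : Icc (P d i) (N d i) ⊆ A d G i := by
  cases i with
  | zero => exact fun x hx => hx
  | succ i => exact fun x hx => Or.inr hx

theorem stable (hd : 1 ≤ d) {i x : ℕ} (hx : x ∈ AA d G) (h : x < M d i) : x ∈ A d G i := by
  obtain ⟨j, hj⟩ := mem_iUnion.1 hx
  rcases le_total j i with hji | hji
  · exact A_mono G hji hj
  · induction j, hji using Nat.le_induction with
    | base => exact hj
    | succ j hij ih =>
      have := nums hd j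
      have := (M_mono hd).monotone hij
      rcases hj with (hj | hj) | hj
      · exact ih hj
      · obtain ⟨h1, _⟩ := hj; omega
      · rw [mem_Icc] at hj; omega

theorem pred_notMem (hd : 1 ≤ d) (i : ℕ) : P d i - 1 ∉ AA d G := by
  intro h
  have h0 := nums hd i
  have h1 := stable G hd (i := i) h (by omega)
  cases i with
  | zero => have : P d 0 - 1 ∈ Icc (P d 0) (N d 0) := h1
            rw [mem_Icc] at this; omega
  | succ i =>
    have := nums hd i
    rcases h1 with (hj | hj) | hj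
    · have := A_bound G hd i _ hj; omega
    · obtain ⟨_, h2, _⟩ := hj; omega
    · rw [mem_Icc] at hj; omega

theorem hole (hd : 1 ≤ d) (i : ℕ) : ¬ R (AA d G \ F d G i) (i % d + 1 + 1) (n d i) := by
  rintro ⟨s, h1, h2, h3⟩
  have h0 := nums hd i
  have h0' := nums hd (i + 1)
  have hj : i % d < d := Nat.mod_lt _ hd
  have : ∃ b ∈ s, N d i < b := by
    by_contra hc
    push Not at hc
    have := Multiset.sum_le_card_nsmul s _ hc
    rw [h1, h3, smul_eq_mul] at this
    have h5 : (i % d + 1 + 1) * N d i ≤ (d + 1) * N d i := Nat.mul_le_mul_right _ (by omega)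
    rw [add_mul d, one_mul] at h5
    omega
  obtain ⟨b, hb, hbN⟩ := this
  obtain ⟨s', rfl⟩ := Multiset.exists_cons_of_mem hb
  simp only [Multiset.card_cons, Multiset.sum_cons] at h1 h3
  have hbA := (h2 b hb).1
  have hbi : b ∉ A d G i := fun h => by have := A_bound G hd i b h; omega
  have hbM : M d i ≤ b := by
    by_contra h; exact hbi (stable G hd hbA (by omega))
  have hbn : b ≠ n d i := by
    rintro rfl
    exact pred_notMem G hd (i + 1) (by rwa [show P d (i + 1) - 1 = n d i by omega])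
  rcases stable G hd (i := i + 1) hbA (by omega) with (hj | hj) | hj
  · exact hbi hj
  · apply hj.2.2
    refine ⟨s', by omega, fun x hx => ?_, by omega⟩
    have hx' := h2 x (Multiset.mem_cons_of_mem hx)
    have := Multiset.single_le_sum (fun _ _ => Nat.zero_le _) x hx
    exact ⟨stable G hd hx'.1 (by omega), hx'.2⟩
  · rw [mem_Icc] at hj; omega

theorem kept (hd : 1 ≤ d) {i w L : ℕ} (h1 : 1 ≤ w) (h2 : w ≤ d * N d i + 1) (hL : L ≤ P d i)
    (h : ¬ R (A d G i \ F d G i) (i % d + 1) w) : n d i - w ∈ BL d G L ∧ w ≤ n d i := by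
  have h0 := nums hd i
  refine ⟨⟨A_sub G (i + 1) (Or.inl (Or.inr ⟨by omega, by omega, ?_⟩)), by omega⟩, by omega⟩
  rwa [show n d i - (n d i - w) = w by omega]

theorem F_start (hd : 1 ≤ d) (k : ℕ) : F d G (k * d) = pick d G k (A d G (k * d)) := by
  cases k with
  | zero => rw [zero_mul]; rfl
  | succ k =>
    obtain ⟨i, hi⟩ : ∃ i, (k + 1) * d = i + 1 := ⟨(k + 1) * d - 1, by
      have : 1 ≤ (k + 1) * d := Nat.mul_pos (by omega) hd
      omega⟩
    have h1 : (i + 1) % d = 0 := by rw [← hi]; simp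
    have h2 : (i + 1) / d = k + 1 := by rw [← hi]; exact Nat.mul_div_cancel _ hd
    rw [hi]
    change (if (i + 1) % d = 0 then _ else _) = _
    rw [if_pos h1, h2]; rfl

theorem F_const (k r : ℕ) (hr : r < d) : F d G (k * d + r) = F d G (k * d) := by
  induction r with
  | zero => rfl
  | succ r ih =>
    rw [← ih (by omega), ← add_assoc]
    change (if (k * d + r + 1) % d = 0 then _ else _) = _
    rw [if_neg]; · rfl
    rw [add_assoc, mul_comm, Nat.mul_add_mod, Nat.mod_eq_of_lt hr]; omega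

theorem F_sub (hd : 1 ≤ d) (k : ℕ) :
    (F d G (k * d)).Nonempty ∧ ↑(F d G (k * d)) ⊆ A d G (k * d) := by
  rw [F_start G hd, pick]
  split_ifs with h
  · exact h
  · have := nums hd (k * d)
    refine ⟨by simp, ?_⟩
    simp only [Finset.coe_singleton, singleton_subset_iff]
    exact top_sub G _ ⟨by omega, le_rfl⟩

theorem top_BL {i L : ℕ} (hL : L ≤ P d i) : Icc (P d i) (N d i) ⊆ BL d G L :=
  fun _ hx => ⟨A_sub G i (top_sub G i hx), hL.trans hx.1⟩

theorem chain (hd : 1 ≤ d) (k r : ℕ) (hr : r < d) :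
    (∀ a ∈ F d G (k * d), a ≤ n d (k * d + r) ∧
      R (BL d G (P d (k * d))) (r + 1) (n d (k * d + r) - a)) ∧
    ∀ t, 1 ≤ t → t ≤ d * P d (k * d) →
      R (BL d G (P d (k * d))) (r + 1 + 1) (n d (k * d + r) + t) := by
  induction r with
  | zero =>
    have h0 := nums hd (k * d)
    have hm : (k * d) % d = 0 := by simp
    rw [add_zero]
    constructor
    · intro a ha
      have h1 := A_bound G hd _ a ((F_sub G hd k).2 ha)
      have h2 := kept G hd (i := k * d) (w := a) h1.1 (by omega) le_rfl (by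
        rw [hm, zero_add, R.one_iff]; exact fun h => h.2 ha)
      exact ⟨h2.2, R.one_iff.2 h2.1⟩
    · intro t ht1 ht2
      have h2 := kept G hd (i := k * d) (w := P d (k * d) - 1) (by omega) (by omega) le_rfl (by
        rw [hm, zero_add, R.one_iff]; exact fun h => pred_notMem G hd _ (A_sub G _ h.1))
      exact (R.one_iff.2 (top_BL G le_rfl (show P d (k * d) - 1 + t ∈ _ from
        ⟨by omega, by omega⟩))).cons h2.1 (by omega)
  | succ r ih =>
    obtain ⟨ih1, ih2⟩ := ih (by omega)
    have h0 := nums hd (k * d + r)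
    have h0' := nums hd (k * d + r + 1)
    have hm : (k * d + r) % d = r := by
      rw [mul_comm, Nat.mul_add_mod, Nat.mod_eq_of_lt (by omega)]
    have hm' : (k * d + r + 1) % d = r + 1 := by
      rw [add_assoc, mul_comm, Nat.mul_add_mod, Nat.mod_eq_of_lt hr]
    have hh := hole G hd (k * d + r)
    rw [hm, F_const G k r (by omega)] at hh
    have h2 := kept G hd (i := k * d + r + 1) (w := n d (k * d + r)) (L := P d (k * d))
      (by omega) (by omega) ((P_mono hd).monotone (by omega)) (by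
        rw [hm', add_assoc, F_const G k (r + 1) hr]
        exact fun h => hh (h.mono (sdiff_subset_sdiff_left (A_sub G _))))
    rw [← add_assoc]
    constructor
    · intro a ha
      obtain ⟨h3, h4⟩ := ih1 a ha
      exact ⟨by omega, h4.cons h2.1 (by omega)⟩
    · intro t ht1 ht2
      exact (ih2 t ht1 ht2).cons h2.1 (by omega)

theorem cover (hd : 1 ≤ d) (k r m : ℕ) (hr : r < d) (h1 : (d + 1) * P d (k * d + r) ≤ m)
    (h2 : m < (d + 1) * P d (k * d + r + 1)) :
    R (BL d G (P d (k * d))) (d + 1) m ∨ (r + 1 = d ∧ m = n d (k * d + r)) := by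
  set i := k * d + r with hi
  set L := P d (k * d) with hL
  have h0 := nums hd i
  have h0' := nums hd (i + 1)
  have hLi : L ≤ P d i := (P_mono hd).monotone (by omega)
  have hI := R.interval (B := BL d G L) (by omega) (top_BL G hLi)
  have hm : i % d = r := by
    rw [hi, mul_comm, Nat.mul_add_mod, Nat.mod_eq_of_lt hr]
  have low : ∀ w, (r + 1) * N d i < w → w ≤ d * N d i + 1 → n d i - w ∈ BL d G L := by
    intro w hw1 hw2
    refine (kept G hd (by omega) hw2 hLi ?_).1
    rintro ⟨s, h3, h4, h5⟩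
    have := Multiset.sum_le_card_nsmul s _ fun x hx => (A_bound G hd i x (h4 x hx).1).2
    rw [h3, h5, hm, smul_eq_mul] at this
    omega
  have hrN : (r + 1) * N d i ≤ d * N d i := Nat.mul_le_mul_right _ hr
  have e1 : (d + 1) * N d i = d * N d i + N d i := by ring
  have e2 : (d + 1) * P d (i + 1) = d * P d (i + 1) + P d (i + 1) := by ring
  have hdP : d * P d i ≤ d * N d i := Nat.mul_le_mul_left _ (by omega)
  have hdL : d * L ≤ d * P d i := Nat.mul_le_mul_left _ hLi
  have hhigh : ∀ x, x ≤ m → P d (i + 1) ≤ m - x → R (BL d G L) d x → R (BL d G L) (d + 1) m :=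
    fun x hx1 hx2 hx3 => hx3.cons (x := m - x) (top_BL G (i := i + 1) (by omega)
      ⟨hx2, by omega⟩) (by omega)
  by_cases c1 : m ≤ (d + 1) * N d i
  · exact Or.inl (hI _ _ h1 c1)
  by_cases c2 : m < n d i
  · exact Or.inl ((hI d (m - M d i) (by omega) (by omega)).cons
      (low (d * N d i + 1) (by omega) le_rfl) (by omega))
  by_cases c3 : r + 1 = d
  · by_cases c4 : m = n d i
    · exact Or.inr ⟨c3, c4⟩
    left
    by_cases c5 : m ≤ n d i + d * L
    · have := (chain G hd k r hr).2 (m - n d i) (by omega) (by change _ ≤ d * L; omega)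
      rwa [c3, show n d (k * d + r) + (m - n d i) = m by rw [← hi]; omega] at this
    · have h3 := nums hd (k * d)
      exact hhigh (d * L) (by omega) (by omega) (R.interval (B := BL d G L) (P := L)
        (N := N d (k * d)) (by omega) (top_BL G le_rfl) d _ le_rfl
        (Nat.mul_le_mul_left _ (by omega)))
  left
  by_cases c5 : m ≤ n d i + d * P d i
  · have hr2 : (r + 1 + 1) * N d i ≤ d * N d i := Nat.mul_le_mul_right _ (by omega)
    rw [add_mul (r + 1), one_mul] at hr2
    exact (hI d (d * N d i) hdP le_rfl).cons (low (n d i + d * N d i - m) (by omega) (by omega))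
      (by omega)
  · exact hhigh (d * P d i) (by omega) (by omega) (hI d _ le_rfl hdP)

theorem main (hd : 1 ≤ d) : ∃ (A : Set ℕ) (F : ℕ → Finset ℕ) (nn : ℕ → ℕ),
    (∀ k, k ≤ nn k ∧ ¬ R (A \ F k) (d + 1) (nn k)) ∧
    (∀ k, (G k).Nonempty → (∀ x ∈ G k, x ∈ A ∧ x ≤ k) → F k = G k) ∧
    (∀ k, (F k).Nonempty ∧ ↑(F k) ⊆ A ∧ (F k = G k ∨ ∃ z, k ≤ z ∧ F k = {z})) ∧
    ∀ L, ∃ m0, ∀ m, m0 ≤ m → R {x | x ∈ A ∧ L ≤ x} (d + 1) m ∨
      ∃ k, L ≤ k ∧ ∀ a ∈ F k, a ≤ m ∧ R {x | x ∈ A ∧ L ≤ x} d (m - a) := by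
  have hkP : ∀ k, k ≤ P d (k * d) := fun k =>
    le_trans (Nat.le_mul_of_pos_right k hd) (P_mono hd).le_apply
  refine ⟨AA d G, fun k => F d G (k * d), fun k => n d (k * d + (d - 1)), fun k => ⟨?_, ?_⟩,
    fun k h1 h2 => ?_, fun k => ⟨(F_sub G hd k).1, (F_sub G hd k).2.trans (A_sub G _), ?_⟩,
    fun L => ⟨(d + 1) * P d (L * d), fun m hm => ?_⟩⟩
  · have := nums hd (k * d + (d - 1))
    have := (P_mono hd).monotone (show k * d ≤ k * d + (d - 1) by omega)
    have := hkP k
    simp only; omega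
  · have := hole G hd (k * d + (d - 1))
    rwa [F_const G k _ (by omega), mul_comm, Nat.mul_add_mod, Nat.mod_eq_of_lt (by omega),
      show d - 1 + 1 = d by omega, mul_comm] at this
  · simp only
    rw [F_start G hd, pick, if_pos]
    refine ⟨h1, fun x hx => stable G hd (h2 x hx).1 ?_⟩
    have := nums hd (k * d); have := hkP k; have := (h2 x hx).2
    omega
  · simp only
    rw [F_start G hd, pick]
    split_ifs with h
    · exact Or.inl rfl
    · have := nums hd (k * d); have := hkP k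
      exact Or.inr ⟨_, by omega, rfl⟩
  · have hex : ∃ i, m < (d + 1) * P d (i + 1) := ⟨m, by
      have : m + 1 ≤ P d (m + 1) := (P_mono hd).le_apply
      nlinarith⟩
    classical
    set i := Nat.find hex with hi
    have h2 : m < (d + 1) * P d (i + 1) := Nat.find_spec hex
    have hLi : L * d ≤ i := by
      by_contra hc
      have := Nat.mul_le_mul_left (d + 1) ((P_mono hd).monotone (show i + 1 ≤ L * d by omega))
      omega
    have h1 : (d + 1) * P d i ≤ m := by
      rcases Nat.eq_zero_or_pos i with h0 | h0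
      · have : L * d = i := by omega
        rwa [this] at hm
      · have := Nat.find_min hex (m := i - 1) (by omega)
        rw [show i - 1 + 1 = i by omega] at this
        omega
    have e : i / d * d + i % d = i := Nat.div_add_mod' i d
    have hk : L ≤ i / d := (Nat.le_div_iff_mul_le hd).2 hLi
    have hsub : BL d G (P d (i / d * d)) ⊆ {x | x ∈ AA d G ∧ L ≤ x} :=
      fun x hx => ⟨hx.1, (hk.trans (hkP _)).trans hx.2⟩
    have hr := Nat.mod_lt i hd
    rcases cover G hd (i / d) (i % d) m hr (by rwa [e]) (by rwa [e]) with h | ⟨h3, h4⟩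
    · exact Or.inl (h.mono hsub)
    · refine Or.inr ⟨i / d, hk, fun a ha => ?_⟩
      obtain ⟨h5, h6⟩ := (chain G hd (i / d) (i % d) hr).1 a ha
      rw [h3, ← h4] at h6
      exact ⟨h4 ▸ h5, h6.mono hsub⟩

end Pool.Agent.H55.Staged
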