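import Mathlib

open Set Filter Topology MeasureTheory
open scoped NNReal ENNReal

namespace Pool.Agent.H55.Strip

theorem limsup_dim {X : Type*} [EMetricSpace X] (d : ℝ≥0) (A : ℕ → Set X)
    (ι : ℕ → Type) [∀ k, Fintype (ι k)] (t : ∀ k, ι k → Set X) (ρ : ℕ → ℝ≥0∞)
    (hρ : ∀ k, ρ k ≤ 2⁻¹ ^ k) (ht : ∀ k i, Metric.ediam (t k i) ≤ ρ k)
    (hA : ∀ k, A k ⊆ ⋃ i, t k i) (hs : ∀ k, (Fintype.card (ι k) : ℝ≥0∞) * ρ k ^ (d : ℝ) ≤ 2⁻¹ ^ k) :
    dimH {x | ∀ n, ∃ k ≥ n, x ∈ A k} ≤ d := by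
  borelize X
  apply dimH_le_of_hausdorffMeasure_ne_top
  have h := Measure.hausdorffMeasure_le_liminf_tsum (ι := fun n : ℕ => Σ j : ℕ, ι (n + j)) (d : ℝ)
    {x | ∀ n, ∃ k ≥ n, x ∈ A k} (l := atTop) (fun n => 2⁻¹ ^ n)
    (ENNReal.tendsto_pow_atTop_nhds_zero_of_lt_one (by norm_num))
    (fun n i => t (n + i.1) i.2) (Eventually.of_forall fun n i => by
      refine (ht _ _).trans ((hρ _).trans ?_)
      exact pow_le_pow_of_le_one (by simp) (by norm_num) (Nat.le_add_right _ _))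
    (Eventually.of_forall fun n x hx => by
      obtain ⟨k, hk, hxk⟩ := hx n
      obtain ⟨j, rfl⟩ := Nat.exists_eq_add_of_le hk
      obtain ⟨i, hi⟩ := mem_iUnion.mp (hA _ hxk)
      exact mem_iUnion.mpr ⟨⟨j, i⟩, hi⟩)
  refine ne_top_of_le_ne_top (b := 2) (by norm_num) (h.trans ?_)
  refine liminf_le_of_frequently_le' (Frequently.of_forall fun n => ?_)
  rw [ENNReal.tsum_sigma']
  calc _ ≤ ∑' j : ℕ, (2⁻¹ : ℝ≥0∞) ^ j := by
        refine ENNReal.tsum_le_tsum fun j => ?_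
        rw [tsum_fintype]
        calc _ ≤ ∑ _i : ι (n + j), ρ (n + j) ^ (d : ℝ) :=
              Finset.sum_le_sum fun i _ => ENNReal.rpow_le_rpow (ht _ _) d.2
          _ = (Fintype.card (ι (n + j)) : ℝ≥0∞) * ρ (n + j) ^ (d : ℝ) := by simp
          _ ≤ 2⁻¹ ^ (n + j) := hs _
          _ ≤ 2⁻¹ ^ j := pow_le_pow_of_le_one (by simp) (by norm_num) (Nat.le_add_left _ _)
    _ = 2 := by rw [ENNReal.tsum_geometric]; simp

theorem exists_L (d : ℝ) (hd : 1 < d) (M : ℕ) (η : ℝ) (hη : 0 < η) :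
    ∃ L : ℕ, M ≤ L ∧ 0 < L ∧ (2 / (L : ℝ)) ≤ η ∧ ((M : ℝ) + 1) * ((L : ℝ) + 1) * (2 / (L : ℝ)) ^ d ≤ η := by
  have h0 : Tendsto (fun L : ℕ => (2 / (L : ℝ))) atTop (𝓝 0) :=
    tendsto_const_div_atTop_nhds_zero_nat 2
  have h1 : Tendsto (fun L : ℕ => (2 / (L : ℝ)) ^ (d - 1)) atTop (𝓝 0) := by
    have := h0.rpow_const (p := d - 1) (Or.inr (by linarith))
    rwa [Real.zero_rpow (by linarith)] at this
  have h2 : Tendsto (fun L : ℕ => ((M : ℝ) + 1) * 4 * (2 / (L : ℝ)) ^ (d - 1)) atTop (𝓝 0) := by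
    simpa using h1.const_mul (((M : ℝ) + 1) * 4)
  obtain ⟨L, hL⟩ := ((h0.eventually (ge_mem_nhds hη)).and ((h2.eventually (ge_mem_nhds hη)).and
    (eventually_ge_atTop (M + 1)))).exists
  have hL0 : (1 : ℝ) ≤ L := by exact_mod_cast (show 1 ≤ L by omega)
  refine ⟨L, by omega, by omega, hL.1, le_trans ?_ hL.2.1⟩
  have hp : (0 : ℝ) < 2 / L := by positivity
  have e : (2 / (L : ℝ)) ^ d = (2 / (L : ℝ)) * (2 / (L : ℝ)) ^ (d - 1) := by
    conv_lhs => rw [show d = 1 + (d - 1) by ring, Real.rpow_add hp, Real.rpow_one]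
  rw [e]
  have h3 : ((L : ℝ) + 1) * (2 / L) ≤ 4 := by
    rw [mul_div_assoc', div_le_iff₀ (by linarith)]; linarith
  have h4 : 0 ≤ (2 / (L : ℝ)) ^ (d - 1) := by positivity
  have h5 : (0 : ℝ) ≤ (M : ℝ) + 1 := by positivity
  calc ((M : ℝ) + 1) * ((L : ℝ) + 1) * (2 / L * (2 / (L : ℝ)) ^ (d - 1))
      = ((M : ℝ) + 1) * (((L : ℝ) + 1) * (2 / L)) * (2 / (L : ℝ)) ^ (d - 1) := by ring
    _ ≤ ((M : ℝ) + 1) * 4 * (2 / (L : ℝ)) ^ (d - 1) := by gcongr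

theorem strips_dim (b : ℕ) (hb : 2 ≤ b) (d : ℝ≥0) (hd : 1 < d) :
    ∃ δ : ℕ → ℝ, (∀ k, 0 < δ k) ∧
      dimH {p : ℝ × ℝ | ∀ n, ∃ k ≥ n, ∃ m : ℤ, |p.1 - m / (b : ℝ) ^ k| < δ k} ≤ d := by
  choose L hL using fun k : ℕ => exists_L d (by exact_mod_cast hd) (b ^ k) (2⁻¹ ^ k) (by positivity)
  have hLp : ∀ k, (0 : ℝ) < L k := fun k => by exact_mod_cast (hL k).2.1
  have hbp : ∀ k, (0 : ℝ) < (b : ℝ) ^ k := fun k => by positivity
  refine ⟨fun k => 1 / L k, fun k => by have := hLp k; positivity, ?_⟩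
  have hcov : {p : ℝ × ℝ | ∀ n, ∃ k ≥ n, ∃ m : ℤ, |p.1 - m / (b : ℝ) ^ k| < 1 / L k} ⊆
      ⋃ a : ℤ × ℤ, {p : ℝ × ℝ | ∀ n, ∃ k ≥ n, p ∈ {p : ℝ × ℝ | ⌊p.1⌋ = a.1 ∧ ⌊p.2⌋ = a.2 ∧
        ∃ m : ℤ, |p.1 - m / (b : ℝ) ^ k| < 1 / L k}} := by
    intro p hp
    refine mem_iUnion.mpr ⟨(⌊p.1⌋, ⌊p.2⌋), fun n => ?_⟩
    obtain ⟨k, hk, h⟩ := hp n
    exact ⟨k, hk, rfl, rfl, h⟩
  refine (dimH_mono hcov).trans ?_
  rw [dimH_iUnion]
  refine iSup_le fun a => ?_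
  refine limsup_dim d _ (fun k => Finset.Icc (a.1 * b ^ k) ((a.1 + 1) * b ^ k) ×
      Finset.Icc (a.2 * L k) ((a.2 + 1) * L k))
    (fun k i => Metric.closedBall (((i.1.1 : ℤ) : ℝ) / (b : ℝ) ^ k, ((i.2.1 : ℤ) : ℝ) / L k) (1 / L k))
    (fun k => ENNReal.ofReal (2 / L k)) ?_ ?_ ?_ ?_
  · intro k
    refine (ENNReal.ofReal_le_ofReal (hL k).2.2.1).trans ?_
    rw [ENNReal.ofReal_pow (by norm_num), ENNReal.ofReal_inv_of_pos (by norm_num)]; simp
  · intro k i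
    refine Metric.ediam_le fun x hx y hy => ?_
    rw [edist_dist]
    refine ENNReal.ofReal_le_ofReal ?_
    have := dist_triangle_right x y (((i.1.1 : ℤ) : ℝ) / (b : ℝ) ^ k, ((i.2.1 : ℤ) : ℝ) / L k)
    have h1 := Metric.mem_closedBall.mp hx
    have h2 := Metric.mem_closedBall.mp hy
    have : (2 : ℝ) / L k = 1 / L k + 1 / L k := by ring
    linarith
  · rintro k p ⟨h1, h2, m, hm⟩
    have hLk := hLp k
    have hbk := hbp k
    have hle : (b : ℝ) ^ k ≤ L k := by exact_mod_cast (hL k).1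
    have hδ : 1 / (L k : ℝ) ≤ 1 / (b : ℝ) ^ k := one_div_le_one_div_of_le hbk hle
    have f1 := Int.floor_le p.1
    have f2 := Int.lt_floor_add_one p.1
    have g1 := Int.floor_le p.2
    have g2 := Int.lt_floor_add_one p.2
    rw [h1] at f1 f2
    rw [h2] at g1 g2
    obtain ⟨hm1, hm2⟩ := abs_lt.mp (hm.trans_le hδ)
    have hm3 : (m : ℝ) < p.1 * (b : ℝ) ^ k + 1 := by
      have : (m : ℝ) / (b : ℝ) ^ k < p.1 + 1 / (b : ℝ) ^ k := by linarith
      rw [div_lt_iff₀ hbk, add_mul, one_div_mul_cancel hbk.ne'] at this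
      exact this
    have hm4 : p.1 * (b : ℝ) ^ k - 1 < m := by
      have : p.1 - 1 / (b : ℝ) ^ k < (m : ℝ) / (b : ℝ) ^ k := by linarith
      rw [lt_div_iff₀ hbk, sub_mul, one_div_mul_cancel hbk.ne'] at this
      exact this
    have hmI : m ∈ Finset.Icc (a.1 * b ^ k) ((a.1 + 1) * b ^ k) := by
      rw [Finset.mem_Icc]
      constructor
      · have : ((a.1 * b ^ k - 1 : ℤ) : ℝ) < m := by push_cast; nlinarith
        have : a.1 * b ^ k - 1 < m := by exact_mod_cast this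
        omega
      · have : (m : ℝ) < (((a.1 + 1) * b ^ k + 1 : ℤ) : ℝ) := by push_cast; nlinarith
        have : m < (a.1 + 1) * b ^ k + 1 := by exact_mod_cast this
        omega
    have l1 := Int.floor_le (p.2 * L k)
    have l2 := Int.lt_floor_add_one (p.2 * L k)
    have hlI : ⌊p.2 * L k⌋ ∈ Finset.Icc (a.2 * L k) ((a.2 + 1) * L k) := by
      rw [Finset.mem_Icc]
      constructor
      · rw [Int.le_floor]; push_cast; nlinarith
      · have : ((⌊p.2 * L k⌋ : ℤ) : ℝ) ≤ (((a.2 + 1) * L k : ℤ) : ℝ) := by push_cast; nlinarith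
        exact_mod_cast this
    refine mem_iUnion.mpr ⟨(⟨m, hmI⟩, ⟨_, hlI⟩), ?_⟩
    rw [Metric.mem_closedBall, Prod.dist_eq, max_le_iff]
    refine ⟨hm.le, ?_⟩
    rw [Real.dist_eq]
    show |p.2 - ((⌊p.2 * L k⌋ : ℤ) : ℝ) / L k| ≤ 1 / L k
    have : p.2 - ((⌊p.2 * L k⌋ : ℤ) : ℝ) / L k = (p.2 * L k - ⌊p.2 * L k⌋) / L k := by
      field_simp
    rw [this, abs_div, abs_of_pos hLk]
    gcongr
    rw [abs_le]; constructor <;> linarith
  · intro k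
    have hLk := hLp k
    have e1 : ((a.1 + 1) * (b : ℤ) ^ k + 1 - a.1 * b ^ k).toNat = b ^ k + 1 := by
      have : (a.1 + 1) * (b : ℤ) ^ k + 1 - a.1 * b ^ k = ((b ^ k + 1 : ℕ) : ℤ) := by push_cast; ring
      rw [this, Int.toNat_natCast]
    have e2 : ((a.2 + 1) * (L k : ℤ) + 1 - a.2 * L k).toNat = L k + 1 := by
      have : (a.2 + 1) * (L k : ℤ) + 1 - a.2 * L k = ((L k + 1 : ℕ) : ℤ) := by push_cast; ring
      rw [this, Int.toNat_natCast]
    simp only [Fintype.card_prod, Fintype.card_coe, Int.card_Icc, e1, e2]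
    rw [ENNReal.ofReal_rpow_of_pos (by positivity), ← ENNReal.ofReal_natCast,
      ← ENNReal.ofReal_mul (by positivity)]
    refine (ENNReal.ofReal_le_ofReal (q := 2⁻¹ ^ k) ?_).trans ?_
    · have := (hL k).2.2.2
      push_cast at this ⊢
      exact this
    · rw [ENNReal.ofReal_pow (by norm_num), ENNReal.ofReal_inv_of_pos (by norm_num)]; simp

theorem series_sep (B : ℝ) (hB : 2 ≤ B) (e e' : ℕ → ℝ) (he : ∀ i, 0 ≤ e i ∧ e i ≤ B - 1)
    (he' : ∀ i, 0 ≤ e' i ∧ e' i ≤ B - 1) (j : ℕ) (h1 : ∀ i < j, e i = e' i)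
    (h2 : 2 ≤ |e j - e' j|) :
    1 / B ^ (j + 1) ≤ |∑' i, e i / B ^ (i + 1) - ∑' i, e' i / B ^ (i + 1)| := by
  have hB0 : 0 < B := by linarith
  have hr : B⁻¹ < 1 := inv_lt_one_of_one_lt₀ (by linarith)
  have hg : HasSum (fun i : ℕ => (B - 1) / B ^ (i + 1)) 1 := by
    have := (hasSum_geometric_of_lt_one (by positivity) hr).mul_left ((B - 1) / B)
    have e1 : (fun i : ℕ => (B - 1) / B ^ (i + 1)) = fun i : ℕ => (B - 1) / B * B⁻¹ ^ i := by
      funext i; rw [inv_pow, pow_succ]; field_simp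
    have e2 : (B - 1) / B * (1 - B⁻¹)⁻¹ = 1 := by
      have : B - 1 ≠ 0 := by linarith
      field_simp
    rw [e1]; rwa [e2] at this
  have hs : ∀ f : ℕ → ℝ, (∀ i, 0 ≤ f i ∧ f i ≤ B - 1) → Summable fun i => f i / B ^ (i + 1) := by
    intro f hf
    refine Summable.of_nonneg_of_le (fun i => div_nonneg (hf i).1 (by positivity)) (fun i => ?_)
      hg.summable
    exact div_le_div_of_nonneg_right (hf i).2 (by positivity)
  rw [← (hs e he).tsum_sub (hs e' he')]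
  set u : ℕ → ℝ := fun i => e i / B ^ (i + 1) - e' i / B ^ (i + 1) with hu
  have hus : Summable u := (hs e he).sub (hs e' he')
  have h3 : ∑' i, u i = u j + ∑' i, u (i + (j + 1)) := by
    rw [← hus.sum_add_tsum_nat_add (j + 1), Finset.sum_range_succ,
      Finset.sum_eq_zero (fun i hi => by simp [hu, h1 i (Finset.mem_range.mp hi)]), zero_add]
  have h4 : |∑' i, u (i + (j + 1))| ≤ 1 / B ^ (j + 1) := by
    have hg' := hg.mul_left (1 / B ^ (j + 1))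
    rw [mul_one] at hg'
    rw [← Real.norm_eq_abs]
    refine tsum_of_norm_bounded hg' fun i => ?_
    simp only [hu, Real.norm_eq_abs]
    rw [← sub_div, abs_div, abs_of_pos (by positivity : 0 < B ^ (i + (j + 1) + 1))]
    have : |e (i + (j + 1)) - e' (i + (j + 1))| ≤ B - 1 := by
      have a1 := he (i + (j + 1))
      have a2 := he' (i + (j + 1))
      rw [abs_le]; constructor <;> linarith
    calc _ ≤ (B - 1) / B ^ (i + (j + 1) + 1) := by gcongr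
      _ = _ := by rw [show i + (j + 1) + 1 = (j + 1) + (i + 1) by ring, pow_add]; field_simp
  have h5 : 2 / B ^ (j + 1) ≤ |u j| := by
    simp only [hu]
    rw [← sub_div, abs_div, abs_of_pos (by positivity : 0 < B ^ (j + 1))]
    gcongr
  rw [h3]
  have := abs_sub_abs_le_abs_add (u j) (∑' i, u (i + (j + 1)))
  have e2 : 2 / B ^ (j + 1) = 1 / B ^ (j + 1) + 1 / B ^ (j + 1) := by ring
  linarith

end Pool.Agent.H55.Strip
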