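import Mathlib
import Pool.Agent.H55.Strip1

open Set Filter Topology MeasureTheory
open scoped NNReal ENNReal

namespace Pool.Agent.H55.Strip

noncomputable def fl (b : ℕ) (k : ℕ) (x : ℝ) : ℤ := ⌊x * (b : ℝ) ^ k⌋

noncomputable def dig (b : ℕ) (k : ℕ) (x : ℝ) : ℤ := fl b (k + 1) x - b * fl b k x

theorem dig_bd (b : ℕ) (hb : 2 ≤ b) (k : ℕ) (x : ℝ) : 0 ≤ dig b k x ∧ dig b k x ≤ b - 1 := by
  unfold dig fl
  have hb0 : (0 : ℝ) < b := by exact_mod_cast (show 0 < b by omega)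
  have h1 := Int.floor_le (x * (b : ℝ) ^ k)
  have h2 := Int.lt_floor_add_one (x * (b : ℝ) ^ k)
  constructor
  · rw [sub_nonneg, Int.le_floor]
    push_cast
    rw [pow_succ]; nlinarith
  · have : ⌊x * (b : ℝ) ^ (k + 1)⌋ < b * ⌊x * (b : ℝ) ^ k⌋ + b := by
      rw [Int.floor_lt]
      push_cast
      rw [pow_succ]; nlinarith
    omega

theorem fl_cont (b : ℕ) (k : ℕ) (x : ℝ) (hx : ∀ m : ℤ, x * (b : ℝ) ^ k ≠ m) :
    ContinuousAt (fun y => ((fl b k y : ℤ) : ℝ)) x := by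
  have h1 : ContinuousAt (fun z : ℝ => ((⌊z⌋ : ℤ) : ℝ)) (x * (b : ℝ) ^ k) := by
    refine (continuousOn_floor ⌊x * (b : ℝ) ^ k⌋).continuousAt ?_
    refine mem_of_superset (Ioo_mem_nhds ?_ (Int.lt_floor_add_one _)) Ioo_subset_Ico_self
    exact lt_of_le_of_ne (Int.floor_le _) (hx _).symm
  exact ContinuousAt.comp (f := fun y : ℝ => y * (b : ℝ) ^ k) h1 (by fun_prop)

def KK (b : ℕ) (δ : ℕ → ℝ) (n : ℕ) (a : ℤ) : Set ℝ :=
  {x | (∀ k ≥ n, ∀ m : ℤ, δ k ≤ |x - m / (b : ℝ) ^ k|) ∧ (a : ℝ) ≤ x * (b : ℝ) ^ n ∧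
    x * (b : ℝ) ^ n ≤ a + 1}

theorem KK_closed (b : ℕ) (δ : ℕ → ℝ) (n : ℕ) (a : ℤ) : IsClosed (KK b δ n a) := by
  unfold KK
  simp only [ofPred_and, ofPred_forall]
  refine IsClosed.inter (isClosed_iInter fun k => isClosed_iInter fun _ => isClosed_iInter
    fun m => isClosed_le (by fun_prop) (by fun_prop)) (IsClosed.inter
      (isClosed_le (by fun_prop) (by fun_prop)) (isClosed_le (by fun_prop) (by fun_prop)))

theorem KK_ne (b : ℕ) (hb : 2 ≤ b) (δ : ℕ → ℝ) (hδ : ∀ k, 0 < δ k) (n : ℕ) (a : ℤ) (x : ℝ)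
    (hx : x ∈ KK b δ n a) (k : ℕ) (hk : n ≤ k) (m : ℤ) : x * (b : ℝ) ^ k ≠ m := by
  intro h
  have hb0 : (0 : ℝ) < (b : ℝ) ^ k := by positivity
  have h1 := hx.1 k hk m
  have : x - m / (b : ℝ) ^ k = 0 := by rw [← h]; field_simp; ring
  rw [this, abs_zero] at h1
  exact absurd (hδ k) (not_lt.mpr h1)

theorem KK_fl (b : ℕ) (hb : 2 ≤ b) (δ : ℕ → ℝ) (hδ : ∀ k, 0 < δ k) (n : ℕ) (a : ℤ) (x : ℝ)
    (hx : x ∈ KK b δ n a) : fl b n x = a := by
  unfold fl
  rw [Int.floor_eq_iff]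
  refine ⟨hx.2.1, lt_of_le_of_ne hx.2.2 ?_⟩
  have := KK_ne b hb δ hδ n a x hx n le_rfl (a + 1)
  push_cast at this
  exact this

theorem close_of_dig (b : ℕ) (hb : 2 ≤ b) (n j : ℕ) (x y : ℝ) (h0 : fl b n x = fl b n y)
    (h : ∀ i < j, dig b (n + i) x = dig b (n + i) y) : |x - y| ≤ 1 / (b : ℝ) ^ j := by
  have h1 : ∀ i ≤ j, fl b (n + i) x = fl b (n + i) y := by
    intro i
    induction i with
    | zero => intro _; exact h0
    | succ i ih =>
      intro hi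
      have a1 := h i (by omega)
      have a2 := ih (by omega)
      unfold dig at a1
      rw [a2] at a1
      rw [← add_assoc]; linarith
  have h2 := h1 j le_rfl
  unfold fl at h2
  have hb1 : (1 : ℝ) ≤ b := by exact_mod_cast (show 1 ≤ b by omega)
  have h3 := Int.abs_sub_lt_one_of_floor_eq_floor h2
  rw [← sub_mul, abs_mul, abs_of_pos (by positivity : (0 : ℝ) < (b : ℝ) ^ (n + j))] at h3
  rw [le_div_iff₀ (by positivity)]
  have h4 : (b : ℝ) ^ j ≤ (b : ℝ) ^ (n + j) := pow_le_pow_right₀ hb1 (by omega)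
  have := abs_nonneg (x - y)
  nlinarith

theorem exists_map (b : ℕ) (hb : 2 ≤ b) (α : ℝ) (hα : 0 < α)
    (hB : (2 * (b : ℝ) ^ 2) ^ α = b) (δ : ℕ → ℝ) (hδ : ∀ k, 0 < δ k) (n : ℕ) (a c : ℤ) :
    ∃ f : ℝ × ℝ → ℝ, Continuous f ∧ ∀ p ∈ KK b δ n a ×ˢ KK b δ n c,
      ∀ q ∈ KK b δ n a ×ˢ KK b δ n c, dist p q ≤ b * |f p - f q| ^ α := by
  classical
  set B : ℝ := 2 * (b : ℝ) ^ 2 with hBdef
  have hb2 : (2 : ℝ) ≤ b := by exact_mod_cast hb
  have hB2 : 2 ≤ B := by nlinarith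
  let ez : ℝ × ℝ → ℕ → ℤ := fun p i => b * dig b (n + i) p.1 + dig b (n + i) p.2
  let e : ℝ × ℝ → ℕ → ℝ := fun p i => 2 * (ez p i : ℝ)
  have he : ∀ p i, 0 ≤ e p i ∧ e p i ≤ B - 1 := by
    intro p i
    obtain ⟨a1, a2⟩ := dig_bd b hb (n + i) p.1
    obtain ⟨a3, a4⟩ := dig_bd b hb (n + i) p.2
    have a1' : (0 : ℝ) ≤ dig b (n + i) p.1 := by exact_mod_cast a1
    have a2' : (dig b (n + i) p.1 : ℝ) ≤ b - 1 := by exact_mod_cast a2
    have a3' : (0 : ℝ) ≤ dig b (n + i) p.2 := by exact_mod_cast a3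
    have a4' : (dig b (n + i) p.2 : ℝ) ≤ b - 1 := by exact_mod_cast a4
    simp only [e, ez]
    push_cast
    constructor <;> nlinarith
  let f0 : ℝ × ℝ → ℝ := fun p => ∑' i, e p i / B ^ (i + 1)
  have hcont : ContinuousOn f0 (KK b δ n a ×ˢ KK b δ n c) := by
    refine continuousOn_tsum (u := fun i => (B⁻¹) ^ i) (fun i => ?_)
      (summable_geometric_of_lt_one (by positivity) (inv_lt_one_of_one_lt₀ (by linarith))) ?_
    · intro p hp
      refine ContinuousAt.continuousWithinAt ?_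
      have c1 := ContinuousAt.comp (f := Prod.fst) (x := p)
        (fl_cont b (n + i) p.1 (KK_ne b hb δ hδ n a _ hp.1 _ (by omega))) continuousAt_fst
      have c2 := ContinuousAt.comp (f := Prod.fst) (x := p)
        (fl_cont b (n + i + 1) p.1 (KK_ne b hb δ hδ n a _ hp.1 _ (by omega))) continuousAt_fst
      have c3 := ContinuousAt.comp (f := Prod.snd) (x := p)
        (fl_cont b (n + i) p.2 (KK_ne b hb δ hδ n c _ hp.2 _ (by omega))) continuousAt_snd
      have c4 := ContinuousAt.comp (f := Prod.snd) (x := p)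
        (fl_cont b (n + i + 1) p.2 (KK_ne b hb δ hδ n c _ hp.2 _ (by omega))) continuousAt_snd
      simp only [e, ez, dig]
      push_cast
      exact (continuousAt_const.mul ((continuousAt_const.mul (c2.sub (continuousAt_const.mul c1))).add
        (c4.sub (continuousAt_const.mul c3)))).div_const _
    · intro i p _
      obtain ⟨h1, h2⟩ := he p i
      rw [Real.norm_eq_abs, abs_of_nonneg (by positivity), inv_pow, pow_succ,
        div_le_iff₀ (by positivity)]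
      field_simp
      linarith
  have hcl : IsClosed (KK b δ n a ×ˢ KK b δ n c) := (KK_closed _ _ _ _).prod (KK_closed _ _ _ _)
  obtain ⟨g, -, hg⟩ := ContinuousMap.exists_extension_forall_mem_of_isClosedEmbedding
    (⟨_, continuousOn_iff_continuous_domRestrict.mp hcont⟩ : C(KK b δ n a ×ˢ KK b δ n c, ℝ))
    (t := univ) (fun _ => mem_univ _) univ_nonempty hcl.isClosedEmbedding_subtypeVal
  have hg' : ∀ p ∈ KK b δ n a ×ˢ KK b δ n c, g p = f0 p := fun p hp => congrFun hg ⟨p, hp⟩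
  refine ⟨g, g.continuous, fun p hp q hq => ?_⟩
  rw [hg' p hp, hg' q hq]
  have hclose : ∀ j, (∀ i < j, ez p i = ez q i) → dist p q ≤ 1 / (b : ℝ) ^ j := by
    intro j hj
    have hd : ∀ i < j, dig b (n + i) p.1 = dig b (n + i) q.1 ∧
        dig b (n + i) p.2 = dig b (n + i) q.2 := by
      intro i hi
      have h := hj i hi
      simp only [ez] at h
      obtain ⟨a3, a4⟩ := dig_bd b hb (n + i) p.2
      obtain ⟨a5, a6⟩ := dig_bd b hb (n + i) q.2
      have : dig b (n + i) p.1 = dig b (n + i) q.1 := by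
        by_contra hne
        rcases lt_or_gt_of_ne hne with h' | h'
        · have : dig b (n + i) p.1 + 1 ≤ dig b (n + i) q.1 := h'
          nlinarith
        · have : dig b (n + i) q.1 + 1 ≤ dig b (n + i) p.1 := h'
          nlinarith
      refine ⟨this, ?_⟩
      rw [this] at h; linarith
    rw [Prod.dist_eq, max_le_iff]
    constructor
    · exact close_of_dig b hb n j _ _ ((KK_fl b hb δ hδ n a _ hp.1).trans
        (KK_fl b hb δ hδ n a _ hq.1).symm) fun i hi => (hd i hi).1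
    · exact close_of_dig b hb n j _ _ ((KK_fl b hb δ hδ n c _ hp.2).trans
        (KK_fl b hb δ hδ n c _ hq.2).symm) fun i hi => (hd i hi).2
  by_cases hex : ∃ j, ez p j ≠ ez q j
  · let j := Nat.find hex
    have hj1 : ez p j ≠ ez q j := Nat.find_spec hex
    have hj2 : ∀ i < j, ez p i = ez q i := fun i hi => not_not.mp (Nat.find_min hex hi)
    have h1 := series_sep B hB2 (e p) (e q) (he p) (he q) j
      (fun i hi => by simp only [e, hj2 i hi]) (by
        simp only [e]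
        rw [← mul_sub, abs_mul, abs_two]
        have : (1 : ℝ) ≤ |(ez p j : ℝ) - ez q j| := by
          have := Int.one_le_abs (sub_ne_zero.mpr hj1)
          exact_mod_cast this
        linarith)
    refine (hclose j hj2).trans ?_
    have h2 : (1 / B ^ (j + 1)) ^ α ≤ |f0 p - f0 q| ^ α :=
      Real.rpow_le_rpow (by positivity) h1 hα.le
    have h3 : (1 / B ^ (j + 1)) ^ α = 1 / (b : ℝ) ^ (j + 1) := by
      rw [Real.div_rpow (by norm_num) (by positivity), Real.one_rpow, ← Real.rpow_natCast,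
        ← Real.rpow_mul (by positivity), mul_comm, Real.rpow_mul (by positivity), hB,
        Real.rpow_natCast]
    rw [h3] at h2
    calc 1 / (b : ℝ) ^ j = b * (1 / (b : ℝ) ^ (j + 1)) := by rw [pow_succ]; field_simp
      _ ≤ _ := by gcongr
  · push Not at hex
    have : dist p q ≤ 0 := by
      refine ge_of_tendsto' (tendsto_pow_atTop_nhds_zero_of_lt_one (r := 1 / (b : ℝ))
        (by positivity) ?_) fun j => ?_
      · rw [div_lt_one (by linarith)]; linarith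
      · rw [one_div_pow]; exact hclose j fun i _ => hex i
    exact this.trans (by positivity)

theorem dim_le_of_inv {X : Type*} [MetricSpace X] [Nonempty X] (f : X → ℝ) (S : Set X)
    (C α : ℝ≥0) (hα : 0 < α)
    (h : ∀ p ∈ S, ∀ q ∈ S, dist p q ≤ C * |f p - f q| ^ (α : ℝ)) :
    dimH S ≤ dimH (f '' S) / α := by
  classical
  have hinj : InjOn f S := by
    intro p hp q hq hpq
    have := h p hp q hq
    rw [hpq, sub_self, abs_zero, Real.zero_rpow (by exact_mod_cast hα.ne'), mul_zero] at this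
    exact dist_le_zero.mp this
  have hH : HolderOnWith C α (Function.invFunOn f S) (f '' S) := by
    rintro _ ⟨p, hp, rfl⟩ _ ⟨q, hq, rfl⟩
    rw [hinj.leftInvOn_invFunOn hp, hinj.leftInvOn_invFunOn hq, edist_dist, edist_dist,
      ENNReal.ofReal_rpow_of_nonneg dist_nonneg α.coe_nonneg, ← ENNReal.ofReal_coe_nnreal,
      ← ENNReal.ofReal_mul C.coe_nonneg]
    exact ENNReal.ofReal_le_ofReal (h p hp q hq)
  have := hH.dimH_image_le hα
  rwa [hinj.invFunOn_image subset_rfl] at this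

theorem main (E : Set (ℝ × ℝ)) (hE : 1 < dimH E) (r : ℝ≥0) (hr : 2 * (r : ℝ≥0∞) < dimH E) :
    ∃ f : ℝ × ℝ → ℝ, Continuous f ∧ (r : ℝ≥0∞) < dimH (f '' E) := by
  obtain ⟨d, hd1, hd2⟩ := ENNReal.lt_iff_exists_nnreal_btwn.mp hE
  obtain ⟨t, ht1, ht2⟩ := ENNReal.lt_iff_exists_nnreal_btwn.mp hr
  have hd1' : 1 < d := by exact_mod_cast hd1
  have ht1' : 2 * (r : ℝ) < t := by exact_mod_cast ht1
  obtain ⟨N, hN⟩ := exists_nat_gt ((r : ℝ) / (t - 2 * r))
  have hr0 : (0 : ℝ) ≤ r := r.2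
  rw [div_lt_iff₀ (by linarith)] at hN
  have hN1 : 1 ≤ N := by
    by_contra h
    have : N = 0 := by omega
    rw [this] at hN; simp at hN
  let α : ℝ≥0 := (N : ℝ≥0) / (2 * N + 1)
  have hαR : (α : ℝ) = (N : ℝ) / (2 * N + 1) := by simp [α]
  have hNR : (1 : ℝ) ≤ N := by exact_mod_cast hN1
  have hα0 : (0 : ℝ) < α := by rw [hαR]; positivity
  have hb : 2 ≤ 2 ^ N := by
    calc 2 = 2 ^ 1 := by norm_num
      _ ≤ 2 ^ N := Nat.pow_le_pow_right (by norm_num) hN1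
  have hB : (2 * (((2 ^ N : ℕ) : ℝ)) ^ 2) ^ (α : ℝ) = ((2 ^ N : ℕ) : ℝ) := by
    push_cast
    rw [← pow_mul, ← pow_succ', ← Real.rpow_natCast, ← Real.rpow_mul (by norm_num),
      ← Real.rpow_natCast, hαR]
    congr 1
    push_cast
    field_simp
  have hrt : (r : ℝ) < α * t := by
    rw [hαR, div_mul_eq_mul_div, lt_div_iff₀ (by positivity)]; nlinarith
  obtain ⟨δ, hδ, hZ⟩ := strips_dim (2 ^ N) hb d hd1'
  set b : ℕ := 2 ^ N with hbdef
  set Z : Set (ℝ × ℝ) := {p : ℝ × ℝ | ∀ n, ∃ k ≥ n, ∃ m : ℤ, |p.1 - m / (b : ℝ) ^ k| < δ k}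
  have hZ' : dimH (Prod.swap '' Z) ≤ d := by
    have := (ContinuousLinearEquiv.prodComm ℝ ℝ ℝ).dimH_image Z
    exact le_of_eq_of_le this hZ
  have hcov : E ⊆ (Z ∪ Prod.swap '' Z) ∪
      ⋃ i : ℕ × ℤ × ℤ, E ∩ (KK b δ i.1 i.2.1 ×ˢ KK b δ i.1 i.2.2) := by
    intro p hp
    by_cases h1 : p ∈ Z
    · exact Or.inl (Or.inl h1)
    by_cases h2 : p.swap ∈ Z
    · exact Or.inl (Or.inr ⟨_, h2, by simp⟩)
    simp only [Z, mem_ofPred_eq, not_forall, not_exists, not_and, not_lt] at h1 h2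
    obtain ⟨n1, h1⟩ := h1
    obtain ⟨n2, h2⟩ := h2
    refine Or.inr (mem_iUnion.mpr ⟨(max n1 n2, ⌊p.1 * (b : ℝ) ^ (max n1 n2)⌋,
      ⌊p.2 * (b : ℝ) ^ (max n1 n2)⌋), hp, ⟨fun k hk m => h1 k (le_of_max_le_left hk) m,
        Int.floor_le _, (Int.lt_floor_add_one _).le⟩,
        ⟨fun k hk m => h2 k (le_of_max_le_right hk) m, Int.floor_le _,
          (Int.lt_floor_add_one _).le⟩⟩)
  have h3 := dimH_mono hcov
  rw [dimH_union, dimH_union, dimH_iUnion] at h3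
  have h4 : (t : ℝ≥0∞) < ⨆ i : ℕ × ℤ × ℤ, dimH (E ∩ (KK b δ i.1 i.2.1 ×ˢ KK b δ i.1 i.2.2)) := by
    rcases le_max_iff.mp h3 with h | h
    · exact absurd (h.trans (max_le hZ hZ')) (not_le.mpr hd2)
    · exact ht2.trans_le h
  obtain ⟨i, hi⟩ := lt_iSup_iff.mp h4
  obtain ⟨f, hf, hf2⟩ := exists_map b hb α hα0 hB δ hδ i.1 i.2.1 i.2.2
  refine ⟨f, hf, ?_⟩
  have h5 := dim_le_of_inv f (E ∩ (KK b δ i.1 i.2.1 ×ˢ KK b δ i.1 i.2.2)) (b : ℝ≥0) α
    (by exact_mod_cast hα0) fun p hp q hq => by simpa using hf2 p hp.2 q hq.2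
  have hαne : (α : ℝ≥0∞) ≠ 0 := by
    have : α ≠ 0 := by intro h; rw [h] at hα0; simp at hα0
    exact_mod_cast this
  have h6 := hi.trans_le h5
  rw [ENNReal.lt_div_iff_mul_lt (Or.inl hαne) (Or.inl ENNReal.coe_ne_top)] at h6
  refine lt_of_lt_of_le (lt_trans ?_ h6) (dimH_mono (image_mono inter_subset_left))
  have : r < t * α := by
    rw [mul_comm]; exact_mod_cast hrt
  exact_mod_cast this

end Pool.Agent.H55.Strip
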