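import Mathlib

namespace Pool.Agent.H55.SubsetSums

/-- bit mask of the subset sums of a list -/
def mask : List ℕ → ℕ
  | [] => 1
  | a :: l => mask l ||| (mask l <<< a)

theorem mem_iff (l : List ℕ) (hl : l.Nodup) (x : ℕ) :
    (∃ S ∈ l.toFinset.powerset, ∑ d ∈ S, d = x) ↔ (mask l).testBit x = true := by
  induction l generalizing x with
  | nil =>
    simp only [List.toFinset_nil, Finset.powerset_empty, Finset.mem_singleton, exists_eq_left,
      Finset.sum_empty, mask]
    rw [Nat.testBit_one_eq_true_iff_self_eq_zero]; exact eq_comm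
  | cons a l ih =>
    rw [List.nodup_cons] at hl
    have ha : a ∉ l.toFinset := by simpa using hl.1
    simp only [mask, Nat.testBit_or, Nat.testBit_shiftLeft, Bool.or_eq_true, Bool.and_eq_true,
      decide_eq_true_eq, List.toFinset_cons]
    rw [← ih hl.2, ← ih hl.2, Finset.powerset_insert]
    constructor
    · rintro ⟨S, hS, rfl⟩
      rcases Finset.mem_union.1 hS with h | h
      · exact Or.inl ⟨S, h, rfl⟩
      · obtain ⟨T, hT, rfl⟩ := Finset.mem_image.1 h
        have : a ∉ T := fun h' => ha (Finset.mem_powerset.1 hT h')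
        rw [Finset.sum_insert this]
        exact Or.inr ⟨by omega, T, hT, by omega⟩
    · rintro (⟨S, hS, rfl⟩ | ⟨hx, T, hT, hs⟩)
      · exact ⟨S, Finset.mem_union_left _ hS, rfl⟩
      · have : a ∉ T := fun h' => ha (Finset.mem_powerset.1 hT h')
        refine ⟨insert a T, Finset.mem_union_right _ (Finset.mem_image_of_mem _ hT), ?_⟩
        rw [Finset.sum_insert this]; omega

/-- number of set bits among positions `1..n` -/
def cnt (M : ℕ) : ℕ → ℕ
  | 0 => 0
  | n + 1 => cnt M n + (if M.testBit (n + 1) then 1 else 0)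

theorem cnt_eq (M n : ℕ) :
    ((Finset.Icc 1 n).filter (fun x => M.testBit x = true)).card = cnt M n := by
  induction n with
  | zero => simp [cnt]
  | succ n ih =>
    rw [cnt, ← ih, ← Finset.insert_Icc_right_eq_Icc_add_one (by omega), Finset.filter_insert]
    split_ifs with h
    · rw [Finset.card_insert_of_notMem (by simp)]
    · simp

theorem card_eq (l : List ℕ) (hl : l.Nodup) (hpos : ∀ d ∈ l, 0 < d) (N : ℕ)
    (hN : mask l < 2 ^ (N + 1)) :
    ((l.toFinset.powerset.erase ∅).image (fun S => ∑ d ∈ S, d)).card = cnt (mask l) N := by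
  rw [← cnt_eq]
  congr 1
  ext x
  simp only [Finset.mem_image, Finset.mem_erase, Finset.mem_filter, Finset.mem_Icc]
  constructor
  · rintro ⟨S, ⟨hne, hS⟩, rfl⟩
    have hb := (mem_iff l hl _).1 ⟨S, hS, rfl⟩
    refine ⟨⟨?_, ?_⟩, hb⟩
    · obtain ⟨d, hd⟩ := Finset.nonempty_iff_ne_empty.2 hne
      have h1 : d ≤ ∑ d ∈ S, d := Finset.single_le_sum (f := fun d => d) (by simp) hd
      have h2 := hpos d (by simpa using Finset.mem_powerset.1 hS hd)
      omega
    · by_contra hc
      have : mask l < 2 ^ (∑ d ∈ S, d) :=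
        lt_of_lt_of_le hN (Nat.pow_le_pow_right (by norm_num) (by omega))
      rw [Nat.testBit_lt_two_pow this] at hb
      exact absurd hb (by simp)
  · rintro ⟨⟨h1, _⟩, hb⟩
    obtain ⟨S, hS, rfl⟩ := (mem_iff l hl _).2 hb
    refine ⟨S, ⟨?_, hS⟩, rfl⟩
    rintro rfl
    simp at h1

theorem main : (((Nat.properDivisors 1652).powerset.erase ∅).image
    (fun S => ∑ d ∈ S, d)).card = 1652 ∧ ∑ d ∈ Nat.properDivisors 1652, d ≠ 1652 := by
  have h : Nat.properDivisors 1652
      = [1, 2, 4, 7, 14, 28, 59, 118, 236, 413, 826].toFinset := by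
    decide +kernel
  rw [h]
  refine ⟨?_, by decide +kernel⟩
  rw [card_eq _ (by decide) (by decide) 1800 (by decide +kernel)]
  decide +kernel

end Pool.Agent.H55.SubsetSums
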