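import Mathlib

/-! A ladder group over a regular uncountable well order and its combinatorics. -/

namespace Pool.Agent.H55.Suit

open Set

variable {W : Type} [LinearOrder W]

/-- countable families are strictly bounded -/
def P1 (W : Type) [LinearOrder W] : Prop := ∀ b : ℕ → W, ∃ c, ∀ n, b n < c

/-- families indexed by a closed initial segment are strictly bounded -/
def P3 (W : Type) [LinearOrder W] : Prop := ∀ (β : W) (b : W → W), ∃ c, ∀ γ ≤ β, b γ < c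

def Unb (J : Set W) : Prop := ∀ β, ∃ ξ ∈ J, β ≤ ξ

def Lim (δ : W) : Prop := ∃ l : ℕ → W, StrictMono l ∧ IsLUB (range l) δ

open Classical in
noncomputable def L (δ : W) : ℕ → W := if h : Lim δ then h.choose else fun _ => δ

theorem L_spec {δ : W} (h : Lim δ) : StrictMono (L δ) ∧ IsLUB (range (L δ)) δ := by
  unfold L
  rw [dif_pos h]
  exact h.choose_spec

open Classical in
noncomputable def e (α : W) : W → ℤ := fun γ => if γ = α then 1 else 0

open Classical in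
noncomputable def g (δ : W) : W → ℤ := fun γ => if Lim δ ∧ γ ∈ range (L δ) then 1 else 0

def T (W : Type) [LinearOrder W] : Set (W → ℤ) := insert 0 (range e ∪ range g)

def H (W : Type) [LinearOrder W] : AddSubgroup (W → ℤ) := AddSubgroup.closure (T W)

def Conv (J : Set W) (a : W → W → ℤ) (x : W → ℤ) : Prop :=
  ∀ β, ∃ η, ∀ ξ ∈ J, η ≤ ξ → ∀ γ < β, a ξ γ = x γ

def Good (a : W → W → ℤ) : Prop :=
  ∀ J, Unb J → ∃ J' ⊆ J, Unb J' ∧ ∃ x ∈ H W, Conv J' a x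

theorem e_mem (α : W) : e α ∈ H W :=
  AddSubgroup.subset_closure (Or.inr (Or.inl ⟨α, rfl⟩))

theorem g_mem (α : W) : g α ∈ H W :=
  AddSubgroup.subset_closure (Or.inr (Or.inr ⟨α, rfl⟩))

theorem Conv.mono {J J' : Set W} {a : W → W → ℤ} {x : W → ℤ} (h : Conv J a x) (hJ : J' ⊆ J) :
    Conv J' a x := fun β => by
  obtain ⟨η, hη⟩ := h β
  exact ⟨η, fun ξ hξ => hη ξ (hJ hξ)⟩

theorem good_const {x : W → ℤ} (hx : x ∈ H W) : Good (fun _ : W => x) := fun J hJ =>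
  ⟨J, subset_rfl, hJ, x, hx, fun β => ⟨β, fun _ _ _ _ _ => rfl⟩⟩

theorem Good.add {a b : W → W → ℤ} (ha : Good a) (hb : Good b) : Good (fun ξ => a ξ + b ξ) := by
  intro J hJ
  obtain ⟨J1, h1, hu1, x, hx, hc1⟩ := ha J hJ
  obtain ⟨J2, h2, hu2, y, hy, hc2⟩ := hb J1 hu1
  refine ⟨J2, h2.trans h1, hu2, x + y, (H W).add_mem hx hy, fun β => ?_⟩
  obtain ⟨η1, k1⟩ := hc1 β
  obtain ⟨η2, k2⟩ := hc2 β
  refine ⟨max η1 η2, fun ξ hξ hη γ hγ => ?_⟩
  simp only [Pi.add_apply]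
  rw [k1 ξ (h2 hξ) (le_trans (le_max_left _ _) hη) γ hγ,
    k2 ξ hξ (le_trans (le_max_right _ _) hη) γ hγ]

theorem Good.neg {a : W → W → ℤ} (ha : Good a) : Good (fun ξ => - a ξ) := by
  intro J hJ
  obtain ⟨J1, h1, hu1, x, hx, hc1⟩ := ha J hJ
  refine ⟨J1, h1, hu1, -x, (H W).neg_mem hx, fun β => ?_⟩
  obtain ⟨η1, k1⟩ := hc1 β
  refine ⟨η1, fun ξ hξ hη γ hγ => ?_⟩
  simp only [Pi.neg_apply]
  rw [k1 ξ hξ hη γ hγ]

theorem good_of_approx {a : W → W → ℤ}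
    (h : ∀ J, Unb J → ∃ J' ⊆ J, Unb J' ∧ ∃ b, Good b ∧
      ∀ β, ∃ η, ∀ ξ ∈ J', η ≤ ξ → ∀ γ < β, a ξ γ = b ξ γ) : Good a := by
  intro J hJ
  obtain ⟨J1, h1, hu1, b, hb, hab⟩ := h J hJ
  obtain ⟨J2, h2, hu2, y, hy, hc2⟩ := hb J1 hu1
  refine ⟨J2, h2.trans h1, hu2, y, hy, fun β => ?_⟩
  obtain ⟨η1, k1⟩ := hab β
  obtain ⟨η2, k2⟩ := hc2 β
  refine ⟨max η1 η2, fun ξ hξ hη γ hγ => ?_⟩
  rw [k1 ξ (h2 hξ) (le_trans (le_max_left _ _) hη) γ hγ,
    k2 ξ hξ (le_trans (le_max_right _ _) hη) γ hγ]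

theorem good_of_eq {a : W → W → ℤ}
    (h : ∀ J, Unb J → ∃ J' ⊆ J, Unb J' ∧ ∃ b, Good b ∧ ∀ ξ ∈ J', a ξ = b ξ) : Good a := by
  refine good_of_approx fun J hJ => ?_
  obtain ⟨J1, h1, hu1, b, hb, hab⟩ := h J hJ
  exact ⟨J1, h1, hu1, b, hb, fun β => ⟨β, fun ξ hξ _ γ _ => by rw [hab ξ hξ]⟩⟩

theorem pigeon_nat (h1 : P1 W) {J : Set W} (hJ : Unb J) (f : W → ℕ) :
    ∃ n, Unb (J ∩ {ξ | f ξ = n}) := by
  by_contra hc
  push Not at hc
  have : ∀ n, ∃ β, ∀ ξ ∈ J, f ξ = n → ξ < β := fun n => by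
    have := hc n
    unfold Unb at this
    push Not at this
    obtain ⟨β, hβ⟩ := this
    exact ⟨β, fun ξ hξ hf => hβ ξ ⟨hξ, hf⟩⟩
  choose b hb using this
  obtain ⟨c, hc⟩ := h1 b
  obtain ⟨ξ, hξ, hcξ⟩ := hJ c
  exact absurd ((hb _ ξ hξ rfl).trans (hc _)) (not_lt.2 hcξ)

theorem pigeon_bdd (h3 : P3 W) {J : Set W} (hJ : Unb J) (f : W → W) (β : W)
    (hf : ∀ ξ ∈ J, f ξ ≤ β) : ∃ c, Unb (J ∩ {ξ | f ξ = c}) := by
  by_contra hc
  push Not at hc
  have : ∀ n, ∃ β, ∀ ξ ∈ J, f ξ = n → ξ < β := fun n => by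
    have := hc n
    unfold Unb at this
    push Not at this
    obtain ⟨β, hβ⟩ := this
    exact ⟨β, fun ξ hξ hf => hβ ξ ⟨hξ, hf⟩⟩
  choose b hb using this
  obtain ⟨c, hc⟩ := h3 β b
  obtain ⟨ξ, hξ, hcξ⟩ := hJ c
  exact absurd ((hb _ ξ hξ rfl).trans (hc _ (hf ξ hξ))) (not_lt.2 hcξ)

theorem dichotomy (h3 : P3 W) {J : Set W} (hJ : Unb J) (f : W → W) :
    (∃ c, Unb (J ∩ {ξ | f ξ = c})) ∨ ∀ β, ∃ η, ∀ ξ ∈ J, η ≤ ξ → β < f ξ := by
  by_contra hc
  push Not at hc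
  obtain ⟨hc1, β, hβ⟩ := hc
  have hu : Unb (J ∩ {ξ | f ξ ≤ β}) := fun η => by
    obtain ⟨ξ, h1, h2, h3⟩ := hβ η
    exact ⟨ξ, ⟨h1, h3⟩, h2⟩
  obtain ⟨c, hc⟩ := pigeon_bdd h3 hu f β (fun ξ hξ => hξ.2)
  refine hc1 c fun η => ?_
  obtain ⟨ξ, h1, h2⟩ := hc η
  exact ⟨ξ, ⟨h1.1.1, h1.2⟩, h2⟩

theorem diag (h3 : P3 W) {J : Set W} (f : W → W)
    (hf : ∀ β, ∃ ξ ∈ J, β ≤ ξ ∧ β < f ξ) :
    ∃ J' ⊆ J, Unb J' ∧ ∀ β, ∃ η, ∀ ξ ∈ J', η ≤ ξ → β < f ξ := by
  choose x hxJ hx1 hx2 using hf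
  refine ⟨range x, ?_, fun β => ⟨x β, ⟨β, rfl⟩, hx1 β⟩, fun β => ?_⟩
  · rintro _ ⟨β, rfl⟩
    exact hxJ β
  · obtain ⟨c, hc⟩ := h3 β x
    refine ⟨c, ?_⟩
    rintro _ ⟨γ, rfl⟩ hγ
    have : β < γ := by
      by_contra hh
      exact absurd (hc γ (not_lt.1 hh)) (not_lt.2 hγ)
    exact this.trans (hx2 γ)

theorem good_e (h3 : P3 W) (f : W → W) : Good (fun ξ => e (f ξ)) := by
  intro J hJ
  rcases dichotomy h3 hJ f with ⟨c, hc⟩ | h
  · refine ⟨_, inter_subset_left, hc, e c, e_mem c, fun β => ⟨β, fun ξ hξ _ γ _ => ?_⟩⟩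
    have : f ξ = c := hξ.2
    simp only [this]
  · refine ⟨J, subset_rfl, hJ, 0, (H W).zero_mem, fun β => ?_⟩
    obtain ⟨η, hη⟩ := h β
    refine ⟨η, fun ξ hξ hηξ γ hγ => ?_⟩
    have := hη ξ hξ hηξ
    simp only [e, Pi.zero_apply]
    rw [if_neg (ne_of_lt (hγ.trans this))]

theorem good_sum (h3 : P3 W) (f : W → ℕ → W) (n : ℕ) :
    Good (fun ξ => ∑ m ∈ Finset.range n, e (f ξ m)) := by
  induction n with
  | zero => simpa using good_const (W := W) (H W).zero_mem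
  | succ n ih =>
    simp only [Finset.sum_range_succ]
    exact ih.add (good_e h3 fun ξ => f ξ n)

theorem g_eq_sum {δ : W} (h : Lim δ) (n : ℕ) {γ : W} (hγ : γ < L δ n) :
    g δ γ = (∑ m ∈ Finset.range n, e (L δ m)) γ := by
  classical
  have hs := (L_spec h).1
  simp only [g, Finset.sum_apply, e]
  by_cases hm : γ ∈ range (L δ)
  · rw [if_pos ⟨h, hm⟩]
    obtain ⟨m, rfl⟩ := hm
    have hmn : m < n := hs.lt_iff_lt.1 hγ
    rw [Finset.sum_eq_single m]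
    · simp
    · intro b _ hb
      rw [if_neg]
      exact fun hh => hb (hs.injective hh).symm
    · intro hh
      exact absurd (Finset.mem_range.2 hmn) hh
  · rw [if_neg (fun hh => hm hh.2)]
    symm
    refine Finset.sum_eq_zero fun m _ => ?_
    rw [if_neg]
    rintro rfl
    exact hm ⟨m, rfl⟩

theorem good_g (h1 : P1 W) (h3 : P3 W) (f : W → W) : Good (fun ξ => g (f ξ)) := by
  classical
  refine good_of_approx fun J hJ => ?_
  obtain ⟨k, hk⟩ := pigeon_nat h1 hJ (fun ξ => if Lim (f ξ) then 0 else 1)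
  by_cases hk0 : k = 0
  swap
  · refine ⟨_, inter_subset_left, hk, fun _ => 0, good_const (H W).zero_mem,
      fun β => ⟨β, fun ξ hξ _ γ _ => ?_⟩⟩
    have h2 : (if Lim (f ξ) then 0 else 1) = k := hξ.2
    have : ¬ Lim (f ξ) := fun hh => hk0 (by rw [if_pos hh] at h2; exact h2.symm)
    simp only [g, Pi.zero_apply]
    rw [if_neg (fun hh => this hh.1)]
  subst hk0
  set J0 := J ∩ {ξ | (if Lim (f ξ) then 0 else 1) = 0} with hJ0
  have hlim : ∀ ξ ∈ J0, Lim (f ξ) := fun ξ hξ => by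
    have h2 : (if Lim (f ξ) then 0 else 1) = 0 := hξ.2
    by_contra hh
    rw [if_neg hh] at h2
    exact one_ne_zero h2
  rcases dichotomy h3 hk f with ⟨c, hc⟩ | h
  · refine ⟨_, inter_subset_left.trans inter_subset_left, hc, fun _ => g c,
      good_const (g_mem c), fun β => ⟨β, fun ξ hξ _ γ _ => ?_⟩⟩
    have : f ξ = c := hξ.2
    simp only [this]
  · have : ∃ n, ∀ β, ∃ ξ ∈ J0, β ≤ ξ ∧ β < L (f ξ) n := by
      by_contra hc
      push Not at hc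
      choose b hb using hc
      obtain ⟨c, hc⟩ := h1 b
      obtain ⟨η, hη⟩ := h c
      obtain ⟨ξ, hξ, hle⟩ := hk (max c η)
      have h5 := hη ξ hξ (le_trans (le_max_right _ _) hle)
      have h6 : f ξ ≤ c := by
        refine (L_spec (hlim ξ hξ)).2.2 ?_
        rintro _ ⟨n, rfl⟩
        exact (hb n ξ hξ ((hc n).le.trans (le_trans (le_max_left _ _) hle))).trans (hc n).le
      exact absurd h5 (not_lt.2 h6)
    obtain ⟨n, hn⟩ := this
    obtain ⟨J', hJ', hu, hJ2⟩ := diag h3 (fun ξ => L (f ξ) n) hn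
    refine ⟨J', hJ'.trans inter_subset_left, hu, _, good_sum h3 (fun ξ m => L (f ξ) m) n,
      fun β => ?_⟩
    obtain ⟨η, hη⟩ := hJ2 β
    exact ⟨η, fun ξ hξ hle γ hγ => g_eq_sum (hlim ξ (hJ' hξ)) n (hγ.trans (hη ξ hξ hle))⟩

theorem good_T (h1 : P1 W) (h3 : P3 W) (a : W → W → ℤ) (ha : ∀ ξ, a ξ ∈ T W) : Good a := by
  classical
  refine good_of_eq fun J hJ => ?_
  obtain ⟨k, hk⟩ := pigeon_nat h1 hJ
    (fun ξ => if a ξ ∈ range e then 0 else if a ξ ∈ range g then 1 else 2)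
  refine ⟨_, inter_subset_left, hk, ?_⟩
  by_cases h0 : k = 0
  · subst h0
    refine ⟨fun ξ => e (if h : a ξ ∈ range e then h.choose else ξ), good_e h3 _, fun ξ hξ => ?_⟩
    have h2 : (if a ξ ∈ range e then 0 else if a ξ ∈ range g then 1 else 2) = 0 := hξ.2
    have h3 : a ξ ∈ range e := by
      by_contra hh
      rw [if_neg hh] at h2
      split_ifs at h2
    simp only [dif_pos h3]
    exact h3.choose_spec.symm
  by_cases h1' : k = 1
  · subst h1'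
    refine ⟨fun ξ => g (if h : a ξ ∈ range g then h.choose else ξ), good_g h1 h3 _,
      fun ξ hξ => ?_⟩
    have h2 : (if a ξ ∈ range e then 0 else if a ξ ∈ range g then 1 else 2) = 1 := hξ.2
    have h3 : a ξ ∈ range g := by
      by_contra hh
      rw [if_neg hh] at h2
      split_ifs at h2
      all_goals omega
    simp only [dif_pos h3]
    exact h3.choose_spec.symm
  · refine ⟨fun _ => 0, good_const (H W).zero_mem, fun ξ hξ => ?_⟩
    have h2 : (if a ξ ∈ range e then 0 else if a ξ ∈ range g then 1 else 2) = k := hξ.2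
    rcases ha ξ with h | h | h
    · exact h
    · rw [if_pos h] at h2
      exact absurd h2.symm h0
    · split_ifs at h2
      · exact absurd h2.symm h0
      · exact absurd h2.symm h1'

def Lev (W : Type) [LinearOrder W] : ℕ → (W → ℤ) → Prop
  | 0, x => x = 0
  | n + 1, x => ∃ y, Lev W n y ∧ ∃ t ∈ T W, ∃ t' ∈ T W, x = y + t + -t'

theorem exists_lev {x : W → ℤ} (hx : x ∈ H W) : ∃ n, Lev W n x := by
  induction hx using AddSubgroup.closure_induction_left with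
  | zero => exact ⟨0, rfl⟩
  | add_left x hx y _ ih =>
    obtain ⟨n, hn⟩ := ih
    exact ⟨n + 1, y, hn, x, hx, 0, Or.inl rfl, by abel⟩
  | neg_add_cancel x hx y _ ih =>
    obtain ⟨n, hn⟩ := ih
    exact ⟨n + 1, y, hn, 0, Or.inl rfl, x, hx, by abel⟩

theorem good_lev (h1 : P1 W) (h3 : P3 W) (n : ℕ) :
    ∀ a : W → W → ℤ, (∀ ξ, Lev W n (a ξ)) → Good a := by
  induction n with
  | zero =>
    intro a ha
    have : a = fun _ => 0 := funext fun ξ => ha ξ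
    rw [this]
    exact good_const (H W).zero_mem
  | succ n ih =>
    intro a ha
    choose y hy t ht t' ht' hx using ha
    have : a = fun ξ => y ξ + t ξ + -t' ξ := funext hx
    rw [this]
    exact ((ih y hy).add (good_T h1 h3 t ht)).add (good_T h1 h3 t' ht').neg

theorem lev_zero (n : ℕ) : Lev W n 0 := by
  induction n with
  | zero => rfl
  | succ n ih => exact ⟨0, ih, 0, Or.inl rfl, 0, Or.inl rfl, by simp⟩

theorem good_all (h1 : P1 W) (h3 : P3 W) (a : W → W → ℤ) (ha : ∀ ξ, a ξ ∈ H W) : Good a := by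
  classical
  refine good_of_eq fun J hJ => ?_
  choose n hn using fun ξ => exists_lev (ha ξ)
  obtain ⟨k, hk⟩ := pigeon_nat h1 hJ n
  refine ⟨_, inter_subset_left, hk, fun ξ => if n ξ = k then a ξ else 0,
    good_lev h1 h3 k _ fun ξ => ?_, fun ξ hξ => ?_⟩
  · split_ifs with h
    · exact h ▸ hn ξ
    · exact lev_zero k
  · have : n ξ = k := hξ.2
    simp only [if_pos this]

theorem supp_countable {x : W → ℤ} (hx : x ∈ H W) : {γ | x γ ≠ 0}.Countable := by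
  induction hx using AddSubgroup.closure_induction with
  | mem x hx =>
    rcases hx with rfl | ⟨α, rfl⟩ | ⟨α, rfl⟩
    · simp
    · refine (countable_singleton α).mono fun γ hγ => ?_
      by_contra hh
      exact hγ (if_neg hh)
    · refine (countable_range (L α)).mono fun γ hγ => ?_
      by_contra hh
      exact hγ (if_neg fun h => hh h.2)
  | zero => simp
  | add x y _ _ hx hy =>
    refine (hx.union hy).mono fun γ hγ => ?_
    by_contra hh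
    simp only [mem_union, mem_ofPred_eq, not_or, not_not] at hh
    exact hγ (by simp [hh.1, hh.2])
  | neg x _ hx =>
    refine hx.mono fun γ hγ => ?_
    simpa using hγ

theorem supp_bdd [Nonempty W] (h1 : P1 W) {x : W → ℤ} (hx : x ∈ H W) :
    ∃ β, ∀ γ, β ≤ γ → x γ = 0 := by
  have hc := supp_countable hx
  rcases eq_empty_or_nonempty {γ | x γ ≠ 0} with h | h
  · refine ⟨Classical.arbitrary W, fun γ _ => ?_⟩
    by_contra hh
    have : γ ∈ {γ | x γ ≠ 0} := hh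
    rw [h] at this
    exact this
  · obtain ⟨b, hb⟩ := hc.exists_eq_range h
    obtain ⟨c, hc⟩ := h1 b
    refine ⟨c, fun γ hγ => ?_⟩
    by_contra hh
    have : γ ∈ {γ | x γ ≠ 0} := hh
    rw [hb] at this
    obtain ⟨n, rfl⟩ := this
    exact absurd (hc n) (not_lt.2 hγ)

/-- the combinatorial core: no suitable set -/
theorem no_suit [Nonempty W] [WellFoundedLT W] (h1 : P1 W) (h3 : P3 W) (S : Set (W → ℤ))
    (hS : ∀ s ∈ S, s ∈ H W)
    (hd : ∀ s ∈ S, ∃ β, ∀ t ∈ S, (∀ γ < β, t γ = s γ) → t = s)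
    (hcl : ∀ x ∈ H W, (∀ β, ∃ s ∈ S, ∀ γ < β, s γ = x γ) → x = 0 ∨ x ∈ S)
    (hden : ∀ x ∈ H W, ∀ β, ∃ y ∈ AddSubgroup.closure S, ∀ γ < β, y γ = x γ) : False := by
  have hA : ∀ β, ∃ c, β < c ∧ ∀ s ∈ S, (∃ γ < β, s γ ≠ 0) → ∀ γ, c ≤ γ → s γ = 0 := by
    intro β
    by_contra hc
    push Not at hc
    have : ∀ c, ∃ s ∈ S, (∃ γ < β, s γ ≠ 0) ∧ ∃ γ, c ≤ γ ∧ s γ ≠ 0 := fun c => by
      obtain ⟨d, hd⟩ := h1 (fun _ => max c β)
      have hd0 := hd 0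
      obtain ⟨s, hs, h5, γ, h6, h7⟩ := hc d (lt_of_le_of_lt (le_max_right _ _) hd0)
      exact ⟨s, hs, h5, γ, (le_trans (le_max_left _ _) hd0.le).trans h6, h7⟩
    choose s hs hs1 hs2 using this
    obtain ⟨J, -, hJ, x, hx, hconv⟩ := good_all h1 h3 s (fun ξ => hS _ (hs ξ)) univ
      (fun β => ⟨β, mem_univ _, le_rfl⟩)
    have hx0 : x ≠ 0 := by
      rintro rfl
      obtain ⟨η, hη⟩ := hconv β
      obtain ⟨ξ, hξ, hle⟩ := hJ η
      obtain ⟨γ, h5, h6⟩ := hs1 ξ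
      exact h6 (hη ξ hξ hle γ h5)
    have hxS : x ∈ S := by
      refine (hcl x hx fun β' => ?_).resolve_left hx0
      obtain ⟨η, hη⟩ := hconv β'
      obtain ⟨ξ, hξ, hle⟩ := hJ η
      exact ⟨s ξ, hs ξ, hη ξ hξ hle⟩
    obtain ⟨β', hβ'⟩ := hd x hxS
    obtain ⟨c, hc⟩ := supp_bdd h1 hx
    obtain ⟨η, hη⟩ := hconv β'
    obtain ⟨ξ, hξ, hle⟩ := hJ (max η c)
    have h7 : s ξ = x := hβ' _ (hs ξ) (hη ξ hξ (le_trans (le_max_left _ _) hle))
    obtain ⟨γ, h8, h9⟩ := hs2 ξ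
    rw [h7] at h9
    exact h9 (hc γ ((le_trans (le_max_right _ _) hle).trans h8))
  choose nx hnx hnx2 using hA
  let b : ℕ → W := fun n => nx^[n] (Classical.arbitrary W)
  have hb : ∀ n, b (n + 1) = nx (b n) := fun n => Function.iterate_succ_apply' _ _ _
  have hbm : StrictMono b := strictMono_nat_of_lt_succ fun n => by rw [hb]; exact hnx _
  obtain ⟨c, hc⟩ := h1 b
  have hne : (upperBounds (range b)).Nonempty := ⟨c, by rintro _ ⟨n, rfl⟩; exact (hc n).le⟩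
  set δ := wellFounded_lt.min _ hne with hδ
  have hlub : IsLUB (range b) δ :=
    ⟨wellFounded_lt.min_mem _ hne, fun u hu => not_lt.1 (wellFounded_lt.not_lt_min _ hu)⟩
  have hlim : Lim δ := ⟨b, hbm, hlub⟩
  have hcof : ∀ γ < δ, ∃ n, γ < b n := fun γ hγ => by
    by_contra hh
    push Not at hh
    exact absurd (hlub.2 (by rintro _ ⟨n, rfl⟩; exact hh n)) (not_le.2 hγ)
  have hvan : ∀ y ∈ AddSubgroup.closure S, ∃ n, ∀ γ, b n ≤ γ → γ < δ → y γ = 0 := by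
    intro y hy
    induction hy using AddSubgroup.closure_induction with
    | mem x hx =>
      by_cases h : ∃ γ < δ, x γ ≠ 0
      · obtain ⟨γ, h5, h6⟩ := h
        obtain ⟨n, hn⟩ := hcof γ h5
        refine ⟨n + 1, fun γ' h7 _ => hnx2 (b n) x hx ⟨γ, hn, h6⟩ γ' (hb n ▸ h7)⟩
      · push Not at h
        exact ⟨0, fun γ _ h5 => h γ h5⟩
    | zero => exact ⟨0, fun _ _ _ => rfl⟩
    | add x y _ _ hx hy =>
      obtain ⟨n, hn⟩ := hx
      obtain ⟨m, hm⟩ := hy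
      refine ⟨max n m, fun γ h5 h6 => ?_⟩
      simp [hn γ ((hbm.monotone (le_max_left _ _)).trans h5) h6,
        hm γ ((hbm.monotone (le_max_right _ _)).trans h5) h6]
    | neg x _ hx =>
      obtain ⟨n, hn⟩ := hx
      exact ⟨n, fun γ h5 h6 => by simp [hn γ h5 h6]⟩
  obtain ⟨y, hy, hyg⟩ := hden (g δ) (g_mem δ) δ
  obtain ⟨n, hn⟩ := hvan y hy
  obtain ⟨hs, hl⟩ := L_spec hlim
  have hbn : b n < δ := (hbm (Nat.lt_succ_self n)).trans_le (hlub.1 ⟨n + 1, rfl⟩)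
  have : ∃ m, b n ≤ L δ m := by
    by_contra hh
    push Not at hh
    exact absurd (hl.2 (by rintro _ ⟨m, rfl⟩; exact (hh m).le)) (not_le.2 hbn)
  obtain ⟨m, hm⟩ := this
  have hmδ : L δ m < δ := (hs (Nat.lt_succ_self m)).trans_le (hl.1 ⟨m + 1, rfl⟩)
  have h5 := hn _ hm hmδ
  rw [hyg _ hmδ] at h5
  simp only [g] at h5
  rw [if_pos ⟨hlim, m, rfl⟩] at h5
  exact one_ne_zero h5

end Pool.Agent.H55.Suit
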