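import Pool.Agent.H55.Suit2

/-! A discrete sum of copies of the ladder group. -/

namespace Pool.Agent.H55.Suit

open Set Filter Topology

variable {W : Type} [LinearOrder W]

def Q (W : Type) [LinearOrder W] : Type := G W × G W

noncomputable instance : AddCommGroup (Q W) := inferInstanceAs (AddCommGroup (G W × G W))

noncomputable instance : TopologicalSpace (Q W) :=
  @instTopologicalSpaceProd (G W) (G W) ⊥ inferInstance

noncomputable instance [WellFoundedLT W] : LinearOrder (Q W) :=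
  inferInstanceAs (LinearOrder (G W ×ₗ G W))

noncomputable def q1 : Q W →+ G W := AddMonoidHom.fst (G W) (G W)
noncomputable def q2 : Q W →+ G W := AddMonoidHom.snd (G W) (G W)
def mk (a b : G W) : Q W := (a, b)

@[simp] theorem q1_mk (a b : G W) : q1 (mk a b) = a := rfl
@[simp] theorem q2_mk (a b : G W) : q2 (mk a b) = b := rfl

theorem Q_ext {x y : Q W} (h1 : q1 x = q1 y) (h2 : q2 x = q2 y) : x = y := Prod.ext h1 h2

theorem Q_lt [WellFoundedLT W] (x y : Q W) :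
    x < y ↔ q1 x < q1 y ∨ q1 x = q1 y ∧ q2 x < q2 y := Prod.Lex.lt_iff

def BQ (x : Q W) (β : W) : Set (Q W) := {y | q1 y = q1 x ∧ q2 y ∈ B (q2 x) β}

theorem basisQ [Nonempty W] (x : Q W) : (𝓝 x).HasBasis (fun _ : W => True) (BQ x) := by
  have h : 𝓝 x = (pure (q1 x) ×ˢ 𝓝 (q2 x) : Filter (G W × G W)) := by
    have := @nhds_prod_eq (G W) (G W) ⊥ inferInstance (q1 x) (q2 x)
    rw [@nhds_discrete (G W) ⊥ (discreteTopology_bot _)] at this
    exact this
  rw [h]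
  refine ((hasBasis_pure (q1 x)).prod (basis (q2 x))).to_hasBasis ?_ ?_
  · rintro ⟨u, β⟩ _
    exact ⟨β, trivial, fun y hy => ⟨hy.1, hy.2⟩⟩
  · intro β _
    exact ⟨((), β), ⟨trivial, trivial⟩, fun y hy => ⟨hy.1, hy.2⟩⟩

theorem BQ_mem [Nonempty W] (x : Q W) (β : W) : BQ x β ∈ 𝓝 x := (basisQ x).mem_of_mem trivial

theorem isOpen_ofQ [Nonempty W] {U : Set (Q W)} (h : ∀ x ∈ U, ∃ β, BQ x β ⊆ U) : IsOpen U :=
  isOpen_iff_mem_nhds.2 fun x hx => by
    obtain ⟨β, hβ⟩ := h x hx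
    exact mem_of_superset (BQ_mem x β) hβ

instance [Nonempty W] : IsTopologicalAddGroup (Q W) where
  continuous_add := by
    refine continuous_iff_continuousAt.2 fun p => ?_
    refine (basisQ _).tendsto_right_iff.2 fun β _ => ?_
    rw [nhds_prod_eq]
    refine mem_of_superset (prod_mem_prod (BQ_mem p.1 β) (BQ_mem p.2 β)) fun q hq =>
      ⟨?_, fun γ hγ => ?_⟩
    · simp only [map_add]
      rw [hq.1.1, hq.2.1]
    · simp only [map_add, Pi.add_apply]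
      rw [hq.1.2 γ hγ, hq.2.2 γ hγ]
  continuous_neg := by
    refine continuous_iff_continuousAt.2 fun p => ?_
    refine (basisQ _).tendsto_right_iff.2 fun β _ => ?_
    refine mem_of_superset (BQ_mem p β) fun q hq => ⟨?_, fun γ hγ => ?_⟩
    · simp only [map_neg]
      rw [hq.1]
    · simp only [map_neg, Pi.neg_apply]
      rw [hq.2 γ hγ]

theorem orderTopQ [Nonempty W] [WellFoundedLT W] (h1 : P1 W) : OrderTopology (Q W) := by
  refine ⟨le_antisymm ?_ ?_⟩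
  · refine le_generateFrom ?_
    rintro s ⟨a, rfl | rfl⟩
    · refine isOpen_ofQ fun x hx => ?_
      rcases (Q_lt _ _).1 hx with h | ⟨h, h'⟩
      · exact ⟨Classical.arbitrary W, fun y hy => (Q_lt _ _).2 (Or.inl (hy.1 ▸ h))⟩
      · obtain ⟨β, -, hβ⟩ := (basis (q2 x)).mem_iff.1 ((Ioi_open h1 (q2 a)).mem_nhds h')
        exact ⟨β, fun y hy => (Q_lt _ _).2 (Or.inr ⟨h.trans hy.1.symm, hβ hy.2⟩)⟩
    · refine isOpen_ofQ fun x hx => ?_
      rcases (Q_lt _ _).1 hx with h | ⟨h, h'⟩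
      · exact ⟨Classical.arbitrary W, fun y hy => (Q_lt _ _).2 (Or.inl (hy.1 ▸ h))⟩
      · obtain ⟨β, -, hβ⟩ := (basis (q2 x)).mem_iff.1 ((Iio_open h1 (q2 a)).mem_nhds h')
        exact ⟨β, fun y hy => (Q_lt _ _).2 (Or.inr ⟨hy.1.trans h, hβ hy.2⟩)⟩
  · intro U hU
    have : ∀ x ∈ U, ∃ V, V ⊆ U ∧ IsOpen[Preorder.topology (Q W)] V ∧ x ∈ V := by
      intro x hx
      obtain ⟨β, -, hβ⟩ := (basisQ x).mem_iff.1 (hU.mem_nhds hx)
      refine ⟨Ioo (mk (q1 x) (q2 x - eG β)) (mk (q1 x) (q2 x + eG β)), fun y hy => hβ ?_, ?_,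
        (Q_lt _ _).2 (Or.inr ⟨rfl, sub_eG_lt _ β⟩), (Q_lt _ _).2 (Or.inr ⟨rfl, lt_add_eG _ β⟩)⟩
      · have ha := (Q_lt _ _).1 hy.1
        have hb := (Q_lt _ _).1 hy.2
        simp only [q1_mk, q2_mk] at ha hb
        rcases ha with ha | ⟨ha, ha'⟩
        · rcases hb with hb | ⟨hb, -⟩
          · exact absurd (ha.trans hb) (lt_irrefl _)
          · exact absurd hb ha.ne'
        · rcases hb with hb | ⟨hb, hb'⟩
          · exact absurd ha hb.ne'
          · exact ⟨hb, Ioo_sub _ β ⟨ha', hb'⟩⟩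
      · exact TopologicalSpace.GenerateOpen.inter _ _
          (TopologicalSpace.GenerateOpen.basic _ ⟨_, Or.inl rfl⟩)
          (TopologicalSpace.GenerateOpen.basic _ ⟨_, Or.inr rfl⟩)
    exact (@isOpen_iff_forall_mem_open _ (Preorder.topology (Q W)) U).2 this

def SQ (W : Type) [LinearOrder W] : Set (Q W) := {x | q2 x = 0 ∨ q2 x = q1 x}

theorem sep [Nonempty W] (h1 : P1 W) {x y : G W} (h : y ≠ x) : ∃ β, y ∉ B x β := by
  obtain ⟨γ, hγ⟩ := Function.ne_iff.1 (fun h' => h (val_inj h'))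
  obtain ⟨β, hβ⟩ := h1 (fun _ => γ)
  exact ⟨β, fun hh => hγ (hh γ (hβ 0))⟩

theorem SQ_isolated [Nonempty W] (h1 : P1 W) (x : Q W) : ∃ β, ∀ y ∈ BQ x β, y ∈ SQ W → y = x := by
  have key : ∀ z : G W, ∃ β, z ∈ B (q2 x) β → z = q2 x := fun z => by
    by_cases h : z = q2 x
    · exact ⟨Classical.arbitrary W, fun _ => h⟩
    · obtain ⟨β, hβ⟩ := sep h1 h
      exact ⟨β, fun hh => absurd hh hβ⟩
  obtain ⟨β1, k1⟩ := key 0
  obtain ⟨β2, k2⟩ := key (q1 x)
  refine ⟨max β1 β2, fun y hy hS => Q_ext hy.1 ?_⟩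
  rcases hS with h | h
  · rw [h]
    exact k1 fun γ hγ => h ▸ hy.2 γ (hγ.trans_le (le_max_left _ _))
  · rw [h, hy.1]
    refine k2 fun γ hγ => ?_
    have := hy.2 γ (hγ.trans_le (le_max_right _ _))
    rwa [h, hy.1] at this

theorem SQ_discrete [Nonempty W] (h1 : P1 W) : IsDiscrete (SQ W) := by
  refine isDiscrete_iff_forall_mem_exists_isOpen.2 fun x hx => ?_
  obtain ⟨β, hβ⟩ := SQ_isolated h1 x
  obtain ⟨U, hU, hUo, hxU⟩ := mem_nhds_iff.1 (BQ_mem x β)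
  refine ⟨U, hUo, subset_antisymm (fun y hy => hβ y (hU hy.1) hy.2) ?_⟩
  rintro _ rfl
  exact ⟨hxU, hx⟩

theorem SQ_closed [Nonempty W] (h1 : P1 W) : IsClosed (SQ W) := by
  refine ⟨isOpen_ofQ fun x hx => ?_⟩
  obtain ⟨β, hβ⟩ := SQ_isolated h1 x
  exact ⟨β, fun y hy hS => hx (hβ y hy hS ▸ hS)⟩

noncomputable def KQ (W : Type) [LinearOrder W] : AddSubgroup (Q W) := (q1 (W := W)).ker

theorem KQ_no_suitable [Nonempty W] [WellFoundedLT W] (h1 : P1 W) (h3 : P3 W) (S : Set (KQ W)) :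
    ¬ (IsDiscrete S ∧ IsClosed (insert 0 S) ∧ Dense (AddSubgroup.closure S : Set (KQ W))) := by
  refine no_suitable h1 h3 (val.comp (q2.comp (KQ W).subtype)) ?_ ?_ ?_ S
  · intro x y h
    exact Subtype.ext (Q_ext (x.2.trans y.2.symm) (val_inj h))
  · intro x
    rw [val_range]
    constructor
    · rintro ⟨y, rfl⟩
      exact ⟨⟨mk 0 y, rfl⟩, rfl⟩
    · rintro ⟨y, rfl⟩
      exact ⟨_, rfl⟩
  · intro x
    rw [nhds_induced]
    refine ((basisQ x.1).comap Subtype.val).to_hasBasis ?_ ?_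
    · intro β _
      exact ⟨β, trivial, fun y hy => ⟨y.2.trans x.2.symm, hy⟩⟩
    · intro β _
      exact ⟨β, trivial, fun y hy => hy.2⟩

end Pool.Agent.H55.Suit
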