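import Pool.Agent.H55.Nd1

/-! Combinatorial lemmas: pseudo-intersections, diagonal unions, guessing. -/

open Set Filter Cardinal Pool.Agent.H33.DiaDefs

namespace Pool.Agent.H55.TkF

theorem pseudo {ι : Type} [Countable ι] (s : ι → Set ℕ)
    (h : ∀ F : Set ι, F.Finite → (⋂ j ∈ F, s j).Infinite) :
    ∃ Z : Set ℕ, Z.Infinite ∧ ∀ j, (Z \ s j).Finite := by
  have ne : NeBot (atTop ⊓ ⨅ j, 𝓟 (s j)) := by
    rw [← forall_mem_nonempty_iff_neBot]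
    intro u hu
    obtain ⟨t₁, h1, t₂, h2, rfl⟩ := mem_inf_iff.1 hu
    obtain ⟨F, hF, V, hV, rfl⟩ := mem_iInf.1 h2
    rw [← Nat.cofinite_eq_atTop] at h1
    obtain ⟨n, n1, n2⟩ := ((h F hF).sdiff (mem_cofinite.1 h1)).nonempty
    exact ⟨n, not_not.1 n2, mem_iInter.2 fun j => hV j (mem_iInter₂.1 n1 j j.2)⟩
  obtain ⟨u, hu⟩ := exists_seq_tendsto (atTop ⊓ ⨅ j, 𝓟 (s j))
  obtain ⟨u1, u2⟩ := tendsto_inf.1 hu
  refine ⟨range u, infinite_of_forall_exists_gt fun n => ?_, fun j => ?_⟩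
  · obtain ⟨m, hm⟩ := (u1.eventually (eventually_gt_atTop n)).exists
    exact ⟨u m, ⟨m, rfl⟩, hm⟩
  · have := tendsto_principal.1 (tendsto_iInf.1 u2 j)
    rw [← Nat.cofinite_eq_atTop] at this
    refine ((eventually_cofinite.1 this).image u).subset ?_
    rintro _ ⟨⟨m, rfl⟩, hm⟩
    exact ⟨m, hm, rfl⟩

theorem split {Z : Set ℕ} (h : Z.Infinite) : ∃ x ⊆ Z, x.Infinite ∧ (Z \ x).Infinite := by
  have e := h.natEmbedding
  refine ⟨range fun n => (e (2 * n) : ℕ), ?_, ?_, ?_⟩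
  · rintro _ ⟨n, rfl⟩
    exact (e _).2
  · exact infinite_range_of_injective fun m n k => by
      have := e.injective (Subtype.ext k)
      omega
  · refine infinite_of_injective_forall_mem (f := fun n => (e (2 * n + 1) : ℕ)) (fun m n k => ?_)
      fun n => ⟨(e _).2, fun ⟨m, k⟩ => ?_⟩
    · have := e.injective (Subtype.ext k)
      omega
    · have := e.injective (Subtype.ext k)
      omega

theorem half {X : Type} (U : Ultrafilter X) (P : ℕ → Set X)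
    (h : ∀ m n, m < n → Disjoint (P m) (P n)) :
    ∃ φ : ℕ → ℕ, StrictMono φ ∧ (⋃ n, P (φ n)) ∉ U := by
  by_cases k : (⋃ n, P (2 * n)) ∈ U
  · refine ⟨fun n => 2 * n + 1, fun m n k => by dsimp only; omega, fun k' => ?_⟩
    obtain ⟨x, x1, x2⟩ := U.nonempty_of_mem (inter_mem k k')
    obtain ⟨m, hm⟩ := mem_iUnion.1 x1
    obtain ⟨n, hn⟩ := mem_iUnion.1 x2
    rcases lt_or_gt_of_ne (show 2 * m ≠ 2 * n + 1 by omega) with l | l
    · exact disjoint_left.1 (h _ _ l) hm hn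
    · exact disjoint_left.1 (h _ _ l) hn hm
  · exact ⟨fun n => 2 * n, fun m n k => by dsimp only; omega, k⟩

/-- the `i`-th column -/
def col (C : Set (ℕ × ℕ)) (i : ℕ) : Set ℕ := {j | (i, j) ∈ C}

theorem comb {Ξ : Type} (U : Ultrafilter (ℕ × ℕ)) (hU : ∀ C, (∀ i, (col C i).Finite) → C ∉ U)
    (Y : Set (ℕ × ℕ)) (E : Ξ → Set (ℕ × ℕ)) (hE : ∀ ξ, E ξ ⊆ Y)
    (hM : ∀ ξ, ∀ᶠ i in atTop, (col (E ξ) i).Finite) (r : Ξ → W) (δ γ₀ : W) (h0 : γ₀ < δ)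
    (h : ∀ (N : ℕ) (G : Set (ℕ × ℕ)), G.Finite → G ⊆ Y → ∀ γ < δ, ∃ ξ, γ < r ξ ∧ r ξ < δ ∧
      Disjoint G (E ξ) ∧ ∀ i ≤ N, (col (E ξ) i).Finite) :
    ∃ I : Set Ξ, I.Infinite ∧ (⋃ ξ ∈ I, E ξ) ∉ U := by
  choose M hM using fun ξ => eventually_atTop.1 (hM ξ)
  choose f f1 f2 f3 f4 using fun s : {s : ℕ × Set (ℕ × ℕ) × W // s.2.1.Finite ∧ s.2.1 ⊆ Y ∧ s.2.2 < δ} =>
    h s.1.1 s.1.2.1 s.2.1 s.2.2.1 s.1.2.2 s.2.2.2
  have fin : ∀ s, (E (f s) ∩ {p | p.1 ≤ s.1.1}).Finite := fun s =>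
    ((finite_Iic s.1.1).biUnion fun i hi => (f4 s i hi).image (Prod.mk i)).subset
      fun p hp => mem_biUnion hp.2 ⟨p.2, hp.1, rfl⟩
  obtain ⟨s, hs⟩ : ∃ s : ℕ → {s : ℕ × Set (ℕ × ℕ) × W // s.2.1.Finite ∧ s.2.1 ⊆ Y ∧ s.2.2 < δ},
      ∀ n, (s (n + 1)).1 = (max ((s n).1.1 + 1) (M (f (s n))),
        (s n).1.2.1 ∪ E (f (s n)) ∩ {p | p.1 ≤ (s n).1.1}, r (f (s n))) :=
    ⟨fun n => Nat.rec ⟨(0, ∅, γ₀), finite_empty, empty_subset _, h0⟩ (fun _ s =>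
      ⟨(max (s.1.1 + 1) (M (f s)), s.1.2.1 ∪ E (f s) ∩ {p | p.1 ≤ s.1.1}, r (f s)),
        s.2.1.union (fin s), union_subset s.2.2.1 (inter_subset_left.trans (hE _)), f2 s⟩) n,
      fun _ => rfl⟩
  have m1 : StrictMono fun n => (s n).1.1 := strictMono_nat_of_lt_succ fun n => by
    rw [hs]; exact lt_max_of_lt_left (Nat.lt_succ_self _)
  have m2 : Monotone fun n => (s n).1.2.1 := monotone_nat_of_le_succ fun n => by
    rw [hs]; exact subset_union_left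
  have m3 : StrictMono fun n => r (f (s n)) := strictMono_nat_of_lt_succ fun n => by
    have := f1 (s (n + 1))
    rwa [hs] at this
  obtain ⟨φ, p1, p2⟩ := half U (fun n => E (f (s n)) ∩ {p | p.1 ≤ (s n).1.1}) fun m n l =>
    disjoint_left.2 fun p a b => disjoint_left.1 (f3 (s n))
      (m2 (show m + 1 ≤ n from l) (by dsimp only; rw [hs]; exact Or.inr a)) b.1
  obtain ⟨ψ, q1, q2⟩ := half U (fun n => {p | (s (φ n)).1.1 < p.1 ∧ p.1 < (s (φ n + 1)).1.1})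
    fun m n l => disjoint_left.2 fun p a b =>
      absurd (a.2.trans_le (m1.monotone (show φ m + 1 ≤ φ n from p1 l))) (not_lt.2 b.1.le)
  have q3 := hU (⋃ n, E (f (s n)) ∩ {p | (s (n + 1)).1.1 ≤ p.1}) fun i =>
    ((finite_Iic i).biUnion fun n _ => (finite_iff_bddAbove.2 (show BddAbove
      {j | (i, j) ∈ E (f (s n)) ∧ (s (n + 1)).1.1 ≤ i} from ?_))).subset fun j hj => ?_
  · refine ⟨range fun n => f (s (φ (ψ n))), infinite_range_of_injective fun m n k => ?_, fun k => ?_⟩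
    · exact (p1.comp q1).injective (m3.injective (congrArg r k))
    · rw [biUnion_range] at k
      have : (⋃ n, E (f (s (φ (ψ n))))) ⊆ (⋃ n, E (f (s (φ n))) ∩ {p | p.1 ≤ (s (φ n)).1.1}) ∪
          ((⋃ n, {p | (s (φ (ψ n))).1.1 < p.1 ∧ p.1 < (s (φ (ψ n) + 1)).1.1}) ∪
            ⋃ n, E (f (s n)) ∩ {p | (s (n + 1)).1.1 ≤ p.1}) := by
        refine iUnion_subset fun n p hp => ?_
        by_cases a : p.1 ≤ (s (φ (ψ n))).1.1
        · exact Or.inl (mem_iUnion.2 ⟨ψ n, hp, a⟩)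
        by_cases b : p.1 < (s (φ (ψ n) + 1)).1.1
        · exact Or.inr (Or.inl (mem_iUnion.2 ⟨n, not_le.1 a, b⟩))
        · exact Or.inr (Or.inr (mem_iUnion.2 ⟨_, hp, not_lt.1 b⟩))
      rcases Ultrafilter.union_mem_iff.1 (mem_of_superset k this) with k | k
      · exact p2 k
      rcases Ultrafilter.union_mem_iff.1 k with k | k
      exacts [q2 k, q3 k]
  · by_cases a : (s (n + 1)).1.1 ≤ i
    · refine ((hM (f (s n)) i (le_trans ?_ a)).subset fun j hj => hj.1).bddAbove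
      rw [hs]; exact le_max_right _ _
    · exact ⟨0, fun j hj => absurd hj.2 a⟩
  · obtain ⟨n, hn⟩ := mem_iUnion.1 hj
    exact mem_biUnion (show n ≤ i from (Nat.le_succ n).trans ((m1.le_apply).trans hn.2)) hn

theorem guess (hD : Diamond) (L : Type) [Countable L] : ∃ A : W → W → L → Prop,
    ∀ (H : W → L → Prop) (g : W → W) (β : W),
      ∃ δ, β < δ ∧ (∀ i < δ, g i < δ) ∧ ∀ α < δ, ∀ l, A δ α l ↔ H α l := by
  obtain ⟨A, hA⟩ := hD
  have := unc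
  obtain ⟨j⟩ := (Cardinal.le_def (W × L) W).1 (by
    rw [mk_prod, lift_id, lift_id, mk_W]
    exact (mul_le_mul_right (mk_le_aleph0.trans (aleph0_le_aleph 1)) _).trans
      (mul_eq_self (aleph0_le_aleph 1)).le)
  refine ⟨fun δ α l => j (α, l) ∈ A δ, fun H g β => ?_⟩
  choose g' hg using fun α : W => Nd.bd cnt _ ((countable_range fun l => j (α, l)).insert (g α))
  obtain ⟨δ, h1, h2⟩ := hA (j '' {p | H p.1 p.2}) (Nd.club cnt g' β)
  refine ⟨δ, h2.1, fun i hi => (hg i _ (Or.inl rfl)).trans (h2.2 i hi), fun α hα l => ?_⟩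
  show j (α, l) ∈ A δ ↔ _
  rw [← show j '' {p | H p.1 p.2} ∩ Iio δ = A δ from h1, mem_inter_iff,
    j.injective.mem_set_image]
  exact ⟨fun k => k.1, fun k => ⟨k, (hg α _ (Or.inr ⟨l, rfl⟩)).trans (h2.2 α hα)⟩⟩

end Pool.Agent.H55.TkF
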