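import Pool.Agent.H55.TkF1

/-! A tower modulo Fin x Fin whose columns form trees: the inductive step. -/

open Set Filter Cardinal Pool.Agent.H33.DiaDefs

namespace Pool.Agent.H55.TkF

abbrev K : Type := Finset ℕ × Finset (ℕ × ℕ)

def Q (a : W → ℕ → Set ℕ) (δ : W) (x : ℕ → Set ℕ) : Prop :=
  ∀ i, (x i).Infinite → ∃ Z, x i ⊆ Z ∧ (Z \ x i).Infinite ∧
    ∀ α < δ, (Z \ a α i).Finite ∨ (Z ∩ a α i).Finite

def Le (a : W → ℕ → Set ℕ) (i : ℕ) (α β : W) : Prop := α ≤ β ∧ (a β i ∩ a α i).Infinite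

variable {a : W → ℕ → Set ℕ}

theorem Q.sub {δ x} (h : Q a δ x) {i α} (hα : α < δ) (k : (x i ∩ a α i).Infinite) :
    (x i \ a α i).Finite := by
  obtain ⟨Z, z1, -, z3⟩ := h i (k.mono inter_subset_left)
  rcases z3 α hα with l | l
  · exact l.subset (sdiff_subset_sdiff_left z1)
  · exact absurd (l.subset (inter_subset_inter_left _ z1)) k

theorem Le.sub {i α β} (h : Le a i α β) (hQ : Q a β (a β)) : (a β i \ a α i).Finite := by
  rcases h.1.eq_or_lt with rfl | l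
  · simp
  · exact hQ.sub l h.2

theorem inf_of {s t u : Set ℕ} (h : s.Infinite) (h1 : (s \ t).Finite) (h2 : (s \ u).Finite) :
    (t ∩ u).Infinite :=
  (h.sdiff (h1.union h2)).mono fun _ k =>
    ⟨by_contra fun l => k.2 (Or.inl ⟨k.1, l⟩), by_contra fun l => k.2 (Or.inr ⟨k.1, l⟩)⟩

theorem fin_tr {s t u : Set ℕ} (h1 : (s \ t).Finite) (h2 : (t \ u).Finite) : (s \ u).Finite :=
  (h1.union h2).subset fun z k => by
    by_cases l : z ∈ t
    exacts [Or.inr ⟨l, k.2⟩, Or.inl ⟨k.1, l⟩]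

theorem Le.tr {i α β γ} (h : Le a i α β) (k : Le a i β γ) (h1 : Q a β (a β)) (h2 : Q a γ (a γ)) :
    Le a i α γ :=
  ⟨h.1.trans k.1, inf_of (k.2.mono inter_subset_left) (by simp) (fin_tr (k.sub h2) (h.sub h1))⟩

theorem uncov {δ β i} (hQ : ∀ μ < δ, Q a μ (a μ)) (hi : (a β i).Infinite) (F : Finset W) :
    (∀ α ∈ F, α < δ ∧ ¬ Le a i α β) → (a β i \ ⋃ α ∈ F, a α i).Infinite := by
  classical
  induction F using Finset.induction_on_max with
  | empty => simpa using hi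
  | insert μ F hμ ih =>
    intro h
    have ih := ih fun α hα => h α (Finset.mem_insert_of_mem hα)
    obtain ⟨m1, m2⟩ := h μ (Finset.mem_insert_self _ _)
    rw [Finset.set_biUnion_insert]
    by_cases k : (a β i ∩ a μ i).Finite
    · exact (ih.sdiff k).mono fun z hz => ⟨hz.1.1, fun l => l.elim (fun l => hz.2 ⟨hz.1.1, l⟩) hz.1.2⟩
    have l : β < μ := not_le.1 fun l => m2 ⟨l, k⟩
    by_cases k' : ∃ α ∈ F, (a μ i ∩ a α i).Infinite
    · obtain ⟨α, hα, k'⟩ := k'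
      exact (ih.sdiff ((hQ μ m1).sub (hμ α hα) k')).mono fun z hz => ⟨hz.1.1, fun l =>
        l.elim (fun l => hz.2 ⟨l, fun u => hz.1.2 (mem_biUnion hα u)⟩) hz.1.2⟩
    obtain ⟨Z, z1, z2, z3⟩ := hQ μ m1 i (Infinite.mono inter_subset_right k)
    have f1 : (Z \ a β i).Finite := (z3 β l).resolve_right fun u =>
      k (u.subset fun z hz => ⟨z1 hz.2, hz.1⟩)
    have f2 : ∀ α ∈ F, (Z ∩ a α i).Finite := fun α hα => (z3 α (hμ α hα)).resolve_left fun u =>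
      k' ⟨α, hα, inf_of (Infinite.mono inter_subset_right k) (by simp)
        (u.subset (sdiff_subset_sdiff_left z1))⟩
    refine (z2.sdiff (f1.union (F.finite_toSet.biUnion f2))).mono fun z hz =>
      ⟨by_contra fun u => hz.2 (Or.inl ⟨hz.1.1, u⟩), fun u => u.elim hz.1.2 fun u => ?_⟩
    obtain ⟨α, hα, u⟩ := mem_iUnion₂.1 u
    exact hz.2 (Or.inr (mem_biUnion hα ⟨hz.1.1, u⟩))

/-- the branch data chosen at stage `δ` -/
def Br (a : W → ℕ → Set ℕ) (X : K → Set W) (δ : W) (S : Set ℕ) (b : ℕ → W → Prop) : Prop :=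
  (∀ α < δ, ∀ᶠ i in atTop, i ∈ S → b i α) ∧
  (∀ i ∈ S, ∀ β, (β < δ ∨ ∀ k, X k = ∅) → (∃ α, α < δ) →
    ∃ t < δ, ∀ α < β, α < δ → b i α → Le a i α t) ∧
  ∀ k : K, (∀ i ∈ k.1, i ∈ S) → ∀ γ < δ, (∃ α ∈ X k, γ < α ∧ α < δ ∧ ∀ i ∈ k.1, b i α) ∨
    ∃ γ' < δ, ∃ s : Set (ℕ × W), s.Finite ∧ (∀ p ∈ s, p.1 ∈ k.1 ∧ p.2 ≤ γ' ∧ b p.1 p.2) ∧
      ∀ α ∈ X k, γ' < α → α < δ → ¬ ∀ p ∈ s, Le a p.1 p.2 α

theorem branch (X : K → Set W) (δ : W) (hQ : ∀ μ < δ, Q a μ (a μ))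
    (h1 : ∀ μ < δ, {i | (a μ i).Infinite}.Infinite)
    (h3 : ∀ μ < δ, ∀ α < μ, ∀ᶠ i in atTop, (a μ i).Infinite → (a μ i ∩ a α i).Infinite) :
    ∃ (S : Set ℕ) (b : ℕ → W → Prop), S.Infinite ∧ Br a X δ S b ∧
      ∀ i ∈ S, ∀ F : Set (Iio δ), F.Finite →
        (⋂ α ∈ F, {z | z ∈ a α i ↔ b i α}).Infinite := by
  classical
  by_cases h0 : ∃ α, α < δ
  swap
  · refine ⟨univ, fun _ _ => False, infinite_univ, ⟨fun α h => absurd ⟨α, h⟩ h0,
      fun _ _ _ _ h => absurd h h0, fun _ _ α h => absurd ⟨α, h⟩ h0⟩, fun i _ F _ => ?_⟩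
    exact infinite_univ.mono fun z _ => mem_iInter₂.2 fun α _ => absurd ⟨α, α.2⟩ h0
  obtain ⟨e, he⟩ := (cnt δ).exists_eq_range h0
  have e1 : ∀ n, e n < δ := fun n => he.ge ⟨n, rfl⟩
  have e2 : ∀ α < δ, ∃ n, e n = α := fun α h => he.le h
  obtain ⟨en, hen⟩ := exists_surjective_nat K
  have st : ∀ (n : ℕ) (s : {s : Finset ℕ × (ℕ → W) // ∀ i ∈ s.1, s.2 i < δ ∧ (a (s.2 i) i).Infinite}),
      ∃ s' : {s : Finset ℕ × (ℕ → W) // ∀ i ∈ s.1, s.2 i < δ ∧ (a (s.2 i) i).Infinite},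
      s.1.1 ⊆ s'.1.1 ∧ (∃ i ∈ s'.1.1, n < i) ∧
      (∀ i ∈ s'.1.1, i ∉ s.1.1 → ∀ j ≤ n, Le a i (e j) (s'.1.2 i)) ∧
      (∀ i ∈ s.1.1, s'.1.2 i = s.1.2 i ∨ (∃ k, X k ≠ ∅) ∧ (∀ j ≤ n, e j < s'.1.2 i) ∧
        Le a i (s.1.2 i) (s'.1.2 i)) ∧
      ((en n.unpair.1).1 ⊆ s.1.1 → (∃ α ∈ X (en n.unpair.1), (∀ j ≤ n, e j < α) ∧ α < δ ∧
        ∀ i ∈ (en n.unpair.1).1, s'.1.2 i = α) ∨ ∃ γ < δ, (∀ i ∈ s.1.1, s.1.2 i ≤ γ) ∧
          ∀ α ∈ X (en n.unpair.1), γ < α → α < δ → ¬ ∀ i ∈ (en n.unpair.1).1, Le a i (s.1.2 i) α) := by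
    rintro n ⟨⟨S, t⟩, hs⟩
    generalize en n.unpair.1 = k
    obtain ⟨m, m1, m2⟩ := (((finite_Iic n).image e).union (S.finite_toSet.image t)).exists_maximalFor
      id _ ⟨e 0, Or.inl ⟨0, Nat.zero_le n, rfl⟩⟩
    have m3 : ∀ z ∈ e '' Iic n ∪ t '' S, z ≤ m := fun z hz => by
      rcases le_total z m with l | l
      exacts [l, m2 hz l]
    have m4 : m < δ := by
      rcases m1 with ⟨j, -, rfl⟩ | ⟨j, hj, rfl⟩
      exacts [e1 j, (hs j hj).1]
    have ev : ∀ᶠ i in atTop, ∀ j ∈ Iic n, (a m i).Infinite → Le a i (e j) m :=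
      (eventually_all_finite (finite_Iic n)).2 fun j hj => by
        have l := m3 _ (Or.inl ⟨j, hj, rfl⟩)
        rcases l.eq_or_lt with u | u
        · exact Eventually.of_forall fun i hi => ⟨l, by rwa [u, inter_self]⟩
        · exact (h3 m m4 _ u).mono fun i hi k => ⟨l, hi k⟩
    have ev2 : ∀ᶠ i in atTop, i ∉ S := by
      rw [← Nat.cofinite_eq_atTop]
      exact S.eventually_cofinite_notMem
    obtain ⟨i₀, i1, i2, i3, i4⟩ := ((Nat.frequently_atTop_iff_infinite.2 (h1 m m4)).and_eventually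
      (ev.and (ev2.and (eventually_gt_atTop n)))).exists
    obtain ⟨t', t1, t2, t3⟩ : ∃ t' : ℕ → W, (∀ i ∈ S, t' i < δ ∧ (a (t' i) i).Infinite) ∧
        (∀ i ∈ S, t' i = t i ∨ (∃ k, X k ≠ ∅) ∧ (∀ j ≤ n, e j < t' i) ∧ Le a i (t i) (t' i)) ∧
        (k.1 ⊆ S → (∃ α ∈ X k, (∀ j ≤ n, e j < α) ∧ α < δ ∧ ∀ i ∈ k.1, t' i = α) ∨
          ∃ γ < δ, (∀ i ∈ S, t i ≤ γ) ∧ ∀ α ∈ X k, γ < α → α < δ → ¬ ∀ i ∈ k.1, Le a i (t i) α) := by
      by_cases c : ∃ α ∈ X k, m < α ∧ α < δ ∧ ∀ i ∈ k.1, Le a i (t i) α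
      · obtain ⟨α, c1, c2, c3, c4⟩ := c
        have c5 : ∀ j ≤ n, e j < α := fun j hj => (m3 _ (Or.inl ⟨j, hj, rfl⟩)).trans_lt c2
        refine ⟨fun i => if i ∈ k.1 then α else t i, fun i hi => ?_, fun i hi => ?_,
          fun _ => Or.inl ⟨α, c1, c5, c3, fun i hi => if_pos hi⟩⟩
        · by_cases l : i ∈ k.1
          · simp only [l, if_true]
            exact ⟨c3, (c4 i l).2.mono inter_subset_left⟩
          · simp only [l, if_false]
            exact hs i hi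
        · by_cases l : i ∈ k.1
          · simp only [l, if_true]
            exact Or.inr ⟨⟨k, Nonempty.ne_empty ⟨α, c1⟩⟩, c5, c4 i l⟩
          · exact Or.inl (if_neg l)
      · exact ⟨t, hs, fun _ _ => Or.inl rfl, fun _ => Or.inr ⟨m, m4,
          fun i hi => m3 _ (Or.inr ⟨i, hi, rfl⟩), fun α c1 c2 c3 c4 => c ⟨α, c1, c2, c3, c4⟩⟩⟩
    refine ⟨⟨(insert i₀ S, fun i => if i ∈ S then t' i else m), fun i hi => ?_⟩,
      Finset.subset_insert _ _, ⟨i₀, Finset.mem_insert_self _ _, i4⟩, fun i hi l j hj => ?_,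
      fun i hi => ?_, fun l => (t3 l).imp (fun ⟨α, c1, c2, c3, c4⟩ =>
        ⟨α, c1, c2, c3, fun i hi => (if_pos (l hi)).trans (c4 i hi)⟩) id⟩
    · by_cases l : i ∈ S
      · simp only [l, if_true]
        exact t1 i l
      · simp only [l, if_false]
        rw [(Finset.mem_insert.1 hi).resolve_right l]
        exact ⟨m4, i1⟩
    · have l' : i ∉ S := l
      simp only [l', if_false]
      rw [(Finset.mem_insert.1 hi).resolve_right l]
      exact i2 j hj i1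
    · have l' : i ∈ S := hi
      simp only [l', if_true]
      exact t2 i hi
  choose F F1 F2 F3 F4 F5 using st
  obtain ⟨s, hs⟩ : ∃ s : ℕ → {s : Finset ℕ × (ℕ → W) //
      ∀ i ∈ s.1, s.2 i < δ ∧ (a (s.2 i) i).Infinite}, ∀ n, s (n + 1) = F n (s n) :=
    ⟨fun n => Nat.rec ⟨(∅, fun _ => e 0), by simp⟩ F n, fun _ => rfl⟩
  have mo : Monotone fun n => (s n).1.1 := monotone_nat_of_le_succ fun n => by
    rw [hs]; exact F1 n _
  have rf : ∀ n, ∀ i ∈ (s n).1.1, Le a i ((s n).1.2 i) ((s n).1.2 i) := fun n i hi =>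
    ⟨le_rfl, by rw [inter_self]; exact ((s n).2 i hi).2⟩
  have ml : ∀ n, ∀ i ∈ (s n).1.1, ∀ n' ≥ n, Le a i ((s n).1.2 i) ((s n').1.2 i) := fun n i hi n' l => by
    induction n', l using Nat.le_induction with
    | base => exact rf n i hi
    | succ n' l ih =>
      rcases F4 n' (s n') i (mo l hi) with u | u
      · rw [hs, u]; exact ih
      · rw [← hs] at u
        exact ih.tr u.2.2 (hQ _ ((s n').2 i (mo l hi)).1)
          (hQ _ ((s (n' + 1)).2 i (mo (l.trans n'.le_succ) hi)).1)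
  have up : ∀ {n n' i α}, i ∈ (s n).1.1 → n ≤ n' → Le a i α ((s n).1.2 i) →
      Le a i α ((s n').1.2 i) := fun {n n' i α} hi l u =>
    u.tr (ml n i hi n' l) (hQ _ ((s n).2 i hi).1) (hQ _ ((s n').2 i (mo l hi)).1)
  refine ⟨⋃ n, (s n).1.1, fun i α => ∃ n, i ∈ (s n).1.1 ∧ Le a i α ((s n).1.2 i),
    infinite_of_forall_exists_gt fun n => ?_, ⟨fun α hα => ?_, fun i hi β hβ _ => ?_,
      fun k hk γ hγ => ?_⟩, fun i hi G hG => ?_⟩
  · obtain ⟨i, i1, i2⟩ := F2 n (s n)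
    exact ⟨i, mem_iUnion.2 ⟨n + 1, by rw [hs]; exact i1⟩, i2⟩
  · obtain ⟨j, rfl⟩ := e2 α hα
    rw [← Nat.cofinite_eq_atTop]
    refine (s j).1.1.eventually_cofinite_notMem.mono fun i l hi => ?_
    obtain ⟨n, hn⟩ := mem_iUnion.1 hi
    have : ∀ n ≥ j, i ∈ (s n).1.1 → ∃ n, i ∈ (s n).1.1 ∧ Le a i (e j) ((s n).1.2 i) := fun n u => by
      induction n, u using Nat.le_induction with
      | base => exact fun u => absurd u l
      | succ n u ih =>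
        intro v
        by_cases w : i ∈ (s n).1.1
        · exact ih w
        · exact ⟨n + 1, v, by rw [hs] at v ⊢; exact F3 n _ i v w j u⟩
    exact this (max n j) (le_max_right _ _) (mo (le_max_left _ _) hn)
  · obtain ⟨n₀, hn⟩ := mem_iUnion.1 hi
    by_cases c : ∃ n, i ∈ (s n).1.1 ∧ β ≤ (s n).1.2 i
    · obtain ⟨n, c1, c2⟩ := c
      refine ⟨_, ((s n).2 i c1).1, fun α u _ ⟨n', v, w⟩ => ⟨u.le.trans c2, ?_⟩⟩
      have q := hQ _ ((s (max n n')).2 i (mo (le_max_left _ _) c1)).1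
      exact inf_of ((s (max n n')).2 i (mo (le_max_left _ _) c1)).2
        ((ml n i c1 _ (le_max_left _ _)).sub q) ((up v (le_max_right _ _) w).sub q)
    obtain ⟨n, n1, n2⟩ : ∃ n ≥ n₀, ∀ n' ≥ n, (s (n' + 1)).1.2 i = (s n').1.2 i := by
      rcases hβ with u | u
      · obtain ⟨j, rfl⟩ := e2 β u
        refine ⟨max n₀ j, le_max_left _ _, fun n' l => ?_⟩
        have v := mo ((le_max_left _ _).trans l) hn
        rw [hs]
        refine (F4 n' _ i v).resolve_right fun w => c ⟨n' + 1, mo n'.le_succ v, ?_⟩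
        rw [hs]
        exact (w.2.1 j ((le_max_right _ _).trans l)).le
      · refine ⟨n₀, le_rfl, fun n' l => ?_⟩
        rw [hs]
        exact (F4 n' _ i (mo l hn)).resolve_right fun ⟨⟨k, w⟩, _⟩ => w (u k)
    have n3 : ∀ n' ≥ n, (s n').1.2 i = (s n).1.2 i := fun n' l => by
      induction n', l using Nat.le_induction with
      | base => rfl
      | succ n' l ih => rw [n2 n' l, ih]
    refine ⟨_, ((s n).2 i (mo n1 hn)).1, fun α _ _ ⟨n', v, w⟩ => ?_⟩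
    rw [← n3 (max n n') (le_max_left _ _)]
    exact up v (le_max_right _ _) w
  · obtain ⟨j, rfl⟩ := e2 γ hγ
    obtain ⟨c, rfl⟩ := hen k
    have ev : ∀ᶠ n in atTop, ∀ i ∈ (en c).1, i ∈ (s n).1.1 :=
      (eventually_all_finset _).2 fun i hi => by
        obtain ⟨n, hn⟩ := mem_iUnion.1 (hk i hi)
        exact (eventually_ge_atTop n).mono fun n' l => mo l hn
    obtain ⟨n₀, hn⟩ := eventually_atTop.1 ev
    obtain ⟨n, n1, n2, n3⟩ : ∃ n : ℕ, n.unpair.1 = c ∧ n₀ ≤ n ∧ j ≤ n :=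
      ⟨Nat.pair c (max n₀ j), by simp, (le_max_left _ _).trans (Nat.right_le_pair _ _),
        (le_max_right _ _).trans (Nat.right_le_pair _ _)⟩
    have := F5 n (s n)
    rw [n1, ← hs] at this
    rcases this (hn n n2) with ⟨α, c1, c2, c3, c4⟩ | ⟨γ', c1, c2, c3⟩
    · refine Or.inl ⟨α, c1, c2 j n3, c3, fun i hi => ⟨n + 1, mo n.le_succ (hn n n2 i hi), ?_⟩⟩
      have := rf (n + 1) i (mo n.le_succ (hn n n2 i hi))
      rwa [c4 i hi] at this ⊢
    · refine Or.inr ⟨γ', c1, (fun i => (i, (s n).1.2 i)) '' (en c).1, (Finset.finite_toSet _).image _,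
        ?_, fun α u v w z => c3 α u v w fun i hi => z _ ⟨i, hi, rfl⟩⟩
      rintro _ ⟨i, hi, rfl⟩
      exact ⟨hi, c2 i (hn n n2 i hi), n, hn n n2 i hi, rf n i (hn n n2 i hi)⟩
  · obtain ⟨n₀, hn⟩ := mem_iUnion.1 hi
    have ev : ∀ᶠ n in atTop, ∀ α ∈ G, (∃ n, i ∈ (s n).1.1 ∧ Le a i α ((s n).1.2 i)) →
        Le a i α ((s n).1.2 i) := (eventually_all_finite hG).2 fun α _ => by
      by_cases c : ∃ n, i ∈ (s n).1.1 ∧ Le a i α ((s n).1.2 i)
      · obtain ⟨n, c1, c2⟩ := c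
        exact (eventually_ge_atTop n).mono fun n' l _ => up c1 l c2
      · exact Eventually.of_forall fun _ l => absurd l c
    obtain ⟨n, n1, n2⟩ := (ev.and (eventually_ge_atTop n₀)).exists
    have v := mo n2 hn
    have u := uncov hQ ((s n).2 i v).2 ((hG.toFinset.image Subtype.val).filter
      fun α => ¬ Le a i α ((s n).1.2 i)) fun α hα => by
        obtain ⟨c1, c2⟩ := Finset.mem_filter.1 hα
        obtain ⟨α, -, rfl⟩ := Finset.mem_image.1 c1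
        exact ⟨α.2, c2⟩
    have w : (⋃ α ∈ G, {z | Le a i α ((s n).1.2 i) ∧ z ∈ a ((s n).1.2 i) i \ a α i}).Finite :=
      hG.biUnion fun α _ => by
        by_cases c : Le a i α ((s n).1.2 i)
        · exact (c.sub (hQ _ ((s n).2 i v).1)).subset fun z hz => hz.2
        · exact finite_empty.subset fun z hz => c hz.1
    refine (u.sdiff w).mono fun z hz => mem_iInter₂.2 fun α hα => ⟨fun l => ⟨n, v, ?_⟩, fun l => ?_⟩
    · by_contra c
      exact hz.1.2 (mem_iUnion₂.2 ⟨α, Finset.mem_filter.2 ⟨Finset.mem_image_of_mem _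
        (hG.mem_toFinset.2 hα), c⟩, l⟩)
    · by_contra c
      exact hz.2 (mem_biUnion hα ⟨n1 α hα l, hz.1.1, c⟩)

end Pool.Agent.H55.TkF
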