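import Pool.Agent.H55.TkF2

/-! The tower, its ultrafilter, bounded subfamilies, and the product of two towers. -/

open Set Filter Cardinal Pool.Agent.H33.DiaDefs

namespace Pool.Agent.H55.TkF

def Good (X : W → K → Set W) (C : W → Set (ℕ × ℕ)) (δ : W) (a : W → ℕ → Set ℕ)
    (x : ℕ → Set ℕ) : Prop :=
  {i | (x i).Infinite}.Infinite ∧ Q a δ x ∧
    Br a (X δ) δ {i | (x i).Infinite} (fun i α => α < δ ∧ (x i ∩ a α i).Infinite) ∧
    ((∀ i, x i ⊆ col (C δ) i) ∨ ∀ i, x i ⊆ col (C δ)ᶜ i)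

theorem Br.mono {a a' : W → ℕ → Set ℕ} {X δ S S' b b'} (h : Br a X δ S b)
    (ha : ∀ α < δ, a α = a' α) (hS : S' ⊆ S) (hb : ∀ i ∈ S', ∀ α < δ, b i α ↔ b' i α) :
    Br a' X δ S' b' := by
  have le : ∀ i α β, β < δ → (Le a i α β ↔ Le a' i α β) := fun i α β l =>
    and_congr_right fun u => by rw [ha β l, ha α (u.trans_lt l)]
  refine ⟨fun α hα => (h.1 α hα).mono fun i l u => (hb i u α hα).1 (l (hS u)),
    fun i hi β hβ h0 => ?_, fun k hk γ hγ => ?_⟩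
  · obtain ⟨t, t1, t2⟩ := h.2.1 i (hS hi) β hβ h0
    exact ⟨t, t1, fun α u v w => (le i α t t1).1 (t2 α u v ((hb i hi α v).2 w))⟩
  · rcases h.2.2 k (fun i hi => hS (hk i hi)) γ hγ with ⟨α, c1, c2, c3, c4⟩ | ⟨γ', c1, s, c2, c3, c4⟩
    · exact Or.inl ⟨α, c1, c2, c3, fun i hi => (hb i (hk i hi) α c3).1 (c4 i hi)⟩
    · exact Or.inr ⟨γ', c1, s, c2, fun p hp => ⟨(c3 p hp).1, (c3 p hp).2.1,
        (hb _ (hk _ (c3 p hp).1) _ ((c3 p hp).2.1.trans_lt c1)).1 (c3 p hp).2.2⟩,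
        fun α u v w z => c4 α u v w fun p hp => (le _ _ α w).2 (z p hp)⟩

theorem build (X : W → K → Set W) (C : W → Set (ℕ × ℕ)) :
    ∃ a : W → ℕ → Set ℕ, ∀ δ, Good X C δ a (a δ) := by
  classical
  refine Nd.rec_e (T := W) id (Good X C) (fun δ f g x h H => ?_) fun δ a ih => ?_
  · refine ⟨H.1, fun i hi => ?_, H.2.2.1.mono h le_rfl fun i _ α hα => by rw [h α hα], H.2.2.2⟩
    obtain ⟨Z, z1, z2, z3⟩ := H.2.1 i hi
    exact ⟨Z, z1, z2, fun α hα => h α hα ▸ z3 α hα⟩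
  obtain ⟨S, b, s1, s2, s3⟩ := branch (X δ) δ (fun μ l => (ih μ l).2.1) (fun μ l => (ih μ l).1)
    fun μ l α u => ((ih μ l).2.2.1.1 α u).mono fun i v w => (v w).2
  have := (cnt δ).to_subtype
  choose Z z1 z2 using fun i (hi : i ∈ S) => pseudo _ (s3 i hi)
  obtain ⟨D, hD, d⟩ : ∃ D, (D = C δ ∨ D = (C δ)ᶜ) ∧
      {i | ∃ hi : i ∈ S, (Z i hi ∩ col D i).Infinite}.Infinite := by
    by_contra c
    push Not at c
    refine s1 (((c _ (Or.inl rfl)).union (c _ (Or.inr rfl))).subset fun i hi => ?_)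
    by_contra u
    refine z1 i hi (((not_infinite.1 fun v => u (Or.inl ⟨hi, v⟩)).union
      (not_infinite.1 fun v => u (Or.inr ⟨hi, v⟩))).subset fun z hz => ?_)
    by_cases w : (i, z) ∈ C δ
    exacts [Or.inl ⟨hz, w⟩, Or.inr ⟨hz, w⟩]
  have : ∀ i, ∃ x : Set ℕ, x ⊆ col D i ∧ ((∃ hi : i ∈ S, (Z i hi ∩ col D i).Infinite) → x.Infinite) ∧
      (x.Infinite → ∃ hi : i ∈ S, x ⊆ Z i hi ∧ (Z i hi \ x).Infinite) := fun i => by
    by_cases c : ∃ hi : i ∈ S, (Z i hi ∩ col D i).Infinite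
    · obtain ⟨hi, c⟩ := c
      obtain ⟨x, x1, x2, x3⟩ := split c
      exact ⟨x, x1.trans inter_subset_right, fun _ => x2, fun _ => ⟨hi, x1.trans inter_subset_left,
        x3.mono (sdiff_subset_sdiff_left inter_subset_left)⟩⟩
    · exact ⟨∅, empty_subset _, fun u => absurd u c, fun u => absurd finite_empty u⟩
  choose x x1 x2 x3 using this
  have f1 : ∀ i hi, ∀ α < δ, b i α → (Z i hi \ a α i).Finite := fun i hi α hα u =>
    (z2 i hi ⟨α, hα⟩).subset fun z hz => ⟨hz.1, fun v => hz.2 (v.2 u)⟩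
  have f2 : ∀ i hi, ∀ α < δ, ¬ b i α → (Z i hi ∩ a α i).Finite := fun i hi α hα u =>
    (z2 i hi ⟨α, hα⟩).subset fun z hz => ⟨hz.1, fun v => u (v.1 hz.2)⟩
  refine ⟨x, d.mono fun i hi => x2 i hi, fun i hi => ?_, s2.mono (fun _ _ => rfl)
    (fun i hi => (x3 i hi).1) fun i hi α hα => ?_, hD.imp (fun u => by rw [← u]; exact x1) fun u => by rw [← u]; exact x1⟩
  · obtain ⟨l, u, v⟩ := x3 i hi
    exact ⟨_, u, v, fun α hα => (em (b i α)).imp (f1 i l α hα) (f2 i l α hα)⟩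
  · obtain ⟨l, u, -⟩ := x3 i hi
    exact ⟨fun v => ⟨hα, inf_of hi (by simp) ((f1 i l α hα v).subset (sdiff_subset_sdiff_left u))⟩,
      fun v => by_contra fun w => v.2 ((f2 i l α hα w).subset (inter_subset_inter_left _ u))⟩

variable {X : W → K → Set W} {C : W → Set (ℕ × ℕ)} {a : W → ℕ → Set ℕ}

def Sub (a : W → ℕ → Set ℕ) (β : W) (D : Set (ℕ × ℕ)) : Prop :=
  ∀ᶠ i in atTop, (a β i \ col D i).Finite

theorem tower (h : ∀ δ, Good X C δ a (a δ)) {α β} (l : α ≤ β) :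
    ∀ᶠ i in atTop, (a β i \ a α i).Finite := by
  rcases l.eq_or_lt with rfl | l
  · simp
  · refine ((h β).2.2.1.1 α l).mono fun i u => ?_
    by_cases v : (a β i).Infinite
    · exact (h β).2.1.sub l (u v).2
    · exact (not_infinite.1 v).subset sdiff_subset

theorem Sub.up (h : ∀ δ, Good X C δ a (a δ)) {α β D} (u : Sub a α D) (l : α ≤ β) : Sub a β D :=
  ((tower h l).and u).mono fun _ v => fin_tr v.1 v.2

theorem Sub.ex (h : ∀ δ, Good X C δ a (a δ)) {β D} (u : Sub a β D) :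
    ∃ i, (a β i).Infinite ∧ (a β i \ col D i).Finite :=
  ((Nat.frequently_atTop_iff_infinite.2 (h β).1).and_eventually u).exists

theorem ultra (h : ∀ δ, Good X C δ a (a δ)) (hC : ∀ D, ∃ δ, C δ = D) :
    ∃ U : Ultrafilter (ℕ × ℕ), ∀ D, D ∈ U ↔ ∃ β, Sub a β D := by
  have := unc
  have int : ∀ {D D' α β}, Sub a α D → Sub a β D' → Sub a (max α β) (D ∩ D') := fun u v =>
    ((u.up h (le_max_left _ _)).and (v.up h (le_max_right _ _))).mono fun i w =>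
      (w.1.union w.2).subset fun z hz => by
        by_contra c
        exact hz.2 ⟨by_contra fun l => c (Or.inl ⟨hz.1, l⟩), by_contra fun l => c (Or.inr ⟨hz.1, l⟩)⟩
  refine ⟨Ultrafilter.ofComplNotMemIff ⟨{D | ∃ β, Sub a β D}, ⟨Classical.arbitrary W,
    Eventually.of_forall fun i => finite_empty.subset fun z hz => hz.2 trivial⟩,
    fun ⟨β, u⟩ l => ⟨β, u.mono fun i v => v.subset fun z hz => ⟨hz.1, fun w => hz.2 (l w)⟩⟩,
    fun ⟨α, u⟩ ⟨β, v⟩ => ⟨_, int u v⟩⟩ fun D => ⟨fun u => ?_, fun ⟨α, u⟩ ⟨β, v⟩ => ?_⟩,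
    fun D => Iff.rfl⟩
  · obtain ⟨δ, rfl⟩ := hC D
    rcases (h δ).2.2.2 with v | v
    · exact ⟨δ, Eventually.of_forall fun i => finite_empty.subset fun z hz => hz.2 (v i hz.1)⟩
    · exact absurd ⟨δ, Eventually.of_forall fun i =>
        finite_empty.subset fun z hz => hz.2 (v i hz.1)⟩ u
  · obtain ⟨i, i1, i2⟩ := (int u v).ex h
    exact i1 (i2.subset fun z hz => ⟨hz, fun w => w.2 w.1⟩)

theorem small (h : ∀ δ, Good X C δ a (a δ)) {U : Ultrafilter (ℕ × ℕ)}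
    (hU : ∀ D, D ∈ U ↔ ∃ β, Sub a β D) (D : Set (ℕ × ℕ)) (hD : ∀ i, (col D i).Finite) : D ∉ U := by
  intro u
  obtain ⟨β, u⟩ := (hU D).1 u
  obtain ⟨i, i1, i2⟩ := u.ex h
  exact i1 ((i2.union (hD i)).subset fun z hz => (em (z ∈ col D i)).symm.imp_left fun w => ⟨hz, w⟩)

theorem nontop (h : ∀ δ, Good X C δ a (a δ)) {U : Ultrafilter (ℕ × ℕ)}
    (hU : ∀ D, D ∈ U ↔ ∃ β, Sub a β D)
    (hX : ∀ (Y : K → Set W) (g : W → W) (β : W),
      ∃ δ, β < δ ∧ (∀ i < δ, g i < δ) ∧ ∀ α < δ, ∀ k, α ∈ X δ k ↔ α ∈ Y k)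
    (D : W → Set (ℕ × ℕ)) (hD : ∀ ξ, D ξ ∈ U) : ∃ I : Set W, I.Infinite ∧ (⋂ ξ ∈ I, D ξ) ∈ U := by
  classical
  have := unc
  choose r r1 r2 using fun ξ => show ∃ β, ξ ≤ β ∧ Sub a β (D ξ) from
    ((hU _).1 (hD ξ)).elim fun β u => ⟨max ξ β, le_max_left _ _, u.up h (le_max_right _ _)⟩
  obtain ⟨Y, hY⟩ : ∃ Y : K → Set W, ∀ k α, α ∈ Y k ↔ ∃ ξ, r ξ = α ∧ (k.2 : Set (ℕ × ℕ)) ⊆ D ξ ∧
      ∀ i ∈ k.1, (a α i \ col (D ξ) i).Finite := ⟨fun k => {α | _}, fun _ _ => Iff.rfl⟩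
  have : ∀ (γ : W) (p : K × Set (ℕ × W)), ∃ w, (∃ α ∈ Y p.1, γ < α ∧ ∀ q ∈ p.2, Le a q.1 q.2 α) →
      w ∈ Y p.1 ∧ γ < w ∧ ∀ q ∈ p.2, Le a q.1 q.2 w := fun γ p => by
    by_cases c : ∃ α ∈ Y p.1, γ < α ∧ ∀ q ∈ p.2, Le a q.1 q.2 α
    · exact c.imp fun _ u _ => u
    · exact ⟨γ, fun u => absurd u c⟩
  choose w hw using this
  choose g hg using fun γ : W => Nd.bd cnt _ (((countable_univ (α := K)).prod
    (countable_ofPred_finite_subset ((countable_univ (α := ℕ)).prod ((cnt γ).insert γ)))).image (w γ))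
  obtain ⟨δ, d1, d2, d3⟩ := hX Y g (Classical.arbitrary W)
  obtain ⟨ξ₀, hξ⟩ := Nd.bd cnt {δ} (countable_singleton δ)
  have l0 : δ < r ξ₀ := (hξ δ rfl).trans_le (r1 ξ₀)
  obtain ⟨m, hm⟩ := eventually_atTop.1 ((tower h l0.le).and (r2 ξ₀))
  obtain ⟨T, hT⟩ : ∃ T : Set (ℕ × ℕ), ∀ p, p ∈ T ↔ (m ≤ p.1 ∧ (a (r ξ₀) p.1).Infinite) ∧
      p.2 ∈ a (r ξ₀) p.1 ∧ p ∈ D ξ₀ := ⟨{p | _}, fun _ => Iff.rfl⟩
  have tU : T ∈ U := (hU T).2 ⟨r ξ₀, (eventually_ge_atTop m).mono fun i hi => by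
    by_cases c : (a (r ξ₀) i).Infinite
    · exact (hm i hi).2.subset fun z hz => ⟨hz.1, fun v => hz.2 ((hT _).2 ⟨⟨hi, c⟩, hz.1, v⟩)⟩
    · exact (not_infinite.1 c).subset sdiff_subset⟩
  obtain ⟨I, i1, i2⟩ := comb U (small h hU) T (fun ξ : {ξ // r ξ < δ} => T \ D ξ)
    (fun _ => sdiff_subset) (fun ξ => ((r2 ξ).up h (ξ.2.le.trans l0.le)).mono fun i u =>
      u.subset fun z hz => ⟨((hT _).1 hz.1).2.1, hz.2⟩) (fun ξ => r ξ) δ _ d1
    fun N G g1 g2 γ hγ => by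
      have sp : ∀ i, i ∈ (Finset.range (N + 1)).filter (fun i => m ≤ i ∧ (a (r ξ₀) i).Infinite) →
          (a δ i).Infinite := fun i hi => fun u => (Finset.mem_filter.1 hi).2.2
        (((hm i (Finset.mem_filter.1 hi).2.1).1.union u).subset fun z hz =>
          (em (z ∈ a δ i)).symm.imp_left fun v => ⟨hz, v⟩)
      rcases (h δ).2.2.1.2.2 ((Finset.range (N + 1)).filter fun i => m ≤ i ∧ (a (r ξ₀) i).Infinite,
        g1.toFinset) sp γ hγ with ⟨α, c1, c2, c3, c4⟩ | ⟨γ', c1, s, c2, c3, c4⟩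
      · obtain ⟨ξ, rfl, u, v⟩ := (hY _ _).1 ((d3 α c3 _).1 c1)
        refine ⟨⟨ξ, c3⟩, c2, c3, disjoint_left.2 fun p hp z => z.2 (u (g1.mem_toFinset.2 hp)),
          fun i hi => ?_⟩
        by_cases c : m ≤ i ∧ (a (r ξ₀) i).Infinite
        · have k : i ∈ (Finset.range (N + 1)).filter (fun i => m ≤ i ∧ (a (r ξ₀) i).Infinite) :=
            Finset.mem_filter.2 ⟨Finset.mem_range.2 (Nat.lt_succ_of_le hi), c⟩
          exact (fin_tr (hm i c.1).1 (fin_tr ((h δ).2.1.sub c3 (c4 i k).2) (v i k))).subset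
            fun z hz => ⟨((hT _).1 hz.1).2.1, hz.2⟩
        · exact finite_empty.subset fun z hz => c ((hT _).1 hz.1).1
      · exfalso
        obtain ⟨w1, w2, w3⟩ := hw γ' (((Finset.range (N + 1)).filter fun i => m ≤ i ∧
          (a (r ξ₀) i).Infinite, g1.toFinset), s) ⟨r ξ₀, (hY _ _).2 ⟨ξ₀, rfl,
          fun p hp => ((hT p).1 (g2 (g1.mem_toFinset.1 hp))).2.2,
          fun i hi => (hm i (Finset.mem_filter.1 hi).2.1).2⟩, c1.trans l0, fun q hq => by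
            obtain ⟨q1, q2, q3, q4⟩ := c3 q hq
            have k := (Finset.mem_filter.1 q1).2
            exact ⟨q3.le.trans l0.le, inf_of k.2 (by simp)
              (fin_tr (hm _ k.1).1 ((h δ).2.1.sub q3 q4))⟩⟩
        have l : ∀ k : K, w γ' (k, s) < δ := fun k => (hg γ' _ ⟨(k, s), ⟨trivial, c2, fun q hq =>
          ⟨trivial, (c3 q hq).2.1.eq_or_lt⟩⟩, rfl⟩).trans (d2 γ' c1)
        exact c4 _ ((d3 _ (l _) _).2 w1) w2 (l _) w3
  refine ⟨Subtype.val '' I, i1.image Subtype.val_injective.injOn,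
    mem_of_superset (inter_mem tU (Ultrafilter.compl_mem_iff_notMem.2 i2)) fun p hp => ?_⟩
  refine mem_iInter₂.2 ?_
  rintro _ ⟨ξ, u, rfl⟩
  by_contra c
  exact hp.2 (mem_biUnion u ⟨hp.1, c⟩)

theorem orth {X' C' a'} (h : ∀ δ, Good X C δ a (a δ)) (h' : ∀ δ, Good X' C' δ a' (a' δ))
    (hX : ∀ δ, (∀ k, X δ k = ∅) ∨ ∀ k, X' δ k = ∅) (i j : ℕ) (β β' : W) :
    {α | (α < β ∧ (a β i ∩ a α i).Infinite) ∧ α < β' ∧ (a' β' j ∩ a' α j).Infinite}.Finite := by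
  induction β using WellFoundedLT.induction generalizing β' with
  | ind β ih =>
  induction β' using WellFoundedLT.induction with
  | ind β' ih' =>
  rcases eq_empty_or_nonempty {α | (α < β ∧ (a β i ∩ a α i).Infinite) ∧ α < β' ∧
    (a' β' j ∩ a' α j).Infinite} with e | ⟨α₀, e⟩
  · rw [e]; exact finite_empty
  have : (β' < β ∨ ∀ k, X β k = ∅) ∨ (β < β' ∨ ∀ k, X' β' k = ∅) := by
    rcases lt_trichotomy β β' with l | rfl | l
    exacts [Or.inr (Or.inl l), (hX β).imp Or.inr Or.inr, Or.inl (Or.inl l)]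
  rcases this with u | u
  · obtain ⟨t, t1, t2⟩ := (h β).2.2.1.2.1 i (e.1.2.mono inter_subset_left) β' u ⟨α₀, e.1.1⟩
    refine ((ih t t1 β').insert t).subset fun α v => ?_
    have := t2 α v.2.1 v.1.1 v.1
    exact this.1.eq_or_lt.imp_right fun l => ⟨⟨l, this.2⟩, v.2⟩
  · obtain ⟨t, t1, t2⟩ := (h' β').2.2.1.2.1 j (e.2.2.mono inter_subset_left) β u ⟨α₀, e.2.1⟩
    refine ((ih' t t1).insert t).subset fun α v => ?_
    have := t2 α v.1.1 v.2.1 v.2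
    exact this.1.eq_or_lt.imp_right fun l => ⟨v.1, l, this.2⟩

theorem below (h : ∀ δ, Good X C δ a (a δ)) {U : Ultrafilter (ℕ × ℕ)}
    (hU : ∀ D, D ∈ U ↔ ∃ β, Sub a β D) {I : Set W} (hI : I.Countable)
    (k : (⋂ α ∈ I, {p : ℕ × ℕ | p.2 ∈ a α p.1}) ∈ U) :
    ∃ β i, ∀ α ∈ I, α < β ∧ (a β i ∩ a α i).Infinite := by
  have := unc
  obtain ⟨β, u⟩ := (hU _).1 k
  obtain ⟨γ, v⟩ := Nd.bd cnt I hI
  obtain ⟨i, i1, i2⟩ := (u.up h (le_max_left β γ)).ex h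
  exact ⟨max β γ, i, fun α hα => ⟨(v α hα).trans_le (le_max_right _ _), inf_of i1 (by simp)
    (i2.subset fun z hz => ⟨hz.1, fun w => hz.2 (mem_iInter₂.1 w α hα)⟩)⟩⟩

theorem main (hD : Diamond) : ∃ (U V : Ultrafilter (ℕ × ℕ)) (A B : Set ℕ → Set (ℕ × ℕ)),
    (∀ p, {p} ∉ U) ∧ (∀ p, {p} ∉ V) ∧
    (∀ D : W → Set (ℕ × ℕ), (∀ ξ, D ξ ∈ U) → ∃ I : Set W, I.Infinite ∧ (⋂ ξ ∈ I, D ξ) ∈ U) ∧
    (∀ D : W → Set (ℕ × ℕ), (∀ ξ, D ξ ∈ V) → ∃ I : Set W, I.Infinite ∧ (⋂ ξ ∈ I, D ξ) ∈ V) ∧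
    (∀ s, A s ∈ U) ∧ (∀ s, B s ∈ V) ∧
    ∀ I : Set (Set ℕ), I.Infinite → (⋂ s ∈ I, A s) ∈ U → (⋂ s ∈ I, B s) ∉ V := by
  have := unc
  obtain ⟨G, hG⟩ := guess hD (Option (K ⊕ ℕ × ℕ))
  obtain ⟨o⟩ : Nonempty W := inferInstance
  have hC : ∀ D : Set (ℕ × ℕ), ∃ δ, {p | G δ o (some (Sum.inr p))} = D := fun D => by
    obtain ⟨δ, d1, -, d3⟩ := hG (fun _ l => ∃ p ∈ D, l = some (Sum.inr p)) id o
    exact ⟨δ, Set.ext fun p => (d3 o d1 _).trans (by simp)⟩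
  have hX : ∀ (c : Prop) (Y : K → Set W) (g : W → W) (β : W), ∃ δ, β < δ ∧ (∀ i < δ, g i < δ) ∧
      ∀ α < δ, ∀ k, α ∈ {α | (G δ o none ↔ c) ∧ G δ α (some (Sum.inl k))} ↔ α ∈ Y k := fun c Y g β => by
    obtain ⟨δ, d1, d2, d3⟩ := hG (fun α l => (l = none ∧ c) ∨ ∃ k, α ∈ Y k ∧ l = some (Sum.inl k)) g
      (max β o)
    refine ⟨δ, (le_max_left _ _).trans_lt d1, d2, fun α hα k => ?_⟩
    rw [mem_ofPred_eq, d3 o ((le_max_right _ _).trans_lt d1), d3 α hα]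
    simp
  obtain ⟨a, ha⟩ := build (fun δ k => {α | (G δ o none ↔ True) ∧ G δ α (some (Sum.inl k))})
    fun δ => {p | G δ o (some (Sum.inr p))}
  obtain ⟨b, hb⟩ := build (fun δ k => {α | (G δ o none ↔ False) ∧ G δ α (some (Sum.inl k))})
    fun δ => {p | G δ o (some (Sum.inr p))}
  obtain ⟨U, hU⟩ := ultra ha hC
  obtain ⟨V, hV⟩ := ultra hb hC
  choose ι hι using fun s : Set ℕ => hC (s ×ˢ Set.univ)
  have inj : Function.Injective ι := fun s t e => by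
    have := (hι s).symm.trans (e ▸ hι t)
    exact Set.ext fun n => by simpa using Set.ext_iff.1 this (n, 0)
  have sm : ∀ (p : ℕ × ℕ) i, (col {p} i).Finite := fun p i =>
    (finite_singleton p.2).subset fun z hz => congrArg Prod.snd hz
  refine ⟨U, V, fun s => {p | p.2 ∈ a (ι s) p.1}, fun s => {p | p.2 ∈ b (ι s) p.1},
    fun p => small ha hU _ (sm p), fun p => small hb hV _ (sm p), nontop ha hU (hX True),
    nontop hb hV (hX False), fun s => (hU _).2 ⟨ι s, Eventually.of_forall fun i =>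
      finite_empty.subset fun z hz => hz.2 hz.1⟩, fun s => (hV _).2 ⟨ι s, Eventually.of_forall
      fun i => finite_empty.subset fun z hz => hz.2 hz.1⟩, fun I hI u v => ?_⟩
  obtain ⟨J, j1, j3, j2⟩ := hI.exists_subset_countable_infinite
  obtain ⟨β, i, k1⟩ := below ha hU (j3.image ι) (mem_of_superset u (by
    rw [biInter_image]; exact biInter_subset_biInter_left j1))
  obtain ⟨β', j, k2⟩ := below hb hV (j3.image ι) (mem_of_superset v (by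
    rw [biInter_image]; exact biInter_subset_biInter_left j1))
  refine j2.image inj.injOn ((orth ha hb (fun δ => ?_) i j β β').subset fun α w => ⟨k1 α w, k2 α w⟩)
  by_cases c : G δ o none
  · exact Or.inr fun k => eq_empty_of_forall_notMem fun α w => w.1.1 c
  · exact Or.inl fun k => eq_empty_of_forall_notMem fun α w => c (w.1.2 trivial)

end Pool.Agent.H55.TkF
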