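import Pool.Agent.H55.Tpc3

/-! `Z X` is Lindelöf and not Menger. -/

namespace Pool.Agent.H55.Tpc

open Set Filter Topology PiNat TopologicalSpace

variable {X : Set S}

theorem lindZ (h1 : H1 X) (h2 : H2 X) : LindelofSpace (Z X) := by
  refine ⟨isLindelof_of_countable_subcover fun {ι} U hU hc => ?_⟩
  obtain ⟨F, f1, f2, f3⟩ := tp h1 h2 (B := {O | IsOpen O ∧ ∃ i, O ⊆ U i})
    (isTopologicalBasis_of_isOpen_of_nhds (fun _ h => h.1) fun p O hp hO => by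
      obtain ⟨i, hi⟩ := mem_iUnion.1 (hc (mem_univ p))
      exact ⟨O ∩ U i, ⟨hO.inter (hU i), i, inter_subset_right⟩, ⟨hp, hi⟩, inter_subset_left⟩)
  have h : ∀ q : Q, ∃ C : Set S, C.Countable ∧ {O : F | (O.1 ∩ N q C).Nonempty}.Finite := fun q => by
    obtain ⟨O, k1, k2⟩ := f2 (b q)
    obtain ⟨O', k3, k4, k5⟩ := mem_nhds_iff.1 k1
    obtain ⟨C, c1, c2⟩ := k4.2 q k5
    exact ⟨C, c1, k2.subset fun O hO => hO.mono (inter_subset_inter_right _ (c2.trans k3))⟩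
  choose c c1 c2 using h
  obtain ⟨T, t1, t2⟩ := lind (X := X) c c1
  choose i hi using fun O : F => (f1 O.2).2
  refine ⟨_, (t1.biUnion fun q _ => (c2 q).countable).image i, fun p _ => ?_⟩
  obtain ⟨O, k1, k2⟩ := f3.ge (mem_univ p)
  obtain ⟨_, k3, q', rfl⟩ := dense_b.inter_open_nonempty O (f1 k1).1 ⟨p, k2⟩
  obtain ⟨q, k4, k5⟩ := t2 q'
  exact mem_biUnion (x := i ⟨O, k1⟩) ⟨⟨O, k1⟩, mem_biUnion k4 ⟨_, k3, k5⟩, rfl⟩ (hi ⟨O, k1⟩ k2)

theorem notM (h1 : H1 X) : ∃ U : ℕ → Set (Set (Z X)), (∀ n, ∀ s ∈ U n, IsOpen s) ∧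
    (∀ n, ⋃₀ U n = univ) ∧ ∀ A : ℕ → Set (Set (Z X)), (∀ n, A n ⊆ U n ∧ (A n).Finite) →
      ⋃ n, ⋃₀ A n ≠ univ := by
  refine ⟨fun n => (fun k => {p | ∀ x, p = a x → x.1 n ≤ k}) '' univ, fun n => ?_,
    fun n => eq_univ_of_forall fun p => ?_, fun V' h2 h3 => ?_⟩
  · rintro _ ⟨k, -, rfl⟩
    refine ⟨fun x hx => ⟨n + 1, fun _ => univ, ∅, ok_univ, ?_, ?_⟩,
      fun q _ => ⟨∅, countable_empty, ?_⟩⟩
    · rw [← cyl_eq]; exact on_res x _
    · rintro _ hp y rfl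
      have := on_cons (k := x.1 n) (v := res x.1 n) hp.1
      rw [res_length] at this
      rw [this]
      exact hx x rfl
    · rintro _ hp y rfl
      exact (not_N hp).elim
  · rcases cas p with ⟨x, rfl⟩ | ⟨q, rfl⟩
    · exact ⟨_, ⟨x.1 n, trivial, rfl⟩, fun y hy => by rw [a_inj hy]⟩
    · exact ⟨_, ⟨0, trivial, rfl⟩, fun y hy => (ab _ _ hy.symm).elim⟩
  choose T _ t2 t3 using fun n => (h2 n).2.exists_subset_finite_image_eq (h2 n).1
  choose g hg using fun n => (t2 n).bddAbove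
  obtain ⟨x, hx⟩ := h1 [] (fun v => Ioi (g v.length)) fun v => hyperfilter_le_cofinite (by
    rw [Nat.cofinite_eq_atTop]; exact Ioi_mem_atTop _)
  obtain ⟨n, O, k1, k2⟩ := mem_iUnion.1 (h3.ge (mem_univ (a x)))
  rw [← t3] at k1
  obtain ⟨k, k3, rfl⟩ := k1
  have := (mem_V.1 hx).2 n (Nat.zero_le _)
  simp only [res_length, mem_Ioi] at this
  exact absurd ((k2 x rfl).trans (hg n k3)) (not_le.2 this)

end Pool.Agent.H55.Tpc
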