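import Pool.Agent.H55.Sat4

set_option autoImplicit false
set_option maxHeartbeats 800000

namespace Pool.Agent.H55.Sat

open Complex MeasureTheory Filter Topology Set Metric
open scoped ENNReal ComplexConjugate NNReal Real
open Pool.Agent.H55.HN Pool.Agent.H55.HNDefs Pool.Agent.H2.NsA

def Bd {Y E : Type} [MeasurableSpace Y] [NormedRing E] (F : Y → E) : Prop :=
  StronglyMeasurable F ∧ ∃ C, ∀ y, ‖F y‖ ≤ C

section
variable {Y Z E : Type} [MeasurableSpace Y] [MeasurableSpace Z] [NormedRing E] {F G : Y → E}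

lemma Bd.int (h : Bd F) (μ : Measure Y) [IsFiniteMeasure μ] : Integrable F μ :=
  let ⟨C, hC⟩ := h.2
  Integrable.of_bound h.1.aestronglyMeasurable C (Eventually.of_forall hC)

lemma Bd.mul (h : Bd F) (h' : Bd G) : Bd fun y => F y * G y :=
  let ⟨C, hC⟩ := h.2
  let ⟨D, hD⟩ := h'.2
  ⟨h.1.mul h'.1, C * D, fun y => (norm_mul_le _ _).trans
    (mul_le_mul (hC y) (hD y) (norm_nonneg _) ((norm_nonneg _).trans (hC y)))⟩

lemma Bd.add (h : Bd F) (h' : Bd G) : Bd fun y => F y + G y :=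
  let ⟨C, hC⟩ := h.2
  let ⟨D, hD⟩ := h'.2
  ⟨h.1.add h'.1, C + D, fun y => (norm_add_le _ _).trans (add_le_add (hC y) (hD y))⟩

lemma Bd.const (c : E) : Bd fun _ : Y => c := ⟨stronglyMeasurable_const, ‖c‖, fun _ => le_rfl⟩

lemma Bd.pow (h : Bd F) (n : ℕ) : Bd fun y => F y ^ n := by
  induction n with
  | zero => simpa using Bd.const 1
  | succ n ih => simpa only [pow_succ] using ih.mul h

lemma Bd.comp (h : Bd F) {e : Z → Y} (he : Measurable e) : Bd fun z => F (e z) :=
  let ⟨C, hC⟩ := h.2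
  ⟨h.1.comp_measurable he, C, fun _ => hC _⟩

lemma Bd.norm (h : Bd F) : Bd fun y => ‖F y‖ :=
  let ⟨C, hC⟩ := h.2
  ⟨h.1.norm, C, fun y => by rw [norm_norm]; exact hC y⟩

lemma Bd.conj {F : Y → ℂ} (h : Bd F) : Bd fun y => conj (F y) :=
  let ⟨C, hC⟩ := h.2
  ⟨continuous_conj.comp_stronglyMeasurable h.1, C, fun y => by rw [norm_conj]; exact hC y⟩

lemma Bd.integ {F : Y × Z → ℝ} (h : Bd F) (μ : Measure Z) [IsFiniteMeasure μ] :
    Bd fun y => ∫ z, F (y, z) ∂μ :=
  let ⟨C, hC⟩ := h.2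
  ⟨h.1.integral_prod_right', C * μ.real univ, fun _ =>
    norm_integral_le_of_norm_le_const (Eventually.of_forall fun _ => hC _)⟩
end

variable {X : Type} [MeasurableSpace X] (ν : Measure X) [IsFiniteMeasure ν]

lemma vs (k : X × X → ℝ) (hk : Bd k) (g : X → ℝ) (hg : Bd g) (g0 : ∀ s, 0 ≤ g s) (c : ℝ)
    (hc : 0 < c) (h : ∀ t x, ∫ s, k (s, t) * k (s, x) ∂ν ≤ c * (k (t, x) + k (x, t))) :
    ∫ p, g p.1 * g p.2 * (k p + k p.swap) ∂ν.prod ν ≤ 4 * c * ∫ s, g s ^ 2 ∂ν := by
  have g1 := hg.comp (measurable_fst (α := X) (β := X))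
  have g2 := hg.comp (measurable_snd (α := X) (β := X))
  have hu := (hk.mul g2).integ ν
  set u : X → ℝ := fun s => ∫ t, k (s, t) * g t ∂ν with hu'
  have h1 : ∫ p, g p.1 * g p.2 * k p ∂ν.prod ν = ∫ s, g s * u s ∂ν := by
    rw [integral_prod _ (((g1.mul g2).mul hk).int _)]
    simp only [hu', ← integral_const_mul]
    exact integral_congr_ae (.of_forall fun s => integral_congr_ae (.of_forall fun t => by ring))
  have h2 : ∫ p, g p.1 * g p.2 * (k p + k p.swap) ∂ν.prod ν = 2 * ∫ s, g s * u s ∂ν := by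
    simp only [mul_add]
    rw [integral_add (((g1.mul g2).mul hk).int _) (((g1.mul g2).mul (hk.comp measurable_swap)).int _),
      two_mul, ← h1, ← integral_prod_swap fun p => g p.1 * g p.2 * k p.swap]
    exact congrArg _ (integral_congr_ae (.of_forall fun p => by
      simp only [Prod.swap_swap, Prod.fst_swap, Prod.snd_swap]; ring))
  have h3 : ∫ s, u s ^ 2 ∂ν ≤ c * ∫ p, g p.1 * g p.2 * (k p + k p.swap) ∂ν.prod ν := by
    have b : Bd fun q : X × X × X => k (q.1, q.2.1) * g q.2.1 * (k (q.1, q.2.2) * g q.2.2) :=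
      ((hk.comp (by fun_prop)).mul (hg.comp (by fun_prop))).mul
        ((hk.comp (by fun_prop)).mul (hg.comp (by fun_prop)))
    simp only [hu', sq, ← integral_prod_mul]
    rw [integral_integral_swap (b.int _), ← integral_const_mul]
    refine integral_mono (((b.comp measurable_swap).integ ν).int _)
      (((Bd.const c).mul ((g1.mul g2).mul (hk.add (hk.comp measurable_swap)))).int _) fun p => ?_
    have := mul_le_mul_of_nonneg_left (h p.1 p.2) (mul_nonneg (g0 p.1) (g0 p.2))
    rw [← integral_const_mul] at this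
    refine (integral_congr_ae (.of_forall fun s => ?_)).trans_le (this.trans_eq ?_)
    · ring
    · simp only [Prod.swap]; ring
  have h4 : ∫ s, 4 * c * (g s * u s) ∂ν ≤ ∫ s, 4 * c ^ 2 * g s ^ 2 + u s ^ 2 ∂ν :=
    integral_mono (((Bd.const _).mul (hg.mul hu)).int _)
      ((((Bd.const _).mul (hg.pow 2)).add (hu.pow 2)).int _) fun s => by
        nlinarith [sq_nonneg (2 * c * g s - u s)]
  rw [integral_add (((Bd.const _).mul (hg.pow 2)).int _) ((hu.pow 2).int _), integral_const_mul,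
    integral_const_mul] at h4
  rw [h2] at h3 ⊢
  refine le_of_mul_le_mul_left ?_ hc
  nlinarith

noncomputable def kk (s t : ℂ) : ℝ := (1 - ‖t‖ ^ 2) / ‖1 - conj s * t‖ ^ 2

lemma nsym (s t : ℂ) : ‖1 - conj s * t‖ = ‖1 - conj t * s‖ := by
  rw [← norm_conj]; simp [mul_comm]

lemma kk_le {s t x : ℂ} (hs : ‖s‖ < 1) (ht : ‖t‖ < 1) (hx : ‖x‖ < 1) :
    kk s t * kk s x ≤ 2 * (kk t x * kk s t + kk x t * kk s x) := by
  have a0 := norm_pos_iff.2 (ne1 hs ht)
  have b0 := norm_pos_iff.2 (ne1 hs hx)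
  have c0 := norm_pos_iff.2 (ne1 ht hx)
  have h1 : ‖1 - conj t * x‖ ≤ ‖1 - conj s * t‖ + ‖1 - conj s * x‖ := by
    have := norm_add_le (1 - conj t * s) (conj t * (s - x))
    rw [show 1 - conj t * s + conj t * (s - x) = 1 - conj t * x by ring, norm_mul, norm_conj,
      nsym t s, norm_sub_rev s] at this
    nlinarith [lt1 hs hx, norm_nonneg (x - s)]
  have h2 : 0 ≤ (1 - ‖t‖ ^ 2) * (1 - ‖x‖ ^ 2) :=
    mul_nonneg (by nlinarith [norm_nonneg t]) (by nlinarith [norm_nonneg x])
  unfold kk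
  rw [nsym x t]
  generalize ‖1 - conj s * t‖ = a at *
  generalize ‖1 - conj s * x‖ = b at *
  generalize ‖1 - conj t * x‖ = c at *
  have h3 : c ^ 2 ≤ 2 * (a ^ 2 + b ^ 2) := by nlinarith [sq_nonneg (a - b)]
  rw [div_mul_div_comm, div_mul_div_comm, div_mul_div_comm, div_add_div _ _ (by positivity)
    (by positivity), ← mul_div_assoc, div_le_div_iff₀ (by positivity) (by positivity)]
  nlinarith [mul_le_mul_of_nonneg_left h3 (mul_nonneg h2 (by positivity :
    0 ≤ a ^ 2 * b ^ 2 * c ^ 2))]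

lemma kk_nonneg (s : ℂ) {t : ℂ} (ht : ‖t‖ < 1) : 0 ≤ kk s t :=
  div_nonneg (by nlinarith [norm_nonneg t]) (sq_nonneg _)

theorem carl (w : X → ℂ) (hw : Measurable w) (r : ℝ) (r0 : 0 ≤ r) (r1 : r < 1)
    (hr : ∀ x, ‖w x‖ ≤ r) (A : ℝ) (A0 : 0 < A) (hA : ∀ x, ∫ s, kk (w s) (w x) ∂ν ≤ A) (f : H) :
    ∫ s, ‖val f (w s)‖ ^ 2 ∂ν ≤ 8 * A * ‖f‖ ^ 2 := by
  have w1 : ∀ x, ‖w x‖ < 1 := fun x => (hr x).trans_lt r1
  have bw : Bd w := ⟨hw.stronglyMeasurable, r, hr⟩
  have hn : ∀ x n, ‖f n * w x ^ n‖ ≤ ‖f n‖ * r ^ n := fun x n => by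
    rw [norm_mul, norm_pow]; gcongr; exact hr x
  have hs : ∀ x, HasSum (fun n => f n * w x ^ n) (val f (w x)) := fun x =>
    (Summable.of_norm_bounded (sum_geo f r0 r1) (hn x)).hasSum
  set g : X → ℂ := fun x => val f (w x) with hg'
  have hg : Bd g := ⟨stronglyMeasurable_of_tendsto atTop
    (f := fun N x => ∑ n ∈ Finset.range N, f n * w x ^ n)
    (fun N => Measurable.stronglyMeasurable (by fun_prop))
    (tendsto_pi_nhds.2 fun x => (hs x).tendsto_sum_nat), _,
    fun x => tsum_of_norm_bounded (sum_geo f r0 r1).hasSum (hn x)⟩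
  obtain ⟨B, hB⟩ := hg.2
  have hk : Bd fun p : X × X => kk (w p.1) (w p.2) := by
    refine ⟨Measurable.stronglyMeasurable (by unfold kk; fun_prop), 1 / (1 - r) ^ 2, fun p => ?_⟩
    rw [Real.norm_of_nonneg (kk_nonneg _ (w1 _))]
    have h1 := norm_sub_norm_le 1 (conj (w p.1) * w p.2)
    rw [norm_one, norm_mul, norm_conj] at h1
    refine div_le_div₀ zero_le_one (by nlinarith) (pow_pos (by linarith) 2)
      (pow_le_pow_left₀ (by linarith) ?_ 2)
    nlinarith [hr p.1, w1 p.2, norm_nonneg (w p.1)]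
  have hk1 : ∀ t, Bd fun s => kk (w s) (w t) := fun t => hk.comp measurable_prodMk_right
  have h1 := vs ν _ hk _ hg.norm (fun _ => norm_nonneg _) (2 * A) (by positivity) fun t x => by
    refine (integral_mono (((hk1 t).mul (hk1 x)).int _) (((Bd.const 2).mul
      (((Bd.const _).mul (hk1 t)).add ((Bd.const _).mul (hk1 x)))).int _)
      fun s => kk_le (w1 s) (w1 t) (w1 x)).trans ?_
    rw [integral_const_mul, integral_add (((Bd.const _).mul (hk1 t)).int _)
      (((Bd.const _).mul (hk1 x)).int _), integral_const_mul, integral_const_mul]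
    nlinarith [mul_le_mul_of_nonneg_left (hA t) (kk_nonneg (w t) (w1 x)),
      mul_le_mul_of_nonneg_left (hA x) (kk_nonneg (w x) (w1 t))]
  let G : ℕ → ℂ := fun n => ∫ s, conj (w s) ^ n * g s ∂ν
  let G' : ℕ → ℂ := fun n => ∫ s, w s ^ (n + 1) * g s ∂ν
  have hI := hasSum_integral_of_summable_integral_norm (μ := ν)
    (F := fun n s => conj (f n) * (conj (w s) ^ n * g s))
    (fun n => ((Bd.const _).mul ((bw.conj.pow n).mul hg)).int _)
    (Summable.of_norm_bounded ((sum_geo f r0 r1).mul_right (B * ν.real univ)) fun n => by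
      rw [← mul_assoc]
      refine norm_integral_le_of_norm_le_const (.of_forall fun s => ?_)
      rw [norm_norm, ← mul_assoc, ← map_pow, ← map_mul, norm_mul, norm_conj]
      exact mul_le_mul (hn s n) (hB s) (norm_nonneg _) (by positivity))
  have e1 : ∀ s, ∑' n, conj (f n) * (conj (w s) ^ n * g s) = ((‖g s‖ ^ 2 : ℝ) : ℂ) := fun s => by
    simp only [← mul_assoc, ← map_pow, ← map_mul, tsum_mul_right, ← conj_tsum, (hs s).tsum_eq]
    rw [conj_mul', ofReal_pow]
  simp only [e1, integral_const_mul, integral_complex_ofReal] at hI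
  have hu : ∀ p : X × X, ‖conj (w p.1) * w p.2‖ ≤ r := fun p => by
    rw [norm_mul, norm_conj]
    nlinarith [hr p.1, w1 p.2, norm_nonneg (w p.1)]
  have g1 := hg.comp (measurable_fst (α := X) (β := X))
  have g2 := hg.comp (measurable_snd (α := X) (β := X))
  have bu : Bd fun p : X × X => conj (w p.1) * w p.2 :=
    (bw.comp measurable_fst).conj.mul (bw.comp measurable_snd)
  have hS := hasSum_integral_of_summable_integral_norm (μ := ν.prod ν)
    (F := fun n p => g p.1 * conj (g p.2) *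
      ((conj (w p.1) * w p.2) ^ n + conj (conj (w p.1) * w p.2) ^ (n + 1)))
    (fun n => ((g1.mul g2.conj).mul ((bu.pow n).add (bu.conj.pow _))).int _)
    (Summable.of_norm_bounded (((summable_geometric_of_lt_one r0 r1).mul_left (B * B * 2)).mul_right
      ((ν.prod ν).real univ)) fun n => by
      refine norm_integral_le_of_norm_le_const (.of_forall fun p => ?_)
      have B0 := (norm_nonneg _).trans (hB p.1)
      rw [norm_norm, norm_mul, norm_mul, norm_conj, mul_assoc (B * B)]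
      refine mul_le_mul (mul_le_mul (hB _) (hB _) (norm_nonneg _) B0)
        ((norm_add_le _ _).trans ?_) (norm_nonneg _) (by positivity)
      rw [norm_pow, norm_pow, norm_conj, two_mul]
      exact add_le_add (pow_le_pow_left₀ (norm_nonneg _) (hu p) _)
        ((pow_le_pow_left₀ (norm_nonneg _) (hu p) _).trans
          (pow_le_pow_of_le_one r0 r1.le (Nat.le_succ n))))
  have e2 : ∀ n, ∫ p, g p.1 * conj (g p.2) * ((conj (w p.1) * w p.2) ^ n +
      conj (conj (w p.1) * w p.2) ^ (n + 1)) ∂ν.prod ν =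
      ((‖G n‖ ^ 2 + ‖G' n‖ ^ 2 : ℝ) : ℂ) := fun n => by
    simp only [mul_add]
    rw [integral_add (((g1.mul g2.conj).mul (bu.pow n)).int _)
      (((g1.mul g2.conj).mul (bu.conj.pow _)).int _)]
    push_cast
    rw [← mul_conj', ← mul_conj', ← integral_conj, ← integral_conj, ← integral_prod_mul,
      ← integral_prod_mul]
    refine congrArg₂ _ (integral_congr_ae (.of_forall fun p => ?_))
      (integral_congr_ae (.of_forall fun p => ?_)) <;> simp <;> ring
  simp only [e2] at hS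
  have hS1 := norm_integral_le_of_norm_le (μ := ν.prod ν) (f := fun p => ∑' n, g p.1 * conj (g p.2) *
      ((conj (w p.1) * w p.2) ^ n + conj (conj (w p.1) * w p.2) ^ (n + 1)))
    (((g1.norm.mul g2.norm).mul (hk.add (hk.comp measurable_swap))).int _) (.of_forall fun p => by
      have h2 := (hu p).trans_lt r1
      have h3 : ‖conj (conj (w p.1) * w p.2)‖ < 1 := by rwa [norm_conj]
      have h4 := (hasSum_geometric_of_norm_lt_one h2).add
        ((hasSum_geometric_of_norm_lt_one h3).mul_right (conj (conj (w p.1) * w p.2)))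
      simp only [← pow_succ] at h4
      rw [tsum_mul_left, h4.tsum_eq, norm_mul, norm_mul, norm_conj]
      refine mul_le_mul_of_nonneg_left ?_ (by positivity)
      simp only [kk, Prod.fst_swap, Prod.snd_swap]
      rw [nsym (w p.2), ← add_div]
      have h5 : ‖conj (w p.1) * w p.2‖ ^ 2 = ‖w p.1‖ ^ 2 * ‖w p.2‖ ^ 2 := by
        rw [norm_mul, norm_conj, mul_pow]
      have h6 : 0 ≤ (1 - ‖w p.1‖ ^ 2) * (1 - ‖w p.2‖ ^ 2) :=
        mul_nonneg (by nlinarith [norm_nonneg (w p.1), w1 p.1])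
          (by nlinarith [norm_nonneg (w p.2), w1 p.2])
      generalize conj (w p.1) * w p.2 = u at *
      have h7 := ne2 h2
      have h8 := ne2 h3
      have h9 : (1 - u)⁻¹ + (1 - conj u)⁻¹ * conj u =
          (((1 - ‖u‖ ^ 2) / ‖1 - u‖ ^ 2 : ℝ) : ℂ) := by
        push_cast
        rw [← mul_conj', ← mul_conj', map_sub, map_one]
        field_simp
        ring
      rw [h9, norm_real, Real.norm_of_nonneg (div_nonneg (by nlinarith [norm_nonneg u])
        (sq_nonneg _))]
      gcongr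
      nlinarith)
  have hS2 := hasSum_re hS
  simp only [ofReal_re] at hS2
  have h2 := (re_le_norm _).trans (hS1.trans h1)
  have h3 := hI.norm_le_of_bounded (((norm_sq f).mul_left (4 * A)).add
    (hS2.mul_left (1 / (16 * A)))) fun n => by
      rw [norm_mul, norm_conj, one_div, ← div_eq_inv_mul, ← sub_le_iff_le_add',
        le_div_iff₀ (by positivity)]
      nlinarith [sq_nonneg (8 * A * ‖f n‖ - ‖G n‖), sq_nonneg ‖G' n‖]
  rw [norm_real, Real.norm_eq_abs] at h3
  have h4 := mul_le_mul_of_nonneg_left h2 (show 0 ≤ 1 / (16 * A) by positivity)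
  rw [show ∀ y : ℝ, 1 / (16 * A) * (4 * (2 * A) * y) = y / 2 from fun y => by
    field_simp; ring] at h4
  linarith [le_abs_self (∫ s, ‖g s‖ ^ 2 ∂ν)]

end Pool.Agent.H55.Sat
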