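import Pool.Agent.H55.SatDefs

set_option autoImplicit false

namespace Pool.Agent.H55.HNDefs

/-- The operator `M^{*n} T M^n`. -/
noncomputable def Sand {E : Type} [NormedAddCommGroup E] [InnerProductSpace ℂ E] [CompleteSpace E]
    (M T : E →L[ℂ] E) (n : ℕ) : E →L[ℂ] E :=
  ContinuousLinearMap.adjoint M ^ n * T * M ^ n

/-- The operator `C^* C`. -/
noncomputable def AdjMul {E : Type} [NormedAddCommGroup E] [InnerProductSpace ℂ E]
    [CompleteSpace E] (C : E →L[ℂ] E) : E →L[ℂ] E :=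
  ContinuousLinearMap.adjoint C * C

/-- `M^{*n} T M^n` converges in the operator norm. -/
def IsUAT {E : Type} [NormedAddCommGroup E] [InnerProductSpace ℂ E] [CompleteSpace E]
    (M T : E →L[ℂ] E) : Prop :=
  ∃ A : E →L[ℂ] E, Filter.Tendsto (fun n : ℕ => ‖Sand M T n - A‖) Filter.atTop (nhds 0)

/-- `C_φ^* C_φ` is uniformly asymptotically Toeplitz: for `M = M_z` and `C = C_φ`. -/
def CompUAT (φ : ℂ → ℂ) : Prop :=
  ∃ M C : H2 →L[ℂ] H2, IsWCO M (fun z => z) (fun z => z) ∧ IsWCO C (fun _ => 1) φ ∧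
    IsUAT M (AdjMul C)

/-- The `t ∈ (0, 2π]` such that `φ` has at `e^{it}` a radial limit in the open disc within
distance `h` of `ξ`. -/
def Win (φ : ℂ → ℂ) (ξ : ℂ) (h : ℝ) : Set ℝ :=
  {t | t ∈ Set.Ioc 0 (2 * Real.pi) ∧ ∃ l : ℂ, RadLim φ t l ∧ ‖l‖ < 1 ∧ ‖l - ξ‖ < h}

end Pool.Agent.H55.HNDefs
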