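import Pool.Agent.H55.Uat1
import Pool.Agent.H55.UatDefs

set_option autoImplicit false
set_option maxHeartbeats 800000

namespace Pool.Agent.H55.Sat

open Complex MeasureTheory Filter Topology Set Metric
open scoped ENNReal ComplexConjugate NNReal Real
open Pool.Agent.H55.HN Pool.Agent.H55.HNDefs Pool.Agent.H2.NsA

def WW (ψ : ℝ → ℂ) (ξ : ℂ) (h : ℝ) : Set ℝ := {t | ‖ψ t‖ < 1 ∧ ‖ψ t - ξ‖ < h}

lemma WW_meas {ψ : ℝ → ℂ} (hψ : Measurable ψ) (ξ : ℂ) (h : ℝ) : MeasurableSet (WW ψ ξ h) :=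
  (measurableSet_lt hψ.norm measurable_const).inter
    (measurableSet_lt (hψ.sub_const ξ).norm measurable_const)

lemma n1 {ξ : ℂ} (hξ : ‖ξ‖ = 1) (w : ℂ) : ‖1 - conj ξ * w‖ = ‖w - ξ‖ := by
  have h : conj ξ * ξ = 1 := by rw [conj_mul', hξ]; simp
  rw [show 1 - conj ξ * w = conj ξ * (ξ - w) by linear_combination -h, norm_mul, norm_conj, hξ,
    one_mul, norm_sub_rev]

lemma kern (ψ : ℝ → ℂ) (hψ : Measurable ψ) (ε δ : ℝ) (hε : 0 < ε)
    (hW : ∀ ξ, ‖ξ‖ = 1 → ∀ h, 0 < h → h < δ → mu.real (WW ψ ξ h) ≤ ε * h)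
    (a : ℂ) (a0 : a ≠ 0) (a1 : ‖a‖ < 1) (a2 : 4 * (1 - ‖a‖) ≤ δ) (S : Set ℝ) (hS : MeasurableSet S)
    (hS1 : ∀ t ∈ S, ‖ψ t‖ < 1) :
    ∫ s in S, kk (ψ s) a ∂mu ≤ 72 * ε + 288 * (1 - ‖a‖) / δ ^ 2 * (2 * π) := by
  obtain ⟨h, hh⟩ : ∃ h, h = 1 - ‖a‖ := ⟨_, rfl⟩
  have h0 : 0 < h := by linarith
  have a3 := norm_pos_iff.2 a0
  have hξ : ‖a / ‖a‖‖ = 1 := by rw [norm_div, norm_real, norm_norm, div_self a3.ne']
  have hξa : ‖a / ‖a‖ - a‖ = h := by
    have : (‖a‖ : ℂ) ≠ 0 := by exact_mod_cast a3.ne'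
    rw [show a / ‖a‖ - a = a / ‖a‖ * ((h : ℝ) : ℂ) by rw [hh]; push_cast; field_simp, norm_mul, hξ,
      one_mul, norm_real, Real.norm_of_nonneg h0.le]
  generalize a / ‖a‖ = ξ at *
  rw [← hh] at a2 ⊢
  have δ0 : 0 < δ := by linarith
  obtain ⟨n, hn1, hn2⟩ := exists_nat_pow_near (x := δ / (4 * h)) (y := 2)
    (by rw [le_div_iff₀ (by positivity)]; linarith) one_lt_two
  rw [le_div_iff₀ (by positivity)] at hn1
  rw [div_lt_iff₀ (by positivity)] at hn2
  let b : ℝ → ℝ := fun s => ∑ i ∈ Finset.range (n + 1),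
    (WW ψ ξ (2 ^ (i + 1) * h)).indicator (fun _ => 18 / ((2 ^ i) ^ 2 * h)) s
  have b0 : ∀ i s, 0 ≤ (WW ψ ξ (2 ^ (i + 1) * h)).indicator
      (fun _ => (18 : ℝ) / ((2 ^ i) ^ 2 * h)) s :=
    fun i s => indicator_nonneg (fun _ _ => by positivity) _
  have bi : ∀ i ∈ Finset.range (n + 1), Integrable ((WW ψ ξ (2 ^ (i + 1) * h)).indicator
      (fun _ => (18 : ℝ) / ((2 ^ i) ^ 2 * h))) mu :=
    fun i _ => (integrable_const _).indicator (WW_meas hψ _ _)
  have bi' : Integrable (fun s => b s + 288 * h / δ ^ 2) mu :=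
    (integrable_finsetSum _ bi).add (integrable_const _)
  refine (integral_mono_of_nonneg (.of_forall fun s => kk_nonneg _ a1) bi'.integrableOn ?_).trans
    ((setIntegral_le_integral bi' (.of_forall fun s => add_nonneg
      (Finset.sum_nonneg fun i _ => b0 i s) (by positivity))).trans ?_)
  · filter_upwards [ae_restrict_mem hS] with s hs
    have w1 := hS1 s hs
    have h1 := norm_sub_norm_le 1 (conj a * ψ s)
    have h2 := norm_add_le (1 - conj a * ψ s) (conj (a - ξ) * ψ s)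
    rw [show 1 - conj a * ψ s + conj (a - ξ) * ψ s = 1 - conj ξ * ψ s by rw [map_sub]; ring,
      n1 hξ, norm_mul, norm_conj, norm_sub_rev a, hξa] at h2
    rw [norm_one, norm_mul, norm_conj] at h1
    have d0 := norm_nonneg (ψ s - ξ)
    have h3 : ‖ψ s - ξ‖ + h ≤ 3 * ‖1 - conj a * ψ s‖ := by nlinarith [norm_nonneg (ψ s)]
    have h4 : ∀ y, 0 < y → y ≤ ‖ψ s - ξ‖ + h → kk (ψ s) a ≤ 18 * h / y ^ 2 := fun y y0 hy => by
      rw [kk, nsym, div_le_div_iff₀ (pow_pos (by linarith) 2) (by positivity)]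
      have h5 := pow_le_pow_left₀ y0.le (hy.trans h3) 2
      have h6 : 1 - ‖a‖ ^ 2 ≤ 2 * h := by nlinarith
      nlinarith [mul_le_mul h6 h5 (by positivity) (by positivity)]
    obtain ⟨i, hi1, hi2⟩ := exists_nat_pow_near (x := (‖ψ s - ξ‖ + h) / h) (y := 2)
      (by rw [le_div_iff₀ h0]; linarith) one_lt_two
    rw [le_div_iff₀ h0] at hi1
    rw [div_lt_iff₀ h0] at hi2
    by_cases hi : i < n + 1
    · refine le_add_of_le_of_nonneg (le_trans ?_ (Finset.single_le_sum (fun i _ => b0 i s)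
        (Finset.mem_range.2 hi))) (by positivity)
      rw [indicator_of_mem (show s ∈ WW ψ ξ _ from ⟨w1, by linarith⟩)]
      exact (h4 _ (by positivity) hi1).trans_eq (by field_simp)
    · refine le_add_of_nonneg_of_le (Finset.sum_nonneg fun i _ => b0 i s) ?_
      have h5 : (2 : ℝ) ^ (n + 1) ≤ 2 ^ i := pow_le_pow_right₀ one_le_two (not_lt.1 hi)
      exact (h4 (δ / 4) (by positivity) (by nlinarith)).trans_eq (by field_simp; ring)
  · rw [integral_add (integrable_finsetSum _ bi) (integrable_const _), integral_finsetSum _ bi,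
      integral_const, mu_univ, smul_eq_mul, mul_comm (2 * π)]
    refine add_le_add_left ((Finset.sum_le_sum (g := fun i => 36 * ε * (1 / 2) ^ i)
      fun i hi => ?_).trans ?_) _
    · have h5 : (2 : ℝ) ^ i ≤ 2 ^ n :=
        pow_le_pow_right₀ one_le_two (Nat.lt_succ_iff.1 (Finset.mem_range.1 hi))
      rw [integral_indicator_const _ (WW_meas hψ _ _), smul_eq_mul]
      refine (mul_le_mul_of_nonneg_right (hW ξ hξ _ (by positivity) (by
        rw [pow_succ]; nlinarith)) (by positivity)).trans_eq ?_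
      rw [one_div, inv_pow]
      field_simp
      ring
    · rw [← Finset.mul_sum]
      nlinarith [sum_geometric_two_le (n + 1)]

lemma vcont {f : H} (hf : Summable fun k => ‖f k‖) : ContinuousOn (val f) (closedBall 0 1) :=
  continuousOn_tsum (fun k => by fun_prop) hf fun k z hz => by
    rw [norm_mul, norm_pow]
    exact mul_le_of_le_one_right (norm_nonneg _) (pow_le_one₀ (norm_nonneg _) (by simpa using hz))

lemma vbd {f : H} (hf : Summable fun k => ‖f k‖) {ψ : ℝ → ℂ} (hψ : Measurable ψ)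
    (h1 : ∀ t, ‖ψ t‖ ≤ 1) : Bd fun t => val f (ψ t) := by
  obtain ⟨B, hB⟩ := (isCompact_closedBall (0 : ℂ) 1).exists_bound_of_continuousOn (vcont hf)
  refine ⟨Measurable.stronglyMeasurable ?_, B, fun t => hB _ (by simpa using h1 t)⟩
  exact (continuousOn_iff_continuous_domRestrict.1 (vcont hf)).measurable.comp
    (hψ.subtype_mk (h := fun t => by simpa using h1 t))

def Cau (U : ℕ → H →L[ℂ] H) : Prop :=
  ∀ ε > 0, ∃ N, ∀ n ≥ N, ∀ m ≥ N, ∀ f, ‖U n f‖ ^ 2 - ‖U m f‖ ^ 2 ≤ ε * ‖f‖ ^ 2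

theorem cau_of (ψ : ℝ → ℂ) (hψ : Measurable ψ) (h1 : ∀ t, ‖ψ t‖ ≤ 1) (U : ℕ → H →L[ℂ] H)
    (hU : ∀ n (f : H), (Summable fun k => ‖f k‖) →
      2 * π * ‖U n f‖ ^ 2 = ∫ t, (‖ψ t‖ ^ n) ^ 2 * ‖val f (ψ t)‖ ^ 2 ∂mu)
    (hW : ∀ ε > 0, ∃ δ > 0, ∀ ξ, ‖ξ‖ = 1 → ∀ h, 0 < h → h < δ → mu.real (WW ψ ξ h) ≤ ε * h) :
    Cau U := by
  intro ε hε
  obtain ⟨δ, hδ, hW⟩ := hW (ε / 600) (by positivity)
  have l1 : Tendsto (fun ρ : ℝ => 288 * (1 - ρ) / δ ^ 2 * (2 * π)) (𝓝[<] 1) (𝓝 0) := by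
    have : Continuous fun ρ : ℝ => 288 * (1 - ρ) / δ ^ 2 * (2 * π) := by fun_prop
    simpa using (this.tendsto 1).mono_left nhdsWithin_le_nhds
  obtain ⟨ρ, hρ, ρ0, ρ1⟩ := ((l1.eventually_lt_const (show 0 < ε / 600 by positivity)).and
    (Ioo_mem_nhdsLT (show max 0 (1 - δ / 4) < 1 by simp [hδ]))).exists
  rw [max_lt_iff] at ρ0
  have l2 : Tendsto (fun N : ℕ => (ρ ^ N) ^ 2 * ‖U 0‖ ^ 2) atTop (𝓝 0) := by
    simpa using ((tendsto_pow_atTop_nhds_zero_of_lt_one ρ0.1.le ρ1).pow 2).mul_const (‖U 0‖ ^ 2)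
  obtain ⟨N, hN⟩ := (l2.eventually_lt_const (half_pos hε)).exists
  refine ⟨N, fun n hn m _ => ?_⟩
  have key : ∀ f : H, (Summable fun k => ‖f k‖) →
      ‖U n f‖ ^ 2 - ‖U m f‖ ^ 2 ≤ ε * ‖f‖ ^ 2 := by
    intro f hf
    have bψ : Bd ψ := ⟨hψ.stronglyMeasurable, 1, h1⟩
    have bF := (vbd hf hψ h1).norm.pow 2
    let S : ℕ → Set ℝ := fun j => {t | ρ < ‖ψ t‖ ∧ ‖ψ t‖ ≤ 1 - (1 - ρ) / (j + 2)}
    have hS : ∀ j, MeasurableSet (S j) := fun j => (measurableSet_lt measurable_const hψ.norm).inter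
      (measurableSet_le hψ.norm measurable_const)
    have e1 : ∀ j, ∫ t in S j, ‖val f (ψ t)‖ ^ 2 ∂mu ≤ 8 * (ε / 8) * ‖f‖ ^ 2 := by
      intro j
      classical
      have r1 : 0 < (1 - ρ) / (j + 2) := div_pos (by linarith) (by positivity)
      have r2 : (1 - ρ) / (j + 2) < 1 - ρ := div_lt_self (by linarith)
        (by linarith [Nat.cast_nonneg (α := ℝ) j])
      let w := (S j).piecewise ψ fun _ => ((1 - (1 - ρ) / (j + 2) : ℝ) : ℂ)
      have hw : ∀ x, ρ < ‖w x‖ ∧ ‖w x‖ ≤ 1 - (1 - ρ) / (j + 2) := fun x => by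
        by_cases hx : x ∈ S j
        · simp only [w, piecewise_eq_of_mem _ _ _ hx]; exact hx
        · simp only [w, piecewise_eq_of_notMem _ _ _ hx]
          rw [norm_real, Real.norm_of_nonneg (by linarith)]
          exact ⟨by linarith, le_rfl⟩
      have hw' : ∀ᵐ t ∂mu.restrict (S j), ψ t = w t :=
        (ae_restrict_mem (hS j)).mono fun t ht => (piecewise_eq_of_mem _ _ _ ht).symm
      refine (integral_congr_ae (hw'.mono fun t ht => by simp only [ht])).trans_le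
        (carl _ w (hψ.piecewise (hS j) measurable_const) _ (by linarith) (by linarith)
          (fun x => (hw x).2) _ (by positivity) (fun x => ?_) f)
      refine (integral_congr_ae (hw'.mono fun t ht => by simp only [ht])).symm.trans_le
        ((kern ψ hψ _ δ (by positivity) hW (w x) (norm_pos_iff.1 (by linarith [hw x]))
          (by linarith [hw x]) (by linarith [hw x]) _ (hS j) fun t ht => by
            linarith [ht.2]).trans ?_)
      have : 288 * (1 - ‖w x‖) / δ ^ 2 * (2 * π) ≤ 288 * (1 - ρ) / δ ^ 2 * (2 * π) := by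
        gcongr; exact (hw x).1.le
      linarith
    have e2 := le_of_tendsto' (tendsto_setIntegral_of_monotone hS (fun i j hij t ht =>
      ⟨ht.1, ht.2.trans (by gcongr)⟩) (bF.int mu).integrableOn) e1
    rw [← integral_indicator (MeasurableSet.iUnion hS)] at e2
    have i1 : ∀ n, Integrable (fun t => (‖ψ t‖ ^ n) ^ 2 * ‖val f (ψ t)‖ ^ 2) mu :=
      fun n => (((bψ.norm.pow n).pow 2).mul bF).int _
    have i2 := (bF.int mu).indicator (MeasurableSet.iUnion hS)
    have e3 := integral_mono ((i1 n).sub (i1 m)) (((i1 0).const_mul ((ρ ^ N) ^ 2)).add i2)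
      fun t => by
        have F0 := sq_nonneg ‖val f (ψ t)‖
        have p0 : 0 ≤ (‖ψ t‖ ^ m) ^ 2 * ‖val f (ψ t)‖ ^ 2 := by positivity
        have p1 : 0 ≤ (ρ ^ N) ^ 2 * ‖val f (ψ t)‖ ^ 2 := by positivity
        simp only [Pi.sub_apply, Pi.add_apply, pow_zero, one_pow, one_mul]
        by_cases ht : t ∈ ⋃ j, S j
        · rw [indicator_of_mem ht]
          have : (‖ψ t‖ ^ n) ^ 2 ≤ 1 := pow_le_one₀ (by positivity) (pow_le_one₀ (norm_nonneg _) (h1 t))
          nlinarith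
        · rw [indicator_of_notMem ht]
          by_cases h2 : ‖ψ t‖ = 1
          · simpa [h2] using p1
          · have h3 : ‖ψ t‖ ≤ ρ := by
              by_contra h3
              have h4 := lt_of_le_of_ne (h1 t) h2
              obtain ⟨j, hj⟩ := exists_nat_gt ((1 - ρ) / (1 - ‖ψ t‖))
              refine ht (mem_iUnion.2 ⟨j, not_le.1 h3, ?_⟩)
              rw [div_lt_iff₀ (by linarith)] at hj
              rw [le_sub_comm, div_le_iff₀ (by positivity)]
              nlinarith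
            have : (‖ψ t‖ ^ n) ^ 2 ≤ (ρ ^ N) ^ 2 := pow_le_pow_left₀ (by positivity)
              ((pow_le_pow_left₀ (norm_nonneg _) h3 n).trans
                (pow_le_pow_of_le_one ρ0.1.le ρ1.le hn)) 2
            nlinarith
    simp only [Pi.sub_apply, Pi.add_apply] at e3
    rw [integral_sub (i1 n) (i1 m), integral_add ((i1 0).const_mul _) i2, integral_const_mul,
      ← hU n f hf, ← hU m f hf, ← hU 0 f hf] at e3
    have e4 := pow_le_pow_left₀ (norm_nonneg _) ((U 0).le_opNorm f) 2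
    have e5 := mul_le_mul_of_nonneg_left e4 (sq_nonneg (ρ ^ N))
    have e6 := mul_le_mul_of_nonneg_right hN.le (sq_nonneg ‖f‖)
    have e7 : 0 ≤ ε * ‖f‖ ^ 2 := by positivity
    refine le_of_mul_le_mul_left ?_ Real.two_pi_pos
    nlinarith [Real.pi_gt_three]
  intro f
  have h2 : Tendsto (fun s : Finset ℕ => ∑ j ∈ s, (lp.single 2 j (f j) : H)) atTop (𝓝 f) :=
    lp.hasSum_single (p := 2) (by norm_num) f
  refine le_of_tendsto_of_tendsto' (((((U n).continuous.tendsto f).comp h2).norm.pow 2).sub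
    ((((U m).continuous.tendsto f).comp h2).norm.pow 2)) ((h2.norm.pow 2).const_mul ε)
    fun s => key _ (summable_of_ne_finset_zero (s := s) fun k hk => ?_)
  rw [lp.coeFn_sum, Finset.sum_apply, Finset.sum_eq_zero, norm_zero]
  intro j hj
  exact lp.single_apply_ne _ _ _ (by rintro rfl; exact hk hj)

theorem of_cau (ψ : ℝ → ℂ) (hψ : Measurable ψ) (h1 : ∀ t, ‖ψ t‖ ≤ 1) (U : ℕ → H →L[ℂ] H)
    (hU : ∀ n (f : H), (Summable fun k => ‖f k‖) →
      2 * π * ‖U n f‖ ^ 2 = ∫ t, (‖ψ t‖ ^ n) ^ 2 * ‖val f (ψ t)‖ ^ 2 ∂mu) (hC : Cau U) :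
    ∀ ε > 0, ∃ δ > 0, ∀ ξ, ‖ξ‖ = 1 → ∀ h, 0 < h → h < δ → mu.real (WW ψ ξ h) ≤ ε * h := by
  intro ε hε
  obtain ⟨N, hN⟩ := hC (ε / (16 * π)) (by positivity)
  refine ⟨1 / (4 * N + 4), by positivity, fun ξ hξ h h0 hδ => ?_⟩
  rw [lt_div_iff₀ (by positivity)] at hδ
  have N0 := Nat.cast_nonneg (α := ℝ) N
  have hh : h < 1 := by nlinarith
  have ha : ‖conj ξ * (1 - h : ℝ)‖ = 1 - h := by
    rw [norm_mul, norm_conj, hξ, one_mul, norm_real, Real.norm_of_nonneg (by linarith)]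
  have s1 := hasSum_geometric_of_lt_one (sq_nonneg (1 - h)) (by nlinarith)
  let f : H := ⟨fun k => (conj ξ * (1 - h : ℝ)) ^ k, (mem_iff _).2 (by
    simpa only [norm_pow, ha, ← pow_mul, mul_comm 2] using s1.summable)⟩
  have hf : ∀ k, f k = (conj ξ * (1 - h : ℝ)) ^ k := fun k => rfl
  have f1 : Summable fun k => ‖f k‖ := by
    simpa only [hf, norm_pow, ha] using summable_geometric_of_lt_one (by linarith) (by linarith)
  have f2 : ‖f‖ ^ 2 ≤ 1 / h := by
    rw [(norm_sq f).unique (by simpa only [hf, norm_pow, ha, ← pow_mul, mul_comm 2] using s1),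
      one_div]
    exact inv_anti₀ h0 (by nlinarith)
  have f3 : ∀ t ∈ WW ψ ξ h, 1 ≤ 4 * h ^ 2 * ‖val f (ψ t)‖ ^ 2 := fun t ht => by
    have e1 : ‖conj ξ * (1 - h : ℝ) * ψ t‖ < 1 := by
      rw [norm_mul, ha]; nlinarith [h1 t, norm_nonneg (ψ t)]
    have e2 := norm_add_le (1 - conj ξ * ψ t) (h * (conj ξ * ψ t))
    rw [n1 hξ, norm_mul, norm_mul, norm_conj, hξ, norm_real, Real.norm_of_nonneg h0.le,
      show 1 - conj ξ * ψ t + h * (conj ξ * ψ t) = 1 - conj ξ * (1 - h : ℝ) * ψ t by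
        push_cast; ring] at e2
    simp only [val, hf, ← mul_pow]
    have e3 := norm_pos_iff.2 (ne2 e1)
    rw [tsum_geometric_of_norm_lt_one e1, norm_inv, inv_pow, ← div_eq_mul_inv,
      le_div_iff₀ (by positivity)]
    have e4 : ‖1 - conj ξ * (1 - h : ℝ) * ψ t‖ ≤ 2 * h := by nlinarith [ht.2, h1 t]
    nlinarith
  have bψ : Bd ψ := ⟨hψ.stronglyMeasurable, 1, h1⟩
  have bF := (vbd f1 hψ h1).norm.pow 2
  have i1 : ∀ n, Integrable (fun t => (‖ψ t‖ ^ n) ^ 2 * ‖val f (ψ t)‖ ^ 2) mu :=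
    fun n => (((bψ.norm.pow n).pow 2).mul bF).int _
  have i2 : ∀ m, Integrable (fun t => 1 / 2 - (‖ψ t‖ ^ m) ^ 2) mu := fun m =>
    (integrable_const _).sub (((bψ.norm.pow m).pow 2).int _)
  have hW := WW_meas hψ ξ h
  have e1 := tendsto_integral_of_dominated_convergence (μ := mu.restrict (WW ψ ξ h))
    (F := fun m t => 1 / 2 - (‖ψ t‖ ^ m) ^ 2) (f := fun _ => (1 / 2 : ℝ)) (fun _ => 1)
    (fun m => (i2 m).integrableOn.aestronglyMeasurable) (integrable_const _)
    (fun m => .of_forall fun t => by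
      have : (‖ψ t‖ ^ m) ^ 2 ≤ 1 := pow_le_one₀ (by positivity) (pow_le_one₀ (norm_nonneg _) (h1 t))
      rw [Real.norm_eq_abs, abs_le]
      constructor <;> nlinarith [sq_nonneg (‖ψ t‖ ^ m)])
    ((ae_restrict_mem hW).mono fun t ht => by
      simpa only [ne_eq, OfNat.ofNat_ne_zero, not_false_eq_true, zero_pow, sub_zero] using
        ((tendsto_pow_atTop_nhds_zero_of_lt_one (norm_nonneg _) ht.1).pow 2).const_sub (1 / 2))
  have e2 := le_of_tendsto e1 (b := ε * h / 2) (by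
    filter_upwards [eventually_ge_atTop N] with m hm
    rw [← integral_indicator hW]
    have e3 := integral_mono ((i2 m).indicator hW) (((i1 N).sub (i1 m)).const_mul (4 * h ^ 2))
      fun t => by
        have p1 : (‖ψ t‖ ^ m) ^ 2 ≤ (‖ψ t‖ ^ N) ^ 2 := pow_le_pow_left₀ (by positivity)
          (pow_le_pow_of_le_one (norm_nonneg _) (h1 t) hm) 2
        simp only [Pi.sub_apply, ← sub_mul]
        by_cases ht : t ∈ WW ψ ξ h
        · rw [indicator_of_mem ht]
          have p2 := norm_sub_norm_le ξ (ψ t)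
          rw [norm_sub_rev, hξ] at p2
          have p3 := one_add_mul_le_pow (show -2 ≤ -h by linarith) (N * 2)
          have p4 : (1 + -h) ^ (N * 2) ≤ ‖ψ t‖ ^ (N * 2) :=
            pow_le_pow_left₀ (by linarith) (by linarith [ht.2]) _
          rw [pow_mul ‖ψ t‖] at p4
          push_cast at p3
          nlinarith [mul_le_mul_of_nonneg_left (f3 t ht) (sub_nonneg.2 p1)]
        · rw [indicator_of_notMem ht]
          exact mul_nonneg (by positivity) (mul_nonneg (sub_nonneg.2 p1) (sq_nonneg _))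
    refine e3.trans ?_
    simp only [Pi.sub_apply]
    rw [integral_const_mul, integral_sub (i1 N) (i1 m), ← hU N f f1, ← hU m f f1, ← mul_sub]
    have e4 := (hN N le_rfl m hm f).trans (mul_le_mul_of_nonneg_left f2 (by positivity))
    refine (mul_le_mul_of_nonneg_left (mul_le_mul_of_nonneg_left e4 (by positivity))
      (by positivity)).trans_eq ?_
    field_simp
    ring)
  rw [integral_const, smul_eq_mul, measureReal_restrict_apply_univ] at e2
  linarith

theorem uat (φ : ℂ → ℂ) (hφ : DifferentiableOn ℂ φ (ball 0 1))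
    (hm' : MapsTo φ (ball 0 1) (ball 0 1)) :
    CompUAT φ ↔ ∀ ε > 0, ∃ δ > 0, ∀ ξ : ℂ, ‖ξ‖ = 1 → ∀ h : ℝ, 0 < h → h < δ →
      volume (Win φ ξ h) ≤ ENNReal.ofReal (ε * h) := by
  have hm : ∀ z, ‖z‖ < 1 → ‖φ z‖ < 1 := fun z hz => by simpa using hm' (by simpa using hz)
  have hz : ∀ t : ℝ, cexp (t * I) = zt t := fun t => by simp [zt, circleMap_zero]
  have hζ : ∀ t m, ‖zt t * (rr 1 m : ℝ)‖ < 1 := fun t m => by
    rw [norm_mul, zt_norm, one_mul, rr_norm one_pos]; exact rr_lt one_pos m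
  have hcont : ∀ m : ℕ, Continuous fun t => φ (zt t * (rr 1 m : ℝ)) :=
    fun m => hφ.continuousOn.comp_continuous (zt_cont.mul continuous_const)
      fun t => by simpa only [mem_ball_zero_iff] using hζ t m
  have hrad : ∀ t l, RadLim φ t l → Tendsto (fun m => φ (zt t * (rr 1 m : ℝ))) atTop (𝓝 l) :=
    fun t l h => by
      simpa only [hz, mul_comm _ (zt t), pow_one, Function.comp_def] using h.comp (rp_tend one_pos)
  obtain ⟨ψ, hψ, h1, hb⟩ : ∃ ψ : ℝ → ℂ, Measurable ψ ∧ (∀ t, ‖ψ t‖ ≤ 1) ∧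
      ∀ᵐ t ∂mu, RadLim φ t (ψ t) := by
    let φb : ℝ → ℂ := fun t => limUnder (𝓝[<] 1) fun r : ℝ => φ (r * cexp (t * I))
    have hb : ∀ᵐ t ∂mu, RadLim φ t (φb t) :=
      ae_restrict_of_ae ((Fatou.fatou φ hφ fun z hz => (hm z hz).le).mono
        fun t ht => tendsto_nhds_limUnder ht)
    have h2 : AEStronglyMeasurable φb mu := aestronglyMeasurable_of_tendsto_ae atTop
      (fun m => (hcont m).aestronglyMeasurable) (hb.mono fun t ht => hrad t _ ht)
    have h3 := h2.measurable_mk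
    refine ⟨fun t => if ‖h2.mk _ t‖ ≤ 1 then h2.mk _ t else 0,
      h3.ite (measurableSet_le h3.norm measurable_const) measurable_const, fun t => ?_, ?_⟩
    · dsimp only
      split_ifs with h <;> simp [h]
    · filter_upwards [hb, h2.ae_eq_mk] with t h4 h5
      rw [← h5, if_pos (le_of_tendsto' (hrad t _ h4).norm fun m => (hm _ (hζ t m)).le)]
      exact h4
  have hW : ∀ ξ h, volume (Win φ ξ h) = mu (WW ψ ξ h) := fun ξ h => by
    rw [← measure_congr (μ := mu) (s := {t | ∃ l, RadLim φ t l ∧ ‖l‖ < 1 ∧ ‖l - ξ‖ < h})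
      (t := WW ψ ξ h)
      (hb.mono fun t ht => propext ⟨fun ⟨l, h2, h3⟩ => by
        rwa [tendsto_nhds_unique h2 ht] at h3, fun h2 => ⟨_, ht, h2⟩⟩),
      Measure.restrict_apply' measurableSet_Ioc, inter_comm]
    rfl
  have bint : ∀ (u : H) (G : ℂ → ℂ), ContinuousOn G (closedBall 0 1) →
      (∀ z, ‖z‖ < 1 → val u z = G (φ z)) → 2 * π * ‖u‖ ^ 2 = ∫ t, ‖G (ψ t)‖ ^ 2 ∂mu := by
    intro u G hG hu
    obtain ⟨B, hB⟩ := (isCompact_closedBall (0 : ℂ) 1).exists_bound_of_continuousOn hG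
    have hmem : ∀ t m, φ (zt t * (rr 1 m : ℝ)) ∈ closedBall (0 : ℂ) 1 := fun t m => by
      simpa only [mem_closedBall_zero_iff] using (hm _ (hζ t m)).le
    have h2 := tendsto_integral_of_dominated_convergence (μ := mu)
      (F := fun m t => ‖G (φ (zt t * (rr 1 m : ℝ)))‖ ^ 2) (f := fun t => ‖G (ψ t)‖ ^ 2)
      (fun _ => B ^ 2) (fun m => ((hG.comp_continuous (hcont m) fun t =>
        hmem t m).norm.pow 2).aestronglyMeasurable) (integrable_const _)
      (fun m => .of_forall fun t => by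
        rw [norm_pow, norm_norm]
        exact pow_le_pow_left₀ (norm_nonneg _) (hB _ (hmem t m)) 2)
      (hb.mono fun t ht => ((hG _ (by simpa using h1 t)).tendsto.comp (tendsto_nhdsWithin_iff.2
        ⟨hrad t _ ht, .of_forall (hmem t)⟩)).norm.pow 2)
    simp only [← hu _ (hζ _ _), pars u (rr_pos one_pos _).le (rr_lt one_pos _)] at h2
    have h3 := tendsto_tsum_of_dominated_convergence (𝓕 := atTop)
      (f := fun m k => ‖u k‖ ^ 2 * xx m k) (g := fun k => ‖u k‖ ^ 2)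
      (norm_sq u).summable (fun k => by
        simpa [xx] using (((l2 1).pow 2).pow k).const_mul (‖u k‖ ^ 2))
      (Eventually.of_forall fun m k => by
        rw [Real.norm_of_nonneg (mul_nonneg (sq_nonneg _) (xx_mem m k).1)]
        exact mul_le_of_le_one_right (sq_nonneg _) (xx_mem m k).2)
    rw [(norm_sq u).tsum_eq] at h3
    exact tendsto_nhds_unique (h3.const_mul _) h2
  have key : ∀ M C : H →L[ℂ] H, IsWCO M (fun z => z) (fun z => z) → IsWCO C (fun _ => 1) φ →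
      (IsUAT M (AdjMul C) ↔ ∀ ε > 0, ∃ δ > 0, ∀ ξ : ℂ, ‖ξ‖ = 1 →
        ∀ h : ℝ, 0 < h → h < δ → mu.real (WW ψ ξ h) ≤ ε * h) := by
    intro M C hM hC
    have hv : ∀ n (f : H), ∀ z ∈ ball (0 : ℂ) 1, val ((M ^ n) f) z = z ^ n * val f z := by
      intro n f z hz
      induction n with
      | zero => simp
      | succ n ih => rw [pow_succ' M, mul_apply_eq_comp, hM _ z hz, ih, pow_succ', mul_assoc]
    have hU : ∀ n (f : H), (Summable fun k => ‖f k‖) → 2 * π * ‖(C * M ^ n) f‖ ^ 2 =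
        ∫ t, (‖ψ t‖ ^ n) ^ 2 * ‖val f (ψ t)‖ ^ 2 ∂mu := fun n f hf => by
      rw [bint _ (fun w => w ^ n * val f w) ((continuousOn_pow n).mul (vcont hf)) fun z hz => by
        rw [mul_apply_eq_comp, hC _ z (by simpa using hz), one_mul, hv n f _ (hm' (by simpa using hz))]]
      simp only [norm_mul, norm_pow, mul_pow]
    have hT : ∀ n, ContinuousLinearMap.adjoint M ^ n * (ContinuousLinearMap.adjoint C * C) * M ^ n =
        star (C * M ^ n) * (C * M ^ n) := fun n => by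
      simp only [star_mul, star_pow, ContinuousLinearMap.star_eq_adjoint, mul_assoc]
    have hq : ∀ (A B : H →L[ℂ] H) f, RCLike.re (inner ℂ ((star A * A - star B * B) f) f) =
        ‖A f‖ ^ 2 - ‖B f‖ ^ 2 := fun A B f => by
      simp only [sub_apply, mul_apply_eq_comp, ContinuousLinearMap.star_eq_adjoint, inner_sub_left,
        ContinuousLinearMap.adjoint_inner_left, map_sub, inner_self_eq_norm_sq]
    simp only [IsUAT, Sand, AdjMul, hT, ← tendsto_iff_norm_sub_tendsto_zero]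
    constructor
    · rintro ⟨A, hA⟩
      refine of_cau ψ hψ h1 _ hU fun ε hε => ?_
      obtain ⟨N, hN⟩ := Metric.cauchySeq_iff.1 hA.cauchySeq ε hε
      refine ⟨N, fun n hn m hm f => ?_⟩
      have := hN n hn m hm
      rw [dist_eq_norm] at this
      rw [← hq, sq ‖f‖, ← mul_assoc ε]
      refine (RCLike.re_le_norm _).trans ((norm_inner_le_norm _ _).trans ?_)
      exact mul_le_mul_of_nonneg_right ((ContinuousLinearMap.le_opNorm _ _).trans
        (mul_le_mul_of_nonneg_right this.le (norm_nonneg f))) (norm_nonneg f)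
    · intro h
      refine cauchySeq_tendsto_of_complete (Metric.cauchySeq_iff.2 fun ε hε => ?_)
      obtain ⟨N, hN⟩ := cau_of ψ hψ h1 _ hU h (ε / 2) (half_pos hε)
      refine ⟨N, fun n hn m hm => ?_⟩
      rw [dist_eq_norm, ContinuousLinearMap.norm_eq_iSup_rayleighQuotient _
        (((IsSelfAdjoint.star_mul_self _).sub (IsSelfAdjoint.star_mul_self _)).isSymmetric)]
      refine (Real.iSup_le (fun f => ?_) (half_pos hε).le).trans_lt (half_lt_self hε)
      rw [ContinuousLinearMap.rayleighQuotient, ContinuousLinearMap.reApplyInnerSelf_apply, hq,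
        abs_div, abs_sq]
      exact div_le_of_le_mul₀ (sq_nonneg _) (half_pos hε).le
        (abs_sub_le_iff.2 ⟨hN n hn m hm f, hN m hm n hn f⟩)
  obtain ⟨T, hT⟩ := little φ hφ hm
  obtain ⟨M, hM⟩ := exists_mul bl bl_diff 1 fun z hz => (bl_lt hz).le
  have hM' : IsWCO M (fun z => z) (fun z => z) := fun f => toD (F := fun s => s * val f s)
    fun z hz => by rw [hM f z hz, hev f hz, mul_left_comm]
  have h2 : CompUAT φ ↔ _ := ⟨fun ⟨M, T, h1, h2, h3⟩ => (key M T h1 h2).1 h3,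
    fun h => ⟨M, T, hM', hT, (key M T hM' hT).2 h⟩⟩
  rw [h2]
  refine forall₂_congr fun ε hε => exists_congr fun δ => and_congr_right fun _ =>
    forall₂_congr fun ξ _ => forall₃_congr fun h h0 _ => ?_
  rw [hW, ENNReal.le_ofReal_iff_toReal_le (measure_ne_top _ _) (by positivity)]
  rfl

end Pool.Agent.H55.Sat
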