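import Mathlib

namespace Pool.Agent.H55.Ultra

open Filter

theorem exists_idem : ∃ U : Ultrafilter ℕ,
    (∀ p : ℕ → Prop, (∀ᶠ m : ℕ in (U : Filter ℕ), p m) ↔ ∀ᶠ a : ℕ in (U : Filter ℕ), ∀ᶠ b : ℕ in (U : Filter ℕ), p (a + b)) ∧
    (∀ N, ∀ᶠ m : ℕ in (U : Filter ℕ), N < m) ∧ (∀ᶠ m : ℕ in (U : Filter ℕ), 2 ∣ m) := by
  obtain ⟨U, hU, hFS⟩ := Hindman.exists_idempotent_ultrafilter_le_FS (Stream'.const (2 : ℕ))
  have key : ∀ (a : Stream' ℕ) (m : ℕ), m ∈ Hindman.FS a → (∀ i, a.get i = 2) →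
      0 < m ∧ 2 ∣ m := by
    intro a m hm
    induction hm with
    | head' a => intro h; have := h 0; simp only [Stream'.head]; omega
    | tail' a m _ ih => intro h; exact ih (fun i => h (i + 1))
    | cons' a m _ ih =>
      intro h
      have h1 := ih (fun i => h (i + 1))
      have := h 0
      simp only [Stream'.head]
      omega
  have hid : ∀ p : ℕ → Prop, (∀ᶠ m : ℕ in (U : Filter ℕ), p m) ↔ ∀ᶠ a : ℕ in (U : Filter ℕ), ∀ᶠ b : ℕ in (U : Filter ℕ), p (a + b) := by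
    intro p
    rw [← Ultrafilter.eventually_add U U p, hU]
  have hpos : ∀ᶠ m : ℕ in (U : Filter ℕ), 0 < m := hFS.mono (fun m hm => (key _ m hm (fun _ => rfl)).1)
  refine ⟨U, hid, ?_, hFS.mono (fun m hm => (key _ m hm (fun _ => rfl)).2)⟩
  intro N
  induction N with
  | zero => exact hpos
  | succ N ih =>
    rw [hid]
    filter_upwards [hpos] with a ha
    filter_upwards [ih] with b hb
    omega

theorem seq_of_tensor (U : Ultrafilter ℕ) (hU : ∀ N, ∀ᶠ m : ℕ in (U : Filter ℕ), N < m) (P : ℕ → ℕ → Prop)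
    (Q : ℕ → Prop) (hQ : ∀ᶠ a : ℕ in (U : Filter ℕ), Q a) (h : ∀ᶠ a : ℕ in (U : Filter ℕ), ∀ᶠ b : ℕ in (U : Filter ℕ), P a b) :
    ∃ a : ℕ → ℕ, StrictMono a ∧ (∀ n, Q (a n)) ∧ ∀ n m, n < m → P (a n) (a m) := by
  have step : ∀ s : Set ℕ, ∃ x : ℕ, s ∈ U → (x ∈ s ∧ Q x ∧ ∀ᶠ b : ℕ in (U : Filter ℕ), P x b) := by
    intro s
    by_cases hs : s ∈ U
    · have : ∀ᶠ x : ℕ in (U : Filter ℕ), x ∈ s ∧ Q x ∧ ∀ᶠ b : ℕ in (U : Filter ℕ), P x b := by
        filter_upwards [hs, hQ, h] with x h1 h2 h3 using ⟨h1, h2, h3⟩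
      obtain ⟨x, hx⟩ := this.exists
      exact ⟨x, fun _ => hx⟩
    · exact ⟨0, fun h => absurd h hs⟩
  choose f hf using step
  let S : ℕ → Set ℕ := fun n => Nat.rec Set.univ (fun _ s => s ∩ {b | f s < b ∧ P (f s) b}) n
  have hS : ∀ n, S (n + 1) = S n ∩ {b | f (S n) < b ∧ P (f (S n)) b} := fun n => rfl
  have hmem : ∀ n, S n ∈ U := by
    intro n
    induction n with
    | zero => exact univ_mem
    | succ n ih =>
      rw [hS]
      have h1 := (hf _ ih).2.2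
      have h2 := hU (f (S n))
      exact inter_mem ih (h2.and h1)
  have hanti : ∀ n m, n ≤ m → S m ⊆ S n := by
    intro n m hnm
    induction hnm with
    | refl => exact subset_rfl
    | step _ ih => exact (Set.inter_subset_left).trans ih
  have hpair : ∀ n m, n < m → f (S n) < f (S m) ∧ P (f (S n)) (f (S m)) := by
    intro n m hnm
    have := hanti (n + 1) m hnm (hf _ (hmem m)).1
    rw [hS] at this
    exact this.2
  exact ⟨fun n => f (S n), fun n m h => (hpair n m h).1, fun n => (hf _ (hmem n)).2.1,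
    fun n m h => (hpair n m h).2⟩

theorem exists_colour {k : ℕ} (U : Ultrafilter ℕ) (g : ℕ → ℕ → Fin k) :
    ∃ i, ∀ᶠ a : ℕ in (U : Filter ℕ), ∀ᶠ b : ℕ in (U : Filter ℕ), g a b = i := by
  have h1 : ∀ a, ∃ i, ∀ᶠ b : ℕ in (U : Filter ℕ), g a b = i := by
    intro a
    obtain ⟨i, hi⟩ := Ultrafilter.eq_pure_of_finite (U.map (g a))
    refine ⟨i, ?_⟩
    have : {i} ∈ U.map (g a) := by rw [hi]; simp
    exact this
  choose j hj using h1
  obtain ⟨i, hi⟩ := Ultrafilter.eq_pure_of_finite (U.map j)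
  have : {i} ∈ U.map j := by rw [hi]; simp
  refine ⟨i, ?_⟩
  have h2 : ∀ᶠ a : ℕ in (U : Filter ℕ), j a = i := this
  filter_upwards [h2] with a ha
  rw [← ha]; exact hj a

theorem sum_diff (k : ℕ) (c : ℕ → Fin k) : ∃ a : ℕ → ℕ, StrictMono a ∧
      ∃ i : Fin k, ∀ n m : ℕ, n < m → c (a n + a m) = i ∧ c (a m - a n) = i := by
  obtain ⟨U, hid, hN, h2⟩ := exists_idem
  obtain ⟨i, hi⟩ := exists_colour U (fun a b => c (b - a))
  obtain ⟨x, ⟨t, rfl⟩, hx⟩ := (h2.and hi).exists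
  have hx' := (hid (fun b => c (b - 2 * t) = i)).1 hx
  obtain ⟨b, hb, hQ, hP⟩ := seq_of_tensor U hN
    (fun a b => c (b - a) = i ∧ c (a + b - 2 * t) = i) (fun a => t < a) (hN t) (by
      filter_upwards [hi, hx'] with a h1 h2
      filter_upwards [h1, h2] with b h3 h4 using ⟨h3, h4⟩)
  refine ⟨fun n => b n - t, ?_, i, ?_⟩
  · intro n m hnm
    have := hb hnm
    have := hQ n
    simp only
    omega
  · intro n m hnm
    have h1 := hb hnm
    have h2 := hQ n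
    obtain ⟨h3, h4⟩ := hP n m hnm
    have e1 : b n - t + (b m - t) = b n + b m - 2 * t := by omega
    have e2 : b m - t - (b n - t) = b m - b n := by omega
    simp only
    rw [e1, e2]
    exact ⟨h4, h3⟩

end Pool.Agent.H55.Ultra
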