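import Mathlib
import Pool.Agent.H55.TreeHt
import Pool.Agent.H42.Stat
import Pool.Agent.H42.WeakDiamond

/-! Weak diamond and monochromatic uniformization give a stationary antichain. -/

namespace Pool.Agent.H55.Unif

open Set
open Cardinal hiding univ
open Pool.Agent.H55.Mark (W)
open Pool.Agent.H55 Pool.Agent.H42

theorem core (h : (2 : Cardinal.{0}) ^ ℵ₀ < 2 ^ ℵ_ 1) {T : Type*} [PartialOrder T] (ht : T → W)
    (hm : StrictMono ht) (hs : ∀ t, ∀ β < ht t, ∃ s < t, ht s = β)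
    (hc : ∀ α, {t | ht t = α}.Countable) (C : W → Set W)
    (hC : ∀ α, Order.IsSuccLimit α → C α ⊆ Iio α ∧ (C α).Infinite)
    (hU : ∀ f : W → ℕ, ∃ S : Set T, IsLowerSet S ∧ (∀ α, ∃ t ∈ S, α ≤ ht t) ∧ ∃ φ : S → ℕ,
      ∀ α, Order.IsSuccLimit α → ∀ s ∈ S, ht s = α →
        {ξ ∈ C α | ∃ t : S, t.1 < s ∧ ht t = ξ ∧ φ t ≠ f α}.Finite) :
    ∃ A : Set T, IsAntichain (· ≤ ·) A ∧ IsStationary {α | ∃ a ∈ A, ht a = α} := by
  classical
  by_contra hA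
  push Not at hA
  choose e he using fun α => countable_iff_exists_injOn.1 (hc α)
  obtain ⟨m⟩ : Nonempty W := inferInstance
  let P : W → (W → ℕ → Option ℕ) → Prop := fun δ H => ∃ t, ht t = δ ∧
    (∀ s < t, H (ht s) (e (ht s) s) ≠ none) ∧
      {ξ ∈ C δ | ∃ s < t, ht s = ξ ∧ H (ht s) (e (ht s) s) ≠ some 1}.Finite
  have hP : ∀ δ H H', (∀ i < δ, H i = H' i) → P δ H → P δ H' := by
    rintro δ H H' hH ⟨t, h1, h2, h3⟩
    have k : ∀ s < t, H (ht s) = H' (ht s) := fun s hs => hH _ (h1 ▸ hm hs)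
    refine ⟨t, h1, fun s hs => k s hs ▸ h2 s hs, h3.subset ?_⟩
    rintro ξ ⟨k1, s, k2, k3, k4⟩
    exact ⟨k1, s, k2, k3, k s k2 ▸ k4⟩
  have key := WeakDiamond.ds TreeHt.regW ℕ (ℕ → Option ℕ)
    (by rw [StepTree.mk_W]; simp) (by simp)
    (by rw [StepTree.mk_W]; simpa using aleph_one_le_continuum)
    (by
      rw [← power_def, mk_nat, two_power_aleph0, ← continuum_power_aleph0]
      exact power_le_power_right (mk_le_aleph0.trans aleph0_le_continuum))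
    (fun ν hν => power_le_power_left two_ne_zero (by
      rw [StepTree.mk_W, ← succ_aleph0] at hν
      simpa using Order.lt_succ_iff.1 hν))
    m (fun δ H => decide (P δ H)) (fun δ H H' hH => decide_eq_decide.2
      ⟨hP δ H H' hH, hP δ H' H fun i hi => (hH i hi).symm⟩) (fun f => ?_)
  · rw [StepTree.mk_W, mk_nat] at key
    exact absurd h key.not_gt
  obtain ⟨S, hlow, hpr, φ, hφ⟩ := hU fun α => (f α).toNat
  let H : W → ℕ → Option ℕ := fun ξ n =>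
    if h : ∃ s : S, ht s = ξ ∧ e ξ s = n then some (φ h.choose) else none
  have hH1 : ∀ s : S, H (ht s) (e (ht s) s) = some (φ s) := fun s => by
    have h : ∃ s' : S, ht s' = ht s ∧ e (ht s) s' = e (ht s) s := ⟨s, rfl, rfl⟩
    have : h.choose = s := Subtype.ext (he _ h.choose_spec.1 rfl h.choose_spec.2)
    simp only [H, dif_pos h, this]
  have hH2 : ∀ s, H (ht s) (e (ht s) s) ≠ none → s ∈ S := fun s hne => by
    by_cases h : ∃ s' : S, ht s' = ht s ∧ e (ht s) s' = e (ht s) s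
    · obtain ⟨s', h1, h2⟩ := h
      exact he _ h1 rfl h2 ▸ s'.2
    · exact absurd (dif_neg h) hne
  have hns : ¬ Stat.Stat {α | ∃ a ∈ {t | t ∉ S ∧ ∀ s < t, s ∈ S}, ht a = α} := fun hst =>
    hA _ (fun a ha b hb hne hab => ha.1 (hb.2 a (lt_of_le_of_ne hab hne)))
      (hst.isStationary TreeHt.regW)
  obtain ⟨g, hg⟩ := not_forall.1 hns
  choose nx hnx using TreeHt.regW.exists_gt
  refine ⟨H, fun i => max (g i) (nx i), fun δ hδ hcl => ?_⟩
  have hlim : Order.IsSuccLimit δ := ⟨not_isMin_of_lt hδ, fun i hi =>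
    hi.2 (hnx i) ((le_max_right _ _).trans_lt (hcl i hi.1))⟩
  have hin : ∀ t, ht t = δ → (∀ s < t, s ∈ S) → t ∈ S := fun t h1 h2 => by
    by_contra h3
    exact hg ⟨δ, ⟨t, ⟨h3, h2⟩, h1⟩, ⟨m, hδ⟩, fun i hi => (le_max_left _ _).trans_lt (hcl i hi)⟩
  cases hf : f δ
  · refine (decide_eq_false ?_).symm
    rintro ⟨t, h1, h2, h3⟩
    have htS := hin t h1 fun s hs => hH2 s (h2 s hs)
    obtain ⟨k1, hinf⟩ := hC δ hlim
    refine hinf ((h3.union (hφ δ hlim t htS h1)).subset fun ξ hξ => ?_)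
    obtain ⟨s, k2, k3⟩ := hs t ξ (h1 ▸ k1 hξ)
    have hsS : s ∈ S := hlow k2.le htS
    by_cases hv : φ ⟨s, hsS⟩ = 1
    · exact Or.inr ⟨hξ, ⟨s, hsS⟩, k2, k3, by rw [hv, hf]; simp⟩
    · exact Or.inl ⟨hξ, s, k2, k3, by rw [hH1 ⟨s, hsS⟩]; simpa using hv⟩
  · refine (decide_eq_true ?_).symm
    obtain ⟨t, htS, h1⟩ : ∃ t ∈ S, ht t = δ := by
      obtain ⟨t, k2, k1⟩ := hpr δ
      rcases k1.eq_or_lt with k | k
      · exact ⟨t, k2, k.symm⟩
      · obtain ⟨s, k4, k5⟩ := hs t δ k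
        exact ⟨s, hlow k4.le k2, k5⟩
    refine ⟨t, h1, fun s hs => by rw [hH1 ⟨s, hlow hs.le htS⟩]; simp,
      (hφ δ hlim t htS h1).subset ?_⟩
    rintro ξ ⟨k1, s, k2, k3, k4⟩
    refine ⟨k1, ⟨s, hlow k2.le htS⟩, k2, k3, fun k5 => k4 ?_⟩
    rw [hH1 ⟨s, hlow k2.le htS⟩, k5, hf]
    rfl

theorem exists_ladder (α : W) (h : Order.IsSuccLimit α) :
    ∃ C : Set W, C ⊆ Iio α ∧ (∀ β < α, ∃ ξ ∈ C, β ≤ ξ) ∧ Nonempty (C ≃o ℕ) := by
  obtain ⟨a, ha⟩ := (Mark.Iio_c α).exists_eq_range (not_isMin_iff.1 h.not_isMin)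
  have ha' : ∀ n, a n < α := fun n => (ha ▸ mem_range_self n : a n ∈ Iio α)
  have hn : ∀ x : Iio α, ∃ y : Iio α, x < y := fun x => by
    obtain ⟨y, h1, h2⟩ := (not_covBy_iff x.2).1 (h.isSuccPrelimit x)
    exact ⟨⟨y, h2⟩, h1⟩
  choose nx hnx using hn
  let l : ℕ → Iio α := fun n => Nat.rec ⟨a 0, ha' 0⟩ (fun k x => nx (max x ⟨a k, ha' k⟩)) n
  have hl : StrictMono fun n => (l n).1 := strictMono_nat_of_lt_succ fun n =>
    (show l n < l (n + 1) from (le_max_left _ _).trans_lt (hnx _))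
  refine ⟨range fun n => (l n).1, ?_, fun β hβ => ?_, ⟨hl.orderIso.symm⟩⟩
  · rintro _ ⟨n, rfl⟩
    exact (l n).2
  · obtain ⟨n, rfl⟩ : β ∈ range a := ha ▸ hβ
    exact ⟨_, ⟨n + 1, rfl⟩,
      (show (⟨a n, ha' n⟩ : Iio α) ≤ l (n + 1) from ((le_max_right _ _).trans_lt (hnx _)).le)⟩

end Pool.Agent.H55.Unif
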