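import Mathlib

set_option autoImplicit false
open Filter Polynomial

namespace Pool.Agent.H55.Zud

/-- the polynomial (1+X)^2 (32+X) over the naturals -/
noncomputable def AN : ℕ[X] := (1 + X) ^ 2 * (32 + X)

/-- the integer sequence -/
noncomputable def s (n : ℕ) : ℕ := (AN ^ n).coeff n

lemma coeff_le_eval (p : ℕ[X]) (n : ℕ) : p.coeff n ≤ p.eval 1 := by
  by_cases h : n ≤ p.natDegree
  · rw [eval_eq_sum_range]
    simp only [one_pow, mul_one]
    exact Finset.single_le_sum (f := fun i => p.coeff i) (fun _ _ => Nat.zero_le _)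
      (Finset.mem_range.2 (by omega))
  · rw [coeff_eq_zero_of_natDegree_lt (by omega)]; exact Nat.zero_le _

lemma s_le (n : ℕ) : s n ≤ 132 ^ n := by
  have := coeff_le_eval (AN ^ n) n
  rw [eval_pow] at this
  have h : AN.eval 1 = 132 := by simp [AN]
  rwa [h] at this

lemma AN_one : AN.coeff 1 = 65 := by
  have : AN = C 32 + C 65 * X + C 34 * X ^ 2 + X ^ 3 := by
    simp only [AN, map_ofNat]; ring
  rw [this]; simp [coeff_X, coeff_X_pow, coeff_C]

lemma s_pos (n : ℕ) : 0 < s n := by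
  induction n with
  | zero => simp [s]
  | succ n ih =>
    unfold s at *
    rw [pow_succ, coeff_mul]
    have hm : (n, 1) ∈ Finset.HasAntidiagonal.antidiagonal (n + 1) := by simp
    have := Finset.single_le_sum (f := fun x : ℕ × ℕ => (AN ^ n).coeff x.1 * AN.coeff x.2)
      (fun _ _ => Nat.zero_le _) hm
    simp only [AN_one] at this
    omega

noncomputable def A : ℚ[X] := (1 + X) ^ 2 * (32 + X)
noncomputable def B : ℚ[X] := (1 + X) * (32 + X)
noncomputable def D : ℚ[X] := 2 * (32 + X) + (1 + X)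

lemma s_eq (n : ℕ) : (s n : ℚ) = (A ^ n).coeff n := by
  have : A = AN.map (Nat.castRingHom ℚ) := by simp [A, AN]
  rw [this, ← Polynomial.map_pow, coeff_map]; rfl

lemma BA (n : ℕ) : B * derivative (A ^ n) = (n : ℚ[X]) * A ^ n * D := by
  induction n with
  | zero => simp
  | succ n ih =>
    have h1 : B * derivative A = A * D := by
      simp only [A, B, D, derivative_mul, derivative_add, derivative_one, derivative_X, sq,
        derivative_ofNat]
      ring
    rw [pow_succ, derivative_mul]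
    push_cast
    linear_combination A * ih + A ^ n * h1

noncomputable def Q (n : ℕ) : ℚ[X] :=
  (-7104 - 12416 * (n : ℚ[X]) - 5120 * (n : ℚ[X]) ^ 2)
  + (-77252 - 117248 * (n : ℚ[X]) - 40960 * (n : ℚ[X]) ^ 2) * X
  + (84136 + 130616 * (n : ℚ[X]) + 45120 * (n : ℚ[X]) ^ 2) * X ^ 2
  + (6401 + 10768 * (n : ℚ[X]) + 4160 * (n : ℚ[X]) ^ 2) * X ^ 3
  + (111 + 194 * (n : ℚ[X]) + 80 * (n : ℚ[X]) ^ 2) * X ^ 4

def p0 (x : ℚ) : ℚ := -29791 * (x + 1) * (2 * x + 1) * (40 * x + 77)
def p1 (x : ℚ) : ℚ := 7520 * x ^ 3 + 29516 * x ^ 2 + 35230 * x + 13429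
def p2 (x : ℚ) : ℚ := (x + 2) * (2 * x + 3) * (40 * x + 37)

lemma key (n : ℕ) :
    C (2 * p0 n) * (X ^ 2 * A ^ n) + C (2 * p1 n) * (X * A ^ (n + 1)) + C (2 * p2 n) * A ^ (n + 2)
      = X * derivative (Q n * B * A ^ n) - C ((n : ℚ) + 2) * (Q n * B * A ^ n) := by
  have h := BA n
  have hd : derivative (Q n * B) =
      ((-77252 - 117248 * (n : ℚ[X]) - 40960 * (n : ℚ[X]) ^ 2)
      + (84136 + 130616 * (n : ℚ[X]) + 45120 * (n : ℚ[X]) ^ 2) * (2 * X)
      + (6401 + 10768 * (n : ℚ[X]) + 4160 * (n : ℚ[X]) ^ 2) * (3 * X ^ 2)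
      + (111 + 194 * (n : ℚ[X]) + 80 * (n : ℚ[X]) ^ 2) * (4 * X ^ 3)) * B
      + Q n * (33 + 2 * X) := by
    rw [derivative_mul]
    congr 1
    · congr 1
      simp [Q, derivative_mul, derivative_X_pow, sq, map_ofNat]
      ring
    · congr 1
      simp [B, derivative_mul]; ring
  rw [derivative_mul (f := Q n * B), hd]
  simp only [p0, p1, p2, map_mul, map_add, map_pow, map_neg, map_ofNat, map_natCast, map_one]
  have e1 : A ^ (n + 1) = A ^ n * A := pow_succ _ _
  have e2 : A ^ (n + 2) = A ^ n * A ^ 2 := pow_add _ _ _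
  rw [e1, e2]
  have h' : X * (Q n * B * derivative (A ^ n)) = X * Q n * ((n : ℚ[X]) * A ^ n * D) := by
    rw [← h]; ring
  rw [mul_add X, h']
  generalize A ^ n = T
  simp only [A, B, D, Q]
  ring

lemma recur (n : ℕ) : p0 n * s n + p1 n * s (n + 1) + p2 n * s (n + 2) = 0 := by
  have h := congrArg (fun p : ℚ[X] => p.coeff (n + 2)) (key n)
  simp only [coeff_add, coeff_sub, coeff_C_mul] at h
  rw [coeff_X_pow_mul, coeff_X_mul, coeff_X_mul, coeff_derivative] at h
  rw [s_eq, s_eq, s_eq]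
  push_cast at h
  linear_combination h / 2

end Pool.Agent.H55.Zud
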