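import Mathlib

set_option autoImplicit false
open Filter Topology

namespace Pool.Agent.H55.Zud

lemma contr_tendsto (x e : ℕ → ℝ) (ρ : ℝ) (h0 : 0 ≤ ρ) (h1 : ρ < 1) (hx : ∀ n, 0 ≤ x n)
    (he : Tendsto e atTop (𝓝 0)) (N : ℕ) (h : ∀ n, N ≤ n → x (n + 1) ≤ ρ * x n + e n) :
    Tendsto x atTop (𝓝 0) := by
  rw [Metric.tendsto_atTop]
  intro η hη
  have h2 : ∀ᶠ n in atTop, e n < (1 - ρ) * (η / 2) :=
    he.eventually (gt_mem_nhds (by have : 0 < 1 - ρ := by linarith
                                   positivity))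
  obtain ⟨M, hM⟩ := eventually_atTop.1 (h2.and (eventually_ge_atTop N))
  have h3 : ∀ k, x (M + k) ≤ η / 2 + ρ ^ k * x M := by
    intro k
    induction k with
    | zero => simp; positivity
    | succ k ih =>
      have a1 := hM (M + k) (by omega)
      have a2 := h (M + k) a1.2
      have a3 : ρ * x (M + k) ≤ ρ * (η / 2 + ρ ^ k * x M) := mul_le_mul_of_nonneg_left ih h0
      rw [← add_assoc, pow_succ]
      nlinarith [a1.1]
  have h4 : Tendsto (fun k : ℕ => ρ ^ k * x M) atTop (𝓝 0) := by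
    simpa using (tendsto_pow_atTop_nhds_zero_of_lt_one h0 h1).mul_const (x M)
  obtain ⟨K, hK⟩ := eventually_atTop.1 (h4.eventually (gt_mem_nhds (show (0 : ℝ) < η / 2 by positivity)))
  refine ⟨M + K, fun n hn => ?_⟩
  obtain ⟨k, rfl⟩ : ∃ k, n = M + k := ⟨n - M, by omega⟩
  have := h3 k
  have := hK k (by omega)
  rw [Real.dist_eq, sub_zero, abs_of_nonneg (hx _)]
  linarith

/-- one step in eigen-coordinates -/
lemma step {l L a b α β u0 u1 u2 ε : ℝ} (hs : l + L = β) (hp : l * L = -α) (hne : L - l ≠ 0)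
    (hu : u2 = b * u1 + a * u0)
    (hε : ε = (|b - β| * (|L| + |l|) + |a - α|) / |L - l|) :
    |(u2 - l * u1) - L * (u1 - l * u0)| ≤ ε * (|u1 - l * u0| + |u1 - L * u0|) ∧
    |(u2 - L * u1) - l * (u1 - L * u0)| ≤ ε * (|u1 - l * u0| + |u1 - L * u0|) := by
  set y := u1 - l * u0 with hy
  set z := u1 - L * u0 with hz
  have hpos : 0 < |L - l| := abs_pos.2 hne
  have e0 : |L - l| * |u0| ≤ |y| + |z| := by
    rw [← abs_mul]
    have : (L - l) * u0 = y - z := by rw [hy, hz]; ring
    rw [this]; exact abs_sub _ _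
  have e1 : |L - l| * |u1| ≤ (|L| + |l|) * (|y| + |z|) := by
    rw [← abs_mul]
    have : (L - l) * u1 = L * y - l * z := by rw [hy, hz]; ring
    rw [this]
    refine (abs_sub _ _).trans ?_
    rw [abs_mul, abs_mul]
    have := abs_nonneg L; have := abs_nonneg l; have := abs_nonneg y; have := abs_nonneg z
    nlinarith [mul_nonneg (abs_nonneg L) (abs_nonneg z), mul_nonneg (abs_nonneg l) (abs_nonneg y)]
  have main : |(b - β) * u1 + (a - α) * u0| ≤ ε * (|y| + |z|) := by
    refine (abs_add_le _ _).trans ?_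
    rw [abs_mul, abs_mul, hε, div_mul_eq_mul_div, le_div_iff₀ hpos]
    have := mul_le_mul_of_nonneg_left e0 (abs_nonneg (a - α))
    have := mul_le_mul_of_nonneg_left e1 (abs_nonneg (b - β))
    nlinarith
  have hα : α = -(l * L) := by linarith
  constructor
  · have : (u2 - l * u1) - L * y = (b - β) * u1 + (a - α) * u0 := by
      rw [hu, hy, ← hs, hα]; ring
    rw [this]; exact main
  · have : (u2 - L * u1) - l * z = (b - β) * u1 + (a - α) * u0 := by
      rw [hu, hz, ← hs, hα]; ring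
    rw [this]; exact main

/-- cone step -/
lemma cone {l L M δ ε y z y' z' : ℝ} (hδ : 0 < δ) (hε : 0 ≤ ε) (hlM : |l| ≤ M)
    (hsm : ε * (1 + δ) * (1 + δ) ≤ δ * (|L| - M))
    (h1 : |y' - L * y| ≤ ε * (|y| + |z|)) (h2 : |z' - l * z| ≤ ε * (|y| + |z|))
    (hc : δ * |z| ≤ |y|) : δ * |z'| ≤ |y'| ∧ M * |y| ≤ |y'| := by
  have a1 : |L| * |y| - ε * (|y| + |z|) ≤ |y'| := by
    have := abs_sub_abs_le_abs_sub (L * y) y'
    rw [abs_sub_comm, abs_mul] at this
    linarith
  have a2 : |z'| ≤ |l| * |z| + ε * (|y| + |z|) := by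
    have := abs_sub_abs_le_abs_sub z' (l * z)
    rw [abs_mul] at this
    linarith
  have hy := abs_nonneg y
  have hz := abs_nonneg z
  have hl := abs_nonneg l
  set E := ε * (|y| + |z|) with hE
  have hE0 : 0 ≤ E := by positivity
  have a3 : δ * E ≤ ε * (1 + δ) * |y| := by
    have := mul_le_mul_of_nonneg_left hc hε
    rw [hE]; nlinarith
  have a4 : δ * ((1 + δ) * E) ≤ δ * ((|L| - M) * |y|) := by
    have b1 := mul_le_mul_of_nonneg_left a3 (show 0 ≤ 1 + δ by linarith)
    have b2 := mul_le_mul_of_nonneg_right hsm hy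
    nlinarith
  have a5 : (1 + δ) * E ≤ (|L| - M) * |y| := le_of_mul_le_mul_left a4 hδ
  have a6 : δ * (|l| * |z|) ≤ M * |y| := by
    have b1 := mul_le_mul_of_nonneg_left hc hl
    have b2 := mul_le_mul_of_nonneg_right hlM hy
    nlinarith
  have a7 : 0 ≤ δ * E := by positivity
  constructor
  · have := mul_le_mul_of_nonneg_left a2 hδ.le
    nlinarith
  · nlinarith

section
variable {l L α β M : ℝ} {a b : ℕ → ℝ}

noncomputable def eps (l L α β : ℝ) (a b : ℕ → ℝ) (n : ℕ) : ℝ :=
  (|b n - β| * (|L| + |l|) + |a n - α|) / |L - l|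

lemma eps_nonneg (n : ℕ) : 0 ≤ eps l L α β a b n := by unfold eps; positivity

lemma eps_tendsto (ha : Tendsto a atTop (𝓝 α)) (hb : Tendsto b atTop (𝓝 β)) :
    Tendsto (eps l L α β a b) atTop (𝓝 0) := by
  have h1 := (ha.sub_const α).abs
  have h2 := (hb.sub_const β).abs
  have := ((h2.mul_const (|L| + |l|)).add h1).div_const |L - l|
  unfold eps
  simpa using this

lemma cone_ev (hs : l + L = β) (hp : l * L = -α) (ha : Tendsto a atTop (𝓝 α))
    (hb : Tendsto b atTop (𝓝 β)) (hlM : |l| ≤ M) (hML : M < |L|) (δ : ℝ) (hδ : 0 < δ) :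
    ∃ N : ℕ, ∀ n, N ≤ n → ∀ u0 u1 u2 : ℝ, u2 = b n * u1 + a n * u0 →
      δ * |u1 - L * u0| ≤ |u1 - l * u0| →
      δ * |u2 - L * u1| ≤ |u2 - l * u1| ∧ M * |u1 - l * u0| ≤ |u2 - l * u1| := by
  have hne : L - l ≠ 0 := by
    intro h; have : L = l := by linarith
    rw [this] at hML; linarith
  have h1 : Tendsto (fun n => eps l L α β a b n * (1 + δ) * (1 + δ)) atTop (𝓝 0) := by
    simpa using ((eps_tendsto (l := l) (L := L) ha hb).mul_const (1 + δ)).mul_const (1 + δ)
  obtain ⟨N, hN⟩ := eventually_atTop.1 (h1.eventually (gt_mem_nhds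
    (show 0 < δ * (|L| - M) from mul_pos hδ (by linarith))))
  refine ⟨N, fun n hn u0 u1 u2 hu hc => ?_⟩
  obtain ⟨s1, s2⟩ := step hs hp hne hu (ε := eps l L α β a b n) rfl
  exact cone hδ (eps_nonneg n) hlM (hN n hn).le s1 s2 hc

lemma ratio_lim {u : ℕ → ℝ} {l L : ℝ} (hne : L - l ≠ 0)
    (hz : ∀ᶠ n in atTop, u (n + 1) - L * u n ≠ 0)
    (h : Tendsto (fun n => (u (n + 1) - l * u n) / (u (n + 1) - L * u n)) atTop (𝓝 0)) :
    Tendsto (fun n => u (n + 1) / u n) atTop (𝓝 l) := by
  have h1 : Tendsto (fun n => (L * ((u (n + 1) - l * u n) / (u (n + 1) - L * u n)) - l) /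
      ((u (n + 1) - l * u n) / (u (n + 1) - L * u n) - 1)) atTop (𝓝 ((L * 0 - l) / (0 - 1))) :=
    ((h.const_mul L).sub_const l).div (h.sub_const 1) (by norm_num)
  have e : (L * 0 - l) / (0 - 1) = l := by ring
  rw [e] at h1
  refine h1.congr' ?_
  filter_upwards [hz] with n hn
  have e1 : L * ((u (n + 1) - l * u n) / (u (n + 1) - L * u n)) - l
      = ((L - l) / (u (n + 1) - L * u n)) * u (n + 1) := by field_simp; ring
  have e2 : (u (n + 1) - l * u n) / (u (n + 1) - L * u n) - 1
      = ((L - l) / (u (n + 1) - L * u n)) * u n := by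
    rw [div_sub_one hn, div_mul_eq_mul_div]; congr 1; ring
  rw [e1, e2, mul_div_mul_left _ _ (div_ne_zero hne hn)]

/-- a slowly growing nonvanishing solution is the minimal one -/
lemma minimal (hs : l + L = β) (hp : l * L = -α) (ha : Tendsto a atTop (𝓝 α))
    (hb : Tendsto b atTop (𝓝 β)) (hlM : |l| ≤ M) (hML : M < |L|) {u : ℕ → ℝ} {G : ℝ}
    (hu : ∀ n, u (n + 2) = b n * u (n + 1) + a n * u n) (hu0 : ∀ n, u n ≠ 0)
    (hG0 : 0 < G) (hG : G < M) (hb' : ∀ n, |u n| ≤ G ^ n) :
    Tendsto (fun n => u (n + 1) / u n) atTop (𝓝 l) := by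
  have hne : L - l ≠ 0 := by
    intro h; have : L = l := by linarith
    rw [this] at hML; linarith
  have key : ∀ δ, 0 < δ → ∀ᶠ n in atTop, |u (n + 1) - l * u n| < δ * |u (n + 1) - L * u n| := by
    intro δ hδ
    obtain ⟨N, hN⟩ := cone_ev hs hp ha hb hlM hML δ hδ
    refine eventually_atTop.2 ⟨N, fun n hn => ?_⟩
    by_contra hc
    push Not at hc
    have hy : 0 < |u (n + 1) - l * u n| := by
      refine abs_pos.2 fun h => ?_
      rw [h, abs_zero] at hc
      have hz : |u (n + 1) - L * u n| = 0 := by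
        have := abs_nonneg (u (n + 1) - L * u n)
        nlinarith
      rw [abs_eq_zero] at hz
      have : (L - l) * u n = 0 := by linarith
      exact hu0 n ((mul_eq_zero.1 this).resolve_left hne)
    have hM0 : 0 ≤ M := by linarith
    have ind : ∀ k, δ * |u (n + k + 1) - L * u (n + k)| ≤ |u (n + k + 1) - l * u (n + k)| ∧
        M ^ k * |u (n + 1) - l * u n| ≤ |u (n + k + 1) - l * u (n + k)| := by
      intro k
      induction k with
      | zero => simpa using hc
      | succ k ih =>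
        obtain ⟨c1, c2⟩ := hN (n + k) (by omega) _ _ _ (hu (n + k)) ih.1
        refine ⟨c1, le_trans ?_ c2⟩
        rw [pow_succ', mul_assoc]
        exact mul_le_mul_of_nonneg_left ih.2 hM0
    have bd : ∀ k, M ^ k * |u (n + 1) - l * u n| ≤ G ^ k * (G ^ n * (G + |l|)) := by
      intro k
      refine (ind k).2.trans ((abs_sub _ _).trans ?_)
      rw [abs_mul]
      have b1 := hb' (n + k + 1)
      have b2 := mul_le_mul_of_nonneg_left (hb' (n + k)) (abs_nonneg l)
      have : G ^ k * (G ^ n * (G + |l|)) = G ^ (n + k + 1) + |l| * G ^ (n + k) := by ring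
      linarith
    have hMp : 0 < M := by linarith
    have lim : Tendsto (fun k : ℕ => (G / M) ^ k * (G ^ n * (G + |l|))) atTop (𝓝 0) := by
      simpa using (tendsto_pow_atTop_nhds_zero_of_lt_one (show 0 ≤ G / M by positivity)
        ((div_lt_one hMp).2 hG)).mul_const (G ^ n * (G + |l|))
    obtain ⟨k, hk⟩ := (lim.eventually (gt_mem_nhds hy)).exists
    have := bd k
    rw [div_pow, div_mul_eq_mul_div, div_lt_iff₀ (by positivity)] at hk
    linarith
  have hz : ∀ᶠ n in atTop, u (n + 1) - L * u n ≠ 0 := by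
    filter_upwards [key 1 one_pos] with n hn h
    rw [h] at hn
    have := abs_nonneg (u (n + 1) - l * u n)
    simp at hn; linarith
  refine ratio_lim hne hz ?_
  rw [Metric.tendsto_nhds]
  intro δ hδ
  filter_upwards [key δ hδ, hz] with n hn h
  rw [Real.dist_eq, sub_zero, abs_div, div_lt_iff₀ (abs_pos.2 h)]
  exact hn

/-- a solution started in the cone is dominant -/
lemma dominant (hs : l + L = β) (hp : l * L = -α) (ha : Tendsto a atTop (𝓝 α))
    (hb : Tendsto b atTop (𝓝 β)) (hlM : |l| < M) (hML : M < |L|) :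
    ∃ N : ℕ, ∀ u : ℕ → ℝ, (∀ n, N ≤ n → u (n + 2) = b n * u (n + 1) + a n * u n) →
      u N = 0 → u (N + 1) = 1 → Tendsto (fun n => u (n + 1) / u n) atTop (𝓝 L) := by
  have hne : L - l ≠ 0 := by
    intro h; have : L = l := by linarith
    rw [this] at hML; linarith
  have hMp : 0 < M := lt_of_le_of_lt (abs_nonneg l) hlM
  obtain ⟨N, hN⟩ := cone_ev hs hp ha hb hlM.le hML 1 one_pos
  refine ⟨N, fun u hu h0 h1 => ?_⟩
  have ind : ∀ n, N ≤ n → 1 * |u (n + 1) - L * u n| ≤ |u (n + 1) - l * u n| ∧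
      0 < |u (n + 1) - l * u n| := by
    intro n hn
    induction n, hn using Nat.le_induction with
    | base => simp [h0, h1]
    | succ n hn ih =>
      obtain ⟨c1, c2⟩ := hN n hn _ _ _ (hu n hn) ih.1
      exact ⟨c1, lt_of_lt_of_le (mul_pos hMp ih.2) c2⟩
  refine ratio_lim (L := l) (fun h => hne (by linarith)) ?_ ?_
  · filter_upwards [eventually_ge_atTop N] with n hn
    exact abs_pos.1 (ind n hn).2
  · rw [tendsto_zero_iff_abs_tendsto_zero]
    refine contr_tendsto _ (fun n => 2 * eps l L α β a b n / M) (|l| / M) (by positivity)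
      ((div_lt_one hMp).2 hlM) (fun n => abs_nonneg _) ?_ N ?_
    · simpa using ((eps_tendsto (l := l) (L := L) ha hb).const_mul 2).div_const M
    · intro n hn
      obtain ⟨c1, c2⟩ := hN n hn _ _ _ (hu n hn) (ind n hn).1
      obtain ⟨s1, s2⟩ := step hs hp hne (hu n hn) (ε := eps l L α β a b n) rfl
      obtain ⟨d1, d2⟩ := ind n hn
      have d3 := (ind (n + 1) (by omega)).2
      simp only [Function.comp, abs_div]
      set y := |u (n + 1) - l * u n| with hy
      set z := |u (n + 1) - L * u n| with hz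
      have e1 : n + 1 + 1 = n + 2 := rfl
      rw [e1] at d3 ⊢
      set y' := |u (n + 2) - l * u (n + 1)| with hy'
      have a2 : |u (n + 2) - L * u (n + 1)| ≤ |l| * z + eps l L α β a b n * (y + z) := by
        have := abs_sub_abs_le_abs_sub (u (n + 2) - L * u (n + 1)) (l * (u (n + 1) - L * u n))
        rw [abs_mul] at this
        linarith
      have he := eps_nonneg (l := l) (L := L) (α := α) (β := β) (a := a) (b := b) n
      have a3 : |u (n + 2) - L * u (n + 1)| ≤ |l| * z + 2 * eps l L α β a b n * y := by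
        nlinarith
      have a4 : |l| / M * (z / y) + 2 * eps l L α β a b n / M
          = (|l| * z + 2 * eps l L α β a b n * y) / (M * y) := by field_simp
      rw [a4]
      have hz0 : 0 ≤ z := abs_nonneg _
      exact div_le_div₀ (by positivity) a3 (mul_pos hMp d2) c2
end

end Pool.Agent.H55.Zud
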