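import Pool.Agent.H55.Zud1
import Pool.Agent.H55.Zud2

set_option autoImplicit false
open Filter Topology Polynomial

namespace Pool.Agent.H55.Zud

lemma eval_div (p q : ℚ[X]) (x : ℚ) (hq : q.eval x ≠ 0) :
    RatFunc.eval (RingHom.id ℚ) x (algebraMap _ (RatFunc ℚ) p / algebraMap _ (RatFunc ℚ) q)
      = p.eval x / q.eval x := by
  have hq0 : q ≠ 0 := by rintro rfl; simp at hq
  set r : RatFunc ℚ := algebraMap _ (RatFunc ℚ) p / algebraMap _ (RatFunc ℚ) q with hr
  have h1 : r.num * q = p * r.denom := (RatFunc.num_mul_eq_mul_denom_iff hq0).2 hr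
  obtain ⟨c, hc⟩ : r.denom ∣ q := RatFunc.denom_div_dvd p q
  have h2 : r.denom.eval x ≠ 0 := by
    intro h; apply hq; rw [hc, eval_mul, h, zero_mul]
  have h3 := congrArg (Polynomial.eval x) h1
  rw [eval_mul, eval_mul] at h3
  unfold RatFunc.eval
  rw [eval₂_id, eval₂_id, div_eq_div_iff h2 hq]
  exact h3

noncomputable def P0 : ℚ[X] := 29791 * (X - 1) * (2 * X - 3) * (40 * X - 3)
noncomputable def P1 : ℚ[X] := -(7520 * (X - 2) ^ 3 + 29516 * (X - 2) ^ 2 + 35230 * (X - 2) + 13429)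
noncomputable def P2 : ℚ[X] := X * (2 * X - 1) * (40 * X - 43)
noncomputable def ra : RatFunc ℚ := algebraMap _ (RatFunc ℚ) P0 / algebraMap _ (RatFunc ℚ) P2
noncomputable def rb : RatFunc ℚ := algebraMap _ (RatFunc ℚ) P1 / algebraMap _ (RatFunc ℚ) P2

lemma p2_pos (n : ℕ) : 0 < p2 n := by unfold p2; positivity

lemma P2_eval (n : ℕ) : P2.eval ((n + 2 : ℕ) : ℚ) = p2 n := by
  simp [P2, p2]; ring

lemma ra_eval (n : ℕ) : RatFunc.eval (RingHom.id ℚ) ((n + 2 : ℕ) : ℚ) ra = -p0 n / p2 n := by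
  rw [ra, eval_div _ _ _ (by rw [P2_eval]; exact (p2_pos n).ne'), P2_eval]
  congr 1
  simp [P0, p0]; ring

lemma rb_eval (n : ℕ) : RatFunc.eval (RingHom.id ℚ) ((n + 2 : ℕ) : ℚ) rb = -p1 n / p2 n := by
  rw [rb, eval_div _ _ _ (by rw [P2_eval]; exact (p2_pos n).ne'), P2_eval]
  congr 1
  simp [P1, p1]

lemma cubic_lim (a3 a2 a1 a0 b3 b2 b1 b0 : ℝ) (hb : b3 ≠ 0) :
    Tendsto (fun n : ℕ => (a3 * (n : ℝ) ^ 3 + a2 * (n : ℝ) ^ 2 + a1 * n + a0) /
      (b3 * (n : ℝ) ^ 3 + b2 * (n : ℝ) ^ 2 + b1 * n + b0)) atTop (𝓝 (a3 / b3)) := by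
  have h : Tendsto (fun n : ℕ => ((n : ℝ))⁻¹) atTop (𝓝 0) := tendsto_inv_atTop_nhds_zero_nat
  have g : ∀ c3 c2 c1 c0 : ℝ, Tendsto (fun n : ℕ => c3 + c2 * ((n : ℝ))⁻¹ + c1 * ((n : ℝ))⁻¹ ^ 2
      + c0 * ((n : ℝ))⁻¹ ^ 3) atTop (𝓝 c3) := by
    intro c3 c2 c1 c0
    have := (((h.const_mul c2).const_add c3).add ((h.pow 2).const_mul c1)).add
      ((h.pow 3).const_mul c0)
    simpa using this
  refine ((g a3 a2 a1 a0).div (g b3 b2 b1 b0) hb).congr' ?_
  filter_upwards [eventually_ge_atTop 1] with n hn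
  have hn' : (n : ℝ) ≠ 0 := by positivity
  have e : ∀ c3 c2 c1 c0 : ℝ, c3 + c2 * ((n : ℝ))⁻¹ + c1 * ((n : ℝ))⁻¹ ^ 2
      + c0 * ((n : ℝ))⁻¹ ^ 3 = (c3 * (n : ℝ) ^ 3 + c2 * (n : ℝ) ^ 2 + c1 * n + c0) / (n : ℝ) ^ 3 := by
    intro c3 c2 c1 c0; field_simp
  simp only [Pi.div_apply]
  rw [e, e, div_div_div_cancel_right₀ (pow_ne_zero 3 hn')]

noncomputable def aa (n : ℕ) : ℚ := -p0 n / p2 n
noncomputable def bb (n : ℕ) : ℚ := -p1 n / p2 n

lemma aa_lim : Tendsto (fun n : ℕ => (aa n : ℝ)) atTop (𝓝 29791) := by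
  have := cubic_lim 2383280 8162734 8073361 2293907 80 354 499 222 (by norm_num)
  rw [show (2383280 : ℝ) / 80 = 29791 by norm_num] at this
  refine this.congr fun n => ?_
  simp only [aa, p0, p2]; push_cast; congr 1 <;> ring

lemma bb_lim : Tendsto (fun n : ℕ => (bb n : ℝ)) atTop (𝓝 (-94)) := by
  have := cubic_lim (-7520) (-29516) (-35230) (-13429) 80 354 499 222 (by norm_num)
  rw [show (-7520 : ℝ) / 80 = -94 by norm_num] at this
  refine this.congr fun n => ?_
  simp only [bb, p1, p2]; push_cast; congr 1 <;> ring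

lemma s_rec (n : ℕ) : (s (n + 2) : ℚ) = bb n * s (n + 1) + aa n * s n := by
  have h := recur n
  have := (p2_pos n).ne'
  simp only [aa, bb]
  field_simp
  linear_combination h

/-- the dominant solution, started at N -/
noncomputable def W (N : ℕ) : ℕ → ℚ × ℚ
  | 0 => (0, 1)
  | n + 1 => if n < N then (0, 1) else ((W N n).2, bb n * (W N n).2 + aa n * (W N n).1)

lemma W_le (N n : ℕ) (h : n ≤ N) : W N n = (0, 1) := by
  cases n with
  | zero => rfl
  | succ n => simp [W, show n < N by omega]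

lemma W_fst (N n : ℕ) (h : N ≤ n) : (W N (n + 1)).1 = (W N n).2 := by
  simp [W, show ¬ n < N by omega]

lemma W_rec (N n : ℕ) (h : N ≤ n) :
    (W N (n + 2)).1 = bb n * (W N (n + 1)).1 + aa n * (W N n).1 := by
  rw [W_fst N (n + 1) (by omega), W_fst N n h]
  simp [W, show ¬ n < N by omega]

theorem main :
    ¬ (∀ (a b : RatFunc ℚ) (α β lam Lam : ℝ) (v w : ℕ → ℚ),
      Tendsto (fun n : ℕ => ((RatFunc.eval (RingHom.id ℚ) (n : ℚ) a : ℚ) : ℝ)) atTop (nhds α) →
      Tendsto (fun n : ℕ => ((RatFunc.eval (RingHom.id ℚ) (n : ℚ) b : ℚ) : ℝ)) atTop (nhds β) →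
      lam + Lam = β →
      lam * Lam = -α →
      0 < |lam| →
      |lam| < |Lam| →
      (∀ᶠ n in atTop, v (n + 2) =
          RatFunc.eval (RingHom.id ℚ) ((n + 2 : ℕ) : ℚ) b * v (n + 1) +
          RatFunc.eval (RingHom.id ℚ) ((n + 2 : ℕ) : ℚ) a * v n) →
      (∀ᶠ n in atTop, w (n + 2) =
          RatFunc.eval (RingHom.id ℚ) ((n + 2 : ℕ) : ℚ) b * w (n + 1) +
          RatFunc.eval (RingHom.id ℚ) ((n + 2 : ℕ) : ℚ) a * w n) →
      (∀ c d : ℚ, (∀ᶠ n in atTop, c * v n + d * w n = 0) → c = 0 ∧ d = 0) →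
      Tendsto (fun n : ℕ => ((v (n + 1) : ℝ) / (v n : ℝ))) atTop (nhds lam) →
      Tendsto (fun n : ℕ => ((w (n + 1) : ℝ) / (w n : ℝ))) atTop (nhds Lam) →
      (∃ q : ℚ, (q : ℝ) = lam) ∧ (∃ r : ℚ, (r : ℝ) = Lam)) := by
  intro H
  set t : ℝ := Real.sqrt 5 with ht
  have ht2 : t * t = 5 := Real.mul_self_sqrt (by norm_num)
  have ht0 : 0 ≤ t := Real.sqrt_nonneg _
  have ht1 : 2.2 < t := by nlinarith
  have ht3 : t < 2.3 := by nlinarith
  have hs : (-47 + 80 * t) + (-47 - 80 * t) = (-94 : ℝ) := by ring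
  have hp : (-47 + 80 * t) * (-47 - 80 * t) = -(29791 : ℝ) := by nlinarith
  have hl : |(-47 + 80 * t)| = -47 + 80 * t := abs_of_pos (by linarith)
  have hL : |(-47 - 80 * t)| = 47 + 80 * t := by rw [abs_of_neg (by linarith)]; ring
  have hlM : |(-47 + 80 * t)| < 200 := by rw [hl]; linarith
  have hML : 200 < |(-47 - 80 * t)| := by rw [hL]; linarith
  have hv : Tendsto (fun n => ((s (n + 1) : ℝ)) / (s n : ℝ)) atTop (𝓝 (-47 + 80 * t)) := by
    refine minimal (u := fun n => (s n : ℝ)) (G := 132) hs hp aa_lim bb_lim hlM.le hML ?_ ?_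
      (by norm_num) (by norm_num) ?_
    · intro n
      have := congrArg (fun x : ℚ => (x : ℝ)) (s_rec n)
      simpa using this
    · intro n; have := s_pos n; positivity
    · intro n
      rw [abs_of_nonneg (by positivity)]
      exact_mod_cast s_le n
  obtain ⟨N, hN⟩ := dominant hs hp aa_lim bb_lim hlM hML
  have hw := hN (fun n => ((W N n).1 : ℝ))
    (fun n hn => by
      have := congrArg (fun x : ℚ => (x : ℝ)) (W_rec N n hn)
      simpa using this)
    (by simp [W_le N N le_rfl]) (by simp [W_fst N N le_rfl, W_le N N le_rfl])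
  have hv' : Tendsto (fun n => ((((s (n + 1) : ℕ) : ℚ) : ℝ)) / (((s n : ℕ) : ℚ) : ℝ)) atTop
      (𝓝 (-47 + 80 * t)) := by simpa using hv
  obtain ⟨⟨q, hq⟩, -⟩ := H ra rb 29791 (-94) (-47 + 80 * t) (-47 - 80 * t) (fun n => s n)
    (fun n => (W N n).1)
    (by
      rw [← tendsto_add_atTop_iff_nat 2]
      refine aa_lim.congr fun n => ?_
      rw [ra_eval]; rfl)
    (by
      rw [← tendsto_add_atTop_iff_nat 2]
      refine bb_lim.congr fun n => ?_
      rw [rb_eval]; rfl)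
    hs hp (by rw [hl]; linarith) (hlM.trans hML)
    (Eventually.of_forall fun n => by rw [ra_eval, rb_eval]; exact s_rec n)
    (by
      filter_upwards [eventually_ge_atTop N] with n hn
      rw [ra_eval, rb_eval]; exact W_rec N n hn)
    (by
      intro c d hcd
      have hsn : ∀ n, (s n : ℚ) ≠ 0 := fun n => by have := s_pos n; positivity
      have hd : d = 0 := by
        by_contra hd
        have hw2 : ∀ᶠ n in atTop, (W N n).1 = (-c / d) * s n := by
          filter_upwards [hcd] with n hn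
          field_simp; linear_combination hn
        have hw3 := (tendsto_add_atTop_nat 1).eventually hw2
        by_cases hc : c = 0
        · have : Tendsto (fun n => (((W N (n + 1)).1 : ℝ)) / ((W N n).1 : ℝ)) atTop (𝓝 0) := by
            refine tendsto_const_nhds.congr' ?_
            filter_upwards [hw2] with n hn
            rw [hn, hc]; simp
          have := tendsto_nhds_unique this hw
          linarith
        · have : Tendsto (fun n => (((W N (n + 1)).1 : ℝ)) / ((W N n).1 : ℝ)) atTop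
              (𝓝 (-47 + 80 * t)) := by
            refine hv.congr' ?_
            filter_upwards [hw2, hw3] with n hn hn'
            rw [hn, hn']
            have : ((-c / d : ℚ) : ℝ) ≠ 0 := by
              exact_mod_cast div_ne_zero (neg_ne_zero.2 hc) hd
            rw [Rat.cast_mul, Rat.cast_mul, mul_div_mul_left _ _ this]; simp
          have := tendsto_nhds_unique this hw
          linarith
      refine ⟨?_, hd⟩
      obtain ⟨n, hn⟩ := hcd.exists
      rw [hd, zero_mul, add_zero] at hn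
      exact (mul_eq_zero.1 hn).resolve_right (hsn n))
    hv' hw
  have h5 : Irrational t := by
    have := Nat.Prime.irrational_sqrt (show Nat.Prime 5 by norm_num)
    simpa using this
  exact h5 ⟨(q + 47) / 80, by push_cast; linarith⟩

end Pool.Agent.H55.Zud
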